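import Pool.Agent.helper797_cs.PF4d

/-! # F4, part e: the inner model of the extension, for an arbitrary forcing -/

set_option autoImplicit false
set_option linter.unusedSectionVars false

namespace Pool.Agent.helper797_cs
open Pool.Agent.W868 Pool.Agent.R587
open ZFSet (pair)
open Cardinal Ordinal

theorem pf4_main {P : Type} [Preorder P] [OrderTop P] {B : Cardinal.{0} → Prop}
    {A : Set (PName P)} (hA : A.Countable)
    (hcof : ∀ π : Pkg P, A ⊆ π.N → ∀ α : Ordinal.{0}, α.toZFSet ∈ π.Z → ℵ₀ ≤ α.cof →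
        ((∃ g : ℕ → ZFSet.{0}, sqSet g ∈ π.W ∧ (∀ n, g n ∈ π.hat α.toZFSet) ∧
          ∀ x ∈ π.hat α.toZFSet, ∃ n, x ∈ g n) ↔ B α.cof))
    {κ : Cardinal.{0}} {U : ZFSet.{0}} (hU : IsNormalMeasure κ U) {α : Ordinal.{0}}
    (hα : U ∈ Lp (CofB B) α) :
    ∃ N : Set ZFSet.{0}, N.Countable ∧ IsZFC N ∧ ∃ κ' D, MeasIn (Cst N) κ' D := by
  have hdata : ∀ i : Bool, ∃ (σ : ZFSet.{0} → Cardinal.{0})
      (g : ZFSet.{0} → Ordinal.{0} → ZFSet.{0}) (b : ZFSet.{0} → ZFSet.{0} → Ordinal.{0}),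
      ∀ R, CofB (fun c => i = true ∨ B c) R → (σ R).IsRegular ∧ (i = true ∨ B (σ R)) ∧
        (∀ i j, i < j → j < (σ R).ord → g R i ≠ g R j ∧ pair (g R i) (g R j) ∈ R) ∧
        ∀ a, Fld R a → b R a < (σ R).ord ∧ pair a (g R (b R a)) ∈ R :=
    fun i => pf4_data fun c => i = true ∨ B c
  choose σ g b hdata using hdata
  set F : Set (ZFSet.{0} → ZFSet.{0} → ZFSet.{0}) :=
    (((Set.range fun i : Bool => fun R (_ : ZFSet.{0}) => (σ i R).ord.toZFSet) ∪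
      (Set.range fun i : Bool => fun R (_ : ZFSet.{0}) =>
        gr (fun u => g i R u.rank) (σ i R).ord.toZFSet) ∪
      (Set.range fun i : Bool => fun R a => (b i R a).toZFSet)) ∪
    ((Set.range (pf4Wit (CofB B))) ∪ (Set.range (pf4Rel (CofB B))) ∪
      (Set.range (pf4Sep (CofB B))) ∪ (Set.range (pf4Par (CofB B))))) ∪
    ({fun R _ => pf4Max R, fun x _ => Lp (CofB B) x.rank,
      fun x _ => (sInf {α | x ∈ Lp (CofB B) α}).toZFSet, fun x y => x \ y,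
      fun f x => ZFSet.sep (fun ξ => ∀ η X, pair η X ∈ f → ξ ∈ X) x, pf4Cex} :
      Set (ZFSet.{0} → ZFSet.{0} → ZFSet.{0})) with hF
  have hFc : F.Countable := by
    rw [hF]
    refine Set.Countable.union (Set.Countable.union ?_ ?_) ?_
    · exact ((Set.countable_range _).union (Set.countable_range _)).union (Set.countable_range _)
    · exact (((Set.countable_range _).union (Set.countable_range _)).union
        (Set.countable_range _)).union (Set.countable_range _)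
    · exact Set.Finite.countable (Set.toFinite _)
  obtain ⟨π, hAπ, hcl⟩ := pf4_exists_pkg F hFc
    (A ∪ {check κ.ord.toZFSet, check U}) (hA.union (Set.Finite.countable (Set.toFinite _)))
  have hκZ : κ.ord.toZFSet ∈ π.Z := hAπ (Or.inr (Or.inl rfl))
  have hUZ : U ∈ π.Z := hAπ (Or.inr (Or.inr rfl))
  have c1 : ∀ i, ∀ R ∈ π.Z, (σ i R).ord.toZFSet ∈ π.Z := fun i R hR =>
    hcl (fun R _ => (σ i R).ord.toZFSet) (Or.inl (Or.inl (Or.inl (Or.inl ⟨i, rfl⟩)))) R hR R hR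
  have c2 : ∀ i, ∀ R ∈ π.Z, gr (fun u => g i R u.rank) (σ i R).ord.toZFSet ∈ π.Z :=
    fun i R hR => hcl (fun R _ => gr (fun u => g i R u.rank) (σ i R).ord.toZFSet)
      (Or.inl (Or.inl (Or.inl (Or.inr ⟨i, rfl⟩)))) R hR R hR
  have c3 : ∀ i, ∀ R ∈ π.Z, ∀ a ∈ π.Z, (b i R a).toZFSet ∈ π.Z := fun i R hR a ha =>
    hcl (fun R a => (b i R a).toZFSet) (Or.inl (Or.inl (Or.inr ⟨i, rfl⟩))) R hR a ha
  have c4 : ∀ R ∈ π.Z, pf4Max R ∈ π.Z := fun R hR =>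
    hcl (fun R _ => pf4Max R) (Or.inr (by simp)) R hR R hR
  have c5 : ∀ α : Ordinal.{0}, α.toZFSet ∈ π.Z → Lp (CofB B) α ∈ π.Z := by
    intro α hα
    have h := hcl (fun x _ => Lp (CofB B) x.rank) (Or.inr (by simp)) _ hα _ hα
    beta_reduce at h
    rwa [rank_toZFSet] at h
  have c6 : ∀ x ∈ π.Z, (sInf {α | x ∈ Lp (CofB B) α}).toZFSet ∈ π.Z := fun x hx =>
    hcl (fun x _ => (sInf {α | x ∈ Lp (CofB B) α}).toZFSet) (Or.inr (by simp)) x hx x hx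
  have c7 : ∀ x ∈ π.Z, ∀ y ∈ π.Z, x \ y ∈ π.Z := fun x hx y hy =>
    hcl (fun x y => x \ y) (Or.inr (by simp)) x hx y hy
  have c8 : ∀ f ∈ π.Z, ∀ x ∈ π.Z,
      ZFSet.sep (fun ξ => ∀ η X, pair η X ∈ f → ξ ∈ X) x ∈ π.Z := fun f hf x hx =>
    hcl (fun f x => ZFSet.sep (fun ξ => ∀ η X, pair η X ∈ f → ξ ∈ X) x) (Or.inr (by simp))
      f hf x hx
  have c9 : ∀ f ∈ π.Z, ∀ ξ ∈ π.Z, pf4Cex f ξ ∈ π.Z := fun f hf ξ hξ =>
    hcl pf4Cex (Or.inr (by simp)) f hf ξ hξ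
  have H : Pf4K π (CofB B) (CofW π.W) :=
    { cof := fun R hR => pf4_cof (hcof π fun x hx => hAπ (Or.inl hx)) hdata c1 c2 c3 c4 hR
      wit := fun φ X hX p hp => hcl _ (Or.inl (Or.inr (Or.inl (Or.inl (Or.inl ⟨φ, rfl⟩)))))
        X hX p hp
      rel := fun φ X hX p hp => hcl _ (Or.inl (Or.inr (Or.inl (Or.inl (Or.inr ⟨φ, rfl⟩)))))
        X hX p hp
      sep := fun φ X hX p hp => hcl _ (Or.inl (Or.inr (Or.inl (Or.inr ⟨φ, rfl⟩)))) X hX p hp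
      par := fun φ X hX p hp => hcl _ (Or.inl (Or.inr (Or.inr ⟨φ, rfl⟩))) X hX p hp }
  have hC : ∀ x : ZFSet.{0}, x ∈ Cst π.W ↔
      ∃ y ∈ π.Z, (∃ α, y ∈ Lp (CofB B) α) ∧ π.hat y = x := fun x =>
    pf4_mem_Cst H π.V_subset_W (fun x hx hxW => π.ord_V hx hxW) c5 c6
  refine ⟨π.W, π.countable_W, π.isZFC_W, π.hat κ.ord.toZFSet, π.hat U, ?_⟩
  refine pf4_meas hU hκZ hUZ (fun x hx => ?_) ((hC _).2 ⟨U, hUZ, ⟨α, hα⟩, rfl⟩) c7 c8 c9
  obtain ⟨y, hy, -, rfl⟩ := (hC x).1 hx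
  exact ⟨y, hy, rfl⟩

end Pool.Agent.helper797_cs
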