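import Pool.Agent.helper797_cs.PF2
import Pool.Agent.helper797_cs.PF4e

/-! # F4: Part B of the paper: `C*` of the extension -/

set_option autoImplicit false
namespace Pool.Agent.helper797_cs
open Pool.Agent.W868 Pool.Agent.R587
open Cardinal

theorem partB {I : Type} {ρ : I → Cardinal.{0}} {lam : Cardinal.{0}} (hl : ℵ₀ ≤ lam)
    (hI : #I = lam) (hρ : ∀ i, (ρ i).IsRegular ∧ lam < ρ i) {κ : Cardinal.{0}} {U : ZFSet.{0}}
    (hU : IsNormalMeasure κ U) {α : Ordinal.{0}} (hα : U ∈ Lp (CofB (Bset lam ρ)) α) :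
    ∃ N : Set ZFSet.{0}, N.Countable ∧ IsZFC N ∧ ∃ κ' D, MeasIn (Cst N) κ' D := by
  have : Fact (∀ i, ℵ₀ ≤ ρ i) := ⟨fun i => (hρ i).1.aleph0_le⟩
  obtain ⟨A, hA, hcof⟩ := cof_iff hl hI hρ
  exact pf4_main hA hcof hU hα

end Pool.Agent.helper797_cs
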