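import Mathlib

/-! # Increasing cofinal sequences of ordinals -/

set_option autoImplicit false

namespace Pool.Agent.helper797_cs
open Cardinal

/-- An increasing cofinal sequence. -/
theorem F2_seq (α : Ordinal.{0}) : ∃ F : Ordinal.{0} → Ordinal.{0},
    (∀ i j, i < j → j < α.cof.ord → F i < F j) ∧ (∀ i < α.cof.ord, F i < α) ∧
      ∀ ξ < α, ∃ i < α.cof.ord, ξ ≤ F i := by
  obtain ⟨s, hs, hs'⟩ := Ordinal.exists_ord_cof_eq α.ToType
  rw [Ordinal.cof_toType, ← Ordinal.type_toType α.cof.ord, Ordinal.type_eq] at hs'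
  obtain ⟨e⟩ := hs'
  have he : ∀ a b : α.cof.ord.ToType, a < b → e.symm a < e.symm b := fun a b h =>
    e.symm.map_rel_iff.2 h
  let f : Set.Iio α.cof.ord → Set.Iio α := fun i =>
    Ordinal.ToType.mk.symm (e.symm (Ordinal.ToType.mk i)).1
  have hf : ∀ i j, i < j → f i < f j := fun i j hij =>
    Ordinal.ToType.mk.symm.lt_iff_lt.2 (he _ _ (Ordinal.ToType.mk.lt_iff_lt.2 hij))
  classical
  obtain ⟨F, hF⟩ : ∃ F : Ordinal.{0} → Ordinal.{0}, ∀ i (h : i ∈ Set.Iio α.cof.ord),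
      F i = (f ⟨i, h⟩).1 :=
    ⟨fun i => if h : i ∈ Set.Iio α.cof.ord then (f ⟨i, h⟩).1 else 0, fun i h => dif_pos h⟩
  refine ⟨F, ?_, ?_, ?_⟩
  · intro i j hij hj
    rw [hF i (hij.trans hj), hF j hj]
    exact hf _ _ hij
  · intro i hi
    rw [hF i hi]
    exact (f ⟨i, hi⟩).2
  · intro ξ hξ
    obtain ⟨a, ha, hle⟩ := hs (Ordinal.ToType.mk ⟨ξ, hξ⟩)
    let i : Set.Iio α.cof.ord := Ordinal.ToType.mk.symm (e ⟨a, ha⟩)
    refine ⟨i.1, i.2, ?_⟩
    rw [hF i.1 i.2]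
    have h1 : f i = Ordinal.ToType.mk.symm a := by
      change Ordinal.ToType.mk.symm (e.symm (Ordinal.ToType.mk
        (Ordinal.ToType.mk.symm (e ⟨a, ha⟩)))).1 = _
      rw [OrderIso.apply_symm_apply]
      have h2 : e.symm (e ⟨a, ha⟩) = ⟨a, ha⟩ := by simp
      rw [h2]
    have h3 := Ordinal.ToType.mk.symm.le_iff_le.2 hle
    rw [OrderIso.symm_apply_apply, ← h1] at h3
    exact h3

end Pool.Agent.helper797_cs
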