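import Pool.Agent.helper797_cs.CDefs
import Pool.Agent.helper797_cs.PSq

/-! # W2, first part: the hierarchy, and the cofinality quantifier at the ordinals -/

set_option autoImplicit false

namespace Pool.Agent.helper797_cs
open Pool.Agent.W868 Pool.Agent.R587
open ZFSet (pair)
open Cardinal

/-! ### The hierarchy -/

theorem lp_zero (K : ZFSet.{0} → Prop) : Lp K 0 = ∅ := by
  unfold Lp
  rw [Ordinal.limitRecOn_zero]

theorem lp_succ (K : ZFSet.{0} → Prop) (α : Ordinal.{0}) :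
    Lp K (α + 1) = DefQ K (Lp K α) := by
  unfold Lp
  rw [Ordinal.limitRecOn_add_one]

theorem lp_limit (K : ZFSet.{0} → Prop) {α : Ordinal.{0}} (h : Order.IsSuccLimit α) {x : ZFSet.{0}} :
    x ∈ Lp K α ↔ ∃ β < α, x ∈ Lp K β := by
  have h1 : Lp K α = ZFSet.sUnion (ZFSet.range fun β : Set.Iio α => Lp K β.1) := by
    unfold Lp
    rw [Ordinal.limitRecOn_limit _ _ _ _ h]
  rw [h1, ZFSet.mem_sUnion]
  constructor
  · rintro ⟨y, hy, hx⟩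
    obtain ⟨⟨β, hβ⟩, rfl⟩ := ZFSet.mem_range.1 hy
    exact ⟨β, hβ, hx⟩
  · rintro ⟨β, hβ, hx⟩
    exact ⟨_, ZFSet.mem_range.2 ⟨⟨β, hβ⟩, rfl⟩, hx⟩

theorem W2_mem_defQ {K : ZFSet.{0} → Prop} {X Y : ZFSet.{0}} : Y ∈ DefQ K X ↔ Y ⊆ X ∧
    ∃ (n : ℕ) (φ : FmQ (n + 1)) (v : Fin n → ZFSet.{0}), (∀ i, v i ∈ X) ∧
      ∀ a, a ∈ Y ↔ a ∈ X ∧ φ.Sat K X (Fin.cons a v) := by
  unfold DefQ
  rw [ZFSet.mem_sep, ZFSet.mem_powerset]

theorem W2_sep_mem {K : ZFSet.{0} → Prop} {X : ZFSet.{0}} {n : ℕ} (φ : FmQ (n + 1))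
    (v : Fin n → ZFSet.{0}) (hv : ∀ i, v i ∈ X) (Q : ZFSet.{0} → Prop)
    (hQ : ∀ a ∈ X, (Q a ↔ φ.Sat K X (Fin.cons a v))) : ZFSet.sep Q X ∈ DefQ K X := by
  rw [W2_mem_defQ]
  refine ⟨fun a ha => (ZFSet.mem_sep.1 ha).1, n, φ, v, hv, fun a => ?_⟩
  rw [ZFSet.mem_sep]
  exact and_congr_right fun ha => hQ a ha

theorem W2_sub_defQ {K : ZFSet.{0} → Prop} {X : ZFSet.{0}} (hX : ∀ x ∈ X, ∀ y ∈ x, y ∈ X) :
    X ⊆ DefQ K X := by
  intro x hx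
  have h := W2_sep_mem (K := K) (X := X) (n := 1) (.mem 0 1) (fun _ => x) (fun _ => hx)
    (fun a => a ∈ x) (fun a _ => Iff.rfl)
  have h1 : ZFSet.sep (fun a => a ∈ x) X = x := by
    ext a
    rw [ZFSet.mem_sep]
    exact ⟨fun h => h.2, fun h => ⟨hX x hx a h, h⟩⟩
  rwa [h1] at h

theorem lp_trans (K : ZFSet.{0} → Prop) (α : Ordinal.{0}) :
    ∀ x ∈ Lp K α, ∀ y ∈ x, y ∈ Lp K α := by
  induction α using Ordinal.limitRecOn with
  | zero =>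
    intro x hx
    rw [lp_zero] at hx
    exact absurd hx (ZFSet.notMem_empty _)
  | add_one α ih =>
    intro x hx y hy
    rw [lp_succ] at hx ⊢
    exact W2_sub_defQ ih ((W2_mem_defQ.1 hx).1 hy)
  | limit α hα ih =>
    intro x hx y hy
    obtain ⟨β, hβ, hx⟩ := (lp_limit K hα).1 hx
    exact (lp_limit K hα).2 ⟨β, hβ, ih β hβ x hx y hy⟩

theorem lp_mono (K : ZFSet.{0} → Prop) {α β : Ordinal.{0}} (h : α ≤ β) : Lp K α ⊆ Lp K β := by
  induction β using Ordinal.limitRecOn with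
  | zero =>
    obtain rfl : α = 0 := le_antisymm h zero_le
    exact subset_rfl
  | add_one β ih =>
    rcases h.lt_or_eq with h | rfl
    · refine (ih (Order.lt_add_one_iff.1 h)).trans ?_
      rw [lp_succ]
      exact W2_sub_defQ (lp_trans K β)
    · exact subset_rfl
  | limit β hβ ih =>
    rcases h.lt_or_eq with h | rfl
    · intro x hx
      exact (lp_limit K hβ).2 ⟨α, h, hx⟩
    · exact subset_rfl

/-! ### First order formulas -/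

/-- The translation of the formulas without parameters. -/
def W2_tr : {n : ℕ} → Fml Empty n → FmQ n
  | _, .mem s t => .mem (s.elim id Empty.elim) (t.elim id Empty.elim)
  | _, .eq s t => .eq (s.elim id Empty.elim) (t.elim id Empty.elim)
  | _, .neg φ => .neg (W2_tr φ)
  | _, .and φ ψ => .and (W2_tr φ) (W2_tr ψ)
  | _, .ex φ => .ex (W2_tr φ)

theorem W2_elim {n : ℕ} (s : Fin n ⊕ Empty) (v : Fin n → ZFSet.{0}) :
    v (s.elim id Empty.elim) = Sum.elim v Empty.elim s := by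
  cases s with
  | inl i => rfl
  | inr e => exact e.elim

theorem W2_tr_sat (K : ZFSet.{0} → Prop) (X : ZFSet.{0}) : {n : ℕ} → (φ : Fml Empty n) →
    (v : Fin n → ZFSet.{0}) → ((W2_tr φ).Sat K X v ↔ Sat {x | x ∈ X} Empty.elim φ v)
  | _, .mem s t, v => by simp only [W2_tr, FmQ.Sat, Sat, W2_elim]
  | _, .eq s t, v => by simp only [W2_tr, FmQ.Sat, Sat, W2_elim]
  | _, .neg φ, v => by simp only [W2_tr, FmQ.Sat, Sat, W2_tr_sat K X φ]
  | _, .and φ ψ, v => by simp only [W2_tr, FmQ.Sat, Sat, W2_tr_sat K X φ, W2_tr_sat K X ψ]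
  | _, .ex φ, v => by
    simp only [W2_tr, FmQ.Sat, Sat, W2_tr_sat K X φ]
    rfl

/-! ### The cofinalities -/

/-- The order of the elements of `a`. -/
noncomputable def W2_R (X a : ZFSet.{0}) : ZFSet.{0} :=
  ZFSet.sep (fun p => ∃ x ∈ X, ∃ y ∈ X, p = pair x y ∧ (x ∈ y ∧ y ∈ a)) (ZFSet.prod X X)

theorem W2_mem_R {X : ZFSet.{0}} (hX : ∀ x ∈ X, ∀ y ∈ x, y ∈ X) {α : Ordinal.{0}}
    (hα : α.toZFSet ∈ X) {x y : ZFSet.{0}} : pair x y ∈ W2_R X α.toZFSet ↔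
      ∃ ξ η : Ordinal.{0}, ξ < η ∧ η < α ∧ x = ξ.toZFSet ∧ y = η.toZFSet := by
  unfold W2_R
  rw [ZFSet.mem_sep]
  constructor
  · rintro ⟨-, x', -, y', -, h, h1, h2⟩
    obtain ⟨rfl, rfl⟩ := ZFSet.pair_inj.1 h
    obtain ⟨η, hη, rfl⟩ := Ordinal.mem_toZFSet_iff.1 h2
    obtain ⟨ξ, hξ, rfl⟩ := Ordinal.mem_toZFSet_iff.1 h1
    exact ⟨ξ, η, hξ, hη, rfl, rfl⟩
  · rintro ⟨ξ, η, hξ, hη, rfl, rfl⟩
    have h1 : η.toZFSet ∈ X := hX _ hα _ (Ordinal.toZFSet_mem_toZFSet_iff.2 hη)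
    have h2 : ξ.toZFSet ∈ X := hX _ h1 _ (Ordinal.toZFSet_mem_toZFSet_iff.2 hξ)
    exact ⟨ZFSet.pair_mem_prod.2 ⟨h2, h1⟩, _, h2, _, h1, rfl,
      Ordinal.toZFSet_mem_toZFSet_iff.2 hξ, Ordinal.toZFSet_mem_toZFSet_iff.2 hη⟩

theorem W2_fld {X : ZFSet.{0}} (hX : ∀ x ∈ X, ∀ y ∈ x, y ∈ X) {α : Ordinal.{0}}
    (hα : α.toZFSet ∈ X) {a : ZFSet.{0}} (h : Fld (W2_R X α.toZFSet) a) :
    ∃ ξ < α, a = ξ.toZFSet := by
  obtain ⟨b, h | h⟩ := h
  · obtain ⟨ξ, η, h1, h2, rfl, rfl⟩ := (W2_mem_R hX hα).1 h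
    exact ⟨ξ, h1.trans h2, rfl⟩
  · obtain ⟨ξ, η, h1, h2, rfl, rfl⟩ := (W2_mem_R hX hα).1 h
    exact ⟨η, h2, rfl⟩

theorem W2_cof {B : Cardinal.{0} → Prop} {X : ZFSet.{0}} (hX : ∀ x ∈ X, ∀ y ∈ x, y ∈ X)
    {α : Ordinal.{0}} (hα : α.toZFSet ∈ X) : CofB B (W2_R X α.toZFSet) ↔ SB B α := by
  have hR : ∀ {ξ η : Ordinal.{0}}, pair ξ.toZFSet η.toZFSet ∈ W2_R X α.toZFSet ↔
      ξ < η ∧ η < α := by
    intro ξ η
    rw [W2_mem_R hX hα]
    constructor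
    · rintro ⟨ξ', η', h1, h2, h3, h4⟩
      rw [Ordinal.toZFSet_injective h3, Ordinal.toZFSet_injective h4]
      exact ⟨h1, h2⟩
    · rintro ⟨h1, h2⟩
      exact ⟨ξ, η, h1, h2, rfl, rfl⟩
  constructor
  · rintro ⟨-, ρ, hρ, hB, g, h1, h2⟩
    have hlim : Order.IsSuccLimit ρ.ord := Cardinal.isSuccLimit_ord hρ.aleph0_le
    have h3 : ∀ i : Set.Iio ρ.ord, ∃ ξ : Ordinal.{0}, g i.1 = ξ.toZFSet := by
      rintro ⟨i, hi⟩
      obtain ⟨ξ, η, -, -, h3, -⟩ := (W2_mem_R hX hα).1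
        (h1 i (i + 1) (lt_add_one i) (hlim.add_one_lt hi)).2
      exact ⟨ξ, h3⟩
    choose f hf using h3
    have hmono : StrictMono f := by
      intro i j hij
      have h3 := (h1 i.1 j.1 hij j.2).2
      rw [hf, hf, hR] at h3
      exact h3.1
    have hlt : ∀ i, f i < α := by
      intro i
      have h3 := (h1 i.1 (i.1 + 1) (lt_add_one i.1) (hlim.add_one_lt i.2)).2
      have h4 := hf ⟨i.1 + 1, hlim.add_one_lt i.2⟩
      simp only at h4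
      rw [hf, h4, hR] at h3
      exact h3.1.trans h3.2
    have hρ0 : (0 : Ordinal.{0}) < ρ.ord := hlim.bot_lt
    have hex : ∀ ξ < α, ∃ i, ξ < f i := by
      intro ξ hξ
      let i₀ : Set.Iio ρ.ord := ⟨0, hρ0⟩
      let i₁ : Set.Iio ρ.ord := ⟨0 + 1, hlim.add_one_lt hρ0⟩
      rcases lt_trichotomy ξ (f i₀) with h3 | h3 | h3
      · exact ⟨i₀, h3⟩
      · refine ⟨i₁, ?_⟩
        rw [h3]
        apply hmono
        change (0 : Ordinal.{0}) < 0 + 1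
        exact lt_add_one 0
      · have h4 : Fld (W2_R X α.toZFSet) ξ.toZFSet :=
          ⟨(f i₀).toZFSet, Or.inr (hR.2 ⟨h3, hξ⟩)⟩
        obtain ⟨i, hi, h5⟩ := h2 _ h4
        refine ⟨⟨i, hi⟩, ?_⟩
        have h6 := hf ⟨i, hi⟩
        simp only at h6
        rw [h6, hR] at h5
        exact h5.1
    have hsup : α = ⨆ i, f i := by
      apply le_antisymm
      · refine le_of_forall_lt fun ξ hξ => ?_
        obtain ⟨i, hi⟩ := hex ξ hξ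
        exact hi.trans_le (Ordinal.le_iSup f i)
      · exact Ordinal.iSup_le fun i => (hlt i).le
    have hcof : α.cof = ρ := by
      rw [hsup, Ordinal.cof_iSup_Iio hmono hlim.isSuccPrelimit, hρ.cof_ord]
    exact ⟨hcof ▸ hρ.aleph0_le, hcof ▸ hB⟩
  · rintro ⟨hc, hB⟩
    have hlim := Ordinal.one_lt_cof_iff.1 (Cardinal.one_lt_aleph0.trans_le hc)
    obtain ⟨F, h1, h2, h3⟩ := F2_seq α
    refine ⟨⟨?_, ?_, ?_, Or.inl ?_⟩, α.cof, Cardinal.isRegular_cof hlim, hB,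
      fun i => (F i).toZFSet, ?_, ?_⟩
    · intro a b c hab hbc
      obtain ⟨ξ, η, h4, h5, rfl, rfl⟩ := (W2_mem_R hX hα).1 hab
      obtain ⟨η', ζ, h6, h7, h8, rfl⟩ := (W2_mem_R hX hα).1 hbc
      rw [← Ordinal.toZFSet_injective h8] at h6
      exact hR.2 ⟨h4.trans h6, h7⟩
    · intro a b ha hb hab
      obtain ⟨ξ, hξ, rfl⟩ := W2_fld hX hα ha
      obtain ⟨η, hη, rfl⟩ := W2_fld hX hα hb
      rcases lt_trichotomy ξ η with h4 | h4 | h4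
      · exact Or.inl (hR.2 ⟨h4, hη⟩)
      · exact absurd (congrArg _ h4) hab
      · exact Or.inr (hR.2 ⟨h4, hξ⟩)
    · intro a b hab hba
      obtain ⟨ξ, η, h4, h5, rfl, rfl⟩ := (W2_mem_R hX hα).1 hab
      exact absurd (h4.trans (hR.1 hba).1) (lt_irrefl _)
    · intro a ha
      obtain ⟨ξ, η, h4, h5, h6, h7⟩ := (W2_mem_R hX hα).1 ha
      rw [h6] at h7
      exact h4.ne (Ordinal.toZFSet_injective h7)
    · intro i j hij hj
      exact ⟨fun h4 => (h1 i j hij hj).ne (Ordinal.toZFSet_injective h4),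
        hR.2 ⟨h1 i j hij hj, h2 j hj⟩⟩
    · intro a ha
      obtain ⟨ξ, hξ, rfl⟩ := W2_fld hX hα ha
      obtain ⟨i, hi, hle⟩ := h3 (ξ + 1) (hlim.add_one_lt hξ)
      exact ⟨i, hi, hR.2 ⟨(lt_add_one ξ).trans_le hle, h2 i hi⟩⟩

end Pool.Agent.helper797_cs
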