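import Pool.Agent.helper797_cs.PW1
import Pool.Agent.helper797_cs.PW2a

/-! # W2: the model `C(B)` -/

set_option autoImplicit false

namespace Pool.Agent.helper797_cs
open Pool.Agent.W868 Pool.Agent.R587
open ZFSet (pair)
open Cardinal

theorem W2_hier (K : ZFSet.{0} → Prop) : IsZF {x | ∃ α, x ∈ Lp K α} ∧
    ∀ α : Ordinal.{0}, α.toZFSet ∈ {x | ∃ α, x ∈ Lp K α} := by
  refine isZF_of_hier (Lp K) (fun α β h => lp_mono K h) (lp_trans K) ?_ ?_
  · intro α hα x hx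
    exact (lp_limit K hα).1 hx
  · intro α n φ v hv
    rw [lp_succ]
    exact W2_sep_mem (W2_tr φ) v hv _ fun a _ => (W2_tr_sat K _ φ _).symm

theorem isZF_CB (B : Cardinal.{0} → Prop) : IsZF {x | ∃ α, x ∈ Lp (CofB B) α} :=
  (W2_hier _).1

theorem ord_CB (B : Cardinal.{0} → Prop) (α : Ordinal.{0}) : ∃ β, α.toZFSet ∈ Lp (CofB B) β :=
  (W2_hier _).2 α

theorem sbs_CB (B : Cardinal.{0} → Prop) (δ : Ordinal.{0}) : ∃ β, SBs B δ ∈ Lp (CofB B) β := by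
  obtain ⟨β, hβ⟩ := ord_CB B δ
  refine ⟨β + 1, ?_⟩
  rw [lp_succ]
  have hX := lp_trans (CofB B) β
  have h := W2_sep_mem (K := CofB B) (X := Lp (CofB B) β) (n := 1)
    (.and (.mem 0 1) (.qcf (.and (.mem 0 1) (.mem 1 2)))) (fun _ => δ.toZFSet) (fun _ => hβ)
    (fun a => a ∈ δ.toZFSet ∧ ∃ α : Ordinal.{0}, a = α.toZFSet ∧ SB B α) ?_
  · have h1 : ZFSet.sep (fun a => a ∈ δ.toZFSet ∧ ∃ α : Ordinal.{0}, a = α.toZFSet ∧ SB B α)
        (Lp (CofB B) β) = SBs B δ := by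
      ext a
      unfold SBs
      rw [ZFSet.mem_sep, ZFSet.mem_sep]
      exact ⟨fun h => h.2, fun h => ⟨hX _ hβ _ h.1, h⟩⟩
    rwa [h1] at h
  · intro a ha
    simp only [FmQ.Sat]
    refine and_congr_right fun haδ => ?_
    obtain ⟨α, hα, rfl⟩ := Ordinal.mem_toZFSet_iff.1 haδ
    have h1 : (∃ α' : Ordinal.{0}, α.toZFSet = α'.toZFSet ∧ SB B α') ↔ SB B α := by
      constructor
      · rintro ⟨α', h1, h2⟩
        rwa [Ordinal.toZFSet_injective h1]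
      · intro h1
        exact ⟨α, rfl, h1⟩
    rw [h1, ← W2_cof hX ha]
    rfl

end Pool.Agent.helper797_cs
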