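import Pool.Agent.R587.ULDefs

/-!
# The inner model of the cofinality quantifier: definitions
-/

set_option autoImplicit false

namespace Pool.Agent.helper797_cs

open Pool.Agent.W868 Pool.Agent.R587
open ZFSet (pair)
open Cardinal

/-- Formulas of first order logic extended by a quantifier that binds two variables, with free
variables `0, ..., n - 1`, in the vocabulary of set theory. In `ex φ` the variable `0` of `φ` is
bound. In `qcf φ` the variables `0` and `1` of `φ` are bound. -/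
inductive FmQ : ℕ → Type
  | mem {n : ℕ} (i j : Fin n) : FmQ n
  | eq {n : ℕ} (i j : Fin n) : FmQ n
  | neg {n : ℕ} (φ : FmQ n) : FmQ n
  | and {n : ℕ} (φ ψ : FmQ n) : FmQ n
  | ex {n : ℕ} (φ : FmQ (n + 1)) : FmQ n
  | qcf {n : ℕ} (φ : FmQ (n + 2)) : FmQ n

/-- Truth in the structure `(X, ∈)`, where the quantifier says that the set of the pairs that
satisfy the formula has the property `K`. -/
def FmQ.Sat (K : ZFSet.{0} → Prop) (X : ZFSet.{0}) : {n : ℕ} → FmQ n → (Fin n → ZFSet.{0}) → Prop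
  | _, .mem i j, v => v i ∈ v j
  | _, .eq i j, v => v i = v j
  | _, .neg φ, v => ¬ φ.Sat K X v
  | _, .and φ ψ, v => φ.Sat K X v ∧ ψ.Sat K X v
  | _, .ex φ, v => ∃ a ∈ X, φ.Sat K X (Fin.cons a v)
  | _, .qcf φ, v => K (ZFSet.sep (fun p => ∃ a ∈ X, ∃ b ∈ X, p = pair a b ∧
      φ.Sat K X (Fin.cons a (Fin.cons b v))) (ZFSet.prod X X))

/-- The set of the subsets of `X` that are definable in `(X, ∈)` with parameters. -/
noncomputable def DefQ (K : ZFSet.{0} → Prop) (X : ZFSet.{0}) : ZFSet.{0} :=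
  ZFSet.sep (fun Y => ∃ (n : ℕ) (φ : FmQ (n + 1)) (v : Fin n → ZFSet.{0}), (∀ i, v i ∈ X) ∧
    ∀ a, a ∈ Y ↔ a ∈ X ∧ φ.Sat K X (Fin.cons a v)) (ZFSet.powerset X)

/-- The hierarchy: `L'_0 = ∅`, `L'_{α+1} = Def(L'_α)`, unions at limits. -/
noncomputable def Lp (K : ZFSet.{0} → Prop) (α : Ordinal.{0}) : ZFSet.{0} :=
  Ordinal.limitRecOn α ∅ (fun _ x => DefQ K x)
    fun _ _ f => ZFSet.sUnion (ZFSet.range fun β : Set.Iio _ => f β.1 β.2)

/-- `a` is in the field of the relation `R`. -/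
def Fld (R a : ZFSet.{0}) : Prop := ∃ b, pair a b ∈ R ∨ pair b a ∈ R

/-- The set `R` of pairs is a linear order of its field (a strict one or a reflexive one). -/
def IsLin (R : ZFSet.{0}) : Prop :=
  (∀ a b c, pair a b ∈ R → pair b c ∈ R → pair a c ∈ R) ∧
  (∀ a b, Fld R a → Fld R b → a ≠ b → pair a b ∈ R ∨ pair b a ∈ R) ∧
  (∀ a b, pair a b ∈ R → pair b a ∈ R → a = b) ∧
  ((∀ a, pair a a ∉ R) ∨ ∀ a, Fld R a → pair a a ∈ R)

/-- The sequence `g` as a set of pairs. -/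
noncomputable def sqSet (g : ℕ → ZFSet.{0}) : ZFSet.{0} :=
  ZFSet.range fun n : ℕ => pair (nat n) (g n)

/-- In the transitive model `N`: `R` is a linear order whose cofinality is `ω`. -/
def CofW (N : Set ZFSet.{0}) (R : ZFSet.{0}) : Prop :=
  IsLin R ∧ ∃ g : ℕ → ZFSet.{0}, sqSet g ∈ N ∧
    (∀ m n, m < n → g m ≠ g n ∧ pair (g m) (g n) ∈ R) ∧
    ∀ a, Fld R a → ∃ n, pair a (g n) ∈ R

/-- The inner model `C*` of the transitive model `N` of ZFC. -/
def Cst (N : Set ZFSet.{0}) : Set ZFSet.{0} :=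
  {x | ∃ α : Ordinal.{0}, α.toZFSet ∈ N ∧ x ∈ Lp (CofW N) α}

/-- In the transitive class `C`: `D` is a `κ`-complete nonprincipal ultrafilter on the uncountable
ordinal `κ`. -/
structure MeasIn (C : Set ZFSet.{0}) (κ D : ZFSet.{0}) : Prop where
  mem : D ∈ C
  ord : κ.IsOrdinal
  unc : ZFSet.omega ∈ κ
  sub : ∀ X ∈ D, X ⊆ κ
  univ : κ ∈ D
  emp : ∅ ∉ D
  up : ∀ X ∈ D, ∀ Y ∈ C, X ⊆ Y → Y ⊆ κ → Y ∈ D
  ultra : ∀ X ∈ C, X ⊆ κ → X ∈ D ∨ κ \ X ∈ D
  nonprincipal : ∀ ξ, {ξ} ∉ D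
  complete : ∀ γ ∈ κ, ∀ f ∈ C, ZFSet.IsFunc γ D f →
    ZFSet.sep (fun ξ => ∀ η X, pair η X ∈ f → ξ ∈ X) κ ∈ D

/-- `R` is a linear order whose cofinality is a regular cardinal with the property `B`. -/
def CofB (B : Cardinal.{0} → Prop) (R : ZFSet.{0}) : Prop :=
  IsLin R ∧ ∃ ρ : Cardinal.{0}, ρ.IsRegular ∧ B ρ ∧ ∃ g : Ordinal.{0} → ZFSet.{0},
    (∀ i j, i < j → j < ρ.ord → g i ≠ g j ∧ pair (g i) (g j) ∈ R) ∧
    ∀ a, Fld R a → ∃ i < ρ.ord, pair a (g i) ∈ R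

/-- The limit ordinal `α` has cofinality in `B`. -/
def SB (B : Cardinal.{0} → Prop) (α : Ordinal.{0}) : Prop := ℵ₀ ≤ α.cof ∧ B α.cof

/-- The set of the ordinals below `δ` of cofinality in `B`. -/
noncomputable def SBs (B : Cardinal.{0} → Prop) (δ : Ordinal.{0}) : ZFSet.{0} :=
  ZFSet.sep (fun a => ∃ α : Ordinal.{0}, a = α.toZFSet ∧ SB B α) δ.toZFSet

/-- The set `B` of the regular cardinals `≤ λ` and of the cardinals `ρ i`. -/
def Bset (lam : Cardinal.{0}) {I : Type} (ρ : I → Cardinal.{0}) (c : Cardinal.{0}) : Prop :=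
  c ≤ lam ∨ ∃ i, c = ρ i

end Pool.Agent.helper797_cs
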