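import Pool.Agent.helper797_cs.KDefs

/-!
# Relations that are defined by one bounded formula in all transitive structures
-/

set_option autoImplicit false
set_option linter.unreachableTactic false
set_option linter.unusedTactic false

namespace Pool.Agent.helper797_cs

open Pool.Agent.W868 Pool.Agent.R587
open ZFSet (pair)

/-- Renaming under a quantifier. -/
def liftR {n m : ℕ} (r : Fin n → Fin m) : Fin (n + 1) → Fin (m + 1) :=
  Fin.cons 0 fun i => (r i).succ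

/-- Renaming of the variables. -/
def Fo.rn : {n m : ℕ} → (Fin n → Fin m) → Fo n → Fo m
  | _, _, r, .mem i j => .mem (r i) (r j)
  | _, _, r, .eq i j => .eq (r i) (r j)
  | _, _, r, .pF i => .pF (r i)
  | _, _, r, .lt i j => .lt (r i) (r j)
  | _, _, r, .lv i j => .lv (r i) (r j)
  | _, _, r, .neg φ => .neg (φ.rn r)
  | _, _, r, .and φ ψ => .and (φ.rn r) (ψ.rn r)
  | _, _, r, .ex φ => .ex (φ.rn (liftR r))
  | _, _, r, .bex i φ => .bex (r i) (φ.rn (liftR r))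

theorem cons_liftR {n m : ℕ} (r : Fin n → Fin m) (v : Fin m → ZFSet.{0}) (a : ZFSet.{0}) :
    (fun k => (Fin.cons a v : Fin (m + 1) → ZFSet.{0}) (liftR r k)) =
      Fin.cons a fun k => v (r k) := by
  funext k
  refine Fin.cases ?_ (fun k => ?_) k
  · rfl
  · simp only [liftR, Fin.cons_succ]

theorem sat_rn (𝔄 : Stc) : {n m : ℕ} → (φ : Fo n) → (r : Fin n → Fin m) →
    (v : Fin m → ZFSet.{0}) → ((φ.rn r).Sat 𝔄 v ↔ φ.Sat 𝔄 fun k => v (r k))
  | _, _, .mem _ _, _, _ => Iff.rfl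
  | _, _, .eq _ _, _, _ => Iff.rfl
  | _, _, .pF _, _, _ => Iff.rfl
  | _, _, .lt _ _, _, _ => Iff.rfl
  | _, _, .lv _ _, _, _ => Iff.rfl
  | _, _, .neg φ, r, v => not_congr (sat_rn 𝔄 φ r v)
  | _, _, .and φ ψ, r, v => and_congr (sat_rn 𝔄 φ r v) (sat_rn 𝔄 ψ r v)
  | _, _, .ex φ, r, v => by simp only [Fo.rn, Fo.Sat, sat_rn 𝔄 φ, cons_liftR]
  | _, _, .bex i φ, r, v => by simp only [Fo.rn, Fo.Sat, sat_rn 𝔄 φ, cons_liftR]

theorem isD0_rn : {n m : ℕ} → (φ : Fo n) → (r : Fin n → Fin m) → φ.IsD0 → (φ.rn r).IsD0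
  | _, _, .mem _ _, _, _ => trivial
  | _, _, .eq _ _, _, _ => trivial
  | _, _, .pF _, _, h => h.elim
  | _, _, .lt _ _, _, h => h.elim
  | _, _, .lv _ _, _, h => h.elim
  | _, _, .neg φ, r, h => isD0_rn φ r h
  | _, _, .and φ ψ, r, h => ⟨isD0_rn φ r h.1, isD0_rn ψ r h.2⟩
  | _, _, .ex _, _, h => h.elim
  | _, _, .bex _ φ, r, h => isD0_rn φ (liftR r) h

/-- `R` is defined by one bounded formula in all structures with a transitive universe. -/
def DB {n : ℕ} (R : (Fin n → ZFSet.{0}) → Prop) : Prop :=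
  ∃ φ : Fo n, φ.IsD0 ∧ ∀ 𝔄 : Stc, (∀ x ∈ 𝔄.A, ∀ y ∈ x, y ∈ 𝔄.A) →
    ∀ v, (∀ i, v i ∈ 𝔄.A) → (φ.Sat 𝔄 v ↔ R v)

section

variable {n : ℕ} {R T : (Fin n → ZFSet.{0}) → Prop} {F G H : (Fin n → ZFSet.{0}) → ZFSet.{0}}

theorem DB.congr (h : DB R) (h' : ∀ v, R v ↔ T v) : DB T := by
  obtain ⟨φ, h0, hφ⟩ := h
  exact ⟨φ, h0, fun M hM v hv => (hφ M hM v hv).trans (h' v)⟩

theorem DB.not (h : DB R) : DB fun v => ¬ R v := by
  obtain ⟨φ, h0, hφ⟩ := h
  exact ⟨.neg φ, h0, fun M hM v hv => not_congr (hφ M hM v hv)⟩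

theorem DB.and (h : DB R) (h' : DB T) : DB fun v => R v ∧ T v := by
  obtain ⟨φ, h0, hφ⟩ := h
  obtain ⟨ψ, h1, hψ⟩ := h'
  exact ⟨.and φ ψ, ⟨h0, h1⟩, fun M hM v hv => and_congr (hφ M hM v hv) (hψ M hM v hv)⟩

theorem DB.or (h : DB R) (h' : DB T) : DB fun v => R v ∨ T v :=
  (h.not.and h'.not).not.congr fun v => by tauto

theorem DB.imp (h : DB R) (h' : DB T) : DB fun v => R v → T v :=
  (h.and h'.not).not.congr fun v => by tauto

theorem DB.iff (h : DB R) (h' : DB T) : DB fun v => R v ↔ T v :=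
  ((h.imp h').and (h'.imp h)).congr fun v => by tauto

theorem DB.comp (h : DB R) {m : ℕ} (ρ : Fin n → Fin m) :
    DB fun v : Fin m → ZFSet.{0} => R fun i => v (ρ i) := by
  obtain ⟨φ, h0, hφ⟩ := h
  refine ⟨φ.rn ρ, isD0_rn φ ρ h0, fun M hM v hv => ?_⟩
  rw [sat_rn]
  exact hφ M hM _ fun i => hv _

theorem DB.tail (h : DB R) : DB fun w : Fin (n + 1) → ZFSet.{0} => R (Fin.tail w) :=
  h.comp Fin.succ

theorem DB.mem (hF : D0v F) (hG : D0v G) : DB fun v => F v ∈ G v := by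
  obtain ⟨i, hi⟩ := hF
  obtain ⟨j, hj⟩ := hG
  refine ⟨.mem i j, trivial, fun M _ v _ => ?_⟩
  beta_reduce
  rw [hi, hj]
  rfl

theorem DB.eq (hF : D0v F) (hG : D0v G) : DB fun v => F v = G v := by
  obtain ⟨i, hi⟩ := hF
  obtain ⟨j, hj⟩ := hG
  refine ⟨.eq i j, trivial, fun M _ v _ => ?_⟩
  beta_reduce
  rw [hi, hj]
  rfl

theorem DB.bex {Q : ZFSet.{0} → (Fin n → ZFSet.{0}) → Prop} (hF : D0v F)
    (h : DB fun w : Fin (n + 1) → ZFSet.{0} => Q (w 0) (Fin.tail w)) :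
    DB fun v => ∃ a ∈ F v, Q a v := by
  obtain ⟨i, hi⟩ := hF
  obtain ⟨φ, h0, hφ⟩ := h
  refine ⟨.bex i φ, h0, fun M hM v hv => ?_⟩
  beta_reduce
  rw [hi]
  simp only [Fo.Sat]
  have hc : ∀ a ∈ M.A, ∀ k, (Fin.cons a v : Fin (n + 1) → ZFSet.{0}) k ∈ M.A := by
    intro a ha k
    refine Fin.cases ?_ (fun k => ?_) k
    · exact ha
    · exact hv k
  constructor
  · rintro ⟨a, ha, h1, h2⟩
    exact ⟨a, h1, (hφ M hM _ (hc a ha)).1 h2⟩
  · rintro ⟨a, h1, h2⟩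
    have ha := hM _ (hv i) a h1
    exact ⟨a, ha, h1, (hφ M hM _ (hc a ha)).2 h2⟩

theorem DB.ball {Q : ZFSet.{0} → (Fin n → ZFSet.{0}) → Prop} (hF : D0v F)
    (h : DB fun w : Fin (n + 1) → ZFSet.{0} => Q (w 0) (Fin.tail w)) :
    DB fun v => ∀ a ∈ F v, Q a v := by
  have h1 : DB fun v => ∃ a ∈ F v, ¬ Q a v := DB.bex (Q := fun a v => ¬ Q a v) hF h.not
  exact h1.not.congr fun v => by
    constructor
    · intro h2 a ha
      by_contra h3
      exact h2 ⟨a, ha, h3⟩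
    · rintro h2 ⟨a, ha, h3⟩
      exact h3 (h2 a ha)

theorem DB.ff [NeZero n] : DB fun _ : Fin n → ZFSet.{0} => False :=
  ⟨.neg (.eq 0 0), trivial, fun _ _ v _ => by simp [Fo.Sat]⟩

theorem DB.exLt [NeZero n] {R : ℕ → (Fin n → ZFSet.{0}) → Prop} (h : ∀ i, DB (R i)) (k : ℕ) :
    DB fun v => ∃ i < k, R i v := by
  induction k with
  | zero => exact DB.ff.congr fun v => by simp
  | succ k ih =>
    refine (ih.or (h k)).congr fun v => ?_
    constructor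
    · rintro (⟨i, hi, h1⟩ | h1)
      · exact ⟨i, by omega, h1⟩
      · exact ⟨k, by omega, h1⟩
    · rintro ⟨i, hi, h1⟩
      rcases Nat.lt_succ_iff_lt_or_eq.1 hi with h2 | rfl
      · exact Or.inl ⟨i, h2, h1⟩
      · exact Or.inr h1

theorem DB.allLt [NeZero n] {R : ℕ → (Fin n → ZFSet.{0}) → Prop} (h : ∀ i, DB (R i)) (k : ℕ) :
    DB fun v => ∀ i < k, R i v :=
  (DB.exLt (fun i => (h i).not) k).not.congr fun v => by
    constructor
    · intro h2 a ha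
      by_contra h3
      exact h2 ⟨a, ha, h3⟩
    · rintro h2 ⟨a, ha, h3⟩
      exact h3 (h2 a ha)

theorem DB.isPair (hF : D0v F) (hG : D0v G) (hH : D0v H) : DB fun v => F v = pair (G v) (H v) := by
  have h1 : DB fun v => (∃ p ∈ F v, G v ∈ p ∧ ∀ u ∈ p, u = G v) ∧
      (∃ q ∈ F v, G v ∈ q ∧ H v ∈ q ∧ ∀ u ∈ q, u = G v ∨ u = H v) ∧
      ∀ r ∈ F v, (G v ∈ r ∧ ∀ u ∈ r, u = G v) ∨
        (G v ∈ r ∧ H v ∈ r ∧ ∀ u ∈ r, u = G v ∨ u = H v) := by
    have h1 := hG.tail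
    have h2 := hH.tail
    have h3 := h1.tail
    have h4 := h2.tail
    (repeat' first
      | assumption
      | exact D0v.proj _
      | apply DB.not | apply DB.and | apply DB.or | apply DB.imp | apply DB.iff
      | apply DB.bex | apply DB.ball
      | apply DB.eq | apply DB.mem)
  refine h1.congr fun v => ?_
  have s1 : ∀ p a : ZFSet.{0}, (a ∈ p ∧ ∀ u ∈ p, u = a) ↔ p = {a} := by
    intro p a
    constructor
    · rintro ⟨h2, h3⟩
      ext u
      rw [ZFSet.mem_singleton]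
      exact ⟨h3 u, fun h => h ▸ h2⟩
    · rintro rfl
      exact ⟨ZFSet.mem_singleton.2 rfl, fun u hu => ZFSet.mem_singleton.1 hu⟩
  have s2 : ∀ p a b : ZFSet.{0}, (a ∈ p ∧ b ∈ p ∧ ∀ u ∈ p, u = a ∨ u = b) ↔ p = {a, b} := by
    intro p a b
    constructor
    · rintro ⟨h2, h3, h4⟩
      ext u
      rw [ZFSet.mem_pair]
      exact ⟨h4 u, fun h => h.elim (fun h => h ▸ h2) (fun h => h ▸ h3)⟩
    · rintro rfl
      exact ⟨ZFSet.mem_pair.2 (Or.inl rfl), ZFSet.mem_pair.2 (Or.inr rfl),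
        fun u hu => ZFSet.mem_pair.1 hu⟩
  simp only [s1, s2]
  constructor
  · rintro ⟨⟨p, hp, rfl⟩, ⟨q, hq, rfl⟩, h4⟩
    ext r
    rw [pair, ZFSet.mem_pair]
    exact ⟨h4 r, fun h => h.elim (fun h => h ▸ hp) (fun h => h ▸ hq)⟩
  · intro h
    rw [h, pair]
    exact ⟨⟨_, ZFSet.mem_pair.2 (Or.inl rfl), rfl⟩, ⟨_, ZFSet.mem_pair.2 (Or.inr rfl), rfl⟩,
      fun r hr => ZFSet.mem_pair.1 hr⟩

/-- Quantification over the components of a pair. -/
theorem DB.expair {Q : ZFSet.{0} → ZFSet.{0} → (Fin n → ZFSet.{0}) → Prop} (hF : D0v F)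
    (h : DB fun w : Fin (n + 2) → ZFSet.{0} => Q (w 1) (w 0) (Fin.tail (Fin.tail w))) :
    DB fun v => ∃ x y, F v = pair x y ∧ Q x y v := by
  have h1 : DB fun v => ∃ q ∈ F v, ∃ x ∈ q, ∃ y ∈ q, F v = pair x y ∧ Q x y v := by
    apply DB.bex hF
    apply DB.bex (D0v.proj 0)
    apply DB.bex (D0v.proj 1)
    apply DB.and
    · exact DB.isPair hF.tail.tail.tail (D0v.proj 1) (D0v.proj 0)
    · exact h.comp (Fin.cons 0 (Fin.cons 1 fun i => i.succ.succ.succ))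
  refine h1.congr fun v => ?_
  constructor
  · rintro ⟨q, -, x, -, y, -, h2⟩
    exact ⟨x, y, h2⟩
  · rintro ⟨x, y, h2⟩
    refine ⟨{x, y}, ?_, x, ZFSet.mem_pair.2 (Or.inl rfl), y, ZFSet.mem_pair.2 (Or.inr rfl), h2⟩
    rw [h2.1, pair]
    exact ZFSet.mem_pair.2 (Or.inr rfl)

theorem DB.pairMem (hF : D0v F) (hG : D0v G) (hH : D0v H) : DB fun v => pair (F v) (G v) ∈ H v := by
  have h1 : DB fun v => ∃ p ∈ H v, p = pair (F v) (G v) := by
    apply DB.bex hH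
    exact DB.isPair (D0v.proj 0) hF.tail hG.tail
  exact h1.congr fun v => ⟨fun ⟨p, hp, h⟩ => h ▸ hp, fun h => ⟨_, h, rfl⟩⟩

theorem DB.subset (hF : D0v F) (hG : D0v G) : DB fun v => F v ⊆ G v := by
  have h1 : DB fun v => ∀ x ∈ F v, x ∈ G v := DB.ball hF (DB.mem (D0v.proj 0) hG.tail)
  exact h1

theorem DB.isOrdinal (hF : D0v F) : DB fun v => (F v).IsOrdinal := by
  have h : DB fun v => (∀ y ∈ F v, ∀ z ∈ y, z ∈ F v) ∧
      ∀ y ∈ F v, ∀ z ∈ y, ∀ u ∈ z, u ∈ y := by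
    have h1 := hF.tail.tail
    (repeat' first
      | assumption
      | exact D0v.proj _
      | apply DB.not | apply DB.and | apply DB.or | apply DB.imp | apply DB.iff
      | apply DB.bex | apply DB.ball
      | apply DB.eq | apply DB.mem)
  refine h.congr fun v => ?_
  constructor
  · rintro ⟨h1, h2⟩
    exact ⟨fun y hy z hz => h1 y hy z hz, fun {y z w} h3 h4 h5 => h2 w h5 z h4 y h3⟩
  · rintro ⟨h1, h2⟩
    exact ⟨fun y hy z hz => h1.mem_trans hz hy, fun y hy z hz u hu => h2 hu hz hy⟩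

theorem DB.ballIns {Q : ZFSet.{0} → (Fin n → ZFSet.{0}) → Prop} (hF : D0v F)
    (h : DB fun w : Fin (n + 1) → ZFSet.{0} => Q (w 0) (Fin.tail w)) :
    DB fun v => ∀ a ∈ (insert (F v) (F v) : ZFSet.{0}), Q a v := by
  have h1 : DB fun v => Q (F v) v ∧ ∀ a ∈ F v, Q a v := by
    refine DB.and ?_ (DB.ball hF h)
    obtain ⟨i, hi⟩ := hF
    refine (h.comp (Fin.cons i id)).congr fun v => ?_
    rw [hi]
    rfl
  refine h1.congr fun v => ?_
  constructor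
  · rintro ⟨h2, h3⟩ a ha
    rcases ZFSet.mem_insert_iff.1 ha with rfl | ha
    · exact h2
    · exact h3 a ha
  · intro h2
    exact ⟨h2 _ (ZFSet.mem_insert _ _), fun a ha => h2 a (ZFSet.mem_insert_of_mem _ ha)⟩

theorem DB.bexIns {Q : ZFSet.{0} → (Fin n → ZFSet.{0}) → Prop} (hF : D0v F)
    (h : DB fun w : Fin (n + 1) → ZFSet.{0} => Q (w 0) (Fin.tail w)) :
    DB fun v => ∃ a ∈ (insert (F v) (F v) : ZFSet.{0}), Q a v := by
  have h1 := (DB.ballIns (Q := fun a v => ¬ Q a v) hF h.not).not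
  refine h1.congr fun v => ?_
  constructor
  · intro h2
    by_contra h3
    exact h2 fun a ha h4 => h3 ⟨a, ha, h4⟩
  · rintro ⟨a, ha, h2⟩ h3
    exact h3 a ha h2

end

theorem db_GR : ∀ i : ℕ, DB fun v : Fin 4 → ZFSet.{0} => GR (v 0) i (v 1) (v 2) (v 3) := by
  intro i
  match i with
  | 0 | 1 | 2 | 3 | 4 | 5 | 6 | 7 | 8 | 9 | i + 10 =>
    unfold GR
    (repeat' first
      | assumption
      | exact D0v.proj _
      | apply DB.not | apply DB.and | apply DB.expair | apply DB.or | apply DB.isPair | apply DB.pairMem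
      | apply DB.bex | apply DB.ball | apply DB.imp | apply DB.iff | apply DB.subset
      | apply DB.eq | apply DB.mem | apply DB.isOrdinal)

theorem db_GR' (i : ℕ) {n : ℕ} {F G H K : (Fin n → ZFSet.{0}) → ZFSet.{0}} (hF : D0v F)
    (hG : D0v G) (hH : D0v H) (hK : D0v K) : DB fun v => GR (F v) i (G v) (H v) (K v) := by
  obtain ⟨a, ha⟩ := hF
  obtain ⟨b, hb⟩ := hG
  obtain ⟨c, hc⟩ := hH
  obtain ⟨d, hd⟩ := hK
  refine ((db_GR i).comp ![a, b, c, d]).congr fun v => ?_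
  rw [ha, hb, hc, hd]
  rfl

end Pool.Agent.helper797_cs
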