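import Pool.Agent.helper797_cs.KDefs

/-!
# The iterated ultrapower: definitions
-/

set_option autoImplicit false

namespace Pool.Agent.helper797_cs

open Pool.Agent.W868 Pool.Agent.R587
open ZFSet (pair)
open Cardinal

/-- For `U`-almost all `α`. -/
def UQ (U : ZFSet.{0}) (P : Ordinal.{0} → Prop) : Prop :=
  ∃ X ∈ U, ∀ α : Ordinal.{0}, α.toZFSet ∈ X → P α

/-- Assignments. -/
abbrev Asg : Type 1 := Ordinal.{0} → Ordinal.{0}

/-- The iterated quantifier: the first element of the list is quantified first. -/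
def AA (U : ZFSet.{0}) : List Ordinal.{0} → (Asg → Prop) → Asg → Prop
  | [], P, x => P x
  | i :: l, P, x => UQ U fun a => AA U l P (Function.update x i a)

/-- `f` depends only on the coordinates in `s`. -/
def Supp {β : Type*} (s : Finset Ordinal.{0}) (f : Asg → β) : Prop :=
  ∀ x y : Asg, (∀ i ∈ s, x i = y i) → f x = f y

/-- For almost all assignments. -/
def AE (U : ZFSet.{0}) (P : Asg → Prop) : Prop :=
  ∃ s : Finset Ordinal.{0}, Supp s P ∧ AA U (s.sort (· ≤ ·)) P fun _ => 0

/-- `f` is a function with values in `Q` and with a finite support contained in `θ`. -/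
def IsFT (Q : ZFSet.{0}) (θ : Ordinal.{0}) (f : Asg → ZFSet.{0}) : Prop :=
  (∃ s : Finset Ordinal.{0}, (∀ i ∈ s, i < θ) ∧ Supp s f) ∧ ∀ x, f x ∈ Q

/-- `R` is the `θ`-th iterate of the transitive set `Q`, and `val f` is the element represented by
the function `f`. -/
structure Iter (U Q : ZFSet.{0}) (θ : Ordinal.{0}) where
  R : ZFSet.{0}
  val : (Asg → ZFSet.{0}) → ZFSet.{0}
  mem_R : ∀ y, y ∈ R ↔ ∃ f, IsFT Q θ f ∧ y = val f
  trans : ∀ x ∈ R, ∀ y ∈ x, y ∈ R
  mem_iff : ∀ f g, IsFT Q θ f → IsFT Q θ g → (val f ∈ val g ↔ AE U fun x => f x ∈ g x)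
  eq_iff : ∀ f g, IsFT Q θ f → IsFT Q θ g → (val f = val g ↔ AE U fun x => f x = g x)

namespace Iter

variable {U Q : ZFSet.{0}} {θ : Ordinal.{0}} (J : Iter U Q θ)

/-- The embedding. -/
noncomputable def em (a : ZFSet.{0}) : ZFSet.{0} := J.val fun _ => a

open Classical in
/-- The critical points, as sets. -/
noncomputable def crz (i : Ordinal.{0}) : ZFSet.{0} :=
  J.val fun x => if (x i).toZFSet ∈ Q then (x i).toZFSet else ∅

/-- The critical points, as ordinals. -/
noncomputable def cr (i : Ordinal.{0}) : Ordinal.{0} := sInf {α | α.toZFSet = J.crz i}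

/-- The elements of the iterate with support contained in `i`. -/
def Rl (i : Ordinal.{0}) : Set ZFSet.{0} := {y | ∃ f, IsFT Q i f ∧ IsFT Q θ f ∧ y = J.val f}

end Iter

end Pool.Agent.helper797_cs
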