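import Pool.Agent.W868.LZF
import Pool.Agent.R587.ULDefs

/-!
# The hierarchy with well-orders, formulas and Skolem terms: definitions
-/

set_option autoImplicit false

namespace Pool.Agent.helper797_cs

open Pool.Agent.W868 Pool.Agent.R587
open ZFSet (pair)

/-! ### The hierarchy `S_ξ[F]` with canonical well-orders -/

/-- The operation number `k` at `a`, `b`, relative to `X`. The operations `0, ..., 9` are the basic
operations, the operations `10` and `11` give the two extra sets `P` and `R`. -/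
noncomputable def opK (X P R : ZFSet.{0}) (k : ℕ) (a b : ZFSet.{0}) : ZFSet.{0} :=
  if k < 10 then ZFSet.sep (fun u => GR ∅ k u a b) X else if k = 10 then P else R

/-- The order of `X ∪ {X}`. -/
def ltX (X W a b : ZFSet.{0}) : Prop := pair a b ∈ W ∨ (a ∈ X ∧ b = X)

/-- The lexicographic order of pairs. -/
def lexX (X W a b a' b' : ZFSet.{0}) : Prop := ltX X W a a' ∨ (a = a' ∧ ltX X W b b')

/-- Stage `k` of a step: add the values of the operation number `k`. -/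
noncomputable def stY (X P R Y : ZFSet.{0}) (k : ℕ) : ZFSet.{0} :=
  Y ∪ im (fun p => opK X P R k (fs p) (sn p)) (ZFSet.prod (insert X X) (insert X X))

/-- Stage `k` of a step: the order. New elements come after the old ones, and are ordered by their
least codes. -/
noncomputable def stV (X W P R Y V : ZFSet.{0}) (k : ℕ) : ZFSet.{0} :=
  ZFSet.sep (fun p => ∃ z z', p = pair z z' ∧ (pair z z' ∈ V ∨ (z ∈ Y ∧ z' ∉ Y) ∨
    (z ∉ Y ∧ z' ∉ Y ∧ ∃ a ∈ insert X X, ∃ b ∈ insert X X, z = opK X P R k a b ∧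
      ∀ a' ∈ insert X X, ∀ b' ∈ insert X X, z' = opK X P R k a' b' → lexX X W a b a' b')))
    (ZFSet.prod (stY X P R Y k) (stY X P R Y k))

/-- The stages of a step. -/
noncomputable def stg (X W P R : ZFSet.{0}) : ℕ → ZFSet.{0} × ZFSet.{0}
  | 0 => (X, W)
  | k + 1 => (stY X P R (stg X W P R k).1 k, stV X W P R (stg X W P R k).1 (stg X W P R k).2 k)

/-- The components of `e = (S, (W, (P, R)))`. -/
noncomputable def eS (e : ZFSet.{0}) : ZFSet.{0} := fs e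
noncomputable def eW (e : ZFSet.{0}) : ZFSet.{0} := fs (sn e)
noncomputable def eP (e : ZFSet.{0}) : ZFSet.{0} := fs (sn (sn e))
noncomputable def eR (e : ZFSet.{0}) : ZFSet.{0} := sn (sn (sn e))

/-- The successor step. -/
noncomputable def nxt (e : ZFSet.{0}) : ZFSet.{0} :=
  pair (stg (eS e) (eW e) (eP e) (eR e) 12).1
    (pair (stg (eS e) (eW e) (eP e) (eR e) 12).2 (pair ∅ ∅))

/-- The limit step, `g` is the graph of the sequence. -/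
noncomputable def lmt (F g : ZFSet.{0}) : ZFSet.{0} :=
  pair (ZFSet.sUnion (im (fun p => eS (sn p)) g))
    (pair (ZFSet.sUnion (im (fun p => eW (sn p)) g))
      (pair (F ∩ ZFSet.sUnion (im (fun p => eS (sn p)) g))
        (ZFSet.sUnion (im (fun p => eW (sn p)) g))))

open Classical in
/-- The hierarchy relative to `F`, for the sets `z` that are ordinals. -/
noncomputable def Eh (F : ZFSet.{0}) : ZFSet.{0} → ZFSet.{0} :=
  wfF (fun z => z) ZFSet.mem_wf fun z g =>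
    if ∃ u ∈ z, z = insert u u then
      nxt (ZFSet.sUnion (im sn (ZFSet.sep (fun p => fs p = ZFSet.sUnion z) g)))
    else lmt F g

/-- The level `S_ξ[F]`. -/
noncomputable def KS (F : ZFSet.{0}) (ξ : Ordinal.{0}) : ZFSet.{0} := eS (Eh F ξ.toZFSet)

/-- The well-order of `S_ξ[F]`. -/
noncomputable def KW (F : ZFSet.{0}) (ξ : Ordinal.{0}) : ZFSet.{0} := eW (Eh F ξ.toZFSet)

/-- The sequence of the levels up to `η`. -/
noncomputable def sq (F : ZFSet.{0}) (η : Ordinal.{0}) : ZFSet.{0} :=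
  gr (Eh F) (insert η.toZFSet η.toZFSet)

open Classical in
/-- The sequence of the levels up to the first one that has `x` as an element. -/
noncomputable def lvl (F x : ZFSet.{0}) : ZFSet.{0} :=
  if ∃ η, x ∈ KS F η then sq F (sInf {η | x ∈ KS F η}) else ∅

/-! ### Structures and formulas -/

/-- Structures `(A, ∈, F, <, lv)`. -/
structure Stc where
  A : Set ZFSet.{0}
  F : ZFSet.{0} → Prop
  lt : ZFSet.{0} → ZFSet.{0} → Prop
  lv : ZFSet.{0} → ZFSet.{0}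

/-- The substructure with the universe `X`. -/
def Stc.res (𝔄 : Stc) (X : Set ZFSet.{0}) : Stc := { 𝔄 with A := X }

/-- The structure `(S_ξ[F], ∈, F ∩ S_ξ[F], W_ξ, lv)`. -/
noncomputable def KA (F : ZFSet.{0}) (ξ : Ordinal.{0}) : Stc where
  A := {x | x ∈ KS F ξ}
  F := fun x => x ∈ F
  lt := fun x y => pair x y ∈ KW F ξ
  lv := lvl F

/-- First order formulas, with bounded quantifiers `bex i`. -/
inductive Fo : ℕ → Type
  | mem {n : ℕ} (i j : Fin n) : Fo n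
  | eq {n : ℕ} (i j : Fin n) : Fo n
  | pF {n : ℕ} (i : Fin n) : Fo n
  | lt {n : ℕ} (i j : Fin n) : Fo n
  | lv {n : ℕ} (i j : Fin n) : Fo n
  | neg {n : ℕ} (φ : Fo n) : Fo n
  | and {n : ℕ} (φ ψ : Fo n) : Fo n
  | ex {n : ℕ} (φ : Fo (n + 1)) : Fo n
  | bex {n : ℕ} (i : Fin n) (φ : Fo (n + 1)) : Fo n

/-- Truth. -/
def Fo.Sat (𝔄 : Stc) : {n : ℕ} → Fo n → (Fin n → ZFSet.{0}) → Prop
  | _, .mem i j, v => v i ∈ v j
  | _, .eq i j, v => v i = v j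
  | _, .pF i, v => 𝔄.F (v i)
  | _, .lt i j, v => 𝔄.lt (v i) (v j)
  | _, .lv i j, v => 𝔄.lv (v i) = v j
  | _, .neg φ, v => ¬ φ.Sat 𝔄 v
  | _, .and φ ψ, v => φ.Sat 𝔄 v ∧ ψ.Sat 𝔄 v
  | _, .ex φ, v => ∃ a ∈ 𝔄.A, φ.Sat 𝔄 (Fin.cons a v)
  | _, .bex i φ, v => ∃ a ∈ 𝔄.A, a ∈ v i ∧ φ.Sat 𝔄 (Fin.cons a v)

/-- Formulas with membership, equality and bounded quantifiers only. -/
def Fo.IsD0 : {n : ℕ} → Fo n → Prop
  | _, .mem _ _ => True
  | _, .eq _ _ => True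
  | _, .pF _ => False
  | _, .lt _ _ => False
  | _, .lv _ _ => False
  | _, .neg φ => φ.IsD0
  | _, .and φ ψ => φ.IsD0 ∧ ψ.IsD0
  | _, .ex _ => False
  | _, .bex _ φ => φ.IsD0

/-- A matrix: a formula in which the variable `0` is to be quantified. -/
abbrev Mx : Type := Σ n : ℕ, Fo (n + 1)

/-- The matrices of all quantifiers in the formula are in `Ψ`. -/
def Fo.In (Ψ : Set Mx) : {n : ℕ} → Fo n → Prop
  | _, .mem _ _ => True
  | _, .eq _ _ => True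
  | _, .pF _ => True
  | _, .lt _ _ => True
  | _, .lv _ _ => True
  | _, .neg φ => φ.In Ψ
  | _, .and φ ψ => φ.In Ψ ∧ ψ.In Ψ
  | n, .ex φ => (⟨n, φ⟩ : Mx) ∈ Ψ ∧ φ.In Ψ
  | n, .bex i φ => (⟨n, .and (.mem 0 i.succ) φ⟩ : Mx) ∈ Ψ ∧ φ.In Ψ

/-- `Ψ` is closed. -/
def Cl (Ψ : Set Mx) : Prop := ∀ ψ ∈ Ψ, ψ.2.In Ψ

/-- `Ψ` consists of matrices of bounded quantifiers in `Δ₀` formulas. -/
def BdM (Ψ : Set Mx) : Prop := ∀ ψ ∈ Ψ, ∃ i φ, ψ.2 = .and (.mem 0 (Fin.succ i)) φ ∧ φ.IsD0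

open Classical in
/-- The least witness, `∅` if there is none. -/
noncomputable def Stc.sk (𝔄 : Stc) {n : ℕ} (φ : Fo (n + 1)) (v : Fin n → ZFSet.{0}) :
    ZFSet.{0} :=
  if h : ∃ a ∈ 𝔄.A, φ.Sat 𝔄 (Fin.cons a v) ∧
    ∀ b ∈ 𝔄.A, φ.Sat 𝔄 (Fin.cons b v) → ¬ 𝔄.lt b a then h.choose else ∅

/-- Terms with one variable and with sets as constants. -/
inductive Tm : Type 1
  | var : Tm
  | cst (a : ZFSet.{0}) : Tm
  | pr (s t : Tm) : Tm
  | fst (t : Tm) : Tm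
  | snd (t : Tm) : Tm
  | lv (t : Tm) : Tm
  | sk (n : ℕ) (φ : Fo (n + 1)) (ts : Fin n → Tm) : Tm

/-- The value of a term. -/
noncomputable def Tm.ev (𝔄 : Stc) : Tm → ZFSet.{0} → ZFSet.{0}
  | .var, x => x
  | .cst a, _ => a
  | .pr s t, x => pair (s.ev 𝔄 x) (t.ev 𝔄 x)
  | .fst t, x => fs (t.ev 𝔄 x)
  | .snd t, x => sn (t.ev 𝔄 x)
  | .lv t, x => 𝔄.lv (t.ev 𝔄 x)
  | .sk _ φ ts, x => 𝔄.sk φ fun i => (ts i).ev 𝔄 x

/-- The constants are in `C` and the Skolem functions are for matrices in `Ψ`. -/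
def Tm.Over (Ψ : Set Mx) (C : Set ZFSet.{0}) : Tm → Prop
  | .var => True
  | .cst a => a ∈ C
  | .pr s t => s.Over Ψ C ∧ t.Over Ψ C
  | .fst t => t.Over Ψ C
  | .snd t => t.Over Ψ C
  | .lv t => t.Over Ψ C
  | .sk n φ ts => (⟨n, φ⟩ : Mx) ∈ Ψ ∧ ∀ i, (ts i).Over Ψ C

/-- Replace the constants. -/
def Tm.map (π : ZFSet.{0} → ZFSet.{0}) : Tm → Tm
  | .var => .var
  | .cst a => .cst (π a)
  | .pr s t => .pr (s.map π) (t.map π)
  | .fst t => .fst (t.map π)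
  | .snd t => .snd (t.map π)
  | .lv t => .lv (t.map π)
  | .sk n φ ts => .sk n φ fun i => (ts i).map π

/-- `X` is closed under the functions of the structure and the Skolem functions for `Ψ`. -/
structure Clsd (𝔄 : Stc) (Ψ : Set Mx) (X : Set ZFSet.{0}) : Prop where
  sub : X ⊆ 𝔄.A
  ne : X.Nonempty
  pr : ∀ a ∈ X, ∀ b ∈ X, pair a b ∈ X
  fst : ∀ a ∈ X, fs a ∈ X
  snd : ∀ a ∈ X, sn a ∈ X
  lv : ∀ a ∈ X, 𝔄.lv a ∈ X
  sk : ∀ ψ ∈ Ψ, ∀ v : Fin ψ.1 → ZFSet.{0}, (∀ i, v i ∈ X) → 𝔄.sk ψ.2 v ∈ X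

/-- `π` is an isomorphism of structures. -/
structure Iso (𝔄 𝔅 : Stc) (π : ZFSet.{0} → ZFSet.{0}) : Prop where
  maps : ∀ x ∈ 𝔄.A, π x ∈ 𝔅.A
  surj : ∀ y ∈ 𝔅.A, ∃ x ∈ 𝔄.A, π x = y
  inj : ∀ x ∈ 𝔄.A, ∀ y ∈ 𝔄.A, π x = π y → x = y
  mem : ∀ x ∈ 𝔄.A, ∀ y ∈ 𝔄.A, (x ∈ y ↔ π x ∈ π y)
  F : ∀ x ∈ 𝔄.A, (𝔄.F x ↔ 𝔅.F (π x))
  lt : ∀ x ∈ 𝔄.A, ∀ y ∈ 𝔄.A, (𝔄.lt x y ↔ 𝔅.lt (π x) (π y))
  pr : ∀ x ∈ 𝔄.A, ∀ y ∈ 𝔄.A, pair x y ∈ 𝔄.A → π (pair x y) = pair (π x) (π y)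
  fst : ∀ x ∈ 𝔄.A, π (fs x) = fs (π x)
  snd : ∀ x ∈ 𝔄.A, π (sn x) = sn (π x)
  lv : ∀ x ∈ 𝔄.A, π (𝔄.lv x) = 𝔅.lv (π x)
  emp : ∅ ∈ 𝔄.A ∧ π ∅ = ∅

end Pool.Agent.helper797_cs
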