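import Pool.Agent.helper797_cs.DB
import Pool.Agent.helper797_cs.CDefs
import Pool.Agent.helper797_cs.IDefs

/-!
# The main lemma: definitions
-/

set_option autoImplicit false

namespace Pool.Agent.helper797_cs

open Pool.Agent.W868 Pool.Agent.R587
open ZFSet (pair)
open Cardinal Order

/-- `Ψ₀` is a finite set of matrices that is sufficient for the condensation. -/
structure Cnds (Ψ₀ : Set Mx) : Prop where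
  fin : Ψ₀.Finite
  cl : Cl Ψ₀
  bd : BdM Ψ₀
  diff : (⟨2, .and (.mem 0 1) (.neg (.mem 0 2))⟩ : Mx) ∈ Ψ₀
  cond : ∀ (F : ZFSet.{0}) (ξ : Ordinal.{0}), IsSuccLimit ξ → ∀ X : Set ZFSet.{0},
    Clsd (KA F ξ) Ψ₀ X → ∃ (π : ZFSet.{0} → ZFSet.{0}) (F' : ZFSet.{0}) (ξ' : Ordinal.{0}),
      IsSuccLimit ξ' ∧ ξ' ≤ ξ ∧ Iso ((KA F ξ).res X) (KA F' ξ') π ∧
      (∀ x ∈ X, ∀ y, y ∈ π x ↔ ∃ z ∈ X, z ∈ x ∧ y = π z) ∧ F' ⊆ KS F' ξ'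

/-- Substitution: `vt` for the variable and `f a` for the constant `a`. -/
def Tm.bind (f : ZFSet.{0} → Tm) (vt : Tm) : Tm → Tm
  | .var => vt
  | .cst a => f a
  | .pr s t => .pr (Tm.bind f vt s) (Tm.bind f vt t)
  | .fst t => .fst (Tm.bind f vt t)
  | .snd t => .snd (Tm.bind f vt t)
  | .lv t => .lv (Tm.bind f vt t)
  | .sk n φ ts => .sk n φ fun i => Tm.bind f vt (ts i)

/-- The graph of the term on `D × E`. -/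
noncomputable def grT (F : ZFSet.{0}) (ξ : Ordinal.{0}) (t : Tm) (D E : ZFSet.{0}) : ZFSet.{0} :=
  ZFSet.sep (fun p => ∃ x ∈ D, ∃ z ∈ E, p = pair x z ∧ t.ev (KA F ξ) x = z) (ZFSet.prod D E)

/-- `B(Ψ)` of the paper. -/
def PB (F : ZFSet.{0}) (θ ξ : Ordinal.{0}) (Ψ : Set Mx) : Prop :=
  ∀ t : Tm, t.Over Ψ {x | x ∈ KS F ξ} → ∀ γ < θ, IsSuccLimit γ →
    grT F ξ t (KS F γ) γ.toZFSet ∈ KS F ξ

/-- `U(Ψ)` of the paper. -/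
def PU (F : ZFSet.{0}) (θ ξ : Ordinal.{0}) (Ψ : Set Mx) : Prop :=
  ∀ t : Tm, t.Over Ψ {x | x ∈ KS F ξ} → grT F ξ t (KS F θ) θ.toZFSet ∈ KS F ξ

/-- The set `e` of pairs is a function. -/
def Fnl (e : ZFSet.{0}) : Prop := ∀ x y y', pair x y ∈ e → pair x y' ∈ e → y = y'

/-- Some function in `S_ξ` maps a subset of `S_θ` onto `S_η`. -/
def Onto (F : ZFSet.{0}) (θ ξ η : Ordinal.{0}) : Prop :=
  ∃ e ∈ KS F ξ, Fnl e ∧ (∀ p ∈ e, ∃ x ∈ KS F θ, ∃ y ∈ KS F η, p = pair x y) ∧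
    ∀ y ∈ KS F η, ∃ x, pair x y ∈ e

/-- `ν` is regular with respect to the functions in `S_ξ`. -/
def ARg (F : ZFSet.{0}) (ξ ν : Ordinal.{0}) : Prop :=
  IsSuccLimit ν ∧ ∀ γ < ν, IsSuccLimit γ → ∀ f ∈ KS F ξ, Fnl f →
    (∀ p ∈ f, ∃ x ∈ KS F γ, ∃ α < ν, p = pair x α.toZFSet) →
    ∃ η < ν, ∀ (x : ZFSet.{0}) (α : Ordinal.{0}), pair x α.toZFSet ∈ f → α < η

/-- The facts on the iterated ultrapower `S_δ[F]` that are used in the main lemma. -/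
structure IT (F : ZFSet.{0}) (θ δ : Ordinal.{0}) where
  hθ : IsSuccLimit θ
  hδ : IsSuccLimit δ
  lt : θ < δ
  Fsub : ∀ Z ∈ F, Z ⊆ θ.toZFSet
  /-- the elements with support below `i` -/
  Rl : Ordinal.{0} → Set ZFSet.{0}
  /-- the critical points -/
  cr : Ordinal.{0} → Ordinal.{0}
  /-- the cardinals `ν_k` -/
  nu : ℕ → Ordinal.{0}
  sub : ∀ i < θ, Rl i ⊆ {x | x ∈ KS F δ}
  cov : ∀ x ∈ KS F δ, ∃ i < θ, x ∈ Rl i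
  mono : ∀ i j, i ≤ j → j < θ → Rl i ⊆ Rl j
  om : Ordinal.omega0 < cr 0
  cr_lt : ∀ i < θ, cr i < θ
  cr_mono : ∀ i j, i < j → j < θ → cr i < cr j
  cr_cont : ∀ i < θ, IsSuccLimit i → ∀ α < cr i, ∃ j < i, α < cr j
  cr_lim : ∀ i < θ, IsSuccLimit (cr i)
  cr_mem : ∀ i < θ, (cr i).toZFSet ∈ Rl (i + 1)
  ord : ∀ i < θ, ∀ α < θ, (α.toZFSet ∈ Rl i ↔ α < cr i)
  low : ∀ i < θ, ∀ x ∈ KS F (cr i), x ∈ Rl i
  tail : ∀ i < θ, ∀ Z ∈ Rl i, Z ⊆ θ.toZFSet → ((cr i).toZFSet ∈ Z ↔ Z ∈ F)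
  elem : ∀ i < θ, ∀ ξ < δ, IsSuccLimit ξ → ξ.toZFSet ∈ Rl i → ∀ {n : ℕ} (φ : Fo n)
    (v : Fin n → ZFSet.{0}), (∀ j, v j ∈ Rl i ∧ v j ∈ KS F ξ) →
    (φ.Sat ((KA F ξ).res {x | x ∈ Rl i ∧ x ∈ KS F ξ}) v ↔ φ.Sat (KA F ξ) v)
  indisc : ∀ i < θ, ∀ ξ < δ, IsSuccLimit ξ → θ < ξ → ξ.toZFSet ∈ Rl i →
    ∀ {n m : ℕ} (φ : Fo (n + m)) (v : Fin n → ZFSet.{0}), (∀ j, v j ∈ Rl i ∧ v j ∈ KS F ξ) →
    ∀ a b : Fin m → Ordinal.{0}, StrictMono a → StrictMono b → (∀ j, i ≤ a j ∧ a j < θ) →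
    (∀ j, i ≤ b j ∧ b j < θ) →
    (φ.Sat (KA F ξ) (Fin.append v fun j => (cr (a j)).toZFSet) ↔
      φ.Sat (KA F ξ) (Fin.append v fun j => (cr (b j)).toZFSet))
  nu_card : ∀ k, ∃ c : Cardinal.{0}, c.IsRegular ∧ nu k = c.ord
  nu_lt : ∀ k, nu k < θ
  nu_mono : StrictMono nu
  nu_cof : ∀ α < θ, ∃ k, α < nu k
  nu_cr : ∀ k, cr (nu k) = nu k

/-- Finite tuples of elements of a set. -/
inductive Tp (C : Set ZFSet.{0}) : ZFSet.{0} → Prop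
  | base {x : ZFSet.{0}} (h : x ∈ C) : Tp C x
  | pr {x y : ZFSet.{0}} (hx : Tp C x) (hy : Tp C y) : Tp C (pair x y)

section

variable {F : ZFSet.{0}} {θ δ : Ordinal.{0}} (J : IT F θ δ)

/-- The critical points with index in `[ζ, i)`, as sets. -/
def Cp (ζ i : Ordinal.{0}) : Set ZFSet.{0} := {x | ∃ j, ζ ≤ j ∧ j < i ∧ x = (J.cr j).toZFSet}

/-- The hull of `S_ξ ∩ R_ζ` and the critical points from `ζ` on. -/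
def HX (ξ : Ordinal.{0}) (Ψ : Set Mx) (ζ : Ordinal.{0}) : Set ZFSet.{0} :=
  {y | ∃ t : Tm, t.Over Ψ {x | x ∈ J.Rl ζ ∧ x ∈ KS F ξ} ∧
    ∃ x, Tp (Cp J ζ θ) x ∧ y = t.ev (KA F ξ) x}

/-- The setup of the proof of the main lemma: the hull is isomorphic to the whole level. -/
structure Stp (ξ : Ordinal.{0}) (Ψ : Set Mx) where
  ζ : Ordinal.{0}
  π : ZFSet.{0} → ZFSet.{0}
  hζ : ζ < θ
  ξ_mem : ξ.toZFSet ∈ J.Rl ζ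
  θ_mem : θ.toZFSet ∈ J.Rl ζ
  S_mem : KS F θ ∈ J.Rl ζ
  clsd : Clsd (KA F ξ) Ψ (HX J ξ Ψ ζ)
  iso : Iso ((KA F ξ).res (HX J ξ Ψ ζ)) (KA F ξ) π
  coll : ∀ x ∈ HX J ξ Ψ ζ, ∀ y, y ∈ π x ↔ ∃ z ∈ HX J ξ Ψ ζ, z ∈ x ∧ y = π z
  fix : ∀ x ∈ KS F (J.cr ζ), x ∈ HX J ξ Ψ ζ ∧ π x = x
  fixθ : θ.toZFSet ∈ HX J ξ Ψ ζ ∧ π θ.toZFSet = θ.toZFSet
  fixν : ∀ k, J.cr ζ < J.nu k → π (J.nu k).toZFSet = (J.nu k).toZFSet
  fixF : ∀ Z ∈ HX J ξ Ψ ζ, Z ∈ F ↔ π Z ∈ F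

/-- The images of the critical points. -/
def Stp.Y {J : IT F θ δ} {ξ : Ordinal.{0}} {Ψ : Set Mx} (s : Stp J ξ Ψ) : Set Ordinal.{0} :=
  {α | ∃ j, s.ζ ≤ j ∧ j < θ ∧ α.toZFSet = s.π (J.cr j).toZFSet}

/-- `(..((x, c_0), c_1), ..., c_{k-1})` where `c_l` is the critical point number `i + l`. -/
noncomputable def wt (i : Ordinal.{0}) (x : ZFSet.{0}) : ℕ → ZFSet.{0}
  | 0 => x
  | k + 1 => pair (wt i x k) (J.cr (i + k)).toZFSet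

end

end Pool.Agent.helper797_cs
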