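import Pool.Agent.W868.NDfn
import Pool.Agent.helper797_cs.CDefs

/-!
# The tree forcing: definitions
-/

set_option autoImplicit false

namespace Pool.Agent.helper797_cs

open Pool.Agent.W868
open ZFSet (pair)
open Cardinal

section

variable {I : Type} (ρ : I → Cardinal.{0})

/-- One step of a node: an index `i` and an element of `ρ i`. -/
abbrev Nd : Type := Σ i : I, (ρ i).ord.ToType

/-- Conditions: trees with a stem that branch for all `i` and for unboundedly many elements of
`ρ i` above the stem. -/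
structure Cnd where
  T : Set (List (Nd ρ))
  stem : List (Nd ρ)
  mem : stem ∈ T
  pre : ∀ t ∈ T, ∀ s, s <+: t → s ∈ T
  cmp : ∀ t ∈ T, t <+: stem ∨ stem <+: t
  br : ∀ t ∈ T, stem <+: t → ∀ (i : I) (β : (ρ i).ord.ToType),
    ∃ γ : (ρ i).ord.ToType, β < γ ∧ t ++ [⟨i, γ⟩] ∈ T

instance : Preorder (Cnd ρ) where
  le p q := p.T ⊆ q.T
  le_refl _ := subset_rfl
  le_trans _ _ _ := Set.Subset.trans

end

theorem exists_gt_ord {c : Cardinal.{0}} (h : ℵ₀ ≤ c) (β : c.ord.ToType) :
    ∃ γ : c.ord.ToType, β < γ := by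
  have : NoMaxOrder c.ord.ToType := Cardinal.noMaxOrder h
  exact exists_gt β

/-- The largest condition: all nodes, empty stem. -/
instance {I : Type} {ρ : I → Cardinal.{0}} [h : Fact (∀ i, ℵ₀ ≤ ρ i)] :
    OrderTop (Cnd ρ) where
  top :=
    { T := Set.univ
      stem := []
      mem := trivial
      pre := fun _ _ _ _ => trivial
      cmp := fun _ _ => Or.inr List.nil_prefix
      br := fun _ _ _ i β => by
        obtain ⟨γ, hγ⟩ := exists_gt_ord (h.out i) β
        exact ⟨γ, hγ, trivial⟩ }
  le_top _ := fun _ _ => trivial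

end Pool.Agent.helper797_cs
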