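import Pool.Agent.helper797_cs.PF2a

/-! # F1: the combinatorics of the tree forcing (Part A of the paper, A1-A3), without names -/

set_option autoImplicit false
set_option linter.unusedSectionVars false

namespace Pool.Agent.helper797_cs
open Pool.Agent.W868
open Cardinal

theorem F1_bdd {c : Cardinal.{0}} (hc : c.IsRegular) {ι : Type} (hι : #ι < c)
    (f : ι → c.ord.ToType) : ∃ β, ∀ a, f a ≤ β := by
  have h1 : ∀ a, (Ordinal.ToType.mk.symm (f a) : Set.Iio _).1 < c.ord := fun a =>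
    (Ordinal.ToType.mk.symm (f a) : Set.Iio _).2
  have h2 : (⨆ a, (Ordinal.ToType.mk.symm (f a) : Set.Iio _).1) < c.ord := by
    apply Ordinal.iSup_lt_of_lt_cof
    · rw [hc.cof_ord]
      exact hι
    · exact h1
  refine ⟨Ordinal.ToType.mk ⟨_, h2⟩, fun a => ?_⟩
  have h3 : Ordinal.ToType.mk (Ordinal.ToType.mk.symm (f a)) = f a :=
    OrderIso.apply_symm_apply _ _
  rw [← h3]
  apply Ordinal.ToType.mk.le_iff_le.2
  exact Ordinal.le_iSup (fun a => (Ordinal.ToType.mk.symm (f a) : Set.Iio _).1) a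

section

variable {I : Type} {ρ : I → Cardinal.{0}}

open Classical in
/-- The part of the condition above the node `t`. -/
noncomputable def F1_at (p : Cnd ρ) (t : List (Nd ρ)) : Cnd ρ :=
  if h : t ∈ p.T ∧ p.stem <+: t then
    { T := {u | u ∈ p.T ∧ (u <+: t ∨ t <+: u)}
      stem := t
      mem := ⟨h.1, Or.inl (List.prefix_refl _)⟩
      pre := fun u hu v hv => ⟨p.pre u hu.1 v hv, hu.2.elim (fun h1 => Or.inl (hv.trans h1))
        fun h1 => List.prefix_or_prefix_of_prefix hv h1⟩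
      cmp := fun u hu => hu.2
      br := fun u hu hs j δ => by
        obtain ⟨ε, h1, h2⟩ := p.br u hu.1 (h.2.trans hs) j δ
        exact ⟨ε, h1, h2, Or.inr (hs.trans (List.prefix_append _ _))⟩ }
  else p

theorem F1_at_stem {p : Cnd ρ} {t : List (Nd ρ)} (ht : t ∈ p.T) (hs : p.stem <+: t) :
    (F1_at p t).stem = t := by
  unfold F1_at
  rw [dif_pos ⟨ht, hs⟩]

theorem F1_at_T {p : Cnd ρ} {t : List (Nd ρ)} (ht : t ∈ p.T) (hs : p.stem <+: t)
    {u : List (Nd ρ)} : u ∈ (F1_at p t).T ↔ u ∈ p.T ∧ (u <+: t ∨ t <+: u) := by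
  unfold F1_at
  rw [dif_pos ⟨ht, hs⟩]
  rfl

theorem F1_at_le (p : Cnd ρ) (t : List (Nd ρ)) : F1_at p t ≤ p := by
  by_cases h : t ∈ p.T ∧ p.stem <+: t
  · intro u hu
    exact ((F1_at_T h.1 h.2).1 hu).1
  · unfold F1_at
    rw [dif_neg h]

theorem F1_at_mono {p q : Cnd ρ} (h : q ≤ p) {t : List (Nd ρ)} (ht : t ∈ q.T)
    (hs : q.stem <+: t) : F1_at q t ≤ F1_at p t := by
  intro u hu
  rw [F1_at_T ht hs] at hu
  rw [F1_at_T (h ht) ((F2_stem h).trans hs)]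
  exact ⟨h hu.1, hu.2⟩

theorem F1_le_at {p r : Cnd ρ} (h : r ≤ p) : r ≤ F1_at p r.stem := by
  intro u hu
  rw [F1_at_T (h r.mem) (F2_stem h)]
  exact ⟨h hu, r.cmp u hu⟩

/-- The open dense set `D` is reached below `p` by a pure extension and a list of indices. -/
def F1_G (D : Set (Cnd ρ)) (p : Cnd ρ) : Prop :=
  ∃ (a : List I) (q : Cnd ρ), q ≤ p ∧ q.stem = p.stem ∧
    ∀ u : List (Nd ρ), u.map Sigma.fst = a → p.stem ++ u ∈ q.T → F1_at q (p.stem ++ u) ∈ D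

theorem F1_G_mono {D : Set (Cnd ρ)} {p q : Cnd ρ} (h : q ≤ p) (hs : q.stem = p.stem)
    (hq : F1_G D q) : F1_G D p := by
  obtain ⟨a, r, h1, h2, h3⟩ := hq
  rw [hs] at h3
  exact ⟨a, r, h1.trans h, h2.trans hs, h3⟩

/-- Amalgamation of pure extensions above the successors of the stem with index `i`. -/
theorem F1_amal {p : Cnd ρ} {i : I} (Γ : Set (ρ i).ord.ToType) (hΓ : ∀ β, ∃ γ ∈ Γ, β < γ)
    (Q : (ρ i).ord.ToType → Cnd ρ) (hT : ∀ γ ∈ Γ, p.stem ++ [⟨i, γ⟩] ∈ p.T)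
    (hQ : ∀ γ ∈ Γ, Q γ ≤ p ∧ (Q γ).stem = p.stem ++ [⟨i, γ⟩]) :
    ∃ q : Cnd ρ, q ≤ p ∧ q.stem = p.stem ∧ ∀ t ∈ q.T, ∀ γ, p.stem ++ [⟨i, γ⟩] <+: t →
      γ ∈ Γ ∧ t ∈ (Q γ).T := by
  have hlen : ∀ (γ : (ρ i).ord.ToType) (t : List (Nd ρ)), p.stem ++ [⟨i, γ⟩] <+: t →
      p.stem.length + 1 ≤ t.length := by
    intro γ t h
    have := h.length_le
    simpa using this
  have huniq : ∀ (γ γ' : (ρ i).ord.ToType) (t : List (Nd ρ)), p.stem ++ [⟨i, γ⟩] <+: t →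
      p.stem ++ [⟨i, γ'⟩] <+: t → γ = γ' := by
    intro γ γ' t h h'
    have h1 : p.stem ++ [(⟨i, γ⟩ : Nd ρ)] = p.stem ++ [⟨i, γ'⟩] := by
      rcases List.prefix_or_prefix_of_prefix h h' with h2 | h2
      · exact h2.eq_of_length (by simp)
      · exact (h2.eq_of_length (by simp)).symm
    have h2 := List.append_cancel_left h1
    rw [List.cons.injEq, Sigma.mk.injEq] at h2
    exact eq_of_heq h2.1.2
  refine ⟨{ T := {t | t ∈ p.T ∧ ∀ γ, p.stem ++ [⟨i, γ⟩] <+: t → γ ∈ Γ ∧ t ∈ (Q γ).T}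
            stem := p.stem
            mem := ?_
            pre := ?_
            cmp := fun t ht => p.cmp t ht.1
            br := ?_ }, fun t ht => ht.1, rfl, fun t ht => ht.2⟩
  · refine ⟨p.mem, fun γ h => ?_⟩
    have := hlen γ _ h
    omega
  · rintro t ⟨ht, h⟩ s hs
    exact ⟨p.pre t ht s hs, fun γ h1 => ⟨(h γ (h1.trans hs)).1, (Q γ).pre t (h γ (h1.trans hs)).2 s hs⟩⟩
  · rintro t ⟨ht, h⟩ hst j β
    by_cases hA : ∃ γ, p.stem ++ [⟨i, γ⟩] <+: t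
    · obtain ⟨γ, hγ⟩ := hA
      obtain ⟨h1, h2⟩ := h γ hγ
      obtain ⟨ε, h3, h4⟩ := (Q γ).br t h2 (by rw [(hQ γ h1).2]; exact hγ) j β
      refine ⟨ε, h3, (hQ γ h1).1 h4, fun γ' hγ' => ?_⟩
      obtain rfl := huniq γ γ' _ (hγ.trans (List.prefix_append _ _)) hγ'
      exact ⟨h1, h4⟩
    · by_cases hts : t = p.stem
      · subst hts
        by_cases hij : j = i
        · subst hij
          obtain ⟨γ, hγ, hβ⟩ := hΓ β
          refine ⟨γ, hβ, hT γ hγ, fun γ' hγ' => ?_⟩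
          obtain rfl := huniq γ γ' _ (List.prefix_refl _) hγ'
          refine ⟨hγ, ?_⟩
          rw [← (hQ γ hγ).2]
          exact (Q γ).mem
        · obtain ⟨ε, h3, h4⟩ := p.br _ ht (List.prefix_refl _) j β
          refine ⟨ε, h3, h4, fun γ' hγ' => ?_⟩
          exfalso
          have h1 := hγ'.eq_of_length (by simp)
          have h2 := List.append_cancel_left h1
          rw [List.cons.injEq, Sigma.mk.injEq] at h2
          exact hij h2.1.1.symm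
      · obtain ⟨ε, h3, h4⟩ := p.br t ht hst j β
        refine ⟨ε, h3, h4, fun γ' hγ' => ?_⟩
        exfalso
        apply hA
        refine ⟨γ', List.prefix_of_prefix_length_le hγ' (List.prefix_append _ _) ?_⟩
        have h1 : p.stem.length < t.length := by
          rcases hst.length_le.lt_or_eq with h1 | h1
          · exact h1
          · exact absurd (hst.eq_of_length h1).symm hts
        simpa using h1

theorem F1_G2 {lam : Cardinal.{0}} (hl : ℵ₀ ≤ lam) (hI : #I = lam)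
    (hρ : ∀ i, (ρ i).IsRegular ∧ lam < ρ i) {D : Set (Cnd ρ)}
    (hD : ∀ p q, q ≤ p → p ∈ D → q ∈ D) {p : Cnd ρ} (hp : ¬ F1_G D p) (i : I) :
    ∃ β, ∀ γ, β < γ → p.stem ++ [⟨i, γ⟩] ∈ p.T → ¬ F1_G D (F1_at p (p.stem ++ [⟨i, γ⟩])) := by
  classical
  by_contra hcon
  push Not at hcon
  apply hp
  have hinf : Infinite I := by
    rw [Cardinal.infinite_iff, hI]
    exact hl
  have hlist : #(List I) < ρ i := by
    rw [Cardinal.mk_list_eq_mk, hI]
    exact (hρ i).2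
  -- the good successors
  let Γ : Set (ρ i).ord.ToType := {γ | p.stem ++ [⟨i, γ⟩] ∈ p.T ∧
    F1_G D (F1_at p (p.stem ++ [⟨i, γ⟩]))}
  have hex : ∀ γ : (ρ i).ord.ToType, ∃ (a : List I) (q : Cnd ρ), γ ∈ Γ → q ≤ p ∧
      q.stem = p.stem ++ [⟨i, γ⟩] ∧ ∀ u : List (Nd ρ), u.map Sigma.fst = a →
        p.stem ++ [⟨i, γ⟩] ++ u ∈ q.T → F1_at q (p.stem ++ [⟨i, γ⟩] ++ u) ∈ D := by
    intro γ
    by_cases hγ : γ ∈ Γ
    · obtain ⟨a, q, h1, h2, h3⟩ := hγ.2
      rw [F1_at_stem hγ.1 (List.prefix_append _ _)] at h2 h3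
      exact ⟨a, q, fun _ => ⟨h1.trans (F1_at_le _ _), h2, h3⟩⟩
    · exact ⟨[], p, fun h => absurd h hγ⟩
  choose a Q haQ using hex
  have hpig : ∃ b : List I, ∀ β, ∃ γ, (γ ∈ Γ ∧ a γ = b) ∧ β < γ := by
    by_contra hno
    push Not at hno
    choose f hf using hno
    obtain ⟨β, hβ⟩ := F1_bdd (hρ i).1 hlist f
    obtain ⟨γ, h1, h2, h3⟩ := hcon β
    exact absurd (hf (a γ) γ ⟨⟨h2, h3⟩, rfl⟩) (not_le.2 ((hβ _).trans_lt h1))
  obtain ⟨b, hb⟩ := hpig
  obtain ⟨q, h1, h2, h3⟩ := F1_amal (p := p) {γ | γ ∈ Γ ∧ a γ = b} hb Q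
    (fun γ hγ => hγ.1.1) (fun γ hγ => ⟨(haQ γ hγ.1).1, (haQ γ hγ.1).2.1⟩)
  refine ⟨i :: b, q, h1, h2, fun u hu huq => ?_⟩
  cases u with
  | nil => simp at hu
  | cons x u =>
    rw [List.map_cons, List.cons.injEq] at hu
    obtain ⟨rfl, hub⟩ := hu
    obtain ⟨j, γ⟩ := x
    have happ : p.stem ++ (⟨j, γ⟩ : Nd ρ) :: u = p.stem ++ [⟨j, γ⟩] ++ u :=
      List.append_cons _ _ _
    have hpre : p.stem ++ [(⟨j, γ⟩ : Nd ρ)] <+: p.stem ++ ⟨j, γ⟩ :: u := by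
      rw [happ]
      exact List.prefix_append _ _
    obtain ⟨hγ, h5⟩ := h3 _ huq γ hpre
    obtain ⟨h6, h7, h8⟩ := haQ γ hγ.1
    have h9 := h8 u (by rw [hub, hγ.2]) (by rw [← happ]; exact h5)
    rw [← happ] at h9
    refine hD _ _ ?_ h9
    have hs : q.stem <+: p.stem ++ ⟨j, γ⟩ :: u := by
      rw [h2]
      exact List.prefix_append _ _
    intro t ht
    rw [F1_at_T huq hs] at ht
    rw [F1_at_T h5 (by rw [h7]; exact hpre)]
    refine ⟨?_, ht.2⟩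
    rcases ht.2 with h10 | h10
    · exact (Q γ).pre _ h5 _ h10
    · exact (h3 _ ht.1 γ (hpre.trans h10)).2

/-- A1. -/
theorem F1_A1 {lam : Cardinal.{0}} (hl : ℵ₀ ≤ lam) (hI : #I = lam)
    (hρ : ∀ i, (ρ i).IsRegular ∧ lam < ρ i) {D : Set (Cnd ρ)}
    (hD : ∀ p q, q ≤ p → p ∈ D → q ∈ D) (hd : ∀ p, ∃ q ≤ p, q ∈ D) (p : Cnd ρ) :
    F1_G D p := by
  by_contra hp
  have hstep : ∀ t ∈ p.T, p.stem <+: t → ¬ F1_G D (F1_at p t) → ∀ (i : I)
      (β : (ρ i).ord.ToType), ∃ γ, β < γ ∧ t ++ [⟨i, γ⟩] ∈ p.T ∧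
        ¬ F1_G D (F1_at p (t ++ [⟨i, γ⟩])) := by
    intro t ht hst hG i β
    obtain ⟨β₀, hβ₀⟩ := F1_G2 hl hI hρ hD hG i
    rw [F1_at_stem ht hst] at hβ₀
    obtain ⟨γ, hγ, hm⟩ := p.br t ht hst i (max β β₀)
    refine ⟨γ, (le_max_left _ _).trans_lt hγ, hm, ?_⟩
    have hpre : t <+: t ++ [(⟨i, γ⟩ : Nd ρ)] := List.prefix_append _ _
    have hm' : t ++ [⟨i, γ⟩] ∈ (F1_at p t).T := (F1_at_T ht hst).2 ⟨hm, Or.inr hpre⟩
    have h1 := hβ₀ γ ((le_max_right _ _).trans_lt hγ) hm'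
    intro h2
    apply h1
    refine F1_G_mono ?_ ?_ h2
    · intro u hu
      rw [F1_at_T hm (hst.trans hpre)] at hu
      rw [F1_at_T hm' (by rw [F1_at_stem ht hst]; exact hpre), F1_at_T ht hst]
      refine ⟨⟨hu.1, ?_⟩, hu.2⟩
      rcases hu.2 with h3 | h3
      · exact List.prefix_or_prefix_of_prefix h3 hpre
      · exact Or.inr (hpre.trans h3)
    · rw [F1_at_stem hm (hst.trans hpre), F1_at_stem hm' (by rw [F1_at_stem ht hst]; exact hpre)]
  have hs0 : ¬ F1_G D (F1_at p p.stem) := fun h =>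
    hp (F1_G_mono (F1_at_le _ _) (F1_at_stem p.mem (List.prefix_refl _)) h)
  let q : Cnd ρ :=
    { T := {t | t ∈ p.T ∧ ∀ t', p.stem <+: t' → t' <+: t → ¬ F1_G D (F1_at p t')}
      stem := p.stem
      mem := ⟨p.mem, fun t' h1 h2 => by
        rw [← h1.eq_of_length (le_antisymm h1.length_le h2.length_le)]
        exact hs0⟩
      pre := fun t ht s hs => ⟨p.pre t ht.1 s hs, fun t' h1 h2 => ht.2 t' h1 (h2.trans hs)⟩
      cmp := fun t ht => p.cmp t ht.1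
      br := fun t ht hst i β => by
        obtain ⟨γ, h1, h2, h3⟩ := hstep t ht.1 hst (ht.2 t hst (List.prefix_refl _)) i β
        refine ⟨γ, h1, h2, fun t' h4 h5 => ?_⟩
        rcases List.prefix_concat_iff.1 h5 with h6 | h6
        · rw [h6]
          exact h3
        · exact ht.2 t' h4 h6 }
  obtain ⟨r, hr, hrD⟩ := hd q
  have hrp : r ≤ p := fun u hu => (hr hu).1
  refine (hr r.mem).2 r.stem (F2_stem hrp) (List.prefix_refl _) ?_
  refine ⟨[], r, F1_le_at hrp, (F1_at_stem (hrp r.mem) (F2_stem hrp)).symm, fun u hu _ => ?_⟩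
  rw [List.map_eq_nil_iff] at hu
  subst hu
  exact hD _ _ (F1_at_le _ _) hrD

/-- A1 for finitely many open dense sets. -/
theorem F1_A1k {lam : Cardinal.{0}} (hl : ℵ₀ ≤ lam) (hI : #I = lam)
    (hρ : ∀ i, (ρ i).IsRegular ∧ lam < ρ i) {D : ℕ → Set (Cnd ρ)}
    (hD : ∀ n p q, q ≤ p → p ∈ D n → q ∈ D n) (hd : ∀ n p, ∃ q ≤ p, q ∈ D n) (k : ℕ)
    (p : Cnd ρ) : ∃ q ≤ p, q.stem = p.stem ∧ ∀ n < k, ∃ a : List I, ∀ u : List (Nd ρ),
      u.map Sigma.fst = a → p.stem ++ u ∈ q.T → F1_at q (p.stem ++ u) ∈ D n := by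
  induction k with
  | zero => exact ⟨p, le_rfl, rfl, fun n hn => absurd hn (Nat.not_lt_zero _)⟩
  | succ k ih =>
    obtain ⟨q, h1, h2, h3⟩ := ih
    obtain ⟨a, r, h4, h5, h6⟩ := F1_A1 hl hI hρ (hD k) (hd k) q
    refine ⟨r, h4.trans h1, h5.trans h2, fun n hn => ?_⟩
    rcases Nat.lt_succ_iff_lt_or_eq.1 hn with hn | rfl
    · obtain ⟨b, hb⟩ := h3 n hn
      refine ⟨b, fun u hu hur => hD n _ _ (F1_at_mono h4 hur ?_) (hb u hu (h4 hur))⟩
      rw [h5, h2]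
      exact List.prefix_append _ _
    · rw [h2] at h6
      exact ⟨a, h6⟩

/-! ### Fusion -/

/-- The conditions reached by the fusion. -/
inductive F1_R (R : Cnd ρ → ℕ → Cnd ρ) (p : Cnd ρ) : Cnd ρ → ℕ → Prop
  | base : F1_R R p (R p 0) 0
  | step {c : Cnd ρ} {k : ℕ} (x : Nd ρ) : F1_R R p c k → c.stem ++ [x] ∈ c.T →
      F1_R R p (R (F1_at c (c.stem ++ [x])) (k + 1)) (k + 1)

section fusion

variable {R : Cnd ρ → ℕ → Cnd ρ} (hR : ∀ c k, R c k ≤ c ∧ (R c k).stem = c.stem) {p : Cnd ρ}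

include hR

theorem F1_R_stem {c : Cnd ρ} (hc : F1_R R p c 0) : c = R p 0 := by
  cases hc
  rfl

theorem F1_R1 {c : Cnd ρ} {k : ℕ} (hc : F1_R R p c k) :
    c.stem.length = p.stem.length + k ∧ p.stem <+: c.stem ∧ c ≤ p := by
  induction hc with
  | base =>
    rw [(hR p 0).2]
    exact ⟨rfl, List.prefix_refl _, (hR p 0).1⟩
  | @step c k x hc hx ih =>
    have h1 : (R (F1_at c (c.stem ++ [x])) (k + 1)).stem = c.stem ++ [x] := by
      rw [(hR _ _).2, F1_at_stem hx (List.prefix_append _ _)]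
    rw [h1]
    refine ⟨?_, ih.2.1.trans (List.prefix_append _ _),
      (hR _ _).1.trans ((F1_at_le _ _).trans ih.2.2)⟩
    rw [List.length_append, ih.1]
    rfl

theorem F1_R2 {c : Cnd ρ} {k : ℕ} (hc : F1_R R p c k) : ∀ {c' : Cnd ρ} {k' : ℕ},
    F1_R R p c' k' → c.stem = c'.stem → c = c' ∧ k = k' := by
  induction hc with
  | base =>
    intro c' k' hc' h
    have h1 := (F1_R1 hR hc').1
    rw [← h, (hR p 0).2] at h1
    have h2 : k' = 0 := by omega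
    subst h2
    cases hc'
    exact ⟨rfl, rfl⟩
  | @step c k x hc hx ih =>
    intro c' k' hc' h
    have e1 : (R (F1_at c (c.stem ++ [x])) (k + 1)).stem = c.stem ++ [x] := by
      rw [(hR _ _).2, F1_at_stem hx (List.prefix_append _ _)]
    rw [e1] at h
    cases hc' with
    | base =>
      exfalso
      rw [(hR p 0).2] at h
      have h1 := (F1_R1 hR hc).1
      have h2 := congrArg List.length h
      rw [List.length_append, h1] at h2
      simp at h2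
      omega
    | @step c' k' x' hc' hx' =>
      have e2 : (R (F1_at c' (c'.stem ++ [x'])) (k' + 1)).stem = c'.stem ++ [x'] := by
        rw [(hR _ _).2, F1_at_stem hx' (List.prefix_append _ _)]
      rw [e2] at h
      obtain ⟨h1, h2⟩ := List.append_inj' h rfl
      obtain ⟨rfl, rfl⟩ := ih hc' h1
      rw [List.cons.injEq] at h2
      rw [h2.1]
      exact ⟨rfl, rfl⟩

theorem F1_R3 {c : Cnd ρ} {k : ℕ} (hc : F1_R R p c k) {t : List (Nd ρ)} (h1 : p.stem <+: t)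
    (h2 : t <+: c.stem) : ∃ c' k', F1_R R p c' k' ∧ c'.stem = t ∧ c ≤ c' := by
  induction hc with
  | base =>
    rw [(hR p 0).2] at h2
    have h3 : t = p.stem := h2.eq_of_length (le_antisymm h2.length_le h1.length_le)
    exact ⟨R p 0, 0, F1_R.base, by rw [(hR p 0).2, h3], le_rfl⟩
  | @step c k x hc hx ih =>
    have e1 : (R (F1_at c (c.stem ++ [x])) (k + 1)).stem = c.stem ++ [x] := by
      rw [(hR _ _).2, F1_at_stem hx (List.prefix_append _ _)]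
    rw [e1] at h2
    rcases List.prefix_concat_iff.1 h2 with h3 | h3
    · exact ⟨_, _, F1_R.step x hc hx, by rw [e1, h3], le_rfl⟩
    · obtain ⟨c', k', h4, h5, h6⟩ := ih h3
      exact ⟨c', k', h4, h5, (hR _ _).1.trans ((F1_at_le _ _).trans h6)⟩

/-- The fusion. -/
theorem F1_fus (p : Cnd ρ) : ∃ q ≤ p, q.stem = p.stem ∧ ∀ t ∈ q.T, p.stem <+: t →
    ∃ c k, F1_R R p c k ∧ c.stem = t ∧ F1_at q t ≤ c := by
  let q : Cnd ρ :=
    { T := {t | t <+: p.stem ∨ ∃ c k, F1_R R p c k ∧ c.stem = t}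
      stem := p.stem
      mem := Or.inl (List.prefix_refl _)
      pre := fun t ht s hs => by
        rcases ht with ht | ⟨c, k, hc, rfl⟩
        · exact Or.inl (hs.trans ht)
        · rcases List.prefix_or_prefix_of_prefix hs (F1_R1 hR hc).2.1 with h1 | h1
          · exact Or.inl h1
          · obtain ⟨c', k', h2, h3, -⟩ := F1_R3 hR hc h1 hs
            exact Or.inr ⟨c', k', h2, h3⟩
      cmp := fun t ht => by
        rcases ht with ht | ⟨c, k, hc, rfl⟩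
        · exact Or.inl ht
        · exact Or.inr (F1_R1 hR hc).2.1
      br := fun t ht hst i β => by
        have h1 : ∃ c k, F1_R R p c k ∧ c.stem = t := by
          rcases ht with ht | ht
          · have h3 : t = p.stem := ht.eq_of_length (le_antisymm ht.length_le hst.length_le)
            exact ⟨R p 0, 0, F1_R.base, by rw [(hR p 0).2, h3]⟩
          · exact ht
        obtain ⟨c, k, hc, rfl⟩ := h1
        obtain ⟨γ, h2, h3⟩ := c.br c.stem c.mem (List.prefix_refl _) i β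
        refine ⟨γ, h2, Or.inr ⟨_, _, F1_R.step _ hc h3, ?_⟩⟩
        rw [(hR _ _).2, F1_at_stem h3 (List.prefix_append _ _)] }
  have hmem : ∀ t, t ∈ q.T ↔ (t <+: p.stem ∨ ∃ c k, F1_R R p c k ∧ c.stem = t) :=
    fun _ => Iff.rfl
  have hqs : q.stem = p.stem := rfl
  clear_value q
  refine ⟨q, ?_, hqs, ?_⟩
  · intro t ht
    rcases (hmem t).1 ht with ht | ⟨c, k, hc, rfl⟩
    · exact p.pre _ p.mem _ ht
    · exact (F1_R1 hR hc).2.2 c.mem
  · intro t ht hst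
    have h1 : ∃ c k, F1_R R p c k ∧ c.stem = t := by
      rcases (hmem t).1 ht with h2 | h2
      · have h3 : t = p.stem := h2.eq_of_length (le_antisymm h2.length_le hst.length_le)
        exact ⟨R p 0, 0, F1_R.base, by rw [(hR p 0).2, h3]⟩
      · exact h2
    obtain ⟨c, k, hc, rfl⟩ := h1
    refine ⟨c, k, hc, rfl, ?_⟩
    intro u hu
    rw [F1_at_T ht (by rw [hqs]; exact hst)] at hu
    rcases hu.2 with h2 | h2
    · exact c.pre _ c.mem _ h2
    · rcases (hmem u).1 hu.1 with h3 | ⟨c', k', hc', rfl⟩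
      · have h4 := h2.trans h3
        have h5 : c.stem = u := by
          have h6 := h3.length_le
          have h7 := hst.length_le
          exact h2.eq_of_length (le_antisymm h2.length_le (h6.trans h7))
        rw [← h5]
        exact c.mem
      · obtain ⟨c'', k'', h3, h4, h5⟩ := F1_R3 hR hc' hst h2
        obtain ⟨rfl, rfl⟩ := F1_R2 hR h3 hc h4
        exact h5 c'.mem

end fusion

/-! ### A2 and A3 -/

section A3

variable {lam : Cardinal.{0}} {σ : Cardinal.{0}} {dec : Cnd ρ → ℕ → Ordinal.{0} → Prop}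

/-- A2. -/
theorem F1_A2 (hl : ℵ₀ ≤ lam) (hI : #I = lam) (hρ : ∀ i, (ρ i).IsRegular ∧ lam < ρ i)
    (mono : ∀ p q n v, q ≤ p → dec p n v → dec q n v)
    (dense : ∀ p n, ∃ q ≤ p, ∃ v < σ.ord, dec q n v) (p : Cnd ρ) :
    ∃ q ≤ p, q.stem = p.stem ∧ ∀ t ∈ q.T, p.stem <+: t → ∀ n, p.stem.length + n ≤ t.length →
      ∃ a : List I, ∀ u : List (Nd ρ), u.map Sigma.fst = a → t ++ u ∈ q.T →
        ∃ v, dec (F1_at q (t ++ u)) n v := by
  have h1 := F1_A1k hl hI hρ (D := fun n => {q | ∃ v, dec q n v})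
    (fun n p q hqp ⟨v, hv⟩ => ⟨v, mono p q n v hqp hv⟩)
    (fun n p => by
      obtain ⟨q, hq, v, -, hv⟩ := dense p n
      exact ⟨q, hq, v, hv⟩)
  choose R hR1 hR2 hR3 using h1
  obtain ⟨q, hq1, hq2, hq3⟩ := F1_fus (R := fun c k => R (k + 1) c)
    (fun c k => ⟨hR1 _ _, hR2 _ _⟩) p
  refine ⟨q, hq1, hq2, fun t ht hst n hn => ?_⟩
  obtain ⟨c, k, hc, rfl, hle⟩ := hq3 t ht hst
  have hlen := (F1_R1 (fun c k => ⟨hR1 _ _, hR2 _ _⟩) hc).1
  -- the condition `c` is a value of `R`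
  have hval : ∃ c', c = R (k + 1) c' := by
    cases hc with
    | base => exact ⟨p, rfl⟩
    | step x hc hx => exact ⟨_, rfl⟩
  obtain ⟨c', rfl⟩ := hval
  obtain ⟨a, ha⟩ := hR3 (k + 1) c' n (by omega)
  refine ⟨a, fun u hu huq => ?_⟩
  rw [← hR2 (k + 1) c'] at ha
  have hpre : (R (k + 1) c').stem <+: (R (k + 1) c').stem ++ u := List.prefix_append _ _
  have hqs : q.stem <+: (R (k + 1) c').stem := by
    rw [hq2]
    exact hst
  have h2 : (R (k + 1) c').stem ++ u ∈ (F1_at q (R (k + 1) c').stem).T :=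
    (F1_at_T ht hqs).2 ⟨huq, Or.inr hpre⟩
  obtain ⟨v, hv⟩ := ha u hu (hle h2)
  refine ⟨v, mono _ _ n v ?_ hv⟩
  intro w hw
  rw [F1_at_T huq (hqs.trans hpre)] at hw
  rw [F1_at_T (hle h2) hpre]
  refine ⟨?_, hw.2⟩
  apply hle
  rw [F1_at_T ht hqs]
  refine ⟨hw.1, ?_⟩
  rcases hw.2 with h3 | h3
  · exact List.prefix_or_prefix_of_prefix h3 hpre
  · exact Or.inr (hpre.trans h3)

/-- The nodes that lead to a decision `≥ δ`, with ranks. -/
inductive F1_B (q : Cnd ρ) (dec : Cnd ρ → ℕ → Ordinal.{0} → Prop) (δ : Ordinal.{0}) :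
    Ordinal.{0} → List (Nd ρ) → Prop
  | a {ξ : Ordinal.{0}} {t : List (Nd ρ)} (n : ℕ) (v : Ordinal.{0}) :
      δ ≤ v → dec (F1_at q t) n v → F1_B q dec δ ξ t
  | b {ξ : Ordinal.{0}} {t : List (Nd ρ)} (x : Nd ρ) (r : (ρ x.1).ord.ToType → Ordinal.{0}) :
      (∀ γ, x.2 < γ → t ++ [⟨x.1, γ⟩] ∈ q.T → r γ < ξ) →
      (∀ γ, x.2 < γ → t ++ [⟨x.1, γ⟩] ∈ q.T → F1_B q dec δ (r γ) (t ++ [⟨x.1, γ⟩])) →
      F1_B q dec δ ξ t

/-- The node is bad. -/
def F1_I (q : Cnd ρ) (dec : Cnd ρ → ℕ → Ordinal.{0} → Prop) (δ : Ordinal.{0})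
    (t : List (Nd ρ)) : Prop := ∃ ξ, F1_B q dec δ ξ t

theorem F1_I_b {q : Cnd ρ} {δ : Ordinal.{0}} {t : List (Nd ρ)} (x : Nd ρ)
    (h : ∀ γ, x.2 < γ → t ++ [⟨x.1, γ⟩] ∈ q.T → F1_I q dec δ (t ++ [⟨x.1, γ⟩])) :
    F1_I q dec δ t := by
  have h1 : ∀ γ, ∃ ξ, x.2 < γ → t ++ [⟨x.1, γ⟩] ∈ q.T → F1_B q dec δ ξ (t ++ [⟨x.1, γ⟩]) := by
    intro γ
    by_cases h2 : x.2 < γ ∧ t ++ [⟨x.1, γ⟩] ∈ q.T
    · obtain ⟨ξ, hξ⟩ := h γ h2.1 h2.2
      exact ⟨ξ, fun _ _ => hξ⟩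
    · exact ⟨0, fun h3 h4 => absurd ⟨h3, h4⟩ h2⟩
  choose r hr using h1
  exact ⟨⨆ γ, r γ + 1, F1_B.b x r (fun γ _ _ => (lt_add_one _).trans_le
    (Ordinal.le_iSup (fun γ => r γ + 1) γ)) hr⟩

/-- The witnesses. -/
theorem F1_wit {q : Cnd ρ} {δ : Ordinal.{0}} {t : List (Nd ρ)} (h : F1_I q dec δ t) :
    (∃ n v, δ ≤ v ∧ dec (F1_at q t) n v) ∨ ∃ x : Nd ρ, ∀ γ, x.2 < γ →
      t ++ [⟨x.1, γ⟩] ∈ q.T → F1_I q dec δ (t ++ [⟨x.1, γ⟩]) ∧
        sInf {ξ | F1_B q dec δ ξ (t ++ [⟨x.1, γ⟩])} < sInf {ξ | F1_B q dec δ ξ t} := by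
  have h1 : F1_B q dec δ (sInf {ξ | F1_B q dec δ ξ t}) t := csInf_mem (s := {ξ | F1_B q dec δ ξ t}) h
  generalize sInf {ξ | F1_B q dec δ ξ t} = ξ at h1 ⊢
  cases h1 with
  | a n v h2 h3 => exact Or.inl ⟨n, v, h2, h3⟩
  | b x r h2 h3 =>
    right
    refine ⟨x, fun γ h4 h5 => ⟨⟨_, h3 γ h4 h5⟩, ?_⟩⟩
    exact (csInf_le' (s := {ξ | F1_B q dec δ ξ (t ++ [⟨x.1, γ⟩])}) (h3 γ h4 h5)).trans_lt (h2 γ h4 h5)

/-- The small set of nodes. -/
theorem F1_N (hl : ℵ₀ ≤ lam) (hI : #I = lam) (hρ : ∀ i, (ρ i).IsRegular ∧ lam < ρ i)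
    (hσ : σ.IsRegular) (hσl : lam < σ) (hσn : ∀ i, ρ i ≠ σ) (q : Cnd ρ)
    (w : σ.ord.ToType → List (Nd ρ) → Nd ρ) : ∃ N : Set (List (Nd ρ)), #N < σ ∧
      q.stem ∈ N ∧ (∀ t ∈ N, t ∈ q.T ∧ q.stem <+: t) ∧
      ∀ t ∈ N, ∀ δ, ∃ γ, (w δ t).2 < γ ∧ t ++ [⟨(w δ t).1, γ⟩] ∈ q.T ∧
        t ++ [⟨(w δ t).1, γ⟩] ∈ N := by
  classical
  -- for large `ρ i` one successor is enough
  have hg : ∀ (t : List (Nd ρ)) (i : I), ∃ γ : (ρ i).ord.ToType, t ∈ q.T → q.stem <+: t →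
      σ < ρ i → t ++ [⟨i, γ⟩] ∈ q.T ∧ ∀ δ, ∀ h : (w δ t).1 = i, (h ▸ (w δ t).2) < γ := by
    intro t i
    by_cases hcase : t ∈ q.T ∧ q.stem <+: t ∧ σ < ρ i
    · obtain ⟨ht, hst, hi⟩ := hcase
      have hne : Nonempty (ρ i).ord.ToType := by
        rw [Ordinal.nonempty_toType_iff]
        exact (Cardinal.ord_pos.2 (hρ i).1.pos).ne'
      obtain ⟨β, hβ⟩ := F1_bdd (hρ i).1 (ι := σ.ord.ToType)
        (by rw [Cardinal.mk_ord_toType]; exact hi)
        (fun δ => if h : (w δ t).1 = i then (h ▸ (w δ t).2) else Classical.choice hne)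
      obtain ⟨γ, h1, h2⟩ := q.br t ht hst i β
      refine ⟨γ, fun _ _ _ => ⟨h2, fun δ h => ?_⟩⟩
      have h3 := hβ δ
      rw [dif_pos h] at h3
      exact h3.trans_lt h1
    · have hne : Nonempty (ρ i).ord.ToType := by
        rw [Ordinal.nonempty_toType_iff]
        exact (Cardinal.ord_pos.2 (hρ i).1.pos).ne'
      exact ⟨Classical.choice hne, fun h1 h2 h3 => absurd ⟨h1, h2, h3⟩ hcase⟩
  choose g hg using hg
  let S : List (Nd ρ) → I → Set (List (Nd ρ)) := fun t i =>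
    if ρ i < σ then {s | s ∈ q.T ∧ ∃ γ, s = t ++ [⟨i, γ⟩]} else {s | s ∈ q.T ∧ s = t ++ [⟨i, g t i⟩]}
  have hS : ∀ t i, #(S t i) < σ := by
    intro t i
    by_cases hi : ρ i < σ
    · have h1 : S t i ⊆ Set.range (fun γ : (ρ i).ord.ToType => t ++ [(⟨i, γ⟩ : Nd ρ)]) := by
        intro s hs
        simp only [S, if_pos hi] at hs
        obtain ⟨-, γ, rfl⟩ := hs
        exact ⟨γ, rfl⟩
      refine (Cardinal.mk_le_mk_of_subset h1).trans_lt (Cardinal.mk_range_le.trans_lt ?_)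
      rw [Cardinal.mk_ord_toType]
      exact hi
    · have h1 : S t i ⊆ {t ++ [⟨i, g t i⟩]} := by
        intro s hs
        simp only [S, if_neg hi] at hs
        exact hs.2
      refine (Cardinal.mk_le_mk_of_subset h1).trans_lt ?_
      rw [Cardinal.mk_singleton]
      exact Cardinal.one_lt_aleph0.trans_le hσ.aleph0_le
  let F : Set (List (Nd ρ)) → Set (List (Nd ρ)) := fun M => ⋃ x : M × I, S x.1.1 x.2
  let L : ℕ → Set (List (Nd ρ)) := fun k => F^[k] {q.stem}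
  have hL0 : L 0 = {q.stem} := rfl
  have hLs : ∀ k, L (k + 1) = F (L k) := fun k => Function.iterate_succ_apply' F k _
  have hF : ∀ M : Set (List (Nd ρ)), #M < σ → #(F M) < σ := by
    intro M hM
    have h1 : #(M × I) < σ := by
      rw [Cardinal.mk_prod, Cardinal.lift_id, Cardinal.lift_id, hI]
      exact Cardinal.mul_lt_of_lt hσ.aleph0_le hM hσl
    exact (Cardinal.card_iUnion_lt_iff_forall_of_isRegular hσ h1).2 fun x => hS _ _
  have hLc : ∀ k, #(L k) < σ := by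
    intro k
    induction k with
    | zero =>
      rw [hL0, Cardinal.mk_singleton]
      exact Cardinal.one_lt_aleph0.trans_le hσ.aleph0_le
    | succ k ih =>
      rw [hLs]
      exact hF _ ih
  have hLm : ∀ k, ∀ t ∈ L k, t ∈ q.T ∧ q.stem <+: t := by
    intro k
    induction k with
    | zero =>
      intro t ht
      rw [hL0, Set.mem_singleton_iff] at ht
      rw [ht]
      exact ⟨q.mem, List.prefix_refl _⟩
    | succ k ih =>
      intro t ht
      rw [hLs] at ht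
      obtain ⟨⟨⟨s, hs⟩, i⟩, h1⟩ := Set.mem_iUnion.1 ht
      simp only [S] at h1
      split_ifs at h1 with h2
      · obtain ⟨h3, γ, rfl⟩ := h1
        exact ⟨h3, (ih s hs).2.trans (List.prefix_append _ _)⟩
      · obtain ⟨h3, rfl⟩ := h1
        exact ⟨h3, (ih s hs).2.trans (List.prefix_append _ _)⟩
  refine ⟨⋃ k, L k, ?_, Set.mem_iUnion.2 ⟨0, rfl⟩, ?_, ?_⟩
  · refine (Cardinal.card_iUnion_lt_iff_forall_of_isRegular hσ ?_).2 hLc
    rw [Cardinal.mk_nat]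
    exact hl.trans_lt hσl
  · intro t ht
    obtain ⟨k, hk⟩ := Set.mem_iUnion.1 ht
    exact hLm k t hk
  · intro t ht δ
    obtain ⟨k, hk⟩ := Set.mem_iUnion.1 ht
    obtain ⟨htq, hst⟩ := hLm k t hk
    have hmem : ∀ s ∈ S t (w δ t).1, s ∈ ⋃ k, L k := by
      intro s hs
      refine Set.mem_iUnion.2 ⟨k + 1, ?_⟩
      rw [hLs]
      exact Set.mem_iUnion.2 ⟨(⟨t, hk⟩, (w δ t).1), hs⟩
    rcases lt_or_ge (ρ (w δ t).1) σ with hi | hi
    · obtain ⟨γ, h1, h2⟩ := q.br t htq hst (w δ t).1 (w δ t).2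
      refine ⟨γ, h1, h2, hmem _ ?_⟩
      simp only [S, if_pos hi]
      exact ⟨h2, γ, rfl⟩
    · have hi' : σ < ρ (w δ t).1 := lt_of_le_of_ne hi (hσn _).symm
      obtain ⟨h1, h2⟩ := hg t (w δ t).1 htq hst hi'
      refine ⟨g t (w δ t).1, h2 δ rfl, h1, hmem _ ?_⟩
      simp only [S, if_neg (not_lt.2 hi)]
      exact ⟨h1, rfl⟩

end A3

end

/-- A3. `dec p n v` stands for: `p` decides `τ(n)` as `v`. -/
theorem bounded_of_dec {I : Type} {ρ : I → Cardinal.{0}} {lam : Cardinal.{0}} (hl : ℵ₀ ≤ lam)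
    (hI : #I = lam) (hρ : ∀ i, (ρ i).IsRegular ∧ lam < ρ i) {σ : Cardinal.{0}}
    (hσ : σ.IsRegular) (hσl : lam < σ) (hσn : ∀ i, ρ i ≠ σ)
    (dec : Cnd ρ → ℕ → Ordinal.{0} → Prop)
    (mono : ∀ p q n v, q ≤ p → dec p n v → dec q n v)
    (uniq : ∀ p n v w, dec p n v → dec p n w → v = w)
    (dense : ∀ p n, ∃ q ≤ p, ∃ v < σ.ord, dec q n v) (p : Cnd ρ) :
    ∃ q ≤ p, ∃ δ < σ.ord, ∀ r ≤ q, ∀ n v, dec r n v → v < δ := by
  classical
  have hinf : Infinite I := by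
    rw [Cardinal.infinite_iff, hI]
    exact hl
  have hvlt : ∀ p n v, dec p n v → v < σ.ord := by
    intro p n v hv
    obtain ⟨q, hq, v', hv', hd⟩ := dense p n
    rw [uniq q n v v' (mono p q n v hq hv) hd]
    exact hv'
  obtain ⟨q, hqp, hqs, hA2⟩ := F1_A2 hl hI hρ mono dense p
  rw [← hqs] at hA2
  -- the witnesses
  have i₀ : I := Classical.arbitrary I
  have hne : Nonempty (Nd ρ) := by
    obtain ⟨γ, -⟩ := exists_gt_ord (hρ i₀).1.aleph0_le
      (Ordinal.ToType.mk ⟨0, Cardinal.ord_pos.2 (hρ i₀).1.pos⟩)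
    exact ⟨⟨i₀, γ⟩⟩
  let od : σ.ord.ToType → Ordinal.{0} := fun d => (Ordinal.ToType.mk.symm d : Set.Iio _).1
  have hw : ∀ (d : σ.ord.ToType) (t : List (Nd ρ)), ∃ x : Nd ρ, F1_I q dec (od d) t →
      (¬ ∃ n v, od d ≤ v ∧ dec (F1_at q t) n v) → ∀ γ, x.2 < γ →
        t ++ [⟨x.1, γ⟩] ∈ q.T → F1_I q dec (od d) (t ++ [⟨x.1, γ⟩]) ∧
        sInf {ξ | F1_B q dec (od d) ξ (t ++ [⟨x.1, γ⟩])} < sInf {ξ | F1_B q dec (od d) ξ t} := by
    intro d t
    by_cases h : F1_I q dec (od d) t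
    · rcases F1_wit h with h1 | ⟨x, hx⟩
      · exact ⟨Classical.choice hne, fun _ h2 => absurd h1 h2⟩
      · exact ⟨x, fun _ _ => hx⟩
    · exact ⟨Classical.choice hne, fun h1 => absurd h1 h⟩
  choose w hw using hw
  obtain ⟨N, hNc, hN0, hNq, hNw⟩ := F1_N hl hI hρ hσ hσl hσn q w
  -- the bound
  let val : N × ℕ → Ordinal.{0} := fun x =>
    if h : ∃ v, dec (F1_at q x.1.1) x.2 v then h.choose else 0
  have hval : ∀ (t : List (Nd ρ)) (ht : t ∈ N) n v, dec (F1_at q t) n v → v = val (⟨t, ht⟩, n) := by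
    intro t ht n v hv
    have h1 : ∃ v, dec (F1_at q t) n v := ⟨v, hv⟩
    have h2 : val (⟨t, ht⟩, n) = h1.choose := dif_pos h1
    rw [h2]
    exact uniq _ _ _ _ hv h1.choose_spec
  have hvals : ∀ x, val x < σ.ord := by
    intro x
    by_cases h1 : ∃ v, dec (F1_at q x.1.1) x.2 v
    · have h2 : val x = h1.choose := dif_pos h1
      rw [h2]
      exact hvlt _ _ _ h1.choose_spec
    · have h2 : val x = 0 := dif_neg h1
      rw [h2]
      exact Cardinal.ord_pos.2 hσ.pos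
  have hsup : (⨆ x, val x) < σ.ord := by
    apply Ordinal.iSup_lt_of_lt_cof
    · rw [hσ.cof_ord, Cardinal.mk_prod, Cardinal.lift_id, Cardinal.lift_id, Cardinal.mk_nat]
      exact Cardinal.mul_lt_of_lt hσ.aleph0_le hNc (hl.trans_lt hσl)
    · exact hvals
  have hlim : Order.IsSuccLimit σ.ord := Cardinal.isSuccLimit_ord hσ.aleph0_le
  set δ : Ordinal.{0} := (⨆ x, val x) + 1 with hδ
  have hδσ : δ < σ.ord := hlim.add_one_lt hsup
  have hNδ : ∀ t ∈ N, ∀ n v, dec (F1_at q t) n v → v < δ := by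
    intro t ht n v hv
    rw [hval t ht n v hv, hδ]
    exact (Ordinal.le_iSup val _).trans_lt (lt_add_one _)
  let d : σ.ord.ToType := Ordinal.ToType.mk ⟨δ, hδσ⟩
  have hod : od d = δ := by
    simp [od, d]
  -- the stem is not bad
  have hstem : ∀ (ξ : Ordinal.{0}) (t : List (Nd ρ)), t ∈ N → F1_I q dec δ t →
      sInf {ξ | F1_B q dec δ ξ t} = ξ → False := by
    intro ξ
    induction ξ using WellFoundedLT.induction with
    | ind ξ ih =>
      intro t ht hI' hξ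
      have h1 : ¬ ∃ n v, δ ≤ v ∧ dec (F1_at q t) n v := by
        rintro ⟨n, v, h2, h3⟩
        exact absurd (hNδ t ht n v h3) (not_lt.2 h2)
      have h2 := hw d t
      rw [hod] at h2
      obtain ⟨γ, h3, h4, h5⟩ := hNw t ht d
      obtain ⟨h6, h7⟩ := h2 hI' h1 γ h3 h4
      exact ih _ (hξ ▸ h7) _ h5 h6 rfl
  have hs : ¬ F1_I q dec δ q.stem := fun h => hstem _ _ hN0 h rfl
  -- the condition
  let q' : Cnd ρ :=
    { T := {t | t ∈ q.T ∧ ∀ t', q.stem <+: t' → t' <+: t → ¬ F1_I q dec δ t'}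
      stem := q.stem
      mem := ⟨q.mem, fun t' h1 h2 => by
        rw [← h1.eq_of_length (le_antisymm h1.length_le h2.length_le)]
        exact hs⟩
      pre := fun t ht s hs => ⟨q.pre t ht.1 s hs, fun t' h1 h2 => ht.2 t' h1 (h2.trans hs)⟩
      cmp := fun t ht => q.cmp t ht.1
      br := fun t ht hst i β => by
        by_contra hno
        push Not at hno
        refine ht.2 t hst (List.prefix_refl _) (F1_I_b ⟨i, β⟩ fun γ h1 h2 => ?_)
        by_contra h3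
        refine hno γ h1 ⟨h2, fun t' h4 h5 => ?_⟩
        rcases List.prefix_concat_iff.1 h5 with h6 | h6
        · rw [h6]
          exact h3
        · exact ht.2 t' h4 h6 }
  have hq'q : q' ≤ q := fun t ht => ht.1
  have hq' : ∀ t ∈ q'.T, q.stem <+: t → ¬ F1_I q dec δ t :=
    fun t ht h1 => ht.2 t h1 (List.prefix_refl _)
  have hq's : q'.stem = q.stem := rfl
  clear_value q'
  refine ⟨q', hq'q.trans hqp, δ, hδσ, fun r hr n v hd => ?_⟩
  by_contra hv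
  rw [not_lt] at hv
  have hrq : r ≤ q := hr.trans hq'q
  -- a long node
  have hlong : ∀ k, ∃ t ∈ r.T, r.stem <+: t ∧ r.stem.length + k = t.length := by
    intro k
    induction k with
    | zero => exact ⟨r.stem, r.mem, List.prefix_refl _, rfl⟩
    | succ k ih =>
      obtain ⟨t, h1, h2, h3⟩ := ih
      obtain ⟨γ, -, h4⟩ := r.br t h1 h2 hne.some.1 hne.some.2
      refine ⟨_, h4, h2.trans (List.prefix_append _ _), ?_⟩
      rw [List.length_append, ← h3]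
      rfl
  have hfollow : ∀ (a : List I) (t : List (Nd ρ)), t ∈ r.T → r.stem <+: t →
      ∃ u : List (Nd ρ), u.map Sigma.fst = a ∧ t ++ u ∈ r.T := by
    intro a
    induction a with
    | nil =>
      intro t h1 h2
      exact ⟨[], rfl, by rwa [List.append_nil]⟩
    | cons i a ih =>
      intro t h1 h2
      obtain ⟨γ, -, h4⟩ := r.br t h1 h2 i
        (Ordinal.ToType.mk ⟨0, Cardinal.ord_pos.2 (hρ i).1.pos⟩)
      obtain ⟨u, h5, h6⟩ := ih _ h4 (h2.trans (List.prefix_append _ _))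
      refine ⟨⟨i, γ⟩ :: u, by rw [List.map_cons, h5], ?_⟩
      rw [List.append_cons]
      exact h6
  obtain ⟨t, h1, h2, h3⟩ := hlong n
  have hst : q.stem <+: r.stem := F2_stem hrq
  obtain ⟨a, ha⟩ := hA2 t (hrq h1) (hst.trans h2) n (by
    have := hst.length_le
    omega)
  obtain ⟨u, h4, h5⟩ := hfollow a t h1 h2
  obtain ⟨v', hv'⟩ := ha u h4 (hrq h5)
  have hpre : r.stem <+: t ++ u := h2.trans (List.prefix_append _ _)
  have h6 : dec (F1_at r (t ++ u)) n v := mono _ _ _ _ (F1_at_le _ _) hd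
  have h7 : dec (F1_at r (t ++ u)) n v' := mono _ _ _ _ (F1_at_mono hrq h5 hpre) hv'
  have h8 := uniq _ _ _ _ h6 h7
  rw [← h8] at hv'
  exact hq' _ (hr h5) (hst.trans hpre) ⟨0, F1_B.a n v hv hv'⟩

end Pool.Agent.helper797_cs
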