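import Pool.Agent.helper797_cs.PDefs
import Pool.Agent.helper797_cs.CDefs
import Pool.Agent.helper797_cs.PSq

/-! # F2, first part: names, the generic branch, `cof α ∈ B` gives cofinality omega -/

set_option autoImplicit false
set_option linter.unreachableTactic false
set_option linter.unusedTactic false
set_option linter.unusedSectionVars false

namespace Pool.Agent.helper797_cs
open Pool.Agent.W868 PName
open ZFSet (pair)
open Cardinal

/-- The inverse of a cofinal sequence. -/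
theorem F2_inv (α : Ordinal.{0}) : ∃ h : Ordinal.{0} → Ordinal.{0},
    (∀ ξ < α, h ξ < α.cof.ord) ∧ ∀ δ < α.cof.ord, ∃ ζ < α, ∀ ξ < α, h ξ < δ → ξ ≤ ζ := by
  obtain ⟨F, h1, h2, h3⟩ := F2_seq α
  refine ⟨fun ξ => sInf {i | i < α.cof.ord ∧ ξ ≤ F i}, fun ξ hξ => ?_, fun δ hδ => ?_⟩
  · obtain ⟨i, hi⟩ := h3 ξ hξ
    exact (csInf_mem (s := {i | i < α.cof.ord ∧ ξ ≤ F i}) ⟨i, hi⟩).1
  · refine ⟨F δ, h2 δ hδ, fun ξ hξ hlt => ?_⟩
    obtain ⟨i, hi⟩ := h3 ξ hξ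
    have h4 := (csInf_mem (s := {i | i < α.cof.ord ∧ ξ ≤ F i}) ⟨i, hi⟩).2
    exact h4.trans (h1 _ _ hlt hδ).le

section
variable {P : Type} [Preorder P] [OrderTop P]

/-- `τ` is the name of a cofinal function from `ω` to `α`. -/
def F2_cf (τ : PName P) (α : ZFSet.{0}) (π : Pkg P) : Prop :=
  (∀ n ∈ π.hat ZFSet.omega, ∃ y ∈ π.hat α, pair n y ∈ π.val τ) ∧
  (∀ n ∈ π.hat ZFSet.omega, ∀ y ∈ π.hat α, ∀ y' ∈ π.hat α, pair n y ∈ π.val τ →
    pair n y' ∈ π.val τ → y = y') ∧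
  ∀ x ∈ π.hat α, ∃ n ∈ π.hat ZFSet.omega, ∃ y ∈ π.hat α, pair n y ∈ π.val τ ∧ x ∈ y

theorem F2_cf_dfn (τ : PName P) (α : ZFSet.{0}) :
    NDfn {τ, check α, check ZFSet.omega} fun π (_ : Fin 0 → ZFSet.{0}) => F2_cf τ α π := by
  have hτ : τ ∈ ({τ, check α, check ZFSet.omega} : Set (PName P)) := by simp
  have hα : check α ∈ ({τ, check α, check ZFSet.omega} : Set (PName P)) := by simp
  have hω : check ZFSet.omega ∈ ({τ, check α, check ZFSet.omega} : Set (PName P)) := by simp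
  unfold F2_cf
  refine NDfn.and ?_ (NDfn.and ?_ ?_)
  · refine NDfn.ball (NDfnF.hat hω) ?_
    refine NDfn.bex (NDfnF.hat hα) ?_
    exact NDfn.mem (NDfnF.pair (NDfnF.proj _) (NDfnF.proj _)) (NDfnF.val hτ)
  · refine NDfn.ball (NDfnF.hat hω) ?_
    refine NDfn.ball (NDfnF.hat hα) ?_
    refine NDfn.ball (NDfnF.hat hα) ?_
    refine NDfn.imp (NDfn.mem (NDfnF.pair (NDfnF.proj _) (NDfnF.proj _)) (NDfnF.val hτ)) ?_
    refine NDfn.imp (NDfn.mem (NDfnF.pair (NDfnF.proj _) (NDfnF.proj _)) (NDfnF.val hτ)) ?_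
    exact NDfn.eq (NDfnF.proj _) (NDfnF.proj _)
  · refine NDfn.ball (NDfnF.hat hα) ?_
    refine NDfn.bex (NDfnF.hat hω) ?_
    refine NDfn.bex (NDfnF.hat hα) ?_
    exact NDfn.and (NDfn.mem (NDfnF.pair (NDfnF.proj _) (NDfnF.proj _)) (NDfnF.val hτ))
      (NDfn.mem (NDfnF.proj _) (NDfnF.proj _))

theorem F2_mem_sqSet {g : ℕ → ZFSet.{0}} {n : ℕ} {y : ZFSet.{0}} :
    pair (nat n) y ∈ sqSet g ↔ y = g n := by
  unfold sqSet
  rw [ZFSet.mem_range]
  constructor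
  · rintro ⟨m, hm⟩
    obtain ⟨h1, h2⟩ := ZFSet.pair_inj.1 hm
    rw [← h2, nat_injective h1]
  · rintro rfl
    exact ⟨n, rfl⟩

theorem F2_cf_of {τ : PName P} {α : ZFSet.{0}} {π : Pkg P} {g : ℕ → ZFSet.{0}}
    (h1 : π.val τ = sqSet g) (h2 : ∀ n, g n ∈ π.hat α)
    (h3 : ∀ x ∈ π.hat α, ∃ n, x ∈ g n) : F2_cf τ α π := by
  refine ⟨?_, ?_, ?_⟩
  · intro n hn
    rw [π.hat_omega, mem_omega_iff] at hn
    obtain ⟨n, rfl⟩ := hn
    exact ⟨g n, h2 n, h1 ▸ F2_mem_sqSet.2 rfl⟩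
  · intro n hn y _ y' _ hy hy'
    rw [π.hat_omega, mem_omega_iff] at hn
    obtain ⟨n, rfl⟩ := hn
    rw [h1, F2_mem_sqSet] at hy hy'
    rw [hy, hy']
  · intro x hx
    obtain ⟨n, hn⟩ := h3 x hx
    refine ⟨nat n, ?_, g n, h2 n, h1 ▸ F2_mem_sqSet.2 rfl, hn⟩
    rw [π.hat_omega, mem_omega_iff]
    exact ⟨n, rfl⟩

end

/-! ### The generic branch -/

section branch

variable {I : Type} {ρ : I → Cardinal.{0}}

theorem F2_stem {p q : Cnd ρ} (h : q ≤ p) : p.stem <+: q.stem := by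
  rcases p.cmp q.stem (h q.mem) with h1 | h1
  · obtain ⟨l, hl⟩ := h1
    cases l with
    | nil =>
      rw [List.append_nil] at hl
      rw [hl]
    | cons x l =>
      exfalso
      obtain ⟨γ, hγ, hm⟩ := q.br q.stem q.mem (List.prefix_refl _) x.1 x.2
      have h2 : q.stem ++ [⟨x.1, γ⟩] <+: p.stem := by
        rcases p.cmp _ (h hm) with h2 | h2
        · exact h2
        · have h3 := h2.length_le
          rw [← hl] at h2 h3
          simp only [List.length_append, List.length_cons, List.length_nil] at h3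
          have h4 : l = [] := List.length_eq_zero_iff.1 (by omega)
          subst h4
          exact (List.IsPrefix.eq_of_length h2 (by simp)) ▸ (hl ▸ List.prefix_refl _)
      rw [← hl] at h2
      rw [List.prefix_append_right_inj] at h2
      obtain ⟨m, hm⟩ := h2
      simp only [List.cons_append, List.nil_append, List.cons.injEq] at hm
      have h5 := hm.1
      obtain ⟨i, β⟩ := x
      rw [Sigma.mk.injEq] at h5
      exact absurd (eq_of_heq h5.2).symm hγ.ne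
  · exact h1

/-- Extension of a condition. -/
theorem F2_ext (p : Cnd ρ) (i : I) (β : (ρ i).ord.ToType) :
    ∃ q ≤ p, ∃ γ, β < γ ∧ q.stem = p.stem ++ [⟨i, γ⟩] := by
  obtain ⟨γ, hγ, hm⟩ := p.br p.stem p.mem (List.prefix_refl _) i β
  refine ⟨{ T := {s | s ∈ p.T ∧ (s <+: p.stem ++ [⟨i, γ⟩] ∨ p.stem ++ [⟨i, γ⟩] <+: s)}
            stem := p.stem ++ [⟨i, γ⟩]
            mem := ⟨hm, Or.inl (List.prefix_refl _)⟩
            pre := ?_
            cmp := fun t ht => ht.2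
            br := ?_ }, fun t ht => ht.1, γ, hγ, rfl⟩
  · rintro t ⟨ht, h⟩ s hs
    refine ⟨p.pre t ht s hs, ?_⟩
    rcases h with h | h
    · exact Or.inl (hs.trans h)
    · exact List.prefix_or_prefix_of_prefix hs h
  · rintro t ⟨ht, -⟩ hs j δ
    obtain ⟨ε, h1, h2⟩ := p.br t ht ((List.prefix_append _ _).trans hs) j δ
    exact ⟨ε, h1, h2, Or.inr (hs.trans (List.prefix_append _ _))⟩

/-- The ordinal of an entry. -/
noncomputable def F2_o (x : Nd ρ) : Ordinal.{0} := (Ordinal.ToType.mk.symm x.2 : Set.Iio _).1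

/-- The entry as a set. -/
noncomputable def F2_e (c : I → Ordinal.{0}) (x : Nd ρ) : ZFSet.{0} :=
  pair (c x.1).toZFSet (F2_o x).toZFSet

variable [Fact (∀ i, ℵ₀ ≤ ρ i)]

/-- The name of the generic branch. -/
noncomputable def F2_b (ρ : I → Cardinal.{0}) [Fact (∀ i, ℵ₀ ≤ ρ i)] (c : I → Ordinal.{0}) :
    PName (Cnd ρ) :=
  mk {t : ℕ × Cnd ρ // t.1 < t.2.stem.length}
    (fun t => opN (check (nat t.1.1)) (check (F2_e c (t.1.2.stem[t.1.1]'t.2))))
    (fun t => t.1.2)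

theorem F2_mem_b {c : I → Ordinal.{0}} {π : Pkg (Cnd ρ)} {n : ℕ} {z : ZFSet.{0}} :
    pair (nat n) z ∈ π.val (F2_b ρ c) ↔ ∃ (m : ℕ) (h : n < (π.g m).stem.length),
      F2_e c ((π.g m).stem[n]) ∈ π.Z ∧ z = π.hat (F2_e c ((π.g m).stem[n])) := by
  rw [π.mem_val]
  constructor
  · rintro ⟨y, hy, p, ⟨⟨⟨n', p'⟩, hlt⟩, rfl, rfl⟩, ⟨m, hm⟩, hv⟩
    change opN (check (nat n')) (check (F2_e c (p'.stem[n']'hlt))) ∈ π.N at hy
    change π.g m ≤ p' at hm
    change π.val (opN (check (nat n')) (check (F2_e c (p'.stem[n']'hlt)))) = _ at hv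
    have h1 := π.fst_mem hy
    have h2 := π.snd_mem hy
    rw [π.val_opN h1 h2] at hv
    obtain ⟨h3, h4⟩ := ZFSet.pair_inj.1 hv
    have h5 : π.val (check (nat n')) = nat n' := π.hat_nat n'
    rw [h5] at h3
    obtain rfl := nat_injective h3
    obtain ⟨l, hl⟩ := F2_stem hm
    have hlt' : n' < (π.g m).stem.length := by
      rw [← hl, List.length_append]
      exact Nat.lt_add_right _ hlt
    have h6 : (π.g m).stem[n'] = p'.stem[n']'hlt := by
      simp only [← hl]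
      rw [List.getElem_append_left]
    refine ⟨m, hlt', ?_, ?_⟩
    · rw [h6]
      exact h2
    · rw [h6]
      exact h4.symm
  · rintro ⟨m, h, hZ, rfl⟩
    refine ⟨opN (check (nat n)) (check (F2_e c ((π.g m).stem[n]))),
      π.opN_mem (π.nat_Z n) hZ, π.g m, ⟨⟨(n, π.g m), h⟩, rfl, rfl⟩, ⟨m, le_rfl⟩, ?_⟩
    rw [π.val_opN (π.nat_Z n) hZ]
    have h5 : π.val (check (nat n)) = nat n := π.hat_nat n
    rw [h5]
    rfl

theorem F2_b_fun {c : I → Ordinal.{0}} {π : Pkg (Cnd ρ)} {n : ℕ} {z z' : ZFSet.{0}}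
    (h : pair (nat n) z ∈ π.val (F2_b ρ c)) (h' : pair (nat n) z' ∈ π.val (F2_b ρ c)) :
    z = z' := by
  rw [F2_mem_b] at h h'
  obtain ⟨m, h1, h2, rfl⟩ := h
  obtain ⟨m', h1', h2', rfl⟩ := h'
  obtain ⟨l, hl⟩ := F2_stem (π.g_le_left m m')
  obtain ⟨l', hl'⟩ := F2_stem (π.g_le_right m m')
  have e1 : (π.g (max m m')).stem[n]? = some (π.g m).stem[n] := by
    rw [← hl, List.getElem?_append_left h1, List.getElem?_eq_getElem h1]
  have e2 : (π.g (max m m')).stem[n]? = some (π.g m').stem[n] := by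
    rw [← hl', List.getElem?_append_left h1', List.getElem?_eq_getElem h1']
  rw [e1] at e2
  rw [Option.some.inj e2]

end branch


/-! ### The other direction -/

section bwd

variable {I : Type} {ρ : I → Cardinal.{0}} [Fact (∀ i, ℵ₀ ≤ ρ i)]

/-- The property of the function `h` -/
def F2_Q (α Rho h : ZFSet.{0}) : Prop :=
  (∀ z ∈ Set.univ, ∀ y ∈ Set.univ, ∀ y' ∈ Set.univ, pair z y ∈ h → pair z y' ∈ h → y = y') ∧
  ∀ ξ ∈ α, ∃ a ∈ Set.univ, ∃ r ∈ Set.univ, pair a r ∈ Rho ∧ ∃ b₀ ∈ r, ∀ b ∈ r, b₀ ∈ b →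
    ∃ y ∈ α, pair (pair a b) y ∈ h ∧ ξ ∈ y

theorem F2_Q_dfn {S : Set ZFSet.{0}} {α Rho : ZFSet.{0}} (hα : α ∈ S) (hR : Rho ∈ S) :
    Dfn S Set.univ fun w : Fin 1 → ZFSet.{0} => F2_Q α Rho (w 0) := by
  have hB := isBase_univ
  unfold F2_Q
  (repeat' first
      | assumption
      | exact DfnF.proj _
      | exact DfnF.const (by assumption)
      | exact DfnF.const' (by first | assumption | trivial) (by first | assumption | trivial)
      | exact Dfn.prop _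
      | apply Dfn.not | apply Dfn.and | apply Dfn.or | apply Dfn.imp | apply Dfn.iff
      | apply hB.bex | apply hB.ball | apply Dfn.ex | apply Dfn.all
      | apply Dfn.eq | apply Dfn.mem | apply hB.pair')

/-- The set of the pairs of an index and its cardinal. -/
noncomputable def F2_R (ρ : I → Cardinal.{0}) (c : I → Ordinal.{0}) : ZFSet.{0} :=
  ZFSet.range fun i : I => pair (c i).toZFSet ((ρ i).ord).toZFSet

theorem F2_h {lam : Cardinal.{0}} (hρ : ∀ i, (ρ i).IsRegular ∧ lam < ρ i)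
    {c : I → Ordinal.{0}} (hc : ∀ a < lam.ord, ∃ i, c i = a) {α : Ordinal.{0}}
    (hα : ℵ₀ ≤ α.cof) (hB : Bset lam ρ α.cof) : ∃ h, F2_Q α.toZFSet (F2_R ρ c) h := by
  obtain ⟨F, h1, h2, h3⟩ := F2_seq α
  have hlim : ∀ ξ < α, ξ + 1 < α := by
    have := Ordinal.one_lt_cof_iff.1 (Cardinal.one_lt_aleph0.trans_le hα)
    intro ξ hξ
    exact this.add_one_lt hξ
  have key : ∀ (K : I → Ordinal.{0} → Ordinal.{0}), (∀ ξ < α, ∃ i, ∃ b₀ < (ρ i).ord,
      ∀ b < (ρ i).ord, b₀ < b → K i b < α.cof.ord ∧ ξ ≤ F (K i b)) →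
      (∀ i i' b, c i = c i' → K i b = K i' b) → ∃ h, F2_Q α.toZFSet (F2_R ρ c) h := by
    intro K hK hK'
    refine ⟨ZFSet.range fun x : {x : Nd ρ // K x.1 (F2_o x) < α.cof.ord} =>
      pair (F2_e c x.1) (F (K x.1.1 (F2_o x.1))).toZFSet, ?_, ?_⟩
    · intro z _ y _ y' _ hy hy'
      obtain ⟨⟨x, hx⟩, he⟩ := ZFSet.mem_range.1 hy
      obtain ⟨⟨x', hx'⟩, he'⟩ := ZFSet.mem_range.1 hy'
      obtain ⟨h4, rfl⟩ := ZFSet.pair_inj.1 he
      obtain ⟨h5, rfl⟩ := ZFSet.pair_inj.1 he'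
      rw [← h5] at h4
      obtain ⟨h6, h7⟩ := ZFSet.pair_inj.1 h4
      simp only at h6 h7 ⊢
      rw [Ordinal.toZFSet_injective h7, hK' _ _ _ (Ordinal.toZFSet_injective h6)]
    · intro ξ hξz
      obtain ⟨ξ, hξ, rfl⟩ := Ordinal.mem_toZFSet_iff.1 hξz
      obtain ⟨i, b₀, hb₀, hb⟩ := hK (ξ + 1) (hlim ξ hξ)
      refine ⟨(c i).toZFSet, trivial, (ρ i).ord.toZFSet, trivial, ZFSet.mem_range.2 ⟨i, rfl⟩,
        b₀.toZFSet, Ordinal.toZFSet_mem_toZFSet_iff.2 hb₀, ?_⟩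
      intro b hbz hb0
      obtain ⟨b, hbρ, rfl⟩ := Ordinal.mem_toZFSet_iff.1 hbz
      obtain ⟨h4, h5⟩ := hb b hbρ (Ordinal.toZFSet_mem_toZFSet_iff.1 hb0)
      refine ⟨(F (K i b)).toZFSet, Ordinal.toZFSet_mem_toZFSet_iff.2 (h2 _ h4), ?_,
        Ordinal.toZFSet_mem_toZFSet_iff.2 ((lt_add_one ξ).trans_le h5)⟩
      obtain ⟨x, hx1, hx2⟩ : ∃ x : Nd ρ, x.1 = i ∧ F2_o x = b := by
        refine ⟨⟨i, Ordinal.ToType.mk ⟨b, hbρ⟩⟩, rfl, ?_⟩
        unfold F2_o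
        simp
      refine ZFSet.mem_range.2 ⟨⟨x, ?_⟩, ?_⟩
      · rw [hx1, hx2]
        exact h4
      · change pair (pair (c x.1).toZFSet (F2_o x).toZFSet) (F (K x.1 (F2_o x))).toZFSet = _
        rw [hx1, hx2]
  rcases hB with hB | ⟨i₀, hi₀⟩
  · refine key (fun i _ => c i) ?_ (fun i i' b h => h)
    intro ξ hξ
    obtain ⟨j, hj, hle⟩ := h3 ξ hξ
    obtain ⟨i, hi⟩ := hc j (hj.trans_le (Cardinal.ord_le_ord.2 hB))
    refine ⟨i, 0, ?_, fun b hb _ => ?_⟩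
    · rw [Cardinal.lt_ord, Ordinal.card_zero]
      exact (hρ i).1.pos
    · rw [hi]
      exact ⟨hj, hle⟩
  · refine key (fun _ b => b) ?_ (fun _ _ _ _ => rfl)
    intro ξ hξ
    obtain ⟨j, hj, hle⟩ := h3 ξ hξ
    rw [hi₀] at hj
    refine ⟨i₀, j, hj, fun b hb hjb => ?_⟩
    rw [hi₀]
    refine ⟨hb, hle.trans (h1 j b hjb ?_).le⟩
    rw [hi₀]
    exact hb

theorem F2_bwd (c : I → Ordinal.{0}) (π : Pkg (Cnd ρ)) (hb : F2_b ρ c ∈ π.N)
    {α : Ordinal.{0}} (hα : α.toZFSet ∈ π.Z) (h0 : 0 < α) {h : ZFSet.{0}} (hh : h ∈ π.Z)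
    (hQ : F2_Q α.toZFSet (F2_R ρ c) h) :
    ∃ g : ℕ → ZFSet.{0}, sqSet g ∈ π.W ∧ (∀ n, g n ∈ π.hat α.toZFSet) ∧
      ∀ x ∈ π.hat α.toZFSet, ∃ n, x ∈ g n := by
  obtain ⟨hQ1, hQ2⟩ := hQ
  have hB := π.isZF_W.base
  have hW := π.isZF_W
  have hbW := π.val_mem_W hb
  have hhW : π.hat h ∈ π.W := π.val_mem_W hh
  have hαW : π.hat α.toZFSet ∈ π.W := π.val_mem_W hα
  have hωW : ZFSet.omega ∈ π.W := hW.infinity
  -- the relation
  let Q : ZFSet.{0} → ZFSet.{0} → Prop := fun n y =>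
    ∃ z ∈ π.W, pair n z ∈ π.val (F2_b ρ c) ∧ pair z y ∈ π.hat h
  have hQd : Dfn π.W π.W fun w : Fin 2 → ZFSet.{0} => Q (w 0) (w 1) := by
    (repeat' first
      | assumption
      | exact DfnF.proj _
      | exact DfnF.const (by assumption)
      | exact DfnF.const' (by first | assumption | trivial) (by first | assumption | trivial)
      | exact Dfn.prop _
      | apply Dfn.not | apply Dfn.and | apply Dfn.or | apply Dfn.imp | apply Dfn.iff
      | apply hB.bex | apply hB.ball | apply Dfn.ex | apply Dfn.all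
      | apply Dfn.eq | apply Dfn.mem | apply hB.pair')
  obtain ⟨G, hG, -, hG'⟩ := hW.rel_mem hωW hαW hQd
  have hdZ : π.hat ∅ = ∅ := π.hat_empty
  have h0m : ∅ ∈ π.hat α.toZFSet := by
    rw [← hdZ, π.hat_mem_hat π.empty_Z hα, ← Ordinal.toZFSet_zero,
      Ordinal.toZFSet_mem_toZFSet_iff]
    exact h0
  have huniq : ∀ n y y', pair (nat n) y ∈ G → pair (nat n) y' ∈ G → y = y' := by
    intro n y y' hy hy'
    obtain ⟨-, h1, z, -, h2, h3⟩ := (hG' _ _).1 hy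
    obtain ⟨-, h1', z', -, h2', h3'⟩ := (hG' _ _).1 hy'
    obtain rfl := F2_b_fun h2 h2'
    obtain ⟨m, hm, hmZ, rfl⟩ := F2_mem_b.1 h2
    obtain ⟨y, hyα, hyZ, rfl⟩ := π.mem_hat.1 h1
    obtain ⟨y', hyα', hyZ', rfl⟩ := π.mem_hat.1 h1'
    rw [← π.hat_pair hmZ hyZ, π.hat_mem_hat (π.pair_mem_Z hmZ hyZ) hh] at h3
    rw [← π.hat_pair hmZ hyZ', π.hat_mem_hat (π.pair_mem_Z hmZ hyZ') hh] at h3'
    rw [hQ1 _ trivial _ trivial _ trivial h3 h3']
  -- the sequence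
  classical
  obtain ⟨g, hg1, hg2⟩ : ∃ g : ℕ → ZFSet.{0}, (∀ n y, pair (nat n) y ∈ G → g n = y) ∧
      ∀ n, (¬ ∃ y ∈ π.hat α.toZFSet, pair (nat n) y ∈ G) → g n = ∅ := by
    refine ⟨fun n => if h : ∃ y ∈ π.hat α.toZFSet, pair (nat n) y ∈ G then h.choose else ∅,
      ?_, ?_⟩
    · intro n y hy
      have h1 : ∃ y ∈ π.hat α.toZFSet, pair (nat n) y ∈ G := ⟨y, ((hG' _ _).1 hy).2.1, hy⟩
      simp only [dif_pos h1]
      exact huniq n _ _ h1.choose_spec.2 hy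
    · intro n hn
      simp only [dif_neg hn]
  have hg3 : ∀ n, g n ∈ π.hat α.toZFSet := by
    intro n
    by_cases h1 : ∃ y ∈ π.hat α.toZFSet, pair (nat n) y ∈ G
    · obtain ⟨y, hy, hy'⟩ := h1
      rw [hg1 n y hy']
      exact hy
    · rw [hg2 n h1]
      exact h0m
  refine ⟨g, ?_, hg3, ?_⟩
  · -- the sequence is in the extension
    have hd : Dfn π.W π.W fun w : Fin 2 → ZFSet.{0} => (pair (w 0) (w 1) ∈ G ∨
        (w 1 = ∅ ∧ ¬ ∃ y ∈ π.hat α.toZFSet, pair (w 0) y ∈ G)) := by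
      have h1 : ∅ ∈ π.W := hW.empty_mem
      (repeat' first
      | assumption
      | exact DfnF.proj _
      | exact DfnF.const (by assumption)
      | exact DfnF.const' (by first | assumption | trivial) (by first | assumption | trivial)
      | exact Dfn.prop _
      | apply Dfn.not | apply Dfn.and | apply Dfn.or | apply Dfn.imp | apply Dfn.iff
      | apply hB.bex | apply hB.ball | apply Dfn.ex | apply Dfn.all
      | apply Dfn.eq | apply Dfn.mem | apply hB.pair')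
    obtain ⟨G', h1, h2, h3⟩ := hW.rel_mem hωW hαW
      (Q := fun n y => pair n y ∈ G ∨ (y = ∅ ∧ ¬ ∃ y ∈ π.hat α.toZFSet, pair n y ∈ G)) hd
    have h4 : sqSet g = G' := by
      ext p
      unfold sqSet
      rw [ZFSet.mem_range]
      constructor
      · rintro ⟨n, rfl⟩
        refine (h3 _ _).2 ⟨mem_omega_iff.2 ⟨n, rfl⟩, hg3 n, ?_⟩
        by_cases h5 : ∃ y ∈ π.hat α.toZFSet, pair (nat n) y ∈ G
        · obtain ⟨y, hy, hy'⟩ := h5
          rw [hg1 n y hy']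
          exact Or.inl hy'
        · exact Or.inr ⟨hg2 n h5, h5⟩
      · intro hp
        obtain ⟨a, ha, b, hb, rfl⟩ := ZFSet.mem_prod.1 (h2 hp)
        obtain ⟨n, rfl⟩ := mem_omega_iff.1 ha
        refine ⟨n, ?_⟩
        rcases ((h3 _ _).1 hp).2.2 with h5 | ⟨h5, h6⟩
        · rw [hg1 n b h5]
        · rw [hg2 n h6, h5]
    rw [h4]
    exact h1
  · -- the sequence is cofinal
    intro x hx
    obtain ⟨x, hxα, hxZ, rfl⟩ := π.mem_hat.1 hx
    obtain ⟨ξ, hξ, rfl⟩ := Ordinal.mem_toZFSet_iff.1 hxα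
    by_contra hno
    push Not at hno
    let S : Set (PName (Cnd ρ)) := {F2_b ρ c, check ZFSet.omega, check α.toZFSet, check h,
      check ξ.toZFSet}
    have s1 : F2_b ρ c ∈ S := by simp [S]
    have s2 : check ZFSet.omega ∈ S := by simp [S]
    have s3 : check α.toZFSet ∈ S := by simp [S]
    have s4 : check h ∈ S := by simp [S]
    have s5 : check ξ.toZFSet ∈ S := by simp [S]
    have hSN : S ⊆ π.N := by
      rintro y (rfl | rfl | rfl | rfl | rfl)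
      · exact hb
      · exact π.om
      · exact hα
      · exact hh
      · exact hxZ
    have hd : NDfn S fun (π' : Pkg (Cnd ρ)) (_ : Fin 0 → ZFSet.{0}) =>
        ¬ ∃ n ∈ π'.hat ZFSet.omega, ∃ y ∈ π'.hat α.toZFSet, ∃ z ∈ π'.W,
          pair n z ∈ π'.val (F2_b ρ c) ∧ pair z y ∈ π'.hat h ∧ π'.hat ξ.toZFSet ∈ y := by
      refine NDfn.not ?_
      refine NDfn.bex (NDfnF.hat s2) ?_
      refine NDfn.bex (NDfnF.hat s3) ?_
      refine NDfn.ex ?_
      refine NDfn.and (NDfn.mem (NDfnF.pair (NDfnF.proj _) (NDfnF.proj _)) (NDfnF.val s1)) ?_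
      exact NDfn.and (NDfn.mem (NDfnF.pair (NDfnF.proj _) (NDfnF.proj _)) (NDfnF.hat s4))
        (NDfn.mem (NDfnF.hat s5) (NDfnF.proj _))
    obtain ⟨k, hk⟩ := forcing_theorem hd π hSN (by
      rintro ⟨n, hn, y, hy, z, hz, h1, h2, h3⟩
      rw [π.hat_omega, mem_omega_iff] at hn
      obtain ⟨n, rfl⟩ := hn
      have h4 : pair (nat n) y ∈ G :=
        (hG' _ _).2 ⟨mem_omega_iff.2 ⟨n, rfl⟩, hy, z, hz, h1, h2⟩
      apply hno n
      rw [hg1 n y h4]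
      exact h3)
    obtain ⟨a, -, r, -, har, b₀, hb₀, hbb⟩ := hQ2 _ (Ordinal.toZFSet_mem_toZFSet_iff.2 hξ)
    obtain ⟨i, hi⟩ := ZFSet.mem_range.1 har
    obtain ⟨rfl, rfl⟩ := ZFSet.pair_inj.1 hi
    obtain ⟨β, hβ, rfl⟩ := Ordinal.mem_toZFSet_iff.1 hb₀
    obtain ⟨q, hq, γ, hγ, hst⟩ := F2_ext (π.g k) i (Ordinal.ToType.mk ⟨β, hβ⟩)
    set x : Nd ρ := ⟨i, γ⟩ with hxdef
    have hx1 : F2_o x < (ρ i).ord := (Ordinal.ToType.mk.symm γ : Set.Iio _).2
    have hx2 : β < F2_o x := by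
      have h1 := Ordinal.ToType.mk.symm.lt_iff_lt.2 hγ
      rw [OrderIso.symm_apply_apply] at h1
      exact h1
    obtain ⟨y, hyα, hyh, hξy⟩ := hbb (F2_o x).toZFSet (Ordinal.toZFSet_mem_toZFSet_iff.2 hx1)
      (Ordinal.toZFSet_mem_toZFSet_iff.2 hx2)
    obtain ⟨π', h1, h2⟩ := exists_pkg' (S ∪ {check (F2_e c x), check y})
      ((Set.toFinite S).countable.union (Set.toFinite _).countable) q
    have t1 : F2_e c x ∈ π'.Z := h1 (Or.inr (by simp))
    have t2 : y ∈ π'.Z := h1 (Or.inr (by simp))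
    have t3 : h ∈ π'.Z := h1 (Or.inl s4)
    refine hk π' (fun w hw => h1 (Or.inl hw)) ⟨0, h2 ▸ hq⟩ ?_
    refine ⟨nat (π.g k).stem.length, ?_, π'.hat y,
      (π'.hat_mem_hat t2 (h1 (Or.inl s3))).2 hyα, π'.hat (F2_e c x), π'.val_mem_W t1, ?_, ?_,
      (π'.hat_mem_hat (h1 (Or.inl s5)) t2).2 hξy⟩
    · rw [π'.hat_omega, mem_omega_iff]
      exact ⟨_, rfl⟩
    · rw [F2_mem_b]
      have hlen : (π.g k).stem.length < (π'.g 0).stem.length := by
        rw [h2, hst, List.length_append]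
        simp
      have hel : (π'.g 0).stem[(π.g k).stem.length] = x := by
        simp only [h2, hst]
        simp
      refine ⟨0, hlen, ?_, ?_⟩
      · rw [hel]
        exact t1
      · rw [hel]
    · rw [← π'.hat_pair t1 t2, π'.hat_mem_hat (π'.pair_mem_Z t1 t2) t3]
      exact hyh

end bwd

end Pool.Agent.helper797_cs
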