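import Pool.Agent.helper797_cs.PF1
import Pool.Agent.helper797_cs.PF2a

/-! # F2: cofinality omega in the extension (A4 of the paper) -/

set_option autoImplicit false

namespace Pool.Agent.helper797_cs
open Pool.Agent.W868 PName
open ZFSet (pair)
open Cardinal

theorem F2_fwd {I : Type} {ρ : I → Cardinal.{0}} [Fact (∀ i, ℵ₀ ≤ ρ i)] {lam : Cardinal.{0}}
    (hl : ℵ₀ ≤ lam) (hI : #I = lam) (hρ : ∀ i, (ρ i).IsRegular ∧ lam < ρ i)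
    (π : Pkg (Cnd ρ)) (α : Ordinal.{0}) (hα : α.toZFSet ∈ π.Z) (hc : ℵ₀ ≤ α.cof)
    (g : ℕ → ZFSet.{0}) (hg1 : sqSet g ∈ π.W) (hg2 : ∀ n, g n ∈ π.hat α.toZFSet)
    (hg3 : ∀ x ∈ π.hat α.toZFSet, ∃ n, x ∈ g n) : Bset lam ρ α.cof := by
  by_contra hB
  unfold Bset at hB
  push Not at hB
  obtain ⟨hB1, hB2⟩ := hB
  have hreg : α.cof.IsRegular := Cardinal.isRegular_cof (Ordinal.one_lt_cof_iff.1 (Cardinal.one_lt_aleph0.trans_le hc))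
  obtain ⟨h, hh1, hh2⟩ := F2_inv α
  obtain ⟨τ, hτ, hτg⟩ := hg1
  have hcf := F2_cf_of (π := π) hτg hg2 hg3
  obtain ⟨k, hk⟩ := forcing_theorem (F2_cf_dfn τ α.toZFSet) π (by
    intro x hx
    rcases hx with rfl | rfl | rfl
    · exact hτ
    · exact hα
    · exact π.om) hcf
  set p₀ := π.g k with hp₀
  -- packages
  have hpk : ∀ p ≤ p₀, ∀ A : Set (PName (Cnd ρ)), A.Countable → ∃ π' : Pkg (Cnd ρ),
      A ⊆ π'.N ∧ π'.g 0 = p ∧ τ ∈ π'.N ∧ α.toZFSet ∈ π'.Z ∧ F2_cf τ α.toZFSet π' := by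
    intro p hp A hA
    obtain ⟨π', h1, h2⟩ := exists_pkg' (A ∪ {τ, check α.toZFSet, check ZFSet.omega})
      (hA.union (Set.toFinite _).countable) p
    refine ⟨π', fun x hx => h1 (Or.inl hx), h2, h1 (Or.inr (by simp)), h1 (Or.inr (by simp)), ?_⟩
    exact hk π' (fun x hx => h1 (Or.inr hx)) ⟨0, h2 ▸ hp⟩
  -- the decisions
  let dec : Cnd ρ → ℕ → Ordinal.{0} → Prop := fun p n v =>
    (p ≤ p₀ ∧ ∃ ξ < α, h ξ = v ∧ Fmem (opN (check (nat n)) (check ξ.toZFSet)) τ p) ∨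
    ((∀ q ≤ p, ¬ q ≤ p₀) ∧ v = 0)
  have hdec : ∀ p n v, dec p n v ↔
    (p ≤ p₀ ∧ ∃ ξ < α, h ξ = v ∧ Fmem (opN (check (nat n)) (check ξ.toZFSet)) τ p) ∨
    ((∀ q ≤ p, ¬ q ≤ p₀) ∧ v = 0) := fun _ _ _ => Iff.rfl
  clear_value dec
  have hmono : ∀ p q n v, q ≤ p → dec p n v → dec q n v := by
    intro p q n v hqp hd
    rw [hdec] at hd ⊢
    rcases hd with ⟨h1, ξ, hξ, hv, hf⟩ | ⟨h1, h2⟩
    · exact Or.inl ⟨hqp.trans h1, ξ, hξ, hv, hf.mono hqp⟩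
    · exact Or.inr ⟨fun r hr => h1 r (hr.trans hqp), h2⟩
  have huniq : ∀ p n v w, dec p n v → dec p n w → v = w := by
    intro p n v w hv hw
    rw [hdec] at hv hw
    rcases hv with ⟨h1, ξ, hξ, hv, hf⟩ | ⟨h1, h2⟩
    · rcases hw with ⟨-, ξ', hξ', hw, hf'⟩ | ⟨h3, h4⟩
      · obtain ⟨π', h1', h2, h3, h4, h5⟩ := hpk p h1 {check ξ.toZFSet, check ξ'.toZFSet}
          (Set.toFinite _).countable
        have hξZ : ξ.toZFSet ∈ π'.Z := h1' (by simp)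
        have hξZ' : ξ'.toZFSet ∈ π'.Z := h1' (by simp)
        have hnN : check (nat n) ∈ π'.N := π'.nat_Z n
        have h7 : π'.val (check (nat n)) = nat n := π'.hat_nat n
        have h6 : pair (nat n) (π'.hat ξ.toZFSet) ∈ π'.val τ := by
          have h8 := (π'.val_mem_iff (π'.opN_mem hnN hξZ) h3).2 ⟨0, h2 ▸ hf⟩
          rw [π'.val_opN hnN hξZ, h7] at h8
          exact h8
        have h6' : pair (nat n) (π'.hat ξ'.toZFSet) ∈ π'.val τ := by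
          have h8 := (π'.val_mem_iff (π'.opN_mem hnN hξZ') h3).2 ⟨0, h2 ▸ hf'⟩
          rw [π'.val_opN hnN hξZ', h7] at h8
          exact h8
        have h9 := h5.2.1 (nat n) (by
          rw [π'.hat_omega, mem_omega_iff]
          exact ⟨n, rfl⟩) _ ((π'.hat_mem_hat hξZ h4).2 (Ordinal.toZFSet_mem_toZFSet_iff.2 hξ)) _
          ((π'.hat_mem_hat hξZ' h4).2 (Ordinal.toZFSet_mem_toZFSet_iff.2 hξ')) h6 h6'
        rw [π'.hat_inj hξZ hξZ'] at h9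
        rw [← hv, ← hw, Ordinal.toZFSet_injective h9]
      · exact absurd h1 (h3 p le_rfl)
    · rcases hw with ⟨h3, -⟩ | ⟨h3, h4⟩
      · exact absurd h3 (h1 p le_rfl)
      · rw [h2, h4]
  have hdense : ∀ p n, ∃ q ≤ p, ∃ v < α.cof.ord, dec q n v := by
    intro p n
    by_cases hp : ∃ q ≤ p, q ≤ p₀
    · obtain ⟨q, hqp, hq0⟩ := hp
      obtain ⟨π', -, h2, h3, h4, h5⟩ := hpk q hq0 ∅ Set.countable_empty
      obtain ⟨y, hy, hny⟩ := h5.1 (nat n) (by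
          rw [π'.hat_omega, mem_omega_iff]
          exact ⟨n, rfl⟩)
      obtain ⟨y, hyα, hyZ, rfl⟩ := π'.mem_hat.1 hy
      obtain ⟨ξ, hξ, rfl⟩ := Ordinal.mem_toZFSet_iff.1 hyα
      have hnN : check (nat n) ∈ π'.N := π'.nat_Z n
      have h6 : π'.val (opN (check (nat n)) (check ξ.toZFSet)) ∈ π'.val τ := by
        rw [π'.val_opN hnN hyZ]
        have h7 : π'.val (check (nat n)) = nat n := π'.hat_nat n
        rw [h7]
        exact hny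
      rw [π'.val_mem_iff (π'.opN_mem hnN hyZ) h3] at h6
      obtain ⟨m, hm⟩ := h6
      have hm0 : π'.g m ≤ q := by
        rw [← h2]
        exact π'.g_anti (Nat.zero_le m)
      exact ⟨π'.g m, hm0.trans hqp, h ξ, hh1 ξ hξ,
        (hdec _ _ _).2 (Or.inl ⟨hm0.trans hq0, ξ, hξ, rfl, hm⟩)⟩
    · push Not at hp
      refine ⟨p, le_rfl, 0, ?_, (hdec _ _ _).2 (Or.inr ⟨hp, rfl⟩)⟩
      rw [Cardinal.lt_ord, Ordinal.card_zero]
      exact Cardinal.aleph0_pos.trans_le hc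
  obtain ⟨q, hq, δ, hδ, hall⟩ := bounded_of_dec hl hI hρ hreg hB1 (fun i hi => hB2 i hi.symm)
    dec hmono huniq hdense p₀
  -- the contradiction
  obtain ⟨ζ, hζ, hle⟩ := hh2 δ hδ
  obtain ⟨π', h1, h2, h3, h4, h5⟩ := hpk q hq {check ζ.toZFSet} (Set.countable_singleton _)
  have hζZ : ζ.toZFSet ∈ π'.Z := h1 rfl
  obtain ⟨n, hn, y, hy, hny, hζy⟩ := h5.2.2 (π'.hat ζ.toZFSet)
    ((π'.hat_mem_hat hζZ h4).2 (Ordinal.toZFSet_mem_toZFSet_iff.2 hζ))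
  rw [π'.hat_omega, mem_omega_iff] at hn
  obtain ⟨n, rfl⟩ := hn
  obtain ⟨y, hyα, hyZ, rfl⟩ := π'.mem_hat.1 hy
  obtain ⟨ξ, hξ, rfl⟩ := Ordinal.mem_toZFSet_iff.1 hyα
  rw [π'.hat_mem_hat hζZ hyZ, Ordinal.toZFSet_mem_toZFSet_iff] at hζy
  have hnN : check (nat n) ∈ π'.N := π'.nat_Z n
  have h6 : π'.val (opN (check (nat n)) (check ξ.toZFSet)) ∈ π'.val τ := by
    rw [π'.val_opN hnN hyZ]
    have h7 : π'.val (check (nat n)) = nat n := π'.hat_nat n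
    rw [h7]
    exact hny
  rw [π'.val_mem_iff (π'.opN_mem hnN hyZ) h3] at h6
  obtain ⟨m, hm⟩ := h6
  have hm0 : π'.g m ≤ q := by
    rw [← h2]
    exact π'.g_anti (Nat.zero_le m)
  have h8 := hall (π'.g m) hm0 n (h ξ) ((hdec _ _ _).2 (Or.inl ⟨hm0.trans hq, ξ, hξ, rfl, hm⟩))
  exact absurd (hle ξ hξ h8) (not_le.2 hζy)


/-- A4. -/
theorem cof_iff {I : Type} {ρ : I → Cardinal.{0}} [Fact (∀ i, ℵ₀ ≤ ρ i)] {lam : Cardinal.{0}}
    (hl : ℵ₀ ≤ lam) (hI : #I = lam) (hρ : ∀ i, (ρ i).IsRegular ∧ lam < ρ i) :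
    ∃ A : Set (PName (Cnd ρ)), A.Countable ∧ ∀ π : Pkg (Cnd ρ), A ⊆ π.N →
      ∀ α : Ordinal.{0}, α.toZFSet ∈ π.Z → ℵ₀ ≤ α.cof →
        ((∃ g : ℕ → ZFSet.{0}, sqSet g ∈ π.W ∧ (∀ n, g n ∈ π.hat α.toZFSet) ∧
          ∀ x ∈ π.hat α.toZFSet, ∃ n, x ∈ g n) ↔ Bset lam ρ α.cof) := by
  have h1 : ∃ c : I → Ordinal.{0}, ∀ a < lam.ord, ∃ i, c i = a := by
    have h2 : #I = Cardinal.mk lam.ord.ToType := by
      rw [hI, Cardinal.mk_ord_toType]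
    obtain ⟨e⟩ := Cardinal.eq.1 h2
    refine ⟨fun i => (Ordinal.ToType.mk.symm (e i) : Set.Iio _).1, fun a ha => ?_⟩
    refine ⟨e.symm (Ordinal.ToType.mk ⟨a, ha⟩), ?_⟩
    simp
  obtain ⟨c, hc⟩ := h1
  refine ⟨{F2_b ρ c, check (F2_R ρ c)}, (Set.toFinite _).countable, ?_⟩
  intro π hπ α hα hcf
  constructor
  · rintro ⟨g, hg1, hg2, hg3⟩
    exact F2_fwd hl hI hρ π α hα hcf g hg1 hg2 hg3
  · intro hB
    have hR : F2_R ρ c ∈ π.Z := hπ (by simp)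
    obtain ⟨h, hh, hQ⟩ := π.exists_Z (Q := F2_Q α.toZFSet (F2_R ρ c)) (F2_Q_dfn hα hR)
      (F2_h hρ hc hcf hB)
    refine F2_bwd c π (hπ (by simp)) hα ?_ hh hQ
    rw [pos_iff_ne_zero]
    rintro rfl
    rw [Ordinal.cof_zero] at hcf
    exact absurd hcf (not_le.2 Cardinal.aleph0_pos)

end Pool.Agent.helper797_cs
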