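import Pool.Agent.helper797_cs.PDefs

/-! # F3: packages whose ground model part is closed under a given function on sets -/

set_option autoImplicit false
namespace Pool.Agent.helper797_cs
open Pool.Agent.W868
open Cardinal

/-- The operation of the function `f`. -/
def pf3Op (f : ZFSet.{0} → ZFSet.{0}) :
    (n : ℕ) → Fml ZFSet.{0} n → (Fin n → ZFSet.{0}) → ZFSet.{0}
  | _, .mem s _, v => f (gv v s)
  | _, _, _ => ∅

/-- Copy the proof of `exists_pkg'` with one more rule. -/
theorem exists_pkg_closed {P : Type} [Preorder P] [OrderTop P] (f : ZFSet.{0} → ZFSet.{0})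
    (A : Set (PName P)) (hA : A.Countable) :
    ∃ π : Pkg P, A ⊆ π.N ∧ ∀ x ∈ π.Z, f x ∈ π.Z := by
  obtain ⟨π, h1, -, h3⟩ := exists_pkg {(gRule (pf3Op f) : Rule P)} (Set.countable_singleton _)
    A hA ⊤
  refine ⟨π, h1, fun x hx => ?_⟩
  have h := (h3 _ rfl _ (query2 (x := check x) (y := check x) hx hx (π.gC 0))).1
  simp only [gRule, Fml.map, Sum.map_inr] at h
  have h2 : pf3Op f 0 (.mem (Sum.inr (dec (check x : PName P))) (Sum.inr (dec (check x : PName P))))
      (dec ∘ (Fin.elim0 : Fin 0 → PName P)) = f x := by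
    simp only [pf3Op, gv, Sum.elim_inr, dec_check, id]
  rw [h2] at h
  exact h

end Pool.Agent.helper797_cs
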