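import Pool.Agent.W868.LZF
import Pool.Agent.W868.Base2
import Pool.Agent.helper797_cs.CDefs

/-! # F4, part a: packages closed under countably many functions, formulas, levels -/

set_option autoImplicit false
set_option linter.unreachableTactic false
set_option linter.unusedTactic false

namespace Pool.Agent.helper797_cs
open Pool.Agent.W868 Pool.Agent.R587
open ZFSet (pair)
open Cardinal

/-! ### Packages closed under a countable set of binary functions -/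

/-- The operation of the function `f`. -/
def pf4Op (f : ZFSet.{0} → ZFSet.{0} → ZFSet.{0}) :
    (n : ℕ) → Fml ZFSet.{0} n → (Fin n → ZFSet.{0}) → ZFSet.{0}
  | _, .mem s t, v => f (gv v s) (gv v t)
  | _, _, _ => ∅

theorem pf4_exists_pkg {P : Type} [Preorder P] [OrderTop P]
    (F : Set (ZFSet.{0} → ZFSet.{0} → ZFSet.{0})) (hF : F.Countable)
    (A : Set (PName P)) (hA : A.Countable) :
    ∃ π : Pkg P, A ⊆ π.N ∧ ∀ f ∈ F, ∀ x ∈ π.Z, ∀ y ∈ π.Z, f x y ∈ π.Z := by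
  obtain ⟨π, h1, -, h3⟩ := exists_pkg ((fun f => (gRule (pf4Op f) : Rule P)) '' F)
    (hF.image _) A hA ⊤
  refine ⟨π, h1, fun f hf x hx y hy => ?_⟩
  have h := (h3 _ ⟨f, hf, rfl⟩ _ (query2 (x := check x) (y := check y) hx hy (π.gC 0))).1
  simp only [gRule, Fml.map, Sum.map_inr] at h
  have h2 : pf4Op f 0 (.mem (Sum.inr (dec (check x : PName P))) (Sum.inr (dec (check y : PName P))))
      (dec ∘ (Fin.elim0 : Fin 0 → PName P)) = f x y := by
    simp only [pf4Op, gv, Sum.elim_inr, dec_check, id]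
  rw [h2] at h
  exact h

/-! ### There are only countably many formulas -/

/-- A code of a formula. -/
def pf4Enc : {n : ℕ} → FmQ n → ℕ
  | _, .mem i j => Nat.pair 0 (Nat.pair i j)
  | _, .eq i j => Nat.pair 1 (Nat.pair i j)
  | _, .neg φ => Nat.pair 2 (pf4Enc φ)
  | _, .and φ ψ => Nat.pair 3 (Nat.pair (pf4Enc φ) (pf4Enc ψ))
  | _, .ex φ => Nat.pair 4 (pf4Enc φ)
  | _, .qcf φ => Nat.pair 5 (pf4Enc φ)

theorem pf4Enc_inj {n : ℕ} (φ : FmQ n) : ∀ ψ : FmQ n, pf4Enc φ = pf4Enc ψ → φ = ψ := by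
  induction φ with
  | mem i j =>
    intro ψ h
    cases ψ <;> simp [pf4Enc, Nat.pair_eq_pair, Fin.ext_iff] at h ⊢
    exact h
  | eq i j =>
    intro ψ h
    cases ψ <;> simp [pf4Enc, Nat.pair_eq_pair, Fin.ext_iff] at h ⊢
    exact h
  | neg φ ih =>
    intro ψ h
    cases ψ <;> simp [pf4Enc, Nat.pair_eq_pair] at h ⊢
    exact ih _ h
  | and φ ψ ih1 ih2 =>
    intro χ h
    cases χ <;> simp [pf4Enc, Nat.pair_eq_pair] at h ⊢
    exact ⟨ih1 _ h.1, ih2 _ h.2⟩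
  | ex φ ih =>
    intro ψ h
    cases ψ <;> simp [pf4Enc, Nat.pair_eq_pair] at h ⊢
    exact ih _ h
  | qcf φ ih =>
    intro ψ h
    cases ψ <;> simp [pf4Enc, Nat.pair_eq_pair] at h ⊢
    exact ih _ h

instance pf4_countable (n : ℕ) : Countable (FmQ n) :=
  Function.Injective.countable (f := pf4Enc) fun φ ψ h => pf4Enc_inj φ ψ h

/-! ### Levels -/

theorem pf4_lp_zero (K : ZFSet.{0} → Prop) : Lp K 0 = ∅ := by
  rw [Lp, Ordinal.limitRecOn_zero]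

theorem pf4_lp_succ (K : ZFSet.{0} → Prop) (α : Ordinal.{0}) :
    Lp K (α + 1) = DefQ K (Lp K α) := by
  rw [Lp, Ordinal.limitRecOn_add_one]
  rfl

theorem pf4_lp_limit (K : ZFSet.{0} → Prop) {α : Ordinal.{0}} (h : Order.IsSuccLimit α)
    {x : ZFSet.{0}} : x ∈ Lp K α ↔ ∃ β < α, x ∈ Lp K β := by
  rw [Lp, Ordinal.limitRecOn_limit _ _ _ _ h, ZFSet.mem_sUnion]
  constructor
  · rintro ⟨y, hy, hx⟩
    obtain ⟨⟨β, hβ⟩, rfl⟩ := ZFSet.mem_range.1 hy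
    exact ⟨β, hβ, hx⟩
  · rintro ⟨β, hβ, hx⟩
    exact ⟨_, ZFSet.mem_range.2 ⟨⟨β, hβ⟩, rfl⟩, hx⟩

/-! ### Absoluteness -/

section
variable {P : Type} [Preorder P] [OrderTop P] (π : Pkg P)

theorem pf4_d0 {n : ℕ} {R : (Fin n → ZFSet.{0}) → Prop} (h : D0 R) {v : Fin n → ZFSet.{0}}
    (hv : ∀ i, v i ∈ π.Z) : R (π.hat ∘ v) ↔ R v := by
  obtain ⟨φ, hφ⟩ := h
  rw [← hφ π.V (fun x hx y hy => π.trans_V hx hy) (π.hat ∘ v)
    (fun i => π.of_hat_mem_V (hv i)), ← hφ Set.univ (fun _ _ _ _ => trivial) v (fun _ => trivial)]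
  have h1 : ∀ {m : ℕ} (ψ : Fml Empty m), ψ.Over (Empty.elim ⁻¹' π.Z) := by
    intro m ψ
    induction ψ with
    | mem s t => exact ⟨fun a => a.elim, fun a => a.elim⟩
    | eq s t => exact ⟨fun a => a.elim, fun a => a.elim⟩
    | neg φ ih => exact ih
    | and φ ψ ih1 ih2 => exact ⟨ih1, ih2⟩
    | ex φ ih => exact ih
  have h2 := π.sat_V (φ.map Empty.elim) ((over_map _ _).2 (h1 φ)) v hv
  rw [sat_map, sat_map] at h2
  have h3 : (π.hat ∘ Empty.elim : Empty → ZFSet.{0}) = Empty.elim := funext fun a => a.elim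
  have h4 : (id ∘ Empty.elim : Empty → ZFSet.{0}) = Empty.elim := funext fun a => a.elim
  rw [h3, h4] at h2
  exact h2

theorem pf4_d0_1 {R : ZFSet.{0} → Prop} (h : D0 fun v : Fin 1 → ZFSet.{0} => R (v 0))
    {x : ZFSet.{0}} (hx : x ∈ π.Z) : R (π.hat x) ↔ R x :=
  pf4_d0 π h (v := fun _ => x) fun _ => hx

theorem pf4_isOrdinal {x : ZFSet.{0}} (hx : x ∈ π.Z) : (π.hat x).IsOrdinal ↔ x.IsOrdinal :=
  pf4_d0_1 π (D0.isOrdinal (D0v.proj 0)) hx

theorem pf4_d0_isLin : D0 fun v : Fin 1 → ZFSet.{0} => IsLin (v 0) := by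
  have h : D0 fun v : Fin 1 → ZFSet.{0} =>
      (∀ p ∈ v 0, ∀ q ∈ v 0, ¬ ∃ a b, p = pair a b ∧ ∃ b' c, q = pair b' c ∧
        (b' = b ∧ pair a c ∉ v 0)) ∧
      (∀ p ∈ v 0, ∀ q ∈ v 0, ¬ ∃ a b, p = pair a b ∧ ∃ c d, q = pair c d ∧
        ((a ≠ c ∧ pair a c ∉ v 0 ∧ pair c a ∉ v 0) ∨ (a ≠ d ∧ pair a d ∉ v 0 ∧ pair d a ∉ v 0) ∨
         (b ≠ c ∧ pair b c ∉ v 0 ∧ pair c b ∉ v 0) ∨
         (b ≠ d ∧ pair b d ∉ v 0 ∧ pair d b ∉ v 0))) ∧
      (∀ p ∈ v 0, ¬ ∃ a b, p = pair a b ∧ (pair b a ∈ v 0 ∧ a ≠ b)) ∧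
      ((∀ p ∈ v 0, ¬ ∃ a b, p = pair a b ∧ a = b) ∨
        ∀ p ∈ v 0, ¬ ∃ a b, p = pair a b ∧ (pair a a ∉ v 0 ∨ pair b b ∉ v 0)) := by
    (repeat' first
      | assumption
      | exact D0v.proj _
      | apply D0.not | apply D0.and | apply D0.expair | apply D0.or | apply D0.isPair | apply D0.pairMem
      | apply D0.bex | apply D0.ball | apply D0.imp | apply D0.iff | apply D0.subset
      | apply D0.eq | apply D0.mem | apply D0.isOrdinal)
  refine h.congr fun v => ?_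
  generalize v 0 = R
  rw [IsLin]
  refine and_congr ?_ (and_congr ?_ (and_congr ?_ (or_congr ?_ ?_)))
  · constructor
    · intro h a b c hab hbc
      by_contra hac
      exact h _ hab _ hbc ⟨a, b, rfl, b, c, rfl, rfl, hac⟩
    · rintro h p hp q hq ⟨a, b, rfl, b', c, rfl, rfl, hac⟩
      exact hac (h a b' c hp hq)
  · constructor
    · rintro h a b ⟨a', ha⟩ ⟨b', hb⟩ hne
      by_contra hc
      push Not at hc
      rcases ha with ha | ha <;> rcases hb with hb | hb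
      · exact h _ ha _ hb ⟨a, a', rfl, b, b', rfl, Or.inl ⟨hne, hc.1, hc.2⟩⟩
      · exact h _ ha _ hb ⟨a, a', rfl, b', b, rfl, Or.inr (Or.inl ⟨hne, hc.1, hc.2⟩)⟩
      · exact h _ ha _ hb ⟨a', a, rfl, b, b', rfl, Or.inr (Or.inr (Or.inl ⟨hne, hc.1, hc.2⟩))⟩
      · exact h _ ha _ hb ⟨a', a, rfl, b', b, rfl, Or.inr (Or.inr (Or.inr ⟨hne, hc.1, hc.2⟩))⟩
    · rintro h p hp q hq ⟨a, b, rfl, c, d, rfl, h1⟩
      have ha : Fld R a := ⟨b, Or.inl hp⟩
      have hb : Fld R b := ⟨a, Or.inr hp⟩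
      have hc : Fld R c := ⟨d, Or.inl hq⟩
      have hd : Fld R d := ⟨c, Or.inr hq⟩
      rcases h1 with ⟨h1, h2, h3⟩ | ⟨h1, h2, h3⟩ | ⟨h1, h2, h3⟩ | ⟨h1, h2, h3⟩
      · exact (h a c ha hc h1).elim h2 h3
      · exact (h a d ha hd h1).elim h2 h3
      · exact (h b c hb hc h1).elim h2 h3
      · exact (h b d hb hd h1).elim h2 h3
  · constructor
    · intro h a b hab hba
      by_contra hne
      exact h _ hab ⟨a, b, rfl, hba, hne⟩
    · rintro h p hp ⟨a, b, rfl, hba, hne⟩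
      exact hne (h a b hp hba)
  · constructor
    · intro h a ha
      exact h _ ha ⟨a, a, rfl, rfl⟩
    · rintro h p hp ⟨a, b, rfl, rfl⟩
      exact h a hp
  · constructor
    · rintro h a ⟨b, hab | hab⟩
      · by_contra hc
        exact h _ hab ⟨a, b, rfl, Or.inl hc⟩
      · by_contra hc
        exact h _ hab ⟨b, a, rfl, Or.inr hc⟩
    · rintro h p hp ⟨a, b, rfl, h1 | h1⟩
      · exact h1 (h a ⟨b, Or.inl hp⟩)
      · exact h1 (h b ⟨a, Or.inr hp⟩)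

theorem pf4_isLin {R : ZFSet.{0}} (hR : R ∈ π.Z) : IsLin (π.hat R) ↔ IsLin R :=
  pf4_d0_1 π pf4_d0_isLin hR

theorem pf4_d0_isFunc : D0 fun v : Fin 3 → ZFSet.{0} => ZFSet.IsFunc (v 0) (v 1) (v 2) := by
  have h : D0 fun v : Fin 3 → ZFSet.{0} =>
      (∀ p ∈ v 2, ∃ a b, p = pair a b ∧ (a ∈ v 0 ∧ b ∈ v 1)) ∧
      ∀ z ∈ v 0, ∃ p ∈ v 2, ∃ a b, p = pair a b ∧ (a = z ∧
        ∀ q ∈ v 2, ¬ ∃ c d, q = pair c d ∧ (c = z ∧ d ≠ b)) := by
    (repeat' first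
      | assumption
      | exact D0v.proj _
      | apply D0.not | apply D0.and | apply D0.expair | apply D0.or | apply D0.isPair | apply D0.pairMem
      | apply D0.bex | apply D0.ball | apply D0.imp | apply D0.iff | apply D0.subset
      | apply D0.eq | apply D0.mem | apply D0.isOrdinal)
  refine h.congr fun v => ?_
  rw [ZFSet.IsFunc]
  refine and_congr ?_ ?_
  · constructor
    · intro h p hp
      obtain ⟨a, b, rfl, ha, hb⟩ := h p hp
      exact ZFSet.pair_mem_prod.2 ⟨ha, hb⟩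
    · intro h p hp
      obtain ⟨a, ha, b, hb, rfl⟩ := ZFSet.mem_prod.1 (h hp)
      exact ⟨a, b, rfl, ha, hb⟩
  · constructor
    · intro h z hz
      obtain ⟨p, hp, a, b, rfl, rfl, h1⟩ := h z hz
      refine ⟨b, hp, fun d hd => ?_⟩
      by_contra hc
      exact h1 _ hd ⟨a, d, rfl, rfl, hc⟩
    · intro h z hz
      obtain ⟨b, hb, h1⟩ := h z hz
      refine ⟨_, hb, z, b, rfl, rfl, ?_⟩
      rintro q hq ⟨c, d, rfl, rfl, hd⟩
      exact hd (h1 d hq)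

theorem pf4_isFunc {x y f : ZFSet.{0}} (hx : x ∈ π.Z) (hy : y ∈ π.Z) (hf : f ∈ π.Z) :
    ZFSet.IsFunc (π.hat x) (π.hat y) (π.hat f) ↔ ZFSet.IsFunc x y f :=
  pf4_d0 π pf4_d0_isFunc (v := ![x, y, f]) (by
    intro i
    fin_cases i
    · exact hx
    · exact hy
    · exact hf)

/-- The elements of a tuple. -/
theorem pf4_tup_Z : {n : ℕ} → {v : Fin n → ZFSet.{0}} → (tup v ∈ π.Z ↔ ∀ i, v i ∈ π.Z)
  | 0, _ => ⟨fun _ i => i.elim0, fun _ => π.empty_Z⟩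
  | n + 1, v => by
    rw [tup]
    constructor
    · intro h
      obtain ⟨h1, h2⟩ := π.of_pair_Z h
      refine Fin.cases h1 (pf4_tup_Z.1 h2)
    · intro h
      exact π.pair_mem_Z (h 0) (pf4_tup_Z.2 fun i => h i.succ)

end

end Pool.Agent.helper797_cs
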