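import Pool.Agent.helper797_cs.PF4a

/-! # F4, part b: the hierarchy in the extension -/

set_option autoImplicit false
set_option linter.unreachableTactic false
set_option linter.unusedTactic false

namespace Pool.Agent.helper797_cs
open Pool.Agent.W868 Pool.Agent.R587
open ZFSet (pair)
open Cardinal

/-! ### The functions -/

open Classical in
/-- A witness. -/
noncomputable def pf4Wit (K : ZFSet.{0} → Prop) (φ : Σ n : ℕ, FmQ (n + 1)) (X p : ZFSet.{0}) :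
    ZFSet.{0} :=
  if h : ∃ a ∈ X, φ.2.Sat K X (Fin.cons a (ut φ.1 p)) then h.choose else ∅

theorem pf4Wit_spec {K : ZFSet.{0} → Prop} {n : ℕ} {φ : FmQ (n + 1)} {X : ZFSet.{0}}
    {v : Fin n → ZFSet.{0}} (h : ∃ a ∈ X, φ.Sat K X (Fin.cons a v)) :
    pf4Wit K ⟨n, φ⟩ X (tup v) ∈ X ∧ φ.Sat K X (Fin.cons (pf4Wit K ⟨n, φ⟩ X (tup v)) v) := by
  have e : ut n (tup v) = v := ut_tup v
  have h' : ∃ a ∈ X, φ.Sat K X (Fin.cons a (ut n (tup v))) := by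
    rw [e]
    exact h
  have h1 : pf4Wit K ⟨n, φ⟩ X (tup v) = h'.choose := by
    rw [pf4Wit, dif_pos h']
  rw [h1]
  exact ⟨h'.choose_spec.1,
    (congrArg (fun w => φ.Sat K X (Fin.cons h'.choose w)) e).mp h'.choose_spec.2⟩

/-- The relation defined by a formula. -/
noncomputable def pf4Rel (K : ZFSet.{0} → Prop) (φ : Σ n : ℕ, FmQ (n + 2)) (X p : ZFSet.{0}) :
    ZFSet.{0} :=
  ZFSet.sep (fun q => ∃ a ∈ X, ∃ b ∈ X, q = pair a b ∧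
    φ.2.Sat K X (Fin.cons a (Fin.cons b (ut φ.1 p)))) (ZFSet.prod X X)

/-- The set defined by a formula. -/
noncomputable def pf4Sep (K : ZFSet.{0} → Prop) (φ : Σ n : ℕ, FmQ (n + 1)) (X p : ZFSet.{0}) :
    ZFSet.{0} :=
  ZFSet.sep (fun a => φ.2.Sat K X (Fin.cons a (ut φ.1 p))) X

open Classical in
/-- The parameters of a definition. -/
noncomputable def pf4Par (K : ZFSet.{0} → Prop) (φ : Σ n : ℕ, FmQ (n + 1)) (X Y : ZFSet.{0}) :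
    ZFSet.{0} :=
  if h : ∃ v : Fin φ.1 → ZFSet.{0}, (∀ i, v i ∈ X) ∧
    ∀ a, a ∈ Y ↔ a ∈ X ∧ φ.2.Sat K X (Fin.cons a v) then tup h.choose else ∅

section
variable {P : Type} [Preorder P] [OrderTop P]

/-- The hypotheses. -/
structure Pf4K (π : Pkg P) (K K' : ZFSet.{0} → Prop) : Prop where
  cof : ∀ R ∈ π.Z, (K' (π.hat R) ↔ K R)
  wit : ∀ φ, ∀ X ∈ π.Z, ∀ p ∈ π.Z, pf4Wit K φ X p ∈ π.Z
  rel : ∀ φ, ∀ X ∈ π.Z, ∀ p ∈ π.Z, pf4Rel K φ X p ∈ π.Z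
  sep : ∀ φ, ∀ X ∈ π.Z, ∀ p ∈ π.Z, pf4Sep K φ X p ∈ π.Z
  par : ∀ φ, ∀ X ∈ π.Z, ∀ Y ∈ π.Z, pf4Par K φ X Y ∈ π.Z

variable {π : Pkg P} {K K' : ZFSet.{0} → Prop} (H : Pf4K π K K')
include H

theorem pf4_sat {X : ZFSet.{0}} (hX : X ∈ π.Z) {n : ℕ} (φ : FmQ n) :
    ∀ v : Fin n → ZFSet.{0}, (∀ i, v i ∈ π.Z) →
      (φ.Sat K' (π.hat X) (π.hat ∘ v) ↔ φ.Sat K X v) := by
  induction φ with
  | mem i j => exact fun v hv => π.hat_mem_hat (hv i) (hv j)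
  | eq i j => exact fun v hv => π.hat_inj (hv i) (hv j)
  | neg φ ih => exact fun v hv => not_congr (ih v hv)
  | and φ ψ ih1 ih2 => exact fun v hv => and_congr (ih1 v hv) (ih2 v hv)
  | @ex n φ ih =>
    intro v hv
    have ih' := fun x (hx : x ∈ π.Z) => ih (Fin.cons x v) (Pkg.cons_mem hx hv)
    simp only [Pkg.hat_cons] at ih'
    simp only [FmQ.Sat]
    constructor
    · rintro ⟨a, ha, hs⟩
      obtain ⟨a, haX, haZ, rfl⟩ := π.mem_hat.1 ha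
      exact ⟨a, haX, (ih' a haZ).1 hs⟩
    · intro h
      have h1 := H.wit ⟨n, φ⟩ X hX (tup v) ((pf4_tup_Z π).2 hv)
      have h2 := pf4Wit_spec h
      exact ⟨_, (π.hat_mem_hat h1 hX).2 h2.1, (ih' _ h1).2 h2.2⟩
  | @qcf n φ ih =>
    intro v hv
    have h1 := H.rel ⟨n, φ⟩ X hX (tup v) ((pf4_tup_Z π).2 hv)
    simp only [pf4Rel, ut_tup] at h1
    simp only [FmQ.Sat]
    rw [← H.cof _ h1]
    refine iff_of_eq (congrArg K' ?_)
    have ih' : ∀ a ∈ π.Z, ∀ b ∈ π.Z,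
        (φ.Sat K' (π.hat X) (Fin.cons (π.hat a) (Fin.cons (π.hat b) (π.hat ∘ v))) ↔
          φ.Sat K X (Fin.cons a (Fin.cons b v))) := by
      intro a ha b hb
      have h2 := ih (Fin.cons a (Fin.cons b v)) (Pkg.cons_mem ha (Pkg.cons_mem hb hv))
      rw [Pkg.hat_cons, Pkg.hat_cons] at h2
      exact h2
    ext p
    rw [ZFSet.mem_sep, π.mem_hat]
    constructor
    · rintro ⟨-, a, ha, b, hb, rfl, hs⟩
      obtain ⟨a, haX, haZ, rfl⟩ := π.mem_hat.1 ha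
      obtain ⟨b, hbX, hbZ, rfl⟩ := π.mem_hat.1 hb
      refine ⟨pair a b, ZFSet.mem_sep.2 ⟨ZFSet.pair_mem_prod.2 ⟨haX, hbX⟩, a, haX, b, hbX, rfl,
        (ih' a haZ b hbZ).1 hs⟩, π.pair_mem_Z haZ hbZ, π.hat_pair haZ hbZ⟩
    · rintro ⟨q, hq, hqZ, rfl⟩
      obtain ⟨-, a, haX, b, hbX, rfl, hs⟩ := ZFSet.mem_sep.1 hq
      obtain ⟨haZ, hbZ⟩ := π.of_pair_Z hqZ
      have ha := (π.hat_mem_hat haZ hX).2 haX
      have hb := (π.hat_mem_hat hbZ hX).2 hbX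
      rw [π.hat_pair haZ hbZ]
      exact ⟨ZFSet.pair_mem_prod.2 ⟨ha, hb⟩, _, ha, _, hb, rfl, (ih' a haZ b hbZ).2 hs⟩

theorem pf4_defQ {X : ZFSet.{0}} (hX : X ∈ π.Z) : DefQ K' (π.hat X) = π.hat (DefQ K X) := by
  have key : ∀ {n : ℕ} (φ : FmQ (n + 1)) (v : Fin n → ZFSet.{0}), (∀ i, v i ∈ π.Z) →
      ∀ Y ∈ π.Z, (∀ a, a ∈ Y ↔ a ∈ X ∧ φ.Sat K X (Fin.cons a v)) →
      ∀ a, a ∈ π.hat Y ↔ a ∈ π.hat X ∧ φ.Sat K' (π.hat X) (Fin.cons a (π.hat ∘ v)) := by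
    intro n φ v hv Y hY h a
    have ih := fun x (hx : x ∈ π.Z) => pf4_sat H hX φ (Fin.cons x v) (Pkg.cons_mem hx hv)
    simp only [Pkg.hat_cons] at ih
    constructor
    · intro ha
      obtain ⟨b, hb, hbZ, rfl⟩ := π.mem_hat.1 ha
      obtain ⟨h1, h2⟩ := (h b).1 hb
      exact ⟨(π.hat_mem_hat hbZ hX).2 h1, (ih b hbZ).2 h2⟩
    · rintro ⟨ha, hs⟩
      obtain ⟨b, hb, hbZ, rfl⟩ := π.mem_hat.1 ha
      exact (π.hat_mem_hat hbZ hY).2 ((h b).2 ⟨hb, (ih b hbZ).1 hs⟩)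
  ext Y
  rw [π.mem_hat]
  constructor
  · intro hY
    obtain ⟨-, n, φ, v', hv', h⟩ := ZFSet.mem_sep.1 hY
    choose v hvX hvZ hvv using fun i => π.mem_hat.1 (hv' i)
    obtain rfl : π.hat ∘ v = v' := funext hvv
    have h1 := H.sep ⟨n, φ⟩ X hX (tup v) ((pf4_tup_Z π).2 hvZ)
    simp only [pf4Sep, ut_tup] at h1
    refine ⟨_, ZFSet.mem_sep.2 ⟨?_, n, φ, v, hvX, fun a => ZFSet.mem_sep⟩, h1, ?_⟩
    · rw [ZFSet.mem_powerset]
      exact ZFSet.sep_subset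
    · ext a
      rw [key φ v hvZ _ h1 (fun a => ZFSet.mem_sep) a, h a]
  · rintro ⟨Y, hY, hYZ, rfl⟩
    obtain ⟨hYX, n, φ, v, hv, h⟩ := ZFSet.mem_sep.1 hY
    have h0 : ∃ v : Fin n → ZFSet.{0}, (∀ i, v i ∈ X) ∧
        ∀ a, a ∈ Y ↔ a ∈ X ∧ φ.Sat K X (Fin.cons a v) := ⟨v, hv, h⟩
    have h1 := H.par ⟨n, φ⟩ X hX Y hYZ
    simp only [pf4Par] at h1
    rw [dif_pos h0] at h1
    have h2 := (pf4_tup_Z π).1 h1
    refine ZFSet.mem_sep.2 ⟨?_, n, φ, π.hat ∘ h0.choose, fun i => ?_, ?_⟩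
    · rw [ZFSet.mem_powerset]
      exact π.hat_subset (ZFSet.mem_powerset.1 hYX)
    · exact (π.hat_mem_hat (h2 i) hX).2 (h0.choose_spec.1 i)
    · exact key φ _ h2 Y hYZ h0.choose_spec.2

/-- The levels in the extension. -/
theorem pf4_lp (hlp : ∀ α : Ordinal.{0}, α.toZFSet ∈ π.Z → Lp K α ∈ π.Z)
    (hlev : ∀ x ∈ π.Z, (sInf {α | x ∈ Lp K α}).toZFSet ∈ π.Z) (α : Ordinal.{0}) :
    α.toZFSet ∈ π.Z → Lp K' (π.hat α.toZFSet).rank = π.hat (Lp K α) := by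
  induction α using Ordinal.limitRecOn with
  | zero =>
    intro _
    rw [Ordinal.toZFSet_zero, π.hat_empty, ZFSet.rank_empty, pf4_lp_zero, pf4_lp_zero,
      π.hat_empty]
  | add_one α ih =>
    intro hα
    have h1 : α.toZFSet ∈ π.Z := by
      have h2 := π.union_Z hα
      have h3 : (ZFSet.sUnion (α + 1).toZFSet : ZFSet.{0}) = α.toZFSet := by
        ext z
        rw [ZFSet.mem_sUnion, Ordinal.toZFSet_add_one]
        constructor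
        · rintro ⟨y, hy, hz⟩
          rcases ZFSet.mem_insert_iff.1 hy with rfl | hy
          · exact hz
          · exact (ZFSet.isOrdinal_toZFSet α).mem_trans hz hy
        · intro hz
          exact ⟨_, ZFSet.mem_insert _ _, hz⟩
      rwa [h3] at h2
    have h2 : (π.hat (α + 1).toZFSet).rank = (π.hat α.toZFSet).rank + 1 := by
      rw [Ordinal.toZFSet_add_one, π.hat_insert h1, ZFSet.rank_insert, ← Order.succ_eq_add_one]
      exact max_eq_left (Order.le_succ _)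
    rw [h2, pf4_lp_succ, pf4_lp_succ, ih h1, pf4_defQ H (hlp α h1)]
  | limit α hα ih =>
    intro hαZ
    have ho := π.hat_isOrdinal (ZFSet.isOrdinal_toZFSet α)
    have hr : ∀ γ < (π.hat α.toZFSet).rank, ∃ β < α, β.toZFSet ∈ π.Z ∧
        (π.hat β.toZFSet).rank = γ := by
      intro γ hγ
      have h1 : γ.toZFSet ∈ π.hat α.toZFSet := by
        rw [← ho.toZFSet_rank_eq]
        exact Ordinal.toZFSet_mem_toZFSet_iff.2 hγ
      obtain ⟨z, hz, hzZ, h2⟩ := π.mem_hat.1 h1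
      obtain ⟨β, hβ, rfl⟩ := Ordinal.mem_toZFSet_iff.1 hz
      refine ⟨β, hβ, hzZ, ?_⟩
      rw [h2, Ordinal.rank_toZFSet]
    have hm : ∀ β < α, β.toZFSet ∈ π.Z → (π.hat β.toZFSet).rank < (π.hat α.toZFSet).rank := by
      intro β hβ hβZ
      exact ZFSet.rank_lt_of_mem ((π.hat_mem_hat hβZ hαZ).2 (Ordinal.toZFSet_mem_toZFSet_iff.2 hβ))
    have hlim : Order.IsSuccLimit (π.hat α.toZFSet).rank := by
      refine (Order.isSuccLimit_iff _).2 ⟨?_, ?_⟩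
      · rw [isMin_iff_eq_bot]
        intro h0
        have h1 := hm 0 hα.bot_lt (by rw [Ordinal.toZFSet_zero]; exact π.empty_Z)
        rw [h0] at h1
        exact not_lt_bot h1
      · rw [Order.isSuccPrelimit_iff_succ_lt]
        intro γ hγ
        obtain ⟨β, hβ, hβZ, rfl⟩ := hr γ hγ
        have h1 : (β + 1).toZFSet ∈ π.Z := by
          rw [Ordinal.toZFSet_add_one]
          exact π.insert_Z hβZ hβZ
        have h2 := hm (β + 1) (hα.add_one_lt hβ) h1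
        rw [Ordinal.toZFSet_add_one, π.hat_insert hβZ, ZFSet.rank_insert] at h2
        exact (le_max_left _ _).trans_lt h2
    ext x
    rw [pf4_lp_limit K' hlim, π.mem_hat]
    constructor
    · rintro ⟨γ, hγ, hx⟩
      obtain ⟨β, hβ, hβZ, rfl⟩ := hr γ hγ
      rw [ih β hβ hβZ] at hx
      obtain ⟨y, hy, hyZ, rfl⟩ := π.mem_hat.1 hx
      exact ⟨y, (pf4_lp_limit K hα).2 ⟨β, hβ, hy⟩, hyZ, rfl⟩
    · rintro ⟨y, hy, hyZ, rfl⟩
      obtain ⟨β, hβ, hyβ⟩ := (pf4_lp_limit K hα).1 hy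
      set δ := sInf {α | y ∈ Lp K α} with hδ
      have h1 : y ∈ Lp K δ := csInf_mem (s := {α | y ∈ Lp K α}) ⟨β, hyβ⟩
      have h2 : δ < α := (csInf_le' (s := {α | y ∈ Lp K α}) hyβ).trans_lt hβ
      have h3 := hlev y hyZ
      rw [← hδ] at h3
      refine ⟨_, hm δ h2 h3, ?_⟩
      rw [ih δ h2 h3]
      exact (π.hat_mem_hat hyZ (hlp δ h3)).2 h1

/-- The inner model of the extension. -/
theorem pf4_mem_Cst {W : Set ZFSet.{0}} (hVW : π.V ⊆ W)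
    (hW : ∀ x : ZFSet.{0}, x.IsOrdinal → x ∈ W → x ∈ π.V)
    (hlp : ∀ α : Ordinal.{0}, α.toZFSet ∈ π.Z → Lp K α ∈ π.Z)
    (hlev : ∀ x ∈ π.Z, (sInf {α | x ∈ Lp K α}).toZFSet ∈ π.Z) {x : ZFSet.{0}} :
    (∃ α : Ordinal.{0}, α.toZFSet ∈ W ∧ x ∈ Lp K' α) ↔
      ∃ y ∈ π.Z, (∃ α, y ∈ Lp K α) ∧ π.hat y = x := by
  constructor
  · rintro ⟨α, hα, hx⟩
    obtain ⟨z, hz, hzα⟩ := hW _ (ZFSet.isOrdinal_toZFSet α) hα
    have h1 : z.IsOrdinal := (pf4_isOrdinal π hz).1 (by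
      rw [hzα]
      exact ZFSet.isOrdinal_toZFSet α)
    rw [← h1.toZFSet_rank_eq] at hz hzα
    have h2 := pf4_lp H hlp hlev z.rank hz
    rw [hzα, Ordinal.rank_toZFSet] at h2
    rw [h2] at hx
    obtain ⟨y, hy, hyZ, rfl⟩ := π.mem_hat.1 hx
    exact ⟨y, hyZ, ⟨_, hy⟩, rfl⟩
  · rintro ⟨y, hyZ, ⟨α, hy⟩, rfl⟩
    have h1 : y ∈ Lp K (sInf {α | y ∈ Lp K α}) := csInf_mem (s := {α | y ∈ Lp K α}) ⟨α, hy⟩
    have h3 := hlev y hyZ
    refine ⟨(π.hat (sInf {α | y ∈ Lp K α}).toZFSet).rank, ?_, ?_⟩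
    · rw [(π.hat_isOrdinal (ZFSet.isOrdinal_toZFSet _)).toZFSet_rank_eq]
      exact hVW (π.of_hat_mem_V h3)
    · rw [pf4_lp H hlp hlev _ h3]
      exact (π.hat_mem_hat hyZ (hlp _ h3)).2 h1

end

end Pool.Agent.helper797_cs
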