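import Pool.Agent.helper797_cs.PF4a
import Pool.Agent.W868.Small

/-! # F4, part c: cofinality in the extension -/

set_option autoImplicit false
set_option linter.unreachableTactic false
set_option linter.unusedTactic false
set_option linter.unusedSectionVars false

namespace Pool.Agent.helper797_cs
open Pool.Agent.W868 Pool.Agent.R587
open ZFSet (pair)
open Cardinal Ordinal

/-! ### Linear orders have a cofinality -/

theorem pf4_order {α : Type} [LinearOrder α] [Nonempty α] [NoMaxOrder α] :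
    ∃ c : Cardinal.{0}, c.IsRegular ∧ ∃ g : Ordinal.{0} → α,
      (∀ i j, i < j → j < c.ord → g i < g j) ∧ ∀ a, ∃ i < c.ord, a ≤ g i := by
  classical
  obtain ⟨s, hs, hs'⟩ := Order.exists_cof_eq α
  obtain ⟨r, hr, hr'⟩ := exists_ord_eq s
  have ht := isCofinal_setOfPred_imp_lt r
  set t : Set s := {a | ∀ b, r b a → b < a} with htdef
  have hlt : ∀ x y : t, x < y → r x.1 y.1 := by
    intro x y hxy
    rcases trichotomous_of r x.1 y.1 with h | h | h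
    · exact h
    · exact absurd (Subtype.ext h) hxy.ne
    · exact absurd (x.2 _ h) (not_lt.2 hxy.le)
  have : WellFoundedLT t := ⟨Subrelation.wf (h₁ := fun {x y} h => hlt x y h)
    (InvImage.wf (fun x : t => x.1) hr.wf)⟩
  have hcof : Order.cof t = Order.cof α := by
    rw [Order.cof_eq_of_isCofinal ht, Order.cof_eq_of_isCofinal hs]
  have h1 : typeLT t = (Order.cof α).ord := by
    apply le_antisymm
    · rw [← hs', hr', type_le_iff']
      exact ⟨.ofMonotone (fun x ↦ x.1) fun x y hxy ↦ hlt x y hxy⟩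
    · rw [← hcof]
      exact (ord_le_ord.2 (Order.cof_le_cardinalMk t)).trans (ord_le_type _)
  have hreg : (Order.cof α).IsRegular := by
    refine ⟨Order.aleph0_le_cof, ?_⟩
    rw [← h1, cof_type, hcof]
  obtain ⟨g, hg⟩ : ∃ g : Ordinal.{0} → α, ∀ (i : Ordinal.{0}) (h : i ∈ Set.Iio (typeLT t)),
      g i = (enum (α := t) (· < ·) ⟨i, h⟩).1.1 :=
    ⟨fun i => if h : i ∈ Set.Iio (typeLT t) then (enum (α := t) (· < ·) ⟨i, h⟩).1.1 else
      Classical.arbitrary α, fun i h => dif_pos h⟩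
  refine ⟨Order.cof α, hreg, g, ?_, ?_⟩
  · intro i j hij hj
    rw [← h1] at hj
    rw [hg j hj, hg i (hij.trans hj)]
    exact (enum_lt_enum (r := ((· < ·) : t → t → Prop)) (o₁ := ⟨i, hij.trans hj⟩)
      (o₂ := ⟨j, hj⟩)).2 hij
  · intro a
    obtain ⟨b, hb, hab⟩ := hs a
    obtain ⟨c, hc, hbc⟩ := ht ⟨b, hb⟩
    have h2 : typein (α := t) (· < ·) ⟨c, hc⟩ ∈ Set.Iio (typeLT t) := typein_lt_type _ _
    refine ⟨typein (α := t) (· < ·) ⟨c, hc⟩, ?_, ?_⟩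
    · rw [← h1]
      exact h2
    · rw [hg _ h2, enum_typein (α := t) (· < ·) ⟨c, hc⟩]
      exact hab.trans hbc

theorem pf4_fld_mem {R a : ZFSet.{0}} (h : Fld R a) :
    a ∈ ZFSet.sUnion (ZFSet.sUnion R : ZFSet.{0}) := by
  obtain ⟨b, hb | hb⟩ := h
  · refine ZFSet.mem_sUnion.2 ⟨{a, b}, ZFSet.mem_sUnion.2 ⟨_, hb, ?_⟩,
      ZFSet.mem_pair.2 (Or.inl rfl)⟩
    exact ZFSet.mem_pair.2 (Or.inr rfl)
  · refine ZFSet.mem_sUnion.2 ⟨{b, a}, ZFSet.mem_sUnion.2 ⟨_, hb, ?_⟩,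
      ZFSet.mem_pair.2 (Or.inr rfl)⟩
    exact ZFSet.mem_pair.2 (Or.inr rfl)

theorem pf4_exists_cof {R : ZFSet.{0}} (hR : IsLin R) (hne : ∃ a, Fld R a)
    (hmax : ∀ a, Fld R a → ∃ b, pair a b ∈ R ∧ a ≠ b) : CofB (fun _ => True) R := by
  classical
  set F : ZFSet.{0} := ZFSet.sep (Fld R) (ZFSet.sUnion (ZFSet.sUnion R : ZFSet.{0})) with hF
  have hmem : ∀ a, a ∈ F ↔ Fld R a := by
    intro a
    rw [hF, ZFSet.mem_sep]
    exact ⟨fun h => h.2, fun h => ⟨pf4_fld_mem h, h⟩⟩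
  obtain ⟨α, ⟨e⟩⟩ : ∃ α : Type, Nonempty (α ≃ {z // z ∈ F}) :=
    ⟨Shrink.{0} {z // z ∈ F}, ⟨(equivShrink {z // z ∈ F}).symm⟩⟩
  obtain ⟨htr, htot, hanti, hlin⟩ := hR
  let _ : LinearOrder α :=
    { le := fun a b => (e a).1 = (e b).1 ∨ pair (e a).1 (e b).1 ∈ R
      le_refl := fun a => Or.inl rfl
      le_trans := by
        rintro a b c (h1 | h1) (h2 | h2)
        · exact Or.inl (h1.trans h2)
        · exact Or.inr (h1 ▸ h2)
        · exact Or.inr (h2 ▸ h1)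
        · exact Or.inr (htr _ _ _ h1 h2)
      le_antisymm := by
        rintro a b (h1 | h1) h2
        · exact e.injective (Subtype.ext h1)
        · rcases h2 with h2 | h2
          · exact (e.injective (Subtype.ext h2)).symm
          · exact e.injective (Subtype.ext (hanti _ _ h1 h2))
      le_total := by
        intro a b
        by_cases h : (e a).1 = (e b).1
        · exact Or.inl (Or.inl h)
        · rcases htot _ _ ((hmem _).1 (e a).2) ((hmem _).1 (e b).2) h with h1 | h1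
          · exact Or.inl (Or.inr h1)
          · exact Or.inr (Or.inr h1)
      toDecidableLE := Classical.decRel _ }
  have hle : ∀ a b : α, a ≤ b ↔ (e a).1 = (e b).1 ∨ pair (e a).1 (e b).1 ∈ R := fun _ _ => Iff.rfl
  have hlt : ∀ a b : α, a < b → (e a).1 ≠ (e b).1 ∧ pair (e a).1 (e b).1 ∈ R := by
    intro a b hab
    have h1 : (e a).1 ≠ (e b).1 := fun h => hab.ne (e.injective (Subtype.ext h))
    exact ⟨h1, ((hle a b).1 hab.le).resolve_left h1⟩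
  have : Nonempty α := by
    obtain ⟨a, ha⟩ := hne
    exact ⟨e.symm ⟨a, (hmem a).2 ha⟩⟩
  have : NoMaxOrder α := by
    refine ⟨fun a => ?_⟩
    obtain ⟨b, hb, hne⟩ := hmax _ ((hmem _).1 (e a).2)
    have hbF : b ∈ F := (hmem b).2 ⟨_, Or.inr hb⟩
    refine ⟨e.symm ⟨b, hbF⟩, lt_of_le_of_ne ?_ ?_⟩
    · rw [hle, e.apply_symm_apply]
      exact Or.inr hb
    · intro h
      apply hne
      rw [h, e.apply_symm_apply]
  obtain ⟨c, hc, g, hg1, hg2⟩ := pf4_order (α := α)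
  refine ⟨⟨htr, htot, hanti, hlin⟩, c, hc, trivial, fun i => (e (g i)).1,
    fun i j hij hj => hlt _ _ (hg1 i j hij hj), fun a ha => ?_⟩
  obtain ⟨b, hb, hne⟩ := hmax a ha
  have hbF : b ∈ F := (hmem b).2 ⟨_, Or.inr hb⟩
  obtain ⟨i, hi, h1⟩ := hg2 (e.symm ⟨b, hbF⟩)
  refine ⟨i, hi, ?_⟩
  rw [hle, e.apply_symm_apply] at h1
  rcases h1 with h1 | h1
  · beta_reduce
    rw [← h1]
    exact hb
  · exact htr _ _ _ hb h1

/-! ### Sequences in the extension -/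

theorem pf4_ap {f a b : ZFSet.{0}} (hf : ∀ q ∈ f, ∃ c d, q = pair c d) (h : pair a b ∈ f)
    (hu : ∀ b', pair a b' ∈ f → b' = b) : ap f a = b := by
  have h1 : im sn (ZFSet.sep (fun q => fs q = a) f) = {b} := by
    ext z
    rw [mem_im, ZFSet.mem_singleton]
    constructor
    · rintro ⟨p, hp, rfl⟩
      obtain ⟨h2, h3⟩ := ZFSet.mem_sep.1 hp
      obtain ⟨c, d, rfl⟩ := hf p h2
      rw [fs_pair] at h3
      subst h3
      rw [sn_pair]
      exact hu d h2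
    · rintro rfl
      exact ⟨pair a z, ZFSet.mem_sep.2 ⟨h, fs_pair _ _⟩, (sn_pair _ _).symm⟩
  rw [ap, h1, ZFSet.sUnion_singleton]

theorem pf4_ap_sqSet (g : ℕ → ZFSet.{0}) (n : ℕ) : ap (sqSet g) (nat n) = g n := by
  refine pf4_ap ?_ (ZFSet.mem_range.2 ⟨n, rfl⟩) ?_
  · intro q hq
    obtain ⟨m, rfl⟩ := ZFSet.mem_range.1 hq
    exact ⟨_, _, rfl⟩
  · intro b hb
    obtain ⟨m, hm⟩ := ZFSet.mem_range.1 hb
    obtain ⟨h1, h2⟩ := ZFSet.pair_inj.1 hm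
    rw [← h2, nat_injective h1]

theorem pf4_sqSet_mem {W : Set ZFSet.{0}} (hW : IsZF W) {F : ZFSet.{0} → ZFSet.{0}}
    (hF : DfnF W W fun w : Fin 1 → ZFSet.{0} => F (w 0)) : sqSet (fun n => F (nat n)) ∈ W := by
  have h1 : sqSet (fun n => F (nat n)) = im (fun u => pair u (F u)) ZFSet.omega := by
    ext p
    rw [sqSet, ZFSet.mem_range, mem_im]
    constructor
    · rintro ⟨n, rfl⟩
      exact ⟨nat n, nat_mem_omega n, rfl⟩
    · rintro ⟨u, hu, rfl⟩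
      obtain ⟨n, rfl⟩ := mem_omega_iff.1 hu
      exact ⟨n, rfl⟩
  rw [h1]
  exact hW.im_mem hW.infinity (hW.base.pair' (DfnF.proj 0) hF)

/-- Make a sequence increasing. -/
noncomputable def pf4Inc (H : ZFSet.{0}) : ZFSet.{0} → ZFSet.{0} :=
  wfF (fun z => z) ZFSet.mem_wf fun z g => ZFSet.sUnion (im (fun p => sc (sn p)) g) ∪ ap H z

theorem pf4Inc_eq (H z : ZFSet.{0}) : pf4Inc H z =
    ZFSet.sUnion (im (fun p => sc (sn p)) (gr (pf4Inc H) z)) ∪ ap H z := by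
  rw [pf4Inc, wfF_eq]

theorem pf4_mem_Inc {H z y : ZFSet.{0}} :
    y ∈ pf4Inc H z ↔ (∃ u ∈ z, y ∈ sc (pf4Inc H u)) ∨ y ∈ ap H z := by
  rw [pf4Inc_eq, ZFSet.mem_union, ZFSet.mem_sUnion]
  refine or_congr ?_ Iff.rfl
  constructor
  · rintro ⟨w, hw, h⟩
    obtain ⟨p, hp, rfl⟩ := mem_im.1 hw
    obtain ⟨u, hu, rfl⟩ := mem_gr.1 hp
    rw [sn_pair] at h
    exact ⟨u, hu, h⟩
  · rintro ⟨u, hu, h⟩
    exact ⟨_, mem_im.2 ⟨_, mem_gr.2 ⟨u, hu, rfl⟩, rfl⟩, by rwa [sn_pair]⟩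

theorem pf4_dfn_Inc {W : Set ZFSet.{0}} (hW : IsZF W) {H : ZFSet.{0}} (hH : H ∈ W) :
    DfnF W W fun w : Fin 1 → ZFSet.{0} => pf4Inc H (w 0) := by
  have hB := hW.base
  refine hW.memrec (G := fun z g => ZFSet.sUnion (im (fun p => sc (sn p)) g) ∪ ap H z) ?_
    fun z => pf4Inc_eq H z
  refine hB.union' (hB.sUnion' (hW.im' (h := fun p _ => sc (sn p)) (DfnF.proj 1) ?_))
    (hW.ap' (DfnF.const hH) (DfnF.proj 0))
  exact hB.insert' (hW.sn' (DfnF.proj 0)) (hW.sn' (DfnF.proj 0))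

theorem pf4_Inc_zero {H : ZFSet.{0}} : pf4Inc H (nat 0) = ap H (nat 0) := by
  ext y
  rw [pf4_mem_Inc]
  constructor
  · rintro (⟨u, hu, -⟩ | h)
    · exact absurd hu (ZFSet.notMem_empty _)
    · exact h
  · exact Or.inr

theorem pf4_Inc_succ {H : ZFSet.{0}} {n : ℕ} :
    pf4Inc H (nat (n + 1)) = sc (pf4Inc H (nat n)) ∪ ap H (nat (n + 1)) := by
  ext y
  rw [pf4_mem_Inc, ZFSet.mem_union]
  refine or_congr ?_ Iff.rfl
  constructor
  · rintro ⟨u, hu, hy⟩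
    rcases ZFSet.mem_insert_iff.1 hu with rfl | hu
    · exact hy
    · exact ZFSet.mem_insert_of_mem _ (pf4_mem_Inc.2 (Or.inl ⟨u, hu, hy⟩))
  · intro hy
    exact ⟨nat n, ZFSet.mem_insert _ _, hy⟩

theorem pf4_Inc_lt {H : ZFSet.{0}} {m n : ℕ} (h : m < n) :
    pf4Inc H (nat m) ∈ pf4Inc H (nat n) := by
  refine pf4_mem_Inc.2 (Or.inl ⟨nat m, ?_, ZFSet.mem_insert _ _⟩)
  rw [nat_eq, nat_eq]
  exact toZFSet_mem_toZFSet_iff.2 (by exact_mod_cast h)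

theorem pf4_union_mem {o x y : ZFSet.{0}} (ho : o.IsOrdinal) (hx : x ∈ o) (hy : y ∈ o) :
    x ∪ y ∈ o := by
  rcases (ho.mem hx).subset_total (ho.mem hy) with h | h
  · have h1 : x ∪ y = y := by
      ext z
      rw [ZFSet.mem_union]
      exact ⟨fun h2 => h2.elim (fun h3 => h h3) id, Or.inr⟩
    rwa [h1]
  · have h1 : x ∪ y = x := by
      ext z
      rw [ZFSet.mem_union]
      exact ⟨fun h2 => h2.elim id (fun h3 => h h3), Or.inl⟩
    rwa [h1]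

section
variable {P : Type} [Preorder P] [OrderTop P]

/-- A cofinal sequence in the ground model. -/
structure Pf4S (π : Pkg P) (R : ZFSet.{0}) (o : Ordinal.{0}) (g : Ordinal.{0} → ZFSet.{0}) :
    Prop where
  RZ : R ∈ π.Z
  lin : IsLin R
  lim : Order.IsSuccLimit o
  oZ : o.toZFSet ∈ π.Z
  GZ : gr (fun u => g u.rank) o.toZFSet ∈ π.Z
  inc : ∀ i j, i < j → j < o → g i ≠ g j ∧ pair (g i) (g j) ∈ R
  cf : ∀ a ∈ π.Z, Fld R a → ∃ i < o, i.toZFSet ∈ π.Z ∧ pair a (g i) ∈ R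

variable {π : Pkg P} {R : ZFSet.{0}} {o : Ordinal.{0}} {g : Ordinal.{0} → ZFSet.{0}}
  (S : Pf4S π R o g)
include S

theorem Pf4S.ordo : (π.hat o.toZFSet).IsOrdinal := π.hat_isOrdinal (ZFSet.isOrdinal_toZFSet o)

theorem Pf4S.sc_mem {x : ZFSet.{0}} (hx : x ∈ π.hat o.toZFSet) : sc x ∈ π.hat o.toZFSet := by
  obtain ⟨z, hz, hzZ, rfl⟩ := π.mem_hat.1 hx
  obtain ⟨i, hi, rfl⟩ := mem_toZFSet_iff.1 hz
  rw [sc, ← π.hat_insert hzZ]
  refine (π.hat_mem_hat (π.insert_Z hzZ hzZ) S.oZ).2 ?_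
  rw [← toZFSet_add_one]
  exact toZFSet_mem_toZFSet_iff.2 (S.lim.add_one_lt hi)

theorem Pf4S.gZ {i : Ordinal.{0}} (hi : i < o) (hiZ : i.toZFSet ∈ π.Z) : g i ∈ π.Z := by
  have hB := isBase_univ
  set G := gr (fun u => g u.rank) o.toZFSet with hG
  have hGZ : G ∈ π.Z := S.GZ
  set u := i.toZFSet with hu
  have hd : Dfn π.Z Set.univ fun w : Fin 1 → ZFSet.{0} => pair u (w 0) ∈ G := by
    (repeat' first
      | assumption
      | exact DfnF.proj _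
      | exact DfnF.const (by assumption)
      | exact DfnF.const' (by first | assumption | trivial) (by first | assumption | trivial)
      | exact Dfn.prop _
      | apply Dfn.not | apply Dfn.and | apply Dfn.or | apply Dfn.imp | apply Dfn.iff
      | apply hB.bex | apply hB.ball | apply Dfn.ex | apply Dfn.all
      | apply Dfn.eq | apply Dfn.mem | apply hB.pair')
  obtain ⟨y, hy, h⟩ := π.exists_Z (Q := fun y => pair u y ∈ G) hd ⟨g i, by
    rw [hG, pair_mem_gr]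
    refine ⟨toZFSet_mem_toZFSet_iff.2 hi, ?_⟩
    rw [hu, rank_toZFSet]⟩
  rw [hG, pair_mem_gr] at h
  rw [h.2, hu, rank_toZFSet] at hy
  exact hy

theorem Pf4S.E {i : Ordinal.{0}} (hi : i < o) (hiZ : i.toZFSet ∈ π.Z) :
    ap (π.hat (gr (fun u => g u.rank) o.toZFSet)) (π.hat i.toZFSet) = π.hat (g i) := by
  refine pf4_ap ?_ ?_ ?_
  · intro q hq
    obtain ⟨q', hq', hqZ, rfl⟩ := π.mem_hat.1 hq
    obtain ⟨u, hu, rfl⟩ := mem_gr.1 hq'
    obtain ⟨h1, h2⟩ := π.of_pair_Z hqZ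
    exact ⟨_, _, π.hat_pair h1 h2⟩
  · refine (π.pair_mem_hat hiZ (S.gZ hi hiZ) S.GZ).2 ?_
    rw [pair_mem_gr, rank_toZFSet]
    exact ⟨toZFSet_mem_toZFSet_iff.2 hi, rfl⟩
  · intro b hb
    obtain ⟨u, hu, b, hbZ, h1, rfl, h2⟩ := π.of_pair_mem_hat S.GZ hb
    rw [π.hat_inj hiZ hu] at h1
    subst h1
    rw [pair_mem_gr, rank_toZFSet] at h2
    rw [h2.2]

theorem Pf4S.ex {x : ZFSet.{0}} (hx : x ∈ π.hat o.toZFSet) :
    ∃ i < o, i.toZFSet ∈ π.Z ∧ x = π.hat i.toZFSet := by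
  obtain ⟨z, hz, hzZ, rfl⟩ := π.mem_hat.1 hx
  obtain ⟨i, hi, rfl⟩ := mem_toZFSet_iff.1 hz
  exact ⟨i, hi, hzZ, rfl⟩

theorem Pf4S.lt {x y : ZFSet.{0}} (hxy : x ∈ y) (hy : y ∈ π.hat o.toZFSet) :
    ap (π.hat (gr (fun u => g u.rank) o.toZFSet)) x ≠
      ap (π.hat (gr (fun u => g u.rank) o.toZFSet)) y ∧
    pair (ap (π.hat (gr (fun u => g u.rank) o.toZFSet)) x)
      (ap (π.hat (gr (fun u => g u.rank) o.toZFSet)) y) ∈ π.hat R := by
  obtain ⟨i, hi, hiZ, rfl⟩ := S.ex (S.ordo.mem_trans hxy hy)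
  obtain ⟨j, hj, hjZ, rfl⟩ := S.ex hy
  rw [π.hat_mem_hat hiZ hjZ, toZFSet_mem_toZFSet_iff] at hxy
  obtain ⟨h1, h2⟩ := S.inc i j hxy hj
  rw [S.E hi hiZ, S.E hj hjZ]
  exact ⟨fun h => h1 ((π.hat_inj (S.gZ hi hiZ) (S.gZ hj hjZ)).1 h),
    (π.pair_mem_hat (S.gZ hi hiZ) (S.gZ hj hjZ) S.RZ).2 h2⟩

theorem Pf4S.bd {a : ZFSet.{0}} (ha : Fld (π.hat R) a) : ∃ x ∈ π.hat o.toZFSet,
    pair a (ap (π.hat (gr (fun u => g u.rank) o.toZFSet)) x) ∈ π.hat R := by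
  obtain ⟨a', ha', rfl, h1⟩ : ∃ a' ∈ π.Z, π.hat a' = a ∧ Fld R a' := by
    obtain ⟨b, hb | hb⟩ := ha
    · obtain ⟨a', ha', b', hb', rfl, rfl, h⟩ := π.of_pair_mem_hat S.RZ hb
      exact ⟨a', ha', rfl, b', Or.inl h⟩
    · obtain ⟨b', hb', a', ha', rfl, rfl, h⟩ := π.of_pair_mem_hat S.RZ hb
      exact ⟨a', ha', rfl, b', Or.inr h⟩
  obtain ⟨i, hi, hiZ, h2⟩ := S.cf a' ha' h1
  refine ⟨π.hat i.toZFSet, (π.hat_mem_hat hiZ S.oZ).2 (toZFSet_mem_toZFSet_iff.2 hi), ?_⟩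
  rw [S.E hi hiZ]
  exact (π.pair_mem_hat ha' (S.gZ hi hiZ) S.RZ).2 h2

/-- If the length of the sequence has cofinality `ω` in the extension, then so has `R`. -/
theorem Pf4S.cofW {h : ℕ → ZFSet.{0}} (hW : sqSet h ∈ π.W) (ho : ∀ n, h n ∈ π.hat o.toZFSet)
    (hc : ∀ x ∈ π.hat o.toZFSet, ∃ n, x ∈ h n) : CofW π.W (π.hat R) := by
  have hM := π.isZF_W
  have hlin := (pf4_isLin π S.RZ).2 S.lin
  set G := π.hat (gr (fun u => g u.rank) o.toZFSet) with hG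
  have hGW : G ∈ π.W := π.V_subset_W (π.of_hat_mem_V S.GZ)
  have hs : ∀ n, pf4Inc (sqSet h) (nat n) ∈ π.hat o.toZFSet := by
    intro n
    induction n with
    | zero =>
      rw [pf4_Inc_zero, pf4_ap_sqSet]
      exact ho 0
    | succ n ih =>
      rw [pf4_Inc_succ, pf4_ap_sqSet]
      exact pf4_union_mem S.ordo (S.sc_mem ih) (ho _)
  refine ⟨hlin, fun n => ap G (pf4Inc (sqSet h) (nat n)), ?_, ?_, ?_⟩
  · exact pf4_sqSet_mem hM (F := fun u => ap G (pf4Inc (sqSet h) u))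
      (hM.ap' (DfnF.const hGW) (pf4_dfn_Inc hM hW))
  · intro m n hmn
    exact S.lt (pf4_Inc_lt hmn) (hs n)
  · intro a ha
    obtain ⟨x, hx, h1⟩ := S.bd ha
    obtain ⟨n, hn⟩ := hc x hx
    have h2 : x ∈ pf4Inc (sqSet h) (nat n) := by
      refine pf4_mem_Inc.2 (Or.inr ?_)
      rw [pf4_ap_sqSet]
      exact hn
    exact ⟨n, hlin.1 _ _ _ h1 (S.lt h2 (hs n)).2⟩

/-- If `R` has cofinality `ω` in the extension, then so has the length of the sequence. -/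
theorem Pf4S.of_cofW (hR : CofW π.W (π.hat R)) : ∃ h : ℕ → ZFSet.{0}, sqSet h ∈ π.W ∧
    (∀ n, h n ∈ π.hat o.toZFSet) ∧ ∀ x ∈ π.hat o.toZFSet, ∃ n, x ∈ h n := by
  have hM := π.isZF_W
  obtain ⟨hlin, g', hg', hinc, hcof⟩ := hR
  set G := π.hat (gr (fun u => g u.rank) o.toZFSet) with hG
  have hGW : G ∈ π.W := π.V_subset_W (π.of_hat_mem_V S.GZ)
  have hRW : π.hat R ∈ π.W := π.V_subset_W (π.of_hat_mem_V S.RZ)
  have hoW : π.hat o.toZFSet ∈ π.W := π.V_subset_W (π.of_hat_mem_V S.oZ)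
  have hfld : ∀ n, Fld (π.hat R) (g' n) := fun n => ⟨_, Or.inl (hinc n (n + 1) (by omega)).2⟩
  have h0 : ∀ n, ∃ ζ ∈ π.W, ζ.IsOrdinal ∧ (ζ ∈ π.hat o.toZFSet ∧
      pair (ap (sqSet g') (nat n)) (ap G ζ) ∈ π.hat R) := by
    intro n
    obtain ⟨x, hx, h1⟩ := S.bd (hfld n)
    refine ⟨x, π.trans_W hoW hx, S.ordo.mem hx, hx, ?_⟩
    rw [pf4_ap_sqSet]
    exact h1
  refine ⟨fun n => lo π.W fun ζ => ζ ∈ π.hat o.toZFSet ∧
    pair (ap (sqSet g') (nat n)) (ap G ζ) ∈ π.hat R, ?_, fun n => (lo_spec (h0 n)).2.2.1, ?_⟩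
  · refine pf4_sqSet_mem hM (F := fun u => lo π.W fun ζ => ζ ∈ π.hat o.toZFSet ∧
      pair (ap (sqSet g') u) (ap G ζ) ∈ π.hat R) ?_
    refine hM.lo' (Q := fun ζ w => ζ ∈ π.hat o.toZFSet ∧
      pair (ap (sqSet g') (w 0)) (ap G ζ) ∈ π.hat R) ?_
    apply Dfn.and
    · exact Dfn.mem (DfnF.proj 0) (DfnF.const hoW)
    · refine Dfn.mem (hM.base.pair' (hM.ap' (DfnF.const hg') ?_) (hM.ap' (DfnF.const hGW)
        (DfnF.proj 0))) (DfnF.const hRW)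
      exact DfnF.proj 1
  · intro x hx
    have h1 : Fld (π.hat R) (ap G x) := ⟨_, Or.inl (S.lt (ZFSet.mem_insert _ _) (S.sc_mem hx)).2⟩
    obtain ⟨n, hn⟩ := hcof _ h1
    refine ⟨n + 1, ?_⟩
    obtain ⟨-, h3, h4, h5⟩ := lo_spec (h0 (n + 1))
    set y := lo π.W fun ζ => ζ ∈ π.hat o.toZFSet ∧
      pair (ap (sqSet g') (nat (n + 1))) (ap G ζ) ∈ π.hat R with hy
    rw [pf4_ap_sqSet] at h5
    obtain ⟨h6, h7⟩ := hinc n (n + 1) (by omega)
    rcases (S.ordo.mem hx).mem_or_subset h3 with h8 | h8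
    · exact h8
    · exfalso
      have h9 : pair (g' (n + 1)) (ap G x) ∈ π.hat R := by
        rcases (ZFSet.IsOrdinal.subset_iff_eq_or_mem h3 (S.ordo.mem hx)).1 h8 with h9 | h9
        · rw [← h9]
          exact h5
        · exact hlin.1 _ _ _ h5 (S.lt h9 hx).2
      have h10 := hlin.1 _ _ _ h9 hn
      exact h6 (hlin.2.2.1 _ _ h7 h10)

end

end Pool.Agent.helper797_cs
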