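import Pool.Agent.helper797_cs.PF4b
import Pool.Agent.helper797_cs.PF4c

/-! # F4, part d: the measure in the extension -/

set_option autoImplicit false
set_option linter.unreachableTactic false
set_option linter.unusedTactic false
set_option linter.unusedSectionVars false

namespace Pool.Agent.helper797_cs
open Pool.Agent.W868 Pool.Agent.R587
open ZFSet (pair)
open Cardinal Ordinal

/-- Choose cofinal sequences. -/
theorem pf4_data (C : Cardinal.{0} → Prop) : ∃ (σ : ZFSet.{0} → Cardinal.{0})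
    (g : ZFSet.{0} → Ordinal.{0} → ZFSet.{0}) (b : ZFSet.{0} → ZFSet.{0} → Ordinal.{0}),
    ∀ R, CofB C R → (σ R).IsRegular ∧ C (σ R) ∧
      (∀ i j, i < j → j < (σ R).ord → g R i ≠ g R j ∧ pair (g R i) (g R j) ∈ R) ∧
      ∀ a, Fld R a → b R a < (σ R).ord ∧ pair a (g R (b R a)) ∈ R := by
  classical
  have h : ∀ R : ZFSet.{0}, ∃ (c : Cardinal.{0}) (g : Ordinal.{0} → ZFSet.{0})
      (b : ZFSet.{0} → Ordinal.{0}), CofB C R → c.IsRegular ∧ C c ∧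
      (∀ i j, i < j → j < c.ord → g i ≠ g j ∧ pair (g i) (g j) ∈ R) ∧
      ∀ a, Fld R a → b a < c.ord ∧ pair a (g (b a)) ∈ R := by
    intro R
    by_cases hR : CofB C R
    · obtain ⟨hlin, c, hc, hC, g, h1, h2⟩ := hR
      choose! b hb using h2
      exact ⟨c, g, b, fun _ => ⟨hc, hC, h1, hb⟩⟩
    · exact ⟨0, fun _ => ∅, fun _ => 0, fun h => absurd h hR⟩
  choose σ g b h using h
  exact ⟨σ, g, b, h⟩

open Classical in
/-- The largest element. -/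
noncomputable def pf4Max (R : ZFSet.{0}) : ZFSet.{0} :=
  if h : ∃ a, Fld R a ∧ ∀ b, pair a b ∈ R → a = b then h.choose else ∅

open Classical in
/-- A counterexample. -/
noncomputable def pf4Cex (f ξ : ZFSet.{0}) : ZFSet.{0} :=
  if h : ∃ p, p ∈ f ∧ ∃ η X, p = pair η X ∧ ξ ∉ X then h.choose else ∅

section
variable {P : Type} [Preorder P] [OrderTop P] {π : Pkg P}

theorem pf4_nomax {R : ZFSet.{0}} (hR : R ∈ π.Z) (hm : pf4Max R ∈ π.Z)
    (h : CofW π.W (π.hat R)) :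
    (∃ a, Fld R a) ∧ ∀ a, Fld R a → ∃ b, pair a b ∈ R ∧ a ≠ b := by
  obtain ⟨hlin, g, hg, hinc, hcof⟩ := h
  constructor
  · obtain ⟨a, ha, b, hb, -, -, h1⟩ := π.of_pair_mem_hat hR (hinc 0 1 (by omega)).2
    exact ⟨a, b, Or.inl h1⟩
  · by_contra hc
    push Not at hc
    have h1 : pf4Max R = hc.choose := by
      rw [pf4Max, dif_pos hc]
    obtain ⟨h2, h3⟩ := hc.choose_spec
    rw [← h1] at h2 h3
    set m := pf4Max R with hmdef
    have hB := isBase_univ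
    have hd : Dfn π.Z Set.univ fun w : Fin 1 → ZFSet.{0} => pair m (w 0) ∈ R ∨ pair (w 0) m ∈ R := by
      (repeat' first
        | assumption
        | exact DfnF.proj _
        | exact DfnF.const (by assumption)
        | exact DfnF.const' (by first | assumption | trivial) (by first | assumption | trivial)
        | exact Dfn.prop _
        | apply Dfn.not | apply Dfn.and | apply Dfn.or | apply Dfn.imp | apply Dfn.iff
        | apply hB.bex | apply hB.ball | apply Dfn.ex | apply Dfn.all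
        | apply Dfn.eq | apply Dfn.mem | apply hB.pair')
    obtain ⟨b, hb, h4⟩ := π.exists_Z (Q := fun b => pair m b ∈ R ∨ pair b m ∈ R) hd h2
    have h5 : Fld (π.hat R) (π.hat m) := by
      rcases h4 with h4 | h4
      · exact ⟨π.hat b, Or.inl ((π.pair_mem_hat hm hb hR).2 h4)⟩
      · exact ⟨π.hat b, Or.inr ((π.pair_mem_hat hb hm hR).2 h4)⟩
    have h6 : ∀ c, pair (π.hat m) c ∈ π.hat R → c = π.hat m := by
      intro c hc
      obtain ⟨a', ha', c', hc', h7, rfl, h8⟩ := π.of_pair_mem_hat hR hc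
      rw [π.hat_inj hm ha'] at h7
      subst h7
      rw [← h3 c' h8]
    obtain ⟨n, hn⟩ := hcof _ h5
    obtain ⟨h7, h8⟩ := hinc n (n + 1) (by omega)
    apply h7
    rw [h6 _ hn, h6 _ (hlin.1 _ _ _ hn h8)]

/-- Cofinality in the extension. -/
theorem pf4_cof {B : Cardinal.{0} → Prop}
    (hcof : ∀ α : Ordinal.{0}, α.toZFSet ∈ π.Z → ℵ₀ ≤ α.cof →
        ((∃ g : ℕ → ZFSet.{0}, sqSet g ∈ π.W ∧ (∀ n, g n ∈ π.hat α.toZFSet) ∧
          ∀ x ∈ π.hat α.toZFSet, ∃ n, x ∈ g n) ↔ B α.cof))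
    {σ : Bool → ZFSet.{0} → Cardinal.{0}}
    {g : Bool → ZFSet.{0} → Ordinal.{0} → ZFSet.{0}}
    {b : Bool → ZFSet.{0} → ZFSet.{0} → Ordinal.{0}}
    (hdata : ∀ i : Bool, ∀ R, CofB (fun c => i = true ∨ B c) R →
      (σ i R).IsRegular ∧ (i = true ∨ B (σ i R)) ∧
      (∀ k j, k < j → j < (σ i R).ord → g i R k ≠ g i R j ∧ pair (g i R k) (g i R j) ∈ R) ∧
      ∀ a, Fld R a → b i R a < (σ i R).ord ∧ pair a (g i R (b i R a)) ∈ R)
    (h1 : ∀ i, ∀ R ∈ π.Z, (σ i R).ord.toZFSet ∈ π.Z)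
    (h2 : ∀ i, ∀ R ∈ π.Z, gr (fun u => g i R u.rank) (σ i R).ord.toZFSet ∈ π.Z)
    (h3 : ∀ i, ∀ R ∈ π.Z, ∀ a ∈ π.Z, (b i R a).toZFSet ∈ π.Z)
    (h4 : ∀ R ∈ π.Z, pf4Max R ∈ π.Z) {R : ZFSet.{0}} (hR : R ∈ π.Z) :
    CofW π.W (π.hat R) ↔ CofB B R := by
  have hS : ∀ i : Bool, CofB (fun c => i = true ∨ B c) R → Pf4S π R (σ i R).ord (g i R) := by
    intro i hi
    obtain ⟨h5, -, h6, h7⟩ := hdata i R hi
    exact ⟨hR, hi.1, Cardinal.isSuccLimit_ord h5.aleph0_le, h1 i R hR, h2 i R hR, h6,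
      fun a haZ ha => ⟨b i R a, (h7 a ha).1, h3 i R hR a haZ, (h7 a ha).2⟩⟩
  constructor
  · intro h
    obtain ⟨h5, h6⟩ := pf4_nomax hR (h4 R hR) h
    have h7 := pf4_exists_cof ((pf4_isLin π hR).1 h.1) h5 h6
    have h8 : CofB (fun c => true = true ∨ B c) R := by
      obtain ⟨hl, c, hc, -, g, hg⟩ := h7
      exact ⟨hl, c, hc, Or.inl rfl, g, hg⟩
    obtain ⟨h9, -, h10, h11⟩ := hdata true R h8
    have h12 := (hcof (σ true R).ord (h1 true R hR) (by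
      rw [h9.cof_ord]
      exact h9.aleph0_le)).1 ((hS true h8).of_cofW h)
    rw [h9.cof_ord] at h12
    exact ⟨h8.1, σ true R, h9, h12, g true R, h10, fun a ha => ⟨_, h11 a ha⟩⟩
  · intro h
    have h8 : CofB (fun c => false = true ∨ B c) R := by
      obtain ⟨hl, c, hc, hB, g, hg⟩ := h
      exact ⟨hl, c, hc, Or.inr hB, g, hg⟩
    obtain ⟨h9, h10, -, -⟩ := hdata false R h8
    obtain ⟨k, hk1, hk2, hk3⟩ := (hcof (σ false R).ord (h1 false R hR) (by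
      rw [h9.cof_ord]
      exact h9.aleph0_le)).2 (by
        rw [h9.cof_ord]
        exact h10.resolve_left (by simp))
    exact (hS false h8).cofW hk1 hk2 hk3

/-- The measure. -/
theorem pf4_meas {κ : Cardinal.{0}} {U : ZFSet.{0}} (hU : IsNormalMeasure κ U)
    (hκZ : κ.ord.toZFSet ∈ π.Z) (hUZ : U ∈ π.Z) {C : Set ZFSet.{0}}
    (hC : ∀ x ∈ C, ∃ y ∈ π.Z, π.hat y = x) (hUC : π.hat U ∈ C)
    (hdiff : ∀ x ∈ π.Z, ∀ y ∈ π.Z, x \ y ∈ π.Z)
    (hint : ∀ f ∈ π.Z, ∀ x ∈ π.Z, ZFSet.sep (fun ξ => ∀ η X, pair η X ∈ f → ξ ∈ X) x ∈ π.Z)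
    (hcex : ∀ f ∈ π.Z, ∀ ξ ∈ π.Z, pf4Cex f ξ ∈ π.Z) :
    MeasIn C (π.hat κ.ord.toZFSet) (π.hat U) where
  mem := hUC
  ord := π.hat_isOrdinal (ZFSet.isOrdinal_toZFSet _)
  unc := by
    rw [← π.hat_omega, π.hat_mem_hat π.omega_Z hκZ, omega_eq, toZFSet_mem_toZFSet_iff,
      Cardinal.lt_ord, card_omega0]
    exact hU.uncountable
  sub := by
    intro X' hX'
    obtain ⟨X, hX, hXZ, rfl⟩ := π.mem_hat.1 hX'
    exact π.hat_subset (hU.sub X hX)
  univ := (π.hat_mem_hat hκZ hUZ).2 hU.univ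
  emp := by
    rw [← π.hat_empty, π.hat_mem_hat π.empty_Z hUZ]
    exact hU.empty
  up := by
    intro X' hX' Y' hY hXY hYκ
    obtain ⟨X, hX, hXZ, rfl⟩ := π.mem_hat.1 hX'
    obtain ⟨Y, hYZ, rfl⟩ := hC Y' hY
    exact (π.hat_mem_hat hYZ hUZ).2 (hU.up X hX Y (π.subset_of_hat hκZ hYZ hYκ)
      (π.subset_of_hat hYZ hXZ hXY))
  ultra := by
    intro X hX hXκ
    obtain ⟨X, hXZ, rfl⟩ := hC X hX
    rcases hU.ultra X (π.subset_of_hat hκZ hXZ hXκ) with h | h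
    · exact Or.inl ((π.hat_mem_hat hXZ hUZ).2 h)
    · right
      have h1 : π.hat (κ.ord.toZFSet \ X) = π.hat κ.ord.toZFSet \ π.hat X := by
        ext z
        rw [ZFSet.mem_sdiff, π.mem_hat, π.mem_hat]
        constructor
        · rintro ⟨y, hy, hyZ, rfl⟩
          rw [ZFSet.mem_sdiff] at hy
          refine ⟨⟨y, hy.1, hyZ, rfl⟩, ?_⟩
          rw [π.hat_mem_hat hyZ hXZ]
          exact hy.2
        · rintro ⟨⟨y, hy, hyZ, rfl⟩, h2⟩
          rw [π.hat_mem_hat hyZ hXZ] at h2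
          exact ⟨y, ZFSet.mem_sdiff.2 ⟨hy, h2⟩, hyZ, rfl⟩
      rw [← h1]
      exact (π.hat_mem_hat (hdiff _ hκZ _ hXZ) hUZ).2 h
  nonprincipal := by
    intro ξ h
    obtain ⟨X, hX, hXZ, h1⟩ := π.mem_hat.1 h
    have h2 : ξ ∈ π.hat X := by
      rw [h1]
      exact ZFSet.mem_singleton.2 rfl
    obtain ⟨ζ, hζ, hζZ, rfl⟩ := π.mem_hat.1 h2
    have h3 : ({ζ, ζ} : ZFSet.{0}) = {ζ} := by
      ext z
      simp
    have h4 : ({ζ} : ZFSet.{0}) ∈ π.Z := by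
      rw [← h3]
      exact π.pair_Z hζZ hζZ
    have h5 : π.hat {ζ} = {π.hat ζ} := by
      rw [← h3, π.hat_pairset hζZ hζZ]
      ext z
      simp
    rw [← h5, π.hat_inj hXZ h4] at h1
    rw [h1] at hX
    exact hU.nonprincipal ζ hX
  complete := by
    intro γ hγ f hf hfun
    obtain ⟨γ, hγκ, hγZ, rfl⟩ := π.mem_hat.1 hγ
    obtain ⟨f, hfZ, rfl⟩ := hC f hf
    rw [pf4_isFunc π hγZ hUZ hfZ] at hfun
    have hTU : ZFSet.sep (fun ξ => ∀ η X, pair η X ∈ f → ξ ∈ X) κ.ord.toZFSet ∈ U := by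
      obtain ⟨β, hβ, rfl⟩ := mem_toZFSet_iff.1 hγκ
      have hex : ∀ z, ∃ w, z ∈ β.toZFSet → (pair z w ∈ f ∧ ∀ w', pair z w' ∈ f → w' = w) := by
        intro z
        by_cases hz : z ∈ β.toZFSet
        · obtain ⟨w, hw1, hw2⟩ := hfun.2 z hz
          exact ⟨w, fun _ => ⟨hw1, hw2⟩⟩
        · exact ⟨∅, fun h => absurd h hz⟩
      choose A hA using hex
      let e := equivShrink.{0} {z // z ∈ β.toZFSet}
      have hc : #(Shrink.{0} {z // z ∈ β.toZFSet}) < κ := by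
        have h1 := Ordinal.card_toZFSet β
        rw [ZFSet.card] at h1
        rw [h1]
        exact Cardinal.lt_ord.1 hβ
      have h2 := hU.complete (Shrink.{0} {z // z ∈ β.toZFSet}) (fun i => A (e.symm i).1) hc
        (fun i => by
          have h3 := hfun.1 (hA _ (e.symm i).2).1
          exact (ZFSet.pair_mem_prod.1 h3).2)
      have h3 : ZFSet.sep (fun ξ => ∀ η X, pair η X ∈ f → ξ ∈ X) κ.ord.toZFSet =
          ZFSet.sep (fun ξ => ∀ i : Shrink.{0} {z // z ∈ β.toZFSet}, ξ ∈ A (e.symm i).1)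
            κ.ord.toZFSet := by
        ext ξ
        rw [ZFSet.mem_sep, ZFSet.mem_sep]
        refine and_congr Iff.rfl ⟨fun h i => h _ _ (hA _ (e.symm i).2).1, fun h η X hηX => ?_⟩
        have h4 := (ZFSet.pair_mem_prod.1 (hfun.1 hηX)).1
        have h5 := h (e ⟨η, h4⟩)
        rw [e.symm_apply_apply] at h5
        rw [(hA η h4).2 X hηX]
        exact h5
      rw [h3]
      exact h2
    have hTZ := hint f hfZ _ hκZ
    have h1 : π.hat (ZFSet.sep (fun ξ => ∀ η X, pair η X ∈ f → ξ ∈ X) κ.ord.toZFSet) =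
        ZFSet.sep (fun ξ => ∀ η X, pair η X ∈ π.hat f → ξ ∈ X) (π.hat κ.ord.toZFSet) := by
      ext z
      rw [ZFSet.mem_sep, π.mem_hat, π.mem_hat]
      constructor
      · rintro ⟨ξ, hξ, hξZ, rfl⟩
        obtain ⟨h1, h2⟩ := ZFSet.mem_sep.1 hξ
        refine ⟨⟨ξ, h1, hξZ, rfl⟩, fun η X hηX => ?_⟩
        obtain ⟨η, hη, X, hX, rfl, rfl, h3⟩ := π.of_pair_mem_hat hfZ hηX
        exact (π.hat_mem_hat hξZ hX).2 (h2 η X h3)
      · rintro ⟨⟨ξ, hξ, hξZ, rfl⟩, h2⟩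
        refine ⟨ξ, ZFSet.mem_sep.2 ⟨hξ, ?_⟩, hξZ, rfl⟩
        by_contra hc
        push Not at hc
        obtain ⟨η, X, hηX, hξX⟩ := hc
        have h3 : ∃ p, p ∈ f ∧ ∃ η X, p = pair η X ∧ ξ ∉ X := ⟨_, hηX, η, X, rfl, hξX⟩
        have h4 := hcex f hfZ ξ hξZ
        rw [pf4Cex, dif_pos h3] at h4
        obtain ⟨h5, η', X', h6, h7⟩ := h3.choose_spec
        rw [h6] at h4 h5
        obtain ⟨h8, h9⟩ := π.of_pair_Z h4
        apply h7
        exact (π.hat_mem_hat hξZ h9).1 (h2 _ _ ((π.pair_mem_hat h8 h9 hfZ).2 h5))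
    rw [← h1]
    exact (π.hat_mem_hat hTZ hUZ).2 hTU

end

end Pool.Agent.helper797_cs
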