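import Pool.Agent.helper797_cs.PI1A

/-! # I1, second part: the iterated quantifier for almost all -/

set_option autoImplicit false
namespace Pool.Agent.helper797_cs
open Pool.Agent.W868 Pool.Agent.R587
open ZFSet (pair)
open Cardinal Order

variable {κ : Cardinal.{0}} {U : ZFSet.{0}}

/-! ## Lists -/

theorem pi1b_congr {l : List Ordinal.{0}} {P Q : Asg → Prop} {x y : Asg}
    (h : ∀ x' y' : Asg, (∀ j, j ∉ l → x' j = x j) → (∀ j, j ∉ l → y' j = y j) →
      (∀ j ∈ l, x' j = y' j) → (P x' ↔ Q y')) : AA U l P x ↔ AA U l Q y := by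
  induction l generalizing x y with
  | nil => exact h x y (fun _ _ => rfl) (fun _ _ => rfl) (by simp)
  | cons i l ih =>
    have : ∀ a, AA U l P (Function.update x i a) ↔ AA U l Q (Function.update y i a) := by
      intro a
      apply ih
      intro x' y' hx hy hl
      apply h
      · intro j hj
        rw [List.mem_cons, not_or] at hj
        rw [hx j hj.2, Function.update_of_ne hj.1]
      · intro j hj
        rw [List.mem_cons, not_or] at hj
        rw [hy j hj.2, Function.update_of_ne hj.1]
      · intro j hj
        by_cases hjl : j ∈ l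
        · exact hl j hjl
        · have hji : j = i := by simpa [hjl] using hj
          subst hji
          rw [hx j hjl, hy j hjl]
          simp
    simp only [AA, this]

theorem pi1b_append {l₁ l₂ : List Ordinal.{0}} {P : Asg → Prop} {x : Asg} :
    AA U (l₁ ++ l₂) P x ↔ AA U l₁ (fun y => AA U l₂ P y) x := by
  induction l₁ generalizing x with
  | nil => rfl
  | cons i l ih => simp only [List.cons_append, AA, ih]

theorem pi1b_supp {l : List Ordinal.{0}} {s : Finset Ordinal.{0}} {P : Asg → Prop}
    (hs : Supp s P) {x y : Asg} (h : ∀ j ∈ s, j ∉ l → x j = y j) :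
    AA U l P x ↔ AA U l P y := by
  apply pi1b_congr
  intro x' y' hx hy hl
  rw [hs x' y']
  intro j hj
  by_cases hjl : j ∈ l
  · exact hl j hjl
  · rw [hx j hjl, hy j hjl, h j hj hjl]

theorem pi1b_sort {s t : Finset Ordinal.{0}} (h : s ⊆ t) :
    (t.sort (· ≤ ·)).filter (· ∈ s) = s.sort (· ≤ ·) := by
  have h1 : ((t.sort (· ≤ ·)).filter (· ∈ s)).Nodup := (t.sort_nodup _).filter _
  have h2 := (List.toFinset_sort (· ≤ ·) h1).2 ((t.pairwise_sort _).filter _)
  rw [← h2]
  congr 1
  ext a
  simp only [List.mem_toFinset, List.mem_filter, Finset.mem_sort, decide_eq_true_eq]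
  exact ⟨fun h => h.2, fun h' => ⟨h h', h'⟩⟩

theorem pi1b_sort_split (s : Finset Ordinal.{0}) (i : Ordinal.{0}) :
    s.sort (· ≤ ·) = (s.filter (· < i)).sort (· ≤ ·) ++ (s.filter (i ≤ ·)).sort (· ≤ ·) := by
  have h1 : ((s.filter (· < i)).sort (· ≤ ·) ++ (s.filter (i ≤ ·)).sort (· ≤ ·)).Nodup := by
    refine List.Nodup.append (Finset.sort_nodup _ _) (Finset.sort_nodup _ _) ?_
    intro a h1 h2
    simp only [Finset.mem_sort, Finset.mem_filter] at h1 h2
    exact absurd h1.2 (not_lt.2 h2.2)
  have h2 := (List.toFinset_sort (· ≤ ·) h1).2 (by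
    rw [List.pairwise_append]
    refine ⟨Finset.pairwise_sort _ _, Finset.pairwise_sort _ _, ?_⟩
    intro a ha b hb
    simp only [Finset.mem_sort, Finset.mem_filter] at ha hb
    exact ha.2.le.trans hb.2)
  rw [← h2]
  congr 1
  ext a
  simp only [List.mem_toFinset, List.mem_append, Finset.mem_sort, Finset.mem_filter]
  constructor
  · intro h
    rcases lt_or_ge a i with h' | h'
    · exact Or.inl ⟨h, h'⟩
    · exact Or.inr ⟨h, h'⟩
  · rintro (h | h) <;> exact h.1

theorem pi1b_supp_mono {β : Type*} {s t : Finset Ordinal.{0}} {f : Asg → β} (h : s ⊆ t)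
    (hs : Supp s f) : Supp t f := fun x y hxy => hs x y fun i hi => hxy i (h hi)

theorem pi1b_aa_supp {l : List Ordinal.{0}} {s t : Finset Ordinal.{0}} {P : Asg → Prop}
    (hs : Supp s P) (ht : ∀ j ∈ s, j ∉ l → j ∈ t) : Supp t (fun x => AA U l P x) := by
  intro x y h
  exact propext (pi1b_supp hs fun j hj hjl => h j (ht j hj hjl))

section

variable (hU : IsNormalMeasure κ U)

include hU

theorem pi1b_zero : (0 : Ordinal.{0}) < κ.ord := by
  rw [Cardinal.lt_ord]
  simpa using (Cardinal.aleph0_pos.trans hU.uncountable)

theorem pi1b_const {p : Prop} : UQ U (fun _ => p) ↔ p := by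
  constructor
  · intro h
    obtain ⟨_, _, h⟩ := pi1a_ex hU h
    exact h
  · intro h
    exact ⟨_, hU.univ, fun _ _ => h⟩

theorem pi1b_mono {l : List Ordinal.{0}} {P Q : Asg → Prop} {x : Asg}
    (hx : ∀ i, x i < κ.ord)
    (h : ∀ y : Asg, (∀ i, y i < κ.ord) → P y → Q y) (hP : AA U l P x) : AA U l Q x := by
  induction l generalizing x with
  | nil => exact h x hx hP
  | cons i l ih =>
    refine uq_mono hU (fun α hα hh => ih (fun j => ?_) hh) hP
    by_cases hj : j = i
    · subst hj
      simpa using hα
    · rw [Function.update_of_ne hj]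
      exact hx j

theorem pi1b_and {l : List Ordinal.{0}} {P Q : Asg → Prop} {x : Asg} :
    AA U l (fun y => P y ∧ Q y) x ↔ AA U l P x ∧ AA U l Q x := by
  induction l generalizing x with
  | nil => rfl
  | cons i l ih =>
    simp only [AA, ih]
    exact uq_and hU

theorem pi1b_not {l : List Ordinal.{0}} {P : Asg → Prop} {x : Asg} :
    AA U l (fun y => ¬ P y) x ↔ ¬ AA U l P x := by
  induction l generalizing x with
  | nil => rfl
  | cons i l ih =>
    simp only [AA, ih]
    exact uq_not hU

theorem pi1b_all {l : List Ordinal.{0}} {ι : Type} (hι : #ι < κ) {P : ι → Asg → Prop} {x : Asg}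
    (h : ∀ j, AA U l (P j) x) : AA U l (fun y => ∀ j, P j y) x := by
  induction l generalizing x with
  | nil => exact h
  | cons i l ih =>
    have h1 := uq_all hU hι h
    exact uq_mono hU (fun α _ hh => ih hh) h1

theorem pi1b_ex {l : List Ordinal.{0}} {P : Asg → Prop} {x : Asg}
    (hx : ∀ i, x i < κ.ord) (h : AA U l P x) : ∃ y : Asg, (∀ i, y i < κ.ord) ∧ P y := by
  induction l generalizing x with
  | nil => exact ⟨x, hx, h⟩
  | cons i l ih =>
    obtain ⟨α, hα, h1⟩ := pi1a_ex hU h
    refine ih (fun j => ?_) h1
    by_cases hj : j = i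
    · subst hj
      simpa using hα
    · rw [Function.update_of_ne hj]
      exact hx j

theorem pi1b_filter {s : Finset Ordinal.{0}} {P : Asg → Prop} (hs : Supp s P)
    (l : List Ordinal.{0}) (x : Asg) : AA U l P x ↔ AA U (l.filter (· ∈ s)) P x := by
  induction l generalizing x with
  | nil => simp
  | cons i l ih =>
    by_cases hi : i ∈ s
    · rw [List.filter_cons_of_pos (by simpa using hi)]
      simp only [AA, ih]
    · rw [List.filter_cons_of_neg (by simpa using hi)]
      have : ∀ a, AA U l P (Function.update x i a) ↔ AA U (l.filter (· ∈ s)) P x := by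
        intro a
        rw [← ih]
        apply pi1b_supp hs
        intro j hj _
        rw [Function.update_of_ne]
        rintro rfl
        exact hi hj
      simp only [AA, this]
      exact pi1b_const hU

theorem pi1b_sub {s t : Finset Ordinal.{0}} (h : s ⊆ t) {P : Asg → Prop} (hs : Supp s P)
    (x : Asg) : AA U (t.sort (· ≤ ·)) P x ↔ AA U (s.sort (· ≤ ·)) P x := by
  rw [pi1b_filter hU hs, pi1b_sort h]

/-! ## The theorems -/

/-- The choice of the support does not matter. -/
theorem ae_iff {s : Finset Ordinal.{0}} {P : Asg → Prop} (hs : Supp s P) :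
    AE U P ↔ AA U (s.sort (· ≤ ·)) P fun _ => 0 := by
  classical
  constructor
  · rintro ⟨t, ht, h⟩
    rw [← pi1b_sub hU (Finset.subset_union_left (s₂ := t)) hs,
      pi1b_sub hU (Finset.subset_union_right (s₁ := s)) ht]
    exact h
  · intro h
    exact ⟨s, hs, h⟩

theorem ae_mono {P Q : Asg → Prop} (hQ : ∃ s, Supp s Q)
    (h : ∀ x : Asg, (∀ i, x i < κ.ord) → P x → Q x) (hPa : AE U P) : AE U Q := by
  classical
  obtain ⟨s, hs⟩ := hQ
  obtain ⟨t, ht, h1⟩ := hPa
  refine ⟨s ∪ t, pi1b_supp_mono Finset.subset_union_left hs, ?_⟩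
  refine pi1b_mono hU (fun _ => pi1b_zero hU) h ?_
  rw [pi1b_sub hU (Finset.subset_union_right (s₁ := s)) ht]
  exact h1

theorem ae_and {P Q : Asg → Prop} (hP : ∃ s, Supp s P) (hQ : ∃ s, Supp s Q) :
    AE U (fun x => P x ∧ Q x) ↔ AE U P ∧ AE U Q := by
  classical
  obtain ⟨s, hs⟩ := hP
  obtain ⟨t, ht⟩ := hQ
  have hs' : Supp (s ∪ t) P := pi1b_supp_mono Finset.subset_union_left hs
  have ht' : Supp (s ∪ t) Q := pi1b_supp_mono Finset.subset_union_right ht
  have hst : Supp (s ∪ t) (fun x => P x ∧ Q x) := by
    intro x y h
    simp only [hs' x y h, ht' x y h]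
  rw [ae_iff hU hst, ae_iff hU hs', ae_iff hU ht']
  exact pi1b_and hU

theorem ae_not {P : Asg → Prop} (hP : ∃ s, Supp s P) : AE U (fun x => ¬ P x) ↔ ¬ AE U P := by
  obtain ⟨s, hs⟩ := hP
  have hs' : Supp s (fun x => ¬ P x) := by
    intro x y h
    simp only [hs x y h]
  rw [ae_iff hU hs, ae_iff hU hs']
  exact pi1b_not hU

theorem ae_of_forall {P : Asg → Prop} (hP : ∃ s, Supp s P)
    (h : ∀ x : Asg, (∀ i, x i < κ.ord) → P x) : AE U P := by
  refine ae_mono hU hP (P := fun _ => True) (fun x hx _ => h x hx) ⟨∅, fun _ _ _ => rfl, ?_⟩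
  rw [Finset.sort_empty]
  trivial

theorem ae_exists {P : Asg → Prop} (h : AE U P) : ∃ x : Asg, (∀ i, x i < κ.ord) ∧ P x := by
  obtain ⟨s, _, h1⟩ := h
  exact pi1b_ex hU (fun _ => pi1b_zero hU) h1

theorem ae_all {ι : Type} (hι : #ι < κ) {s : Finset Ordinal.{0}} {P : ι → Asg → Prop}
    (hs : ∀ j, Supp s (P j)) (h : ∀ j, AE U (P j)) : AE U fun x => ∀ j, P j x := by
  refine ⟨s, ?_, pi1b_all hU hι fun j => (ae_iff hU (hs j)).1 (h j)⟩
  intro x y hxy
  simp only [fun j => hs j x y hxy]

/-- Fubini. -/
theorem ae_glue {P : Asg → Prop} (hP : ∃ s, Supp s P) (i : Ordinal.{0}) :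
    AE U P ↔ AE U fun x => AE U fun y => P fun j => if j < i then x j else y j := by
  obtain ⟨s, hs⟩ := hP
  have h2 : ∀ x : Asg, Supp (s.filter (i ≤ ·)) (fun y : Asg => P fun j => if j < i then x j else y j) := by
    intro x y y' hy
    apply hs
    intro j hj
    by_cases hji : j < i
    · simp [hji]
    · simp only [hji, if_false]
      exact hy j (Finset.mem_filter.2 ⟨hj, not_lt.1 hji⟩)
  have h1 : Supp (s.filter (· < i)) (fun x : Asg => AE U fun y => P fun j => if j < i then x j else y j) := by
    intro x x' hx
    have : (fun y : Asg => P fun j => if j < i then x j else y j) =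
        (fun y : Asg => P fun j => if j < i then x' j else y j) := by
      funext y
      apply hs
      intro j hj
      by_cases hji : j < i
      · simp only [hji, if_true]
        exact hx j (Finset.mem_filter.2 ⟨hj, hji⟩)
      · simp [hji]
    simp only [this]
  rw [ae_iff hU hs, ae_iff hU h1, pi1b_sort_split s i, pi1b_append]
  apply pi1b_congr
  intro x x' hx hx' hl
  rw [ae_iff hU (h2 x')]
  have key : ∀ (l : List Ordinal.{0}) (hl : ∀ j ∈ l, i ≤ j) (y : Asg),
      AA U l (fun y => P fun j => if j < i then x' j else y j) y ↔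
        AA U l P (fun j => if j < i then x' j else y j) := by
    intro l hl
    induction l with
    | nil => intro y; rfl
    | cons k l ih =>
      intro y
      have hk : i ≤ k := hl k (by simp)
      have : ∀ a, (fun j => if j < i then x' j else Function.update y k a j) =
          Function.update (fun j => if j < i then x' j else y j) k a := by
        intro a
        funext j
        by_cases hjk : j = k
        · subst hjk
          simp [not_lt.2 hk]
        · simp [Function.update_of_ne hjk]
      simp only [AA, ih (fun j hj => hl j (List.mem_cons_of_mem _ hj)), this]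
  rw [key _ (fun j hj => (Finset.mem_filter.1 ((Finset.mem_sort _).1 hj)).2)]
  apply pi1b_supp hs
  intro j hj hj2
  have hji : j < i := by
    by_contra hji
    exact hj2 ((Finset.mem_sort _).2 (Finset.mem_filter.2 ⟨hj, not_lt.1 hji⟩))
  simp only [hji, if_true]
  exact hl j ((Finset.mem_sort _).2 (Finset.mem_filter.2 ⟨hj, hji⟩))

omit hU in
theorem pi1b_sort_last {s : Finset Ordinal.{0}} {i : Ordinal.{0}} (hs : ∀ j ∈ s, j < i) :
    (insert i s).sort (· ≤ ·) = s.sort (· ≤ ·) ++ [i] := by
  rw [pi1b_sort_split (insert i s) i]
  congr 1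
  · congr 1
    ext j
    simp only [Finset.mem_filter, Finset.mem_insert]
    constructor
    · rintro ⟨h | h, h'⟩
      · exact absurd h' (by simp [h])
      · exact h
    · intro h
      exact ⟨Or.inr h, hs j h⟩
  · have : (insert i s).filter (i ≤ ·) = {i} := by
      ext j
      simp only [Finset.mem_filter, Finset.mem_insert, Finset.mem_singleton]
      constructor
      · rintro ⟨h | h, h'⟩
        · exact h
        · exact absurd h' (not_le.2 (hs j h))
      · rintro rfl
        exact ⟨Or.inl rfl, le_rfl⟩
    rw [this, Finset.sort_singleton]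

theorem ae_last {P : Asg → Prop} {s : Finset Ordinal.{0}} {i : Ordinal.{0}}
    (hs : ∀ j ∈ s, j < i) (hP : Supp (insert i s) P) :
    AE U P ↔ AE U fun x => UQ U fun a => P (Function.update x i a) := by
  have h1 : Supp s (fun x : Asg => UQ U fun a => P (Function.update x i a)) := by
    intro x x' hx
    have : ∀ a, P (Function.update x i a) = P (Function.update x' i a) := by
      intro a
      apply hP
      intro j hj
      by_cases hji : j = i
      · subst hji
        simp
      · rw [Function.update_of_ne hji, Function.update_of_ne hji]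
        exact hx j ((Finset.mem_insert.1 hj).resolve_left hji)
    simp only [this]
  rw [ae_iff hU hP, ae_iff hU h1, pi1b_sort_last hs, pi1b_append]
  rfl

/-- Countably many almost sure events (with different supports) occur simultaneously. -/
theorem ae_nat {P : ℕ → Asg → Prop} (h : ∀ n, AE U (P n)) :
    ∃ x : Asg, (∀ i, x i < κ.ord) ∧ ∀ n, P n x := by
  classical
  choose s hs h1 using h
  -- the values below `i`, extended by `0`
  let ext (i : Ordinal.{0}) (y : ∀ j, j < i → Ordinal.{0}) : Asg :=
    fun j => if hj : j < i then y j hj else 0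
  let good (i : Ordinal.{0}) (x : Asg) (a : Ordinal.{0}) : Prop :=
    a < κ.ord ∧ ∀ n, AA U (((s n).filter (i < ·)).sort (· ≤ ·)) (P n) (Function.update x i a)
  let step (i : Ordinal.{0}) (y : ∀ j, j < i → Ordinal.{0}) : Ordinal.{0} :=
    if hg : ∃ a, good i (ext i y) a then hg.choose else 0
  let x : Asg := WellFounded.fix (C := fun _ => Ordinal.{0}) Ordinal.lt_wf step
  have hx : ∀ i, x i = step i fun j _ => x j := fun i =>
    WellFounded.fix_eq (C := fun _ => Ordinal.{0}) Ordinal.lt_wf step i
  have hgood : ∀ i a, good i (ext i fun j _ => x j) a ↔ good i x a := by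
    intro i a
    apply and_congr Iff.rfl
    apply forall_congr'
    intro n
    apply pi1b_supp (hs n)
    intro j hj hjl
    by_cases hji : j = i
    · subst hji
      simp
    · rw [Function.update_of_ne hji, Function.update_of_ne hji]
      have : j < i := by
        by_contra hc
        exact hjl ((Finset.mem_sort _).2 (Finset.mem_filter.2
          ⟨hj, lt_of_le_of_ne (not_lt.1 hc) (Ne.symm hji)⟩))
      simp [ext, this]
  have main : ∀ i, good i x (x i) := by
    intro i
    induction i using WellFoundedLT.induction with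
    | ind i ih =>
      -- the invariant at `i`
      have inv : ∀ n, AA U (((s n).filter (i ≤ ·)).sort (· ≤ ·)) (P n) x := by
        intro n
        rcases ((s n).filter (· < i)).eq_empty_or_nonempty with he | hne
        · have : (s n).filter (i ≤ ·) = s n := by
            apply Finset.filter_true_of_mem
            intro j hj
            by_contra hc
            have : j ∈ (s n).filter (· < i) := Finset.mem_filter.2 ⟨hj, not_le.1 hc⟩
            simp [he] at this
          rw [this]
          refine (pi1b_supp (hs n) ?_).1 (h1 n)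
          intro j hj hj'
          exact absurd ((Finset.mem_sort _).2 hj) hj'
        · set j := ((s n).filter (· < i)).max' hne with hj
          have hjm : j ∈ (s n).filter (· < i) := Finset.max'_mem _ _
          have hji := (Finset.mem_filter.1 hjm).2
          have : (s n).filter (i ≤ ·) = (s n).filter (j < ·) := by
            ext k
            simp only [Finset.mem_filter]
            constructor
            · rintro ⟨h, h'⟩
              exact ⟨h, hji.trans_le h'⟩
            · rintro ⟨h, h'⟩
              refine ⟨h, ?_⟩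
              by_contra hc
              have := Finset.le_max' ((s n).filter (· < i)) k
                (Finset.mem_filter.2 ⟨h, not_le.1 hc⟩)
              exact absurd h' (not_lt.2 this)
          rw [this]
          have := (ih j hji).2 n
          rwa [Function.update_eq_self] at this
      have ex : ∃ a, good i x a := by
        have h3 : ∀ n, UQ U fun a =>
            AA U (((s n).filter (i < ·)).sort (· ≤ ·)) (P n) (Function.update x i a) := by
          intro n
          by_cases hi : i ∈ s n
          · have : (s n).filter (i ≤ ·) = insert i ((s n).filter (i < ·)) := by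
              ext k
              simp only [Finset.mem_filter, Finset.mem_insert]
              constructor
              · rintro ⟨h, h'⟩
                rcases eq_or_lt_of_le h' with h'' | h''
                · exact Or.inl h''.symm
                · exact Or.inr ⟨h, h''⟩
              · rintro (h | h)
                · subst h
                  exact ⟨hi, le_rfl⟩
                · exact ⟨h.1, h.2.le⟩
            have h4 := inv n
            rw [this, Finset.sort_insert] at h4
            · exact h4
            · intro b hb
              exact (Finset.mem_filter.1 hb).2.le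
            · simp
          · have : (s n).filter (i ≤ ·) = (s n).filter (i < ·) := by
              ext k
              simp only [Finset.mem_filter]
              constructor
              · rintro ⟨h, h'⟩
                exact ⟨h, lt_of_le_of_ne h' (by rintro rfl; exact hi h)⟩
              · rintro ⟨h, h'⟩
                exact ⟨h, h'.le⟩
            have h4 := inv n
            rw [this] at h4
            have h5 : ∀ a, AA U (((s n).filter (i < ·)).sort (· ≤ ·)) (P n)
                (Function.update x i a) := by
              intro a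
              refine (pi1b_supp (hs n) ?_).1 h4
              intro j hj _
              rw [Function.update_of_ne]
              rintro rfl
              exact hi hj
            exact ⟨_, hU.univ, fun a _ => h5 a⟩
        have h6 := uq_all hU (ι := ℕ) (by rw [Cardinal.mk_nat]; exact hU.uncountable) h3
        obtain ⟨a, ha, h7⟩ := pi1a_ex hU h6
        exact ⟨a, ha, h7⟩
      have ex' : ∃ a, good i (ext i fun j _ => x j) a := by
        obtain ⟨a, ha⟩ := ex
        exact ⟨a, (hgood i a).2 ha⟩
      have hxi : x i = ex'.choose := by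
        rw [hx i]
        exact dif_pos ex'
      rw [hxi]
      have := (hgood i _).1 ex'.choose_spec
      exact this
  refine ⟨x, fun i => (main i).1, fun n => ?_⟩
  rcases (s n).eq_empty_or_nonempty with he | hne
  · have := h1 n
    rw [he, Finset.sort_empty] at this
    rw [hs n x (fun _ => 0) (by simp [he])]
    exact this
  · have := (main ((s n).max' hne)).2 n
    have he : (s n).filter ((s n).max' hne < ·) = ∅ := by
      apply Finset.filter_false_of_mem
      intro j hj
      exact not_lt.2 (Finset.le_max' _ _ hj)
    rw [he, Finset.sort_empty, Function.update_eq_self] at this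
    exact this

/-- The iterated quantifier on tuples. -/
def pi1bUU (U : ZFSet.{0}) : (m : ℕ) → ((Fin m → Ordinal.{0}) → Prop) → Prop
  | 0, Q => Q ![]
  | m + 1, Q => UQ U fun a => pi1bUU U m fun w => Q (Fin.cons a w)

omit hU in
theorem pi1b_ofFn {m : ℕ} {a : Fin m → Ordinal.{0}} (ha : Function.Injective a)
    (Q : (Fin m → Ordinal.{0}) → Prop) (x : Asg) :
    AA U (List.ofFn a) (fun x' => Q fun l => x' (a l)) x ↔ pi1bUU U m Q := by
  induction m generalizing x with
  | zero =>
    simp only [List.ofFn_zero, AA, pi1bUU]
    rw [Subsingleton.elim (fun l => x (a l)) ![]]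
  | succ m ih =>
    rw [List.ofFn_succ]
    simp only [AA, pi1bUU]
    have : ∀ c, AA U (List.ofFn fun i : Fin m => a i.succ) (fun x' => Q fun l => x' (a l))
        (Function.update x (a 0) c) ↔ pi1bUU U m fun w => Q (Fin.cons c w) := by
      intro c
      rw [← ih (a := fun i => a i.succ) (fun i j hij => Fin.succ_injective _ (ha hij)) _
        (Function.update x (a 0) c)]
      apply pi1b_congr
      intro x' y' hx hy hl
      have h0 : a 0 ∉ List.ofFn fun i : Fin m => a i.succ := by
        rw [List.mem_ofFn]
        rintro ⟨k, hk⟩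
        exact absurd (ha hk) (Fin.succ_ne_zero k)
      have h1 := hx _ h0
      rw [Function.update_self] at h1
      have : (fun l => x' (a l)) = Fin.cons c fun l : Fin m => y' (a l.succ) := by
        funext l
        refine Fin.cases ?_ (fun k => ?_) l
        · simpa using h1
        · simp only [Fin.cons_succ]
          exact hl _ (List.mem_ofFn.2 ⟨k, rfl⟩)
      rw [this]
    simp only [this]

theorem pi1b_rename_aux {i : Ordinal.{0}} {s : Finset Ordinal.{0}} (hs : ∀ j ∈ s, j < i) {m : ℕ}
    {P : Asg → (Fin m → Ordinal.{0}) → Prop} (hP : ∀ w, Supp s fun x => P x w)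
    {a : Fin m → Ordinal.{0}} (ha : StrictMono a) (hai : ∀ l, i ≤ a l) :
    AE U (fun x => P x fun l => x (a l)) ↔
      AA U (s.sort (· ≤ ·)) (fun x => pi1bUU U m (P x)) fun _ => 0 := by
  classical
  have hsup : Supp (s ∪ (List.ofFn a).toFinset) (fun x => P x fun l => x (a l)) := by
    intro x y hxy
    have h1 : (fun l => x (a l)) = fun l => y (a l) := by
      funext l
      apply hxy
      rw [Finset.mem_union, List.mem_toFinset, List.mem_ofFn]
      exact Or.inr ⟨l, rfl⟩
    show P x _ = P y _
    rw [h1]
    exact hP _ x y fun j hj => hxy j (Finset.mem_union_left _ hj)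
  rw [ae_iff hU hsup]
  have hsort : (s ∪ (List.ofFn a).toFinset).sort (· ≤ ·) = s.sort (· ≤ ·) ++ List.ofFn a := by
    have h1 : (s.sort (· ≤ ·) ++ List.ofFn a).Nodup := by
      refine List.Nodup.append (Finset.sort_nodup _ _) (List.nodup_ofFn.2 ha.injective) ?_
      intro b hb hb'
      rw [Finset.mem_sort] at hb
      obtain ⟨k, rfl⟩ := List.mem_ofFn.1 hb'
      exact absurd (hs _ hb) (not_lt.2 (hai k))
    have h2 := (List.toFinset_sort (· ≤ ·) h1).2 (by
      rw [List.pairwise_append]
      refine ⟨Finset.pairwise_sort _ _, ?_, ?_⟩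
      · rw [List.pairwise_ofFn]
        intro k l hkl
        exact (ha hkl).le
      · intro b hb c hc
        rw [Finset.mem_sort] at hb
        obtain ⟨k, rfl⟩ := List.mem_ofFn.1 hc
        exact (hs _ hb).le.trans (hai k))
    rw [← h2]
    congr 1
    ext b
    simp
  rw [hsort, pi1b_append]
  apply pi1b_congr
  intro x y hx hy hl
  have hxy : ∀ w, P x w = P y w := fun w => hP w x y fun j hj => hl j ((Finset.mem_sort _).2 hj)
  rw [← pi1b_ofFn ha.injective (P y) x]
  apply pi1b_congr
  intro x' y' hx' hy' hl'
  have h1 : (fun l => x' (a l)) = fun l => y' (a l) := by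
    funext l
    exact hl' _ (List.mem_ofFn.2 ⟨l, rfl⟩)
  have h2 : ∀ w, P x' w = P x w := by
    intro w
    refine hP w x' x fun j hj => hx' j ?_
    rw [List.mem_ofFn]
    rintro ⟨k, rfl⟩
    exact absurd (hs _ hj) (not_lt.2 (hai k))
  rw [h1, ← hxy, h2]

/-- Indiscernibility. -/
theorem ae_rename {i : Ordinal.{0}} {s : Finset Ordinal.{0}} (hs : ∀ j ∈ s, j < i) {m : ℕ}
    {P : Asg → (Fin m → Ordinal.{0}) → Prop} (hP : ∀ w, Supp s fun x => P x w)
    {a b : Fin m → Ordinal.{0}} (ha : StrictMono a) (hb : StrictMono b) (hai : ∀ l, i ≤ a l)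
    (hbi : ∀ l, i ≤ b l) :
    AE U (fun x => P x fun l => x (a l)) ↔ AE U fun x => P x fun l => x (b l) := by
  rw [pi1b_rename_aux hU hs hP ha hai, pi1b_rename_aux hU hs hP hb hbi]

end

end Pool.Agent.helper797_cs
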