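import Pool.Agent.helper797_cs.PI1B

/-! # I1, third part: regressive functions -/

set_option autoImplicit false
namespace Pool.Agent.helper797_cs
open Pool.Agent.W868 Pool.Agent.R587
open ZFSet (pair)
open Cardinal Order

variable {κ : Cardinal.{0}} {U : ZFSet.{0}} (hU : IsNormalMeasure κ U)

include hU

/-- A function with values in a small set is constant almost everywhere. -/
theorem I1C_ae_pick {F : Asg → ZFSet.{0}} {s : Finset Ordinal.{0}} (hs : Supp s F) {D : ZFSet.{0}}
    (hD : D.card < κ) (h : AE U fun y => F y ∈ D) : ∃ z ∈ D, AE U fun y => F y = z := by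
  by_contra hcon
  push Not at hcon
  have h1 : AE U fun y => ∀ j : Shrink.{0} D, F y ≠ (((equivShrink D).symm j : D) : ZFSet.{0}) := by
    apply ae_all hU (ι := Shrink.{0} D) hD (s := s)
    · intro j x y hxy
      show (F x ≠ _) = (F y ≠ _)
      rw [hs x y hxy]
    · intro j
      refine (ae_not hU ⟨s, ?_⟩).2 (hcon _ ((equivShrink D).symm j).2)
      intro x y hxy
      show (F x = _) = (F y = _)
      rw [hs x y hxy]
  have h2 := (ae_and hU (P := fun y => F y ∈ D)
    (Q := fun y => ∀ j : Shrink.{0} D, F y ≠ (((equivShrink D).symm j : D) : ZFSet.{0}))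
    ⟨s, fun x y hxy => by show (F x ∈ D) = (F y ∈ D); rw [hs x y hxy]⟩
    ⟨s, fun x y hxy => by
      show (∀ j : Shrink.{0} D, F x ≠ _) = (∀ j : Shrink.{0} D, F y ≠ _)
      rw [hs x y hxy]⟩).2 ⟨h, h1⟩
  obtain ⟨x, -, hx1, hx2⟩ := ae_exists hU h2
  exact hx2 (equivShrink D ⟨F x, hx1⟩) (by simp)

theorem I1C_uq_exists {P : Ordinal.{0} → Prop} (h : UQ U P) : ∃ α < κ.ord, P α := by
  by_contra hcon
  push Not at hcon
  exact (uq_not hU (P := P)).1 (uq_mono hU (fun α hα hP => absurd hP (hcon α hα)) h) h

theorem I1C_uq_pick {F : Ordinal.{0} → ZFSet.{0}} {D : ZFSet.{0}}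
    (hD : D.card < κ) (h : UQ U fun y => F y ∈ D) : ∃ z ∈ D, UQ U fun y => F y = z := by
  by_contra hcon
  push Not at hcon
  have h1 : UQ U fun y => ∀ j : Shrink.{0} D, F y ≠ (((equivShrink D).symm j : D) : ZFSet.{0}) := by
    apply uq_all hU (ι := Shrink.{0} D) hD
    intro j
    exact (uq_not hU).2 (hcon _ ((equivShrink D).symm j).2)
  obtain ⟨x, -, hx1, hx2⟩ := I1C_uq_exists hU ((uq_and hU).2 ⟨h, h1⟩)
  exact hx2 (equivShrink D ⟨F x, hx1⟩) (by simp)

omit hU in
theorem I1C_glue_congr {s : Finset Ordinal.{0}} {f : Asg → ZFSet.{0}} (hs : Supp s f)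
    {i : Ordinal.{0}} {x x' : Asg} (hx : ∀ j ∈ s, j < i → x j = x' j) (y : Asg) :
    f (fun j => if j < i then x j else y j) = f (fun j => if j < i then x' j else y j) := by
  apply hs
  intro j hj
  by_cases h : j < i
  · rw [if_pos h, if_pos h, hx j hj h]
  · rw [if_neg h, if_neg h]

omit hU in
theorem I1C_glue_supp {s : Finset Ordinal.{0}} {f : Asg → ZFSet.{0}} (hs : Supp s f)
    (i : Ordinal.{0}) (x : Asg) : Supp s fun y => f (fun j => if j < i then x j else y j) := by
  intro y y' hy
  apply hs
  intro j hj
  by_cases h : j < i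
  · rw [if_pos h, if_pos h]
  · rw [if_neg h, if_neg h, hy j hj]

/-- Regressive functions. -/
theorem regress {B : Ordinal.{0} → ZFSet.{0}} (hc : ∀ α < κ.ord, (B α).card < κ)
    (hl : ∀ α, IsSuccLimit α → ∀ z ∈ B α, ∃ β < α, z ∈ B β) {s : Finset Ordinal.{0}}
    {f : Asg → ZFSet.{0}} (hs : Supp s f) {i : Ordinal.{0}} (h : AE U fun x => f x ∈ B (x i)) :
    ∃ g : Asg → ZFSet.{0}, Supp (s.filter (· < i)) g ∧ (∀ x, ∃ y, g x = f y) ∧
      AE U fun x => f x = g x := by
  classical
  set s₀ : Finset Ordinal.{0} := s.filter (· < i) with hs₀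
  have hs₀i : ∀ j ∈ s₀, j < i := fun j hj => (Finset.mem_filter.1 hj).2
  -- `G x` : the function of the coordinates after `i`
  let G : Asg → Asg → ZFSet.{0} := fun x y => f (fun j => if j < Order.succ i then x j else y j)
  have hGs : ∀ x, Supp s (G x) := fun x => I1C_glue_supp hs (Order.succ i) x
  have hGc : ∀ x x' : Asg, (∀ j ∈ insert i s₀, x j = x' j) → G x = G x' := by
    intro x x' hxx
    funext y
    apply I1C_glue_congr hs
    intro j hj hji
    rw [Order.lt_succ_iff] at hji
    rcases hji.lt_or_eq with h1 | h1
    · exact hxx j (Finset.mem_insert_of_mem (Finset.mem_filter.2 ⟨hj, h1⟩))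
    · rw [h1]
      exact hxx i (Finset.mem_insert_self _ _)
  -- the first step
  have hPs : Supp (insert i s) fun x => f x ∈ B (x i) := by
    intro x y hxy
    show (f x ∈ B (x i)) = (f y ∈ B (y i))
    rw [hs x y (fun j hj => hxy j (Finset.mem_insert_of_mem hj)),
      hxy i (Finset.mem_insert_self _ _)]
  have h1 := (ae_glue hU ⟨_, hPs⟩ (Order.succ i)).1 h
  have h2 : AE U fun x => ∃ z ∈ B (x i), AE U fun y => G x y = z := by
    refine ae_mono hU ⟨insert i s₀, ?_⟩ ?_ h1
    · intro x x' hxx
      show (∃ z ∈ B (x i), AE U fun y => G x y = z) = (∃ z ∈ B (x' i), AE U fun y => G x' y = z)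
      rw [hGc x x' hxx, hxx i (Finset.mem_insert_self _ _)]
    · intro x hx hxa
      refine I1C_ae_pick hU (hGs x) (hc _ (hx i)) ?_
      have h3 : (if i < Order.succ i then x i else 0) = x i := if_pos (Order.lt_succ i)
      have h4 : (fun y : Asg => f (fun j => if j < Order.succ i then x j else y j) ∈
          B (if i < Order.succ i then x i else y i)) = fun y => G x y ∈ B (x i) := by
        funext y
        rw [if_pos (Order.lt_succ i)]
      rw [← h4]
      exact hxa
  -- the coordinate `i`
  have hKs : Supp (insert i s₀) fun x => ∃ z ∈ B (x i), AE U fun y => G x y = z := by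
    intro x x' hxx
    show (∃ z ∈ B (x i), AE U fun y => G x y = z) = (∃ z ∈ B (x' i), AE U fun y => G x' y = z)
    rw [hGc x x' hxx, hxx i (Finset.mem_insert_self _ _)]
  have h3 := (ae_last hU hs₀i hKs).1 h2
  let T : Asg → ZFSet.{0} → Prop := fun x z =>
    UQ U fun a => AE U fun y => G (Function.update x i a) y = z
  have hTc : ∀ x x' : Asg, (∀ j ∈ s₀, x j = x' j) → T x = T x' := by
    intro x x' hxx
    funext z
    show (UQ U fun a => AE U fun y => G (Function.update x i a) y = z) =
      (UQ U fun a => AE U fun y => G (Function.update x' i a) y = z)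
    have h4 : ∀ a, G (Function.update x i a) = G (Function.update x' i a) := by
      intro a
      apply hGc
      intro j hj
      by_cases hji : j = i
      · subst hji
        rw [Function.update_self, Function.update_self]
      · rw [Function.update_of_ne hji, Function.update_of_ne hji]
        exact hxx j (Finset.mem_of_mem_insert_of_ne hj hji)
    simp only [h4]
  have h5 : AE U fun x => ∃ z, T x z := by
    refine ae_mono hU ⟨s₀, ?_⟩ ?_ h3
    · intro x x' hxx
      show (∃ z, T x z) = (∃ z, T x' z)
      rw [hTc x x' hxx]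
    · intro x hx hxa
      -- the value
      let hh : Ordinal.{0} → ZFSet.{0} := fun a =>
        if hz : ∃ z, z ∈ B a ∧ AE U fun y => G (Function.update x i a) y = z then hz.choose else ∅
      let β : Ordinal.{0} → Ordinal.{0} := fun a =>
        if hb : ∃ b, b < a ∧ hh a ∈ B b then hb.choose else 0
      have hhs : UQ U fun a => (hh a ∈ B a ∧ AE U fun y => G (Function.update x i a) y = hh a) := by
        refine uq_mono hU ?_ hxa
        rintro a ha ⟨z, hz, hza⟩
        rw [Function.update_self] at hz
        have hz' : ∃ z, z ∈ B a ∧ AE U fun y => G (Function.update x i a) y = z := ⟨z, hz, hza⟩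
        have h6 : hh a = hz'.choose := dif_pos hz'
        rw [h6]
        exact hz'.choose_spec
      have hβ : UQ U fun a => β a < a ∧ hh a ∈ B (β a) := by
        refine uq_mono hU ?_ ((uq_and hU).2 ⟨hhs, uq_lim hU⟩)
        rintro a ha ⟨⟨h6, -⟩, h7⟩
        have hb : ∃ b, b < a ∧ hh a ∈ B b := hl a h7 _ h6
        have h8 : β a = hb.choose := dif_pos hb
        rw [h8]
        exact hb.choose_spec
      obtain ⟨β₀, hβ₀, hβ₁⟩ := uq_normal hU (f := β) (uq_mono hU (fun a _ h6 => h6.1) hβ)
      have h6 : UQ U fun a => hh a ∈ B β₀ := by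
        refine uq_mono hU ?_ ((uq_and hU).2 ⟨hβ, hβ₁⟩)
        rintro a ha ⟨⟨-, h7⟩, h8⟩
        rw [h8] at h7
        exact h7
      obtain ⟨z, -, hz⟩ := I1C_uq_pick hU (hc β₀ hβ₀) h6
      refine ⟨z, ?_⟩
      refine uq_mono hU ?_ ((uq_and hU).2 ⟨hhs, hz⟩)
      rintro a ha ⟨⟨-, h7⟩, h8⟩
      rw [h8] at h7
      exact h7
  let g : Asg → ZFSet.{0} := fun x => if hz : ∃ z, T x z then hz.choose else f fun _ => 0
  have hg : ∀ x, (∃ z, T x z) → T x (g x) := by
    intro x hz
    have h6 : g x = hz.choose := dif_pos hz
    rw [h6]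
    exact hz.choose_spec
  have hgs : Supp s₀ g := by
    intro x x' hxx
    have h6 := hTc x x' hxx
    show (if hz : ∃ z, T x z then hz.choose else f fun _ => 0) =
      (if hz : ∃ z, T x' z then hz.choose else f fun _ => 0)
    simp only [h6]
  refine ⟨g, hgs, ?_, ?_⟩
  · intro x
    by_cases hz : ∃ z, T x z
    · obtain ⟨a, -, ha⟩ := I1C_uq_exists hU (hg x hz)
      obtain ⟨y, -, hy⟩ := ae_exists hU ha
      exact ⟨_, hy.symm⟩
    · exact ⟨fun _ => 0, dif_neg hz⟩
  · -- the equality holds almost everywhere
    have hQs : Supp s fun x => f x = g x := by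
      intro x y hxy
      show (f x = g x) = (f y = g y)
      rw [hs x y hxy, hgs x y fun j hj => hxy j (Finset.mem_of_mem_filter j hj)]
    rw [ae_glue hU ⟨s, hQs⟩ (Order.succ i)]
    have hgg : ∀ x y : Asg, g (fun j => if j < Order.succ i then x j else y j) = g x := by
      intro x y
      apply hgs
      intro j hj
      exact if_pos ((hs₀i j hj).trans (Order.lt_succ i))
    have hRs : Supp (insert i s₀) fun x => AE U fun y => G x y = g x := by
      intro x x' hxx
      show (AE U fun y => G x y = g x) = (AE U fun y => G x' y = g x')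
      rw [hGc x x' hxx, hgs x x' fun j hj => hxx j (Finset.mem_insert_of_mem hj)]
    have h6 : AE U fun x => AE U fun y => G x y = g x := by
      rw [ae_last hU hs₀i hRs]
      refine ae_mono hU ⟨s₀, ?_⟩ ?_ h5
      · intro x x' hxx
        show (UQ U fun a => AE U fun y => G (Function.update x i a) y =
            g (Function.update x i a)) =
          (UQ U fun a => AE U fun y => G (Function.update x' i a) y =
            g (Function.update x' i a))
        have h7 : ∀ a, G (Function.update x i a) = G (Function.update x' i a) := by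
          intro a
          apply hGc
          intro j hj
          by_cases hji : j = i
          · subst hji
            rw [Function.update_self, Function.update_self]
          · rw [Function.update_of_ne hji, Function.update_of_ne hji]
            exact hxx j (Finset.mem_of_mem_insert_of_ne hj hji)
        have h8 : ∀ a, g (Function.update x i a) = g (Function.update x' i a) := by
          intro a
          apply hgs
          intro j hj
          rw [Function.update_of_ne (hs₀i j hj).ne, Function.update_of_ne (hs₀i j hj).ne]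
          exact hxx j hj
        simp only [h7, h8]
      · intro x hx hz
        have h7 := hg x hz
        have h8 : ∀ a, g (Function.update x i a) = g x := by
          intro a
          apply hgs
          intro j hj
          rw [Function.update_of_ne (hs₀i j hj).ne]
        show UQ U fun a => AE U fun y => G (Function.update x i a) y = g (Function.update x i a)
        simp only [h8]
        exact h7
    have h7 : (fun x => AE U fun y => G x y = g x) = fun x => AE U fun y =>
        f (fun j => if j < Order.succ i then x j else y j) =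
          g (fun j => if j < Order.succ i then x j else y j) := by
      funext x
      congr 1
      funext y
      rw [hgg]
    rw [← h7]
    exact h6

end Pool.Agent.helper797_cs
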