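import Pool.Agent.helper797_cs.PI1A
import Pool.Agent.helper797_cs.PI1B
import Pool.Agent.helper797_cs.PI1C

/-! # The quantifiers for almost all: all parts -/
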