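import Pool.Agent.helper797_cs.MDefs

/-! # I1, first part: the quantifier for almost all -/

set_option autoImplicit false
namespace Pool.Agent.helper797_cs
open Pool.Agent.W868 Pool.Agent.R587
open ZFSet (pair)
open Cardinal Order

variable {κ : Cardinal.{0}} {U : ZFSet.{0}} (hU : IsNormalMeasure κ U)

include hU

theorem pi1a_lt {X : ZFSet.{0}} (hX : X ∈ U) {α : Ordinal.{0}} (hα : α.toZFSet ∈ X) :
    α < κ.ord := Ordinal.toZFSet_mem_toZFSet_iff.1 (hU.sub X hX hα)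

theorem uq_iff (P : Ordinal.{0} → Prop) : UQ U P ↔
    ZFSet.sep (fun z => ∃ α : Ordinal.{0}, z = α.toZFSet ∧ P α) κ.ord.toZFSet ∈ U := by
  constructor
  · rintro ⟨X, hX, h⟩
    refine hU.up X hX _ (fun y hy => (ZFSet.mem_sep.1 hy).1) fun z hz => ?_
    have h1 := hU.sub X hX hz
    obtain ⟨a, -, rfl⟩ := Ordinal.mem_toZFSet_iff.1 h1
    exact ZFSet.mem_sep.2 ⟨h1, a, rfl, h a hz⟩
  · intro h
    refine ⟨_, h, fun α hα => ?_⟩
    obtain ⟨-, β, h1, h2⟩ := ZFSet.mem_sep.1 hα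
    rw [Ordinal.toZFSet_injective h1]
    exact h2

theorem uq_mono {P Q : Ordinal.{0} → Prop} (h : ∀ α < κ.ord, P α → Q α) (hP : UQ U P) :
    UQ U Q := by
  obtain ⟨X, hX, h1⟩ := hP
  exact ⟨X, hX, fun α hα => h α (pi1a_lt hU hX hα) (h1 α hα)⟩

theorem uq_all {ι : Type} (hι : #ι < κ) {P : ι → Ordinal.{0} → Prop} (h : ∀ i, UQ U (P i)) :
    UQ U fun α => ∀ i, P i α := by
  choose X hX h1 using h
  refine ⟨_, hU.complete ι X hι hX, fun α hα i => ?_⟩
  exact h1 i α ((ZFSet.mem_sep.1 hα).2 i)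

theorem uq_and {P Q : Ordinal.{0} → Prop} : UQ U (fun α => P α ∧ Q α) ↔ UQ U P ∧ UQ U Q := by
  constructor
  · intro h
    exact ⟨uq_mono hU (fun _ _ h1 => h1.1) h, uq_mono hU (fun _ _ h1 => h1.2) h⟩
  · rintro ⟨hP, hQ⟩
    have h2 : #Bool < κ := (Cardinal.lt_aleph0_of_finite Bool).trans hU.uncountable
    have h3 := uq_all hU h2 (P := fun b α => if b = true then P α else Q α) (by
      intro b
      cases b
      · simpa using hQ
      · simpa using hP)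
    refine uq_mono hU (fun α _ h4 => ⟨?_, ?_⟩) h3
    · simpa using h4 true
    · simpa using h4 false

theorem pi1a_ex {P : Ordinal.{0} → Prop} (h : UQ U P) : ∃ α < κ.ord, P α := by
  obtain ⟨X, hX, h1⟩ := h
  by_contra hcon
  push Not at hcon
  have h2 : X = ∅ := by
    refine (ZFSet.eq_empty _).2 fun y hy => ?_
    obtain ⟨a, ha, rfl⟩ := Ordinal.mem_toZFSet_iff.1 (hU.sub X hX hy)
    exact hcon a ha (h1 a hy)
  exact hU.empty (h2 ▸ hX)

theorem uq_not {P : Ordinal.{0} → Prop} : UQ U (fun α => ¬ P α) ↔ ¬ UQ U P := by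
  constructor
  · intro h1 h2
    obtain ⟨α, -, h3, h4⟩ := pi1a_ex hU ((uq_and hU).2 ⟨h1, h2⟩)
    exact h3 h4
  · intro h
    rw [uq_iff hU] at h
    rcases hU.ultra _ (fun y hy => (ZFSet.mem_sep.1 hy).1) with h1 | h1
    · exact absurd h1 h
    · refine ⟨_, h1, fun α hα hP => ?_⟩
      rw [ZFSet.mem_sdiff] at hα
      exact hα.2 (ZFSet.mem_sep.2 ⟨hα.1, α, rfl, hP⟩)

theorem pi1a_ne {γ : Ordinal.{0}} (hγ : γ < κ.ord) : UQ U fun α => α ≠ γ := by
  rcases hU.ultra {γ.toZFSet} (fun y hy => by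
    rw [ZFSet.mem_singleton] at hy
    rw [hy]
    exact Ordinal.toZFSet_mem_toZFSet_iff.2 hγ) with h | h
  · exact absurd h (hU.nonprincipal _)
  · refine ⟨_, h, fun α hα he => ?_⟩
    rw [ZFSet.mem_sdiff, ZFSet.mem_singleton] at hα
    exact hα.2 (congrArg _ he)

theorem uq_lt {β : Ordinal.{0}} (hβ : β < κ.ord) : UQ U fun α => β < α ∧ α < κ.ord := by
  have hlim := Cardinal.isSuccLimit_ord hU.uncountable.le
  have h1 : succ β < κ.ord := hlim.succ_lt hβ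
  have h2 : #(succ β).ToType < κ := by
    rw [Cardinal.mk_toType]
    exact Cardinal.lt_ord.1 h1
  have h3 := uq_all hU h2 (P := fun i α => α ≠ (i : Ordinal.{0})) fun i =>
    pi1a_ne hU ((show (i : Ordinal.{0}) < succ β from i.toOrd.2).trans h1)
  refine uq_mono hU (fun α hα h4 => ⟨?_, hα⟩) h3
  by_contra h5
  have h6 : α < succ β := Order.lt_succ_iff.2 (not_lt.1 h5)
  have h7 := h4 (Ordinal.ToType.mk ⟨α, h6⟩)
  apply h7
  simp [Ordinal.ToType.toOrd]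

theorem uq_normal {f : Ordinal.{0} → Ordinal.{0}} (h : UQ U fun α => f α < α) :
    ∃ β < κ.ord, UQ U fun α => f α = β := by
  obtain ⟨X, hX, h1⟩ := id h
  obtain ⟨γ, hγ⟩ := hU.normal (fun z => (f z.rank).toZFSet)
    (hU.up X hX _ (fun y hy => (ZFSet.mem_sep.1 hy).1) fun z hz => by
      have h2 := hU.sub X hX hz
      obtain ⟨a, -, rfl⟩ := Ordinal.mem_toZFSet_iff.1 h2
      refine ZFSet.mem_sep.2 ⟨h2, ?_⟩
      rw [Ordinal.rank_toZFSet]
      exact Ordinal.toZFSet_mem_toZFSet_iff.2 (h1 a hz))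
  have h3 : UQ U fun α => (f α).toZFSet = γ := by
    refine ⟨_, hγ, fun α hα => ?_⟩
    have h4 := (ZFSet.mem_sep.1 hα).2
    rwa [Ordinal.rank_toZFSet] at h4
  obtain ⟨α, hα, h5, h6⟩ := pi1a_ex hU ((uq_and hU).2 ⟨h, h3⟩)
  refine ⟨f α, h5.trans hα, uq_mono hU (fun α' _ h7 => ?_) h3⟩
  exact Ordinal.toZFSet_injective (h7.trans h6.symm)

theorem uq_lim : UQ U fun α => IsSuccLimit α := by
  by_contra hcon
  have h1 := (uq_not hU).2 hcon
  have hlim := Cardinal.isSuccLimit_ord hU.uncountable.le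
  have h0 : (0 : Ordinal.{0}) < κ.ord := hlim.bot_lt
  have h2 := (uq_and hU).2 ⟨h1, uq_lt hU h0⟩
  have h3 : UQ U fun α => sSup {γ : Ordinal.{0} | succ γ = α} < α ∧
      succ (sSup {γ : Ordinal.{0} | succ γ = α}) = α := by
    refine uq_mono hU (fun α _ h4 => ?_) h2
    obtain ⟨h5, h6, -⟩ := h4
    have h7 : ¬ IsSuccPrelimit α := fun h8 => h5 ⟨by
      rw [isMin_iff_eq_bot]
      exact h6.ne', h8⟩
    obtain ⟨γ, h8⟩ := Order.not_isSuccPrelimit_iff_mem_range_succ.1 h7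
    have h9 : {γ : Ordinal.{0} | succ γ = α} = {γ} := by
      ext δ
      rw [Set.mem_ofPred_eq, Set.mem_singleton_iff, ← h8]
      exact Order.succ_eq_succ_iff
    rw [h9, csSup_singleton, h8, ← h8]
    exact ⟨Order.lt_succ γ, rfl⟩
  obtain ⟨β, hβ, h4⟩ := uq_normal hU (uq_mono hU (fun _ _ h5 => h5.1) h3)
  obtain ⟨α, -, ⟨h5, h6⟩, h7, h8⟩ := pi1a_ex hU ((uq_and hU).2 ⟨(uq_and hU).2 ⟨h4,
    uq_mono hU (fun _ _ h5 => h5.2) h3⟩, uq_lt hU (hlim.succ_lt hβ)⟩)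
  rw [h5] at h6
  rw [h6] at h7
  exact lt_irrefl _ h7

/-- `κ` is inaccessible. -/
theorem two_pow_lt {c : Cardinal.{0}} (hc : c < κ) : 2 ^ c < κ := by
  by_contra hcon
  push Not at hcon
  have h1 : #κ.ord.ToType ≤ #(Set c.out) := by
    rw [Cardinal.mk_set, Cardinal.mk_out, Cardinal.mk_toType, Cardinal.card_ord]
    exact hcon
  obtain ⟨e⟩ := Cardinal.le_def _ _ |>.1 h1
  classical
  let g : Ordinal.{0} → Set c.out := fun α =>
    if h : α < κ.ord then e (Ordinal.ToType.mk ⟨α, h⟩) else ∅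
  have hg : ∀ α β, α < κ.ord → β < κ.ord → g α = g β → α = β := by
    intro α β hα hβ h
    have h2 : g α = e (Ordinal.ToType.mk ⟨α, hα⟩) := dif_pos hα
    have h3 : g β = e (Ordinal.ToType.mk ⟨β, hβ⟩) := dif_pos hβ
    rw [h2, h3] at h
    have h4 := Ordinal.ToType.mk.injective (e.injective h)
    exact congrArg Subtype.val h4
  have h2 : #c.out < κ := by rwa [Cardinal.mk_out]
  have h3 : UQ U fun α => ∀ i : c.out, (i ∈ g α ↔ UQ U fun α => i ∈ g α) := by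
    refine uq_all hU h2 fun i => ?_
    by_cases h4 : UQ U fun α => i ∈ g α
    · exact uq_mono hU (fun α _ h5 => iff_of_true h5 h4) h4
    · exact uq_mono hU (fun α _ h5 => iff_of_false h5 h4) ((uq_not hU).2 h4)
  obtain ⟨α, hα, h4⟩ := pi1a_ex hU h3
  obtain ⟨β, hβ, h5, h6⟩ := pi1a_ex hU ((uq_and hU).2 ⟨h3, pi1a_ne hU hα⟩)
  refine h6 (hg β α hβ hα ?_)
  ext i
  rw [h5 i, h4 i]

theorem kappa_regular : κ.IsRegular := by
  refine ⟨hU.uncountable.le, ?_⟩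
  by_contra hcon
  push Not at hcon
  rw [← Ordinal.cof_toType] at hcon
  obtain ⟨s, hs, hc⟩ := Order.exists_cof_eq κ.ord.ToType
  rw [← hc] at hcon
  have h1 := uq_all hU hcon (P := fun i α => (i.1 : Ordinal.{0}) < α ∧ α < κ.ord) fun i =>
    uq_lt hU i.1.toOrd.2
  obtain ⟨α, hα, h2⟩ := pi1a_ex hU h1
  obtain ⟨y, hy, h3⟩ := hs (Ordinal.ToType.mk ⟨α, hα⟩)
  have h4 := (h2 ⟨y, hy⟩).1
  have h5 : (⟨α, hα⟩ : Set.Iio κ.ord) ≤ y.toOrd := by
    rw [← Ordinal.ToType.mk.le_iff_le]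
    simpa [Ordinal.ToType.toOrd] using h3
  exact absurd h4 (not_lt.2 h5)

end Pool.Agent.helper797_cs
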