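import Pool.Agent.helper797_cs.PK3a

/-!
# The steps of the hierarchy are simple functions
-/

set_option autoImplicit false
set_option linter.unusedVariables false
set_option linter.unusedSimpArgs false

namespace Pool.Agent.helper797_cs.PK3

open Pool.Agent.W868 Pool.Agent.R587
open ZFSet (pair)

section steps

variable {n : ℕ} {X W P R a b a' b' Y V Z : (Fin (n + 1) → ZFSet.{0}) → ZFSet.{0}}

theorem sf_opK (k : ℕ) (hX : SF X) (hP : SF P) (hR : SF R) (ha : SF a) (hb : SF b) :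
    SF fun v => opK (X v) (P v) (R v) k (a v) (b v) := by
  by_cases h : k < 10
  · simp only [opK, h, if_true]
    refine SF.sep (P := fun u v => GR ∅ k u (a v) (b v)) hX ?_
    exact D1.gr h (SF.proj 0) ha.tail hb.tail
  · by_cases h' : k = 10
    · simp only [opK, h, h', if_false, if_true]
      simpa using hP
    · simp only [opK, h, h', if_false]
      exact hR

theorem sf_stY (k : ℕ) (hX : SF X) (hP : SF P) (hR : SF R) (hY : SF Y) :
    SF fun v => stY (X v) (P v) (R v) (Y v) k := by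
  unfold stY
  refine hY.union ?_
  refine SF.im (h := fun p v => opK (X v) (P v) (R v) k (fs p) (sn p))
    ((hX.insert hX).prod (hX.insert hX)) ?_
  exact sf_opK k hX.tail hP.tail hR.tail (SF.proj 0).fs (SF.proj 0).sn

theorem d1_lexX (hX : SF X) (hW : SF W) (ha : SF a) (hb : SF b) (ha' : SF a') (hb' : SF b') :
    D1 fun v => lexX (X v) (W v) (a v) (b v) (a' v) (b' v) := by
  unfold lexX ltX
  (repeat' first
      | assumption
      | apply D1.and | apply D1.or | apply D1.mem | apply D1.eq | apply SF.pair)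

theorem sf_stV (k : ℕ) (hX : SF X) (hW : SF W) (hP : SF P) (hR : SF R) (hY : SF Y) (hV : SF V) :
    SF fun v => stV (X v) (W v) (P v) (R v) (Y v) (V v) k := by
  unfold stV
  have h1 := hX.tail.tail.tail
  have h2 := hW.tail.tail.tail
  have h3 := hP.tail.tail.tail
  have h4 := hR.tail.tail.tail
  have h5 := hY.tail.tail.tail
  have h6 := hV.tail.tail.tail
  refine SF.sep (P := fun p v => ∃ z z', p = pair z z' ∧ (pair z z' ∈ V v ∨
    (z ∈ Y v ∧ z' ∉ Y v) ∨ (z ∉ Y v ∧ z' ∉ Y v ∧ ∃ a ∈ insert (X v) (X v),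
      ∃ b ∈ insert (X v) (X v), z = opK (X v) (P v) (R v) k a b ∧
      ∀ a' ∈ insert (X v) (X v), ∀ b' ∈ insert (X v) (X v),
        z' = opK (X v) (P v) (R v) k a' b' →
          lexX (X v) (W v) a b a' b')))
    ((sf_stY k hX hP hR hY).prod (sf_stY k hX hP hR hY)) ?_
  apply D1.expair (SF.proj 0)
  apply D1.or
  · exact D1.mem ((SF.proj 1).pair (SF.proj 0)) h6
  apply D1.or
  · exact (D1.mem (SF.proj 1) h5).and (D1.mem (SF.proj 0) h5).not
  apply D1.and
  · exact (D1.mem (SF.proj 1) h5).not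
  apply D1.and
  · exact (D1.mem (SF.proj 0) h5).not
  apply D1.bex (h1.insert h1)
  apply D1.bex (h1.insert h1).tail
  apply D1.and
  · exact D1.eq (SF.proj 3) (sf_opK k h1.tail.tail h3.tail.tail h4.tail.tail (SF.proj 1)
      (SF.proj 0))
  apply D1.ball (h1.insert h1).tail.tail
  apply D1.ball (h1.insert h1).tail.tail.tail
  apply D1.imp
  · exact D1.eq (SF.proj 4) (sf_opK k h1.tail.tail.tail.tail h3.tail.tail.tail.tail
      h4.tail.tail.tail.tail (SF.proj 1) (SF.proj 0))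
  · exact d1_lexX h1.tail.tail.tail.tail h2.tail.tail.tail.tail (SF.proj 3) (SF.proj 2)
      (SF.proj 1) (SF.proj 0)

theorem sf_stg (k : ℕ) (hX : SF X) (hW : SF W) (hP : SF P) (hR : SF R) :
    (SF fun v => (stg (X v) (W v) (P v) (R v) k).1) ∧
      SF fun v => (stg (X v) (W v) (P v) (R v) k).2 := by
  induction k with
  | zero => exact ⟨hX, hW⟩
  | succ k ih => exact ⟨sf_stY k hX hP hR ih.1, sf_stV k hX hW hP hR ih.1 ih.2⟩

theorem sf_nxt (hX : SF X) : SF fun v => nxt (X v) := by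
  unfold nxt eS eW eP eR
  have h := sf_stg 12 hX.fs hX.sn.fs hX.sn.sn.fs hX.sn.sn.sn
  exact h.1.pair (h.2.pair (SF.empty.pair SF.empty))

theorem sf_eS (hX : SF X) : SF fun v => eS (X v) := hX.fs
theorem sf_eW (hX : SF X) : SF fun v => eW (X v) := hX.sn.fs
theorem sf_eP (hX : SF X) : SF fun v => eP (X v) := hX.sn.sn.fs
theorem sf_eR (hX : SF X) : SF fun v => eR (X v) := hX.sn.sn.sn

theorem sf_lmt (hX : SF X) (hY : SF Y) : SF fun v => lmt (X v) (Y v) := by
  unfold lmt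
  have h1 : SF fun v => ZFSet.sUnion (im (fun p => eS (sn p)) (Y v)) :=
    SF.sUnion (SF.im (h := fun p v => eS (sn p)) hY
      (sf_eS (SF.proj 0).sn))
  have h2 : SF fun v => ZFSet.sUnion (im (fun p => eW (sn p)) (Y v)) :=
    SF.sUnion (SF.im (h := fun p v => eW (sn p)) hY
      (sf_eW (SF.proj 0).sn))
  exact h1.pair (h2.pair ((hX.inter h1).pair h2))

end steps

/-- The value of the function `g` at `u`. -/
noncomputable def app (g u : ZFSet.{0}) : ZFSet.{0} :=
  ZFSet.sUnion (im sn (ZFSet.sep (fun p => fs p = u) g))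

theorem app_gr {H : ZFSet.{0} → ZFSet.{0}} {x u : ZFSet.{0}} (hu : u ∈ x) :
    app (gr H x) u = H u := by
  have h : im sn (ZFSet.sep (fun p => fs p = u) (gr H x)) = {H u} := by
    ext z
    rw [mem_im, ZFSet.mem_singleton]
    constructor
    · rintro ⟨p, hp, rfl⟩
      obtain ⟨h1, h2⟩ := ZFSet.mem_sep.1 hp
      obtain ⟨w, hw, rfl⟩ := mem_gr.1 h1
      rw [fs_pair] at h2
      rw [sn_pair, h2]
    · rintro rfl
      exact ⟨pair u (H u), ZFSet.mem_sep.2 ⟨mem_gr.2 ⟨u, hu, rfl⟩, fs_pair _ _⟩,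
        (sn_pair _ _).symm⟩
  rw [app, h, ZFSet.sUnion_singleton]

/-- The restriction of the function `g` to `u`. -/
noncomputable def rst (g u : ZFSet.{0}) : ZFSet.{0} := ZFSet.sep (fun p => fs p ∈ u) g

theorem rst_gr {H : ZFSet.{0} → ZFSet.{0}} {x u : ZFSet.{0}} (hu : u ⊆ x) :
    rst (gr H x) u = gr H u := by
  ext p
  rw [rst, ZFSet.mem_sep, mem_gr, mem_gr]
  constructor
  · rintro ⟨⟨w, hw, rfl⟩, h⟩
    rw [fs_pair] at h
    exact ⟨w, h, rfl⟩
  · rintro ⟨w, hw, rfl⟩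
    refine ⟨⟨w, hu hw, rfl⟩, ?_⟩
    rwa [fs_pair]

open Classical in
/-- The step of the recursion that defines the hierarchy. -/
noncomputable def stp (F z g : ZFSet.{0}) : ZFSet.{0} :=
  if ∃ u ∈ z, z = insert u u then nxt (app g (ZFSet.sUnion z)) else lmt F g

theorem eh_eq (F z : ZFSet.{0}) : Eh F z = stp F z (gr (Eh F) z) := by
  rw [Eh, wfF_eq]
  rfl

section steps2

variable {n : ℕ} {F Z G U : (Fin (n + 1) → ZFSet.{0}) → ZFSet.{0}}

theorem sf_app (hG : SF G) (hU : SF U) : SF fun v => app (G v) (U v) := by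
  unfold app
  refine SF.sUnion (SF.im (h := fun p v => sn p) (SF.sep
    (P := fun p v => fs p = U v) hG ?_) (SF.proj 0).sn)
  exact D1.eq (SF.proj 0).fs hU.tail

theorem sf_rst (hG : SF G) (hU : SF U) : SF fun v => rst (G v) (U v) := by
  unfold rst
  exact SF.sep (P := fun p v => fs p ∈ U v) hG (D1.mem (SF.proj 0).fs hU.tail)

theorem sf_stp (hF : SF F) (hZ : SF Z) (hG : SF G) : SF fun v => stp (F v) (Z v) (G v) := by
  classical
  unfold stp
  have h1 : D1 fun v => ∃ u ∈ Z v, Z v = insert u u :=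
    D1.bex (Q := fun u v => Z v = insert u u) hZ
      (D1.eq hZ.tail ((SF.proj 0).insert (SF.proj 0)))
  exact SF.ite h1 (sf_nxt (sf_app hG hZ.sUnion)) (sf_lmt hF hG)

end steps2

/-- `s` is a part of the sequence of the levels, closed under predecessors. -/
def Ap (F s : ZFSet.{0}) : Prop :=
  ∀ p ∈ s, ∃ u y, p = pair u y ∧ (∀ w ∈ u, ∃ q ∈ s, fs q = w) ∧ y = stp F u (rst s u)

theorem d1_ap {n : ℕ} {F S : (Fin (n + 1) → ZFSet.{0}) → ZFSet.{0}} (hF : SF F) (hS : SF S) :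
    D1 fun v => Ap (F v) (S v) := by
  unfold Ap
  have h1 := hS.tail.tail.tail
  apply D1.ball hS
  apply D1.expair (SF.proj 0)
  apply D1.and
  · apply D1.ball (SF.proj 1)
    apply D1.bex h1.tail
    exact D1.eq (SF.proj 0).fs (SF.proj 1)
  · exact D1.eq (SF.proj 0) (sf_stp hF.tail.tail.tail (SF.proj 1) (sf_rst h1 (SF.proj 1)))

theorem ap_eq {F s : ZFSet.{0}} (h : Ap F s) : ∀ u y, pair u y ∈ s → y = Eh F u := by
  intro u
  induction u using ZFSet.inductionOn with
  | _ u ih =>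
  intro y hy
  obtain ⟨u', y', h1, h2, h3⟩ := h _ hy
  obtain ⟨rfl, rfl⟩ := ZFSet.pair_inj.1 h1
  have h4 : rst s u = gr (Eh F) u := by
    ext p
    rw [rst, ZFSet.mem_sep, mem_gr]
    constructor
    · rintro ⟨hp, hpu⟩
      obtain ⟨w, z, rfl, -, -⟩ := h p hp
      rw [fs_pair] at hpu
      exact ⟨w, hpu, by rw [ih w hpu z hp]⟩
    · rintro ⟨w, hw, rfl⟩
      obtain ⟨q, hq, h5⟩ := h2 w hw
      obtain ⟨w', z, rfl, -, -⟩ := h q hq
      rw [fs_pair] at h5
      subst h5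
      rw [ih w' hw z hq] at hq
      refine ⟨hq, ?_⟩
      rwa [fs_pair]
  rw [h3, h4, ← eh_eq]

theorem ap_gr {F x : ZFSet.{0}} (hx : ∀ u ∈ x, u ⊆ x) : Ap F (gr (Eh F) x) := by
  intro p hp
  obtain ⟨u, hu, rfl⟩ := mem_gr.1 hp
  refine ⟨u, _, rfl, fun w hw => ⟨_, mem_gr.2 ⟨w, hx u hu hw, rfl⟩, fs_pair _ _⟩, ?_⟩
  rw [rst_gr (hx u hu), ← eh_eq]

end Pool.Agent.helper797_cs.PK3
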