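import Pool.Agent.helper797_cs.PK1
import Pool.Agent.helper797_cs.PK3b

/-! # K3: level sequences are elements of the limit levels (K3 of the paper), `lvl` -/

set_option autoImplicit false
set_option linter.unusedVariables false

namespace Pool.Agent.helper797_cs

open Pool.Agent.W868 Pool.Agent.R587
open ZFSet (pair)
open Cardinal Order

namespace PK3

/-! ### Separation in the limit levels -/

/-- Translation to formulas of set theory. -/
def trl : {n : ℕ} → Fo n → Fml ZFSet.{0} n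
  | _, .mem i j => .mem (Sum.inl i) (Sum.inl j)
  | _, .eq i j => .eq (Sum.inl i) (Sum.inl j)
  | _, .pF i => .eq (Sum.inl i) (Sum.inl i)
  | _, .lt i j => .eq (Sum.inl i) (Sum.inl i)
  | _, .lv i j => .eq (Sum.inl i) (Sum.inl i)
  | _, .neg φ => .neg (trl φ)
  | _, .and φ ψ => .and (trl φ) (trl ψ)
  | _, .ex φ => .ex (trl φ)
  | _, .bex i φ => .ex (.and (.mem (Sum.inl 0) (Sum.inl i.succ)) (trl φ))

theorem over_trl (S : Set ZFSet.{0}) : {n : ℕ} → (φ : Fo n) → (trl φ).Over S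
  | _, .mem i j => ⟨TOver.inl _, TOver.inl _⟩
  | _, .eq i j => ⟨TOver.inl _, TOver.inl _⟩
  | _, .pF i => ⟨TOver.inl _, TOver.inl _⟩
  | _, .lt i j => ⟨TOver.inl _, TOver.inl _⟩
  | _, .lv i j => ⟨TOver.inl _, TOver.inl _⟩
  | _, .neg φ => over_trl S φ
  | _, .and φ ψ => ⟨over_trl S φ, over_trl S ψ⟩
  | _, .ex φ => over_trl S φ
  | _, .bex i φ => ⟨⟨TOver.inl _, TOver.inl _⟩, over_trl S φ⟩

theorem sat_trl {M : Set ZFSet.{0}} (tr : ∀ x ∈ M, ∀ y ∈ x, y ∈ M) : {n : ℕ} → (φ : Fo n) →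
    φ.IsD0 → (v : Fin n → ZFSet.{0}) → (∀ i, v i ∈ M) → (Sat M id (trl φ) v ↔ φ.Sat VV v)
  | _, .mem i j, _, v, _ => Iff.rfl
  | _, .eq i j, _, v, _ => Iff.rfl
  | _, .neg φ, h, v, hv => not_congr (sat_trl tr φ h v hv)
  | _, .and φ ψ, h, v, hv => and_congr (sat_trl tr φ h.1 v hv) (sat_trl tr ψ h.2 v hv)
  | _, .bex i φ, h, v, hv => by
    simp only [trl, Sat, Fo.Sat]
    constructor
    · rintro ⟨a, ha, hai, h1⟩
      exact ⟨a, trivial, hai, (sat_trl tr φ h _ (Fin.cases ha hv)).1 h1⟩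
    · rintro ⟨a, -, hai, h1⟩
      have ha := tr _ (hv i) a hai
      exact ⟨a, ha, hai, (sat_trl tr φ h _ (Fin.cases ha hv)).2 h1⟩

theorem D1.dfn {n : ℕ} {Q : (Fin n → ZFSet.{0}) → Prop} (hQ : D1 Q) {S M : Set ZFSet.{0}}
    (tr : ∀ x ∈ M, ∀ y ∈ x, y ∈ M) : Dfn S M Q := by
  obtain ⟨φ, h1, h2⟩ := hQ
  exact ⟨trl φ, over_trl S φ, fun v hv => (sat_trl tr φ h1 v hv).trans (h2 v)⟩

variable {F : ZFSet.{0}}

theorem exists_level {ξ : Ordinal.{0}} (h : IsSuccLimit ξ) : {n : ℕ} → {v : Fin n → ZFSet.{0}} →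
    (∀ i, v i ∈ KS F ξ) → ∃ η < ξ, ∀ i, v i ∈ KS F η
  | 0, v, _ => ⟨0, h.bot_lt, fun i => i.elim0⟩
  | n + 1, v, hv => by
    obtain ⟨η, hη, h1⟩ := exists_level h (v := Fin.tail v) fun i => hv _
    obtain ⟨ζ, hζ, h2⟩ := (ks_limit h).1 (hv 0)
    refine ⟨max η ζ, max_lt hη hζ, Fin.cases (ks_mono (le_max_right _ _) h2) fun i => ?_⟩
    exact ks_mono (le_max_left _ _) (h1 i)

/-- Separation for bounded formulas. -/
theorem d1_sep {ξ : Ordinal.{0}} (h : IsSuccLimit ξ) {n : ℕ} {Q : (Fin (n + 1) → ZFSet.{0}) → Prop}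
    (hQ : D1 Q) {v : Fin n → ZFSet.{0}} (hv : ∀ i, v i ∈ KS F ξ) {a : ZFSet.{0}}
    (ha : a ∈ KS F ξ) : ZFSet.sep (fun z => Q (Fin.cons z v)) a ∈ KS F ξ := by
  obtain ⟨η, hη, h1⟩ := exists_level h (v := (Fin.cons a v : Fin (n + 1) → ZFSet.{0}))
    (Fin.cases ha hv)
  have tr : ∀ x ∈ {x | x ∈ KS F η}, ∀ y ∈ x, y ∈ {x | x ∈ KS F η} := ks_trans η
  have h2 : Dfn {x | x ∈ KS F η} {x | x ∈ KS F η} fun w : Fin 1 → ZFSet.{0} =>
      w 0 ∈ a ∧ Q (Fin.cons (w 0) v) := by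
    refine Dfn.spec (R := fun z w => z ∈ w 0 ∧ Q (Fin.cons z (Fin.tail w)))
      (v := (Fin.cons a v : Fin (n + 1) → ZFSet.{0})) ?_ h1
    apply D1.dfn _ tr
    apply D1.and (D1.mem (SF.proj 0) (SF.proj 1))
    refine (hQ.comp (Fin.cons 0 fun i => i.succ.succ : Fin (n + 1) → Fin (n + 2))).congr
      fun w => ?_
    have h3 : (fun i => w ((Fin.cons 0 fun i => i.succ.succ : Fin (n + 1) → Fin (n + 2)) i)) =
        Fin.cons (w 0) (Fin.tail (Fin.tail w)) := by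
      funext i
      refine Fin.cases ?_ (fun i => ?_) i
      · rfl
      · rfl
    rw [h3]
  obtain ⟨φ, hφ, h3⟩ := h2
  obtain ⟨y, hy, h4⟩ := (ks_gd h).sep (X := KS F η) (ks_mem hη) φ hφ
  have h5 : y = ZFSet.sep (fun z => Q (Fin.cons z v)) a := by
    ext z
    rw [h4, ZFSet.mem_sep]
    constructor
    · rintro ⟨h6, h7⟩
      exact (h3 ![z] fun i => by fin_cases i; exact h6).1 h7
    · intro h6
      have h7 : z ∈ KS F η := ks_trans η _ (h1 0) _ h6.1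
      exact ⟨h7, (h3 ![z] fun i => by fin_cases i; exact h7).2 h6⟩
  exact h5 ▸ hy

/-! ### Closure of the limit levels -/

theorem pair_ks {ξ : Ordinal.{0}} (h : IsSuccLimit ξ) {x y : ZFSet.{0}} (hx : x ∈ KS F ξ)
    (hy : y ∈ KS F ξ) : pair x y ∈ KS F ξ :=
  (ks_gd h).upair_mem ((ks_gd h).single_mem hx) ((ks_gd h).upair_mem hx hy)

theorem of_pair_ks {ξ : Ordinal.{0}} {x y : ZFSet.{0}} (h : pair x y ∈ KS F ξ) :
    x ∈ KS F ξ ∧ y ∈ KS F ξ := by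
  have h1 : ({x, y} : ZFSet.{0}) ∈ KS F ξ := ks_trans ξ _ h _ (by simp [pair])
  exact ⟨ks_trans ξ _ h1 _ (by simp), ks_trans ξ _ h1 _ (by simp)⟩

theorem insert_ks {ξ : Ordinal.{0}} (h : IsSuccLimit ξ) {x y : ZFSet.{0}} (hx : x ∈ KS F ξ)
    (hy : y ∈ KS F ξ) : insert x y ∈ KS F ξ := by
  have h1 := (ks_gd h).sUnion_mem ((ks_gd h).upair_mem ((ks_gd h).single_mem hx) hy)
  have h2 : (ZFSet.sUnion {{x}, y} : ZFSet.{0}) = insert x y := by
    rw [ZFSet.sUnion_pair]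
    ext z
    simp
  exact h2 ▸ h1

theorem empty_ks {ξ : Ordinal.{0}} (h : IsSuccLimit ξ) : ∅ ∈ KS F ξ := (ks_gd h).empty_mem

/-! ### Level sequences -/

theorem sq_eq (η : Ordinal.{0}) :
    sq F η = insert (pair η.toZFSet (Eh F η.toZFSet)) (gr (Eh F) η.toZFSet) := by
  ext p
  rw [sq, mem_gr, ZFSet.mem_insert_iff, mem_gr]
  constructor
  · rintro ⟨u, hu, rfl⟩
    rcases ZFSet.mem_insert_iff.1 hu with rfl | hu
    · exact Or.inl rfl
    · exact Or.inr ⟨u, hu, rfl⟩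
  · rintro (rfl | ⟨u, hu, rfl⟩)
    · exact ⟨_, ZFSet.mem_insert _ _, rfl⟩
    · exact ⟨u, ZFSet.mem_insert_of_mem _ hu, rfl⟩

theorem eh_of_sq {ξ η : Ordinal.{0}} (h : sq F η ∈ KS F ξ) :
    Eh F η.toZFSet ∈ KS F ξ := by
  have h1 : pair η.toZFSet (Eh F η.toZFSet) ∈ sq F η := by
    rw [sq_eq]
    exact ZFSet.mem_insert _ _
  exact (of_pair_ks (ks_trans ξ _ h _ h1)).2

theorem stg_sub (X W P R : ZFSet.{0}) (k : ℕ) :
    (stg X W P R (k + 1)).2 ⊆ ZFSet.prod (stg X W P R (k + 1)).1 (stg X W P R (k + 1)).1 := by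
  intro p h
  rw [stg] at h ⊢
  change p ∈ stV X W P R (stg X W P R k).1 (stg X W P R k).2 k at h
  rw [stV] at h
  exact (ZFSet.mem_sep.1 h).1

theorem kw_sub' {η : Ordinal.{0}} {p : ZFSet.{0}} (h : p ∈ KW F (η + 1)) :
    p ∈ ZFSet.prod (KS F (η + 1)) (KS F (η + 1)) := by
  have h1 := stg_sub (eS (Eh F η.toZFSet)) (eW (Eh F η.toZFSet)) (eP (Eh F η.toZFSet))
    (eR (Eh F η.toZFSet)) 11
  rw [KW, eh_succ, nxt, PK1_eW] at h
  rw [KS, eh_succ, nxt, PK1_eS]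
  exact h1 h

theorem kw_mem' {ξ η : Ordinal.{0}} (h : IsSuccLimit ξ) (hη : η + 1 < ξ)
    (he : Eh F η.toZFSet ∈ KS F ξ) : KW F (η + 1) ∈ KS F ξ := by
  have h1 : D1 fun w : Fin 2 → ZFSet.{0} => w 0 ∈ eW (nxt (w 1)) :=
    D1.mem (SF.proj 0) (sf_eW (sf_nxt (SF.proj 1)))
  have h2 := d1_sep (F := F) h (n := 1) h1 (v := fun _ => Eh F η.toZFSet) (fun _ => he)
    ((ks_gd h).prod_mem (ks_mem (F := F) hη) (ks_mem (F := F) hη))
  have h3 : ZFSet.sep (fun z => (Fin.cons z fun _ => Eh F η.toZFSet : Fin 2 → ZFSet.{0}) 0 ∈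
      eW (nxt ((Fin.cons z fun _ => Eh F η.toZFSet : Fin 2 → ZFSet.{0}) 1)))
        (ZFSet.prod (KS F (η + 1)) (KS F (η + 1))) = KW F (η + 1) := by
    ext z
    rw [ZFSet.mem_sep]
    have h4 : eW (nxt (Eh F η.toZFSet)) = KW F (η + 1) := by
      rw [KW, eh_succ]
    constructor
    · rintro ⟨h5, h6⟩
      exact h4 ▸ h6
    · intro h5
      exact ⟨kw_sub' h5, by
        change z ∈ eW (nxt (Eh F η.toZFSet))
        rw [h4]
        exact h5⟩
  exact h3 ▸ h2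

theorem eh_succ_mem {ξ η : Ordinal.{0}} (h : IsSuccLimit ξ) (hη : η + 1 < ξ)
    (he : Eh F η.toZFSet ∈ KS F ξ) : Eh F (η + 1).toZFSet ∈ KS F ξ := by
  have h1 : Eh F (η + 1).toZFSet = pair (KS F (η + 1)) (pair (KW F (η + 1)) (pair ∅ ∅)) := by
    rw [KS, KW, eh_succ]
    simp only [nxt, eS, eW, fs_pair, sn_pair]
  rw [h1]
  exact pair_ks h (ks_mem hη) (pair_ks h (kw_mem' h hη he)
    (pair_ks h (empty_ks h) (empty_ks h)))

/-- The sequence of the levels below a limit. -/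
theorem gr_limit {ξ η : Ordinal.{0}} (h : IsSuccLimit ξ) (hη : η < ξ) (h' : IsSuccLimit η)
    (ih : ∀ ζ < η, sq F ζ ∈ KS F η) : gr (Eh F) η.toZFSet ∈ KS F ξ := by
  have hF' : F ∩ KS F η ∈ KS F ξ := by
    have h1 : η + 1 < ξ := h.succ_lt hη
    exact ks_mono h1.le (fks_mem h')
  have hX : KS F η ∈ KS F ξ := ks_mem hη
  have hd : D1 fun w : Fin 3 → ZFSet.{0} => (∃ s ∈ w 1, Ap (w 2) s ∧ w 0 ∈ s) ∧
      (fs (w 0)).IsOrdinal := by
    apply D1.and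
    · apply D1.bex (SF.proj 1)
      apply D1.and
      · exact d1_ap (SF.proj 3) (SF.proj 0)
      · exact D1.mem (SF.proj 1) (SF.proj 0)
    · exact D1.isOrdinal (SF.proj 0).fs
  have h2 := d1_sep (F := F) h (n := 2) hd (v := ![KS F η, F ∩ KS F η]) (by
    intro i
    fin_cases i
    · exact hX
    · exact hF') hX
  have hco := ks_congr (F := F) (F' := F ∩ KS F η) (ξ := η) (by
    intro ζ hζ _ x hx
    rw [ZFSet.mem_inter]
    exact ⟨fun h3 => ⟨h3, ks_mono hζ.le hx⟩, fun h3 => h3.1⟩)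
  have h3 : ZFSet.sep (fun z => (∃ s ∈ KS F η, Ap (F ∩ KS F η) s ∧ z ∈ s) ∧
      (fs z).IsOrdinal) (KS F η) = gr (Eh F) η.toZFSet := by
    ext p
    rw [ZFSet.mem_sep, mem_gr]
    constructor
    · rintro ⟨hp, ⟨s, hs, h4, h5⟩, h6⟩
      obtain ⟨u, y, rfl, -, -⟩ := h4 p h5
      rw [fs_pair] at h6
      obtain ⟨ζ, rfl⟩ := ZFSet.isOrdinal_iff_mem_range_toZFSet.1 h6
      have h7 : ζ < η := ks_ord_le (of_pair_ks hp).1
      refine ⟨_, Ordinal.toZFSet_mem_toZFSet_iff.2 h7, ?_⟩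
      rw [ap_eq h4 _ _ h5, hco.2.2 ζ h7]
    · rintro ⟨u, hu, rfl⟩
      obtain ⟨ζ, hζ, rfl⟩ := Ordinal.mem_toZFSet_iff.1 hu
      have h4 : pair ζ.toZFSet (Eh F ζ.toZFSet) ∈ sq F ζ := by
        rw [sq_eq]
        exact ZFSet.mem_insert _ _
      refine ⟨ks_trans η _ (ih ζ hζ) _ h4, ⟨sq F ζ, ih ζ hζ, ?_, h4⟩, ?_⟩
      · have h5 : sq F ζ = gr (Eh (F ∩ KS F η)) (insert ζ.toZFSet ζ.toZFSet) := by
          rw [sq, gr, gr]
          refine im_congr fun u hu => ?_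
          rw [← Ordinal.toZFSet_add_one] at hu
          obtain ⟨ζ', hζ', rfl⟩ := Ordinal.mem_toZFSet_iff.1 hu
          rw [hco.2.2 ζ' (lt_of_le_of_lt (Order.lt_add_one_iff.1 hζ') hζ)]
        rw [h5]
        refine ap_gr fun u hu => ?_
        rw [← Ordinal.toZFSet_add_one] at hu ⊢
        exact (ZFSet.isOrdinal_toZFSet _).isTransitive.subset_of_mem hu
      · rw [fs_pair]
        exact ZFSet.isOrdinal_toZFSet _
  exact h3 ▸ h2

theorem eh_limit_mem {ξ η : Ordinal.{0}} (h : IsSuccLimit ξ) (hη : η < ξ) (h' : IsSuccLimit η) :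
    Eh F η.toZFSet ∈ KS F ξ := by
  have h1 : η + 1 < ξ := h.succ_lt hη
  have hF' : F ∩ KS F η ∈ KS F ξ := ks_mono h1.le (fks_mem h')
  have hW : KW F η ∈ KS F ξ := ks_mono h1.le (kw_mem_succ h')
  rw [eh_limit h']
  exact pair_ks h (ks_mem hη) (pair_ks h hW (pair_ks h hF' hW))

theorem seq_mem (ξ : Ordinal.{0}) (h : IsSuccLimit ξ) : ∀ η < ξ, sq F η ∈ KS F ξ := by
  induction ξ using WellFoundedLT.induction with
  | _ ξ ihξ =>
  intro η
  induction η using Ordinal.limitRecOn with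
  | zero =>
    intro hη
    rw [sq_eq, eh_zero, Ordinal.toZFSet_zero]
    have h1 : gr (Eh F) (∅ : ZFSet.{0}) = ∅ := by
      rw [ZFSet.eq_empty]
      intro p hp
      obtain ⟨u, hu, -⟩ := mem_gr.1 hp
      exact ZFSet.notMem_empty _ hu
    rw [h1]
    have h0 := empty_ks (F := F) h
    exact insert_ks h (pair_ks h h0 (pair_ks h h0 (pair_ks h h0 (pair_ks h h0 h0)))) h0
  | add_one η ih =>
    intro hη
    have h1 : η < ξ := (lt_add_one η).trans hη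
    have h2 := ih h1
    have h3 : gr (Eh F) (η + 1).toZFSet = sq F η := by
      rw [Ordinal.toZFSet_add_one, sq]
    rw [sq_eq, h3]
    exact insert_ks h (pair_ks h ((ks_ord h).2 hη) (eh_succ_mem h hη (eh_of_sq h2))) h2
  | limit η hlim ih =>
    intro hη
    rw [sq_eq]
    exact insert_ks h (pair_ks h ((ks_ord h).2 hη) (eh_limit_mem h hη hlim))
      (gr_limit h hη hlim (ihξ η hη hlim))

end PK3

open PK3

variable {F : ZFSet.{0}}

theorem sq_mem {ξ η : Ordinal.{0}} (h : IsSuccLimit ξ) (hη : η < ξ) :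
    ∃ η' < ξ, ∀ ζ ≤ η, sq F ζ ∈ KS F η' := by
  revert hη
  induction η using Ordinal.limitRecOn with
  | zero =>
    intro hη
    obtain ⟨η', h1, h2⟩ := (ks_limit h).1 (seq_mem (F := F) ξ h 0 hη)
    exact ⟨η', h1, fun ζ hζ => by rwa [nonpos_iff_eq_zero.1 hζ]⟩
  | add_one η ih =>
    intro hη
    obtain ⟨η1, h1, h2⟩ := ih ((lt_add_one η).trans hη)
    obtain ⟨η2, h3, h4⟩ := (ks_limit h).1 (seq_mem (F := F) ξ h _ hη)
    refine ⟨max η1 η2, max_lt h1 h3, fun ζ hζ => ?_⟩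
    rcases hζ.lt_or_eq with h5 | rfl
    · exact ks_mono (le_max_left _ _) (h2 ζ (Order.lt_add_one_iff.1 h5))
    · exact ks_mono (le_max_right _ _) h4
  | limit η hlim ih =>
    intro hη
    obtain ⟨η2, h3, h4⟩ := (ks_limit h).1 (seq_mem (F := F) ξ h _ hη)
    refine ⟨max η η2, max_lt hη h3, fun ζ hζ => ?_⟩
    rcases hζ.lt_or_eq with h5 | rfl
    · exact ks_mono (le_max_left _ _) (seq_mem (F := F) η hlim ζ h5)
    · exact ks_mono (le_max_right _ _) h4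

theorem lvl_eq {ξ : Ordinal.{0}} {x : ZFSet.{0}} (hx : x ∈ KS F ξ) :
    ∃ η ≤ ξ, x ∈ KS F η ∧ (∀ ζ < η, x ∉ KS F ζ) ∧ lvl F x = sq F η := by
  have h : ∃ η, x ∈ KS F η := ⟨ξ, hx⟩
  refine ⟨sInf {η | x ∈ KS F η}, csInf_le' hx, csInf_mem (s := {η | x ∈ KS F η}) h,
    fun ζ hζ h1 => ?_, ?_⟩
  · exact absurd (csInf_le' (s := {η | x ∈ KS F η}) h1) (not_le.2 hζ)
  · rw [lvl, if_pos h]

theorem lvl_mem {ξ : Ordinal.{0}} (h : IsSuccLimit ξ) {x : ZFSet.{0}} (hx : x ∈ KS F ξ) :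
    lvl F x ∈ KS F ξ := by
  obtain ⟨η, h1, h2, h3, h4⟩ := lvl_eq hx
  obtain ⟨ζ, hζ, h5⟩ := (ks_limit h).1 hx
  have h6 : η < ξ := lt_of_le_of_lt (not_lt.1 fun h7 => h3 ζ h7 h5) hζ
  rw [h4]
  exact seq_mem ξ h η h6

theorem lvl_congr {F' : ZFSet.{0}} {ξ : Ordinal.{0}}
    (h : ∀ ζ < ξ, IsSuccLimit ζ → ∀ x ∈ KS F ζ, (x ∈ F ↔ x ∈ F')) :
    ∀ x ∈ KS F ξ, IsSuccLimit ξ → lvl F x = lvl F' x := by
  intro x hx hξ
  have hc : ∀ ζ ≤ ξ, KS F ζ = KS F' ζ := fun ζ hζ =>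
    (ks_congr (F := F) (F' := F') (ξ := ζ) fun ζ' h' => h ζ' (lt_of_lt_of_le h' hζ)).1
  obtain ⟨η, h1, h2, h3, h4⟩ := lvl_eq hx
  obtain ⟨η', h1', h2', h3', h4'⟩ := lvl_eq (F := F') (hc ξ le_rfl ▸ hx)
  have h5 : η = η' := by
    apply le_antisymm
    · refine not_lt.1 fun h6 => h3 η' h6 ?_
      rw [hc η' h1']
      exact h2'
    · refine not_lt.1 fun h6 => h3' η h6 ?_
      rw [← hc η h1]
      exact h2
  subst h5
  obtain ⟨ζ, hζ, h6⟩ := (ks_limit hξ).1 hx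
  have h7 : η < ξ := lt_of_le_of_lt (not_lt.1 fun h7 => h3 ζ h7 h6) hζ
  rw [h4, h4', sq, sq, gr, gr]
  refine im_congr fun u hu => ?_
  rw [← Ordinal.toZFSet_add_one] at hu
  obtain ⟨ζ', hζ', rfl⟩ := Ordinal.mem_toZFSet_iff.1 hu
  rw [(ks_congr (F := F) (F' := F') (ξ := ξ) h).2.2 ζ'
    (lt_of_le_of_lt (Order.lt_add_one_iff.1 hζ') h7)]

namespace PK3

/-! ### Definable sets -/

/-- The structure with the given sets as universe, predicates and function. -/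
noncomputable def stc (X P W L : ZFSet.{0}) : Stc where
  A := {x | x ∈ X}
  F := fun x => x ∈ P
  lt := fun x y => pair x y ∈ W
  lv := fun x => app L x

/-- Truth in a set structure is defined by a bounded formula. -/
theorem d1_sat : {n : ℕ} → (φ : Fo n) → (k : ℕ) → (x p w l : Fin (k + 1)) →
    (ρ : Fin n → Fin (k + 1)) → D1 fun u : Fin (k + 1) → ZFSet.{0} =>
      φ.Sat (stc (u x) (u p) (u w) (u l)) fun i => u (ρ i)
  | _, .mem i j, k, x, p, w, l, ρ => D1.mem (SF.proj _) (SF.proj _)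
  | _, .eq i j, k, x, p, w, l, ρ => D1.eq (SF.proj _) (SF.proj _)
  | _, .pF i, k, x, p, w, l, ρ => D1.mem (SF.proj _) (SF.proj _)
  | _, .lt i j, k, x, p, w, l, ρ => D1.mem ((SF.proj _).pair (SF.proj _)) (SF.proj _)
  | _, .lv i j, k, x, p, w, l, ρ => D1.eq (sf_app (SF.proj _) (SF.proj _)) (SF.proj _)
  | _, .neg φ, k, x, p, w, l, ρ => (d1_sat φ k x p w l ρ).not
  | _, .and φ ψ, k, x, p, w, l, ρ => (d1_sat φ k x p w l ρ).and (d1_sat ψ k x p w l ρ)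
  | n, .ex φ, k, x, p, w, l, ρ => by
    have h1 := d1_sat φ (k + 1) x.succ p.succ w.succ l.succ (Fin.cons 0 fun i => (ρ i).succ)
    have h2 : D1 fun u : Fin (k + 1) → ZFSet.{0} => ∃ a ∈ u x,
        φ.Sat (stc (u x) (u p) (u w) (u l)) (Fin.cons a fun i => u (ρ i)) := by
      refine D1.bex (Q := fun a u => φ.Sat (stc (u x) (u p) (u w) (u l))
        (Fin.cons a fun i => u (ρ i))) (SF.proj x) (h1.congr fun u => ?_)
      have h3 : (fun i => u ((Fin.cons 0 fun i => (ρ i).succ : Fin (n + 1) → Fin (k + 2)) i)) =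
          Fin.cons (u 0) fun i => Fin.tail u (ρ i) := by
        funext i
        refine Fin.cases ?_ (fun i => ?_) i
        · rfl
        · rfl
      rw [h3]
      rfl
    exact h2
  | n, .bex j φ, k, x, p, w, l, ρ => by
    have h1 := d1_sat φ (k + 1) x.succ p.succ w.succ l.succ (Fin.cons 0 fun i => (ρ i).succ)
    have h2 : D1 fun u : Fin (k + 1) → ZFSet.{0} => ∃ a ∈ u x, a ∈ u (ρ j) ∧
        φ.Sat (stc (u x) (u p) (u w) (u l)) (Fin.cons a fun i => u (ρ i)) := by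
      refine D1.bex (Q := fun a u => a ∈ u (ρ j) ∧ φ.Sat (stc (u x) (u p) (u w) (u l))
        (Fin.cons a fun i => u (ρ i))) (SF.proj x) (D1.and (D1.mem (SF.proj _) (SF.proj _))
          (h1.congr fun u => ?_))
      have h3 : (fun i => u ((Fin.cons 0 fun i => (ρ i).succ : Fin (n + 1) → Fin (k + 2)) i)) =
          Fin.cons (u 0) fun i => Fin.tail u (ρ i) := by
        funext i
        refine Fin.cases ?_ (fun i => ?_) i
        · rfl
        · rfl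
      rw [h3]
      rfl
    exact h2

/-- Truth does not depend on the values of the predicates outside of the universe. -/
theorem sat_congr_stc {𝔄 𝔅 : Stc} (hA : 𝔄.A = 𝔅.A) (hF : ∀ x ∈ 𝔄.A, (𝔄.F x ↔ 𝔅.F x))
    (hlt : ∀ x ∈ 𝔄.A, ∀ y ∈ 𝔄.A, (𝔄.lt x y ↔ 𝔅.lt x y)) (hlv : ∀ x ∈ 𝔄.A, 𝔄.lv x = 𝔅.lv x) :
    {n : ℕ} → (φ : Fo n) → (v : Fin n → ZFSet.{0}) → (∀ i, v i ∈ 𝔄.A) →
      (φ.Sat 𝔄 v ↔ φ.Sat 𝔅 v)
  | _, .mem i j, v, hv => Iff.rfl
  | _, .eq i j, v, hv => Iff.rfl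
  | _, .pF i, v, hv => hF _ (hv i)
  | _, .lt i j, v, hv => hlt _ (hv i) _ (hv j)
  | _, .lv i j, v, hv => by simp only [Fo.Sat, hlv _ (hv i)]
  | _, .neg φ, v, hv => not_congr (sat_congr_stc hA hF hlt hlv φ v hv)
  | _, .and φ ψ, v, hv =>
    and_congr (sat_congr_stc hA hF hlt hlv φ v hv) (sat_congr_stc hA hF hlt hlv ψ v hv)
  | _, .ex φ, v, hv => by
    simp only [Fo.Sat, ← hA]
    refine exists_congr fun a => and_congr_right fun ha => ?_
    exact sat_congr_stc hA hF hlt hlv φ _ (Fin.cases ha hv)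
  | _, .bex i φ, v, hv => by
    simp only [Fo.Sat, ← hA]
    refine exists_congr fun a => and_congr_right fun ha => and_congr_right fun _ => ?_
    exact sat_congr_stc hA hF hlt hlv φ _ (Fin.cases ha hv)

/-- The function `lvl` on a limit level. -/
theorem gr_lvl_mem {ξ ξ' : Ordinal.{0}} (h : IsSuccLimit ξ) (h' : IsSuccLimit ξ') (hξ : ξ < ξ') :
    gr (lvl F) (KS F ξ) ∈ KS F ξ' := by
  have hX : KS F ξ ∈ KS F ξ' := ks_mem hξ
  have hg : gr (Eh F) ξ.toZFSet ∈ KS F ξ' := gr_limit h' hξ h (seq_mem ξ h)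
  have ho : ξ.toZFSet ∈ KS F ξ' := (ks_ord h').2 hξ
  have hd : D1 fun w : Fin 4 → ZFSet.{0} => ∃ x y, w 0 = pair x y ∧ ∃ η ∈ w 3,
      x ∈ eS (app (w 2) η) ∧ (∀ ζ ∈ η, x ∉ eS (app (w 2) ζ)) ∧
      y = rst (w 2) (insert η η) := by
    apply D1.expair (SF.proj 0)
    apply D1.bex (SF.proj 5)
    apply D1.and
    · exact D1.mem (SF.proj 2) (sf_eS (sf_app (SF.proj 5) (SF.proj 0)))
    apply D1.and
    · apply D1.ball (SF.proj 0)
      exact (D1.mem (SF.proj 3) (sf_eS (sf_app (SF.proj 6) (SF.proj 0)))).not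
    · exact D1.eq (SF.proj 1) (sf_rst (SF.proj 5) ((SF.proj 0).insert (SF.proj 0)))
  have h2 := d1_sep (F := F) h' (n := 3) hd
    (v := ![KS F ξ, gr (Eh F) ξ.toZFSet, ξ.toZFSet]) (by
    intro i
    fin_cases i
    · exact hX
    · exact hg
    · exact ho) hX
  have h3 : ZFSet.sep (fun z => ∃ x y, z = pair x y ∧ ∃ η ∈ ξ.toZFSet,
      x ∈ eS (app (gr (Eh F) ξ.toZFSet) η) ∧
      (∀ ζ ∈ η, x ∉ eS (app (gr (Eh F) ξ.toZFSet) ζ)) ∧
      y = rst (gr (Eh F) ξ.toZFSet) (insert η η)) (KS F ξ) = gr (lvl F) (KS F ξ) := by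
    have hap : ∀ ζ < ξ, eS (app (gr (Eh F) ξ.toZFSet) ζ.toZFSet) = KS F ζ := fun ζ hζ => by
      rw [app_gr (Ordinal.toZFSet_mem_toZFSet_iff.2 hζ), KS]
    have hrs : ∀ ζ < ξ, rst (gr (Eh F) ξ.toZFSet) (insert ζ.toZFSet ζ.toZFSet) = sq F ζ :=
      fun ζ hζ => by
      rw [rst_gr, sq]
      rw [← Ordinal.toZFSet_add_one]
      exact Ordinal.toZFSet_subset_toZFSet_iff.2 (Order.add_one_le_iff.2 hζ)
    ext p
    rw [ZFSet.mem_sep, mem_gr]
    constructor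
    · rintro ⟨hp, x, y, rfl, η0, hη0, h4, h5, h6⟩
      obtain ⟨η, hη, rfl⟩ := Ordinal.mem_toZFSet_iff.1 hη0
      rw [hap η hη] at h4
      rw [hrs η hη] at h6
      refine ⟨x, (of_pair_ks hp).1, ?_⟩
      obtain ⟨η', h7, h8, h9, h10⟩ := lvl_eq h4
      have h11 : η' = η := by
        rcases h7.lt_or_eq with h11 | h11
        · refine absurd h8 ?_
          rw [← hap η' (h11.trans hη)]
          exact h5 _ (Ordinal.toZFSet_mem_toZFSet_iff.2 h11)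
        · exact h11
      rw [h6, h10, h11]
    · rintro ⟨x, hx, rfl⟩
      refine ⟨pair_ks h hx (lvl_mem h hx), x, _, rfl, ?_⟩
      obtain ⟨η, h7, h8, h9, h10⟩ := lvl_eq hx
      obtain ⟨ζ, hζ, h11⟩ := (ks_limit h).1 hx
      have h12 : η < ξ := lt_of_le_of_lt (not_lt.1 fun h7 => h9 ζ h7 h11) hζ
      refine ⟨η.toZFSet, Ordinal.toZFSet_mem_toZFSet_iff.2 h12, ?_, fun ζ' h13 => ?_, ?_⟩
      · rw [hap η h12]
        exact h8
      · obtain ⟨ζ2, h14, rfl⟩ := Ordinal.mem_toZFSet_iff.1 h13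
        rw [hap ζ2 (h14.trans h12)]
        exact h9 ζ2 h14
      · rw [hrs η h12, h10]
  exact h3 ▸ h2

theorem isSuccLimit_add_omega (ξ : Ordinal.{0}) : IsSuccLimit (ξ + Ordinal.omega0) :=
  Ordinal.isSuccLimit_add ξ Ordinal.isSuccLimit_omega0

end PK3

/-- Sets definable over a limit level are in the next limit level. -/
theorem def_mem {ξ : Ordinal.{0}} (h : IsSuccLimit ξ) {n : ℕ} (φ : Fo (n + 1))
    (v : Fin n → ZFSet.{0}) (hv : ∀ i, v i ∈ KS F ξ) :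
    ZFSet.sep (fun x => φ.Sat (KA F ξ) (Fin.cons x v)) (KS F ξ) ∈ KS F (ξ + Ordinal.omega0) := by
  have h' := isSuccLimit_add_omega ξ
  have hξ : ξ < ξ + Ordinal.omega0 := by
    simp
  have h1 : ξ + 1 < ξ + Ordinal.omega0 := h'.succ_lt hξ
  have hF' : F ∩ KS F ξ ∈ KS F (ξ + Ordinal.omega0) := ks_mono h1.le (fks_mem h)
  have hW : KW F ξ ∈ KS F (ξ + Ordinal.omega0) := ks_mono h1.le (kw_mem_succ h)
  have hX : KS F ξ ∈ KS F (ξ + Ordinal.omega0) := ks_mem hξ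
  have hL := gr_lvl_mem (F := F) h h' hξ
  -- the variables: `x`, the universe, the predicates, the function, the parameters
  have h4 : ∀ w : Fin (n + 5) → ZFSet.{0}, (fun i => w
      ((Fin.cons 0 fun i => i.succ.succ.succ.succ.succ : Fin (n + 1) → Fin (n + 5)) i)) =
        Fin.cons (w 0) fun i => w i.succ.succ.succ.succ.succ := by
    intro w
    funext i
    refine Fin.cases ?_ (fun i => ?_) i
    · rfl
    · rfl
  have hd : D1 fun w : Fin (n + 5) → ZFSet.{0} => φ.Sat (stc (w 1) (w 2) (w 3) (w 4))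
      (Fin.cons (w 0) fun i => w i.succ.succ.succ.succ.succ) :=
    (d1_sat φ (n + 4) 1 2 3 4
      (Fin.cons 0 fun i => i.succ.succ.succ.succ.succ : Fin (n + 1) → Fin (n + 5))).congr
        fun w => by rw [h4]
  have h2 := d1_sep (F := F) h' hd (v := (Fin.cons (KS F ξ) (Fin.cons (F ∩ KS F ξ)
    (Fin.cons (KW F ξ) (Fin.cons (gr (lvl F) (KS F ξ)) v))) : Fin (n + 4) → ZFSet.{0}))
    (Fin.cases hX (Fin.cases hF' (Fin.cases hW (Fin.cases hL fun i =>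
      ks_mono hξ.le (hv i))))) hX
  have h3 : ZFSet.sep (fun x => φ.Sat (KA F ξ) (Fin.cons x v)) (KS F ξ) =
      ZFSet.sep (fun x => φ.Sat (stc (KS F ξ) (F ∩ KS F ξ) (KW F ξ) (gr (lvl F) (KS F ξ)))
        (Fin.cons x v)) (KS F ξ) := by
    ext x
    rw [ZFSet.mem_sep, ZFSet.mem_sep]
    refine and_congr_right fun hx => ?_
    refine sat_congr_stc (𝔄 := KA F ξ)
      (𝔅 := stc (KS F ξ) (F ∩ KS F ξ) (KW F ξ) (gr (lvl F) (KS F ξ))) rfl ?_ ?_ ?_ φ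
      (Fin.cons x v) (fun i => ?_)
    · intro y hy
      change y ∈ F ↔ y ∈ F ∩ KS F ξ
      rw [ZFSet.mem_inter]
      exact ⟨fun h4 => ⟨h4, hy⟩, fun h4 => h4.1⟩
    · intro y _ z _
      exact Iff.rfl
    · intro y hy
      exact (app_gr hy).symm
    · refine Fin.cases ?_ (fun i => ?_) i
      · exact hx
      · exact hv i
  rw [h3]
  exact h2

end Pool.Agent.helper797_cs
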