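import Pool.Agent.helper797_cs.PI1
import Pool.Agent.helper797_cs.PK3

/-! # I2: the theorem of Łoś -/

set_option autoImplicit false
namespace Pool.Agent.helper797_cs
open Pool.Agent.W868 Pool.Agent.R587
open ZFSet (pair)
open Cardinal Order

variable {κ : Cardinal.{0}} {U : ZFSet.{0}} (hU : IsNormalMeasure κ U)

namespace LosAux

open Classical in
/-- A common support. -/
theorem exists_supp {Q : ZFSet.{0}} {θ : Ordinal.{0}} {𝔄 : Asg → Stc} {s : Finset Ordinal.{0}}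
    (hsθ : ∀ i ∈ s, i < θ) (h𝔄 : Supp s 𝔄) {n : ℕ} {f : Fin n → Asg → ZFSet.{0}}
    (hf : ∀ j, IsFT Q θ (f j)) :
    ∃ t : Finset Ordinal.{0}, (∀ i ∈ t, i < θ) ∧
      ∀ x y : Asg, (∀ i ∈ t, x i = y i) → 𝔄 x = 𝔄 y ∧ ∀ j, f j x = f j y := by
  choose t ht using fun j => (hf j).1
  refine ⟨s ∪ Finset.univ.biUnion t, ?_, ?_⟩
  · intro i hi
    rcases Finset.mem_union.mp hi with h | h
    · exact hsθ i h
    · obtain ⟨j, -, hj⟩ := Finset.mem_biUnion.mp h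
      exact (ht j).1 i hj
  · intro x y h
    refine ⟨h𝔄 x y fun i hi => h i (Finset.mem_union_left _ hi), fun j => ?_⟩
    exact (ht j).2 x y fun i hi => h i (Finset.mem_union_right _ (Finset.mem_biUnion.mpr
      ⟨j, Finset.mem_univ j, hi⟩))

/-- The statement of the theorem for one relation. -/
def Gd {Q : ZFSet.{0}} {θ : Ordinal.{0}} (J : Iter U Q θ) (𝔄 : Asg → Stc) (𝔅 : Stc) (n : ℕ)
    (S : Stc → (Fin n → ZFSet.{0}) → Prop) : Prop :=
  ∀ f : Fin n → Asg → ZFSet.{0}, (∀ j, IsFT Q θ (f j)) →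
    (∀ j, AE U fun x => f j x ∈ (𝔄 x).A) →
    (S 𝔅 (fun j => J.val (f j)) ↔ AE U fun x => S (𝔄 x) fun j => f j x)

section
variable {Q : ZFSet.{0}} {θ : Ordinal.{0}} {J : Iter U Q θ} {𝔄 : Asg → Stc} {𝔅 : Stc}
  {s : Finset Ordinal.{0}} {n : ℕ}

theorem supp_S (hsθ : ∀ i ∈ s, i < θ) (h𝔄 : Supp s 𝔄) {f : Fin n → Asg → ZFSet.{0}}
    (hf : ∀ j, IsFT Q θ (f j)) (S : Stc → (Fin n → ZFSet.{0}) → Prop) :
    ∃ t, Supp t fun x => S (𝔄 x) fun j => f j x := by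
  obtain ⟨t, -, ht⟩ := exists_supp hsθ h𝔄 hf
  refine ⟨t, fun x y h => ?_⟩
  obtain ⟨h1, h2⟩ := ht x y h
  show S (𝔄 x) (fun j => f j x) = S (𝔄 y) (fun j => f j y)
  rw [h1, funext h2]

include hU

theorem gd_not (hsθ : ∀ i ∈ s, i < θ) (h𝔄 : Supp s 𝔄) {S : Stc → (Fin n → ZFSet.{0}) → Prop}
    (h : Gd J 𝔄 𝔅 n S) : Gd J 𝔄 𝔅 n fun A v => ¬ S A v := by
  intro f hf hfA
  rw [ae_not hU (supp_S hsθ h𝔄 hf S)]
  exact not_congr (h f hf hfA)

theorem gd_and (hsθ : ∀ i ∈ s, i < θ) (h𝔄 : Supp s 𝔄) {S T : Stc → (Fin n → ZFSet.{0}) → Prop}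
    (h : Gd J 𝔄 𝔅 n S) (h' : Gd J 𝔄 𝔅 n T) : Gd J 𝔄 𝔅 n fun A v => S A v ∧ T A v := by
  intro f hf hfA
  rw [ae_and hU (supp_S hsθ h𝔄 hf S) (supp_S hsθ h𝔄 hf T)]
  exact and_congr (h f hf hfA) (h' f hf hfA)

open Classical in
theorem gd_ex (hne : ∃ x, x ∈ Q) (hsθ : ∀ i ∈ s, i < θ) (h𝔄 : Supp s 𝔄)
    (hsub : ∀ x, ∀ a ∈ (𝔄 x).A, a ∈ Q)
    (hB : ∀ y, y ∈ 𝔅.A ↔ ∃ f, IsFT Q θ f ∧ (AE U fun x => f x ∈ (𝔄 x).A) ∧ y = J.val f)
    {S : Stc → (Fin (n + 1) → ZFSet.{0}) → Prop} (h : Gd J 𝔄 𝔅 (n + 1) S) :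
    Gd J 𝔄 𝔅 n fun A v => ∃ a ∈ A.A, S A (Fin.cons a v) := by
  intro f hf hfA
  have hcons : ∀ (g : Asg → ZFSet.{0}) (x : Asg),
      (fun j => (Fin.cons g f : Fin (n + 1) → Asg → ZFSet.{0}) j x) =
        Fin.cons (g x) fun j => f j x := by
    intro g x
    funext j
    refine Fin.cases ?_ (fun j => ?_) j
    · rfl
    · simp only [Fin.cons_succ]
  have hcons' : ∀ g : Asg → ZFSet.{0},
      (fun j => J.val ((Fin.cons g f : Fin (n + 1) → Asg → ZFSet.{0}) j)) =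
        Fin.cons (J.val g) fun j => J.val (f j) := by
    intro g
    funext j
    refine Fin.cases ?_ (fun j => ?_) j
    · rfl
    · simp only [Fin.cons_succ]
  have key : ∀ g, IsFT Q θ g → (AE U fun x => g x ∈ (𝔄 x).A) →
      (S 𝔅 (Fin.cons (J.val g) fun j => J.val (f j)) ↔
        AE U fun x => S (𝔄 x) (Fin.cons (g x) fun j => f j x)) := by
    intro g hg hgA
    have h1 := h (Fin.cons g f)
      (by
        intro j
        refine Fin.cases ?_ (fun j => ?_) j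
        · exact hg
        · exact hf j)
      (by
        intro j
        refine Fin.cases ?_ (fun j => ?_) j
        · exact hgA
        · exact hfA j)
    rw [hcons'] at h1
    simp only [hcons] at h1
    exact h1
  have hsuppE := supp_S hsθ h𝔄 hf fun A v => ∃ a ∈ A.A, S A (Fin.cons a v)
  constructor
  · rintro ⟨a, ha, hSa⟩
    obtain ⟨g, hg, hgA, rfl⟩ := (hB a).mp ha
    have h2 := (key g hg hgA).mp hSa
    have hg1 : ∃ t, Supp t fun x => g x ∈ (𝔄 x).A := by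
      have := supp_S (f := fun _ : Fin 1 => g) hsθ h𝔄 (fun _ => hg) fun A v => v 0 ∈ A.A
      exact this
    have hg2 : ∃ t, Supp t fun x => S (𝔄 x) (Fin.cons (g x) fun j => f j x) := by
      have := supp_S (f := (Fin.cons g f : Fin (n + 1) → Asg → ZFSet.{0})) hsθ h𝔄
        (by
          intro j
          refine Fin.cases ?_ (fun j => ?_) j
          · exact hg
          · exact hf j) S
      simp only [hcons] at this
      exact this
    have h3 := (ae_and hU hg1 hg2).mpr ⟨hgA, h2⟩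
    exact ae_mono hU hsuppE (fun x _ hx => ⟨g x, hx.1, hx.2⟩) h3
  · intro hAE
    obtain ⟨q0, hq0⟩ := hne
    let G : Stc → (Fin n → ZFSet.{0}) → ZFSet.{0} := fun A v =>
      if hh : ∃ a ∈ A.A, S A (Fin.cons a v) then hh.choose else q0
    let g : Asg → ZFSet.{0} := fun x => G (𝔄 x) fun j => f j x
    have hg : IsFT Q θ g := by
      obtain ⟨t, ht1, ht2⟩ := exists_supp hsθ h𝔄 hf
      refine ⟨⟨t, ht1, fun x y hxy => ?_⟩, fun x => ?_⟩
      · obtain ⟨h1, h2⟩ := ht2 x y hxy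
        show G (𝔄 x) (fun j => f j x) = G (𝔄 y) (fun j => f j y)
        rw [h1, funext h2]
      · show G (𝔄 x) (fun j => f j x) ∈ Q
        by_cases hh : ∃ a ∈ (𝔄 x).A, S (𝔄 x) (Fin.cons a fun j => f j x)
        · have h1 : G (𝔄 x) (fun j => f j x) = hh.choose := dif_pos hh
          rw [h1]
          exact hsub x _ hh.choose_spec.1
        · have h1 : G (𝔄 x) (fun j => f j x) = q0 := dif_neg hh
          rw [h1]
          exact hq0
    have hspec : ∀ x, (∃ a ∈ (𝔄 x).A, S (𝔄 x) (Fin.cons a fun j => f j x)) →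
        g x ∈ (𝔄 x).A ∧ S (𝔄 x) (Fin.cons (g x) fun j => f j x) := by
      intro x hh
      have h1 : g x = hh.choose := dif_pos hh
      rw [h1]
      exact hh.choose_spec
    have hg1 : ∃ t, Supp t fun x => g x ∈ (𝔄 x).A := by
      have := supp_S (f := fun _ : Fin 1 => g) hsθ h𝔄 (fun _ => hg) fun A v => v 0 ∈ A.A
      exact this
    have hg2 : ∃ t, Supp t fun x => S (𝔄 x) (Fin.cons (g x) fun j => f j x) := by
      have := supp_S (f := (Fin.cons g f : Fin (n + 1) → Asg → ZFSet.{0})) hsθ h𝔄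
        (by
          intro j
          refine Fin.cases ?_ (fun j => ?_) j
          · exact hg
          · exact hf j) S
      simp only [hcons] at this
      exact this
    have h2 : AE U fun x => g x ∈ (𝔄 x).A :=
      ae_mono hU hg1 (fun x _ hx => (hspec x hx).1) hAE
    have h3 : AE U fun x => S (𝔄 x) (Fin.cons (g x) fun j => f j x) :=
      ae_mono hU hg2 (fun x _ hx => (hspec x hx).2) hAE
    exact ⟨J.val g, (hB _).mpr ⟨g, hg, h2, rfl⟩, (key g hg h2).mpr h3⟩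

end

end LosAux

include hU

/-- General form: structures that depend on the assignment, `F`, `lt`, `lv` included. (`hQ'` gives
values outside of the relevant set of assignments.) -/
theorem los_gen {Q : ZFSet.{0}} {θ : Ordinal.{0}} (J : Iter U Q θ) (hne : ∃ x, x ∈ Q)
    {𝔄 : Asg → Stc} {𝔅 : Stc} {s : Finset Ordinal.{0}} (hsθ : ∀ i ∈ s, i < θ)
    (h𝔄 : Supp s 𝔄) (hsub : ∀ x, ∀ a ∈ (𝔄 x).A, a ∈ Q)
    (hB : ∀ y, y ∈ 𝔅.A ↔ ∃ f, IsFT Q θ f ∧ (AE U fun x => f x ∈ (𝔄 x).A) ∧ y = J.val f)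
    (hF : ∀ f, IsFT Q θ f → (AE U fun x => f x ∈ (𝔄 x).A) →
      (𝔅.F (J.val f) ↔ AE U fun x => (𝔄 x).F (f x)))
    (hlt : ∀ f g, IsFT Q θ f → IsFT Q θ g → (AE U fun x => f x ∈ (𝔄 x).A) →
      (AE U fun x => g x ∈ (𝔄 x).A) →
      (𝔅.lt (J.val f) (J.val g) ↔ AE U fun x => (𝔄 x).lt (f x) (g x)))
    (hlv : ∀ f g, IsFT Q θ f → IsFT Q θ g → (AE U fun x => f x ∈ (𝔄 x).A) →
      (AE U fun x => g x ∈ (𝔄 x).A) →
      (𝔅.lv (J.val f) = J.val g ↔ AE U fun x => (𝔄 x).lv (f x) = g x))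
    {n : ℕ} (φ : Fo n) (f : Fin n → Asg → ZFSet.{0}) (hf : ∀ j, IsFT Q θ (f j))
    (hfA : ∀ j, AE U fun x => f j x ∈ (𝔄 x).A) :
    φ.Sat 𝔅 (fun j => J.val (f j)) ↔ AE U fun x => φ.Sat (𝔄 x) fun j => f j x := by
  have main : ∀ (n : ℕ) (φ : Fo n), LosAux.Gd J 𝔄 𝔅 n fun A v => φ.Sat A v := by
    intro n φ
    induction φ with
    | mem i j => exact fun f hf hfA => J.mem_iff _ _ (hf i) (hf j)
    | eq i j => exact fun f hf hfA => J.eq_iff _ _ (hf i) (hf j)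
    | pF i => exact fun f hf hfA => hF _ (hf i) (hfA i)
    | lt i j => exact fun f hf hfA => hlt _ _ (hf i) (hf j) (hfA i) (hfA j)
    | lv i j => exact fun f hf hfA => hlv _ _ (hf i) (hf j) (hfA i) (hfA j)
    | neg φ ih => exact LosAux.gd_not hU hsθ h𝔄 ih
    | and φ ψ ih1 ih2 => exact LosAux.gd_and hU hsθ h𝔄 ih1 ih2
    | ex φ ih => exact LosAux.gd_ex hU hne hsθ h𝔄 hsub hB ih
    | @bex m i φ ih =>
      have h1 : LosAux.Gd J 𝔄 𝔅 (m + 1) fun _ v => v 0 ∈ v i.succ :=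
        fun f hf hfA => J.mem_iff _ _ (hf 0) (hf i.succ)
      have h2 := LosAux.gd_and hU hsθ h𝔄 h1 ih
      exact LosAux.gd_ex hU hne hsθ h𝔄 hsub hB h2
  exact main n φ f hf hfA

/-- A constant proposition. -/
theorem LosAux.ae_const (P : Prop) : P ↔ AE U fun _ => P := by
  constructor
  · intro h
    exact ae_of_forall hU ⟨∅, fun _ _ _ => rfl⟩ fun _ _ => h
  · intro h
    obtain ⟨x, -, hx⟩ := ae_exists hU h
    exact hx

/-- The theorem for the structures without `F`, `lt`, `lv`. -/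
theorem LosAux.los_const {Q : ZFSet.{0}} {θ : Ordinal.{0}} (J : Iter U Q θ) (hne : ∃ x, x ∈ Q)
    {n : ℕ} (φ : Fo n) (f : Fin n → Asg → ZFSet.{0}) (hf : ∀ j, IsFT Q θ (f j)) :
    φ.Sat ⟨{x | x ∈ J.R}, fun _ => False, fun _ _ => False, fun x => x⟩
        (fun j => J.val (f j)) ↔
      AE U fun x => φ.Sat ⟨{x | x ∈ Q}, fun _ => False, fun _ _ => False, fun x => x⟩
        fun j => f j x := by
  have hmem : ∀ g, IsFT Q θ g → AE U fun x => g x ∈ Q := by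
    intro g hg
    obtain ⟨t, -, ht⟩ := hg.1
    refine ae_of_forall hU ⟨t, fun x y h => ?_⟩ fun x _ => hg.2 x
    show (g x ∈ Q) = (g y ∈ Q)
    rw [ht x y h]
  refine los_gen hU J hne (s := ∅)
    (𝔄 := fun _ => ⟨{x | x ∈ Q}, fun _ => False, fun _ _ => False, fun x => x⟩)
    (𝔅 := ⟨{x | x ∈ J.R}, fun _ => False, fun _ _ => False, fun x => x⟩)
    (by simp) (fun _ _ _ => rfl) (fun _ a ha => ha) ?_ ?_ ?_ ?_ φ f hf (fun j => hmem _ (hf j))
  · intro y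
    show y ∈ J.R ↔ _
    rw [J.mem_R]
    constructor
    · rintro ⟨g, hg, rfl⟩
      exact ⟨g, hg, hmem g hg, rfl⟩
    · rintro ⟨g, hg, -, rfl⟩
      exact ⟨g, hg, rfl⟩
  · intro g _ _
    exact LosAux.ae_const hU False
  · intro g g' _ _ _ _
    exact LosAux.ae_const hU False
  · intro g g' hg hg' _ _
    exact J.eq_iff g g' hg hg'

/-- Bounded formulas. -/
theorem los_db {Q : ZFSet.{0}} (hQ : ∀ x ∈ Q, ∀ y ∈ x, y ∈ Q) {θ : Ordinal.{0}}
    (J : Iter U Q θ) {n : ℕ} {R : (Fin n → ZFSet.{0}) → Prop} (hR : DB R)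
    (f : Fin n → Asg → ZFSet.{0}) (hf : ∀ j, IsFT Q θ (f j)) :
    R (fun j => J.val (f j)) ↔ AE U fun x => R fun j => f j x := by
  rcases Nat.eq_zero_or_pos n with rfl | hn
  · have h1 : ∀ x : Asg, (fun j => f j x) = fun j => J.val (f j) := fun x =>
      Subsingleton.elim _ _
    simp only [h1]
    exact LosAux.ae_const hU _
  · have hne : ∃ x, x ∈ Q := ⟨_, (hf ⟨0, hn⟩).2 fun _ => 0⟩
    obtain ⟨φ, -, hφ⟩ := hR
    have h1 := LosAux.los_const hU J hne φ f hf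
    rw [hφ ⟨{x | x ∈ J.R}, fun _ => False, fun _ _ => False, fun x => x⟩ J.trans _
      (fun i => (J.mem_R _).mpr ⟨f i, hf i, rfl⟩)] at h1
    have h2 : (fun x : Asg => φ.Sat ⟨{x | x ∈ Q}, fun _ => False, fun _ _ => False, fun x => x⟩
        fun j => f j x) = fun x => R fun j => f j x := by
      funext x
      exact propext (hφ ⟨{x | x ∈ Q}, fun _ => False, fun _ _ => False, fun x => x⟩ hQ _
        fun i => (hf i).2 x)
    rw [h2] at h1
    exact h1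

omit hU in
/-- Translation of formulas. -/
def LosAux.tr : {n : ℕ} → Fml Empty n → Fo n
  | _, .mem (Sum.inl i) (Sum.inl j) => .mem i j
  | _, .eq (Sum.inl i) (Sum.inl j) => .eq i j
  | _, .neg φ => .neg (LosAux.tr φ)
  | _, .and φ ψ => .and (LosAux.tr φ) (LosAux.tr ψ)
  | _, .ex φ => .ex (LosAux.tr φ)

omit hU in
theorem LosAux.sat_tr (𝔄 : Stc) : {n : ℕ} → (φ : Fml Empty n) → (v : Fin n → ZFSet.{0}) →
    (Sat 𝔄.A Empty.elim φ v ↔ (LosAux.tr φ).Sat 𝔄 v)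
  | _, .mem (Sum.inl i) (Sum.inl j), v => by simp only [Sat, LosAux.tr, Fo.Sat, Sum.elim_inl]
  | _, .eq (Sum.inl i) (Sum.inl j), v => by simp only [Sat, LosAux.tr, Fo.Sat, Sum.elim_inl]
  | _, .neg φ, v => by simp only [Sat, LosAux.tr, Fo.Sat, LosAux.sat_tr 𝔄 φ]
  | _, .and φ ψ, v => by simp only [Sat, LosAux.tr, Fo.Sat, LosAux.sat_tr 𝔄 φ, LosAux.sat_tr 𝔄 ψ]
  | _, .ex φ, v => by simp only [Sat, LosAux.tr, Fo.Sat, LosAux.sat_tr 𝔄 φ]

/-- All formulas, in `Q` and `J.R`. -/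
theorem los_fml {Q : ZFSet.{0}} (hQ : ∀ x ∈ Q, ∀ y ∈ x, y ∈ Q) {θ : Ordinal.{0}}
    (J : Iter U Q θ) {n : ℕ} (φ : Fml Empty n) (f : Fin n → Asg → ZFSet.{0})
    (hf : ∀ j, IsFT Q θ (f j)) :
    Sat {x | x ∈ J.R} Empty.elim φ (fun j => J.val (f j)) ↔
      AE U fun x => Sat {x | x ∈ Q} Empty.elim φ fun j => f j x := by
  by_cases hne : ∃ x, x ∈ Q
  · have h1 := LosAux.los_const hU J hne (LosAux.tr φ) f hf
    have h2 : ∀ (X : ZFSet.{0}) (v : Fin n → ZFSet.{0}),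
        Sat {x | x ∈ X} Empty.elim φ v ↔
          (LosAux.tr φ).Sat ⟨{x | x ∈ X}, fun _ => False, fun _ _ => False, fun x => x⟩ v :=
      fun X v => LosAux.sat_tr ⟨{x | x ∈ X}, fun _ => False, fun _ _ => False, fun x => x⟩ φ v
    simp only [h2]
    exact h1
  · have hn : n = 0 := by
      rcases Nat.eq_zero_or_pos n with h | hn
      · exact h
      · exact absurd ⟨_, (hf ⟨0, hn⟩).2 fun _ => 0⟩ hne
    subst hn
    have h1 : ∀ x : Asg, (fun j => f j x) = fun j => J.val (f j) := fun x =>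
      Subsingleton.elim _ _
    have h2 : {x | x ∈ J.R} = {x | x ∈ Q} := by
      ext y
      constructor
      · intro hy
        obtain ⟨g, hg, -⟩ := (J.mem_R y).mp hy
        exact absurd ⟨_, hg.2 fun _ => 0⟩ hne
      · intro hy
        exact absurd ⟨y, hy⟩ hne
    rw [h2]
    simp only [h1]
    exact LosAux.ae_const hU _

end Pool.Agent.helper797_cs
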