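import Pool.Agent.helper797_cs.PK0c

/-!
# K3, part d: closure of the limit levels, `lvl` as a `Δ₀` relation
-/

set_option autoImplicit false
set_option linter.unreachableTactic false
set_option linter.unusedTactic false

namespace Pool.Agent.helper797_cs

open Pool.Agent.W868 Pool.Agent.R587
open ZFSet (pair)
open Cardinal Order

variable {F : ZFSet.{0}}

theorem pk3_common {ξ : Ordinal.{0}} (h : IsSuccLimit ξ) {n : ℕ} {v : Fin n → ZFSet.{0}}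
    (hv : ∀ i, v i ∈ KS F ξ) : ∃ η < ξ, ∀ i, v i ∈ KS F η := by
  choose η h1 h2 using fun i => (ks_limit h).1 (hv i)
  have h0 : ⊥ < ξ := bot_lt_iff_ne_bot.2 fun h3 => by
    rw [h3] at h
    exact h.1 isMin_bot
  refine ⟨Finset.univ.sup η, (Finset.sup_lt_iff h0).2 fun i _ => h1 i, fun i => ?_⟩
  exact ks_mono (Finset.le_sup (f := η) (Finset.mem_univ i)) (h2 i)

/-- `Δ₀` separation. -/
theorem pk3_sep {ξ : Ordinal.{0}} (h : IsSuccLimit ξ) {n : ℕ}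
    {Q : ZFSet.{0} → (Fin n → ZFSet.{0}) → Prop}
    (hQ : Dz fun w : Fin (n + 1) → ZFSet.{0} => Q (w 0) (Fin.tail w)) {x : ZFSet.{0}}
    (hx : x ∈ KS F ξ) {v : Fin n → ZFSet.{0}} (hv : ∀ i, v i ∈ KS F ξ) :
    ZFSet.sep (fun z => Q z v) x ∈ KS F ξ := by
  obtain ⟨η, hη, h1⟩ := pk3_common (F := F) h (n := n + 1) (v := Fin.cons x v) (by
    intro i
    refine Fin.cases ?_ (fun i => ?_) i
    · exact hx
    · exact hv i)
  have hx' : x ∈ KS F η := h1 0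
  have hv' : ∀ i, v i ∈ KS F η := fun i => h1 i.succ
  have hC := ks_gd (F := F) h
  have h2 : Dfn {x | x ∈ KS F η} {x | x ∈ KS F η} fun w : Fin 1 → ZFSet.{0} => Q (w 0) v :=
    Dfn.spec (R := Q) (hQ.d0.dfn (ks_trans η)) hv'
  have h3 := hC.sepD (ks_mem hη) (Q := fun z => Q z v) h2
  have h4 : x ∩ ZFSet.sep (fun z => Q z v) (KS F η) = ZFSet.sep (fun z => Q z v) x := by
    ext z
    rw [ZFSet.mem_inter, ZFSet.mem_sep, ZFSet.mem_sep]
    exact ⟨fun h => ⟨h.1, h.2.2⟩, fun h => ⟨h.1, ks_trans η _ hx' _ h.1, h.2⟩⟩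
  rw [← h4]
  exact hC.inter_mem hx h3

section

variable {ξ : Ordinal.{0}} (h : IsSuccLimit ξ)

include h

theorem pk3_emp : ∅ ∈ KS F ξ := (ks_gd h).empty_mem

theorem pk3_pair {x y : ZFSet.{0}} (hx : x ∈ KS F ξ) (hy : y ∈ KS F ξ) : pair x y ∈ KS F ξ :=
  (ks_gd h).upair_mem ((ks_gd h).single_mem hx) ((ks_gd h).upair_mem hx hy)

theorem pk3_union {x y : ZFSet.{0}} (hx : x ∈ KS F ξ) (hy : y ∈ KS F ξ) : x ∪ y ∈ KS F ξ := by
  have h1 := (ks_gd h).sUnion_mem ((ks_gd h).upair_mem hx hy)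
  rwa [ZFSet.sUnion_pair] at h1

theorem pk3_insert {x y : ZFSet.{0}} (hx : x ∈ KS F ξ) (hy : y ∈ KS F ξ) :
    insert x y ∈ KS F ξ := by
  have h1 := pk3_union h ((ks_gd h).single_mem hx) hy
  have h2 : ({x} ∪ y : ZFSet.{0}) = insert x y := by
    ext z
    simp
  rwa [h2] at h1

omit h in
theorem pk3_of_pair {η : Ordinal.{0}} {x y : ZFSet.{0}} (hp : pair x y ∈ KS F η) :
    x ∈ KS F η ∧ y ∈ KS F η := by
  have h1 : ({x, y} : ZFSet.{0}) ∈ KS F η := ks_trans η _ hp _ (by simp [pair])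
  exact ⟨ks_trans η _ h1 _ (by simp), ks_trans η _ h1 _ (by simp)⟩

/-- The values of the hierarchy are elements. -/
theorem pk3_eh_mem : ∀ η < ξ, Eh F η.toZFSet ∈ KS F ξ := by
  intro η
  induction η using WellFoundedLT.induction with
  | _ η ih =>
  intro hη
  rcases Ordinal.zero_or_succ_or_isSuccLimit η with rfl | ⟨ζ, rfl⟩ | hl
  · rw [eh_zero]
    have h0 := pk3_emp (F := F) h
    exact pk3_pair h h0 (pk3_pair h h0 (pk3_pair h h0 h0))
  · have h1 : Eh F (Order.succ ζ).toZFSet = nxt (Eh F ζ.toZFSet) := eh_succ ζ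
    have h2 : ζ < Order.succ ζ := Order.lt_succ ζ
    have h3 := ih ζ h2 (h2.trans hη)
    obtain ⟨q, r, h4⟩ := pk3_eh (F := F) ζ
    have h5 : (stg (KS F ζ) (KW F ζ) q r 12).1 ∈ KS F ξ := by
      have h6 : KS F (Order.succ ζ) = (stg (KS F ζ) (KW F ζ) q r 12).1 := by
        rw [KS, h1, nxt, pk3_eS, h4, pk3_eS, pk3_eW, pk3_eP, pk3_eR]
      rw [← h6]
      exact ks_mem hη
    rw [h4] at h3
    obtain ⟨hX, h3⟩ := pk3_of_pair h3
    obtain ⟨hW, h3⟩ := pk3_of_pair h3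
    obtain ⟨hP, hR⟩ := pk3_of_pair h3
    have h7 : (stg (KS F ζ) (KW F ζ) q r 12).2 ∈ KS F ξ := by
      have h8 := pk3_sep (F := F) h (n := 4) (Q := fun p v => ∃ z z', p = pair z z' ∧
        pair z z' ∈ (stg (v 0) (v 1) (v 2) (v 3) 12).2) (by
          apply Dz.expair (D0v.proj 0)
          exact pk3_dz_mem_stg2 12 (D0v.proj 1) (D0v.proj 0) (D0v.proj 3) (D0v.proj 4)
            (D0v.proj 5) (D0v.proj 6)) ((ks_gd h).prod_mem h5 h5)
          (v := ![KS F ζ, KW F ζ, q, r]) (by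
            intro i
            fin_cases i
            · exact hX
            · exact hW
            · exact hP
            · exact hR)
      have h9 : ZFSet.sep (fun p => ∃ z z', p = pair z z' ∧
          pair z z' ∈ (stg (KS F ζ) (KW F ζ) q r 12).2)
          (ZFSet.prod (stg (KS F ζ) (KW F ζ) q r 12).1 (stg (KS F ζ) (KW F ζ) q r 12).1) =
          (stg (KS F ζ) (KW F ζ) q r 12).2 := by
        ext p
        rw [ZFSet.mem_sep]
        constructor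
        · rintro ⟨-, z, z', rfl, h10⟩
          exact h10
        · intro hp
          have hp' := hp
          rw [pk3_stg2] at hp'
          obtain ⟨z, z', rfl, h11, h12, -⟩ := pk3_mem_stV.1 hp'
          rw [← pk3_stg1] at h11 h12
          exact ⟨ZFSet.pair_mem_prod.2 ⟨h11, h12⟩, z, z', rfl, hp⟩
      rw [← h9]
      exact h8
    rw [h1, nxt, h4, pk3_eS, pk3_eW, pk3_eP, pk3_eR]
    have h0 := pk3_emp (F := F) h
    exact pk3_pair h h5 (pk3_pair h h7 (pk3_pair h h0 h0))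
  · rw [eh_limit hl]
    have h1 : η + 1 ≤ ξ := Order.add_one_le_of_lt hη
    have h2 : KW F η ∈ KS F ξ := ks_mono h1 (kw_mem_succ hl)
    exact pk3_pair h (ks_mem hη) (pk3_pair h h2 (pk3_pair h (ks_mono h1 (fks_mem hl)) h2))

end

/-- Only the part of `F` in the level matters. -/
theorem pk3_LSF_inter {η : Ordinal.{0}} {s : ZFSet.{0}} (hs : s ∈ KS F η) :
    LSF (F ∩ KS F η) s ↔ LSF F s := by
  unfold LSF
  refine forall₂_congr fun p hp => exists_congr fun ζ => exists_congr fun e =>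
    and_congr_right fun he => imp_congr_right fun _ => exists_congr fun y => exists_congr fun t =>
    and_congr_right fun hy => exists_congr fun w => exists_congr fun t' => and_congr_right fun _ =>
    exists_congr fun q => exists_congr fun r => and_congr_right fun _ =>
    forall₂_congr fun x hx => ?_
  have h1 : p ∈ KS F η := ks_trans η _ hs _ hp
  rw [he, hy] at h1
  have h2 := (pk3_of_pair (pk3_of_pair h1).2).1
  have h3 := ks_trans η _ h2 _ hx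
  rw [ZFSet.mem_inter]
  exact iff_congr Iff.rfl ⟨fun h => h.1, fun h => ⟨h, h3⟩⟩

/-- Level sequences in a level. -/
theorem pk3_LS_iff' {η : Ordinal.{0}} {s δ : ZFSet.{0}} (hs : s ∈ KS F η) :
    LS0 s δ ∧ LSF (F ∩ KS F η) s ↔ ∃ ζ : Ordinal.{0}, δ = ζ.toZFSet ∧ s = sq F ζ := by
  rw [pk3_LSF_inter hs, pk3_LS_iff]

theorem pk3_sq_succ (η : Ordinal.{0}) : sq F (η + 1) =
    insert (pair (η + 1).toZFSet (Eh F (η + 1).toZFSet)) (sq F η) := by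
  ext p
  rw [pk3_mem_sq, ZFSet.mem_insert_iff, pk3_mem_sq]
  constructor
  · rintro ⟨ζ, hζ, rfl⟩
    rcases hζ.lt_or_eq with h | rfl
    · exact Or.inr ⟨ζ, Order.lt_add_one_iff.1 h, rfl⟩
    · exact Or.inl rfl
  · rintro (rfl | ⟨ζ, hζ, rfl⟩)
    · exact ⟨_, le_rfl, rfl⟩
    · exact ⟨ζ, hζ.trans (Order.lt_add_one_iff.2 le_rfl).le, rfl⟩

theorem pk3_sq_gr (η : Ordinal.{0}) : sq F η =
    insert (pair η.toZFSet (Eh F η.toZFSet)) (gr (Eh F) η.toZFSet) := by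
  ext p
  rw [pk3_mem_sq, ZFSet.mem_insert_iff, mem_gr]
  constructor
  · rintro ⟨ζ, hζ, rfl⟩
    rcases hζ.lt_or_eq with h | rfl
    · exact Or.inr ⟨_, Ordinal.toZFSet_mem_toZFSet_iff.2 h, rfl⟩
    · exact Or.inl rfl
  · rintro (rfl | ⟨u, hu, rfl⟩)
    · exact ⟨_, le_rfl, rfl⟩
    · obtain ⟨ζ, hζ, rfl⟩ := Ordinal.mem_toZFSet_iff.1 hu
      exact ⟨ζ, hζ.le, rfl⟩

/-- The sequence below a limit. -/
theorem pk3_gr_mem {ξ η : Ordinal.{0}} (h : IsSuccLimit ξ) (hη : η < ξ) (hl : IsSuccLimit η)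
    (ih : ∀ ζ < η, sq F ζ ∈ KS F η) : gr (Eh F) η.toZFSet ∈ KS F ξ := by
  have h1 : η + 1 ≤ ξ := Order.add_one_le_of_lt hη
  have h8 := pk3_sep (F := F) h (n := 2) (Q := fun p v => ∃ s ∈ v 0, ∃ δ ∈ v 0,
    (LS0 s δ ∧ LSF (v 1) s) ∧ p ∈ s) (by
      apply Dz.bex (D0v.proj 1)
      apply Dz.bex (D0v.proj 2)
      refine Dz.and (Dz.and (pk3_dz_LS0 (D0v.proj 1) (D0v.proj 0))
        (pk3_dz_LSF (D0v.proj 4) (D0v.proj 1))) (Dz.mem (D0v.proj 2) (D0v.proj 1)))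
      (ks_mem hη) (v := ![KS F η, F ∩ KS F η]) (by
        intro i
        fin_cases i
        · exact ks_mem hη
        · exact ks_mono h1 (fks_mem hl))
  have h9 : gr (Eh F) η.toZFSet = ZFSet.sep (fun p => ∃ s ∈ KS F η, ∃ δ ∈ KS F η,
    (LS0 s δ ∧ LSF (F ∩ KS F η) s) ∧ p ∈ s) (KS F η) := by
    ext p
    rw [mem_gr, ZFSet.mem_sep]
    constructor
    · rintro ⟨u, hu, rfl⟩
      obtain ⟨ζ, hζ, rfl⟩ := Ordinal.mem_toZFSet_iff.1 hu
      have h2 := ih ζ hζ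
      have h3 : pair ζ.toZFSet (Eh F ζ.toZFSet) ∈ sq F ζ := pk3_mem_sq.2 ⟨ζ, le_rfl, rfl⟩
      exact ⟨ks_trans η _ h2 _ h3, _, h2, _, (ks_ord hl).2 hζ,
        (pk3_LS_iff' h2).2 ⟨ζ, rfl, rfl⟩, h3⟩
    · rintro ⟨-, s, hs, δ, hδ, h2, h3⟩
      obtain ⟨ζ, rfl, rfl⟩ := (pk3_LS_iff' hs).1 h2
      obtain ⟨ζ', h4, rfl⟩ := pk3_mem_sq.1 h3
      exact ⟨_, Ordinal.toZFSet_mem_toZFSet_iff.2 (h4.trans_lt ((ks_ord hl).1 hδ)), rfl⟩
  rw [h9]
  exact h8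

theorem pk3_sq_mem (η : Ordinal.{0}) : ∀ ξ : Ordinal.{0}, IsSuccLimit ξ → η < ξ →
    ∃ η' < ξ, ∀ ζ ≤ η, sq F ζ ∈ KS F η' := by
  induction η using WellFoundedLT.induction with
  | _ η ih =>
  intro ξ h hη
  have hord : η.toZFSet ∈ KS F ξ := (ks_ord h).2 hη
  have hp : pair η.toZFSet (Eh F η.toZFSet) ∈ KS F ξ := pk3_pair h hord (pk3_eh_mem h η hη)
  rcases Ordinal.zero_or_succ_or_isSuccLimit η with rfl | ⟨ζ, rfl⟩ | hl
  · have h1 : sq F 0 ∈ KS F ξ := by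
      rw [pk3_sq_gr]
      refine pk3_insert h hp ?_
      have h2 : gr (Eh F) (0 : Ordinal.{0}).toZFSet = ∅ := by
        rw [ZFSet.eq_empty]
        intro p hp
        obtain ⟨u, hu, rfl⟩ := mem_gr.1 hp
        rw [Ordinal.toZFSet_zero] at hu
        exact ZFSet.notMem_empty _ hu
      rw [h2]
      exact pk3_emp h
    obtain ⟨η', h2, h3⟩ := (ks_limit h).1 h1
    refine ⟨η', h2, fun ζ hζ => ?_⟩
    have h4 : ζ = 0 := le_bot_iff.1 hζ
    rw [h4]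
    exact h3
  · have h2 : ζ < Order.succ ζ := Order.lt_succ ζ
    obtain ⟨η', h3, h4⟩ := ih ζ h2 ξ h (h2.trans hη)
    have h5 : sq F (Order.succ ζ) ∈ KS F ξ := by
      have h6 : sq F (Order.succ ζ) = _ := pk3_sq_succ (F := F) ζ
      rw [h6]
      exact pk3_insert h hp (ks_mono h3.le (h4 ζ le_rfl))
    obtain ⟨η'', h6, h7⟩ := (ks_limit h).1 h5
    refine ⟨max η' η'', max_lt h3 h6, fun ζ' hζ' => ?_⟩
    rcases hζ'.lt_or_eq with h8 | rfl
    · exact ks_mono (le_max_left _ _) (h4 ζ' (Order.lt_succ_iff.1 h8))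
    · exact ks_mono (le_max_right _ _) h7
  · have h1 : ∀ ζ < η, sq F ζ ∈ KS F η := fun ζ hζ => by
      obtain ⟨η', h2, h3⟩ := ih ζ hζ η hl hζ
      exact ks_mono h2.le (h3 ζ le_rfl)
    have h5 : sq F η ∈ KS F ξ := by
      rw [pk3_sq_gr]
      exact pk3_insert h hp (pk3_gr_mem h hη hl h1)
    obtain ⟨η'', h6, h7⟩ := (ks_limit h).1 h5
    refine ⟨max η η'', max_lt hη h6, fun ζ' hζ' => ?_⟩
    rcases hζ'.lt_or_eq with h8 | rfl
    · exact ks_mono (le_max_left _ _) (h1 ζ' h8)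
    · exact ks_mono (le_max_right _ _) h7

/-! ### The function `lvl` -/

theorem pk3_lvl_eq {ξ : Ordinal.{0}} {x : ZFSet.{0}} (hx : x ∈ KS F ξ) :
    ∃ η ≤ ξ, x ∈ KS F η ∧ (∀ ζ < η, x ∉ KS F ζ) ∧ lvl F x = sq F η := by
  have h1 : {η | x ∈ KS F η}.Nonempty := ⟨ξ, hx⟩
  refine ⟨sInf {η | x ∈ KS F η}, csInf_le' hx, csInf_mem h1, fun ζ hζ h2 => ?_, ?_⟩
  · exact notMem_of_lt_csInf' hζ h2
  · have h2 : ∃ η, x ∈ KS F η := ⟨ξ, hx⟩
    rw [lvl, if_pos h2]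

theorem pk3_lvl_lt {ξ : Ordinal.{0}} (h : IsSuccLimit ξ) {x : ZFSet.{0}} (hx : x ∈ KS F ξ) :
    ∃ η < ξ, x ∈ KS F η ∧ (∀ ζ < η, x ∉ KS F ζ) ∧ lvl F x = sq F η := by
  obtain ⟨ζ, h1, h2⟩ := (ks_limit h).1 hx
  obtain ⟨η, h3, h4⟩ := pk3_lvl_eq h2
  exact ⟨η, h3.trans_lt h1, h4⟩

/-- The graph of `lvl` in the level `S`, where `f` is the part of `F` in `S`. -/
def LVR (S f x s : ZFSet.{0}) : Prop :=
  ∃ δ ∈ S, (LS0 s δ ∧ LSF f s) ∧
    (∃ p ∈ s, ∃ a e, p = pair a e ∧ a = δ ∧ ∃ u t, e = pair u t ∧ x ∈ u) ∧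
    ∀ p ∈ s, ∃ a e, p = pair a e ∧ (a ∈ δ → ∃ u t, e = pair u t ∧ x ∉ u)

theorem pk3_dz_LVR {n : ℕ} {S f x s : (Fin n → ZFSet.{0}) → ZFSet.{0}} (hS : D0v S)
    (hf : D0v f) (hx : D0v x) (hs : D0v s) : Dz fun v => LVR (S v) (f v) (x v) (s v) := by
  have key : Dz fun v : Fin 4 → ZFSet.{0} => LVR (v 0) (v 1) (v 2) (v 3) := by
    unfold LVR
    apply Dz.bex (D0v.proj 0)
    refine Dz.and (Dz.and (pk3_dz_LS0 (D0v.proj 4) (D0v.proj 0))
      (pk3_dz_LSF (D0v.proj 2) (D0v.proj 4))) (Dz.and ?_ ?_)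
    · (repeat' first | assumption | exact D0v.proj _ | exact D0v.tail (by assumption) | exact D0v.tail (D0v.tail (by assumption)) | apply Dz.not | apply Dz.and | apply Dz.expair | apply Dz.or | apply Dz.isPair | apply Dz.pairMem | apply Dz.bexI | apply Dz.ballI | apply Dz.bex | apply Dz.ball | apply Dz.imp | apply Dz.iff | apply Dz.subset | apply Dz.isSucc | apply Dz.empty | apply Dz.eq | apply Dz.mem | apply Dz.isOrdinal)
    · (repeat' first | assumption | exact D0v.proj _ | exact D0v.tail (by assumption) | exact D0v.tail (D0v.tail (by assumption)) | apply Dz.not | apply Dz.and | apply Dz.expair | apply Dz.or | apply Dz.isPair | apply Dz.pairMem | apply Dz.bexI | apply Dz.ballI | apply Dz.bex | apply Dz.ball | apply Dz.imp | apply Dz.iff | apply Dz.subset | apply Dz.isSucc | apply Dz.empty | apply Dz.eq | apply Dz.mem | apply Dz.isOrdinal)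
  obtain ⟨a, ha⟩ := hS
  obtain ⟨b, hb⟩ := hf
  obtain ⟨c, hc⟩ := hx
  obtain ⟨d, hd⟩ := hs
  refine (key.comp ![a, b, c, d]).congr fun v => ?_
  rw [ha, hb, hc, hd]
  rfl

theorem pk3_LVR_iff {ξ : Ordinal.{0}} (h : IsSuccLimit ξ) {x s : ZFSet.{0}} (hx : x ∈ KS F ξ)
    (hs : s ∈ KS F ξ) : LVR (KS F ξ) (F ∩ KS F ξ) x s ↔ lvl F x = s := by
  have hS : ∀ ζ : Ordinal.{0}, ∃ t, Eh F ζ.toZFSet = pair (KS F ζ) t := fun ζ => by
    obtain ⟨q, r, h⟩ := pk3_eh (F := F) ζ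
    exact ⟨_, h⟩
  constructor
  · rintro ⟨δ, hδ, h1, ⟨p, hp, a, e, rfl, rfl, u, t, rfl, h2⟩, h3⟩
    obtain ⟨ζ, rfl, rfl⟩ := (pk3_LS_iff' hs).1 h1
    obtain ⟨ζ', -, h4⟩ := pk3_mem_sq.1 hp
    obtain ⟨h5, h6⟩ := ZFSet.pair_inj.1 h4
    obtain ⟨t', ht⟩ := hS ζ
    rw [← h5, ht] at h6
    rw [(ZFSet.pair_inj.1 h6).1] at h2
    obtain ⟨η, -, h7, h8, h9⟩ := pk3_lvl_eq h2
    have h10 : η = ζ := by
      rcases lt_trichotomy η ζ with h11 | h11 | h11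
      · obtain ⟨a, e, h12, h13⟩ := h3 _ (pk3_mem_sq.2 ⟨η, h11.le, rfl⟩)
        obtain ⟨rfl, rfl⟩ := ZFSet.pair_inj.1 h12
        obtain ⟨u', t'', h14, h15⟩ := h13 (Ordinal.toZFSet_mem_toZFSet_iff.2 h11)
        obtain ⟨t3, ht3⟩ := hS η
        rw [ht3] at h14
        rw [← (ZFSet.pair_inj.1 h14).1] at h15
        exact absurd h7 h15
      · exact h11
      · exact absurd h2 (h8 _ h11)
    rw [h9, h10]
  · intro h1
    obtain ⟨η, h2, h3, h4, h5⟩ := pk3_lvl_lt h hx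
    rw [h5] at h1
    subst h1
    obtain ⟨t, ht⟩ := hS η
    refine ⟨η.toZFSet, (ks_ord h).2 h2, (pk3_LS_iff' hs).2 ⟨η, rfl, rfl⟩,
      ⟨_, pk3_mem_sq.2 ⟨η, le_rfl, rfl⟩, _, _, rfl, rfl, _, _, ht, h3⟩, fun p hp => ?_⟩
    obtain ⟨ζ, hζ, rfl⟩ := pk3_mem_sq.1 hp
    refine ⟨_, _, rfl, fun h6 => ?_⟩
    obtain ⟨t', ht'⟩ := hS ζ
    exact ⟨_, _, ht', h4 ζ (Ordinal.toZFSet_mem_toZFSet_iff.1 h6)⟩

end Pool.Agent.helper797_cs
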