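import Pool.Agent.helper797_cs.DB
import Pool.Agent.helper797_cs.PK0d

/-! # K0: the level sequences are defined by bounded formulas -/

set_option autoImplicit false
set_option linter.unreachableTactic false
set_option linter.unusedTactic false

namespace Pool.Agent.helper797_cs
open Pool.Agent.W868 Pool.Agent.R587
open ZFSet (pair)
open Cardinal Order

theorem Dz.db {n : ℕ} {R : (Fin n → ZFSet.{0}) → Prop} (h : Dz R) : DB R := h

theorem DB.dz {n : ℕ} {R : (Fin n → ZFSet.{0}) → Prop} (h : DB R) : Dz R := h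

/-- The successor step is defined by a bounded formula. -/
theorem db_nxt : DB fun v : Fin 2 → ZFSet.{0} =>
    ∃ X W P R : ZFSet.{0}, v 0 = pair X (pair W (pair P R)) ∧ v 1 = nxt (v 0) := by
  have h1 : Dz fun v : Fin 2 → ZFSet.{0} => Qd (v 0) ∧ v 1 = nxt (v 0) :=
    pk3_dz_nxt (D0v.proj 0) (D0v.proj 1)
  refine (h1.congr fun v => ?_).db
  constructor
  · rintro ⟨⟨X, W, P, R, h⟩, h2⟩
    exact ⟨X, W, P, R, h, h2⟩
  · rintro ⟨X, W, P, R, h, h2⟩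
    exact ⟨⟨X, W, P, R, h⟩, h2⟩

/-- `v 0` is the sequence of the levels up to `v 1` relative to `v 2`. -/
theorem db_sq : DB fun v : Fin 3 → ZFSet.{0} =>
    ∃ η : Ordinal.{0}, v 1 = η.toZFSet ∧ v 0 = sq (v 2) η := by
  have h1 : Dz fun v : Fin 3 → ZFSet.{0} => LS0 (v 0) (v 1) ∧ LSF (v 2) (v 0) :=
    (pk3_dz_LS0 (D0v.proj 0) (D0v.proj 1)).and (pk3_dz_LSF (D0v.proj 2) (D0v.proj 0))
  exact (h1.congr fun v => pk3_LS_iff).db

/-- The third components at limits are coherent. -/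
def pk3Coh (g : ZFSet.{0}) : Prop :=
  ∀ p ∈ g, ∀ p' ∈ g, ∃ ζ e, p = pair ζ e ∧ ∃ ζ' e', p' = pair ζ' e' ∧ (¬ pk3S ζ → ¬ pk3S ζ' →
    ∃ y t, e = pair y t ∧ ∃ w s, t = pair w s ∧ ∃ q r, s = pair q r ∧
    ∃ y' t', e' = pair y' t' ∧ ∃ w' s', t' = pair w' s' ∧ ∃ q' r', s' = pair q' r' ∧
    ∀ x ∈ y, x ∈ y' → (x ∈ q ↔ x ∈ q'))

theorem pk3_dz_Coh {n : ℕ} {G : (Fin n → ZFSet.{0}) → ZFSet.{0}} (hG : D0v G) :
    Dz fun v => pk3Coh (G v) := by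
  refine Dz.comp1 (Q := pk3Coh) ?_ hG
  unfold pk3Coh pk3S
  (repeat' first | assumption | exact D0v.proj _ | exact D0v.tail (by assumption) | exact D0v.tail (D0v.tail (by assumption)) | apply Dz.not | apply Dz.and | apply Dz.expair | apply Dz.or | apply Dz.isPair | apply Dz.pairMem | apply Dz.bexI | apply Dz.ballI | apply Dz.bex | apply Dz.ball | apply Dz.imp | apply Dz.iff | apply Dz.subset | apply Dz.isSucc | apply Dz.empty | apply Dz.eq | apply Dz.mem | apply Dz.isOrdinal)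

/-- `v 0` is a sequence of levels relative to some set. -/
theorem db_ls : DB fun v : Fin 2 → ZFSet.{0} =>
    ∃ (F : ZFSet.{0}) (η : Ordinal.{0}), v 1 = η.toZFSet ∧ v 0 = sq F η := by
  have h1 : Dz fun v : Fin 2 → ZFSet.{0} => LS0 (v 0) (v 1) ∧ pk3Coh (v 0) :=
    (pk3_dz_LS0 (D0v.proj 0) (D0v.proj 1)).and (pk3_dz_Coh (D0v.proj 0))
  refine (h1.congr fun v => ?_).db
  constructor
  · rintro ⟨h2, h3⟩
    refine ⟨ZFSet.sUnion (im (fun p => eP (sn p)) (v 0)), pk3_LS_iff.1 ⟨h2, ?_⟩⟩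
    intro p hp
    obtain ⟨ζ, e, rfl, h4, h5⟩ := h2.2.2 p hp
    refine ⟨ζ, e, rfl, fun hs => ?_⟩
    rcases h5 with ⟨u, hu, h6, -⟩ | ⟨-, y, t, rfl, w, s, rfl, q, r, rfl, hq, -⟩
    · exact absurd ⟨u, hu, h6⟩ hs
    refine ⟨y, _, rfl, w, _, rfl, q, r, rfl, fun x hx => ?_⟩
    rw [ZFSet.mem_sUnion]
    constructor
    · intro hxq
      exact ⟨_, mem_im.2 ⟨_, hp, rfl⟩, by rw [sn_pair, pk3_eP]; exact hxq⟩
    · rintro ⟨z, hz, hxz⟩
      obtain ⟨p', hp', rfl⟩ := mem_im.1 hz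
      obtain ⟨ζ', e', rfl, -, h7⟩ := h2.2.2 p' hp'
      rw [sn_pair] at hxz
      rcases h7 with ⟨u, hu, h6, p'', -, a, e'', -, -, -, rfl⟩ |
        ⟨hs', y', t', rfl, w', s', rfl, q', r', rfl, hq', -⟩
      · rw [nxt, pk3_eP] at hxz
        exact absurd hxz (ZFSet.notMem_empty _)
      · rw [pk3_eP] at hxz
        obtain ⟨a, b, h8, a', b', h9, h10⟩ := h3 _ hp _ hp'
        obtain ⟨rfl, rfl⟩ := ZFSet.pair_inj.1 h8
        obtain ⟨rfl, rfl⟩ := ZFSet.pair_inj.1 h9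
        obtain ⟨y1, t1, h11, w1, s1, rfl, q1, r1, rfl, y2, t2, h12, w2, s2, rfl, q2, r2, rfl,
          h13⟩ := h10 hs hs'
        obtain ⟨e1, h14⟩ := ZFSet.pair_inj.1 h11
        obtain ⟨e2, h15⟩ := ZFSet.pair_inj.1 h14
        obtain ⟨e3, e4⟩ := ZFSet.pair_inj.1 h15
        obtain ⟨e5, h16⟩ := ZFSet.pair_inj.1 h12
        obtain ⟨e6, h17⟩ := ZFSet.pair_inj.1 h16
        obtain ⟨e7, e8⟩ := ZFSet.pair_inj.1 h17
        rw [← e1, ← e3, ← e5, ← e7] at h13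
        exact (h13 x hx (hq' hxz)).2 hxz
  · rintro ⟨F, η, h2, h3⟩
    obtain ⟨h4, h5⟩ := pk3_LS_iff.2 ⟨η, h2, h3⟩
    refine ⟨h4, fun p hp p' hp' => ?_⟩
    obtain ⟨ζ, e, rfl, h6⟩ := h5 p hp
    obtain ⟨ζ', e', rfl, h7⟩ := h5 p' hp'
    refine ⟨_, _, rfl, _, _, rfl, fun hs hs' => ?_⟩
    obtain ⟨y, t, h8, w, s, h9, q, r, h10, h11⟩ := h6 hs
    obtain ⟨y', t', h8', w', s', h9', q', r', h10', h11'⟩ := h7 hs'
    exact ⟨y, t, h8, w, s, h9, q, r, h10, y', t', h8', w', s', h9', q', r', h10',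
      fun x hx hx' => (h11 x hx).trans (h11' x hx').symm⟩

end Pool.Agent.helper797_cs
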