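import Pool.Agent.helper797_cs.PI2
import Pool.Agent.helper797_cs.PK0

/-! # I3: the iterate of a level is a level -/

set_option autoImplicit false
set_option linter.unreachableTactic false
set_option linter.unusedTactic false

namespace Pool.Agent.helper797_cs
open Pool.Agent.W868 Pool.Agent.R587
open ZFSet (pair)
open Cardinal Order

/-! ### Supports -/

theorem pi3_supp_of {n : ℕ} {β γ : Type*} {f : Fin n → Asg → β} (hf : ∀ j, ∃ s, Supp s (f j))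
    (R : (Fin n → β) → γ) : ∃ s, Supp s fun x => R fun j => f j x := by
  classical
  choose s hs using hf
  refine ⟨Finset.univ.biUnion s, fun x y h => ?_⟩
  have : (fun j => f j x) = fun j => f j y := by
    funext j
    exact hs j x y fun i hi => h i (Finset.mem_biUnion.2 ⟨j, Finset.mem_univ j, hi⟩)
  beta_reduce
  rw [this]

theorem pi3_supp2 {β γ ε : Type*} {f : Asg → β} {g : Asg → γ} (hf : ∃ s, Supp s f)
    (hg : ∃ s, Supp s g) (P : β → γ → ε) : ∃ s, Supp s fun x => P (f x) (g x) := by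
  classical
  obtain ⟨s, hs⟩ := hf
  obtain ⟨t, ht⟩ := hg
  refine ⟨s ∪ t, fun x y h => ?_⟩
  beta_reduce
  rw [hs x y fun i hi => h i (Finset.mem_union_left _ hi),
    ht x y fun i hi => h i (Finset.mem_union_right _ hi)]

theorem pi3_supp1 {β γ : Type*} {f : Asg → β} (hf : ∃ s, Supp s f) (P : β → γ) :
    ∃ s, Supp s fun x => P (f x) := by
  obtain ⟨s, hs⟩ := hf
  refine ⟨s, fun x y h => ?_⟩
  beta_reduce
  rw [hs x y h]

theorem pi3_supp {Q : ZFSet.{0}} {θ : Ordinal.{0}} {f : Asg → ZFSet.{0}} (h : IsFT Q θ f) :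
    ∃ s, Supp s f := h.1.imp fun _ h => h.2

theorem pi3_suppO {Q : ZFSet.{0}} {θ : Ordinal.{0}} {g : Asg → Ordinal.{0}}
    (h : IsFT Q θ fun x => (g x).toZFSet) : ∃ s, Supp s g := by
  obtain ⟨s, -, hs⟩ := h.1
  exact ⟨s, fun x y hxy => Ordinal.toZFSet_injective (hs x y hxy)⟩

theorem pi3_const {Q : ZFSet.{0}} {θ : Ordinal.{0}} {a : ZFSet.{0}} (ha : a ∈ Q) :
    IsFT Q θ fun _ => a :=
  ⟨⟨∅, fun _ h => absurd h (Finset.notMem_empty _), fun _ _ _ => rfl⟩, fun _ => ha⟩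

theorem pi3_comp {Q : ZFSet.{0}} {θ : Ordinal.{0}} {f : Asg → ZFSet.{0}} (h : IsFT Q θ f)
    (H : ZFSet.{0} → ZFSet.{0}) (hH : ∀ x, H (f x) ∈ Q) : IsFT Q θ fun x => H (f x) := by
  obtain ⟨s, hs, hs'⟩ := h.1
  refine ⟨⟨s, hs, fun x y hxy => ?_⟩, hH⟩
  beta_reduce
  rw [hs' x y hxy]

theorem pi3_compO {Q : ZFSet.{0}} {θ : Ordinal.{0}} {g : Asg → Ordinal.{0}}
    (h : IsFT Q θ fun x => (g x).toZFSet) (H : Ordinal.{0} → ZFSet.{0})
    (hH : ∀ x, H (g x) ∈ Q) : IsFT Q θ fun x => H (g x) := by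
  obtain ⟨s, hs, hs'⟩ := h.1
  refine ⟨⟨s, hs, fun x y hxy => ?_⟩, hH⟩
  have : g x = g y := Ordinal.toZFSet_injective (hs' x y hxy)
  beta_reduce
  rw [this]

/-! ### The components of the levels -/

theorem pi3_of_eh {F : ZFSet.{0}} {ξ : Ordinal.{0}} {A B C : ZFSet.{0}}
    (h : Eh F ξ.toZFSet = pair A (pair B C)) : KS F ξ = A ∧ KW F ξ = B := by
  constructor
  · rw [KS, h, eS, fs_pair]
  · rw [KW, h, eW, sn_pair, fs_pair]

theorem pi3_eh (F : ZFSet.{0}) (ξ : Ordinal.{0}) :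
    ∃ C, Eh F ξ.toZFSet = pair (KS F ξ) (pair (KW F ξ) C) := by
  have key : (∃ A B C, Eh F ξ.toZFSet = pair A (pair B C)) →
      ∃ C, Eh F ξ.toZFSet = pair (KS F ξ) (pair (KW F ξ) C) := by
    rintro ⟨A, B, C, h⟩
    obtain ⟨h1, h2⟩ := pi3_of_eh h
    exact ⟨C, by rw [h1, h2]; exact h⟩
  apply key
  rcases Ordinal.zero_or_succ_or_isSuccLimit ξ with rfl | ⟨η, rfl⟩ | h
  · exact ⟨_, _, _, eh_zero⟩
  · rw [Order.succ_eq_add_one, eh_succ, nxt]
    exact ⟨_, _, _, rfl⟩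
  · exact ⟨_, _, _, eh_limit h⟩

theorem pi3_mem_of_pair {Q a b : ZFSet.{0}} (hQ : ∀ x ∈ Q, ∀ y ∈ x, y ∈ Q) (h : pair a b ∈ Q) :
    a ∈ Q ∧ b ∈ Q := by
  have h1 : ({a, b} : ZFSet.{0}) ∈ Q := hQ _ h _ (by
    rw [pair]
    exact ZFSet.mem_pair.2 (Or.inr rfl))
  exact ⟨hQ _ h1 _ (ZFSet.mem_pair.2 (Or.inl rfl)), hQ _ h1 _ (ZFSet.mem_pair.2 (Or.inr rfl))⟩

theorem pi3_kw_of_sq {Q F : ZFSet.{0}} {ξ : Ordinal.{0}} (hQ : ∀ x ∈ Q, ∀ y ∈ x, y ∈ Q)
    (h : sq F ξ ∈ Q) : KW F ξ ∈ Q := by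
  have h1 : pair ξ.toZFSet (Eh F ξ.toZFSet) ∈ Q := hQ _ h _ (by
    rw [sq, pair_mem_gr]
    exact ⟨ZFSet.mem_insert _ _, rfl⟩)
  have h2 := (pi3_mem_of_pair hQ h1).2
  obtain ⟨C, hC⟩ := pi3_eh F ξ
  rw [hC] at h2
  exact (pi3_mem_of_pair hQ (pi3_mem_of_pair hQ h2).2).1

/-- `v 0` is the level number `v 1` of the sequence `v 2`. -/
def Pi3S (v : Fin 3 → ZFSet.{0}) : Prop :=
  ∃ p ∈ v 2, ∃ x y, p = pair x y ∧ (x = v 1 ∧ ∃ a b, y = pair a b ∧ a = v 0)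

/-- `v 0` is the order number `v 1` of the sequence `v 2`. -/
def Pi3W (v : Fin 3 → ZFSet.{0}) : Prop :=
  ∃ p ∈ v 2, ∃ x y, p = pair x y ∧ (x = v 1 ∧ ∃ a b, y = pair a b ∧
    ∃ c d, b = pair c d ∧ c = v 0)

theorem pi3_dbS : DB Pi3S := by
  unfold Pi3S
  (repeat' first
    | assumption
    | exact D0v.proj _
    | apply DB.not | apply DB.and | apply DB.expair | apply DB.or | apply DB.isPair | apply DB.pairMem
    | apply DB.bex | apply DB.ball | apply DB.imp | apply DB.iff | apply DB.subset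
    | apply DB.eq | apply DB.mem | apply DB.isOrdinal)

theorem pi3_dbW : DB Pi3W := by
  unfold Pi3W
  (repeat' first
    | assumption
    | exact D0v.proj _
    | apply DB.not | apply DB.and | apply DB.expair | apply DB.or | apply DB.isPair | apply DB.pairMem
    | apply DB.bex | apply DB.ball | apply DB.imp | apply DB.iff | apply DB.subset
    | apply DB.eq | apply DB.mem | apply DB.isOrdinal)

theorem pi3_S_iff {F : ZFSet.{0}} {η : Ordinal.{0}} {v : Fin 3 → ZFSet.{0}}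
    (h1 : v 1 = η.toZFSet) (h2 : v 2 = sq F η) : Pi3S v ↔ v 0 = KS F η := by
  obtain ⟨C, hC⟩ := pi3_eh F η
  unfold Pi3S
  rw [h1, h2]
  constructor
  · rintro ⟨p, hp, x, y, rfl, rfl, a, b, rfl, rfl⟩
    rw [sq, pair_mem_gr, hC] at hp
    exact (ZFSet.pair_inj.1 hp.2).1
  · intro h
    refine ⟨pair η.toZFSet (Eh F η.toZFSet), ?_, _, _, rfl, rfl, _, _, hC, h.symm⟩
    rw [sq, pair_mem_gr]
    exact ⟨ZFSet.mem_insert _ _, rfl⟩

theorem pi3_W_iff {F : ZFSet.{0}} {η : Ordinal.{0}} {v : Fin 3 → ZFSet.{0}}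
    (h1 : v 1 = η.toZFSet) (h2 : v 2 = sq F η) : Pi3W v ↔ v 0 = KW F η := by
  obtain ⟨C, hC⟩ := pi3_eh F η
  unfold Pi3W
  rw [h1, h2]
  constructor
  · rintro ⟨p, hp, x, y, rfl, rfl, a, b, rfl, c, d, rfl, rfl⟩
    rw [sq, pair_mem_gr, hC] at hp
    exact (ZFSet.pair_inj.1 (ZFSet.pair_inj.1 hp.2).2).1
  · intro h
    refine ⟨pair η.toZFSet (Eh F η.toZFSet), ?_, _, _, rfl, rfl, _, _, hC, _, _, rfl, h.symm⟩
    rw [sq, pair_mem_gr]
    exact ⟨ZFSet.mem_insert _ _, rfl⟩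

/-- `v 0` is a limit ordinal. -/
def Pi3L (v : Fin 1 → ZFSet.{0}) : Prop :=
  (v 0).IsOrdinal ∧ (∃ u ∈ v 0, u = u) ∧ ∀ u ∈ v 0, ∃ w ∈ v 0, u ∈ w

theorem pi3_dbL : DB Pi3L := by
  unfold Pi3L
  (repeat' first
    | assumption
    | exact D0v.proj _
    | apply DB.not | apply DB.and | apply DB.expair | apply DB.or | apply DB.isPair | apply DB.pairMem
    | apply DB.bex | apply DB.ball | apply DB.imp | apply DB.iff | apply DB.subset
    | apply DB.eq | apply DB.mem | apply DB.isOrdinal)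

theorem pi3_lim_of {δ : Ordinal.{0}} (h0 : 0 < δ) (h : ∀ η < δ, η + 1 < δ) : IsSuccLimit δ :=
  ⟨not_isMin_of_lt h0, isSuccPrelimit_of_succ_lt fun η hη => by
    rw [Order.succ_eq_add_one]; exact h η hη⟩

theorem pi3_L_iff {α : Ordinal.{0}} {v : Fin 1 → ZFSet.{0}} (h : v 0 = α.toZFSet) :
    Pi3L v ↔ IsSuccLimit α := by
  unfold Pi3L
  rw [h]
  constructor
  · rintro ⟨-, ⟨u, hu, -⟩, h2⟩
    obtain ⟨a, ha, -⟩ := Ordinal.mem_toZFSet_iff.1 hu
    refine pi3_lim_of (lt_of_le_of_lt (zero_le) ha) fun η hη => ?_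
    obtain ⟨w, hw, hw'⟩ := h2 η.toZFSet (Ordinal.toZFSet_mem_toZFSet_iff.2 hη)
    obtain ⟨b, hb, rfl⟩ := Ordinal.mem_toZFSet_iff.1 hw
    have h3 := Ordinal.toZFSet_mem_toZFSet_iff.1 hw'
    exact lt_of_le_of_lt (Order.add_one_le_of_lt h3) hb
  · intro hα
    refine ⟨ZFSet.isOrdinal_toZFSet α, ⟨(0 : Ordinal.{0}).toZFSet,
      Ordinal.toZFSet_mem_toZFSet_iff.2 hα.bot_lt, rfl⟩, fun u hu => ?_⟩
    obtain ⟨a, ha, rfl⟩ := Ordinal.mem_toZFSet_iff.1 hu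
    exact ⟨(succ a).toZFSet, Ordinal.toZFSet_mem_toZFSet_iff.2 (hα.succ_lt ha),
      Ordinal.toZFSet_mem_toZFSet_iff.2 (lt_succ a)⟩

variable {κ : Cardinal.{0}} {U : ZFSet.{0}} (hU : IsNormalMeasure κ U) {δ₀ θ : Ordinal.{0}}
  (hδ₀ : IsSuccLimit δ₀) (hUQ : U ∈ KS U δ₀) (J : Iter U (KS U δ₀) θ)

include hU

/-- Łoś for bounded formulas that hold everywhere. -/
theorem pi3_all {n : ℕ} {R : (Fin n → ZFSet.{0}) → Prop} (hR : DB R)
    (f : Fin n → Asg → ZFSet.{0}) (hf : ∀ j, IsFT (KS U δ₀) θ (f j))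
    (h : ∀ x, R fun j => f j x) : R fun j => J.val (f j) :=
  (los_db hU (ks_trans δ₀) J hR f hf).2
    (ae_of_forall hU (pi3_supp_of (fun j => pi3_supp (hf j)) R) fun x _ => h x)

/-- Values of ordinal functions are ordinals. -/
theorem pi3_ord {g : Asg → Ordinal.{0}} (hg : IsFT (KS U δ₀) θ fun x => (g x).toZFSet) :
    ∃ η : Ordinal.{0}, J.val (fun x => (g x).toZFSet) = η.toZFSet := by
  have h1 := pi3_all hU J (R := fun v : Fin 1 → ZFSet.{0} => (v 0).IsOrdinal)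
    (DB.isOrdinal (D0v.proj 0)) (fun _ => fun x => (g x).toZFSet) (fun _ => hg)
    (fun x => ZFSet.isOrdinal_toZFSet _)
  exact ⟨_, h1.toZFSet_rank_eq.symm⟩

theorem pi3_ord' {f : Asg → ZFSet.{0}} (hf : IsFT (KS U δ₀) θ f) {η : Ordinal.{0}}
    (h : J.val f = η.toZFSet) : AE U fun x => ∃ α : Ordinal.{0}, f x = α.toZFSet := by
  have h1 := (los_db hU (ks_trans δ₀) J (R := fun v : Fin 1 → ZFSet.{0} => (v 0).IsOrdinal)
    (DB.isOrdinal (D0v.proj 0)) (fun _ => f) (fun _ => hf)).1 (by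
      show (J.val f).IsOrdinal
      rw [h]
      exact ZFSet.isOrdinal_toZFSet η)
  exact ae_mono hU (pi3_supp1 (pi3_supp hf) fun z => ∃ α : Ordinal.{0}, z = α.toZFSet)
    (fun x _ hx => ⟨(f x).rank, (ZFSet.IsOrdinal.toZFSet_rank_eq hx).symm⟩) h1

include hδ₀

omit hU in
theorem pi3_lt {g : Asg → Ordinal.{0}} (hg : IsFT (KS U δ₀) θ fun x => (g x).toZFSet) (x : Asg) :
    g x < δ₀ := (ks_ord hδ₀).1 (hg.2 x)

omit hU in
theorem pi3_sq_ft {g : Asg → Ordinal.{0}} (hg : IsFT (KS U δ₀) θ fun x => (g x).toZFSet) :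
    IsFT (KS U δ₀) θ fun x => sq U (g x) :=
  pi3_compO hg (fun α => sq U α) fun x => by
    obtain ⟨η', h1, h2⟩ := sq_mem (F := U) hδ₀ (pi3_lt hδ₀ hg x)
    exact ks_mono h1.le (h2 _ le_rfl)

omit hU in
theorem pi3_ks_ft {g : Asg → Ordinal.{0}} (hg : IsFT (KS U δ₀) θ fun x => (g x).toZFSet) :
    IsFT (KS U δ₀) θ fun x => KS U (g x) :=
  pi3_compO hg (fun α => KS U α) fun x => ks_mem (pi3_lt hδ₀ hg x)

omit hU in
theorem pi3_kw_ft {g : Asg → Ordinal.{0}} (hg : IsFT (KS U δ₀) θ fun x => (g x).toZFSet) :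
    IsFT (KS U δ₀) θ fun x => KW U (g x) :=
  pi3_compO hg (fun α => KW U α) fun x =>
    pi3_kw_of_sq (ks_trans δ₀) ((pi3_sq_ft hδ₀ hg).2 x)

include hUQ

theorem pi3_KS {g : Asg → Ordinal.{0}} (hg : IsFT (KS U δ₀) θ fun x => (g x).toZFSet)
    {η : Ordinal.{0}} (hη : J.val (fun x => (g x).toZFSet) = η.toZFSet) :
    J.val (fun x => KS U (g x)) = KS (J.em U) η ∧ J.val (fun x => KW U (g x)) = KW (J.em U) η ∧
      J.val (fun x => sq U (g x)) = sq (J.em U) η := by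
  have hs := pi3_sq_ft hδ₀ hg
  have hk := pi3_ks_ft hδ₀ hg
  have hw := pi3_kw_ft hδ₀ hg
  have h1 : J.val (fun x => sq U (g x)) = sq (J.em U) η := by
    obtain ⟨η', h2, h3⟩ := pi3_all hU J db_sq
      ![fun x => sq U (g x), fun x => (g x).toZFSet, fun _ => U] (by
        intro j
        fin_cases j
        · exact hs
        · exact hg
        · exact pi3_const hUQ) (fun x => ⟨g x, rfl, rfl⟩)
    have h4 : J.val (fun x => (g x).toZFSet) = η'.toZFSet := h2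
    have h5 : J.val (fun x => sq U (g x)) = sq (J.em U) η' := h3
    rw [hη] at h4
    rw [h5, Ordinal.toZFSet_injective h4]
  refine ⟨?_, ?_, h1⟩
  · have h2 := pi3_all hU J pi3_dbS
      ![fun x => KS U (g x), fun x => (g x).toZFSet, fun x => sq U (g x)] (by
        intro j
        fin_cases j
        · exact hk
        · exact hg
        · exact hs) (fun x => (pi3_S_iff (F := U) (η := g x) rfl rfl).2 rfl)
    exact (pi3_S_iff (F := J.em U) (η := η) (v := fun j => J.val (![fun x => KS U (g x),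
      fun x => (g x).toZFSet, fun x => sq U (g x)] j)) hη h1).1 h2
  · have h2 := pi3_all hU J pi3_dbW
      ![fun x => KW U (g x), fun x => (g x).toZFSet, fun x => sq U (g x)] (by
        intro j
        fin_cases j
        · exact hw
        · exact hg
        · exact hs) (fun x => (pi3_W_iff (F := U) (η := g x) rfl rfl).2 rfl)
    exact (pi3_W_iff (F := J.em U) (η := η) (v := fun j => J.val (![fun x => KW U (g x),
      fun x => (g x).toZFSet, fun x => sq U (g x)] j)) hη h1).1 h2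

omit hUQ in
/-- Each ordinal of the iterate is the value of a function whose values are ordinals. -/
theorem pi3_rep {η : Ordinal.{0}} (h : η.toZFSet ∈ J.R) : ∃ g : Asg → Ordinal.{0},
    IsFT (KS U δ₀) θ (fun x => (g x).toZFSet) ∧ J.val (fun x => (g x).toZFSet) = η.toZFSet := by
  classical
  obtain ⟨f, hf, hη⟩ := (J.mem_R _).1 h
  have h1 := pi3_ord' hU J hf hη.symm
  have hval : ∀ z : ZFSet.{0}, (if z.IsOrdinal then z.rank else 0).toZFSet =
      if z.IsOrdinal then z else ∅ := by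
    intro z
    by_cases hz : z.IsOrdinal
    · rw [if_pos hz, if_pos hz, hz.toZFSet_rank_eq]
    · rw [if_neg hz, if_neg hz, Ordinal.toZFSet_zero]
  have hft : IsFT (KS U δ₀) θ fun x => (if (f x).IsOrdinal then (f x).rank else 0).toZFSet := by
    refine pi3_comp hf (fun z => (if z.IsOrdinal then z.rank else 0).toZFSet) fun x => ?_
    beta_reduce
    rw [hval]
    split_ifs
    · exact hf.2 x
    · rw [← Ordinal.toZFSet_zero]
      exact (ks_ord hδ₀).2 hδ₀.bot_lt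
  refine ⟨fun x => if (f x).IsOrdinal then (f x).rank else 0, hft, ?_⟩
  rw [hη]
  refine (J.eq_iff _ _ hft hf).2 (ae_mono hU (pi3_supp2 (pi3_supp hft) (pi3_supp hf)
    fun a b => a = b) ?_ h1)
  rintro x - ⟨α, hα⟩
  rw [hval, if_pos]
  rw [hα]
  exact ZFSet.isOrdinal_toZFSet α

omit hU hUQ in
/-- The first level with the value of the function as an element. -/
theorem pi3_first {f : Asg → ZFSet.{0}} (hf : IsFT (KS U δ₀) θ f) :
    IsFT (KS U δ₀) θ (fun x => (sInf {η | f x ∈ KS U η}).toZFSet) ∧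
      ∀ x, f x ∈ KS U (sInf {η | f x ∈ KS U η}) := by
  have h1 : ∀ x, ∃ η < δ₀, f x ∈ KS U η := fun x => (ks_limit hδ₀).1 (hf.2 x)
  refine ⟨pi3_comp hf (fun z => (sInf {η | z ∈ KS U η}).toZFSet) fun x => ?_, fun x => ?_⟩
  · obtain ⟨η, h2, h3⟩ := h1 x
    exact (ks_ord hδ₀).2 (lt_of_le_of_lt (csInf_le' h3) h2)
  · obtain ⟨η, h2, h3⟩ := h1 x
    exact csInf_mem (s := {η | f x ∈ KS U η}) ⟨η, h3⟩

/-- Each element of the iterate is in a level. -/
theorem pi3_cover {f : Asg → ZFSet.{0}} (hf : IsFT (KS U δ₀) θ f) {η : Ordinal.{0}}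
    (hη : J.val (fun x => (sInf {η | f x ∈ KS U η}).toZFSet) = η.toZFSet) :
    J.val f ∈ KS (J.em U) η := by
  obtain ⟨h1, h2⟩ := pi3_first hδ₀ hf
  rw [← (pi3_KS hU hδ₀ hUQ J h1 hη).1]
  exact (J.mem_iff _ _ hf (pi3_ks_ft hδ₀ h1)).2
    (ae_of_forall hU (pi3_supp2 (pi3_supp hf) (pi3_supp (pi3_ks_ft hδ₀ h1))
      fun a b => a ∈ b) fun x _ => h2 x)

theorem pi3_ks_mem_R {η : Ordinal.{0}} (h : η.toZFSet ∈ J.R) : KS (J.em U) η ∈ J.R := by
  obtain ⟨g, h1, h2⟩ := pi3_rep hU hδ₀ J h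
  rw [← (pi3_KS hU hδ₀ hUQ J h1 h2).1]
  exact (J.mem_R _).2 ⟨_, pi3_ks_ft hδ₀ h1, rfl⟩

/-- The first level in the iterate. -/
theorem pi3_min {f : Asg → ZFSet.{0}} (hf : IsFT (KS U δ₀) θ f) {η : Ordinal.{0}}
    (hη : J.val (fun x => (sInf {η | f x ∈ KS U η}).toZFSet) = η.toZFSet) :
    ∀ ζ < η, J.val f ∉ KS (J.em U) ζ := by
  intro ζ hζ hmem
  obtain ⟨h1, h2⟩ := pi3_first hδ₀ hf
  have hηR : η.toZFSet ∈ J.R := by
    rw [← hη]
    exact (J.mem_R _).2 ⟨_, h1, rfl⟩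
  have hζR : ζ.toZFSet ∈ J.R := J.trans _ hηR _ (Ordinal.toZFSet_mem_toZFSet_iff.2 hζ)
  obtain ⟨g, h3, h4⟩ := pi3_rep hU hδ₀ J hζR
  have h5 : AE U fun x => (g x).toZFSet ∈ (sInf {η | f x ∈ KS U η}).toZFSet :=
    (J.mem_iff _ _ h3 h1).1 (by rw [h4, hη]; exact Ordinal.toZFSet_mem_toZFSet_iff.2 hζ)
  rw [← (pi3_KS hU hδ₀ hUQ J h3 h4).1] at hmem
  have h6 : AE U fun x => f x ∈ KS U (g x) := (J.mem_iff _ _ hf (pi3_ks_ft hδ₀ h3)).1 hmem
  have h7 := (ae_and hU (pi3_supp2 (pi3_supp h3) (pi3_supp h1) fun a b => a ∈ b)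
    (pi3_supp2 (pi3_supp hf) (pi3_supp (pi3_ks_ft hδ₀ h3)) fun a b => a ∈ b)).2 ⟨h5, h6⟩
  obtain ⟨x, -, h8, h9⟩ := ae_exists hU h7
  have h10 := Ordinal.toZFSet_mem_toZFSet_iff.1 h8
  exact absurd (csInf_le' (show g x ∈ {η : Ordinal.{0} | f x ∈ KS U η} from h9)) (not_le.2 h10)

/-- `J.R` is a level, and the values of the functions that have levels etc. as values. -/
theorem iter_level : ∃ δ : Ordinal.{0}, IsSuccLimit δ ∧ J.R = KS (J.em U) δ := by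
  have hcov : ∀ y ∈ J.R, ∃ η : Ordinal.{0}, η.toZFSet ∈ J.R ∧ y ∈ KS (J.em U) η := by
    intro y hy
    obtain ⟨f, hf, rfl⟩ := (J.mem_R _).1 hy
    obtain ⟨h1, h2⟩ := pi3_first hδ₀ hf
    obtain ⟨η, hη⟩ := pi3_ord hU J h1
    refine ⟨η, ?_, pi3_cover hU hδ₀ hUQ J hf hη⟩
    rw [← hη]
    exact (J.mem_R _).2 ⟨_, h1, rfl⟩
  have hne : {η : Ordinal.{0} | η.toZFSet ∉ J.R}.Nonempty := by
    refine ⟨J.R.rank, fun h => ?_⟩
    have := ZFSet.rank_lt_of_mem h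
    rw [Ordinal.rank_toZFSet] at this
    exact lt_irrefl _ this
  obtain ⟨δ, hδdef⟩ : ∃ δ, δ = sInf {η : Ordinal.{0} | η.toZFSet ∉ J.R} := ⟨_, rfl⟩
  have hδ1 : δ.toZFSet ∉ J.R := by
    rw [hδdef]
    exact csInf_mem hne
  have hδ : ∀ η : Ordinal.{0}, η.toZFSet ∈ J.R ↔ η < δ := by
    intro η
    constructor
    · intro h
      by_contra hcon
      rcases (not_lt.1 hcon).eq_or_lt with h1 | h1
      · rw [h1] at hδ1
        exact hδ1 h
      · exact hδ1 (J.trans _ h _ (Ordinal.toZFSet_mem_toZFSet_iff.2 h1))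
    · intro h
      by_contra hcon
      rw [hδdef] at h
      exact absurd (csInf_le' (show η ∈ {η : Ordinal.{0} | η.toZFSet ∉ J.R} from hcon))
        (not_le.2 h)
  have hlim : IsSuccLimit δ := by
    refine pi3_lim_of ?_ fun η hη => ?_
    · obtain ⟨η, h1, -⟩ := hcov (J.em U) ((J.mem_R _).2 ⟨_, pi3_const hUQ, rfl⟩)
      exact lt_of_le_of_lt (zero_le) ((hδ η).1 h1)
    · have h1 := pi3_ks_mem_R hU hδ₀ hUQ J ((hδ η).2 hη)
      obtain ⟨η', h2, h3⟩ := hcov _ h1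
      have h4 : η < η' := by
        by_contra hcon
        exact ZFSet.mem_irrefl _ (ks_mono (not_lt.1 hcon) h3)
      exact lt_of_le_of_lt (Order.add_one_le_of_lt h4) ((hδ η').1 h2)
  refine ⟨δ, hlim, ?_⟩
  ext y
  rw [ks_limit hlim]
  constructor
  · intro hy
    obtain ⟨η, h1, h2⟩ := hcov y hy
    exact ⟨η, (hδ η).1 h1, h2⟩
  · rintro ⟨η, h1, h2⟩
    exact J.trans _ (pi3_ks_mem_R hU hδ₀ hUQ J ((hδ η).2 h1)) _ h2

/-- Values of ordinal functions are ordinals. -/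
theorem iter_ord {g : Asg → Ordinal.{0}} (hg : IsFT (KS U δ₀) θ fun x => (g x).toZFSet) :
    ∃ η : Ordinal.{0}, J.val (fun x => (g x).toZFSet) = η.toZFSet := pi3_ord hU J hg

/-- Each ordinal in `J.R` is the value of a function whose values are ordinals, with the support of a
given function. -/
theorem iter_ord' {f : Asg → ZFSet.{0}} (hf : IsFT (KS U δ₀) θ f) {η : Ordinal.{0}}
    (h : J.val f = η.toZFSet) : AE U fun x => ∃ α : Ordinal.{0}, f x = α.toZFSet :=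
  pi3_ord' hU J hf h

theorem iter_KS {g : Asg → Ordinal.{0}} (hg : IsFT (KS U δ₀) θ fun x => (g x).toZFSet)
    {η : Ordinal.{0}} (hη : J.val (fun x => (g x).toZFSet) = η.toZFSet) :
    J.val (fun x => KS U (g x)) = KS (J.em U) η ∧ J.val (fun x => KW U (g x)) = KW (J.em U) η ∧
      J.val (fun x => sq U (g x)) = sq (J.em U) η := pi3_KS hU hδ₀ hUQ J hg hη

theorem iter_lim {g : Asg → Ordinal.{0}} (hg : IsFT (KS U δ₀) θ fun x => (g x).toZFSet)
    {η : Ordinal.{0}} (hη : J.val (fun x => (g x).toZFSet) = η.toZFSet) :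
    IsSuccLimit η ↔ AE U fun x => IsSuccLimit (g x) := by
  have h1 := los_db hU (ks_trans δ₀) J pi3_dbL (fun _ => fun x => (g x).toZFSet) (fun _ => hg)
  have h2 : Pi3L (fun _ => J.val fun x => (g x).toZFSet) ↔ IsSuccLimit η := pi3_L_iff hη
  have h3 : (fun x => Pi3L fun _ => (g x).toZFSet) = fun x => IsSuccLimit (g x) := by
    funext x
    exact propext (pi3_L_iff rfl)
  rw [h3] at h1
  exact h2.symm.trans h1

/-- Łoś for the structures `KA`. -/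
theorem los_KA {g : Asg → Ordinal.{0}} (hg : IsFT (KS U δ₀) θ fun x => (g x).toZFSet)
    (hlim : AE U fun x => IsSuccLimit (g x)) {ξ : Ordinal.{0}}
    (hξ : J.val (fun x => (g x).toZFSet) = ξ.toZFSet) {n : ℕ} (φ : Fo n)
    (f : Fin n → Asg → ZFSet.{0}) (hf : ∀ j, IsFT (KS U δ₀) θ (f j))
    (hfg : ∀ j, AE U fun x => f j x ∈ KS U (g x)) :
    φ.Sat (KA (J.em U) ξ) (fun j => J.val (f j)) ↔
      AE U fun x => φ.Sat (KA U (g x)) fun j => f j x := by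
  obtain ⟨hvS, hvW, -⟩ := pi3_KS hU hδ₀ hUQ J hg hξ
  have hk := pi3_ks_ft hδ₀ hg
  have hw := pi3_kw_ft hδ₀ hg
  obtain ⟨s, hsθ, hs⟩ := hg.1
  have hsg : Supp s g := fun x y hxy => Ordinal.toZFSet_injective (hs x y hxy)
  refine los_gen hU J ⟨U, hUQ⟩ (𝔄 := fun x => KA U (g x)) (𝔅 := KA (J.em U) ξ) (s := s) hsθ
    ?_ ?_ ?_ ?_ ?_ ?_ φ f hf hfg
  · intro x y hxy
    beta_reduce
    rw [hsg x y hxy]
  · intro x a ha
    exact ks_mono (pi3_lt hδ₀ hg x).le ha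
  · intro y
    show y ∈ KS (J.em U) ξ ↔ _
    rw [← hvS]
    constructor
    · intro hy
      have hyR : y ∈ J.R := J.trans _ ((J.mem_R _).2 ⟨_, hk, rfl⟩) _ hy
      obtain ⟨f', hf', rfl⟩ := (J.mem_R _).1 hyR
      exact ⟨f', hf', (J.mem_iff _ _ hf' hk).1 hy, rfl⟩
    · rintro ⟨f', hf', h1, rfl⟩
      exact (J.mem_iff _ _ hf' hk).2 h1
  · intro f' hf' _
    exact J.mem_iff _ _ hf' (pi3_const hUQ)
  · intro f1 f2 hf1 hf2 _ _
    show pair (J.val f1) (J.val f2) ∈ KW (J.em U) ξ ↔ _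
    rw [← hvW]
    exact los_db hU (ks_trans δ₀) J
      (R := fun v : Fin 3 → ZFSet.{0} => pair (v 0) (v 1) ∈ v 2)
      (DB.pairMem (D0v.proj 0) (D0v.proj 1) (D0v.proj 2)) ![f1, f2, fun x => KW U (g x)] (by
        intro j
        fin_cases j
        · exact hf1
        · exact hf2
        · exact hw)
  · intro f1 f2 hf1 hf2 _ _
    show lvl (J.em U) (J.val f1) = J.val f2 ↔ AE U fun x => lvl U (f1 x) = f2 x
    obtain ⟨h1, h2⟩ := pi3_first hδ₀ hf1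
    obtain ⟨η, hη⟩ := pi3_ord hU J h1
    have h3 := pi3_cover hU hδ₀ hUQ J hf1 hη
    have h4 := pi3_min hU hδ₀ hUQ J hf1 hη
    obtain ⟨η', -, h5, h6, h7⟩ := lvl_eq h3
    have h8 : η' = η := by
      rcases lt_trichotomy η' η with h | h | h
      · exact absurd h5 (h4 _ h)
      · exact h
      · exact absurd h3 (h6 _ h)
    rw [h7, h8, ← (pi3_KS hU hδ₀ hUQ J h1 hη).2.2]
    have h9 : (fun x => lvl U (f1 x)) = fun x => sq U (sInf {η | f1 x ∈ KS U η}) := by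
      funext x
      obtain ⟨η', -, h5, h6, h7⟩ := lvl_eq (h2 x)
      have h8 : η' = sInf {η | f1 x ∈ KS U η} := by
        refine le_antisymm ?_ (csInf_le' h5)
        by_contra hcon
        exact h6 _ (not_le.1 hcon) (h2 x)
      rw [h7, ← h8]
    have h10 : (fun x => lvl U (f1 x) = f2 x) =
        fun x => sq U (sInf {η | f1 x ∈ KS U η}) = f2 x := by
      funext x
      rw [congrFun h9 x]
    rw [h10]
    exact J.eq_iff _ _ (pi3_sq_ft hδ₀ h1) hf2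

end Pool.Agent.helper797_cs
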