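import Pool.Agent.helper797_cs.PI4a

/-! # I4, second part: cardinality, elementarity, indiscernibility -/

set_option autoImplicit false
namespace Pool.Agent.helper797_cs
open Pool.Agent.W868 Pool.Agent.R587
open ZFSet (pair)
open Cardinal Order

variable {κ : Cardinal.{0}} {U : ZFSet.{0}} (hU : IsNormalMeasure κ U) {δ₀ θ : Ordinal.{0}}
  (hδ₀ : IsSuccLimit δ₀) (hUQ : U ∈ KS U δ₀) (J : Iter U (KS U δ₀) θ)



/-! ## Supports -/

theorem pi4_supp_mono {β : Type*} {s t : Finset Ordinal.{0}} {f : Asg → β} (h : Supp s f)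
    (hst : s ⊆ t) : Supp t f := fun x y hxy => h x y fun i hi => hxy i (hst hi)

theorem pi4_zero_mem (hδ₀ : IsSuccLimit δ₀) : (∅ : ZFSet.{0}) ∈ KS U δ₀ := by
  have h : (0 : Ordinal.{0}) < δ₀ := by
    rcases eq_or_ne δ₀ 0 with h | h
    · exact absurd (h ▸ isMin_iff_eq_bot.2 rfl) hδ₀.1
    · exact pos_iff_ne_zero.2 h
  have h1 := (ks_ord (F := U) hδ₀ (α := 0)).2 h
  rwa [Ordinal.toZFSet_zero] at h1

theorem pi4_isFT {i : Ordinal.{0}} (hi : i < θ) {f : Asg → ZFSet.{0}}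
    (h : IsFT (KS U δ₀) i f) : IsFT (KS U δ₀) θ f := by
  obtain ⟨⟨s, hs, hsf⟩, hQ⟩ := h
  exact ⟨⟨s, fun j hj => (hs j hj).trans hi, hsf⟩, hQ⟩

include hU hδ₀ hUQ

/-- An ordinal valued representative. -/
theorem pi4_rep {i : Ordinal.{0}} {ξ : Ordinal.{0}}
    (hξi : ξ.toZFSet ∈ J.Rl i) : ∃ (g : Asg → Ordinal.{0}) (s : Finset Ordinal.{0}),
      (∀ j ∈ s, j < i) ∧ Supp s g ∧ IsFT (KS U δ₀) θ (fun x => (g x).toZFSet) ∧
      IsFT (KS U δ₀) i (fun x => (g x).toZFSet) ∧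
      J.val (fun x => (g x).toZFSet) = ξ.toZFSet := by
  classical
  obtain ⟨f, hfi, hfθ, hf⟩ := hξi
  have hord := iter_ord' hU hδ₀ hUQ J hfθ hf.symm
  obtain ⟨⟨s, hs, hsf⟩, hfQ⟩ := hfi
  obtain ⟨⟨t, ht, htf⟩, -⟩ := hfθ
  let o : ZFSet.{0} → Ordinal.{0} := fun z => if h : ∃ α : Ordinal.{0}, z = α.toZFSet then h.choose
    else 0
  have ho : ∀ z, (∃ α : Ordinal.{0}, z = α.toZFSet) → (o z).toZFSet = z := by
    intro z h
    have : o z = h.choose := dif_pos h
    rw [this]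
    exact h.choose_spec.symm
  have ho' : ∀ z, (¬ ∃ α : Ordinal.{0}, z = α.toZFSet) → (o z).toZFSet = ∅ := by
    intro z h
    have : o z = 0 := dif_neg h
    rw [this, Ordinal.toZFSet_zero]
  have hgs : ∀ r, Supp r f → Supp r fun x => o (f x) := fun r hr x y hxy => by
    show o (f x) = o (f y)
    rw [hr x y hxy]
  have hgQ : ∀ x, (o (f x)).toZFSet ∈ KS U δ₀ := by
    intro x
    by_cases h : ∃ α : Ordinal.{0}, f x = α.toZFSet
    · rw [ho _ h]; exact hfQ x
    · rw [ho' _ h]; exact pi4_zero_mem hδ₀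
  have hz : ∀ r, Supp r f → Supp r fun x => (o (f x)).toZFSet := fun r hr x y hxy => by
    show (o (f x)).toZFSet = (o (f y)).toZFSet
    rw [hr x y hxy]
  have hθ : IsFT (KS U δ₀) θ (fun x => (o (f x)).toZFSet) := ⟨⟨t, ht, hz t htf⟩, hgQ⟩
  refine ⟨fun x => o (f x), s, hs, hgs s hsf, hθ, ⟨⟨s, hs, hz s hsf⟩, hgQ⟩, ?_⟩
  rw [hf]
  refine (J.eq_iff _ _ hθ ⟨⟨t, ht, htf⟩, hfQ⟩).2 ?_
  refine ae_mono hU ⟨t, fun x y hxy => ?_⟩ (fun x _ hx => ho _ hx) hord
  show ((o (f x)).toZFSet = f x) = ((o (f y)).toZFSet = f y)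
  rw [htf x y hxy]

/-- Tarski-Vaught. -/
theorem pi4_tv {i : Ordinal.{0}} {ξ : Ordinal.{0}} (hξ : IsSuccLimit ξ)
    (hi : i < θ) (hξi : ξ.toZFSet ∈ J.Rl i) {n : ℕ} (ψ : Fo (n + 1)) (v : Fin n → ZFSet.{0})
    (hv : ∀ j, v j ∈ J.Rl i ∧ v j ∈ KS (J.em U) ξ)
    (h : ∃ a ∈ (KA (J.em U) ξ).A, ψ.Sat (KA (J.em U) ξ) (Fin.cons a v)) :
    ∃ a, a ∈ J.Rl i ∧ a ∈ KS (J.em U) ξ ∧ ψ.Sat (KA (J.em U) ξ) (Fin.cons a v) := by
  classical
  obtain ⟨g, s0, hs0, hgs, hgFT, -, hgξ⟩ := pi4_rep hU hδ₀ hUQ J hξi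
  have hlim : AE U fun x => IsSuccLimit (g x) := (iter_lim hU hδ₀ hUQ J hgFT hgξ).1 hξ
  obtain ⟨hKS, -, -⟩ := iter_KS hU hδ₀ hUQ J hgFT hgξ
  choose f hfi hfθ hfv using fun j => (hv j).1
  have hgδ : ∀ x, g x < δ₀ := fun x => ks_ord_le (hgFT.2 x)
  have hKSFT : IsFT (KS U δ₀) θ fun x => KS U (g x) :=
    ⟨⟨s0, fun j hj => (hs0 j hj).trans hi, fun x y hxy => by
      show KS U (g x) = KS U (g y)
      rw [hgs x y hxy]⟩, fun x => ks_mem (hgδ x)⟩
  have hfg : ∀ j, AE U fun x => f j x ∈ KS U (g x) := fun j =>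
    (J.mem_iff _ _ (hfθ j) hKSFT).1 (by rw [← hfv, hKS]; exact (hv j).2)
  have hvv : v = fun j => J.val (f j) := funext hfv
  have h1 : (Fo.ex ψ).Sat (KA (J.em U) ξ) (fun j => J.val (f j)) := by
    rw [← hvv]; exact h
  have h2 := (los_KA hU hδ₀ hUQ J hgFT hlim hgξ (.ex ψ) f hfθ hfg).1 h1
  -- supports
  choose ss hss hssf using fun j => (hfi j).1
  let S : Finset Ordinal.{0} := s0 ∪ Finset.univ.biUnion ss
  have hSi : ∀ j ∈ S, j < i := by
    intro j hj
    rcases Finset.mem_union.1 hj with hj | hj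
    · exact hs0 j hj
    · obtain ⟨k, -, hk⟩ := Finset.mem_biUnion.1 hj
      exact hss k j hk
  have hSg : Supp S g := pi4_supp_mono hgs Finset.subset_union_left
  have hSf : ∀ j, Supp S (f j) := fun j => pi4_supp_mono (hssf j)
    ((Finset.subset_biUnion_of_mem ss (Finset.mem_univ j)).trans Finset.subset_union_right)
  -- the witness
  let W : Ordinal.{0} → (Fin n → ZFSet.{0}) → ZFSet.{0} := fun γ w =>
    if h : ∃ a, a ∈ KS U γ ∧ ψ.Sat (KA U γ) (Fin.cons a w) then h.choose else ∅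
  have hW : ∀ γ w, (∃ a, a ∈ KS U γ ∧ ψ.Sat (KA U γ) (Fin.cons a w)) →
      W γ w ∈ KS U γ ∧ ψ.Sat (KA U γ) (Fin.cons (W γ w) w) := by
    intro γ w hγ
    have : W γ w = hγ.choose := dif_pos hγ
    rw [this]
    exact hγ.choose_spec
  have hW0 : ∀ γ w, (¬ ∃ a, a ∈ KS U γ ∧ ψ.Sat (KA U γ) (Fin.cons a w)) → W γ w = ∅ :=
    fun γ w hγ => dif_neg hγ
  let H : Asg → ZFSet.{0} := fun x => W (g x) fun j => f j x
  have hfx : ∀ x y : Asg, (∀ j ∈ S, x j = y j) → (fun j => f j x) = fun j => f j y :=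
    fun x y hxy => funext fun j => hSf j x y hxy
  have hHS : Supp S H := fun x y hxy => by
    show W (g x) (fun j => f j x) = W (g y) (fun j => f j y)
    rw [hSg x y hxy, hfx x y hxy]
  have hHQ : ∀ x, H x ∈ KS U δ₀ := by
    intro x
    by_cases hx : ∃ a, a ∈ KS U (g x) ∧ ψ.Sat (KA U (g x)) (Fin.cons a fun j => f j x)
    · exact ks_mono (hgδ x).le (hW _ _ hx).1
    · have : H x = ∅ := hW0 _ _ hx
      rw [this]; exact pi4_zero_mem hδ₀
  have hHi : IsFT (KS U δ₀) i H := ⟨⟨S, hSi, hHS⟩, hHQ⟩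
  have hHθ : IsFT (KS U δ₀) θ H := pi4_isFT hi hHi
  have h3 : AE U fun x => H x ∈ KS U (g x) := by
    refine ae_mono hU ⟨S, fun x y hxy => ?_⟩ (fun x _ hx => ?_) h2
    · show (H x ∈ KS U (g x)) = (H y ∈ KS U (g y))
      rw [hHS x y hxy, hSg x y hxy]
    · obtain ⟨a, ha, ha'⟩ := hx
      exact (hW _ _ ⟨a, ha, ha'⟩).1
  have h4 : AE U fun x => ψ.Sat (KA U (g x)) (Fin.cons (H x) fun j => f j x) := by
    refine ae_mono hU ⟨S, fun x y hxy => ?_⟩ (fun x _ hx => ?_) h2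
    · show ψ.Sat (KA U (g x)) (Fin.cons (H x) fun j => f j x)
        = ψ.Sat (KA U (g y)) (Fin.cons (H y) fun j => f j y)
      rw [hHS x y hxy, hSg x y hxy, hfx x y hxy]
    · obtain ⟨a, ha, ha'⟩ := hx
      exact (hW _ _ ⟨a, ha, ha'⟩).2
  refine ⟨J.val H, ⟨H, hHi, hHθ, rfl⟩, ?_, ?_⟩
  · rw [← hKS]
    exact (J.mem_iff _ _ hHθ hKSFT).2 h3
  · have h5 := (los_KA hU hδ₀ hUQ J hgFT hlim hgξ ψ (Fin.cons H f)
      (fun j => by refine Fin.cases ?_ (fun j => ?_) j; exacts [hHθ, hfθ j])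
      (fun j => by refine Fin.cases ?_ (fun j => ?_) j; exacts [h3, hfg j])).2 (by
        refine ae_mono hU ⟨S, fun x y hxy => ?_⟩ (fun x _ hx => ?_) h4
        · have e : ∀ z : Asg, (fun j => (Fin.cons H f : Fin (n + 1) → Asg → ZFSet.{0}) j z)
              = Fin.cons (H z) fun j => f j z := fun z => by
            funext j; refine Fin.cases ?_ (fun j => ?_) j <;> rfl
          show ψ.Sat (KA U (g x)) (fun j => (Fin.cons H f : Fin (n + 1) → Asg → ZFSet.{0}) j x)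
            = ψ.Sat (KA U (g y)) (fun j => (Fin.cons H f : Fin (n + 1) → Asg → ZFSet.{0}) j y)
          rw [e, e, hHS x y hxy, hSg x y hxy, hfx x y hxy]
        · have e : (fun j => (Fin.cons H f : Fin (n + 1) → Asg → ZFSet.{0}) j x)
              = Fin.cons (H x) fun j => f j x := by
            funext j; refine Fin.cases ?_ (fun j => ?_) j <;> rfl
          show ψ.Sat (KA U (g x)) (fun j => (Fin.cons H f : Fin (n + 1) → Asg → ZFSet.{0}) j x)
          rw [e]
          exact hx)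
    have e : (fun j => J.val ((Fin.cons H f : Fin (n + 1) → Asg → ZFSet.{0}) j))
        = Fin.cons (J.val H) v := by
      funext j
      refine Fin.cases ?_ (fun j => ?_) j
      · rfl
      · exact (hfv j).symm
    rw [e] at h5
    exact h5

/-- The elementarity and indiscernibility fields of `IT`. -/
theorem iter_elem {i : Ordinal.{0}} (hi : i < θ) {ξ : Ordinal.{0}} (hξ : IsSuccLimit ξ)
    (hξi : ξ.toZFSet ∈ J.Rl i) {n : ℕ} (φ : Fo n) (v : Fin n → ZFSet.{0})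
    (hv : ∀ j, v j ∈ J.Rl i ∧ v j ∈ KS (J.em U) ξ) :
    φ.Sat ((KA (J.em U) ξ).res {x | x ∈ J.Rl i ∧ x ∈ KS (J.em U) ξ}) v ↔
      φ.Sat (KA (J.em U) ξ) v := by
  have hcons : ∀ {n : ℕ} (v : Fin n → ZFSet.{0}) (a : ZFSet.{0}),
      (∀ j, v j ∈ J.Rl i ∧ v j ∈ KS (J.em U) ξ) → (a ∈ J.Rl i ∧ a ∈ KS (J.em U) ξ) →
      ∀ j, (Fin.cons a v : Fin (n + 1) → ZFSet.{0}) j ∈ J.Rl i ∧
        (Fin.cons a v : Fin (n + 1) → ZFSet.{0}) j ∈ KS (J.em U) ξ := by
    intro n v a hv ha j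
    refine Fin.cases ?_ (fun j => ?_) j
    · exact ha
    · exact hv j
  induction φ with
  | mem j k => exact Iff.rfl
  | eq j k => exact Iff.rfl
  | pF j => exact Iff.rfl
  | lt j k => exact Iff.rfl
  | lv j k => exact Iff.rfl
  | neg φ ih => exact not_congr (ih v hv)
  | and φ ψ ih1 ih2 => exact and_congr (ih1 v hv) (ih2 v hv)
  | ex φ ih =>
    constructor
    · rintro ⟨a, ha, h⟩
      exact ⟨a, ha.2, (ih _ (hcons v a hv ha)).1 h⟩
    · rintro ⟨a, ha, h⟩
      obtain ⟨b, hb1, hb2, hb3⟩ := pi4_tv hU hδ₀ hUQ J hξ hi hξi φ v hv ⟨a, ha, h⟩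
      exact ⟨b, ⟨hb1, hb2⟩, (ih _ (hcons v b hv ⟨hb1, hb2⟩)).2 hb3⟩
  | bex k φ ih =>
    constructor
    · rintro ⟨a, ha, hak, h⟩
      exact ⟨a, ha.2, hak, (ih _ (hcons v a hv ha)).1 h⟩
    · rintro ⟨a, ha, hak, h⟩
      obtain ⟨b, hb1, hb2, hb3, hb4⟩ := pi4_tv hU hδ₀ hUQ J hξ hi hξi (.and (.mem 0 k.succ) φ) v hv
        ⟨a, ha, hak, h⟩
      exact ⟨b, ⟨hb1, hb2⟩, hb3, (ih _ (hcons v b hv ⟨hb1, hb2⟩)).2 hb4⟩

theorem iter_indisc {i : Ordinal.{0}} (hi : i < θ) {ξ : Ordinal.{0}} (hξ : IsSuccLimit ξ)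
    (hκξ : J.em κ.ord.toZFSet ∈ KS (J.em U) ξ) (hξi : ξ.toZFSet ∈ J.Rl i) {n m : ℕ}
    (φ : Fo (n + m)) (v : Fin n → ZFSet.{0})
    (hv : ∀ j, v j ∈ J.Rl i ∧ v j ∈ KS (J.em U) ξ) (a b : Fin m → Ordinal.{0})
    (ha : StrictMono a) (hb : StrictMono b) (hai : ∀ j, i ≤ a j ∧ a j < θ)
    (hbi : ∀ j, i ≤ b j ∧ b j < θ) :
    φ.Sat (KA (J.em U) ξ) (Fin.append v fun j => (J.cr (a j)).toZFSet) ↔
      φ.Sat (KA (J.em U) ξ) (Fin.append v fun j => (J.cr (b j)).toZFSet) := by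
  classical
  obtain ⟨g, s0, hs0, hgs, hgFT, -, hgξ⟩ := pi4_rep hU hδ₀ hUQ J hξi
  have hlim : AE U fun x => IsSuccLimit (g x) := (iter_lim hU hδ₀ hUQ J hgFT hgξ).1 hξ
  obtain ⟨hKS, -, -⟩ := iter_KS hU hδ₀ hUQ J hgFT hgξ
  choose f hfi hfθ hfv using fun j => (hv j).1
  have hgδ : ∀ x, g x < δ₀ := fun x => ks_ord_le (hgFT.2 x)
  have hKSFT : IsFT (KS U δ₀) θ fun x => KS U (g x) :=
    ⟨⟨s0, fun j hj => (hs0 j hj).trans hi, fun x y hxy => by
      show KS U (g x) = KS U (g y)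
      rw [hgs x y hxy]⟩, fun x => ks_mem (hgδ x)⟩
  have hfg : ∀ j, AE U fun x => f j x ∈ KS U (g x) := fun j =>
    (J.mem_iff _ _ (hfθ j) hKSFT).1 (by rw [← hfv, hKS]; exact (hv j).2)
  choose ss hss hssf using fun j => (hfi j).1
  let S : Finset Ordinal.{0} := s0 ∪ Finset.univ.biUnion ss
  have hSi : ∀ j ∈ S, j < i := by
    intro j hj
    rcases Finset.mem_union.1 hj with hj | hj
    · exact hs0 j hj
    · obtain ⟨k, -, hk⟩ := Finset.mem_biUnion.1 hj
      exact hss k j hk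
  have hSg : Supp S g := pi4_supp_mono hgs Finset.subset_union_left
  have hSf : ∀ j, Supp S (f j) := fun j => pi4_supp_mono (hssf j)
    ((Finset.subset_biUnion_of_mem ss (Finset.mem_univ j)).trans Finset.subset_union_right)
  have hfx : ∀ x y : Asg, (∀ j ∈ S, x j = y j) → (fun j => f j x) = fun j => f j y :=
    fun x y hxy => funext fun j => hSf j x y hxy
  -- critical points
  let c : Ordinal.{0} → ZFSet.{0} := fun α => if α.toZFSet ∈ KS U δ₀ then α.toZFSet else ∅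
  have hcQ : ∀ α, c α ∈ KS U δ₀ := by
    intro α
    by_cases h : α.toZFSet ∈ KS U δ₀
    · have : c α = α.toZFSet := if_pos h
      rw [this]; exact h
    · have : c α = ∅ := if_neg h
      rw [this]; exact pi4_zero_mem hδ₀
  have hcFT : ∀ k, k < θ → IsFT (KS U δ₀) θ fun x => c (x k) := fun k hk =>
    ⟨⟨{k}, fun j hj => by rw [Finset.mem_singleton.1 hj]; exact hk, fun x y hxy => by
      show c (x k) = c (y k)
      rw [hxy k (Finset.mem_singleton_self k)]⟩, fun x => hcQ _⟩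
  have hcv : ∀ k, k < θ → J.val (fun x => c (x k)) = (J.cr k).toZFSet := fun k hk =>
    cr_spec hU hδ₀ hUQ J hk
  have hκQ : κ.ord.toZFSet ∈ KS U δ₀ := ks_trans δ₀ U hUQ _ hU.univ
  have hκFT : IsFT (KS U δ₀) θ fun _ => κ.ord.toZFSet :=
    ⟨⟨∅, fun j hj => absurd hj (Finset.notMem_empty j), fun _ _ _ => rfl⟩, fun _ => hκQ⟩
  have hκg : AE U fun x => κ.ord.toZFSet ∈ KS U (g x) :=
    (J.mem_iff _ _ hκFT hKSFT).1 (by rw [hKS]; exact hκξ)
  have hcg : ∀ k, AE U fun x => c (x k) ∈ KS U (g x) := by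
    intro k
    refine ae_mono hU ⟨insert k s0, fun x y hxy => ?_⟩ (fun x hx hκx => ?_) hκg
    · show (c (x k) ∈ KS U (g x)) = (c (y k) ∈ KS U (g y))
      rw [hxy k (Finset.mem_insert_self _ _),
        hgs x y fun j hj => hxy j (Finset.mem_insert_of_mem hj)]
    · have h1 : (x k).toZFSet ∈ κ.ord.toZFSet := Ordinal.toZFSet_mem_toZFSet_iff.2 (hx k)
      have h2 : (x k).toZFSet ∈ KS U δ₀ := ks_trans δ₀ _ hκQ _ h1
      have h3 : c (x k) = (x k).toZFSet := if_pos h2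
      show c (x k) ∈ KS U (g x)
      rw [h3]
      exact ks_trans _ _ hκx _ h1
  let P : Asg → (Fin m → Ordinal.{0}) → Prop := fun x w =>
    φ.Sat (KA U (g x)) (Fin.append (fun j => f j x) fun j => c (w j))
  have hP : ∀ w, Supp S fun x => P x w := fun w x y hxy => by
    show φ.Sat (KA U (g x)) (Fin.append (fun j => f j x) fun j => c (w j))
      = φ.Sat (KA U (g y)) (Fin.append (fun j => f j y) fun j => c (w j))
    rw [hSg x y hxy, hfx x y hxy]
  have key : ∀ a : Fin m → Ordinal.{0}, (∀ j, a j < θ) →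
      (φ.Sat (KA (J.em U) ξ) (Fin.append v fun j => (J.cr (a j)).toZFSet) ↔
        AE U fun x => P x fun l => x (a l)) := by
    intro a haθ
    have h1 := los_KA hU hδ₀ hUQ J hgFT hlim hgξ φ
      (Fin.append f fun j => fun x : Asg => c (x (a j)))
      (fun j => by
        refine Fin.addCases (fun j => ?_) (fun j => ?_) j
        · rw [Fin.append_left]; exact hfθ j
        · rw [Fin.append_right]; exact hcFT _ (haθ j))
      (fun j => by
        refine Fin.addCases (fun j => ?_) (fun j => ?_) j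
        · rw [Fin.append_left]; exact hfg j
        · rw [Fin.append_right]; exact hcg (a j))
    have e1 : (fun j => J.val (Fin.append f (fun j => fun x : Asg => c (x (a j))) j))
        = Fin.append v fun j => (J.cr (a j)).toZFSet := by
      funext j
      refine Fin.addCases (fun j => ?_) (fun j => ?_) j
      · rw [Fin.append_left, Fin.append_left]; exact (hfv j).symm
      · rw [Fin.append_right, Fin.append_right]; exact hcv _ (haθ j)
    have e2 : (fun x : Asg => φ.Sat (KA U (g x))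
        fun j => Fin.append f (fun j => fun x : Asg => c (x (a j))) j x)
        = fun x => P x fun l => x (a l) := by
      funext x
      show φ.Sat (KA U (g x)) (fun j => Fin.append f (fun j => fun x : Asg => c (x (a j))) j x)
        = φ.Sat (KA U (g x)) (Fin.append (fun j => f j x) fun j => c (x (a j)))
      congr 1
      funext j
      refine Fin.addCases (fun j => ?_) (fun j => ?_) j
      · rw [Fin.append_left, Fin.append_left]
      · rw [Fin.append_right, Fin.append_right]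
    rw [e1, e2] at h1
    exact h1
  rw [key a fun j => (hai j).2, key b fun j => (hbi j).2]
  exact ae_rename hU hSi hP ha hb (fun l => (hai l).1) fun l => (hbi l).1

/-- The size: `|cr i| ≤ 2 ^ κ * |i|`. (Functions from finite tuples of ordinals below `κ` to `κ` and
finite subsets of `i`.) -/
theorem cr_card {i : Ordinal.{0}} (hi : i < θ) :
    (J.cr i).card ≤ 2 ^ κ * max ℵ₀ i.card := by
  classical
  have hκ0 : ℵ₀ ≤ κ := hU.uncountable.le
  have hκpos : 0 < κ.ord := by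
    rw [pos_iff_ne_zero, Ne, Cardinal.ord_eq_zero]
    exact (Cardinal.aleph0_pos.trans_le hκ0).ne'
  let K : Type := κ.ord.ToType
  have hKinf : Infinite K := Cardinal.infinite_iff.2 (by rw [Cardinal.mk_ord_toType]; exact hκ0)
  let mk : Set.Iio κ.ord ≃o K := Ordinal.ToType.mk
  let z0 : K := mk ⟨0, hκpos⟩
  let ord' : K → Ordinal.{0} := fun k => (mk.symm k).1
  have hord' : ∀ k, ord' k < κ.ord := fun k => (mk.symm k).2
  have hordmk : ∀ (α : Ordinal.{0}) (h : α < κ.ord), ord' (mk ⟨α, h⟩) = α := fun α h => by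
    show (mk.symm (mk ⟨α, h⟩)).1 = α
    rw [OrderIso.symm_apply_apply]
  let mi : Set.Iio i ≃o i.ToType := Ordinal.ToType.mk
  let mc : Set.Iio (J.cr i) ≃o (J.cr i).ToType := Ordinal.ToType.mk
  let fs' : Finset i.ToType → Finset Ordinal.{0} := fun T => T.image fun k => (mi.symm k).1
  -- the data of an element
  have hdata : ∀ a : (J.cr i).ToType, ∃ (T : Finset i.ToType) (f : Asg → ZFSet.{0}),
      Supp (fs' T) f ∧ IsFT (KS U δ₀) θ f ∧ ((mc.symm a).1).toZFSet = J.val f ∧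
      AE U fun x => f x ∈ κ.ord.toZFSet := by
    intro a
    obtain ⟨⟨f, hfi, hfθ, hf⟩, h2⟩ := (mem_crz hU hδ₀ hUQ J hi).1 (Set.mem_Iio.1 (mc.symm a).2)
    obtain ⟨⟨s, hs, hsf⟩, -⟩ := hfi
    refine ⟨s.attach.image fun j => mi ⟨j.1, hs j.1 j.2⟩, f, ?_, hfθ, hf, ?_⟩
    · refine pi4_supp_mono hsf fun j hj => ?_
      refine Finset.mem_image.2 ⟨mi ⟨j, hs j hj⟩, Finset.mem_image.2 ⟨⟨j, hj⟩, Finset.mem_attach _ _,
        rfl⟩, ?_⟩
      rw [OrderIso.symm_apply_apply]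
    · have hκQ : κ.ord.toZFSet ∈ KS U δ₀ := ks_trans δ₀ U hUQ _ hU.univ
      have hκFT : IsFT (KS U δ₀) θ fun _ => κ.ord.toZFSet :=
        ⟨⟨∅, fun j hj => absurd hj (Finset.notMem_empty j), fun _ _ _ => rfl⟩, fun _ => hκQ⟩
      refine (J.mem_iff _ _ hfθ hκFT).1 ?_
      rw [← hf]
      exact h2
  choose T f hTf hfθ hf hfκ using hdata
  -- assignments from lists
  let asg : Finset Ordinal.{0} → List K → Asg := fun s l j => ord' (l.getD (s.sort.idxOf j) z0)
  let code : (J.cr i).ToType → Finset i.ToType × (List K → K) := fun a =>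
    (T a, fun l => if h : ∃ k : K, (ord' k).toZFSet = f a (asg (fs' (T a)) l) then h.choose
      else z0)
  have hinj : Function.Injective code := by
    intro a b hab
    have hT : T a = T b := congrArg Prod.fst hab
    have hg := congrArg Prod.snd hab
    have key : ∀ x : Asg, (∀ j, x j < κ.ord) → f a x ∈ κ.ord.toZFSet → f b x ∈ κ.ord.toZFSet →
        f a x = f b x := by
      intro x hx hax hbx
      let l : List K := (fs' (T a)).sort.map fun j => mk ⟨x j, hx j⟩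
      have hl : ∀ j ∈ fs' (T a), x j = asg (fs' (T a)) l j := by
        intro j hj
        have hj' : j ∈ (fs' (T a)).sort := (Finset.mem_sort _).2 hj
        have hlt := List.idxOf_lt_length_iff.2 hj'
        show x j = ord' (l.getD ((fs' (T a)).sort.idxOf j) z0)
        rw [List.getD_eq_getElem _ _ (by rw [List.length_map]; exact hlt), List.getElem_map,
          hordmk]
        congr 1
        exact (List.getElem_idxOf hlt).symm
      have ha1 : f a x = f a (asg (fs' (T a)) l) := hTf a _ _ hl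
      have hb1 : f b x = f b (asg (fs' (T b)) l) := hTf b _ _ (by rw [← hT]; exact hl)
      have hex : ∀ c : (J.cr i).ToType, f c (asg (fs' (T c)) l) ∈ κ.ord.toZFSet →
          ∃ k : K, (ord' k).toZFSet = f c (asg (fs' (T c)) l) := by
        intro c hc
        obtain ⟨α, hα, hαe⟩ := Ordinal.mem_toZFSet_iff.1 hc
        exact ⟨mk ⟨α, hα⟩, by rw [hordmk, hαe]⟩
      have hval : ∀ c : (J.cr i).ToType, f c (asg (fs' (T c)) l) ∈ κ.ord.toZFSet →
          (ord' ((code c).2 l)).toZFSet = f c (asg (fs' (T c)) l) := by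
        intro c hc
        have h1 : (code c).2 l = (hex c hc).choose := dif_pos (hex c hc)
        rw [h1]
        exact (hex c hc).choose_spec
      have h1 := hval a (by rw [← ha1]; exact hax)
      have h2 := hval b (by rw [← hb1]; exact hbx)
      rw [ha1, hb1, ← h1, ← h2, hg]
    have hsupp : ∀ c, ∃ s, Supp s fun x => f c x ∈ κ.ord.toZFSet := fun c =>
      ⟨fs' (T c), fun x y hxy => by
        show (f c x ∈ κ.ord.toZFSet) = (f c y ∈ κ.ord.toZFSet)
        rw [hTf c x y hxy]⟩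
    have hAE : AE U fun x => f a x = f b x := by
      refine ae_mono hU ⟨fs' (T a), fun x y hxy => ?_⟩ (fun x hx h => key x hx h.1 h.2)
        ((ae_and hU (hsupp a) (hsupp b)).2 ⟨hfκ a, hfκ b⟩)
      show (f a x = f b x) = (f a y = f b y)
      rw [hTf a x y hxy, hTf b x y (by rw [← hT]; exact hxy)]
    have h3 : J.val (f a) = J.val (f b) := (J.eq_iff _ _ (hfθ a) (hfθ b)).2 hAE
    rw [← hf, ← hf] at h3
    have h4 := Ordinal.toZFSet_injective h3
    exact mc.symm.injective (Subtype.ext h4)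
  have h1 := Cardinal.mk_le_of_injective hinj
  have h2 : #(J.cr i).ToType = (J.cr i).card := Cardinal.mk_toType _
  have h3 : #(Finset i.ToType × (List K → K)) = #(Finset i.ToType) * 2 ^ κ := by
    have h4 : #(List K → K) = 2 ^ κ := by
      rw [← Cardinal.power_def, Cardinal.mk_list_eq_mk, Cardinal.mk_ord_toType,
        Cardinal.power_self_eq hκ0]
    rw [Cardinal.mk_prod, Cardinal.lift_id, Cardinal.lift_id, h4]
  have h5 : #(Finset i.ToType) ≤ max ℵ₀ i.card := by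
    rcases finite_or_infinite i.ToType with hfin | hinf
    · exact (Cardinal.lt_aleph0_of_finite _).le.trans (le_max_left _ _)
    · rw [Cardinal.mk_finset_of_infinite, Cardinal.mk_toType]
      exact le_max_right _ _
  rw [h2, h3, mul_comm] at h1
  exact h1.trans (mul_le_mul_right h5 _)

theorem pi4_le_cr {j : Ordinal.{0}} (hj : j < θ) : j ≤ J.cr j := by
  induction j using WellFoundedLT.induction with
  | ind j ih =>
    by_contra h
    rw [not_le] at h
    have h1 := ih (J.cr j) h (h.trans hj)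
    have h2 := cr_strictMono hU hδ₀ hUQ J h hj
    exact absurd h1 (not_le.2 h2)

theorem cr_fix {c : Cardinal.{0}} (hc : 2 ^ κ < c) (hcθ : c.ord < θ) : J.cr c.ord = c.ord := by
  have hκ0 : ℵ₀ ≤ κ := hU.uncountable.le
  have hc0 : ℵ₀ ≤ c := (hκ0.trans (Cardinal.cantor κ).le).trans hc.le
  have hlim : IsSuccLimit c.ord := Cardinal.isSuccLimit_ord hc0
  refine le_antisymm ?_ (pi4_le_cr hU hδ₀ hUQ J hcθ)
  by_contra h
  rw [not_le] at h
  obtain ⟨j, hj, hjc⟩ := cr_cont' hU hδ₀ hUQ J hcθ hlim h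
  have h1 := cr_card hU hδ₀ hUQ J (hj.trans hcθ)
  have h2 : c ≤ (J.cr j).card := by
    rw [← Cardinal.ord_le]
    exact hjc.le
  have h3 : j.card < c := Cardinal.lt_ord.1 hj
  have h4 : (2 ^ κ * max ℵ₀ j.card : Cardinal.{0}) < c := by
    refine Cardinal.mul_lt_of_lt hc0 hc (max_lt ?_ h3)
    exact (hκ0.trans_lt (Cardinal.cantor κ)).trans hc
  exact absurd (h2.trans h1) (not_le.2 h4)

end Pool.Agent.helper797_cs
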