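import Pool.Agent.helper797_cs.PI4a
import Pool.Agent.helper797_cs.PI4b

/-! # The critical points: all parts -/
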