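import Pool.Agent.helper797_cs.PI3

/-! # I4, part A: the critical points of the iterate -/

set_option autoImplicit false
namespace Pool.Agent.helper797_cs
open Pool.Agent.W868 Pool.Agent.R587
open ZFSet (pair)
open Cardinal Order

namespace PI4a

theorem ft_const {Q : ZFSet.{0}} {θ : Ordinal.{0}} {a : ZFSet.{0}} (ha : a ∈ Q) :
    IsFT Q θ fun _ => a :=
  ⟨⟨∅, by simp, fun _ _ _ => rfl⟩, fun _ => ha⟩

theorem ft_mono {Q : ZFSet.{0}} {θ θ' : Ordinal.{0}} (h : θ ≤ θ') {f : Asg → ZFSet.{0}}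
    (hf : IsFT Q θ f) : IsFT Q θ' f := by
  obtain ⟨⟨s, h1, h2⟩, h3⟩ := hf
  exact ⟨⟨s, fun i hi => (h1 i hi).trans_le h, h2⟩, h3⟩

theorem supp_comp {s : Finset Ordinal.{0}} {β γ : Type*} {f : Asg → β} (hf : Supp s f)
    (g : β → γ) : Supp s fun x => g (f x) := fun x y h => by
  change g (f x) = g (f y)
  rw [hf x y h]

theorem supp_comp2 {s t : Finset Ordinal.{0}} {β γ ε : Type*} {f : Asg → β} {f' : Asg → γ}
    (hf : Supp s f) (hf' : Supp t f') (g : β → γ → ε) : Supp (s ∪ t) fun x => g (f x) (f' x) :=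
  fun x y h => by
    change g (f x) (f' x) = g (f y) (f' y)
    rw [hf x y fun i hi => h i (Finset.mem_union_left _ hi),
      hf' x y fun i hi => h i (Finset.mem_union_right _ hi)]

theorem supp_coord (i : Ordinal.{0}) : Supp {i} fun x : Asg => x i := fun x y h =>
  h i (Finset.mem_singleton_self i)

theorem supp_const {β : Type*} (b : β) : Supp ∅ fun _ : Asg => b := fun _ _ _ => rfl

variable {κ : Cardinal.{0}} {U : ZFSet.{0}} (hU : IsNormalMeasure κ U)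

include hU in
theorem ae_last' {i : Ordinal.{0}} {s : Finset Ordinal.{0}} (hs : ∀ j ∈ s, j < i)
    {P : Asg → Ordinal.{0} → Prop} (hP : ∀ a, Supp s fun x => P x a) :
    (AE U fun x => P x (x i)) ↔ AE U fun x => UQ U fun a => P x a := by
  have h1 : Supp (insert i s) fun x => P x (x i) := by
    intro x y h
    have h2 : x i = y i := h i (Finset.mem_insert_self i s)
    change P x (x i) = P y (y i)
    rw [h2]
    exact hP (y i) x y fun j hj => h j (Finset.mem_insert_of_mem hj)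
  rw [ae_last hU hs h1]
  have h3 : ∀ x a, P (Function.update x i a) ((Function.update x i a) i) = P x a := by
    intro x a
    rw [Function.update_self]
    refine hP a _ _ fun j hj => ?_
    rw [Function.update_of_ne (hs j hj).ne]
  simp only [h3]

variable {δ₀ θ : Ordinal.{0}} (hδ₀ : IsSuccLimit δ₀) (hUQ : U ∈ KS U δ₀)

open Classical in
/-- The function for the critical point, ordinals. -/
noncomputable def gf (U : ZFSet.{0}) (δ₀ i : Ordinal.{0}) (x : Asg) : Ordinal.{0} :=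
  if (x i).toZFSet ∈ KS U δ₀ then x i else 0

theorem supp_gf (i : Ordinal.{0}) : Supp {i} (gf U δ₀ i) :=
  supp_comp (supp_coord i) fun a => by
    classical exact if a.toZFSet ∈ KS U δ₀ then a else 0

include hU hUQ in
theorem kap_mem : κ.ord.toZFSet ∈ KS U δ₀ := ks_trans δ₀ U hUQ _ hU.univ

include hU hUQ in
theorem kap_lt : κ.ord < δ₀ := ks_ord_le (kap_mem hU hUQ)

include hU hδ₀ hUQ in
theorem gf_eq {i : Ordinal.{0}} {x : Asg} (h : x i < κ.ord) : gf U δ₀ i x = x i := by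
  rw [gf, if_pos]
  exact (ks_ord hδ₀).2 (h.trans (kap_lt hU hUQ))

include hδ₀ in
theorem gf_mem (i : Ordinal.{0}) (x : Asg) : (gf U δ₀ i x).toZFSet ∈ KS U δ₀ := by
  rw [gf]
  split_ifs with h
  · exact h
  · exact (ks_ord hδ₀).2 hδ₀.bot_lt

include hδ₀ in
theorem gf_lt (i : Ordinal.{0}) (x : Asg) : gf U δ₀ i x < δ₀ := ks_ord_le (gf_mem hδ₀ i x)

include hδ₀ in
theorem ft_gf {i θ : Ordinal.{0}} (hi : i < θ) :
    IsFT (KS U δ₀) θ fun x => (gf U δ₀ i x).toZFSet :=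
  ⟨⟨{i}, fun j hj => (Finset.mem_singleton.1 hj) ▸ hi, supp_comp (supp_gf i) _⟩,
    fun x => gf_mem hδ₀ i x⟩

theorem crz_eq (J : Iter U (KS U δ₀) θ) (i : Ordinal.{0}) :
    J.crz i = J.val fun x => (gf U δ₀ i x).toZFSet := by
  rw [Iter.crz]
  congr 1
  funext x
  rw [gf]
  split_ifs
  · rfl
  · exact Ordinal.toZFSet_zero.symm

theorem em_eq (J : Iter U (KS U δ₀) θ) (a : ZFSet.{0}) : J.em a = J.val fun _ => a := rfl

/-- A bound for a finite set below a limit. -/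
theorem fin_bound {i : Ordinal.{0}} (hi : IsSuccLimit i) (s : Finset Ordinal.{0})
    (hs : ∀ j ∈ s, j < i) : ∃ k < i, ∀ j ∈ s, j < k := by
  refine ⟨s.sup Order.succ, ?_, ?_⟩
  · rw [Finset.sup_lt_iff hi.bot_lt]
    intro j hj
    exact hi.succ_lt (hs j hj)
  · intro j hj
    exact (Order.lt_succ j).trans_le (Finset.le_sup (f := Order.succ) hj)

end PI4a

open PI4a

variable {κ : Cardinal.{0}} {U : ZFSet.{0}} (hU : IsNormalMeasure κ U) {δ₀ θ : Ordinal.{0}}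
  (hδ₀ : IsSuccLimit δ₀) (hUQ : U ∈ KS U δ₀) (J : Iter U (KS U δ₀) θ)

include hU hδ₀ hUQ

theorem cr_spec {i : Ordinal.{0}} (hi : i < θ) : J.crz i = (J.cr i).toZFSet := by
  obtain ⟨η, hη⟩ := iter_ord hU hδ₀ hUQ J (ft_gf (U := U) hδ₀ hi)
  rw [← crz_eq] at hη
  have h1 : J.cr i = η := by
    rw [Iter.cr, hη]
    have h2 : {α : Ordinal.{0} | α.toZFSet = η.toZFSet} = {η} := by
      ext α
      exact Ordinal.toZFSet_injective.eq_iff
    rw [h2, csInf_singleton]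
  rw [h1, hη]

theorem PI4a.val_cr {i : Ordinal.{0}} (hi : i < θ) :
    J.val (fun x => (gf U δ₀ i x).toZFSet) = (J.cr i).toZFSet := by
  rw [← crz_eq, cr_spec hU hδ₀ hUQ J hi]

/-- Regressive functions. -/
theorem PI4a.to_Rl {B : Ordinal.{0} → ZFSet.{0}} (hc : ∀ α < κ.ord, (B α).card < κ)
    (hl : ∀ α, IsSuccLimit α → ∀ z ∈ B α, ∃ β < α, z ∈ B β) {f : Asg → ZFSet.{0}}
    (hf : IsFT (KS U δ₀) θ f) {i : Ordinal.{0}} (hi : i < θ) (h : AE U fun x => f x ∈ B (x i)) :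
    J.val f ∈ J.Rl i := by
  obtain ⟨⟨s, hs1, hs2⟩, hf2⟩ := hf
  obtain ⟨g, h1, h2, h3⟩ := regress hU hc hl hs2 h
  have hg : IsFT (KS U δ₀) i g := by
    refine ⟨⟨_, ?_, h1⟩, ?_⟩
    · intro j hj
      exact (Finset.mem_filter.1 hj).2
    · intro x
      obtain ⟨y, hy⟩ := h2 x
      rw [hy]
      exact hf2 y
  have hg' := ft_mono hi.le hg
  exact ⟨g, hg, hg', (J.eq_iff f g ⟨⟨s, hs1, hs2⟩, hf2⟩ hg').2 h3⟩

/-- Elements of critical points: regressive functions. -/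
theorem mem_crz {i : Ordinal.{0}} (hi : i < θ) {α : Ordinal.{0}} :
    α < J.cr i ↔ α.toZFSet ∈ J.Rl i ∧ α.toZFSet ∈ J.em κ.ord.toZFSet := by
  have hκ := kap_mem hU hUQ
  have e : α < J.cr i ↔ α.toZFSet ∈ J.crz i := by
    rw [cr_spec hU hδ₀ hUQ J hi]
    exact Ordinal.toZFSet_mem_toZFSet_iff.symm
  rw [e, crz_eq]
  have hgf := ft_gf (U := U) hδ₀ hi
  constructor
  · intro h
    have h1 : α.toZFSet ∈ J.R := J.trans _ ((J.mem_R _).2 ⟨_, hgf, rfl⟩) _ h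
    obtain ⟨f, hf, hf2⟩ := (J.mem_R _).1 h1
    rw [hf2] at h ⊢
    have h2 := (J.mem_iff _ _ hf hgf).1 h
    obtain ⟨s, hs1, hs2⟩ := hf.1
    constructor
    · refine to_Rl hU hδ₀ hUQ J (B := fun α => α.toZFSet) ?_ ?_ hf hi ?_
      · intro α hα
        rw [Ordinal.card_toZFSet]
        exact Cardinal.lt_ord.1 hα
      · intro α hα z hz
        obtain ⟨β, hβ, rfl⟩ := Ordinal.mem_toZFSet_iff.1 hz
        exact ⟨Order.succ β, hα.succ_lt hβ, Ordinal.toZFSet_mem_toZFSet_iff.2 (Order.lt_succ β)⟩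
      · refine ae_mono hU ⟨_, supp_comp2 hs2 (supp_coord i) fun a b => a ∈ b.toZFSet⟩ ?_ h2
        intro x hx h3
        rw [gf_eq hU hδ₀ hUQ (hx i)] at h3
        exact h3
    · rw [em_eq, J.mem_iff _ _ hf (ft_const hκ)]
      refine ae_mono hU ⟨_, supp_comp hs2 fun a => a ∈ κ.ord.toZFSet⟩ ?_ h2
      intro x hx h3
      rw [gf_eq hU hδ₀ hUQ (hx i)] at h3
      exact Ordinal.toZFSet_subset_toZFSet_iff.2 (hx i).le h3
  · rintro ⟨⟨f, hf, hf', h1⟩, h2⟩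
    rw [h1] at h2 ⊢
    rw [em_eq, J.mem_iff _ _ hf' (ft_const hκ)] at h2
    rw [J.mem_iff _ _ hf' hgf]
    obtain ⟨s, hs1, hs2⟩ := hf.1
    have h3 : AE U fun x => f x ∈ (x i).toZFSet := by
      rw [ae_last' hU (P := fun x a => f x ∈ a.toZFSet) hs1
        fun a => supp_comp hs2 fun b => b ∈ a.toZFSet]
      refine ae_mono hU ⟨s, supp_comp hs2 fun b => UQ U fun a => b ∈ a.toZFSet⟩ ?_ h2
      intro x _ h3
      obtain ⟨β, hβ, h4⟩ := Ordinal.mem_toZFSet_iff.1 h3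
      refine uq_mono hU ?_ (uq_lt hU hβ)
      rintro a - ⟨h5, -⟩
      rw [← h4]
      exact Ordinal.toZFSet_mem_toZFSet_iff.2 h5
    refine ae_mono hU ⟨_, supp_comp2 hs2 (supp_gf i) fun a b => a ∈ b.toZFSet⟩ ?_ h3
    intro x hx h4
    rw [gf_eq hU hδ₀ hUQ (hx i)]
    exact h4

/-- Functions with values in a small ordinal are constant. -/
theorem PI4a.ae_const {α : Ordinal.{0}} (hα : α < κ.ord) {f : Asg → ZFSet.{0}}
    {s : Finset Ordinal.{0}} (hs : Supp s f) (h : AE U fun x => f x ∈ α.toZFSet) :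
    ∃ β < α, AE U fun x => f x = β.toZFSet := by
  by_contra hno
  push Not at hno
  have h1 : AE U fun x => ∀ j : α.ToType, ¬ f x = (Ordinal.ToType.mk.symm j : Set.Iio α).1.toZFSet := by
    refine ae_all hU (s := s) ?_ (fun j => supp_comp hs fun b =>
      ¬ b = (Ordinal.ToType.mk.symm j : Set.Iio α).1.toZFSet) ?_
    · rw [Cardinal.mk_toType]
      exact Cardinal.lt_ord.1 hα
    · intro j
      rw [ae_not hU ⟨s, supp_comp hs fun b =>
        b = (Ordinal.ToType.mk.symm j : Set.Iio α).1.toZFSet⟩]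
      exact hno _ (Ordinal.ToType.mk.symm j : Set.Iio α).2
  have h2 := (ae_and hU ⟨s, supp_comp hs fun b => b ∈ α.toZFSet⟩
    ⟨s, supp_comp hs fun b => ∀ j : α.ToType,
      ¬ b = (Ordinal.ToType.mk.symm j : Set.Iio α).1.toZFSet⟩).2 ⟨h, h1⟩
  obtain ⟨x, -, h3, h4⟩ := ae_exists hU h2
  obtain ⟨β, hβ, h5⟩ := Ordinal.mem_toZFSet_iff.1 h3
  refine h4 (Ordinal.ToType.mk ⟨β, hβ⟩) ?_
  rw [OrderIso.symm_apply_apply]
  exact h5.symm

theorem PI4a.em_lt' {α : Ordinal.{0}} (hα : α < κ.ord) :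
    J.em α.toZFSet = α.toZFSet := by
  induction α using WellFoundedLT.induction with
  | _ α ih =>
    have hq : ∀ β : Ordinal.{0}, β ≤ α → β.toZFSet ∈ KS U δ₀ := fun β hβ =>
      (ks_ord hδ₀).2 ((hβ.trans_lt hα).trans (kap_lt hU hUQ))
    have hFα := ft_const (θ := θ) (hq α le_rfl)
    ext y
    constructor
    · intro hy
      have h1 : y ∈ J.R := J.trans _ ((J.mem_R _).2 ⟨_, hFα, rfl⟩) _ hy
      obtain ⟨f, hf, rfl⟩ := (J.mem_R _).1 h1
      rw [em_eq, J.mem_iff _ _ hf hFα] at hy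
      obtain ⟨s, hs1, hs2⟩ := hf.1
      obtain ⟨β, hβ, h2⟩ := ae_const hU hδ₀ hUQ hα hs2 hy
      rw [(J.eq_iff _ _ hf (ft_const (hq β hβ.le))).2 h2, ← em_eq, ih β hβ (hβ.trans hα)]
      exact Ordinal.toZFSet_mem_toZFSet_iff.2 hβ
    · intro hy
      obtain ⟨β, hβ, rfl⟩ := Ordinal.mem_toZFSet_iff.1 hy
      rw [← ih β hβ (hβ.trans hα), em_eq, em_eq, J.mem_iff _ _ (ft_const (hq β hβ.le)) hFα]
      exact ae_of_forall hU ⟨∅, supp_const _⟩ fun _ _ => hy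

theorem cr_zero (hθ : 0 < θ) : J.cr 0 = κ.ord := by
  have hκ := kap_mem hU hUQ
  refine eq_of_forall_lt_iff fun α => ?_
  rw [mem_crz hU hδ₀ hUQ J hθ]
  constructor
  · rintro ⟨⟨f, hf, hf', h1⟩, h2⟩
    obtain ⟨s, hs1, hs2⟩ := hf.1
    have hs0 : s = ∅ := by
      rw [Finset.eq_empty_iff_forall_notMem]
      intro j hj
      exact absurd (hs1 j hj) not_lt_zero
    subst hs0
    rw [h1, em_eq, J.mem_iff _ _ hf' (ft_const hκ)] at h2
    obtain ⟨x, -, h4⟩ := ae_exists hU h2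
    obtain ⟨β, hβ, h5⟩ := Ordinal.mem_toZFSet_iff.1 h4
    have h6 : f = fun _ => β.toZFSet := by
      funext y
      rw [h5]
      exact hs2 _ _ (by simp)
    rw [h6, ← em_eq, em_lt' hU hδ₀ hUQ J hβ] at h1
    rw [Ordinal.toZFSet_injective h1]
    exact hβ
  · intro hα
    have h1 : α.toZFSet ∈ KS U δ₀ := (ks_ord hδ₀).2 (hα.trans (kap_lt hU hUQ))
    rw [← em_lt' hU hδ₀ hUQ J hα]
    refine ⟨⟨_, ft_const h1, ft_const h1, rfl⟩, ?_⟩
    rw [em_eq, em_eq, J.mem_iff _ _ (ft_const h1) (ft_const hκ)]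
    exact ae_of_forall hU ⟨∅, supp_const _⟩ fun _ _ => Ordinal.toZFSet_mem_toZFSet_iff.2 hα

/-- Below `κ` nothing moves. -/
theorem em_lt (hθ : 0 < θ) {α : Ordinal.{0}} (hα : α < κ.ord) :
    J.em α.toZFSet = α.toZFSet := em_lt' hU hδ₀ hUQ J hα

theorem cr_strictMono {i j : Ordinal.{0}} (hij : i < j) (hj : j < θ) : J.cr i < J.cr j := by
  have hκ := kap_mem hU hUQ
  rw [mem_crz hU hδ₀ hUQ J hj, ← val_cr hU hδ₀ hUQ J (hij.trans hj)]
  have h1 := ft_gf (U := U) hδ₀ (hij.trans hj)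
  refine ⟨⟨_, ft_gf hδ₀ hij, h1, rfl⟩, ?_⟩
  rw [em_eq, J.mem_iff _ _ h1 (ft_const hκ)]
  refine ae_of_forall hU ⟨_, supp_comp (supp_gf i) fun a => a.toZFSet ∈ κ.ord.toZFSet⟩ ?_
  intro x hx
  rw [gf_eq hU hδ₀ hUQ (hx i)]
  exact Ordinal.toZFSet_mem_toZFSet_iff.2 (hx i)

theorem cr_cont' {i : Ordinal.{0}} (hi : i < θ) (hl : IsSuccLimit i) {α : Ordinal.{0}}
    (hα : α < J.cr i) : ∃ j < i, α < J.cr j := by
  rw [mem_crz hU hδ₀ hUQ J hi] at hα
  obtain ⟨⟨f, hf, hf', h1⟩, h2⟩ := hα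
  obtain ⟨s, hs1, hs2⟩ := hf.1
  obtain ⟨j, hj, h3⟩ := fin_bound hl s hs1
  refine ⟨j, hj, ?_⟩
  rw [mem_crz hU hδ₀ hUQ J (hj.trans hi)]
  exact ⟨⟨f, ⟨⟨s, h3, hs2⟩, hf.2⟩, hf', h1⟩, h2⟩

theorem cr_isLim {i : Ordinal.{0}} (hi : i < θ) : IsSuccLimit (J.cr i) := by
  rw [iter_lim hU hδ₀ hUQ J (ft_gf (U := U) hδ₀ hi) (val_cr hU hδ₀ hUQ J hi)]
  have h1 : AE U fun x => IsSuccLimit (x i) := by
    rw [ae_last' hU (s := ∅) (P := fun _ a => IsSuccLimit a) (by simp) fun _ => supp_const _]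
    exact ae_of_forall hU ⟨∅, supp_const _⟩ fun _ _ => uq_lim hU
  refine ae_mono hU ⟨_, supp_comp (supp_gf i) fun a => IsSuccLimit a⟩ ?_ h1
  intro x hx h2
  rw [gf_eq hU hδ₀ hUQ (hx i)]
  exact h2

theorem cr_tail {i : Ordinal.{0}} (hi : i < θ) {Z : ZFSet.{0}} (hZ : Z ∈ J.Rl i) :
    J.crz i ∈ Z ↔ Z ∩ J.em κ.ord.toZFSet ∈ J.em U := by
  have hκ := kap_mem hU hUQ
  obtain ⟨f, hf, hf', rfl⟩ := hZ
  obtain ⟨s, hs1, hs2⟩ := hf.1
  have hgf := ft_gf (U := U) hδ₀ hi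
  rw [crz_eq, J.mem_iff _ _ hgf hf']
  have e1 : (AE U fun x => (gf U δ₀ i x).toZFSet ∈ f x) ↔ AE U fun x => (x i).toZFSet ∈ f x := by
    constructor
    · refine ae_mono hU ⟨_, supp_comp2 hs2 (supp_coord i) fun a b => b.toZFSet ∈ a⟩ ?_
      intro x hx h
      rw [gf_eq hU hδ₀ hUQ (hx i)] at h
      exact h
    · refine ae_mono hU ⟨_, supp_comp2 hs2 (supp_gf i) fun a b => b.toZFSet ∈ a⟩ ?_
      intro x hx h
      rw [gf_eq hU hδ₀ hUQ (hx i)]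
      exact h
  rw [e1, ae_last' hU (P := fun x a => a.toZFSet ∈ f x) hs1
    fun a => supp_comp hs2 fun b => a.toZFSet ∈ b]
  have hR : DB fun v : Fin 3 → ZFSet.{0} => ∃ y ∈ v 2, (∀ z ∈ y, z ∈ v 0 ∧ z ∈ v 1) ∧
      ∀ z ∈ v 0, z ∈ v 1 → z ∈ y := by
    (repeat' first
      | assumption
      | exact D0v.proj _
      | apply DB.not | apply DB.and | apply DB.or | apply DB.imp | apply DB.iff
      | apply DB.bex | apply DB.ball
      | apply DB.eq | apply DB.mem)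
  have h1 := los_db hU (ks_trans δ₀) J hR ![f, fun _ => κ.ord.toZFSet, fun _ => U] (by
    intro j
    fin_cases j
    · exact hf'
    · exact ft_const hκ
    · exact ft_const hUQ)
  have h2 : ∀ a b c : ZFSet.{0}, (∃ y ∈ c, (∀ z ∈ y, z ∈ a ∧ z ∈ b) ∧
      ∀ z ∈ a, z ∈ b → z ∈ y) ↔ a ∩ b ∈ c := by
    intro a b c
    constructor
    · rintro ⟨y, hy, h3, h4⟩
      have h5 : a ∩ b = y := by
        ext z
        rw [ZFSet.mem_inter]
        exact ⟨fun h => h4 z h.1 h.2, h3 z⟩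
      rw [h5]
      exact hy
    · intro h
      exact ⟨_, h, fun z hz => ZFSet.mem_inter.1 hz, fun z hz hz' => ZFSet.mem_inter.2 ⟨hz, hz'⟩⟩
  have h3 : J.val f ∩ J.em κ.ord.toZFSet ∈ J.em U ↔ AE U fun x => f x ∩ κ.ord.toZFSet ∈ U := by
    rw [← h2]
    refine Iff.trans h1 ?_
    have h4 : ∀ x : Asg, (∃ y ∈ U, (∀ z ∈ y, z ∈ f x ∧ z ∈ κ.ord.toZFSet) ∧
      ∀ z ∈ f x, z ∈ κ.ord.toZFSet → z ∈ y) ↔ f x ∩ κ.ord.toZFSet ∈ U := fun x => h2 _ _ _
    constructor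
    · refine ae_mono hU ⟨s, supp_comp hs2 fun b => b ∩ κ.ord.toZFSet ∈ U⟩ ?_
      intro x _ h
      exact (h4 x).1 h
    · refine ae_mono hU ⟨s, ?_⟩ ?_
      · intro x y h
        have h5 := hs2 x y h
        simp only [Matrix.cons_val_zero, h5]
        rfl
      · intro x _ h
        exact (h4 x).2 h
  rw [h3]
  have h5 : ∀ x : Asg, (UQ U fun a => a.toZFSet ∈ f x) ↔ f x ∩ κ.ord.toZFSet ∈ U := by
    intro x
    rw [uq_iff hU]
    have h6 : ZFSet.sep (fun z => ∃ α : Ordinal.{0}, z = α.toZFSet ∧ α.toZFSet ∈ f x)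
        κ.ord.toZFSet = f x ∩ κ.ord.toZFSet := by
      ext z
      rw [ZFSet.mem_sep, ZFSet.mem_inter]
      constructor
      · rintro ⟨h7, α, rfl, h8⟩
        exact ⟨h8, h7⟩
      · rintro ⟨h7, h8⟩
        obtain ⟨α, -, rfl⟩ := Ordinal.mem_toZFSet_iff.1 h8
        exact ⟨h8, α, rfl, h7⟩
    rw [h6]
  simp only [h5]

/-- `KS F (cr i) ⊆ Rl i`. -/
theorem cr_low {i : Ordinal.{0}} (hi : i < θ) : ∀ x ∈ KS (J.em U) (J.cr i), x ∈ J.Rl i := by
  intro y hy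
  have hgf := ft_gf (U := U) hδ₀ hi
  obtain ⟨h1, -, -⟩ := iter_KS hU hδ₀ hUQ J hgf (val_cr hU hδ₀ hUQ J hi)
  have hK : IsFT (KS U δ₀) θ fun x => KS U (gf U δ₀ i x) := by
    refine ⟨⟨{i}, fun j hj => (Finset.mem_singleton.1 hj) ▸ hi, supp_comp (supp_gf i) _⟩, ?_⟩
    intro x
    exact ks_mem (gf_lt hδ₀ i x)
  rw [← h1] at hy
  have h2 : y ∈ J.R := J.trans _ ((J.mem_R _).2 ⟨_, hK, rfl⟩) _ hy
  obtain ⟨f, hf, rfl⟩ := (J.mem_R _).1 h2
  rw [J.mem_iff _ _ hf hK] at hy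
  obtain ⟨s, hs1, hs2⟩ := hf.1
  refine to_Rl hU hδ₀ hUQ J (B := fun α => KS U α) ?_ ?_ hf hi ?_
  · intro α hα
    have h3 : IsSuccLimit (α + Ordinal.omega0) :=
      Ordinal.isSuccLimit_add α Ordinal.isSuccLimit_omega0
    refine (ZFSet.card_mono (ks_mono (F := U) (le_self_add (a := α) (b := Ordinal.omega0)))).trans_lt ?_
    rw [ks_card h3, Ordinal.card_add, Ordinal.card_omega0]
    exact Cardinal.add_lt_of_lt hU.uncountable.le (Cardinal.lt_ord.1 hα) hU.uncountable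
  · intro α hα z hz
    exact (ks_limit hα).1 hz
  · refine ae_mono hU ⟨_, supp_comp2 hs2 (supp_coord i) fun a b => a ∈ KS U b⟩ ?_ hy
    intro x hx h3
    rw [gf_eq hU hδ₀ hUQ (hx i)] at h3
    exact h3

/-- `em κ` is the supremum of the critical points, if `θ` is a limit. -/
theorem em_kappa (hθ : IsSuccLimit θ) {α : Ordinal.{0}} :
    α.toZFSet ∈ J.em κ.ord.toZFSet ↔ ∃ i < θ, α < J.cr i := by
  have hκ := kap_mem hU hUQ
  constructor
  · intro h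
    have h1 : α.toZFSet ∈ J.R := J.trans _ ((J.mem_R _).2 ⟨_, ft_const hκ, rfl⟩) _ h
    obtain ⟨f, hf, hf2⟩ := (J.mem_R _).1 h1
    obtain ⟨s, hs1, hs2⟩ := hf.1
    obtain ⟨i, hi, h2⟩ := fin_bound hθ s hs1
    refine ⟨i, hi, ?_⟩
    rw [mem_crz hU hδ₀ hUQ J hi]
    exact ⟨⟨f, ⟨⟨s, h2, hs2⟩, hf.2⟩, hf, hf2⟩, h⟩
  · rintro ⟨i, hi, h⟩
    exact ((mem_crz hU hδ₀ hUQ J hi).1 h).2

end Pool.Agent.helper797_cs
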