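import Pool.Agent.helper797_cs.PI4

/-! # I5: the facts `IT` for the iterate, the covering of the ordinals below the critical points -/

set_option autoImplicit false
namespace Pool.Agent.helper797_cs
open Pool.Agent.W868 Pool.Agent.R587
open ZFSet (pair)
open Cardinal Order

/-! ### Functions with finite support -/

theorem PI5_ft_const {Q : ZFSet.{0}} {θ : Ordinal.{0}} {a : ZFSet.{0}} (h : a ∈ Q) :
    IsFT Q θ fun _ => a :=
  ⟨⟨∅, by simp, fun _ _ _ => rfl⟩, fun _ => h⟩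

theorem PI5_supp2 {Q : ZFSet.{0}} {θ : Ordinal.{0}} {f g : Asg → ZFSet.{0}} (hf : IsFT Q θ f)
    (hg : IsFT Q θ g) {β : Type*} (R : ZFSet.{0} → ZFSet.{0} → β) :
    ∃ s : Finset Ordinal.{0}, Supp s fun x => R (f x) (g x) := by
  obtain ⟨⟨s, -, hs⟩, -⟩ := hf
  obtain ⟨⟨t, -, ht⟩, -⟩ := hg
  refine ⟨s ∪ t, fun x y h => ?_⟩
  have h1 := hs x y fun i hi => h i (Finset.mem_union_left _ hi)
  have h2 := ht x y fun i hi => h i (Finset.mem_union_right _ hi)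
  show R (f x) (g x) = R (f y) (g y)
  rw [h1, h2]

theorem PI5_supp1 {Q : ZFSet.{0}} {θ : Ordinal.{0}} {f : Asg → ZFSet.{0}} (hf : IsFT Q θ f)
    {β : Type*} (R : ZFSet.{0} → β) :
    ∃ s : Finset Ordinal.{0}, Supp s fun x => R (f x) :=
  PI5_supp2 hf hf fun a _ => R a

theorem PI5_mem_R {U Q : ZFSet.{0}} {θ : Ordinal.{0}} (J : Iter U Q θ) {f : Asg → ZFSet.{0}}
    (hf : IsFT Q θ f) : J.val f ∈ J.R := (J.mem_R _).2 ⟨f, hf, rfl⟩

theorem PI5_sub {U Q : ZFSet.{0}} {θ : Ordinal.{0}} (J : Iter U Q θ) {i : Ordinal.{0}} :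
    J.Rl i ⊆ {x | x ∈ J.R} := by
  rintro _ ⟨f, -, hf, rfl⟩
  exact PI5_mem_R J hf

theorem PI5_cov {U Q : ZFSet.{0}} {θ : Ordinal.{0}} (J : Iter U Q θ) (hθ : IsSuccLimit θ)
    {x : ZFSet.{0}} (hx : x ∈ J.R) : ∃ i < θ, x ∈ J.Rl i := by
  obtain ⟨f, hf, rfl⟩ := (J.mem_R x).1 hx
  obtain ⟨⟨s, hs, h1⟩, h2⟩ := hf
  refine ⟨s.sup fun j => j + 1, ?_, f, ⟨⟨s, fun j hj => ?_, h1⟩, h2⟩, ⟨⟨s, hs, h1⟩, h2⟩, rfl⟩
  · rw [Finset.sup_lt_iff (show (⊥ : Ordinal.{0}) < θ from hθ.bot_lt)]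
    intro j hj
    exact hθ.add_one_lt (hs j hj)
  · exact (Order.lt_add_one_iff.2 le_rfl).trans_le (Finset.le_sup (f := fun j => j + 1) hj)

theorem PI5_mono {U Q : ZFSet.{0}} {θ : Ordinal.{0}} (J : Iter U Q θ) {i j : Ordinal.{0}}
    (h : i ≤ j) : J.Rl i ⊆ J.Rl j := by
  rintro _ ⟨f, ⟨⟨s, hs, h1⟩, h2⟩, hf, rfl⟩
  exact ⟨f, ⟨⟨s, fun k hk => (hs k hk).trans_le h, h1⟩, h2⟩, hf, rfl⟩

theorem PI5_crz {U Q : ZFSet.{0}} {θ : Ordinal.{0}} (J : Iter U Q θ) (hQ : ∅ ∈ Q)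
    {i : Ordinal.{0}} (hi : i < θ) : J.crz i ∈ J.Rl (i + 1) := by
  classical
  have h1 : Supp {i} fun x : Asg => if (x i).toZFSet ∈ Q then (x i).toZFSet else (∅ : ZFSet.{0}) := by
    intro x y h
    have h2 := h i (Finset.mem_singleton_self i)
    show (if (x i).toZFSet ∈ Q then (x i).toZFSet else ∅) =
      (if (y i).toZFSet ∈ Q then (y i).toZFSet else ∅)
    rw [h2]
  have h2 : ∀ x : Asg, (if (x i).toZFSet ∈ Q then (x i).toZFSet else (∅ : ZFSet.{0})) ∈ Q := by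
    intro x
    split_ifs with h
    · exact h
    · exact hQ
  refine ⟨_, ⟨⟨{i}, fun j hj => ?_, h1⟩, h2⟩, ⟨⟨{i}, fun j hj => ?_, h1⟩, h2⟩, ?_⟩
  · rw [Finset.mem_singleton.1 hj]
    exact Order.lt_add_one_iff.2 le_rfl
  · rw [Finset.mem_singleton.1 hj]
    exact hi
  · rw [Iter.crz]

/-! ### Bounded formulas -/

theorem PI5_db_fnl : DB fun v : Fin 1 → ZFSet.{0} => Fnl (v 0) := by
  have h : DB fun v : Fin 1 → ZFSet.{0} => ∀ p ∈ v 0, ∀ q ∈ v 0, ¬ ∃ x y, p = pair x y ∧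
      ∃ x' y', q = pair x' y' ∧ (x = x' ∧ ¬ y = y') := by
    apply DB.ball (D0v.proj 0)
    apply DB.ball (D0v.proj 1)
    apply DB.not
    apply DB.expair (Q := fun x y (w : Fin 3 → ZFSet.{0}) => ∃ x' y', w 0 = pair x' y' ∧
      (x = x' ∧ ¬ y = y')) (D0v.proj 1)
    apply DB.expair (Q := fun x' y' (w : Fin 5 → ZFSet.{0}) => (w 1 = x' ∧ ¬ w 0 = y'))
      (D0v.proj 2)
    exact (DB.eq (D0v.proj 3) (D0v.proj 1)).and (DB.eq (D0v.proj 2) (D0v.proj 0)).not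
  refine h.congr fun v => ?_
  constructor
  · intro h1 x y y' h2 h3
    by_contra h4
    exact h1 _ h2 _ h3 ⟨x, y, rfl, x, y', rfl, rfl, h4⟩
  · rintro h1 p hp q hq ⟨x, y, rfl, x', y', rfl, rfl, h4⟩
    exact h4 (h1 x y y' hp hq)

section

variable {κ : Cardinal.{0}} {U : ZFSet.{0}} (hU : IsNormalMeasure κ U) {δ₀ θ : Ordinal.{0}}
  (hδ₀ : IsSuccLimit δ₀) (hUQ : U ∈ KS U δ₀) (J : Iter U (KS U δ₀) θ)

include hU hUQ in
theorem PI5_kappaQ : κ.ord.toZFSet ∈ KS U δ₀ := ks_trans δ₀ U hUQ _ hU.univ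

include hδ₀ in
theorem PI5_emptyQ : ∅ ∈ KS U δ₀ := (ks_gd (F := U) hδ₀).empty_mem

include hδ₀ in
theorem PI5_pairQ {x y : ZFSet.{0}} (hx : x ∈ KS U δ₀) (hy : y ∈ KS U δ₀) :
    pair x y ∈ KS U δ₀ :=
  (ks_gd hδ₀).upair_mem ((ks_gd hδ₀).single_mem hx) ((ks_gd hδ₀).upair_mem hx hy)

include hU hδ₀ hUQ

/-- The elements of `em κ` are ordinals. -/
theorem PI5_em_kappa_ord : ∃ η : Ordinal.{0}, J.em κ.ord.toZFSet = η.toZFSet :=
  iter_ord hU hδ₀ hUQ J (g := fun _ => κ.ord) (PI5_ft_const (PI5_kappaQ hU hUQ))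

theorem PI5_emU_sub {Z : ZFSet.{0}} (hZ : Z ∈ J.em U) : Z ⊆ J.em κ.ord.toZFSet := by
  have hUR : J.em U ∈ J.R := PI5_mem_R J (PI5_ft_const hUQ)
  have hZR : Z ∈ J.R := J.trans _ hUR _ hZ
  obtain ⟨f, hf, rfl⟩ := (J.mem_R Z).1 hZR
  have h1 : AE U fun x => f x ∈ U := (J.mem_iff f _ hf (PI5_ft_const hUQ)).1 hZ
  intro y hy
  obtain ⟨g, hg, rfl⟩ := (J.mem_R y).1 (J.trans _ hZR _ hy)
  have h2 := (J.mem_iff g f hg hf).1 hy
  refine (J.mem_iff g _ hg (PI5_ft_const (PI5_kappaQ hU hUQ))).2 ?_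
  have h3 : AE U fun x => f x ∈ U ∧ g x ∈ f x :=
    (ae_and hU (PI5_supp1 hf fun a => a ∈ U) (PI5_supp2 hg hf fun a b => a ∈ b)).2 ⟨h1, h2⟩
  exact ae_mono hU (PI5_supp1 hg fun a => a ∈ κ.ord.toZFSet)
    (fun x _ h => hU.sub _ h.1 h.2) h3

/-- The instance of `IT`. -/
theorem exists_IT {c : ℕ → Cardinal.{0}} (hc : ∀ k, (c k).IsRegular) (hcκ : ∀ k, 2 ^ κ < c k)
    (hmono : StrictMono c) (hcθ : ∀ k, (c k).ord < θ) (hcof : ∀ α < θ, ∃ k, α < (c k).ord) :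
    J.em κ.ord.toZFSet = θ.toZFSet ∧
    ∃ (δ : Ordinal.{0}) (T : IT (J.em U) θ δ), J.R = KS (J.em U) δ ∧ T.Rl = J.Rl ∧
      T.cr = J.cr ∧ ∀ k, T.nu k = (c k).ord := by
  have hm : ∀ k l, k < l → (c k).ord < (c l).ord := fun k l h => Cardinal.ord_lt_ord.2 (hmono h)
  have hθ0 : 0 < θ := lt_of_le_of_lt zero_le (hcθ 0)
  have hθ : IsSuccLimit θ := by
    rw [Order.isSuccLimit_iff]
    refine ⟨fun h => ?_, ?_⟩
    · rw [isMin_iff_eq_bot] at h
      rw [h] at hθ0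
      exact lt_irrefl _ hθ0
    · intro η hη
      obtain ⟨k, hk⟩ := hcof η hη.lt
      have h1 := hη.le_of_lt (hcθ k)
      exact absurd hk (not_lt.2 h1)
  have hfix : ∀ k, J.cr (c k).ord = (c k).ord := fun k => cr_fix hU hδ₀ hUQ J (hcκ k) (hcθ k)
  have hcr : ∀ i < θ, J.cr i < θ := by
    intro i hi
    obtain ⟨k, hk⟩ := hcof i hi
    have h1 := cr_strictMono hU hδ₀ hUQ J hk (hcθ k)
    rw [hfix k] at h1
    exact h1.trans (hcθ k)
  obtain ⟨η, hη⟩ := PI5_em_kappa_ord hU hδ₀ hUQ J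
  have hem : J.em κ.ord.toZFSet = θ.toZFSet := by
    rw [hη]
    congr 1
    refine le_antisymm (le_of_forall_lt fun α hα => ?_) (le_of_forall_lt fun α hα => ?_)
    · have h1 : α.toZFSet ∈ J.em κ.ord.toZFSet := by
        rw [hη, Ordinal.toZFSet_mem_toZFSet_iff]
        exact hα
      obtain ⟨i, hi, h2⟩ := (em_kappa hU hδ₀ hUQ J hθ).1 h1
      exact h2.trans (hcr i hi)
    · rw [← Ordinal.toZFSet_mem_toZFSet_iff, ← hη, em_kappa hU hδ₀ hUQ J hθ]
      obtain ⟨k, hk⟩ := hcof α hα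
      exact ⟨_, hcθ k, by rw [hfix k]; exact hk⟩
  obtain ⟨δ, hδ, hR⟩ := iter_level hU hδ₀ hUQ J
  have hθR : θ.toZFSet ∈ J.R := by
    rw [← hem]
    exact PI5_mem_R J (PI5_ft_const (PI5_kappaQ hU hUQ))
  have hθδ : θ < δ := by
    rw [hR] at hθR
    exact ks_ord_le hθR
  refine ⟨hem, δ, ?_, hR, ?_⟩
  · exact
    { hθ := hθ
      hδ := hδ
      lt := hθδ
      Fsub := fun Z hZ => by
        rw [← hem]
        exact PI5_emU_sub hU hδ₀ hUQ J hZ
      Rl := J.Rl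
      cr := J.cr
      nu := fun k => (c k).ord
      sub := fun i _ => by
        rw [← hR]
        exact PI5_sub J
      cov := fun x hx => PI5_cov J hθ (by rw [hR]; exact hx)
      mono := fun i j h _ => PI5_mono J h
      om := by
        rw [cr_zero hU hδ₀ hUQ J hθ0, ← Cardinal.ord_aleph0]
        exact Cardinal.ord_lt_ord.2 hU.uncountable
      cr_lt := hcr
      cr_mono := fun i j hij hj => cr_strictMono hU hδ₀ hUQ J hij hj
      cr_cont := fun i hi hl α hα => cr_cont' hU hδ₀ hUQ J hi hl hα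
      cr_lim := fun i hi => cr_isLim hU hδ₀ hUQ J hi
      cr_mem := fun i hi => by
        rw [← cr_spec hU hδ₀ hUQ J hi]
        exact PI5_crz J (PI5_emptyQ hδ₀) hi
      ord := fun i hi α hα => by
        rw [mem_crz hU hδ₀ hUQ J hi, hem, Ordinal.toZFSet_mem_toZFSet_iff]
        exact ⟨fun h => ⟨h, hα⟩, fun h => h.1⟩
      low := fun i hi => cr_low hU hδ₀ hUQ J hi
      tail := fun i hi Z hZ hZθ => by
        have h1 := cr_tail hU hδ₀ hUQ J hi hZ
        have h2 : Z ∩ J.em κ.ord.toZFSet = Z := by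
          ext u
          rw [ZFSet.mem_inter, hem]
          exact ⟨fun h => h.1, fun h => ⟨h, hZθ h⟩⟩
        rw [cr_spec hU hδ₀ hUQ J hi, h2] at h1
        exact h1
      elem := fun i hi ξ _ hξ hξi _ φ v hv => iter_elem hU hδ₀ hUQ J hi hξ hξi φ v hv
      indisc := fun i hi ξ _ hξ hθξ hξi _ _ φ v hv a b ha hb hai hbi =>
        iter_indisc hU hδ₀ hUQ J hi hξ (by rw [hem]; exact (ks_ord hξ).2 hθξ) hξi φ v hv a b ha hb
          hai hbi
      nu_card := fun k => ⟨c k, hc k, rfl⟩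
      nu_lt := hcθ
      nu_mono := fun k l h => hm k l h
      nu_cof := hcof
      nu_cr := hfix }
  · exact ⟨rfl, rfl, fun _ => rfl⟩

end

/-! ### The covering -/

/-- The code of a list. -/
noncomputable def PI5_tup : List ZFSet.{0} → ZFSet.{0}
  | [] => ∅
  | a :: l => pair a (PI5_tup l)

theorem PI5_tup_inj : ∀ l l' : List ZFSet.{0}, PI5_tup l = PI5_tup l' → l = l'
  | [], [], _ => rfl
  | [], b :: l', h => by
    exfalso
    have h1 : ({b} : ZFSet.{0}) ∈ (∅ : ZFSet.{0}) := by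
      show _ ∈ PI5_tup []
      rw [h, PI5_tup, pair]
      exact ZFSet.mem_pair.2 (Or.inl rfl)
    exact ZFSet.notMem_empty _ h1
  | a :: l, [], h => by
    exfalso
    have h1 : ({a} : ZFSet.{0}) ∈ (∅ : ZFSet.{0}) := by
      show _ ∈ PI5_tup []
      rw [← h, PI5_tup, pair]
      exact ZFSet.mem_pair.2 (Or.inl rfl)
    exact ZFSet.notMem_empty _ h1
  | a :: l, b :: l', h => by
    obtain ⟨h1, h2⟩ := ZFSet.pair_inj.1 h
    rw [h1, PI5_tup_inj l l' h2]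

theorem PI5_tup_mem {F : ZFSet.{0}} {ξ : Ordinal.{0}} (hξ : IsSuccLimit ξ) :
    ∀ l : List ZFSet.{0}, (∀ a ∈ l, a ∈ KS F ξ) → PI5_tup l ∈ KS F ξ
  | [], _ => (ks_gd hξ).empty_mem
  | a :: l, h => by
    have h1 := PI5_tup_mem hξ l fun b hb => h b (List.mem_cons_of_mem _ hb)
    have h2 := h a List.mem_cons_self
    exact (ks_gd hξ).upair_mem ((ks_gd hξ).single_mem h2) ((ks_gd hξ).upair_mem h2 h1)

/-- The ordinals below `κ`, as sets. -/
noncomputable def PI5_toZ {κ : Cardinal.{0}} (k : κ.ord.ToType) : ZFSet.{0} :=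
  (Ordinal.ToType.toOrd k).1.toZFSet

theorem PI5_toZ_inj {κ : Cardinal.{0}} : Function.Injective (PI5_toZ (κ := κ)) := by
  intro k l h
  have h1 := Ordinal.toZFSet_injective h
  exact (Ordinal.ToType.mk.symm).injective (Subtype.ext h1)

theorem PI5_toZ_mk {κ : Cardinal.{0}} {α : Ordinal.{0}} (h : α < κ.ord) :
    PI5_toZ (Ordinal.ToType.mk ⟨α, h⟩ : κ.ord.ToType) = α.toZFSet := by
  simp [PI5_toZ, Ordinal.ToType.toOrd]

/-- The graph of a function on the finite sequences of ordinals. -/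
noncomputable def PI5_gph (U : ZFSet.{0}) (κ : Cardinal.{0}) (g : List κ.ord.ToType → κ.ord.ToType) :
    ZFSet.{0} :=
  ZFSet.sep (fun p => ∃ l : List κ.ord.ToType,
    p = pair (PI5_tup (l.map PI5_toZ)) (PI5_toZ (g l))) (KS U κ.ord)

theorem PI5_gph_sub {U : ZFSet.{0}} {κ : Cardinal.{0}} (g : List κ.ord.ToType → κ.ord.ToType) :
    PI5_gph U κ g ⊆ KS U κ.ord := fun _ h => (ZFSet.mem_sep.1 h).1

theorem PI5_gph_fnl {U : ZFSet.{0}} {κ : Cardinal.{0}} (g : List κ.ord.ToType → κ.ord.ToType) :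
    Fnl (PI5_gph U κ g) := by
  intro x y y' h h'
  obtain ⟨-, l, h1⟩ := ZFSet.mem_sep.1 h
  obtain ⟨-, l', h2⟩ := ZFSet.mem_sep.1 h'
  obtain ⟨h3, h4⟩ := ZFSet.pair_inj.1 h1
  obtain ⟨h5, h6⟩ := ZFSet.pair_inj.1 h2
  have h7 : l = l' := (PI5_toZ_inj.list_map) (PI5_tup_inj _ _ (h3.symm.trans h5))
  rw [h4, h6, h7]

theorem PI5_mem_gph {U : ZFSet.{0}} {κ : Cardinal.{0}} (hκ : ℵ₀ ≤ κ)
    (g : List κ.ord.ToType → κ.ord.ToType) (l : List κ.ord.ToType) :
    pair (PI5_tup (l.map PI5_toZ)) (PI5_toZ (g l)) ∈ PI5_gph U κ g := by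
  have hl : IsSuccLimit κ.ord := Cardinal.isSuccLimit_ord hκ
  have h0 : ∀ k : κ.ord.ToType, PI5_toZ k ∈ KS U κ.ord := fun k =>
    (ks_ord hl).2 (Ordinal.ToType.toOrd k).2
  refine ZFSet.mem_sep.2 ⟨?_, l, rfl⟩
  have h1 : PI5_tup (l.map PI5_toZ) ∈ KS U κ.ord := by
    refine PI5_tup_mem hl _ fun a ha => ?_
    obtain ⟨k, -, rfl⟩ := List.mem_map.1 ha
    exact h0 k
  have h2 := h0 (g l)
  exact (ks_gd hl).upair_mem ((ks_gd hl).single_mem h1) ((ks_gd hl).upair_mem h1 h2)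

section

variable {κ : Cardinal.{0}} {U : ZFSet.{0}} (hU : IsNormalMeasure κ U) {δ₀ θ : Ordinal.{0}}
  (hδ₀ : IsSuccLimit δ₀) (hUQ : U ∈ KS U δ₀) (J : Iter U (KS U δ₀) θ)

include hU

theorem PI5_val_pair {f g : Asg → ZFSet.{0}} (hf : IsFT (KS U δ₀) θ f) (hg : IsFT (KS U δ₀) θ g)
    (hfg : IsFT (KS U δ₀) θ fun x => pair (f x) (g x)) :
    J.val (fun x => pair (f x) (g x)) = pair (J.val f) (J.val g) := by
  have hR : DB fun w : Fin 3 → ZFSet.{0} => w 0 = pair (w 1) (w 2) :=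
    DB.isPair (D0v.proj 0) (D0v.proj 1) (D0v.proj 2)
  have h1 := los_db hU (ks_trans δ₀) J hR ![fun x => pair (f x) (g x), f, g] (by
    intro j
    fin_cases j
    · exact hfg
    · exact hf
    · exact hg)
  refine h1.2 (ae_of_forall hU ⟨∅, fun _ _ _ => ?_⟩ fun x _ => rfl)
  simp

include hδ₀ hUQ

theorem PI5_tup_ft (L : List Ordinal.{0}) (hL : ∀ j ∈ L, j < θ) {G : Ordinal.{0} → Asg → ZFSet.{0}}
    (hG : ∀ j, Supp {j} (G j)) (hG' : ∀ j x, G j x ∈ KS U δ₀) :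
    IsFT (KS U δ₀) θ fun x => PI5_tup (L.map fun j => G j x) := by
  refine ⟨⟨L.toFinset, fun j hj => hL j (List.mem_toFinset.1 hj), fun x y h => ?_⟩, fun x => ?_⟩
  · show PI5_tup (L.map fun j => G j x) = PI5_tup (L.map fun j => G j y)
    congr 1
    refine List.map_congr_left fun j hj => hG j x y fun i hi => ?_
    rw [Finset.mem_singleton.1 hi]
    exact h j (List.mem_toFinset.2 hj)
  · refine PI5_tup_mem hδ₀ _ fun a ha => ?_
    obtain ⟨j, -, rfl⟩ := List.mem_map.1 ha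
    exact hG' j x

theorem PI5_val_tup (hθ0 : 0 < θ) {G : Ordinal.{0} → Asg → ZFSet.{0}}
    (hG : ∀ j, Supp {j} (G j)) (hG' : ∀ j x, G j x ∈ KS U δ₀) :
    ∀ L : List Ordinal.{0}, (∀ j ∈ L, j < θ) →
      J.val (fun x => PI5_tup (L.map fun j => G j x)) = PI5_tup (L.map fun j => J.val (G j))
  | [], _ => by
    have h1 : (0 : Ordinal.{0}) < κ.ord := by
      have h2 := hU.uncountable
      have h3 : 0 < κ := (Cardinal.aleph0_pos).trans h2
      exact Cardinal.ord_pos.2 h3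
    have h2 := em_lt hU hδ₀ hUQ J hθ0 h1
    rw [Ordinal.toZFSet_zero] at h2
    exact h2
  | j :: L, hL => by
    have hL' : ∀ i ∈ L, i < θ := fun i hi => hL i (List.mem_cons_of_mem _ hi)
    have ih := PI5_val_tup hθ0 hG hG' L hL'
    have hj : IsFT (KS U δ₀) θ (G j) :=
      ⟨⟨{j}, fun i hi => by rw [Finset.mem_singleton.1 hi]; exact hL j List.mem_cons_self, hG j⟩,
        hG' j⟩
    have h1 := PI5_val_pair hU J hj (PI5_tup_ft hU hδ₀ hUQ L hL' hG hG')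
      (PI5_tup_ft hU hδ₀ hUQ (j :: L) hL hG hG')
    show J.val (fun x => pair (G j x) (PI5_tup (L.map fun j => G j x))) =
      pair (J.val (G j)) (PI5_tup (L.map fun j => J.val (G j)))
    rw [h1, ih]

/-- The ordinals below the critical points are covered by `2 ^ κ` functions in the iterate. (If
`α < cr (i + 1)` then `α` is the value of a function with support `{i_1 < ... < i_k} ⊆ i + 1` and
values below `κ`, i.e. `em g` at the tuple of the `cr (i_l)`, for a function `g` from tuples to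
`κ`; all subsets of `KS U κ` are in `Q`.) -/
theorem iter_cover (hθ : IsSuccLimit θ) (hsub : ∀ g, g ⊆ KS U κ.ord → g ∈ KS U δ₀) :
    ∃ (ι : Type) (G : ι → ZFSet.{0}), #ι ≤ 2 ^ κ ∧ (∀ a, G a ∈ J.R ∧ Fnl (G a)) ∧
      ∀ i < θ, ∀ α < J.cr (i + 1), ∃ a, ∃ x ∈ KS (J.em U) (J.cr i + Ordinal.omega0),
        pair x α.toZFSet ∈ G a := by
  classical
  have hκ0 : ℵ₀ ≤ κ := hU.uncountable.le
  have hθ0 : 0 < θ := hθ.bot_lt
  have hκpos : (0 : Ordinal.{0}) < κ.ord := Cardinal.ord_pos.2 (Cardinal.aleph0_pos.trans_le hκ0)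
  have hgQ : ∀ g, PI5_gph U κ g ∈ KS U δ₀ := fun g => hsub _ (PI5_gph_sub g)
  refine ⟨List κ.ord.ToType → κ.ord.ToType, fun g => J.em (PI5_gph U κ g), ?_, ?_, ?_⟩
  · have hK : #κ.ord.ToType = κ := by rw [Cardinal.mk_toType, Cardinal.card_ord]
    have : Infinite κ.ord.ToType := by
      rw [Cardinal.infinite_iff, hK]
      exact hκ0
    have h1 : #(List κ.ord.ToType → κ.ord.ToType) = κ ^ κ := by
      rw [← Cardinal.power_def, Cardinal.mk_list_eq_mk, hK]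
    rw [h1, Cardinal.power_self_eq hκ0]
  · intro g
    refine ⟨PI5_mem_R J (PI5_ft_const (hgQ g)), ?_⟩
    refine (los_db hU (ks_trans δ₀) J PI5_db_fnl (fun _ _ => PI5_gph U κ g)
      fun _ => PI5_ft_const (hgQ g)).2 ?_
    exact ae_of_forall hU ⟨∅, fun _ _ _ => rfl⟩ fun _ _ => PI5_gph_fnl g
  · intro i hi α hα
    have hi1 : i + 1 < θ := hθ.add_one_lt hi
    obtain ⟨h1, h2⟩ := (mem_crz hU hδ₀ hUQ J hi1).1 hα
    obtain ⟨f, ⟨⟨s, hs, hsf⟩, hfQ⟩, hfθ, hfα⟩ := h1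
    rw [hfα] at h2
    have h3 : AE U fun x => f x ∈ κ.ord.toZFSet :=
      (J.mem_iff f _ hfθ (PI5_ft_const (PI5_kappaQ hU hUQ))).1 h2
    set L := s.sort (· ≤ ·) with hL
    have hLm : ∀ j, j ∈ L ↔ j ∈ s := fun j => by rw [hL, Finset.mem_sort]
    have hLθ : ∀ j ∈ L, j < θ := fun j hj => (hs j ((hLm j).1 hj)).trans hi1
    let k0 : κ.ord.ToType := Ordinal.ToType.mk ⟨0, hκpos⟩
    let P : List κ.ord.ToType → κ.ord.ToType → Prop := fun l k =>
      ∃ x : Asg, L.map (fun j => (x j).toZFSet) = l.map PI5_toZ ∧ f x = PI5_toZ k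
    let g : List κ.ord.ToType → κ.ord.ToType := fun l => if h : ∃ k, P l k then h.choose else k0
    have hg : ∀ (x : Asg) (l : List κ.ord.ToType) (k : κ.ord.ToType),
        L.map (fun j => (x j).toZFSet) = l.map PI5_toZ → f x = PI5_toZ k → g l = k := by
      intro x l k hx hk
      have h : ∃ k, P l k := ⟨k, x, hx, hk⟩
      have h4 : g l = h.choose := dif_pos h
      obtain ⟨y, hy, hyk⟩ := h.choose_spec
      rw [h4]
      refine PI5_toZ_inj ?_
      rw [← hyk, ← hk]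
      refine hsf y x fun j hj => ?_
      have h5 : L.map (fun j => (y j).toZFSet) = L.map (fun j => (x j).toZFSet) := hy.trans hx.symm
      exact Ordinal.toZFSet_injective (List.map_inj_left.1 h5 j ((hLm j).2 hj))
    let G : Ordinal.{0} → Asg → ZFSet.{0} := fun j x =>
      if (x j).toZFSet ∈ KS U δ₀ then (x j).toZFSet else ∅
    have hG : ∀ j, Supp {j} (G j) := by
      intro j x y h
      have h4 := h j (Finset.mem_singleton_self j)
      show (if (x j).toZFSet ∈ KS U δ₀ then (x j).toZFSet else ∅) =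
        (if (y j).toZFSet ∈ KS U δ₀ then (y j).toZFSet else ∅)
      rw [h4]
    have hG' : ∀ j x, G j x ∈ KS U δ₀ := by
      intro j x
      show (if (x j).toZFSet ∈ KS U δ₀ then (x j).toZFSet else ∅) ∈ KS U δ₀
      split_ifs with h
      · exact h
      · exact PI5_emptyQ hδ₀
    have htft := PI5_tup_ft hU hδ₀ hUQ L hLθ hG hG'
    have hval := PI5_val_tup hU hδ₀ hUQ J hθ0 hG hG' L hLθ
    refine ⟨g, J.val fun x => PI5_tup (L.map fun j => G j x), ?_, ?_⟩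
    · rw [hval]
      have hl : IsSuccLimit (J.cr i + Ordinal.omega0) :=
        Ordinal.isSuccLimit_add _ Ordinal.isSuccLimit_omega0
      refine PI5_tup_mem hl _ fun a ha => ?_
      obtain ⟨j, hj, rfl⟩ := List.mem_map.1 ha
      have h5 : J.val (G j) = (J.cr j).toZFSet := cr_spec hU hδ₀ hUQ J (hLθ j hj)
      rw [h5, ks_ord hl]
      have h6 : j ≤ i := Order.lt_add_one_iff.1 (hs j ((hLm j).1 hj))
      have h7 : J.cr j ≤ J.cr i := by
        rcases h6.eq_or_lt with rfl | h6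
        · exact le_rfl
        · exact (cr_strictMono hU hδ₀ hUQ J h6 hi).le
      exact h7.trans_lt (lt_add_of_pos_right _ Ordinal.omega0_pos)
    · rw [hfα]
      have hR : DB fun w : Fin 3 → ZFSet.{0} => pair (w 0) (w 1) ∈ w 2 :=
        DB.pairMem (D0v.proj 0) (D0v.proj 1) (D0v.proj 2)
      have h4 := los_db hU (ks_trans δ₀) J hR
        ![fun x => PI5_tup (L.map fun j => G j x), f, fun _ => PI5_gph U κ g] (by
          intro j
          fin_cases j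
          · exact htft
          · exact hfθ
          · exact PI5_ft_const (hgQ g))
      refine h4.2 ?_
      refine ae_mono hU (PI5_supp2 htft hfθ fun a b => pair a b ∈ PI5_gph U κ g) ?_ h3
      intro x hx h5
      show pair (PI5_tup (L.map fun j => G j x)) (f x) ∈ PI5_gph U κ g
      obtain ⟨β, hβ, h6⟩ := Ordinal.mem_toZFSet_iff.1 h5
      have h7 : f x = PI5_toZ (Ordinal.ToType.mk ⟨β, hβ⟩ : κ.ord.ToType) := by
        rw [PI5_toZ_mk, h6]
      let l : List κ.ord.ToType := L.map fun j => Ordinal.ToType.mk ⟨x j, hx j⟩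
      have h8 : L.map (fun j => (x j).toZFSet) = l.map PI5_toZ := by
        show _ = (L.map fun j => Ordinal.ToType.mk ⟨x j, hx j⟩).map PI5_toZ
        rw [List.map_map]
        refine List.map_congr_left fun j _ => ?_
        rw [Function.comp, PI5_toZ_mk]
      have h9 : L.map (fun j => G j x) = l.map PI5_toZ := by
        rw [← h8]
        refine List.map_congr_left fun j _ => ?_
        show (if (x j).toZFSet ∈ KS U δ₀ then (x j).toZFSet else ∅) = _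
        rw [if_pos]
        exact ks_trans δ₀ _ (PI5_kappaQ hU hUQ) _ (Ordinal.toZFSet_mem_toZFSet_iff.2 (hx j))
      rw [h9, h7, ← hg x l _ h8 h7]
      exact PI5_mem_gph hκ0 g l

end

end Pool.Agent.helper797_cs
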