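import Pool.Agent.helper797_cs.PI3

/-! # I6: cofinalities in the iterate, decoding (C3.3 of the paper) -/

set_option autoImplicit false
namespace Pool.Agent.helper797_cs
open Pool.Agent.W868 Pool.Agent.R587
open ZFSet (pair)
open Cardinal Order

/-! ### Supports -/

theorem pi6_supp_mono {β : Type*} {s t : Finset Ordinal.{0}} {f : Asg → β} (hst : s ⊆ t)
    (h : Supp s f) : Supp t f := fun x y hxy => h x y fun i hi => hxy i (hst hi)

theorem pi6_supp2 {β γ δ : Type*} {s t : Finset Ordinal.{0}} {f : Asg → β} {g : Asg → γ}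
    (hf : Supp s f) (hg : Supp t g) (F : β → γ → δ) : Supp (s ∪ t) fun x => F (f x) (g x) := by
  intro x y hxy
  have h1 : f x = f y := hf x y fun i hi => hxy i (Finset.mem_union_left _ hi)
  have h2 : g x = g y := hg x y fun i hi => hxy i (Finset.mem_union_right _ hi)
  simp only [h1, h2]

theorem pi6_supp1 {β γ : Type*} {s : Finset Ordinal.{0}} {f : Asg → β}
    (hf : Supp s f) (F : β → γ) : Supp s fun x => F (f x) := by
  intro x y hxy
  have h1 : f x = f y := hf x y hxy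
  simp only [h1]

/-- The support of an ordinal function. -/
theorem pi6_ft_supp {Q : ZFSet.{0}} {θ : Ordinal.{0}} {g : Asg → Ordinal.{0}}
    (hg : IsFT Q θ fun x => (g x).toZFSet) :
    ∃ s : Finset Ordinal.{0}, (∀ i ∈ s, i < θ) ∧ Supp s g := by
  obtain ⟨⟨s, hs, hs'⟩, -⟩ := hg
  exact ⟨s, hs, fun x y hxy => Ordinal.toZFSet_injective (hs' x y hxy)⟩

section

variable {κ : Cardinal.{0}} {U : ZFSet.{0}} (hU : IsNormalMeasure κ U) {δ₀ θ : Ordinal.{0}}
  (hδ₀ : IsSuccLimit δ₀) (hUQ : U ∈ KS U δ₀) (J : Iter U (KS U δ₀) θ)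

omit hU hUQ in
include hδ₀ in
theorem pi6_mk_ft {g : Asg → Ordinal.{0}} {s : Finset Ordinal.{0}} (hs : ∀ i ∈ s, i < θ)
    (hg : Supp s g) (hlt : ∀ x, g x < δ₀) : IsFT (KS U δ₀) θ fun x => (g x).toZFSet :=
  ⟨⟨s, hs, pi6_supp1 hg _⟩, fun x => (ks_ord hδ₀).2 (hlt x)⟩

omit hU hUQ in
include hδ₀ in
theorem pi6_ft_lt {g : Asg → Ordinal.{0}} (hg : IsFT (KS U δ₀) θ fun x => (g x).toZFSet)
    (x : Asg) : g x < δ₀ := (ks_ord hδ₀).1 (hg.2 x)

include hU hδ₀

omit hUQ in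
/-- Each ordinal below the value of `G` is the value of a function below `G`. -/
theorem pi6_rep {G : Asg → Ordinal.{0}} (hG : IsFT (KS U δ₀) θ fun x => (G x).toZFSet)
    (hpos : ∀ x, 0 < G x) {c η : Ordinal.{0}} (hc : J.val (fun x => (G x).toZFSet) = c.toZFSet)
    (hη : η < c) : ∃ g : Asg → Ordinal.{0}, (IsFT (KS U δ₀) θ fun x => (g x).toZFSet) ∧
      (∀ x, g x < G x) ∧ J.val (fun x => (g x).toZFSet) = η.toZFSet := by
  classical
  have h1 : η.toZFSet ∈ J.val (fun x => (G x).toZFSet) := by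
    rw [hc]; exact Ordinal.toZFSet_mem_toZFSet_iff.2 hη
  have h2 : J.val (fun x => (G x).toZFSet) ∈ J.R := (J.mem_R _).2 ⟨_, hG, rfl⟩
  obtain ⟨f, hf, hfη⟩ := (J.mem_R _).1 (J.trans _ h2 _ h1)
  rw [hfη, J.mem_iff f _ hf hG] at h1
  obtain ⟨s, hsθ, hs⟩ := hf.1
  obtain ⟨t, htθ, ht⟩ := pi6_ft_supp hG
  let Φ : ZFSet.{0} → Ordinal.{0} → Ordinal.{0} := fun z γ =>
    if h : ∃ α < γ, z = α.toZFSet then h.choose else 0
  have hΦlt : ∀ z γ, 0 < γ → Φ z γ < γ := by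
    intro z γ hγ
    by_cases h : ∃ α < γ, z = α.toZFSet
    · simp only [Φ, dif_pos h]; exact h.choose_spec.1
    · simp only [Φ, dif_neg h]; exact hγ
  have hΦeq : ∀ z γ, z ∈ Ordinal.toZFSet γ → z = (Φ z γ).toZFSet := by
    intro z γ hz
    have h : ∃ α < γ, z = α.toZFSet := by
      obtain ⟨α, hα, rfl⟩ := Ordinal.mem_toZFSet_iff.1 hz
      exact ⟨α, hα, rfl⟩
    simp only [Φ, dif_pos h]; exact h.choose_spec.2
  have hg : IsFT (KS U δ₀) θ fun x => (Φ (f x) (G x)).toZFSet := by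
    refine pi6_mk_ft hδ₀ (s := s ∪ t) ?_ (pi6_supp2 hs ht Φ) ?_
    · intro i hi
      rcases Finset.mem_union.1 hi with hi | hi
      · exact hsθ i hi
      · exact htθ i hi
    · intro x
      exact (hΦlt _ _ (hpos x)).trans (pi6_ft_lt hδ₀ hG x)
  refine ⟨fun x => Φ (f x) (G x), hg, fun x => hΦlt _ _ (hpos x), ?_⟩
  rw [hfη, J.eq_iff _ _ hg hf]
  refine ae_mono hU ⟨s ∪ t, pi6_supp2 hs ht fun z γ => (Φ z γ).toZFSet = z⟩ ?_ h1
  intro x _ hx
  exact (hΦeq _ _ hx).symm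

omit hδ₀ hU in
theorem pi6_lt {g₁ g₂ : Asg → Ordinal.{0}} (h₁ : IsFT (KS U δ₀) θ fun x => (g₁ x).toZFSet)
    (h₂ : IsFT (KS U δ₀) θ fun x => (g₂ x).toZFSet) {η₁ η₂ : Ordinal.{0}}
    (e₁ : J.val (fun x => (g₁ x).toZFSet) = η₁.toZFSet)
    (e₂ : J.val (fun x => (g₂ x).toZFSet) = η₂.toZFSet) :
    η₁ < η₂ ↔ AE U fun x => g₁ x < g₂ x := by
  rw [← Ordinal.toZFSet_mem_toZFSet_iff, ← e₁, ← e₂, J.mem_iff _ _ h₁ h₂]
  simp only [Ordinal.toZFSet_mem_toZFSet_iff]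

end

/-- Few values on the assignments below `κ`. -/
theorem pi6_bdd {κ : Cardinal.{0}} (hκ : ℵ₀ ≤ κ) {s : Finset Ordinal.{0}}
    {g : Asg → Ordinal.{0}} (hs : Supp s g) {a : Ordinal.{0}} (ha : κ < a.cof)
    {P : Asg → Prop} (hP : ∀ x, P x → ∀ i, x i < κ.ord) (hg : ∀ x, P x → g x < a) :
    ∃ β < a, ∀ x, P x → g x < β := by
  classical
  let B : Type 1 := {y : s → Set.Iio κ.ord // ∃ x, P x ∧ ∀ i : s, (y i : Ordinal) = x i}
  let F : B → Ordinal.{0} := fun y => g y.2.choose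
  have hB : #B ≤ Cardinal.lift.{1} κ := by
    refine (Cardinal.mk_subtype_le _).trans ?_
    rw [Cardinal.mk_arrow]
    simp only [Cardinal.lift_id]
    rw [Cardinal.mk_Iio_ordinal, Cardinal.card_ord]
    have h1 : #s = (s.card : Cardinal.{1}) := Cardinal.mk_coe_finset
    rw [h1, Cardinal.power_natCast]
    refine Cardinal.pow_le ?_ ?_
    · simpa using hκ
    · exact Cardinal.natCast_lt_aleph0
  have hlt : ⨆ i, F i + 1 < a := by
    refine Ordinal.lift_iSup_add_one_lt_of_lt_cof ?_ ?_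
    · rw [Cardinal.lift_uzero, ← Ordinal.lift_cof]
      exact hB.trans_lt (Cardinal.lift_lt.2 ha)
    · intro y
      exact hg _ y.2.choose_spec.1
  refine ⟨_, hlt, fun x hx => ?_⟩
  let y : B := ⟨fun i => ⟨x i, hP x hx i⟩, x, hx, fun i => rfl⟩
  have h2 : F y = g x := by
    refine hs _ _ fun i hi => ?_
    exact (y.2.choose_spec.2 ⟨i, hi⟩).symm
  rw [← h2]
  have h3 : Small.{0} B := small_subtype.{0, 1} (α := s → Set.Iio κ.ord) _
  exact (lt_add_one _).trans_le (le_ciSup (f := fun i => F i + 1) Ordinal.bddAbove_of_small y)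

section

variable {κ : Cardinal.{0}} {U : ZFSet.{0}} (hU : IsNormalMeasure κ U) {δ₀ θ : Ordinal.{0}}
  (hδ₀ : IsSuccLimit δ₀) (hUQ : U ∈ KS U δ₀) (J : Iter U (KS U δ₀) θ)

include hU hδ₀ hUQ

/-- `em` is cofinal at regular cardinals above `κ`. -/
theorem cof_em {r : Cardinal.{0}} (hr : r.IsRegular) (hκ : κ < r) (hrQ : r.ord < δ₀)
    {c : Ordinal.{0}} (hc : J.em r.ord.toZFSet = c.toZFSet) : c.cof = r := by
  have hκ0 : ℵ₀ ≤ κ := (kappa_regular hU).aleph0_le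
  have hrpos : 0 < r.ord := by
    rw [Cardinal.ord_pos]; exact hr.pos
  have hconst : ∀ α : Ordinal.{0}, Supp (∅ : Finset Ordinal.{0}) (fun _ : Asg => α) :=
    fun α x y _ => rfl
  have hcft : ∀ α < δ₀, IsFT (KS U δ₀) θ fun _ => α.toZFSet := fun α hα =>
    pi6_mk_ft hδ₀ (s := ∅) (by simp) (hconst α) fun _ => hα
  have he : ∀ α : Ordinal.{0}, ∃ η : Ordinal.{0}, α < δ₀ → J.em α.toZFSet = η.toZFSet := by
    intro α
    by_cases hα : α < δ₀
    · obtain ⟨η, hη⟩ := iter_ord hU hδ₀ hUQ J (hcft α hα)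
      exact ⟨η, fun _ => hη⟩
    · exact ⟨0, fun h => absurd h hα⟩
  choose e he using he
  have hT : ∀ P : Prop, P → AE U fun _ : Asg => P := fun P hP =>
    ae_of_forall hU ⟨∅, fun x y _ => rfl⟩ fun _ _ => hP
  have hmono : ∀ α β : Ordinal.{0}, α < β → β < δ₀ → e α < e β := by
    intro α β hαβ hβ
    exact (pi6_lt J (hcft α (hαβ.trans hβ)) (hcft β hβ) (he α (hαβ.trans hβ)) (he β hβ)).2
      (hT _ hαβ)
  have hec : e r.ord = c := Ordinal.toZFSet_injective ((he _ hrQ).symm.trans hc)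
  have hsm : StrictMono fun i : Set.Iio r.ord => e i := fun i j hij =>
    hmono _ _ hij ((Set.mem_Iio.1 j.2).trans hrQ)
  have hsup : ⨆ i : Set.Iio r.ord, e i = c := by
    apply le_antisymm
    · exact Ordinal.iSup_le fun i => by
        rw [← hec]; exact (hmono _ _ (Set.mem_Iio.1 i.2) hrQ).le
    · refine le_of_forall_lt fun η hη => ?_
      obtain ⟨g, hg, hgr, hgη⟩ := pi6_rep hU hδ₀ J (hcft _ hrQ) (fun _ => hrpos) hc hη
      obtain ⟨s, hsθ, hs⟩ := pi6_ft_supp hg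
      obtain ⟨β, hβ, hβ'⟩ := pi6_bdd hκ0 hs (a := r.ord) (by rw [hr.cof_ord]; exact hκ)
        (P := fun x => ∀ i, x i < κ.ord) (fun x hx => hx) fun x _ => hgr x
      have h1 : η < e β := by
        refine (pi6_lt J hg (hcft β (hβ.trans hrQ)) hgη (he β (hβ.trans hrQ))).2 ?_
        exact ae_of_forall hU ⟨s, pi6_supp1 hs fun γ => γ < β⟩ hβ'
      exact h1.trans_le (le_ciSup (f := fun i : Set.Iio r.ord => e i)
        Ordinal.bddAbove_of_small ⟨β, hβ⟩)
  rw [← hsup, Ordinal.cof_iSup_Iio hsm (Cardinal.isSuccLimit_ord hr.aleph0_le).isSuccPrelimit,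
    hr.cof_ord]

/-- The cofinality of the value of `ρ (h x)` is above `ρ α₁` if `h x` is almost always above `α₁`. -/
theorem pi6_big {m : Ordinal.{0}} {ρ : Ordinal.{0} → Cardinal.{0}}
    (hreg : ∀ α < m, (ρ α).IsRegular) (hκρ : ∀ α < m, κ < ρ α)
    (hmono : ∀ α < m, ∀ β < α, ρ β < ρ α)
    (hρQ : ∀ α < m, (ρ α).ord < δ₀) {h : Asg → Ordinal.{0}} (hm : ∀ x, h x < m)
    {t : Finset Ordinal.{0}} (htθ : ∀ i ∈ t, i < θ) (ht : Supp t h) {c : Ordinal.{0}}
    (hc : J.val (fun x => (ρ (h x)).ord.toZFSet) = c.toZFSet)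
    {α₁ : Ordinal.{0}} (hAE : AE U fun x => α₁ < h x) : ρ α₁ < c.cof := by
  classical
  have hκ0 : ℵ₀ ≤ κ := (kappa_regular hU).aleph0_le
  have hG : IsFT (KS U δ₀) θ fun x => ((ρ (h x)).ord).toZFSet :=
    pi6_mk_ft hδ₀ htθ (pi6_supp1 ht fun α => (ρ α).ord) fun x => hρQ _ (hm x)
  have hpos : ∀ x, 0 < (ρ (h x)).ord := fun x => by
    rw [Cardinal.ord_pos]; exact (hreg _ (hm x)).pos
  by_contra hcon
  rw [not_lt] at hcon
  obtain ⟨S, hS, hSc⟩ := Order.exists_cof_eq c.ToType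
  rw [Ordinal.cof_toType] at hSc
  have hf : ∀ i : S, ∃ g : Asg → Ordinal.{0}, (IsFT (KS U δ₀) θ fun x => (g x).toZFSet) ∧
      (∀ x, g x < (ρ (h x)).ord) ∧
      J.val (fun x => (g x).toZFSet) = (Ordinal.typein (α := c.ToType) (· < ·) i.1).toZFSet :=
    fun i => pi6_rep hU hδ₀ J hG hpos hc (Ordinal.typein_lt_self i.1)
  choose g hgft hglt hgval using hf
  let A : Asg → Set Ordinal.{0} := fun x =>
    {β | ∀ i : S, ∀ x', (∀ j, x' j < κ.ord) → (∀ j ∈ t, x' j = x j) → g i x' < β}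
  have hA : ∀ x, α₁ < h x → ∃ β < (ρ (h x)).ord, β ∈ A x := by
    intro x hx
    have h1 : ∀ i : S, ∃ β < (ρ (h x)).ord,
        ∀ x', ((∀ j, x' j < κ.ord) ∧ ∀ j ∈ t, x' j = x j) → g i x' < β := by
      intro i
      obtain ⟨s, -, hs⟩ := pi6_ft_supp (hgft i)
      refine pi6_bdd hκ0 hs ?_ (fun x' hx' => hx'.1) ?_
      · rw [(hreg _ (hm x)).cof_ord]; exact hκρ _ (hm x)
      · intro x' hx'
        rw [← ht x' x hx'.2]
        exact hglt i x'
    choose β hβ hβ' using h1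
    refine ⟨⨆ i, β i, ?_, ?_⟩
    · refine Ordinal.iSup_lt_of_lt_cof ?_ hβ
      rw [(hreg _ (hm x)).cof_ord, hSc]
      exact hcon.trans_lt (hmono _ (hm x) _ hx)
    · intro i x' hx' hx''
      exact (hβ' i x' ⟨hx', hx''⟩).trans_le (Ordinal.le_iSup _ i)
  have hAsupp : Supp t A := by
    intro x y hxy
    have : ∀ x' : Asg, (∀ j ∈ t, x' j = x j) ↔ ∀ j ∈ t, x' j = y j := fun x' =>
      forall₂_congr fun j hj => by rw [hxy j hj]
    simp only [A, this]
  let G : Asg → Ordinal.{0} := fun x => if α₁ < h x then sInf (A x) else 0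
  have hGs : Supp t G := pi6_supp_mono (Finset.union_subset subset_rfl subset_rfl)
    (pi6_supp2 ht hAsupp fun α Z => if α₁ < α then sInf Z else 0)
  have hGlt : ∀ x, G x < (ρ (h x)).ord := by
    intro x
    by_cases hx : α₁ < h x
    · obtain ⟨β, hβ, hβ'⟩ := hA x hx
      simp only [G, if_pos hx]
      exact (csInf_le' hβ').trans_lt hβ
    · simp only [G, if_neg hx]
      exact hpos x
  have hGft : IsFT (KS U δ₀) θ fun x => (G x).toZFSet :=
    pi6_mk_ft hδ₀ htθ hGs fun x => (hGlt x).trans (hρQ _ (hm x))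
  obtain ⟨γ, hγ⟩ := iter_ord hU hδ₀ hUQ J hGft
  have hγc : γ < c := by
    refine (pi6_lt J hGft hG hγ hc).2 ?_
    refine ae_of_forall hU ⟨t ∪ t, pi6_supp2 hGs ht fun a b => a < (ρ b).ord⟩ fun x _ => hGlt x
  have hγT : γ < Ordinal.type (α := c.ToType) (· < ·) := by rwa [Ordinal.type_toType]
  obtain ⟨y, hyS, hy⟩ := hS (Ordinal.enum (α := c.ToType) (· < ·) ⟨γ, hγT⟩)
  have h2 : γ ≤ Ordinal.typein (α := c.ToType) (· < ·) y := by
    have h8 := (Ordinal.typein_le_typein (α := c.ToType) (· < ·)).2 (not_lt.2 hy)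
    exact (Ordinal.typein_enum (α := c.ToType) (· < ·) hγT).symm.le.trans h8
  have h3 : Ordinal.typein (α := c.ToType) (· < ·) y < γ := by
    refine (pi6_lt J (hgft ⟨y, hyS⟩) hGft (hgval ⟨y, hyS⟩) hγ).2 ?_
    obtain ⟨s, -, hs⟩ := pi6_ft_supp (hgft ⟨y, hyS⟩)
    refine ae_mono hU ⟨s ∪ t, pi6_supp2 hs hGs fun a b => a < b⟩ ?_ hAE
    intro x hx hx'
    obtain ⟨β, -, hβ⟩ := hA x hx'
    have h4 : sInf (A x) ∈ A x := csInf_mem ⟨β, hβ⟩
    simp only [G, if_pos hx']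
    exact h4 ⟨y, hyS⟩ x hx fun _ _ => rfl
  exact absurd h3 (not_lt.2 h2)

/-- The number of the ordinals below a value. -/
theorem pi6_small {G : Asg → Ordinal.{0}} (hG : IsFT (KS U δ₀) θ fun x => (G x).toZFSet)
    (hpos : ∀ x, 0 < G x) {c : Ordinal.{0}} (hc : J.val (fun x => (G x).toZFSet) = c.toZFSet)
    {τ : Cardinal.{0}} (hτ : τ.ord < δ₀) (hτ0 : 0 < τ) (hAE : AE U fun x => G x ≤ τ.ord) :
    c.card ≤ τ ^ κ * max ℵ₀ θ.card := by
  classical
  have hκ0 : ℵ₀ ≤ κ := (kappa_regular hU).aleph0_le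
  have hκp : (0 : Ordinal.{0}) < κ.ord := by
    rw [Cardinal.ord_pos]; exact Cardinal.aleph0_pos.trans_le hκ0
  have hτp : (0 : Ordinal.{0}) < τ.ord := by rwa [Cardinal.ord_pos]
  let clip : Ordinal.{0} → Set.Iio κ.ord := fun a => if h : a < κ.ord then ⟨a, h⟩ else ⟨0, hκp⟩
  have hclip : ∀ a < κ.ord, (clip a : Ordinal) = a := fun a ha => by
    simp only [clip, dif_pos ha]
  let N : Finset (Set.Iio θ) → Asg → List (Set.Iio κ.ord) := fun s x =>
    (s.sort (· ≤ ·)).map fun i : Set.Iio θ => clip (x i)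
  have hN : ∀ s x y, N s x = N s y ↔ ∀ i ∈ s, clip (x i) = clip (y i) := by
    intro s x y
    simp only [N, List.map_inj_left, Finset.mem_sort]
  let C : Type 1 := Finset (Set.Iio θ) × (List (Set.Iio κ.ord) → Set.Iio τ.ord)
  let E : C → Asg → Ordinal.{0} := fun p x => (p.2 (N p.1 x) : Ordinal)
  have hE : ∀ p, IsFT (KS U δ₀) θ fun x => (E p x).toZFSet := by
    intro p
    refine pi6_mk_ft hδ₀ (s := p.1.map (Function.Embedding.subtype _)) ?_ ?_ ?_
    · intro i hi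
      obtain ⟨j, -, rfl⟩ := Finset.mem_map.1 hi
      exact j.2
    · intro x y hxy
      have h1 : N p.1 x = N p.1 y := by
        rw [hN]
        intro i hi
        rw [hxy i (Finset.mem_map_of_mem _ hi)]
      simp only [E, h1]
    · intro x
      exact (Set.mem_Iio.1 (p.2 (N p.1 x)).2).trans hτ
  have hv : ∀ p, ∃ η : Ordinal.{0}, J.val (fun x => (E p x).toZFSet) = η.toZFSet := fun p =>
    iter_ord hU hδ₀ hUQ J (hE p)
  choose V hV using hv
  have hsub : Set.Iio c ⊆ Set.range V := by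
    intro η hη
    obtain ⟨g, hg, hgG, hgη⟩ := pi6_rep hU hδ₀ J hG hpos hc hη
    obtain ⟨s, hsθ, hs⟩ := pi6_ft_supp hg
    obtain ⟨tG, -, htG⟩ := pi6_ft_supp hG
    let s' : Finset (Set.Iio θ) := s.subtype fun i => i ∈ Set.Iio θ
    have hs' : ∀ i : Set.Iio θ, i ∈ s' ↔ (i : Ordinal) ∈ s := fun i => Finset.mem_subtype
    let g' : Asg → Set.Iio τ.ord := fun x => if h : g (fun i => clip (x i)) < τ.ord then
      ⟨g (fun i => clip (x i)), h⟩ else ⟨0, hτp⟩
    have hfac : Function.FactorsThrough g' (N s') := by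
      intro x y hxy
      rw [hN] at hxy
      have h1 : g (fun i => clip (x i)) = g (fun i => clip (y i)) :=
        hs _ _ fun i hi => by rw [hxy ⟨i, hsθ i hi⟩ ((hs' _).2 hi)]
      simp only [g', h1]
    let F := Function.extend (N s') g' fun _ => ⟨0, hτp⟩
    have hF : ∀ x, F (N s' x) = g' x := fun x => hfac.extend_apply _ x
    refine ⟨(s', F), ?_⟩
    apply Ordinal.toZFSet_injective
    rw [← hV, ← hgη, J.eq_iff _ _ (hE _) hg]
    obtain ⟨sE, -, hsE⟩ := pi6_ft_supp (hE (s', F))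
    refine ae_mono hU ⟨sE ∪ s, pi6_supp2 hsE hs fun a b => a.toZFSet = b.toZFSet⟩ ?_ hAE
    intro x hx hx'
    have h2 : (fun i => ((clip (x i) : Set.Iio κ.ord) : Ordinal)) = x :=
      funext fun i => hclip _ (hx i)
    have h3 : E (s', F) x = g x := by
      change ((F (N s' x) : Set.Iio τ.ord) : Ordinal) = g x
      rw [hF]
      have h4 : g x < τ.ord := (hgG x).trans_le hx'
      simp only [g', h2, dif_pos h4]
    simp only [h3]
  have hcard : Cardinal.lift.{1} c.card ≤ Cardinal.lift.{1} (τ ^ κ * max ℵ₀ θ.card) := by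
    rw [← Cardinal.mk_Iio_ordinal]
    refine (Cardinal.mk_le_mk_of_subset hsub).trans (Cardinal.mk_range_le.trans ?_)
    have hi : Infinite (Set.Iio κ.ord) := by
      rw [Cardinal.infinite_iff, Cardinal.mk_Iio_ordinal, Cardinal.card_ord]
      simpa using hκ0
    have h5 : #(Finset (Set.Iio θ)) ≤ Cardinal.lift.{1} (max ℵ₀ θ.card) := by
      rcases finite_or_infinite (Set.Iio θ) with hfin | hinf
      · refine (Cardinal.lt_aleph0_of_finite _).le.trans ?_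
        simp
      · rw [Cardinal.mk_finset_of_infinite, Cardinal.mk_Iio_ordinal]
        exact Cardinal.lift_le.2 (le_max_right _ _)
    rw [Cardinal.mk_prod, Cardinal.mk_arrow]
    simp only [Cardinal.lift_id]
    rw [Cardinal.mk_list_eq_mk, Cardinal.mk_Iio_ordinal, Cardinal.mk_Iio_ordinal,
      Cardinal.card_ord, Cardinal.card_ord, Cardinal.lift_mul, Cardinal.lift_power, mul_comm]
    exact mul_le_mul_right h5 _
  exact Cardinal.lift_le.1 hcard

/-- Decoding: the value of `x ↦ ρ (h x)` has cofinality `ρ α` if `h` is almost everywhere equal to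
the constant `α`; otherwise its cofinality is above `θ` and not one of the `ρ α`. -/
theorem decode {m : Ordinal.{0}} {ρ : Ordinal.{0} → Cardinal.{0}}
    (hreg : ∀ α < m, (ρ α).IsRegular) (hθρ : ∀ α < m, θ.card < ρ α) (hκρ : ∀ α < m, κ < ρ α)
    (hmono : ∀ α < m, ∀ β < α, ρ β < ρ α)
    (hgr : ∀ α < m, ∀ τ : Cardinal.{0}, (∀ σ : Cardinal.{0}, (∀ β < α, ρ β ≤ σ) → τ ≤ σ) →
      τ ^ κ * max ℵ₀ θ.card < ρ α)
    (hρQ : ∀ α < m, (ρ α).ord < δ₀) {h : Asg → Ordinal.{0}} (hm : ∀ x, h x < m)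
    (hft : IsFT (KS U δ₀) θ fun x => (h x).toZFSet) {c : Ordinal.{0}}
    (hc : J.val (fun x => (ρ (h x)).ord.toZFSet) = c.toZFSet) :
    (∃ α < m, (AE U fun x => h x = α) ∧ c.cof = ρ α) ∨
      ((∀ α < m, ¬ AE U fun x => h x = α) ∧ θ.card < c.cof ∧ ∀ α < m, c.cof ≠ ρ α) := by
  classical
  obtain ⟨t, htθ, ht⟩ := pi6_ft_supp hft
  have hG : IsFT (KS U δ₀) θ fun x => ((ρ (h x)).ord).toZFSet :=
    pi6_mk_ft hδ₀ htθ (pi6_supp1 ht fun α => (ρ α).ord) fun x => hρQ _ (hm x)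
  have hpos : ∀ x, 0 < (ρ (h x)).ord := fun x => by
    rw [Cardinal.ord_pos]; exact (hreg _ (hm x)).pos
  by_cases hex : ∃ α < m, AE U fun x => h x = α
  · left
    obtain ⟨α, hα, hAE⟩ := hex
    refine ⟨α, hα, hAE, ?_⟩
    refine cof_em hU hδ₀ hUQ J (hreg α hα) (hκρ α hα) (hρQ α hα) ?_
    rw [← hc]
    have h1 : IsFT (KS U δ₀) θ fun _ => (ρ α).ord.toZFSet :=
      pi6_mk_ft (g := fun _ => (ρ α).ord) hδ₀ (s := ∅) (by simp) (fun x y _ => rfl)
        fun _ => hρQ α hα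
    refine (J.eq_iff _ _ h1 hG).2 ?_
    refine ae_mono hU ⟨t, pi6_supp1 ht fun β => (ρ α).ord.toZFSet = (ρ β).ord.toZFSet⟩ ?_ hAE
    intro x _ hx
    simp only [hx]
  · right
    push Not at hex
    have hsup : ∀ P : Ordinal.{0} → Prop, ∃ s, Supp s fun x => P (h x) := fun P =>
      ⟨t, pi6_supp1 ht P⟩
    let A : Set Ordinal.{0} := {α | AE U fun x => h x < α}
    have hAm : m ∈ A := ae_of_forall hU (hsup fun a => a < m) fun x _ => hm x
    have hAs : sInf A ∈ A := csInf_mem ⟨m, hAm⟩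
    have hAle : sInf A ≤ m := csInf_le' hAm
    have hlow : ∀ α₁ < sInf A, AE U fun x => α₁ < h x := by
      intro α₁ hα₁
      have h1 : ¬ AE U fun x => h x < α₁ := fun h2 => absurd (csInf_le' (s := A) h2) (not_le.2 hα₁)
      have h2 := hex α₁ (hα₁.trans_le hAle)
      have h3 := (ae_not hU (hsup fun a => a < α₁)).2 h1
      have h4 := (ae_not hU (hsup fun a => a = α₁)).2 h2
      have h5 := (ae_and hU (hsup fun a => ¬ a < α₁) (hsup fun a => ¬ a = α₁)).2 ⟨h3, h4⟩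
      refine ae_mono hU (hsup fun a => α₁ < a) ?_ h5
      intro x _ hx
      exact lt_of_le_of_ne (not_lt.1 hx.1) (Ne.symm hx.2)
    have hpos' : 0 < sInf A := by
      rw [pos_iff_ne_zero]
      intro h0
      rw [h0] at hAs
      obtain ⟨x, -, hx⟩ := ae_exists hU hAs
      exact absurd hx (by simp)
    have hbig : ∀ α₁ < sInf A, ρ α₁ < c.cof := fun α₁ hα₁ =>
      pi6_big hU hδ₀ hUQ J hreg hκρ hmono hρQ hm htθ ht hc (hlow α₁ hα₁)
    refine ⟨hex, (hθρ 0 (hpos'.trans_le hAle)).trans (hbig 0 hpos'), ?_⟩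
    intro α hα
    rcases lt_or_ge α (sInf A) with h1 | h1
    · exact (hbig α h1).ne'
    · have hAlt : sInf A < m := h1.trans_lt hα
      let T : Set Cardinal.{0} := {σ | ∀ β < sInf A, ρ β ≤ σ}
      have hTρ : ρ (sInf A) ∈ T := fun β hβ => (hmono _ hAlt β hβ).le
      have hTs : sInf T ∈ T := csInf_mem ⟨_, hTρ⟩
      have h2 : (sInf T) ^ κ * max ℵ₀ θ.card < ρ (sInf A) :=
        hgr _ hAlt _ fun σ hσ => csInf_le' hσ
      have h3 : c.card ≤ (sInf T) ^ κ * max ℵ₀ θ.card := by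
        refine pi6_small hU hδ₀ hUQ J hG hpos hc ?_ ?_ ?_
        · exact (Cardinal.ord_le_ord.2 (csInf_le' hTρ)).trans_lt (hρQ _ hAlt)
        · exact (hreg 0 (hpos'.trans_le hAle)).pos.trans_le (hTs 0 hpos')
        · refine ae_mono hU (hsup fun a => (ρ a).ord ≤ (sInf T).ord) ?_ hAs
          intro x _ hx
          exact Cardinal.ord_le_ord.2 (hTs _ hx)
      have h4 : ρ (sInf A) ≤ ρ α := by
        rcases h1.eq_or_lt with h5 | h5
        · rw [h5]
        · exact (hmono α hα _ h5).le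
      exact (((Ordinal.cof_le_card c).trans h3).trans_lt (h2.trans_le h4)).ne

end

end Pool.Agent.helper797_cs
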