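import Pool.Agent.helper797_cs.PI1

/-! # I1b: existence of the iterated ultrapower -/

set_option autoImplicit false
namespace Pool.Agent.helper797_cs
open Pool.Agent.W868 Pool.Agent.R587
open ZFSet (pair)
open Cardinal Order

namespace ExIter

theorem supp_mono {β : Type*} {s t : Finset Ordinal.{0}} {f : Asg → β} (hst : s ⊆ t)
    (h : Supp s f) : Supp t f := fun x y hxy => h x y fun i hi => hxy i (hst hi)

/-- The functions representing the elements of the iterate. -/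
abbrev FT (Q : ZFSet.{0}) (θ : Ordinal.{0}) : Type 1 := {f : Asg → ZFSet.{0} // IsFT Q θ f}

theorem supp1 {Q : ZFSet.{0}} {θ : Ordinal.{0}} {β : Type*} (f : FT Q θ) (F : ZFSet.{0} → β) :
    ∃ s : Finset Ordinal.{0}, (∀ i ∈ s, i < θ) ∧ Supp s fun x => F (f.1 x) := by
  obtain ⟨⟨s, h1, h2⟩, -⟩ := f.2
  refine ⟨s, h1, fun x y hxy => ?_⟩
  show F (f.1 x) = F (f.1 y)
  rw [h2 x y hxy]

theorem supp2 {Q : ZFSet.{0}} {θ : Ordinal.{0}} {β : Type*} (f g : FT Q θ)
    (F : ZFSet.{0} → ZFSet.{0} → β) :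
    ∃ s : Finset Ordinal.{0}, (∀ i ∈ s, i < θ) ∧ Supp s fun x => F (f.1 x) (g.1 x) := by
  obtain ⟨⟨s, h1, h2⟩, -⟩ := f.2
  obtain ⟨⟨t, k1, k2⟩, -⟩ := g.2
  refine ⟨s ∪ t, fun i hi => ?_, fun x y hxy => ?_⟩
  · rcases Finset.mem_union.1 hi with h | h
    · exact h1 i h
    · exact k1 i h
  · show F (f.1 x) (g.1 x) = F (f.1 y) (g.1 y)
    rw [h2 x y fun i hi => hxy i (Finset.mem_union_left _ hi),
      k2 x y fun i hi => hxy i (Finset.mem_union_right _ hi)]

theorem ae_imp2 {κ : Cardinal.{0}} {U : ZFSet.{0}} (hU : IsNormalMeasure κ U)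
    {P P' R : Asg → Prop} (hP : ∃ s, Supp s P) (hP' : ∃ s, Supp s P') (hR : ∃ s, Supp s R)
    (h : ∀ x : Asg, (∀ i, x i < κ.ord) → P x → P' x → R x) (h1 : AE U P) (h2 : AE U P') :
    AE U R :=
  ae_mono hU hR (fun x hx hh => h x hx hh.1 hh.2) ((ae_and hU hP hP').2 ⟨h1, h2⟩)

theorem supp_and {P P' : Asg → Prop} (hP : ∃ s, Supp s P) (hP' : ∃ s, Supp s P') :
    ∃ s, Supp s fun x => P x ∧ P' x := by
  obtain ⟨s, hs⟩ := hP
  obtain ⟨t, ht⟩ := hP'
  refine ⟨s ∪ t, fun x y hxy => ?_⟩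
  show (P x ∧ P' x) = (P y ∧ P' y)
  rw [hs x y fun i hi => hxy i (Finset.mem_union_left _ hi),
    ht x y fun i hi => hxy i (Finset.mem_union_right _ hi)]

/-- The function on the small set of bounded assignments. -/
noncomputable def T (κ : Cardinal.{0}) (Q : ZFSet.{0}) (θ : Ordinal.{0}) (f : FT Q θ) :
    (Set.Iio θ → Set.Iio κ.ord) → Q := by
  classical
  exact fun y => ⟨f.1 fun i => if h : i < θ then (y ⟨i, h⟩ : Ordinal.{0}) else 0, f.2.2 _⟩

theorem T_eq {κ : Cardinal.{0}} {Q : ZFSet.{0}} {θ : Ordinal.{0}} {f g : FT Q θ}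
    (h : T κ Q θ f = T κ Q θ g) (x : Asg) (hx : ∀ i, x i < κ.ord) : f.1 x = g.1 x := by
  classical
  obtain ⟨⟨s, h1, h2⟩, -⟩ := f.2
  obtain ⟨⟨t, k1, k2⟩, -⟩ := g.2
  have h3 := congrArg Subtype.val (congrFun h fun i => ⟨x i.1, hx i.1⟩)
  have h4 : f.1 x = f.1 fun i => if i < θ then x i else 0 := by
    apply h2
    intro i hi
    rw [if_pos (h1 i hi)]
  have h5 : g.1 x = g.1 fun i => if i < θ then x i else 0 := by
    apply k2
    intro i hi
    rw [if_pos (k1 i hi)]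
  rw [h4, h5]
  simpa [T] using h3

/-- A small set of representatives. -/
abbrev SS (κ : Cardinal.{0}) (Q : ZFSet.{0}) (θ : Ordinal.{0}) : Type :=
  Shrink.{0} (Set.range (T κ Q θ))

/-- The representative. -/
noncomputable def c (κ : Cardinal.{0}) (Q : ZFSet.{0}) (θ : Ordinal.{0}) (s : SS κ Q θ) :
    FT Q θ := Classical.choose ((equivShrink.{0} (Set.range (T κ Q θ))).symm s).2

/-- The index of the representative. -/
noncomputable def ix (κ : Cardinal.{0}) (Q : ZFSet.{0}) (θ : Ordinal.{0}) (f : FT Q θ) :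
    SS κ Q θ := equivShrink.{0} (Set.range (T κ Q θ)) ⟨T κ Q θ f, ⟨f, rfl⟩⟩

theorem c_ix (κ : Cardinal.{0}) (Q : ZFSet.{0}) (θ : Ordinal.{0}) (f : FT Q θ) (x : Asg)
    (hx : ∀ i, x i < κ.ord) : (c κ Q θ (ix κ Q θ f)).1 x = f.1 x := by
  apply T_eq _ x hx
  have h := Classical.choose_spec
    ((equivShrink.{0} (Set.range (T κ Q θ))).symm (ix κ Q θ f)).2
  have h2 : ((equivShrink.{0} (Set.range (T κ Q θ))).symm (ix κ Q θ f)).1 = T κ Q θ f := by
    rw [ix, Equiv.symm_apply_apply]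
  exact h.trans h2

end ExIter

open ExIter

theorem exists_iter {κ : Cardinal.{0}} {U : ZFSet.{0}} (hU : IsNormalMeasure κ U)
    {Q : ZFSet.{0}} (hQ : ∀ x ∈ Q, ∀ y ∈ x, y ∈ Q) (hne : ∃ x, x ∈ Q) (θ : Ordinal.{0}) :
    Nonempty (Iter U Q θ) := by
  classical
  obtain ⟨q0, hq0⟩ := hne
  -- the relation
  let E : SS κ Q θ → SS κ Q θ → Prop := fun s t =>
    AE U fun x => (c κ Q θ s).1 x ∈ (c κ Q θ t).1 x
  let Eq' : SS κ Q θ → SS κ Q θ → Prop := fun s t =>
    AE U fun x => (c κ Q θ s).1 x = (c κ Q θ t).1 x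
  have sup2 : ∀ (f g : FT Q θ) (F : ZFSet.{0} → ZFSet.{0} → Prop),
      ∃ s, Supp s fun x => F (f.1 x) (g.1 x) := fun f g F => by
    obtain ⟨s, -, h⟩ := supp2 f g F
    exact ⟨s, h⟩
  have hwf : WellFounded E := by
    rw [wellFounded_iff_isEmpty_descending_chain]
    refine ⟨fun ⟨s, hs⟩ => ?_⟩
    obtain ⟨x, -, hx⟩ := ae_nat hU hs
    exact (wellFounded_iff_isEmpty_descending_chain.1 ZFSet.mem_wf).false
      ⟨fun n => (c κ Q θ (s n)).1 x, hx⟩
  -- the collapse
  let val' : SS κ Q θ → ZFSet.{0} := hwf.fix fun t ih =>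
    ZFSet.range fun s : {s // E s t} => ih s.1 s.2
  have hval' : ∀ t, val' t = ZFSet.range fun s : {s // E s t} => val' s.1 := fun t => by
    show hwf.fix _ t = _
    rw [hwf.fix_eq]
  have hmem' : ∀ t y, y ∈ val' t ↔ ∃ s, E s t ∧ val' s = y := by
    intro t y
    rw [hval', ZFSet.mem_range]
    constructor
    · rintro ⟨⟨s, hs⟩, h⟩
      exact ⟨s, hs, h⟩
    · rintro ⟨s, hs, h⟩
      exact ⟨⟨s, hs⟩, h⟩
  have hcongr : ∀ s t, Eq' s t → val' s = val' t := by
    intro s t hst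
    have key : ∀ s t, Eq' s t → ∀ y ∈ val' s, y ∈ val' t := by
      intro s t hst y hy
      obtain ⟨u, hu, rfl⟩ := (hmem' s y).1 hy
      refine (hmem' t _).2 ⟨u, ?_, rfl⟩
      exact ae_imp2 hU (sup2 _ _ _) (sup2 _ _ _) (sup2 _ _ _)
        (fun x _ h1 h2 => by rw [← h2]; exact h1) hu hst
    ext y
    refine ⟨key s t hst y, key t s ?_ y⟩
    exact ae_mono hU (sup2 _ _ _) (fun x _ h => h.symm) hst
  -- injectivity
  have hinj : ∀ s t, val' s = val' t → Eq' s t := by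
    intro s
    induction s using hwf.induction with
    | _ s IH =>
      intro t hst
      by_contra hcon
      have h1 : AE U fun x => ¬ ((c κ Q θ s).1 x = (c κ Q θ t).1 x) :=
        (ae_not hU (sup2 _ _ _)).2 hcon
      -- an element of the symmetric difference
      let D : ZFSet.{0} → ZFSet.{0} → ZFSet.{0} := fun a b =>
        if h : ∃ z, (z ∈ a ∧ z ∉ b) ∨ (z ∈ b ∧ z ∉ a) then Classical.choose h else q0
      have hD : ∀ a b, a ≠ b → (D a b ∈ a ∧ D a b ∉ b) ∨ (D a b ∈ b ∧ D a b ∉ a) := by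
        intro a b hab
        have hex : ∃ z, (z ∈ a ∧ z ∉ b) ∨ (z ∈ b ∧ z ∉ a) := by
          by_contra hno
          push Not at hno
          apply hab
          ext z
          exact ⟨(hno z).1, (hno z).2⟩
        simp only [D]
        rw [dif_pos hex]
        exact Classical.choose_spec hex
      have hDQ : ∀ a ∈ Q, ∀ b ∈ Q, D a b ∈ Q := by
        intro a ha b hb
        by_cases hab : a = b
        · simp only [D]
          rw [dif_neg]
          · exact hq0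
          · rintro ⟨z, h | h⟩
            · exact h.2 (hab ▸ h.1)
            · exact h.2 (hab ▸ h.1)
        · rcases hD a b hab with h | h
          · exact hQ a ha _ h.1
          · exact hQ b hb _ h.1
      let h : FT Q θ := ⟨fun x => D ((c κ Q θ s).1 x) ((c κ Q θ t).1 x),
        supp2 (c κ Q θ s) (c κ Q θ t) D, fun x => hDQ _ ((c κ Q θ s).2.2 x) _ ((c κ Q θ t).2.2 x)⟩
      have hrep : ∀ r, AE U (fun x => h.1 x ∈ (c κ Q θ r).1 x) → E (ix κ Q θ h) r := by
        intro r hr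
        refine ae_mono hU (sup2 _ _ _) (fun x hx hh => ?_) hr
        rw [c_ix κ Q θ h x hx]
        exact hh
      have hrep' : ∀ r, E (ix κ Q θ h) r → AE U (fun x => h.1 x ∈ (c κ Q θ r).1 x) := by
        intro r hr
        refine ae_mono hU (sup2 _ _ _) (fun x hx hh => ?_) hr
        rw [c_ix κ Q θ h x hx] at hh
        exact hh
      by_cases hs : AE U fun x => h.1 x ∈ (c κ Q θ s).1 x
      · -- `h ∈ s`, so `h` is equal to an element of `t`
        have h2 : val' (ix κ Q θ h) ∈ val' t := by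
          rw [← hst]
          exact (hmem' s _).2 ⟨_, hrep s hs, rfl⟩
        obtain ⟨v, hv, hv2⟩ := (hmem' t _).1 h2
        have h3 : Eq' (ix κ Q θ h) v := IH _ (hrep s hs) v hv2.symm
        have h4 : AE U fun x => h.1 x ∈ (c κ Q θ t).1 x := by
          apply hrep'
          exact ae_imp2 hU (sup2 _ _ _) (sup2 _ _ _) (sup2 _ _ _)
            (fun x _ k1 k2 => by rw [k2]; exact k1) hv h3
        have s1 := sup2 (c κ Q θ s) (c κ Q θ t) fun a b => ¬ (a = b)
        have s2 := sup2 h (c κ Q θ s) fun a b => a ∈ b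
        have s3 := sup2 h (c κ Q θ t) fun a b => a ∈ b
        obtain ⟨x, -, hx⟩ := ae_exists hU ((ae_and hU s1 (supp_and s2 s3)).2 ⟨h1,
          (ae_and hU s2 s3).2 ⟨hs, h4⟩⟩)
        rcases hD _ _ hx.1 with k | k
        · exact k.2 hx.2.2
        · exact k.2 hx.2.1
      · have h5 : AE U fun x => h.1 x ∈ (c κ Q θ t).1 x := by
          have h6 := (ae_not hU (sup2 _ _ _)).2 hs
          refine ae_imp2 hU (sup2 (c κ Q θ s) (c κ Q θ t) fun a b => ¬ (a = b))
            (sup2 h (c κ Q θ s) fun a b => ¬ (a ∈ b)) (sup2 _ _ _) (fun x _ k1 k2 => ?_) h1 h6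
          rcases hD _ _ k1 with k | k
          · exact absurd k.1 k2
          · exact k.1
        have h2 : val' (ix κ Q θ h) ∈ val' s := by
          rw [hst]
          exact (hmem' t _).2 ⟨_, hrep t h5, rfl⟩
        obtain ⟨v, hv, hv2⟩ := (hmem' s _).1 h2
        have h3 : Eq' v (ix κ Q θ h) := IH v hv _ hv2
        apply hs
        apply hrep'
        exact ae_imp2 hU (sup2 _ _ _) (sup2 _ _ _) (sup2 _ _ _)
          (fun x _ k1 k2 => by rw [← k2]; exact k1) hv h3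
  -- the iterate
  refine ⟨{ R := ZFSet.range val'
            val := fun f => if h : IsFT Q θ f then val' (ix κ Q θ ⟨f, h⟩) else ∅
            mem_R := ?_, trans := ?_, mem_iff := ?_, eq_iff := ?_ }⟩
  · intro y
    rw [ZFSet.mem_range]
    constructor
    · rintro ⟨s, rfl⟩
      refine ⟨(c κ Q θ s).1, (c κ Q θ s).2, ?_⟩
      rw [dif_pos (c κ Q θ s).2]
      apply hcongr
      refine ae_of_forall hU (sup2 _ _ _) fun x hx => ?_
      exact (c_ix κ Q θ _ x hx).symm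
    · rintro ⟨f, hf, rfl⟩
      rw [dif_pos hf]
      exact ⟨_, rfl⟩
  · intro x hx y hy
    rw [ZFSet.mem_range] at hx ⊢
    obtain ⟨s, rfl⟩ := hx
    obtain ⟨t, -, rfl⟩ := (hmem' s y).1 hy
    exact ⟨t, rfl⟩
  · intro f g hf hg
    rw [dif_pos hf, dif_pos hg, hmem']
    have e1 : AE U (fun x => f x ∈ g x) ↔ E (ix κ Q θ ⟨f, hf⟩) (ix κ Q θ ⟨g, hg⟩) := by
      constructor
      · refine ae_mono hU (sup2 _ _ _) fun x hx hh => ?_
        rw [c_ix κ Q θ _ x hx, c_ix κ Q θ _ x hx]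
        exact hh
      · refine ae_mono hU (sup2 ⟨f, hf⟩ ⟨g, hg⟩ (fun a b => a ∈ b)) fun x hx hh => ?_
        rw [c_ix κ Q θ _ x hx, c_ix κ Q θ _ x hx] at hh
        exact hh
    rw [e1]
    constructor
    · rintro ⟨s, hs, hs2⟩
      have h3 : Eq' s (ix κ Q θ ⟨f, hf⟩) := hinj _ _ hs2
      exact ae_imp2 hU (sup2 _ _ _) (sup2 _ _ _) (sup2 _ _ _)
          (fun x _ k1 k2 => by rw [← k2]; exact k1) hs h3
    · intro h
      exact ⟨_, h, rfl⟩
  · intro f g hf hg
    rw [dif_pos hf, dif_pos hg]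
    have e1 : AE U (fun x => f x = g x) ↔ Eq' (ix κ Q θ ⟨f, hf⟩) (ix κ Q θ ⟨g, hg⟩) := by
      constructor
      · refine ae_mono hU (sup2 _ _ _) fun x hx hh => ?_
        rw [c_ix κ Q θ _ x hx, c_ix κ Q θ _ x hx]
        exact hh
      · refine ae_mono hU (sup2 ⟨f, hf⟩ ⟨g, hg⟩ (fun a b => a = b)) fun x hx hh => ?_
        rw [c_ix κ Q θ _ x hx, c_ix κ Q θ _ x hx] at hh
        exact hh
    rw [e1]
    exact ⟨hinj _ _, hcongr _ _⟩

end Pool.Agent.helper797_cs
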