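import Pool.Agent.helper797_cs.KDefs

/-!
# K3, part a: relations defined by `Δ₀` formulas
-/

set_option autoImplicit false
set_option linter.unreachableTactic false
set_option linter.unusedTactic false

namespace Pool.Agent.helper797_cs

open Pool.Agent.W868 Pool.Agent.R587
open ZFSet (pair)

/-! ### Renaming of variables -/

/-- Renaming under a quantifier. -/
def pk3lift {n m : ℕ} (ρ : Fin n → Fin m) : Fin (n + 1) → Fin (m + 1) :=
  Fin.cons 0 fun i => (ρ i).succ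

/-- Renaming of variables. -/
def Fo.pk3ren : {n m : ℕ} → Fo n → (Fin n → Fin m) → Fo m
  | _, _, .mem i j, ρ => .mem (ρ i) (ρ j)
  | _, _, .eq i j, ρ => .eq (ρ i) (ρ j)
  | _, _, .pF i, ρ => .pF (ρ i)
  | _, _, .lt i j, ρ => .lt (ρ i) (ρ j)
  | _, _, .lv i j, ρ => .lv (ρ i) (ρ j)
  | _, _, .neg φ, ρ => .neg (φ.pk3ren ρ)
  | _, _, .and φ ψ, ρ => .and (φ.pk3ren ρ) (ψ.pk3ren ρ)
  | _, _, .ex φ, ρ => .ex (φ.pk3ren (pk3lift ρ))
  | _, _, .bex i φ, ρ => .bex (ρ i) (φ.pk3ren (pk3lift ρ))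

theorem pk3_cons_lift {n m : ℕ} (ρ : Fin n → Fin m) (a : ZFSet.{0}) (v : Fin m → ZFSet.{0}) :
    (fun i => (Fin.cons a v : Fin (m + 1) → ZFSet.{0}) (pk3lift ρ i)) =
      (Fin.cons a fun i => v (ρ i) : Fin (n + 1) → ZFSet.{0}) := by
  funext i
  refine Fin.cases ?_ (fun i => ?_) i
  · rfl
  · rfl

theorem pk3_sat_ren (𝔄 : Stc) : {n m : ℕ} → (φ : Fo n) → (ρ : Fin n → Fin m) →
    (v : Fin m → ZFSet.{0}) → ((φ.pk3ren ρ).Sat 𝔄 v ↔ φ.Sat 𝔄 fun i => v (ρ i))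
  | _, _, .mem _ _, _, _ => Iff.rfl
  | _, _, .eq _ _, _, _ => Iff.rfl
  | _, _, .pF _, _, _ => Iff.rfl
  | _, _, .lt _ _, _, _ => Iff.rfl
  | _, _, .lv _ _, _, _ => Iff.rfl
  | _, _, .neg φ, ρ, v => not_congr (pk3_sat_ren 𝔄 φ ρ v)
  | _, _, .and φ ψ, ρ, v => and_congr (pk3_sat_ren 𝔄 φ ρ v) (pk3_sat_ren 𝔄 ψ ρ v)
  | _, _, .ex φ, ρ, v => by
    simp only [Fo.pk3ren, Fo.Sat]
    refine exists_congr fun a => and_congr_right fun _ => ?_
    rw [pk3_sat_ren 𝔄 φ, pk3_cons_lift]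
  | _, _, .bex i φ, ρ, v => by
    simp only [Fo.pk3ren, Fo.Sat]
    refine exists_congr fun a => and_congr_right fun _ => and_congr_right fun _ => ?_
    rw [pk3_sat_ren 𝔄 φ, pk3_cons_lift]

theorem pk3_ren_isD0 : {n m : ℕ} → (φ : Fo n) → (ρ : Fin n → Fin m) → φ.IsD0 →
    (φ.pk3ren ρ).IsD0
  | _, _, .mem _ _, _, _ => trivial
  | _, _, .eq _ _, _, _ => trivial
  | _, _, .pF _, _, h => h.elim
  | _, _, .lt _ _, _, h => h.elim
  | _, _, .lv _ _, _, h => h.elim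
  | _, _, .neg φ, ρ, h => pk3_ren_isD0 φ ρ h
  | _, _, .and φ ψ, ρ, h => ⟨pk3_ren_isD0 φ ρ h.1, pk3_ren_isD0 ψ ρ h.2⟩
  | _, _, .ex _, _, h => h.elim
  | _, _, .bex _ φ, ρ, h => pk3_ren_isD0 φ (pk3lift ρ) h

/-! ### `Δ₀` relations -/

/-- `R` is defined by one `Δ₀` formula in all structures with a transitive universe. -/
def Dz {n : ℕ} (R : (Fin n → ZFSet.{0}) → Prop) : Prop :=
  ∃ φ : Fo n, φ.IsD0 ∧ ∀ 𝔄 : Stc, (∀ x ∈ 𝔄.A, ∀ y ∈ x, y ∈ 𝔄.A) →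
    ∀ v, (∀ i, v i ∈ 𝔄.A) → (φ.Sat 𝔄 v ↔ R v)

section

variable {n : ℕ} {R T : (Fin n → ZFSet.{0}) → Prop} {F G H : (Fin n → ZFSet.{0}) → ZFSet.{0}}

theorem Dz.congr (h : Dz R) (h' : ∀ v, R v ↔ T v) : Dz T := by
  obtain ⟨φ, h0, hφ⟩ := h
  exact ⟨φ, h0, fun M hM v hv => (hφ M hM v hv).trans (h' v)⟩

theorem Dz.not (h : Dz R) : Dz fun v => ¬ R v := by
  obtain ⟨φ, h0, hφ⟩ := h
  exact ⟨.neg φ, h0, fun M hM v hv => not_congr (hφ M hM v hv)⟩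

theorem Dz.and (h : Dz R) (h' : Dz T) : Dz fun v => R v ∧ T v := by
  obtain ⟨φ, h0, hφ⟩ := h
  obtain ⟨ψ, h1, hψ⟩ := h'
  exact ⟨.and φ ψ, ⟨h0, h1⟩, fun M hM v hv => and_congr (hφ M hM v hv) (hψ M hM v hv)⟩

theorem Dz.or (h : Dz R) (h' : Dz T) : Dz fun v => R v ∨ T v :=
  (h.not.and h'.not).not.congr fun v => by tauto

theorem Dz.imp (h : Dz R) (h' : Dz T) : Dz fun v => R v → T v :=
  (h.and h'.not).not.congr fun v => by tauto

theorem Dz.iff (h : Dz R) (h' : Dz T) : Dz fun v => R v ↔ T v :=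
  ((h.imp h').and (h'.imp h)).congr fun v => by tauto

theorem Dz.comp (h : Dz R) {m : ℕ} (ρ : Fin n → Fin m) :
    Dz fun v : Fin m → ZFSet.{0} => R fun i => v (ρ i) := by
  obtain ⟨φ, h0, hφ⟩ := h
  refine ⟨φ.pk3ren ρ, pk3_ren_isD0 φ ρ h0, fun M hM v hv => ?_⟩
  rw [pk3_sat_ren]
  exact hφ M hM _ fun i => hv _

theorem Dz.tail (h : Dz R) : Dz fun w : Fin (n + 1) → ZFSet.{0} => R (Fin.tail w) :=
  h.comp Fin.succ

theorem Dz.mem (hF : D0v F) (hG : D0v G) : Dz fun v => F v ∈ G v := by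
  obtain ⟨i, hi⟩ := hF
  obtain ⟨j, hj⟩ := hG
  refine ⟨.mem i j, trivial, fun M _ v _ => ?_⟩
  beta_reduce
  rw [hi, hj]
  rfl

theorem Dz.eq (hF : D0v F) (hG : D0v G) : Dz fun v => F v = G v := by
  obtain ⟨i, hi⟩ := hF
  obtain ⟨j, hj⟩ := hG
  refine ⟨.eq i j, trivial, fun M _ v _ => ?_⟩
  beta_reduce
  rw [hi, hj]
  rfl

theorem Dz.bex {Q : ZFSet.{0} → (Fin n → ZFSet.{0}) → Prop} (hF : D0v F)
    (h : Dz fun w : Fin (n + 1) → ZFSet.{0} => Q (w 0) (Fin.tail w)) :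
    Dz fun v => ∃ a ∈ F v, Q a v := by
  obtain ⟨i, hi⟩ := hF
  obtain ⟨φ, h0, hφ⟩ := h
  refine ⟨.bex i φ, h0, fun M hM v hv => ?_⟩
  beta_reduce
  rw [hi]
  simp only [Fo.Sat]
  have hc : ∀ a ∈ M.A, ∀ k, (Fin.cons a v : Fin (n + 1) → ZFSet.{0}) k ∈ M.A := by
    intro a ha k
    refine Fin.cases ?_ (fun k => ?_) k
    · exact ha
    · exact hv k
  constructor
  · rintro ⟨a, ha, h1, h2⟩
    exact ⟨a, h1, (hφ M hM _ (hc a ha)).1 h2⟩
  · rintro ⟨a, h1, h2⟩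
    have ha := hM _ (hv i) a h1
    exact ⟨a, ha, h1, (hφ M hM _ (hc a ha)).2 h2⟩

theorem Dz.ball {Q : ZFSet.{0} → (Fin n → ZFSet.{0}) → Prop} (hF : D0v F)
    (h : Dz fun w : Fin (n + 1) → ZFSet.{0} => Q (w 0) (Fin.tail w)) :
    Dz fun v => ∀ a ∈ F v, Q a v := by
  have h1 : Dz fun v => ∃ a ∈ F v, ¬ Q a v := Dz.bex (Q := fun a v => ¬ Q a v) hF h.not
  exact h1.not.congr fun v => by
    constructor
    · intro h2 a ha
      by_contra h3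
      exact h2 ⟨a, ha, h3⟩
    · rintro h2 ⟨a, ha, h3⟩
      exact h3 (h2 a ha)

theorem Dz.comp1 {Q : ZFSet.{0} → Prop}
    (h : Dz fun v : Fin 1 → ZFSet.{0} => Q (v 0)) (hF : D0v F) :
    Dz fun v => Q (F v) := by
  obtain ⟨a, ha⟩ := hF
  refine (h.comp ![a]).congr fun v => ?_
  rw [ha]
  rfl

theorem Dz.comp2 {Q : ZFSet.{0} → ZFSet.{0} → Prop}
    (h : Dz fun v : Fin 2 → ZFSet.{0} => Q (v 0) (v 1)) (hF : D0v F) (hG : D0v G) :
    Dz fun v => Q (F v) (G v) := by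
  obtain ⟨a, ha⟩ := hF
  obtain ⟨b, hb⟩ := hG
  refine (h.comp ![a, b]).congr fun v => ?_
  rw [ha, hb]
  rfl

theorem Dz.comp3 {Q : ZFSet.{0} → ZFSet.{0} → ZFSet.{0} → Prop}
    (h : Dz fun v : Fin 3 → ZFSet.{0} => Q (v 0) (v 1) (v 2)) (hF : D0v F) (hG : D0v G)
    (hH : D0v H) : Dz fun v => Q (F v) (G v) (H v) := by
  obtain ⟨a, ha⟩ := hF
  obtain ⟨b, hb⟩ := hG
  obtain ⟨c, hc⟩ := hH
  refine (h.comp ![a, b, c]).congr fun v => ?_
  rw [ha, hb, hc]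
  rfl

theorem Dz.tt [NeZero n] : Dz fun _ : Fin n → ZFSet.{0} => True :=
  ⟨.eq 0 0, trivial, fun M _ v _ => by simp [Fo.Sat]⟩

theorem Dz.exLt [NeZero n] {R : ℕ → (Fin n → ZFSet.{0}) → Prop} (h : ∀ i, Dz (R i)) (k : ℕ) :
    Dz fun v => ∃ i < k, R i v := by
  induction k with
  | zero => exact Dz.tt.not.congr fun v => by simp
  | succ k ih =>
    refine (ih.or (h k)).congr fun v => ?_
    constructor
    · rintro (⟨i, hi, h1⟩ | h1)
      · exact ⟨i, by omega, h1⟩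
      · exact ⟨k, by omega, h1⟩
    · rintro ⟨i, hi, h1⟩
      rcases Nat.lt_succ_iff_lt_or_eq.1 hi with h2 | rfl
      · exact Or.inl ⟨i, h2, h1⟩
      · exact Or.inr h1

theorem Dz.allLt [NeZero n] {R : ℕ → (Fin n → ZFSet.{0}) → Prop} (h : ∀ i, Dz (R i)) (k : ℕ) :
    Dz fun v => ∀ i < k, R i v :=
  (Dz.exLt (fun i => (h i).not) k).not.congr fun v => by
    constructor
    · intro h2 a ha
      by_contra h3
      exact h2 ⟨a, ha, h3⟩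
    · rintro h2 ⟨a, ha, h3⟩
      exact h3 (h2 a ha)

theorem Dz.isPair (hF : D0v F) (hG : D0v G) (hH : D0v H) : Dz fun v => F v = pair (G v) (H v) := by
  have h1 : Dz fun v => (∃ p ∈ F v, G v ∈ p ∧ ∀ u ∈ p, u = G v) ∧
      (∃ q ∈ F v, G v ∈ q ∧ H v ∈ q ∧ ∀ u ∈ q, u = G v ∨ u = H v) ∧
      ∀ r ∈ F v, (G v ∈ r ∧ ∀ u ∈ r, u = G v) ∨
        (G v ∈ r ∧ H v ∈ r ∧ ∀ u ∈ r, u = G v ∨ u = H v) := by
    have h1 := hG.tail
    have h2 := hH.tail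
    have h3 := h1.tail
    have h4 := h2.tail
    (repeat' first
      | assumption
      | exact D0v.proj _
      | apply Dz.not | apply Dz.and | apply Dz.or | apply Dz.imp | apply Dz.iff
      | apply Dz.bex | apply Dz.ball
      | apply Dz.eq | apply Dz.mem)
  refine h1.congr fun v => ?_
  have s1 : ∀ p a : ZFSet.{0}, (a ∈ p ∧ ∀ u ∈ p, u = a) ↔ p = {a} := by
    intro p a
    constructor
    · rintro ⟨h2, h3⟩
      ext u
      rw [ZFSet.mem_singleton]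
      exact ⟨h3 u, fun h => h ▸ h2⟩
    · rintro rfl
      exact ⟨ZFSet.mem_singleton.2 rfl, fun u hu => ZFSet.mem_singleton.1 hu⟩
  have s2 : ∀ p a b : ZFSet.{0}, (a ∈ p ∧ b ∈ p ∧ ∀ u ∈ p, u = a ∨ u = b) ↔ p = {a, b} := by
    intro p a b
    constructor
    · rintro ⟨h2, h3, h4⟩
      ext u
      rw [ZFSet.mem_pair]
      exact ⟨h4 u, fun h => h.elim (fun h => h ▸ h2) (fun h => h ▸ h3)⟩
    · rintro rfl
      exact ⟨ZFSet.mem_pair.2 (Or.inl rfl), ZFSet.mem_pair.2 (Or.inr rfl),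
        fun u hu => ZFSet.mem_pair.1 hu⟩
  simp only [s1, s2]
  constructor
  · rintro ⟨⟨p, hp, rfl⟩, ⟨q, hq, rfl⟩, h4⟩
    ext r
    rw [pair, ZFSet.mem_pair]
    exact ⟨h4 r, fun h => h.elim (fun h => h ▸ hp) (fun h => h ▸ hq)⟩
  · intro h
    rw [h, pair]
    exact ⟨⟨_, ZFSet.mem_pair.2 (Or.inl rfl), rfl⟩, ⟨_, ZFSet.mem_pair.2 (Or.inr rfl), rfl⟩,
      fun r hr => ZFSet.mem_pair.1 hr⟩

/-- Quantification over the components of a pair. -/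
theorem Dz.expair {Q : ZFSet.{0} → ZFSet.{0} → (Fin n → ZFSet.{0}) → Prop} (hF : D0v F)
    (h : Dz fun w : Fin (n + 2) → ZFSet.{0} => Q (w 1) (w 0) (Fin.tail (Fin.tail w))) :
    Dz fun v => ∃ x y, F v = pair x y ∧ Q x y v := by
  have h1 : Dz fun v => ∃ q ∈ F v, ∃ x ∈ q, ∃ y ∈ q, F v = pair x y ∧ Q x y v := by
    apply Dz.bex hF
    apply Dz.bex (D0v.proj 0)
    apply Dz.bex (D0v.proj 1)
    apply Dz.and
    · exact Dz.isPair hF.tail.tail.tail (D0v.proj 1) (D0v.proj 0)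
    · exact h.comp (Fin.cons 0 (Fin.cons 1 fun i => i.succ.succ.succ))
  refine h1.congr fun v => ?_
  constructor
  · rintro ⟨q, -, x, -, y, -, h2⟩
    exact ⟨x, y, h2⟩
  · rintro ⟨x, y, h2⟩
    refine ⟨{x, y}, ?_, x, ZFSet.mem_pair.2 (Or.inl rfl), y, ZFSet.mem_pair.2 (Or.inr rfl), h2⟩
    rw [h2.1, pair]
    exact ZFSet.mem_pair.2 (Or.inr rfl)

theorem Dz.pairMem (hF : D0v F) (hG : D0v G) (hH : D0v H) : Dz fun v => pair (F v) (G v) ∈ H v := by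
  have h1 : Dz fun v => ∃ p ∈ H v, p = pair (F v) (G v) := by
    apply Dz.bex hH
    exact Dz.isPair (D0v.proj 0) hF.tail hG.tail
  exact h1.congr fun v => ⟨fun ⟨p, hp, h⟩ => h ▸ hp, fun h => ⟨_, h, rfl⟩⟩

theorem Dz.subset (hF : D0v F) (hG : D0v G) : Dz fun v => F v ⊆ G v := by
  have h1 : Dz fun v => ∀ x ∈ F v, x ∈ G v := Dz.ball hF (Dz.mem (D0v.proj 0) hG.tail)
  exact h1

theorem Dz.empty (hF : D0v F) : Dz fun v => F v = ∅ := by
  have h1 : Dz fun v => ∀ x ∈ F v, x ≠ x := Dz.ball hF (Dz.eq (D0v.proj 0) (D0v.proj 0)).not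
  refine h1.congr fun v => ?_
  rw [ZFSet.eq_empty]
  exact forall₂_congr fun x _ => by simp

theorem Dz.isOrdinal (hF : D0v F) : Dz fun v => (F v).IsOrdinal := by
  have h : Dz fun v => (∀ y ∈ F v, ∀ z ∈ y, z ∈ F v) ∧
      ∀ y ∈ F v, ∀ z ∈ y, ∀ u ∈ z, u ∈ y := by
    have h1 := hF.tail.tail
    (repeat' first
      | assumption
      | exact D0v.proj _
      | apply Dz.not | apply Dz.and | apply Dz.or | apply Dz.imp | apply Dz.iff
      | apply Dz.bex | apply Dz.ball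
      | apply Dz.eq | apply Dz.mem)
  refine h.congr fun v => ?_
  constructor
  · rintro ⟨h1, h2⟩
    exact ⟨fun y hy z hz => h1 y hy z hz, fun {y z w} h3 h4 h5 => h2 w h5 z h4 y h3⟩
  · rintro ⟨h1, h2⟩
    exact ⟨fun y hy z hz => h1.mem_trans hz hy, fun y hy z hz u hu => h2 hu hz hy⟩

/-- `F v` is the successor of `G v`. -/
theorem Dz.isSucc (hF : D0v F) (hG : D0v G) :
    Dz fun v => F v = (insert (G v) (G v) : ZFSet.{0}) := by
  have h : Dz fun v => G v ∈ F v ∧ (∀ y ∈ G v, y ∈ F v) ∧ ∀ y ∈ F v, y = G v ∨ y ∈ G v := by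
    have h1 := hF.tail
    have h2 := hG.tail
    (repeat' first
      | assumption
      | exact D0v.proj _
      | apply Dz.not | apply Dz.and | apply Dz.or | apply Dz.imp | apply Dz.iff
      | apply Dz.bex | apply Dz.ball
      | apply Dz.eq | apply Dz.mem)
  refine h.congr fun v => ?_
  constructor
  · rintro ⟨h1, h2, h3⟩
    ext z
    rw [ZFSet.mem_insert_iff]
    exact ⟨h3 z, fun hz => hz.elim (fun h => h ▸ h1) (h2 z)⟩
  · intro h1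
    rw [h1]
    exact ⟨ZFSet.mem_insert _ _, fun y hy => ZFSet.mem_insert_of_mem _ hy,
      fun y hy => ZFSet.mem_insert_iff.1 hy⟩

/-- Quantification over the elements of a successor. -/
theorem Dz.bexI {Q : ZFSet.{0} → (Fin n → ZFSet.{0}) → Prop} (hF : D0v F)
    (h : Dz fun w : Fin (n + 1) → ZFSet.{0} => Q (w 0) (Fin.tail w)) :
    Dz fun v => ∃ a ∈ (insert (F v) (F v) : ZFSet.{0}), Q a v := by
  have h1 : Dz fun v => Q (F v) v := by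
    obtain ⟨i, hi⟩ := hF
    refine (h.comp (Fin.cons i id)).congr fun v => ?_
    rw [hi]
    rfl
  refine (h1.or (Dz.bex hF h)).congr fun v => ?_
  constructor
  · rintro (h2 | ⟨a, ha, h2⟩)
    · exact ⟨_, ZFSet.mem_insert _ _, h2⟩
    · exact ⟨a, ZFSet.mem_insert_of_mem _ ha, h2⟩
  · rintro ⟨a, ha, h2⟩
    rcases ZFSet.mem_insert_iff.1 ha with rfl | ha
    · exact Or.inl h2
    · exact Or.inr ⟨a, ha, h2⟩

theorem Dz.ballI {Q : ZFSet.{0} → (Fin n → ZFSet.{0}) → Prop} (hF : D0v F)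
    (h : Dz fun w : Fin (n + 1) → ZFSet.{0} => Q (w 0) (Fin.tail w)) :
    Dz fun v => ∀ a ∈ (insert (F v) (F v) : ZFSet.{0}), Q a v := by
  have h1 : Dz fun v => ∃ a ∈ (insert (F v) (F v) : ZFSet.{0}), ¬ Q a v :=
    Dz.bexI (Q := fun a v => ¬ Q a v) hF h.not
  exact h1.not.congr fun v => by
    constructor
    · intro h2 a ha
      by_contra h3
      exact h2 ⟨a, ha, h3⟩
    · rintro h2 ⟨a, ha, h3⟩
      exact h3 (h2 a ha)

end

/-! ### Comparison with `D0` -/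

/-- A `Δ₀` formula as a formula of the language of set theory. -/
def Fo.pk3fml : {n : ℕ} → Fo n → Fml Empty n
  | _, .mem i j => .mem (Sum.inl i) (Sum.inl j)
  | _, .eq i j => .eq (Sum.inl i) (Sum.inl j)
  | _, .pF i => .eq (Sum.inl i) (Sum.inl i)
  | _, .lt i j => .eq (Sum.inl i) (Sum.inl j)
  | _, .lv i j => .eq (Sum.inl i) (Sum.inl j)
  | _, .neg φ => .neg φ.pk3fml
  | _, .and φ ψ => .and φ.pk3fml ψ.pk3fml
  | _, .ex φ => .ex φ.pk3fml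
  | _, .bex i φ => .ex (.and (.mem (Sum.inl 0) (Sum.inl i.succ)) φ.pk3fml)

theorem pk3_sat_fml (𝔄 : Stc) : {n : ℕ} → (φ : Fo n) → φ.IsD0 → (v : Fin n → ZFSet.{0}) →
    (Pool.Agent.W868.Sat 𝔄.A Empty.elim φ.pk3fml v ↔ φ.Sat 𝔄 v)
  | _, .mem _ _, _, _ => Iff.rfl
  | _, .eq _ _, _, _ => Iff.rfl
  | _, .pF _, h, _ => h.elim
  | _, .lt _ _, h, _ => h.elim
  | _, .lv _ _, h, _ => h.elim
  | _, .neg φ, h, v => not_congr (pk3_sat_fml 𝔄 φ h v)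
  | _, .and φ ψ, h, v => and_congr (pk3_sat_fml 𝔄 φ h.1 v) (pk3_sat_fml 𝔄 ψ h.2 v)
  | _, .ex _, h, _ => h.elim
  | _, .bex i φ, h, v => by
    simp only [Fo.pk3fml, Fo.Sat, Pool.Agent.W868.Sat]
    refine exists_congr fun a => and_congr_right fun _ => ?_
    exact and_congr Iff.rfl (pk3_sat_fml 𝔄 φ h _)

theorem Dz.d0 {n : ℕ} {R : (Fin n → ZFSet.{0}) → Prop} (h : Dz R) : D0 R := by
  obtain ⟨φ, h0, h1⟩ := h
  refine ⟨φ.pk3fml, fun M hM v hv => ?_⟩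
  rw [← h1 ⟨M, fun _ => True, fun _ _ => True, fun x => x⟩ hM v hv]
  exact pk3_sat_fml ⟨M, fun _ => True, fun _ _ => True, fun x => x⟩ φ h0 v

end Pool.Agent.helper797_cs
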