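import Pool.Agent.helper797_cs.PK0a

/-!
# K3, part b: one step of the hierarchy is a `Δ₀` relation
-/

set_option autoImplicit false
set_option linter.unreachableTactic false
set_option linter.unusedTactic false

namespace Pool.Agent.helper797_cs

open Pool.Agent.W868 Pool.Agent.R587
open ZFSet (pair)

theorem pk3_dz_GR {n : ℕ} {G H K : (Fin n → ZFSet.{0}) → ZFSet.{0}} (hG : D0v G)
    (hH : D0v H) (hK : D0v K) : ∀ i < 10, Dz fun v => GR ∅ i (G v) (H v) (K v) := by
  have key : ∀ i < 10, Dz fun v : Fin 3 → ZFSet.{0} => GR ∅ i (v 0) (v 1) (v 2) := by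
    intro i hi
    match i, hi with
    | 0, _ => unfold GR; (repeat' first | assumption | exact D0v.proj _ | exact D0v.tail (by assumption) | exact D0v.tail (D0v.tail (by assumption)) | apply Dz.not | apply Dz.and | apply Dz.expair | apply Dz.or | apply Dz.isPair | apply Dz.pairMem | apply Dz.bexI | apply Dz.ballI | apply Dz.bex | apply Dz.ball | apply Dz.imp | apply Dz.iff | apply Dz.subset | apply Dz.isSucc | apply Dz.empty | apply Dz.eq | apply Dz.mem | apply Dz.isOrdinal)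
    | 1, _ => unfold GR; (repeat' first | assumption | exact D0v.proj _ | exact D0v.tail (by assumption) | exact D0v.tail (D0v.tail (by assumption)) | apply Dz.not | apply Dz.and | apply Dz.expair | apply Dz.or | apply Dz.isPair | apply Dz.pairMem | apply Dz.bexI | apply Dz.ballI | apply Dz.bex | apply Dz.ball | apply Dz.imp | apply Dz.iff | apply Dz.subset | apply Dz.isSucc | apply Dz.empty | apply Dz.eq | apply Dz.mem | apply Dz.isOrdinal)
    | 2, _ => unfold GR; (repeat' first | assumption | exact D0v.proj _ | exact D0v.tail (by assumption) | exact D0v.tail (D0v.tail (by assumption)) | apply Dz.not | apply Dz.and | apply Dz.expair | apply Dz.or | apply Dz.isPair | apply Dz.pairMem | apply Dz.bexI | apply Dz.ballI | apply Dz.bex | apply Dz.ball | apply Dz.imp | apply Dz.iff | apply Dz.subset | apply Dz.isSucc | apply Dz.empty | apply Dz.eq | apply Dz.mem | apply Dz.isOrdinal)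
    | 3, _ => unfold GR; (repeat' first | assumption | exact D0v.proj _ | exact D0v.tail (by assumption) | exact D0v.tail (D0v.tail (by assumption)) | apply Dz.not | apply Dz.and | apply Dz.expair | apply Dz.or | apply Dz.isPair | apply Dz.pairMem | apply Dz.bexI | apply Dz.ballI | apply Dz.bex | apply Dz.ball | apply Dz.imp | apply Dz.iff | apply Dz.subset | apply Dz.isSucc | apply Dz.empty | apply Dz.eq | apply Dz.mem | apply Dz.isOrdinal)
    | 4, _ => unfold GR; (repeat' first | assumption | exact D0v.proj _ | exact D0v.tail (by assumption) | exact D0v.tail (D0v.tail (by assumption)) | apply Dz.not | apply Dz.and | apply Dz.expair | apply Dz.or | apply Dz.isPair | apply Dz.pairMem | apply Dz.bexI | apply Dz.ballI | apply Dz.bex | apply Dz.ball | apply Dz.imp | apply Dz.iff | apply Dz.subset | apply Dz.isSucc | apply Dz.empty | apply Dz.eq | apply Dz.mem | apply Dz.isOrdinal)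
    | 5, _ => unfold GR; (repeat' first | assumption | exact D0v.proj _ | exact D0v.tail (by assumption) | exact D0v.tail (D0v.tail (by assumption)) | apply Dz.not | apply Dz.and | apply Dz.expair | apply Dz.or | apply Dz.isPair | apply Dz.pairMem | apply Dz.bexI | apply Dz.ballI | apply Dz.bex | apply Dz.ball | apply Dz.imp | apply Dz.iff | apply Dz.subset | apply Dz.isSucc | apply Dz.empty | apply Dz.eq | apply Dz.mem | apply Dz.isOrdinal)
    | 6, _ => unfold GR; (repeat' first | assumption | exact D0v.proj _ | exact D0v.tail (by assumption) | exact D0v.tail (D0v.tail (by assumption)) | apply Dz.not | apply Dz.and | apply Dz.expair | apply Dz.or | apply Dz.isPair | apply Dz.pairMem | apply Dz.bexI | apply Dz.ballI | apply Dz.bex | apply Dz.ball | apply Dz.imp | apply Dz.iff | apply Dz.subset | apply Dz.isSucc | apply Dz.empty | apply Dz.eq | apply Dz.mem | apply Dz.isOrdinal)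
    | 7, _ => unfold GR; (repeat' first | assumption | exact D0v.proj _ | exact D0v.tail (by assumption) | exact D0v.tail (D0v.tail (by assumption)) | apply Dz.not | apply Dz.and | apply Dz.expair | apply Dz.or | apply Dz.isPair | apply Dz.pairMem | apply Dz.bexI | apply Dz.ballI | apply Dz.bex | apply Dz.ball | apply Dz.imp | apply Dz.iff | apply Dz.subset | apply Dz.isSucc | apply Dz.empty | apply Dz.eq | apply Dz.mem | apply Dz.isOrdinal)
    | 8, _ => unfold GR; (repeat' first | assumption | exact D0v.proj _ | exact D0v.tail (by assumption) | exact D0v.tail (D0v.tail (by assumption)) | apply Dz.not | apply Dz.and | apply Dz.expair | apply Dz.or | apply Dz.isPair | apply Dz.pairMem | apply Dz.bexI | apply Dz.ballI | apply Dz.bex | apply Dz.ball | apply Dz.imp | apply Dz.iff | apply Dz.subset | apply Dz.isSucc | apply Dz.empty | apply Dz.eq | apply Dz.mem | apply Dz.isOrdinal)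
    | 9, _ => unfold GR; (repeat' first | assumption | exact D0v.proj _ | exact D0v.tail (by assumption) | exact D0v.tail (D0v.tail (by assumption)) | apply Dz.not | apply Dz.and | apply Dz.expair | apply Dz.or | apply Dz.isPair | apply Dz.pairMem | apply Dz.bexI | apply Dz.ballI | apply Dz.bex | apply Dz.ball | apply Dz.imp | apply Dz.iff | apply Dz.subset | apply Dz.isSucc | apply Dz.empty | apply Dz.eq | apply Dz.mem | apply Dz.isOrdinal)
  intro i hi
  obtain ⟨a, ha⟩ := hG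
  obtain ⟨b, hb⟩ := hH
  obtain ⟨c, hc⟩ := hK
  refine ((key i hi).comp ![a, b, c]).congr fun v => ?_
  rw [ha, hb, hc]
  rfl

section

variable {n : ℕ} {Z Z' X W P R A B A' B' : (Fin n → ZFSet.{0}) → ZFSet.{0}}

theorem pk3_dz_opK (k : ℕ) (hZ : D0v Z) (hX : D0v X) (hP : D0v P) (hR : D0v R)
    (hA : D0v A) (hB : D0v B) :
    Dz fun v => Z v = opK (X v) (P v) (R v) k (A v) (B v) := by
  by_cases h : k < 10
  · have h1 : Dz fun v => (∀ u ∈ Z v, u ∈ X v ∧ GR ∅ k u (A v) (B v)) ∧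
        ∀ u ∈ X v, GR ∅ k u (A v) (B v) → u ∈ Z v := by
      apply Dz.and
      · apply Dz.ball hZ
        exact (Dz.mem (D0v.proj 0) hX.tail).and (pk3_dz_GR (D0v.proj 0) hA.tail hB.tail k h)
      · apply Dz.ball hX
        exact (pk3_dz_GR (D0v.proj 0) hA.tail hB.tail k h).imp (Dz.mem (D0v.proj 0) hZ.tail)
    refine h1.congr fun v => ?_
    rw [opK, if_pos h]
    constructor
    · rintro ⟨h2, h3⟩
      ext u
      rw [ZFSet.mem_sep]
      exact ⟨h2 u, fun hu => h3 u hu.1 hu.2⟩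
    · intro h2
      rw [h2]
      exact ⟨fun u hu => ZFSet.mem_sep.1 hu, fun u h4 h5 => ZFSet.mem_sep.2 ⟨h4, h5⟩⟩
  · by_cases h' : k = 10
    · refine (Dz.eq hZ hP).congr fun v => ?_
      rw [opK, if_neg h, if_pos h']
    · refine (Dz.eq hZ hR).congr fun v => ?_
      rw [opK, if_neg h, if_neg h']

theorem pk3_dz_ltX (hX : D0v X) (hW : D0v W) (hA : D0v A) (hB : D0v B) :
    Dz fun v => ltX (X v) (W v) (A v) (B v) := by
  unfold ltX
  (repeat' first | assumption | exact D0v.proj _ | exact D0v.tail (by assumption) | exact D0v.tail (D0v.tail (by assumption)) | apply Dz.not | apply Dz.and | apply Dz.expair | apply Dz.or | apply Dz.isPair | apply Dz.pairMem | apply Dz.bexI | apply Dz.ballI | apply Dz.bex | apply Dz.ball | apply Dz.imp | apply Dz.iff | apply Dz.subset | apply Dz.isSucc | apply Dz.empty | apply Dz.eq | apply Dz.mem | apply Dz.isOrdinal)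

theorem pk3_dz_lexX (hX : D0v X) (hW : D0v W) (hA : D0v A) (hB : D0v B) (hA' : D0v A')
    (hB' : D0v B') : Dz fun v => lexX (X v) (W v) (A v) (B v) (A' v) (B' v) := by
  unfold lexX
  exact (pk3_dz_ltX hX hW hA hA').or ((Dz.eq hA hA').and (pk3_dz_ltX hX hW hB hB'))

end

theorem pk3_mem_stY {X P R Y z : ZFSet.{0}} {k : ℕ} : z ∈ stY X P R Y k ↔
    z ∈ Y ∨ ∃ a ∈ (insert X X : ZFSet.{0}), ∃ b ∈ (insert X X : ZFSet.{0}),
      z = opK X P R k a b := by
  rw [stY, ZFSet.mem_union, mem_im]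
  refine or_congr Iff.rfl ?_
  constructor
  · rintro ⟨p, hp, rfl⟩
    obtain ⟨a, ha, b, hb, rfl⟩ := ZFSet.mem_prod.1 hp
    exact ⟨a, ha, b, hb, by rw [fs_pair, sn_pair]⟩
  · rintro ⟨a, ha, b, hb, rfl⟩
    exact ⟨pair a b, ZFSet.pair_mem_prod.2 ⟨ha, hb⟩, by rw [fs_pair, sn_pair]⟩

/-- The new pairs of the order. -/
def pk3V (X W P R Y V : ZFSet.{0}) (k : ℕ) (z z' : ZFSet.{0}) : Prop :=
  pair z z' ∈ V ∨ (z ∈ Y ∧ z' ∉ Y) ∨
    (z ∉ Y ∧ z' ∉ Y ∧ ∃ a ∈ (insert X X : ZFSet.{0}), ∃ b ∈ (insert X X : ZFSet.{0}),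
      z = opK X P R k a b ∧
      ∀ a' ∈ (insert X X : ZFSet.{0}), ∀ b' ∈ (insert X X : ZFSet.{0}),
        z' = opK X P R k a' b' → lexX X W a b a' b')

theorem pk3_mem_stV {X W P R Y V p : ZFSet.{0}} {k : ℕ} : p ∈ stV X W P R Y V k ↔
    ∃ z z', p = pair z z' ∧ z ∈ stY X P R Y k ∧ z' ∈ stY X P R Y k ∧
      pk3V X W P R Y V k z z' := by
  rw [stV, ZFSet.mem_sep, ZFSet.mem_prod]
  constructor
  · rintro ⟨⟨z, hz, z', hz', rfl⟩, w, w', h1, h2⟩
    obtain ⟨rfl, rfl⟩ := ZFSet.pair_inj.1 h1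
    exact ⟨_, _, rfl, hz, hz', h2⟩
  · rintro ⟨z, z', rfl, hz, hz', h2⟩
    exact ⟨⟨z, hz, z', hz', rfl⟩, _, _, rfl, h2⟩

theorem pk3_pair_mem_stV {X W P R Y V z z' : ZFSet.{0}} {k : ℕ} :
    pair z z' ∈ stV X W P R Y V k ↔ z ∈ stY X P R Y k ∧ z' ∈ stY X P R Y k ∧
      pk3V X W P R Y V k z z' := by
  rw [pk3_mem_stV]
  constructor
  · rintro ⟨w, w', h1, h2⟩
    obtain ⟨rfl, rfl⟩ := ZFSet.pair_inj.1 h1
    exact h2
  · intro h
    exact ⟨_, _, rfl, h⟩

theorem pk3_stg_zero (X W P R : ZFSet.{0}) : stg X W P R 0 = (X, W) := rfl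

theorem pk3_stg1 (X W P R : ZFSet.{0}) (k : ℕ) :
    (stg X W P R (k + 1)).1 = stY X P R (stg X W P R k).1 k := rfl

theorem pk3_stg2 (X W P R : ZFSet.{0}) (k : ℕ) :
    (stg X W P R (k + 1)).2 = stV X W P R (stg X W P R k).1 (stg X W P R k).2 k := rfl

section

variable {n : ℕ} {Z Z' X W P R Y V : (Fin n → ZFSet.{0}) → ZFSet.{0}}

theorem pk3_dz_mem_stg1 (k : ℕ) (hZ : D0v Z) (hX : D0v X) (hP : D0v P)
    (hR : D0v R) : Dz fun v => Z v ∈ (stg (X v) (W v) (P v) (R v) k).1 := by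
  induction k with
  | zero => exact Dz.mem hZ hX
  | succ k ih =>
    have h1 : Dz fun v => Z v ∈ (stg (X v) (W v) (P v) (R v) k).1 ∨
        ∃ a ∈ (insert (X v) (X v) : ZFSet.{0}), ∃ b ∈ (insert (X v) (X v) : ZFSet.{0}),
          Z v = opK (X v) (P v) (R v) k a b := by
      refine ih.or ?_
      apply Dz.bexI hX
      apply Dz.bexI hX.tail
      exact pk3_dz_opK k hZ.tail.tail hX.tail.tail hP.tail.tail hR.tail.tail (D0v.proj 1)
        (D0v.proj 0)
    exact h1.congr fun v => by rw [pk3_stg1, pk3_mem_stY]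

theorem pk3_dz_mem_stg2 (k : ℕ) (hZ : D0v Z) (hZ' : D0v Z') (hX : D0v X) (hW : D0v W)
    (hP : D0v P) (hR : D0v R) :
    Dz fun v => pair (Z v) (Z' v) ∈ (stg (X v) (W v) (P v) (R v) k).2 := by
  induction k with
  | zero => exact Dz.pairMem hZ hZ' hW
  | succ k ih =>
    have h1 : Dz fun v => Z v ∈ (stg (X v) (W v) (P v) (R v) (k + 1)).1 ∧
        Z' v ∈ (stg (X v) (W v) (P v) (R v) (k + 1)).1 ∧
        pk3V (X v) (W v) (P v) (R v) (stg (X v) (W v) (P v) (R v) k).1
          (stg (X v) (W v) (P v) (R v) k).2 k (Z v) (Z' v) := by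
      refine (pk3_dz_mem_stg1 (k + 1) hZ hX hP hR).and
        ((pk3_dz_mem_stg1 (k + 1) hZ' hX hP hR).and ?_)
      have h2 := pk3_dz_mem_stg1 (W := W) k hZ hX hP hR
      have h3 := pk3_dz_mem_stg1 (W := W) k hZ' hX hP hR
      unfold pk3V
      refine ih.or ((h2.and h3.not).or (h2.not.and (h3.not.and ?_)))
      apply Dz.bexI hX
      apply Dz.bexI hX.tail
      refine Dz.and (pk3_dz_opK k hZ.tail.tail hX.tail.tail hP.tail.tail hR.tail.tail
        (D0v.proj 1) (D0v.proj 0)) ?_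
      apply Dz.ballI hX.tail.tail
      apply Dz.ballI hX.tail.tail.tail
      refine Dz.imp (pk3_dz_opK k hZ'.tail.tail.tail.tail hX.tail.tail.tail.tail
        hP.tail.tail.tail.tail hR.tail.tail.tail.tail (D0v.proj 1) (D0v.proj 0)) ?_
      exact pk3_dz_lexX hX.tail.tail.tail.tail hW.tail.tail.tail.tail (D0v.proj 3)
        (D0v.proj 2) (D0v.proj 1) (D0v.proj 0)
    exact h1.congr fun v => by rw [pk3_stg2, pk3_pair_mem_stV, ← pk3_stg1]

theorem pk3_dz_stg1_sub (k : ℕ) (hY : D0v Y) (hX : D0v X) (hP : D0v P) (hR : D0v R) :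
    Dz fun v => (stg (X v) (W v) (P v) (R v) k).1 ⊆ Y v := by
  induction k with
  | zero => exact Dz.subset hX hY
  | succ k ih =>
    have h1 : Dz fun v => (stg (X v) (W v) (P v) (R v) k).1 ⊆ Y v ∧
        ∀ a ∈ (insert (X v) (X v) : ZFSet.{0}), ∀ b ∈ (insert (X v) (X v) : ZFSet.{0}),
          ∃ z ∈ Y v, z = opK (X v) (P v) (R v) k a b := by
      refine ih.and ?_
      apply Dz.ballI hX
      apply Dz.ballI hX.tail
      apply Dz.bex hY.tail.tail
      exact pk3_dz_opK k (D0v.proj 0) hX.tail.tail.tail hP.tail.tail.tail hR.tail.tail.tail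
        (D0v.proj 2) (D0v.proj 1)
    refine h1.congr fun v => ?_
    rw [pk3_stg1]
    constructor
    · rintro ⟨h2, h3⟩ z hz
      rcases pk3_mem_stY.1 hz with hz | ⟨a, ha, b, hb, rfl⟩
      · exact h2 hz
      · obtain ⟨z, hz, h4⟩ := h3 a ha b hb
        exact h4 ▸ hz
    · intro h2
      exact ⟨fun z hz => h2 (pk3_mem_stY.2 (Or.inl hz)), fun a ha b hb =>
        ⟨_, h2 (pk3_mem_stY.2 (Or.inr ⟨a, ha, b, hb, rfl⟩)), rfl⟩⟩

/-- `Y` is the universe after a step, and `V` is the order. -/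
theorem pk3_dz_stg12 (hY : D0v Y) (hV : D0v V) (hX : D0v X) (hW : D0v W) (hP : D0v P)
    (hR : D0v R) :
    Dz fun v => Y v = (stg (X v) (W v) (P v) (R v) 12).1 ∧
      V v = (stg (X v) (W v) (P v) (R v) 12).2 := by
  have h1 : Dz fun v => ((∀ z ∈ Y v, z ∈ (stg (X v) (W v) (P v) (R v) 12).1) ∧
      (stg (X v) (W v) (P v) (R v) 12).1 ⊆ Y v) ∧
      (∀ p ∈ V v, ∃ z z', p = pair z z' ∧
        pair z z' ∈ (stg (X v) (W v) (P v) (R v) 12).2) ∧
      ∀ z ∈ Y v, ∀ z' ∈ Y v, pair z z' ∈ (stg (X v) (W v) (P v) (R v) 12).2 →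
        pair z z' ∈ V v := by
    refine Dz.and (Dz.and ?_ (pk3_dz_stg1_sub 12 hY hX hP hR)) (Dz.and ?_ ?_)
    · apply Dz.ball hY
      exact pk3_dz_mem_stg1 12 (D0v.proj 0) hX.tail hP.tail hR.tail
    · apply Dz.ball hV
      apply Dz.expair (D0v.proj 0)
      exact pk3_dz_mem_stg2 12 (D0v.proj 1) (D0v.proj 0) hX.tail.tail.tail hW.tail.tail.tail
        hP.tail.tail.tail hR.tail.tail.tail
    · apply Dz.ball hY
      apply Dz.ball hY.tail
      exact (pk3_dz_mem_stg2 12 (D0v.proj 1) (D0v.proj 0) hX.tail.tail hW.tail.tail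
        hP.tail.tail hR.tail.tail).imp (Dz.pairMem (D0v.proj 1) (D0v.proj 0) hV.tail.tail)
  refine h1.congr fun v => ?_
  constructor
  · rintro ⟨⟨h2, h3⟩, h4, h5⟩
    have h6 : Y v = (stg (X v) (W v) (P v) (R v) 12).1 := by
      ext z
      exact ⟨h2 z, fun hz => h3 hz⟩
    refine ⟨h6, ?_⟩
    ext p
    constructor
    · intro hp
      obtain ⟨z, z', rfl, h7⟩ := h4 p hp
      exact h7
    · intro hp
      have hp' := hp
      rw [pk3_stg2] at hp'
      obtain ⟨z, z', rfl, h7, h8, -⟩ := pk3_mem_stV.1 hp'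
      rw [← pk3_stg1, ← h6] at h7 h8
      exact h5 z h7 z' h8 hp
  · rintro ⟨h2, h3⟩
    rw [h2, h3]
    refine ⟨⟨fun z hz => hz, fun z hz => hz⟩, fun p hp => ?_, fun z _ z' _ h => h⟩
    have hp' := hp
    rw [pk3_stg2] at hp'
    obtain ⟨z, z', rfl, -⟩ := pk3_mem_stV.1 hp'
    exact ⟨z, z', rfl, hp⟩

end

/-- The set is a quadruple. -/
def Qd (e : ZFSet.{0}) : Prop := ∃ y w q r, e = pair y (pair w (pair q r))

@[simp] theorem pk3_eS (y w q r : ZFSet.{0}) : eS (pair y (pair w (pair q r))) = y := by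
  rw [eS, fs_pair]

@[simp] theorem pk3_eW (y w q r : ZFSet.{0}) : eW (pair y (pair w (pair q r))) = w := by
  rw [eW, sn_pair, fs_pair]

@[simp] theorem pk3_eP (y w q r : ZFSet.{0}) : eP (pair y (pair w (pair q r))) = q := by
  rw [eP, sn_pair, sn_pair, fs_pair]

@[simp] theorem pk3_eR (y w q r : ZFSet.{0}) : eR (pair y (pair w (pair q r))) = r := by
  rw [eR, sn_pair, sn_pair, sn_pair]

/-- `E'` is the next step after the quadruple `E`. -/
theorem pk3_dz_nxt {n : ℕ} {E E' : (Fin n → ZFSet.{0}) → ZFSet.{0}} (hE : D0v E) (hE' : D0v E') :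
    Dz fun v => Qd (E v) ∧ E' v = nxt (E v) := by
  have h1 : Dz fun v => ∃ X T, E v = pair X T ∧ ∃ W T', T = pair W T' ∧ ∃ P R, T' = pair P R ∧
      ∃ Y S, E' v = pair Y S ∧ ∃ V S', S = pair V S' ∧ ∃ O O', S' = pair O O' ∧ O = ∅ ∧ O' = ∅ ∧
        (Y = (stg X W P R 12).1 ∧ V = (stg X W P R 12).2) := by
    apply Dz.expair hE
    apply Dz.expair (D0v.proj 0)
    apply Dz.expair (D0v.proj 0)
    apply Dz.expair hE'.tail.tail.tail.tail.tail.tail
    apply Dz.expair (D0v.proj 0)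
    apply Dz.expair (D0v.proj 0)
    refine Dz.and (Dz.empty (D0v.proj 1)) (Dz.and (Dz.empty (D0v.proj 0)) ?_)
    exact pk3_dz_stg12 (D0v.proj 5) (D0v.proj 3) (D0v.proj 11) (D0v.proj 9) (D0v.proj 7)
      (D0v.proj 6)
  refine h1.congr fun v => ?_
  constructor
  · rintro ⟨X, T, h2, W, T', rfl, P, R, rfl, Y, S, h3, V, S', rfl, O, O', rfl, rfl, rfl, rfl, rfl⟩
    refine ⟨⟨X, W, P, R, h2⟩, ?_⟩
    rw [h3, h2, nxt, pk3_eS, pk3_eW, pk3_eP, pk3_eR]
  · rintro ⟨⟨X, W, P, R, h2⟩, h3⟩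
    rw [h2, nxt, pk3_eS, pk3_eW, pk3_eP, pk3_eR] at h3
    exact ⟨X, _, h2, W, _, rfl, P, R, rfl, _, _, h3, _, _, rfl, _, _, rfl, rfl, rfl, rfl, rfl⟩

end Pool.Agent.helper797_cs
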