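import Pool.Agent.helper797_cs.KDefs

/-! # K1: basic facts on the hierarchy (K1, K2 part, K5 of the paper) -/

set_option autoImplicit false
set_option linter.unreachableTactic false
set_option linter.unusedTactic false
namespace Pool.Agent.helper797_cs
open Pool.Agent.W868 Pool.Agent.R587
open ZFSet (pair)
open Cardinal Order

variable {F : ZFSet.{0}}

theorem PK1_eS (a b c d : ZFSet.{0}) : eS (pair a (pair b (pair c d))) = a := by rw [eS, fs_pair]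
theorem PK1_eW (a b c d : ZFSet.{0}) : eW (pair a (pair b (pair c d))) = b := by
  rw [eW, sn_pair, fs_pair]
theorem PK1_eP (a b c d : ZFSet.{0}) : eP (pair a (pair b (pair c d))) = c := by
  rw [eP, sn_pair, sn_pair, fs_pair]
theorem PK1_eR (a b c d : ZFSet.{0}) : eR (pair a (pair b (pair c d))) = d := by
  rw [eR, sn_pair, sn_pair, sn_pair]

theorem PK1_Eh_eq (F z : ZFSet.{0}) : Eh F z =
    open Classical in
    if ∃ u ∈ z, z = insert u u then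
      nxt (ZFSet.sUnion (im sn (ZFSet.sep (fun p => fs p = ZFSet.sUnion z) (gr (Eh F) z))))
    else lmt F (gr (Eh F) z) := by
  classical
  rw [Eh, wfF_eq]

theorem PK1_mem_lmtS {F z x : ZFSet.{0}} :
    x ∈ eS (lmt F (gr (Eh F) z)) ↔ ∃ u ∈ z, x ∈ eS (Eh F u) := by
  rw [lmt, eS, fs_pair, ZFSet.mem_sUnion]
  constructor
  · rintro ⟨w, hw, hx⟩
    obtain ⟨p, hp, rfl⟩ := mem_im.1 hw
    obtain ⟨u, hu, rfl⟩ := mem_gr.1 hp
    rw [sn_pair] at hx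
    exact ⟨u, hu, hx⟩
  · rintro ⟨u, hu, hx⟩
    exact ⟨_, mem_im.2 ⟨_, mem_gr.2 ⟨u, hu, rfl⟩, rfl⟩, by rwa [sn_pair]⟩

theorem PK1_mem_lmtW {F z x : ZFSet.{0}} :
    x ∈ eW (lmt F (gr (Eh F) z)) ↔ ∃ u ∈ z, x ∈ eW (Eh F u) := by
  rw [lmt, eW, sn_pair, fs_pair, ZFSet.mem_sUnion]
  constructor
  · rintro ⟨w, hw, hx⟩
    obtain ⟨p, hp, rfl⟩ := mem_im.1 hw
    obtain ⟨u, hu, rfl⟩ := mem_gr.1 hp
    rw [sn_pair] at hx
    exact ⟨u, hu, hx⟩
  · rintro ⟨u, hu, hx⟩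
    exact ⟨_, mem_im.2 ⟨_, mem_gr.2 ⟨u, hu, rfl⟩, rfl⟩, by rwa [sn_pair]⟩

theorem PK1_lmt_form (F g : ZFSet.{0}) : lmt F g =
    pair (eS (lmt F g)) (pair (eW (lmt F g)) (pair (F ∩ eS (lmt F g)) (eW (lmt F g)))) := by
  simp only [lmt, eS, eW, fs_pair, sn_pair]

theorem PK1_not_succ {ξ : Ordinal.{0}} (h : ¬ ∃ η, ξ = η + 1) :
    ¬ ∃ u ∈ ξ.toZFSet, ξ.toZFSet = insert u u := by
  rintro ⟨u, hu, h1⟩
  obtain ⟨η, _, rfl⟩ := Ordinal.mem_toZFSet_iff.1 hu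
  rw [← Ordinal.toZFSet_add_one] at h1
  exact h ⟨η, Ordinal.toZFSet_injective h1⟩

theorem PK1_eh_lmt {ξ : Ordinal.{0}} (h : ¬ ∃ η, ξ = η + 1) :
    Eh F ξ.toZFSet = lmt F (gr (Eh F) ξ.toZFSet) := by
  rw [PK1_Eh_eq, if_neg (PK1_not_succ h)]

theorem eh_zero : Eh F (0 : Ordinal.{0}).toZFSet = pair ∅ (pair ∅ (pair ∅ ∅)) := by
  rw [PK1_eh_lmt (by
    rintro ⟨η, h⟩
    exact (Order.succ_ne_bot η) (by rw [← Order.succ_eq_add_one] at h; exact h.symm)), PK1_lmt_form]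
  have h1 : eS (lmt F (gr (Eh F) (0 : Ordinal.{0}).toZFSet)) = ∅ := by
    rw [ZFSet.eq_empty]
    intro x hx
    rw [PK1_mem_lmtS] at hx
    obtain ⟨u, hu, _⟩ := hx
    rw [Ordinal.toZFSet_zero] at hu
    exact ZFSet.notMem_empty _ hu
  have h2 : eW (lmt F (gr (Eh F) (0 : Ordinal.{0}).toZFSet)) = ∅ := by
    rw [ZFSet.eq_empty]
    intro x hx
    rw [PK1_mem_lmtW] at hx
    obtain ⟨u, hu, _⟩ := hx
    rw [Ordinal.toZFSet_zero] at hu
    exact ZFSet.notMem_empty _ hu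
  have h3 : F ∩ (∅ : ZFSet.{0}) = ∅ := by
    rw [ZFSet.eq_empty]
    intro x hx
    exact ZFSet.notMem_empty _ (ZFSet.mem_inter.1 hx).2
  rw [h1, h2, h3]

theorem eh_succ (ξ : Ordinal.{0}) : Eh F (ξ + 1).toZFSet = nxt (Eh F ξ.toZFSet) := by
  have h0 : (ξ + 1).toZFSet = insert ξ.toZFSet ξ.toZFSet := Ordinal.toZFSet_add_one ξ
  rw [PK1_Eh_eq, if_pos ⟨ξ.toZFSet, by rw [h0]; exact ZFSet.mem_insert _ _, h0⟩]
  congr 1
  have h1 : ZFSet.sUnion (ξ + 1).toZFSet = ξ.toZFSet := by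
    ext x
    rw [ZFSet.mem_sUnion, h0]
    constructor
    · rintro ⟨w, hw, hx⟩
      rcases ZFSet.mem_insert_iff.1 hw with rfl | hw
      · exact hx
      · exact (ZFSet.isOrdinal_toZFSet ξ).isTransitive.mem_trans hx hw
    · intro hx
      exact ⟨_, ZFSet.mem_insert _ _, hx⟩
  ext x
  rw [ZFSet.mem_sUnion, h1]
  constructor
  · rintro ⟨w, hw, hx⟩
    obtain ⟨p, hp, rfl⟩ := mem_im.1 hw
    rw [ZFSet.mem_sep] at hp
    obtain ⟨u, hu, rfl⟩ := mem_gr.1 hp.1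
    rw [fs_pair] at hp
    rw [sn_pair, hp.2] at hx
    exact hx
  · intro hx
    refine ⟨_, mem_im.2 ⟨pair ξ.toZFSet (Eh F ξ.toZFSet), ZFSet.mem_sep.2 ⟨mem_gr.2 ⟨_, ?_, rfl⟩, fs_pair _ _⟩, rfl⟩, ?_⟩
    · rw [h0]
      exact ZFSet.mem_insert _ _
    · rwa [sn_pair]

theorem PK1_limit_not_succ {ξ : Ordinal.{0}} (h : IsSuccLimit ξ) : ¬ ∃ η, ξ = η + 1 := by
  rintro ⟨η, rfl⟩
  rw [← Order.succ_eq_add_one] at h
  exact h.isSuccPrelimit.succ_ne η rfl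

/-- The extra sets of the level. -/
theorem eh_limit {ξ : Ordinal.{0}} (h : IsSuccLimit ξ) :
    Eh F ξ.toZFSet = pair (KS F ξ) (pair (KW F ξ) (pair (F ∩ KS F ξ) (KW F ξ))) := by
  unfold KS KW
  rw [PK1_eh_lmt (PK1_limit_not_succ h)]
  exact PK1_lmt_form F _

theorem ks_zero : KS F 0 = ∅ := by
  rw [KS, eh_zero, eS, fs_pair]

theorem PK1_kw_zero : KW F 0 = ∅ := by
  rw [KW, eh_zero, eW, sn_pair, fs_pair]

theorem ks_limit {ξ : Ordinal.{0}} (h : IsSuccLimit ξ) {x : ZFSet.{0}} :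
    x ∈ KS F ξ ↔ ∃ η < ξ, x ∈ KS F η := by
  unfold KS
  rw [PK1_eh_lmt (PK1_limit_not_succ h), PK1_mem_lmtS]
  constructor
  · rintro ⟨u, hu, hx⟩
    obtain ⟨η, hη, rfl⟩ := Ordinal.mem_toZFSet_iff.1 hu
    exact ⟨η, hη, hx⟩
  · rintro ⟨η, hη, hx⟩
    exact ⟨_, Ordinal.toZFSet_mem_toZFSet_iff.2 hη, hx⟩

theorem kw_limit {ξ : Ordinal.{0}} (h : IsSuccLimit ξ) {x : ZFSet.{0}} :
    x ∈ KW F ξ ↔ ∃ η < ξ, x ∈ KW F η := by
  unfold KW
  rw [PK1_eh_lmt (PK1_limit_not_succ h), PK1_mem_lmtW]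
  constructor
  · rintro ⟨u, hu, hx⟩
    obtain ⟨η, hη, rfl⟩ := Ordinal.mem_toZFSet_iff.1 hu
    exact ⟨η, hη, hx⟩
  · rintro ⟨η, hη, hx⟩
    exact ⟨_, Ordinal.toZFSet_mem_toZFSet_iff.2 hη, hx⟩

/-! ### One step -/

theorem PK1_mem_stg1 {X W P R y : ZFSet.{0}} {k : ℕ} : y ∈ (stg X W P R k).1 ↔
    y ∈ X ∨ ∃ i < k, ∃ a ∈ insert X X, ∃ b ∈ insert X X, y = opK X P R i a b := by
  induction k with
  | zero => simp [stg]
  | succ k ih =>
    rw [stg, stY, ZFSet.mem_union, ih, mem_im]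
    constructor
    · rintro ((h | ⟨i, hi, h⟩) | ⟨p, hp, rfl⟩)
      · exact Or.inl h
      · exact Or.inr ⟨i, by omega, h⟩
      · obtain ⟨a, ha, b, hb, rfl⟩ := ZFSet.mem_prod.1 hp
        exact Or.inr ⟨k, by omega, a, ha, b, hb, by rw [fs_pair, sn_pair]⟩
    · rintro (h | ⟨i, hi, a, ha, b, hb, h⟩)
      · exact Or.inl (Or.inl h)
      · rcases Nat.lt_succ_iff_lt_or_eq.1 hi with h2 | rfl
        · exact Or.inl (Or.inr ⟨i, h2, a, ha, b, hb, h⟩)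
        · exact Or.inr ⟨pair a b, ZFSet.pair_mem_prod.2 ⟨ha, hb⟩, by rw [h, fs_pair, sn_pair]⟩

theorem PK1_stg2_sub {X W P R : ZFSet.{0}} (hW : W ⊆ ZFSet.prod X X) (k : ℕ) :
    (stg X W P R k).2 ⊆ ZFSet.prod (stg X W P R k).1 (stg X W P R k).1 := by
  cases k with
  | zero => exact hW
  | succ k =>
    intro p hp
    rw [stg, stV, ZFSet.mem_sep] at hp
    exact hp.1

theorem PK1_mem_ks_succ {ξ : Ordinal.{0}} {y : ZFSet.{0}} : y ∈ KS F (ξ + 1) ↔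
    y ∈ KS F ξ ∨ ∃ i < 12, ∃ a ∈ insert (KS F ξ) (KS F ξ), ∃ b ∈ insert (KS F ξ) (KS F ξ),
      y = opK (KS F ξ) (eP (Eh F ξ.toZFSet)) (eR (Eh F ξ.toZFSet)) i a b := by
  rw [KS, eh_succ, nxt, PK1_eS, PK1_mem_stg1]
  rfl

theorem PK1_kw_succ_sub {ξ : Ordinal.{0}} (h : KW F ξ ⊆ ZFSet.prod (KS F ξ) (KS F ξ)) :
    KW F (ξ + 1) ⊆ ZFSet.prod (KS F (ξ + 1)) (KS F (ξ + 1)) := by
  unfold KS KW
  rw [eh_succ, nxt, PK1_eS, PK1_eW]
  exact PK1_stg2_sub h 12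

theorem PK1_sub_succ {ξ : Ordinal.{0}} : KS F ξ ⊆ KS F (ξ + 1) :=
  fun _ h => PK1_mem_ks_succ.2 (Or.inl h)

theorem PK1_op_mem {ξ : Ordinal.{0}} {i : ℕ} (hi : i < 10) {a b : ZFSet.{0}}
    (ha : a ∈ insert (KS F ξ) (KS F ξ)) (hb : b ∈ insert (KS F ξ) (KS F ξ)) :
    ZFSet.sep (fun u => GR ∅ i u a b) (KS F ξ) ∈ KS F (ξ + 1) :=
  PK1_mem_ks_succ.2 (Or.inr ⟨i, by omega, a, ha, b, hb, by rw [opK, if_pos hi]⟩)

theorem PK1_self_mem {ξ : Ordinal.{0}} : KS F ξ ∈ KS F (ξ + 1) := by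
  have h := PK1_op_mem (F := F) (ξ := ξ) (i := 0) (by omega) (ZFSet.mem_insert _ _) (ZFSet.mem_insert _ _)
  have h1 : ZFSet.sep (fun u => GR ∅ 0 u (KS F ξ) (KS F ξ)) (KS F ξ) = KS F ξ := by
    ext u
    rw [ZFSet.mem_sep]
    exact ⟨fun h => h.1, fun h => ⟨h, h⟩⟩
  rwa [h1] at h

theorem ks_mono {ξ η : Ordinal.{0}} (h : ξ ≤ η) : KS F ξ ⊆ KS F η := by
  induction η using Ordinal.limitRecOn with
  | zero =>
    rw [nonpos_iff_eq_zero.1 h]
  | add_one η ih =>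
    rw [← Order.succ_eq_add_one] at h
    rcases Order.le_succ_iff_eq_or_le.1 h with rfl | h
    · exact fun _ h => h
    · exact fun x hx => PK1_sub_succ (ih h hx)
  | limit η hη ih =>
    rcases eq_or_lt_of_le h with rfl | h
    · exact fun _ h => h
    · exact fun x hx => (ks_limit hη).2 ⟨ξ, h, hx⟩

theorem ks_mem {ξ η : Ordinal.{0}} (h : ξ < η) : KS F ξ ∈ KS F η :=
  ks_mono (by rw [← Order.succ_eq_add_one]; exact Order.succ_le_of_lt h) PK1_self_mem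

theorem PK1_upair {ξ : Ordinal.{0}} {x y : ZFSet.{0}} (hx : x ∈ KS F ξ) (hy : y ∈ KS F ξ) :
    ({x, y} : ZFSet.{0}) ∈ KS F (ξ + 1) := by
  have h := PK1_op_mem (F := F) (ξ := ξ) (i := 1) (by omega) (ZFSet.mem_insert_of_mem _ hx)
    (ZFSet.mem_insert_of_mem _ hy)
  have h1 : ZFSet.sep (fun u => GR ∅ 1 u x y) (KS F ξ) = {x, y} := by
    ext u
    rw [ZFSet.mem_sep, ZFSet.mem_pair]
    constructor
    · exact fun h => h.2
    · rintro (rfl | rfl)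
      · exact ⟨hx, Or.inl rfl⟩
      · exact ⟨hy, Or.inr rfl⟩
  rwa [h1] at h

theorem PK1_pair {ξ : Ordinal.{0}} {x y : ZFSet.{0}} (hx : x ∈ KS F ξ) (hy : y ∈ KS F ξ) :
    pair x y ∈ KS F (ξ + 1 + 1) := by
  have h1 := PK1_upair hx hx
  rw [ZFSet.pair_eq_singleton] at h1
  exact PK1_upair h1 (PK1_upair hx hy)

theorem PK1_kw_sub (ξ : Ordinal.{0}) : KW F ξ ⊆ ZFSet.prod (KS F ξ) (KS F ξ) := by
  induction ξ using Ordinal.limitRecOn with
  | zero =>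
    rw [PK1_kw_zero]
    exact fun x hx => absurd hx (ZFSet.notMem_empty _)
  | add_one ξ ih =>
    exact PK1_kw_succ_sub ih
  | limit ξ hξ ih =>
    intro p hp
    obtain ⟨η, hη, hp⟩ := (kw_limit hξ).1 hp
    obtain ⟨a, ha, b, hb, rfl⟩ := ZFSet.mem_prod.1 (ih η hη hp)
    exact ZFSet.pair_mem_prod.2 ⟨ks_mono hη.le ha, ks_mono hη.le hb⟩

theorem PK1_limit_succ {ξ η : Ordinal.{0}} (h : IsSuccLimit ξ) (hη : η < ξ) : η + 1 < ξ := by
  rw [← Order.succ_eq_add_one]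
  exact h.succ_lt hη

theorem PK1_kw_sub_ks {ξ : Ordinal.{0}} (h : IsSuccLimit ξ) : KW F ξ ⊆ KS F ξ := by
  intro p hp
  obtain ⟨η, hη, hp⟩ := (kw_limit h).1 hp
  obtain ⟨a, ha, b, hb, rfl⟩ := ZFSet.mem_prod.1 (PK1_kw_sub η hp)
  exact (ks_limit h).2 ⟨_, PK1_limit_succ h (PK1_limit_succ h hη), PK1_pair ha hb⟩

theorem PK1_ePR (ξ : Ordinal.{0}) : eP (Eh F ξ.toZFSet) ⊆ KS F ξ ∧ eR (Eh F ξ.toZFSet) ⊆ KS F ξ := by
  have hemp : ∀ x : ZFSet.{0}, (∅ : ZFSet.{0}) ⊆ x := fun x y hy => absurd hy (ZFSet.notMem_empty _)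
  rcases Ordinal.zero_or_succ_or_isSuccLimit ξ with rfl | ⟨η, rfl⟩ | h
  · rw [eh_zero, PK1_eP, PK1_eR]
    exact ⟨hemp _, hemp _⟩
  · rw [Order.succ_eq_add_one, eh_succ, nxt, PK1_eP, PK1_eR]
    exact ⟨hemp _, hemp _⟩
  · rw [eh_limit h, PK1_eP, PK1_eR]
    exact ⟨fun x hx => (ZFSet.mem_inter.1 hx).2, PK1_kw_sub_ks h⟩

theorem ks_succ_sub {ξ : Ordinal.{0}} : ∀ x ∈ KS F (ξ + 1), x ∈ KS F ξ ∨ x ⊆ KS F ξ := by
  intro x hx
  rcases PK1_mem_ks_succ.1 hx with h | ⟨i, _, a, _, b, _, rfl⟩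
  · exact Or.inl h
  · right
    unfold opK
    split_ifs
    · exact fun u hu => (ZFSet.mem_sep.1 hu).1
    · exact (PK1_ePR ξ).1
    · exact (PK1_ePR ξ).2

theorem ks_trans (ξ : Ordinal.{0}) : ∀ x ∈ KS F ξ, ∀ y ∈ x, y ∈ KS F ξ := by
  induction ξ using Ordinal.limitRecOn with
  | zero =>
    rw [ks_zero]
    exact fun x hx => absurd hx (ZFSet.notMem_empty _)
  | add_one ξ ih =>
    intro x hx y hy
    rcases ks_succ_sub x hx with h | h
    · exact PK1_sub_succ (ih x h y hy)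
    · exact PK1_sub_succ (h hy)
  | limit ξ hξ ih =>
    intro x hx y hy
    obtain ⟨η, hη, hx⟩ := (ks_limit hξ).1 hx
    exact (ks_limit hξ).2 ⟨η, hη, ih η hη x hx y hy⟩

theorem fks_mem {ξ : Ordinal.{0}} (h : IsSuccLimit ξ) : F ∩ KS F ξ ∈ KS F (ξ + 1) := by
  refine PK1_mem_ks_succ.2 (Or.inr ⟨10, by omega, KS F ξ, ZFSet.mem_insert _ _, KS F ξ,
    ZFSet.mem_insert _ _, ?_⟩)
  rw [opK, if_neg (by omega), if_pos rfl, eh_limit h, eP, sn_pair, sn_pair, fs_pair]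

theorem kw_mem_succ {ξ : Ordinal.{0}} (h : IsSuccLimit ξ) : KW F ξ ∈ KS F (ξ + 1) := by
  refine PK1_mem_ks_succ.2 (Or.inr ⟨11, by omega, KS F ξ, ZFSet.mem_insert _ _, KS F ξ,
    ZFSet.mem_insert _ _, ?_⟩)
  rw [opK, if_neg (by omega), if_neg (by omega), eh_limit h, eR, sn_pair, sn_pair, sn_pair]

theorem PK1_of_pair {ξ : Ordinal.{0}} {x y : ZFSet.{0}} (h : pair x y ∈ KS F ξ) :
    x ∈ KS F ξ ∧ y ∈ KS F ξ := by
  have h1 : ({x, y} : ZFSet.{0}) ∈ KS F ξ := ks_trans _ _ h _ (by simp [pair])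
  exact ⟨ks_trans _ _ h1 _ (by simp), ks_trans _ _ h1 _ (by simp)⟩

theorem PK1_GR_bound {ξ : Ordinal.{0}} {a b u : ZFSet.{0}} (ha : a ∈ KS F ξ) (hb : b ∈ KS F ξ) :
    ∀ i < 10, GR ∅ i u a b → u ∈ KS F (ξ + 1 + 1 + 1 + 1) := by
  intro i hi h
  have tr : ∀ {x y : ZFSet.{0}}, x ∈ y → y ∈ KS F ξ → x ∈ KS F ξ := fun hx hy =>
    ks_trans _ _ hy _ hx
  have up2 : ∀ {η : Ordinal.{0}} {x : ZFSet.{0}}, x ∈ KS F η → x ∈ KS F (η + 1 + 1) := fun hx =>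
    PK1_sub_succ (PK1_sub_succ hx)
  have up : ∀ {x : ZFSet.{0}}, x ∈ KS F ξ → x ∈ KS F (ξ + 1 + 1 + 1 + 1) := fun hx => up2 (up2 hx)
  match i, hi, h with
  | 0, _, h => exact up (tr h ha)
  | 1, _, h =>
    rcases h with rfl | rfl
    · exact up ha
    · exact up hb
  | 2, _, h =>
    obtain ⟨x, hx, h⟩ := h
    exact up (tr h (tr hx ha))
  | 3, _, h => exact up (tr h.1 ha)
  | 4, _, h =>
    obtain ⟨x, hx, y, hy, rfl⟩ := h
    exact up2 (PK1_pair (tr hx ha) (tr hy hb))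
  | 5, _, h =>
    obtain ⟨p, hp, x, y, rfl, rfl⟩ := h
    exact up (PK1_of_pair (tr hp ha)).2
  | 6, _, h =>
    obtain ⟨p, hp, x, y, rfl, rfl⟩ := h
    exact up (PK1_of_pair (tr hp ha)).1
  | 7, _, h =>
    obtain ⟨x, hx, y, hy, c, d, rfl, rfl, rfl⟩ := h
    exact PK1_pair (up2 (tr hx ha)) (PK1_pair (tr hx ha) (tr hy hb))
  | 8, _, h =>
    obtain ⟨z, hz, p, hp, x, y, rfl, c, d, rfl, rfl, rfl⟩ := h
    have h1 := PK1_of_pair (tr hp hb)
    exact PK1_pair (up2 h1.1) (PK1_pair (tr hz ha) h1.2)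
  | 9, _, h =>
    obtain ⟨p, hp, q, hq, x, y, rfl, rfl, -⟩ := h
    exact up (PK1_of_pair (tr hp ha)).2

theorem ks_gd {ξ : Ordinal.{0}} (h : IsSuccLimit ξ) : Gd ∅ {x | x ∈ KS F ξ} := by
  refine ⟨ks_trans ξ, ?_, ?_⟩
  · exact ⟨KS F 0, ks_mem h.bot_lt⟩
  · rintro i hi a ha b hb
    obtain ⟨η, hη, ha⟩ := (ks_limit h).1 ha
    obtain ⟨ζ, hζ, hb⟩ := (ks_limit h).1 hb
    set δ := max η ζ with hδ
    have hδξ : δ < ξ := max_lt hη hζ
    have ha' : a ∈ KS F δ := ks_mono (le_max_left _ _) ha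
    have hb' : b ∈ KS F δ := ks_mono (le_max_right _ _) hb
    have hup : ∀ {x}, x ∈ KS F δ → x ∈ KS F (δ + 1 + 1 + 1 + 1) := fun hx =>
      PK1_sub_succ (PK1_sub_succ (PK1_sub_succ (PK1_sub_succ hx)))
    refine ⟨ZFSet.sep (fun u => GR ∅ i u a b) (KS F (δ + 1 + 1 + 1 + 1)), ?_, fun u => ?_⟩
    · refine (ks_limit h).2 ⟨δ + 1 + 1 + 1 + 1 + 1, ?_, ?_⟩
      · exact PK1_limit_succ h (PK1_limit_succ h (PK1_limit_succ h (PK1_limit_succ h
          (PK1_limit_succ h hδξ))))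
      · exact PK1_op_mem hi (ZFSet.mem_insert_of_mem _ (hup ha')) (ZFSet.mem_insert_of_mem _ (hup hb'))
    · rw [ZFSet.mem_sep]
      exact ⟨fun h => h.2, fun h => ⟨PK1_GR_bound ha' hb' i hi h, h⟩⟩

theorem PK1_rank (ξ : Ordinal.{0}) : ∀ x ∈ KS F ξ, x.rank < ξ := by
  induction ξ using Ordinal.limitRecOn with
  | zero =>
    rw [ks_zero]
    exact fun x hx => absurd hx (ZFSet.notMem_empty _)
  | add_one ξ ih =>
    intro x hx
    rw [← Order.succ_eq_add_one, Order.lt_succ_iff]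
    rcases ks_succ_sub x hx with h | h
    · exact (ih x h).le
    · rw [ZFSet.rank_le_iff]
      exact fun y hy => ih y (h hy)
  | limit ξ hξ ih =>
    intro x hx
    obtain ⟨η, hη, hx⟩ := (ks_limit hξ).1 hx
    exact (ih η hη x hx).trans hη

theorem ks_ord_le {ξ α : Ordinal.{0}} (h : α.toZFSet ∈ KS F ξ) : α < ξ := by
  have := PK1_rank ξ _ h
  rwa [Ordinal.rank_toZFSet] at this

set_option linter.unusedVariables false in
theorem ks_rank {ξ : Ordinal.{0}} (h : IsSuccLimit ξ) : ∀ x ∈ KS F ξ, x.rank < ξ := PK1_rank ξ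

theorem PK1_ord (α : Ordinal.{0}) : ∀ ξ : Ordinal.{0}, IsSuccLimit ξ → α < ξ → α.toZFSet ∈ KS F ξ := by
  induction α using Ordinal.limitRecOn with
  | zero =>
    intro ξ hξ _
    rw [Ordinal.toZFSet_zero]
    exact (ks_gd hξ).empty_mem
  | add_one α ih =>
    rw [← Order.succ_eq_add_one]
    intro ξ hξ h
    have h1 := ih ξ hξ ((Order.lt_succ α).trans h)
    have hG := ks_gd (F := F) hξ
    have h2 := hG.upair_mem h1 (hG.single_mem h1)
    have h3 := hG.sUnion_mem h2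
    have h4 : ZFSet.sUnion ({α.toZFSet, {α.toZFSet}} : ZFSet.{0}) = (Order.succ α).toZFSet := by
      rw [Order.succ_eq_add_one, Ordinal.toZFSet_add_one]
      ext x
      rw [ZFSet.mem_sUnion, ZFSet.mem_insert_iff]
      constructor
      · rintro ⟨w, hw, hx⟩
        rcases ZFSet.mem_pair.1 hw with rfl | rfl
        · exact Or.inr hx
        · exact Or.inl (ZFSet.mem_singleton.1 hx)
      · rintro (rfl | hx)
        · exact ⟨_, ZFSet.mem_pair.2 (Or.inr rfl), ZFSet.mem_singleton.2 rfl⟩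
        · exact ⟨_, ZFSet.mem_pair.2 (Or.inl rfl), hx⟩
    rw [h4] at h3
    exact h3
  | limit α hα ih =>
    intro ξ hξ h
    have h1 : ZFSet.sep (fun z => z.IsOrdinal) (KS F α) = α.toZFSet := by
      ext z
      rw [ZFSet.mem_sep, Ordinal.mem_toZFSet_iff]
      constructor
      · rintro ⟨h2, h3⟩
        refine ⟨z.rank, PK1_rank α z h2, h3.toZFSet_rank_eq⟩
      · rintro ⟨β, hβ, rfl⟩
        exact ⟨ih β hβ α hα hβ, ZFSet.isOrdinal_toZFSet β⟩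
    have h5 := (ks_gd (F := F) hξ).sepD (X := KS F α) (ks_mem h) (Q := fun z => z.IsOrdinal)
      ((D0.isOrdinal (D0v.proj 0)).dfn (ks_trans α))
    rwa [h1] at h5

theorem ks_ord {ξ : Ordinal.{0}} (h : IsSuccLimit ξ) {α : Ordinal.{0}} :
    α.toZFSet ∈ KS F ξ ↔ α < ξ := ⟨ks_ord_le, PK1_ord α ξ h⟩

/-! ### Cardinality -/

theorem PK1_card_succ {ξ : Ordinal.{0}} {κ : Cardinal.{0}} (hκ : ℵ₀ ≤ κ) (h : (KS F ξ).card ≤ κ) :
    (KS F (ξ + 1)).card ≤ κ := by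
  set I : ZFSet.{0} := insert (KS F ξ) (KS F ξ) with hI
  set f : Fin 12 × I × I → ZFSet.{0} := fun t =>
    opK (KS F ξ) (eP (Eh F ξ.toZFSet)) (eR (Eh F ξ.toZFSet)) t.1.1 t.2.1.1 t.2.2.1 with hf
  have h1 : KS F (ξ + 1) ⊆ KS F ξ ∪ ZFSet.range f := by
    intro y hy
    rw [ZFSet.mem_union, ZFSet.mem_range]
    rcases PK1_mem_ks_succ.1 hy with h1 | ⟨i, hi, a, ha, b, hb, h1⟩
    · exact Or.inl h1
    · exact Or.inr ⟨⟨⟨i, hi⟩, ⟨a, ha⟩, ⟨b, hb⟩⟩, h1.symm⟩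
  have hIc : I.card ≤ κ := by
    refine ZFSet.card_insert_le.trans ?_
    refine (add_le_add h (one_le_aleph0.trans hκ)).trans ?_
    rw [add_eq_self hκ]
  have h2 : (ZFSet.range f).card ≤ κ := by
    have h3 := ZFSet.lift_card_range_le (f := f)
    have h4 : #(Fin 12 × I × I) ≤ Cardinal.lift.{1, 0} κ := by
      have h5 : #I ≤ Cardinal.lift.{1, 0} κ := by
        rw [ZFSet.cardinalMk_coe_sort]
        exact lift_le.2 hIc
      have h6 : ℵ₀ ≤ Cardinal.lift.{1, 0} κ := by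
        rw [← lift_aleph0.{1, 0}]
        exact lift_le.2 hκ
      rw [mk_prod, mk_prod]
      simp only [lift_id, lift_id']
      have h7 : Cardinal.lift.{1, 0} #(Fin 12) ≤ Cardinal.lift.{1, 0} κ := by
        refine lift_le.2 (le_trans ?_ hκ)
        exact (lt_aleph0_of_finite _).le
      calc Cardinal.lift.{1, 0} #(Fin 12) * (#I * #I) ≤ Cardinal.lift.{1, 0} κ * (Cardinal.lift.{1, 0} κ * Cardinal.lift.{1, 0} κ) :=
            mul_le_mul' h7 (mul_le_mul' h5 h5)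
        _ = Cardinal.lift.{1, 0} κ := by rw [mul_eq_self h6, mul_eq_self h6]
    have h5 := h3.trans (by simpa using h4)
    exact lift_le.1 h5
  refine (ZFSet.card_mono h1).trans (ZFSet.card_union_le.trans ?_)
  refine (add_le_add h h2).trans ?_
  rw [add_eq_self hκ]

theorem PK1_card (ξ : Ordinal.{0}) : (KS F ξ).card ≤ max ℵ₀ ξ.card := by
  induction ξ using Ordinal.limitRecOn with
  | zero =>
    rw [ks_zero, ZFSet.card_empty]
    exact zero_le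
  | add_one ξ ih =>
    exact (PK1_card_succ (le_max_left _ _) ih).trans (max_le_max le_rfl
      (Ordinal.card_le_card (by rw [← Order.succ_eq_add_one]; exact Order.le_succ ξ)))
  | limit ξ hξ ih =>
    set κ := max ℵ₀ ξ.card with hκ
    set f : Set.Iio ξ → ZFSet.{0} := fun η => KS F η.1 with hf
    have h1 : KS F ξ ⊆ ZFSet.iUnion f := by
      intro x hx
      obtain ⟨η, hη, hx⟩ := (ks_limit hξ).1 hx
      rw [ZFSet.mem_iUnion]
      exact ⟨⟨η, hη⟩, hx⟩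
    refine (ZFSet.card_mono h1).trans ?_
    have h2 := ZFSet.lift_card_iUnion_le_sum_card (f := f)
    have h3 : Cardinal.sum (fun i => (f i).card) ≤ Cardinal.lift.{1, 0} κ := by
      refine (sum_le_sum _ (fun _ => κ) fun i => ?_).trans ?_
      · exact (ih i.1 i.2).trans (max_le_max le_rfl (Ordinal.card_le_card i.2.le))
      · rw [sum_const, mk_Iio_ordinal]
        have h6 : ℵ₀ ≤ Cardinal.lift.{1, 0} κ := by
          rw [← lift_aleph0.{1, 0}]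
          exact lift_le.2 (le_max_left _ _)
        have h7 : Cardinal.lift.{1, 0} ξ.card ≤ Cardinal.lift.{1, 0} κ := lift_le.2 (le_max_right _ _)
        simp only [lift_id']
        exact (mul_le_mul' h7 le_rfl).trans (by rw [mul_eq_self h6])
    exact lift_le.1 (h2.trans h3)

theorem ks_card {ξ : Ordinal.{0}} (h : IsSuccLimit ξ) : (KS F ξ).card = ξ.card := by
  apply le_antisymm
  · refine (PK1_card ξ).trans (max_le ?_ le_rfl)
    rw [Ordinal.aleph0_le_card]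
    exact Ordinal.omega0_le_of_isSuccLimit h
  · rw [← Ordinal.card_toZFSet]
    refine ZFSet.card_mono fun x hx => ?_
    obtain ⟨η, hη, rfl⟩ := Ordinal.mem_toZFSet_iff.1 hx
    exact (ks_ord h).2 hη

/-! ### Agreement -/

theorem PK1_agree {F' : ZFSet.{0}} {ξ : Ordinal.{0}}
    (h : ∀ ζ < ξ, Eh F ζ.toZFSet = Eh F' ζ.toZFSet) : KS F ξ = KS F' ξ ∧ KW F ξ = KW F' ξ := by
  rcases Ordinal.zero_or_succ_or_isSuccLimit ξ with rfl | ⟨η, rfl⟩ | hξ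
  · exact ⟨by rw [ks_zero, ks_zero], by rw [PK1_kw_zero, PK1_kw_zero]⟩
  · have h1 := h η (Order.lt_succ η)
    rw [Order.succ_eq_add_one]
    unfold KS KW
    rw [eh_succ, eh_succ, h1]
    exact ⟨rfl, rfl⟩
  · constructor
    · ext x
      rw [ks_limit hξ, ks_limit hξ]
      refine exists_congr fun η => and_congr_right fun hη => ?_
      rw [KS, KS, h η hη]
    · ext x
      rw [kw_limit hξ, kw_limit hξ]
      refine exists_congr fun η => and_congr_right fun hη => ?_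
      rw [KW, KW, h η hη]

/-- Agreement. -/
theorem ks_congr {F' : ZFSet.{0}} {ξ : Ordinal.{0}}
    (h : ∀ ζ < ξ, IsSuccLimit ζ → ∀ x ∈ KS F ζ, (x ∈ F ↔ x ∈ F')) :
    KS F ξ = KS F' ξ ∧ KW F ξ = KW F' ξ ∧ ∀ ζ < ξ, Eh F ζ.toZFSet = Eh F' ζ.toZFSet := by
  have key : ∀ ζ : Ordinal.{0}, ζ < ξ → Eh F ζ.toZFSet = Eh F' ζ.toZFSet := by
    intro ζ
    induction ζ using Ordinal.limitRecOn with
    | zero =>
      intro _
      rw [eh_zero, eh_zero]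
    | add_one ζ ih =>
      intro h1
      rw [← Order.succ_eq_add_one] at h1
      rw [eh_succ, eh_succ, ih ((Order.lt_succ ζ).trans h1)]
    | limit ζ hζ ih =>
      intro h1
      obtain ⟨h2, h3⟩ := PK1_agree fun η hη => ih η hη (hη.trans h1)
      rw [eh_limit hζ, eh_limit hζ, ← h2, ← h3]
      have h4 : F ∩ KS F ζ = F' ∩ KS F ζ := by
        ext x
        rw [ZFSet.mem_inter, ZFSet.mem_inter]
        exact and_congr_left fun hx => h ζ h1 hζ x hx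
      rw [h4]
  exact ⟨(PK1_agree key).1, (PK1_agree key).2, key⟩

/-! ### Absoluteness -/

section dfn

variable {M : Set ZFSet.{0}} {n : ℕ}

theorem PK1_d_opK (hM : IsZF M) (k : ℕ) {X P R a b : (Fin n → ZFSet.{0}) → ZFSet.{0}}
    (hX : DfnF M M X) (hP : DfnF M M P) (hR : DfnF M M R) (ha : DfnF M M a) (hb : DfnF M M b) :
    DfnF M M fun w => opK (X w) (P w) (R w) k (a w) (b w) := by
  unfold opK
  split_ifs
  · exact hM.sep' (Q := fun u w => GR ∅ k u (a w) (b w)) hX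
      (dfn_GR hM hM.empty_mem k (DfnF.proj 0) ha.tail hb.tail)
  · exact hP
  · exact hR

theorem PK1_d_ltX (hM : IsZF M) {X W a b : (Fin n → ZFSet.{0}) → ZFSet.{0}}
    (hX : DfnF M M X) (hW : DfnF M M W) (ha : DfnF M M a) (hb : DfnF M M b) :
    Dfn M M fun w => ltX (X w) (W w) (a w) (b w) :=
  Dfn.or (Dfn.mem (hM.base.pair' ha hb) hW) (Dfn.and (Dfn.mem ha hX) (Dfn.eq hb hX))

theorem PK1_d_lexX (hM : IsZF M) {X W a b a' b' : (Fin n → ZFSet.{0}) → ZFSet.{0}}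
    (hX : DfnF M M X) (hW : DfnF M M W) (ha : DfnF M M a) (hb : DfnF M M b)
    (ha' : DfnF M M a') (hb' : DfnF M M b') :
    Dfn M M fun w => lexX (X w) (W w) (a w) (b w) (a' w) (b' w) :=
  Dfn.or (PK1_d_ltX hM hX hW ha ha') (Dfn.and (Dfn.eq ha ha') (PK1_d_ltX hM hX hW hb hb'))

theorem PK1_d_stY (hM : IsZF M) (k : ℕ) {X P R Y : (Fin n → ZFSet.{0}) → ZFSet.{0}}
    (hX : DfnF M M X) (hP : DfnF M M P) (hR : DfnF M M R) (hY : DfnF M M Y) :
    DfnF M M fun w => stY (X w) (P w) (R w) (Y w) k := by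
  have hI : DfnF M M fun w => (insert (X w) (X w) : ZFSet.{0}) := hM.base.insert' hX hX
  exact hM.base.union' hY (hM.im' (h := fun p w => opK (X w) (P w) (R w) k (fs p) (sn p))
    (hM.prod' hI hI) (PK1_d_opK hM k hX.tail hP.tail hR.tail (hM.fs' (DfnF.proj 0))
      (hM.sn' (DfnF.proj 0))))

/-- The condition in the order of a stage. -/
def PK1_Q (X W P R Y V : ZFSet.{0}) (k : ℕ) (z z' : ZFSet.{0}) : Prop :=
  pair z z' ∈ V ∨ (z ∈ Y ∧ z' ∉ Y) ∨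
    (z ∉ Y ∧ z' ∉ Y ∧ ∃ a ∈ insert X X, ∃ b ∈ insert X X, z = opK X P R k a b ∧
      ∀ a' ∈ insert X X, ∀ b' ∈ insert X X, z' = opK X P R k a' b' → lexX X W a b a' b')

theorem PK1_d_Q (hM : IsZF M) (k : ℕ) {X W P R Y V z z' : (Fin n → ZFSet.{0}) → ZFSet.{0}}
    (hX : DfnF M M X) (hW : DfnF M M W) (hP : DfnF M M P) (hR : DfnF M M R) (hY : DfnF M M Y)
    (hV : DfnF M M V) (hz : DfnF M M z) (hz' : DfnF M M z') :
    Dfn M M fun w => PK1_Q (X w) (W w) (P w) (R w) (Y w) (V w) k (z w) (z' w) := by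
  have hB := hM.base
  have hI : DfnF M M fun w => (insert (X w) (X w) : ZFSet.{0}) := hB.insert' hX hX
  refine Dfn.or (Dfn.mem (hB.pair' hz hz') hV) (Dfn.or (Dfn.and (Dfn.mem hz hY)
    (Dfn.mem hz' hY).not) (Dfn.and (Dfn.mem hz hY).not (Dfn.and (Dfn.mem hz' hY).not ?_)))
  refine hB.bex (Q := fun a w => ∃ b ∈ insert (X w) (X w), z w = opK (X w) (P w) (R w) k a b ∧
      ∀ a' ∈ insert (X w) (X w), ∀ b' ∈ insert (X w) (X w),
        z' w = opK (X w) (P w) (R w) k a' b' → lexX (X w) (W w) a b a' b') hI ?_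
  refine hB.bex (Q := fun b w => z (Fin.tail w) = opK (X (Fin.tail w)) (P (Fin.tail w))
      (R (Fin.tail w)) k (w 0) b ∧
      ∀ a' ∈ insert (X (Fin.tail w)) (X (Fin.tail w)),
      ∀ b' ∈ insert (X (Fin.tail w)) (X (Fin.tail w)),
        z' (Fin.tail w) = opK (X (Fin.tail w)) (P (Fin.tail w)) (R (Fin.tail w)) k a' b' →
          lexX (X (Fin.tail w)) (W (Fin.tail w)) (w 0) b a' b') hI.tail ?_
  refine Dfn.and (Dfn.eq hz.tail.tail (PK1_d_opK hM k hX.tail.tail hP.tail.tail hR.tail.tail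
    (DfnF.proj 0).tail (DfnF.proj 0))) ?_
  refine hB.ball (Q := fun a' w =>
      ∀ b' ∈ insert (X (Fin.tail (Fin.tail w))) (X (Fin.tail (Fin.tail w))),
        z' (Fin.tail (Fin.tail w)) = opK (X (Fin.tail (Fin.tail w))) (P (Fin.tail (Fin.tail w)))
          (R (Fin.tail (Fin.tail w))) k a' b' →
          lexX (X (Fin.tail (Fin.tail w))) (W (Fin.tail (Fin.tail w))) (Fin.tail w 0) (w 0) a' b')
      hI.tail.tail ?_
  refine hB.ball (Q := fun b' w =>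
        z' (Fin.tail (Fin.tail (Fin.tail w))) = opK (X (Fin.tail (Fin.tail (Fin.tail w))))
          (P (Fin.tail (Fin.tail (Fin.tail w))))
          (R (Fin.tail (Fin.tail (Fin.tail w)))) k (w 0) b' →
          lexX (X (Fin.tail (Fin.tail (Fin.tail w)))) (W (Fin.tail (Fin.tail (Fin.tail w))))
            (Fin.tail (Fin.tail w) 0) (Fin.tail w 0) (w 0) b')
      hI.tail.tail.tail ?_
  exact Dfn.imp (Dfn.eq hz'.tail.tail.tail.tail (PK1_d_opK hM k hX.tail.tail.tail.tail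
    hP.tail.tail.tail.tail hR.tail.tail.tail.tail (DfnF.proj 0).tail (DfnF.proj 0)))
    (PK1_d_lexX hM hX.tail.tail.tail.tail hW.tail.tail.tail.tail (DfnF.proj 0).tail.tail.tail
      (DfnF.proj 0).tail.tail (DfnF.proj 0).tail (DfnF.proj 0))

theorem PK1_d_stV (hM : IsZF M) (k : ℕ) {X W P R Y V : (Fin n → ZFSet.{0}) → ZFSet.{0}}
    (hX : DfnF M M X) (hW : DfnF M M W) (hP : DfnF M M P) (hR : DfnF M M R) (hY : DfnF M M Y)
    (hV : DfnF M M V) :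
    DfnF M M fun w => stV (X w) (W w) (P w) (R w) (Y w) (V w) k := by
  refine hM.sep' (Q := fun p w => ∃ z z', p = pair z z' ∧
    PK1_Q (X w) (W w) (P w) (R w) (Y w) (V w) k z z')
    (hM.prod' (PK1_d_stY hM k hX hP hR hY) (PK1_d_stY hM k hX hP hR hY)) ?_
  refine Dfn.congr (R := fun w => ∃ z ∈ M, ∃ z' ∈ M, w 0 = pair z z' ∧
    PK1_Q (X (Fin.tail w)) (W (Fin.tail w)) (P (Fin.tail w)) (R (Fin.tail w)) (Y (Fin.tail w))
      (V (Fin.tail w)) k z z') ?_ ?_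
  · refine Dfn.ex (Q := fun z w => ∃ z' ∈ M, w 0 = pair z z' ∧
      PK1_Q (X (Fin.tail w)) (W (Fin.tail w)) (P (Fin.tail w)) (R (Fin.tail w)) (Y (Fin.tail w))
      (V (Fin.tail w)) k z z') ?_
    refine Dfn.ex (Q := fun z' w => Fin.tail w 0 = pair (w 0) z' ∧
      PK1_Q (X (Fin.tail (Fin.tail w))) (W (Fin.tail (Fin.tail w))) (P (Fin.tail (Fin.tail w)))
        (R (Fin.tail (Fin.tail w))) (Y (Fin.tail (Fin.tail w)))
      (V (Fin.tail (Fin.tail w))) k (w 0) z') ?_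
    exact Dfn.and (Dfn.eq (DfnF.proj 0).tail.tail (hM.base.pair' (DfnF.proj 0).tail (DfnF.proj 0)))
      (PK1_d_Q hM k hX.tail.tail.tail hW.tail.tail.tail hP.tail.tail.tail hR.tail.tail.tail
        hY.tail.tail.tail hV.tail.tail.tail (DfnF.proj 0).tail (DfnF.proj 0))
  · intro w hw
    constructor
    · rintro ⟨z, _, z', _, h1, h2⟩
      exact ⟨z, z', h1, h2⟩
    · rintro ⟨z, z', h1, h2⟩
      have h3 := hw 0
      rw [h1] at h3
      exact ⟨z, (hM.of_pair_mem h3).1, z', (hM.of_pair_mem h3).2, h1, h2⟩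

theorem PK1_d_stg (hM : IsZF M) {X W P R : (Fin n → ZFSet.{0}) → ZFSet.{0}}
    (hX : DfnF M M X) (hW : DfnF M M W) (hP : DfnF M M P) (hR : DfnF M M R) (k : ℕ) :
    (DfnF M M fun w => (stg (X w) (W w) (P w) (R w) k).1) ∧
      DfnF M M fun w => (stg (X w) (W w) (P w) (R w) k).2 := by
  induction k with
  | zero => exact ⟨hX, hW⟩
  | succ k ih =>
    exact ⟨PK1_d_stY hM k hX hP hR ih.1, PK1_d_stV hM k hX hW hP hR ih.1 ih.2⟩

theorem PK1_d_nxt (hM : IsZF M) {e : (Fin n → ZFSet.{0}) → ZFSet.{0}} (he : DfnF M M e) :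
    DfnF M M fun w => nxt (e w) := by
  have h0 : DfnF M M fun _ : Fin n → ZFSet.{0} => (∅ : ZFSet.{0}) := DfnF.const hM.empty_mem
  have h1 := PK1_d_stg hM (X := fun w => eS (e w)) (W := fun w => eW (e w))
    (P := fun w => eP (e w)) (R := fun w => eR (e w)) (hM.fs' he) (hM.fs' (hM.sn' he))
    (hM.fs' (hM.sn' (hM.sn' he))) (hM.sn' (hM.sn' (hM.sn' he))) 12
  exact hM.base.pair' h1.1 (hM.base.pair' h1.2 (hM.base.pair' h0 h0))

theorem PK1_d_lmt (hM : IsZF M) (hF : F ∈ M) {g : (Fin n → ZFSet.{0}) → ZFSet.{0}}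
    (hg : DfnF M M g) : DfnF M M fun w => lmt F (g w) := by
  have hB := hM.base
  have h1 : DfnF M M fun w => ZFSet.sUnion (im (fun p => eS (sn p)) (g w)) :=
    hB.sUnion' (hM.im' (h := fun p _ => eS (sn p)) hg (hM.fs' (hM.sn' (DfnF.proj 0))))
  have h2 : DfnF M M fun w => ZFSet.sUnion (im (fun p => eW (sn p)) (g w)) :=
    hB.sUnion' (hM.im' (h := fun p _ => eW (sn p)) hg (hM.fs' (hM.sn' (hM.sn' (DfnF.proj 0)))))
  have h3 : DfnF M M fun w => F ∩ ZFSet.sUnion (im (fun p => eS (sn p)) (g w)) :=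
    hM.sep' (Q := fun u w => u ∈ ZFSet.sUnion (im (fun p => eS (sn p)) (g w))) (DfnF.const hF)
      (Dfn.mem (DfnF.proj 0) h1.tail)
  exact hB.pair' h1 (hB.pair' h2 (hB.pair' h3 h2))

theorem PK1_d_Eh (hM : IsZF M) (hF : F ∈ M) :
    DfnF M M fun w : Fin 1 → ZFSet.{0} => Eh F (w 0) := by
  classical
  have hB := hM.base
  refine hM.memrec (G := fun z g => if ∃ u ∈ z, z = insert u u then
      nxt (ZFSet.sUnion (im sn (ZFSet.sep (fun p => fs p = ZFSet.sUnion z) g)))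
    else lmt F g) ?_ (fun z => by rw [PK1_Eh_eq])
  refine DfnF.ite ?_ ?_ ?_
  · refine hB.bex (Q := fun u w => w 0 = insert u u) (DfnF.proj 0) ?_
    exact Dfn.eq (DfnF.proj 0).tail (hB.insert' (DfnF.proj 0) (DfnF.proj 0))
  · refine PK1_d_nxt hM (hB.sUnion' (hM.im' (h := fun p _ => sn p) ?_ (hM.sn' (DfnF.proj 0))))
    refine hM.sep' (Q := fun p w => fs p = ZFSet.sUnion (w 0)) (DfnF.proj 1) ?_
    exact Dfn.eq (hM.fs' (DfnF.proj 0)) (hB.sUnion' (DfnF.proj 0).tail)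
  · exact PK1_d_lmt hM hF (DfnF.proj 1)

end dfn

/-- Absoluteness. -/
theorem eh_mem_ZF {W : Set ZFSet.{0}} (hW : IsZF W) (hF : F ∈ W) {ξ : Ordinal.{0}}
    (hξ : ξ.toZFSet ∈ W) : Eh F ξ.toZFSet ∈ W ∧ KS F ξ ∈ W ∧ KW F ξ ∈ W := by
  have h : Eh F ξ.toZFSet ∈ W := (PK1_d_Eh hW hF).1 (fun _ => ξ.toZFSet) fun _ => hξ
  exact ⟨h, hW.fs_mem h, hW.fs_mem (hW.sn_mem h)⟩

end Pool.Agent.helper797_cs
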