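import Pool.Agent.helper797_cs.PK0b
import Pool.Agent.helper797_cs.PK1

/-!
# K3, part c: level sequences are recognized by a `Δ₀` relation
-/

set_option autoImplicit false
set_option linter.unreachableTactic false
set_option linter.unusedTactic false

namespace Pool.Agent.helper797_cs

open Pool.Agent.W868 Pool.Agent.R587
open ZFSet (pair)
open Cardinal Order

/-- `ζ` is a successor. -/
def pk3S (ζ : ZFSet.{0}) : Prop := ∃ u ∈ ζ, ζ = (insert u u : ZFSet.{0})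

/-- The clause of the recursion for successors. -/
def pk3RS (g ζ e : ZFSet.{0}) : Prop :=
  ∃ u ∈ ζ, ζ = (insert u u : ZFSet.{0}) ∧ ∃ p ∈ g, ∃ a e', p = pair a e' ∧ a = u ∧
    (Qd e' ∧ e = nxt e')

/-- The clause of the recursion for limits and zero, without the condition on `F`. -/
def pk3RL (g ζ e : ZFSet.{0}) : Prop :=
  ∃ y t, e = pair y t ∧ ∃ w s, t = pair w s ∧ ∃ q r, s = pair q r ∧ q ⊆ y ∧ r = w ∧
    (∀ x ∈ y, ∃ p ∈ g, ∃ a e', p = pair a e' ∧ a ∈ ζ ∧ ∃ y' t', e' = pair y' t' ∧ x ∈ y') ∧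
    (∀ p ∈ g, ∃ a e', p = pair a e' ∧ (a ∈ ζ → ∃ y' t', e' = pair y' t' ∧ y' ⊆ y)) ∧
    (∀ x ∈ w, ∃ p ∈ g, ∃ a e', p = pair a e' ∧ a ∈ ζ ∧ ∃ y' t', e' = pair y' t' ∧
      ∃ w' s', t' = pair w' s' ∧ x ∈ w') ∧
    (∀ p ∈ g, ∃ a e', p = pair a e' ∧ (a ∈ ζ → ∃ y' t', e' = pair y' t' ∧
      ∃ w' s', t' = pair w' s' ∧ w' ⊆ w))

/-- `g` is a level sequence with the last index `δ`, apart from the conditions on `F`. -/
def LS0 (g δ : ZFSet.{0}) : Prop :=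
  δ.IsOrdinal ∧ (∀ ζ ∈ (insert δ δ : ZFSet.{0}), ∃ p ∈ g, ∃ a e, p = pair a e ∧ a = ζ) ∧
  ∀ p ∈ g, ∃ ζ e, p = pair ζ e ∧ (ζ ∈ δ ∨ ζ = δ) ∧
    (pk3RS g ζ e ∨ (¬ pk3S ζ ∧ pk3RL g ζ e))

/-- The conditions on `F`. -/
def LSF (F g : ZFSet.{0}) : Prop :=
  ∀ p ∈ g, ∃ ζ e, p = pair ζ e ∧ (¬ pk3S ζ → ∃ y t, e = pair y t ∧ ∃ w s, t = pair w s ∧
    ∃ q r, s = pair q r ∧ ∀ x ∈ y, (x ∈ q ↔ x ∈ F))

section

variable {n : ℕ} {E G D F Z : (Fin n → ZFSet.{0}) → ZFSet.{0}}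

theorem pk3_dz_S (hZ : D0v Z) : Dz fun v => pk3S (Z v) := by
  unfold pk3S
  (repeat' first | assumption | exact D0v.proj _ | exact D0v.tail (by assumption) | exact D0v.tail (D0v.tail (by assumption)) | apply Dz.not | apply Dz.and | apply Dz.expair | apply Dz.or | apply Dz.isPair | apply Dz.pairMem | apply Dz.bexI | apply Dz.ballI | apply Dz.bex | apply Dz.ball | apply Dz.imp | apply Dz.iff | apply Dz.subset | apply Dz.isSucc | apply Dz.empty | apply Dz.eq | apply Dz.mem | apply Dz.isOrdinal)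

theorem pk3_dz_RS (hG : D0v G) (hZ : D0v Z) (hE : D0v E) :
    Dz fun v => pk3RS (G v) (Z v) (E v) := by
  unfold pk3RS
  apply Dz.bex hZ
  refine Dz.and (Dz.isSucc hZ.tail (D0v.proj 0)) ?_
  apply Dz.bex hG.tail
  apply Dz.expair (D0v.proj 0)
  refine Dz.and (Dz.eq (D0v.proj 1) (D0v.proj 3)) ?_
  exact pk3_dz_nxt (D0v.proj 0) hE.tail.tail.tail.tail

theorem pk3_dz_RL (hG : D0v G) (hZ : D0v Z) (hE : D0v E) :
    Dz fun v => pk3RL (G v) (Z v) (E v) := by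
  refine Dz.comp3 (Q := pk3RL) ?_ hG hZ hE
  unfold pk3RL
  (repeat' first | assumption | exact D0v.proj _ | exact D0v.tail (by assumption) | exact D0v.tail (D0v.tail (by assumption)) | apply Dz.not | apply Dz.and | apply Dz.expair | apply Dz.or | apply Dz.isPair | apply Dz.pairMem | apply Dz.bexI | apply Dz.ballI | apply Dz.bex | apply Dz.ball | apply Dz.imp | apply Dz.iff | apply Dz.subset | apply Dz.isSucc | apply Dz.empty | apply Dz.eq | apply Dz.mem | apply Dz.isOrdinal)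

theorem pk3_dz_LS0 (hG : D0v G) (hD : D0v D) : Dz fun v => LS0 (G v) (D v) := by
  refine Dz.comp2 (Q := LS0) ?_ hG hD
  unfold LS0
  refine Dz.and (Dz.isOrdinal (D0v.proj _)) (Dz.and ?_ ?_)
  · (repeat' first | assumption | exact D0v.proj _ | exact D0v.tail (by assumption) | exact D0v.tail (D0v.tail (by assumption)) | apply Dz.not | apply Dz.and | apply Dz.expair | apply Dz.or | apply Dz.isPair | apply Dz.pairMem | apply Dz.bexI | apply Dz.ballI | apply Dz.bex | apply Dz.ball | apply Dz.imp | apply Dz.iff | apply Dz.subset | apply Dz.isSucc | apply Dz.empty | apply Dz.eq | apply Dz.mem | apply Dz.isOrdinal)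
  · apply Dz.ball (D0v.proj 0)
    apply Dz.expair (D0v.proj 0)
    refine Dz.and ?_ (Dz.or ?_ (Dz.and ?_ ?_))
    · (repeat' first | assumption | exact D0v.proj _ | exact D0v.tail (by assumption) | exact D0v.tail (D0v.tail (by assumption)) | apply Dz.not | apply Dz.and | apply Dz.expair | apply Dz.or | apply Dz.isPair | apply Dz.pairMem | apply Dz.bexI | apply Dz.ballI | apply Dz.bex | apply Dz.ball | apply Dz.imp | apply Dz.iff | apply Dz.subset | apply Dz.isSucc | apply Dz.empty | apply Dz.eq | apply Dz.mem | apply Dz.isOrdinal)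
    · exact pk3_dz_RS (D0v.proj 3) (D0v.proj 1) (D0v.proj 0)
    · exact (pk3_dz_S (D0v.proj 1)).not
    · exact pk3_dz_RL (D0v.proj 3) (D0v.proj 1) (D0v.proj 0)

theorem pk3_dz_LSF (hF : D0v F) (hG : D0v G) : Dz fun v => LSF (F v) (G v) := by
  refine Dz.comp2 (Q := LSF) ?_ hF hG
  unfold LSF pk3S
  (repeat' first | assumption | exact D0v.proj _ | exact D0v.tail (by assumption) | exact D0v.tail (D0v.tail (by assumption)) | apply Dz.not | apply Dz.and | apply Dz.expair | apply Dz.or | apply Dz.isPair | apply Dz.pairMem | apply Dz.bexI | apply Dz.ballI | apply Dz.bex | apply Dz.ball | apply Dz.imp | apply Dz.iff | apply Dz.subset | apply Dz.isSucc | apply Dz.empty | apply Dz.eq | apply Dz.mem | apply Dz.isOrdinal)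

end

/-! ### Facts on the hierarchy -/

variable {F : ZFSet.{0}}

theorem pk3_succ_iff {ζ : Ordinal.{0}} : pk3S ζ.toZFSet ↔ ∃ η, ζ = η + 1 := by
  constructor
  · rintro ⟨u, hu, h⟩
    obtain ⟨η, -, rfl⟩ := Ordinal.mem_toZFSet_iff.1 hu
    rw [← Ordinal.toZFSet_add_one] at h
    exact ⟨η, Ordinal.toZFSet_injective h⟩
  · rintro ⟨η, rfl⟩
    rw [Ordinal.toZFSet_add_one]
    exact ⟨_, ZFSet.mem_insert _ _, rfl⟩

theorem pk3_not_succ {ζ : Ordinal.{0}} (h : ¬ pk3S ζ.toZFSet) : ζ = 0 ∨ IsSuccLimit ζ := by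
  rcases Ordinal.zero_or_succ_or_isSuccLimit ζ with h1 | ⟨η, h1⟩ | h1
  · exact Or.inl h1
  · exact absurd (pk3_succ_iff.2 ⟨η, h1.symm⟩) h
  · exact Or.inr h1

theorem pk3_limit_not_succ {ζ : Ordinal.{0}} (h : IsSuccLimit ζ) : ¬ pk3S ζ.toZFSet := by
  rw [pk3_succ_iff]
  rintro ⟨η, rfl⟩
  exact Order.not_isSuccLimit_succ _ h

theorem pk3_zero_not_succ : ¬ pk3S (0 : Ordinal.{0}).toZFSet := by
  rw [pk3_succ_iff]
  rintro ⟨η, h⟩
  have h1 : η < η + 1 := Order.lt_add_one_iff.2 le_rfl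
  rw [← h] at h1
  exact absurd h1 not_lt_bot

theorem pk3_kw_zero : KW F 0 = ∅ := by
  rw [KW, eh_zero, pk3_eW]

/-- Every value of the hierarchy is a quadruple. -/
theorem pk3_eh (ζ : Ordinal.{0}) : ∃ q r, Eh F ζ.toZFSet = pair (KS F ζ) (pair (KW F ζ) (pair q r)) := by
  rcases Ordinal.zero_or_succ_or_isSuccLimit ζ with rfl | ⟨η, rfl⟩ | h
  · rw [eh_zero, ks_zero, pk3_kw_zero]
    exact ⟨_, _, rfl⟩
  · refine ⟨∅, ∅, ?_⟩
    have h1 : Eh F (Order.succ η).toZFSet = nxt (Eh F η.toZFSet) := eh_succ η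
    rw [KS, KW, h1, nxt, pk3_eS, pk3_eW]
  · rw [eh_limit h]
    exact ⟨_, _, rfl⟩

/-- The clause for limits and zero. -/
theorem pk3_eh' {ζ : Ordinal.{0}} (h : ¬ pk3S ζ.toZFSet) :
    Eh F ζ.toZFSet = pair (KS F ζ) (pair (KW F ζ) (pair (F ∩ KS F ζ) (KW F ζ))) := by
  rcases pk3_not_succ h with rfl | h
  · rw [eh_zero, ks_zero, pk3_kw_zero]
    have h1 : F ∩ ∅ = (∅ : ZFSet.{0}) := by
      rw [ZFSet.eq_empty]
      intro y hy
      exact ZFSet.notMem_empty _ (ZFSet.mem_inter.1 hy).2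
    rw [h1]
  · exact eh_limit h

theorem pk3_ks_lim {ζ : Ordinal.{0}} (h : ¬ pk3S ζ.toZFSet) {x : ZFSet.{0}} :
    x ∈ KS F ζ ↔ ∃ η < ζ, x ∈ KS F η := by
  rcases pk3_not_succ h with rfl | h
  · rw [ks_zero]
    constructor
    · intro hx
      exact absurd hx (ZFSet.notMem_empty _)
    · rintro ⟨η, hη, -⟩
      exact absurd hη (not_lt_bot)
  · exact ks_limit h

theorem pk3_kw_lim {ζ : Ordinal.{0}} (h : ¬ pk3S ζ.toZFSet) {x : ZFSet.{0}} :
    x ∈ KW F ζ ↔ ∃ η < ζ, x ∈ KW F η := by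
  rcases pk3_not_succ h with rfl | h
  · rw [pk3_kw_zero]
    constructor
    · intro hx
      exact absurd hx (ZFSet.notMem_empty _)
    · rintro ⟨η, hη, -⟩
      exact absurd hη (not_lt_bot)
  · exact kw_limit h

theorem pk3_mem_sq {η : Ordinal.{0}} {p : ZFSet.{0}} :
    p ∈ sq F η ↔ ∃ ζ ≤ η, p = pair ζ.toZFSet (Eh F ζ.toZFSet) := by
  rw [sq, mem_gr]
  constructor
  · rintro ⟨u, hu, rfl⟩
    rw [← Ordinal.toZFSet_add_one] at hu
    obtain ⟨ζ, hζ, rfl⟩ := Ordinal.mem_toZFSet_iff.1 hu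
    exact ⟨ζ, Order.lt_add_one_iff.1 hζ, rfl⟩
  · rintro ⟨ζ, hζ, rfl⟩
    refine ⟨_, ?_, rfl⟩
    rw [← Ordinal.toZFSet_add_one]
    exact Ordinal.mem_toZFSet_iff.2 ⟨ζ, Order.lt_add_one_iff.2 hζ, rfl⟩

/-- The level sequences satisfy the relation. -/
theorem pk3_LS_sq (η : Ordinal.{0}) : LS0 (sq F η) η.toZFSet ∧ LSF F (sq F η) := by
  have hmem : ∀ ζ ≤ η, pair ζ.toZFSet (Eh F ζ.toZFSet) ∈ sq F η := fun ζ hζ =>
    pk3_mem_sq.2 ⟨ζ, hζ, rfl⟩
  have hS : ∀ ζ : Ordinal.{0}, ∃ t, Eh F ζ.toZFSet = pair (KS F ζ) t := fun ζ => by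
    obtain ⟨q, r, h⟩ := pk3_eh (F := F) ζ
    exact ⟨_, h⟩
  refine ⟨⟨ZFSet.isOrdinal_toZFSet _, ?_, ?_⟩, ?_⟩
  · intro ζ hζ
    rw [← Ordinal.toZFSet_add_one] at hζ
    obtain ⟨ζ', hζ', rfl⟩ := Ordinal.mem_toZFSet_iff.1 hζ
    exact ⟨_, hmem ζ' (Order.lt_add_one_iff.1 hζ'), _, _, rfl, rfl⟩
  · intro p hp
    obtain ⟨ζ, hζ, rfl⟩ := pk3_mem_sq.1 hp
    refine ⟨_, _, rfl, ?_, ?_⟩
    · rcases hζ.lt_or_eq with h | rfl
      · exact Or.inl (Ordinal.toZFSet_mem_toZFSet_iff.2 h)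
      · exact Or.inr rfl
    · by_cases hs : pk3S ζ.toZFSet
      · left
        obtain ⟨ζ', rfl⟩ := pk3_succ_iff.1 hs
        have h1 : ζ' < ζ' + 1 := Order.lt_add_one_iff.2 le_rfl
        refine ⟨ζ'.toZFSet, Ordinal.toZFSet_mem_toZFSet_iff.2 h1, Ordinal.toZFSet_add_one _,
          _, hmem ζ' (h1.le.trans hζ), _, _, rfl, rfl, ?_, eh_succ _⟩
        obtain ⟨q, r, h⟩ := pk3_eh (F := F) ζ'
        exact ⟨_, _, _, _, h⟩
      · right
        refine ⟨hs, ?_⟩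
        refine ⟨_, _, pk3_eh' hs, _, _, rfl, _, _, rfl, fun x hx => (ZFSet.mem_inter.1 hx).2,
          rfl, ?_, ?_, ?_, ?_⟩
        · intro x hx
          obtain ⟨ζ', h1, h2⟩ := (pk3_ks_lim hs).1 hx
          obtain ⟨t, ht⟩ := hS ζ'
          exact ⟨_, hmem ζ' (h1.le.trans hζ), _, _, rfl, Ordinal.toZFSet_mem_toZFSet_iff.2 h1,
            _, _, ht, h2⟩
        · intro p hp
          obtain ⟨ζ', -, rfl⟩ := pk3_mem_sq.1 hp
          refine ⟨_, _, rfl, fun h1 => ?_⟩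
          obtain ⟨t, ht⟩ := hS ζ'
          exact ⟨_, _, ht, ks_mono (Ordinal.toZFSet_mem_toZFSet_iff.1 h1).le⟩
        · intro x hx
          obtain ⟨ζ', h1, h2⟩ := (pk3_kw_lim hs).1 hx
          obtain ⟨q, r, h⟩ := pk3_eh (F := F) ζ'
          exact ⟨_, hmem ζ' (h1.le.trans hζ), _, _, rfl, Ordinal.toZFSet_mem_toZFSet_iff.2 h1,
            _, _, h, _, _, rfl, h2⟩
        · intro p hp
          obtain ⟨ζ', -, rfl⟩ := pk3_mem_sq.1 hp
          refine ⟨_, _, rfl, fun h1 => ?_⟩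
          obtain ⟨q, r, h⟩ := pk3_eh (F := F) ζ'
          exact ⟨_, _, h, _, _, rfl, fun x hx =>
            (pk3_kw_lim hs).2 ⟨ζ', Ordinal.toZFSet_mem_toZFSet_iff.1 h1, hx⟩⟩
  · intro p hp
    obtain ⟨ζ, hζ, rfl⟩ := pk3_mem_sq.1 hp
    refine ⟨_, _, rfl, fun hs => ?_⟩
    refine ⟨_, _, pk3_eh' hs, _, _, rfl, _, _, rfl, fun x hx => ?_⟩
    rw [ZFSet.mem_inter]
    exact ⟨fun h => h.1, fun h => ⟨h, hx⟩⟩

/-- The relation determines the level sequence. -/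
theorem pk3_LS_unique {F g δ : ZFSet.{0}} (h : LS0 g δ) (hF : LSF F g) :
    g = sq F δ.rank ∧ δ = δ.rank.toZFSet := by
  obtain ⟨hδ, h1, h2⟩ := h
  have hδe : δ.rank.toZFSet = δ := hδ.toZFSet_rank_eq
  -- every pair is a value of the hierarchy
  have key : ∀ ζ : Ordinal.{0}, ∀ e, pair ζ.toZFSet e ∈ g → e = Eh F ζ.toZFSet := by
    intro ζ
    induction ζ using WellFoundedLT.induction with
    | _ ζ ih =>
    intro e he
    obtain ⟨ζ', e', h3, h4, h5⟩ := h2 _ he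
    obtain ⟨rfl, rfl⟩ := ZFSet.pair_inj.1 h3
    have hdom : ∀ η < ζ, pair η.toZFSet (Eh F η.toZFSet) ∈ g := by
      intro η hη
      have h6 : η.toZFSet ∈ (insert δ δ : ZFSet.{0}) := by
        have h7 : η.toZFSet ∈ ζ.toZFSet := Ordinal.toZFSet_mem_toZFSet_iff.2 hη
        rcases h4 with h4 | h4
        · exact ZFSet.mem_insert_of_mem _ (hδ.mem_trans h7 h4)
        · exact ZFSet.mem_insert_of_mem _ (h4 ▸ h7)
      obtain ⟨p, hp, a, e', rfl, rfl⟩ := h1 _ h6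
      rwa [ih η hη e' hp] at hp
    rcases h5 with ⟨u, hu, h5, p, hp, a, e', rfl, rfl, -, h6⟩ | ⟨hs, h5⟩
    · obtain ⟨η, hη, rfl⟩ := Ordinal.mem_toZFSet_iff.1 hu
      rw [ih η hη e' hp] at h6
      rw [← Ordinal.toZFSet_add_one] at h5
      have h7 : ζ = η + 1 := Ordinal.toZFSet_injective h5
      rw [h6, h7, eh_succ]
    · obtain ⟨y, t, rfl, w, s, rfl, q, r, rfl, hq, rfl, h6, h7, h8, h9⟩ := h5
      have hS : ∀ η : Ordinal.{0}, ∃ t, Eh F η.toZFSet = pair (KS F η) t := fun η => by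
        obtain ⟨q, r, h⟩ := pk3_eh (F := F) η
        exact ⟨_, h⟩
      have hy : y = KS F ζ := by
        ext x
        rw [pk3_ks_lim hs]
        constructor
        · intro hx
          obtain ⟨p, hp, a, e', rfl, ha, y', t', rfl, hx'⟩ := h6 x hx
          obtain ⟨η, hη, rfl⟩ := Ordinal.mem_toZFSet_iff.1 ha
          have h10 := ih η hη _ hp
          obtain ⟨t, ht⟩ := hS η
          rw [ht] at h10
          obtain ⟨rfl, -⟩ := ZFSet.pair_inj.1 h10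
          exact ⟨η, hη, hx'⟩
        · rintro ⟨η, hη, hx⟩
          obtain ⟨a, e', h10, h11⟩ := h7 _ (hdom η hη)
          obtain ⟨rfl, rfl⟩ := ZFSet.pair_inj.1 h10
          obtain ⟨y', t', h12, h13⟩ := h11 (Ordinal.toZFSet_mem_toZFSet_iff.2 hη)
          obtain ⟨t, ht⟩ := hS η
          rw [ht] at h12
          obtain ⟨rfl, -⟩ := ZFSet.pair_inj.1 h12
          exact h13 hx
      have hw : r = KW F ζ := by
        ext x
        rw [pk3_kw_lim hs]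
        constructor
        · intro hx
          obtain ⟨p, hp, a, e', rfl, ha, y', t', rfl, w', s', rfl, hx'⟩ := h8 x hx
          obtain ⟨η, hη, rfl⟩ := Ordinal.mem_toZFSet_iff.1 ha
          have h10 := ih η hη _ hp
          obtain ⟨q', r', hqr⟩ := pk3_eh (F := F) η
          rw [hqr] at h10
          obtain ⟨-, h10⟩ := ZFSet.pair_inj.1 h10
          obtain ⟨rfl, -⟩ := ZFSet.pair_inj.1 h10
          exact ⟨η, hη, hx'⟩
        · rintro ⟨η, hη, hx⟩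
          obtain ⟨a, e', h10, h11⟩ := h9 _ (hdom η hη)
          obtain ⟨rfl, rfl⟩ := ZFSet.pair_inj.1 h10
          obtain ⟨y', t', h12, w', s', rfl, h13⟩ := h11 (Ordinal.toZFSet_mem_toZFSet_iff.2 hη)
          obtain ⟨q', r', hqr⟩ := pk3_eh (F := F) η
          rw [hqr] at h12
          obtain ⟨-, h12⟩ := ZFSet.pair_inj.1 h12
          obtain ⟨rfl, -⟩ := ZFSet.pair_inj.1 h12
          exact h13 hx
      have hq' : q = F ∩ KS F ζ := by
        obtain ⟨ζ'', e'', h10, h11⟩ := hF _ he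
        obtain ⟨rfl, rfl⟩ := ZFSet.pair_inj.1 h10
        obtain ⟨y', t', h12, w', s', rfl, q', r', rfl, h13⟩ := h11 hs
        obtain ⟨hy1, h14⟩ := ZFSet.pair_inj.1 h12
        obtain ⟨hw1, h15⟩ := ZFSet.pair_inj.1 h14
        obtain ⟨hq1, hr1⟩ := ZFSet.pair_inj.1 h15
        rw [← hy1, ← hq1] at h13
        rw [← hy]
        ext x
        rw [ZFSet.mem_inter]
        exact ⟨fun hx => ⟨(h13 x (hq hx)).1 hx, hq hx⟩, fun hx => (h13 x hx.2).2 hx.1⟩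
      rw [pk3_eh' hs, hy, hw, hq']
  refine ⟨?_, hδe.symm⟩
  ext p
  rw [pk3_mem_sq]
  constructor
  · intro hp
    obtain ⟨ζ, e, rfl, h3, -⟩ := h2 p hp
    have h4 : ∃ η ≤ δ.rank, η.toZFSet = ζ := by
      rcases h3 with h3 | rfl
      · rw [← hδe] at h3
        obtain ⟨η, hη, h4⟩ := Ordinal.mem_toZFSet_iff.1 h3
        exact ⟨η, hη.le, h4⟩
      · exact ⟨_, le_rfl, hδe⟩
    obtain ⟨η, hη, rfl⟩ := h4
    exact ⟨η, hη, by rw [key η e hp]⟩
  · rintro ⟨ζ, hζ, rfl⟩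
    have h3 : ζ.toZFSet ∈ (insert δ δ : ZFSet.{0}) := by
      rw [← hδe]
      rcases hζ.lt_or_eq with h | rfl
      · exact ZFSet.mem_insert_of_mem _ (Ordinal.toZFSet_mem_toZFSet_iff.2 h)
      · exact ZFSet.mem_insert _ _
    obtain ⟨p, hp, a, e, rfl, rfl⟩ := h1 _ h3
    rwa [key ζ e hp] at hp

/-- Level sequences. -/
theorem pk3_LS_iff {F g δ : ZFSet.{0}} :
    LS0 g δ ∧ LSF F g ↔ ∃ η : Ordinal.{0}, δ = η.toZFSet ∧ g = sq F η := by
  constructor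
  · rintro ⟨h, hF⟩
    obtain ⟨h1, h2⟩ := pk3_LS_unique h hF
    exact ⟨_, h2, h1⟩
  · rintro ⟨η, rfl, rfl⟩
    exact pk3_LS_sq η

end Pool.Agent.helper797_cs
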