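import Pool.Agent.helper797_cs.PK1

/-! # K2: the canonical well-orders -/

set_option autoImplicit false
namespace Pool.Agent.helper797_cs
open Pool.Agent.W868 Pool.Agent.R587
open ZFSet (pair)
open Cardinal Order

variable {F : ZFSet.{0}}

/-- The set of pairs `W` is the well-order of `X` given by the rank function `rk`. -/
def PK2_wo (X W : ZFSet.{0}) (rk : ZFSet.{0} → Ordinal.{1}) : Prop :=
  (∀ p ∈ W, ∃ x y, p = pair x y) ∧ (∀ x y, pair x y ∈ W ↔ x ∈ X ∧ y ∈ X ∧ rk x < rk y) ∧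
  ∀ x ∈ X, ∀ y ∈ X, rk x = rk y → x = y

theorem PK2_bdd (rk : ZFSet.{0} → Ordinal.{1}) : ∃ B : Ordinal.{1}, ∀ x, rk x < B := by
  obtain ⟨B, hB⟩ := Ordinal.bddAbove_of_small (s := Set.range rk)
  exact ⟨B + 1, fun x => Order.lt_add_one_iff.2 (hB ⟨x, rfl⟩)⟩

theorem PK2_lex {C x x' y y' : Ordinal.{1}} (hy : y < C) (hy' : y' < C) :
    C * x + y < C * x' + y' ↔ x < x' ∨ (x = x' ∧ y < y') := by
  have key : ∀ {x x' y y' : Ordinal.{1}}, y < C → x < x' → C * x + y < C * x' + y' := by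
    intro x x' y y' hy h
    calc C * x + y < C * x + C := by gcongr
      _ = C * (x + 1) := by rw [mul_add, mul_one]
      _ ≤ C * x' := by
        gcongr
        exact Order.add_one_le_iff.2 h
      _ ≤ C * x' + y' := le_self_add
  constructor
  · intro h
    rcases lt_trichotomy x x' with h1 | h1 | h1
    · exact Or.inl h1
    · subst h1
      exact Or.inr ⟨rfl, by simpa using h⟩
    · exact absurd h (key hy' h1).not_gt
  · rintro (h | ⟨rfl, h⟩)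
    · exact key hy h
    · simpa using h

theorem PK2_mem_stY {X P R Y : ZFSet.{0}} {k : ℕ} {z : ZFSet.{0}} : z ∈ stY X P R Y k ↔
    z ∈ Y ∨ ∃ a ∈ (insert X X : ZFSet.{0}), ∃ b ∈ (insert X X : ZFSet.{0}), z = opK X P R k a b := by
  rw [stY, ZFSet.mem_union, mem_im]
  refine or_congr Iff.rfl ?_
  constructor
  · rintro ⟨p, hp, rfl⟩
    obtain ⟨a, ha, b, hb, rfl⟩ := ZFSet.mem_prod.1 hp
    exact ⟨a, ha, b, hb, by rw [fs_pair, sn_pair]⟩
  · rintro ⟨a, ha, b, hb, rfl⟩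
    exact ⟨pair a b, ZFSet.pair_mem_prod.2 ⟨ha, hb⟩, by rw [fs_pair, sn_pair]⟩

theorem PK2_mem_stV {X W P R Y V : ZFSet.{0}} {k : ℕ} {z z' : ZFSet.{0}} :
    pair z z' ∈ stV X W P R Y V k ↔ z ∈ stY X P R Y k ∧ z' ∈ stY X P R Y k ∧
    (pair z z' ∈ V ∨ (z ∈ Y ∧ z' ∉ Y) ∨
    (z ∉ Y ∧ z' ∉ Y ∧ ∃ a ∈ (insert X X : ZFSet.{0}), ∃ b ∈ (insert X X : ZFSet.{0}),
      z = opK X P R k a b ∧
      ∀ a' ∈ (insert X X : ZFSet.{0}), ∀ b' ∈ (insert X X : ZFSet.{0}),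
        z' = opK X P R k a' b' → lexX X W a b a' b')) := by
  rw [stV, ZFSet.mem_sep, ZFSet.pair_mem_prod, and_assoc]
  refine and_congr Iff.rfl (and_congr Iff.rfl ?_)
  constructor
  · rintro ⟨u, u', h, h1⟩
    obtain ⟨rfl, rfl⟩ := ZFSet.pair_inj.1 h
    exact h1
  · intro h
    exact ⟨z, z', rfl, h⟩

open Classical in
/-- One stage. -/
theorem PK2_stage {X W P R Y V : ZFSet.{0}} {rk rv : ZFSet.{0} → Ordinal.{1}}
    (h : PK2_wo X W rk) (hV : PK2_wo Y V rv) (k : ℕ) :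
    ∃ rn, PK2_wo (stY X P R Y k) (stV X W P R Y V k) rn ∧ (∀ x ∈ Y, rn x = rv x) ∧
      ∀ x ∈ Y, ∀ y, y ∉ Y → rn x < rn y := by
  obtain ⟨B, hB⟩ := PK2_bdd rk
  obtain ⟨B', hB'⟩ := PK2_bdd rv
  obtain ⟨r1, hr1⟩ : ∃ r1 : ZFSet.{0} → Ordinal.{1}, r1 = fun x => if x = X then B else rk x :=
    ⟨_, rfl⟩
  have hXX : X ∉ X := ZFSet.mem_irrefl X
  have hr1X : r1 X = B := by rw [hr1]; simp
  have hr1' : ∀ x ∈ X, r1 x = rk x := by
    intro x hx
    have : x ≠ X := by rintro rfl; exact hXX hx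
    rw [hr1]; simp [this]
  have hr1B : ∀ x, r1 x < B + 1 := by
    intro x
    rw [hr1]
    dsimp only
    split_ifs
    · exact Order.lt_add_one_iff.2 le_rfl
    · exact Order.lt_add_one_iff.2 (hB x).le
  have hlt : ∀ a ∈ (insert X X : ZFSet.{0}), ∀ b ∈ (insert X X : ZFSet.{0}),
      (ltX X W a b ↔ r1 a < r1 b) := by
    intro a ha b hb
    rw [ZFSet.mem_insert_iff] at ha hb
    unfold ltX
    rw [h.2.1]
    rcases ha with rfl | ha <;> rcases hb with rfl | hb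
    · simp [hXX]
    · rw [hr1X, hr1' b hb]
      have : b ≠ a := by rintro rfl; exact hXX hb
      simp [hXX, this, (hB b).le]
    · rw [hr1X, hr1' a ha]
      simp [ha, hB a]
    · rw [hr1' a ha, hr1' b hb]
      have : b ≠ X := by rintro rfl; exact hXX hb
      simp [ha, hb, this]
  have hinj1 : ∀ a ∈ (insert X X : ZFSet.{0}), ∀ b ∈ (insert X X : ZFSet.{0}),
      r1 a = r1 b → a = b := by
    intro a ha b hb hab
    rw [ZFSet.mem_insert_iff] at ha hb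
    rcases ha with rfl | ha <;> rcases hb with rfl | hb
    · rfl
    · rw [hr1X, hr1' b hb] at hab
      exact absurd hab (hB b).ne'
    · rw [hr1X, hr1' a ha] at hab
      exact absurd hab (hB a).ne
    · rw [hr1' a ha, hr1' b hb] at hab
      exact h.2.2 a ha b hb hab
  obtain ⟨cd, hcd⟩ : ∃ cd : ZFSet.{0} → ZFSet.{0} → Ordinal.{1},
      cd = fun a b => (B + 1) * r1 a + r1 b := ⟨_, rfl⟩
  have hlex : ∀ a ∈ (insert X X : ZFSet.{0}), ∀ b ∈ (insert X X : ZFSet.{0}),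
      ∀ a' ∈ (insert X X : ZFSet.{0}), ∀ b' ∈ (insert X X : ZFSet.{0}),
      (lexX X W a b a' b' ↔ cd a b < cd a' b') := by
    intro a ha b hb a' ha' b' hb'
    rw [hcd]
    dsimp only
    rw [PK2_lex (hr1B b) (hr1B b')]
    unfold lexX
    rw [hlt a ha a' ha', hlt b hb b' hb']
    refine or_congr Iff.rfl (and_congr_left fun _ => ?_)
    exact ⟨fun h => by rw [h], hinj1 a ha a' ha'⟩
  have hcinj : ∀ a ∈ (insert X X : ZFSet.{0}), ∀ b ∈ (insert X X : ZFSet.{0}),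
      ∀ a' ∈ (insert X X : ZFSet.{0}), ∀ b' ∈ (insert X X : ZFSet.{0}),
      cd a b = cd a' b' → a = a' ∧ b = b' := by
    intro a ha b hb a' ha' b' hb' hc
    have h1 := (hlex a ha b hb a' ha' b' hb').not.2 (by rw [hc]; exact lt_irrefl _)
    have h2 := (hlex a' ha' b' hb' a ha b hb).not.2 (by rw [hc]; exact lt_irrefl _)
    unfold lexX at h1 h2
    push Not at h1 h2
    rw [hlt a ha a' ha'] at h1
    rw [hlt a' ha' a ha] at h2
    have h3 : a = a' := hinj1 a ha a' ha' (le_antisymm (not_lt.1 h2.1) (not_lt.1 h1.1))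
    have h4 := h1.2 h3
    have h5 := h2.2 h3.symm
    rw [hlt b hb b' hb'] at h4
    rw [hlt b' hb' b hb] at h5
    exact ⟨h3, hinj1 b hb b' hb' (le_antisymm (not_lt.1 h5) (not_lt.1 h4))⟩
  obtain ⟨S, hS⟩ : ∃ S : ZFSet.{0} → Set Ordinal.{1}, S = fun z => {c | ∃ a ∈ (insert X X : ZFSet.{0}),
      ∃ b ∈ (insert X X : ZFSet.{0}), z = opK X P R k a b ∧ c = cd a b} := ⟨_, rfl⟩
  have hSn : ∀ z ∈ stY X P R Y k, z ∉ Y → (S z).Nonempty := by
    intro z hz hz'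
    rcases PK2_mem_stY.1 hz with h1 | ⟨a, ha, b, hb, h1⟩
    · exact absurd h1 hz'
    · rw [hS]
      exact ⟨_, a, ha, b, hb, h1, rfl⟩
  obtain ⟨rn, hrn⟩ : ∃ rn : ZFSet.{0} → Ordinal.{1},
      rn = fun z => if z ∈ Y then rv z else B' + sInf (S z) := ⟨_, rfl⟩
  have hrnY : ∀ z ∈ Y, rn z = rv z := by
    intro z hz
    rw [hrn]; simp [hz]
  have hrnN : ∀ z, z ∉ Y → rn z = B' + sInf (S z) := by
    intro z hz
    rw [hrn]; simp [hz]
  have hnew : ∀ x ∈ Y, ∀ y, y ∉ Y → rn x < rn y := by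
    intro x hx y hy
    rw [hrnY x hx, hrnN y hy]
    exact (hB' x).trans_le le_self_add
  refine ⟨rn, ⟨?_, ?_, ?_⟩, hrnY, hnew⟩
  · intro p hp
    rw [stV, ZFSet.mem_sep] at hp
    obtain ⟨-, z, z', rfl, -⟩ := hp
    exact ⟨z, z', rfl⟩
  · intro z z'
    rw [PK2_mem_stV]
    refine and_congr_right fun hz => and_congr_right fun hz' => ?_
    rw [hV.2.1]
    by_cases h1 : z ∈ Y <;> by_cases h2 : z' ∈ Y
    · rw [hrnY z h1, hrnY z' h2]
      simp [h1, h2]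
    · simp [h1, h2, hnew z h1 z' h2]
    · have := hnew z' h2 z h1
      simp [h1, h2, this.le]
    · rw [hrnN z h1, hrnN z' h2, add_lt_add_iff_left]
      simp only [h1, h2, false_and, not_false_eq_true, true_and, false_or]
      have e1 := hSn z hz h1
      have e2 := hSn z' hz' h2
      have m1 := csInf_mem e1
      have m2 := csInf_mem e2
      constructor
      · rintro ⟨a, ha, b, hb, hz0, hall⟩
        have h3 : sInf (S z) ≤ cd a b := csInf_le' (by rw [hS]; exact ⟨a, ha, b, hb, hz0, rfl⟩)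
        rw [hS] at m2
        obtain ⟨a', ha', b', hb', hz1, hc⟩ := m2
        rw [← hS] at hc
        rw [hc]
        exact h3.trans_lt ((hlex a ha b hb a' ha' b' hb').1 (hall a' ha' b' hb' hz1))
      · intro hlt'
        rw [hS] at m1
        obtain ⟨a, ha, b, hb, hz0, hc⟩ := m1
        rw [← hS] at hc
        refine ⟨a, ha, b, hb, hz0, ?_⟩
        intro a' ha' b' hb' hz1
        rw [hlex a ha b hb a' ha' b' hb', ← hc]
        refine hlt'.trans_le (csInf_le' ?_)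
        rw [hS]
        exact ⟨a', ha', b', hb', hz1, rfl⟩
  · intro z hz z' hz' he
    by_cases h1 : z ∈ Y <;> by_cases h2 : z' ∈ Y
    · rw [hrnY z h1, hrnY z' h2] at he
      exact hV.2.2 z h1 z' h2 he
    · exact absurd he (hnew z h1 z' h2).ne
    · exact absurd he (hnew z' h2 z h1).ne'
    · rw [hrnN z h1, hrnN z' h2] at he
      have he' := (add_right_inj B').1 he
      have m1 := csInf_mem (hSn z hz h1)
      have m2 := csInf_mem (hSn z' hz' h2)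
      rw [he', hS] at m1
      rw [hS] at m2
      obtain ⟨a, ha, b, hb, hz0, hc⟩ := m1
      obtain ⟨a', ha', b', hb', hz1, hc'⟩ := m2
      obtain ⟨rfl, rfl⟩ := hcinj a ha b hb a' ha' b' hb' (hc.symm.trans hc')
      rw [hz0, hz1]

/-- All stages. -/
theorem PK2_stg {X W P R : ZFSet.{0}} {rk : ZFSet.{0} → Ordinal.{1}} (h : PK2_wo X W rk) (k : ℕ) :
    ∃ rn, PK2_wo (stg X W P R k).1 (stg X W P R k).2 rn ∧ X ⊆ (stg X W P R k).1 ∧
      (∀ x ∈ X, rn x = rk x) ∧ ∀ x ∈ X, ∀ y ∈ (stg X W P R k).1, y ∉ X → rn x < rn y := by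
  induction k with
  | zero =>
    refine ⟨rk, h, fun x hx => hx, fun _ _ => rfl, ?_⟩
    intro x _ y hy hy'
    exact absurd hy hy'
  | succ k ih =>
    obtain ⟨rv, h1, h2, h3, h4⟩ := ih
    obtain ⟨rn, g1, g2, g3⟩ := PK2_stage (P := P) (R := R) h h1 k
    refine ⟨rn, g1, ?_, ?_, ?_⟩
    · intro x hx
      exact PK2_mem_stY.2 (Or.inl (h2 hx))
    · intro x hx
      rw [g2 x (h2 hx), h3 x hx]
    · intro x hx y hy hy'
      by_cases h5 : y ∈ (stg X W P R k).1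
      · rw [g2 x (h2 hx), g2 y h5]
        exact h4 x hx y h5 hy'
      · exact g3 x (h2 hx) y h5

/-- End extension. -/
def PK2_ee (X W X' W' : ZFSet.{0}) : Prop :=
  (∀ x y, y ∈ X → (pair x y ∈ W' ↔ pair x y ∈ W)) ∧
    ∀ x ∈ X, ∀ y ∈ X', y ∉ X → pair x y ∈ W'

theorem PK2_ee_refl {X W : ZFSet.{0}} : PK2_ee X W X W :=
  ⟨fun _ _ _ => Iff.rfl, fun _ _ _ hy hy' => absurd hy hy'⟩

theorem PK2_ee_trans {X W X' W' X'' W'' : ZFSet.{0}} (h : PK2_ee X W X' W')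
    (h' : PK2_ee X' W' X'' W'') (hs : X ⊆ X') : PK2_ee X W X'' W'' := by
  refine ⟨fun x y hy => (h'.1 x y (hs hy)).trans (h.1 x y hy), fun x hx y hy hy' => ?_⟩
  by_cases h1 : y ∈ X'
  · exact (h'.1 x y h1).2 (h.2 x hx y h1 hy')
  · exact h'.2 x (hs hx) y hy h1

theorem PK2_ks_succ (ξ : Ordinal.{0}) : KS F (ξ + 1) =
    (stg (KS F ξ) (KW F ξ) (eP (Eh F ξ.toZFSet)) (eR (Eh F ξ.toZFSet)) 12).1 := by
  rw [KS, eh_succ, nxt, eS, fs_pair]
  rfl

theorem PK2_kw_succ (ξ : Ordinal.{0}) : KW F (ξ + 1) =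
    (stg (KS F ξ) (KW F ξ) (eP (Eh F ξ.toZFSet)) (eR (Eh F ξ.toZFSet)) 12).2 := by
  rw [KW, eh_succ, nxt, eW, sn_pair, fs_pair]
  rfl

theorem PK2_main (ξ : Ordinal.{0}) : (∃ rk, PK2_wo (KS F ξ) (KW F ξ) rk) ∧
    ∀ η ≤ ξ, PK2_ee (KS F η) (KW F η) (KS F ξ) (KW F ξ) := by
  induction ξ using Ordinal.limitRecOn with
  | zero =>
    refine ⟨⟨fun _ => 0, ?_, ?_, ?_⟩, ?_⟩
    · intro p hp
      have : KW F 0 = ∅ := by rw [KW, eh_zero, eW, sn_pair, fs_pair]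
      rw [this] at hp
      exact absurd hp (ZFSet.notMem_empty _)
    · intro x y
      have : KW F 0 = ∅ := by rw [KW, eh_zero, eW, sn_pair, fs_pair]
      rw [this]
      simp
    · intro x hx
      rw [ks_zero] at hx
      exact absurd hx (ZFSet.notMem_empty _)
    · intro η hη
      obtain rfl : η = 0 := le_antisymm hη zero_le
      exact PK2_ee_refl
  | add_one ξ ih =>
    obtain ⟨⟨rk, h1⟩, h2⟩ := ih
    obtain ⟨rn, g1, g2, g3, g4⟩ := PK2_stg (P := eP (Eh F ξ.toZFSet)) (R := eR (Eh F ξ.toZFSet)) h1 12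
    rw [← PK2_ks_succ, ← PK2_kw_succ] at g1
    rw [← PK2_ks_succ] at g2 g4
    have h3 : PK2_ee (KS F ξ) (KW F ξ) (KS F (ξ + 1)) (KW F (ξ + 1)) := by
      refine ⟨fun x y hy => ?_, fun x hx y hy hy' => ?_⟩
      · rw [g1.2.1, h1.2.1]
        constructor
        · rintro ⟨hx, -, hlt⟩
          have hx' : x ∈ KS F ξ := by
            by_contra hx'
            have := g4 y hy x hx hx'
            exact absurd hlt this.not_gt
          rw [g3 x hx', g3 y hy] at hlt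
          exact ⟨hx', hy, hlt⟩
        · rintro ⟨hx, -, hlt⟩
          rw [← g3 x hx, ← g3 y hy] at hlt
          exact ⟨g2 hx, g2 hy, hlt⟩
      · rw [g1.2.1]
        exact ⟨g2 hx, hy, g4 x hx y hy hy'⟩
    refine ⟨⟨rn, g1⟩, fun η hη => ?_⟩
    rcases hη.lt_or_eq with h4 | rfl
    · have h5 : η ≤ ξ := Order.lt_add_one_iff.1 h4
      exact PK2_ee_trans (h2 η h5) h3 (ks_mono h5)
    · exact PK2_ee_refl
  | limit ξ hξ ih =>
    have hee : ∀ η ≤ ξ, PK2_ee (KS F η) (KW F η) (KS F ξ) (KW F ξ) := by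
      intro η hη
      rcases hη.lt_or_eq with hη' | rfl
      · refine ⟨fun x y hy => ?_, fun x hx y hy hy' => ?_⟩
        · rw [kw_limit hξ]
          constructor
          · rintro ⟨ζ, hζ, h⟩
            rcases le_total ζ η with h1 | h1
            · obtain ⟨⟨rk, hrk⟩, -⟩ := ih ζ hζ
              have h2 := (hrk.2.1 x y).1 h
              exact (((ih η hη').2 ζ h1).1 x y h2.2.1).2 h
            · exact (((ih ζ hζ).2 η h1).1 x y hy).1 h
          · intro h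
            exact ⟨η, hη', h⟩
        · obtain ⟨ζ, hζ, h⟩ := (ks_limit hξ).1 hy
          rcases le_total ζ η with h1 | h1
          · exact absurd (ks_mono h1 h) hy'
          · exact (kw_limit hξ).2 ⟨ζ, hζ, ((ih ζ hζ).2 η h1).2 x hx y h hy'⟩
      · exact PK2_ee_refl
    refine ⟨?_, hee⟩
    have hsub : ∀ x y, pair x y ∈ KW F ξ → x ∈ KS F ξ ∧ y ∈ KS F ξ := by
      intro x y h
      obtain ⟨ζ, hζ, h1⟩ := (kw_limit hξ).1 h
      obtain ⟨⟨rk, hrk⟩, -⟩ := ih ζ hζ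
      have h2 := (hrk.2.1 x y).1 h1
      exact ⟨ks_mono hζ.le h2.1, ks_mono hζ.le h2.2.1⟩
    have hwf : WellFounded fun x y : ZFSet.{0} => pair x y ∈ KW F ξ := by
      rw [WellFounded.wellFounded_iff_has_min]
      intro s hs
      by_cases h1 : ∃ x ∈ s, x ∉ KS F ξ
      · obtain ⟨x, hx, hx'⟩ := h1
        exact ⟨x, hx, fun y _ h => hx' (hsub y x h).2⟩
      · push Not at h1
        obtain ⟨x, hx⟩ := hs
        have h2 : {η : Ordinal.{0} | η < ξ ∧ ∃ x ∈ s, x ∈ KS F η}.Nonempty := by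
          obtain ⟨η, hη, h⟩ := (ks_limit hξ).1 (h1 x hx)
          exact ⟨η, hη, x, hx, h⟩
        obtain ⟨hη, x1, hx1, hx1'⟩ := csInf_mem h2
        set η := sInf {η : Ordinal.{0} | η < ξ ∧ ∃ x ∈ s, x ∈ KS F η} with hηdef
        obtain ⟨⟨rk, hrk⟩, -⟩ := ih η hη
        have h3 : {c : Ordinal.{1} | ∃ x ∈ s, x ∈ KS F η ∧ c = rk x}.Nonempty :=
          ⟨_, x1, hx1, hx1', rfl⟩
        obtain ⟨x2, hx2, hx2', hc⟩ := csInf_mem h3
        refine ⟨x2, hx2, fun y hy h => ?_⟩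
        have h4 := ((hee η hη.le).1 y x2 hx2').1 h
        have h5 := (hrk.2.1 y x2).1 h4
        rw [← hc] at h5
        have h6 : sInf {c : Ordinal.{1} | ∃ x ∈ s, x ∈ KS F η ∧ c = rk x} ≤ rk y :=
          csInf_le' ⟨y, hy, h5.1, rfl⟩
        exact absurd h5.2.2 h6.not_gt
    have htot : ∀ x ∈ KS F ξ, ∀ y ∈ KS F ξ, x = y ∨ pair x y ∈ KW F ξ ∨ pair y x ∈ KW F ξ := by
      intro x hx y hy
      obtain ⟨ζ1, hζ1, h1⟩ := (ks_limit hξ).1 hx
      obtain ⟨ζ2, hζ2, h2⟩ := (ks_limit hξ).1 hy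
      have h3 : max ζ1 ζ2 < ξ := max_lt hζ1 hζ2
      have h1' := ks_mono (le_max_left ζ1 ζ2) h1
      have h2' := ks_mono (le_max_right ζ1 ζ2) h2
      obtain ⟨⟨rk, hrk⟩, -⟩ := ih _ h3
      rcases lt_trichotomy (rk x) (rk y) with h4 | h4 | h4
      · exact Or.inr (Or.inl ((kw_limit hξ).2 ⟨_, h3, (hrk.2.1 x y).2 ⟨h1', h2', h4⟩⟩))
      · exact Or.inl (hrk.2.2 x h1' y h2' h4)
      · exact Or.inr (Or.inr ((kw_limit hξ).2 ⟨_, h3, (hrk.2.1 y x).2 ⟨h2', h1', h4⟩⟩))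
    have : IsWellFounded ZFSet.{0} fun x y : ZFSet.{0} => pair x y ∈ KW F ξ := ⟨hwf⟩
    have hlt : ∀ {x y : ZFSet.{0}}, pair x y ∈ KW F ξ →
        IsWellFounded.rank (fun x y : ZFSet.{0} => pair x y ∈ KW F ξ) x <
        IsWellFounded.rank (fun x y : ZFSet.{0} => pair x y ∈ KW F ξ) y := fun h =>
      IsWellFounded.rank_lt_of_rel (r := fun x y : ZFSet.{0} => pair x y ∈ KW F ξ) h
    refine ⟨IsWellFounded.rank fun x y : ZFSet.{0} => pair x y ∈ KW F ξ, ?_, ?_, ?_⟩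
    · intro p hp
      obtain ⟨ζ, hζ, h1⟩ := (kw_limit hξ).1 hp
      obtain ⟨⟨rk, hrk⟩, -⟩ := ih ζ hζ
      exact hrk.1 p h1
    · intro x y
      constructor
      · intro h
        exact ⟨(hsub x y h).1, (hsub x y h).2, hlt h⟩
      · rintro ⟨hx, hy, h⟩
        rcases htot x hx y hy with rfl | h1 | h1
        · exact absurd h (lt_irrefl _)
        · exact h1
        · exact absurd (hlt h1) h.not_gt
    · intro x hx y hy h
      rcases htot x hx y hy with h1 | h1 | h1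
      · exact h1
      · exact absurd h (hlt h1).ne
      · exact absurd h (hlt h1).ne'

theorem kw_sub (ξ : Ordinal.{0}) : ∀ p ∈ KW F ξ, ∃ x ∈ KS F ξ, ∃ y ∈ KS F ξ, p = pair x y := by
  intro p hp
  obtain ⟨⟨rk, hrk⟩, -⟩ := PK2_main (F := F) ξ
  obtain ⟨x, y, rfl⟩ := hrk.1 p hp
  have h := (hrk.2.1 x y).1 hp
  exact ⟨x, h.1, y, h.2.1, rfl⟩

/-- End extension. -/
theorem kw_end {ξ η : Ordinal.{0}} (h : ξ ≤ η) {x y : ZFSet.{0}} (hy : y ∈ KS F ξ) :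
    pair x y ∈ KW F η ↔ pair x y ∈ KW F ξ :=
  ((PK2_main (F := F) η).2 ξ h).1 x y hy

theorem kw_new {ξ η : Ordinal.{0}} (h : ξ ≤ η) {x y : ZFSet.{0}} (hx : x ∈ KS F ξ)
    (hy : y ∈ KS F η) (hy' : y ∉ KS F ξ) : pair x y ∈ KW F η :=
  ((PK2_main (F := F) η).2 ξ h).2 x hx y hy hy'

theorem kw_irrefl (ξ : Ordinal.{0}) (x : ZFSet.{0}) : pair x x ∉ KW F ξ := by
  obtain ⟨⟨rk, hrk⟩, -⟩ := PK2_main (F := F) ξ
  intro h
  exact lt_irrefl _ ((hrk.2.1 x x).1 h).2.2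

theorem kw_trans (ξ : Ordinal.{0}) {x y z : ZFSet.{0}} (h : pair x y ∈ KW F ξ)
    (h' : pair y z ∈ KW F ξ) : pair x z ∈ KW F ξ := by
  obtain ⟨⟨rk, hrk⟩, -⟩ := PK2_main (F := F) ξ
  rw [hrk.2.1] at h h' ⊢
  exact ⟨h.1, h'.2.1, h.2.2.trans h'.2.2⟩

theorem kw_total (ξ : Ordinal.{0}) {x y : ZFSet.{0}} (hx : x ∈ KS F ξ) (hy : y ∈ KS F ξ) :
    x = y ∨ pair x y ∈ KW F ξ ∨ pair y x ∈ KW F ξ := by
  obtain ⟨⟨rk, hrk⟩, -⟩ := PK2_main (F := F) ξ
  rw [hrk.2.1, hrk.2.1]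
  rcases lt_trichotomy (rk x) (rk y) with h4 | h4 | h4
  · exact Or.inr (Or.inl ⟨hx, hy, h4⟩)
  · exact Or.inl (hrk.2.2 x hx y hy h4)
  · exact Or.inr (Or.inr ⟨hy, hx, h4⟩)

theorem kw_min (ξ : Ordinal.{0}) (P : ZFSet.{0} → Prop) (h : ∃ x ∈ KS F ξ, P x) :
    ∃ x ∈ KS F ξ, P x ∧ ∀ y ∈ KS F ξ, P y → x = y ∨ pair x y ∈ KW F ξ := by
  obtain ⟨⟨rk, hrk⟩, -⟩ := PK2_main (F := F) ξ
  obtain ⟨x0, hx0, hP0⟩ := h
  have h3 : {c : Ordinal.{1} | ∃ x ∈ KS F ξ, P x ∧ c = rk x}.Nonempty := ⟨_, x0, hx0, hP0, rfl⟩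
  obtain ⟨x, hx, hPx, hc⟩ := csInf_mem h3
  refine ⟨x, hx, hPx, fun y hy hPy => ?_⟩
  have h4 : rk x ≤ rk y := by
    rw [← hc]
    exact csInf_le' ⟨y, hy, hPy, rfl⟩
  rcases h4.lt_or_eq with h5 | h5
  · exact Or.inr ((hrk.2.1 x y).2 ⟨hx, hy, h5⟩)
  · exact Or.inl (hrk.2.2 x hx y hy h5)

end Pool.Agent.helper797_cs
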