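import Pool.Agent.helper797_cs.KDefs

/-!
# Bounded formulas: relations `D1` and simple functions `SF`
-/

set_option autoImplicit false
set_option linter.unusedVariables false

namespace Pool.Agent.helper797_cs.PK3

open Pool.Agent.W868 Pool.Agent.R587
open ZFSet (pair)

/-- The universe as a structure. -/
def VV : Stc where
  A := Set.univ
  F := fun _ => False
  lt := fun _ _ => False
  lv := fun _ => ∅

/-- Renaming of variables. -/
def ren : {n m : ℕ} → (Fin n → Fin m) → Fo n → Fo m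
  | _, _, ρ, .mem i j => .mem (ρ i) (ρ j)
  | _, _, ρ, .eq i j => .eq (ρ i) (ρ j)
  | _, _, ρ, .pF i => .pF (ρ i)
  | _, _, ρ, .lt i j => .lt (ρ i) (ρ j)
  | _, _, ρ, .lv i j => .lv (ρ i) (ρ j)
  | _, _, ρ, .neg φ => .neg (ren ρ φ)
  | _, _, ρ, .and φ ψ => .and (ren ρ φ) (ren ρ ψ)
  | _, _, ρ, .ex φ => .ex (ren (Fin.cons 0 fun i => (ρ i).succ) φ)
  | _, _, ρ, .bex i φ => .bex (ρ i) (ren (Fin.cons 0 fun i => (ρ i).succ) φ)

theorem cons_ren {n m : ℕ} (ρ : Fin n → Fin m) (v : Fin m → ZFSet.{0}) (a : ZFSet.{0}) :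
    (fun i => (Fin.cons a v : Fin (m + 1) → ZFSet.{0})
      ((Fin.cons 0 fun i => (ρ i).succ : Fin (n + 1) → Fin (m + 1)) i)) =
      Fin.cons a fun i => v (ρ i) := by
  funext i
  refine Fin.cases ?_ (fun i => ?_) i
  · rfl
  · rfl

theorem sat_ren (𝔄 : Stc) : {n m : ℕ} → (φ : Fo n) → (ρ : Fin n → Fin m) →
    (v : Fin m → ZFSet.{0}) → ((ren ρ φ).Sat 𝔄 v ↔ φ.Sat 𝔄 fun i => v (ρ i))
  | _, _, .mem i j, ρ, v => Iff.rfl
  | _, _, .eq i j, ρ, v => Iff.rfl
  | _, _, .pF i, ρ, v => Iff.rfl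
  | _, _, .lt i j, ρ, v => Iff.rfl
  | _, _, .lv i j, ρ, v => Iff.rfl
  | _, _, .neg φ, ρ, v => not_congr (sat_ren 𝔄 φ ρ v)
  | _, _, .and φ ψ, ρ, v => and_congr (sat_ren 𝔄 φ ρ v) (sat_ren 𝔄 ψ ρ v)
  | _, _, .ex φ, ρ, v => by
    simp only [ren, Fo.Sat, sat_ren 𝔄 φ, cons_ren]
  | _, _, .bex i φ, ρ, v => by
    simp only [ren, Fo.Sat, sat_ren 𝔄 φ, cons_ren]

theorem isD0_ren : {n m : ℕ} → (φ : Fo n) → (ρ : Fin n → Fin m) → φ.IsD0 → (ren ρ φ).IsD0
  | _, _, .mem i j, ρ, _ => trivial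
  | _, _, .eq i j, ρ, _ => trivial
  | _, _, .neg φ, ρ, h => isD0_ren φ ρ h
  | _, _, .and φ ψ, ρ, h => ⟨isD0_ren φ ρ h.1, isD0_ren ψ ρ h.2⟩
  | _, _, .bex i φ, ρ, h => isD0_ren φ _ h

/-- Bounded formulas are absolute for transitive structures. -/
theorem isD0_abs {𝔄 : Stc} (tr : ∀ x ∈ 𝔄.A, ∀ y ∈ x, y ∈ 𝔄.A) : {n : ℕ} → (φ : Fo n) →
    φ.IsD0 → (v : Fin n → ZFSet.{0}) → (∀ i, v i ∈ 𝔄.A) → (φ.Sat 𝔄 v ↔ φ.Sat VV v)
  | _, .mem i j, _, v, _ => Iff.rfl
  | _, .eq i j, _, v, _ => Iff.rfl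
  | _, .neg φ, h, v, hv => not_congr (isD0_abs tr φ h v hv)
  | _, .and φ ψ, h, v, hv => and_congr (isD0_abs tr φ h.1 v hv) (isD0_abs tr ψ h.2 v hv)
  | _, .bex i φ, h, v, hv => by
    simp only [Fo.Sat]
    constructor
    · rintro ⟨a, ha, hai, h1⟩
      exact ⟨a, trivial, hai, (isD0_abs tr φ h _ (Fin.cases ha hv)).1 h1⟩
    · rintro ⟨a, -, hai, h1⟩
      have ha := tr _ (hv i) a hai
      exact ⟨a, ha, hai, (isD0_abs tr φ h _ (Fin.cases ha hv)).2 h1⟩

/-- `R` is defined by a bounded formula. -/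
def D1 {n : ℕ} (R : (Fin n → ZFSet.{0}) → Prop) : Prop :=
  ∃ φ : Fo n, φ.IsD0 ∧ ∀ v, φ.Sat VV v ↔ R v

section logic

variable {n : ℕ} {R T : (Fin n → ZFSet.{0}) → Prop}

theorem D1.congr (h : D1 R) (h' : ∀ v, R v ↔ T v) : D1 T := by
  obtain ⟨φ, h1, h2⟩ := h
  exact ⟨φ, h1, fun v => (h2 v).trans (h' v)⟩

theorem D1.not (h : D1 R) : D1 fun v => ¬ R v := by
  obtain ⟨φ, h1, h2⟩ := h
  exact ⟨.neg φ, h1, fun v => not_congr (h2 v)⟩

theorem D1.and (h : D1 R) (h' : D1 T) : D1 fun v => R v ∧ T v := by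
  obtain ⟨φ, h1, h2⟩ := h
  obtain ⟨ψ, h3, h4⟩ := h'
  exact ⟨.and φ ψ, ⟨h1, h3⟩, fun v => and_congr (h2 v) (h4 v)⟩

theorem D1.or (h : D1 R) (h' : D1 T) : D1 fun v => R v ∨ T v :=
  (h.not.and h'.not).not.congr fun v => by tauto

theorem D1.imp (h : D1 R) (h' : D1 T) : D1 fun v => R v → T v :=
  (h.and h'.not).not.congr fun v => by tauto

theorem D1.iff (h : D1 R) (h' : D1 T) : D1 fun v => R v ↔ T v :=
  ((h.imp h').and (h'.imp h)).congr fun v => by tauto

theorem D1.comp (h : D1 R) {m : ℕ} (ρ : Fin n → Fin m) :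
    D1 fun v : Fin m → ZFSet.{0} => R fun i => v (ρ i) := by
  obtain ⟨φ, h1, h2⟩ := h
  exact ⟨ren ρ φ, isD0_ren φ ρ h1, fun v => (sat_ren _ _ _ _).trans (h2 _)⟩

theorem D1.bexv {Q : ZFSet.{0} → (Fin n → ZFSet.{0}) → Prop} (i : Fin n)
    (h : D1 fun w : Fin (n + 1) → ZFSet.{0} => Q (w 0) (Fin.tail w)) :
    D1 fun v => ∃ a ∈ v i, Q a v := by
  obtain ⟨φ, h1, h2⟩ := h
  refine ⟨.bex i φ, h1, fun v => ?_⟩
  simp only [Fo.Sat]
  constructor
  · rintro ⟨a, -, h3, h4⟩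
    exact ⟨a, h3, (h2 _).1 h4⟩
  · rintro ⟨a, h3, h4⟩
    exact ⟨a, trivial, h3, (h2 _).2 h4⟩

theorem D1.tt : D1 fun _ : Fin (n + 1) → ZFSet.{0} => True :=
  ⟨.eq 0 0, trivial, fun _ => by simp [Fo.Sat]⟩

theorem D1.prop (p : Prop) : D1 fun _ : Fin (n + 1) → ZFSet.{0} => p := by
  by_cases h : p
  · exact D1.tt.congr fun v => by simp [h]
  · exact D1.tt.not.congr fun v => by simp [h]

end logic

/-- `F` is simple: it can be substituted in bounded formulas. -/
def SF {n : ℕ} (F : (Fin n → ZFSet.{0}) → ZFSet.{0}) : Prop :=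
  ∀ (m : ℕ) (ρ : Fin n → Fin (m + 1)) (Q : (Fin (m + 2) → ZFSet.{0}) → Prop), D1 Q →
    D1 fun v : Fin (m + 1) → ZFSet.{0} => Q (Fin.cons (F fun i => v (ρ i)) v)

/-- The value of a variable, or the value of the function. -/
def ov {m : ℕ} (v : Fin m → ZFSet.{0}) (f : ZFSet.{0}) : Option (Fin m) → ZFSet.{0}
  | none => f
  | some j => v j

theorem SF.mk {n : ℕ} {F : (Fin n → ZFSet.{0}) → ZFSet.{0}}
    (hb : ∀ (m : ℕ) (ρ : Fin n → Fin (m + 1)) (Q : (Fin (m + 2) → ZFSet.{0}) → Prop), D1 Q →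
      D1 fun v : Fin (m + 1) → ZFSet.{0} => ∃ a ∈ F fun i => v (ρ i), Q (Fin.cons a v)) :
    SF F := by
  have ha : ∀ (m : ℕ) (ρ : Fin n → Fin (m + 1)) (j : Fin (m + 1)),
      D1 fun v : Fin (m + 1) → ZFSet.{0} => v j ∈ F fun i => v (ρ i) := by
    intro m ρ j
    have h1 := hb m ρ (fun w => w 0 = w j.succ) ⟨.eq 0 j.succ, trivial, fun _ => Iff.rfl⟩
    refine h1.congr fun v => ?_
    constructor
    · rintro ⟨a, h2, h3⟩
      have h4 : a = v j := h3
      exact h4 ▸ h2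
    · intro h2
      exact ⟨_, h2, rfl⟩
  have key : ∀ {k : ℕ} (φ : Fo k), φ.IsD0 → ∀ (m : ℕ) (ρ : Fin n → Fin (m + 1))
      (σ : Fin k → Option (Fin (m + 1))), D1 fun v : Fin (m + 1) → ZFSet.{0} =>
        φ.Sat VV fun i => ov v (F fun i => v (ρ i)) (σ i) := by
    intro k φ
    induction φ with
    | mem i j =>
      intro _ m ρ σ
      cases h1 : σ i with
      | some i' =>
        cases h2 : σ j with
        | some j' =>
          refine D1.congr (R := fun v => v i' ∈ v j') ⟨.mem i' j', trivial, fun _ => Iff.rfl⟩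
            fun v => ?_
          simp only [Fo.Sat, h1, h2, ov]
        | none =>
          refine (ha m ρ i').congr fun v => ?_
          simp only [Fo.Sat, h1, h2, ov]
      | none =>
        cases h2 : σ j with
        | some j' =>
          -- `F v ∈ v j'`
          have h3 : D1 fun v : Fin (m + 1) → ZFSet.{0} => ∃ a ∈ v j',
              (∀ b ∈ a, b ∈ F fun i => v (ρ i)) ∧ ∀ b ∈ F fun i => v (ρ i), b ∈ a := by
            refine D1.bexv (Q := fun a v => (∀ b ∈ a, b ∈ F fun i => v (ρ i)) ∧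
              ∀ b ∈ F fun i => v (ρ i), b ∈ a) j' ?_
            apply D1.and
            · have h4 : D1 fun w : Fin (m + 2) → ZFSet.{0} => ∃ b ∈ w 0,
                  ¬ b ∈ F fun i => w (ρ i).succ := by
                refine D1.bexv (Q := fun b w => ¬ b ∈ F fun i => w (ρ i).succ) 0 ?_
                exact (ha (m + 2) (fun i => (ρ i).succ.succ) 0).not
              refine h4.not.congr fun w => ?_
              simp only [not_exists, not_and, not_not]
              rfl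
            · have h4 := hb (m + 1) (fun i => (ρ i).succ)
                (fun w : Fin (m + 3) → ZFSet.{0} => ¬ w 0 ∈ w 1)
                ⟨.neg (.mem 0 1), trivial, fun _ => Iff.rfl⟩
              refine h4.not.congr fun w => ?_
              simp only [not_exists, not_and, not_not]
              rfl
          refine h3.congr fun v => ?_
          simp only [Fo.Sat, h1, h2, ov]
          constructor
          · rintro ⟨a, h4, h5, h6⟩
            have h7 : a = F fun i => v (ρ i) := ZFSet.ext fun b => ⟨h5 b, h6 b⟩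
            exact h7 ▸ h4
          · intro h4
            exact ⟨_, h4, fun b hb => hb, fun b hb => hb⟩
        | none =>
          refine (D1.prop False).congr fun v => ?_
          simp only [Fo.Sat, h1, h2, ov]
          exact ⟨False.elim, fun h => ZFSet.mem_irrefl _ h⟩
    | eq i j =>
      intro _ m ρ σ
      have hFe : ∀ j' : Fin (m + 1), D1 fun v : Fin (m + 1) → ZFSet.{0} =>
          v j' = F fun i => v (ρ i) := by
        intro j'
        have h4 : D1 fun v : Fin (m + 1) → ZFSet.{0} => ∃ b ∈ v j',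
            ¬ b ∈ F fun i => v (ρ i) := by
          refine D1.bexv (Q := fun b v => ¬ b ∈ F fun i => v (ρ i)) j' ?_
          exact (ha (m + 1) (fun i => (ρ i).succ) 0).not
        have h5 := hb m ρ (fun w : Fin (m + 2) → ZFSet.{0} => ¬ w 0 ∈ w j'.succ)
          ⟨.neg (.mem 0 j'.succ), trivial, fun _ => Iff.rfl⟩
        refine (h4.not.and h5.not).congr fun v => ?_
        simp only [not_exists, not_and, not_not]
        constructor
        · rintro ⟨h6, h7⟩
          exact ZFSet.ext fun b => ⟨h6 b, h7 b⟩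
        · intro h6
          refine ⟨fun b hb => h6 ▸ hb, fun b hb => ?_⟩
          change b ∈ v j'
          rw [h6]
          exact hb
      cases h1 : σ i with
      | some i' =>
        cases h2 : σ j with
        | some j' =>
          refine D1.congr (R := fun v => v i' = v j') ⟨.eq i' j', trivial, fun _ => Iff.rfl⟩
            fun v => ?_
          simp only [Fo.Sat, h1, h2, ov]
        | none =>
          refine (hFe i').congr fun v => ?_
          simp only [Fo.Sat, h1, h2, ov]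
      | none =>
        cases h2 : σ j with
        | some j' =>
          refine (hFe j').congr fun v => ?_
          simp only [Fo.Sat, h1, h2, ov]
          exact eq_comm
        | none =>
          refine (D1.prop True).congr fun v => ?_
          simp only [Fo.Sat, h1, h2, ov]
    | pF i => exact fun h => h.elim
    | lt i j => exact fun h => h.elim
    | lv i j => exact fun h => h.elim
    | neg φ ih =>
      intro h m ρ σ
      exact (ih h m ρ σ).not
    | and φ ψ ih1 ih2 =>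
      intro h m ρ σ
      exact (ih1 h.1 m ρ σ).and (ih2 h.2 m ρ σ)
    | ex φ ih => exact fun h => h.elim
    | bex i φ ih =>
      intro h m ρ σ
      have h1 := ih h (m + 1) (fun i => (ρ i).succ)
        (Fin.cons (some 0) fun i => (σ i).map Fin.succ)
      have h2 : ∀ (w : Fin (m + 2) → ZFSet.{0}),
          (fun i => ov w (F fun i => w (ρ i).succ)
            ((Fin.cons (some 0) fun i => (σ i).map Fin.succ :
              Fin _ → Option (Fin (m + 2))) i)) =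
          Fin.cons (w 0) fun i => ov (Fin.tail w) (F fun i => Fin.tail w (ρ i)) (σ i) := by
        intro w
        funext i
        refine Fin.cases ?_ (fun i => ?_) i
        · rfl
        · simp only [Fin.cons_succ]
          cases σ i <;> rfl
      cases h3 : σ i with
      | some i' =>
        have h4 := D1.bexv (Q := fun a v => φ.Sat VV
          (Fin.cons a fun i => ov v (F fun i => v (ρ i)) (σ i))) i'
          (h1.congr fun w => by rw [h2])
        refine h4.congr fun v => ?_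
        simp only [Fo.Sat, h3, ov]
        exact ⟨fun ⟨a, h5, h6⟩ => ⟨a, trivial, h5, h6⟩, fun ⟨a, _, h5, h6⟩ => ⟨a, h5, h6⟩⟩
      | none =>
        have h4 := hb m ρ _ (h1.congr fun w => by rw [h2])
        refine h4.congr fun v => ?_
        have h5 : ov v (F fun i => v (ρ i)) (σ i) = F fun i => v (ρ i) := by
          rw [h3]
          rfl
        simp only [Fo.Sat, h5]
        exact ⟨fun ⟨a, h6, h7⟩ => ⟨a, trivial, h6, h7⟩, fun ⟨a, _, h6, h7⟩ => ⟨a, h6, h7⟩⟩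
  rintro m ρ Q ⟨φ, h1, h2⟩
  refine (key φ h1 m ρ (Fin.cons none some)).congr fun v => ?_
  rw [← h2]
  have h3 : (fun i => ov v (F fun i => v (ρ i)) ((Fin.cons none some :
      Fin (m + 2) → Option (Fin (m + 1))) i)) = Fin.cons (F fun i => v (ρ i)) v := by
    funext i
    refine Fin.cases ?_ (fun i => ?_) i
    · rfl
    · rfl
  rw [h3]

section calc1

variable {n : ℕ} {F G H : (Fin n → ZFSet.{0}) → ZFSet.{0}}

theorem SF.ren (hF : SF F) {m : ℕ} (ρ : Fin n → Fin m) :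
    SF fun v : Fin m → ZFSet.{0} => F fun i => v (ρ i) :=
  fun k σ Q hQ => hF k (fun i => σ (ρ i)) Q hQ

theorem SF.tail (hF : SF F) : SF fun w : Fin (n + 1) → ZFSet.{0} => F (Fin.tail w) :=
  hF.ren Fin.succ

theorem SF.proj (i : Fin n) : SF fun v => v i := by
  intro m ρ Q hQ
  refine (hQ.comp (Fin.cons (ρ i) id : Fin (m + 2) → Fin (m + 1))).congr fun v => ?_
  have h : (fun j => v ((Fin.cons (ρ i) id : Fin (m + 2) → Fin (m + 1)) j)) =
      Fin.cons (v (ρ i)) v := by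
    funext j
    refine Fin.cases ?_ (fun j => ?_) j
    · rfl
    · rfl
  rw [h]

theorem SF.mk2 (hb : ∀ (m : ℕ) (ρ : Fin n → Fin (m + 1))
    (Q : ZFSet.{0} → (Fin (m + 1) → ZFSet.{0}) → Prop),
      (D1 fun w : Fin (m + 2) → ZFSet.{0} => Q (w 0) (Fin.tail w)) →
      D1 fun v : Fin (m + 1) → ZFSet.{0} => ∃ a ∈ F fun i => v (ρ i), Q a v) : SF F := by
  refine SF.mk fun m ρ Q hQ => ?_
  refine hb m ρ (fun a v => Q (Fin.cons a v)) (hQ.congr fun w => ?_)
  rw [Fin.cons_self_tail]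

theorem SF.congr (hF : SF F) (h : ∀ v, F v = G v) : SF G := by
  have h1 : F = G := funext h
  exact h1 ▸ hF

end calc1

section rel

variable {n : ℕ} {F G H : (Fin (n + 1) → ZFSet.{0}) → ZFSet.{0}}

theorem D1.sub {Q : ZFSet.{0} → (Fin (n + 1) → ZFSet.{0}) → Prop}
    (h : D1 fun w : Fin (n + 2) → ZFSet.{0} => Q (w 0) (Fin.tail w)) (hF : SF F) :
    D1 fun v => Q (F v) v := hF n id _ h

theorem D1.mem (hF : SF F) (hG : SF G) : D1 fun v => F v ∈ G v := by
  refine D1.sub (Q := fun a v => a ∈ G v) ?_ hF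
  refine D1.sub (Q := fun b w => w 0 ∈ b) ?_ hG.tail
  exact ⟨.mem 1 0, trivial, fun _ => Iff.rfl⟩

theorem D1.eq (hF : SF F) (hG : SF G) : D1 fun v => F v = G v := by
  refine D1.sub (Q := fun a v => a = G v) ?_ hF
  refine D1.sub (Q := fun b w => w 0 = b) ?_ hG.tail
  exact ⟨.eq 1 0, trivial, fun _ => Iff.rfl⟩

theorem D1.bex {Q : ZFSet.{0} → (Fin (n + 1) → ZFSet.{0}) → Prop} (hF : SF F)
    (h : D1 fun w : Fin (n + 2) → ZFSet.{0} => Q (w 0) (Fin.tail w)) :
    D1 fun v => ∃ a ∈ F v, Q a v := by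
  refine D1.sub (Q := fun b v => ∃ a ∈ b, Q a v) ?_ hF
  refine D1.bexv (Q := fun a w => Q a (Fin.tail w)) 0 ?_
  exact h.comp (Fin.cons 0 fun i => i.succ.succ)

theorem D1.ball {Q : ZFSet.{0} → (Fin (n + 1) → ZFSet.{0}) → Prop} (hF : SF F)
    (h : D1 fun w : Fin (n + 2) → ZFSet.{0} => Q (w 0) (Fin.tail w)) :
    D1 fun v => ∀ a ∈ F v, Q a v := by
  have h1 : D1 fun v => ∃ a ∈ F v, ¬ Q a v := D1.bex (Q := fun a v => ¬ Q a v) hF h.not
  exact h1.not.congr fun v => by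
    constructor
    · intro h2 a ha
      by_contra h3
      exact h2 ⟨a, ha, h3⟩
    · rintro h2 ⟨a, ha, h3⟩
      exact h3 (h2 a ha)

theorem D1.subset (hF : SF F) (hG : SF G) : D1 fun v => F v ⊆ G v := by
  have h1 : D1 fun v => ∀ x ∈ F v, x ∈ G v := D1.ball hF (D1.mem (SF.proj 0) hG.tail)
  exact h1

end rel

section fn

variable {n : ℕ} {F G H : (Fin n → ZFSet.{0}) → ZFSet.{0}}

theorem SF.upair (hF : SF F) (hG : SF G) : SF fun v => ({F v, G v} : ZFSet.{0}) := by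
  refine SF.mk2 fun m ρ Q hQ => ?_
  refine ((D1.sub hQ (hF.ren ρ)).or (D1.sub hQ (hG.ren ρ))).congr fun v => ?_
  simp only [ZFSet.mem_pair]
  constructor
  · rintro (h | h)
    · exact ⟨_, Or.inl rfl, h⟩
    · exact ⟨_, Or.inr rfl, h⟩
  · rintro ⟨a, rfl | rfl, h⟩
    · exact Or.inl h
    · exact Or.inr h

theorem SF.single (hF : SF F) : SF fun v => ({F v} : ZFSet.{0}) :=
  (hF.upair hF).congr fun v => by rw [ZFSet.pair_eq_singleton]

theorem SF.pair (hF : SF F) (hG : SF G) : SF fun v => ZFSet.pair (F v) (G v) := by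
  unfold ZFSet.pair
  exact hF.single.upair (hF.upair hG)

theorem SF.union (hF : SF F) (hG : SF G) : SF fun v => F v ∪ G v := by
  refine SF.mk2 fun m ρ Q hQ => ?_
  refine ((D1.bex (hF.ren ρ) hQ).or (D1.bex (hG.ren ρ) hQ)).congr fun v => ?_
  simp only [ZFSet.mem_union]
  constructor
  · rintro (⟨a, h, h'⟩ | ⟨a, h, h'⟩)
    · exact ⟨a, Or.inl h, h'⟩
    · exact ⟨a, Or.inr h, h'⟩
  · rintro ⟨a, h | h, h'⟩
    · exact Or.inl ⟨a, h, h'⟩
    · exact Or.inr ⟨a, h, h'⟩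

theorem SF.insert (hF : SF F) (hG : SF G) : SF fun v => (insert (F v) (G v) : ZFSet.{0}) :=
  (hF.single.union hG).congr fun v => by
    ext z
    simp

theorem SF.sUnion (hF : SF F) : SF fun v => (ZFSet.sUnion (F v) : ZFSet.{0}) := by
  refine SF.mk2 fun m ρ Q hQ => ?_
  have h1 : D1 fun v : Fin (m + 1) → ZFSet.{0} => ∃ b ∈ F fun i => v (ρ i), ∃ a ∈ b, Q a v := by
    refine D1.bex (Q := fun b v => ∃ a ∈ b, Q a v) (hF.ren ρ) ?_
    refine D1.bex (Q := fun a w => Q a (Fin.tail w)) (SF.proj 0) ?_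
    exact hQ.comp (Fin.cons 0 fun i => i.succ.succ)
  refine h1.congr fun v => ?_
  simp only [ZFSet.mem_sUnion]
  constructor
  · rintro ⟨b, h, a, h', h''⟩
    exact ⟨a, ⟨b, h, h'⟩, h''⟩
  · rintro ⟨a, ⟨b, h, h'⟩, h''⟩
    exact ⟨b, h, a, h', h''⟩

theorem SF.sep {P : ZFSet.{0} → (Fin n → ZFSet.{0}) → Prop} (hF : SF F)
    (hP : D1 fun w : Fin (n + 1) → ZFSet.{0} => P (w 0) (Fin.tail w)) :
    SF fun v => ZFSet.sep (fun p => P p v) (F v) := by
  refine SF.mk2 fun m ρ Q hQ => ?_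
  have h1 : D1 fun v : Fin (m + 1) → ZFSet.{0} => ∃ a ∈ F fun i => v (ρ i),
      P a (fun i => v (ρ i)) ∧ Q a v := by
    refine D1.bex (Q := fun a v => P a (fun i => v (ρ i)) ∧ Q a v) (hF.ren ρ) (D1.and ?_ hQ)
    exact hP.comp (Fin.cons 0 fun i => (ρ i).succ)
  refine h1.congr fun v => ?_
  simp only [ZFSet.mem_sep]
  constructor
  · rintro ⟨a, h, h', h''⟩
    exact ⟨a, ⟨h, h'⟩, h''⟩
  · rintro ⟨a, ⟨h, h'⟩, h''⟩
    exact ⟨a, h, h', h''⟩

theorem SF.im {h : ZFSet.{0} → (Fin n → ZFSet.{0}) → ZFSet.{0}} (hF : SF F)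
    (hh : SF fun w : Fin (n + 1) → ZFSet.{0} => h (w 0) (Fin.tail w)) :
    SF fun v => im (fun p => h p v) (F v) := by
  refine SF.mk2 fun m ρ Q hQ => ?_
  have h1 : D1 fun v : Fin (m + 1) → ZFSet.{0} => ∃ p ∈ F fun i => v (ρ i),
      Q (h p fun i => v (ρ i)) v := by
    refine D1.bex (Q := fun p v => Q (h p fun i => v (ρ i)) v) (hF.ren ρ) ?_
    refine D1.sub (Q := fun b w => Q b (Fin.tail w))
      (F := fun w : Fin (m + 2) → ZFSet.{0} => h (w 0) fun i => Fin.tail w (ρ i)) ?_ ?_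
    · exact hQ.comp (Fin.cons 0 fun i => i.succ.succ)
    · exact hh.ren (Fin.cons 0 fun i => (ρ i).succ)
  refine h1.congr fun v => ?_
  simp only [mem_im]
  constructor
  · rintro ⟨p, hp, h'⟩
    exact ⟨_, ⟨p, hp, rfl⟩, h'⟩
  · rintro ⟨a, ⟨p, hp, rfl⟩, h'⟩
    exact ⟨p, hp, h'⟩

theorem SF.prod (hF : SF F) (hG : SF G) : SF fun v => ZFSet.prod (F v) (G v) := by
  refine SF.mk2 fun m ρ Q hQ => ?_
  have h1 : D1 fun v : Fin (m + 1) → ZFSet.{0} => ∃ x ∈ F fun i => v (ρ i),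
      ∃ y ∈ G fun i => v (ρ i), Q (ZFSet.pair x y) v := by
    refine D1.bex (Q := fun x v => ∃ y ∈ G fun i => v (ρ i), Q (ZFSet.pair x y) v) (hF.ren ρ) ?_
    refine D1.bex (Q := fun y w => Q (ZFSet.pair (w 0) y) (Fin.tail w))
      (F := fun w : Fin (m + 2) → ZFSet.{0} => G fun i => Fin.tail w (ρ i)) ?_ ?_
    · exact hG.ren fun i => (ρ i).succ
    · refine D1.sub (Q := fun b w => Q b (Fin.tail (Fin.tail w)))
        (F := fun w : Fin (m + 3) → ZFSet.{0} => ZFSet.pair (w 1) (w 0)) ?_ ?_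
      · exact hQ.comp (Fin.cons 0 fun i => i.succ.succ.succ)
      · exact (SF.proj 1).pair (SF.proj 0)
  refine h1.congr fun v => ?_
  simp only [ZFSet.mem_prod]
  constructor
  · rintro ⟨x, hx, y, hy, h'⟩
    exact ⟨_, ⟨x, hx, y, hy, rfl⟩, h'⟩
  · rintro ⟨a, ⟨x, hx, y, hy, rfl⟩, h'⟩
    exact ⟨x, hx, y, hy, h'⟩

theorem SF.empty : SF fun _ : Fin n → ZFSet.{0} => (∅ : ZFSet.{0}) := by
  refine SF.mk2 fun m ρ Q hQ => ?_
  refine (D1.prop False).congr fun v => ?_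
  simp

open Classical in
theorem SF.ite {P : (Fin n → ZFSet.{0}) → Prop} (hP : D1 P) (hF : SF F) (hG : SF G) :
    SF fun v => if P v then F v else G v := by
  intro m ρ Q hQ
  refine (((hP.comp ρ).and (hF m ρ Q hQ)).or ((hP.comp ρ).not.and (hG m ρ Q hQ))).congr
    fun v => ?_
  by_cases h : P fun i => v (ρ i)
  · simp [h]
  · simp [h]

end fn

theorem fs_cases (x : ZFSet.{0}) : (∃ a b, x = pair a b) ∨
    ((¬ ∃ a b, x = pair a b) ∧ fs x = ∅ ∧ sn x = ∅) := by
  by_cases h : ∃ a b, x = pair a b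
  · exact Or.inl h
  · exact Or.inr ⟨h, by rw [fs, dif_neg h], by rw [sn, dif_neg h]⟩

/-- Quantification over the components of a pair. -/
theorem D1.expair {n : ℕ} {F : (Fin (n + 1) → ZFSet.{0}) → ZFSet.{0}}
    {Q : ZFSet.{0} → ZFSet.{0} → (Fin (n + 1) → ZFSet.{0}) → Prop} (hF : SF F)
    (h : D1 fun w : Fin (n + 3) → ZFSet.{0} => Q (w 1) (w 0) (Fin.tail (Fin.tail w))) :
    D1 fun v => ∃ x y, F v = pair x y ∧ Q x y v := by
  have h1 : D1 fun v => ∃ q ∈ F v, ∃ x ∈ q, ∃ y ∈ q, F v = pair x y ∧ Q x y v := by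
    refine D1.bex (Q := fun q v => ∃ x ∈ q, ∃ y ∈ q, F v = pair x y ∧ Q x y v) hF ?_
    refine D1.bex (Q := fun x w => ∃ y ∈ w 0, F (Fin.tail w) = pair x y ∧ Q x y (Fin.tail w))
      (SF.proj 0) ?_
    refine D1.bex (Q := fun y w => F (Fin.tail (Fin.tail w)) = pair (w 0) y ∧
      Q (w 0) y (Fin.tail (Fin.tail w))) (SF.proj 1) ?_
    apply D1.and
    · exact D1.eq hF.tail.tail.tail ((SF.proj 1).pair (SF.proj 0))
    · exact h.comp (Fin.cons 0 (Fin.cons 1 fun i => i.succ.succ.succ))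
  refine h1.congr fun v => ?_
  constructor
  · rintro ⟨q, -, x, -, y, -, h2⟩
    exact ⟨x, y, h2⟩
  · rintro ⟨x, y, h2⟩
    refine ⟨{x, y}, ?_, x, ZFSet.mem_pair.2 (Or.inl rfl), y, ZFSet.mem_pair.2 (Or.inr rfl), h2⟩
    rw [h2.1, pair]
    exact ZFSet.mem_pair.2 (Or.inr rfl)

section fn2

variable {n : ℕ} {F G H : (Fin n → ZFSet.{0}) → ZFSet.{0}}

theorem SF.fs (hF : SF F) : SF fun v => W868.fs (F v) := by
  refine SF.mk2 fun m ρ Q hQ => ?_
  have h1 : D1 fun v : Fin (m + 1) → ZFSet.{0} => ∃ x y, (F fun i => v (ρ i)) = ZFSet.pair x y ∧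
      ∃ a ∈ x, Q a v := by
    refine D1.expair (Q := fun x y v => ∃ a ∈ x, Q a v) (hF.ren ρ) ?_
    refine D1.bex (Q := fun a w => Q a (Fin.tail (Fin.tail w))) (SF.proj 1) ?_
    exact hQ.comp (Fin.cons 0 fun i => i.succ.succ.succ)
  refine h1.congr fun v => ?_
  rcases fs_cases (F fun i => v (ρ i)) with ⟨x, y, h2⟩ | ⟨h2, h3, -⟩
  · rw [h2, fs_pair]
    constructor
    · rintro ⟨x', y', h3, h4⟩
      rwa [(ZFSet.pair_inj.1 h3).1]
    · intro h3
      exact ⟨x, y, rfl, h3⟩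
  · rw [h3]
    constructor
    · rintro ⟨x, y, h4, -⟩
      exact absurd ⟨x, y, h4⟩ h2
    · rintro ⟨a, ha, -⟩
      exact absurd ha (ZFSet.notMem_empty _)

theorem SF.sn (hF : SF F) : SF fun v => W868.sn (F v) := by
  refine SF.mk2 fun m ρ Q hQ => ?_
  have h1 : D1 fun v : Fin (m + 1) → ZFSet.{0} => ∃ x y, (F fun i => v (ρ i)) = ZFSet.pair x y ∧
      ∃ a ∈ y, Q a v := by
    refine D1.expair (Q := fun x y v => ∃ a ∈ y, Q a v) (hF.ren ρ) ?_
    refine D1.bex (Q := fun a w => Q a (Fin.tail (Fin.tail w))) (SF.proj 0) ?_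
    exact hQ.comp (Fin.cons 0 fun i => i.succ.succ.succ)
  refine h1.congr fun v => ?_
  rcases fs_cases (F fun i => v (ρ i)) with ⟨x, y, h2⟩ | ⟨h2, -, h3⟩
  · rw [h2, sn_pair]
    constructor
    · rintro ⟨x', y', h3, h4⟩
      rwa [(ZFSet.pair_inj.1 h3).2]
    · intro h3
      exact ⟨x, y, rfl, h3⟩
  · rw [h3]
    constructor
    · rintro ⟨x, y, h4, -⟩
      exact absurd ⟨x, y, h4⟩ h2
    · rintro ⟨a, ha, -⟩
      exact absurd ha (ZFSet.notMem_empty _)

theorem SF.inter (hF : SF F) (hG : SF G) : SF fun v => F v ∩ G v := by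
  cases n with
  | zero =>
    refine SF.mk2 fun m ρ Q hQ => ?_
    have h1 : D1 fun v : Fin (m + 1) → ZFSet.{0} => ∃ a ∈ F fun i => v (ρ i),
        (a ∈ G fun i => v (ρ i)) ∧ Q a v := by
      refine D1.bex (Q := fun a v => (a ∈ G fun i => v (ρ i)) ∧ Q a v) (hF.ren ρ) (D1.and ?_ hQ)
      exact D1.mem (SF.proj 0) (hG.ren fun i => (ρ i).succ)
    refine h1.congr fun v => ?_
    simp only [ZFSet.mem_inter, and_assoc]
  | succ n =>
    refine (SF.sep (P := fun p v => p ∈ G v) hF (D1.mem (SF.proj 0) hG.tail)).congr fun v => ?_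
    ext z
    simp

end fn2

/-- Ordinals. -/
theorem D1.isOrdinal {n : ℕ} {F : (Fin (n + 1) → ZFSet.{0}) → ZFSet.{0}} (hF : SF F) :
    D1 fun v => (F v).IsOrdinal := by
  have h : D1 fun w : Fin 1 → ZFSet.{0} => (∀ y ∈ w 0, ∀ z ∈ y, z ∈ w 0) ∧
      ∀ y ∈ w 0, ∀ z ∈ y, ∀ u ∈ z, u ∈ y := by
    (repeat' first
      | assumption
      | exact SF.proj _
      | apply D1.and | apply D1.ball | apply D1.mem)
  have h1 : D1 fun w : Fin (n + 2) → ZFSet.{0} => (w 0).IsOrdinal := by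
    refine (h.comp fun _ => 0).congr fun v => ?_
    constructor
    · rintro ⟨h1, h2⟩
      exact ⟨fun y hy z hz => h1 y hy z hz, fun {y z w} h3 h4 h5 => h2 w h5 z h4 y h3⟩
    · rintro ⟨h1, h2⟩
      exact ⟨fun y hy z hz => h1.mem_trans hz hy, fun y hy z hz u hu => h2 hu hz hy⟩
  exact D1.sub (Q := fun a _ => a.IsOrdinal) h1 hF

/-- The basic operations. -/
theorem D1.gr {k : ℕ} (hk : k < 10) {n : ℕ} {F G H : (Fin (n + 1) → ZFSet.{0}) → ZFSet.{0}}
    (hF : SF F) (hG : SF G) (hH : SF H) : D1 fun v => GR ∅ k (F v) (G v) (H v) := by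
  have key : D1 fun w : Fin 3 → ZFSet.{0} => GR ∅ k (w 0) (w 1) (w 2) := by
    interval_cases k <;> unfold GR <;>
    (repeat' first
      | assumption
      | exact SF.proj _
      | apply D1.not | apply D1.and | apply D1.expair | apply D1.or
      | apply D1.bex | apply D1.ball | apply D1.imp | apply D1.iff | apply D1.subset
      | apply D1.eq | apply D1.mem | apply SF.pair)
  refine D1.sub (Q := fun a v => GR ∅ k a (G v) (H v)) ?_ hF
  refine D1.sub (Q := fun b w => GR ∅ k (w 0) b (H (Fin.tail w))) ?_ hG.tail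
  refine D1.sub (Q := fun c w => GR ∅ k (w 1) (w 0) c) ?_ hH.tail.tail
  exact key.comp ![2, 1, 0]

end Pool.Agent.helper797_cs.PK3
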