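import Pool.Agent.helper797_cs.PK2
import Pool.Agent.helper797_cs.DB

/-! # K4: subsets of a limit level in the next limit level are definable (K2 of the paper) -/

set_option autoImplicit false
namespace Pool.Agent.helper797_cs
open Pool.Agent.W868 Pool.Agent.R587
open ZFSet (pair)
open Cardinal Order

variable {F : ZFSet.{0}}

/-! ### Definability with parameters -/

/-- Projections and constants. -/
def PK4_TV (𝔄 : Stc) {n : ℕ} (G : (Fin n → ZFSet.{0}) → ZFSet.{0}) : Prop :=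
  (∃ i, ∀ v, G v = v i) ∨ ∃ c ∈ 𝔄.A, ∀ v, G v = c

/-- Definable relations, with parameters. -/
def PK4_FD (𝔄 : Stc) {n : ℕ} (R : (Fin n → ZFSet.{0}) → Prop) : Prop :=
  ∃ (m : ℕ) (φ : Fo m) (G : Fin m → (Fin n → ZFSet.{0}) → ZFSet.{0}),
    (∀ i, PK4_TV 𝔄 (G i)) ∧
    ∀ v, (∀ i, v i ∈ 𝔄.A) → (φ.Sat 𝔄 (fun i => G i v) ↔ R v)

/-- The universe of the structure is transitive and closed under pairs. -/
structure PK4_Cx (𝔄 : Stc) : Prop where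
  trans : ∀ x ∈ 𝔄.A, ∀ y ∈ x, y ∈ 𝔄.A
  emp : (∅ : ZFSet.{0}) ∈ 𝔄.A
  one : ({∅} : ZFSet.{0}) ∈ 𝔄.A
  pr : ∀ a ∈ 𝔄.A, ∀ b ∈ 𝔄.A, pair a b ∈ 𝔄.A

section

variable {𝔄 : Stc} {n : ℕ} {R T : (Fin n → ZFSet.{0}) → Prop}
  {G H : (Fin n → ZFSet.{0}) → ZFSet.{0}}

theorem PK4_TV.proj (i : Fin n) : PK4_TV 𝔄 fun v : Fin n → ZFSet.{0} => v i :=
  Or.inl ⟨i, fun _ => rfl⟩

theorem PK4_TV.const {c : ZFSet.{0}} (hc : c ∈ 𝔄.A) :
    PK4_TV 𝔄 fun _ : Fin n → ZFSet.{0} => c :=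
  Or.inr ⟨c, hc, fun _ => rfl⟩

theorem PK4_TV.mem (h : PK4_TV 𝔄 G) {v : Fin n → ZFSet.{0}} (hv : ∀ i, v i ∈ 𝔄.A) :
    G v ∈ 𝔄.A := by
  rcases h with ⟨i, hi⟩ | ⟨c, hc, h⟩
  · rw [hi]
    exact hv i
  · rw [h]
    exact hc

theorem PK4_TV.comp {k : ℕ} {K : (Fin k → ZFSet.{0}) → ZFSet.{0}}
    (h : PK4_TV 𝔄 K) {L : Fin k → (Fin n → ZFSet.{0}) → ZFSet.{0}} (hL : ∀ i, PK4_TV 𝔄 (L i)) :
    PK4_TV 𝔄 fun v => K fun i => L i v := by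
  rcases h with ⟨i, hi⟩ | ⟨c, hc, h⟩
  · rcases hL i with ⟨j, hj⟩ | ⟨d, hd, h⟩
    · exact Or.inl ⟨j, fun v => (hi _).trans (hj v)⟩
    · exact Or.inr ⟨d, hd, fun v => (hi _).trans (h v)⟩
  · exact Or.inr ⟨c, hc, fun v => h _⟩

theorem PK4_FD.congr (h : PK4_FD 𝔄 R) (h' : ∀ v, (∀ i, v i ∈ 𝔄.A) → (R v ↔ T v)) :
    PK4_FD 𝔄 T := by
  obtain ⟨m, φ, G, hG, h⟩ := h
  exact ⟨m, φ, G, hG, fun v hv => (h v hv).trans (h' v hv)⟩

theorem PK4_FD.not (h : PK4_FD 𝔄 R) : PK4_FD 𝔄 fun v => ¬ R v := by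
  obtain ⟨m, φ, G, hG, h⟩ := h
  exact ⟨m, .neg φ, G, hG, fun v hv => not_congr (h v hv)⟩

theorem PK4_FD.and (h : PK4_FD 𝔄 R) (h' : PK4_FD 𝔄 T) : PK4_FD 𝔄 fun v => R v ∧ T v := by
  obtain ⟨m, φ, G, hG, h⟩ := h
  obtain ⟨m', φ', G', hG', h'⟩ := h'
  refine ⟨m + m', .and (φ.rn (Fin.castAdd m')) (φ'.rn (Fin.natAdd m)), Fin.append G G', ?_, ?_⟩
  · intro i
    refine Fin.addCases (fun i => ?_) (fun i => ?_) i
    · rw [Fin.append_left]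
      exact hG i
    · rw [Fin.append_right]
      exact hG' i
  · intro v hv
    simp only [Fo.Sat, sat_rn, Fin.append_left, Fin.append_right]
    exact and_congr (h v hv) (h' v hv)

theorem PK4_FD.or (h : PK4_FD 𝔄 R) (h' : PK4_FD 𝔄 T) : PK4_FD 𝔄 fun v => R v ∨ T v :=
  (h.not.and h'.not).not.congr fun v _ => by tauto

theorem PK4_FD.imp (h : PK4_FD 𝔄 R) (h' : PK4_FD 𝔄 T) : PK4_FD 𝔄 fun v => R v → T v :=
  (h.and h'.not).not.congr fun v _ => by tauto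

theorem PK4_FD.iff (h : PK4_FD 𝔄 R) (h' : PK4_FD 𝔄 T) : PK4_FD 𝔄 fun v => R v ↔ T v :=
  ((h.imp h').and (h'.imp h)).congr fun v _ => by tauto

theorem PK4_FD.comp (h : PK4_FD 𝔄 R) {k : ℕ} {L : Fin n → (Fin k → ZFSet.{0}) → ZFSet.{0}}
    (hL : ∀ i, PK4_TV 𝔄 (L i)) : PK4_FD 𝔄 fun v => R fun i => L i v := by
  obtain ⟨m, φ, G, hG, h⟩ := h
  exact ⟨m, φ, fun i v => G i fun j => L j v, fun i => (hG i).comp hL,
    fun v hv => h _ fun i => (hL i).mem hv⟩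

theorem PK4_FD.tail (h : PK4_FD 𝔄 R) :
    PK4_FD 𝔄 fun w : Fin (n + 1) → ZFSet.{0} => R (Fin.tail w) :=
  h.comp (L := fun i w => w i.succ) fun _ => PK4_TV.proj _

theorem PK4_split (hA : (∅ : ZFSet.{0}) ∈ 𝔄.A) {m : ℕ}
    {G : Fin m → (Fin (n + 1) → ZFSet.{0}) → ZFSet.{0}} (hG : ∀ i, PK4_TV 𝔄 (G i)) :
    ∃ (r : Fin m → Fin (m + 1)) (G' : Fin m → (Fin n → ZFSet.{0}) → ZFSet.{0}),
      (∀ i, PK4_TV 𝔄 (G' i)) ∧
      ∀ a v, (fun i => (Fin.cons a (fun j => G' j v) : Fin (m + 1) → ZFSet.{0}) (r i)) =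
        fun i => G i (Fin.cons a v) := by
  have h : ∀ i, ∃ (r : Fin (m + 1)) (g : (Fin n → ZFSet.{0}) → ZFSet.{0}), PK4_TV 𝔄 g ∧
      ((r = 0 ∧ ∀ (a : ZFSet.{0}) (v : Fin n → ZFSet.{0}), G i (Fin.cons a v) = a) ∨
        (r = i.succ ∧ ∀ (a : ZFSet.{0}) (v : Fin n → ZFSet.{0}), G i (Fin.cons a v) = g v)) := by
    intro i
    rcases hG i with ⟨j, hj⟩ | ⟨c, hc, h⟩
    · revert hj
      refine Fin.cases (fun hj => ?_) (fun j hj => ?_) j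
      · exact ⟨0, fun _ => ∅, PK4_TV.const hA, Or.inl ⟨rfl, fun a v => by rw [hj]; rfl⟩⟩
      · exact ⟨i.succ, fun v => v j, PK4_TV.proj j, Or.inr ⟨rfl, fun a v => by
          rw [hj, Fin.cons_succ]⟩⟩
    · exact ⟨i.succ, fun _ => c, PK4_TV.const hc, Or.inr ⟨rfl, fun a v => by rw [h]⟩⟩
  choose r G' hG' hr using h
  refine ⟨r, G', hG', fun a v => funext fun i => ?_⟩
  rcases hr i with ⟨h1, h2⟩ | ⟨h1, h2⟩
  · rw [h1, h2]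
    rfl
  · rw [h1, h2, Fin.cons_succ]

theorem PK4_FD.ex (hA : PK4_Cx 𝔄) {Q : ZFSet.{0} → (Fin n → ZFSet.{0}) → Prop}
    (h : PK4_FD 𝔄 fun w : Fin (n + 1) → ZFSet.{0} => Q (w 0) (Fin.tail w)) :
    PK4_FD 𝔄 fun v => ∃ a ∈ 𝔄.A, Q a v := by
  obtain ⟨m, φ, G, hG, h⟩ := h
  obtain ⟨r, G', hG', hr⟩ := PK4_split hA.emp hG
  refine ⟨m, .ex (φ.rn r), G', hG', fun v hv => ?_⟩
  simp only [Fo.Sat, sat_rn, hr]
  refine exists_congr fun a => and_congr_right fun ha => ?_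
  refine (h (Fin.cons a v) fun i => ?_).trans ?_
  · refine Fin.cases ?_ (fun i => ?_) i
    · exact ha
    · exact hv i
  · exact Iff.rfl

theorem PK4_FD.all (hA : PK4_Cx 𝔄) {Q : ZFSet.{0} → (Fin n → ZFSet.{0}) → Prop}
    (h : PK4_FD 𝔄 fun w : Fin (n + 1) → ZFSet.{0} => Q (w 0) (Fin.tail w)) :
    PK4_FD 𝔄 fun v => ∀ a ∈ 𝔄.A, Q a v := by
  have h1 : PK4_FD 𝔄 fun v => ∃ a ∈ 𝔄.A, ¬ Q a v := PK4_FD.ex hA (Q := fun a v => ¬ Q a v) h.not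
  refine h1.not.congr fun v _ => ?_
  push Not
  exact Iff.rfl

theorem PK4_FD.ofDB (hA : PK4_Cx 𝔄) (h : DB R) : PK4_FD 𝔄 R := by
  obtain ⟨φ, -, hφ⟩ := h
  exact ⟨n, φ, fun i v => v i, fun i => PK4_TV.proj i, fun v hv => hφ 𝔄 hA.trans v hv⟩

theorem PK4_FD.tt (hA : PK4_Cx 𝔄) : PK4_FD 𝔄 fun _ : Fin n → ZFSet.{0} => True :=
  ⟨1, .eq 0 0, fun _ _ => ∅, fun _ => PK4_TV.const hA.emp, fun v hv => by simp [Fo.Sat]⟩

theorem PK4_FD.allFin (hA : PK4_Cx 𝔄) : ∀ {k : ℕ} {S : Fin k → (Fin n → ZFSet.{0}) → Prop},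
    (∀ i, PK4_FD 𝔄 (S i)) → PK4_FD 𝔄 fun v => ∀ i, S i v
  | 0, _, _ => (PK4_FD.tt hA).congr fun v _ => by simp
  | k + 1, S, h => ((h 0).and (PK4_FD.allFin hA fun i => h i.succ)).congr fun v _ => by
      rw [Fin.forall_fin_succ]

theorem PK4_FD.exLt (hA : PK4_Cx 𝔄) {S : ℕ → (Fin n → ZFSet.{0}) → Prop} (k : ℕ)
    (h : ∀ i < k, PK4_FD 𝔄 (S i)) : PK4_FD 𝔄 fun v => ∃ i < k, S i v := by
  induction k with
  | zero => exact (PK4_FD.tt hA).not.congr fun v _ => by simp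
  | succ k ih =>
    refine ((ih fun i hi => h i (by omega)).or (h k (by omega))).congr fun v _ => ?_
    constructor
    · rintro (⟨i, hi, h1⟩ | h1)
      · exact ⟨i, by omega, h1⟩
      · exact ⟨k, by omega, h1⟩
    · rintro ⟨i, hi, h1⟩
      rcases Nat.lt_succ_iff_lt_or_eq.1 hi with h2 | rfl
      · exact Or.inl ⟨i, h2, h1⟩
      · exact Or.inr h1

/-- Definable functions. -/
def PK4_DF (𝔄 : Stc) {n : ℕ} (G : (Fin n → ZFSet.{0}) → ZFSet.{0}) : Prop :=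
  (∀ v, (∀ i, v i ∈ 𝔄.A) → G v ∈ 𝔄.A) ∧
    PK4_FD 𝔄 fun w : Fin (n + 1) → ZFSet.{0} => w 0 = G (Fin.tail w)

theorem PK4_FD.sub (hA : PK4_Cx 𝔄) {Q : ZFSet.{0} → (Fin n → ZFSet.{0}) → Prop}
    (h : PK4_FD 𝔄 fun w : Fin (n + 1) → ZFSet.{0} => Q (w 0) (Fin.tail w)) (hG : PK4_DF 𝔄 G) :
    PK4_FD 𝔄 fun v => Q (G v) v := by
  have h1 : PK4_FD 𝔄 fun v => ∃ a ∈ 𝔄.A, a = G v ∧ Q a v :=
    PK4_FD.ex hA (Q := fun a v => a = G v ∧ Q a v) (hG.2.and h)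
  refine h1.congr fun v hv => ?_
  constructor
  · rintro ⟨a, -, rfl, h2⟩
    exact h2
  · intro h2
    exact ⟨G v, hG.1 v hv, rfl, h2⟩

theorem PK4_DF.tail (hG : PK4_DF 𝔄 G) :
    PK4_DF 𝔄 fun w : Fin (n + 1) → ZFSet.{0} => G (Fin.tail w) := by
  refine ⟨fun w hw => hG.1 _ fun i => hw _, ?_⟩
  refine (hG.2.comp (L := Fin.cons (fun w : Fin (n + 2) → ZFSet.{0} => w 0)
    fun i w => w i.succ.succ) ?_).congr fun v _ => Iff.rfl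
  intro i
  refine Fin.cases ?_ (fun i => ?_) i
  · exact PK4_TV.proj 0
  · exact PK4_TV.proj _

theorem PK4_FD.app1 (hA : PK4_Cx 𝔄) {P : ZFSet.{0} → Prop}
    (h : PK4_FD 𝔄 fun v : Fin 1 → ZFSet.{0} => P (v 0)) (hG : PK4_DF 𝔄 G) :
    PK4_FD 𝔄 fun v => P (G v) :=
  PK4_FD.sub hA (Q := fun a _ => P a)
    (h.comp (L := fun _ (w : Fin (n + 1) → ZFSet.{0}) => w 0) fun _ => PK4_TV.proj 0) hG

theorem PK4_FD.app2 (hA : PK4_Cx 𝔄) {P : ZFSet.{0} → ZFSet.{0} → Prop}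
    (h : PK4_FD 𝔄 fun v : Fin 2 → ZFSet.{0} => P (v 0) (v 1)) (hG : PK4_DF 𝔄 G)
    (hH : PK4_DF 𝔄 H) : PK4_FD 𝔄 fun v => P (G v) (H v) := by
  refine PK4_FD.sub hA (Q := fun a v => P a (H v)) ?_ hG
  refine PK4_FD.sub hA (Q := fun b (w : Fin (n + 1) → ZFSet.{0}) => P (w 0) b) ?_ hH.tail
  refine (h.comp (L := ![fun w : Fin (n + 2) → ZFSet.{0} => w 1, fun w => w 0]) ?_).congr
    fun v _ => Iff.rfl
  intro i
  refine Fin.cases ?_ (fun i => ?_) i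
  · exact PK4_TV.proj 1
  · exact Fin.cases (PK4_TV.proj 0) (fun i => i.elim0) i

theorem PK4_FD.eqF (hA : PK4_Cx 𝔄) (hG : PK4_DF 𝔄 G) (hH : PK4_DF 𝔄 H) :
    PK4_FD 𝔄 fun v => G v = H v :=
  PK4_FD.app2 hA (P := fun a b => a = b)
    (PK4_FD.ofDB hA (DB.eq (D0v.proj 0) (D0v.proj 1))) hG hH

theorem PK4_DF.proj (hA : PK4_Cx 𝔄) (i : Fin n) : PK4_DF 𝔄 fun v : Fin n → ZFSet.{0} => v i :=
  ⟨fun _ hv => hv i, PK4_FD.ofDB hA (DB.eq (D0v.proj 0) (D0v.proj i.succ))⟩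

theorem PK4_DF.const (hA : PK4_Cx 𝔄) {c : ZFSet.{0}} (hc : c ∈ 𝔄.A) :
    PK4_DF 𝔄 fun _ : Fin n → ZFSet.{0} => c := by
  refine ⟨fun _ _ => hc, ?_⟩
  have h : PK4_FD 𝔄 fun v : Fin 2 → ZFSet.{0} => v 0 = v 1 :=
    PK4_FD.ofDB hA (DB.eq (D0v.proj 0) (D0v.proj 1))
  refine (h.comp (L := ![fun w : Fin (n + 1) → ZFSet.{0} => w 0, fun _ => c]) ?_).congr
    fun v _ => Iff.rfl
  intro i
  refine Fin.cases ?_ (fun i => ?_) i
  · exact PK4_TV.proj 0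
  · exact Fin.cases (PK4_TV.const hc) (fun i => i.elim0) i

theorem PK4_DF.pr (hA : PK4_Cx 𝔄) (hG : PK4_DF 𝔄 G) (hH : PK4_DF 𝔄 H) :
    PK4_DF 𝔄 fun v => pair (G v) (H v) := by
  refine ⟨fun v hv => hA.pr _ (hG.1 v hv) _ (hH.1 v hv), ?_⟩
  refine PK4_FD.sub hA (Q := fun a (w : Fin (n + 1) → ZFSet.{0}) => w 0 = pair a (H (Fin.tail w)))
    ?_ hG.tail
  refine PK4_FD.sub hA
    (Q := fun b (w : Fin (n + 2) → ZFSet.{0}) => w 1 = pair (w 0) b) ?_ hH.tail.tail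
  exact PK4_FD.ofDB hA (DB.isPair (D0v.proj 2) (D0v.proj 1) (D0v.proj 0))

end

/-! ### Representations of sets by codes in the structure -/

/-- The codes `c` with `D c` represent the elements `val c` of `X`. -/
structure PK4_Rp (𝔄 : Stc) (X : ZFSet.{0}) (val : ZFSet.{0} → ZFSet.{0})
    (D : ZFSet.{0} → Prop) : Prop where
  Df : PK4_FD 𝔄 fun v : Fin 1 → ZFSet.{0} => D (v 0)
  E : PK4_FD 𝔄 fun v : Fin 2 → ZFSet.{0} => D (v 0) ∧ D (v 1) ∧ val (v 0) ∈ val (v 1)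
  ran : ∀ x, x ∈ X ↔ ∃ c ∈ 𝔄.A, D c ∧ val c = x
  J : PK4_FD 𝔄 fun v : Fin 2 → ZFSet.{0} => D (v 1) ∧ val (v 1) = v 0

section

variable {𝔄 : Stc} {X : ZFSet.{0}} {val : ZFSet.{0} → ZFSet.{0}} {D : ZFSet.{0} → Prop}

theorem PK4_Rp.mem (h : PK4_Rp 𝔄 X val D) {c : ZFSet.{0}} (hc : c ∈ 𝔄.A) (hD : D c) :
    val c ∈ X := (h.ran _).2 ⟨c, hc, hD, rfl⟩

theorem PK4_Rp.Q (hA : PK4_Cx 𝔄) (h : PK4_Rp 𝔄 X val D) (hX : ∀ x ∈ X, ∀ y ∈ x, y ∈ X) :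
    PK4_FD 𝔄 fun v : Fin 2 → ZFSet.{0} => D (v 0) ∧ D (v 1) ∧ val (v 0) = val (v 1) := by
  have hD0 : PK4_FD 𝔄 fun v : Fin 2 → ZFSet.{0} => D (v 0) :=
    PK4_FD.app1 hA h.Df (PK4_DF.proj hA 0)
  have hD1 : PK4_FD 𝔄 fun v : Fin 2 → ZFSet.{0} => D (v 1) :=
    PK4_FD.app1 hA h.Df (PK4_DF.proj hA 1)
  have hE0 : PK4_FD 𝔄 fun w : Fin 3 → ZFSet.{0} => D (w 0) ∧ D (w 1) ∧ val (w 0) ∈ val (w 1) :=
    PK4_FD.app2 hA (P := fun a b => D a ∧ D b ∧ val a ∈ val b) h.E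
      (PK4_DF.proj hA 0) (PK4_DF.proj hA 1)
  have hE1 : PK4_FD 𝔄 fun w : Fin 3 → ZFSet.{0} => D (w 0) ∧ D (w 2) ∧ val (w 0) ∈ val (w 2) :=
    PK4_FD.app2 hA (P := fun a b => D a ∧ D b ∧ val a ∈ val b) h.E
      (PK4_DF.proj hA 0) (PK4_DF.proj hA 2)
  have hD2 : PK4_FD 𝔄 fun w : Fin 3 → ZFSet.{0} => D (w 0) :=
    PK4_FD.app1 hA h.Df (PK4_DF.proj hA 0)
  have h1 : PK4_FD 𝔄 fun v : Fin 2 → ZFSet.{0} => ∀ c ∈ 𝔄.A, D c →
      ((D c ∧ D (v 0) ∧ val c ∈ val (v 0)) ↔ (D c ∧ D (v 1) ∧ val c ∈ val (v 1))) :=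
    PK4_FD.all hA (Q := fun c v => D c →
      ((D c ∧ D (v 0) ∧ val c ∈ val (v 0)) ↔ (D c ∧ D (v 1) ∧ val c ∈ val (v 1))))
      (hD2.imp (hE0.iff hE1))
  refine ((hD0.and hD1).and h1).congr fun v hv => ?_
  constructor
  · rintro ⟨⟨h2, h3⟩, h4⟩
    refine ⟨h2, h3, ?_⟩
    ext y
    constructor
    · intro hy
      obtain ⟨c, hc, hDc, rfl⟩ := (h.ran y).1 (hX _ (h.mem (hv 0) h2) y hy)
      exact ((h4 c hc hDc).1 ⟨hDc, h2, hy⟩).2.2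
    · intro hy
      obtain ⟨c, hc, hDc, rfl⟩ := (h.ran y).1 (hX _ (h.mem (hv 1) h3) y hy)
      exact ((h4 c hc hDc).2 ⟨hDc, h3, hy⟩).2.2
  · rintro ⟨h2, h3, h4⟩
    refine ⟨⟨h2, h3⟩, fun c _ _ => ?_⟩
    rw [h4]
    simp only [h2, h3]

theorem PK4_Rp.d0 (hA : PK4_Cx 𝔄) (h : PK4_Rp 𝔄 X val D) (hX : ∀ x ∈ X, ∀ y ∈ x, y ∈ X) :
    ∀ {n : ℕ} (φ : Fo n), φ.IsD0 → PK4_FD 𝔄 fun v : Fin n → ZFSet.{0} =>
      (∀ i, D (v i)) ∧ φ.Sat (𝔄.res {x | x ∈ X}) fun i => val (v i)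
  | n, .mem i j, _ => by
    have h1 : PK4_FD 𝔄 fun v : Fin n → ZFSet.{0} => ∀ i, D (v i) :=
      PK4_FD.allFin hA fun i => PK4_FD.app1 hA h.Df (PK4_DF.proj hA i)
    have h2 : PK4_FD 𝔄 fun v : Fin n → ZFSet.{0} => D (v i) ∧ D (v j) ∧ val (v i) ∈ val (v j) :=
      PK4_FD.app2 hA (P := fun a b => D a ∧ D b ∧ val a ∈ val b) h.E
        (PK4_DF.proj hA i) (PK4_DF.proj hA j)
    refine (h1.and h2).congr fun v _ => and_congr_right fun h3 => ?_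
    simp only [Fo.Sat, h3, true_and]
  | n, .eq i j, _ => by
    have h1 : PK4_FD 𝔄 fun v : Fin n → ZFSet.{0} => ∀ i, D (v i) :=
      PK4_FD.allFin hA fun i => PK4_FD.app1 hA h.Df (PK4_DF.proj hA i)
    have h2 : PK4_FD 𝔄 fun v : Fin n → ZFSet.{0} => D (v i) ∧ D (v j) ∧ val (v i) = val (v j) :=
      PK4_FD.app2 hA (P := fun a b => D a ∧ D b ∧ val a = val b) (h.Q hA hX)
        (PK4_DF.proj hA i) (PK4_DF.proj hA j)
    refine (h1.and h2).congr fun v _ => and_congr_right fun h3 => ?_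
    simp only [Fo.Sat, h3, true_and]
  | _, .pF _, h0 => h0.elim
  | _, .lt _ _, h0 => h0.elim
  | _, .lv _ _, h0 => h0.elim
  | n, .neg φ, h0 => by
    have h1 : PK4_FD 𝔄 fun v : Fin n → ZFSet.{0} => ∀ i, D (v i) :=
      PK4_FD.allFin hA fun i => PK4_FD.app1 hA h.Df (PK4_DF.proj hA i)
    refine (h1.and (PK4_Rp.d0 hA h hX φ h0).not).congr fun v _ => and_congr_right fun h3 => ?_
    simp only [Fo.Sat, h3, true_and, implies_true]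
  | n, .and φ ψ, h0 => by
    refine ((PK4_Rp.d0 hA h hX φ h0.1).and (PK4_Rp.d0 hA h hX ψ h0.2)).congr fun v _ => ?_
    simp only [Fo.Sat]
    tauto
  | _, .ex _, h0 => h0.elim
  | n, .bex i φ, h0 => by
    have h1 : PK4_FD 𝔄 fun v : Fin n → ZFSet.{0} => ∀ i, D (v i) :=
      PK4_FD.allFin hA fun i => PK4_FD.app1 hA h.Df (PK4_DF.proj hA i)
    have h2 : PK4_FD 𝔄 fun w : Fin (n + 1) → ZFSet.{0} =>
        D (w 0) ∧ D (w i.succ) ∧ val (w 0) ∈ val (w i.succ) :=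
      PK4_FD.app2 hA (P := fun a b => D a ∧ D b ∧ val a ∈ val b) h.E
        (PK4_DF.proj hA 0) (PK4_DF.proj hA i.succ)
    have h3 : PK4_FD 𝔄 fun v : Fin n → ZFSet.{0} => ∃ c ∈ 𝔄.A,
        (D c ∧ D (v i) ∧ val c ∈ val (v i)) ∧
        ((∀ j, D ((Fin.cons c v : Fin (n + 1) → ZFSet.{0}) j)) ∧
          φ.Sat (𝔄.res {x | x ∈ X}) fun j => val ((Fin.cons c v : Fin (n + 1) → ZFSet.{0}) j)) := by
      refine PK4_FD.ex hA (Q := fun c v => (D c ∧ D (v i) ∧ val c ∈ val (v i)) ∧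
        ((∀ j, D ((Fin.cons c v : Fin (n + 1) → ZFSet.{0}) j)) ∧
          φ.Sat (𝔄.res {x | x ∈ X}) fun j => val ((Fin.cons c v : Fin (n + 1) → ZFSet.{0}) j))) ?_
      refine (h2.and (PK4_Rp.d0 hA h hX φ h0)).congr fun w _ => ?_
      rw [Fin.cons_self_tail]
      exact Iff.rfl
    refine (h1.and h3).congr fun v hv => and_congr_right fun h4 => ?_
    have hcons : ∀ c, (fun j => val ((Fin.cons c v : Fin (n + 1) → ZFSet.{0}) j)) =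
        Fin.cons (val c) fun j => val (v j) := by
      intro c
      funext j
      refine Fin.cases ?_ (fun j => ?_) j
      · rfl
      · simp only [Fin.cons_succ]
    simp only [Fo.Sat, hcons]
    constructor
    · rintro ⟨c, hc, ⟨h5, -, h6⟩, -, h7⟩
      exact ⟨val c, h.mem hc h5, h6, h7⟩
    · rintro ⟨a, ha, h6, h7⟩
      obtain ⟨c, hc, hDc, rfl⟩ := (h.ran a).1 ha
      refine ⟨c, hc, ⟨hDc, h4 i, h6⟩, fun j => ?_, h7⟩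
      refine Fin.cases ?_ (fun j => ?_) j
      · exact hDc
      · exact h4 j

theorem PK4_Rp.db (hA : PK4_Cx 𝔄) (h : PK4_Rp 𝔄 X val D) (hX : ∀ x ∈ X, ∀ y ∈ x, y ∈ X)
    {n : ℕ} {R : (Fin n → ZFSet.{0}) → Prop} (hR : DB R) :
    PK4_FD 𝔄 fun v : Fin n → ZFSet.{0} => (∀ i, D (v i)) ∧ R fun i => val (v i) := by
  obtain ⟨φ, h0, hφ⟩ := hR
  refine (PK4_Rp.d0 hA h hX φ h0).congr fun v hv => and_congr_right fun h1 => ?_
  exact hφ (𝔄.res {x | x ∈ X}) hX _ fun i => h.mem (hv i) (h1 i)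

/-- Add the sets `H p`. -/
theorem PK4_Rp.add (hA : PK4_Cx 𝔄) (h : PK4_Rp 𝔄 X val D) (hX : ∀ x ∈ X, ∀ y ∈ x, y ∈ X)
    (hAX : ∀ x ∈ 𝔄.A, x ∈ X) {Dn : ZFSet.{0} → Prop} {H : ZFSet.{0} → ZFSet.{0}}
    (hDn : PK4_FD 𝔄 fun v : Fin 1 → ZFSet.{0} => Dn (v 0))
    (hH : ∀ p ∈ 𝔄.A, Dn p → ∀ x ∈ H p, x ∈ X)
    (hM : PK4_FD 𝔄 fun v : Fin 2 → ZFSet.{0} => D (v 0) ∧ Dn (v 1) ∧ val (v 0) ∈ H (v 1))
    {X' : ZFSet.{0}} (hX' : ∀ z, z ∈ X' ↔ z ∈ X ∨ ∃ p ∈ 𝔄.A, Dn p ∧ z = H p) :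
    ∃ val' D', PK4_Rp 𝔄 X' val' D' ∧ ∀ P : ZFSet.{0}, (∀ x ∈ P, x ∈ X) →
      (PK4_FD 𝔄 fun v : Fin 1 → ZFSet.{0} => D (v 0) ∧ val (v 0) ∈ P) →
      PK4_FD 𝔄 fun v : Fin 1 → ZFSet.{0} => D' (v 0) ∧ val' (v 0) ∈ P := by
  classical
  have hs : ({∅} : ZFSet.{0}) ≠ ∅ := by
    intro h1
    have h2 : (∅ : ZFSet.{0}) ∈ ({∅} : ZFSet.{0}) := ZFSet.mem_singleton.2 rfl
    rw [h1] at h2
    exact ZFSet.notMem_empty _ h2
  obtain ⟨val', hval'⟩ : ∃ val' : ZFSet.{0} → ZFSet.{0},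
      val' = fun q => if fs q = ∅ then val (sn q) else H (sn q) := ⟨_, rfl⟩
  obtain ⟨D', hD'⟩ : ∃ D' : ZFSet.{0} → Prop, D' = fun q => (∃ c ∈ 𝔄.A, D c ∧ q = pair ∅ c) ∨
      ∃ p ∈ 𝔄.A, Dn p ∧ q = pair {∅} p := ⟨_, rfl⟩
  have v0 : ∀ c, val' (pair ∅ c) = val c := by
    intro c
    rw [hval']
    dsimp only
    rw [fs_pair, sn_pair, if_pos rfl]
  have v1 : ∀ p, val' (pair {∅} p) = H p := by
    intro p
    rw [hval']
    dsimp only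
    rw [fs_pair, sn_pair, if_neg hs]
  have d0 : ∀ c ∈ 𝔄.A, D c → D' (pair ∅ c) := by
    intro c hc h1
    rw [hD']
    exact Or.inl ⟨c, hc, h1, rfl⟩
  have d1 : ∀ p ∈ 𝔄.A, Dn p → D' (pair {∅} p) := by
    intro p hp h1
    rw [hD']
    exact Or.inr ⟨p, hp, h1, rfl⟩
  have dc : ∀ q, D' q → (∃ c ∈ 𝔄.A, D c ∧ q = pair ∅ c) ∨ ∃ p ∈ 𝔄.A, Dn p ∧ q = pair {∅} p := by
    intro q h1
    rwa [hD'] at h1
  have vX : ∀ q, D' q → ∀ x ∈ val' q, x ∈ X := by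
    intro q h1 x hx
    rcases dc q h1 with ⟨c, hc, h2, rfl⟩ | ⟨p, hp, h2, rfl⟩
    · rw [v0] at hx
      exact hX _ (h.mem hc h2) x hx
    · rw [v1] at hx
      exact hH p hp h2 x hx
  -- the codes
  have fD' : PK4_FD 𝔄 fun v : Fin 1 → ZFSet.{0} => D' (v 0) := by
    have h1 : PK4_FD 𝔄 fun v : Fin 1 → ZFSet.{0} => ∃ c ∈ 𝔄.A, D c ∧ v 0 = pair ∅ c :=
      PK4_FD.ex hA (Q := fun c v => D c ∧ v 0 = pair ∅ c)
        ((PK4_FD.app1 hA h.Df (PK4_DF.proj hA 0)).and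
          (PK4_FD.eqF hA (PK4_DF.proj hA 1) (PK4_DF.pr hA (PK4_DF.const hA hA.emp)
            (PK4_DF.proj hA 0))))
    have h2 : PK4_FD 𝔄 fun v : Fin 1 → ZFSet.{0} => ∃ p ∈ 𝔄.A, Dn p ∧ v 0 = pair {∅} p :=
      PK4_FD.ex hA (Q := fun p v => Dn p ∧ v 0 = pair {∅} p)
        ((PK4_FD.app1 hA hDn (PK4_DF.proj hA 0)).and
          (PK4_FD.eqF hA (PK4_DF.proj hA 1) (PK4_DF.pr hA (PK4_DF.const hA hA.one)
            (PK4_DF.proj hA 0))))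
    refine (h1.or h2).congr fun v _ => ?_
    rw [hD']
  have fM' : PK4_FD 𝔄 fun v : Fin 2 → ZFSet.{0} => D (v 0) ∧ D' (v 1) ∧ val (v 0) ∈ val' (v 1) := by
    have h1 : PK4_FD 𝔄 fun v : Fin 2 → ZFSet.{0} => ∃ c ∈ 𝔄.A, v 1 = pair ∅ c ∧
        (D (v 0) ∧ D c ∧ val (v 0) ∈ val c) :=
      PK4_FD.ex hA (Q := fun c v => v 1 = pair ∅ c ∧ (D (v 0) ∧ D c ∧ val (v 0) ∈ val c))
        ((PK4_FD.eqF hA (PK4_DF.proj hA 2) (PK4_DF.pr hA (PK4_DF.const hA hA.emp)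
            (PK4_DF.proj hA 0))).and
          (PK4_FD.app2 hA (P := fun a b => D a ∧ D b ∧ val a ∈ val b) h.E
            (PK4_DF.proj hA 1) (PK4_DF.proj hA 0)))
    have h2 : PK4_FD 𝔄 fun v : Fin 2 → ZFSet.{0} => ∃ p ∈ 𝔄.A, v 1 = pair {∅} p ∧
        (D (v 0) ∧ Dn p ∧ val (v 0) ∈ H p) :=
      PK4_FD.ex hA (Q := fun p v => v 1 = pair {∅} p ∧ (D (v 0) ∧ Dn p ∧ val (v 0) ∈ H p))
        ((PK4_FD.eqF hA (PK4_DF.proj hA 2) (PK4_DF.pr hA (PK4_DF.const hA hA.one)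
            (PK4_DF.proj hA 0))).and
          (PK4_FD.app2 hA (P := fun a b => D a ∧ Dn b ∧ val a ∈ H b) hM
            (PK4_DF.proj hA 1) (PK4_DF.proj hA 0)))
    refine (h1.or h2).congr fun v _ => ?_
    constructor
    · rintro (⟨c, hc, h3, h4, h5, h6⟩ | ⟨p, hp, h3, h4, h5, h6⟩)
      · rw [h3, v0]
        exact ⟨h4, d0 c hc h5, h6⟩
      · rw [h3, v1]
        exact ⟨h4, d1 p hp h5, h6⟩
    · rintro ⟨h3, h4, h5⟩
      rcases dc _ h4 with ⟨c, hc, h6, h7⟩ | ⟨p, hp, h6, h7⟩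
      · rw [h7, v0] at h5
        exact Or.inl ⟨c, hc, h7, h3, h6, h5⟩
      · rw [h7, v1] at h5
        exact Or.inr ⟨p, hp, h7, h3, h6, h5⟩
  have fQ' : PK4_FD 𝔄 fun v : Fin 2 → ZFSet.{0} =>
      D' (v 0) ∧ D' (v 1) ∧ val' (v 0) = val' (v 1) := by
    have h1 : PK4_FD 𝔄 fun v : Fin 2 → ZFSet.{0} => ∀ c ∈ 𝔄.A, D c →
        ((D c ∧ D' (v 0) ∧ val c ∈ val' (v 0)) ↔ (D c ∧ D' (v 1) ∧ val c ∈ val' (v 1))) :=
      PK4_FD.all hA (Q := fun c v => D c →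
        ((D c ∧ D' (v 0) ∧ val c ∈ val' (v 0)) ↔ (D c ∧ D' (v 1) ∧ val c ∈ val' (v 1))))
        ((PK4_FD.app1 hA h.Df (PK4_DF.proj hA 0)).imp
          ((PK4_FD.app2 hA (P := fun a b => D a ∧ D' b ∧ val a ∈ val' b) fM'
            (PK4_DF.proj hA 0) (PK4_DF.proj hA 1)).iff
            (PK4_FD.app2 hA (P := fun a b => D a ∧ D' b ∧ val a ∈ val' b) fM'
              (PK4_DF.proj hA 0) (PK4_DF.proj hA 2))))
    refine (((PK4_FD.app1 hA fD' (PK4_DF.proj hA 0)).and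
      (PK4_FD.app1 hA fD' (PK4_DF.proj hA 1))).and h1).congr fun v hv => ?_
    constructor
    · rintro ⟨⟨h2, h3⟩, h4⟩
      refine ⟨h2, h3, ?_⟩
      ext y
      constructor
      · intro hy
        obtain ⟨c, hc, hDc, rfl⟩ := (h.ran y).1 (vX _ h2 y hy)
        exact ((h4 c hc hDc).1 ⟨hDc, h2, hy⟩).2.2
      · intro hy
        obtain ⟨c, hc, hDc, rfl⟩ := (h.ran y).1 (vX _ h3 y hy)
        exact ((h4 c hc hDc).2 ⟨hDc, h3, hy⟩).2.2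
    · rintro ⟨h2, h3, h4⟩
      refine ⟨⟨h2, h3⟩, fun c _ _ => ?_⟩
      rw [h4]
      simp only [h2, h3]
  -- old elements that satisfy a condition
  have fP : ∀ {k : ℕ} {S : ZFSet.{0} → (Fin k → ZFSet.{0}) → Prop} (i : Fin k),
      (PK4_FD 𝔄 fun w : Fin (k + 1) → ZFSet.{0} => D (w 0) ∧ S (val (w 0)) (Fin.tail w)) →
      (∀ v x, (∀ j, v j ∈ 𝔄.A) → S x v → x ∈ X) →
      PK4_FD 𝔄 fun v : Fin k → ZFSet.{0} => D' (v i) ∧ S (val' (v i)) v := by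
    intro k S i hS hSX
    have h1 : PK4_FD 𝔄 fun v : Fin k → ZFSet.{0} => ∃ c ∈ 𝔄.A, (D c ∧ S (val c) v) ∧
        (D' (pair ∅ c) ∧ D' (v i) ∧ val' (pair ∅ c) = val' (v i)) :=
      PK4_FD.ex hA (Q := fun c v => (D c ∧ S (val c) v) ∧
        (D' (pair ∅ c) ∧ D' (v i) ∧ val' (pair ∅ c) = val' (v i)))
        (hS.and (PK4_FD.app2 hA (P := fun a b => D' a ∧ D' b ∧ val' a = val' b) fQ'
          (PK4_DF.pr hA (PK4_DF.const hA hA.emp) (PK4_DF.proj hA 0)) (PK4_DF.proj hA i.succ)))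
    refine h1.congr fun v hv => ?_
    constructor
    · rintro ⟨c, hc, ⟨h2, h3⟩, h4, h5, h6⟩
      rw [v0] at h6
      rw [← h6]
      exact ⟨h5, h3⟩
    · rintro ⟨h2, h3⟩
      obtain ⟨c, hc, hDc, h4⟩ := (h.ran _).1 (hSX v _ hv h3)
      refine ⟨c, hc, ⟨hDc, ?_⟩, d0 c hc hDc, h2, ?_⟩
      · rw [h4]
        exact h3
      · rw [v0, h4]
  refine ⟨val', D', ⟨fD', ?_, ?_, ?_⟩, ?_⟩
  · -- membership
    have h1 : PK4_FD 𝔄 fun v : Fin 2 → ZFSet.{0} => D' (v 0) ∧ (D' (v 1) ∧ val' (v 0) ∈ val' (v 1)) :=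
      fP (S := fun x v => D' (v 1) ∧ x ∈ val' (v 1)) 0
        (PK4_FD.app2 hA (P := fun a b => D a ∧ D' b ∧ val a ∈ val' b) fM'
          (PK4_DF.proj hA 0) (PK4_DF.proj hA 2)) fun v x _ h2 => vX _ h2.1 x h2.2
    exact h1
  · intro x
    rw [hX']
    constructor
    · rintro (h1 | ⟨p, hp, h1, rfl⟩)
      · obtain ⟨c, hc, hDc, h2⟩ := (h.ran x).1 h1
        exact ⟨pair ∅ c, hA.pr _ hA.emp _ hc, d0 c hc hDc, by rw [v0, h2]⟩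
      · exact ⟨pair {∅} p, hA.pr _ hA.one _ hp, d1 p hp h1, v1 p⟩
    · rintro ⟨q, hq, h1, rfl⟩
      rcases dc q h1 with ⟨c, hc, h2, rfl⟩ | ⟨p, hp, h2, rfl⟩
      · rw [v0]
        exact Or.inl (h.mem hc h2)
      · rw [v1]
        exact Or.inr ⟨p, hp, h2, rfl⟩
  · have h1 : PK4_FD 𝔄 fun v : Fin 2 → ZFSet.{0} => D' (v 1) ∧ val' (v 1) = v 0 :=
      fP (S := fun x v => x = v 0) 1
        (PK4_FD.app2 hA (P := fun a b => D b ∧ val b = a) h.J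
          (PK4_DF.proj hA 1) (PK4_DF.proj hA 0)) fun v x hv h2 => by
            rw [h2]
            exact hAX _ (hv 0)
    exact h1
  · intro P hPX hP
    exact fP (S := fun x _ => x ∈ P) 0
      (PK4_FD.app1 hA (P := fun a => D a ∧ val a ∈ P) hP (PK4_DF.proj hA 0))
      fun v x _ h2 => hPX x h2

theorem PK4_mem_stg {W P R : ZFSet.{0}} (k : ℕ) {z : ZFSet.{0}} :
    z ∈ (stg X W P R k).1 ↔ z ∈ X ∨ ∃ i < k, ∃ a ∈ (insert X X : ZFSet.{0}),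
      ∃ b ∈ (insert X X : ZFSet.{0}), z = opK X P R i a b := by
  induction k with
  | zero => simp [stg]
  | succ k ih =>
    rw [stg]
    dsimp only
    rw [PK2_mem_stY, ih]
    constructor
    · rintro ((h | ⟨i, hi, h⟩) | h)
      · exact Or.inl h
      · exact Or.inr ⟨i, by omega, h⟩
      · exact Or.inr ⟨k, by omega, h⟩
    · rintro (h | ⟨i, hi, h⟩)
      · exact Or.inl (Or.inl h)
      · rcases Nat.lt_succ_iff_lt_or_eq.1 hi with h2 | rfl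
        · exact Or.inl (Or.inr ⟨i, h2, h⟩)
        · exact Or.inr h

theorem PK4_Rp.step (hA : PK4_Cx 𝔄) (h : PK4_Rp 𝔄 X val D) (hX : ∀ x ∈ X, ∀ y ∈ x, y ∈ X)
    (hAX : ∀ x ∈ 𝔄.A, x ∈ X) {W P R : ZFSet.{0}} (hPX : ∀ x ∈ P, x ∈ X) (hRX : ∀ x ∈ R, x ∈ X)
    (hP : PK4_FD 𝔄 fun v : Fin 1 → ZFSet.{0} => D (v 0) ∧ val (v 0) ∈ P)
    (hR : PK4_FD 𝔄 fun v : Fin 1 → ZFSet.{0} => D (v 0) ∧ val (v 0) ∈ R)
    {t : ℕ → ZFSet.{0}} (ht : Function.Injective t) (htA : ∀ k, t k ∈ 𝔄.A) :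
    ∃ val' D', PK4_Rp 𝔄 (stg X W P R 12).1 val' D' := by
  have hD1 : PK4_FD 𝔄 fun v : Fin 1 → ZFSet.{0} => v 0 = ∅ :=
    PK4_FD.eqF hA (PK4_DF.proj hA 0) (PK4_DF.const hA hA.emp)
  obtain ⟨val1, D1, h1, hP1⟩ := h.add hA hX hAX (Dn := fun p => p = ∅) (H := fun _ => X)
    (X' := insert X X) hD1 (fun _ _ _ x hx => hx)
    (((PK4_FD.app1 hA h.Df (PK4_DF.proj hA 0)).and
      (PK4_FD.app1 hA (P := fun a => a = ∅) hD1 (PK4_DF.proj hA 1))).congr fun v hv => by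
        constructor
        · rintro ⟨h1, h2⟩
          exact ⟨h1, h2, h.mem (hv 0) h1⟩
        · rintro ⟨h1, h2, -⟩
          exact ⟨h1, h2⟩)
    (fun z => by
      rw [ZFSet.mem_insert_iff, or_comm]
      refine or_congr Iff.rfl ?_
      constructor
      · intro h1
        exact ⟨∅, hA.emp, rfl, h1⟩
      · rintro ⟨p, -, -, h1⟩
        exact h1)
  have fX := hP1 X (fun _ h => h) (h.Df.congr fun v hv => by
    constructor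
    · intro h2
      exact ⟨h2, h.mem (hv 0) h2⟩
    · exact fun h2 => h2.1)
  have fPP := hP1 P hPX hP
  have fRR := hP1 R hRX hR
  have hX1 : ∀ x ∈ (insert X X : ZFSet.{0}), ∀ y ∈ x, y ∈ (insert X X : ZFSet.{0}) := by
    intro x hx y hy
    rcases ZFSet.mem_insert_iff.1 hx with rfl | hx
    · exact ZFSet.mem_insert_of_mem _ hy
    · exact ZFSet.mem_insert_of_mem _ (hX x hx y hy)
  have hAX1 : ∀ x ∈ 𝔄.A, x ∈ (insert X X : ZFSet.{0}) := fun x hx =>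
    ZFSet.mem_insert_of_mem _ (hAX x hx)
  obtain ⟨idx, hidx⟩ : ∃ idx : ZFSet.{0} → ℕ, ∀ k, idx (t k) = k :=
    ⟨Function.invFun t, Function.leftInverse_invFun ht⟩
  obtain ⟨H, hH⟩ : ∃ H : ZFSet.{0} → ZFSet.{0},
      H = fun p => opK X P R (idx (fs p)) (val1 (fs (sn p))) (val1 (sn (sn p))) := ⟨_, rfl⟩
  have hHp : ∀ k a b, H (pair (t k) (pair a b)) = opK X P R k (val1 a) (val1 b) := by
    intro k a b
    rw [hH]
    simp only [fs_pair, sn_pair, hidx]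
  have hops : ∀ k a b, ∀ x ∈ opK X P R k a b, x ∈ X := by
    intro k a b x hx
    unfold opK at hx
    split_ifs at hx
    · exact (ZFSet.mem_sep.1 hx).1
    · exact hPX x hx
    · exact hRX x hx
  have hT : ∀ k < 12, PK4_FD 𝔄 fun w : Fin 3 → ZFSet.{0} => (∀ i, D1 (w i)) ∧
      val1 (w 0) ∈ opK X P R k (val1 (w 1)) (val1 (w 2)) := by
    intro k hk
    have hD3 : PK4_FD 𝔄 fun w : Fin 3 → ZFSet.{0} => ∀ i, D1 (w i) :=
      PK4_FD.allFin hA fun i => PK4_FD.app1 hA h1.Df (PK4_DF.proj hA i)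
    by_cases hk1 : k < 10
    · have h2 := h1.db hA hX1 (db_GR' k (D0v.proj (n := 3) 0) (D0v.proj 0) (D0v.proj 1) (D0v.proj 2))
      have h3 : PK4_FD 𝔄 fun w : Fin 3 → ZFSet.{0} => D1 (w 0) ∧ val1 (w 0) ∈ X :=
        PK4_FD.app1 hA (P := fun a => D1 a ∧ val1 a ∈ X) fX (PK4_DF.proj hA 0)
      refine (h2.and h3).congr fun w _ => ?_
      have h4 : ∀ A B u a b : ZFSet.{0}, GR A k u a b ↔ GR B k u a b := by
        intro A B u a b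
        interval_cases k <;> exact Iff.rfl
      unfold opK
      rw [if_pos hk1, ZFSet.mem_sep]
      constructor
      · rintro ⟨⟨h5, h6⟩, h7, h8⟩
        exact ⟨h5, h8, (h4 _ _ _ _ _).1 h6⟩
      · rintro ⟨h5, h6, h7⟩
        exact ⟨⟨h5, (h4 _ _ _ _ _).1 h7⟩, h5 0, h6⟩
    · by_cases hk2 : k = 10
      · have h3 : PK4_FD 𝔄 fun w : Fin 3 → ZFSet.{0} => D1 (w 0) ∧ val1 (w 0) ∈ P :=
          PK4_FD.app1 hA (P := fun a => D1 a ∧ val1 a ∈ P) fPP (PK4_DF.proj hA 0)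
        refine (hD3.and h3).congr fun w _ => and_congr_right fun h5 => ?_
        unfold opK
        rw [if_neg hk1, if_pos hk2]
        simp only [h5 0, true_and]
      · have h3 : PK4_FD 𝔄 fun w : Fin 3 → ZFSet.{0} => D1 (w 0) ∧ val1 (w 0) ∈ R :=
          PK4_FD.app1 hA (P := fun a => D1 a ∧ val1 a ∈ R) fRR (PK4_DF.proj hA 0)
        refine (hD3.and h3).congr fun w _ => and_congr_right fun h5 => ?_
        unfold opK
        rw [if_neg hk1, if_neg hk2]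
        simp only [h5 0, true_and]
  obtain ⟨Dn, hDn⟩ : ∃ Dn : ZFSet.{0} → Prop, Dn = fun p => ∃ k < 12, ∃ a ∈ 𝔄.A, ∃ b ∈ 𝔄.A,
      (D1 a ∧ D1 b) ∧ p = pair (t k) (pair a b) := ⟨_, rfl⟩
  have fDn : PK4_FD 𝔄 fun v : Fin 1 → ZFSet.{0} => Dn (v 0) := by
    rw [hDn]
    refine PK4_FD.exLt hA (S := fun k (v : Fin 1 → ZFSet.{0}) => ∃ a ∈ 𝔄.A, ∃ b ∈ 𝔄.A,
      (D1 a ∧ D1 b) ∧ v 0 = pair (t k) (pair a b)) 12 fun k _ => ?_
    refine PK4_FD.ex hA (Q := fun a (v : Fin 1 → ZFSet.{0}) => ∃ b ∈ 𝔄.A,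
      (D1 a ∧ D1 b) ∧ v 0 = pair (t k) (pair a b)) ?_
    refine PK4_FD.ex hA (Q := fun b (v : Fin 2 → ZFSet.{0}) =>
      (D1 (v 0) ∧ D1 b) ∧ v 1 = pair (t k) (pair (v 0) b)) ?_
    exact ((PK4_FD.app1 hA h1.Df (PK4_DF.proj hA 1)).and
      (PK4_FD.app1 hA h1.Df (PK4_DF.proj hA 0))).and
      (PK4_FD.eqF hA (PK4_DF.proj hA 2) (PK4_DF.pr hA (PK4_DF.const hA (htA k))
        (PK4_DF.pr hA (PK4_DF.proj hA 1) (PK4_DF.proj hA 0))))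
  have hM : PK4_FD 𝔄 fun v : Fin 2 → ZFSet.{0} =>
      D1 (v 0) ∧ Dn (v 1) ∧ val1 (v 0) ∈ H (v 1) := by
    have h2 : PK4_FD 𝔄 fun v : Fin 2 → ZFSet.{0} => ∃ k < 12, ∃ a ∈ 𝔄.A, ∃ b ∈ 𝔄.A,
        ((∀ i, D1 ((![v 0, a, b] : Fin 3 → ZFSet.{0}) i)) ∧
          val1 (v 0) ∈ opK X P R k (val1 a) (val1 b)) ∧ v 1 = pair (t k) (pair a b) := by
      refine PK4_FD.exLt hA (S := fun k (v : Fin 2 → ZFSet.{0}) => ∃ a ∈ 𝔄.A, ∃ b ∈ 𝔄.A,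
        ((∀ i, D1 ((![v 0, a, b] : Fin 3 → ZFSet.{0}) i)) ∧
          val1 (v 0) ∈ opK X P R k (val1 a) (val1 b)) ∧ v 1 = pair (t k) (pair a b)) 12
          fun k hk => ?_
      refine PK4_FD.ex hA (Q := fun a (v : Fin 2 → ZFSet.{0}) => ∃ b ∈ 𝔄.A,
        ((∀ i, D1 ((![v 0, a, b] : Fin 3 → ZFSet.{0}) i)) ∧
          val1 (v 0) ∈ opK X P R k (val1 a) (val1 b)) ∧ v 1 = pair (t k) (pair a b)) ?_
      refine PK4_FD.ex hA (Q := fun b (v : Fin 3 → ZFSet.{0}) =>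
        ((∀ i, D1 ((![v 1, v 0, b] : Fin 3 → ZFSet.{0}) i)) ∧
          val1 (v 1) ∈ opK X P R k (val1 (v 0)) (val1 b)) ∧
            v 2 = pair (t k) (pair (v 0) b)) ?_
      refine PK4_FD.and ?_
        (PK4_FD.eqF hA (PK4_DF.proj hA 3) (PK4_DF.pr hA (PK4_DF.const hA (htA k))
          (PK4_DF.pr hA (PK4_DF.proj hA 1) (PK4_DF.proj hA 0))))
      refine ((hT k hk).comp (L := ![fun w : Fin 4 → ZFSet.{0} => w 2, fun w => w 1,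
        fun w => w 0]) ?_).congr fun w _ => ?_
      · intro i
        fin_cases i
        · exact PK4_TV.proj 2
        · exact PK4_TV.proj 1
        · exact PK4_TV.proj 0
      · refine and_congr (forall_congr' fun i => ?_) Iff.rfl
        fin_cases i <;> exact Iff.rfl
    refine h2.congr fun v hv => ?_
    rw [hDn]
    constructor
    · rintro ⟨k, hk, a, ha, b, hb, ⟨h3, h4⟩, h5⟩
      refine ⟨h3 0, ⟨k, hk, a, ha, b, hb, ⟨h3 1, h3 2⟩, h5⟩, ?_⟩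
      rw [h5, hHp]
      exact h4
    · rintro ⟨h3, ⟨k, hk, a, ha, b, hb, ⟨h4, h5⟩, h6⟩, h7⟩
      rw [h6, hHp] at h7
      refine ⟨k, hk, a, ha, b, hb, ⟨fun i => ?_, h7⟩, h6⟩
      fin_cases i
      · exact h3
      · exact h4
      · exact h5
  obtain ⟨val2, D2, h2, -⟩ := h1.add hA hX1 hAX1 (Dn := Dn) (H := H)
    (X' := (stg X W P R 12).1) fDn (by
      intro p _ h2 x hx
      rw [hDn] at h2
      obtain ⟨k, -, a, -, b, -, -, rfl⟩ := h2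
      rw [hHp] at hx
      exact ZFSet.mem_insert_of_mem _ (hops _ _ _ x hx)) hM (by
      intro z
      rw [PK4_mem_stg, hDn]
      constructor
      · rintro (h2 | ⟨k, hk, a, ha, b, hb, rfl⟩)
        · exact Or.inl (ZFSet.mem_insert_of_mem _ h2)
        · obtain ⟨ca, hca, hDa, rfl⟩ := (h1.ran a).1 ha
          obtain ⟨cb, hcb, hDb, rfl⟩ := (h1.ran b).1 hb
          refine Or.inr ⟨pair (t k) (pair ca cb), hA.pr _ (htA k) _ (hA.pr _ hca _ hcb),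
            ⟨k, hk, ca, hca, cb, hcb, ⟨hDa, hDb⟩, rfl⟩, ?_⟩
          rw [hHp]
      · rintro (h2 | ⟨p, -, ⟨k, hk, a, ha, b, hb, ⟨h4, h5⟩, rfl⟩, rfl⟩)
        · rcases ZFSet.mem_insert_iff.1 h2 with rfl | h2
          · refine Or.inr ⟨0, by omega, z, ZFSet.mem_insert _ _, z, ZFSet.mem_insert _ _, ?_⟩
            unfold opK
            rw [if_pos (by omega)]
            ext u
            rw [ZFSet.mem_sep]
            exact ⟨fun h => ⟨h, h⟩, fun h => h.1⟩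
          · exact Or.inl h2
        · rw [hHp]
          exact Or.inr ⟨k, hk, _, h1.mem ha h4, _, h1.mem hb h5, rfl⟩)
  exact ⟨val2, D2, h2⟩

end

theorem PK4_main {ξ : Ordinal.{0}} (h : IsSuccLimit ξ) (n : ℕ) :
    ∃ val D, PK4_Rp (KA F ξ) (KS F (ξ + n)) val D ∧
      (∀ x ∈ eP (Eh F (ξ + n).toZFSet), x ∈ KS F (ξ + n)) ∧
      (∀ x ∈ eR (Eh F (ξ + n).toZFSet), x ∈ KS F (ξ + n)) ∧
      (PK4_FD (KA F ξ) fun v : Fin 1 → ZFSet.{0} => D (v 0) ∧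
        val (v 0) ∈ eP (Eh F (ξ + n).toZFSet)) ∧
      PK4_FD (KA F ξ) fun v : Fin 1 → ZFSet.{0} => D (v 0) ∧
        val (v 0) ∈ eR (Eh F (ξ + n).toZFSet) := by
  have hgd := ks_gd (F := F) h
  have hpr : ∀ a ∈ KS F ξ, ∀ b ∈ KS F ξ, pair a b ∈ KS F ξ := by
    intro a ha b hb
    exact hgd.upair_mem (hgd.single_mem ha) (hgd.upair_mem ha hb)
  have hA : PK4_Cx (KA F ξ) :=
    ⟨ks_trans ξ, hgd.empty_mem, hgd.single_mem hgd.empty_mem, hpr⟩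
  induction n with
  | zero =>
    rw [Nat.cast_zero, add_zero, eh_limit h]
    have e1 : eP (pair (KS F ξ) (pair (KW F ξ) (pair (F ∩ KS F ξ) (KW F ξ)))) = F ∩ KS F ξ := by
      unfold eP
      rw [sn_pair, sn_pair, fs_pair]
    have e2 : eR (pair (KS F ξ) (pair (KW F ξ) (pair (F ∩ KS F ξ) (KW F ξ)))) = KW F ξ := by
      unfold eR
      rw [sn_pair, sn_pair, sn_pair]
    rw [e1, e2]
    refine ⟨fun x => x, fun _ => True, ⟨PK4_FD.tt hA, ?_, ?_, ?_⟩, ?_, ?_, ?_, ?_⟩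
    · exact (PK4_FD.ofDB hA (DB.mem (D0v.proj 0) (D0v.proj 1))).congr fun v _ => by simp
    · intro x
      constructor
      · intro hx
        exact ⟨x, hx, trivial, rfl⟩
      · rintro ⟨c, hc, -, rfl⟩
        exact hc
    · exact (PK4_FD.ofDB hA (DB.eq (D0v.proj 1) (D0v.proj 0))).congr fun v _ => by simp
    · intro x hx
      exact (ZFSet.mem_inter.1 hx).2
    · intro x hx
      obtain ⟨a, ha, b, hb, rfl⟩ := kw_sub ξ x hx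
      exact hpr a ha b hb
    · refine ⟨1, .pF 0, fun i v => v i, fun i => PK4_TV.proj i, fun v hv => ?_⟩
      constructor
      · intro h1
        exact ⟨trivial, ZFSet.mem_inter.2 ⟨h1, hv 0⟩⟩
      · intro h1
        exact (ZFSet.mem_inter.1 h1.2).1
    · have hlt : PK4_FD (KA F ξ) fun v : Fin 2 → ZFSet.{0} => pair (v 0) (v 1) ∈ KW F ξ :=
        ⟨2, .lt 0 1, fun i v => v i, fun i => PK4_TV.proj i, fun v hv => Iff.rfl⟩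
      have h1 : PK4_FD (KA F ξ) fun v : Fin 1 → ZFSet.{0} => ∃ a ∈ (KA F ξ).A, ∃ b ∈ (KA F ξ).A,
          v 0 = pair a b ∧ pair a b ∈ KW F ξ := by
        refine PK4_FD.ex hA (Q := fun a (v : Fin 1 → ZFSet.{0}) => ∃ b ∈ (KA F ξ).A,
          v 0 = pair a b ∧ pair a b ∈ KW F ξ) ?_
        refine PK4_FD.ex hA (Q := fun b (v : Fin 2 → ZFSet.{0}) =>
          v 1 = pair (v 0) b ∧ pair (v 0) b ∈ KW F ξ) ?_
        exact (PK4_FD.eqF hA (PK4_DF.proj hA 2)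
          (PK4_DF.pr hA (PK4_DF.proj hA 1) (PK4_DF.proj hA 0))).and
          (PK4_FD.app2 hA (P := fun a b => pair a b ∈ KW F ξ) hlt (PK4_DF.proj hA 1)
            (PK4_DF.proj hA 0))
      refine h1.congr fun v hv => ?_
      constructor
      · rintro ⟨a, -, b, -, h2, h3⟩
        rw [h2]
        exact ⟨trivial, h3⟩
      · rintro ⟨-, h2⟩
        obtain ⟨a, ha, b, hb, h3⟩ := kw_sub ξ _ h2
        refine ⟨a, ha, b, hb, h3, ?_⟩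
        rw [← h3]
        exact h2
  | succ n ih =>
    obtain ⟨val, D, h1, h2, h3, h4, h5⟩ := ih
    have ht : Function.Injective fun k : ℕ => (k : Ordinal.{0}).toZFSet :=
      Ordinal.toZFSet_injective.comp Nat.cast_injective
    have htA : ∀ k : ℕ, (k : Ordinal.{0}).toZFSet ∈ (KA F ξ).A := fun k =>
      (ks_ord h).2 (h.natCast_lt k)
    obtain ⟨val', D', h6⟩ := h1.step hA (ks_trans _) (fun x hx => ks_mono le_self_add hx)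
      (W := eW (Eh F (ξ + n).toZFSet)) h2 h3 h4 h5 ht htA
    have e0 : Eh F (ξ + (n + 1 : ℕ)).toZFSet = nxt (Eh F (ξ + n).toZFSet) := by
      rw [Nat.cast_succ, ← add_assoc, eh_succ]
    have e1 : KS F (ξ + (n + 1 : ℕ)) = (stg (KS F (ξ + n)) (eW (Eh F (ξ + n).toZFSet))
        (eP (Eh F (ξ + n).toZFSet)) (eR (Eh F (ξ + n).toZFSet)) 12).1 := by
      unfold KS
      rw [e0]
      unfold nxt
      rw [eS, fs_pair]
    have e2 : eP (Eh F (ξ + (n + 1 : ℕ)).toZFSet) = ∅ := by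
      rw [e0]
      unfold nxt eP
      rw [sn_pair, sn_pair, fs_pair]
    have e3 : eR (Eh F (ξ + (n + 1 : ℕ)).toZFSet) = ∅ := by
      rw [e0]
      unfold nxt eR
      rw [sn_pair, sn_pair, sn_pair]
    have h7 : PK4_FD (KA F ξ) fun v : Fin 1 → ZFSet.{0} => D' (v 0) ∧ val' (v 0) ∈ (∅ : ZFSet.{0}) :=
      (PK4_FD.tt hA).not.congr fun v _ => by
        simp [ZFSet.notMem_empty]
    rw [e1, e2, e3]
    exact ⟨val', D', h6, fun x hx => absurd hx (ZFSet.notMem_empty x),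
      fun x hx => absurd hx (ZFSet.notMem_empty x), h7, h7⟩

theorem mem_def {ξ : Ordinal.{0}} (h : IsSuccLimit ξ) {Z : ZFSet.{0}}
    (hZ : Z ∈ KS F (ξ + Ordinal.omega0)) (hZs : Z ⊆ KS F ξ) :
    ∃ (n : ℕ) (φ : Fo (n + 1)) (v : Fin n → ZFSet.{0}), (∀ i, v i ∈ KS F ξ) ∧
      ∀ x ∈ KS F ξ, (x ∈ Z ↔ φ.Sat (KA F ξ) (Fin.cons x v)) := by
  have hgd := ks_gd (F := F) h
  have hpr : ∀ a ∈ KS F ξ, ∀ b ∈ KS F ξ, pair a b ∈ KS F ξ := by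
    intro a ha b hb
    exact hgd.upair_mem (hgd.single_mem ha) (hgd.upair_mem ha hb)
  have hA : PK4_Cx (KA F ξ) :=
    ⟨ks_trans ξ, hgd.empty_mem, hgd.single_mem hgd.empty_mem, hpr⟩
  obtain ⟨n, hn⟩ : ∃ n : ℕ, Z ∈ KS F (ξ + n) := by
    obtain ⟨η, hη, h1⟩ := (ks_limit (Ordinal.isSuccLimit_add ξ Ordinal.isSuccLimit_omega0)).1 hZ
    obtain ⟨d, hd, h2⟩ := (Ordinal.lt_add_iff_of_isSuccLimit Ordinal.isSuccLimit_omega0).1 hη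
    obtain ⟨n, rfl⟩ := Ordinal.lt_omega0.1 hd
    exact ⟨n, ks_mono h2.le h1⟩
  obtain ⟨val, D, h1, -⟩ := PK4_main (F := F) h n
  obtain ⟨d, hd, hDd, rfl⟩ := (h1.ran Z).1 hn
  have h2 : PK4_FD (KA F ξ) fun v : Fin 1 → ZFSet.{0} => ∃ c ∈ (KA F ξ).A,
      (D c ∧ val c = v 0) ∧ (D c ∧ D d ∧ val c ∈ val d) :=
    PK4_FD.ex hA (Q := fun c (v : Fin 1 → ZFSet.{0}) => (D c ∧ val c = v 0) ∧
      (D c ∧ D d ∧ val c ∈ val d))
      ((PK4_FD.app2 hA (P := fun a b => D b ∧ val b = a) h1.J (PK4_DF.proj hA 1)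
        (PK4_DF.proj hA 0)).and
        (PK4_FD.app2 hA (P := fun a b => D a ∧ D b ∧ val a ∈ val b) h1.E (PK4_DF.proj hA 0)
          (PK4_DF.const hA hd)))
  obtain ⟨m, φ, G, hG, h3⟩ := h2
  obtain ⟨r, G', hG', hr⟩ := PK4_split hA.emp hG
  refine ⟨m, φ.rn r, fun i => G' i Fin.elim0, fun i => (hG' i).mem fun j => j.elim0,
    fun x hx => ?_⟩
  rw [sat_rn, hr x Fin.elim0]
  refine Iff.trans ?_ (h3 (Fin.cons x Fin.elim0) fun i => ?_).symm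
  · constructor
    · intro h4
      obtain ⟨c, hc, hDc, h5⟩ := (h1.ran x).1 (ks_mono le_self_add hx)
      exact ⟨c, hc, ⟨hDc, h5⟩, hDc, hDd, h5 ▸ h4⟩
    · rintro ⟨c, hc, ⟨h4, h5⟩, -, -, h6⟩
      rw [h5] at h6
      exact h6
  · refine Fin.cases ?_ (fun i => i.elim0) i
    exact hx

end Pool.Agent.helper797_cs
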