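import Pool.Agent.helper797_cs.PW1
import Pool.Agent.helper797_cs.PK1
import Pool.Agent.R587.LevUM

/-! # K5: if `V = L[U]` then every set is in some level -/

set_option autoImplicit false
namespace Pool.Agent.helper797_cs
open Pool.Agent.W868 Pool.Agent.R587
open Cardinal Order

namespace PK5

open Ordinal in
/-- The limit levels. -/
noncomputable def HH (U : ZFSet.{0}) (α : Ordinal.{0}) : ZFSet.{0} := KS U (ω * α)

variable {U : ZFSet.{0}}

open Ordinal in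
theorem HH_limit {α : Ordinal.{0}} (h : 0 < α) : IsSuccLimit (ω * α) :=
  Ordinal.isSuccLimit_mul_left Ordinal.isSuccLimit_omega0 h

theorem HH_mono (α β : Ordinal.{0}) (h : α ≤ β) : HH U α ⊆ HH U β :=
  ks_mono (mul_le_mul_right h _)

theorem HH_tr (α : Ordinal.{0}) : ∀ x ∈ HH U α, ∀ y ∈ x, y ∈ HH U α := ks_trans _

theorem HH_lim (α : Ordinal.{0}) (hα : IsSuccLimit α) : ∀ x ∈ HH U α, ∃ β < α, x ∈ HH U β := by
  intro x hx
  obtain ⟨η, h1, h2⟩ := (ks_limit (HH_limit hα.bot_lt)).1 hx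
  obtain ⟨β, h3, h4⟩ := (Ordinal.lt_mul_iff_of_isSuccLimit hα).1 h1
  exact ⟨β, h3, ks_mono h4.le h2⟩

theorem over_empty {S : Set Empty} : {n : ℕ} → (φ : Fml Empty n) → φ.Over S
  | _, .mem _ _ => ⟨fun a => a.elim, fun a => a.elim⟩
  | _, .eq _ _ => ⟨fun a => a.elim, fun a => a.elim⟩
  | _, .neg φ => over_empty φ
  | _, .and φ ψ => ⟨over_empty φ, over_empty ψ⟩
  | _, .ex φ => over_empty φ

theorem dfn_fml {X : Set ZFSet.{0}} {n : ℕ} (φ : Fml Empty (n + 1)) (v : Fin n → ZFSet.{0})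
    (hv : ∀ i, v i ∈ X) :
    Dfn X X fun w : Fin 1 → ZFSet.{0} => Sat X Empty.elim φ (Fin.cons (w 0) v) := by
  have h := dfn_sat (M := X) (C := X) (Dfn.tt.congr fun w hw => ?_) (fun _ h => h)
    (φ.map Empty.elim) ((over_map _ φ).2 (over_empty φ)) (m := 1)
    (Fin.cons (fun w => w 0) fun i _ => v i) (by
      intro i
      refine Fin.cases ?_ (fun i => ?_) i
      · exact DfnF.proj 0
      · exact DfnF.const (hv i))
  · refine h.congr fun w _ => ?_
    rw [sat_map]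
    have h1 : (fun i => (Fin.cons (fun w => w 0) (fun i _ => v i) :
        Fin (n + 1) → (Fin 1 → ZFSet.{0}) → ZFSet.{0}) i w) = Fin.cons (w 0) v := by
      funext i
      refine Fin.cases ?_ (fun i => ?_) i
      · rfl
      · rfl
    rw [h1]
    have h2 : (id ∘ Empty.elim : Empty → ZFSet.{0}) = Empty.elim := by
      funext a
      exact a.elim
    rw [h2]
  · exact ⟨fun _ => hw 0, fun _ => trivial⟩

theorem HH_df (α : Ordinal.{0}) (n : ℕ) (φ : Fml Empty (n + 1)) (v : Fin n → ZFSet.{0})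
    (hv : ∀ i, v i ∈ HH U α) :
    ZFSet.sep (fun y => Sat {x | x ∈ HH U α} Empty.elim φ (Fin.cons y v)) (HH U α) ∈
      HH U (α + 1) := by
  have h1 : Gd ∅ {x | x ∈ HH U (α + 1)} := ks_gd (HH_limit (by positivity))
  have h2 : HH U α ∈ {x | x ∈ HH U (α + 1)} := by
    refine ks_mem ?_
    rw [mul_add_one]
    exact lt_add_of_pos_right _ Ordinal.omega0_pos
  exact h1.sepD h2 (Q := fun y => Sat {x | x ∈ HH U α} Empty.elim φ (Fin.cons y v))
    (dfn_fml φ v hv)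

theorem isZF_HH (U : ZFSet.{0}) :
    IsZF {x | ∃ α, x ∈ HH U α} ∧ ∀ α : Ordinal.{0}, α.toZFSet ∈ {x | ∃ α, x ∈ HH U α} :=
  isZF_of_hier (HH U) HH_mono HH_tr HH_lim HH_df

end PK5

open PK5 in
theorem ks_all {U : ZFSet.{0}} (hV : VLU U) (x : ZFSet.{0}) : ∃ ξ, x ∈ KS U ξ := by
  obtain ⟨hZ, hO'⟩ := isZF_HH U
  have hO : ∀ y : ZFSet.{0}, y.IsOrdinal → y ∈ {x | ∃ α, x ∈ HH U α} := by
    intro y hy
    rw [← hy.toZFSet_rank_eq]
    exact hO' _
  obtain ⟨δ, h1⟩ := PW1.exists_level (H := HH U) HH_mono U (fun w z => w = z)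
  have hδ : IsSuccLimit (Ordinal.omega0 * (δ + 1)) := HH_limit (by positivity)
  have hW : U ∩ KS U (Ordinal.omega0 * (δ + 1)) ∈ {x | ∃ α, x ∈ HH U α} := by
    refine ⟨δ + 1 + 1, ks_mono ?_ (fks_mem hδ)⟩
    rw [mul_add_one _ (δ + 1)]
    exact add_le_add_right Ordinal.one_lt_omega0.le _
  obtain ⟨α, hα⟩ := hV x
  have h2 : LevU U α ∈ {x | ∃ α, x ∈ HH U α} := by
    rw [LMU.levU_congr hZ hO hW (fun y hy => ?_) α]
    · exact LMU.levU_mem hZ hO hW α
    · rw [ZFSet.mem_inter]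
      constructor
      · intro h3
        obtain ⟨w, hw, rfl⟩ := h1 y h3 ⟨y, hy, rfl⟩
        exact ⟨h3, HH_mono δ (δ + 1) (Order.le_succ δ) hw⟩
      · exact fun h3 => h3.1
  obtain ⟨ξ, h3⟩ := hZ.trans _ h2 _ hα
  exact ⟨_, h3⟩

end Pool.Agent.helper797_cs
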