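import Pool.Agent.helper797_cs.PK6c
import Pool.Agent.W868.Mos

/-! # K6: Skolem closed sets, Tarski-Vaught, isomorphisms, condensation (C1.1) -/

set_option autoImplicit false
set_option linter.unusedVariables false

namespace Pool.Agent.helper797_cs
open Pool.Agent.W868 Pool.Agent.R587
open ZFSet (pair)
open Cardinal Order

variable {F : ZFSet.{0}}

/-- Least witnesses exist. -/
theorem sk_spec {ξ : Ordinal.{0}} {n : ℕ} (φ : Fo (n + 1)) (v : Fin n → ZFSet.{0}) {X : Set ZFSet.{0}}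
    (hX : X ⊆ (KA F ξ).A) (h : ∃ a ∈ X, φ.Sat ((KA F ξ).res X) (Fin.cons a v)) :
    ((KA F ξ).res X).sk φ v ∈ X ∧
      φ.Sat ((KA F ξ).res X) (Fin.cons (((KA F ξ).res X).sk φ v) v) ∧
      ∀ b ∈ X, φ.Sat ((KA F ξ).res X) (Fin.cons b v) → b ≠ ((KA F ξ).res X).sk φ v →
        pair (((KA F ξ).res X).sk φ v) b ∈ KW F ξ := by
  have h1 : ∃ a ∈ ((KA F ξ).res X).A, φ.Sat ((KA F ξ).res X) (Fin.cons a v) ∧
      ∀ b ∈ ((KA F ξ).res X).A, φ.Sat ((KA F ξ).res X) (Fin.cons b v) →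
        ¬ ((KA F ξ).res X).lt b a := by
    obtain ⟨a, ha, h2⟩ := h
    obtain ⟨x, hx, ⟨h3, h4⟩, h5⟩ := kw_min (F := F) ξ
      (fun x => x ∈ X ∧ φ.Sat ((KA F ξ).res X) (Fin.cons x v)) ⟨a, hX ha, ha, h2⟩
    refine ⟨x, h3, h4, fun b hb h6 h7 => ?_⟩
    rcases h5 b (hX hb) ⟨hb, h6⟩ with rfl | h8
    · exact kw_irrefl ξ x h7
    · exact kw_irrefl ξ x (kw_trans ξ h8 h7)
  have h2 : ((KA F ξ).res X).sk φ v = h1.choose := by
    rw [Stc.sk, dif_pos h1]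
  obtain ⟨h3, h4, h5⟩ := h1.choose_spec
  rw [← h2] at h3 h4 h5
  refine ⟨h3, h4, fun b hb h6 h7 => ?_⟩
  rcases kw_total (F := F) ξ (hX h3) (hX hb) with h8 | h8 | h8
  · exact absurd h8.symm h7
  · exact h8
  · exact absurd h8 (h5 b hb h6)

/-- Absoluteness for closed sets. -/
theorem clsd_sat {ξ : Ordinal.{0}} {Ψ : Set Mx} {X : Set ZFSet.{0}} (hX : Clsd (KA F ξ) Ψ X)
    {n : ℕ} {φ : Fo n} (hφ : φ.In Ψ) {v : Fin n → ZFSet.{0}} (hv : ∀ i, v i ∈ X) :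
    φ.Sat ((KA F ξ).res X) v ↔ φ.Sat (KA F ξ) v := by
  have hc : ∀ {m : ℕ} {w : Fin m → ZFSet.{0}}, (∀ i, w i ∈ X) → ∀ a ∈ X,
      ∀ i, (Fin.cons a w : Fin (m + 1) → ZFSet.{0}) i ∈ X := by
    intro m w hw a ha i
    refine Fin.cases ?_ (fun i => ?_) i
    · exact ha
    · exact hw i
  induction φ with
  | mem i j => exact Iff.rfl
  | eq i j => exact Iff.rfl
  | pF i => exact Iff.rfl
  | lt i j => exact Iff.rfl
  | lv i j => exact Iff.rfl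
  | neg φ ih => exact not_congr (ih hφ hv)
  | and φ ψ ih1 ih2 => exact and_congr (ih1 hφ.1 hv) (ih2 hφ.2 hv)
  | @ex m φ ih =>
    constructor
    · rintro ⟨a, ha, h⟩
      exact ⟨a, hX.sub ha, (ih hφ.2 (hc hv a ha)).1 h⟩
    · rintro ⟨a, ha, h⟩
      obtain ⟨-, h2, -⟩ := sk_spec (F := F) (ξ := ξ) φ v (X := (KA F ξ).A) (fun _ h => h)
        ⟨a, ha, h⟩
      have h3 := hX.sk _ hφ.1 v hv
      exact ⟨_, h3, (ih hφ.2 (hc hv _ h3)).2 h2⟩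
  | @bex m i φ ih =>
    constructor
    · rintro ⟨a, ha, hai, h⟩
      exact ⟨a, hX.sub ha, hai, (ih hφ.2 (hc hv a ha)).1 h⟩
    · rintro ⟨a, ha, hai, h⟩
      obtain ⟨-, h2, -⟩ := sk_spec (F := F) (ξ := ξ) (.and (.mem 0 i.succ) φ) v
        (X := (KA F ξ).A) (fun _ h => h) ⟨a, ha, hai, h⟩
      have h3 := hX.sk _ hφ.1 v hv
      exact ⟨_, h3, h2.1, (ih hφ.2 (hc hv _ h3)).2 h2.2⟩

theorem iso_cons {π : ZFSet.{0} → ZFSet.{0}} {n : ℕ} (a : ZFSet.{0}) (v : Fin n → ZFSet.{0}) :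
    (fun i => π ((Fin.cons a v : Fin (n + 1) → ZFSet.{0}) i)) =
      Fin.cons (π a) fun i => π (v i) := by
  funext i
  refine Fin.cases ?_ (fun i => ?_) i
  · rfl
  · rfl

theorem iso_sat {𝔄 𝔅 : Stc} {π : ZFSet.{0} → ZFSet.{0}} (h : Iso 𝔄 𝔅 π)
    (hlv : ∀ x ∈ 𝔄.A, 𝔄.lv x ∈ 𝔄.A) {n : ℕ} (φ : Fo n)
    {v : Fin n → ZFSet.{0}} (hv : ∀ i, v i ∈ 𝔄.A) :
    φ.Sat 𝔄 v ↔ φ.Sat 𝔅 fun i => π (v i) := by
  have hc : ∀ {m : ℕ} {w : Fin m → ZFSet.{0}}, (∀ i, w i ∈ 𝔄.A) → ∀ a ∈ 𝔄.A,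
      ∀ i, (Fin.cons a w : Fin (m + 1) → ZFSet.{0}) i ∈ 𝔄.A := by
    intro m w hw a ha i
    refine Fin.cases ?_ (fun i => ?_) i
    · exact ha
    · exact hw i
  induction φ with
  | mem i j => exact h.mem _ (hv i) _ (hv j)
  | eq i j =>
    constructor
    · intro h1
      exact congrArg π h1
    · intro h1
      exact h.inj _ (hv i) _ (hv j) h1
  | pF i => exact h.F _ (hv i)
  | lt i j => exact h.lt _ (hv i) _ (hv j)
  | lv i j =>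
    constructor
    · intro h1
      exact (h.lv _ (hv i)).symm.trans (congrArg π h1)
    · intro h1
      exact h.inj _ (hlv _ (hv i)) _ (hv j) ((h.lv _ (hv i)).trans h1)
  | neg φ ih => exact not_congr (ih hv)
  | and φ ψ ih1 ih2 => exact and_congr (ih1 hv) (ih2 hv)
  | @ex m φ ih =>
    constructor
    · rintro ⟨a, ha, h1⟩
      refine ⟨π a, h.maps a ha, ?_⟩
      have h2 := (ih (hc hv a ha)).1 h1
      rwa [iso_cons] at h2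
    · rintro ⟨b, hb, h1⟩
      obtain ⟨a, ha, rfl⟩ := h.surj b hb
      refine ⟨a, ha, (ih (hc hv a ha)).2 ?_⟩
      rw [iso_cons]
      exact h1
  | @bex m i φ ih =>
    constructor
    · rintro ⟨a, ha, hai, h1⟩
      refine ⟨π a, h.maps a ha, (h.mem _ ha _ (hv i)).1 hai, ?_⟩
      have h2 := (ih (hc hv a ha)).1 h1
      rwa [iso_cons] at h2
    · rintro ⟨b, hb, hbi, h1⟩
      obtain ⟨a, ha, rfl⟩ := h.surj b hb
      refine ⟨a, ha, (h.mem _ ha _ (hv i)).2 hbi, (ih (hc hv a ha)).2 ?_⟩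
      rw [iso_cons]
      exact h1

theorem sk_of_min {𝔄 : Stc} {n : ℕ} (φ : Fo (n + 1)) (v : Fin n → ZFSet.{0})
    (hlin : ∀ x ∈ 𝔄.A, ∀ y ∈ 𝔄.A, x = y ∨ 𝔄.lt x y ∨ 𝔄.lt y x) {a : ZFSet.{0}} (ha : a ∈ 𝔄.A)
    (h1 : φ.Sat 𝔄 (Fin.cons a v))
    (h2 : ∀ b ∈ 𝔄.A, φ.Sat 𝔄 (Fin.cons b v) → ¬ 𝔄.lt b a) : 𝔄.sk φ v = a := by
  have h : ∃ a ∈ 𝔄.A, φ.Sat 𝔄 (Fin.cons a v) ∧
    ∀ b ∈ 𝔄.A, φ.Sat 𝔄 (Fin.cons b v) → ¬ 𝔄.lt b a := ⟨a, ha, h1, h2⟩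
  rw [Stc.sk, dif_pos h]
  obtain ⟨h3, h4, h5⟩ := h.choose_spec
  rcases hlin _ h3 a ha with h6 | h6 | h6
  · exact h6
  · exact absurd h6 (h2 _ h3 h4)
  · exact absurd h6 (h5 a ha h1)

theorem tm_mem {𝔄 : Stc} {Ψ : Set Mx} {X : Set ZFSet.{0}} (hc : Clsd 𝔄 Ψ X) {C : Set ZFSet.{0}}
    (hC : C ⊆ X) : (t : Tm) → t.Over Ψ C → {x : ZFSet.{0}} → x ∈ X → t.ev 𝔄 x ∈ X
  | .var, _, x, hx => hx
  | .cst a, h, x, hx => hC h
  | .pr s t, h, x, hx => hc.pr _ (tm_mem hc hC s h.1 hx) _ (tm_mem hc hC t h.2 hx)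
  | .fst t, h, x, hx => hc.fst _ (tm_mem hc hC t h hx)
  | .snd t, h, x, hx => hc.snd _ (tm_mem hc hC t h hx)
  | .lv t, h, x, hx => hc.lv _ (tm_mem hc hC t h hx)
  | .sk n φ ts, h, x, hx => hc.sk _ h.1 _ fun i => tm_mem hc hC (ts i) (h.2 i) hx

/-- Values of terms are transported by isomorphisms, provided that the values of all subterms
are in the structure. -/
theorem iso_ev {𝔄 𝔅 : Stc} {π : ZFSet.{0} → ZFSet.{0}} (h : Iso 𝔄 𝔅 π) {Ψ : Set Mx}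
    (hc : Clsd 𝔄 Ψ 𝔄.A)
    (hlin : ∀ x ∈ 𝔄.A, ∀ y ∈ 𝔄.A, x = y ∨ 𝔄.lt x y ∨ 𝔄.lt y x) (t : Tm) (ht : t.Over Ψ 𝔄.A)
    {x : ZFSet.{0}} (hx : x ∈ 𝔄.A) : π (t.ev 𝔄 x) = (t.map π).ev 𝔅 (π x) := by
  have hm : ∀ t : Tm, t.Over Ψ 𝔄.A → t.ev 𝔄 x ∈ 𝔄.A := fun t ht =>
    tm_mem hc (fun _ h => h) t ht hx
  induction t with
  | var => rfl
  | cst a => rfl
  | pr s t ih1 ih2 =>
    simp only [Tm.map, Tm.ev]
    rw [h.pr _ (hm s ht.1) _ (hm t ht.2) (hm (.pr s t) ht), ih1 ht.1, ih2 ht.2]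
  | fst t ih =>
    simp only [Tm.map, Tm.ev]
    rw [h.fst _ (hm t ht), ih ht]
  | snd t ih =>
    simp only [Tm.map, Tm.ev]
    rw [h.snd _ (hm t ht), ih ht]
  | lv t ih =>
    simp only [Tm.map, Tm.ev]
    rw [h.lv _ (hm t ht), ih ht]
  | sk n φ ts ih =>
    simp only [Tm.map, Tm.ev]
    have h1 : (fun i => ((ts i).map π).ev 𝔅 (π x)) = fun i => π ((ts i).ev 𝔄 x) := by
      funext i
      exact (ih i (ht.2 i)).symm
    rw [h1]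
    set v : Fin n → ZFSet.{0} := fun i => (ts i).ev 𝔄 x with hvdef
    have hv : ∀ i, v i ∈ 𝔄.A := fun i => hm _ (ht.2 i)
    have hcv : ∀ a ∈ 𝔄.A, ∀ i, (Fin.cons a v : Fin (n + 1) → ZFSet.{0}) i ∈ 𝔄.A := by
      intro a ha i
      refine Fin.cases ?_ (fun i => ?_) i
      · exact ha
      · exact hv i
    have hs : ∀ a ∈ 𝔄.A, (φ.Sat 𝔄 (Fin.cons a v) ↔
        φ.Sat 𝔅 (Fin.cons (π a) fun i => π (v i))) := by
      intro a ha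
      have h2 := iso_sat h hc.lv φ (hcv a ha)
      rwa [iso_cons] at h2
    have hlin' : ∀ x ∈ 𝔅.A, ∀ y ∈ 𝔅.A, x = y ∨ 𝔅.lt x y ∨ 𝔅.lt y x := by
      intro x hx y hy
      obtain ⟨x', hx', rfl⟩ := h.surj x hx
      obtain ⟨y', hy', rfl⟩ := h.surj y hy
      rcases hlin x' hx' y' hy' with h2 | h2 | h2
      · exact Or.inl (congrArg π h2)
      · exact Or.inr (Or.inl ((h.lt _ hx' _ hy').1 h2))
      · exact Or.inr (Or.inr ((h.lt _ hy' _ hx').1 h2))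
    by_cases he : ∃ a ∈ 𝔄.A, φ.Sat 𝔄 (Fin.cons a v) ∧
        ∀ b ∈ 𝔄.A, φ.Sat 𝔄 (Fin.cons b v) → ¬ 𝔄.lt b a
    · obtain ⟨a, ha, h2, h3⟩ := he
      rw [sk_of_min φ v hlin ha h2 h3]
      refine (sk_of_min φ _ hlin' (h.maps a ha) ((hs a ha).1 h2) ?_).symm
      intro b hb h4 h5
      obtain ⟨b', hb', rfl⟩ := h.surj b hb
      exact h3 b' hb' ((hs b' hb').2 h4) ((h.lt _ hb' _ ha).2 h5)
    · have he' : ¬ ∃ a ∈ 𝔅.A, φ.Sat 𝔅 (Fin.cons a fun i => π (v i)) ∧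
          ∀ b ∈ 𝔅.A, φ.Sat 𝔅 (Fin.cons b fun i => π (v i)) → ¬ 𝔅.lt b a := by
        rintro ⟨a, ha, h2, h3⟩
        obtain ⟨a', ha', rfl⟩ := h.surj a ha
        refine he ⟨a', ha', (hs a' ha').2 h2, fun b hb h4 h5 => ?_⟩
        exact h3 _ (h.maps b hb) ((hs b hb).1 h4) ((h.lt _ hb _ ha').1 h5)
      rw [Stc.sk, Stc.sk, dif_neg he, dif_neg he']
      exact h.emp.2

theorem ka_pair {ξ : Ordinal.{0}} (h : IsSuccLimit ξ) {a b : ZFSet.{0}} (ha : a ∈ KS F ξ)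
    (hb : b ∈ KS F ξ) : pair a b ∈ KS F ξ := by
  have hC := ks_gd (F := F) h
  have h1 := hC.upair_mem (a := a) (b := b) ha hb
  exact hC.upair_mem (hC.single_mem ha) h1

theorem ka_of_pair {ξ : Ordinal.{0}} {a b : ZFSet.{0}} (h : pair a b ∈ KS F ξ) :
    a ∈ KS F ξ ∧ b ∈ KS F ξ := by
  have h1 : ({a, b} : ZFSet.{0}) ∈ KS F ξ := ks_trans ξ _ h _ (by simp [pair])
  exact ⟨ks_trans ξ _ h1 _ (by simp), ks_trans ξ _ h1 _ (by simp)⟩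

theorem ka_empty {ξ : Ordinal.{0}} (h : IsSuccLimit ξ) : ∅ ∈ KS F ξ :=
  (ks_gd (F := F) h).empty_mem

theorem ka_fs {ξ : Ordinal.{0}} (h : IsSuccLimit ξ) {a : ZFSet.{0}} (ha : a ∈ KS F ξ) :
    fs a ∈ KS F ξ := by
  by_cases h1 : ∃ x y, a = pair x y
  · obtain ⟨x, y, rfl⟩ := h1
    rw [fs_pair]
    exact (ka_of_pair ha).1
  · rw [fs, dif_neg h1]
    exact ka_empty h

theorem ka_sn {ξ : Ordinal.{0}} (h : IsSuccLimit ξ) {a : ZFSet.{0}} (ha : a ∈ KS F ξ) :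
    sn a ∈ KS F ξ := by
  by_cases h1 : ∃ x y, a = pair x y
  · obtain ⟨x, y, rfl⟩ := h1
    rw [sn_pair]
    exact (ka_of_pair ha).2
  · rw [sn, dif_neg h1]
    exact ka_empty h

theorem sk_mem {𝔄 : Stc} (h0 : ∅ ∈ 𝔄.A) {n : ℕ} (φ : Fo (n + 1)) (v : Fin n → ZFSet.{0}) :
    𝔄.sk φ v ∈ 𝔄.A := by
  by_cases h : ∃ a ∈ 𝔄.A, φ.Sat 𝔄 (Fin.cons a v) ∧
    ∀ b ∈ 𝔄.A, φ.Sat 𝔄 (Fin.cons b v) → ¬ 𝔄.lt b a
  · rw [Stc.sk, dif_pos h]
    exact h.choose_spec.1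
  · rw [Stc.sk, dif_neg h]
    exact h0

/-- Every limit level is closed under all Skolem functions. -/
theorem ka_clsd {ξ : Ordinal.{0}} (h : IsSuccLimit ξ) (Ψ : Set Mx) :
    Clsd (KA F ξ) Ψ (KA F ξ).A where
  sub := fun _ h => h
  ne := ⟨∅, ka_empty h⟩
  pr := fun a ha b hb => ka_pair h ha hb
  fst := fun a ha => ka_fs h ha
  snd := fun a ha => ka_sn h ha
  lv := fun a ha => lvl_mem h ha
  sk := fun ψ _ v _ => sk_mem (ka_empty h) ψ.2 v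

/-- Substitution for the variable. -/
def Tm.subst : Tm → Tm → Tm
  | .var, s => s
  | .cst a, _ => .cst a
  | .pr t u, s => .pr (t.subst s) (u.subst s)
  | .fst t, s => .fst (t.subst s)
  | .snd t, s => .snd (t.subst s)
  | .lv t, s => .lv (t.subst s)
  | .sk n φ ts, s => .sk n φ fun i => (ts i).subst s

theorem Tm.ev_subst (𝔄 : Stc) (s : Tm) (x : ZFSet.{0}) : (t : Tm) →
    (t.subst s).ev 𝔄 x = t.ev 𝔄 (s.ev 𝔄 x)
  | .var => rfl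
  | .cst a => rfl
  | .pr t u => by
    simp only [Tm.subst, Tm.ev]
    rw [Tm.ev_subst 𝔄 s x t, Tm.ev_subst 𝔄 s x u]
  | .fst t => by
    simp only [Tm.subst, Tm.ev]
    rw [Tm.ev_subst 𝔄 s x t]
  | .snd t => by
    simp only [Tm.subst, Tm.ev]
    rw [Tm.ev_subst 𝔄 s x t]
  | .lv t => by
    simp only [Tm.subst, Tm.ev]
    rw [Tm.ev_subst 𝔄 s x t]
  | .sk n φ ts => by
    simp only [Tm.subst, Tm.ev]
    congr 1
    funext i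
    exact Tm.ev_subst 𝔄 s x (ts i)

theorem Tm.over_subst {Ψ : Set Mx} {C : Set ZFSet.{0}} {s : Tm} (hs : s.Over Ψ C) : (t : Tm) →
    t.Over Ψ C → (t.subst s).Over Ψ C
  | .var, _ => hs
  | .cst a, h => h
  | .pr t u, h => ⟨Tm.over_subst hs t h.1, Tm.over_subst hs u h.2⟩
  | .fst t, h => Tm.over_subst hs t h
  | .snd t, h => Tm.over_subst hs t h
  | .lv t, h => Tm.over_subst hs t h
  | .sk n φ ts, h => ⟨h.1, fun i => Tm.over_subst hs (ts i) (h.2 i)⟩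

/-- Finitely many elements are values of terms at a common argument. -/
theorem tm_common (𝔄 : Stc) {Ψ : Set Mx} {C P : Set ZFSet.{0}} (hne : P.Nonempty)
    (hpr : ∀ x ∈ P, ∀ y ∈ P, pair x y ∈ P) : {n : ℕ} → (v : Fin n → ZFSet.{0}) →
    (∀ i, ∃ t : Tm, t.Over Ψ C ∧ ∃ x ∈ P, v i = t.ev 𝔄 x) →
    ∃ ts : Fin n → Tm, (∀ i, (ts i).Over Ψ C) ∧ ∃ x ∈ P, ∀ i, v i = (ts i).ev 𝔄 x
  | 0, v, _ => by
    obtain ⟨x, hx⟩ := hne
    exact ⟨fun i => i.elim0, fun i => i.elim0, x, hx, fun i => i.elim0⟩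
  | n + 1, v, h => by
    obtain ⟨ts, h1, x, hx, h2⟩ := tm_common 𝔄 hne hpr (Fin.tail v) fun i => h i.succ
    obtain ⟨t, h3, y, hy, h4⟩ := h 0
    refine ⟨Fin.cons (t.subst (.fst .var)) fun i => (ts i).subst (.snd .var), ?_,
      pair y x, hpr y hy x hx, ?_⟩
    · intro i
      refine Fin.cases ?_ (fun i => ?_) i
      · exact Tm.over_subst (s := .fst .var) trivial t h3
      · exact Tm.over_subst (s := .snd .var) trivial (ts i) (h1 i)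
    · intro i
      refine Fin.cases ?_ (fun i => ?_) i
      · rw [Fin.cons_zero, Tm.ev_subst]
        simp only [Tm.ev, fs_pair]
        exact h4
      · rw [Fin.cons_succ, Tm.ev_subst]
        simp only [Tm.ev, sn_pair]
        exact h2 i

/-- The values of the terms form the closure. -/
theorem tm_clsd {ξ : Ordinal.{0}} (h : IsSuccLimit ξ) (Ψ : Set Mx) {C P : Set ZFSet.{0}}
    (hC : C ⊆ (KA F ξ).A) (hP : P ⊆ (KA F ξ).A) (hne : P.Nonempty)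
    (hpr : ∀ x ∈ P, ∀ y ∈ P, pair x y ∈ P) :
    Clsd (KA F ξ) Ψ {y | ∃ t : Tm, t.Over Ψ C ∧ ∃ x ∈ P, y = t.ev (KA F ξ) x} ∧
      ∀ X : Set ZFSet.{0}, Clsd (KA F ξ) Ψ X → C ⊆ X → P ⊆ X → ∀ t : Tm, t.Over Ψ C →
        ∀ x ∈ P, t.ev (KA F ξ) x ∈ X := by
  refine ⟨⟨?_, ?_, ?_, ?_, ?_, ?_, ?_⟩, ?_⟩
  · rintro y ⟨t, ht, x, hx, rfl⟩
    exact tm_mem (ka_clsd h Ψ) hC t ht (hP hx)
  · obtain ⟨x, hx⟩ := hne
    exact ⟨x, .var, trivial, x, hx, rfl⟩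
  · intro a ha b hb
    obtain ⟨ts, h1, x, hx, h2⟩ := tm_common (KA F ξ) (Ψ := Ψ) (C := C) hne hpr ![a, b] (by
      intro i
      fin_cases i
      · exact ha
      · exact hb)
    refine ⟨.pr (ts 0) (ts 1), ⟨h1 0, h1 1⟩, x, hx, ?_⟩
    simp only [Tm.ev]
    rw [← h2 0, ← h2 1]
    rfl
  · rintro a ⟨t, ht, x, hx, rfl⟩
    exact ⟨.fst t, ht, x, hx, rfl⟩
  · rintro a ⟨t, ht, x, hx, rfl⟩
    exact ⟨.snd t, ht, x, hx, rfl⟩
  · rintro a ⟨t, ht, x, hx, rfl⟩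
    exact ⟨.lv t, ht, x, hx, rfl⟩
  · rintro ψ hψ v hv
    obtain ⟨ts, h1, x, hx, h2⟩ := tm_common (KA F ξ) (Ψ := Ψ) (C := C) hne hpr v hv
    refine ⟨.sk ψ.1 ψ.2 ts, ⟨hψ, h1⟩, x, hx, ?_⟩
    simp only [Tm.ev]
    congr 1
    funext i
    exact h2 i
  · intro X hX hCX hPX t ht x hx
    exact tm_mem hX hCX t ht (hPX hx)

/-! ### Condensation -/

/-- `R` is defined by a `Δ₀` formula with matrices in `Ψ`. -/
def DZi (Ψ : Set Mx) {n : ℕ} (R : (Fin n → ZFSet.{0}) → Prop) : Prop :=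
  ∃ φ : Fo n, φ.IsD0 ∧ φ.In Ψ ∧ ∀ 𝔄 : Stc, (∀ x ∈ 𝔄.A, ∀ y ∈ x, y ∈ 𝔄.A) →
    ∀ v, (∀ i, v i ∈ 𝔄.A) → (φ.Sat 𝔄 v ↔ R v)

theorem DZi.mono {Ψ Ψ' : Set Mx} (h : Ψ ⊆ Ψ') {n : ℕ} {R : (Fin n → ZFSet.{0}) → Prop}
    (hR : DZi Ψ R) : DZi Ψ' R := by
  obtain ⟨φ, h1, h2, h3⟩ := hR
  exact ⟨φ, h1, h2.mono h, h3⟩

/-- A finite closed set of matrices of bounded quantifiers. -/
def FCB (Ψ : Set Mx) : Prop := Ψ.Finite ∧ Cl Ψ ∧ BdM Ψ

theorem DZ.toDZi {n : ℕ} {R : (Fin n → ZFSet.{0}) → Prop} (hR : DZ R) :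
    ∃ Ψ, FCB Ψ ∧ DZi Ψ R := by
  obtain ⟨φ, h1, h2⟩ := hR
  exact ⟨φ.mats, ⟨φ.mats_finite, φ.cl_mats, φ.bdM_mats h1⟩, φ, h1,
    (Fo.in_iff φ).2 (Set.Subset.refl _), h2⟩

theorem FCB.union {Ψ Ψ' : Set Mx} (h : FCB Ψ) (h' : FCB Ψ') : FCB (Ψ ∪ Ψ') :=
  ⟨h.1.union h'.1, h.2.1.union h'.2.1, h.2.2.union h'.2.2⟩

/-- Truth of `Δ₀` formulas and isomorphisms for the membership relation. -/
theorem d0_iso {𝔄 𝔅 : Stc} {π : ZFSet.{0} → ZFSet.{0}} (hmaps : ∀ x ∈ 𝔄.A, π x ∈ 𝔅.A)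
    (hsurj : ∀ y ∈ 𝔅.A, ∃ x ∈ 𝔄.A, π x = y)
    (hinj : ∀ x ∈ 𝔄.A, ∀ y ∈ 𝔄.A, π x = π y → x = y)
    (hmem : ∀ x ∈ 𝔄.A, ∀ y ∈ 𝔄.A, (x ∈ y ↔ π x ∈ π y)) {n : ℕ} (φ : Fo n) (hφ : φ.IsD0)
    {v : Fin n → ZFSet.{0}} (hv : ∀ i, v i ∈ 𝔄.A) :
    φ.Sat 𝔄 v ↔ φ.Sat 𝔅 fun i => π (v i) := by
  have hc : ∀ {m : ℕ} {w : Fin m → ZFSet.{0}}, (∀ i, w i ∈ 𝔄.A) → ∀ a ∈ 𝔄.A,
      ∀ i, (Fin.cons a w : Fin (m + 1) → ZFSet.{0}) i ∈ 𝔄.A := by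
    intro m w hw a ha i
    refine Fin.cases ?_ (fun i => ?_) i
    · exact ha
    · exact hw i
  induction φ with
  | mem i j => exact hmem _ (hv i) _ (hv j)
  | eq i j =>
    constructor
    · intro h1
      exact congrArg π h1
    · intro h1
      exact hinj _ (hv i) _ (hv j) h1
  | pF i => exact hφ.elim
  | lt i j => exact hφ.elim
  | lv i j => exact hφ.elim
  | neg φ ih => exact not_congr (ih hφ hv)
  | and φ ψ ih1 ih2 => exact and_congr (ih1 hφ.1 hv) (ih2 hφ.2 hv)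
  | @ex m φ ih => exact hφ.elim
  | @bex m i φ ih =>
    constructor
    · rintro ⟨a, ha, hai, h1⟩
      refine ⟨π a, hmaps a ha, (hmem _ ha _ (hv i)).1 hai, ?_⟩
      have h2 := (ih hφ (hc hv a ha)).1 h1
      rwa [iso_cons] at h2
    · rintro ⟨b, hb, hbi, h1⟩
      obtain ⟨a, ha, rfl⟩ := hsurj b hb
      refine ⟨a, ha, (hmem _ ha _ (hv i)).2 hbi, (ih hφ (hc hv a ha)).2 ?_⟩
      rw [iso_cons]
      exact h1

/-- The formula for extensionality. -/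
def extF : Fo 2 := .bex 0 (.neg (.mem 0 2))

theorem exists_psi : ∃ Ψ : Set Mx, FCB Ψ ∧ extF.In Ψ ∧
    DZi Ψ (fun v : Fin 3 → ZFSet.{0} => v 0 = pair (v 1) (v 2)) ∧
    DZi Ψ (fun v : Fin 1 → ZFSet.{0} => ∃ x y, v 0 = pair x y ∧ v 0 = v 0) ∧
    DZi Ψ (fun v : Fin 1 → ZFSet.{0} => ∃ u ∈ v 0, v 0 = insert u u) ∧
    DZi Ψ (fun v : Fin 1 → ZFSet.{0} => PreSq (v 0)) ∧
    DZi Ψ (fun v : Fin 2 → ZFSet.{0} => LvR (v 0) (v 1)) ∧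
    DZi Ψ (fun v : Fin 3 → ZFSet.{0} => LtR (v 0) (v 1) (v 2)) := by
  obtain ⟨Ψ1, h1, g1⟩ := DZ.toDZi (R := fun v : Fin 3 → ZFSet.{0} => v 0 = pair (v 1) (v 2))
    (DZ.isPair (D0v.proj 0) (D0v.proj 1) (D0v.proj 2))
  obtain ⟨Ψ2, h2, g2⟩ := DZ.toDZi (R := fun v : Fin 1 → ZFSet.{0} =>
      ∃ x y, v 0 = pair x y ∧ v 0 = v 0) (by
    apply DZ.expair (D0v.proj 0)
    exact DZ.eq (D0v.proj 2) (D0v.proj 2))
  obtain ⟨Ψ3, h3, g3⟩ := DZ.toDZi (R := fun v : Fin 1 → ZFSet.{0} =>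
      ∃ u ∈ v 0, v 0 = insert u u) (by
    apply DZ.bex (D0v.proj 0)
    exact DZ.isInsert (D0v.proj 1) (D0v.proj 0))
  obtain ⟨Ψ4, h4, g4⟩ := DZ.toDZi (R := fun v : Fin 1 → ZFSet.{0} => PreSq (v 0))
    (dz_PreSq (D0v.proj 0))
  obtain ⟨Ψ5, h5, g5⟩ := DZ.toDZi (R := fun v : Fin 2 → ZFSet.{0} => LvR (v 0) (v 1))
    (dz_LvR (D0v.proj 0) (D0v.proj 1))
  obtain ⟨Ψ6, h6, g6⟩ := DZ.toDZi (R := fun v : Fin 3 → ZFSet.{0} => LtR (v 0) (v 1) (v 2))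
    (dz_LtR (D0v.proj 0) (D0v.proj 1) (D0v.proj 2))
  have h7 : FCB extF.mats := ⟨extF.mats_finite, extF.cl_mats, extF.bdM_mats trivial⟩
  refine ⟨extF.mats ∪ (Ψ1 ∪ (Ψ2 ∪ (Ψ3 ∪ (Ψ4 ∪ (Ψ5 ∪ Ψ6))))),
    h7.union (h1.union (h2.union (h3.union (h4.union (h5.union h6))))), ?_, g1.mono ?_,
    g2.mono ?_, g3.mono ?_, g4.mono ?_, g5.mono ?_, g6.mono ?_⟩
  · exact (Fo.in_iff extF).2 Set.subset_union_left
  all_goals
    intro x hx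
    simp only [Set.mem_union]
    tauto

/-- Condensation, with the matrix of the formula for extensionality. -/
theorem condensation' : ∃ Ψ₀ : Set Mx, Ψ₀.Finite ∧ Cl Ψ₀ ∧ BdM Ψ₀ ∧
    (⟨2, .and (.mem 0 1) (.neg (.mem 0 2))⟩ : Mx) ∈ Ψ₀ ∧
    ∀ (F : ZFSet.{0}) (ξ : Ordinal.{0}), IsSuccLimit ξ → ∀ X : Set ZFSet.{0},
      Clsd (KA F ξ) Ψ₀ X → ∃ (π : ZFSet.{0} → ZFSet.{0}) (F' : ZFSet.{0}) (ξ' : Ordinal.{0}),
        IsSuccLimit ξ' ∧ ξ' ≤ ξ ∧ Iso ((KA F ξ).res X) (KA F' ξ') π ∧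
        (∀ x ∈ X, ∀ y, y ∈ π x ↔ ∃ z ∈ X, z ∈ x ∧ y = π z) ∧ F' ⊆ KS F' ξ' := by
  obtain ⟨Ψ, ⟨hfin, hcl, hbd⟩, hext, hPair, hIsPr, hSuc, hPre, hLv, hLt⟩ := exists_psi
  refine ⟨Ψ, hfin, hcl, hbd, hext.1, fun F ξ hξ X hX => ?_⟩
  have hXsub : ∀ x ∈ X, x ∈ KS F ξ := hX.sub
  set H : ZFSet.{0} := ZFSet.sep (fun x => x ∈ X) (KS F ξ) with hH
  have mH : ∀ {x : ZFSet.{0}}, x ∈ H ↔ x ∈ X := by
    intro x
    rw [hH, ZFSet.mem_sep]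
    exact ⟨fun h => h.2, fun h => ⟨hXsub x h, h⟩⟩
  have htr : ∀ x ∈ (KA F ξ).A, ∀ y ∈ x, y ∈ (KA F ξ).A := ks_trans ξ
  -- extensionality
  have hXt1 : ∀ x ∈ X, ∀ y ∈ X, (∃ z ∈ x, z ∉ y) → ∃ z ∈ X, z ∈ x ∧ z ∉ y := by
    rintro x hx y hy ⟨z, hz, hz'⟩
    have h1 : extF.Sat (KA F ξ) ![x, y] := ⟨z, htr x (hXsub x hx) z hz, hz, hz'⟩
    obtain ⟨a, ha, h2, h3⟩ := (clsd_sat hX hext (v := ![x, y]) (by
      intro i
      fin_cases i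
      · exact hx
      · exact hy)).2 h1
    exact ⟨a, ha, h2, h3⟩
  have hXt : Xt H := by
    intro x hx y hy h
    by_contra hne
    have h1 : (∃ z ∈ x, z ∉ y) ∨ ∃ z ∈ y, z ∉ x := by
      by_contra h2
      push Not at h2
      exact hne (ZFSet.ext fun z => ⟨h2.1 z, h2.2 z⟩)
    rcases h1 with h1 | h1
    · obtain ⟨z, hz, h2, h3⟩ := hXt1 x (mH.1 hx) y (mH.1 hy) h1
      exact h3 ((h z (mH.2 hz)).1 h2)
    · obtain ⟨z, hz, h2, h3⟩ := hXt1 y (mH.1 hy) x (mH.1 hx) h1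
      exact h3 ((h z (mH.2 hz)).2 h2)
  set π : ZFSet.{0} → ZFSet.{0} := col H with hπ
  have hπm : ∀ x y, y ∈ π x ↔ ∃ z ∈ X, z ∈ x ∧ y = π z := by
    intro x y
    rw [hπ, mem_col]
    constructor
    · rintro ⟨u, hu, hu', rfl⟩
      exact ⟨u, mH.1 hu', hu, rfl⟩
    · rintro ⟨u, hu, hu', rfl⟩
      exact ⟨u, hu', mH.2 hu, rfl⟩
  have hinj : ∀ x ∈ X, ∀ y ∈ X, π x = π y → x = y := fun x hx y hy h =>
    col_inj hXt x (mH.2 hx) y (mH.2 hy) h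
  have hmem : ∀ x ∈ X, ∀ y, (x ∈ y ↔ π x ∈ π y) := fun x hx y =>
    (col_mem_iff hXt (mH.2 hx)).symm
  -- the collapse
  set Y : ZFSet.{0} := im π H with hY
  have mY : ∀ {y : ZFSet.{0}}, y ∈ Y ↔ ∃ x ∈ X, y = π x := by
    intro y
    rw [hY, mem_im]
    exact exists_congr fun x => and_congr_left fun _ => mH
  have hYtr : ∀ x ∈ Y, ∀ y ∈ x, y ∈ Y := col_trans
  -- transfer
  have trf : ∀ {n : ℕ} {R : (Fin n → ZFSet.{0}) → Prop}, DZi Ψ R → ∀ v : Fin n → ZFSet.{0},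
      (∀ i, v i ∈ X) → (R v ↔ R fun i => π (v i)) := by
    rintro n R ⟨φ, h1, h2, h3⟩ v hv
    rw [← h3 (KA F ξ) htr v fun i => hXsub _ (hv i), ← clsd_sat hX h2 hv]
    let 𝔅 : Stc := ⟨{y | y ∈ Y}, fun _ => True, fun _ _ => True, fun x => x⟩
    rw [← h3 𝔅 hYtr (fun i => π (v i)) fun i => mY.2 ⟨_, hv i, rfl⟩]
    refine d0_iso (𝔄 := (KA F ξ).res X) (𝔅 := 𝔅) ?_ ?_ hinj (fun x hx y _ => hmem x hx y) φ h1 hv
    · exact fun x hx => mY.2 ⟨x, hx, rfl⟩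
    · intro y hy
      obtain ⟨x, hx, rfl⟩ := mY.1 hy
      exact ⟨x, hx, rfl⟩
  have tPair : ∀ x ∈ X, ∀ y ∈ X, ∀ z ∈ X, x = pair y z → π x = pair (π y) (π z) := by
    intro x hx y hy z hz h
    exact (trf hPair ![x, y, z] (by
      intro i
      fin_cases i
      exacts [hx, hy, hz])).1 h
  have tIsPr : ∀ x ∈ X, (∃ a b, π x = pair a b) → ∃ a b, x = pair a b := by
    rintro x hx ⟨a, b, h⟩
    obtain ⟨a', b', h', -⟩ := (trf hIsPr ![x] (by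
      intro i
      fin_cases i
      exact hx)).2 ⟨a, b, h, rfl⟩
    exact ⟨a', b', h'⟩
  have tSuc : ∀ x ∈ X, (∃ u ∈ x, x = insert u u) → ∃ u ∈ π x, π x = insert u u := by
    intro x hx h
    exact (trf hSuc ![x] (by
      intro i
      fin_cases i
      exact hx)).1 h
  have tPre : ∀ x ∈ X, PreSq x → PreSq (π x) := by
    intro x hx h
    exact (trf hPre ![x] (by
      intro i
      fin_cases i
      exact hx)).1 h
  have tLv : ∀ x ∈ X, ∀ y ∈ X, (LvR x y ↔ LvR (π x) (π y)) := by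
    intro x hx y hy
    exact trf hLv ![x, y] (by
      intro i
      fin_cases i
      exacts [hx, hy])
  have tLt : ∀ x ∈ X, ∀ y ∈ X, ∀ z ∈ X, (LtR x y z ↔ LtR (π x) (π y) (π z)) := by
    intro x hx y hy z hz
    exact trf hLt ![x, y, z] (by
      intro i
      fin_cases i
      exacts [hx, hy, hz])
  have hemp : ∅ ∈ X := by
    obtain ⟨x, hx⟩ := hX.ne
    have h1 := hX.sk _ hext.1 ![x, x] (by
      intro i
      fin_cases i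
      exacts [hx, hx])
    have h2 : ¬ ∃ a ∈ (KA F ξ).A, (Fo.and (.mem 0 (Fin.succ 0)) (.neg (.mem 0 2)) : Fo 3).Sat
        (KA F ξ) (Fin.cons a ![x, x]) ∧ ∀ b ∈ (KA F ξ).A,
        (Fo.and (.mem 0 (Fin.succ 0)) (.neg (.mem 0 2)) : Fo 3).Sat
        (KA F ξ) (Fin.cons b ![x, x]) → ¬ (KA F ξ).lt b a := by
      rintro ⟨a, ha, ⟨h3, h4⟩, -⟩
      exact h4 h3
    have h3 : (KA F ξ).sk (Fo.and (.mem 0 (Fin.succ 0)) (.neg (.mem 0 2)) : Fo 3) ![x, x] = ∅ := by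
      rw [Stc.sk, dif_neg h2]
    rw [← h3]
    exact h1
  have hπemp : π ∅ = ∅ := by
    rw [ZFSet.eq_empty]
    intro y hy
    obtain ⟨z, -, hz, -⟩ := (hπm _ _).1 hy
    exact ZFSet.notMem_empty _ hz
  -- the predicate
  set F' : ZFSet.{0} := im π (ZFSet.sep (fun x => x ∈ F) H) with hF'
  have mF : ∀ {y : ZFSet.{0}}, y ∈ F' ↔ ∃ x ∈ X, x ∈ F ∧ y = π x := by
    intro y
    rw [hF', mem_im]
    refine exists_congr fun x => ?_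
    rw [ZFSet.mem_sep, mH]
    tauto
  have tF : ∀ x ∈ X, (x ∈ F ↔ π x ∈ F') := by
    intro x hx
    rw [mF]
    constructor
    · exact fun h => ⟨x, hx, h, rfl⟩
    · rintro ⟨x', hx', h1, h2⟩
      exact hinj x hx x' hx' h2 ▸ h1
  -- the images of the level sequences are level sequences
  have hseq : ∀ f ∈ X, ∀ η, f = sq F η → ∃ η', π f = sq F' η' := by
    rintro f hf η rfl
    refine sq_of_preSq (tPre _ hf (preSq_sq η)) fun z e hze hlim => ?_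
    obtain ⟨p, hp, hpf, h1⟩ := (hπm _ _).1 hze
    obtain ⟨ζ, hζ, rfl⟩ := mem_sq.1 hpf
    have hz : ζ.toZFSet ∈ X := by
      have h2 := hX.fst _ hp
      rwa [fs_pair] at h2
    have he : Eh F ζ.toZFSet ∈ X := by
      have h2 := hX.snd _ hp
      rwa [sn_pair] at h2
    rw [tPair _ hp _ hz _ he rfl] at h1
    obtain ⟨rfl, rfl⟩ := ZFSet.pair_inj.1 h1
    have hlim' : ¬ ∃ u ∈ ζ.toZFSet, ζ.toZFSet = insert u u := fun h => hlim (tSuc _ hz h)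
    set E := Eh F ζ.toZFSet with hE
    have hE1 := eh_eta F ζ.toZFSet
    rw [← hE] at hE1
    have hS : eS E ∈ X := hX.fst _ he
    have h2 : sn E ∈ X := hX.snd _ he
    have hW : eW E ∈ X := hX.fst _ h2
    have h3 : sn (sn E) ∈ X := hX.snd _ h2
    have hP : eP E ∈ X := hX.fst _ h3
    have hR : eR E ∈ X := hX.snd _ h3
    have h4 : pair (eP E) (eR E) ∈ X := hX.pr _ hP _ hR
    have h5 : pair (eW E) (pair (eP E) (eR E)) ∈ X := hX.pr _ hW _ h4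
    have h6 : π E = pair (π (eS E)) (pair (π (eW E)) (pair (π (eP E)) (π (eR E)))) := by
      rw [tPair _ he _ hS _ h5 hE1, tPair _ h5 _ hW _ h4 rfl, tPair _ h4 _ hP _ hR rfl]
    have h7 : eP E = F ∩ eS E := by
      rw [hE, eh_lim hlim']
      simp only [lmt, eP, eS, fs_pair, sn_pair]
    rw [h6]
    have h8 : eP (pair (π (eS E)) (pair (π (eW E)) (pair (π (eP E)) (π (eR E))))) =
        π (eP E) := by
      simp only [eP, fs_pair, sn_pair]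
    have h9 : eS (pair (π (eS E)) (pair (π (eW E)) (pair (π (eP E)) (π (eR E))))) =
        π (eS E) := by
      simp only [eS, fs_pair]
    rw [h8, h9]
    ext y
    rw [ZFSet.mem_inter, hπm, hπm, mF]
    constructor
    · rintro ⟨w, hw, hwP, rfl⟩
      rw [h7, ZFSet.mem_inter] at hwP
      exact ⟨⟨w, hw, hwP.1, rfl⟩, w, hw, hwP.2, rfl⟩
    · rintro ⟨⟨w, hw, hwF, rfl⟩, w', hw', hwS, h10⟩
      obtain rfl := hinj w hw w' hw' h10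
      refine ⟨w, hw, ?_, rfl⟩
      rw [h7]
      exact ZFSet.mem_inter.2 ⟨hwF, hwS⟩
  -- the level sequences of elements
  have hlev : ∀ x ∈ X, ∃ η η', η ≤ ξ ∧ x ∈ KS F η ∧ lvl F x = sq F η ∧ lvl F x ∈ X ∧
      π (lvl F x) = sq F' η' ∧ π x ∈ KS F' η' ∧ ∀ ζ < η', π x ∉ KS F' ζ := by
    intro x hx
    obtain ⟨η, h1, h2, h3, h4⟩ := lvl_eq (hXsub x hx)
    have h5 : lvl F x ∈ X := hX.lv x hx
    obtain ⟨η', h6⟩ := hseq _ h5 η h4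
    have h7 : LvR x (lvl F x) := by
      rw [h4]
      exact lvR_sq.2 ⟨h2, h3⟩
    have h8 := (tLv x hx _ h5).1 h7
    rw [h6] at h8
    obtain ⟨h9, h10⟩ := lvR_sq.1 h8
    exact ⟨η, η', h1, h2, h4, h5, h6, h9, h10⟩
  have hparts : ∀ η', sq F' η' ∈ Y → η'.toZFSet ∈ Y ∧ ∀ y ∈ KS F' η', y ∈ Y := by
    intro η' h
    have h1 : pair η'.toZFSet (Eh F' η'.toZFSet) ∈ Y := hYtr _ h _ (mem_sq.2 ⟨η', le_rfl, rfl⟩)
    have h2 : ∀ {a b : ZFSet.{0}}, pair a b ∈ Y → a ∈ Y ∧ b ∈ Y := by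
      intro a b h
      have h1 : ({a, b} : ZFSet.{0}) ∈ Y := hYtr _ h _ (by simp [pair])
      exact ⟨hYtr _ h1 _ (by simp), hYtr _ h1 _ (by simp)⟩
    have h3 := (h2 h1).2
    rw [eh_eta] at h3
    exact ⟨(h2 h1).1, fun y hy => hYtr _ (h2 h3).1 _ hy⟩
  -- the height
  have hrk : ¬ (Y.rank).toZFSet ∈ Y := by
    intro h
    have h1 := ZFSet.rank_lt_of_mem h
    rw [Ordinal.rank_toZFSet] at h1
    exact lt_irrefl _ h1
  have hne : {α : Ordinal.{0} | α.toZFSet ∉ Y}.Nonempty := ⟨_, hrk⟩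
  set ξ' : Ordinal.{0} := sInf {α : Ordinal.{0} | α.toZFSet ∉ Y} with hξ'
  have hlt : ∀ {α : Ordinal.{0}}, α.toZFSet ∈ Y ↔ α < ξ' := by
    intro α
    constructor
    · intro h
      by_contra h1
      rw [not_lt] at h1
      have h2 : ξ'.toZFSet ∉ Y := csInf_mem hne
      rcases h1.lt_or_eq with h3 | h3
      · exact h2 (hYtr _ h _ (Ordinal.toZFSet_mem_toZFSet_iff.2 h3))
      · exact h2 (h3 ▸ h)
    · intro h
      by_contra h1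
      exact notMem_of_lt_csInf' h h1
  have hup : ∀ α < ξ', ∃ η', α < η' ∧ η' < ξ' ∧ ∀ y ∈ KS F' η', y ∈ Y := by
    intro α hα
    obtain ⟨x, hx, h1⟩ := mY.1 (hlt.2 hα)
    obtain ⟨η, η', -, -, -, h2, h3, h4, -⟩ := hlev x hx
    have h5 := hparts η' (mY.2 ⟨_, h2, h3.symm⟩)
    rw [← h1] at h4
    exact ⟨η', ks_ord_le h4, hlt.1 h5.1, h5.2⟩
  have hlimit : IsSuccLimit ξ' := by
    rw [Order.isSuccLimit_iff]
    constructor
    · obtain ⟨x, hx⟩ := hX.ne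
      obtain ⟨η, η', -, -, -, h2, h3, -, -⟩ := hlev x hx
      have h5 := hparts η' (mY.2 ⟨_, h2, h3.symm⟩)
      have h6 := hlt.1 h5.1
      rw [isMin_iff_eq_bot]
      rintro h7
      rw [h7] at h6
      exact not_lt_bot h6
    · intro α hα
      obtain ⟨η', h1, h2, -⟩ := hup α hα.lt
      exact hα.2 h1 h2
  have hYK : ∀ y, y ∈ Y ↔ y ∈ KS F' ξ' := by
    intro y
    rw [ks_limit hlimit]
    constructor
    · intro hy
      obtain ⟨x, hx, rfl⟩ := mY.1 hy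
      obtain ⟨η, η', -, -, -, h2, h3, h4, -⟩ := hlev x hx
      have h5 := hparts η' (mY.2 ⟨_, h2, h3.symm⟩)
      exact ⟨η', hlt.1 h5.1, h4⟩
    · rintro ⟨α, hα, hy⟩
      obtain ⟨η', h1, -, h3⟩ := hup α hα
      exact h3 y (ks_mono h1.le hy)
  have hrank : ∀ x, (π x).rank ≤ x.rank := by
    intro x
    induction x using ZFSet.inductionOn with
    | _ x ih =>
    rw [ZFSet.rank_le_iff]
    intro y hy
    obtain ⟨z, -, hz, rfl⟩ := (hπm _ _).1 hy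
    exact (ih z hz).trans_lt (ZFSet.rank_lt_of_mem hz)
  have hle : ξ' ≤ ξ := by
    by_contra h
    rw [not_le] at h
    obtain ⟨x, hx, h1⟩ := mY.1 (hlt.2 h)
    have h2 := hrank x
    rw [← h1, Ordinal.rank_toZFSet] at h2
    exact absurd (ks_rank hξ x (hXsub x hx)) h2.not_gt
  refine ⟨π, F', ξ', hlimit, hle, ?_, fun x hx y => hπm x y, ?_⟩
  · refine ⟨?_, ?_, hinj, fun x hx y _ => hmem x hx y, tF, ?_, ?_, ?_, ?_, ?_, hemp, hπemp⟩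
    · exact fun x hx => (hYK _).1 (mY.2 ⟨x, hx, rfl⟩)
    · intro y hy
      obtain ⟨x, hx, rfl⟩ := mY.1 ((hYK _).2 hy)
      exact ⟨x, hx, rfl⟩
    · intro x hx y hy
      obtain ⟨η, η', h1, h2, h3, h4, h5, h6, -⟩ := hlev y hy
      have h7 := hparts η' (mY.2 ⟨_, h4, h5.symm⟩)
      have h8 := hlt.1 h7.1
      have h9 := tLt x hx y hy _ h4
      rw [h5, ltR_sq h6, h3, ltR_sq h2] at h9
      exact ((kw_end h1 h2).trans h9).trans (kw_end h8.le h6).symm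
    · exact fun x hx y hy hxy => tPair _ hxy _ hx _ hy rfl
    · intro x hx
      by_cases h : ∃ a b, x = pair a b
      · obtain ⟨a, b, rfl⟩ := h
        have ha := hX.fst _ hx
        have hb := hX.snd _ hx
        rw [fs_pair] at ha
        rw [sn_pair] at hb
        rw [fs_pair, tPair _ hx _ ha _ hb rfl, fs_pair]
      · have h' : ¬ ∃ a b, π x = pair a b := fun h1 => h (tIsPr x hx h1)
        rw [fs, fs, dif_neg h, dif_neg h']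
        exact hπemp
    · intro x hx
      by_cases h : ∃ a b, x = pair a b
      · obtain ⟨a, b, rfl⟩ := h
        have ha := hX.fst _ hx
        have hb := hX.snd _ hx
        rw [fs_pair] at ha
        rw [sn_pair] at hb
        rw [sn_pair, tPair _ hx _ ha _ hb rfl, sn_pair]
      · have h' : ¬ ∃ a b, π x = pair a b := fun h1 => h (tIsPr x hx h1)
        rw [sn, sn, dif_neg h, dif_neg h']
        exact hπemp
    · intro x hx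
      obtain ⟨η, η', h1, h2, h3, h4, h5, h6, h7⟩ := hlev x hx
      have h8 : lvl F' (π x) = sq F' η' := by
        have h9 : ∃ η, π x ∈ KS F' η := ⟨η', h6⟩
        rw [lvl, if_pos h9]
        congr 1
        apply le_antisymm
        · exact csInf_le' h6
        · rw [← not_lt]
          intro h10
          exact h7 _ h10 (csInf_mem (s := {η | π x ∈ KS F' η}) h9)
      exact h5.trans h8.symm
  · intro y hy
    obtain ⟨x, hx, -, rfl⟩ := mF.1 hy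
    exact (hYK _).1 (mY.2 ⟨x, hx, rfl⟩)

/-- Condensation. -/
theorem condensation : ∃ Ψ₀ : Set Mx, Ψ₀.Finite ∧ Cl Ψ₀ ∧ BdM Ψ₀ ∧
    ∀ (F : ZFSet.{0}) (ξ : Ordinal.{0}), IsSuccLimit ξ → ∀ X : Set ZFSet.{0},
      Clsd (KA F ξ) Ψ₀ X → ∃ (π : ZFSet.{0} → ZFSet.{0}) (F' : ZFSet.{0}) (ξ' : Ordinal.{0}),
        IsSuccLimit ξ' ∧ ξ' ≤ ξ ∧ Iso ((KA F ξ).res X) (KA F' ξ') π ∧
        (∀ x ∈ X, ∀ y, y ∈ π x ↔ ∃ z ∈ X, z ∈ x ∧ y = π z) ∧ F' ⊆ KS F' ξ' := by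
  obtain ⟨Ψ, h1, h2, h3, -, h4⟩ := condensation'
  exact ⟨Ψ, h1, h2, h3, h4⟩

end Pool.Agent.helper797_cs
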