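import Pool.Agent.helper797_cs.KDefs

/-!
# A calculus of relations that are defined by `Δ₀` formulas
-/

set_option autoImplicit false
set_option linter.unreachableTactic false
set_option linter.unusedTactic false
set_option linter.unusedVariables false

namespace Pool.Agent.helper797_cs

open Pool.Agent.W868 Pool.Agent.R587
open ZFSet (pair)

/-- Renaming of variables. -/
def Fo.ren : {n : ℕ} → Fo n → {m : ℕ} → (Fin n → Fin m) → Fo m
  | _, .mem i j, _, ρ => .mem (ρ i) (ρ j)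
  | _, .eq i j, _, ρ => .eq (ρ i) (ρ j)
  | _, .pF i, _, ρ => .pF (ρ i)
  | _, .lt i j, _, ρ => .lt (ρ i) (ρ j)
  | _, .lv i j, _, ρ => .lv (ρ i) (ρ j)
  | _, .neg φ, _, ρ => .neg (φ.ren ρ)
  | _, .and φ ψ, _, ρ => .and (φ.ren ρ) (ψ.ren ρ)
  | _, .ex φ, _, ρ => .ex (φ.ren (Fin.cons 0 fun i => (ρ i).succ))
  | _, .bex i φ, _, ρ => .bex (ρ i) (φ.ren (Fin.cons 0 fun i => (ρ i).succ))

theorem Fo.cons_ren {n m : ℕ} (ρ : Fin n → Fin m) (a : ZFSet.{0}) (v : Fin m → ZFSet.{0}) :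
    (fun i => (Fin.cons a v : Fin (m + 1) → ZFSet.{0})
      ((Fin.cons 0 fun i => (ρ i).succ : Fin (n + 1) → Fin (m + 1)) i)) =
      Fin.cons a fun i => v (ρ i) := by
  funext i
  refine Fin.cases ?_ (fun i => ?_) i
  · rfl
  · rfl

theorem Fo.sat_ren (𝔄 : Stc) : {n : ℕ} → (φ : Fo n) → {m : ℕ} → (ρ : Fin n → Fin m) →
    (v : Fin m → ZFSet.{0}) → ((φ.ren ρ).Sat 𝔄 v ↔ φ.Sat 𝔄 fun i => v (ρ i))
  | _, .mem i j, _, ρ, v => Iff.rfl
  | _, .eq i j, _, ρ, v => Iff.rfl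
  | _, .pF i, _, ρ, v => Iff.rfl
  | _, .lt i j, _, ρ, v => Iff.rfl
  | _, .lv i j, _, ρ, v => Iff.rfl
  | _, .neg φ, _, ρ, v => not_congr (Fo.sat_ren 𝔄 φ ρ v)
  | _, .and φ ψ, _, ρ, v => and_congr (Fo.sat_ren 𝔄 φ ρ v) (Fo.sat_ren 𝔄 ψ ρ v)
  | _, .ex φ, _, ρ, v => by
    refine exists_congr fun a => and_congr_right fun _ => ?_
    rw [Fo.sat_ren 𝔄 φ, Fo.cons_ren]
  | _, .bex i φ, _, ρ, v => by
    refine exists_congr fun a => and_congr_right fun _ => and_congr_right fun _ => ?_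
    rw [Fo.sat_ren 𝔄 φ, Fo.cons_ren]

theorem Fo.isD0_ren : {n : ℕ} → (φ : Fo n) → {m : ℕ} → (ρ : Fin n → Fin m) → φ.IsD0 →
    (φ.ren ρ).IsD0
  | _, .mem i j, _, ρ, _ => trivial
  | _, .eq i j, _, ρ, _ => trivial
  | _, .pF i, _, ρ, h => h
  | _, .lt i j, _, ρ, h => h
  | _, .lv i j, _, ρ, h => h
  | _, .neg φ, _, ρ, h => Fo.isD0_ren φ ρ h
  | _, .and φ ψ, _, ρ, h => ⟨Fo.isD0_ren φ ρ h.1, Fo.isD0_ren ψ ρ h.2⟩
  | _, .ex φ, _, ρ, h => h
  | _, .bex i φ, _, ρ, h => Fo.isD0_ren φ _ h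

/-- The matrices of the quantifiers in a formula. -/
def Fo.mats : {n : ℕ} → Fo n → Set Mx
  | _, .mem _ _ => ∅
  | _, .eq _ _ => ∅
  | _, .pF _ => ∅
  | _, .lt _ _ => ∅
  | _, .lv _ _ => ∅
  | _, .neg φ => φ.mats
  | _, .and φ ψ => φ.mats ∪ ψ.mats
  | n, .ex φ => insert ⟨n, φ⟩ φ.mats
  | n, .bex i φ => insert ⟨n, .and (.mem 0 i.succ) φ⟩ φ.mats

theorem Fo.mats_finite : {n : ℕ} → (φ : Fo n) → φ.mats.Finite
  | _, .mem _ _ => Set.finite_empty
  | _, .eq _ _ => Set.finite_empty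
  | _, .pF _ => Set.finite_empty
  | _, .lt _ _ => Set.finite_empty
  | _, .lv _ _ => Set.finite_empty
  | _, .neg φ => Fo.mats_finite φ
  | _, .and φ ψ => (Fo.mats_finite φ).union (Fo.mats_finite ψ)
  | n, .ex φ => (Fo.mats_finite φ).insert _
  | n, .bex i φ => (Fo.mats_finite φ).insert _

theorem Fo.in_iff {Ψ : Set Mx} : {n : ℕ} → (φ : Fo n) → (φ.In Ψ ↔ φ.mats ⊆ Ψ)
  | _, .mem _ _ => iff_of_true trivial (Set.empty_subset _)
  | _, .eq _ _ => iff_of_true trivial (Set.empty_subset _)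
  | _, .pF _ => iff_of_true trivial (Set.empty_subset _)
  | _, .lt _ _ => iff_of_true trivial (Set.empty_subset _)
  | _, .lv _ _ => iff_of_true trivial (Set.empty_subset _)
  | _, .neg φ => Fo.in_iff φ
  | _, .and φ ψ => by
    rw [Fo.mats, Set.union_subset_iff, Fo.In, Fo.in_iff φ, Fo.in_iff ψ]
  | n, .ex φ => by
    rw [Fo.mats, Set.insert_subset_iff, Fo.In, Fo.in_iff φ]
  | n, .bex i φ => by
    rw [Fo.mats, Set.insert_subset_iff, Fo.In, Fo.in_iff φ]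

theorem Fo.In.mono {Ψ Ψ' : Set Mx} (h : Ψ ⊆ Ψ') {n : ℕ} {φ : Fo n} (hφ : φ.In Ψ) :
    φ.In Ψ' := (Fo.in_iff φ).2 (((Fo.in_iff φ).1 hφ).trans h)

theorem Fo.cl_mats : {n : ℕ} → (φ : Fo n) → Cl φ.mats
  | _, .mem _ _ => fun _ h => h.elim
  | _, .eq _ _ => fun _ h => h.elim
  | _, .pF _ => fun _ h => h.elim
  | _, .lt _ _ => fun _ h => h.elim
  | _, .lv _ _ => fun _ h => h.elim
  | _, .neg φ => Fo.cl_mats φ
  | _, .and φ ψ => by
    rintro χ (h | h)
    · exact (Fo.cl_mats φ χ h).mono Set.subset_union_left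
    · exact (Fo.cl_mats ψ χ h).mono Set.subset_union_right
  | n, .ex φ => by
    rintro χ (rfl | h)
    · exact ((Fo.in_iff φ).2 (Set.Subset.refl _)).mono (Set.subset_insert _ _)
    · exact (Fo.cl_mats φ χ h).mono (Set.subset_insert _ _)
  | n, .bex i φ => by
    rintro χ (rfl | h)
    · exact ⟨trivial, ((Fo.in_iff φ).2 (Set.Subset.refl _)).mono (Set.subset_insert _ _)⟩
    · exact (Fo.cl_mats φ χ h).mono (Set.subset_insert _ _)

theorem Fo.bdM_mats : {n : ℕ} → (φ : Fo n) → φ.IsD0 → BdM φ.mats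
  | _, .mem _ _, _ => fun _ h => h.elim
  | _, .eq _ _, _ => fun _ h => h.elim
  | _, .pF _, _ => fun _ h => h.elim
  | _, .lt _ _, _ => fun _ h => h.elim
  | _, .lv _ _, _ => fun _ h => h.elim
  | _, .neg φ, h => Fo.bdM_mats φ h
  | _, .and φ ψ, hd => by
    rintro χ (h | h)
    · exact Fo.bdM_mats φ hd.1 χ h
    · exact Fo.bdM_mats ψ hd.2 χ h
  | n, .ex φ, hd => hd.elim
  | n, .bex i φ, hd => by
    rintro χ (rfl | h)
    · exact ⟨i, φ, rfl, hd⟩
    · exact Fo.bdM_mats φ hd χ h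

theorem Cl.union {Ψ Ψ' : Set Mx} (h : Cl Ψ) (h' : Cl Ψ') : Cl (Ψ ∪ Ψ') := by
  rintro χ (h1 | h1)
  · exact (h χ h1).mono Set.subset_union_left
  · exact (h' χ h1).mono Set.subset_union_right

theorem BdM.union {Ψ Ψ' : Set Mx} (h : BdM Ψ) (h' : BdM Ψ') : BdM (Ψ ∪ Ψ') := by
  rintro χ (h1 | h1)
  · exact h χ h1
  · exact h' χ h1

/-! ### The calculus -/

/-- `R` is defined by one `Δ₀` formula in all structures with a transitive universe. -/
def DZ {n : ℕ} (R : (Fin n → ZFSet.{0}) → Prop) : Prop :=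
  ∃ φ : Fo n, φ.IsD0 ∧ ∀ 𝔄 : Stc, (∀ x ∈ 𝔄.A, ∀ y ∈ x, y ∈ 𝔄.A) →
    ∀ v, (∀ i, v i ∈ 𝔄.A) → (φ.Sat 𝔄 v ↔ R v)

section

variable {n : ℕ} {R T : (Fin n → ZFSet.{0}) → Prop} {F G H : (Fin n → ZFSet.{0}) → ZFSet.{0}}

theorem DZ.congr (h : DZ R) (h' : ∀ v, R v ↔ T v) : DZ T := by
  obtain ⟨φ, h1, hφ⟩ := h
  exact ⟨φ, h1, fun M hM v hv => (hφ M hM v hv).trans (h' v)⟩

theorem DZ.not (h : DZ R) : DZ fun v => ¬ R v := by
  obtain ⟨φ, h1, hφ⟩ := h
  exact ⟨.neg φ, h1, fun M hM v hv => not_congr (hφ M hM v hv)⟩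

theorem DZ.and (h : DZ R) (h' : DZ T) : DZ fun v => R v ∧ T v := by
  obtain ⟨φ, h1, hφ⟩ := h
  obtain ⟨ψ, h2, hψ⟩ := h'
  exact ⟨.and φ ψ, ⟨h1, h2⟩, fun M hM v hv => and_congr (hφ M hM v hv) (hψ M hM v hv)⟩

theorem DZ.or (h : DZ R) (h' : DZ T) : DZ fun v => R v ∨ T v :=
  (h.not.and h'.not).not.congr fun v => by tauto

theorem DZ.imp (h : DZ R) (h' : DZ T) : DZ fun v => R v → T v :=
  (h.and h'.not).not.congr fun v => by tauto

theorem DZ.iff (h : DZ R) (h' : DZ T) : DZ fun v => R v ↔ T v :=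
  ((h.imp h').and (h'.imp h)).congr fun v => by tauto

theorem DZ.comp (h : DZ R) {m : ℕ} (ρ : Fin n → Fin m) :
    DZ fun v : Fin m → ZFSet.{0} => R fun i => v (ρ i) := by
  obtain ⟨φ, h1, hφ⟩ := h
  refine ⟨φ.ren ρ, Fo.isD0_ren _ _ h1, fun M hM v hv => ?_⟩
  rw [Fo.sat_ren]
  exact hφ M hM _ fun i => hv _

theorem DZ.tail (h : DZ R) : DZ fun w : Fin (n + 1) → ZFSet.{0} => R (Fin.tail w) :=
  h.comp Fin.succ

theorem DZ.mem (hF : D0v F) (hG : D0v G) : DZ fun v => F v ∈ G v := by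
  obtain ⟨i, hi⟩ := hF
  obtain ⟨j, hj⟩ := hG
  refine ⟨.mem i j, trivial, fun M _ v _ => ?_⟩
  beta_reduce
  rw [hi, hj]
  rfl

theorem DZ.eq (hF : D0v F) (hG : D0v G) : DZ fun v => F v = G v := by
  obtain ⟨i, hi⟩ := hF
  obtain ⟨j, hj⟩ := hG
  refine ⟨.eq i j, trivial, fun M _ v _ => ?_⟩
  beta_reduce
  rw [hi, hj]
  rfl

theorem DZ.tt (hF : D0v F) : DZ fun _ : Fin n → ZFSet.{0} => True :=
  (DZ.eq hF hF).congr fun _ => iff_of_true rfl trivial

theorem DZ.bex {Q : ZFSet.{0} → (Fin n → ZFSet.{0}) → Prop} (hF : D0v F)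
    (h : DZ fun w : Fin (n + 1) → ZFSet.{0} => Q (w 0) (Fin.tail w)) :
    DZ fun v => ∃ a ∈ F v, Q a v := by
  obtain ⟨i, hi⟩ := hF
  obtain ⟨φ, h0, hφ⟩ := h
  refine ⟨.bex i φ, h0, fun M hM v hv => ?_⟩
  beta_reduce
  rw [hi]
  have hc : ∀ a ∈ M.A, ∀ k, (Fin.cons a v : Fin (n + 1) → ZFSet.{0}) k ∈ M.A := by
    intro a ha k
    refine Fin.cases ?_ (fun k => ?_) k
    · exact ha
    · exact hv k
  constructor
  · rintro ⟨a, ha, h1, h2⟩
    exact ⟨a, h1, (hφ M hM _ (hc a ha)).1 h2⟩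
  · rintro ⟨a, h1, h2⟩
    have ha := hM _ (hv i) a h1
    exact ⟨a, ha, h1, (hφ M hM _ (hc a ha)).2 h2⟩

theorem DZ.ball {Q : ZFSet.{0} → (Fin n → ZFSet.{0}) → Prop} (hF : D0v F)
    (h : DZ fun w : Fin (n + 1) → ZFSet.{0} => Q (w 0) (Fin.tail w)) :
    DZ fun v => ∀ a ∈ F v, Q a v := by
  have h1 : DZ fun v => ∃ a ∈ F v, ¬ Q a v := DZ.bex (Q := fun a v => ¬ Q a v) hF h.not
  exact h1.not.congr fun v => by
    constructor
    · intro h2 a ha
      by_contra h3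
      exact h2 ⟨a, ha, h3⟩
    · rintro h2 ⟨a, ha, h3⟩
      exact h3 (h2 a ha)

theorem DZ.exLt (hF : D0v F) {R : ℕ → (Fin n → ZFSet.{0}) → Prop} (h : ∀ i, DZ (R i)) (k : ℕ) :
    DZ fun v => ∃ i < k, R i v := by
  induction k with
  | zero => exact (DZ.tt hF).not.congr fun v => by simp
  | succ k ih =>
    refine (ih.or (h k)).congr fun v => ?_
    constructor
    · rintro (⟨i, hi, h1⟩ | h1)
      · exact ⟨i, by omega, h1⟩
      · exact ⟨k, by omega, h1⟩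
    · rintro ⟨i, hi, h1⟩
      rcases Nat.lt_succ_iff_lt_or_eq.1 hi with h2 | rfl
      · exact Or.inl ⟨i, h2, h1⟩
      · exact Or.inr h1

theorem DZ.allLt (hF : D0v F) {R : ℕ → (Fin n → ZFSet.{0}) → Prop} (h : ∀ i, DZ (R i)) (k : ℕ) :
    DZ fun v => ∀ i < k, R i v :=
  (DZ.exLt hF (fun i => (h i).not) k).not.congr fun v => by
    constructor
    · intro h2 a ha
      by_contra h3
      exact h2 ⟨a, ha, h3⟩
    · rintro h2 ⟨a, ha, h3⟩
      exact h3 (h2 a ha)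

theorem DZ.isPair (hF : D0v F) (hG : D0v G) (hH : D0v H) : DZ fun v => F v = pair (G v) (H v) := by
  have h1 : DZ fun v => (∃ p ∈ F v, G v ∈ p ∧ ∀ u ∈ p, u = G v) ∧
      (∃ q ∈ F v, G v ∈ q ∧ H v ∈ q ∧ ∀ u ∈ q, u = G v ∨ u = H v) ∧
      ∀ r ∈ F v, (G v ∈ r ∧ ∀ u ∈ r, u = G v) ∨
        (G v ∈ r ∧ H v ∈ r ∧ ∀ u ∈ r, u = G v ∨ u = H v) := by
    have h1 := hG.tail
    have h2 := hH.tail
    have h3 := h1.tail
    have h4 := h2.tail
    (repeat' first
      | assumption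
      | exact D0v.proj _
      | apply DZ.not | apply DZ.and | apply DZ.or | apply DZ.imp | apply DZ.iff
      | apply DZ.bex | apply DZ.ball
      | apply DZ.eq | apply DZ.mem)
  refine h1.congr fun v => ?_
  have s1 : ∀ p a : ZFSet.{0}, (a ∈ p ∧ ∀ u ∈ p, u = a) ↔ p = {a} := by
    intro p a
    constructor
    · rintro ⟨h2, h3⟩
      ext u
      rw [ZFSet.mem_singleton]
      exact ⟨h3 u, fun h => h ▸ h2⟩
    · rintro rfl
      exact ⟨ZFSet.mem_singleton.2 rfl, fun u hu => ZFSet.mem_singleton.1 hu⟩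
  have s2 : ∀ p a b : ZFSet.{0}, (a ∈ p ∧ b ∈ p ∧ ∀ u ∈ p, u = a ∨ u = b) ↔ p = {a, b} := by
    intro p a b
    constructor
    · rintro ⟨h2, h3, h4⟩
      ext u
      rw [ZFSet.mem_pair]
      exact ⟨h4 u, fun h => h.elim (fun h => h ▸ h2) (fun h => h ▸ h3)⟩
    · rintro rfl
      exact ⟨ZFSet.mem_pair.2 (Or.inl rfl), ZFSet.mem_pair.2 (Or.inr rfl),
        fun u hu => ZFSet.mem_pair.1 hu⟩
  simp only [s1, s2]
  constructor
  · rintro ⟨⟨p, hp, rfl⟩, ⟨q, hq, rfl⟩, h4⟩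
    ext r
    rw [pair, ZFSet.mem_pair]
    exact ⟨h4 r, fun h => h.elim (fun h => h ▸ hp) (fun h => h ▸ hq)⟩
  · intro h
    rw [h, pair]
    exact ⟨⟨_, ZFSet.mem_pair.2 (Or.inl rfl), rfl⟩, ⟨_, ZFSet.mem_pair.2 (Or.inr rfl), rfl⟩,
      fun r hr => ZFSet.mem_pair.1 hr⟩

/-- Quantification over the components of a pair. -/
theorem DZ.expair {Q : ZFSet.{0} → ZFSet.{0} → (Fin n → ZFSet.{0}) → Prop} (hF : D0v F)
    (h : DZ fun w : Fin (n + 2) → ZFSet.{0} => Q (w 1) (w 0) (Fin.tail (Fin.tail w))) :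
    DZ fun v => ∃ x y, F v = pair x y ∧ Q x y v := by
  have h1 : DZ fun v => ∃ q ∈ F v, ∃ x ∈ q, ∃ y ∈ q, F v = pair x y ∧ Q x y v := by
    apply DZ.bex hF
    apply DZ.bex (D0v.proj 0)
    apply DZ.bex (D0v.proj 1)
    apply DZ.and
    · exact DZ.isPair hF.tail.tail.tail (D0v.proj 1) (D0v.proj 0)
    · exact h.comp (Fin.cons 0 (Fin.cons 1 fun i => i.succ.succ.succ))
  refine h1.congr fun v => ?_
  constructor
  · rintro ⟨q, -, x, -, y, -, h2⟩
    exact ⟨x, y, h2⟩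
  · rintro ⟨x, y, h2⟩
    refine ⟨{x, y}, ?_, x, ZFSet.mem_pair.2 (Or.inl rfl), y, ZFSet.mem_pair.2 (Or.inr rfl), h2⟩
    rw [h2.1, pair]
    exact ZFSet.mem_pair.2 (Or.inr rfl)

theorem DZ.pairMem (hF : D0v F) (hG : D0v G) (hH : D0v H) : DZ fun v => pair (F v) (G v) ∈ H v := by
  have h1 : DZ fun v => ∃ p ∈ H v, p = pair (F v) (G v) := by
    apply DZ.bex hH
    exact DZ.isPair (D0v.proj 0) hF.tail hG.tail
  exact h1.congr fun v => ⟨fun ⟨p, hp, h⟩ => h ▸ hp, fun h => ⟨_, h, rfl⟩⟩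

theorem DZ.subset (hF : D0v F) (hG : D0v G) : DZ fun v => F v ⊆ G v := by
  have h1 : DZ fun v => ∀ x ∈ F v, x ∈ G v := DZ.ball hF (DZ.mem (D0v.proj 0) hG.tail)
  exact h1

theorem DZ.isOrdinal (hF : D0v F) : DZ fun v => (F v).IsOrdinal := by
  have h : DZ fun v => (∀ y ∈ F v, ∀ z ∈ y, z ∈ F v) ∧
      ∀ y ∈ F v, ∀ z ∈ y, ∀ u ∈ z, u ∈ y := by
    have h1 := hF.tail.tail
    (repeat' first
      | assumption
      | exact D0v.proj _
      | apply DZ.not | apply DZ.and | apply DZ.or | apply DZ.imp | apply DZ.iff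
      | apply DZ.bex | apply DZ.ball
      | apply DZ.eq | apply DZ.mem)
  refine h.congr fun v => ?_
  constructor
  · rintro ⟨h1, h2⟩
    exact ⟨fun y hy z hz => h1 y hy z hz, fun {y z w} h3 h4 h5 => h2 w h5 z h4 y h3⟩
  · rintro ⟨h1, h2⟩
    exact ⟨fun y hy z hz => h1.mem_trans hz hy, fun y hy z hz u hu => h2 hu hz hy⟩

theorem DZ.isEmpty (hF : D0v F) : DZ fun v => F v = ∅ := by
  have h : DZ fun v => ¬ ∃ y ∈ F v, y = y := by
    apply DZ.not
    apply DZ.bex hF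
    exact DZ.eq (D0v.proj 0) (D0v.proj 0)
  refine h.congr fun v => ?_
  rw [ZFSet.eq_empty]
  constructor
  · intro h1 y hy
    exact h1 ⟨y, hy, rfl⟩
  · rintro h1 ⟨y, hy, -⟩
    exact h1 y hy

theorem DZ.isInsert (hF : D0v F) (hG : D0v G) : DZ fun v => F v = insert (G v) (G v) := by
  have h : DZ fun v => G v ∈ F v ∧ (∀ y ∈ G v, y ∈ F v) ∧ ∀ y ∈ F v, y = G v ∨ y ∈ G v := by
    have h1 := hF.tail
    have h2 := hG.tail
    (repeat' first
      | assumption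
      | exact D0v.proj _
      | apply DZ.not | apply DZ.and | apply DZ.or | apply DZ.imp | apply DZ.iff
      | apply DZ.bex | apply DZ.ball
      | apply DZ.eq | apply DZ.mem)
  refine h.congr fun v => ?_
  constructor
  · rintro ⟨h1, h2, h3⟩
    ext y
    rw [ZFSet.mem_insert_iff]
    exact ⟨h3 y, fun h => h.elim (fun h => h ▸ h1) (h2 y)⟩
  · intro h1
    rw [h1]
    exact ⟨ZFSet.mem_insert _ _, fun y hy => ZFSet.mem_insert_of_mem _ hy,
      fun y hy => ZFSet.mem_insert_iff.1 hy⟩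

theorem DZ.ballIns {Q : ZFSet.{0} → (Fin n → ZFSet.{0}) → Prop} (hF : D0v F)
    (h : DZ fun w : Fin (n + 1) → ZFSet.{0} => Q (w 0) (Fin.tail w)) :
    DZ fun v => ∀ a ∈ (insert (F v) (F v) : ZFSet.{0}), Q a v := by
  have h1 : DZ fun v => Q (F v) v ∧ ∀ a ∈ F v, Q a v := by
    refine DZ.and ?_ (DZ.ball hF h)
    obtain ⟨i, hi⟩ := hF
    refine (h.comp (Fin.cons i id)).congr fun v => ?_
    rw [hi]
    rfl
  refine h1.congr fun v => ?_
  constructor
  · rintro ⟨h2, h3⟩ a ha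
    rcases ZFSet.mem_insert_iff.1 ha with rfl | ha
    · exact h2
    · exact h3 a ha
  · intro h2
    exact ⟨h2 _ (ZFSet.mem_insert _ _), fun a ha => h2 a (ZFSet.mem_insert_of_mem _ ha)⟩

theorem DZ.bexIns {Q : ZFSet.{0} → (Fin n → ZFSet.{0}) → Prop} (hF : D0v F)
    (h : DZ fun w : Fin (n + 1) → ZFSet.{0} => Q (w 0) (Fin.tail w)) :
    DZ fun v => ∃ a ∈ (insert (F v) (F v) : ZFSet.{0}), Q a v := by
  have h1 := (DZ.ballIns (Q := fun a v => ¬ Q a v) hF h.not).not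
  refine h1.congr fun v => ?_
  constructor
  · intro h2
    by_contra h3
    exact h2 fun a ha h4 => h3 ⟨a, ha, h4⟩
  · rintro ⟨a, ha, h2⟩ h3
    exact h3 a ha h2

end

/-! ### The basic operations -/

theorem dz_GR0 : ∀ i : ℕ, DZ fun v : Fin 3 → ZFSet.{0} => GR ∅ i (v 0) (v 1) (v 2)
  | 0 => by
    unfold GR
    (repeat' first
      | assumption
      | exact D0v.proj _
      | apply DZ.not | apply DZ.and | apply DZ.expair | apply DZ.or | apply DZ.isPair | apply DZ.pairMem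
      | apply DZ.bex | apply DZ.ball | apply DZ.imp | apply DZ.iff | apply DZ.subset
      | apply DZ.eq | apply DZ.mem | apply DZ.isOrdinal)
  | 1 => by
    unfold GR
    (repeat' first
      | assumption
      | exact D0v.proj _
      | apply DZ.not | apply DZ.and | apply DZ.expair | apply DZ.or | apply DZ.isPair | apply DZ.pairMem
      | apply DZ.bex | apply DZ.ball | apply DZ.imp | apply DZ.iff | apply DZ.subset
      | apply DZ.eq | apply DZ.mem | apply DZ.isOrdinal)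
  | 2 => by
    unfold GR
    (repeat' first
      | assumption
      | exact D0v.proj _
      | apply DZ.not | apply DZ.and | apply DZ.expair | apply DZ.or | apply DZ.isPair | apply DZ.pairMem
      | apply DZ.bex | apply DZ.ball | apply DZ.imp | apply DZ.iff | apply DZ.subset
      | apply DZ.eq | apply DZ.mem | apply DZ.isOrdinal)
  | 3 => by
    unfold GR
    (repeat' first
      | assumption
      | exact D0v.proj _
      | apply DZ.not | apply DZ.and | apply DZ.expair | apply DZ.or | apply DZ.isPair | apply DZ.pairMem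
      | apply DZ.bex | apply DZ.ball | apply DZ.imp | apply DZ.iff | apply DZ.subset
      | apply DZ.eq | apply DZ.mem | apply DZ.isOrdinal)
  | 4 => by
    unfold GR
    (repeat' first
      | assumption
      | exact D0v.proj _
      | apply DZ.not | apply DZ.and | apply DZ.expair | apply DZ.or | apply DZ.isPair | apply DZ.pairMem
      | apply DZ.bex | apply DZ.ball | apply DZ.imp | apply DZ.iff | apply DZ.subset
      | apply DZ.eq | apply DZ.mem | apply DZ.isOrdinal)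
  | 5 => by
    unfold GR
    (repeat' first
      | assumption
      | exact D0v.proj _
      | apply DZ.not | apply DZ.and | apply DZ.expair | apply DZ.or | apply DZ.isPair | apply DZ.pairMem
      | apply DZ.bex | apply DZ.ball | apply DZ.imp | apply DZ.iff | apply DZ.subset
      | apply DZ.eq | apply DZ.mem | apply DZ.isOrdinal)
  | 6 => by
    unfold GR
    (repeat' first
      | assumption
      | exact D0v.proj _
      | apply DZ.not | apply DZ.and | apply DZ.expair | apply DZ.or | apply DZ.isPair | apply DZ.pairMem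
      | apply DZ.bex | apply DZ.ball | apply DZ.imp | apply DZ.iff | apply DZ.subset
      | apply DZ.eq | apply DZ.mem | apply DZ.isOrdinal)
  | 7 => by
    unfold GR
    (repeat' first
      | assumption
      | exact D0v.proj _
      | apply DZ.not | apply DZ.and | apply DZ.expair | apply DZ.or | apply DZ.isPair | apply DZ.pairMem
      | apply DZ.bex | apply DZ.ball | apply DZ.imp | apply DZ.iff | apply DZ.subset
      | apply DZ.eq | apply DZ.mem | apply DZ.isOrdinal)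
  | 8 => by
    unfold GR
    (repeat' first
      | assumption
      | exact D0v.proj _
      | apply DZ.not | apply DZ.and | apply DZ.expair | apply DZ.or | apply DZ.isPair | apply DZ.pairMem
      | apply DZ.bex | apply DZ.ball | apply DZ.imp | apply DZ.iff | apply DZ.subset
      | apply DZ.eq | apply DZ.mem | apply DZ.isOrdinal)
  | 9 => by
    unfold GR
    (repeat' first
      | assumption
      | exact D0v.proj _
      | apply DZ.not | apply DZ.and | apply DZ.expair | apply DZ.or | apply DZ.isPair | apply DZ.pairMem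
      | apply DZ.bex | apply DZ.ball | apply DZ.imp | apply DZ.iff | apply DZ.subset
      | apply DZ.eq | apply DZ.mem | apply DZ.isOrdinal)
  | i + 10 => by
    refine (DZ.tt (D0v.proj (0 : Fin 3))).not.congr fun v => ?_
    simp [GR]

theorem dz_GR (i : ℕ) {n : ℕ} {G H K : (Fin n → ZFSet.{0}) → ZFSet.{0}}
    (hG : D0v G) (hH : D0v H) (hK : D0v K) : DZ fun v => GR ∅ i (G v) (H v) (K v) := by
  obtain ⟨b, hb⟩ := hG
  obtain ⟨c, hc⟩ := hH
  obtain ⟨d, hd⟩ := hK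
  refine ((dz_GR0 i).comp ![b, c, d]).congr fun v => ?_
  rw [hb, hc, hd]
  rfl

section

variable {n : ℕ} {X W P R Y V A B A' B' : (Fin n → ZFSet.{0}) → ZFSet.{0}}

/-- `y` is the value of the operation number `k`. -/
theorem dz_opK (k : ℕ) (hY : D0v Y) (hX : D0v X) (hP : D0v P) (hR : D0v R) (hA : D0v A)
    (hB : D0v B) : DZ fun v => Y v = opK (X v) (P v) (R v) k (A v) (B v) := by
  by_cases hk : k < 10
  · have h1 : DZ fun v => (∀ u ∈ Y v, u ∈ X v ∧ GR ∅ k u (A v) (B v)) ∧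
        ∀ u ∈ X v, GR ∅ k u (A v) (B v) → u ∈ Y v := by
      apply DZ.and
      · apply DZ.ball hY
        exact DZ.and (DZ.mem (D0v.proj 0) hX.tail)
          (dz_GR k (D0v.proj 0) hA.tail hB.tail)
      · apply DZ.ball hX
        exact DZ.imp (dz_GR k (D0v.proj 0) hA.tail hB.tail)
          (DZ.mem (D0v.proj 0) hY.tail)
    refine h1.congr fun v => ?_
    rw [opK, if_pos hk]
    constructor
    · rintro ⟨h2, h3⟩
      ext u
      rw [ZFSet.mem_sep]
      exact ⟨h2 u, fun h => h3 u h.1 h.2⟩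
    · intro h2
      rw [h2]
      exact ⟨fun u hu => ZFSet.mem_sep.1 hu, fun u h3 h4 => ZFSet.mem_sep.2 ⟨h3, h4⟩⟩
  · by_cases hk' : k = 10
    · refine (DZ.eq hY hP).congr fun v => ?_
      rw [opK, if_neg hk, if_pos hk']
    · refine (DZ.eq hY hR).congr fun v => ?_
      rw [opK, if_neg hk, if_neg hk']

theorem dz_ltX (hX : D0v X) (hW : D0v W) (hA : D0v A) (hB : D0v B) :
    DZ fun v => ltX (X v) (W v) (A v) (B v) :=
  (DZ.pairMem hA hB hW).or ((DZ.mem hA hX).and (DZ.eq hB hX))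

theorem dz_lexX (hX : D0v X) (hW : D0v W) (hA : D0v A) (hB : D0v B) (hA' : D0v A')
    (hB' : D0v B') : DZ fun v => lexX (X v) (W v) (A v) (B v) (A' v) (B' v) :=
  (dz_ltX hX hW hA hA').or ((DZ.eq hA hA').and (dz_ltX hX hW hB hB'))

end

theorem mem_stY {X P R Y y : ZFSet.{0}} {k : ℕ} : y ∈ stY X P R Y k ↔
    y ∈ Y ∨ ∃ a ∈ (insert X X : ZFSet.{0}), ∃ b ∈ (insert X X : ZFSet.{0}),
      y = opK X P R k a b := by
  rw [stY, ZFSet.mem_union, mem_im]
  refine or_congr_right ?_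
  constructor
  · rintro ⟨p, hp, rfl⟩
    obtain ⟨a, ha, b, hb, rfl⟩ := ZFSet.mem_prod.1 hp
    exact ⟨a, ha, b, hb, by rw [fs_pair, sn_pair]⟩
  · rintro ⟨a, ha, b, hb, rfl⟩
    exact ⟨pair a b, ZFSet.pair_mem_prod.2 ⟨ha, hb⟩, by rw [fs_pair, sn_pair]⟩

theorem mem_stV {X W P R Y V z z' : ZFSet.{0}} {k : ℕ} : pair z z' ∈ stV X W P R Y V k ↔
    (z ∈ stY X P R Y k ∧ z' ∈ stY X P R Y k) ∧ (pair z z' ∈ V ∨ (z ∈ Y ∧ z' ∉ Y) ∨
    (z ∉ Y ∧ z' ∉ Y ∧ ∃ a ∈ (insert X X : ZFSet.{0}), ∃ b ∈ (insert X X : ZFSet.{0}),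
      z = opK X P R k a b ∧
      ∀ a' ∈ (insert X X : ZFSet.{0}), ∀ b' ∈ (insert X X : ZFSet.{0}),
        z' = opK X P R k a' b' → lexX X W a b a' b')) := by
  rw [stV, ZFSet.mem_sep, ZFSet.pair_mem_prod]
  refine and_congr_right fun _ => ?_
  constructor
  · rintro ⟨w, w', h1, h2⟩
    obtain ⟨rfl, rfl⟩ := ZFSet.pair_inj.1 h1
    exact h2
  · intro h
    exact ⟨z, z', rfl, h⟩

theorem isPair_of_mem_stV {X W P R Y V p : ZFSet.{0}} {k : ℕ} (h : p ∈ stV X W P R Y V k) :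
    ∃ z ∈ stY X P R Y k, ∃ z' ∈ stY X P R Y k, p = pair z z' := by
  rw [stV, ZFSet.mem_sep, ZFSet.mem_prod] at h
  obtain ⟨⟨z, hz, z', hz', rfl⟩, -⟩ := h
  exact ⟨z, hz, z', hz', rfl⟩

section

variable {n : ℕ}

theorem dz_stg : ∀ (k : ℕ) {n : ℕ} {X W P R A B : (Fin n → ZFSet.{0}) → ZFSet.{0}}, D0v X →
    D0v W → D0v P → D0v R → D0v A → D0v B →
    (DZ fun v => A v ∈ (stg (X v) (W v) (P v) (R v) k).1) ∧
      DZ fun v => pair (A v) (B v) ∈ (stg (X v) (W v) (P v) (R v) k).2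
  | 0, n, X, W, P, R, A, B, hX, hW, hP, hR, hA, hB => ⟨DZ.mem hA hX, DZ.pairMem hA hB hW⟩
  | k + 1, n, X, W, P, R, A, B, hX, hW, hP, hR, hA, hB => by
    have ih := @dz_stg k
    have hY : ∀ {C : (Fin n → ZFSet.{0}) → ZFSet.{0}}, D0v C →
        DZ fun v => C v ∈ (stg (X v) (W v) (P v) (R v) (k + 1)).1 := by
      intro C hC
      have h1 : DZ fun v => C v ∈ (stg (X v) (W v) (P v) (R v) k).1 ∨
          ∃ a ∈ (insert (X v) (X v) : ZFSet.{0}), ∃ b ∈ (insert (X v) (X v) : ZFSet.{0}),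
            C v = opK (X v) (P v) (R v) k a b := by
        apply DZ.or (ih hX hW hP hR hC hC).1
        apply DZ.bexIns hX
        apply DZ.bexIns hX.tail
        exact dz_opK k hC.tail.tail hX.tail.tail hP.tail.tail hR.tail.tail (D0v.proj 1)
          (D0v.proj 0)
      exact h1.congr fun v => mem_stY.symm
    refine ⟨hY hA, ?_⟩
    have h2 : DZ fun v => (A v ∈ (stg (X v) (W v) (P v) (R v) (k + 1)).1 ∧
        B v ∈ (stg (X v) (W v) (P v) (R v) (k + 1)).1) ∧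
        (pair (A v) (B v) ∈ (stg (X v) (W v) (P v) (R v) k).2 ∨
        (A v ∈ (stg (X v) (W v) (P v) (R v) k).1 ∧ B v ∉ (stg (X v) (W v) (P v) (R v) k).1) ∨
        (A v ∉ (stg (X v) (W v) (P v) (R v) k).1 ∧ B v ∉ (stg (X v) (W v) (P v) (R v) k).1 ∧
        ∃ a ∈ (insert (X v) (X v) : ZFSet.{0}), ∃ b ∈ (insert (X v) (X v) : ZFSet.{0}),
        A v = opK (X v) (P v) (R v) k a b ∧
        ∀ a' ∈ (insert (X v) (X v) : ZFSet.{0}), ∀ b' ∈ (insert (X v) (X v) : ZFSet.{0}),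
          B v = opK (X v) (P v) (R v) k a' b' → lexX (X v) (W v) a b a' b')) := by
      apply DZ.and (DZ.and (hY hA) (hY hB))
      apply DZ.or (ih hX hW hP hR hA hB).2
      apply DZ.or (DZ.and (ih hX hW hP hR hA hB).1 (ih hX hW hP hR hB hB).1.not)
      apply DZ.and (ih hX hW hP hR hA hB).1.not
      apply DZ.and (ih hX hW hP hR hB hB).1.not
      apply DZ.bexIns hX
      apply DZ.bexIns hX.tail
      apply DZ.and (dz_opK k hA.tail.tail hX.tail.tail hP.tail.tail hR.tail.tail (D0v.proj 1)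
          (D0v.proj 0))
      apply DZ.ballIns hX.tail.tail
      apply DZ.ballIns hX.tail.tail.tail
      apply DZ.imp (dz_opK k hB.tail.tail.tail.tail hX.tail.tail.tail.tail
        hP.tail.tail.tail.tail hR.tail.tail.tail.tail (D0v.proj 1) (D0v.proj 0))
      exact dz_lexX hX.tail.tail.tail.tail hW.tail.tail.tail.tail (D0v.proj 3) (D0v.proj 2)
        (D0v.proj 1) (D0v.proj 0)
    exact h2.congr fun v => mem_stV.symm

end

end Pool.Agent.helper797_cs
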