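import Pool.Agent.helper797_cs.PK6a
import Pool.Agent.helper797_cs.PK2
import Pool.Agent.helper797_cs.PK3

/-!
# Level sequences are recognized by a `Δ₀` formula, apart from the predicate
-/

set_option autoImplicit false
set_option linter.unreachableTactic false
set_option linter.unusedTactic false
set_option linter.unusedVariables false

namespace Pool.Agent.helper797_cs

open Pool.Agent.W868 Pool.Agent.R587
open ZFSet (pair)
open Cardinal Order

theorem mem_stg1 {X W P R y : ZFSet.{0}} {k : ℕ} : y ∈ (stg X W P R k).1 ↔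
    y ∈ X ∨ ∃ i < k, ∃ a ∈ (insert X X : ZFSet.{0}), ∃ b ∈ (insert X X : ZFSet.{0}),
      y = opK X P R i a b := by
  induction k with
  | zero =>
    constructor
    · exact fun h => Or.inl h
    · rintro (h | ⟨i, hi, -⟩)
      · exact h
      · exact absurd hi (Nat.not_lt_zero _)
  | succ k ih =>
    have h1 : y ∈ (stg X W P R (k + 1)).1 ↔ y ∈ stY X P R (stg X W P R k).1 k := Iff.rfl
    rw [h1, mem_stY, ih]
    constructor
    · rintro ((h | ⟨i, hi, h⟩) | h)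
      · exact Or.inl h
      · exact Or.inr ⟨i, by omega, h⟩
      · exact Or.inr ⟨k, by omega, h⟩
    · rintro (h | ⟨i, hi, h⟩)
      · exact Or.inl (Or.inl h)
      · rcases Nat.lt_succ_iff_lt_or_eq.1 hi with h2 | rfl
        · exact Or.inl (Or.inr ⟨i, h2, h⟩)
        · exact Or.inr h

theorem isPair_of_mem_stg2 {X W P R p : ZFSet.{0}} {k : ℕ} (h : p ∈ (stg X W P R (k + 1)).2) :
    ∃ z ∈ (stg X W P R (k + 1)).1, ∃ z' ∈ (stg X W P R (k + 1)).1, p = pair z z' :=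
  isPair_of_mem_stV h

section

variable {n : ℕ} {X W P R Y V E E' Z : (Fin n → ZFSet.{0}) → ZFSet.{0}}

theorem dz_stgEq (k : ℕ) (hX : D0v X) (hW : D0v W) (hP : D0v P) (hR : D0v R) (hY : D0v Y)
    (hV : D0v V) : DZ fun v => Y v = (stg (X v) (W v) (P v) (R v) (k + 1)).1 ∧
      V v = (stg (X v) (W v) (P v) (R v) (k + 1)).2 := by
  have h1 : DZ fun v => ((∀ y ∈ Y v, y ∈ (stg (X v) (W v) (P v) (R v) (k + 1)).1) ∧
      X v ⊆ Y v ∧ ∀ i < k + 1, ∀ a ∈ (insert (X v) (X v) : ZFSet.{0}),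
        ∀ b ∈ (insert (X v) (X v) : ZFSet.{0}), ∃ y ∈ Y v, y = opK (X v) (P v) (R v) i a b) ∧
      (∀ p ∈ V v, ∃ z z', p = pair z z' ∧
        pair z z' ∈ (stg (X v) (W v) (P v) (R v) (k + 1)).2) ∧
      ∀ z ∈ Y v, ∀ z' ∈ Y v, pair z z' ∈ (stg (X v) (W v) (P v) (R v) (k + 1)).2 →
        pair z z' ∈ V v := by
    apply DZ.and
    · apply DZ.and
      · apply DZ.ball hY
        exact (dz_stg (k + 1) hX.tail hW.tail hP.tail hR.tail (D0v.proj 0) (D0v.proj 0)).1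
      · apply DZ.and (DZ.subset hX hY)
        apply DZ.allLt hX
        intro i
        apply DZ.ballIns hX
        apply DZ.ballIns hX.tail
        apply DZ.bex hY.tail.tail
        exact dz_opK i (D0v.proj 0) hX.tail.tail.tail hP.tail.tail.tail hR.tail.tail.tail
          (D0v.proj 2) (D0v.proj 1)
    · apply DZ.and
      · apply DZ.ball hV
        apply DZ.expair (D0v.proj 0)
        exact (dz_stg (k + 1) hX.tail.tail.tail hW.tail.tail.tail hP.tail.tail.tail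
          hR.tail.tail.tail (D0v.proj 1) (D0v.proj 0)).2
      · apply DZ.ball hY
        apply DZ.ball hY.tail
        apply DZ.imp
        · exact (dz_stg (k + 1) hX.tail.tail hW.tail.tail hP.tail.tail
            hR.tail.tail (D0v.proj 1) (D0v.proj 0)).2
        · exact DZ.pairMem (D0v.proj 1) (D0v.proj 0) hV.tail.tail
  refine h1.congr fun v => ?_
  constructor
  · rintro ⟨⟨h2, h3, h4⟩, h5, h6⟩
    have h7 : Y v = (stg (X v) (W v) (P v) (R v) (k + 1)).1 := by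
      ext y
      refine ⟨h2 y, fun hy => ?_⟩
      rcases mem_stg1.1 hy with hy | ⟨i, hi, a, ha, b, hb, rfl⟩
      · exact h3 hy
      · obtain ⟨y', hy', h8⟩ := h4 i hi a ha b hb
        exact h8 ▸ hy'
    refine ⟨h7, ?_⟩
    ext p
    constructor
    · intro hp
      obtain ⟨z, z', rfl, h8⟩ := h5 p hp
      exact h8
    · intro hp
      obtain ⟨z, hz, z', hz', rfl⟩ := isPair_of_mem_stg2 hp
      exact h6 z (h7 ▸ hz) z' (h7 ▸ hz') hp
  · rintro ⟨h2, h3⟩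
    rw [h2, h3]
    refine ⟨⟨fun y hy => hy, fun y hy => mem_stg1.2 (Or.inl hy), fun i hi a ha b hb => ?_⟩,
      fun p hp => ?_, fun z _ z' _ h => h⟩
    · exact ⟨_, mem_stg1.2 (Or.inr ⟨i, hi, a, ha, b, hb, rfl⟩), rfl⟩
    · obtain ⟨z, hz, z', hz', rfl⟩ := isPair_of_mem_stg2 hp
      exact ⟨z, z', rfl, hp⟩

/-- `e` is the successor step of `e'`. -/
def NxR (e' e : ZFSet.{0}) : Prop :=
  ∃ X r1, e' = pair X r1 ∧ ∃ W r2, r1 = pair W r2 ∧ ∃ P R, r2 = pair P R ∧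
    ∃ Y s1, e = pair Y s1 ∧ ∃ V s2, s1 = pair V s2 ∧ (∃ P' R', s2 = pair P' R' ∧
      P' = ∅ ∧ R' = ∅) ∧ Y = (stg X W P R (11 + 1)).1 ∧ V = (stg X W P R (11 + 1)).2

theorem dz_NxR (hE : D0v E) (hE' : D0v E') : DZ fun v => NxR (E' v) (E v) := by
  unfold NxR
  apply DZ.expair hE'
  apply DZ.expair (D0v.proj 0)
  apply DZ.expair (D0v.proj 0)
  apply DZ.expair hE.tail.tail.tail.tail.tail.tail
  apply DZ.expair (D0v.proj 0)
  apply DZ.and
  · apply DZ.expair (D0v.proj 0)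
    exact (DZ.isEmpty (D0v.proj 1)).and (DZ.isEmpty (D0v.proj 0))
  · exact dz_stgEq 11 (D0v.proj 9) (D0v.proj 7) (D0v.proj 5) (D0v.proj 4) (D0v.proj 3)
      (D0v.proj 1)

theorem nxR_pair {X W P R e : ZFSet.{0}} : NxR (pair X (pair W (pair P R))) e ↔
    e = nxt (pair X (pair W (pair P R))) := by
  constructor
  · rintro ⟨X', r1, h1, W', r2, h2, P', R', h3, Y, s1, rfl, V, s2, rfl, ⟨P1, R1, rfl, rfl, rfl⟩,
      rfl, rfl⟩
    subst h3
    subst h2
    obtain ⟨g1, h4⟩ := ZFSet.pair_inj.1 h1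
    obtain ⟨g2, h5⟩ := ZFSet.pair_inj.1 h4
    obtain ⟨g3, g4⟩ := ZFSet.pair_inj.1 h5
    rw [← g1, ← g2, ← g3, ← g4]
    simp only [nxt, eS, eW, eP, eR, fs_pair, sn_pair]
  · rintro rfl
    refine ⟨_, _, rfl, _, _, rfl, _, _, rfl, _, _, rfl, _, _, rfl, ⟨_, _, rfl, rfl, rfl⟩, ?_⟩
    simp only [eS, eW, eP, eR, fs_pair, sn_pair, and_self]

/-- `x` is in the first component of `e`. -/
def InS (x e : ZFSet.{0}) : Prop := ∃ S r, e = pair S r ∧ x ∈ S

/-- `x` is in the second component of `e`. -/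
def InW (x e : ZFSet.{0}) : Prop := ∃ S r, e = pair S r ∧ ∃ W r', r = pair W r' ∧ x ∈ W

/-- The limit step, apart from the predicate. -/
def LmR (f z e : ZFSet.{0}) : Prop :=
  ∃ S r, e = pair S r ∧ ∃ W r', r = pair W r' ∧ ∃ P R, r' = pair P R ∧ R = W ∧
    (∀ x ∈ S, ∃ q ∈ f, ∃ u e', q = pair u e' ∧ u ∈ z ∧ InS x e') ∧
    (∀ q ∈ f, ∃ u e', q = pair u e' ∧ (u ∈ z → ∃ S' r'', e' = pair S' r'' ∧ S' ⊆ S)) ∧
    (∀ x ∈ W, ∃ q ∈ f, ∃ u e', q = pair u e' ∧ u ∈ z ∧ InW x e') ∧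
    (∀ q ∈ f, ∃ u e', q = pair u e' ∧ (u ∈ z → ∃ S' r'', e' = pair S' r'' ∧
      ∃ W' r3, r'' = pair W' r3 ∧ W' ⊆ W))

theorem dz_InS (hX : D0v X) (hE : D0v E) : DZ fun v => InS (X v) (E v) := by
  unfold InS
  apply DZ.expair hE
  exact DZ.mem hX.tail.tail (D0v.proj 1)

theorem dz_InW (hX : D0v X) (hE : D0v E) : DZ fun v => InW (X v) (E v) := by
  unfold InW
  apply DZ.expair hE
  apply DZ.expair (D0v.proj 0)
  exact DZ.mem hX.tail.tail.tail.tail (D0v.proj 1)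

theorem dz_LmR {Fq : (Fin n → ZFSet.{0}) → ZFSet.{0}} (hF : D0v Fq) (hZ : D0v Z) (hE : D0v E) :
    DZ fun v => LmR (Fq v) (Z v) (E v) := by
  unfold LmR
  apply DZ.expair hE
  apply DZ.expair (D0v.proj 0)
  apply DZ.expair (D0v.proj 0)
  have hF6 := hF.tail.tail.tail.tail.tail.tail
  have hZ6 := hZ.tail.tail.tail.tail.tail.tail
  apply DZ.and (DZ.eq (D0v.proj 0) (D0v.proj 3))
  apply DZ.and
  · apply DZ.ball (D0v.proj 5)
    apply DZ.bex hF6.tail
    apply DZ.expair (D0v.proj 0)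
    apply DZ.and (DZ.mem (D0v.proj 1) hZ6.tail.tail.tail.tail)
    exact dz_InS (D0v.proj 3) (D0v.proj 0)
  apply DZ.and
  · apply DZ.ball hF6
    apply DZ.expair (D0v.proj 0)
    apply DZ.imp (DZ.mem (D0v.proj 1) hZ6.tail.tail.tail)
    apply DZ.expair (D0v.proj 0)
    exact DZ.subset (D0v.proj 1) (D0v.proj 10)
  apply DZ.and
  · apply DZ.ball (D0v.proj 3)
    apply DZ.bex hF6.tail
    apply DZ.expair (D0v.proj 0)
    apply DZ.and (DZ.mem (D0v.proj 1) hZ6.tail.tail.tail.tail)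
    exact dz_InW (D0v.proj 3) (D0v.proj 0)
  · apply DZ.ball hF6
    apply DZ.expair (D0v.proj 0)
    apply DZ.imp (DZ.mem (D0v.proj 1) hZ6.tail.tail.tail)
    apply DZ.expair (D0v.proj 0)
    apply DZ.expair (D0v.proj 0)
    exact DZ.subset (D0v.proj 1) (D0v.proj 10)

/-- `f` is a level sequence, apart from the predicate. -/
def PreSq (f : ZFSet.{0}) : Prop :=
  (∀ p ∈ f, ∃ z e, p = pair z e ∧ z.IsOrdinal ∧
    (∀ u ∈ z, ∃ q ∈ f, ∃ u' e', q = pair u' e' ∧ u' = u) ∧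
    (∀ u ∈ z, z = insert u u → ∃ q ∈ f, ∃ u' e', q = pair u' e' ∧ u' = u ∧ NxR e' e) ∧
    ((¬ ∃ u ∈ z, z = insert u u) → LmR f z e)) ∧
  ∃ p ∈ f, ∃ z e, p = pair z e ∧ ∀ q ∈ f, ∃ u e', q = pair u e' ∧ (u ∈ z ∨ u = z)

theorem dz_PreSq {Fq : (Fin n → ZFSet.{0}) → ZFSet.{0}} (hF : D0v Fq) :
    DZ fun v => PreSq (Fq v) := by
  unfold PreSq
  apply DZ.and
  · apply DZ.ball hF
    apply DZ.expair (D0v.proj 0)
    have hF3 := hF.tail.tail.tail
    apply DZ.and (DZ.isOrdinal (D0v.proj 1))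
    apply DZ.and
    · apply DZ.ball (D0v.proj 1)
      apply DZ.bex hF3.tail
      apply DZ.expair (D0v.proj 0)
      exact DZ.eq (D0v.proj 1) (D0v.proj 3)
    apply DZ.and
    · apply DZ.ball (D0v.proj 1)
      apply DZ.imp (DZ.isInsert (D0v.proj 2) (D0v.proj 0))
      apply DZ.bex hF3.tail
      apply DZ.expair (D0v.proj 0)
      apply DZ.and (DZ.eq (D0v.proj 1) (D0v.proj 3))
      exact dz_NxR (D0v.proj 4) (D0v.proj 0)
    · apply DZ.imp
      · apply DZ.not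
        apply DZ.bex (D0v.proj 1)
        exact DZ.isInsert (D0v.proj 2) (D0v.proj 0)
      · exact dz_LmR hF3 (D0v.proj 1) (D0v.proj 0)
  · apply DZ.bex hF
    apply DZ.expair (D0v.proj 0)
    apply DZ.ball hF.tail.tail.tail
    apply DZ.expair (D0v.proj 0)
    exact (DZ.mem (D0v.proj 1) (D0v.proj 4)).or (DZ.eq (D0v.proj 1) (D0v.proj 4))

end

end Pool.Agent.helper797_cs
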