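import Pool.Agent.helper797_cs.PK6b

/-!
# The level sequences are the sets recognized by the `Δ₀` formula
-/

set_option autoImplicit false
set_option linter.unreachableTactic false
set_option linter.unusedTactic false
set_option linter.unusedVariables false

namespace Pool.Agent.helper797_cs

open Pool.Agent.W868 Pool.Agent.R587
open ZFSet (pair)
open Cardinal Order

variable {F : ZFSet.{0}}

theorem eh_lim {z : ZFSet.{0}} (h : ¬ ∃ u ∈ z, z = insert u u) :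
    Eh F z = lmt F (gr (Eh F) z) := by
  conv_lhs => rw [Eh]
  rw [wfF_eq, if_neg h]
  rfl

theorem eh_quad (F z : ZFSet.{0}) : ∃ X W P R, Eh F z = pair X (pair W (pair P R)) := by
  by_cases h : ∃ u ∈ z, z = insert u u
  · rw [Eh, wfF_eq, if_pos h]
    exact ⟨_, _, _, _, rfl⟩
  · rw [eh_lim h]
    exact ⟨_, _, _, _, rfl⟩

theorem eh_eta (F z : ZFSet.{0}) :
    Eh F z = pair (eS (Eh F z)) (pair (eW (Eh F z)) (pair (eP (Eh F z)) (eR (Eh F z)))) := by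
  obtain ⟨X, W, P, R, h⟩ := eh_quad F z
  rw [h]
  simp only [eS, eW, eP, eR, fs_pair, sn_pair]

theorem eh_ins {u : ZFSet.{0}} (hu : u.IsOrdinal) : Eh F (insert u u) = nxt (Eh F u) := by
  have h := eh_succ (F := F) u.rank
  rwa [Ordinal.toZFSet_add_one, hu.toZFSet_rank_eq] at h

theorem mem_lmtS {z x : ZFSet.{0}} {g : ZFSet.{0} → ZFSet.{0}} :
    x ∈ (ZFSet.sUnion (im (fun p => g (sn p)) (gr (Eh F) z)) : ZFSet.{0}) ↔
      ∃ u ∈ z, x ∈ g (Eh F u) := by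
  rw [ZFSet.mem_sUnion]
  constructor
  · rintro ⟨w, hw, h⟩
    obtain ⟨p, hp, rfl⟩ := mem_im.1 hw
    obtain ⟨u, hu, rfl⟩ := mem_gr.1 hp
    rw [sn_pair] at h
    exact ⟨u, hu, h⟩
  · rintro ⟨u, hu, h⟩
    exact ⟨_, mem_im.2 ⟨_, mem_gr.2 ⟨u, hu, rfl⟩, rfl⟩, by rwa [sn_pair]⟩

theorem inS_eh {x z : ZFSet.{0}} : InS x (Eh F z) ↔ x ∈ eS (Eh F z) := by
  constructor
  · rintro ⟨S, r, h1, h2⟩
    rwa [h1, eS, fs_pair]
  · intro h
    exact ⟨_, _, eh_eta F z, h⟩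

theorem inW_eh {x z : ZFSet.{0}} : InW x (Eh F z) ↔ x ∈ eW (Eh F z) := by
  constructor
  · rintro ⟨S, r, h1, W, r', rfl, h2⟩
    rwa [h1, eW, sn_pair, fs_pair]
  · intro h
    exact ⟨_, _, eh_eta F z, _, _, rfl, h⟩

theorem mem_sq {η : Ordinal.{0}} {p : ZFSet.{0}} :
    p ∈ sq F η ↔ ∃ ζ ≤ η, p = pair ζ.toZFSet (Eh F ζ.toZFSet) := by
  rw [sq, mem_gr, ← Ordinal.toZFSet_add_one]
  constructor
  · rintro ⟨u, hu, rfl⟩
    obtain ⟨ζ, hζ, rfl⟩ := Ordinal.mem_toZFSet_iff.1 hu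
    exact ⟨ζ, Order.lt_add_one_iff.1 hζ, rfl⟩
  · rintro ⟨ζ, hζ, rfl⟩
    exact ⟨_, Ordinal.toZFSet_mem_toZFSet_iff.2 (Order.lt_add_one_iff.2 hζ), rfl⟩

theorem preSq_sq (η : Ordinal.{0}) : PreSq (sq F η) := by
  refine ⟨fun p hp => ?_, ?_⟩
  · obtain ⟨ζ, hζ, rfl⟩ := mem_sq.1 hp
    have hz : ∀ u ∈ ζ.toZFSet, pair u (Eh F u) ∈ sq F η := by
      intro u hu
      obtain ⟨ζ', hζ', rfl⟩ := Ordinal.mem_toZFSet_iff.1 hu
      exact mem_sq.2 ⟨ζ', hζ'.le.trans hζ, rfl⟩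
    have hord : ζ.toZFSet.IsOrdinal := ZFSet.isOrdinal_toZFSet ζ
    refine ⟨_, _, rfl, hord, fun u hu => ⟨_, hz u hu, _, _, rfl, rfl⟩, ?_, ?_⟩
    · intro u hu h
      refine ⟨_, hz u hu, _, _, rfl, rfl, ?_⟩
      obtain ⟨X, W, P, R, h1⟩ := eh_quad F u
      rw [h, eh_ins (hord.mem hu), h1]
      exact nxR_pair.2 rfl
    · intro h
      rw [eh_lim h]
      refine ⟨_, _, rfl, _, _, rfl, _, _, rfl, rfl, ?_, ?_, ?_, ?_⟩
      · intro x hx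
        obtain ⟨u, hu, hx⟩ := mem_lmtS.1 hx
        exact ⟨_, hz u hu, _, _, rfl, hu, inS_eh.2 hx⟩
      · intro q hq
        obtain ⟨ζ', hζ', rfl⟩ := mem_sq.1 hq
        refine ⟨_, _, rfl, fun hu => ⟨_, _, eh_eta F _, fun x hx => ?_⟩⟩
        exact mem_lmtS.2 ⟨_, hu, hx⟩
      · intro x hx
        obtain ⟨u, hu, hx⟩ := mem_lmtS.1 hx
        exact ⟨_, hz u hu, _, _, rfl, hu, inW_eh.2 hx⟩
      · intro q hq
        obtain ⟨ζ', hζ', rfl⟩ := mem_sq.1 hq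
        refine ⟨_, _, rfl, fun hu => ⟨_, _, eh_eta F _, _, _, rfl, fun x hx => ?_⟩⟩
        exact mem_lmtS.2 ⟨_, hu, hx⟩
  · refine ⟨_, mem_sq.2 ⟨η, le_rfl, rfl⟩, _, _, rfl, fun q hq => ?_⟩
    obtain ⟨ζ', hζ', rfl⟩ := mem_sq.1 hq
    refine ⟨_, _, rfl, ?_⟩
    rcases hζ'.lt_or_eq with h | rfl
    · exact Or.inl (Ordinal.toZFSet_mem_toZFSet_iff.2 h)
    · exact Or.inr rfl

theorem sq_of_preSq {f : ZFSet.{0}} (h : PreSq f)
    (hF : ∀ z e, pair z e ∈ f → (¬ ∃ u ∈ z, z = insert u u) → eP e = F ∩ eS e) :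
    ∃ η : Ordinal.{0}, f = sq F η := by
  have h1 : ∀ z e, pair z e ∈ f → e = Eh F z := by
    intro z
    induction z using ZFSet.inductionOn with
    | _ z ih =>
    intro e he
    obtain ⟨z', e', h2, hord, hdom, hsuc, hlim⟩ := h.1 _ he
    obtain ⟨rfl, rfl⟩ := ZFSet.pair_inj.1 h2
    by_cases hz : ∃ u ∈ z, z = insert u u
    · obtain ⟨u, hu, hzu⟩ := hz
      obtain ⟨q, hq, u', e', rfl, rfl, h3⟩ := hsuc u hu hzu
      have h4 := ih u' hu e' hq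
      obtain ⟨X, W, P, R, h5⟩ := eh_quad F u'
      rw [h4, h5] at h3
      rw [nxR_pair.1 h3, hzu, eh_ins (hord.mem hu), h5]
    · obtain ⟨S, r, rfl, W, r', rfl, P, R, rfl, rfl, h4, h5, h6, h7⟩ := hlim hz
      have h8 := hF _ _ he hz
      simp only [eP, eS, sn_pair, fs_pair] at h8
      have hS : S = ZFSet.sUnion (im (fun p => eS (sn p)) (gr (Eh F) z)) := by
        ext x
        rw [mem_lmtS]
        constructor
        · intro hx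
          obtain ⟨q, hq, u, e', rfl, hu, h9⟩ := h4 x hx
          rw [ih u hu e' hq] at h9
          exact ⟨u, hu, inS_eh.1 h9⟩
        · rintro ⟨u, hu, hx⟩
          obtain ⟨q, hq, u', e', rfl, rfl⟩ := hdom u hu
          obtain ⟨u2, e2, h9, h10⟩ := h5 _ hq
          obtain ⟨rfl, rfl⟩ := ZFSet.pair_inj.1 h9
          obtain ⟨S', r'', rfl, h11⟩ := h10 hu
          apply h11
          rwa [← ih u' hu _ hq, eS, fs_pair] at hx
      have hW : R = ZFSet.sUnion (im (fun p => eW (sn p)) (gr (Eh F) z)) := by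
        ext x
        rw [mem_lmtS]
        constructor
        · intro hx
          obtain ⟨q, hq, u, e', rfl, hu, h9⟩ := h6 x hx
          rw [ih u hu e' hq] at h9
          exact ⟨u, hu, inW_eh.1 h9⟩
        · rintro ⟨u, hu, hx⟩
          obtain ⟨q, hq, u', e', rfl, rfl⟩ := hdom u hu
          obtain ⟨u2, e2, h9, h10⟩ := h7 _ hq
          obtain ⟨rfl, rfl⟩ := ZFSet.pair_inj.1 h9
          obtain ⟨S', r'', rfl, W', r3, rfl, h11⟩ := h10 hu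
          apply h11
          rwa [← ih u' hu _ hq, eW, sn_pair, fs_pair] at hx
      rw [eh_lim hz, lmt, ← hS, ← hW, ← h8]
  obtain ⟨p, hp, z, e, rfl, h2⟩ := h.2
  obtain ⟨z', e', h3, hord, hdom, -, -⟩ := h.1 _ hp
  obtain ⟨rfl, rfl⟩ := ZFSet.pair_inj.1 h3
  refine ⟨z.rank, ?_⟩
  ext q
  rw [mem_sq]
  constructor
  · intro hq
    obtain ⟨u, e', rfl, h4⟩ := h2 q hq
    have hu : u.IsOrdinal := by
      rcases h4 with h4 | rfl
      · exact hord.mem h4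
      · exact hord
    refine ⟨u.rank, ?_, ?_⟩
    · rcases h4 with h4 | rfl
      · exact (ZFSet.rank_lt_of_mem h4).le
      · exact le_rfl
    · rw [hu.toZFSet_rank_eq, ← h1 u e' hq]
  · rintro ⟨ζ, hζ, rfl⟩
    rcases hζ.lt_or_eq with h4 | rfl
    · have h5 : ζ.toZFSet ∈ z := by
        rw [← hord.toZFSet_rank_eq]
        exact Ordinal.toZFSet_mem_toZFSet_iff.2 h4
      obtain ⟨q, hq, u', e', rfl, rfl⟩ := hdom _ h5
      rwa [← h1 _ _ hq]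
    · rw [hord.toZFSet_rank_eq, ← h1 _ _ hp]
      exact hp

/-- `x` is an element of the last level of `f` only. -/
def LvR (x f : ZFSet.{0}) : Prop :=
  ∃ p ∈ f, ∃ z e, p = pair z e ∧ InS x e ∧
    ∀ q ∈ f, ∃ u e', q = pair u e' ∧ ((u ∈ z ∧ ¬ InS x e') ∨ u = z)

theorem lvR_sq {x : ZFSet.{0}} {η : Ordinal.{0}} :
    LvR x (sq F η) ↔ x ∈ KS F η ∧ ∀ ζ < η, x ∉ KS F ζ := by
  constructor
  · rintro ⟨p, hp, z, e, rfl, h1, h2⟩
    obtain ⟨ζ, hζ, h3⟩ := mem_sq.1 hp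
    obtain ⟨rfl, rfl⟩ := ZFSet.pair_inj.1 h3
    have h4 : ζ = η := by
      obtain ⟨u, e', h4, h5⟩ := h2 _ (mem_sq.2 ⟨η, le_rfl, rfl⟩)
      obtain ⟨rfl, rfl⟩ := ZFSet.pair_inj.1 h4
      rcases h5 with ⟨h5, -⟩ | h5
      · exact absurd (Ordinal.toZFSet_mem_toZFSet_iff.1 h5) hζ.not_gt
      · exact (Ordinal.toZFSet_injective h5).symm
    subst h4
    refine ⟨inS_eh.1 h1, fun ζ' hζ' h5 => ?_⟩
    obtain ⟨u, e', h4, h6⟩ := h2 _ (mem_sq.2 ⟨ζ', hζ'.le, rfl⟩)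
    obtain ⟨rfl, rfl⟩ := ZFSet.pair_inj.1 h4
    rcases h6 with ⟨-, h6⟩ | h6
    · exact h6 (inS_eh.2 h5)
    · exact absurd (Ordinal.toZFSet_injective h6) hζ'.ne
  · rintro ⟨h1, h2⟩
    refine ⟨_, mem_sq.2 ⟨η, le_rfl, rfl⟩, _, _, rfl, inS_eh.2 h1, fun q hq => ?_⟩
    obtain ⟨ζ, hζ, rfl⟩ := mem_sq.1 hq
    refine ⟨_, _, rfl, ?_⟩
    rcases hζ.lt_or_eq with h | rfl
    · exact Or.inl ⟨Ordinal.toZFSet_mem_toZFSet_iff.2 h, fun h3 => h2 ζ h (inS_eh.1 h3)⟩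
    · exact Or.inr rfl

/-- The pair of `x` and `y` is in the order of a level in the sequence. -/
def LtR (x y f : ZFSet.{0}) : Prop :=
  ∃ p ∈ f, ∃ z e, p = pair z e ∧ ∃ S r, e = pair S r ∧ ∃ W r', r = pair W r' ∧ pair x y ∈ W

theorem ltR_sq {x y : ZFSet.{0}} {η : Ordinal.{0}} (hy : y ∈ KS F η) :
    LtR x y (sq F η) ↔ pair x y ∈ KW F η := by
  constructor
  · rintro ⟨p, hp, z, e, rfl, S, r, rfl, W, r', rfl, h1⟩
    obtain ⟨ζ, hζ, h3⟩ := mem_sq.1 hp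
    obtain ⟨rfl, h4⟩ := ZFSet.pair_inj.1 h3
    have h5 : pair x y ∈ KW F ζ := by
      rw [KW, ← h4, eW, sn_pair, fs_pair]
      exact h1
    obtain ⟨x', hx', y', hy', h6⟩ := kw_sub ζ _ h5
    obtain ⟨rfl, rfl⟩ := ZFSet.pair_inj.1 h6
    exact (kw_end hζ hy').2 h5
  · intro h
    refine ⟨_, mem_sq.2 ⟨η, le_rfl, rfl⟩, _, _, rfl, _, _, eh_eta F _, _, _, rfl, h⟩

section

variable {n : ℕ} {X Y Z : (Fin n → ZFSet.{0}) → ZFSet.{0}}

theorem dz_LvR (hX : D0v X) (hY : D0v Y) : DZ fun v => LvR (X v) (Y v) := by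
  unfold LvR
  apply DZ.bex hY
  apply DZ.expair (D0v.proj 0)
  apply DZ.and (dz_InS hX.tail.tail.tail (D0v.proj 0))
  apply DZ.ball hY.tail.tail.tail
  apply DZ.expair (D0v.proj 0)
  apply DZ.or
  · exact (DZ.mem (D0v.proj 1) (D0v.proj 4)).and
      (dz_InS hX.tail.tail.tail.tail.tail.tail (D0v.proj 0)).not
  · exact DZ.eq (D0v.proj 1) (D0v.proj 4)

theorem dz_LtR (hX : D0v X) (hY : D0v Y) (hZ : D0v Z) :
    DZ fun v => LtR (X v) (Y v) (Z v) := by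
  unfold LtR
  apply DZ.bex hZ
  apply DZ.expair (D0v.proj 0)
  apply DZ.expair (D0v.proj 0)
  apply DZ.expair (D0v.proj 0)
  exact DZ.pairMem hX.tail.tail.tail.tail.tail.tail.tail
    hY.tail.tail.tail.tail.tail.tail.tail (D0v.proj 1)

end

end Pool.Agent.helper797_cs
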