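import Pool.Agent.helper797_cs.MDefs
import Pool.Agent.helper797_cs.PK6
import Pool.Agent.R587.Cal

/-! # K7: terms (C1.2 of the paper), restriction to closed sets, the set of the matrices -/

set_option autoImplicit false
namespace Pool.Agent.helper797_cs
open Pool.Agent.W868 Pool.Agent.R587
open ZFSet (pair)
open Cardinal Order

variable {F : ZFSet.{0}}

/-- Substitution. -/
theorem ev_bind {𝔄 : Stc} {Ψ : Set Mx} {C : Set ZFSet.{0}} (f : ZFSet.{0} → Tm) (vt : Tm)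
    (x : ZFSet.{0}) (hf : ∀ a ∈ C, (f a).ev 𝔄 x = a) (t : Tm) (ht : t.Over Ψ C) :
    (Tm.bind f vt t).ev 𝔄 x = t.ev 𝔄 (vt.ev 𝔄 x) := by
  induction t with
  | var => rfl
  | cst a => exact hf a ht
  | pr s t ih1 ih2 => simp only [Tm.bind, Tm.ev, ih1 ht.1, ih2 ht.2]
  | fst t ih => simp only [Tm.bind, Tm.ev, ih ht]
  | snd t ih => simp only [Tm.bind, Tm.ev, ih ht]
  | lv t ih => simp only [Tm.bind, Tm.ev, ih ht]
  | sk n φ ts ih =>
    simp only [Tm.bind, Tm.ev]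
    congr 1
    funext i
    exact ih i (ht.2 i)

theorem over_bind {Ψ : Set Mx} {C D : Set ZFSet.{0}} (f : ZFSet.{0} → Tm) {vt : Tm}
    (hf : ∀ a ∈ C, (f a).Over Ψ D) (hv : vt.Over Ψ D) (t : Tm) (ht : t.Over Ψ C) :
    (Tm.bind f vt t).Over Ψ D := by
  induction t with
  | var => exact hv
  | cst a => exact hf a ht
  | pr s t ih1 ih2 => exact ⟨ih1 ht.1, ih2 ht.2⟩
  | fst t ih => exact ih ht
  | snd t ih => exact ih ht
  | lv t ih => exact ih ht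
  | sk n φ ts ih => exact ⟨ht.1, fun i => ih i (ht.2 i)⟩

theorem in_mono {Ψ Ψ' : Set Mx} (h : Ψ ⊆ Ψ') {n : ℕ} {φ : Fo n} (hφ : φ.In Ψ) : φ.In Ψ' := by
  induction φ with
  | mem i j => trivial
  | eq i j => trivial
  | pF i => trivial
  | lt i j => trivial
  | lv i j => trivial
  | neg φ ih => exact ih hφ
  | and φ ψ ih1 ih2 => exact ⟨ih1 hφ.1, ih2 hφ.2⟩
  | ex φ ih => exact ⟨h hφ.1, ih hφ.2⟩
  | bex i φ ih => exact ⟨h hφ.1, ih hφ.2⟩

/-- Each formula is in some finite closed set of matrices. -/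
theorem exists_mats {n : ℕ} (φ : Fo n) : ∃ Ψ : Set Mx, Ψ.Finite ∧ Cl Ψ ∧ φ.In Ψ := by
  induction φ with
  | mem i j => exact ⟨∅, Set.finite_empty, fun ψ h => absurd h (Set.notMem_empty ψ), trivial⟩
  | eq i j => exact ⟨∅, Set.finite_empty, fun ψ h => absurd h (Set.notMem_empty ψ), trivial⟩
  | pF i => exact ⟨∅, Set.finite_empty, fun ψ h => absurd h (Set.notMem_empty ψ), trivial⟩
  | lt i j => exact ⟨∅, Set.finite_empty, fun ψ h => absurd h (Set.notMem_empty ψ), trivial⟩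
  | lv i j => exact ⟨∅, Set.finite_empty, fun ψ h => absurd h (Set.notMem_empty ψ), trivial⟩
  | neg φ ih => exact ih
  | and φ ψ ih1 ih2 =>
    obtain ⟨Ψ1, h1, h2, h3⟩ := ih1
    obtain ⟨Ψ2, h4, h5, h6⟩ := ih2
    refine ⟨Ψ1 ∪ Ψ2, h1.union h4, ?_, in_mono Set.subset_union_left h3,
      in_mono Set.subset_union_right h6⟩
    rintro ψ (h | h)
    · exact in_mono Set.subset_union_left (h2 ψ h)
    · exact in_mono Set.subset_union_right (h5 ψ h)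
  | ex φ ih =>
    rename_i n
    obtain ⟨Ψ1, h1, h2, h3⟩ := ih
    refine ⟨insert ⟨n, φ⟩ Ψ1, h1.insert _, ?_, Set.mem_insert _ _,
      in_mono (Set.subset_insert _ _) h3⟩
    rintro ψ (rfl | h)
    · exact in_mono (Set.subset_insert _ _) h3
    · exact in_mono (Set.subset_insert _ _) (h2 ψ h)
  | bex i φ ih =>
    rename_i n
    obtain ⟨Ψ1, h1, h2, h3⟩ := ih
    refine ⟨insert ⟨n, .and (.mem 0 i.succ) φ⟩ Ψ1, h1.insert _, ?_, Set.mem_insert _ _,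
      in_mono (Set.subset_insert _ _) h3⟩
    rintro ψ (rfl | h)
    · exact ⟨trivial, in_mono (Set.subset_insert _ _) h3⟩
    · exact in_mono (Set.subset_insert _ _) (h2 ψ h)

/-- The value of the Skolem function if there is no witness. -/
theorem k7_sk_none {𝔄 : Stc} {n : ℕ} {φ : Fo (n + 1)} {v : Fin n → ZFSet.{0}}
    (h : ¬ ∃ a ∈ 𝔄.A, φ.Sat 𝔄 (Fin.cons a v)) : 𝔄.sk φ v = ∅ := by
  unfold Stc.sk
  rw [dif_neg]
  rintro ⟨a, ha, h1, -⟩
  exact h ⟨a, ha, h1⟩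

theorem sk_res {ξ : Ordinal.{0}} {Ψ : Set Mx} {X : Set ZFSet.{0}} (hX : Clsd (KA F ξ) Ψ X)
    {n : ℕ} {φ : Fo (n + 1)} (hφ : φ.In Ψ) {v : Fin n → ZFSet.{0}} (hv : ∀ i, v i ∈ X)
    (h : (KA F ξ).sk φ v ∈ X) : ((KA F ξ).res X).sk φ v = (KA F ξ).sk φ v := by
  have hc : ∀ a ∈ X, ∀ i, (Fin.cons a v : Fin (n + 1) → ZFSet.{0}) i ∈ X := by
    intro a ha i
    refine Fin.cases ?_ (fun i => ?_) i
    · exact ha
    · exact hv i
  by_cases hw : ∃ a ∈ (KA F ξ).A, φ.Sat (KA F ξ) (Fin.cons a v)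
  · obtain ⟨h1, h2, h3⟩ := sk_spec (X := (KA F ξ).A) φ v (fun _ h => h) hw
    change (KA F ξ).sk φ v ∈ _ at h1
    change φ.Sat (KA F ξ) (Fin.cons ((KA F ξ).sk φ v) v) at h2
    change ∀ b ∈ (KA F ξ).A, φ.Sat (KA F ξ) (Fin.cons b v) → b ≠ (KA F ξ).sk φ v →
      pair ((KA F ξ).sk φ v) b ∈ KW F ξ at h3
    obtain ⟨h4, h5, h6⟩ := sk_spec (X := X) φ v hX.sub
      ⟨_, h, (clsd_sat hX hφ (hc _ h)).2 h2⟩
    by_contra hne
    have h7 := h3 _ (hX.sub h4) ((clsd_sat hX hφ (hc _ h4)).1 h5) hne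
    have h8 := h6 _ h ((clsd_sat hX hφ (hc _ h)).2 h2) (Ne.symm hne)
    exact kw_irrefl ξ _ (kw_trans ξ h7 h8)
  · rw [k7_sk_none hw, k7_sk_none]
    rintro ⟨a, ha, h1⟩
    exact hw ⟨a, hX.sub ha, (clsd_sat hX hφ (hc a ha)).1 h1⟩

theorem ev_res {ξ : Ordinal.{0}} {Ψ : Set Mx} {X : Set ZFSet.{0}} (hX : Clsd (KA F ξ) Ψ X)
    (hcl : Cl Ψ) {t : Tm} (ht : t.Over Ψ X) {x : ZFSet.{0}} (hx : x ∈ X) :
    t.ev ((KA F ξ).res X) x = t.ev (KA F ξ) x ∧ t.ev (KA F ξ) x ∈ X := by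
  induction t with
  | var => exact ⟨rfl, hx⟩
  | cst a => exact ⟨rfl, ht⟩
  | pr s t ih1 ih2 =>
    simp only [Tm.ev, (ih1 ht.1).1, (ih2 ht.2).1, true_and]
    exact hX.pr _ (ih1 ht.1).2 _ (ih2 ht.2).2
  | fst t ih =>
    simp only [Tm.ev, (ih ht).1, true_and]
    exact hX.fst _ (ih ht).2
  | snd t ih =>
    simp only [Tm.ev, (ih ht).1, true_and]
    exact hX.snd _ (ih ht).2
  | lv t ih =>
    simp only [Tm.ev, (ih ht).1]
    exact ⟨rfl, hX.lv _ (ih ht).2⟩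
  | sk n φ ts ih =>
    have h1 : (fun i => (ts i).ev ((KA F ξ).res X) x) = fun i => (ts i).ev (KA F ξ) x :=
      funext fun i => (ih i (ht.2 i)).1
    have h2 := hX.sk _ ht.1 (fun i => (ts i).ev (KA F ξ) x) fun i => (ih i (ht.2 i)).2
    simp only [Tm.ev, h1]
    exact ⟨sk_res hX (hcl _ ht.1) (fun i => (ih i (ht.2 i)).2) h2, h2⟩

/-! ### Definable relations of a structure, with the parameters `v` -/

/-- The tuple `w` followed by the parameters `v`. -/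
def k7_pre {k : ℕ} (v : Fin k → ZFSet.{0}) : {n : ℕ} → (Fin n → ZFSet.{0}) → (Fin (k + n) → ZFSet.{0})
  | 0, _ => v
  | _ + 1, w => Fin.cons (w 0) (k7_pre v (Fin.tail w))

/-- The position of the parameter `j`. -/
def k7_pj {k : ℕ} (j : Fin k) : (n : ℕ) → Fin (k + n)
  | 0 => j
  | n + 1 => (k7_pj j n).succ

/-- The position of the variable `i`. -/
def k7_pi (k : ℕ) : {n : ℕ} → Fin n → Fin (k + n)
  | 0, i => i.elim0
  | n + 1, i => Fin.cases (0 : Fin (k + n + 1)) (fun i => (k7_pi k i).succ) i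

theorem k7_pre_pj {k : ℕ} (v : Fin k → ZFSet.{0}) (j : Fin k) : ∀ {n : ℕ} (w : Fin n → ZFSet.{0}),
    k7_pre v w (k7_pj j n) = v j
  | 0, w => rfl
  | n + 1, w => by
    simp only [k7_pre, k7_pj]
    rw [Fin.cons_succ]
    exact k7_pre_pj v j (Fin.tail w)

theorem k7_pre_pi {k : ℕ} (v : Fin k → ZFSet.{0}) : ∀ {n : ℕ} (w : Fin n → ZFSet.{0}) (i : Fin n),
    k7_pre v w (k7_pi k i) = w i
  | 0, w, i => i.elim0
  | n + 1, w, i => by
    refine Fin.cases ?_ (fun i => ?_) i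
    · rfl
    · simp only [k7_pre, k7_pi, Fin.cases_succ]
      rw [Fin.cons_succ]
      exact k7_pre_pi v (Fin.tail w) i

/-- The renaming. -/
def k7_rho (k : ℕ) {m : ℕ} : {n : ℕ} → (Fin n → Fin m) → (Fin (k + n) → Fin (k + m))
  | 0, _ => fun j => k7_pj j m
  | _ + 1, ρ => Fin.cons (k7_pi k (ρ 0)) (k7_rho k (Fin.tail ρ))

theorem k7_pre_rho {k m : ℕ} (v : Fin k → ZFSet.{0}) (w : Fin m → ZFSet.{0}) :
    ∀ {n : ℕ} (ρ : Fin n → Fin m),
    (fun i => k7_pre v w (k7_rho k ρ i)) = k7_pre v fun i => w (ρ i)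
  | 0, ρ => funext fun j => k7_pre_pj v j w
  | n + 1, ρ => by
    have h := k7_pre_rho v w (Fin.tail ρ)
    funext i
    refine Fin.cases ?_ (fun i => ?_) i
    · exact k7_pre_pi v w (ρ 0)
    · exact congrFun h i

/-- The relation `R` is definable in the structure with the parameters `v`. -/
def K7FD (𝔄 : Stc) {k : ℕ} (v : Fin k → ZFSet.{0}) {n : ℕ} (R : (Fin n → ZFSet.{0}) → Prop) : Prop :=
  ∃ φ : Fo (k + n), ∀ w : Fin n → ZFSet.{0}, (∀ i, w i ∈ 𝔄.A) → (φ.Sat 𝔄 (k7_pre v w) ↔ R w)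

section

variable {𝔄 : Stc} {k : ℕ} {v : Fin k → ZFSet.{0}} {n : ℕ} {R T : (Fin n → ZFSet.{0}) → Prop}

theorem K7FD.congr (h : K7FD 𝔄 v R) (h' : ∀ w, (∀ i, w i ∈ 𝔄.A) → (R w ↔ T w)) : K7FD 𝔄 v T := by
  obtain ⟨φ, hφ⟩ := h
  exact ⟨φ, fun w hw => (hφ w hw).trans (h' w hw)⟩

theorem K7FD.not (h : K7FD 𝔄 v R) : K7FD 𝔄 v fun w => ¬ R w := by
  obtain ⟨φ, hφ⟩ := h
  exact ⟨.neg φ, fun w hw => not_congr (hφ w hw)⟩

theorem K7FD.and (h : K7FD 𝔄 v R) (h' : K7FD 𝔄 v T) : K7FD 𝔄 v fun w => R w ∧ T w := by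
  obtain ⟨φ, hφ⟩ := h
  obtain ⟨ψ, hψ⟩ := h'
  exact ⟨.and φ ψ, fun w hw => and_congr (hφ w hw) (hψ w hw)⟩

theorem K7FD.or (h : K7FD 𝔄 v R) (h' : K7FD 𝔄 v T) : K7FD 𝔄 v fun w => R w ∨ T w :=
  (h.not.and h'.not).not.congr fun w _ => by tauto

theorem K7FD.imp (h : K7FD 𝔄 v R) (h' : K7FD 𝔄 v T) : K7FD 𝔄 v fun w => R w → T w :=
  (h.and h'.not).not.congr fun w _ => by tauto

theorem K7FD.ex {Q : ZFSet.{0} → (Fin n → ZFSet.{0}) → Prop}
    (h : K7FD 𝔄 v fun w : Fin (n + 1) → ZFSet.{0} => Q (w 0) (Fin.tail w)) :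
    K7FD 𝔄 v fun w => ∃ a ∈ 𝔄.A, Q a w := by
  obtain ⟨φ, hφ⟩ := h
  refine ⟨.ex φ, fun w hw => ?_⟩
  simp only [Fo.Sat]
  refine exists_congr fun a => and_congr_right fun ha => ?_
  exact hφ (Fin.cons a w) fun i => by
    refine Fin.cases ?_ (fun i => ?_) i
    · exact ha
    · exact hw i

theorem K7FD.all {Q : ZFSet.{0} → (Fin n → ZFSet.{0}) → Prop}
    (h : K7FD 𝔄 v fun w : Fin (n + 1) → ZFSet.{0} => Q (w 0) (Fin.tail w)) :
    K7FD 𝔄 v fun w => ∀ a ∈ 𝔄.A, Q a w := by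
  have h1 : K7FD 𝔄 v fun w => ∃ a ∈ 𝔄.A, ¬ Q a w := K7FD.ex (Q := fun a w => ¬ Q a w) h.not
  exact h1.not.congr fun w _ => by
    constructor
    · intro h2 a ha
      by_contra h3
      exact h2 ⟨a, ha, h3⟩
    · rintro h2 ⟨a, ha, h3⟩
      exact h3 (h2 a ha)

theorem K7FD.comp (h : K7FD 𝔄 v R) {m : ℕ} (ρ : Fin n → Fin m) :
    K7FD 𝔄 v fun w : Fin m → ZFSet.{0} => R fun i => w (ρ i) := by
  obtain ⟨φ, hφ⟩ := h
  refine ⟨φ.rn (k7_rho k ρ), fun w hw => ?_⟩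
  rw [sat_rn, k7_pre_rho]
  exact hφ _ fun i => hw _

theorem K7FD.of_sat (φ : Fo n) : K7FD 𝔄 v fun w : Fin n → ZFSet.{0} => φ.Sat 𝔄 w := by
  refine ⟨φ.rn (k7_pi k), fun w _ => ?_⟩
  rw [sat_rn]
  have h : (fun i => k7_pre v w (k7_pi k i)) = w := funext fun i => k7_pre_pi v w i
  rw [h]

theorem K7FD.param (i : Fin n) (j : Fin k) : K7FD 𝔄 v fun w : Fin n → ZFSet.{0} => w i = v j := by
  refine ⟨.eq (k7_pi k i) (k7_pj j n), fun w _ => ?_⟩
  simp only [Fo.Sat, k7_pre_pi, k7_pre_pj]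

theorem K7FD.tt : K7FD 𝔄 v fun _ : Fin n → ZFSet.{0} => True := by
  cases n with
  | zero => exact ⟨.neg (.ex (.neg (.eq 0 0))), fun w _ => by simp [Fo.Sat]⟩
  | succ n => exact ⟨.eq (k7_pi k 0) (k7_pi k 0), fun w _ => by simp [Fo.Sat]⟩

theorem K7FD.allFin {l : ℕ} {R : Fin l → (Fin n → ZFSet.{0}) → Prop} (h : ∀ i, K7FD 𝔄 v (R i)) :
    K7FD 𝔄 v fun w => ∀ i, R i w := by
  induction l with
  | zero => exact K7FD.tt.congr fun v _ => ⟨fun _ i => i.elim0, fun _ => trivial⟩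
  | succ l ih =>
    refine ((h 0).and (ih fun i => h i.succ)).congr fun v _ => ?_
    exact (Fin.forall_fin_succ (P := fun i => R i v)).symm

theorem K7FD.exN : ∀ (l m : ℕ) (Q : (Fin l → ZFSet.{0}) → (Fin m → ZFSet.{0}) → Prop),
    (∀ (p : ℕ) (ρ : Fin l → Fin p) (σ : Fin m → Fin p),
      K7FD 𝔄 v fun w : Fin p → ZFSet.{0} => Q (fun i => w (ρ i)) fun j => w (σ j)) →
    K7FD 𝔄 v fun w : Fin m → ZFSet.{0} => ∃ u : Fin l → ZFSet.{0}, (∀ i, u i ∈ 𝔄.A) ∧ Q u w := by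
  intro l
  induction l with
  | zero =>
    intro m Q h
    refine (h m Fin.elim0 id).congr fun v _ => ?_
    constructor
    · intro h1
      exact ⟨_, fun i => i.elim0, h1⟩
    · rintro ⟨u, -, h1⟩
      have h2 : u = fun i => v (Fin.elim0 i) := funext fun i => i.elim0
      rw [h2] at h1
      exact h1
  | succ l ih =>
    intro m Q h
    have h1 := ih (m + 1) (fun u v => Q (Fin.cons (v 0) u) (Fin.tail v)) (by
      intro p ρ σ
      refine (h p (Fin.cons (σ 0) ρ) (fun j => σ j.succ)).congr fun w _ => ?_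
      have h2 : (fun i => w ((Fin.cons (σ 0) ρ : Fin (l + 1) → Fin p) i)) =
          Fin.cons (w (σ 0)) fun i => w (ρ i) := by
        funext i
        refine Fin.cases ?_ (fun i => ?_) i
        · rfl
        · rfl
      rw [h2]
      rfl)
    refine (K7FD.ex (Q := fun a v => ∃ u : Fin l → ZFSet.{0}, (∀ i, u i ∈ 𝔄.A) ∧
      Q (Fin.cons a u) v) h1).congr fun v _ => ?_
    constructor
    · rintro ⟨a, ha, u, hu, h2⟩
      refine ⟨Fin.cons a u, fun i => ?_, h2⟩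
      refine Fin.cases ?_ (fun i => ?_) i
      · exact ha
      · exact hu i
    · rintro ⟨u, hu, h2⟩
      refine ⟨u 0, hu 0, Fin.tail u, fun i => hu i.succ, ?_⟩
      rw [Fin.cons_self_tail]
      exact h2

theorem K7FD.ofDB (hA : ∀ x ∈ 𝔄.A, ∀ y ∈ x, y ∈ 𝔄.A) (h : DB R) : K7FD 𝔄 v R := by
  obtain ⟨φ, -, h2⟩ := h
  exact (K7FD.of_sat φ).congr fun w hw => h2 𝔄 hA w hw

/-- Substitution of the values of terms. -/
theorem K7FD.step {l : ℕ} {ts : Fin l → Tm}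
    (hts : ∀ i, K7FD 𝔄 v fun w : Fin 2 → ZFSet.{0} => w 0 = (ts i).ev 𝔄 (w 1))
    (hA : ∀ i, ∀ x ∈ 𝔄.A, (ts i).ev 𝔄 x ∈ 𝔄.A) {K : ZFSet.{0} → (Fin l → ZFSet.{0}) → Prop}
    (hK : K7FD 𝔄 v fun w : Fin (l + 1) → ZFSet.{0} => K (w 0) (Fin.tail w)) :
    K7FD 𝔄 v fun w : Fin 2 → ZFSet.{0} => K (w 0) fun i => (ts i).ev 𝔄 (w 1) := by
  have h1 := K7FD.exN (𝔄 := 𝔄) (v := v) l 2
    (fun u w => (∀ i, u i = (ts i).ev 𝔄 (w 1)) ∧ K (w 0) u) (by
      intro p ρ σ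
      refine K7FD.and (K7FD.allFin fun i => ?_) ?_
      · exact (hts i).comp ![ρ i, σ 1]
      · exact hK.comp (Fin.cons (σ 0) ρ))
  refine h1.congr fun w hw => ?_
  constructor
  · rintro ⟨u, -, h2, h3⟩
    have h4 : u = fun i => (ts i).ev 𝔄 (w 1) := funext h2
    rwa [h4] at h3
  · intro h2
    exact ⟨_, fun i => hA i _ (hw 1), fun i => rfl, h2⟩

end

theorem k7_db_fs : DB fun w : Fin 2 → ZFSet.{0} => w 0 = fs (w 1) := by
  have h : DB fun w : Fin 2 → ZFSet.{0} => (∃ x y, w 1 = pair x y ∧ w 0 = x) ∨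
      (¬ (∃ x y, w 1 = pair x y ∧ x = x) ∧ ∀ z ∈ w 0, ¬ z = z) := by
    apply DB.or
    · apply DB.expair (Q := fun x _ w => w 0 = x) (D0v.proj 1)
      exact DB.eq (D0v.proj 2) (D0v.proj 1)
    · apply DB.and
      · apply DB.not
        apply DB.expair (Q := fun x _ w => x = x) (D0v.proj 1)
        exact DB.eq (D0v.proj 1) (D0v.proj 1)
      · apply DB.ball (D0v.proj 0)
        exact (DB.eq (D0v.proj 0) (D0v.proj 0)).not
  refine h.congr fun w => ?_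
  by_cases h1 : ∃ a b, w 1 = pair a b
  · obtain ⟨a, b, h2⟩ := h1
    rw [h2, fs_pair]
    constructor
    · rintro (⟨x, y, h3, h4⟩ | ⟨h3, -⟩)
      · rw [h4, (ZFSet.pair_inj.1 h3).1]
      · exact absurd ⟨a, b, rfl, rfl⟩ h3
    · intro h3
      exact Or.inl ⟨a, b, rfl, h3⟩
  · rw [fs, dif_neg h1, ZFSet.eq_empty]
    constructor
    · rintro (⟨x, y, h3, h4⟩ | ⟨-, h3⟩)
      · exact absurd ⟨x, y, h3⟩ h1
      · exact fun z hz => h3 z hz rfl
    · intro h3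
      exact Or.inr ⟨fun ⟨x, y, h4, _⟩ => h1 ⟨x, y, h4⟩, fun z hz => absurd hz (h3 z)⟩

theorem k7_db_sn : DB fun w : Fin 2 → ZFSet.{0} => w 0 = sn (w 1) := by
  have h : DB fun w : Fin 2 → ZFSet.{0} => (∃ x y, w 1 = pair x y ∧ w 0 = y) ∨
      (¬ (∃ x y, w 1 = pair x y ∧ x = x) ∧ ∀ z ∈ w 0, ¬ z = z) := by
    apply DB.or
    · apply DB.expair (Q := fun _ y w => w 0 = y) (D0v.proj 1)
      exact DB.eq (D0v.proj 2) (D0v.proj 0)
    · apply DB.and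
      · apply DB.not
        apply DB.expair (Q := fun x _ w => x = x) (D0v.proj 1)
        exact DB.eq (D0v.proj 1) (D0v.proj 1)
      · apply DB.ball (D0v.proj 0)
        exact (DB.eq (D0v.proj 0) (D0v.proj 0)).not
  refine h.congr fun w => ?_
  by_cases h1 : ∃ a b, w 1 = pair a b
  · obtain ⟨a, b, h2⟩ := h1
    rw [h2, sn_pair]
    constructor
    · rintro (⟨x, y, h3, h4⟩ | ⟨h3, -⟩)
      · rw [h4, (ZFSet.pair_inj.1 h3).2]
      · exact absurd ⟨a, b, rfl, rfl⟩ h3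
    · intro h3
      exact Or.inl ⟨a, b, rfl, h3⟩
  · rw [sn, dif_neg h1, ZFSet.eq_empty]
    constructor
    · rintro (⟨x, y, h3, h4⟩ | ⟨-, h3⟩)
      · exact absurd ⟨x, y, h3⟩ h1
      · exact fun z hz => h3 z hz rfl
    · intro h3
      exact Or.inr ⟨fun ⟨x, y, h4, _⟩ => h1 ⟨x, y, h4⟩, fun z hz => absurd hz (h3 z)⟩

/-- The value of the Skolem function. -/
theorem k7_sk_iff {ξ : Ordinal.{0}} {n : ℕ} {φ : Fo (n + 1)} {v : Fin n → ZFSet.{0}}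
    {y : ZFSet.{0}} (hy : y ∈ KS F ξ) : y = (KA F ξ).sk φ v ↔
      (φ.Sat (KA F ξ) (Fin.cons y v) ∧
        ∀ b ∈ (KA F ξ).A, φ.Sat (KA F ξ) (Fin.cons b v) → ¬ (KA F ξ).lt b y) ∨
      ((¬ ∃ b ∈ (KA F ξ).A, φ.Sat (KA F ξ) (Fin.cons b v)) ∧ y = ∅) := by
  by_cases hw : ∃ a ∈ (KA F ξ).A, φ.Sat (KA F ξ) (Fin.cons a v)
  · obtain ⟨h1, h2, h3⟩ := sk_spec (X := (KA F ξ).A) φ v (fun _ h => h) hw
    change (KA F ξ).sk φ v ∈ _ at h1
    change φ.Sat (KA F ξ) (Fin.cons ((KA F ξ).sk φ v) v) at h2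
    change ∀ b ∈ (KA F ξ).A, φ.Sat (KA F ξ) (Fin.cons b v) → b ≠ (KA F ξ).sk φ v →
      pair ((KA F ξ).sk φ v) b ∈ KW F ξ at h3
    constructor
    · rintro rfl
      refine Or.inl ⟨h2, fun b hb h4 h5 => ?_⟩
      by_cases h6 : b = (KA F ξ).sk φ v
      · rw [← h6] at h5
        exact kw_irrefl ξ _ h5
      · exact kw_irrefl ξ _ (kw_trans ξ h5 (h3 b hb h4 h6))
    · rintro (⟨h4, h5⟩ | ⟨h4, -⟩)
      · by_contra h6
        exact h5 _ h1 h2 (h3 y hy h4 h6)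
      · exact absurd hw h4
  · rw [k7_sk_none hw]
    constructor
    · intro h
      exact Or.inr ⟨hw, h⟩
    · rintro (⟨h4, -⟩ | ⟨-, h4⟩)
      · exact absurd ⟨y, hy, h4⟩ hw
      · exact h4

theorem k7_over_mono {Ψ : Set Mx} {C D : Set ZFSet.{0}} (h : C ⊆ D) {t : Tm} (ht : t.Over Ψ C) :
    t.Over Ψ D := by
  induction t with
  | var => trivial
  | cst a => exact h ht
  | pr s t ih1 ih2 => exact ⟨ih1 ht.1, ih2 ht.2⟩
  | fst t ih => exact ih ht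
  | snd t ih => exact ih ht
  | lv t ih => exact ih ht
  | sk n φ ts ih => exact ⟨ht.1, fun i => ih i (ht.2 i)⟩

/-- The constants of a term form a finite tuple. -/
theorem k7_params {Ψ : Set Mx} {C : Set ZFSet.{0}} {t : Tm} (ht : t.Over Ψ C) :
    ∃ S : Set ZFSet.{0}, S.Finite ∧ S ⊆ C ∧ t.Over Ψ S := by
  induction t with
  | var => exact ⟨∅, Set.finite_empty, Set.empty_subset _, trivial⟩
  | cst a => exact ⟨{a}, Set.finite_singleton _, Set.singleton_subset_iff.2 ht, rfl⟩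
  | pr s t ih1 ih2 =>
    obtain ⟨S, h1, h2, h3⟩ := ih1 ht.1
    obtain ⟨T, h4, h5, h6⟩ := ih2 ht.2
    exact ⟨S ∪ T, h1.union h4, Set.union_subset h2 h5, k7_over_mono Set.subset_union_left h3,
      k7_over_mono Set.subset_union_right h6⟩
  | fst t ih => exact ih ht
  | snd t ih => exact ih ht
  | lv t ih => exact ih ht
  | sk n φ ts ih =>
    choose S h1 h2 h3 using fun i => ih i (ht.2 i)
    refine ⟨⋃ i, S i, Set.finite_iUnion h1, Set.iUnion_subset h2, ht.1, fun i => ?_⟩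
    exact k7_over_mono (Set.subset_iUnion S i) (h3 i)

/-- The values of a term are in the level. -/
theorem k7_ev_mem {ξ : Ordinal.{0}} (h : IsSuccLimit ξ) {Ψ : Set Mx} {C : Set ZFSet.{0}}
    (hC : C ⊆ {x | x ∈ KS F ξ}) (t : Tm) (ht : t.Over Ψ C) {x : ZFSet.{0}} (hx : x ∈ KS F ξ) :
    t.ev (KA F ξ) x ∈ KS F ξ := by
  have hc := ka_clsd (F := F) h Ψ
  induction t with
  | var => exact hx
  | cst a => exact hC ht
  | pr s t ih1 ih2 => exact hc.pr _ (ih1 ht.1) _ (ih2 ht.2)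
  | fst t ih => exact hc.fst _ (ih ht)
  | snd t ih => exact hc.snd _ (ih ht)
  | lv t ih => exact hc.lv _ (ih ht)
  | sk n φ ts ih => exact hc.sk _ ht.1 _ fun i => ih i (ht.2 i)

theorem k7_fd_ev {ξ : Ordinal.{0}} (h : IsSuccLimit ξ) {Ψ : Set Mx} {k : ℕ}
    {v : Fin k → ZFSet.{0}} (hv : ∀ i, v i ∈ KS F ξ) (t : Tm) (ht : t.Over Ψ (Set.range v)) :
    K7FD (KA F ξ) v fun w : Fin 2 → ZFSet.{0} => w 0 = t.ev (KA F ξ) (w 1) := by
  have hA : ∀ x ∈ (KA F ξ).A, ∀ y ∈ x, y ∈ (KA F ξ).A := fun x hx y hy => ks_trans ξ x hx y hy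
  have hC : Set.range v ⊆ {x | x ∈ KS F ξ} := by
    rintro _ ⟨i, rfl⟩
    exact hv i
  induction t with
  | var => exact (K7FD.of_sat (n := 2) (.eq 0 1)).congr fun w _ => Iff.rfl
  | cst a =>
    obtain ⟨j, rfl⟩ := ht
    exact K7FD.param 0 j
  | pr s t ih1 ih2 =>
    refine K7FD.step (𝔄 := KA F ξ) (ts := ![s, t]) (K := fun y u => y = pair (u 0) (u 1)) ?_ ?_ ?_
    · intro i
      fin_cases i
      · exact ih1 ht.1
      · exact ih2 ht.2
    · intro i x hx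
      fin_cases i
      · exact k7_ev_mem h hC s ht.1 hx
      · exact k7_ev_mem h hC t ht.2 hx
    · exact K7FD.ofDB hA (DB.isPair (D0v.proj 0) (D0v.proj 1) (D0v.proj 2))
  | fst t ih =>
    refine K7FD.step (𝔄 := KA F ξ) (ts := ![t]) (K := fun y u => y = fs (u 0)) ?_ ?_ ?_
    · intro i
      fin_cases i
      exact ih ht
    · intro i x hx
      fin_cases i
      exact k7_ev_mem h hC t ht hx
    · exact K7FD.ofDB hA k7_db_fs
  | snd t ih =>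
    refine K7FD.step (𝔄 := KA F ξ) (ts := ![t]) (K := fun y u => y = sn (u 0)) ?_ ?_ ?_
    · intro i
      fin_cases i
      exact ih ht
    · intro i x hx
      fin_cases i
      exact k7_ev_mem h hC t ht hx
    · exact K7FD.ofDB hA k7_db_sn
  | lv t ih =>
    refine K7FD.step (𝔄 := KA F ξ) (ts := ![t]) (K := fun y u => y = (KA F ξ).lv (u 0)) ?_ ?_ ?_
    · intro i
      fin_cases i
      exact ih ht
    · intro i x hx
      fin_cases i
      exact k7_ev_mem h hC t ht hx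
    · exact (K7FD.of_sat (n := 2) (.lv 1 0)).congr fun w _ => ⟨fun h => h.symm, fun h => h.symm⟩
  | sk n φ ts ih =>
    refine K7FD.step (𝔄 := KA F ξ) (ts := ts) (K := fun y u => y = (KA F ξ).sk φ u)
      (fun i => ih i (ht.2 i)) (fun i x hx => k7_ev_mem h hC _ (ht.2 i) hx) ?_
    have h1 : K7FD (KA F ξ) v fun w : Fin (n + 1) → ZFSet.{0} =>
        (φ.Sat (KA F ξ) w ∧ ∀ b ∈ (KA F ξ).A, φ.Sat (KA F ξ) (Fin.cons b (Fin.tail w)) →
          ¬ (KA F ξ).lt b (w 0)) ∨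
        ((¬ ∃ b ∈ (KA F ξ).A, φ.Sat (KA F ξ) (Fin.cons b (Fin.tail w))) ∧
          ∀ z ∈ w 0, ¬ z = z) := by
      have h2 : K7FD (KA F ξ) v fun w : Fin (n + 2) → ZFSet.{0} =>
          φ.Sat (KA F ξ) (Fin.cons (w 0) (Fin.tail (Fin.tail w))) := by
        refine ((K7FD.of_sat (𝔄 := KA F ξ) (v := v) φ).comp
          (Fin.cons 0 fun i : Fin n => i.succ.succ)).congr fun w _ => ?_
        have h3 : (fun i => w ((Fin.cons 0 fun i : Fin n => i.succ.succ :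
            Fin (n + 1) → Fin (n + 2)) i)) = Fin.cons (w 0) (Fin.tail (Fin.tail w)) := by
          funext i
          refine Fin.cases ?_ (fun i => ?_) i
          · rfl
          · rfl
        rw [h3]
      refine ((K7FD.of_sat φ).and (K7FD.all (Q := fun b w => φ.Sat (KA F ξ) (Fin.cons b (Fin.tail w)) →
        ¬ (KA F ξ).lt b (w 0)) ?_)).or
        ((K7FD.ex (Q := fun b w => φ.Sat (KA F ξ) (Fin.cons b (Fin.tail w))) ?_).not.and ?_)
      · exact h2.imp ((K7FD.of_sat (n := n + 2) (.neg (.lt 0 1))).congr fun w _ => Iff.rfl)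
      · exact h2
      · exact K7FD.ofDB hA (DB.ball (D0v.proj 0) (DB.eq (D0v.proj 0) (D0v.proj 0)).not)
    refine h1.congr fun w hw => ?_
    rw [k7_sk_iff (hw 0), Fin.cons_self_tail, ZFSet.eq_empty]
    simp

/-- The values of a term are definable. -/
theorem ev_def {ξ : Ordinal.{0}} (h : IsSuccLimit ξ) {Ψ : Set Mx} {C : Set ZFSet.{0}}
    (hC : C ⊆ {x | x ∈ KS F ξ}) (t : Tm) (ht : t.Over Ψ C) :
    ∃ (n : ℕ) (φ : Fo (n + 2)) (v : Fin n → ZFSet.{0}), (∀ i, v i ∈ C) ∧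
      ∀ x ∈ KS F ξ, ∀ z ∈ KS F ξ,
        (φ.Sat (KA F ξ) (Fin.cons z (Fin.cons x v)) ↔ z = t.ev (KA F ξ) x) := by
  obtain ⟨S, h1, h2, h3⟩ := k7_params ht
  obtain ⟨n, v, rfl⟩ : ∃ (n : ℕ) (v : Fin n → ZFSet.{0}), Set.range v = S := by
    obtain ⟨n, v, hv⟩ := h1.fin_param
    exact ⟨n, v, hv.2⟩
  obtain ⟨φ, hφ⟩ := k7_fd_ev h (fun i => hC (h2 ⟨i, rfl⟩)) t h3
  refine ⟨n, φ, v, fun i => h2 ⟨i, rfl⟩, fun x hx z hz => ?_⟩
  have h4 := hφ ![z, x] fun i => by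
    fin_cases i
    · exact hz
    · exact hx
  exact h4

/-! ### Graphs of terms with bounded matrices -/

/-- A bounded formula defines the same relation in all transitive classes. -/
theorem k7_d0 {n : ℕ} (φ : Fo n) (h : φ.IsD0) : ∃ R : (Fin n → ZFSet.{0}) → Prop, D0 R ∧
    ∀ 𝔄 : Stc, (∀ x ∈ 𝔄.A, ∀ y ∈ x, y ∈ 𝔄.A) → ∀ v, (∀ i, v i ∈ 𝔄.A) → (φ.Sat 𝔄 v ↔ R v) := by
  induction φ with
  | mem i j => exact ⟨fun v => v i ∈ v j, D0.mem (D0v.proj i) (D0v.proj j), fun _ _ _ _ => Iff.rfl⟩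
  | eq i j => exact ⟨fun v => v i = v j, D0.eq (D0v.proj i) (D0v.proj j), fun _ _ _ _ => Iff.rfl⟩
  | pF i => exact h.elim
  | lt i j => exact h.elim
  | lv i j => exact h.elim
  | neg φ ih =>
    obtain ⟨R, h1, h2⟩ := ih h
    exact ⟨_, h1.not, fun 𝔄 hA v hv => not_congr (h2 𝔄 hA v hv)⟩
  | and φ ψ ih1 ih2 =>
    obtain ⟨R, h1, h2⟩ := ih1 h.1
    obtain ⟨T, h3, h4⟩ := ih2 h.2
    exact ⟨_, h1.and h3, fun 𝔄 hA v hv => and_congr (h2 𝔄 hA v hv) (h4 𝔄 hA v hv)⟩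
  | ex φ ih => exact h.elim
  | bex i φ ih =>
    obtain ⟨R, h1, h2⟩ := ih h
    refine ⟨fun v => ∃ a ∈ v i, R (Fin.cons a v), ?_, ?_⟩
    · apply D0.bex (Q := fun a v => R (Fin.cons a v)) (D0v.proj i)
      refine h1.congr fun w => ?_
      rw [Fin.cons_self_tail]
    · intro 𝔄 hA v hv
      simp only [Fo.Sat]
      constructor
      · rintro ⟨a, ha, h3, h4⟩
        refine ⟨a, h3, (h2 𝔄 hA _ fun j => ?_).1 h4⟩
        refine Fin.cases ?_ (fun j => ?_) j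
        · exact ha
        · exact hv j
      · rintro ⟨a, h3, h4⟩
        have ha := hA _ (hv i) a h3
        refine ⟨a, ha, h3, (h2 𝔄 hA _ fun j => ?_).2 h4⟩
        refine Fin.cases ?_ (fun j => ?_) j
        · exact ha
        · exact hv j

theorem k7_d0_of_db {n : ℕ} {R : (Fin n → ZFSet.{0}) → Prop} (h : DB R) : D0 R := by
  obtain ⟨φ, h1, h2⟩ := h
  obtain ⟨T, h3, h4⟩ := k7_d0 φ h1
  refine h3.congr fun v => ?_
  have h5 := h4 ⟨Set.univ, fun _ => False, fun _ _ => False, fun x => x⟩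
    (fun _ _ _ _ => trivial) v fun _ => trivial
  have h6 := h2 ⟨Set.univ, fun _ => False, fun _ _ => False, fun x => x⟩
    (fun _ _ _ _ => trivial) v fun _ => trivial
  exact h5.symm.trans h6

/-- The restriction of `H` to `d` is definable over all large levels below `ξ`. -/
def K7EvR (F : ZFSet.{0}) (ξ : Ordinal.{0}) (H : ZFSet.{0} → ZFSet.{0}) (d : ZFSet.{0}) : Prop :=
  ∃ η₀ < ξ, ∀ η, η₀ ≤ η → η < ξ → (∀ x ∈ d, H x ∈ KS F η) ∧
    Dfn {x | x ∈ KS F η} {x | x ∈ KS F η} fun w : Fin 2 → ZFSet.{0} => w 1 ∈ d ∧ w 0 = H (w 1)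

theorem k7_tr (η : Ordinal.{0}) : ∀ x ∈ {x | x ∈ KS F η}, ∀ y ∈ x, y ∈ {x | x ∈ KS F η} :=
  fun x hx y hy => ks_trans η x hx y hy

theorem K7EvR.gr_mem {ξ : Ordinal.{0}} (h : IsSuccLimit ξ) {H : ZFSet.{0} → ZFSet.{0}}
    {d : ZFSet.{0}} (hd : d ∈ KS F ξ) (hH : K7EvR F ξ H d) : gr H d ∈ KS F ξ := by
  obtain ⟨η₀, h0, h1⟩ := hH
  obtain ⟨η₁, h2, h3⟩ := (ks_limit h).1 hd
  have h4 : max η₀ η₁ < ξ := max_lt h0 h2
  have h5 := (ks_gd (F := F) h).prod_mem hd (ks_mem (F := F) h4)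
  obtain ⟨η₂, h6, h7⟩ := (ks_limit h).1 h5
  have h8 : max (max η₀ η₁) η₂ < ξ := max_lt h4 h6
  set η := max (max η₀ η₁) η₂ with hη
  obtain ⟨-, h10⟩ := h1 η ((le_max_left _ _).trans (le_max_left _ _)) h8
  have h11 : Dfn {x | x ∈ KS F η} {x | x ∈ KS F η} fun w : Fin 1 → ZFSet.{0} =>
      ∃ a ∈ {x | x ∈ KS F η}, ∃ b ∈ {x | x ∈ KS F η}, w 0 = pair b a ∧ (b ∈ d ∧ a = H b) := by
    apply Dfn.ex (Q := fun a w => ∃ b ∈ {x | x ∈ KS F η}, w 0 = pair b a ∧ (b ∈ d ∧ a = H b))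
    apply Dfn.ex (Q := fun b w => w 1 = pair b (w 0) ∧ (b ∈ d ∧ w 0 = H b))
    refine Dfn.and ?_ ?_
    · exact (D0.isPair (D0v.proj 2) (D0v.proj 0) (D0v.proj 1)).dfn (k7_tr η)
    · exact h10.comp ![1, 0]
  have h12 := (ks_gd (F := F) h).sepD (ks_mem (F := F) h8) (Q := fun z =>
    ∃ a ∈ {x | x ∈ KS F η}, ∃ b ∈ {x | x ∈ KS F η}, z = pair b a ∧ (b ∈ d ∧ a = H b)) h11
  have h13 : ZFSet.sep (fun z => ∃ a ∈ {x | x ∈ KS F η}, ∃ b ∈ {x | x ∈ KS F η},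
      z = pair b a ∧ (b ∈ d ∧ a = H b)) (KS F η) = gr H d := by
    ext z
    rw [ZFSet.mem_sep, mem_gr]
    constructor
    · rintro ⟨-, a, -, b, -, rfl, hb, rfl⟩
      exact ⟨b, hb, rfl⟩
    · rintro ⟨u, hu, rfl⟩
      have h14 : H u ∈ KS F (max η₀ η₁) := (h1 _ (le_max_left _ _) h4).1 u hu
      have h15 : u ∈ KS F η :=
        ks_mono ((le_max_right _ _).trans (le_max_left _ _)) (ks_trans η₁ d h3 u hu)
      have h16 : pair u (H u) ∈ KS F η :=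
        ks_mono (le_max_right _ _) (ks_trans η₂ _ h7 _ (ZFSet.mem_prod.2 ⟨u, hu, _, h14, rfl⟩))
      exact ⟨h16, H u, ks_mono (le_max_left _ _) h14, u, h15, rfl, hu, rfl⟩
  exact h13 ▸ h12

theorem K7EvR.step {ξ : Ordinal.{0}} (h : IsSuccLimit ξ) {d : ZFSet.{0}} (hd : d ∈ KS F ξ) {l : ℕ}
    {G : Fin l → ZFSet.{0} → ZFSet.{0}} (hG : ∀ i, K7EvR F ξ (G i) d) {H : ZFSet.{0} → ZFSet.{0}}
    (hK : ∃ η₀ < ξ, ∀ η, η₀ ≤ η → η < ξ → (∀ x ∈ d, H x ∈ KS F η) ∧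
      ∃ R : (Fin (l + 1) → ZFSet.{0}) → Prop, Dfn {x | x ∈ KS F η} {x | x ∈ KS F η} R ∧
        ∀ x ∈ d, ∀ y ∈ KS F η, (R (Fin.cons y fun j => G j x) ↔ y = H x)) : K7EvR F ξ H d := by
  choose e he1 he2 using hG
  obtain ⟨η₀, h0, h1⟩ := hK
  obtain ⟨η₁, h2, h3⟩ := (ks_limit h).1 hd
  have hs : Finset.univ.sup e < ξ := by
    rw [Finset.sup_lt_iff (lt_of_le_of_lt bot_le h0)]
    exact fun i _ => he1 i
  refine ⟨max (max η₀ η₁) (Finset.univ.sup e), max_lt (max_lt h0 h2) hs, fun η h4 h5 => ?_⟩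
  have h6 : η₀ ≤ η := (le_max_left _ _).trans ((le_max_left _ _).trans h4)
  have h7 : η₁ ≤ η := (le_max_right _ _).trans ((le_max_left _ _).trans h4)
  have h8 : ∀ i, e i ≤ η := fun i =>
    (Finset.le_sup (Finset.mem_univ i)).trans ((le_max_right _ _).trans h4)
  have hdη : d ∈ KS F η := ks_mono h7 h3
  obtain ⟨h9, R, h10, h11⟩ := h1 η h6 h5
  refine ⟨h9, ?_⟩
  have h12 := Dfn.exN (S := {x | x ∈ KS F η}) (M := {x | x ∈ KS F η}) l 2
    (fun u w => (∀ i, w 1 ∈ d ∧ u i = G i (w 1)) ∧ (w 1 ∈ d ∧ R (Fin.cons (w 0) u))) (by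
      intro p ρ σ
      refine Dfn.and (Dfn.allFin fun i => ?_) (Dfn.and ?_ ?_)
      · exact (he2 i η (h8 i) h5).2.comp ![ρ i, σ 1]
      · exact Dfn.mem (DfnF.proj (σ 1)) (DfnF.const hdη)
      · refine (h10.comp (Fin.cons (σ 0) ρ)).congr fun w _ => ?_
        have h3 : (fun i => w ((Fin.cons (σ 0) ρ : Fin (l + 1) → Fin p) i)) =
            Fin.cons (w (σ 0)) fun i => w (ρ i) := by
          funext i
          refine Fin.cases ?_ (fun i => ?_) i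
          · rfl
          · rfl
        rw [h3])
  refine h12.congr fun w hw => ?_
  constructor
  · rintro ⟨u, -, h13, h14, h15⟩
    have h16 : u = fun i => G i (w 1) := funext fun i => (h13 i).2
    rw [h16, h11 _ h14 _ (hw 0)] at h15
    exact ⟨h14, h15⟩
  · rintro ⟨h13, h14⟩
    exact ⟨_, fun i => (he2 i η (h8 i) h5).1 _ h13, fun i => ⟨h13, rfl⟩, h13,
      (h11 _ h13 _ (hw 0)).2 h14⟩

theorem k7_eh (η : Ordinal.{0}) :
    ∃ P R, Eh F η.toZFSet = pair (KS F η) (pair (KW F η) (pair P R)) := by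
  have h : ∃ a b P R, Eh F η.toZFSet = pair a (pair b (pair P R)) := by
    rcases Ordinal.zero_or_succ_or_isSuccLimit η with rfl | ⟨ζ, rfl⟩ | h
    · exact ⟨_, _, _, _, eh_zero⟩
    · exact ⟨_, _, _, _, eh_succ ζ⟩
    · exact ⟨_, _, _, _, eh_limit h⟩
  obtain ⟨a, b, P, R, h1⟩ := h
  refine ⟨P, R, ?_⟩
  rw [KS, KW, h1]
  simp only [eS, eW, fs_pair, sn_pair]

theorem k7_comp_mem {A : Set ZFSet.{0}} (hA : ∀ x ∈ A, ∀ y ∈ x, y ∈ A) {a b : ZFSet.{0}}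
    (h : pair a b ∈ A) : a ∈ A ∧ b ∈ A := by
  have h1 : ({a, b} : ZFSet.{0}) ∈ A := hA _ h _ (by
    rw [pair, ZFSet.mem_pair]
    exact Or.inr rfl)
  exact ⟨hA _ h1 _ (ZFSet.mem_pair.2 (Or.inl rfl)), hA _ h1 _ (ZFSet.mem_pair.2 (Or.inr rfl))⟩

theorem k7_kw_mem {ξ η : Ordinal.{0}} (h : IsSuccLimit ξ) (hη : η < ξ) : KW F η ∈ KS F ξ := by
  obtain ⟨η', h1, h2⟩ := sq_mem (F := F) h hη
  have h3 : sq F η ∈ KS F ξ := ks_mono h1.le (h2 η le_rfl)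
  have h4 : pair η.toZFSet (Eh F η.toZFSet) ∈ sq F η := by
    rw [sq, pair_mem_gr]
    exact ⟨ZFSet.mem_insert _ _, rfl⟩
  have h5 := (k7_comp_mem (k7_tr ξ) (ks_trans ξ _ h3 _ h4)).2
  obtain ⟨P, R, h6⟩ := k7_eh (F := F) η
  rw [h6] at h5
  exact (k7_comp_mem (k7_tr ξ) (k7_comp_mem (k7_tr ξ) h5).2).1

/-- `u` is in the level number `z`. -/
def K7A (u z G : ZFSet.{0}) : Prop :=
  ∃ p ∈ G, ∃ z' E, p = pair z' E ∧ (z' = z ∧ ∃ S T, E = pair S T ∧ u ∈ S)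

/-- `y` is the sequence of the levels up to the first one that has `u` as an element. -/
def K7L (y u G : ZFSet.{0}) : Prop :=
  ∃ q ∈ G, ∃ z E, q = pair z E ∧ (K7A u z G ∧ (∀ z' ∈ z, ¬ K7A u z' G) ∧ (∀ p ∈ y, p ∈ G) ∧
    ∀ p ∈ G, (p ∈ y ↔ ∃ z' E', p = pair z' E' ∧ (z' ∈ z ∨ z' = z)))

theorem k7_db_L : DB fun w : Fin 3 → ZFSet.{0} => K7L (w 0) (w 1) (w 2) := by
  unfold K7L K7A
  (repeat' first
    | assumption
    | exact D0v.proj _
    | apply DB.not | apply DB.and | apply DB.expair | apply DB.or | apply DB.isPair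
    | apply DB.bex | apply DB.ball | apply DB.imp | apply DB.iff
    | apply DB.eq | apply DB.mem)

theorem k7_mem_sq {η : Ordinal.{0}} {p : ZFSet.{0}} :
    p ∈ sq F η ↔ ∃ α ≤ η, p = pair α.toZFSet (Eh F α.toZFSet) := by
  rw [sq, mem_gr]
  constructor
  · rintro ⟨u, hu, rfl⟩
    rcases ZFSet.mem_insert_iff.1 hu with rfl | hu
    · exact ⟨η, le_rfl, rfl⟩
    · obtain ⟨α, h1, rfl⟩ := Ordinal.mem_toZFSet_iff.1 hu
      exact ⟨α, h1.le, rfl⟩
  · rintro ⟨α, h1, rfl⟩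
    refine ⟨_, ?_, rfl⟩
    rcases h1.lt_or_eq with h2 | rfl
    · exact ZFSet.mem_insert_of_mem _ (Ordinal.toZFSet_mem_toZFSet_iff.2 h2)
    · exact ZFSet.mem_insert _ _

theorem k7_A_iff {η : Ordinal.{0}} {u z : ZFSet.{0}} :
    K7A u z (sq F η) ↔ ∃ α ≤ η, z = α.toZFSet ∧ u ∈ KS F α := by
  unfold K7A
  constructor
  · rintro ⟨p, hp, z', E, rfl, rfl, S, T, rfl, hu⟩
    obtain ⟨α, h1, h2⟩ := k7_mem_sq.1 hp
    obtain ⟨h3, h4⟩ := ZFSet.pair_inj.1 h2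
    obtain ⟨P, R, h5⟩ := k7_eh (F := F) α
    rw [h5] at h4
    exact ⟨α, h1, h3, (ZFSet.pair_inj.1 h4).1 ▸ hu⟩
  · rintro ⟨α, h1, rfl, hu⟩
    obtain ⟨P, R, h5⟩ := k7_eh (F := F) α
    exact ⟨_, k7_mem_sq.2 ⟨α, h1, rfl⟩, _, _, rfl, rfl, _, _, h5, hu⟩

theorem k7_L_iff {η : Ordinal.{0}} {u y : ZFSet.{0}} (hu : u ∈ KS F η) :
    K7L y u (sq F η) ↔ y = lvl F u := by
  obtain ⟨ζ, h1, h2, h3, h4⟩ := lvl_eq hu
  rw [h4]
  have key : ∀ p ∈ sq F η, (p ∈ sq F ζ ↔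
      ∃ z' E', p = pair z' E' ∧ (z' ∈ ζ.toZFSet ∨ z' = ζ.toZFSet)) := by
    intro p hp
    rw [k7_mem_sq]
    constructor
    · rintro ⟨α, h5, rfl⟩
      refine ⟨_, _, rfl, ?_⟩
      rcases h5.lt_or_eq with h6 | rfl
      · exact Or.inl (Ordinal.toZFSet_mem_toZFSet_iff.2 h6)
      · exact Or.inr rfl
    · rintro ⟨z', E', rfl, h5⟩
      obtain ⟨α, h6, h7⟩ := k7_mem_sq.1 hp
      obtain ⟨rfl, rfl⟩ := ZFSet.pair_inj.1 h7
      refine ⟨α, ?_, rfl⟩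
      rcases h5 with h5 | h5
      · exact (Ordinal.toZFSet_mem_toZFSet_iff.1 h5).le
      · exact (Ordinal.toZFSet_injective h5).le
  have hsub : ∀ p ∈ sq F ζ, p ∈ sq F η := by
    intro p hp
    obtain ⟨α, h5, rfl⟩ := k7_mem_sq.1 hp
    exact k7_mem_sq.2 ⟨α, h5.trans h1, rfl⟩
  unfold K7L
  constructor
  · rintro ⟨q, hq, z, E, rfl, h5, h6, h7, h8⟩
    obtain ⟨α, h9, h10, h11⟩ := k7_A_iff.1 h5
    subst h10
    have h12 : α = ζ := by
      refine le_antisymm ?_ ?_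
      · by_contra h13
        exact h6 _ (Ordinal.toZFSet_mem_toZFSet_iff.2 (not_le.1 h13))
          (k7_A_iff.2 ⟨ζ, h1, rfl, h2⟩)
      · by_contra h13
        exact h3 α (not_le.1 h13) h11
    subst h12
    ext p
    constructor
    · intro hp
      exact (key p (h7 p hp)).2 ((h8 p (h7 p hp)).1 hp)
    · intro hp
      exact (h8 p (hsub p hp)).2 ((key p (hsub p hp)).1 hp)
  · rintro rfl
    refine ⟨_, k7_mem_sq.2 ⟨ζ, h1, rfl⟩, _, _, rfl, k7_A_iff.2 ⟨ζ, h1, rfl, h2⟩, ?_, hsub, key⟩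
    intro z' hz' h5
    obtain ⟨α, h6, rfl, h7⟩ := k7_A_iff.1 h5
    exact h3 α (Ordinal.toZFSet_mem_toZFSet_iff.1 hz') h7

/-- C1.2: for bounded matrices the graphs of the terms on sets are elements. By induction on the
term. -/
theorem k7_evR {Ψ : Set Mx} (hb : BdM Ψ) {ξ : Ordinal.{0}} (h : IsSuccLimit ξ) {t : Tm}
    (ht : t.Over Ψ {x | x ∈ KS F ξ}) {d : ZFSet.{0}} (hd : d ∈ KS F ξ) :
    K7EvR F ξ (fun x => t.ev (KA F ξ) x) d := by
  have hgd := ks_gd (F := F) h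
  obtain ⟨ηe, he1, he2⟩ := (ks_limit (F := F) h).1 (hgd.empty_mem)
  obtain ⟨ηd, hd1, hd2⟩ := (ks_limit (F := F) h).1 hd
  induction t with
  | var =>
    refine ⟨ηd, hd1, fun η h1 h2 => ⟨fun x hx => ks_mono h1 (ks_trans _ _ hd2 _ hx), ?_⟩⟩
    exact (Dfn.mem (DfnF.proj 1) (DfnF.const (ks_mono h1 hd2))).and
      (Dfn.eq (DfnF.proj 0) (DfnF.proj 1))
  | cst a =>
    obtain ⟨ηa, h3, h4⟩ := (ks_limit (F := F) h).1 ht
    refine K7EvR.step (l := 0) h hd (G := fun i => i.elim0) (fun i => i.elim0)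
      ⟨ηa, h3, fun η h1 h2 => ⟨fun x _ => ks_mono h1 h4, fun w => w 0 = a, ?_, ?_⟩⟩
    · exact Dfn.eq (DfnF.proj 0) (DfnF.const (ks_mono h1 h4))
    · intro x hx y hy
      rfl
  | pr s t ih1 ih2 =>
    have g1 := ih1 ht.1
    have g2 := ih2 ht.2
    obtain ⟨η₁, h1, h1'⟩ := g1
    obtain ⟨η₂, h2, h2'⟩ := g2
    have h3 : max η₁ η₂ < ξ := max_lt h1 h2
    have h4 := hgd.prod_mem (ks_mem (F := F) h3) (ks_mem (F := F) h3)
    obtain ⟨η₃, h5, h6⟩ := (ks_limit (F := F) h).1 h4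
    refine K7EvR.step (l := 2) h hd (G := ![fun x => s.ev (KA F ξ) x, fun x => t.ev (KA F ξ) x]) ?_
      ⟨η₃, h5, fun η h7 h8 => ⟨fun x hx => ?_, fun w => w 0 = pair (w 1) (w 2), ?_, ?_⟩⟩
    · intro i
      fin_cases i
      · exact ih1 ht.1
      · exact ih2 ht.2
    · have h9 := (h1' _ (le_max_left _ _) h3).1 x hx
      have h10 := (h2' _ (le_max_right _ _) h3).1 x hx
      exact ks_mono h7 (ks_trans _ _ h6 _ (ZFSet.mem_prod.2 ⟨_, h9, _, h10, rfl⟩))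
    · exact (D0.isPair (D0v.proj 0) (D0v.proj 1) (D0v.proj 2)).dfn (k7_tr η)
    · intro x hx y hy
      rfl
  | fst t ih =>
    obtain ⟨η₁, h1, h1'⟩ := ih ht
    refine K7EvR.step (l := 1) h hd (G := ![fun x => t.ev (KA F ξ) x]) ?_
      ⟨max η₁ ηe, max_lt h1 he1, fun η h7 h8 => ⟨fun x hx => ?_, fun w => w 0 = fs (w 1), ?_, ?_⟩⟩
    · intro i
      fin_cases i
      exact ih ht
    · have h9 := (h1' η ((le_max_left _ _).trans h7) h8).1 x hx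
      change fs (t.ev (KA F ξ) x) ∈ KS F η
      by_cases h10 : ∃ a b, t.ev (KA F ξ) x = pair a b
      · obtain ⟨a, b, h11⟩ := h10
        simp only [h11] at h9 ⊢
        rw [fs_pair]
        exact (k7_comp_mem (k7_tr η) h9).1
      · rw [fs, dif_neg h10]
        exact ks_mono ((le_max_right _ _).trans h7) he2
    · exact (k7_d0_of_db k7_db_fs).dfn (k7_tr η)
    · intro x hx y hy
      rfl
  | snd t ih =>
    obtain ⟨η₁, h1, h1'⟩ := ih ht
    refine K7EvR.step (l := 1) h hd (G := ![fun x => t.ev (KA F ξ) x]) ?_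
      ⟨max η₁ ηe, max_lt h1 he1, fun η h7 h8 => ⟨fun x hx => ?_, fun w => w 0 = sn (w 1), ?_, ?_⟩⟩
    · intro i
      fin_cases i
      exact ih ht
    · have h9 := (h1' η ((le_max_left _ _).trans h7) h8).1 x hx
      change sn (t.ev (KA F ξ) x) ∈ KS F η
      by_cases h10 : ∃ a b, t.ev (KA F ξ) x = pair a b
      · obtain ⟨a, b, h11⟩ := h10
        simp only [h11] at h9 ⊢
        rw [sn_pair]
        exact (k7_comp_mem (k7_tr η) h9).2
      · rw [sn, dif_neg h10]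
        exact ks_mono ((le_max_right _ _).trans h7) he2
    · exact (k7_d0_of_db k7_db_sn).dfn (k7_tr η)
    · intro x hx y hy
      rfl
  | lv t ih =>
    obtain ⟨η₁, h1, h1'⟩ := ih ht
    obtain ⟨η₂, h2, h2'⟩ := sq_mem (F := F) h h1
    have hx1 : ∀ x ∈ d, t.ev (KA F ξ) x ∈ KS F η₁ := (h1' η₁ le_rfl h1).1
    refine K7EvR.step (l := 1) h hd (G := ![fun x => t.ev (KA F ξ) x]) ?_
      ⟨η₂, h2, fun η h7 h8 => ⟨fun x hx => ?_, fun w => K7L (w 0) (w 1) (sq F η₁), ?_, ?_⟩⟩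
    · intro i
      fin_cases i
      exact ih ht
    · obtain ⟨ζ, h9, -, -, h10⟩ := lvl_eq (hx1 x hx)
      change lvl F (t.ev (KA F ξ) x) ∈ KS F η
      rw [h10]
      exact ks_mono h7 (h2' ζ h9)
    · refine Dfn.comp3 (Q := K7L) ((k7_d0_of_db k7_db_L).dfn (k7_tr η)) (DfnF.proj 0)
        (DfnF.proj 1) (DfnF.const (ks_mono h7 (h2' η₁ le_rfl)))
    · intro x hx y hy
      exact k7_L_iff (hx1 x hx)
  | sk n φ ts ih =>
    obtain ⟨i, φ', h1, h2⟩ : ∃ (i : Fin n) (φ' : Fo (n + 1)),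
      φ = .and (.mem 0 i.succ) φ' ∧ φ'.IsD0 := hb _ ht.1
    subst h1
    obtain ⟨R', h3, h4⟩ := k7_d0 φ' h2
    choose e he1' he2' using fun j => ih j (ht.2 j)
    have hs : Finset.univ.sup e < ξ := by
      rw [Finset.sup_lt_iff (lt_of_le_of_lt bot_le he1)]
      exact fun j _ => he1' j
    set m := max (Finset.univ.sup e) ηe with hm
    have hmξ : m < ξ := max_lt hs he1
    have hem : ∀ j, e j ≤ m := fun j => (Finset.le_sup (Finset.mem_univ j)).trans (le_max_left _ _)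
    have hval : ∀ x ∈ d, ∀ j, (ts j).ev (KA F ξ) x ∈ KS F m := fun x hx j =>
      (he2' j m (hem j) hmξ).1 x hx
    have hsat : ∀ x ∈ d, ∀ b ∈ KS F ξ,
        ((Fo.and (.mem 0 i.succ) φ').Sat (KA F ξ) (Fin.cons b fun j => (ts j).ev (KA F ξ) x) ↔
          b ∈ (ts i).ev (KA F ξ) x ∧ R' (Fin.cons b fun j => (ts j).ev (KA F ξ) x)) := by
      intro x hx b hb
      refine and_congr Iff.rfl (h4 (KA F ξ) (k7_tr ξ) _ fun j => ?_)
      refine Fin.cases ?_ (fun j => ?_) j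
      · exact hb
      · exact ks_mono hmξ.le (hval x hx j)
    have hH : ∀ x ∈ d, (KA F ξ).sk (Fo.and (.mem 0 i.succ) φ')
        (fun j => (ts j).ev (KA F ξ) x) ∈ KS F m := by
      intro x hx
      by_cases hw : ∃ a ∈ (KA F ξ).A, (Fo.and (.mem 0 i.succ) φ').Sat (KA F ξ)
          (Fin.cons a fun j => (ts j).ev (KA F ξ) x)
      · obtain ⟨h5, h6, -⟩ := sk_spec (X := (KA F ξ).A) (Fo.and (.mem 0 i.succ) φ')
          (fun j => (ts j).ev (KA F ξ) x) (fun _ h => h) hw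
        exact ks_trans _ _ (hval x hx i) _ ((hsat x hx _ h5).1 h6).1
      · rw [k7_sk_none hw]
        exact ks_mono (le_max_right _ _) he2
    obtain ⟨ηw, hw1, hw2⟩ := (ks_limit (F := F) h).1 (k7_kw_mem (F := F) h hmξ)
    refine K7EvR.step (l := n) h hd (G := fun j x => (ts j).ev (KA F ξ) x)
      (fun j => ih j (ht.2 j))
      ⟨max m ηw, max_lt hmξ hw1, fun η h7 h8 => ⟨fun x hx => ?_, fun w =>
        ((w 0 ∈ w i.succ ∧ R' w) ∧ ∀ b ∈ {x | x ∈ KS F η},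
          (b ∈ w i.succ ∧ R' (Fin.cons b (Fin.tail w))) → ¬ pair b (w 0) ∈ KW F m) ∨
        ((¬ ∃ b ∈ {x | x ∈ KS F η}, b ∈ w i.succ ∧ R' (Fin.cons b (Fin.tail w))) ∧ w 0 = ∅),
        ?_, ?_⟩⟩
    · exact ks_mono ((le_max_left _ _).trans h7) (hH x hx)
    · have hR' : Dfn {x | x ∈ KS F η} {x | x ∈ KS F η} R' := h3.dfn (k7_tr η)
      have hR2 : Dfn {x | x ∈ KS F η} {x | x ∈ KS F η} fun w : Fin (n + 2) → ZFSet.{0} =>
          w 0 ∈ w i.succ.succ ∧ R' (Fin.cons (w 0) (Fin.tail (Fin.tail w))) := by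
        refine (Dfn.mem (DfnF.proj 0) (DfnF.proj _)).and ?_
        refine (hR'.comp (Fin.cons 0 fun j : Fin n => j.succ.succ)).congr fun w _ => ?_
        have h9 : (fun j => w ((Fin.cons 0 fun j : Fin n => j.succ.succ :
            Fin (n + 1) → Fin (n + 2)) j)) = Fin.cons (w 0) (Fin.tail (Fin.tail w)) := by
          funext j
          refine Fin.cases ?_ (fun j => ?_) j
          · rfl
          · rfl
        rw [h9]
      refine (((Dfn.mem (DfnF.proj 0) (DfnF.proj _)).and hR').and (Dfn.all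
        (Q := fun b w => (b ∈ w i.succ ∧ R' (Fin.cons b (Fin.tail w))) →
          ¬ pair b (w 0) ∈ KW F m) ?_)).or
        ((Dfn.ex (Q := fun b w => b ∈ w i.succ ∧ R' (Fin.cons b (Fin.tail w))) ?_).not.and ?_)
      · refine hR2.imp (Dfn.not ?_)
        exact Dfn.comp3 (Q := fun a b c => pair a b ∈ c)
          ((D0.pairMem (D0v.proj 0) (D0v.proj 1) (D0v.proj 2)).dfn (k7_tr η)) (DfnF.proj 0)
          (DfnF.proj 1) (DfnF.const (ks_mono ((le_max_right _ _).trans h7) hw2))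
      · exact hR2
      · have hme : ηe ≤ m := le_max_right _ _
        exact Dfn.eq (DfnF.proj 0) (DfnF.const (ks_mono (hme.trans ((le_max_left _ _).trans h7))
          he2))
    · intro x hx y hy
      have hyξ : y ∈ KS F ξ := ks_mono h8.le hy
      change _ ↔ y = (KA F ξ).sk _ _
      rw [k7_sk_iff hyξ]
      have hmη : m ≤ η := (le_max_left _ _).trans h7
      have hu : ∀ b ∈ (ts i).ev (KA F ξ) x, b ∈ KS F m := fun b hb =>
        ks_trans _ _ (hval x hx i) _ hb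
      have hex : (∃ b ∈ (KA F ξ).A, (Fo.and (.mem 0 i.succ) φ').Sat (KA F ξ)
          (Fin.cons b fun j => (ts j).ev (KA F ξ) x)) ↔
          ∃ b ∈ {x | x ∈ KS F η}, b ∈ (ts i).ev (KA F ξ) x ∧
            R' (Fin.cons b fun j => (ts j).ev (KA F ξ) x) := by
        constructor
        · rintro ⟨b, hb, h9⟩
          have h10 := (hsat x hx b hb).1 h9
          exact ⟨b, ks_mono hmη (hu b h10.1), h10⟩
        · rintro ⟨b, hb, h9⟩
          have hb' : b ∈ KS F ξ := ks_mono hmξ.le (hu b h9.1)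
          exact ⟨b, hb', (hsat x hx b hb').2 h9⟩
      rw [hsat x hx y hyξ]
      refine or_congr (and_congr_right fun h9 => ?_) (and_congr_left fun _ => not_congr hex.symm)
      have hym : y ∈ KS F m := hu y h9.1
      constructor
      · intro h10 b hb h11 h12
        have h13 := (hsat x hx b hb).1 h11
        exact h10 b (ks_mono hmη (hu b h13.1)) h13 ((kw_end hmξ.le hym).1 h12)
      · intro h10 b hb h11 h12
        have hb' : b ∈ KS F ξ := ks_mono hmξ.le (hu b h11.1)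
        exact h10 b hb' ((hsat x hx b hb').2 h11) ((kw_end hmξ.le hym).2 h12)

/-- C1.2: for bounded matrices the graphs of the terms on sets are elements. By induction on the
term. -/
theorem ev_bdm {Ψ : Set Mx} (hb : BdM Ψ) {ξ : Ordinal.{0}} (h : IsSuccLimit ξ) {t : Tm}
    (ht : t.Over Ψ {x | x ∈ KS F ξ}) {d : ZFSet.{0}} (hd : d ∈ KS F ξ) :
    gr (fun x => t.ev (KA F ξ) x) d ∈ KS F ξ :=
  K7EvR.gr_mem h hd (k7_evR hb h ht hd)

end Pool.Agent.helper797_cs
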