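import Pool.Agent.helper797_cs.MDefs
import Pool.Agent.helper797_cs.PK2
import Pool.Agent.helper797_cs.PK3

/-! # K9: a level that is generated by `S_θ` and finitely many functions is an image of `S_θ` -/

set_option autoImplicit false
namespace Pool.Agent.helper797_cs
open Pool.Agent.W868 Pool.Agent.R587
open ZFSet (pair)
open Cardinal Order

namespace PK9

/-! ### Definable relations and functions -/

/-- `R` is definable over the structure, with parameters. -/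
def Df (𝔄 : Stc) {n : ℕ} (R : (Fin n → ZFSet.{0}) → Prop) : Prop :=
  ∃ (m : ℕ) (φ : Fo (n + m)) (w : Fin m → ZFSet.{0}), (∀ i, w i ∈ 𝔄.A) ∧
    ∀ v : Fin n → ZFSet.{0}, (∀ i, v i ∈ 𝔄.A) → (φ.Sat 𝔄 (Fin.append v w) ↔ R v)

/-- `F` is a definable operation. -/
def DfF (𝔄 : Stc) {n : ℕ} (F : (Fin n → ZFSet.{0}) → ZFSet.{0}) : Prop :=
  (∀ v, (∀ i, v i ∈ 𝔄.A) → F v ∈ 𝔄.A) ∧
    Df 𝔄 (fun w : Fin (n + 1) → ZFSet.{0} => w 0 = F (Fin.tail w))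

theorem app_ren {n k m m' : ℕ} (ρ : Fin n → Fin k) (σ : Fin m → Fin m')
    (v : Fin k → ZFSet.{0}) (w : Fin m' → ZFSet.{0}) :
    (fun i => Fin.append v w ((Fin.addCases (fun i => Fin.castAdd m' (ρ i))
      fun j => Fin.natAdd k (σ j) : Fin (n + m) → Fin (k + m')) i)) =
      Fin.append (fun i => v (ρ i)) (fun j => w (σ j)) := by
  funext i
  refine Fin.addCases (fun i => ?_) (fun i => ?_) i
  · simp only [Fin.addCases_left, Fin.append_left]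
  · simp only [Fin.addCases_right, Fin.append_right]

theorem cons_ren {n m : ℕ} (v : Fin n → ZFSet.{0}) (w : Fin m → ZFSet.{0}) (a : ZFSet.{0}) :
    (fun i => (Fin.cons a (Fin.append v w) : Fin (n + m + 1) → ZFSet.{0})
      ((Fin.addCases (Fin.cases 0 fun i => (Fin.castAdd m i).succ)
      fun j => (Fin.natAdd n j).succ : Fin (n + 1 + m) → Fin (n + m + 1)) i)) =
      Fin.append (Fin.cons a v : Fin (n + 1) → ZFSet.{0}) w := by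
  funext i
  refine Fin.addCases (fun i => ?_) (fun i => ?_) i
  · beta_reduce
    rw [Fin.addCases_left, Fin.append_left]
    refine Fin.cases ?_ (fun i => ?_) i
    · rfl
    · simp only [Fin.cases_succ, Fin.cons_succ, Fin.append_left]
  · beta_reduce
    rw [Fin.addCases_right, Fin.append_right, Fin.cons_succ, Fin.append_right]

section dfn

variable {𝔄 : Stc} {n : ℕ} {R T : (Fin n → ZFSet.{0}) → Prop}

theorem Df.congr (h : Df 𝔄 R) (h' : ∀ v, (∀ i, v i ∈ 𝔄.A) → (R v ↔ T v)) : Df 𝔄 T := by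
  obtain ⟨m, φ, w, h1, h2⟩ := h
  exact ⟨m, φ, w, h1, fun v hv => (h2 v hv).trans (h' v hv)⟩

theorem Df.not (h : Df 𝔄 R) : Df 𝔄 fun v => ¬ R v := by
  obtain ⟨m, φ, w, h1, h2⟩ := h
  exact ⟨m, .neg φ, w, h1, fun v hv => not_congr (h2 v hv)⟩

theorem Df.and (h : Df 𝔄 R) (h' : Df 𝔄 T) : Df 𝔄 fun v => R v ∧ T v := by
  obtain ⟨m, φ, w, h1, h2⟩ := h
  obtain ⟨m', ψ, w', h1', h2'⟩ := h'
  refine ⟨m + m', .and (φ.rn (Fin.addCases (fun i => Fin.castAdd _ i)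
    fun j => Fin.natAdd n (Fin.castAdd m' j))) (ψ.rn (Fin.addCases (fun i => Fin.castAdd _ i)
    fun j => Fin.natAdd n (Fin.natAdd m j))), Fin.append w w', ?_, fun v hv => ?_⟩
  · intro i
    refine Fin.addCases (fun i => ?_) (fun i => ?_) i
    · rw [Fin.append_left]
      exact h1 i
    · rw [Fin.append_right]
      exact h1' i
  · simp only [Fo.Sat, sat_rn]
    have e1 := app_ren (n := n) (fun i => i) (Fin.castAdd m') v (Fin.append w w')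
    have e2 := app_ren (n := n) (fun i => i) (Fin.natAdd m) v (Fin.append w w')
    rw [e1, e2]
    refine and_congr ?_ ?_
    · have e3 : (fun j => Fin.append w w' (Fin.castAdd m' j)) = w :=
        funext fun j => Fin.append_left _ _ _
      rw [e3]
      exact h2 v hv
    · have e3 : (fun j => Fin.append w w' (Fin.natAdd m j)) = w' :=
        funext fun j => Fin.append_right _ _ _
      rw [e3]
      exact h2' v hv

theorem Df.or (h : Df 𝔄 R) (h' : Df 𝔄 T) : Df 𝔄 fun v => R v ∨ T v :=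
  (h.not.and h'.not).not.congr fun v _ => by tauto

theorem Df.imp (h : Df 𝔄 R) (h' : Df 𝔄 T) : Df 𝔄 fun v => R v → T v :=
  (h.and h'.not).not.congr fun v _ => by tauto

theorem Df.ex {Q : ZFSet.{0} → (Fin n → ZFSet.{0}) → Prop}
    (h : Df 𝔄 fun w : Fin (n + 1) → ZFSet.{0} => Q (w 0) (Fin.tail w)) :
    Df 𝔄 fun v => ∃ a ∈ 𝔄.A, Q a v := by
  obtain ⟨m, φ, w, h1, h2⟩ := h
  refine ⟨m, .ex (φ.rn (Fin.addCases (Fin.cases 0 fun i => (Fin.castAdd m i).succ)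
      fun j => (Fin.natAdd n j).succ)), w, h1, fun v hv => ?_⟩
  simp only [Fo.Sat, sat_rn]
  refine exists_congr fun a => and_congr_right fun ha => ?_
  rw [cons_ren]
  exact h2 (Fin.cons a v) (Fin.cases ha hv)

theorem Df.all {Q : ZFSet.{0} → (Fin n → ZFSet.{0}) → Prop}
    (h : Df 𝔄 fun w : Fin (n + 1) → ZFSet.{0} => Q (w 0) (Fin.tail w)) :
    Df 𝔄 fun v => ∀ a ∈ 𝔄.A, Q a v := by
  have h1 : Df 𝔄 fun v => ∃ a ∈ 𝔄.A, ¬ Q a v := Df.ex (Q := fun a v => ¬ Q a v) h.not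
  exact h1.not.congr fun v _ => by
    constructor
    · intro h2 a ha
      by_contra h3
      exact h2 ⟨a, ha, h3⟩
    · rintro h2 ⟨a, ha, h3⟩
      exact h3 (h2 a ha)

theorem Df.comp (h : Df 𝔄 R) {k : ℕ} (ρ : Fin n → Fin k) :
    Df 𝔄 fun v : Fin k → ZFSet.{0} => R fun i => v (ρ i) := by
  obtain ⟨m, φ, w, h1, h2⟩ := h
  refine ⟨m, φ.rn (Fin.addCases (fun i => Fin.castAdd m (ρ i)) fun j => Fin.natAdd k j), w, h1,
    fun v hv => ?_⟩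
  rw [sat_rn]
  have e1 := app_ren (m := m) ρ (fun j => j) v w
  rw [e1]
  exact h2 _ fun i => hv _

theorem Df.tail (h : Df 𝔄 R) : Df 𝔄 fun w : Fin (n + 1) → ZFSet.{0} => R (Fin.tail w) :=
  h.comp Fin.succ

/-- A formula without parameters. -/
theorem Df.mk (φ : Fo n) (h : ∀ v, (∀ i, v i ∈ 𝔄.A) → (φ.Sat 𝔄 v ↔ R v)) : Df 𝔄 R := by
  refine ⟨0, φ, Fin.elim0, fun i => i.elim0, fun v hv => ?_⟩
  have e : (Fin.append v Fin.elim0 : Fin (n + 0) → ZFSet.{0}) = v := by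
    funext i
    exact Fin.append_left v Fin.elim0 i
  rw [e]
  exact h v hv

theorem Df.ofDB (tr : ∀ x ∈ 𝔄.A, ∀ y ∈ x, y ∈ 𝔄.A) (h : DB R) : Df 𝔄 R := by
  obtain ⟨φ, -, h1⟩ := h
  exact Df.mk φ fun v hv => h1 𝔄 tr v hv

theorem DfF.tail {F : (Fin n → ZFSet.{0}) → ZFSet.{0}} (h : DfF 𝔄 F) :
    DfF 𝔄 fun w : Fin (n + 1) → ZFSet.{0} => F (Fin.tail w) := by
  refine ⟨fun v hv => h.1 _ fun i => hv _, ?_⟩
  have h2 := h.2.comp (Fin.cons 0 fun i : Fin n => i.succ.succ : Fin (n + 1) → Fin (n + 2))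
  exact h2

theorem DfF.ren {F : (Fin n → ZFSet.{0}) → ZFSet.{0}} (h : DfF 𝔄 F) {k : ℕ} (ρ : Fin n → Fin k) :
    DfF 𝔄 fun w : Fin k → ZFSet.{0} => F fun i => w (ρ i) := by
  refine ⟨fun v hv => h.1 _ fun i => hv _, ?_⟩
  have h2 := h.2.comp (Fin.cons 0 fun i : Fin n => (ρ i).succ : Fin (n + 1) → Fin (k + 1))
  exact h2

theorem DfF.proj (i : Fin n) : DfF 𝔄 fun v => v i :=
  ⟨fun _ hv => hv i, Df.mk (.eq 0 i.succ) fun _ _ => Iff.rfl⟩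

theorem DfF.const {a : ZFSet.{0}} (ha : a ∈ 𝔄.A) : DfF 𝔄 fun _ : Fin n → ZFSet.{0} => a := by
  refine ⟨fun _ _ => ha, 1, .eq (Fin.castAdd 1 0) (Fin.natAdd (n + 1) 0), fun _ => a,
    fun _ => ha, fun v _ => ?_⟩
  simp only [Fo.Sat, Fin.append_left, Fin.append_right]

theorem Df.subst {Q : ZFSet.{0} → (Fin n → ZFSet.{0}) → Prop}
    {F : (Fin n → ZFSet.{0}) → ZFSet.{0}}
    (h : Df 𝔄 fun w : Fin (n + 1) → ZFSet.{0} => Q (w 0) (Fin.tail w)) (hF : DfF 𝔄 F) :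
    Df 𝔄 fun v => Q (F v) v := by
  have h1 : Df 𝔄 fun v => ∃ a ∈ 𝔄.A, a = F v ∧ Q a v :=
    Df.ex (Q := fun a v => a = F v ∧ Q a v) (hF.2.and h)
  exact h1.congr fun v hv => by
    constructor
    · rintro ⟨a, _, rfl, h2⟩
      exact h2
    · intro h2
      exact ⟨F v, hF.1 v hv, rfl, h2⟩

theorem Df.comp1 {Q : ZFSet.{0} → Prop} {F : (Fin n → ZFSet.{0}) → ZFSet.{0}}
    (h : Df 𝔄 fun w : Fin 1 → ZFSet.{0} => Q (w 0)) (hF : DfF 𝔄 F) :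
    Df 𝔄 fun v => Q (F v) := by
  have h1 := h.comp (fun _ => 0 : Fin 1 → Fin (n + 1))
  exact Df.subst (Q := fun a _ => Q a) h1 hF

theorem Df.comp2 {Q : ZFSet.{0} → ZFSet.{0} → Prop} {F G : (Fin n → ZFSet.{0}) → ZFSet.{0}}
    (h : Df 𝔄 fun w : Fin 2 → ZFSet.{0} => Q (w 0) (w 1)) (hF : DfF 𝔄 F) (hG : DfF 𝔄 G) :
    Df 𝔄 fun v => Q (F v) (G v) := by
  refine Df.subst (Q := fun a v => Q a (G v)) ?_ hF
  refine Df.subst (Q := fun a v => Q (v 0) a) ?_ hG.tail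
  exact h.comp ![1, 0]

theorem Df.comp3 {Q : ZFSet.{0} → ZFSet.{0} → ZFSet.{0} → Prop}
    {F G H : (Fin n → ZFSet.{0}) → ZFSet.{0}}
    (h : Df 𝔄 fun w : Fin 3 → ZFSet.{0} => Q (w 0) (w 1) (w 2)) (hF : DfF 𝔄 F) (hG : DfF 𝔄 G)
    (hH : DfF 𝔄 H) : Df 𝔄 fun v => Q (F v) (G v) (H v) := by
  refine Df.subst (Q := fun a v => Q a (G v) (H v)) ?_ hF
  refine Df.subst (Q := fun a v => Q (v 0) a (H (Fin.tail v))) ?_ hG.tail
  refine Df.subst (Q := fun a v => Q (v 1) (v 0) a) ?_ hH.tail.tail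
  exact h.comp ![2, 1, 0]

theorem Df.mem {F G : (Fin n → ZFSet.{0}) → ZFSet.{0}} (hF : DfF 𝔄 F) (hG : DfF 𝔄 G) :
    Df 𝔄 fun v => F v ∈ G v :=
  Df.comp2 (Q := fun a b => a ∈ b) (Df.mk (.mem 0 1) fun _ _ => Iff.rfl) hF hG

theorem Df.eq {F G : (Fin n → ZFSet.{0}) → ZFSet.{0}} (hF : DfF 𝔄 F) (hG : DfF 𝔄 G) :
    Df 𝔄 fun v => F v = G v :=
  Df.comp2 (Q := fun a b => a = b) (Df.mk (.eq 0 1) fun _ _ => Iff.rfl) hF hG

theorem DfF.comp1 {f : ZFSet.{0} → ZFSet.{0}} {F : (Fin n → ZFSet.{0}) → ZFSet.{0}}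
    (h : DfF 𝔄 fun w : Fin 1 → ZFSet.{0} => f (w 0)) (hF : DfF 𝔄 F) :
    DfF 𝔄 fun v => f (F v) := by
  refine ⟨fun v hv => h.1 (fun _ => F v) fun _ => hF.1 v hv, ?_⟩
  exact Df.comp2 (Q := fun a b => a = f b) h.2 (DfF.proj 0) hF.tail

theorem DfF.comp2 {f : ZFSet.{0} → ZFSet.{0} → ZFSet.{0}}
    {F G : (Fin n → ZFSet.{0}) → ZFSet.{0}}
    (h : DfF 𝔄 fun w : Fin 2 → ZFSet.{0} => f (w 0) (w 1)) (hF : DfF 𝔄 F) (hG : DfF 𝔄 G) :
    DfF 𝔄 fun v => f (F v) (G v) := by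
  refine ⟨fun v hv => h.1 ![F v, G v] ?_, ?_⟩
  · intro i
    fin_cases i
    · exact hF.1 v hv
    · exact hG.1 v hv
  · exact Df.comp3 (Q := fun a b c => a = f b c) h.2 (DfF.proj 0) hF.tail hG.tail

theorem Df.ff [NeZero n] : Df 𝔄 fun _ : Fin n → ZFSet.{0} => False :=
  Df.mk (.neg (.eq 0 0)) fun v _ => by simp [Fo.Sat]

theorem Df.exLt [NeZero n] {R : ℕ → (Fin n → ZFSet.{0}) → Prop} (k : ℕ)
    (h : ∀ i < k, Df 𝔄 (R i)) : Df 𝔄 fun v => ∃ i < k, R i v := by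
  induction k with
  | zero => exact Df.ff.congr fun v => by simp
  | succ k ih =>
    refine ((ih fun i hi => h i (by omega)).or (h k (by omega))).congr fun v _ => ?_
    constructor
    · rintro (⟨i, hi, h1⟩ | h1)
      · exact ⟨i, by omega, h1⟩
      · exact ⟨k, by omega, h1⟩
    · rintro ⟨i, hi, h1⟩
      rcases Nat.lt_succ_iff_lt_or_eq.1 hi with h2 | rfl
      · exact Or.inl ⟨i, h2, h1⟩
      · exact Or.inr h1

theorem Df.ball (tr : ∀ x ∈ 𝔄.A, ∀ y ∈ x, y ∈ 𝔄.A)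
    {Q : ZFSet.{0} → (Fin n → ZFSet.{0}) → Prop} {F : (Fin n → ZFSet.{0}) → ZFSet.{0}}
    (hF : DfF 𝔄 F) (h : Df 𝔄 fun w : Fin (n + 1) → ZFSet.{0} => Q (w 0) (Fin.tail w)) :
    Df 𝔄 fun v => ∀ a ∈ F v, Q a v := by
  have h1 : Df 𝔄 fun v => ∀ a ∈ 𝔄.A, a ∈ F v → Q a v :=
    Df.all (Q := fun a v => a ∈ F v → Q a v) ((Df.mem (DfF.proj 0) hF.tail).imp h)
  exact h1.congr fun v hv => ⟨fun h2 a ha => h2 a (tr _ (hF.1 v hv) a ha) ha,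
    fun h2 a _ ha => h2 a ha⟩

theorem DfF.pair (tr : ∀ x ∈ 𝔄.A, ∀ y ∈ x, y ∈ 𝔄.A)
    (hp : ∀ a ∈ 𝔄.A, ∀ b ∈ 𝔄.A, ZFSet.pair a b ∈ 𝔄.A)
    {F G : (Fin n → ZFSet.{0}) → ZFSet.{0}} (hF : DfF 𝔄 F) (hG : DfF 𝔄 G) :
    DfF 𝔄 fun v => ZFSet.pair (F v) (G v) := by
  refine DfF.comp2 (f := ZFSet.pair) ⟨fun v hv => hp _ (hv 0) _ (hv 1), ?_⟩ hF hG
  exact Df.ofDB tr (DB.isPair (D0v.proj 0) (D0v.proj 1) (D0v.proj 2))

/-- Simultaneous substitution. -/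
theorem Df.substAll : {n : ℕ} → {k : ℕ} →
    {R : (Fin n → ZFSet.{0}) → (Fin k → ZFSet.{0}) → Prop} →
    (Df 𝔄 fun w : Fin (n + k) → ZFSet.{0} =>
      R (fun i => w (Fin.castAdd k i)) (fun j => w (Fin.natAdd n j))) →
    {G : Fin n → (Fin k → ZFSet.{0}) → ZFSet.{0}} → (∀ i, DfF 𝔄 (G i)) →
    Df 𝔄 fun v => R (fun i => G i v) v
  | 0, k, R, h, G, _ => by
    have h1 := h.comp (Fin.addCases (fun i => i.elim0) (fun i => i) : Fin (0 + k) → Fin k)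
    refine h1.congr fun v _ => ?_
    have e1 : (fun i => v ((Fin.addCases (fun i => i.elim0) (fun i => i) :
        Fin (0 + k) → Fin k) (Fin.castAdd k i))) = fun i : Fin 0 => G i v :=
      funext fun i => i.elim0
    have e2 : (fun j => v ((Fin.addCases (fun i => i.elim0) (fun i => i) :
        Fin (0 + k) → Fin k) (Fin.natAdd 0 j))) = v := by
      funext j
      beta_reduce
      rw [Fin.addCases_right]
    rw [e1, e2]
  | n + 1, k, R, h, G, hG => by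
    have h1 := h.comp (Fin.addCases (Fin.cases (Fin.natAdd n 0) fun i => Fin.castAdd (k + 1) i)
      (fun j => Fin.natAdd n j.succ) : Fin (n + 1 + k) → Fin (n + (k + 1)))
    have h2 : Df 𝔄 fun w : Fin (n + (k + 1)) → ZFSet.{0} =>
        R (Fin.cons (w (Fin.natAdd n 0)) fun i => w (Fin.castAdd (k + 1) i))
          (fun j => w (Fin.natAdd n j.succ)) := by
      refine h1.congr fun w _ => ?_
      have e1 : (fun i => w ((Fin.addCases (Fin.cases (Fin.natAdd n 0)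
          fun i => Fin.castAdd (k + 1) i) (fun j => Fin.natAdd n j.succ) :
          Fin (n + 1 + k) → Fin (n + (k + 1))) (Fin.castAdd k i))) =
          (Fin.cons (w (Fin.natAdd n 0)) fun i => w (Fin.castAdd (k + 1) i) :
            Fin (n + 1) → ZFSet.{0}) := by
        funext i
        beta_reduce
        rw [Fin.addCases_left]
        refine Fin.cases ?_ (fun i => ?_) i
        · rfl
        · rfl
      have e2 : (fun j => w ((Fin.addCases (Fin.cases (Fin.natAdd n 0)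
          fun i => Fin.castAdd (k + 1) i) (fun j => Fin.natAdd n j.succ) :
          Fin (n + 1 + k) → Fin (n + (k + 1))) (Fin.natAdd (n + 1) j))) =
          fun j => w (Fin.natAdd n j.succ) := by
        funext j
        beta_reduce
        rw [Fin.addCases_right]
      rw [e1, e2]
    have h3 := Df.substAll (n := n) (k := k + 1)
      (R := fun u w => R (Fin.cons (w 0) u) (Fin.tail w)) h2
      (G := fun i w => G i.succ (Fin.tail w)) fun i => (hG i.succ).tail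
    have h4 := Df.subst (Q := fun a v => R (Fin.cons a fun i => G i.succ v) v) h3 (hG 0)
    refine h4.congr fun v _ => ?_
    have e : (Fin.cons (G 0 v) fun i => G i.succ v : Fin (n + 1) → ZFSet.{0}) =
        fun i => G i v := by
      funext i
      refine Fin.cases ?_ (fun i => ?_) i
      · rfl
      · rfl
    rw [e]

theorem Df.compAll {n k : ℕ} {R : (Fin n → ZFSet.{0}) → Prop} (h : Df 𝔄 R)
    {G : Fin n → (Fin k → ZFSet.{0}) → ZFSet.{0}} (hG : ∀ i, DfF 𝔄 (G i)) :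
    Df 𝔄 fun v => R fun i => G i v :=
  Df.substAll (R := fun u _ => R u) (h.comp (Fin.castAdd k)) hG

theorem DfF.compAll {n k : ℕ} {F : (Fin n → ZFSet.{0}) → ZFSet.{0}} (h : DfF 𝔄 F)
    {G : Fin n → (Fin k → ZFSet.{0}) → ZFSet.{0}} (hG : ∀ i, DfF 𝔄 (G i)) :
    DfF 𝔄 fun v => F fun i => G i v := by
  refine ⟨fun v hv => h.1 _ fun i => (hG i).1 v hv, ?_⟩
  have h1 := Df.compAll (k := k + 1) h.2
    (G := Fin.cases (fun w => w 0) fun i w => G i (Fin.tail w)) ?_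
  · exact h1
  · intro i
    refine Fin.cases ?_ (fun i => ?_) i
    · exact DfF.proj 0
    · exact (hG i).tail

end dfn

/-! ### The functions of the structure -/

section fns

theorem of_pair {C : Set ZFSet.{0}} (tr : ∀ x ∈ C, ∀ y ∈ x, y ∈ C) {a b : ZFSet.{0}}
    (h : pair a b ∈ C) : a ∈ C ∧ b ∈ C := by
  have h1 : ({a, b} : ZFSet.{0}) ∈ C := tr _ h _ (by rw [pair]; exact ZFSet.mem_pair.2 (Or.inr rfl))
  exact ⟨tr _ h1 _ (ZFSet.mem_pair.2 (Or.inl rfl)), tr _ h1 _ (ZFSet.mem_pair.2 (Or.inr rfl))⟩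

theorem rank_pair_lt (a b : ZFSet.{0}) :
    a.rank < (pair a b).rank ∧ b.rank < (pair a b).rank := by
  have h1 : ({a, b} : ZFSet.{0}) ∈ pair a b := by
    rw [pair]
    exact ZFSet.mem_pair.2 (Or.inr rfl)
  exact ⟨(ZFSet.rank_lt_of_mem (ZFSet.mem_pair.2 (Or.inl rfl))).trans (ZFSet.rank_lt_of_mem h1),
    (ZFSet.rank_lt_of_mem (ZFSet.mem_pair.2 (Or.inr rfl))).trans (ZFSet.rank_lt_of_mem h1)⟩

theorem fs_cases (x : ZFSet.{0}) : (∃ a b, x = pair a b) ∨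
    ((¬ ∃ a b, x = pair a b) ∧ fs x = ∅ ∧ sn x = ∅) := by
  by_cases h : ∃ a b, x = pair a b
  · exact Or.inl h
  · exact Or.inr ⟨h, by rw [fs, dif_neg h], by rw [sn, dif_neg h]⟩

variable {𝔄 : Stc}

theorem dfF_fs (tr : ∀ x ∈ 𝔄.A, ∀ y ∈ x, y ∈ 𝔄.A) (h0 : ∅ ∈ 𝔄.A) :
    DfF 𝔄 fun w : Fin 1 → ZFSet.{0} => fs (w 0) := by
  constructor
  · intro v hv
    beta_reduce
    rcases fs_cases (v 0) with ⟨a, b, h⟩ | ⟨-, h, -⟩
    · rw [h, fs_pair]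
      exact (of_pair tr (h ▸ hv 0)).1
    · rw [h]
      exact h0
  · have h1 : Df 𝔄 fun w : Fin 2 → ZFSet.{0} => (∃ a ∈ 𝔄.A, ∃ b ∈ 𝔄.A, w 1 = pair a b ∧ w 0 = a) ∨
        (¬ ∃ a ∈ 𝔄.A, ∃ b ∈ 𝔄.A, w 1 = pair a b) ∧ w 0 = ∅ := by
      apply Df.or
      · apply Df.ex
        apply Df.ex
        apply Df.and
        · exact Df.ofDB tr (DB.isPair (D0v.proj 3) (D0v.proj 1) (D0v.proj 0))
        · exact Df.eq (DfF.proj _) (DfF.proj _)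
      · apply Df.and
        · apply Df.not
          apply Df.ex
          apply Df.ex
          exact Df.ofDB tr (DB.isPair (D0v.proj 3) (D0v.proj 1) (D0v.proj 0))
        · exact Df.eq (DfF.proj _) (DfF.const h0)
    refine h1.congr fun v hv => ?_
    change _ ↔ v 0 = fs (v 1)
    constructor
    · rintro (⟨a, -, b, -, h2, h3⟩ | ⟨h2, h3⟩)
      · rw [h2, fs_pair, h3]
      · rcases fs_cases (v 1) with ⟨a, b, h⟩ | ⟨-, h, -⟩
        · have h4 := of_pair tr (h ▸ hv 1)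
          exact (h2 ⟨a, h4.1, b, h4.2, h⟩).elim
        · rw [h, h3]
    · intro h2
      rcases fs_cases (v 1) with ⟨a, b, h⟩ | ⟨h3, h, -⟩
      · have h4 := of_pair tr (h ▸ hv 1)
        rw [h, fs_pair] at h2
        exact Or.inl ⟨a, h4.1, b, h4.2, h, h2⟩
      · exact Or.inr ⟨fun ⟨a, _, b, _, h4⟩ => h3 ⟨a, b, h4⟩, h2.trans h⟩

theorem dfF_sn (tr : ∀ x ∈ 𝔄.A, ∀ y ∈ x, y ∈ 𝔄.A) (h0 : ∅ ∈ 𝔄.A) :
    DfF 𝔄 fun w : Fin 1 → ZFSet.{0} => sn (w 0) := by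
  constructor
  · intro v hv
    beta_reduce
    rcases fs_cases (v 0) with ⟨a, b, h⟩ | ⟨-, -, h⟩
    · rw [h, sn_pair]
      exact (of_pair tr (h ▸ hv 0)).2
    · rw [h]
      exact h0
  · have h1 : Df 𝔄 fun w : Fin 2 → ZFSet.{0} => (∃ a ∈ 𝔄.A, ∃ b ∈ 𝔄.A, w 1 = pair a b ∧ w 0 = b) ∨
        (¬ ∃ a ∈ 𝔄.A, ∃ b ∈ 𝔄.A, w 1 = pair a b) ∧ w 0 = ∅ := by
      apply Df.or
      · apply Df.ex
        apply Df.ex
        apply Df.and
        · exact Df.ofDB tr (DB.isPair (D0v.proj 3) (D0v.proj 1) (D0v.proj 0))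
        · exact Df.eq (DfF.proj _) (DfF.proj _)
      · apply Df.and
        · apply Df.not
          apply Df.ex
          apply Df.ex
          exact Df.ofDB tr (DB.isPair (D0v.proj 3) (D0v.proj 1) (D0v.proj 0))
        · exact Df.eq (DfF.proj _) (DfF.const h0)
    refine h1.congr fun v hv => ?_
    change _ ↔ v 0 = sn (v 1)
    constructor
    · rintro (⟨a, -, b, -, h2, h3⟩ | ⟨h2, h3⟩)
      · rw [h2, sn_pair, h3]
      · rcases fs_cases (v 1) with ⟨a, b, h⟩ | ⟨-, -, h⟩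
        · have h4 := of_pair tr (h ▸ hv 1)
          exact (h2 ⟨a, h4.1, b, h4.2, h⟩).elim
        · rw [h, h3]
    · intro h2
      rcases fs_cases (v 1) with ⟨a, b, h⟩ | ⟨h3, -, h⟩
      · have h4 := of_pair tr (h ▸ hv 1)
        rw [h, sn_pair] at h2
        exact Or.inl ⟨a, h4.1, b, h4.2, h, h2⟩
      · exact Or.inr ⟨fun ⟨a, _, b, _, h4⟩ => h3 ⟨a, b, h4⟩, h2.trans h⟩

theorem dfF_lv (h : ∀ x ∈ 𝔄.A, 𝔄.lv x ∈ 𝔄.A) :
    DfF 𝔄 fun w : Fin 1 → ZFSet.{0} => 𝔄.lv (w 0) :=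
  ⟨fun _ hv => h _ (hv 0), Df.mk (.lv 1 0) fun _ _ => eq_comm⟩

/-- The least witness. -/
def Wt (𝔄 : Stc) {n : ℕ} (φ : Fo (n + 1)) (v : Fin n → ZFSet.{0}) (a : ZFSet.{0}) : Prop :=
  φ.Sat 𝔄 (Fin.cons a v) ∧ ∀ b ∈ 𝔄.A, φ.Sat 𝔄 (Fin.cons b v) → ¬ 𝔄.lt b a

theorem df_Wt {n : ℕ} (φ : Fo (n + 1)) :
    Df 𝔄 fun w : Fin (n + 1) → ZFSet.{0} => Wt 𝔄 φ (Fin.tail w) (w 0) := by
  unfold Wt
  have h1 : Df 𝔄 fun w : Fin (n + 1) → ZFSet.{0} => φ.Sat 𝔄 (Fin.cons (w 0) (Fin.tail w)) :=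
    Df.mk φ fun v _ => by rw [Fin.cons_self_tail]
  apply Df.and h1
  apply Df.all
  apply Df.imp
  · have h2 := h1.comp (Fin.cons 0 fun i => i.succ.succ : Fin (n + 1) → Fin (n + 2))
    exact h2
  · apply Df.not
    exact Df.mk (.lt 0 1) fun _ _ => Iff.rfl

theorem dfF_sk (h0 : ∅ ∈ 𝔄.A) (hl : ∀ x ∈ 𝔄.A, ∀ y ∈ 𝔄.A, x = y ∨ 𝔄.lt x y ∨ 𝔄.lt y x) {n : ℕ}
    (φ : Fo (n + 1)) (hc : ∀ v : Fin n → ZFSet.{0}, (∀ i, v i ∈ 𝔄.A) → 𝔄.sk φ v ∈ 𝔄.A) :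
    DfF 𝔄 fun v : Fin n → ZFSet.{0} => 𝔄.sk φ v := by
  refine ⟨hc, ?_⟩
  have h1 : Df 𝔄 fun w : Fin (n + 1) → ZFSet.{0} => Wt 𝔄 φ (Fin.tail w) (w 0) ∨
      (¬ ∃ a ∈ 𝔄.A, Wt 𝔄 φ (Fin.tail w) a) ∧ w 0 = ∅ := by
    apply Df.or (df_Wt φ)
    apply Df.and
    · apply Df.not
      apply Df.ex
      exact (df_Wt φ).comp (Fin.cons 0 fun i => i.succ.succ : Fin (n + 1) → Fin (n + 2))
    · exact Df.eq (DfF.proj _) (DfF.const h0)
  refine h1.congr fun v hv => ?_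
  have h2 : ∀ u : Fin n → ZFSet.{0}, (∃ a ∈ 𝔄.A, Wt 𝔄 φ u a) →
      𝔄.sk φ u ∈ 𝔄.A ∧ Wt 𝔄 φ u (𝔄.sk φ u) := by
    intro u h
    have h' : ∃ a ∈ 𝔄.A, φ.Sat 𝔄 (Fin.cons a u) ∧
      ∀ b ∈ 𝔄.A, φ.Sat 𝔄 (Fin.cons b u) → ¬ 𝔄.lt b a := h
    rw [Stc.sk, dif_pos h']
    exact h'.choose_spec
  have h5' : ∀ u : Fin n → ZFSet.{0}, (¬ ∃ a ∈ 𝔄.A, Wt 𝔄 φ u a) → 𝔄.sk φ u = ∅ := by
    intro u h
    have h' : ¬ ∃ a ∈ 𝔄.A, φ.Sat 𝔄 (Fin.cons a u) ∧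
      ∀ b ∈ 𝔄.A, φ.Sat 𝔄 (Fin.cons b u) → ¬ 𝔄.lt b a := h
    rw [Stc.sk, dif_neg h']
  constructor
  · rintro (h3 | ⟨h3, h4⟩)
    · obtain ⟨h5, h6⟩ := h2 (Fin.tail v) ⟨_, hv 0, h3⟩
      rcases hl _ (hv 0) _ h5 with h | h | h
      · exact h
      · exact (h6.2 _ (hv 0) h3.1 h).elim
      · exact (h3.2 _ h5 h6.1 h).elim
    · rw [h4]
      exact (h5' _ h3).symm
  · intro h3
    by_cases h4 : ∃ a ∈ 𝔄.A, Wt 𝔄 φ (Fin.tail v) a
    · left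
      rw [h3]
      exact (h2 _ h4).2
    · refine Or.inr ⟨h4, ?_⟩
      rw [h3]
      exact h5' _ h4

/-- The Skolem function as a function of one variable. -/
noncomputable def skf (𝔄 : Stc) (ψ : Mx) (z : ZFSet.{0}) : ZFSet.{0} :=
  𝔄.sk ψ.2 fun i : Fin ψ.1 => fs (sn^[i.1] z)

theorem prj_tup : {n : ℕ} → (v : Fin n → ZFSet.{0}) → (i : Fin n) → fs (sn^[i.1] (tup v)) = v i
  | 0, _, i => i.elim0
  | n + 1, v, i => by
    refine Fin.cases ?_ (fun i => ?_) i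
    · exact fs_pair _ _
    · rw [Fin.val_succ, Function.iterate_succ_apply]
      have h : sn (tup v) = tup (Fin.tail v) := sn_pair _ _
      rw [h]
      exact prj_tup (Fin.tail v) i

theorem skf_tup (ψ : Mx) (v : Fin ψ.1 → ZFSet.{0}) : skf 𝔄 ψ (tup v) = 𝔄.sk ψ.2 v := by
  unfold skf
  congr 1
  funext i
  exact prj_tup v i

theorem dfF_skf (tr : ∀ x ∈ 𝔄.A, ∀ y ∈ x, y ∈ 𝔄.A) (h0 : ∅ ∈ 𝔄.A)
    (hl : ∀ x ∈ 𝔄.A, ∀ y ∈ 𝔄.A, x = y ∨ 𝔄.lt x y ∨ 𝔄.lt y x) (ψ : Mx)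
    (hc : ∀ v : Fin ψ.1 → ZFSet.{0}, (∀ i, v i ∈ 𝔄.A) → 𝔄.sk ψ.2 v ∈ 𝔄.A) :
    DfF 𝔄 fun w : Fin 1 → ZFSet.{0} => skf 𝔄 ψ (w 0) := by
  have h1 : ∀ i : ℕ, DfF 𝔄 fun w : Fin 1 → ZFSet.{0} => sn^[i] (w 0) := by
    intro i
    induction i with
    | zero => exact DfF.proj 0
    | succ i ih =>
      simp only [Function.iterate_succ_apply']
      exact DfF.comp1 (dfF_sn tr h0) ih
  exact DfF.compAll (dfF_sk h0 hl ψ.2 hc) fun i => DfF.comp1 (dfF_fs tr h0) (h1 i.1)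

end fns

/-! ### Codes of computations -/

section ev

/-- The value `y` of the code `c` is justified by `D`. -/
def Js (A : Set ZFSet.{0}) (g : ℕ → ZFSet.{0} → ZFSet.{0}) (K : ℕ) (D c y : ZFSet.{0}) : Prop :=
  c = pair (nat 0) y ∨
  (∃ c1 ∈ A, ∃ c2 ∈ A, ∃ y1 ∈ A, ∃ y2 ∈ A, c = pair (nat 1) (pair c1 c2) ∧ pair c1 y1 ∈ D ∧
    pair c2 y2 ∈ D ∧ y = pair y1 y2) ∨
  ∃ k < K, ∃ c1 ∈ A, ∃ y1 ∈ A, c = pair (nat (k + 2)) c1 ∧ pair c1 y1 ∈ D ∧ y = g k y1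

/-- `D` is a set of justified pairs. -/
def Gdn (A : Set ZFSet.{0}) (g : ℕ → ZFSet.{0} → ZFSet.{0}) (K : ℕ) (D : ZFSet.{0}) : Prop :=
  ∀ p ∈ D, ∃ c ∈ A, ∃ y ∈ A, p = pair c y ∧ Js A g K D c y

/-- `y` is the value of the code `c`. -/
def Ev (A : Set ZFSet.{0}) (g : ℕ → ZFSet.{0} → ZFSet.{0}) (K : ℕ) (c y : ZFSet.{0}) : Prop :=
  ∃ D ∈ A, pair c y ∈ D ∧ Gdn A g K D

theorem df_Ev {𝔄 : Stc} (tr : ∀ x ∈ 𝔄.A, ∀ y ∈ x, y ∈ 𝔄.A)
    (hp : ∀ a ∈ 𝔄.A, ∀ b ∈ 𝔄.A, pair a b ∈ 𝔄.A) (hn : ∀ k, nat k ∈ 𝔄.A)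
    {g : ℕ → ZFSet.{0} → ZFSet.{0}} {K : ℕ}
    (hg : ∀ k < K, DfF 𝔄 fun w : Fin 1 → ZFSet.{0} => g k (w 0)) :
    Df 𝔄 fun w : Fin 2 → ZFSet.{0} => Ev 𝔄.A g K (w 0) (w 1) := by
  unfold Ev Gdn Js
  repeat' first
    | assumption
    | exact DfF.proj _
    | exact DfF.const (hn _)
    | exact DfF.comp1 (hg _ ‹_›) (DfF.proj _)
    | apply Df.ex
    | apply Df.ball tr
    | apply Df.and
    | apply Df.or
    | (apply Df.exLt; intro k hk)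
    | apply Df.eq
    | apply Df.mem
    | apply DfF.pair tr hp

variable {A : Set ZFSet.{0}} {g : ℕ → ZFSet.{0} → ZFSet.{0}} {K : ℕ}

theorem gdn_unique {D D' : ZFSet.{0}} (h : Gdn A g K D) (h' : Gdn A g K D') (c : ZFSet.{0}) :
    ∀ y y', pair c y ∈ D → pair c y' ∈ D' → y = y' := by
  refine (InvImage.wf ZFSet.rank Ordinal.lt_wf).induction
    (C := fun c => ∀ y y', pair c y ∈ D → pair c y' ∈ D' → y = y') c ?_
  intro c ih y y' h1 h2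
  obtain ⟨c1, -, y1, -, e, j⟩ := h _ h1
  obtain ⟨rfl, rfl⟩ := ZFSet.pair_inj.1 e
  obtain ⟨c1, -, y1, -, e', j'⟩ := h' _ h2
  obtain ⟨rfl, rfl⟩ := ZFSet.pair_inj.1 e'
  have inj : ∀ {i j : ℕ} {a b : ZFSet.{0}}, pair (nat i) a = pair (nat j) b → i = j ∧ a = b :=
    fun h => ⟨nat_injective (ZFSet.pair_inj.1 h).1, (ZFSet.pair_inj.1 h).2⟩
  rcases j with j | ⟨c1, -, c2, -, y1, -, y2, -, j, j1, j2, j3⟩ | ⟨k, -, c1, -, y1, -, j, j1, j2⟩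
  · rcases j' with i | ⟨d1, -, d2, -, z1, -, z2, -, i, i1, i2, i3⟩ | ⟨l, -, d1, -, z1, -, i, i1, i2⟩
    · exact (inj (j.symm.trans i)).2
    · have := (inj (j.symm.trans i)).1
      omega
    · have := (inj (j.symm.trans i)).1
      omega
  · rcases j' with i | ⟨d1, -, d2, -, z1, -, z2, -, i, i1, i2, i3⟩ | ⟨l, -, d1, -, z1, -, i, i1, i2⟩
    · have := (inj (j.symm.trans i)).1
      omega
    · obtain ⟨rfl, rfl⟩ := ZFSet.pair_inj.1 (inj (j.symm.trans i)).2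
      have r0 := rank_pair_lt (nat 1) (pair c1 c2)
      have r1 := rank_pair_lt c1 c2
      rw [← j] at r0
      rw [j3, i3, ih c1 (r1.1.trans r0.2) _ _ j1 i1, ih c2 (r1.2.trans r0.2) _ _ j2 i2]
    · have := (inj (j.symm.trans i)).1
      omega
  · rcases j' with i | ⟨d1, -, d2, -, z1, -, z2, -, i, i1, i2, i3⟩ | ⟨l, -, d1, -, z1, -, i, i1, i2⟩
    · have := (inj (j.symm.trans i)).1
      omega
    · have := (inj (j.symm.trans i)).1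
      omega
    · obtain ⟨e1, rfl⟩ := inj (j.symm.trans i)
      have e2 : k = l := by omega
      subst e2
      have r0 := rank_pair_lt (nat (k + 2)) c1
      rw [← j] at r0
      rw [j2, i2, ih c1 r0.2 _ _ j1 i1]

theorem js_mono {D D' c y : ZFSet.{0}} (h : D ⊆ D') (j : Js A g K D c y) : Js A g K D' c y := by
  rcases j with j | ⟨c1, a1, c2, a2, y1, a3, y2, a4, j, j1, j2, j3⟩ |
    ⟨k, hk, c1, a1, y1, a2, j, j1, j2⟩
  · exact Or.inl j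
  · exact Or.inr (Or.inl ⟨c1, a1, c2, a2, y1, a3, y2, a4, j, h j1, h j2, j3⟩)
  · exact Or.inr (Or.inr ⟨k, hk, c1, a1, y1, a2, j, h j1, j2⟩)

theorem gdn_union {D D' : ZFSet.{0}} (h : Gdn A g K D) (h' : Gdn A g K D') :
    Gdn A g K (D ∪ D') := by
  intro p hp
  rcases ZFSet.mem_union.1 hp with hp | hp
  · obtain ⟨c, hc, y, hy, e, j⟩ := h p hp
    exact ⟨c, hc, y, hy, e, js_mono (fun x hx => ZFSet.mem_union.2 (Or.inl hx)) j⟩
  · obtain ⟨c, hc, y, hy, e, j⟩ := h' p hp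
    exact ⟨c, hc, y, hy, e, js_mono (fun x hx => ZFSet.mem_union.2 (Or.inr hx)) j⟩

theorem gdn_add {D c y : ZFSet.{0}} (h : Gdn A g K D) (hc : c ∈ A) (hy : y ∈ A)
    (j : Js A g K D c y) : Gdn A g K (D ∪ {pair c y}) := by
  intro p hp
  rcases ZFSet.mem_union.1 hp with hp | hp
  · obtain ⟨c, hc, y, hy, e, j⟩ := h p hp
    exact ⟨c, hc, y, hy, e, js_mono (fun x hx => ZFSet.mem_union.2 (Or.inl hx)) j⟩
  · exact ⟨c, hc, y, hy, ZFSet.mem_singleton.1 hp,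
      js_mono (fun x hx => ZFSet.mem_union.2 (Or.inl hx)) j⟩

theorem ev_mem {c y : ZFSet.{0}} (h : Ev A g K c y) : c ∈ A ∧ y ∈ A := by
  obtain ⟨D, -, h1, h2⟩ := h
  obtain ⟨c', hc, y', hy, e, -⟩ := h2 _ h1
  obtain ⟨rfl, rfl⟩ := ZFSet.pair_inj.1 e
  exact ⟨hc, hy⟩

/-- Sufficient closure properties. -/
structure Cls (A C : Set ZFSet.{0}) : Prop where
  un : ∀ a ∈ A, ∀ b ∈ A, a ∪ b ∈ A
  sg : ∀ a ∈ A, ({a} : ZFSet.{0}) ∈ A
  pr : ∀ a ∈ A, ∀ b ∈ A, pair a b ∈ A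
  sub : C ⊆ A
  nt : ∀ k, nat k ∈ C
  pr' : ∀ a ∈ C, ∀ b ∈ C, pair a b ∈ C

/-- `y` is the value of a code in `C`. -/
def Val (A : Set ZFSet.{0}) (g : ℕ → ZFSet.{0} → ZFSet.{0}) (K : ℕ) (C : Set ZFSet.{0})
    (y : ZFSet.{0}) : Prop := ∃ c ∈ C, Ev A g K c y

variable {C : Set ZFSet.{0}}

theorem Cls.base (hC : Cls A C) {x : ZFSet.{0}} (hx : x ∈ C) : Val A g K C x := by
  have hc := hC.pr' _ (hC.nt 0) _ hx
  refine ⟨pair (nat 0) x, hc, {pair (pair (nat 0) x) x}, hC.sg _ (hC.pr _ (hC.sub hc) _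
    (hC.sub hx)), ZFSet.mem_singleton.2 rfl, ?_⟩
  intro p hp
  exact ⟨_, hC.sub hc, _, hC.sub hx, ZFSet.mem_singleton.1 hp, Or.inl rfl⟩

theorem Cls.pair (hC : Cls A C) {y1 y2 : ZFSet.{0}} (h1 : Val A g K C y1)
    (h2 : Val A g K C y2) : Val A g K C (ZFSet.pair y1 y2) := by
  obtain ⟨c1, hc1, e1⟩ := h1
  obtain ⟨c2, hc2, e2⟩ := h2
  have m1 := ev_mem e1
  have m2 := ev_mem e2
  obtain ⟨D1, a1, b1, d1⟩ := e1
  obtain ⟨D2, a2, b2, d2⟩ := e2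
  have hc := hC.pr' _ (hC.nt 1) _ (hC.pr' _ hc1 _ hc2)
  have hy := hC.pr _ m1.2 _ m2.2
  refine ⟨_, hc, D1 ∪ D2 ∪ {ZFSet.pair (ZFSet.pair (nat 1) (ZFSet.pair c1 c2))
    (ZFSet.pair y1 y2)}, hC.un _ (hC.un _ a1 _ a2) _ (hC.sg _ (hC.pr _ (hC.sub hc) _ hy)),
    ZFSet.mem_union.2 (Or.inr (ZFSet.mem_singleton.2 rfl)),
    gdn_add (gdn_union d1 d2) (hC.sub hc) hy ?_⟩
  exact Or.inr (Or.inl ⟨c1, m1.1, c2, m2.1, y1, m1.2, y2, m2.2, rfl,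
    ZFSet.mem_union.2 (Or.inl b1), ZFSet.mem_union.2 (Or.inr b2), rfl⟩)

theorem Cls.fn (hC : Cls A C) {y1 : ZFSet.{0}} {k : ℕ} (hk : k < K) (h1 : Val A g K C y1)
    (hy : g k y1 ∈ A) : Val A g K C (g k y1) := by
  obtain ⟨c1, hc1, e1⟩ := h1
  have m1 := ev_mem e1
  obtain ⟨D1, a1, b1, d1⟩ := e1
  have hc := hC.pr' _ (hC.nt (k + 2)) _ hc1
  refine ⟨_, hc, D1 ∪ {ZFSet.pair (ZFSet.pair (nat (k + 2)) c1) (g k y1)},
    hC.un _ a1 _ (hC.sg _ (hC.pr _ (hC.sub hc) _ hy)),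
    ZFSet.mem_union.2 (Or.inr (ZFSet.mem_singleton.2 rfl)), gdn_add d1 (hC.sub hc) hy ?_⟩
  exact Or.inr (Or.inr ⟨k, hk, c1, m1.1, y1, m1.2, rfl, b1, rfl⟩)

theorem Cls.tup (hC : Cls A C) : {n : ℕ} → (v : Fin n → ZFSet.{0}) →
    (∀ i, Val A g K C (v i)) → Val A g K C (W868.tup v)
  | 0, _, _ => hC.base (hC.nt 0)
  | _ + 1, v, h => hC.pair (h 0) (Cls.tup hC (Fin.tail v) fun i => h i.succ)

theorem Cls.val {𝔄 : Stc} {Ψ : Set Mx} {P : Set ZFSet.{0}} (hC : Cls 𝔄.A C)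
    (hcl : Clsd 𝔄 Ψ 𝔄.A) (hP : P ⊆ 𝔄.A)
    (g1 : ∀ p ∈ P, ∃ k < K, g k = fun _ => p) (g2 : ∃ k < K, g k = fs) (g3 : ∃ k < K, g k = sn)
    (g4 : ∃ k < K, g k = 𝔄.lv) (g5 : ∀ ψ ∈ Ψ, ∃ k < K, g k = skf 𝔄 ψ) {x : ZFSet.{0}}
    (hx : x ∈ C) (t : Tm) (ht : t.Over Ψ P) : Val 𝔄.A g K C (t.ev 𝔄 x) := by
  have key : ∀ (f : ZFSet.{0} → ZFSet.{0}) (y : ZFSet.{0}), (∃ k < K, g k = f) →
      Val 𝔄.A g K C y → f y ∈ 𝔄.A → Val 𝔄.A g K C (f y) := by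
    rintro f y ⟨k, hk, rfl⟩ h1 h2
    exact hC.fn hk h1 h2
  have vm : ∀ y, Val 𝔄.A g K C y → y ∈ 𝔄.A := fun y ⟨c, _, h⟩ => (ev_mem h).2
  induction t with
  | var => exact hC.base hx
  | cst a => exact key (fun _ => a) ∅ (g1 a ht) (hC.base (hC.nt 0)) (hP ht)
  | pr s t ih1 ih2 => exact hC.pair (ih1 ht.1) (ih2 ht.2)
  | fst t ih => exact key fs _ g2 (ih ht) (hcl.fst _ (vm _ (ih ht)))
  | snd t ih => exact key sn _ g3 (ih ht) (hcl.snd _ (vm _ (ih ht)))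
  | lv t ih => exact key 𝔄.lv _ g4 (ih ht) (hcl.lv _ (vm _ (ih ht)))
  | sk n φ ts ih =>
    have h1 : ∀ i, Val 𝔄.A g K C ((ts i).ev 𝔄 x) := fun i => ih i (ht.2 i)
    have h2 : skf 𝔄 (⟨n, φ⟩ : Mx) (W868.tup fun i => (ts i).ev 𝔄 x) =
        𝔄.sk φ fun i => (ts i).ev 𝔄 x := skf_tup (⟨n, φ⟩ : Mx) _
    have h3 : 𝔄.sk φ (fun i => (ts i).ev 𝔄 x) ∈ 𝔄.A :=
      hcl.sk (⟨n, φ⟩ : Mx) ht.1 _ fun i => vm _ (h1 i)
    have h4 := key (skf 𝔄 (⟨n, φ⟩ : Mx)) _ (g5 _ ht.1) (hC.tup _ h1) (by rw [h2]; exact h3)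
    rw [h2] at h4
    exact h4

end ev

/-- Every limit level is closed under all functions. -/
theorem ka_clsd {F : ZFSet.{0}} {ξ : Ordinal.{0}} (h : IsSuccLimit ξ) (Ψ : Set Mx) :
    Clsd (KA F ξ) Ψ (KA F ξ).A := by
  have tr : ∀ x ∈ (KA F ξ).A, ∀ y ∈ x, y ∈ (KA F ξ).A := ks_trans ξ
  have h0 : ∅ ∈ (KA F ξ).A := (ks_gd (F := F) h).empty_mem
  refine
    { sub := subset_rfl
      ne := ⟨∅, h0⟩
      pr := fun a ha b hb => ?_
      fst := fun a ha => ?_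
      snd := fun a ha => ?_
      lv := fun a ha => lvl_mem h ha
      sk := fun ψ _ v _ => ?_ }
  · have hgd := ks_gd (F := F) h
    rw [ZFSet.pair]
    exact hgd.upair_mem (hgd.single_mem ha) (hgd.upair_mem ha hb)
  · rcases fs_cases a with ⟨b, c, e⟩ | ⟨-, e, -⟩
    · rw [e, fs_pair]
      exact (of_pair tr (e ▸ ha)).1
    · rw [e]
      exact h0
  · rcases fs_cases a with ⟨b, c, e⟩ | ⟨-, -, e⟩
    · rw [e, sn_pair]
      exact (of_pair tr (e ▸ ha)).2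
    · rw [e]
      exact h0
  · by_cases h' : ∃ a ∈ (KA F ξ).A, ψ.2.Sat (KA F ξ) (Fin.cons a v) ∧
      ∀ b ∈ (KA F ξ).A, ψ.2.Sat (KA F ξ) (Fin.cons b v) → ¬ (KA F ξ).lt b a
    · rw [Stc.sk, dif_pos h']
      exact h'.choose_spec.1
    · rw [Stc.sk, dif_neg h']
      exact h0

/-- A finite set of functions as a sequence. -/
theorem exists_seq {G : Set (ZFSet.{0} → ZFSet.{0})} (h : G.Finite) :
    ∃ (g : ℕ → ZFSet.{0} → ZFSet.{0}) (K : ℕ), (∀ k < K, g k ∈ G) ∧ ∀ f ∈ G, ∃ k < K, g k = f := by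
  classical
  refine ⟨fun k => h.toFinset.toList.getD k id, h.toFinset.toList.length, fun k hk => ?_,
    fun f hf => ?_⟩
  · have h1 : h.toFinset.toList.getD k id = h.toFinset.toList[k] := by
      rw [List.getD_eq_getElem]
    beta_reduce
    rw [h1]
    have h2 := List.getElem_mem hk
    rw [Finset.mem_toList, Set.Finite.mem_toFinset] at h2
    exact h2
  · have h1 : f ∈ h.toFinset.toList := by
      rw [Finset.mem_toList, Set.Finite.mem_toFinset]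
      exact hf
    obtain ⟨k, hk, h2⟩ := List.getElem_of_mem h1
    refine ⟨k, hk, ?_⟩
    beta_reduce
    rw [List.getD_eq_getElem _ _ hk, h2]

end PK9

variable {F : ZFSet.{0}}

/-- The computations of the terms are coded by finite sequences of elements of `S_θ`
(instructions); the value of a code is defined over the level by one formula (existence of a finite
sequence of values). Use `def_mem` of K3. -/
theorem onto_of_gen {θ ξ : Ordinal.{0}} (hθ : IsSuccLimit θ) (hξ : IsSuccLimit ξ) (hθξ : θ < ξ)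
    {Ψ : Set Mx} (hfin : Ψ.Finite) {P : Set ZFSet.{0}} (hP : P.Finite)
    (hPξ : P ⊆ {x | x ∈ KS F ξ})
    (h : ∀ y ∈ KS F ξ, ∃ t : Tm, t.Over Ψ P ∧ ∃ x ∈ KS F θ, y = t.ev (KA F ξ) x) :
    Onto F θ (ξ + Ordinal.omega0) ξ := by
  classical
  have hcl := PK9.ka_clsd (F := F) hξ Set.univ
  have hcl' := PK9.ka_clsd (F := F) hξ Ψ
  have hgd := ks_gd (F := F) hξ
  have tr : ∀ x ∈ (KA F ξ).A, ∀ y ∈ x, y ∈ (KA F ξ).A := ks_trans ξ
  have h0 : ∅ ∈ (KA F ξ).A := hgd.empty_mem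
  have hθm : KS F θ ∈ (KA F ξ).A := ks_mem hθξ
  have hl : ∀ x ∈ (KA F ξ).A, ∀ y ∈ (KA F ξ).A, x = y ∨ (KA F ξ).lt x y ∨ (KA F ξ).lt y x :=
    fun x hx y hy => kw_total ξ hx hy
  have hC : PK9.Cls (KA F ξ).A {x | x ∈ KS F θ} :=
    { un := fun a ha b hb => by
        have h1 := hgd.sUnion_mem (hgd.upair_mem ha hb)
        rwa [ZFSet.sUnion_pair] at h1
      sg := fun a ha => hgd.single_mem ha
      pr := hcl.pr
      sub := fun x hx => ks_mono hθξ.le hx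
      nt := fun k => by
        rw [nat_eq]
        exact (ks_ord hθ).2 (hθ.natCast_lt k)
      pr' := (PK9.ka_clsd (F := F) hθ Set.univ).pr }
  obtain ⟨g, K, hg, hg'⟩ := PK9.exists_seq (G := ((fun p (_ : ZFSet.{0}) => p) '' P) ∪
    ({fs, sn, (KA F ξ).lv} ∪ (PK9.skf (KA F ξ)) '' Ψ))
    ((hP.image _).union ((Set.toFinite _).union (hfin.image _)))
  have hdf : ∀ k < K, PK9.DfF (KA F ξ) fun w : Fin 1 → ZFSet.{0} => g k (w 0) := by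
    intro k hk
    rcases hg k hk with ⟨p, hp, e⟩ | (e | e | e) | ⟨ψ, _, e⟩
    · rw [← e]
      exact PK9.DfF.const (hPξ hp)
    · rw [e]
      exact PK9.dfF_fs tr h0
    · rw [e]
      exact PK9.dfF_sn tr h0
    · rw [e]
      exact PK9.dfF_lv hcl.lv
    · rw [← e]
      exact PK9.dfF_skf tr h0 hl ψ fun v hv => hcl.sk ψ trivial v hv
  have hval : ∀ y ∈ KS F ξ, PK9.Val (KA F ξ).A g K {x | x ∈ KS F θ} y := by
    intro y hy
    obtain ⟨t, ht, x, hx, rfl⟩ := h y hy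
    exact hC.val hcl' hPξ (fun p hp => hg' _ (Or.inl ⟨p, hp, rfl⟩))
      (hg' _ (Or.inr (Or.inl (Or.inl rfl)))) (hg' _ (Or.inr (Or.inl (Or.inr (Or.inl rfl)))))
      (hg' _ (Or.inr (Or.inl (Or.inr (Or.inr rfl)))))
      (fun ψ hψ => hg' _ (Or.inr (Or.inr ⟨ψ, hψ, rfl⟩))) hx t ht
  have hE : PK9.Df (KA F ξ) fun w : Fin 1 → ZFSet.{0} => ∃ c ∈ (KA F ξ).A, ∃ y ∈ (KA F ξ).A,
      w 0 = pair c y ∧ c ∈ KS F θ ∧ PK9.Ev (KA F ξ).A g K c y := by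
    apply PK9.Df.ex
    apply PK9.Df.ex
    refine PK9.Df.and ?_ (PK9.Df.and ?_ ?_)
    · exact PK9.Df.ofDB tr (DB.isPair (D0v.proj 2) (D0v.proj 1) (D0v.proj 0))
    · exact PK9.Df.mem (PK9.DfF.proj 1) (PK9.DfF.const hθm)
    · exact (PK9.df_Ev tr hcl.pr (fun k => hC.sub (hC.nt k)) hdf).comp
        (![1, 0] : Fin 2 → Fin 3)
  obtain ⟨m, φ, w, hw, hφ⟩ := hE
  have hmem := def_mem (F := F) hξ (φ.rn (Fin.addCases (fun _ => 0) Fin.succ :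
    Fin (1 + m) → Fin (m + 1))) w hw
  have hiff : ∀ p ∈ KS F ξ, ((φ.rn (Fin.addCases (fun _ => 0) Fin.succ :
      Fin (1 + m) → Fin (m + 1))).Sat (KA F ξ) (Fin.cons p w) ↔
      ∃ c ∈ (KA F ξ).A, ∃ y ∈ (KA F ξ).A,
      p = pair c y ∧ c ∈ KS F θ ∧ PK9.Ev (KA F ξ).A g K c y) := by
    intro p hp
    rw [sat_rn]
    have e : (fun k => (Fin.cons p w : Fin (m + 1) → ZFSet.{0}) ((Fin.addCases (fun _ => 0)
        Fin.succ : Fin (1 + m) → Fin (m + 1)) k)) = Fin.append (fun _ => p) w := by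
      funext k
      refine Fin.addCases (fun i => ?_) (fun i => ?_) k
      · beta_reduce
        rw [Fin.addCases_left, Fin.append_left]
        rfl
      · beta_reduce
        rw [Fin.addCases_right, Fin.append_right]
        rfl
    rw [e]
    exact hφ (fun _ => p) fun _ => hp
  refine ⟨_, hmem, ?_, ?_, ?_⟩
  · intro x y y' h1 h2
    rw [ZFSet.mem_sep] at h1 h2
    obtain ⟨c, -, z, -, e, -, D, hD, h3, h4⟩ := (hiff _ h1.1).1 h1.2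
    obtain ⟨rfl, rfl⟩ := ZFSet.pair_inj.1 e
    obtain ⟨c, -, z, -, e', -, D', hD', h3', h4'⟩ := (hiff _ h2.1).1 h2.2
    obtain ⟨rfl, rfl⟩ := ZFSet.pair_inj.1 e'
    exact PK9.gdn_unique h4 h4' _ _ _ h3 h3'
  · intro p hp
    rw [ZFSet.mem_sep] at hp
    obtain ⟨c, -, z, hz, e, hc, -⟩ := (hiff _ hp.1).1 hp.2
    exact ⟨c, hc, z, hz, e⟩
  · intro y hy
    obtain ⟨c, hc, h1⟩ := hval y hy
    refine ⟨c, ?_⟩
    rw [ZFSet.mem_sep]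
    have h2 := hC.sub hc
    have h3 : pair c y ∈ KS F ξ := hcl.pr _ h2 _ hy
    exact ⟨h3, (hiff _ h3).2 ⟨c, h2, y, hy, rfl, hc, h1⟩⟩

end Pool.Agent.helper797_cs
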