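import Pool.Agent.helper797_cs.PK7
import Pool.Agent.helper797_cs.PK9
import Pool.Agent.helper797_cs.PK4

/-! # K8: the hull lemma C1.3 and acceptability C1.4 -/

set_option autoImplicit false
set_option linter.unusedVariables false

namespace Pool.Agent.helper797_cs
open Pool.Agent.W868 Pool.Agent.R587
open ZFSet (pair)
open Cardinal Order

variable {F : ZFSet.{0}}

namespace PK8

open PK3

theorem over_map {Ψ : Set Mx} {C D : Set ZFSet.{0}} {π : ZFSet.{0} → ZFSet.{0}}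
    (h : ∀ a ∈ C, π a ∈ D) (t : Tm) (ht : t.Over Ψ C) : (t.map π).Over Ψ D := by
  induction t with
  | var => trivial
  | cst a => exact h a ht
  | pr s t ihs iht => exact ⟨ihs ht.1, iht ht.2⟩
  | fst t ih => exact ih ht
  | snd t ih => exact ih ht
  | lv t ih => exact ih ht
  | sk n φ ts ih => exact ⟨ht.1, fun i => ih i (ht.2 i)⟩

theorem over_mono {Ψ Ψ' : Set Mx} {C D : Set ZFSet.{0}} (hΨ : Ψ ⊆ Ψ') (h : C ⊆ D) (t : Tm)
    (ht : t.Over Ψ C) : t.Over Ψ' D := by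
  induction t with
  | var => trivial
  | cst a => exact h ht
  | pr s t ihs iht => exact ⟨ihs ht.1, iht ht.2⟩
  | fst t ih => exact ih ht
  | snd t ih => exact ih ht
  | lv t ih => exact ih ht
  | sk n φ ts ih => exact ⟨hΨ ht.1, fun i => ih i (ht.2 i)⟩

theorem clsd_mono {𝔄 : Stc} {Ψ Ψ' : Set Mx} {X : Set ZFSet.{0}} (h : Clsd 𝔄 Ψ' X) (hΨ : Ψ ⊆ Ψ') :
    Clsd 𝔄 Ψ X where
  sub := h.sub
  ne := h.ne
  pr := h.pr
  fst := h.fst
  snd := h.snd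
  lv := h.lv
  sk := fun ψ hψ => h.sk ψ (hΨ hψ)

/-- A closed set is closed in the substructure. -/
theorem clsd_res {ξ : Ordinal.{0}} {Ψ : Set Mx} {X : Set ZFSet.{0}} (hX : Clsd (KA F ξ) Ψ X)
    (hcl : Cl Ψ) : Clsd ((KA F ξ).res X) Ψ ((KA F ξ).res X).A where
  sub := fun _ h => h
  ne := hX.ne
  pr := hX.pr
  fst := hX.fst
  snd := hX.snd
  lv := hX.lv
  sk := fun ψ hψ v hv => by
    have h1 := hX.sk ψ hψ v hv
    rw [sk_res hX (hcl ψ hψ) hv h1]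
    exact h1

theorem toZ_sub {θ : Ordinal.{0}} (hθ : IsSuccLimit θ) : ∀ x ∈ θ.toZFSet, x ∈ KS F θ := by
  intro x hx
  obtain ⟨α, hα, rfl⟩ := Ordinal.mem_toZFSet_iff.1 hx
  exact (ks_ord hθ).2 hα

end PK8

open PK8 PK3

/-- The hull of `S_θ`, `p` and `θ` collapses to a level of the same hierarchy. -/
theorem hull_cases {Ψ₀ Ψ : Set Mx} (h0 : Cnds Ψ₀) (hΨ : Ψ₀ ⊆ Ψ) (hcl : Cl Ψ)
    {θ ξ : Ordinal.{0}} (hθ : IsSuccLimit θ) (hξ : IsSuccLimit ξ) (hθξ : θ < ξ)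
    (hF : ∀ Z ∈ F, Z ⊆ θ.toZFSet) {p : ZFSet.{0}} (hp : p ∈ KS F ξ) :
    ∃ (X : Set ZFSet.{0}) (π : ZFSet.{0} → ZFSet.{0}) (ξ' : Ordinal.{0}),
      IsSuccLimit ξ' ∧ θ < ξ' ∧ ξ' ≤ ξ ∧ Clsd (KA F ξ) Ψ X ∧ (∀ x ∈ KS F θ, x ∈ X ∧ π x = x) ∧
      θ.toZFSet ∈ X ∧ π θ.toZFSet = θ.toZFSet ∧ p ∈ X ∧ Iso ((KA F ξ).res X) (KA F ξ') π ∧
      ∀ y ∈ KS F ξ', ∃ t : Tm, t.Over Ψ {π p, θ.toZFSet} ∧
        ∃ x ∈ KS F θ, y = t.ev (KA F ξ') x := by
  have hθm : θ.toZFSet ∈ KS F ξ := (ks_ord hξ).2 hθξ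
  have hC : ({p, θ.toZFSet} : Set ZFSet.{0}) ⊆ (KA F ξ).A := by
    rintro x (rfl | rfl)
    · exact hp
    · exact hθm
  have hP : {x | x ∈ KS F θ} ⊆ (KA F ξ).A := fun x hx => ks_mono hθξ.le hx
  obtain ⟨hX, -⟩ := tm_clsd hξ Ψ hC hP ⟨∅, empty_ks hθ⟩ fun x hx y hy => pair_ks hθ hx hy
  set X : Set ZFSet.{0} := {y | ∃ t : Tm, t.Over Ψ {p, θ.toZFSet} ∧
    ∃ x ∈ {x | x ∈ KS F θ}, y = t.ev (KA F ξ) x} with hXdef
  obtain ⟨π, F', ξ', hξ', hle, hiso, hcoll, hF'⟩ := h0.cond F ξ hξ X (clsd_mono hX hΨ)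
  have hSX : ∀ x ∈ KS F θ, x ∈ X := fun x hx => ⟨.var, trivial, x, hx, rfl⟩
  have hθX : θ.toZFSet ∈ X := ⟨.cst _, Or.inr rfl, ∅, empty_ks hθ, rfl⟩
  have hpX : p ∈ X := ⟨.cst _, Or.inl rfl, ∅, empty_ks hθ, rfl⟩
  have hfix : ∀ x ∈ KS F θ, π x = x := by
    intro x
    induction x using ZFSet.inductionOn with
    | _ x ih =>
    intro hx
    ext y
    rw [hcoll x (hSX x hx) y]
    constructor
    · rintro ⟨z, hz, hzx, rfl⟩
      rw [ih z hzx (ks_trans θ x hx z hzx)]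
      exact hzx
    · intro hy
      have hy' := ks_trans θ x hx y hy
      exact ⟨y, hSX y hy', hy, (ih y hy hy').symm⟩
  have hfixs : ∀ x ∈ X, x ⊆ θ.toZFSet → π x = x := by
    intro x hx hxs
    ext y
    rw [hcoll x hx y]
    constructor
    · rintro ⟨z, hz, hzx, rfl⟩
      rw [hfix z (toZ_sub hθ z (hxs hzx))]
      exact hzx
    · intro hy
      have hy' := toZ_sub (F := F) hθ y (hxs hy)
      exact ⟨y, hSX y hy', hy, (hfix y hy').symm⟩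
  have hπθ : π θ.toZFSet = θ.toZFSet := hfixs _ hθX fun _ h => h
  have hθξ' : θ < ξ' := by
    have h1 := hiso.maps _ hθX
    rw [hπθ] at h1
    exact (ks_ord hξ').1 h1
  have hsub : ∀ x ∈ X, π x ⊆ θ.toZFSet → x ⊆ θ.toZFSet := by
    intro x hx hxs
    by_contra hcon
    have h1 : ∃ a, a ∈ x ∧ a ∉ θ.toZFSet := by
      by_contra h2
      push Not at h2
      exact hcon fun a ha => h2 a ha
    obtain ⟨a, ha, ha'⟩ := h1
    have hv : ∀ i, (![x, θ.toZFSet] : Fin 2 → ZFSet.{0}) i ∈ X := by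
      intro i
      fin_cases i
      · exact hx
      · exact hθX
    have h2 := clsd_sat (F := F) (clsd_mono hX hΨ)
      (φ := (.ex (.and (.mem 0 1) (.neg (.mem 0 2))) : Fo 2)) ⟨h0.diff, trivial, trivial⟩ hv
    have h3 : (Fo.ex (.and (.mem 0 1) (.neg (.mem 0 2))) : Fo 2).Sat (KA F ξ)
        ![x, θ.toZFSet] :=
      ⟨a, ks_trans ξ x (hX.sub hx) a ha, ha, ha'⟩
    obtain ⟨b, hb, hb1, hb2⟩ := h2.2 h3
    have h4 : π b ∈ π x := (hiso.mem b hb x hx).1 hb1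
    have h5 : π b ∈ π θ.toZFSet := by
      rw [hπθ]
      exact hxs h4
    exact hb2 ((hiso.mem b hb _ hθX).2 h5)
  have hFF : ∀ x ∈ X, (x ∈ F ↔ π x ∈ F) := by
    intro x hx
    constructor
    · intro h
      rw [hfixs x hx (hF x h)]
      exact h
    · intro h
      have h1 := hsub x hx (hF _ h)
      rw [hfixs x hx h1] at h
      exact h
  have hagr : ∀ y ∈ KS F' ξ', (y ∈ F' ↔ y ∈ F) := by
    intro y hy
    obtain ⟨x, hx, rfl⟩ := hiso.surj y hy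
    exact (hiso.F x hx).symm.trans (hFF x hx)
  have hag : ∀ ζ < ξ', IsSuccLimit ζ → ∀ x ∈ KS F' ζ, (x ∈ F' ↔ x ∈ F) :=
    fun ζ hζ _ x hx => hagr x (ks_mono hζ.le hx)
  obtain ⟨hS, hW, -⟩ := ks_congr hag
  have hL := lvl_congr hag
  have hiso' : Iso ((KA F ξ).res X) (KA F ξ') π := by
    refine ⟨fun x hx => ?_, fun y hy => ?_, hiso.inj, hiso.mem, hFF, fun x hx y hy => ?_,
      hiso.pr, hiso.fst, hiso.snd, fun x hx => ?_, hiso.emp⟩
    · have h1 := hiso.maps x hx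
      change π x ∈ KS F' ξ' at h1
      rw [hS] at h1
      exact h1
    · change y ∈ KS F ξ' at hy
      rw [← hS] at hy
      exact hiso.surj y hy
    · have h1 := hiso.lt x hx y hy
      rw [h1]
      change _ ∈ KW F' ξ' ↔ _ ∈ KW F ξ'
      rw [hW]
    · rw [hiso.lv x hx]
      exact hL _ (hiso.maps x hx) hξ'
  refine ⟨X, π, ξ', hξ', hθξ', hle, hX, fun x hx => ⟨hSX x hx, hfix x hx⟩, hθX, hπθ, hpX, hiso',
    fun y hy => ?_⟩
  obtain ⟨z, hz, rfl⟩ := hiso'.surj y hy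
  obtain ⟨t, ht, x, hx, rfl⟩ := hz
  have hCX : ({p, θ.toZFSet} : Set ZFSet.{0}) ⊆ X := by
    rintro x (rfl | rfl)
    · exact hpX
    · exact hθX
  have htX : t.Over Ψ X := over_mono (fun _ h => h) hCX t ht
  have h1 := ev_res hX hcl htX (hSX x hx)
  have h2 := iso_ev hiso' (clsd_res hX hcl) (fun x hx y hy => ?_) t htX (hSX x hx)
  · rw [h1.1, hfix x hx] at h2
    refine ⟨t.map π, over_map ?_ t ht, x, hx, h2⟩
    rintro a (rfl | rfl)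
    · exact Or.inl rfl
    · exact Or.inr hπθ
  · exact kw_total ξ (hX.sub hx) (hX.sub hy)

namespace PK8

/-- Finitely many elements can be coded by one. -/
theorem code_fin {ξ : Ordinal.{0}} (h : IsSuccLimit ξ) {Ψ : Set Mx} : {n : ℕ} →
    (v : Fin n → ZFSet.{0}) → (∀ i, v i ∈ KS F ξ) → ∃ p ∈ KS F ξ,
      ∀ X : Set ZFSet.{0}, Clsd (KA F ξ) Ψ X → p ∈ X → ∀ i, v i ∈ X
  | 0, v, _ => ⟨∅, empty_ks h, fun _ _ _ i => i.elim0⟩
  | n + 1, v, hv => by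
    obtain ⟨p, hp, h1⟩ := code_fin h (Ψ := Ψ) (fun i : Fin n => v i.succ) fun i => hv _
    refine ⟨pair (v 0) p, pair_ks h (hv 0) hp, fun X hX hpX => Fin.cases ?_ fun i => ?_⟩
    · have h2 := hX.fst _ hpX
      rwa [fs_pair] at h2
    · refine h1 X hX ?_ i
      have h2 := hX.snd _ hpX
      rwa [sn_pair] at h2

/-- The constants of a term can be coded by one element. -/
theorem code_tm {ξ : Ordinal.{0}} (h : IsSuccLimit ξ) {Ψ : Set Mx} (t : Tm)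
    (ht : t.Over Ψ {x | x ∈ KS F ξ}) : ∃ p ∈ KS F ξ,
      ∀ X : Set ZFSet.{0}, Clsd (KA F ξ) Ψ X → p ∈ X → t.Over Ψ X := by
  induction t with
  | var => exact ⟨∅, empty_ks h, fun _ _ _ => trivial⟩
  | cst a => exact ⟨a, ht, fun _ _ h => h⟩
  | pr s t ihs iht =>
    obtain ⟨p, hp, h1⟩ := ihs ht.1
    obtain ⟨q, hq, h2⟩ := iht ht.2
    refine ⟨pair p q, pair_ks h hp hq, fun X hX hpX => ⟨h1 X hX ?_, h2 X hX ?_⟩⟩
    · have h2 := hX.fst _ hpX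
      rwa [fs_pair] at h2
    · have h2 := hX.snd _ hpX
      rwa [sn_pair] at h2
  | fst t ih => exact ih ht
  | snd t ih => exact ih ht
  | lv t ih => exact ih ht
  | sk n φ ts ih =>
    choose p hp h1 using fun i => ih i (ht.2 i)
    obtain ⟨q, hq, h2⟩ := code_fin h (Ψ := Ψ) p hp
    exact ⟨q, hq, fun X hX hqX => ⟨ht.1, fun i => h1 i X hX (h2 X hX hqX i)⟩⟩

theorem add_omega_le {ξ ξ' : Ordinal.{0}} (hξ : IsSuccLimit ξ) (h : ξ' < ξ) :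
    ξ' + Ordinal.omega0 ≤ ξ := by
  rw [Ordinal.add_le_iff_of_isSuccLimit Ordinal.isSuccLimit_omega0]
  intro n hn
  obtain ⟨n, rfl⟩ := Ordinal.lt_omega0.1 hn
  clear hn
  suffices h1 : ξ' + (n : Ordinal.{0}) < ξ from h1.le
  induction n with
  | zero => simpa using h
  | succ n ih =>
    have h1 := hξ.succ_lt ih
    rw [Order.succ_eq_add_one, add_assoc] at h1
    exact_mod_cast h1

/-- The graph of a term on a set is definable over the level. -/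
theorem gr_def {θ ξ : Ordinal.{0}} (hθ : IsSuccLimit θ) (hξ : IsSuccLimit ξ) (hθξ : θ < ξ)
    {Ψ : Set Mx} (t : Tm) (ht : t.Over Ψ {x | x ∈ KS F ξ}) :
    grT F ξ t (KS F θ) θ.toZFSet ∈ KS F (ξ + Ordinal.omega0) := by
  obtain ⟨n, φ, v, hv, h1⟩ := ev_def hξ (fun _ h => h) t ht
  obtain ⟨φp, -, h2⟩ : DB fun w : Fin 3 → ZFSet.{0} => w 2 = pair (w 1) (w 0) :=
    DB.isPair (D0v.proj 2) (D0v.proj 1) (D0v.proj 0)
  have hD : KS F θ ∈ KS F ξ := ks_mem hθξ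
  have hE : θ.toZFSet ∈ KS F ξ := (ks_ord hξ).2 hθξ
  have h3 := def_mem (F := F) hξ (n := n + 2)
    (.bex 1 (.bex 3 (.and (φp.rn ![0, 1, 2])
      (φ.rn (Fin.cons 0 (Fin.cons 1 fun i => i.succ.succ.succ.succ.succ))))))
    (Fin.cons (KS F θ) (Fin.cons θ.toZFSet v)) (Fin.cases hD (Fin.cases hE hv))
  convert h3 using 1
  ext q
  rw [grT, ZFSet.mem_sep, ZFSet.mem_sep]
  have htr : ∀ x ∈ (KA F ξ).A, ∀ y ∈ x, y ∈ (KA F ξ).A := ks_trans ξ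
  have key : ∀ x ∈ KS F ξ, ∀ z ∈ KS F ξ, ∀ q ∈ KS F ξ,
      ((Fo.and (φp.rn ![0, 1, 2])
        (φ.rn (Fin.cons 0 (Fin.cons 1 fun i => i.succ.succ.succ.succ.succ))) :
          Fo (n + 1 + 1 + 1 + 1 + 1)).Sat (KA F ξ)
        (Fin.cons z (Fin.cons x (Fin.cons q (Fin.cons (KS F θ) (Fin.cons θ.toZFSet v))))) ↔
        q = pair x z ∧ z = t.ev (KA F ξ) x) := by
    intro x hx z hz q hq
    simp only [Fo.Sat]
    rw [sat_rn, sat_rn]
    refine and_congr ?_ ?_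
    · refine (h2 (KA F ξ) htr _ ?_).trans ?_
      · intro i
        fin_cases i
        · exact hz
        · exact hx
        · exact hq
      · rfl
    · rw [← h1 x hx z hz]
      have h5 : (fun k => (Fin.cons z (Fin.cons x (Fin.cons q (Fin.cons (KS F θ)
          (Fin.cons θ.toZFSet v)))) : Fin (n + 1 + 1 + 1 + 1 + 1) → ZFSet.{0})
          ((Fin.cons 0 (Fin.cons 1 fun i => i.succ.succ.succ.succ.succ) :
            Fin (n + 2) → Fin (n + 1 + 1 + 1 + 1 + 1)) k)) = Fin.cons z (Fin.cons x v) := by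
        funext i
        refine Fin.cases ?_ (fun i => ?_) i
        · rfl
        · refine Fin.cases ?_ (fun i => ?_) i
          · rfl
          · rfl
      rw [h5]
  constructor
  · rintro ⟨-, x, hx, z, hz, rfl, h4⟩
    have hx' : x ∈ KS F ξ := ks_mono hθξ.le hx
    have hz' : z ∈ KS F ξ := ks_trans ξ _ hE z hz
    have hq : pair x z ∈ KS F ξ := pair_ks hξ hx' hz'
    exact ⟨hq, x, hx', hx, z, hz', hz, (key x hx' z hz' _ hq).2 ⟨rfl, h4.symm⟩⟩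
  · rintro ⟨hq, x, hx', hx, z, hz', hz, h4⟩
    obtain ⟨h5, h6⟩ := (key x hx' z hz' q hq).1 h4
    exact ⟨h5 ▸ ZFSet.pair_mem_prod.2 ⟨hx, hz⟩, x, hx, z, hz, h5, h6.symm⟩

end PK8

/-- C1.3. -/
theorem hull {Ψ₀ Ψ : Set Mx} (h0 : Cnds Ψ₀) (hΨ : Ψ₀ ⊆ Ψ) (hcl : Cl Ψ)
    {θ ξ : Ordinal.{0}} (hθ : IsSuccLimit θ) (hξ : IsSuccLimit ξ) (hθξ : θ < ξ)
    (hF : ∀ Z ∈ F, Z ⊆ θ.toZFSet) (h : ¬ PU F θ ξ Ψ) :
    ∃ p ∈ KS F ξ, ∀ y ∈ KS F ξ, ∃ t : Tm, t.Over Ψ {p, θ.toZFSet} ∧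
      ∃ x ∈ KS F θ, y = t.ev (KA F ξ) x := by
  rw [PU] at h
  push Not at h
  obtain ⟨t, ht, h1⟩ := h
  obtain ⟨p, hp, h2⟩ := code_tm hξ t ht
  obtain ⟨X, π, ξ', hξ', hθξ', hle, hX, hfix, hθX, hπθ, hpX, hiso, hgen⟩ :=
    hull_cases h0 hΨ hcl hθ hξ hθξ hF hp
  rcases hle.lt_or_eq with hlt | rfl
  · exfalso
    apply h1
    have htX := h2 X hX hpX
    have h3 : grT F ξ t (KS F θ) θ.toZFSet = grT F ξ' (t.map π) (KS F θ) θ.toZFSet := by
      ext q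
      rw [grT, grT, ZFSet.mem_sep, ZFSet.mem_sep]
      refine and_congr_right fun _ => exists_congr fun x => and_congr_right fun hx =>
        exists_congr fun z => and_congr_right fun hz => and_congr_right fun _ => ?_
      have h4 := ev_res hX hcl htX (hfix x hx).1
      have h5 := iso_ev hiso (clsd_res hX hcl) (fun x hx y hy => kw_total ξ (hX.sub hx) (hX.sub hy))
        t htX (hfix x hx).1
      have hz' := hfix z (toZ_sub hθ z hz)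
      rw [h4.1, (hfix x hx).2] at h5
      rw [← h5]
      constructor
      · intro h6
        rw [h6]
        exact hz'.2
      · intro h6
        refine hiso.inj _ h4.2 _ hz'.1 ?_
        rw [h6, hz'.2]
    rw [h3]
    have h4 : (t.map π).Over Ψ {x | x ∈ KS F ξ'} := over_map (fun a ha => hiso.maps a ha) t htX
    exact ks_mono (add_omega_le hξ hlt) (gr_def hθ hξ' hθξ' _ h4)
  · refine ⟨π p, hiso.maps p hpX, hgen⟩


namespace PK8

/-- `Onto` for a class of sets. -/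
def OntoS (F : ZFSet.{0}) (θ ξ : Ordinal.{0}) (A : Set ZFSet.{0}) : Prop :=
  ∃ e ∈ KS F ξ, Fnl e ∧ (∀ p ∈ e, ∃ x ∈ KS F θ, ∃ y ∈ A, p = pair x y) ∧
    ∀ y ∈ A, ∃ x, pair x y ∈ e

theorem ontoS_of_sep {θ ξ : Ordinal.{0}} {A : Set ZFSet.{0}} {D : ZFSet.{0}} (hD : ∀ y ∈ A, y ∈ D)
    {Q : ZFSet.{0} → Prop} (hQ : ZFSet.sep Q (ZFSet.prod (KS F θ) D) ∈ KS F ξ)
    (hf : ∀ x ∈ KS F θ, ∀ y y', Q (pair x y) → Q (pair x y') → y = y')
    (hA : ∀ x ∈ KS F θ, ∀ y, Q (pair x y) → y ∈ A)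
    (ho : ∀ y ∈ A, ∃ x ∈ KS F θ, Q (pair x y)) : OntoS F θ ξ A := by
  refine ⟨_, hQ, ?_, ?_, ?_⟩
  · intro x y y' h1 h2
    rw [ZFSet.mem_sep, ZFSet.pair_mem_prod] at h1 h2
    exact hf x h1.1.1 y y' h1.2 h2.2
  · intro p hp
    rw [ZFSet.mem_sep] at hp
    obtain ⟨x, hx, y, hy, rfl⟩ := ZFSet.mem_prod.1 hp.1
    exact ⟨x, hx, y, hA x hx y hp.2, rfl⟩
  · intro y hy
    obtain ⟨x, hx, h1⟩ := ho y hy
    exact ⟨x, ZFSet.mem_sep.2 ⟨ZFSet.pair_mem_prod.2 ⟨hx, hD y hy⟩, h1⟩⟩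

theorem ontoS_sub {θ ξ : Ordinal.{0}} (hξ : IsSuccLimit ξ) {A : Set ZFSet.{0}}
    {B : ZFSet.{0}} (hB : B ∈ KS F ξ) (hBA : ∀ y ∈ B, y ∈ A) (h : OntoS F θ ξ A) :
    OntoS F θ ξ {y | y ∈ B} := by
  obtain ⟨e, he, hf, hp, ho⟩ := h
  have hd : D1 fun w : Fin 2 → ZFSet.{0} => sn (w 0) ∈ w 1 := D1.mem (SF.proj 0).sn (SF.proj 1)
  have h1 := d1_sep (F := F) hξ (n := 1) hd (v := fun _ => B) (fun _ => hB) he
  refine ⟨_, h1, ?_, ?_, ?_⟩
  · intro x y y' h2 h3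
    exact hf x y y' (ZFSet.mem_sep.1 h2).1 (ZFSet.mem_sep.1 h3).1
  · intro p h2
    obtain ⟨h3, h4⟩ := ZFSet.mem_sep.1 h2
    obtain ⟨x, hx, y, hy, rfl⟩ := hp p h3
    refine ⟨x, hx, y, ?_, rfl⟩
    change sn (pair x y) ∈ B at h4
    rwa [sn_pair] at h4
  · intro y hy
    obtain ⟨x, hx⟩ := ho y (hBA y hy)
    refine ⟨x, ZFSet.mem_sep.2 ⟨hx, ?_⟩⟩
    change sn (pair x y) ∈ B
    rw [sn_pair]
    exact hy

theorem ontoS_union {θ ξ : Ordinal.{0}} (hθ : IsSuccLimit θ) (hξ : IsSuccLimit ξ) (hθξ : θ < ξ)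
    {A B : Set ZFSet.{0}} {D : ZFSet.{0}} (hD : D ∈ KS F ξ) (hA : ∀ y ∈ A, y ∈ D)
    (hB : ∀ y ∈ B, y ∈ D) (h1 : OntoS F θ ξ A) (h2 : OntoS F θ ξ B) :
    OntoS F θ ξ (A ∪ B) := by
  obtain ⟨e, he, hf, hp, ho⟩ := h1
  obtain ⟨e', he', hf', hp', ho'⟩ := h2
  have hd : D1 fun w : Fin 3 → ZFSet.{0} =>
      (fs (fs (w 0)) = ∅ ∧ pair (sn (fs (w 0))) (sn (w 0)) ∈ w 1) ∨
      (¬ fs (fs (w 0)) = ∅ ∧ pair (sn (fs (w 0))) (sn (w 0)) ∈ w 2) := by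
    refine D1.or (D1.and (D1.eq (SF.proj 0).fs.fs SF.empty) (D1.mem ?_ (SF.proj 1)))
      (D1.and (D1.eq (SF.proj 0).fs.fs SF.empty).not (D1.mem ?_ (SF.proj 2)))
    · exact (SF.proj 0).fs.sn.pair (SF.proj 0).sn
    · exact (SF.proj 0).fs.sn.pair (SF.proj 0).sn
  have h3 := d1_sep (F := F) hξ (n := 2) hd (v := ![e, e']) (by
    intro i
    fin_cases i
    · exact he
    · exact he') ((ks_gd hξ).prod_mem (ks_mem hθξ) hD)
  refine ontoS_of_sep (D := D) ?_ h3 ?_ ?_ ?_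
  · rintro y (hy | hy)
    · exact hA y hy
    · exact hB y hy
  · intro x hx y y' h4 h5
    change (fs (fs (pair x y)) = ∅ ∧ pair (sn (fs (pair x y))) (sn (pair x y)) ∈ e) ∨
      (¬ fs (fs (pair x y)) = ∅ ∧ pair (sn (fs (pair x y))) (sn (pair x y)) ∈ e') at h4
    change (fs (fs (pair x y')) = ∅ ∧ pair (sn (fs (pair x y'))) (sn (pair x y')) ∈ e) ∨
      (¬ fs (fs (pair x y')) = ∅ ∧ pair (sn (fs (pair x y'))) (sn (pair x y')) ∈ e') at h5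
    rw [fs_pair, sn_pair] at h4 h5
    rcases h4 with ⟨h6, h7⟩ | ⟨h6, h7⟩ <;> rcases h5 with ⟨h8, h9⟩ | ⟨h8, h9⟩
    · exact hf _ _ _ h7 h9
    · exact absurd h6 h8
    · exact absurd h8 h6
    · exact hf' _ _ _ h7 h9
  · intro x hx y h4
    change (fs (fs (pair x y)) = ∅ ∧ pair (sn (fs (pair x y))) (sn (pair x y)) ∈ e) ∨
      (¬ fs (fs (pair x y)) = ∅ ∧ pair (sn (fs (pair x y))) (sn (pair x y)) ∈ e') at h4
    rw [fs_pair, sn_pair] at h4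
    rcases h4 with ⟨h6, h7⟩ | ⟨h6, h7⟩
    · obtain ⟨a, ha, b, hb, h8⟩ := hp _ h7
      obtain ⟨-, rfl⟩ := ZFSet.pair_inj.1 h8
      exact Or.inl hb
    · obtain ⟨a, ha, b, hb, h8⟩ := hp' _ h7
      obtain ⟨-, rfl⟩ := ZFSet.pair_inj.1 h8
      exact Or.inr hb
  · rintro y (hy | hy)
    · obtain ⟨x, hx⟩ := ho y hy
      obtain ⟨a, ha, b, hb, h8⟩ := hp _ hx
      obtain ⟨rfl, rfl⟩ := ZFSet.pair_inj.1 h8
      refine ⟨pair ∅ x, pair_ks hθ (empty_ks hθ) ha, ?_⟩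
      change (fs (fs (pair (pair ∅ x) y)) = ∅ ∧ pair (sn (fs (pair (pair ∅ x) y)))
        (sn (pair (pair ∅ x) y)) ∈ e) ∨ _
      rw [fs_pair, sn_pair, fs_pair, sn_pair]
      exact Or.inl ⟨rfl, hx⟩
    · obtain ⟨x, hx⟩ := ho' y hy
      obtain ⟨a, ha, b, hb, h8⟩ := hp' _ hx
      obtain ⟨rfl, rfl⟩ := ZFSet.pair_inj.1 h8
      refine ⟨pair {∅} x, pair_ks hθ ((ks_gd hθ).single_mem (empty_ks hθ)) ha, ?_⟩
      refine Or.inr ?_
      change ¬ fs (fs (pair (pair {∅} x) y)) = ∅ ∧ pair (sn (fs (pair (pair {∅} x) y)))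
        (sn (pair (pair {∅} x) y)) ∈ e'
      rw [fs_pair, sn_pair, fs_pair, sn_pair]
      refine ⟨fun h9 => ?_, hx⟩
      have h10 : (∅ : ZFSet.{0}) ∈ ({∅} : ZFSet.{0}) := ZFSet.mem_singleton.2 rfl
      rw [h9] at h10
      exact ZFSet.notMem_empty _ h10

theorem ontoS_single {θ ξ : Ordinal.{0}} (hθ : IsSuccLimit θ) (hξ : IsSuccLimit ξ)
    {a : ZFSet.{0}} (ha : a ∈ KS F ξ) : OntoS F θ ξ {y | y = a} := by
  refine ⟨{pair ∅ a}, (ks_gd hξ).single_mem (pair_ks hξ (empty_ks hξ) ha), ?_, ?_, ?_⟩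
  · intro x y y' h1 h2
    rw [ZFSet.mem_singleton] at h1 h2
    rw [(ZFSet.pair_inj.1 h1).2, (ZFSet.pair_inj.1 h2).2]
  · intro p hp
    rw [ZFSet.mem_singleton] at hp
    exact ⟨∅, empty_ks hθ, a, rfl, hp⟩
  · intro y hy
    exact ⟨∅, ZFSet.mem_singleton.2 (by rw [hy])⟩

theorem ontoS_op {θ ξ : Ordinal.{0}} (hθ : IsSuccLimit θ) (hξ : IsSuccLimit ξ) (hθξ : θ < ξ)
    {A : Set ZFSet.{0}} {D : ZFSet.{0}} (hD : D ∈ KS F ξ) {X P R : ZFSet.{0}} (hX : X ∈ KS F ξ)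
    (hP : P ∈ KS F ξ) (hR : R ∈ KS F ξ) (k : ℕ)
    (hAD : ∀ a ∈ A, ∀ b ∈ A, opK X P R k a b ∈ D) (h : OntoS F θ ξ A) :
    OntoS F θ ξ {y | ∃ a ∈ A, ∃ b ∈ A, y = opK X P R k a b} := by
  obtain ⟨e, he, hf, hp, ho⟩ := h
  have hd : D1 fun w : Fin 5 → ZFSet.{0} => ∃ s ∈ w 4, ∃ s' ∈ w 4,
      fs s = fs (fs (w 0)) ∧ fs s' = sn (fs (w 0)) ∧
        sn (w 0) = opK (w 1) (w 2) (w 3) k (sn s) (sn s') := by
    apply D1.bex (SF.proj 4)
    apply D1.bex (SF.proj 5)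
    refine D1.and (D1.eq (SF.proj 1).fs (SF.proj 2).fs.fs)
      (D1.and (D1.eq (SF.proj 0).fs (SF.proj 2).fs.sn) (D1.eq (SF.proj 2).sn ?_))
    exact sf_opK k (SF.proj 3) (SF.proj 4) (SF.proj 5) (SF.proj 1).sn (SF.proj 0).sn
  have h3 := d1_sep (F := F) hξ (n := 4) hd (v := ![X, P, R, e]) (by
    intro i
    fin_cases i
    · exact hX
    · exact hP
    · exact hR
    · exact he) ((ks_gd hξ).prod_mem (ks_mem hθξ) hD)
  refine ontoS_of_sep (D := D) (Q := fun q => ∃ s ∈ e, ∃ s' ∈ e, fs s = fs (fs q) ∧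
    fs s' = sn (fs q) ∧ sn q = opK X P R k (sn s) (sn s')) ?_ h3 ?_ ?_ ?_
  · rintro y ⟨a, ha, b, hb, rfl⟩
    exact hAD a ha b hb
  · rintro x hx y y' ⟨s, hs, s', hs', h4, h5, h6⟩ ⟨t, ht, t', ht', h7, h8, h9⟩
    obtain ⟨a, ha, b, hb, rfl⟩ := hp s hs
    obtain ⟨a', ha', b', hb', rfl⟩ := hp s' hs'
    obtain ⟨c, hc, d, hd, rfl⟩ := hp t ht
    obtain ⟨c', hc', d', hd', rfl⟩ := hp t' ht'
    rw [fs_pair] at h4 h5 h7 h8
    rw [sn_pair, sn_pair, sn_pair] at h6 h9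
    have e1 : a = c := by rw [h4, h7, fs_pair, fs_pair]
    have e2 : a' = c' := by rw [h5, h8, fs_pair, fs_pair]
    subst e1 e2
    rw [h6, h9, hf _ _ _ hs ht, hf _ _ _ hs' ht']
  · rintro x hx y ⟨s, hs, s', hs', h4, h5, h6⟩
    obtain ⟨a, ha, b, hb, rfl⟩ := hp s hs
    obtain ⟨a', ha', b', hb', rfl⟩ := hp s' hs'
    rw [sn_pair, sn_pair, sn_pair] at h6
    exact ⟨b, hb, b', hb', h6⟩
  · rintro y ⟨a, ha, b, hb, rfl⟩
    obtain ⟨x, hx⟩ := ho a ha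
    obtain ⟨x', hx'⟩ := ho b hb
    obtain ⟨c, hc, d, hd, h8⟩ := hp _ hx
    obtain ⟨rfl, rfl⟩ := ZFSet.pair_inj.1 h8
    obtain ⟨c', hc', d', hd', h9⟩ := hp _ hx'
    obtain ⟨rfl, rfl⟩ := ZFSet.pair_inj.1 h9
    refine ⟨pair x x', pair_ks hθ hc hc', _, hx, _, hx', ?_⟩
    simp only [fs_pair, sn_pair, and_self]

theorem ontoS_mono {θ ξ ξ' : Ordinal.{0}} (h : ξ ≤ ξ') {A : Set ZFSet.{0}}
    (h1 : OntoS F θ ξ A) : OntoS F θ ξ' A := by
  obtain ⟨e, he, h2⟩ := h1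
  exact ⟨e, ks_mono h he, h2⟩

/-- The identity. -/
theorem onto_id {θ ξ : Ordinal.{0}} (hθ : IsSuccLimit θ) (hξ : IsSuccLimit ξ) (hθξ : θ < ξ) :
    Onto F θ ξ θ := by
  have hd : D1 fun w : Fin 1 → ZFSet.{0} => fs (w 0) = sn (w 0) :=
    D1.eq (SF.proj 0).fs (SF.proj 0).sn
  have h3 := d1_sep (F := F) hξ (n := 0) hd (v := fun i => i.elim0) (fun i => i.elim0)
    ((ks_gd hξ).prod_mem (ks_mem hθξ) (ks_mem hθξ))
  refine ontoS_of_sep (A := {y | y ∈ KS F θ}) (D := KS F θ) (Q := fun q => fs q = sn q)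
    (fun _ h => h) h3 ?_ ?_ ?_
  · intro x hx y y' h4 h5
    rw [fs_pair, sn_pair] at h4 h5
    rw [← h4, ← h5]
  · intro x hx y h4
    rw [fs_pair, sn_pair] at h4
    exact h4 ▸ hx
  · intro y hy
    exact ⟨y, hy, by rw [fs_pair, sn_pair]⟩

end PK8

theorem onto_mono {θ ξ η η' : Ordinal.{0}} (hξ : IsSuccLimit ξ) (hη : η < ξ) (hηη : η' ≤ η)
    (h : Onto F θ ξ η) : Onto F θ ξ η' :=
  ontoS_sub (A := {y | y ∈ KS F η}) hξ (ks_mem (lt_of_le_of_lt hηη hη))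
    (fun _ hy => ks_mono hηη hy) h

theorem onto_succ {θ ξ η : Ordinal.{0}} (hθ : IsSuccLimit θ) (hξ : IsSuccLimit ξ) (hθξ : θ < ξ)
    (hη : η < ξ) (h : Onto F θ ξ η) : Onto F θ ξ (η + 1) := by
  have hη1 : η + 1 < ξ := hξ.succ_lt hη
  have hE : Eh F η.toZFSet ∈ KS F ξ := eh_of_sq (seq_mem ξ hξ η hη)
  have hc := ka_clsd (F := F) hξ ∅
  have hP : eP (Eh F η.toZFSet) ∈ KS F ξ := hc.fst _ (hc.snd _ (hc.snd _ hE))
  have hR : eR (Eh F η.toZFSet) ∈ KS F ξ := hc.snd _ (hc.snd _ (hc.snd _ hE))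
  have hX : KS F η ∈ KS F ξ := ks_mem hη
  have hD : KS F (η + 1) ∈ KS F ξ := ks_mem hη1
  have hXD : KS F η ∈ KS F (η + 1) := ks_mem (lt_add_one η)
  have hXD' : ∀ y ∈ KS F η, y ∈ KS F (η + 1) := fun y hy => ks_mono (lt_add_one η).le hy
  have h1 : OntoS F θ ξ ({y | y = KS F η} ∪ {y | y ∈ KS F η}) :=
    ontoS_union hθ hξ hθξ hD (by rintro y rfl; exact hXD) hXD' (ontoS_single hθ hξ hX) h
  have h2 : ∀ k ≤ 12, OntoS F θ ξ {y | y ∈ KS F η ∨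
      ∃ i < k, ∃ a ∈ insert (KS F η) (KS F η), ∃ b ∈ insert (KS F η) (KS F η),
        y = opK (KS F η) (eP (Eh F η.toZFSet)) (eR (Eh F η.toZFSet)) i a b} := by
    intro k
    induction k with
    | zero =>
      intro _
      have h3 : {y | y ∈ KS F η ∨
        ∃ i < 0, ∃ a ∈ insert (KS F η) (KS F η), ∃ b ∈ insert (KS F η) (KS F η),
          y = opK (KS F η) (eP (Eh F η.toZFSet)) (eR (Eh F η.toZFSet)) i a b} =
          {y | y ∈ KS F η} := by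
        ext y
        simp
      rw [h3]
      exact h
    | succ k ih =>
      intro hk
      have h4 := ontoS_op hθ hξ hθξ hD hX hP hR k (A := {y | y = KS F η} ∪ {y | y ∈ KS F η})
        (fun a ha b hb => PK1_mem_ks_succ.2 (Or.inr ⟨k, by omega, a,
          ZFSet.mem_insert_iff.2 ha, b, ZFSet.mem_insert_iff.2 hb, rfl⟩)) h1
      have h5 := ontoS_union hθ hξ hθξ hD ?_ ?_ (ih (by omega)) h4
      · convert h5 using 1
        ext y
        simp only [Set.mem_ofPred_eq, Set.mem_union, ZFSet.mem_insert_iff]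
        constructor
        · rintro (h6 | ⟨i, hi, h6⟩)
          · exact Or.inl (Or.inl h6)
          · rcases Nat.lt_succ_iff_lt_or_eq.1 hi with h7 | rfl
            · exact Or.inl (Or.inr ⟨i, h7, h6⟩)
            · exact Or.inr h6
        · rintro ((h6 | ⟨i, hi, h6⟩) | h6)
          · exact Or.inl h6
          · exact Or.inr ⟨i, by omega, h6⟩
          · exact Or.inr ⟨k, by omega, h6⟩
      · rintro y (hy | ⟨i, hi, h6⟩)
        · exact hXD' y hy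
        · exact PK1_mem_ks_succ.2 (Or.inr ⟨i, by omega, h6⟩)
      · rintro y ⟨a, ha, b, hb, rfl⟩
        exact PK1_mem_ks_succ.2 (Or.inr ⟨k, by omega, a,
          ZFSet.mem_insert_iff.2 ha, b, ZFSet.mem_insert_iff.2 hb, rfl⟩)
  have h3 := h2 12 le_rfl
  have h4 : {y | y ∈ KS F η ∨
      ∃ i < 12, ∃ a ∈ insert (KS F η) (KS F η), ∃ b ∈ insert (KS F η) (KS F η),
        y = opK (KS F η) (eP (Eh F η.toZFSet)) (eR (Eh F η.toZFSet)) i a b} =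
        {y | y ∈ KS F (η + 1)} := by
    ext y
    exact PK1_mem_ks_succ.symm
  rw [h4] at h3
  exact h3


namespace PK8

/-- The limit ordinal at which a set appears. -/
theorem exists_lim {θ ξ : Ordinal.{0}} (hθ : IsSuccLimit θ) (hξ : IsSuccLimit ξ) (hθξ : θ < ξ)
    {g : ZFSet.{0}} (hg : g ∈ KS F ξ) : g ∈ KS F θ ∨ ∃ ζ, IsSuccLimit ζ ∧ θ ≤ ζ ∧ ζ < ξ ∧
      g ∉ KS F ζ ∧ g ∈ KS F (ζ + Ordinal.omega0) := by
  by_cases h : g ∈ KS F θ
  · exact Or.inl h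
  right
  obtain ⟨η₀, hη₀, h0⟩ := (ks_limit hξ).1 hg
  have hne : {q : Ordinal.{0} | g ∈ KS F (Ordinal.omega0 * q + Ordinal.omega0)}.Nonempty := by
    refine ⟨η₀ / Ordinal.omega0, ks_mono ?_ h0⟩
    have h1 := Ordinal.div_add_mod η₀ Ordinal.omega0
    have h2 := Ordinal.mod_lt η₀ (b := Ordinal.omega0) Ordinal.omega0_ne_zero
    calc η₀ = Ordinal.omega0 * (η₀ / Ordinal.omega0) + η₀ % Ordinal.omega0 := h1.symm
      _ ≤ _ := add_le_add_right h2.le _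
  set q := sInf {q : Ordinal.{0} | g ∈ KS F (Ordinal.omega0 * q + Ordinal.omega0)} with hq
  have hq1 : g ∈ KS F (Ordinal.omega0 * q + Ordinal.omega0) := csInf_mem hne
  have hq2 : g ∉ KS F (Ordinal.omega0 * q) := by
    intro h1
    rcases eq_or_ne q 0 with h2 | h2
    · rw [h2, mul_zero, ks_zero] at h1
      exact ZFSet.notMem_empty _ h1
    · have h3 : IsSuccLimit (Ordinal.omega0 * q) :=
        Ordinal.isSuccLimit_mul_left Ordinal.isSuccLimit_omega0 (pos_iff_ne_zero.2 h2)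
      obtain ⟨η, h4, h5⟩ := (ks_limit h3).1 h1
      have h6 : η / Ordinal.omega0 < q :=
        (Ordinal.lt_mul_iff_div_lt Ordinal.omega0_ne_zero).1 h4
      have h7 : g ∈ KS F (Ordinal.omega0 * (η / Ordinal.omega0) + Ordinal.omega0) := by
        refine ks_mono ?_ h5
        have h1 := Ordinal.div_add_mod η Ordinal.omega0
        have h2 := Ordinal.mod_lt η (b := Ordinal.omega0) Ordinal.omega0_ne_zero
        calc η = Ordinal.omega0 * (η / Ordinal.omega0) + η % Ordinal.omega0 := h1.symm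
          _ ≤ _ := add_le_add_right h2.le _
      exact absurd (csInf_le' (s := {q : Ordinal.{0} | g ∈ KS F (Ordinal.omega0 * q +
        Ordinal.omega0)}) h7) (not_le.2 h6)
  have h1 : θ ≤ Ordinal.omega0 * q := by
    by_contra h2
    exact h (ks_mono (add_omega_le hθ (not_le.1 h2)) hq1)
  have h2 : q ≠ 0 := by
    rintro h2
    rw [h2, mul_zero] at h1
    exact absurd hθ.bot_lt (not_lt.2 h1)
  refine ⟨Ordinal.omega0 * q, Ordinal.isSuccLimit_mul_left Ordinal.isSuccLimit_omega0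
    (pos_iff_ne_zero.2 h2), h1, ?_, hq2, hq1⟩
  by_contra h3
  exact hq2 (ks_mono (not_lt.1 h3) hg)

/-- A level where a new subset of `S_θ` appears is an image of `S_θ`. -/
theorem onto_new {Ψ₀ : Set Mx} (h0 : Cnds Ψ₀) {θ ζ : Ordinal.{0}} (hθ : IsSuccLimit θ)
    (hζ : IsSuccLimit ζ) (hθζ : θ < ζ) (hF : ∀ Z ∈ F, Z ⊆ θ.toZFSet) {g : ZFSet.{0}}
    (hg : g ⊆ KS F θ) (hgn : g ∉ KS F ζ) (hgζ : g ∈ KS F (ζ + Ordinal.omega0)) :
    Onto F θ (ζ + Ordinal.omega0) ζ := by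
  obtain ⟨n, φ, v, hv, h1⟩ := mem_def hζ hgζ fun x hx => ks_mono hθζ.le (hg hx)
  obtain ⟨Ψ₁, hfin, hcl, hφ⟩ := exists_mats φ
  set Ψ : Set Mx := Ψ₀ ∪ Ψ₁ with hΨ
  have hclΨ : Cl Ψ := by
    rintro ψ (h | h)
    · exact in_mono Set.subset_union_left (h0.cl ψ h)
    · exact in_mono Set.subset_union_right (hcl ψ h)
  obtain ⟨p, hp, h2⟩ := code_fin (F := F) hζ (Ψ := Ψ) v hv
  obtain ⟨X, π, ζ', hζ', hθζ', hle, hX, hfix, hθX, hπθ, hpX, hiso, hgen⟩ :=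
    hull_cases h0 Set.subset_union_left hclΨ hθ hζ hθζ hF hp
  rcases hle.lt_or_eq with hlt | rfl
  · exfalso
    apply hgn
    have hvX := h2 X hX hpX
    obtain ⟨φt, -, h3⟩ : DB fun w : Fin 2 → ZFSet.{0} => w 0 ∈ w 1 :=
      DB.mem (D0v.proj 0) (D0v.proj 1)
    have h4 := def_mem (F := F) hζ' (n := n + 1)
      (.and (.mem 0 1) (φ.rn (Fin.cons 0 fun i => i.succ.succ)))
      (Fin.cons (KS F θ) fun i => π (v i)) (Fin.cases (ks_mem hθζ') fun i => hiso.maps _ (hvX i))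
    have h5 : ZFSet.sep (fun x => (Fo.and (.mem 0 1)
        (φ.rn (Fin.cons 0 fun i => i.succ.succ)) : Fo (n + 1 + 1)).Sat (KA F ζ')
          (Fin.cons x (Fin.cons (KS F θ) fun i => π (v i)))) (KS F ζ') = g := by
      ext x
      rw [ZFSet.mem_sep]
      simp only [Fo.Sat]
      rw [sat_rn]
      have h6 : (fun k => (Fin.cons x (Fin.cons (KS F θ) fun i => π (v i)) :
          Fin (n + 1 + 1) → ZFSet.{0}) ((Fin.cons 0 fun i => i.succ.succ :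
            Fin (n + 1) → Fin (n + 1 + 1)) k)) = Fin.cons x fun i => π (v i) := by
        funext i
        refine Fin.cases ?_ (fun i => ?_) i
        · rfl
        · rfl
      rw [h6]
      have h7 : ∀ x ∈ KS F θ, (φ.Sat (KA F ζ') (Fin.cons x fun i => π (v i)) ↔ x ∈ g) := by
        intro x hx
        rw [h1 x (ks_mono hθζ.le hx)]
        have hxv : ∀ i, (Fin.cons x v : Fin (n + 1) → ZFSet.{0}) i ∈ X :=
          Fin.cases (hfix x hx).1 hvX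
        rw [← clsd_sat hX (in_mono Set.subset_union_right hφ) hxv]
        rw [iso_sat hiso hX.lv φ hxv]
        have h8 : (fun i => π ((Fin.cons x v : Fin (n + 1) → ZFSet.{0}) i)) =
            Fin.cons x fun i => π (v i) := by
          funext i
          refine Fin.cases ?_ (fun i => ?_) i
          · exact (hfix x hx).2
          · rfl
        rw [h8]
      constructor
      · rintro ⟨-, h8, h9⟩
        exact (h7 x h8).1 h9
      · intro h8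
        have h9 := hg h8
        exact ⟨ks_mono hθζ'.le h9, h9, (h7 x h9).2 h8⟩
    rw [h5] at h4
    exact ks_mono (add_omega_le hζ hlt) h4
  · refine onto_of_gen hθ hζ' hθζ' (h0.fin.union hfin) (P := {π p, θ.toZFSet})
      (Set.toFinite _) ?_ hgen
    rintro x (rfl | rfl)
    · exact hiso.maps p hpX
    · exact (ks_ord hζ').2 hθζ'

end PK8

/-- C1.4. -/
theorem accept {Ψ₀ : Set Mx} (h0 : Cnds Ψ₀) {θ ξ : Ordinal.{0}} (hθ : IsSuccLimit θ)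
    (hξ : IsSuccLimit ξ) (hθξ : θ < ξ) (hF : ∀ Z ∈ F, Z ⊆ θ.toZFSet) {g : ZFSet.{0}}
    (hg : g ⊆ KS F θ) (hgξ : g ∈ KS F ξ) : ∃ η < ξ, g ∈ KS F η ∧ Onto F θ ξ η := by
  rcases exists_lim hθ hξ hθξ hgξ with h1 | ⟨ζ, hζ, hθζ, hζξ, h1, h2⟩
  · exact ⟨θ, hθξ, h1, onto_id hθ hξ hθξ⟩
  · have h3 : Onto F θ ξ ζ := by
      rcases hθζ.lt_or_eq with h4 | rfl
      · exact ontoS_mono (add_omega_le hξ hζξ) (onto_new h0 hθ hζ h4 hF hg h1 h2)
      · exact onto_id hθ hξ hθξ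
    have h4 : ∀ n : ℕ, ζ + n < ξ ∧ Onto F θ ξ (ζ + n) := by
      intro n
      induction n with
      | zero => simpa using ⟨hζξ, h3⟩
      | succ n ih =>
        have h5 := hξ.succ_lt ih.1
        have h6 := onto_succ hθ hξ hθξ ih.1 ih.2
        rw [Order.succ_eq_add_one, add_assoc] at h5
        rw [add_assoc] at h6
        have h7 : ((n + 1 : ℕ) : Ordinal.{0}) = (n : Ordinal.{0}) + 1 := by push_cast; rfl
        rw [h7]
        exact ⟨h5, h6⟩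
    obtain ⟨η, hη, h5⟩ := (ks_limit (isSuccLimit_add_omega ζ)).1 h2
    obtain ⟨n, hn⟩ : ∃ n : ℕ, η ≤ ζ + n := by
      rcases le_or_gt η ζ with h6 | h6
      · exact ⟨0, by simpa using h6⟩
      · obtain ⟨δ, rfl⟩ := exists_add_of_le h6.le
        have h7 : δ < Ordinal.omega0 := by
          exact (add_lt_add_iff_left ζ).1 hη
        obtain ⟨n, rfl⟩ := Ordinal.lt_omega0.1 h7
        exact ⟨n, le_rfl⟩
    exact ⟨ζ + n, (h4 n).1, ks_mono hn h5, (h4 n).2⟩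

end Pool.Agent.helper797_cs
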