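import Pool.Agent.helper797_cs.MDefs
import Pool.Agent.helper797_cs.PK1

/-! # KU: bounded separation with a uniform bound for the level -/

set_option autoImplicit false
namespace Pool.Agent.helper797_cs
open Pool.Agent.W868 Pool.Agent.R587
open ZFSet (pair)
open Cardinal Order

section

variable {F : ZFSet.{0}} {ζ : Ordinal.{0}}

theorem PKU_le {m m' : ℕ} (h : m ≤ m') : KS F (ζ + m) ⊆ KS F (ζ + m') :=
  ks_mono (by gcongr)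

theorem PKU_zero {x : ZFSet.{0}} (h : x ∈ KS F ζ) (m : ℕ) : x ∈ KS F (ζ + m) :=
  ks_mono (by simp) h

theorem PKU_self : KS F ζ ∈ KS F (ζ + (1 : ℕ)) := by
  have h := PK1_self_mem (F := F) (ξ := ζ)
  simpa using h

theorem PKU_five (m : ℕ) : ζ + m + 1 + 1 + 1 + 1 + 1 = ζ + ((m + 5 : ℕ) : Ordinal.{0}) := by
  push_cast
  simp only [add_assoc]
  norm_num

/-- The basic operations, counting levels. -/
theorem PKU_op {i m : ℕ} (hi : i < 10) {a b : ZFSet.{0}} (ha : a ∈ KS F (ζ + m))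
    (hb : b ∈ KS F (ζ + m)) : ∃ y ∈ KS F (ζ + (m + 5 : ℕ)), ∀ u, u ∈ y ↔ GR ∅ i u a b := by
  have hup : ∀ {x}, x ∈ KS F (ζ + m) → x ∈ KS F (ζ + m + 1 + 1 + 1 + 1) := fun hx =>
    PK1_sub_succ (PK1_sub_succ (PK1_sub_succ (PK1_sub_succ hx)))
  refine ⟨ZFSet.sep (fun u => GR ∅ i u a b) (KS F (ζ + m + 1 + 1 + 1 + 1)), ?_, fun u => ?_⟩
  · rw [← PKU_five]
    exact PK1_op_mem hi (ZFSet.mem_insert_of_mem _ (hup ha)) (ZFSet.mem_insert_of_mem _ (hup hb))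
  · rw [ZFSet.mem_sep]
    exact ⟨fun h => h.2, fun h => ⟨PK1_GR_bound ha hb i hi h, h⟩⟩

theorem PKU_op2 {i m m' : ℕ} (hi : i < 10) {a b : ZFSet.{0}} (ha : a ∈ KS F (ζ + m))
    (hb : b ∈ KS F (ζ + m')) :
    ∃ y ∈ KS F (ζ + (m + m' + 5 : ℕ)), ∀ u, u ∈ y ↔ GR ∅ i u a b :=
  PKU_op hi (PKU_le (Nat.le_add_right m m') ha) (PKU_le (Nat.le_add_left m' m) hb)

theorem PKU_empty : ∅ ∈ KS F (ζ + (7 : ℕ)) := by
  obtain ⟨y, hy, h⟩ := PKU_op2 (i := 3) (by omega) (PKU_self (F := F) (ζ := ζ)) PKU_self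
  have h1 : y = ∅ := by
    rw [ZFSet.eq_empty]
    intro u hu
    have h2 := (h u).1 hu
    exact h2.2 h2.1
  exact h1 ▸ hy

theorem PKU_upair {m : ℕ} {a b : ZFSet.{0}} (ha : a ∈ KS F (ζ + m)) (hb : b ∈ KS F (ζ + m)) :
    ({a, b} : ZFSet.{0}) ∈ KS F (ζ + (m + 1 : ℕ)) := by
  have h := PK1_upair ha hb
  have e : ζ + ((m + 1 : ℕ) : Ordinal.{0}) = ζ + m + 1 := by
    push_cast
    rw [add_assoc]
  rwa [e]

theorem PKU_single {m : ℕ} {a : ZFSet.{0}} (ha : a ∈ KS F (ζ + m)) :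
    ({a} : ZFSet.{0}) ∈ KS F (ζ + (m + 1 : ℕ)) := by
  have h := PKU_upair ha ha
  rwa [ZFSet.pair_eq_singleton] at h

theorem PKU_pair {m : ℕ} {a b : ZFSet.{0}} (ha : a ∈ KS F (ζ + m)) (hb : b ∈ KS F (ζ + m)) :
    pair a b ∈ KS F (ζ + (m + 1 + 1 : ℕ)) := PKU_upair (PKU_single ha) (PKU_upair ha hb)

theorem PKU_diff {m m' : ℕ} {a b : ZFSet.{0}} (ha : a ∈ KS F (ζ + m)) (hb : b ∈ KS F (ζ + m')) :
    a \ b ∈ KS F (ζ + (m + m' + 5 : ℕ)) := by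
  obtain ⟨y, hy, h⟩ := PKU_op2 (i := 3) (by omega) ha hb
  have h1 : y = a \ b := by
    ext u
    rw [h, ZFSet.mem_sdiff]
    rfl
  exact h1 ▸ hy

theorem PKU_inter {m m' : ℕ} {a b : ZFSet.{0}} (ha : a ∈ KS F (ζ + m)) (hb : b ∈ KS F (ζ + m')) :
    a ∩ b ∈ KS F (ζ + (m + (m + m' + 5) + 5 : ℕ)) := by
  have h := PKU_diff ha (PKU_diff ha hb)
  have h1 : a \ (a \ b) = a ∩ b := by
    ext u
    simp only [ZFSet.mem_sdiff, ZFSet.mem_inter]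
    tauto
  exact h1 ▸ h

theorem PKU_prod {m m' : ℕ} {a b : ZFSet.{0}} (ha : a ∈ KS F (ζ + m)) (hb : b ∈ KS F (ζ + m')) :
    ZFSet.prod a b ∈ KS F (ζ + (m + m' + 5 : ℕ)) := by
  obtain ⟨y, hy, h⟩ := PKU_op2 (i := 4) (by omega) ha hb
  have h1 : y = ZFSet.prod a b := by
    ext u
    rw [h, ZFSet.mem_prod]
    rfl
  exact h1 ▸ hy

end

/-- The set of all tuples. -/
theorem PKU_pows : ∀ n : ℕ, ∃ m : ℕ, ∀ (F : ZFSet.{0}) (ζ : Ordinal.{0}),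
    ∃ P ∈ KS F (ζ + m), ∀ p, p ∈ P ↔ ∃ v, IsTup (KS F ζ) n p v
  | 0 => by
    refine ⟨7 + 1, fun F ζ => ⟨{∅}, PKU_single PKU_empty, fun p => ?_⟩⟩
    rw [ZFSet.mem_singleton]
    constructor
    · rintro rfl
      exact ⟨Fin.elim0, fun i => i.elim0, rfl⟩
    · rintro ⟨v, -, rfl⟩
      rfl
  | n + 1 => by
    obtain ⟨m, hm⟩ := PKU_pows n
    refine ⟨1 + m + 5, fun F ζ => ?_⟩
    obtain ⟨P, hP, h⟩ := hm F ζ
    refine ⟨_, PKU_prod PKU_self hP, fun p => ?_⟩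
    have h1 := isTup_succ (X := KS F ζ) (p := p) (n := n) (Q := fun _ => True)
    simp only [and_true] at h1
    rw [h1, ZFSet.mem_prod]
    constructor
    · rintro ⟨x, hx, q, hq, h2⟩
      exact ⟨x, hx, q, h2, (h q).1 hq⟩
    · rintro ⟨x, hx, q, h2, hq⟩
      exact ⟨x, hx, q, (h q).2 hq, h2⟩

/-- The graph of a variable. -/
theorem PKU_var : ∀ (n : ℕ) (i : Fin n), ∃ m : ℕ, ∀ (F : ZFSet.{0}) (ζ : Ordinal.{0}),
    ∃ I ∈ KS F (ζ + m), ∀ q, q ∈ I ↔ ∃ p v, q = pair (v i) p ∧ IsTup (KS F ζ) n p v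
  | 0, i => i.elim0
  | n + 1, i => by
    refine Fin.cases ?_ (fun i => ?_) i
    · obtain ⟨m, hm⟩ := PKU_pows n
      refine ⟨1 + m + 5, fun F ζ => ?_⟩
      obtain ⟨P, hP, h⟩ := hm F ζ
      obtain ⟨y, hy, h'⟩ := PKU_op2 (i := 7) (by omega) (PKU_self (F := F) (ζ := ζ)) hP
      refine ⟨y, hy, fun q => ?_⟩
      rw [h']
      constructor
      · rintro ⟨x, hx, r, hr, c, d, rfl, rfl, rfl⟩
        obtain ⟨v, hv, rfl⟩ := (h r).1 hr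
        refine ⟨_, Fin.cons c v, rfl, fun i => ?_, rfl⟩
        refine Fin.cases ?_ (fun i => ?_) i
        · exact hx
        · exact hv i
      · rintro ⟨p, v, rfl, hv, rfl⟩
        exact ⟨v 0, hv 0, tup (Fin.tail v), (h _).2 ⟨_, fun i => hv _, rfl⟩, _, _, rfl, rfl, rfl⟩
    · obtain ⟨m, hm⟩ := PKU_var n i
      refine ⟨1 + m + 5, fun F ζ => ?_⟩
      obtain ⟨I, hI, h⟩ := hm F ζ
      obtain ⟨y, hy, h'⟩ := PKU_op2 (i := 8) (by omega) (PKU_self (F := F) (ζ := ζ)) hI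
      refine ⟨y, hy, fun q => ?_⟩
      rw [h']
      constructor
      · rintro ⟨z, hz, p, hp, x, r, rfl, c, d, rfl, rfl, rfl⟩
        obtain ⟨p', v, h1, hv, rfl⟩ := (h _).1 hp
        obtain ⟨rfl, rfl⟩ := ZFSet.pair_inj.1 h1
        refine ⟨_, Fin.cons z v, rfl, fun i => ?_, rfl⟩
        refine Fin.cases ?_ (fun i => ?_) i
        · exact hz
        · exact hv i
      · rintro ⟨p, v, rfl, hv, rfl⟩
        exact ⟨v 0, hv 0, pair (Fin.tail v i) (tup (Fin.tail v)),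
          (h _).2 ⟨_, _, rfl, fun i => hv _, rfl⟩, _, _, rfl, _, _, rfl, rfl, rfl⟩

theorem PKU_term {n : ℕ} (s : Fin n ⊕ Empty) : ∃ m : ℕ, ∀ (F : ZFSet.{0}) (ζ : Ordinal.{0}),
    ∃ I ∈ KS F (ζ + m), ∀ q, q ∈ I ↔ ∃ p v, q = pair (Sum.elim v Empty.elim s) p ∧
      IsTup (KS F ζ) n p v := by
  cases s with
  | inl i => exact PKU_var n i
  | inr a => exact a.elim

/-- The set of the tuples that satisfy a formula. -/
theorem PKU_sat : {n : ℕ} → (φ : Fml Empty n) → ∃ m : ℕ, ∀ (F : ZFSet.{0}) (ζ : Ordinal.{0}),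
    ∃ D ∈ KS F (ζ + m), ∀ p, p ∈ D ↔ ∃ v, IsTup (KS F ζ) n p v ∧
      Sat {x | x ∈ KS F ζ} Empty.elim φ v
  | n, .mem s t => by
    obtain ⟨m1, hm1⟩ := PKU_term s
    obtain ⟨m2, hm2⟩ := PKU_term t
    refine ⟨m1 + m2 + 5, fun F ζ => ?_⟩
    obtain ⟨I, hI, h1⟩ := hm1 F ζ
    obtain ⟨J, hJ, h2⟩ := hm2 F ζ
    obtain ⟨y, hy, h'⟩ := PKU_op2 (i := 9) (by omega) hI hJ
    refine ⟨y, hy, fun p => ?_⟩
    rw [h']
    constructor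
    · rintro ⟨q, hq, q', hq', a, r, rfl, rfl, a', r', rfl, rfl, h3⟩
      obtain ⟨p, v, h4, hv, rfl⟩ := (h1 _).1 hq
      obtain ⟨p', v', h5, hv', rfl⟩ := (h2 _).1 hq'
      obtain ⟨rfl, rfl⟩ := ZFSet.pair_inj.1 h4
      obtain ⟨rfl, h6⟩ := ZFSet.pair_inj.1 h5
      obtain rfl := tup_inj h6
      exact ⟨v, ⟨hv, rfl⟩, h3⟩
    · rintro ⟨v, hv, h3⟩
      exact ⟨_, (h1 _).2 ⟨p, v, rfl, hv⟩, _, (h2 _).2 ⟨p, v, rfl, hv⟩, _, _, rfl, rfl, _, _, rfl,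
        rfl, h3⟩
  | n, .eq s t => by
    obtain ⟨m1, hm1⟩ := PKU_term s
    obtain ⟨m2, hm2⟩ := PKU_term t
    refine ⟨(m1 + (m1 + m2 + 5) + 5) + m1 + 5, fun F ζ => ?_⟩
    obtain ⟨I, hI, h1⟩ := hm1 F ζ
    obtain ⟨J, hJ, h2⟩ := hm2 F ζ
    obtain ⟨y, hy, h'⟩ := PKU_op2 (i := 5) (by omega) (PKU_inter hI hJ) hI
    refine ⟨y, hy, fun p => ?_⟩
    rw [h']
    constructor
    · rintro ⟨q, hq, a, r, rfl, rfl⟩
      rw [ZFSet.mem_inter] at hq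
      obtain ⟨p, v, h4, hv, rfl⟩ := (h1 _).1 hq.1
      obtain ⟨p', v', h5, hv', rfl⟩ := (h2 _).1 hq.2
      obtain ⟨rfl, rfl⟩ := ZFSet.pair_inj.1 h4
      obtain ⟨h7, h6⟩ := ZFSet.pair_inj.1 h5
      obtain rfl := tup_inj h6
      exact ⟨v, ⟨hv, rfl⟩, h7⟩
    · rintro ⟨v, hv, h3⟩
      refine ⟨pair (Sum.elim v Empty.elim s) p, ZFSet.mem_inter.2 ⟨(h1 _).2 ⟨p, v, rfl, hv⟩, ?_⟩,
        _, _, rfl, rfl⟩
      have h4 : Sum.elim v Empty.elim s = Sum.elim v Empty.elim t := h3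
      rw [h4]
      exact (h2 _).2 ⟨p, v, rfl, hv⟩
  | n, .neg φ => by
    obtain ⟨m1, hm1⟩ := PKU_pows n
    obtain ⟨m2, hm2⟩ := PKU_sat φ
    refine ⟨m1 + m2 + 5, fun F ζ => ?_⟩
    obtain ⟨P, hP, h1⟩ := hm1 F ζ
    obtain ⟨D, hD, h2⟩ := hm2 F ζ
    refine ⟨_, PKU_diff hP hD, fun p => ?_⟩
    rw [ZFSet.mem_sdiff, h1, h2]
    constructor
    · rintro ⟨⟨v, hv⟩, h3⟩
      exact ⟨v, hv, fun h4 => h3 ⟨v, hv, h4⟩⟩
    · rintro ⟨v, hv, h3⟩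
      refine ⟨⟨v, hv⟩, ?_⟩
      rintro ⟨v', hv', h4⟩
      obtain rfl := tup_inj (hv.2.symm.trans hv'.2)
      exact h3 h4
  | n, .and φ ψ => by
    obtain ⟨m1, hm1⟩ := PKU_sat φ
    obtain ⟨m2, hm2⟩ := PKU_sat ψ
    refine ⟨m1 + (m1 + m2 + 5) + 5, fun F ζ => ?_⟩
    obtain ⟨D, hD, h1⟩ := hm1 F ζ
    obtain ⟨E, hE, h2⟩ := hm2 F ζ
    refine ⟨_, PKU_inter hD hE, fun p => ?_⟩
    rw [ZFSet.mem_inter, h1, h2]
    constructor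
    · rintro ⟨⟨v, hv, h3⟩, ⟨v', hv', h4⟩⟩
      obtain rfl := tup_inj (hv.2.symm.trans hv'.2)
      exact ⟨v, hv, h3, h4⟩
    · rintro ⟨v, hv, h3, h4⟩
      exact ⟨⟨v, hv, h3⟩, ⟨v, hv, h4⟩⟩
  | n, .ex φ => by
    obtain ⟨m1, hm1⟩ := PKU_sat φ
    refine ⟨m1 + 5, fun F ζ => ?_⟩
    obtain ⟨D, hD, h1⟩ := hm1 F ζ
    obtain ⟨y, hy, h'⟩ := PKU_op (i := 5) (by omega) hD hD
    refine ⟨y, hy, fun p => ?_⟩
    rw [h']
    constructor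
    · rintro ⟨q, hq, a, r, rfl, rfl⟩
      obtain ⟨a', ha, q, h2, w, hw, h3⟩ := isTup_succ.1 ((h1 _).1 hq)
      obtain ⟨rfl, rfl⟩ := ZFSet.pair_inj.1 h2
      exact ⟨w, hw, a, ha, h3⟩
    · rintro ⟨v, hv, a, ha, h3⟩
      exact ⟨pair a p, (h1 _).2 (isTup_succ.2 ⟨a, ha, p, rfl, v, hv, h3⟩), _, _, rfl, rfl⟩

theorem PKU_tup : ∀ n : ℕ, ∃ m : ℕ, ∀ (F : ZFSet.{0}) (ζ : Ordinal.{0}) (v : Fin n → ZFSet.{0}),
    (∀ i, v i ∈ KS F ζ) → tup v ∈ KS F (ζ + m)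
  | 0 => ⟨7, fun F ζ v _ => PKU_empty⟩
  | n + 1 => by
    obtain ⟨m, hm⟩ := PKU_tup n
    exact ⟨m + 1 + 1, fun F ζ v hv => PKU_pair (PKU_zero (hv 0) m) (hm F ζ _ fun i => hv _)⟩

/-- All subsets of `KS F ζ` defined by a fixed formula are in `KS F (ζ + m)` for a fixed `m`. -/
theorem fml_sep_unif {n : ℕ} (φ : Fml Empty (n + 1)) :
    ∃ m : ℕ, ∀ (F : ZFSet.{0}) (ζ : Ordinal.{0}) (v : Fin n → ZFSet.{0}),
      (∀ i, v i ∈ KS F ζ) →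
      ZFSet.sep (fun z => Sat {x | x ∈ KS F ζ} Empty.elim φ (Fin.cons z v)) (KS F ζ) ∈
        KS F (ζ + m) := by
  obtain ⟨m1, hm1⟩ := PKU_sat φ
  obtain ⟨m2, hm2⟩ := PKU_tup n
  refine ⟨(m1 + (m1 + (1 + (m2 + 1) + 5) + 5) + 5) + 5, fun F ζ v hv => ?_⟩
  obtain ⟨D, hD, h1⟩ := hm1 F ζ
  have ht := hm2 F ζ v hv
  have hT := PKU_inter hD (PKU_prod (PKU_self (F := F) (ζ := ζ)) (PKU_single ht))
  obtain ⟨y, hy, h'⟩ := PKU_op (i := 6) (by omega) hT hT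
  have e : ZFSet.sep (fun z => Sat {x | x ∈ KS F ζ} Empty.elim φ (Fin.cons z v)) (KS F ζ) = y := by
    ext z
    rw [ZFSet.mem_sep, h']
    constructor
    · rintro ⟨hz, h3⟩
      refine ⟨pair z (tup v), ZFSet.mem_inter.2 ⟨(h1 _).2 (isTup_succ.2 ⟨z, hz, tup v, rfl, v,
        ⟨hv, rfl⟩, h3⟩), ?_⟩, _, _, rfl, rfl⟩
      exact ZFSet.pair_mem_prod.2 ⟨hz, ZFSet.mem_singleton.2 rfl⟩
    · rintro ⟨p, hp, a, r, rfl, rfl⟩
      obtain ⟨h2, h3⟩ := ZFSet.mem_inter.1 hp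
      obtain ⟨a', ha, q, h4, w, hw, h5⟩ := isTup_succ.1 ((h1 _).1 h2)
      obtain ⟨rfl, rfl⟩ := ZFSet.pair_inj.1 h4
      have h6 := ZFSet.mem_singleton.1 (ZFSet.pair_mem_prod.1 h3).2
      obtain rfl := tup_inj (hw.2.symm.trans h6)
      exact ⟨ha, h5⟩
  rw [e]
  exact hy

/-- Bounded formulas as formulas of set theory. -/
def PKU_tr : {n : ℕ} → Fo n → Fml Empty n
  | _, .mem i j => .mem (Sum.inl i) (Sum.inl j)
  | _, .eq i j => .eq (Sum.inl i) (Sum.inl j)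
  | _, .pF i => .eq (Sum.inl i) (Sum.inl i)
  | _, .lt i j => .eq (Sum.inl i) (Sum.inl j)
  | _, .lv i j => .eq (Sum.inl i) (Sum.inl j)
  | _, .neg φ => .neg (PKU_tr φ)
  | _, .and φ ψ => .and (PKU_tr φ) (PKU_tr ψ)
  | _, .ex φ => .ex (PKU_tr φ)
  | _, .bex i φ => .ex (.and (.mem (Sum.inl 0) (Sum.inl i.succ)) (PKU_tr φ))

theorem PKU_sat_tr (𝔄 : Stc) : {n : ℕ} → (φ : Fo n) → φ.IsD0 → (v : Fin n → ZFSet.{0}) →
    (Sat 𝔄.A Empty.elim (PKU_tr φ) v ↔ φ.Sat 𝔄 v)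
  | _, .mem _ _, _, _ => Iff.rfl
  | _, .eq _ _, _, _ => Iff.rfl
  | _, .pF _, h, _ => h.elim
  | _, .lt _ _, h, _ => h.elim
  | _, .lv _ _, h, _ => h.elim
  | _, .neg φ, h, v => not_congr (PKU_sat_tr 𝔄 φ h v)
  | _, .and φ ψ, h, v => and_congr (PKU_sat_tr 𝔄 φ h.1 v) (PKU_sat_tr 𝔄 ψ h.2 v)
  | _, .ex _, h, _ => h.elim
  | _, .bex i φ, h, v => by
    refine exists_congr fun a => and_congr_right fun _ => and_congr Iff.rfl ?_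
    exact PKU_sat_tr 𝔄 φ h (Fin.cons a v)

theorem db_sep_unif {n : ℕ} {R : (Fin (n + 1) → ZFSet.{0}) → Prop} (h : DB R) :
    ∃ m : ℕ, ∀ (F : ZFSet.{0}) (ζ : Ordinal.{0}) (v : Fin n → ZFSet.{0}) (d : ZFSet.{0}),
      (∀ i, v i ∈ KS F ζ) → d ∈ KS F ζ →
      ZFSet.sep (fun z => R (Fin.cons z v)) d ∈ KS F (ζ + m) := by
  have h2 : DB fun w : Fin (n + 1 + 1) → ZFSet.{0} => w 0 ∈ w 1 ∧
      R (fun i => w ((Fin.cons 0 fun j : Fin n => j.succ.succ : Fin (n + 1) → Fin (n + 1 + 1)) i)) :=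
    DB.and (DB.mem (D0v.proj 0) (D0v.proj 1)) (h.comp _)
  obtain ⟨φ, h0, hφ⟩ := h2
  obtain ⟨m, hm⟩ := fml_sep_unif (PKU_tr φ)
  refine ⟨m, fun F ζ v d hv hd => ?_⟩
  have hw : ∀ i, (Fin.cons d v : Fin (n + 1) → ZFSet.{0}) i ∈ KS F ζ := by
    intro i
    refine Fin.cases ?_ (fun i => ?_) i
    · exact hd
    · exact hv i
  have h3 := hm F ζ (Fin.cons d v) hw
  have e : ZFSet.sep (fun z => Sat {x | x ∈ KS F ζ} Empty.elim (PKU_tr φ)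
      (Fin.cons z (Fin.cons d v : Fin (n + 1) → ZFSet.{0}))) (KS F ζ) =
      ZFSet.sep (fun z => R (Fin.cons z v)) d := by
    ext z
    rw [ZFSet.mem_sep, ZFSet.mem_sep]
    have key : ∀ z ∈ KS F ζ, (Sat {x | x ∈ KS F ζ} Empty.elim (PKU_tr φ)
        (Fin.cons z (Fin.cons d v : Fin (n + 1) → ZFSet.{0})) ↔ z ∈ d ∧ R (Fin.cons z v)) := by
      intro z hz
      have h4 := PKU_sat_tr (KA F ζ) φ h0 (Fin.cons z (Fin.cons d v : Fin (n + 1) → ZFSet.{0}))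
      refine h4.trans ?_
      have h5 := hφ (KA F ζ) (ks_trans ζ) (Fin.cons z (Fin.cons d v : Fin (n + 1) → ZFSet.{0})) (by
        intro i
        refine Fin.cases ?_ (fun i => ?_) i
        · exact hz
        · exact hw i)
      refine h5.trans ?_
      have e1 : (fun i => (Fin.cons z (Fin.cons d v : Fin (n + 1) → ZFSet.{0}) :
          Fin (n + 1 + 1) → ZFSet.{0}) ((Fin.cons 0 fun j : Fin n => j.succ.succ :
            Fin (n + 1) → Fin (n + 1 + 1)) i)) = (Fin.cons z v : Fin (n + 1) → ZFSet.{0}) := by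
        funext i
        refine Fin.cases ?_ (fun i => ?_) i
        · rfl
        · simp only [Fin.cons_succ]
      beta_reduce
      rw [e1]
      rfl
    constructor
    · rintro ⟨hz, h4⟩
      exact (key z hz).1 h4
    · rintro ⟨hz, h4⟩
      have hz' := ks_trans ζ d hd z hz
      exact ⟨hz', (key z hz').2 ⟨hz, h4⟩⟩
  rwa [e] at h3

/-- Non-uniform version for the limit levels. -/
theorem db_sep {n : ℕ} {R : (Fin (n + 1) → ZFSet.{0}) → Prop} (h : DB R) {F : ZFSet.{0}}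
    {ξ : Ordinal.{0}} (hξ : IsSuccLimit ξ) {v : Fin n → ZFSet.{0}} {d : ZFSet.{0}}
    (hv : ∀ i, v i ∈ KS F ξ) (hd : d ∈ KS F ξ) :
    ZFSet.sep (fun z => R (Fin.cons z v)) d ∈ KS F ξ := by
  obtain ⟨m, hm⟩ := db_sep_unif h
  have h1 : ∀ i, ∃ η < ξ, v i ∈ KS F η := fun i => (ks_limit hξ).1 (hv i)
  choose η hη hvη using h1
  obtain ⟨δ, hδ, hd⟩ := (ks_limit hξ).1 hd
  have hsup : Finset.univ.sup η < ξ := (Finset.sup_lt_iff hξ.bot_lt).2 fun i _ => hη i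
  have hmax : max (Finset.univ.sup η) δ < ξ := max_lt hsup hδ
  have hadd : ∀ (k : ℕ) (α : Ordinal.{0}), α < ξ → α + k < ξ := by
    intro k
    induction k with
    | zero => intro α h; simpa using h
    | succ k ih =>
      intro α h
      push_cast
      rw [← add_assoc]
      exact PK1_limit_succ hξ (ih α h)
  refine (ks_limit hξ).2 ⟨_, hadd m _ hmax, hm F _ v d (fun i => ?_) ?_⟩
  · exact ks_mono ((Finset.le_sup (Finset.mem_univ i)).trans (le_max_left _ _)) (hvη i)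
  · exact ks_mono (le_max_right _ _) hd

end Pool.Agent.helper797_cs
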