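import Pool.Agent.helper797_cs.PK7

/-! # M0: elements of `R_i` -/

set_option autoImplicit false
namespace Pool.Agent.helper797_cs
open Pool.Agent.W868 Pool.Agent.R587
open ZFSet (pair)
open Cardinal Order

variable {F : ZFSet.{0}} {θ δ : Ordinal.{0}} (J : IT F θ δ)

theorem rl_ex {i ξ : Ordinal.{0}} (hi : i < θ) (hξδ : ξ < δ) (hξ : IsSuccLimit ξ)
    (hξi : ξ.toZFSet ∈ J.Rl i) {n : ℕ} (φ : Fo (n + 1)) (v : Fin n → ZFSet.{0})
    (hv : ∀ j, v j ∈ J.Rl i ∧ v j ∈ KS F ξ)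
    (h : ∃ z ∈ KS F ξ, φ.Sat (KA F ξ) (Fin.cons z v)) :
    ∃ z, z ∈ J.Rl i ∧ z ∈ KS F ξ ∧ φ.Sat (KA F ξ) (Fin.cons z v) := by
  have h1 : (Fo.ex φ).Sat (KA F ξ) v := h
  have h2 := (J.elem i hi ξ hξδ hξ hξi (.ex φ) v hv).2 h1
  obtain ⟨a, ha, h3⟩ := h2
  refine ⟨a, ha.1, ha.2, ?_⟩
  refine (J.elem i hi ξ hξδ hξ hξi φ (Fin.cons a v) ?_).1 h3
  intro j
  refine Fin.cases ?_ (fun j => ?_) j
  · exact ha
  · exact hv j

/-- Elements that are definable from elements of `R_i` are in `R_i`. -/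
theorem rl_uniq {i ξ : Ordinal.{0}} (hi : i < θ) (hξδ : ξ < δ) (hξ : IsSuccLimit ξ)
    (hξi : ξ.toZFSet ∈ J.Rl i) {n : ℕ} (φ : Fo (n + 1)) (v : Fin n → ZFSet.{0})
    (hv : ∀ j, v j ∈ J.Rl i ∧ v j ∈ KS F ξ) {z : ZFSet.{0}} (hz : z ∈ KS F ξ)
    (h : ∀ z' ∈ KS F ξ, (φ.Sat (KA F ξ) (Fin.cons z' v) ↔ z' = z)) : z ∈ J.Rl i := by
  obtain ⟨y, h1, h2, h3⟩ := rl_ex J hi hξδ hξ hξi φ v hv ⟨z, hz, (h z hz).2 rfl⟩
  rw [(h y h2).1 h3] at h1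
  exact h1

theorem PM0_db {i ξ : Ordinal.{0}} (hi : i < θ) (hξδ : ξ < δ) (hξ : IsSuccLimit ξ)
    (hξi : ξ.toZFSet ∈ J.Rl i) {n : ℕ} {R : (Fin (n + 1) → ZFSet.{0}) → Prop} (hR : DB R)
    (v : Fin n → ZFSet.{0})
    (hv : ∀ j, v j ∈ J.Rl i ∧ v j ∈ KS F ξ) {z : ZFSet.{0}} (hz : z ∈ KS F ξ)
    (h : ∀ z' ∈ KS F ξ, (R (Fin.cons z' v) ↔ z' = z)) : z ∈ J.Rl i := by
  obtain ⟨φ, -, hφ⟩ := hR
  refine rl_uniq J hi hξδ hξ hξi φ v hv hz fun z' hz' => ?_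
  rw [← h z' hz']
  refine hφ (KA F ξ) (ks_trans ξ) _ fun j => ?_
  refine Fin.cases ?_ (fun j => ?_) j
  · exact hz'
  · exact (hv j).2

theorem PM0_empty {i : Ordinal.{0}} (hi : i < θ) : (∅ : ZFSet.{0}) ∈ J.Rl i :=
  J.low i hi ∅ (ks_gd (J.cr_lim i hi)).empty_mem

theorem PM0_lt {x y ξ : Ordinal.{0}} (h : x.toZFSet ∈ KS F ξ) (h' : ξ ≤ y) : x < y :=
  (ks_ord_le h).trans_le h'

theorem PM0_fst {ξ : Ordinal.{0}} {x : ZFSet.{0}}
    (h : IsSuccLimit ξ) (hx : x ∈ KS F ξ) : fs x ∈ KS F ξ ∧ sn x ∈ KS F ξ := by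
  have h1 := ka_clsd (F := F) h ∅
  exact ⟨h1.fst x hx, h1.snd x hx⟩

theorem PM0_fs {x : ZFSet.{0}} (h : ¬ ∃ a b, x = pair a b) : fs x = ∅ ∧ sn x = ∅ := by
  rw [fs, sn, dif_neg h, dif_neg h]
  exact ⟨rfl, rfl⟩

theorem rl_pair {i ξ : Ordinal.{0}} (hi : i < θ) (hξδ : ξ < δ) (hξ : IsSuccLimit ξ)
    (hξi : ξ.toZFSet ∈ J.Rl i) {x y : ZFSet.{0}} (hx : x ∈ J.Rl i ∧ x ∈ KS F ξ)
    (hy : y ∈ J.Rl i ∧ y ∈ KS F ξ) : pair x y ∈ J.Rl i ∧ pair x y ∈ KS F ξ := by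
  have hp : pair x y ∈ KS F ξ := (ka_clsd (F := F) hξ ∅).pr x hx.2 y hy.2
  refine ⟨?_, hp⟩
  have hR : DB fun w : Fin 3 → ZFSet.{0} => w 0 = pair (w 1) (w 2) :=
    DB.isPair (D0v.proj 0) (D0v.proj 1) (D0v.proj 2)
  refine PM0_db J hi hξδ hξ hξi (n := 2) hR ![x, y] ?_ hp ?_
  · intro j
    fin_cases j
    · exact hx
    · exact hy
  · intro z' _
    exact Iff.rfl

theorem PM0_rl_fst {i ξ : Ordinal.{0}} (hi : i < θ) (hξδ : ξ < δ) (hξ : IsSuccLimit ξ)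
    (hξi : ξ.toZFSet ∈ J.Rl i) {x : ZFSet.{0}} (hx : x ∈ J.Rl i ∧ x ∈ KS F ξ) :
    (fs x ∈ J.Rl i ∧ fs x ∈ KS F ξ) ∧ (sn x ∈ J.Rl i ∧ sn x ∈ KS F ξ) := by
  obtain ⟨h1, h2⟩ := PM0_fst hξ hx.2
  refine ⟨⟨?_, h1⟩, ⟨?_, h2⟩⟩
  · by_cases h : ∃ a b, x = pair a b
    · obtain ⟨a, b, rfl⟩ := h
      rw [fs_pair] at h1 ⊢
      have hR : DB fun w : Fin 2 → ZFSet.{0} => ∃ x y, w 1 = pair x y ∧ w 0 = x :=
        DB.expair (Q := fun x y w => w 0 = x) (D0v.proj 1) (DB.eq (D0v.proj 2) (D0v.proj 1))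
      refine PM0_db J hi hξδ hξ hξi (n := 1) hR ![pair a b] ?_ h1 ?_
      · intro j
        fin_cases j
        exact hx
      · intro z' _
        constructor
        · rintro ⟨x, y, h3, h4⟩
          have h5 : pair a b = pair x y := h3
          have h6 : z' = x := h4
          rw [h6]
          exact (ZFSet.pair_inj.1 h5).1.symm
        · rintro rfl
          exact ⟨z', b, rfl, rfl⟩
    · rw [(PM0_fs h).1]
      exact PM0_empty J hi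
  · by_cases h : ∃ a b, x = pair a b
    · obtain ⟨a, b, rfl⟩ := h
      rw [sn_pair] at h2 ⊢
      have hR : DB fun w : Fin 2 → ZFSet.{0} => ∃ x y, w 1 = pair x y ∧ w 0 = y :=
        DB.expair (Q := fun x y w => w 0 = y) (D0v.proj 1) (DB.eq (D0v.proj 2) (D0v.proj 0))
      refine PM0_db J hi hξδ hξ hξi (n := 1) hR ![pair a b] ?_ h2 ?_
      · intro j
        fin_cases j
        exact hx
      · intro z' _
        constructor
        · rintro ⟨x, y, h3, h4⟩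
          have h5 : pair a b = pair x y := h3
          have h6 : z' = y := h4
          rw [h6]
          exact (ZFSet.pair_inj.1 h5).2.symm
        · rintro rfl
          exact ⟨a, z', rfl, rfl⟩
    · rw [(PM0_fs h).2]
      exact PM0_empty J hi

theorem PM0_lv {i ξ : Ordinal.{0}} (hi : i < θ) (hξδ : ξ < δ) (hξ : IsSuccLimit ξ)
    (hξi : ξ.toZFSet ∈ J.Rl i) {x : ZFSet.{0}} (hx : x ∈ J.Rl i ∧ x ∈ KS F ξ) :
    lvl F x ∈ J.Rl i ∧ lvl F x ∈ KS F ξ := by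
  have h1 : lvl F x ∈ KS F ξ := (ka_clsd (F := F) hξ ∅).lv x hx.2
  refine ⟨?_, h1⟩
  refine rl_uniq J hi hξδ hξ hξi (n := 1) (.lv 1 0) ![x] ?_ h1 ?_
  · intro j
    fin_cases j
    exact hx
  · intro z' _
    constructor
    · intro h
      exact Eq.symm h
    · intro h
      exact Eq.symm h

theorem PM0_sk {i ξ : Ordinal.{0}} (hi : i < θ) (hξδ : ξ < δ) (hξ : IsSuccLimit ξ)
    (hξi : ξ.toZFSet ∈ J.Rl i) {n : ℕ} (φ : Fo (n + 1)) (v : Fin n → ZFSet.{0})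
    (hv : ∀ j, v j ∈ J.Rl i ∧ v j ∈ KS F ξ) :
    (KA F ξ).sk φ v ∈ J.Rl i ∧ (KA F ξ).sk φ v ∈ KS F ξ := by
  have h1 : (KA F ξ).sk φ v ∈ KS F ξ :=
    (ka_clsd (F := F) hξ Set.univ).sk ⟨n, φ⟩ trivial v fun j => (hv j).2
  refine ⟨?_, h1⟩
  by_cases h : ∃ a ∈ (KA F ξ).A, φ.Sat (KA F ξ) (Fin.cons a v) ∧
    ∀ b ∈ (KA F ξ).A, φ.Sat (KA F ξ) (Fin.cons b v) → ¬ (KA F ξ).lt b a
  · have h2 : (KA F ξ).sk φ v = h.choose := by
      rw [Stc.sk, dif_pos h]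
    rw [h2] at h1 ⊢
    obtain ⟨h3, h4, h5⟩ := h.choose_spec
    have key : ∀ z' : ZFSet.{0}, (Fo.and φ (.neg (.ex (.and
        (φ.rn (Fin.cons 0 fun i => i.succ.succ)) (.lt 0 1))))).Sat (KA F ξ) (Fin.cons z' v) ↔
        φ.Sat (KA F ξ) (Fin.cons z' v) ∧
        ∀ b ∈ (KA F ξ).A, φ.Sat (KA F ξ) (Fin.cons b v) → ¬ (KA F ξ).lt b z' := by
      intro z'
      simp only [Fo.Sat, sat_rn]
      have h6 : ∀ b : ZFSet.{0}, (fun k => (Fin.cons b (Fin.cons z' v) : Fin (n + 2) → ZFSet.{0})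
          ((Fin.cons 0 fun i => i.succ.succ : Fin (n + 1) → Fin (n + 2)) k)) = Fin.cons b v := by
        intro b
        funext k
        refine Fin.cases ?_ (fun k => ?_) k
        · rfl
        · rfl
      simp only [h6]
      refine and_congr_right fun _ => ?_
      constructor
      · intro h7 b hb hb1 hb2
        exact h7 ⟨b, hb, hb1, hb2⟩
      · rintro h7 ⟨b, hb, hb1, hb2⟩
        exact h7 b hb hb1 hb2
    refine rl_uniq J hi hξδ hξ hξi _ v hv h1 fun z' hz' => (key z').trans ?_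
    constructor
    · rintro ⟨h6, h7⟩
      rcases kw_total (F := F) ξ hz' h3 with h8 | h8 | h8
      · exact h8
      · exact absurd h8 (h5 z' hz' h6)
      · exact absurd h8 (h7 _ h3 h4)
    · rintro rfl
      exact ⟨h4, h5⟩
  · have h2 : (KA F ξ).sk φ v = ∅ := by
      rw [Stc.sk, dif_neg h]
    rw [h2]
    exact PM0_empty J hi

theorem rl_ev {i ξ : Ordinal.{0}} (hi : i < θ) (hξδ : ξ < δ) (hξ : IsSuccLimit ξ)
    (hξi : ξ.toZFSet ∈ J.Rl i) {Ψ : Set Mx} {t : Tm}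
    (ht : t.Over Ψ {x | x ∈ J.Rl i ∧ x ∈ KS F ξ}) {x : ZFSet.{0}} (hx : x ∈ J.Rl i)
    (hxξ : x ∈ KS F ξ) : t.ev (KA F ξ) x ∈ J.Rl i ∧ t.ev (KA F ξ) x ∈ KS F ξ := by
  induction t with
  | var => exact ⟨hx, hxξ⟩
  | cst a => exact ht
  | pr s t ihs iht => exact rl_pair J hi hξδ hξ hξi (ihs ht.1) (iht ht.2)
  | fst t ih => exact (PM0_rl_fst J hi hξδ hξ hξi (ih ht)).1
  | snd t ih => exact (PM0_rl_fst J hi hξδ hξ hξi (ih ht)).2
  | lv t ih => exact PM0_lv J hi hξδ hξ hξi (ih ht)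
  | sk n φ ts ih => exact PM0_sk J hi hξδ hξ hξi φ _ fun j => ih j (ht.2 j)

/-- Elements of `S_θ` in `R_i` are in `S_{cr i}`: the least level that has `x` as an element is
definable from `x`. -/
theorem rl_S {i ξ : Ordinal.{0}} (hi : i < θ) (hξδ : ξ < δ) (hξ : IsSuccLimit ξ) (hθξ : θ < ξ)
    (hξi : ξ.toZFSet ∈ J.Rl i) {x : ZFSet.{0}} (hx : x ∈ J.Rl i) (hxS : x ∈ KS F θ) :
    x ∈ KS F (J.cr i) := by
  have hxξ : x ∈ KS F ξ := ks_mono hθξ.le hxS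
  obtain ⟨η, hη, h1, h2, h3⟩ := lvl_eq hxS
  have hηθ : η < θ := by
    rcases hη.lt_or_eq with h | h
    · exact h
    · exfalso
      rw [ks_limit J.hθ] at hxS
      obtain ⟨ζ, hζ, hx'⟩ := hxS
      exact h2 ζ (h ▸ hζ) hx'
  obtain ⟨h4, h5⟩ := PM0_lv J hi hξδ hξ hξi ⟨hx, hxξ⟩
  rw [h3] at h4 h5
  have hηξ : η.toZFSet ∈ KS F ξ := (ks_ord hξ).2 (hηθ.trans hθξ)
  have h6 : η.toZFSet ∈ J.Rl i := by
    have hR : DB fun w : Fin 2 → ZFSet.{0} => (w 0).IsOrdinal ∧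
        (∃ p ∈ w 1, ∃ a b, p = pair a b ∧ w 0 = a) ∧
        ∀ p ∈ w 1, ∃ a b, p = pair a b ∧ (a = w 0 ∨ a ∈ w 0) := by
      (repeat' first
        | assumption
        | exact D0v.proj _
        | apply DB.not | apply DB.and | apply DB.expair | apply DB.or | apply DB.isPair
        | apply DB.pairMem
        | apply DB.bex | apply DB.ball | apply DB.imp | apply DB.iff | apply DB.subset
        | apply DB.eq | apply DB.mem | apply DB.isOrdinal)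
    refine PM0_db J hi hξδ hξ hξi (n := 1) hR ![sq F η] ?_ hηξ ?_
    · intro j
      fin_cases j
      exact ⟨h4, h5⟩
    · intro z' _
      have e0 : ∀ (a b : ZFSet.{0}), pair a b ∈ sq F η ↔ a ∈ insert η.toZFSet η.toZFSet ∧
        b = Eh F a := fun a b => pair_mem_gr
      constructor
      · rintro ⟨h7, ⟨p, hp, a, b, hp1, hp2⟩, h9⟩
        have hp3 : pair a b ∈ sq F η := hp1 ▸ hp
        have hp4 : z' = a := hp2
        have h7' : z'.IsOrdinal := h7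
        have h10 := ((e0 a b).1 hp3).1
        rw [← hp4] at h10
        have h11 : pair η.toZFSet (Eh F η.toZFSet) ∈ sq F η :=
          (e0 _ _).2 ⟨ZFSet.mem_insert _ _, rfl⟩
        obtain ⟨a', b', h12, h13⟩ := h9 _ h11
        have h14 : η.toZFSet = z' ∨ η.toZFSet ∈ z' := by
          rw [(ZFSet.pair_inj.1 h12).1]
          exact h13
        rcases ZFSet.mem_insert_iff.1 h10 with h | h
        · exact h
        · rcases h14 with h' | h'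
          · exact h'.symm
          · exact absurd h' (ZFSet.mem_asymm h)
      · rintro rfl
        refine ⟨ZFSet.isOrdinal_toZFSet η, ⟨pair η.toZFSet (Eh F η.toZFSet),
          (e0 _ _).2 ⟨ZFSet.mem_insert _ _, rfl⟩, _, _, rfl, rfl⟩, ?_⟩
        intro p hp
        have hp' : p ∈ gr (Eh F) (insert η.toZFSet η.toZFSet) := hp
        obtain ⟨u, hu, rfl⟩ := mem_gr.1 hp'
        exact ⟨u, _, rfl, ZFSet.mem_insert_iff.1 hu⟩
  have h7 : η < J.cr i := (J.ord i hi η hηθ).1 h6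
  exact ks_mono h7.le h1

/-- Tuples of critical points below `i` are in `R_i`. -/
theorem rl_Tp {i ζ ξ : Ordinal.{0}} (hi : i < θ) (hξδ : ξ < δ) (hξ : IsSuccLimit ξ)
    (hθξ : θ < ξ) (hξi : ξ.toZFSet ∈ J.Rl i) {x : ZFSet.{0}} (hx : Tp (Cp J ζ i) x) :
    x ∈ J.Rl i ∧ x ∈ KS F (J.cr i) := by
  have hc := J.cr_lt i hi
  induction hx with
  | base h =>
    obtain ⟨j, -, hj, rfl⟩ := h
    refine ⟨?_, (ks_ord (J.cr_lim i hi)).2 (J.cr_mono j i hj hi)⟩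
    exact J.mono (j + 1) i (Order.add_one_le_of_lt hj) hi (J.cr_mem j (hj.trans hi))
  | pr _ _ ihx ihy =>
    have h1 := ks_mono (F := F) (hc.trans hθξ).le
    refine ⟨(rl_pair J hi hξδ hξ hξi ⟨ihx.1, h1 ihx.2⟩ ⟨ihy.1, h1 ihy.2⟩).1, ?_⟩
    exact (ka_clsd (F := F) (J.cr_lim i hi) ∅).pr _ ihx.2 _ ihy.2

/-- All critical points are in the tail of a set in `F`. -/
theorem tail' {i : Ordinal.{0}} (hi : i < θ) {Z : ZFSet.{0}} (hZ : Z ∈ J.Rl i)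
    (hZF : Z ∈ F) : ∀ j, i ≤ j → j < θ → (J.cr j).toZFSet ∈ Z := by
  intro j hj hjθ
  exact (J.tail j hjθ Z (J.mono i j hj hjθ hZ) (J.Fsub Z hZF)).2 hZF

/-- Sets that contain infinitely many `ν_k` are in `F`. -/
theorem mem_F_of_nu {Z : ZFSet.{0}} (hZ : Z ∈ KS F δ) (hZs : Z ⊆ θ.toZFSet)
    (h : ∀ k, ∃ l ≥ k, (J.nu l).toZFSet ∈ Z) : Z ∈ F := by
  obtain ⟨i, hi, h1⟩ := J.cov Z hZ
  obtain ⟨k, hk⟩ := J.nu_cof i hi
  obtain ⟨l, hl, h2⟩ := h k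
  have h3 : i ≤ J.nu l := hk.le.trans (J.nu_mono.monotone hl)
  refine (J.tail (J.nu l) (J.nu_lt l) Z (J.mono i _ h3 (J.nu_lt l) h1) hZs).1 ?_
  rw [J.nu_cr]
  exact h2

/-- The ordinals are cut by the critical points. -/
theorem exists_cut {ζ α : Ordinal.{0}} (hζ : ζ < θ) (hα : α < θ) (h : J.cr ζ ≤ α) :
    ∃ i, ζ ≤ i ∧ i < θ ∧ J.cr i ≤ α ∧ α < J.cr (i + 1) := by
  obtain ⟨k, hk⟩ := J.nu_cof α hα
  have hne : ∃ j, j < θ ∧ α < J.cr j := ⟨J.nu k, J.nu_lt k, by rw [J.nu_cr]; exact hk⟩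
  obtain ⟨j, ⟨hj, hjα⟩, hmin⟩ : ∃ j, (j < θ ∧ α < J.cr j) ∧
      ∀ j', j' < θ ∧ α < J.cr j' → j ≤ j' := by
    refine ⟨sInf {j | j < θ ∧ α < J.cr j}, csInf_mem hne, fun j' hj' => csInf_le' hj'⟩
  have hmin' : ∀ j' < j, J.cr j' ≤ α := fun j' hj' => by
    by_contra h1
    exact absurd (hmin j' ⟨hj'.trans hj, not_le.1 h1⟩) (not_le.2 hj')
  have hζj : ζ < j := by
    by_contra h1
    rcases (not_lt.1 h1).lt_or_eq with h2 | h2
    · exact absurd (hjα.trans (J.cr_mono j ζ h2 hζ)) (not_lt.2 h)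
    · rw [h2] at hjα
      exact absurd hjα (not_lt.2 h)
  rcases Ordinal.zero_or_succ_or_isSuccLimit j with h1 | ⟨i, h1⟩ | h1
  · rw [h1] at hζj
    exact absurd hζj (not_lt.2 zero_le)
  · have hij : i < j := h1 ▸ Order.lt_succ i
    refine ⟨i, ?_, hij.trans hj, hmin' i hij, ?_⟩
    · rw [← h1] at hζj
      exact Order.lt_succ_iff.1 hζj
    · have h2 : i + 1 = j := h1
      rw [h2]
      exact hjα
  · obtain ⟨j', hj', h2⟩ := J.cr_cont j hj h1 α hjα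
    exact absurd h2 (not_lt.2 (hmin' j' hj'))

end Pool.Agent.helper797_cs
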