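import Pool.Agent.helper797_cs.PK7
import Pool.Agent.helper797_cs.PK4

/-! # M1: the choice of the finite set of matrices (beginning of the proof of C2) -/

set_option autoImplicit false
namespace Pool.Agent.helper797_cs
open Pool.Agent.W868 Pool.Agent.R587
open ZFSet (pair)
open Cardinal Order

variable {F : ZFSet.{0}}

/-- The size of a formula, such that the matrices in it have smaller size. -/
def PM1_sz : {n : ℕ} → Fo n → ℕ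
  | _, .mem _ _ => 1
  | _, .eq _ _ => 1
  | _, .pF _ => 1
  | _, .lt _ _ => 1
  | _, .lv _ _ => 1
  | _, .neg φ => PM1_sz φ + 1
  | _, .and φ ψ => PM1_sz φ + PM1_sz ψ + 1
  | _, .ex φ => PM1_sz φ + 1
  | _, .bex _ φ => PM1_sz φ + 3

theorem PM1_in_diff {Ψ : Set Mx} {ψ : Mx} : {n : ℕ} → (φ : Fo n) → φ.In Ψ →
    PM1_sz φ ≤ PM1_sz ψ.2 → φ.In (Ψ \ {ψ})
  | _, .mem _ _, _, _ => trivial
  | _, .eq _ _, _, _ => trivial
  | _, .pF _, _, _ => trivial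
  | _, .lt _ _, _, _ => trivial
  | _, .lv _ _, _, _ => trivial
  | _, .neg φ, h, hs => PM1_in_diff φ h (by simp only [PM1_sz] at hs; omega)
  | _, .and φ χ, h, hs =>
    ⟨PM1_in_diff φ h.1 (by simp only [PM1_sz] at hs; omega),
      PM1_in_diff χ h.2 (by simp only [PM1_sz] at hs; omega)⟩
  | n, .ex φ, h, hs => by
    refine ⟨⟨h.1, ?_⟩, PM1_in_diff φ h.2 (by simp only [PM1_sz] at hs; omega)⟩
    intro he
    rw [Set.mem_singleton_iff] at he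
    rw [← he] at hs
    simp only [PM1_sz] at hs
    omega
  | n, .bex i φ, h, hs => by
    refine ⟨⟨h.1, ?_⟩, PM1_in_diff φ h.2 (by simp only [PM1_sz] at hs; omega)⟩
    intro he
    rw [Set.mem_singleton_iff] at he
    rw [← he] at hs
    simp only [PM1_sz] at hs
    omega

/-- Minimal finite closed set for which `PB` fails. -/
theorem exists_min {Ψ₀ Ψ' : Set Mx} (h0 : Ψ₀.Finite) (hc0 : Cl Ψ₀) (h1 : Ψ'.Finite)
    (hc1 : Cl Ψ') (hsub : Ψ₀ ⊆ Ψ') {P : Set Mx → Prop} (hP : P Ψ₀) (hP' : ¬ P Ψ') :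
    ∃ Ψ : Set Mx, Ψ.Finite ∧ Cl Ψ ∧ Ψ₀ ⊆ Ψ ∧ P Ψ ∧
      ∃ ψ : Mx, ψ.2.In Ψ ∧ ¬ P (insert ψ Ψ) := by
  have _ := h0
  induction hk : Ψ'.ncard using Nat.strong_induction_on generalizing Ψ' with
  | _ k ih =>
  have hne : (Ψ' \ Ψ₀).Nonempty := by
    rw [Set.nonempty_iff_ne_empty]
    intro he
    rw [Set.sdiff_eq_empty] at he
    exact hP' ((hsub.antisymm he) ▸ hP)
  obtain ⟨ψ, hψ, hmax⟩ := Set.exists_max_image (Ψ' \ Ψ₀) (fun ψ : Mx => PM1_sz ψ.2)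
    (h1.subset Set.sdiff_subset) hne
  have hcl : Cl (Ψ' \ {ψ}) := by
    intro χ hχ
    by_cases h2 : χ ∈ Ψ₀
    · refine in_mono ?_ (hc0 χ h2)
      intro x hx
      refine ⟨hsub hx, ?_⟩
      intro hx'
      rw [Set.mem_singleton_iff] at hx'
      exact hψ.2 (hx' ▸ hx)
    · exact PM1_in_diff χ.2 (hc1 χ hχ.1) (hmax χ ⟨hχ.1, h2⟩)
  have hsub' : Ψ₀ ⊆ Ψ' \ {ψ} := by
    intro x hx
    refine ⟨hsub hx, ?_⟩
    intro hx'
    rw [Set.mem_singleton_iff] at hx'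
    exact hψ.2 (hx' ▸ hx)
  by_cases h3 : P (Ψ' \ {ψ})
  · refine ⟨Ψ' \ {ψ}, h1.subset Set.sdiff_subset, hcl, hsub', h3, ψ,
      PM1_in_diff ψ.2 (hc1 ψ hψ.1) le_rfl, ?_⟩
    rwa [Set.insert_sdiff_singleton, Set.insert_eq_of_mem hψ.1]
  · refine ih (Ψ' \ {ψ}).ncard ?_ (h1.subset Set.sdiff_subset) hcl hsub' h3 rfl
    rw [← hk]
    exact Set.ncard_sdiff_singleton_lt_of_mem hψ.1 h1

/-- The graph of a term with bounded matrices. -/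
theorem PM1_PB {Ψ₀ : Set Mx} (hb : BdM Ψ₀) {θ ξ : Ordinal.{0}}
    (hξ : IsSuccLimit ξ) (hθξ : θ < ξ) : PB F θ ξ Ψ₀ := by
  intro t ht γ hγ _
  have hG := ks_gd (F := F) hξ
  have h1 : gr (fun x => t.ev (KA F ξ) x) (KS F γ) ∈ KS F ξ :=
    ev_bdm hb hξ ht (ks_mem (hγ.trans hθξ))
  have h2 : γ.toZFSet ∈ KS F ξ := (ks_ord hξ).2 (hγ.trans hθξ)
  have h3 : ZFSet.prod (KS F γ) γ.toZFSet ∈ KS F ξ :=
    hG.prod_mem (ks_mem (hγ.trans hθξ)) h2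
  have h4 : grT F ξ t (KS F γ) γ.toZFSet =
      gr (fun x => t.ev (KA F ξ) x) (KS F γ) ∩ ZFSet.prod (KS F γ) γ.toZFSet := by
    ext p
    rw [grT, ZFSet.mem_sep, ZFSet.mem_inter, mem_gr]
    constructor
    · rintro ⟨h5, x, hx, z, hz, rfl, h6⟩
      exact ⟨⟨x, hx, by rw [h6]⟩, h5⟩
    · rintro ⟨⟨x, hx, rfl⟩, h5⟩
      refine ⟨h5, x, hx, _, ?_, rfl, rfl⟩
      rw [ZFSet.mem_prod] at h5
      obtain ⟨a, ha, b, hb', h6⟩ := h5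
      obtain ⟨rfl, rfl⟩ := ZFSet.pair_inj.1 h6
      exact hb'
  rw [h4]
  exact hG.inter_mem h1 h3

/-- The matrix of the characteristic function. -/
def PM1_mx {n : ℕ} (φ : Fo (n + 1)) : Mx :=
  ⟨n + 2, .and (.eq 0 1) (φ.rn fun i => i.succ.succ)⟩

/-- The term of the characteristic function. -/
def PM1_tm {n : ℕ} (φ : Fo (n + 1)) (c : ZFSet.{0}) (v : Fin n → ZFSet.{0}) : Tm :=
  .sk (n + 2) (.and (.eq 0 1) (φ.rn fun i => i.succ.succ))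
    (Fin.cons (.cst c) (Fin.cons .var fun i => .cst (v i)))

theorem PM1_tm_over {n : ℕ} (φ : Fo (n + 1)) {c : ZFSet.{0}} {v : Fin n → ZFSet.{0}}
    {Ψ : Set Mx} {C : Set ZFSet.{0}} (hΨ : PM1_mx φ ∈ Ψ) (hc : c ∈ C) (hv : ∀ i, v i ∈ C) :
    (PM1_tm φ c v).Over Ψ C := by
  refine ⟨hΨ, fun i => ?_⟩
  refine Fin.cases ?_ (fun i => ?_) i
  · exact hc
  · refine Fin.cases ?_ (fun i => ?_) i
    · exact trivial
    · exact hv i

theorem PM1_tm_ev {n : ℕ} (φ : Fo (n + 1)) {ξ : Ordinal.{0}} {c : ZFSet.{0}}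
    {v : Fin n → ZFSet.{0}} (hc : c ∈ KS F ξ) (x : ZFSet.{0}) :
    (φ.Sat (KA F ξ) (Fin.cons x v) → (PM1_tm φ c v).ev (KA F ξ) x = c) ∧
      (¬ φ.Sat (KA F ξ) (Fin.cons x v) → (PM1_tm φ c v).ev (KA F ξ) x = ∅) := by
  have h1 : (fun i => ((Fin.cons (.cst c) (Fin.cons .var fun i => .cst (v i)) :
      Fin (n + 2) → Tm) i).ev (KA F ξ) x) = Fin.cons c (Fin.cons x v) := by
    funext i
    refine Fin.cases ?_ (fun i => ?_) i
    · rfl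
    · refine Fin.cases ?_ (fun i => ?_) i
      · rfl
      · rfl
  have h2 : ∀ a : ZFSet.{0}, (Fo.and (.eq 0 1) (φ.rn fun i => i.succ.succ)).Sat (KA F ξ)
      (Fin.cons a (Fin.cons c (Fin.cons x v))) ↔ a = c ∧ φ.Sat (KA F ξ) (Fin.cons x v) := by
    intro a
    simp only [Fo.Sat, sat_rn]
    exact Iff.rfl
  have h3 : (PM1_tm φ c v).ev (KA F ξ) x = (KA F ξ).sk
      (Fo.and (.eq 0 1) (φ.rn fun i => i.succ.succ)) (Fin.cons c (Fin.cons x v)) := by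
    rw [PM1_tm, Tm.ev, h1]
  rw [h3, Stc.sk]
  constructor
  · intro h4
    have h5 : ∃ a ∈ (KA F ξ).A, (Fo.and (.eq 0 1) (φ.rn fun i => i.succ.succ)).Sat (KA F ξ)
        (Fin.cons a (Fin.cons c (Fin.cons x v))) ∧
        ∀ b ∈ (KA F ξ).A, (Fo.and (.eq 0 1) (φ.rn fun i => i.succ.succ)).Sat (KA F ξ)
          (Fin.cons b (Fin.cons c (Fin.cons x v))) → ¬ (KA F ξ).lt b a := by
      refine ⟨c, hc, (h2 c).2 ⟨rfl, h4⟩, ?_⟩
      intro b _ hb h6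
      obtain ⟨rfl, _⟩ := (h2 b).1 hb
      exact kw_irrefl ξ b h6
    rw [dif_pos h5]
    exact ((h2 _).1 h5.choose_spec.2.1).1
  · intro h4
    rw [dif_neg]
    rintro ⟨a, _, h5, _⟩
    exact h4 ((h2 a).1 h5).2

theorem chain {Ψ₀ : Set Mx} (h0 : Cnds Ψ₀) {θ ξ : Ordinal.{0}} (hθ : IsSuccLimit θ)
    (hξ : IsSuccLimit ξ) (hθξ : θ < ξ) {γ : Ordinal.{0}} (hγ : IsSuccLimit γ) (hγθ : γ < θ)
    {y : ZFSet.{0}} (hy : y ∈ KS F (ξ + Ordinal.omega0)) (hys : y ⊆ KS F γ)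
    (hyn : y ∉ KS F ξ) :
    ∃ Ψ : Set Mx, Ψ.Finite ∧ Cl Ψ ∧ Ψ₀ ⊆ Ψ ∧ PB F θ ξ Ψ ∧
      ∃ ψ : Mx, ψ.2.In Ψ ∧ ∃ t : Tm, t.Over (insert ψ Ψ) {x | x ∈ KS F ξ} ∧
        ∃ γ' < θ, IsSuccLimit γ' ∧ grT F ξ t (KS F γ') γ'.toZFSet ∉ KS F ξ := by
  have _ := hθ
  have hG := ks_gd (F := F) hξ
  have hγξ : γ < ξ := hγθ.trans hθξ
  have hsub : KS F γ ⊆ KS F ξ := ks_mono hγξ.le
  obtain ⟨n, φ, v, hv, hφ⟩ := mem_def hξ hy (fun z hz => hsub (hys hz))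
  have h1γ : (1 : Ordinal.{0}) < γ := by
    have h0γ : (0 : Ordinal.{0}) < γ := by simpa using hγ.bot_lt
    simpa using hγ.succ_lt h0γ
  set c : ZFSet.{0} := (1 : Ordinal.{0}).toZFSet with hc
  have hcξ : c ∈ KS F ξ := (ks_ord hξ).2 (h1γ.trans hγξ)
  have hcγ : c ∈ γ.toZFSet := Ordinal.toZFSet_mem_toZFSet_iff.2 h1γ
  have hc0 : c ≠ ∅ := by
    rw [hc, ← Ordinal.toZFSet_zero]
    intro h
    exact one_ne_zero (Ordinal.toZFSet_injective h)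
  -- the graph of the characteristic function is new
  have hgr : grT F ξ (PM1_tm φ c v) (KS F γ) γ.toZFSet ∉ KS F ξ := by
    intro h
    apply hyn
    have h1 : grT F ξ (PM1_tm φ c v) (KS F γ) γ.toZFSet ∩ ZFSet.prod (KS F γ) {c} ∈ KS F ξ :=
      hG.inter_mem h (hG.prod_mem (ks_mem hγξ) (hG.single_mem hcξ))
    obtain ⟨z, hz, h2⟩ := hG.cl 6 (by omega) _ h1 _ h1
    have h3 : z = y := by
      ext x
      rw [h2]
      constructor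
      · rintro ⟨p, hp, a, b, rfl, rfl⟩
        rw [ZFSet.mem_inter, grT, ZFSet.mem_sep, ZFSet.mem_prod] at hp
        obtain ⟨⟨_, x', hx', z', hz', h4, h5⟩, h6⟩ := hp
        obtain ⟨rfl, rfl⟩ := ZFSet.pair_inj.1 h4
        rw [ZFSet.mem_prod] at h6
        obtain ⟨x', _, z', hz', h7⟩ := h6
        obtain ⟨rfl, rfl⟩ := ZFSet.pair_inj.1 h7
        rw [ZFSet.mem_singleton] at hz'
        subst hz'
        rw [hφ _ (hsub hx')]
        by_contra h8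
        rw [(PM1_tm_ev φ hcξ x).2 h8] at h5
        exact hc0 h5.symm
      · intro hx
        have hxγ := hys hx
        have hxs := (hφ _ (hsub hxγ)).1 hx
        refine ⟨pair x c, ?_, x, c, rfl, rfl⟩
        rw [ZFSet.mem_inter, grT, ZFSet.mem_sep, ZFSet.mem_prod, ZFSet.mem_prod]
        exact ⟨⟨⟨x, hxγ, c, hcγ, rfl⟩, x, hxγ, c, hcγ, rfl, (PM1_tm_ev φ hcξ x).1 hxs⟩,
          x, hxγ, c, ZFSet.mem_singleton.2 rfl, rfl⟩
    exact h3 ▸ hz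
  obtain ⟨Ψ₁, hf1, hc1, hin1⟩ := exists_mats (PM1_mx φ).2
  have hf' : (insert (PM1_mx φ) (Ψ₀ ∪ Ψ₁)).Finite := (h0.fin.union hf1).insert _
  have hc' : Cl (insert (PM1_mx φ) (Ψ₀ ∪ Ψ₁)) := by
    rintro χ (rfl | hχ | hχ)
    · exact in_mono (fun x hx => Or.inr (Or.inr hx)) hin1
    · exact in_mono (fun x hx => Or.inr (Or.inl hx)) (h0.cl χ hχ)
    · exact in_mono (fun x hx => Or.inr (Or.inr hx)) (hc1 χ hχ)
  have hnot : ¬ PB F θ ξ (insert (PM1_mx φ) (Ψ₀ ∪ Ψ₁)) := by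
    intro h
    exact hgr (h _ (PM1_tm_over φ (Or.inl rfl) hcξ hv) γ hγθ hγ)
  obtain ⟨Ψ, h1, h2, h3, h4, ψ, h5, h6⟩ := exists_min h0.fin h0.cl hf' hc'
    (fun x hx => Or.inr (Or.inl hx)) (PM1_PB (F := F) h0.bd hξ hθξ) hnot
  refine ⟨Ψ, h1, h2, h3, h4, ψ, h5, ?_⟩
  unfold PB at h6
  push Not at h6
  obtain ⟨t, ht, γ', hγ', hl, h7⟩ := h6
  exact ⟨t, ht, γ', hγ', hl, h7⟩

end Pool.Agent.helper797_cs
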