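import Pool.Agent.helper797_cs.PM0
import Pool.Agent.helper797_cs.PK8

/-! # M2: the hull of the critical points collapses to the whole level ((i), (ii) in the proof of C2) -/

set_option autoImplicit false
namespace Pool.Agent.helper797_cs
open Pool.Agent.W868 Pool.Agent.R587
open ZFSet (pair)
open Cardinal Order

section

variable {F : ZFSet.{0}}

theorem pm2_over_mono {Ψ Ψ' : Set Mx} {C D : Set ZFSet.{0}} (hΨ : Ψ ⊆ Ψ') (hC : C ⊆ D) (t : Tm)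
    (ht : t.Over Ψ C) : t.Over Ψ' D := by
  induction t with
  | var => trivial
  | cst a => exact hC ht
  | pr s t ihs iht => exact ⟨ihs ht.1, iht ht.2⟩
  | fst t ih => exact ih ht
  | snd t ih => exact ih ht
  | lv t ih => exact ih ht
  | sk n φ ts ih => exact ⟨hΨ ht.1, fun i => ih i (ht.2 i)⟩

/-- A term has finitely many constants. -/
theorem pm2_fin_const {Ψ : Set Mx} {C : Set ZFSet.{0}} (t : Tm) (ht : t.Over Ψ C) :
    ∃ D : Set ZFSet.{0}, D.Finite ∧ D ⊆ C ∧ t.Over Ψ D := by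
  induction t with
  | var => exact ⟨∅, Set.finite_empty, Set.empty_subset _, trivial⟩
  | cst a => exact ⟨{a}, Set.finite_singleton a, Set.singleton_subset_iff.2 ht, Set.mem_singleton a⟩
  | pr s t ihs iht =>
    obtain ⟨D, h1, h2, h3⟩ := ihs ht.1
    obtain ⟨D', h1', h2', h3'⟩ := iht ht.2
    exact ⟨D ∪ D', h1.union h1', Set.union_subset h2 h2',
      pm2_over_mono subset_rfl Set.subset_union_left _ h3,
      pm2_over_mono subset_rfl Set.subset_union_right _ h3'⟩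
  | fst t ih => exact ih ht
  | snd t ih => exact ih ht
  | lv t ih => exact ih ht
  | sk n φ ts ih =>
    choose D h1 h2 h3 using fun i => ih i (ht.2 i)
    refine ⟨⋃ i, D i, Set.finite_iUnion h1, Set.iUnion_subset h2, ht.1, fun i => ?_⟩
    exact pm2_over_mono subset_rfl (Set.subset_iUnion D i) _ (h3 i)

/-- The constants after `Tm.map`. -/
theorem pm2_over_map {Ψ : Set Mx} {C D : Set ZFSet.{0}} {π : ZFSet.{0} → ZFSet.{0}}
    (hπ : ∀ a ∈ C, π a ∈ D) (t : Tm) (ht : t.Over Ψ C) : (t.map π).Over Ψ D := by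
  induction t with
  | var => trivial
  | cst a => exact hπ a ht
  | pr s t ihs iht => exact ⟨ihs ht.1, iht ht.2⟩
  | fst t ih => exact ih ht
  | snd t ih => exact ih ht
  | lv t ih => exact ih ht
  | sk n φ ts ih => exact ⟨ht.1, fun i => ih i (ht.2 i)⟩

theorem pm2_map_cons (π : ZFSet.{0} → ZFSet.{0}) {n : ℕ} (v : Fin n → ZFSet.{0}) (a : ZFSet.{0}) :
    (fun i => π ((Fin.cons a v : Fin (n + 1) → ZFSet.{0}) i)) =
      Fin.cons (π a) fun i => π (v i) := by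
  funext k
  refine Fin.cases ?_ (fun k => ?_) k
  · rfl
  · simp only [Fin.cons_succ]

/-- The Skolem functions are preserved by isomorphisms. -/
theorem pm2_iso_sk {𝔄 𝔅 : Stc} {π : ZFSet.{0} → ZFSet.{0}} (h : Iso 𝔄 𝔅 π)
    (hlv : ∀ x ∈ 𝔄.A, 𝔄.lv x ∈ 𝔄.A)
    (hlin : ∀ x ∈ 𝔄.A, ∀ y ∈ 𝔄.A, x = y ∨ 𝔄.lt x y ∨ 𝔄.lt y x) {n : ℕ} (φ : Fo (n + 1))
    {v : Fin n → ZFSet.{0}} (hv : ∀ i, v i ∈ 𝔄.A) :
    π (𝔄.sk φ v) = 𝔅.sk φ fun i => π (v i) := by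
  have key : ∀ a ∈ 𝔄.A, (φ.Sat 𝔄 (Fin.cons a v) ↔
      φ.Sat 𝔅 (Fin.cons (π a) fun i => π (v i))) := by
    intro a ha
    rw [← pm2_map_cons]
    refine iso_sat h hlv φ fun i => ?_
    refine Fin.cases ?_ (fun k => ?_) i
    · exact ha
    · exact hv k
  have key2 : ∀ a ∈ 𝔄.A, ((φ.Sat 𝔄 (Fin.cons a v) ∧
      ∀ b ∈ 𝔄.A, φ.Sat 𝔄 (Fin.cons b v) → ¬ 𝔄.lt b a) ↔
      (φ.Sat 𝔅 (Fin.cons (π a) fun i => π (v i)) ∧
      ∀ b ∈ 𝔅.A, φ.Sat 𝔅 (Fin.cons b fun i => π (v i)) → ¬ 𝔅.lt b (π a))) := by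
    intro a ha
    refine and_congr (key a ha) ⟨fun h1 b hb h2 h3 => ?_, fun h1 b hb h2 h3 => ?_⟩
    · obtain ⟨b, hb', rfl⟩ := h.surj b hb
      exact h1 b hb' ((key b hb').2 h2) ((h.lt b hb' a ha).2 h3)
    · exact h1 (π b) (h.maps b hb) ((key b hb).1 h2) ((h.lt b hb a ha).1 h3)
  unfold Stc.sk
  by_cases hA : ∃ a ∈ 𝔄.A, φ.Sat 𝔄 (Fin.cons a v) ∧
      ∀ b ∈ 𝔄.A, φ.Sat 𝔄 (Fin.cons b v) → ¬ 𝔄.lt b a
  · have hB : ∃ a ∈ 𝔅.A, φ.Sat 𝔅 (Fin.cons a fun i => π (v i)) ∧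
        ∀ b ∈ 𝔅.A, φ.Sat 𝔅 (Fin.cons b fun i => π (v i)) → ¬ 𝔅.lt b a := by
      obtain ⟨a, ha, h1⟩ := hA
      exact ⟨π a, h.maps a ha, (key2 a ha).1 h1⟩
    rw [dif_pos hA, dif_pos hB]
    obtain ⟨ha, h1⟩ := hA.choose_spec
    obtain ⟨hb, h2⟩ := hB.choose_spec
    obtain ⟨c, hc, hcb⟩ := h.surj _ hb
    rw [← hcb] at h2 ⊢
    have h3 := (key2 c hc).2 h2
    rcases hlin _ ha _ hc with h4 | h4 | h4
    · exact congrArg π h4
    · exact (h3.2 _ ha h1.1 h4).elim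
    · exact (h1.2 _ hc h3.1 h4).elim
  · have hB : ¬ ∃ a ∈ 𝔅.A, φ.Sat 𝔅 (Fin.cons a fun i => π (v i)) ∧
        ∀ b ∈ 𝔅.A, φ.Sat 𝔅 (Fin.cons b fun i => π (v i)) → ¬ 𝔅.lt b a := by
      rintro ⟨b, hb, h1⟩
      obtain ⟨a, ha, rfl⟩ := h.surj b hb
      exact hA ⟨a, ha, (key2 a ha).2 h1⟩
    rw [dif_neg hA, dif_neg hB]
    exact h.emp.2

/-- Values of terms are transported by the collapse, if the values are in the closed set. -/
theorem pm2_ev {ξ ξ' : Ordinal.{0}} {F' : ZFSet.{0}} {Ψ Ψ' : Set Mx} {X C : Set ZFSet.{0}}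
    {π : ZFSet.{0} → ZFSet.{0}} (hX : Clsd (KA F ξ) Ψ X)
    (hiso : Iso ((KA F ξ).res X) (KA F' ξ') π) (hΨ' : ∀ ψ ∈ Ψ', ψ.2.In Ψ) {x : ZFSet.{0}}
    (hsub : ∀ s : Tm, s.Over Ψ' C → s.ev (KA F ξ) x ∈ X) (t : Tm) (ht : t.Over Ψ' C) :
    π (t.ev (KA F ξ) x) = (t.map π).ev (KA F' ξ') (π x) := by
  have hlin : ∀ x ∈ X, ∀ y ∈ X, x = y ∨ pair x y ∈ KW F ξ ∨ pair y x ∈ KW F ξ :=
    fun x hx y hy => kw_total ξ (hX.sub hx) (hX.sub hy)
  induction t with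
  | var => rfl
  | cst a => rfl
  | pr s t ihs iht =>
    show π (pair (s.ev (KA F ξ) x) (t.ev (KA F ξ) x)) =
      pair ((s.map π).ev (KA F' ξ') (π x)) ((t.map π).ev (KA F' ξ') (π x))
    rw [← ihs ht.1, ← iht ht.2]
    exact hiso.pr _ (hsub s ht.1) _ (hsub t ht.2) (hX.pr _ (hsub s ht.1) _ (hsub t ht.2))
  | fst t ih =>
    show π (fs (t.ev (KA F ξ) x)) = fs ((t.map π).ev (KA F' ξ') (π x))
    rw [← ih ht]
    exact hiso.fst _ (hsub t ht)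
  | snd t ih =>
    show π (sn (t.ev (KA F ξ) x)) = sn ((t.map π).ev (KA F' ξ') (π x))
    rw [← ih ht]
    exact hiso.snd _ (hsub t ht)
  | lv t ih =>
    show π ((KA F ξ).lv (t.ev (KA F ξ) x)) = (KA F' ξ').lv ((t.map π).ev (KA F' ξ') (π x))
    rw [← ih ht]
    exact hiso.lv _ (hsub t ht)
  | sk n φ ts ih =>
    show π ((KA F ξ).sk φ fun i => (ts i).ev (KA F ξ) x) =
      (KA F' ξ').sk φ fun i => ((ts i).map π).ev (KA F' ξ') (π x)
    have h1 : (fun i => ((ts i).map π).ev (KA F' ξ') (π x)) =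
        fun i => π ((ts i).ev (KA F ξ) x) := by
      funext i
      exact (ih i (ht.2 i)).symm
    rw [h1]
    have h2 : ∀ i, (ts i).ev (KA F ξ) x ∈ X := fun i => hsub _ (ht.2 i)
    have h3 : (KA F ξ).sk φ (fun i => (ts i).ev (KA F ξ) x) ∈ X := hsub (.sk n φ ts) ht
    rw [← sk_res hX (hΨ' _ ht.1) h2 h3]
    exact pm2_iso_sk hiso hX.lv hlin φ h2

/-- The graph of a term in a limit level is in the next limit level. -/
theorem pm2_grT_mem {ξ : Ordinal.{0}} (hξ : IsSuccLimit ξ) {Ψ : Set Mx} {t : Tm}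
    (ht : t.Over Ψ {x | x ∈ KS F ξ}) {D E : ZFSet.{0}} (hD : D ∈ KS F ξ) (hE : E ∈ KS F ξ) :
    grT F ξ t D E ∈ KS F (ξ + Ordinal.omega0) := by
  obtain ⟨n, φ, v, hv, hφ⟩ := ev_def hξ (C := {x | x ∈ KS F ξ}) subset_rfl t ht
  obtain ⟨ψ, -, hψ⟩ := DB.isPair (n := n + 5) (D0v.proj 2) (D0v.proj 1) (D0v.proj 0)
  have hr : ∀ z x p : ZFSet.{0}, (fun k => (Fin.cons z (Fin.cons x (Fin.cons p (Fin.cons D
      (Fin.cons E v)))) : Fin (n + 5) → ZFSet.{0}) ((Fin.cons 0 (Fin.cons 1 fun i =>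
        i.succ.succ.succ.succ.succ) : Fin (n + 2) → Fin (n + 5)) k)) =
      Fin.cons z (Fin.cons x v) := by
    intro z x p
    funext k
    refine Fin.cases ?_ (fun k => ?_) k
    · rfl
    · refine Fin.cases ?_ (fun k => ?_) k
      · rfl
      · simp only [Fin.cons_succ]
  have hmem : ∀ z x p : ZFSet.{0}, z ∈ KS F ξ → x ∈ KS F ξ → p ∈ KS F ξ → ∀ k,
      (Fin.cons z (Fin.cons x (Fin.cons p (Fin.cons D (Fin.cons E v)))) :
        Fin (n + 5) → ZFSet.{0}) k ∈ (KA F ξ).A := by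
    intro z x p hz hx hp k
    refine Fin.cases hz (fun k => ?_) k
    refine Fin.cases hx (fun k => ?_) k
    refine Fin.cases hp (fun k => ?_) k
    refine Fin.cases hD (fun k => ?_) k
    refine Fin.cases hE (fun k => ?_) k
    exact hv k
  have h1 := def_mem (F := F) hξ
    (.ex (.and (.mem 0 2) (.ex (.and (.mem 0 4) (.and ψ (φ.rn (Fin.cons 0 (Fin.cons 1 fun i =>
        i.succ.succ.succ.succ.succ) : Fin (n + 2) → Fin (n + 5))))))) : Fo (n + 3))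
    (Fin.cons D (Fin.cons E v)) (by
      intro k
      refine Fin.cases hD (fun k => ?_) k
      refine Fin.cases hE (fun k => ?_) k
      exact hv k)
  refine (congrArg (fun y => y ∈ KS F (ξ + Ordinal.omega0)) ?_).mpr h1
  ext p
  rw [grT, ZFSet.mem_sep, ZFSet.mem_sep]
  have htr : ∀ x ∈ (KA F ξ).A, ∀ y ∈ x, y ∈ (KA F ξ).A := fun x hx y hy => ks_trans ξ x hx y hy
  constructor
  · rintro ⟨-, x, hx, z, hz, rfl, h3⟩
    have hx' := ks_trans ξ _ hD _ hx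
    have hz' := ks_trans ξ _ hE _ hz
    have hp' : pair x z ∈ KS F ξ := (ka_clsd hξ ∅).pr _ hx' _ hz'
    refine ⟨hp', x, hx', hx, z, hz', hz, ?_, ?_⟩
    · exact (hψ (KA F ξ) htr _ (hmem _ _ _ hz' hx' hp')).2 rfl
    · rw [sat_rn, hr]
      exact (hφ x hx' z hz').2 h3.symm
  · rintro ⟨hp', x, hx', hx, z, hz', hz, h3, h4⟩
    rw [sat_rn, hr] at h4
    have h5 : p = pair x z := (hψ (KA F ξ) htr _ (hmem _ _ _ hz' hx' hp')).1 h3
    have h6 := (hφ x hx' z hz').1 h4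
    refine ⟨?_, x, hx, z, hz, h5, h6.symm⟩
    rw [h5]
    exact ZFSet.pair_mem_prod.2 ⟨hx, hz⟩

/-- The image of an ordinal under the collapse is an ordinal. -/
theorem pm2_ord {X : Set ZFSet.{0}} {π : ZFSet.{0} → ZFSet.{0}}
    (coll : ∀ x ∈ X, ∀ y, y ∈ π x ↔ ∃ z ∈ X, z ∈ x ∧ y = π z) (α : Ordinal.{0})
    (hα : α.toZFSet ∈ X) : ∃ β ≤ α, π α.toZFSet = β.toZFSet := by
  induction α using Ordinal.induction with
  | h α ih =>
    have h0 : ∀ y ∈ π α.toZFSet, ∃ γ < α, γ.toZFSet ∈ X ∧ y = π γ.toZFSet := by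
      intro y hy
      obtain ⟨z, hz, h1, h2⟩ := (coll _ hα y).1 hy
      obtain ⟨γ, hγ, rfl⟩ := Ordinal.mem_toZFSet_iff.1 h1
      exact ⟨γ, hγ, hz, h2⟩
    have h1 : (π α.toZFSet).IsOrdinal := by
      rw [ZFSet.isOrdinal_iff_forall_mem_isOrdinal]
      refine ⟨fun y hy u hu => ?_, fun y hy => ?_⟩
      · obtain ⟨γ, hγ, hγX, rfl⟩ := h0 y hy
        obtain ⟨z, hz, h2, h3⟩ := (coll _ hγX u).1 hu
        refine (coll _ hα u).2 ⟨z, hz, ?_, h3⟩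
        exact (ZFSet.isOrdinal_toZFSet α).mem_trans h2 (Ordinal.toZFSet_mem_toZFSet_iff.2 hγ)
      · obtain ⟨γ, hγ, hγX, rfl⟩ := h0 y hy
        obtain ⟨β, -, hβ⟩ := ih γ hγ hγX
        rw [hβ]
        exact ZFSet.isOrdinal_toZFSet β
    refine ⟨(π α.toZFSet).rank, ?_, h1.toZFSet_rank_eq.symm⟩
    by_contra h2
    rw [not_le] at h2
    have h3 : α.toZFSet ∈ π α.toZFSet := by
      rw [← h1.toZFSet_rank_eq]
      exact Ordinal.toZFSet_mem_toZFSet_iff.2 h2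
    obtain ⟨γ, hγ, hγX, h4⟩ := h0 _ h3
    obtain ⟨β, hβ, h5⟩ := ih γ hγ hγX
    rw [h5] at h4
    have h6 : α = β := Ordinal.toZFSet_injective h4
    exact absurd hγ (not_lt.2 (h6 ▸ hβ))

/-- The elements of a level that is contained in the closed set are fixed. -/
theorem pm2_fix {X : Set ZFSet.{0}} {π : ZFSet.{0} → ZFSet.{0}}
    (coll : ∀ x ∈ X, ∀ y, y ∈ π x ↔ ∃ z ∈ X, z ∈ x ∧ y = π z) {η : Ordinal.{0}}
    (h : ∀ x ∈ KS F η, x ∈ X) : ∀ x ∈ KS F η, π x = x := by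
  intro x
  induction x using ZFSet.inductionOn with
  | _ x ih =>
    intro hx
    ext y
    rw [coll x (h x hx)]
    constructor
    · rintro ⟨z, hz, h1, rfl⟩
      rw [ih z h1 (ks_trans η x hx z h1)]
      exact h1
    · intro hy
      have h2 := ks_trans η x hx y hy
      exact ⟨y, h y h2, hy, (ih y hy h2).symm⟩

theorem pm2_add_omega {a b : Ordinal.{0}} (hb : IsSuccLimit b) (h : a < b) :
    a + Ordinal.omega0 ≤ b := by
  rw [Ordinal.add_le_iff Ordinal.omega0_ne_zero]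
  intro d hd
  obtain ⟨n, rfl⟩ := Ordinal.lt_omega0.1 hd
  clear hd
  induction n with
  | zero => simpa using h
  | succ n ih =>
    rw [Nat.cast_succ, ← add_assoc]
    exact hb.add_one_lt ih

/-- Sets of the closed set whose images are subsets of `θ` are subsets of `θ`. -/
theorem pm2_diff {Ψ : Set Mx}
    (hΨ : (⟨2, .and (.mem 0 1) (.neg (.mem 0 2))⟩ : Mx) ∈ Ψ) {ξ : Ordinal.{0}} {X : Set ZFSet.{0}}
    (hX : Clsd (KA F ξ) Ψ X) {𝔅 : Stc} {π : ZFSet.{0} → ZFSet.{0}}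
    (hiso : Iso ((KA F ξ).res X) 𝔅 π) {Z T : ZFSet.{0}} (hZ : Z ∈ X) (hT : T ∈ X)
    (h : π Z ⊆ π T) : Z ⊆ T := by
  intro a ha
  by_contra haT
  have hA : ∃ a ∈ (KA F ξ).A, Fo.Sat (KA F ξ) (.and (.mem 0 1) (.neg (.mem 0 2)) : Fo 3)
      (Fin.cons a ![Z, T]) := ⟨a, ks_trans ξ _ (hX.sub hZ) _ ha, ha, haT⟩
  have h1 := sk_spec (F := F) (ξ := ξ) (.and (.mem 0 1) (.neg (.mem 0 2)) : Fo 3) ![Z, T]
    (X := (KA F ξ).A) subset_rfl hA
  have h2 : (KA F ξ).sk (.and (.mem 0 1) (.neg (.mem 0 2)) : Fo 3) ![Z, T] ∈ X := by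
    refine hX.sk _ hΨ _ fun i => ?_
    refine Fin.cases hZ (fun i => ?_) i
    refine Fin.cases hT (fun i => ?_) i
    exact i.elim0
  have h3 : (KA F ξ).sk (.and (.mem 0 1) (.neg (.mem 0 2)) : Fo 3) ![Z, T] ∈ Z := h1.2.1.1
  have h4 : (KA F ξ).sk (.and (.mem 0 1) (.neg (.mem 0 2)) : Fo 3) ![Z, T] ∉ T := h1.2.1.2
  exact h4 ((hiso.mem _ h2 _ hT).2 (h ((hiso.mem _ h2 _ hZ).1 h3)))

end

section

variable {F : ZFSet.{0}} {θ δ : Ordinal.{0}} (J : IT F θ δ)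
include J

theorem pm2_fin_cov {P : Set ZFSet.{0}} (hP : P.Finite) (h : P ⊆ {x | x ∈ KS F δ}) :
    ∃ i < θ, P ⊆ J.Rl i := by
  induction P, hP using Set.Finite.induction_on with
  | empty => exact ⟨0, J.hθ.bot_lt, Set.empty_subset _⟩
  | insert ha hs ih =>
    obtain ⟨i, hi, h1⟩ := ih (fun x hx => h (Set.mem_insert_of_mem _ hx))
    obtain ⟨j, hj, h2⟩ := J.cov _ (h (Set.mem_insert _ _))
    exact ⟨max i j, max_lt hi hj, Set.insert_subset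
      (J.mono _ _ (le_max_right _ _) (max_lt hi hj) h2)
      (h1.trans (J.mono _ _ (le_max_left _ _) (max_lt hi hj)))⟩

theorem pm2_cr_ge {i : Ordinal.{0}} (hi : i < θ) : i ≤ J.cr i := by
  induction i using Ordinal.induction with
  | h i ih =>
    by_contra h
    rw [not_le] at h
    exact absurd (J.cr_mono (J.cr i) i h hi) (not_lt.2 (ih (J.cr i) h (h.trans hi)))

/-- Facts on the ordinals in the hull: the critical points are moved to ordinals that are not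
smaller than the index. -/
theorem pm2_cr_le {ζ : Ordinal.{0}} (hζ : ζ < θ) {X : Set ZFSet.{0}} {π : ZFSet.{0} → ZFSet.{0}}
    (coll : ∀ x ∈ X, ∀ y, y ∈ π x ↔ ∃ z ∈ X, z ∈ x ∧ y = π z)
    (hlow : ∀ x ∈ KS F (J.cr ζ), x ∈ X)
    (hcrX : ∀ j, ζ ≤ j → j < θ → (J.cr j).toZFSet ∈ X) {i : Ordinal.{0}} (hi : i < θ)
    (hζi : ζ ≤ i) {β : Ordinal.{0}} (hβ : π (J.cr i).toZFSet = β.toZFSet) : i ≤ β := by
  have hmono : ∀ x ∈ X, ∀ z ∈ X, z ∈ x → π z ∈ π x := fun x hx z hz h =>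
    (coll x hx _).2 ⟨z, hz, h, rfl⟩
  induction i using Ordinal.induction generalizing β with
  | h i ih =>
    refine le_of_forall_lt fun j hj => ?_
    rw [← Ordinal.toZFSet_mem_toZFSet_iff, ← hβ]
    rcases lt_or_ge j ζ with h1 | h1
    · have h2 : j < J.cr ζ := h1.trans_le (pm2_cr_ge J hζ)
      have h3 : j.toZFSet ∈ KS F (J.cr ζ) := (ks_ord (J.cr_lim ζ hζ)).2 h2
      rw [← pm2_fix coll hlow _ h3]
      refine hmono _ (hcrX i hζi hi) _ (hlow _ h3) ?_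
      rw [Ordinal.toZFSet_mem_toZFSet_iff]
      exact hj.trans_le (pm2_cr_ge J hi)
    · have hjθ : j < θ := hj.trans hi
      obtain ⟨β', -, h2⟩ := pm2_ord coll _ (hcrX j h1 hjθ)
      have h3 := ih j hj hjθ h1 h2
      have h4 : π (J.cr j).toZFSet ∈ π (J.cr i).toZFSet := by
        refine hmono _ (hcrX i hζi hi) _ (hcrX j h1 hjθ) ?_
        rw [Ordinal.toZFSet_mem_toZFSet_iff]
        exact J.cr_mono j i hj hi
      rw [h2, hβ, Ordinal.toZFSet_mem_toZFSet_iff] at h4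
      rw [hβ, Ordinal.toZFSet_mem_toZFSet_iff]
      exact h3.trans_lt h4

theorem pm2_fixθ {ζ : Ordinal.{0}} (hζ : ζ < θ) {X : Set ZFSet.{0}} {π : ZFSet.{0} → ZFSet.{0}}
    (coll : ∀ x ∈ X, ∀ y, y ∈ π x ↔ ∃ z ∈ X, z ∈ x ∧ y = π z)
    (hlow : ∀ x ∈ KS F (J.cr ζ), x ∈ X)
    (hcrX : ∀ j, ζ ≤ j → j < θ → (J.cr j).toZFSet ∈ X) (hθX : θ.toZFSet ∈ X) :
    π θ.toZFSet = θ.toZFSet := by
  obtain ⟨β, hβ, h⟩ := pm2_ord coll θ hθX
  rw [h]
  congr 1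
  refine le_antisymm hβ (le_of_forall_lt fun i hi => ?_)
  have hi' : max i ζ < θ := max_lt hi hζ
  obtain ⟨β', -, h2⟩ := pm2_ord coll _ (hcrX _ (le_max_right i ζ) hi')
  have h3 := pm2_cr_le J hζ coll hlow hcrX hi' (le_max_right _ _) h2
  have h4 : π (J.cr (max i ζ)).toZFSet ∈ π θ.toZFSet :=
    (coll _ hθX _).2 ⟨_, hcrX _ (le_max_right i ζ) hi',
      Ordinal.toZFSet_mem_toZFSet_iff.2 (J.cr_lt _ hi'), rfl⟩
  rw [h2, h, Ordinal.toZFSet_mem_toZFSet_iff] at h4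
  exact ((le_max_left _ _).trans h3).trans_lt h4

theorem pm2_fixν {ζ : Ordinal.{0}} (hζ : ζ < θ) {X : Set ZFSet.{0}} {π : ZFSet.{0} → ZFSet.{0}}
    (coll : ∀ x ∈ X, ∀ y, y ∈ π x ↔ ∃ z ∈ X, z ∈ x ∧ y = π z)
    (hlow : ∀ x ∈ KS F (J.cr ζ), x ∈ X)
    (hcrX : ∀ j, ζ ≤ j → j < θ → (J.cr j).toZFSet ∈ X) (k : ℕ) (hk : J.cr ζ < J.nu k) :
    (J.nu k).toZFSet ∈ X ∧ π (J.nu k).toZFSet = (J.nu k).toZFSet := by
  have h1 : ζ ≤ J.nu k := (pm2_cr_ge J hζ).trans hk.le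
  have h2 := hcrX _ h1 (J.nu_lt k)
  have h3 := J.nu_cr k
  rw [h3] at h2
  refine ⟨h2, ?_⟩
  obtain ⟨β, hβ, h⟩ := pm2_ord coll _ h2
  have h4 := pm2_cr_le J hζ coll hlow hcrX (J.nu_lt k) h1 (β := β) (by rw [h3]; exact h)
  rw [h, le_antisymm hβ h4]

/-- The agreement of `F` and `F'`, (i) in the proof of C2. -/
theorem pm2_agree {ζ ξ ξ' : Ordinal.{0}} (hξδ : ξ < δ) (hξξ : ξ' ≤ ξ) (hζ : ζ < θ)
    {Ψ : Set Mx} (hΨ : (⟨2, .and (.mem 0 1) (.neg (.mem 0 2))⟩ : Mx) ∈ Ψ)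
    {X : Set ZFSet.{0}} {π : ZFSet.{0} → ZFSet.{0}} {F' : ZFSet.{0}}
    (hX : Clsd (KA F ξ) Ψ X) (hiso : Iso ((KA F ξ).res X) (KA F' ξ') π)
    (coll : ∀ x ∈ X, ∀ y, y ∈ π x ↔ ∃ z ∈ X, z ∈ x ∧ y = π z)
    (hlow : ∀ x ∈ KS F (J.cr ζ), x ∈ X)
    (hcrX : ∀ j, ζ ≤ j → j < θ → (J.cr j).toZFSet ∈ X) (hθX : θ.toZFSet ∈ X) (η : Ordinal.{0}) :
    η ≤ ξ' → ∀ x ∈ KS F' η, (x ∈ F' ↔ x ∈ F) := by
  induction η using Ordinal.induction with
  | h η ih =>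
    intro hη x hx
    have hS : KS F' η = KS F η := (ks_congr fun ζ' h1 h2 y hy => ih ζ' h1 (h1.le.trans hη) y hy).1
    obtain ⟨Z, hZX, rfl⟩ := hiso.surj x (ks_mono hη hx)
    have hZX' : Z ∈ X := hZX
    have hZξ : Z ∈ KS F ξ := hX.sub hZX'
    have hZδ : Z ∈ KS F δ := ks_mono hξδ.le hZξ
    have hπZδ : π Z ∈ KS F δ := by
      rw [hS] at hx
      exact ks_mono ((hη.trans hξξ).trans hξδ.le) hx
    have hθ' := pm2_fixθ J hζ coll hlow hcrX hθX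
    have hFF : Z ∈ F ↔ π Z ∈ F' := hiso.F Z hZX
    have hlarge : ∀ i < θ, ∀ k, ∃ l ≥ k, i ≤ J.nu l ∧ J.cr ζ < J.nu l := by
      intro i hi k
      obtain ⟨k', hk'⟩ := J.nu_cof (max i (J.cr ζ)) (max_lt hi (J.cr_lt ζ hζ))
      have h1 : J.nu k' ≤ J.nu (max k k') := J.nu_mono.monotone (le_max_right _ _)
      exact ⟨max k k', le_max_left _ _, ((le_max_left _ _).trans hk'.le).trans h1,
        ((le_max_right _ _).trans_lt hk').trans_le h1⟩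
    rw [← hFF]
    constructor
    · intro hZF
      obtain ⟨i, hi, hZi⟩ := J.cov _ hZδ
      refine mem_F_of_nu J hπZδ ?_ fun k => ?_
      · intro y hy
        obtain ⟨z, hz, hzZ, rfl⟩ := (coll Z hZX' y).1 hy
        rw [← hθ']
        exact (coll _ hθX _).2 ⟨z, hz, J.Fsub Z hZF hzZ, rfl⟩
      · obtain ⟨l, hl, h1, h2⟩ := hlarge i hi k
        have h3 := tail' J hi hZi hZF (J.nu l) h1 (J.nu_lt l)
        rw [J.nu_cr] at h3
        obtain ⟨h4, h5⟩ := pm2_fixν J hζ coll hlow hcrX l h2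
        refine ⟨l, hl, ?_⟩
        rw [← h5]
        exact (coll _ hZX' _).2 ⟨_, h4, h3, rfl⟩
    · intro hZF
      obtain ⟨i, hi, hZi⟩ := J.cov _ hπZδ
      refine mem_F_of_nu J hZδ ?_ fun k => ?_
      · refine pm2_diff hΨ hX hiso hZX' hθX ?_
        rw [hθ']
        exact J.Fsub _ hZF
      · obtain ⟨l, hl, h1, h2⟩ := hlarge i hi k
        have h3 := tail' J hi hZi hZF (J.nu l) h1 (J.nu_lt l)
        rw [J.nu_cr] at h3
        obtain ⟨h4, h5⟩ := pm2_fixν J hζ coll hlow hcrX l h2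
        refine ⟨l, hl, ?_⟩
        rw [← h5] at h3
        exact (hiso.mem _ h4 _ hZX).2 h3

end

variable {F : ZFSet.{0}} {θ δ : Ordinal.{0}} (J : IT F θ δ)

theorem exists_stp {Ψ₀ Ψ : Set Mx} (h0 : Cnds Ψ₀) (hΨ : Ψ₀ ⊆ Ψ) (hcl : Cl Ψ)
    {ξ : Ordinal.{0}} (hξ : IsSuccLimit ξ) (hξδ : ξ < δ) (hθξ : θ < ξ) {ψ : Mx}
    (hψ : ψ.2.In Ψ) {t : Tm} (ht : t.Over (insert ψ Ψ) {x | x ∈ KS F ξ}) {γ : Ordinal.{0}}
    (hγ : IsSuccLimit γ) (hγθ : γ < θ) (hG : grT F ξ t (KS F γ) γ.toZFSet ∉ KS F ξ)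
    {P : Set ZFSet.{0}} (hP : P.Finite) (hPξ : P ⊆ {x | x ∈ KS F ξ}) :
    ∃ s : Stp J ξ Ψ, P ⊆ J.Rl s.ζ := by
  obtain ⟨C, hCf, hCξ, hCt⟩ := pm2_fin_const t ht
  have hsub : KS F ξ ⊆ KS F δ := ks_mono hξδ.le
  obtain ⟨ζ₀, hζ₀, hcov⟩ := pm2_fin_cov J (P := P ∪ C ∪ {ξ.toZFSet, θ.toZFSet, KS F θ})
    ((hP.union hCf).union (by simp)) (by
      rintro x ((hx | hx) | hx)
      · exact hsub (hPξ hx)
      · exact hsub (hCξ hx)
      · rcases hx with rfl | rfl | rfl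
        · exact (ks_ord J.hδ).2 hξδ
        · exact (ks_ord J.hδ).2 J.lt
        · exact ks_mem J.lt)
  obtain ⟨ζ, hζ₁, hγζ, hζ⟩ : ∃ ζ, ζ₀ ≤ ζ ∧ γ < ζ ∧ ζ < θ :=
    ⟨max ζ₀ (γ + 1), le_max_left _ _, (lt_add_one γ).trans_le (le_max_right _ _),
      max_lt hζ₀ (J.hθ.add_one_lt hγθ)⟩
  replace hcov := hcov.trans (J.mono _ _ hζ₁ hζ)
  have hPζ : P ⊆ J.Rl ζ := fun x hx => hcov (Or.inl (Or.inl hx))
  have hCζ : C ⊆ J.Rl ζ := fun x hx => hcov (Or.inl (Or.inr hx))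
  have hξζ : ξ.toZFSet ∈ J.Rl ζ := hcov (Or.inr (Or.inl rfl))
  have hθζ : θ.toZFSet ∈ J.Rl ζ := hcov (Or.inr (Or.inr (Or.inl rfl)))
  have hSζ : KS F θ ∈ J.Rl ζ := hcov (Or.inr (Or.inr (Or.inr rfl)))
  clear hcov hζ₁ hζ₀ ζ₀
  have hcrζ : J.cr ζ < ξ := (J.cr_lt ζ hζ).trans hθξ
  have hγcr : γ < J.cr ζ := hγζ.trans_le (pm2_cr_ge J hζ)
  -- the hull
  have hTp : ∀ x, Tp (Cp J ζ θ) x → x ∈ KS F ξ := by
    intro x hx
    induction hx with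
    | base h =>
      obtain ⟨j, -, hj, rfl⟩ := h
      exact (ks_ord hξ).2 ((J.cr_lt j hj).trans hθξ)
    | pr _ _ h1 h2 => exact (ka_clsd hξ ∅).pr _ h1 _ h2
  have hX : Clsd (KA F ξ) Ψ (HX J ξ Ψ ζ) :=
    (tm_clsd hξ Ψ (C := {x | x ∈ J.Rl ζ ∧ x ∈ KS F ξ}) (P := {x | Tp (Cp J ζ θ) x})
      (fun x hx => hx.2) hTp ⟨(J.cr ζ).toZFSet, .base ⟨ζ, le_rfl, hζ, rfl⟩⟩
      fun x hx y hy => .pr hx hy).1
  have hCX : ∀ x, x ∈ J.Rl ζ → x ∈ KS F ξ → x ∈ HX J ξ Ψ ζ := fun x h1 h2 =>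
    ⟨.cst x, ⟨h1, h2⟩, (J.cr ζ).toZFSet, .base ⟨ζ, le_rfl, hζ, rfl⟩, rfl⟩
  have hcrX : ∀ j, ζ ≤ j → j < θ → (J.cr j).toZFSet ∈ HX J ξ Ψ ζ := fun j h1 h2 =>
    ⟨.var, trivial, _, .base ⟨j, h1, h2, rfl⟩, rfl⟩
  have hX0 : Clsd (KA F ξ) Ψ₀ (HX J ξ Ψ ζ) := { hX with sk := fun ψ hψ => hX.sk ψ (hΨ hψ) }
  have hlow : ∀ x ∈ KS F (J.cr ζ), x ∈ HX J ξ Ψ ζ := fun x hx =>
    hCX x (J.low ζ hζ x hx) (ks_mono hcrζ.le hx)
  have hθX : θ.toZFSet ∈ HX J ξ Ψ ζ := hCX _ hθζ ((ks_ord hξ).2 hθξ)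
  obtain ⟨π, F', ξ', hξ', hξξ, hiso, coll, -⟩ := h0.cond F ξ hξ _ hX0
  have hfix := pm2_fix coll hlow
  have hθ' := pm2_fixθ J hζ coll hlow hcrX hθX
  have hag := pm2_agree J hξδ hξξ hζ (hΨ h0.diff) hX hiso coll hlow hcrX hθX
  have hcong := ks_congr (F := F') (F' := F) (ξ := ξ') fun ζ' h1 h2 y hy => hag ζ' h1.le y hy
  -- the height
  have hht : ξ' = ξ := by
    by_contra hne
    have hlt : ξ' < ξ := lt_of_le_of_ne hξξ hne
    have hθξ' : θ < ξ' := by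
      rw [← ks_ord hξ' (F := F'), ← hθ']
      exact hiso.maps _ hθX
    have h1 : ∀ x ∈ KS F γ, π (t.ev (KA F ξ) x) = (t.map π).ev (KA F' ξ') x ∧
        t.ev (KA F ξ) x ∈ HX J ξ Ψ ζ := by
      intro x hx
      have hx1 : x ∈ KS F (J.cr ζ) := ks_mono hγcr.le hx
      have hx2 : x ∈ KS F ξ := ks_mono hcrζ.le hx1
      have hs : ∀ s : Tm, s.Over (insert ψ Ψ) C → s.ev (KA F ξ) x ∈ HX J ξ Ψ ζ := by
        intro s hs
        obtain ⟨h2, h3⟩ := rl_ev J hζ hξδ hξ hξζ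
          (pm2_over_mono (D := {x | x ∈ J.Rl ζ ∧ x ∈ KS F ξ}) subset_rfl
            (fun a ha => ⟨hCζ ha, hCξ ha⟩) s hs) (J.low ζ hζ x hx1) hx2
        exact hCX _ h2 h3
      have h2 := pm2_ev hX hiso (Ψ' := insert ψ Ψ) (C := C) (x := x) (by
        rintro χ (rfl | hχ)
        · exact hψ
        · exact hcl χ hχ) hs t hCt
      rw [hfix x hx1] at h2
      exact ⟨h2, hs t hCt⟩
    have h2 : grT F ξ t (KS F γ) γ.toZFSet = grT F' ξ' (t.map π) (KS F γ) γ.toZFSet := by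
      ext p
      rw [grT, grT, ZFSet.mem_sep, ZFSet.mem_sep]
      refine and_congr_right fun _ => exists_congr fun x => and_congr_right fun hx =>
        exists_congr fun z => and_congr_right fun hz => and_congr_right fun _ => ?_
      obtain ⟨h3, h4⟩ := h1 x hx
      rw [← h3]
      have hz1 : z ∈ KS F (J.cr ζ) := by
        obtain ⟨α, hα, rfl⟩ := Ordinal.mem_toZFSet_iff.1 hz
        exact (ks_ord (J.cr_lim ζ hζ)).2 (hα.trans hγcr)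
      constructor
      · intro h5
        rw [h5]
        exact hfix z hz1
      · intro h5
        refine hiso.inj _ h4 _ (hlow z hz1) ?_
        rw [h5, hfix z hz1]
    have h3 : (t.map π).Over (insert ψ Ψ) {x | x ∈ KS F' ξ'} :=
      pm2_over_map (fun a ha => hiso.maps a (hCX a (hCζ ha) (hCξ ha))) t hCt
    have h4 := pm2_grT_mem hξ' h3 (D := KS F γ) (E := γ.toZFSet) (by
      rw [hcong.1]
      exact ks_mem (hγθ.trans hθξ')) ((ks_ord hξ').2 (hγθ.trans hθξ'))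
    rw [← h2, (ks_congr (F := F') (F' := F) (ξ := ξ' + Ordinal.omega0)
      fun ζ' h5 h6 y hy => hag ζ' (by
        by_contra h7
        exact absurd (pm2_add_omega h6 (not_le.1 h7)) (not_le.2 h5)) y hy).1] at h4
    exact hG (ks_mono (pm2_add_omega hξ hlt) h4)
  subst hht
  refine ⟨⟨ζ, π, hζ, hξζ, hθζ, hSζ, hX, ?_, coll, fun x hx => ⟨hlow x hx, hfix x hx⟩, ⟨hθX, hθ'⟩,
    fun k hk => (pm2_fixν J hζ coll hlow hcrX k hk).2, fun Z hZ => ?_⟩, hPζ⟩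
  · have hlv : ∀ x ∈ KS F' ξ', lvl F' x = lvl F x := fun x hx =>
      lvl_congr (F := F') (F' := F) (fun ζ' h1 h2 y hy => hag ζ' h1.le y hy) x hx hξ'
    exact
      { maps := fun x hx => by
          have := hiso.maps x hx
          change π x ∈ KS F' ξ' at this
          rw [hcong.1] at this
          exact this
        surj := fun y hy => by
          refine hiso.surj y ?_
          change y ∈ KS F' ξ'
          rw [hcong.1]
          exact hy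
        inj := hiso.inj
        mem := hiso.mem
        F := fun x hx => (hiso.F x hx).trans (hag ξ' le_rfl _ (hiso.maps x hx))
        lt := fun x hx y hy => by
          refine (hiso.lt x hx y hy).trans ?_
          change pair (π x) (π y) ∈ KW F' ξ' ↔ pair (π x) (π y) ∈ KW F ξ'
          rw [hcong.2.1]
        pr := hiso.pr
        fst := hiso.fst
        snd := hiso.snd
        lv := fun x hx => (hiso.lv x hx).trans (hlv _ (hiso.maps x hx))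
        emp := hiso.emp }
  · exact (hiso.F Z hZ).trans (hag ξ' le_rfl _ (hiso.maps Z hZ))

end Pool.Agent.helper797_cs
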