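import Pool.Agent.helper797_cs.PM0
import Pool.Agent.helper797_cs.PKU

/-! # M3: first consequences of the setup -/

set_option autoImplicit false
set_option linter.unreachableTactic false
set_option linter.unusedTactic false

namespace Pool.Agent.helper797_cs
open Pool.Agent.W868 Pool.Agent.R587
open ZFSet (pair)
open Cardinal Order

namespace PM3

/-- All elements of `g` are pairs that are obtained from `(∅, c)` by adding one to both
components, inside `g`. -/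
def Stp1 (g c : ZFSet.{0}) : Prop :=
  ∀ p ∈ g, ∃ x y, p = pair x y ∧
    (((∀ u ∈ x, ¬ u = u) ∧ y = c) ∨
      ∃ q ∈ g, ∃ x' y', q = pair x' y' ∧
        (x' ∈ x ∧ (∀ u ∈ x', u ∈ x) ∧ ∀ u ∈ x, u ∈ x' ∨ u = x') ∧
        (y' ∈ y ∧ (∀ u ∈ y', u ∈ y) ∧ ∀ u ∈ y, u ∈ y' ∨ u = y'))

theorem db_stp1 : DB fun v : Fin 3 → ZFSet.{0} => ∃ g ∈ v 1, v 0 ∈ g ∧ Stp1 g (v 2) := by
  unfold Stp1
  (repeat' first
    | assumption
    | exact D0v.proj _
    | apply DB.not | apply DB.and | apply DB.expair | apply DB.or | apply DB.isPair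
    | apply DB.bex | apply DB.ball | apply DB.imp | apply DB.iff
    | apply DB.eq | apply DB.mem)

theorem insert_of {x' x : ZFSet.{0}}
    (h : x' ∈ x ∧ (∀ u ∈ x', u ∈ x) ∧ ∀ u ∈ x, u ∈ x' ∨ u = x') : x = insert x' x' := by
  ext u
  rw [ZFSet.mem_insert_iff]
  constructor
  · intro hu
    rcases h.2.2 u hu with h1 | h1
    · exact Or.inr h1
    · exact Or.inl h1
  · rintro (rfl | h1)
    · exact h.1
    · exact h.2.1 u h1

theorem of_insert (x' : ZFSet.{0}) :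
    x' ∈ (insert x' x' : ZFSet.{0}) ∧ (∀ u ∈ x', u ∈ (insert x' x' : ZFSet.{0})) ∧
      ∀ u ∈ (insert x' x' : ZFSet.{0}), u ∈ x' ∨ u = x' := by
  refine ⟨ZFSet.mem_insert _ _, fun u hu => ZFSet.mem_insert_of_mem _ hu, fun u hu => ?_⟩
  rcases ZFSet.mem_insert_iff.1 hu with h1 | h1
  · exact Or.inr h1
  · exact Or.inl h1

/-- The elements of such a set. -/
theorem stp1_elim {g : ZFSet.{0}} {c : Ordinal.{0}} (h : Stp1 g c.toZFSet) :
    ∀ x y : ZFSet.{0}, pair x y ∈ g → ∃ n : ℕ, x = nat n ∧ y = (c + n).toZFSet := by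
  intro x
  induction x using ZFSet.inductionOn with
  | _ x ih =>
    intro y hp
    obtain ⟨x1, y1, h1, h2⟩ := h _ hp
    obtain ⟨rfl, rfl⟩ := ZFSet.pair_inj.1 h1
    rcases h2 with ⟨h3, h4⟩ | ⟨q, hq, x', y', rfl, h3, h4⟩
    · refine ⟨0, ?_, ?_⟩
      · show x = ∅
        rw [ZFSet.eq_empty]
        intro u hu
        exact h3 u hu rfl
      · rw [h4]
        simp
    · obtain ⟨n, hn, hy'⟩ := ih x' h3.1 y' hq
      refine ⟨n + 1, ?_, ?_⟩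
      · rw [insert_of h3, hn]
        rfl
      · rw [insert_of h4, hy', Nat.cast_add, Nat.cast_one, ← add_assoc,
          Ordinal.toZFSet_add_one]

/-- There is such a set that contains the pair number `n`. -/
theorem stp1_exists {F : ZFSet.{0}} {ν c : Ordinal.{0}} (hν : IsSuccLimit ν) (hc : c < ν)
    (hω : Ordinal.omega0 ≤ ν) (n : ℕ) :
    ∃ g ∈ KS F ν, pair (nat n) (c + n).toZFSet ∈ g ∧ Stp1 g c.toZFSet := by
  have hg : Gd ∅ {x | x ∈ KS F ν} := ks_gd hν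
  have hcn : ∀ n : ℕ, c + n < ν := by
    intro n
    induction n with
    | zero => simpa using hc
    | succ n ih =>
      rw [Nat.cast_add, Nat.cast_one, ← add_assoc]
      exact hν.add_one_lt ih
  have hpr : ∀ n : ℕ, pair (nat n) (c + n).toZFSet ∈ KS F ν := by
    intro n
    have h1 : nat n ∈ KS F ν := by
      rw [nat_eq, ks_ord hν]
      exact lt_of_lt_of_le (Ordinal.natCast_lt_omega0 n) hω
    have h2 : (c + n).toZFSet ∈ KS F ν := (ks_ord hν).2 (hcn n)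
    exact hg.upair_mem (hg.single_mem h1) (hg.upair_mem h1 h2)
  induction n with
  | zero =>
    refine ⟨{pair (nat 0) (c + (0 : ℕ)).toZFSet}, hg.single_mem (hpr 0),
      ZFSet.mem_singleton.2 rfl, ?_⟩
    intro p hp
    refine ⟨nat 0, (c + (0 : ℕ)).toZFSet, ZFSet.mem_singleton.1 hp, Or.inl ⟨?_, by simp⟩⟩
    intro u hu
    exact absurd hu (ZFSet.notMem_empty u)
  | succ n ih =>
    obtain ⟨g, hgm, hpg, hs⟩ := ih
    have hm : insert (pair (nat (n + 1)) (c + ((n + 1 : ℕ) : Ordinal.{0})).toZFSet) g ∈ KS F ν := by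
      have h1 : insert (pair (nat (n + 1)) (c + ((n + 1 : ℕ) : Ordinal.{0})).toZFSet) g =
          ZFSet.sUnion {{pair (nat (n + 1)) (c + ((n + 1 : ℕ) : Ordinal.{0})).toZFSet}, g} := by
        ext u
        rw [ZFSet.mem_sUnion, ZFSet.mem_insert_iff]
        constructor
        · rintro (h | h)
          · exact ⟨_, ZFSet.mem_pair.2 (Or.inl rfl), ZFSet.mem_singleton.2 h⟩
          · exact ⟨_, ZFSet.mem_pair.2 (Or.inr rfl), h⟩
        · rintro ⟨z, hz, hu⟩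
          rcases ZFSet.mem_pair.1 hz with rfl | rfl
          · exact Or.inl (ZFSet.mem_singleton.1 hu)
          · exact Or.inr hu
      rw [h1]
      exact hg.sUnion_mem (hg.upair_mem (hg.single_mem (hpr (n + 1))) hgm)
    refine ⟨_, hm, ZFSet.mem_insert _ _, ?_⟩
    intro p hp
    rcases ZFSet.mem_insert_iff.1 hp with rfl | hp
    · refine ⟨_, _, rfl, Or.inr ⟨_, ZFSet.mem_insert_of_mem _ hpg, nat n, (c + n).toZFSet, rfl,
        ?_, ?_⟩⟩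
      · exact of_insert (nat n)
      · have h1 : (c + ((n + 1 : ℕ) : Ordinal.{0})).toZFSet =
            insert (c + n).toZFSet (c + n).toZFSet := by
          rw [Nat.cast_add, Nat.cast_one, ← add_assoc, Ordinal.toZFSet_add_one]
        rw [h1]
        exact of_insert _
    · obtain ⟨x, y, h1, h2⟩ := hs p hp
      refine ⟨x, y, h1, ?_⟩
      rcases h2 with h2 | ⟨q, hq, h3⟩
      · exact Or.inl h2
      · exact Or.inr ⟨q, ZFSet.mem_insert_of_mem _ hq, h3⟩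

/-- `ν` regular and not `ω`: then `ν ≠ c + ω`. -/
theorem add_omega_lt {F : ZFSet.{0}} {ξ ν c : Ordinal.{0}} (hξ : IsSuccLimit ξ) (hνξ : ν < ξ)
    (hων : Ordinal.omega0 < ν) (hc : c < ν) (h : ARg F ξ ν) : c + Ordinal.omega0 < ν := by
  have hcn : ∀ n : ℕ, c + n < ν := by
    intro n
    induction n with
    | zero => simpa using hc
    | succ n ih =>
      rw [Nat.cast_add, Nat.cast_one, ← add_assoc]
      exact h.1.add_one_lt ih
  have hle : c + Ordinal.omega0 ≤ ν := by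
    by_contra hlt
    push Not at hlt
    obtain ⟨a, ha, h1⟩ := (Ordinal.lt_add_iff Ordinal.omega0_ne_zero).1 hlt
    obtain ⟨n, rfl⟩ := Ordinal.lt_omega0.1 ha
    exact absurd (hcn n) (not_lt.2 h1)
  refine lt_of_le_of_ne hle ?_
  intro heq
  have hg : Gd ∅ {x | x ∈ KS F ν} := ks_gd h.1
  have hf : ZFSet.sep (fun z => ∃ g ∈ KS F ν, z ∈ g ∧ Stp1 g c.toZFSet) (KS F ν) ∈ KS F ξ := by
    have h1 := db_sep (n := 2) db_stp1 (F := F) hξ (v := ![KS F ν, c.toZFSet]) (d := KS F ν)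
      (by
        intro i
        fin_cases i
        · exact ks_mem hνξ
        · exact (ks_ord hξ).2 (hc.trans hνξ))
      (ks_mem hνξ)
    exact h1
  obtain ⟨η, hη, h2⟩ := h.2 Ordinal.omega0 hων Ordinal.isSuccLimit_omega0 _ hf
    (by
      intro x y y' hy hy'
      obtain ⟨g, -, hg1, hg2⟩ := (ZFSet.mem_sep.1 hy).2
      obtain ⟨g', -, hg1', hg2'⟩ := (ZFSet.mem_sep.1 hy').2
      obtain ⟨n, hn, rfl⟩ := stp1_elim hg2 x y hg1
      obtain ⟨n', hn', rfl⟩ := stp1_elim hg2' x y' hg1'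
      rw [hn] at hn'
      rw [nat_injective hn'])
    (by
      intro p hp
      obtain ⟨g, -, hg1, hg2⟩ := (ZFSet.mem_sep.1 hp).2
      obtain ⟨x, y, rfl, -⟩ := hg2 p hg1
      obtain ⟨n, hn, rfl⟩ := stp1_elim hg2 x y hg1
      refine ⟨x, ?_, c + n, hcn n, rfl⟩
      rw [hn, nat_eq, ks_ord Ordinal.isSuccLimit_omega0]
      exact Ordinal.natCast_lt_omega0 n)
  rw [← heq] at hη
  obtain ⟨a, ha, h3⟩ := (Ordinal.lt_add_iff Ordinal.omega0_ne_zero).1 hη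
  obtain ⟨n, rfl⟩ := Ordinal.lt_omega0.1 ha
  obtain ⟨g, hg1, hg2, hg3⟩ := stp1_exists (F := F) h.1 hc hων.le n
  have h4 : pair (nat n) (c + n).toZFSet ∈
      ZFSet.sep (fun z => ∃ g ∈ KS F ν, z ∈ g ∧ Stp1 g c.toZFSet) (KS F ν) :=
    ZFSet.mem_sep.2 ⟨ks_trans ν g hg1 _ hg2, g, hg1, hg2, hg3⟩
  exact absurd (h2 _ _ h4) (not_lt.2 h3)

end PM3

variable {F : ZFSet.{0}} {θ δ : Ordinal.{0}} {J : IT F θ δ}

namespace PM3

theorem cr_mem_HX {ξ : Ordinal.{0}} {Ψ : Set Mx} {ζ j : Ordinal.{0}} (h : ζ ≤ j) (hj : j < θ) :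
    (J.cr j).toZFSet ∈ HX J ξ Ψ ζ :=
  ⟨.var, trivial, (J.cr j).toZFSet, Tp.base ⟨j, h, hj, rfl⟩, rfl⟩

/-- Ordinals below `θ` in the hull are mapped to ordinals below `θ`. -/
theorem pi_ord {ξ : Ordinal.{0}} {Ψ : Set Mx} (s : Stp J ξ Ψ) {α : Ordinal.{0}}
    (hα : α < θ) (h : α.toZFSet ∈ HX J ξ Ψ s.ζ) :
    ∃ β < θ, s.π α.toZFSet = β.toZFSet := by
  have h1 : s.π α.toZFSet ∈ s.π θ.toZFSet :=
    (s.iso.mem _ h _ s.fixθ.1).1 (Ordinal.toZFSet_mem_toZFSet_iff.2 hα)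
  rw [s.fixθ.2, Ordinal.mem_toZFSet_iff] at h1
  obtain ⟨β, hβ, h2⟩ := h1
  exact ⟨β, hβ, h2.symm⟩

end PM3

/-- (1) of C2. Take `Z̃` in the hull with `π Z̃ = Z`, then `Z̃ ∈ F`, `Z̃ ∈ R_i` for some `i`, and
`tail'`. The images of the critical points are increasing in the index (`π` preserves membership). -/
theorem tail_Y {ξ : Ordinal.{0}} (hξ : IsSuccLimit ξ) (hξδ : ξ < δ) (hθξ : θ < ξ)
    {Ψ : Set Mx} (s : Stp J ξ Ψ) {Z : ZFSet.{0}} (hZ : Z ∈ F) (hZξ : Z ∈ KS F ξ) :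
    ∃ α < θ, ∀ η ∈ s.Y, α ≤ η → η.toZFSet ∈ Z := by
  obtain ⟨Z1, hZ1, rfl⟩ := s.iso.surj Z hZξ
  have hZ1H : Z1 ∈ HX J ξ Ψ s.ζ := hZ1
  have hZ1F : Z1 ∈ F := (s.fixF Z1 hZ1H).2 hZ
  have hZ1δ : Z1 ∈ KS F δ := ks_mono hξδ.le (s.clsd.sub hZ1H)
  obtain ⟨i0, hi0, hR⟩ := J.cov Z1 hZ1δ
  have hi : max i0 s.ζ < θ := max_lt hi0 s.hζ
  have hR' : Z1 ∈ J.Rl (max i0 s.ζ) := J.mono _ _ (le_max_left _ _) hi hR
  obtain ⟨α, hα, hα'⟩ := PM3.pi_ord s (J.cr_lt _ hi)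
    (PM3.cr_mem_HX (J := J) (ξ := ξ) (Ψ := Ψ) (le_max_right i0 s.ζ) hi)
  refine ⟨α, hα, ?_⟩
  rintro η ⟨j, hj1, hj2, hj3⟩ hαη
  have hjH : (J.cr j).toZFSet ∈ HX J ξ Ψ s.ζ := PM3.cr_mem_HX hj1 hj2
  have hij : max i0 s.ζ ≤ j := by
    by_contra hlt
    push Not at hlt
    have h1 : s.π (J.cr j).toZFSet ∈ s.π (J.cr (max i0 s.ζ)).toZFSet :=
      (s.iso.mem _ hjH _ (PM3.cr_mem_HX (le_max_right i0 s.ζ) hi)).1
        (Ordinal.toZFSet_mem_toZFSet_iff.2 (J.cr_mono _ _ hlt hi))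
    rw [← hj3, hα', Ordinal.toZFSet_mem_toZFSet_iff] at h1
    exact absurd h1 (not_lt.2 hαη)
  have h2 := tail' J hi hR' hZ1F j hij hj2
  rw [hj3]
  exact (s.iso.mem _ hjH _ hZ1).1 h2

theorem find_i {ξ : Ordinal.{0}} (hξ : IsSuccLimit ξ) (hξδ : ξ < δ) (hθξ : θ < ξ)
    {Ψ : Set Mx} (s : Stp J ξ Ψ) {ν : Ordinal.{0}} (hν : J.cr s.ζ < ν) (hνθ : ν < θ)
    (hνY : ν ∉ s.Y) (hreg : ARg F ξ ν) :
    ∃ ν' i c' : Ordinal.{0}, ν'.toZFSet ∈ HX J ξ Ψ s.ζ ∧ s.π ν'.toZFSet = ν.toZFSet ∧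
      s.ζ ≤ i ∧ i < θ ∧ J.cr i < ν' ∧ ν' < J.cr (i + 1) ∧
      s.π (J.cr i).toZFSet = c'.toZFSet ∧ J.cr s.ζ ≤ c' ∧ c' + Ordinal.omega0 < ν ∧
      (∀ x, Tp (Cp J s.ζ (i + 1)) x → x ∈ HX J ξ Ψ s.ζ ∧
        s.π x ∈ KS F (c' + Ordinal.omega0)) ∧
      ∀ α' < ν, ∃ α < ν', α.toZFSet ∈ HX J ξ Ψ s.ζ ∧ s.π α.toZFSet = α'.toZFSet := by
  -- the preimage of `ν`
  obtain ⟨z, hz, hzν⟩ := s.iso.surj ν.toZFSet ((ks_ord hξ).2 (hνθ.trans hθξ))
  have hzH : z ∈ HX J ξ Ψ s.ζ := hz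
  have hzθ : z ∈ θ.toZFSet := by
    rw [s.iso.mem _ hz _ s.fixθ.1, hzν, s.fixθ.2]
    exact Ordinal.toZFSet_mem_toZFSet_iff.2 hνθ
  obtain ⟨ν', hν'θ, rfl⟩ := Ordinal.mem_toZFSet_iff.1 hzθ
  have hne : ∀ j, s.ζ ≤ j → j < θ → J.cr j ≠ ν' := by
    rintro j hj1 hj2 rfl
    exact hνY ⟨j, hj1, hj2, hzν.symm⟩
  have hζν : J.cr s.ζ < ν' := by
    rcases lt_trichotomy (J.cr s.ζ) ν' with h1 | h1 | h1
    · exact h1
    · exact absurd h1 (hne _ le_rfl s.hζ)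
    · have h2 := (s.fix ν'.toZFSet ((ks_ord (J.cr_lim _ s.hζ)).2 h1)).2
      rw [hzν] at h2
      have h3 := Ordinal.toZFSet_injective h2
      rw [← h3] at h1
      exact absurd hν (not_lt.2 h1.le)
  obtain ⟨i, hi1, hi2, hi3, hi4⟩ := exists_cut J s.hζ hν'θ hζν.le
  have hi3' : J.cr i < ν' := lt_of_le_of_ne hi3 (hne i hi1 hi2)
  have hiH : (J.cr i).toZFSet ∈ HX J ξ Ψ s.ζ := PM3.cr_mem_HX hi1 hi2
  obtain ⟨c', hc'θ, hc'⟩ := PM3.pi_ord s (J.cr_lt _ hi2) hiH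
  have hc'ν : c' < ν := by
    have h1 := (s.iso.mem _ hiH _ hz).1 (Ordinal.toZFSet_mem_toZFSet_iff.2 hi3')
    rwa [hc', hzν, Ordinal.toZFSet_mem_toZFSet_iff] at h1
  have hζi : J.cr s.ζ ≤ J.cr i := by
    rcases hi1.eq_or_lt with h1 | h1
    · rw [h1]
    · exact (J.cr_mono _ _ h1 hi2).le
  have hζc' : J.cr s.ζ ≤ c' := by
    by_contra hlt
    push Not at hlt
    have h1 := s.fix c'.toZFSet ((ks_ord (J.cr_lim _ s.hζ)).2 hlt)
    have h2 := (s.iso.mem _ h1.1 _ hiH).1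
      (Ordinal.toZFSet_mem_toZFSet_iff.2 (lt_of_lt_of_le hlt hζi))
    rw [h1.2, hc', Ordinal.toZFSet_mem_toZFSet_iff] at h2
    exact lt_irrefl _ h2
  have hων : Ordinal.omega0 < ν := by
    refine lt_trans (lt_of_lt_of_le J.om ?_) hν
    rcases (zero_le (a := s.ζ)).eq_or_lt with h1 | h1
    · rw [← h1]
    · exact (J.cr_mono _ _ h1 s.hζ).le
  have hc'ω : c' + Ordinal.omega0 < ν := PM3.add_omega_lt hξ (hνθ.trans hθξ) hων hc'ν hreg
  have hlim : IsSuccLimit (c' + Ordinal.omega0) :=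
    Ordinal.isSuccLimit_add c' Ordinal.isSuccLimit_omega0
  have hgd : Gd ∅ {x | x ∈ KS F (c' + Ordinal.omega0)} := ks_gd hlim
  have hc'lt : c' < c' + Ordinal.omega0 := by
    have h1 : c' + 0 < c' + Ordinal.omega0 := by
      rw [add_lt_add_iff_left]
      exact Ordinal.omega0_pos
    rwa [add_zero] at h1
  refine ⟨ν', i, c', hzH, hzν, hi1, hi2, hi3', hi4, hc', hζc', hc'ω, ?_, ?_⟩
  · intro x hx
    induction hx with
    | @base x h =>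
      obtain ⟨j, hj1, hj2, rfl⟩ := h
      have hji : j ≤ i := Order.lt_add_one_iff.1 hj2
      have hjθ : j < θ := lt_of_le_of_lt hji hi2
      have hjH : (J.cr j).toZFSet ∈ HX J ξ Ψ s.ζ := PM3.cr_mem_HX hj1 hjθ
      refine ⟨hjH, ?_⟩
      rcases hji.eq_or_lt with h1 | h1
      · rw [h1, hc', ks_ord hlim]
        exact hc'lt
      · have h2 := (s.iso.mem _ hjH _ hiH).1
          (Ordinal.toZFSet_mem_toZFSet_iff.2 (J.cr_mono _ _ h1 hi2))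
        rw [hc', Ordinal.mem_toZFSet_iff] at h2
        obtain ⟨a, ha, h3⟩ := h2
        rw [← h3, ks_ord hlim]
        exact ha.trans hc'lt
    | pr hx hy ihx ihy =>
      have hp := s.clsd.pr _ ihx.1 _ ihy.1
      refine ⟨hp, ?_⟩
      rw [s.iso.pr _ ihx.1 _ ihy.1 hp]
      exact hgd.upair_mem (hgd.single_mem ihx.2) (hgd.upair_mem ihx.2 ihy.2)
  · intro α' hα'
    obtain ⟨y, hy, hyα⟩ := s.iso.surj α'.toZFSet
      ((ks_ord hξ).2 (hα'.trans (hνθ.trans hθξ)))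
    have h1 : y ∈ ν'.toZFSet := by
      rw [s.iso.mem _ hy _ hz, hyα, hzν]
      exact Ordinal.toZFSet_mem_toZFSet_iff.2 hα'
    obtain ⟨α, hα, rfl⟩ := Ordinal.mem_toZFSet_iff.1 h1
    exact ⟨α, hα, hy, hyα⟩

end Pool.Agent.helper797_cs
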