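import Pool.Agent.helper797_cs.PM0

/-! # M4: the standard form of the ordinals of the hull (indiscernibility) -/

set_option autoImplicit false
namespace Pool.Agent.helper797_cs
open Pool.Agent.W868 Pool.Agent.R587
open ZFSet (pair)
open Cardinal Order

namespace PM4

/-- Nested tuples. -/
noncomputable def tup (x : ZFSet.{0}) : (k : ℕ) → (Fin k → ZFSet.{0}) → ZFSet.{0}
  | 0, _ => x
  | k + 1, c => pair (tup x k fun l => c l.castSucc) (c (Fin.last k))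

/-- Nested tuples are defined by bounded formulas. -/
theorem db_tup : ∀ (k N : ℕ) (p q : Fin N) (g : Fin k → Fin N),
    DB fun u : Fin N → ZFSet.{0} => u p = tup (u q) k fun l => u (g l)
  | 0, _, p, q, _ => DB.eq (D0v.proj p) (D0v.proj q)
  | k + 1, N, p, q, g => by
    have ih := db_tup k (N + 2) 1 q.succ.succ fun l => (g l.castSucc).succ.succ
    have h1 : DB fun w : Fin (N + 2) → ZFSet.{0} =>
        w 1 = (tup (Fin.tail (Fin.tail w) q) k fun l => Fin.tail (Fin.tail w) (g l.castSucc)) ∧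
          w 0 = Fin.tail (Fin.tail w) (g (Fin.last k)) :=
      DB.and ih (DB.eq (D0v.proj 0) (D0v.proj (g (Fin.last k)).succ.succ))
    have h2 := DB.expair (F := fun u : Fin N → ZFSet.{0} => u p)
      (Q := fun x y u => x = (tup (u q) k fun l => u (g l.castSucc)) ∧ y = u (g (Fin.last k)))
      (D0v.proj p) h1
    refine h2.congr fun v => ?_
    constructor
    · rintro ⟨x, y, h3, rfl, rfl⟩
      exact h3
    · intro h3
      exact ⟨_, _, h3, rfl, rfl⟩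

/-- The elements that are values of terms without constants. -/
def G0 (𝔄 : Stc) (w : ZFSet.{0}) : Set ZFSet.{0} :=
  {y | ∃ s : Tm, s.Over ∅ ∅ ∧ y = s.ev 𝔄 w}

theorem G0_pr {𝔄 : Stc} {w x y : ZFSet.{0}} (hx : x ∈ G0 𝔄 w) (hy : y ∈ G0 𝔄 w) :
    pair x y ∈ G0 𝔄 w := by
  obtain ⟨s, hs, rfl⟩ := hx
  obtain ⟨t, ht, rfl⟩ := hy
  exact ⟨.pr s t, ⟨hs, ht⟩, rfl⟩

theorem G0_fst {𝔄 : Stc} {w x y : ZFSet.{0}} (hx : pair x y ∈ G0 𝔄 w) : x ∈ G0 𝔄 w := by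
  obtain ⟨s, hs, h⟩ := hx
  refine ⟨.fst s, hs, ?_⟩
  show x = fs (s.ev 𝔄 w)
  rw [← h, fs_pair]

theorem G0_snd {𝔄 : Stc} {w x y : ZFSet.{0}} (hx : pair x y ∈ G0 𝔄 w) : y ∈ G0 𝔄 w := by
  obtain ⟨s, hs, h⟩ := hx
  refine ⟨.snd s, hs, ?_⟩
  show y = sn (s.ev 𝔄 w)
  rw [← h, sn_pair]

theorem G0_self {𝔄 : Stc} {w : ZFSet.{0}} : w ∈ G0 𝔄 w := ⟨.var, trivial, rfl⟩

theorem G0_tup {𝔄 : Stc} {w x : ZFSet.{0}} : ∀ (k : ℕ) (c : Fin k → ZFSet.{0}),
    tup x k c ∈ G0 𝔄 w → x ∈ G0 𝔄 w ∧ ∀ l, c l ∈ G0 𝔄 w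
  | 0, _, h => ⟨h, fun l => l.elim0⟩
  | k + 1, c, h => by
    have h1 := G0_fst h
    have h2 := G0_snd h
    have h3 := G0_tup k _ h1
    refine ⟨h3.1, fun l => ?_⟩
    refine Fin.lastCases ?_ (fun l => ?_) l
    · exact h2
    · exact h3.2 l

theorem over_mono {Ψ Φ : Set Mx} {C D : Set ZFSet.{0}} (h : Ψ ⊆ Φ) (h' : C ⊆ D) :
    (t : Tm) → t.Over Ψ C → t.Over Φ D
  | .var, _ => trivial
  | .cst _, ht => h' ht
  | .pr s t, ht => ⟨over_mono h h' s ht.1, over_mono h h' t ht.2⟩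
  | .fst t, ht => over_mono h h' t ht
  | .snd t, ht => over_mono h h' t ht
  | .lv t, ht => over_mono h h' t ht
  | .sk _ _ ts, ht => ⟨h ht.1, fun i => over_mono h h' (ts i) (ht.2 i)⟩

variable {F : ZFSet.{0}} {θ δ : Ordinal.{0}} {J : IT F θ δ}

/-- The critical points in a tuple. -/
theorem tp_split (𝔄 : Stc) {ζ i : Ordinal.{0}} (hi : ζ ≤ i) {x' : ZFSet.{0}}
    (h : Tp (Cp J ζ θ) x') : ∃ x, Tp (Cp J ζ (i + 1)) x ∧ ∃ E : Finset Ordinal.{0},
      (∀ j ∈ E, i + 1 ≤ j ∧ j < θ) ∧ ∀ w, x ∈ G0 𝔄 w → (∀ j ∈ E, (J.cr j).toZFSet ∈ G0 𝔄 w) →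
        x' ∈ G0 𝔄 w := by
  classical
  induction h with
  | @base x' h =>
    obtain ⟨j, h1, h2, rfl⟩ := h
    by_cases h3 : j < i + 1
    · exact ⟨_, Tp.base ⟨j, h1, h3, rfl⟩, ∅, fun j hj => absurd hj (Finset.notMem_empty j),
        fun w hw _ => hw⟩
    · refine ⟨_, Tp.base ⟨ζ, le_rfl, ?_, rfl⟩, {j}, fun j' hj' => ?_, fun w _ hw => ?_⟩
      · exact Order.lt_add_one_iff.2 hi
      · rw [Finset.mem_singleton] at hj'
        subst hj'
        exact ⟨not_lt.1 h3, h2⟩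
      · exact hw j (Finset.mem_singleton_self j)
  | pr _ _ ih1 ih2 =>
    obtain ⟨x1, h1, E1, h2, h3⟩ := ih1
    obtain ⟨x2, h4, E2, h5, h6⟩ := ih2
    refine ⟨pair x1 x2, Tp.pr h1 h4, E1 ∪ E2, fun j hj => ?_, fun w hw hE => ?_⟩
    · rcases Finset.mem_union.1 hj with hj | hj
      · exact h2 j hj
      · exact h5 j hj
    · exact G0_pr (h3 w (G0_fst hw) fun j hj => hE j (Finset.mem_union_left _ hj))
        (h6 w (G0_snd hw) fun j hj => hE j (Finset.mem_union_right _ hj))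

theorem wt_eq (i : Ordinal.{0}) (x : ZFSet.{0}) : ∀ k : ℕ,
    wt J i x k = tup x k fun l => (J.cr (i + (l : ℕ))).toZFSet
  | 0 => rfl
  | k + 1 => by
    show pair (wt J i x k) (J.cr (i + k)).toZFSet = _
    rw [wt_eq i x k]
    rfl

theorem tup_mem {ξ : Ordinal.{0}} (h : IsSuccLimit ξ) {x : ZFSet.{0}} (hx : x ∈ KS F ξ) :
    ∀ (k : ℕ) (c : Fin k → ZFSet.{0}), (∀ l, c l ∈ KS F ξ) → tup x k c ∈ KS F ξ
  | 0, _, _ => hx
  | k + 1, c, hc => (ka_clsd (F := F) h ∅).pr _ (tup_mem h hx k _ fun l => hc _) _ (hc _)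

/-- The formula for indiscernibility. -/
theorem exists_fo {ξ : Ordinal.{0}} (h : IsSuccLimit ξ) {n : ℕ} (φ : Fo (n + 2)) (k : ℕ) :
    ∃ Φ : Fo (n + 2 + k), ∀ (z x : ZFSet.{0}) (v : Fin n → ZFSet.{0}) (c : Fin k → ZFSet.{0}),
      z ∈ KS F ξ → x ∈ KS F ξ → (∀ j, v j ∈ KS F ξ) → (∀ j, c j ∈ KS F ξ) →
      (Φ.Sat (KA F ξ) (Fin.append (Fin.cons z (Fin.cons x v)) c) ↔
        φ.Sat (KA F ξ) (Fin.cons z (Fin.cons (tup x k c) v))) := by
  -- variables of `Φ`: `0 = z`, `1 = x`, `v`, `c`; under the quantifier: `0 = w`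
  obtain ⟨χ, -, hχ⟩ := db_tup k (n + 2 + k + 1) 0 (Fin.castAdd k (1 : Fin (n + 2))).succ
    fun l => (Fin.natAdd (n + 2) l).succ
  refine ⟨.ex (.and χ (φ.rn (Fin.cons (Fin.castAdd k (0 : Fin (n + 2))).succ
    (Fin.cons 0 fun j => (Fin.castAdd k j.succ.succ).succ)))), ?_⟩
  intro z x v c hz hx hv hc
  have htr : ∀ y ∈ (KA F ξ).A, ∀ u ∈ y, u ∈ (KA F ξ).A := ks_trans ξ
  have hall : ∀ w ∈ KS F ξ, ∀ j, (Fin.cons w (Fin.append (Fin.cons z (Fin.cons x v)) c) :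
      Fin (n + 2 + k + 1) → ZFSet.{0}) j ∈ (KA F ξ).A := by
    intro w hw j
    refine Fin.cases hw (fun j => ?_) j
    rw [Fin.cons_succ]
    refine Fin.addCases (fun j => ?_) (fun j => ?_) j
    · rw [Fin.append_left]
      refine Fin.cases hz (fun j => ?_) j
      rw [Fin.cons_succ]
      refine Fin.cases hx (fun j => ?_) j
      rw [Fin.cons_succ]
      exact hv j
    · rw [Fin.append_right]
      exact hc j
  have e1 : ∀ w : ZFSet.{0}, (fun j => (Fin.cons w (Fin.append (Fin.cons z (Fin.cons x v)) c) :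
      Fin (n + 2 + k + 1) → ZFSet.{0})
      ((Fin.cons (Fin.castAdd k (0 : Fin (n + 2))).succ
        (Fin.cons 0 fun j => (Fin.castAdd k j.succ.succ).succ) :
          Fin (n + 2) → Fin (n + 2 + k + 1)) j)) = Fin.cons z (Fin.cons w v) := by
    intro w
    funext j
    refine Fin.cases ?_ (fun j => ?_) j
    · rw [Fin.cons_zero, Fin.cons_succ, Fin.append_left]
      rfl
    · rw [Fin.cons_succ, Fin.cons_succ]
      refine Fin.cases ?_ (fun j => ?_) j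
      · rfl
      · rw [Fin.cons_succ, Fin.cons_succ, Fin.cons_succ, Fin.append_left]
        rfl
  have e2 : ∀ w : ZFSet.{0}, ((Fin.cons w (Fin.append (Fin.cons z (Fin.cons x v)) c) :
      Fin (n + 2 + k + 1) → ZFSet.{0}) 0 = tup ((Fin.cons w (Fin.append
        (Fin.cons z (Fin.cons x v)) c) : Fin (n + 2 + k + 1) → ZFSet.{0})
        (Fin.castAdd k (1 : Fin (n + 2))).succ) k (fun l => (Fin.cons w (Fin.append
        (Fin.cons z (Fin.cons x v)) c) : Fin (n + 2 + k + 1) → ZFSet.{0})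
        (Fin.natAdd (n + 2) l).succ)) ↔ w = tup x k c := by
    intro w
    have e3 : (Fin.cons w (Fin.append (Fin.cons z (Fin.cons x v)) c) :
      Fin (n + 2 + k + 1) → ZFSet.{0}) (Fin.castAdd k (1 : Fin (n + 2))).succ = x := by
      rw [Fin.cons_succ, Fin.append_left]
      rfl
    have e4 : (fun l => (Fin.cons w (Fin.append
        (Fin.cons z (Fin.cons x v)) c) : Fin (n + 2 + k + 1) → ZFSet.{0})
        (Fin.natAdd (n + 2) l).succ) = c := by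
      funext l
      rw [Fin.cons_succ, Fin.append_right]
    rw [e3, e4]
    rfl
  constructor
  · rintro ⟨w, hw, h1, h2⟩
    rw [hχ _ htr _ (hall w hw)] at h1
    have h3 := (e2 w).1 h1
    rw [sat_rn, e1] at h2
    rw [← h3]
    exact h2
  · intro h1
    have hw := tup_mem h hx k c hc
    refine ⟨tup x k c, hw, ?_, ?_⟩
    · rw [hχ _ htr _ (hall _ hw)]
      exact (e2 _).2 rfl
    · rw [sat_rn, e1]
      exact h1

end PM4

open PM4

variable {F : ZFSet.{0}} {θ δ : Ordinal.{0}} {J : IT F θ δ}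

/-- Every ordinal of the hull below `cr (i + 1)` is the value of a term at a tuple that consists of
critical points below `i + 1` and of the first critical points from `i + 1` on: `η`, the constants
and the critical points below `i + 1` are in `R_{i+1}`, so `indisc` (with `ev_def`) allows us to
move the other critical points. -/
theorem std_form {ξ : Ordinal.{0}} (hξ : IsSuccLimit ξ) (hξδ : ξ < δ) (hθξ : θ < ξ)
    {Ψ : Set Mx} {ζ : Ordinal.{0}} (hξζ : ξ.toZFSet ∈ J.Rl ζ) {i : Ordinal.{0}} (hi : ζ ≤ i)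
    (hiθ : i < θ) {η : Ordinal.{0}} (hη : η.toZFSet ∈ HX J ξ Ψ ζ) (hlt : η < J.cr (i + 1)) :
    ∃ t : Tm, t.Over Ψ {x | x ∈ J.Rl ζ ∧ x ∈ KS F ξ} ∧ ∃ x, Tp (Cp J ζ (i + 1)) x ∧
      ∃ k : ℕ, η.toZFSet = t.ev (KA F ξ) (wt J (i + 1) x k) := by
  obtain ⟨t, ht, x', hx', hη'⟩ := hη
  obtain ⟨x, hx, E, hE, hsp⟩ := tp_split (KA F ξ) hi hx'
  have hi1 : i + 1 < θ := J.hθ.add_one_lt hiθ
  have hζi : ζ ≤ i + 1 := hi.trans (Order.le_succ i)
  have hξi : ξ.toZFSet ∈ J.Rl (i + 1) := J.mono ζ (i + 1) hζi hi1 hξζ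
  -- the enumeration of `E`
  set k := E.card with hk
  set a : Fin k → Ordinal.{0} := fun l => E.orderEmbOfFin rfl l with ha
  have haE : ∀ l, a l ∈ E := fun l => Finset.orderEmbOfFin_mem E rfl l
  have hEa : ∀ j ∈ E, ∃ l, a l = j := by
    intro j hj
    have h1 := Finset.range_orderEmbOfFin E rfl
    have h2 : j ∈ Set.range (E.orderEmbOfFin rfl) := by rw [h1]; exact hj
    exact h2
  have hmono : StrictMono a := (E.orderEmbOfFin rfl).strictMono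
  set b : Fin k → Ordinal.{0} := fun l => i + 1 + ((l : ℕ) : Ordinal.{0}) with hb
  have hbmono : StrictMono b := by
    intro l l' h
    exact add_lt_add_right (Nat.cast_lt.2 h) _
  have hbθ : ∀ l, i + 1 ≤ b l ∧ b l < θ := by
    intro l
    refine ⟨le_self_add, ?_⟩
    have h1 : ∀ m : ℕ, i + 1 + (m : Ordinal.{0}) < θ := by
      intro m
      induction m with
      | zero => simpa using hi1
      | succ m ih =>
        rw [Nat.cast_succ, ← add_assoc]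
        exact J.hθ.add_one_lt ih
    exact h1 l
  have hcr : ∀ j < θ, (J.cr j).toZFSet ∈ KS F ξ := fun j hj =>
    (ks_ord hξ).2 ((J.cr_lt j hj).trans hθξ)
  -- the term
  have hG : x' ∈ G0 (KA F ξ) (tup x k fun l => (J.cr (a l)).toZFSet) := by
    obtain ⟨h1, h2⟩ := G0_tup (𝔄 := KA F ξ) k (fun l => (J.cr (a l)).toZFSet) G0_self
    refine hsp _ h1 fun j hj => ?_
    obtain ⟨l, rfl⟩ := hEa j hj
    exact h2 l
  obtain ⟨s, hs, hsx⟩ := hG
  have hov : (Tm.bind Tm.cst s t).Over Ψ {x | x ∈ J.Rl ζ ∧ x ∈ KS F ξ} :=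
    over_bind (C := {x | x ∈ J.Rl ζ ∧ x ∈ KS F ξ}) Tm.cst (fun a ha => ha)
      (over_mono (Set.empty_subset _) (Set.empty_subset _) s hs) t ht
  refine ⟨Tm.bind Tm.cst s t, hov, x, hx, k, ?_⟩
  -- the formula
  obtain ⟨n, φ, v, hv, hφ⟩ := ev_def hξ (C := {x | x ∈ J.Rl ζ ∧ x ∈ KS F ξ})
    (fun x hx => hx.2) (Tm.bind Tm.cst s t) hov
  obtain ⟨Φ, hΦ⟩ := exists_fo (F := F) hξ φ k
  have hxR := rl_Tp J hi1 hξδ hξ hθξ hξi hx
  have hxξ : x ∈ KS F ξ := ks_mono (((J.cr_lt (i + 1) hi1).trans hθξ).le) hxR.2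
  have hηθ : η < θ := hlt.trans (J.cr_lt (i + 1) hi1)
  have hηξ : η.toZFSet ∈ KS F ξ := (ks_ord hξ).2 (hηθ.trans hθξ)
  have hηR : η.toZFSet ∈ J.Rl (i + 1) := (J.ord (i + 1) hi1 η hηθ).2 hlt
  have hind := J.indisc (i + 1) hi1 ξ hξδ hξ hθξ hξi Φ
    (Fin.cons η.toZFSet (Fin.cons x v)) (by
      intro j
      refine Fin.cases ⟨hηR, hηξ⟩ (fun j => ?_) j
      rw [Fin.cons_succ]
      refine Fin.cases ⟨hxR.1, hxξ⟩ (fun j => ?_) j
      rw [Fin.cons_succ]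
      exact ⟨J.mono ζ (i + 1) hζi hi1 (hv j).1, (hv j).2⟩) a b hmono hbmono
    (fun l => hE _ (haE l)) hbθ
  rw [hΦ _ _ _ _ hηξ hxξ (fun j => (hv j).2) fun l => hcr _ (hE _ (haE l)).2,
    hΦ _ _ _ _ hηξ hxξ (fun j => (hv j).2) fun l => hcr _ (hbθ l).2,
    hφ _ (tup_mem hξ hxξ k _ fun l => hcr _ (hE _ (haE l)).2) _ hηξ,
    hφ _ (tup_mem hξ hxξ k _ fun l => hcr _ (hbθ l).2) _ hηξ] at hind
  rw [wt_eq]
  refine hind.1 ?_
  rw [ev_bind (C := {x | x ∈ J.Rl ζ ∧ x ∈ KS F ξ}) (Ψ := Ψ) Tm.cst s _ (fun a _ => rfl) t ht,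
    ← hsx]
  exact hη'

end Pool.Agent.helper797_cs
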