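import Pool.Agent.helper797_cs.PM3
import Pool.Agent.helper797_cs.PM4

/-! # M5: the case that `U(Ψ)` fails -/

set_option autoImplicit false
namespace Pool.Agent.helper797_cs
open Pool.Agent.W868 Pool.Agent.R587
open ZFSet (pair)
open Cardinal Order

variable {F : ZFSet.{0}} {θ δ : Ordinal.{0}} {J : IT F θ δ}

namespace PM5

/-! ### Terms -/

theorem over_mono {Ψ : Set Mx} {C D : Set ZFSet.{0}} (h : C ⊆ D) :
    (t : Tm) → t.Over Ψ C → t.Over Ψ D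
  | .var, _ => trivial
  | .cst _, h1 => h h1
  | .pr s t, h1 => ⟨over_mono h s h1.1, over_mono h t h1.2⟩
  | .fst t, h1 => over_mono h t h1
  | .snd t, h1 => over_mono h t h1
  | .lv t, h1 => over_mono h t h1
  | .sk _ _ ts, h1 => ⟨h1.1, fun i => over_mono h (ts i) (h1.2 i)⟩

theorem over_map {Ψ : Set Mx} {C D : Set ZFSet.{0}} {π : ZFSet.{0} → ZFSet.{0}}
    (h : ∀ a ∈ C, π a ∈ D) : (t : Tm) → t.Over Ψ C → (t.map π).Over Ψ D
  | .var, _ => trivial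
  | .cst _, h1 => h _ h1
  | .pr s t, h1 => ⟨over_map h s h1.1, over_map h t h1.2⟩
  | .fst t, h1 => over_map h t h1
  | .snd t, h1 => over_map h t h1
  | .lv t, h1 => over_map h t h1
  | .sk _ _ ts, h1 => ⟨h1.1, fun i => over_map h (ts i) (h1.2 i)⟩

/-- Terms of depth less than `n`. -/
def Lev (Ψ : Set Mx) (C : Set ZFSet.{0}) : ℕ → Set Tm
  | 0 => ∅
  | n + 1 => {Tm.var} ∪ Tm.cst '' C ∪ Set.image2 Tm.pr (Lev Ψ C n) (Lev Ψ C n) ∪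
      Tm.fst '' Lev Ψ C n ∪ Tm.snd '' Lev Ψ C n ∪ Tm.lv '' Lev Ψ C n ∪
      ⋃ ψ ∈ Ψ, (fun ts => Tm.sk ψ.1 ψ.2 ts) '' (Set.univ.pi fun _ => Lev Ψ C n)

theorem lev_countable {Ψ : Set Mx} (hΨ : Ψ.Countable) {C : Set ZFSet.{0}} (hC : C.Countable) :
    ∀ n, (Lev Ψ C n).Countable := by
  intro n
  induction n with
  | zero => exact Set.countable_empty
  | succ n ih =>
    refine Set.Countable.union (Set.Countable.union (Set.Countable.union (Set.Countable.union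
      (Set.Countable.union (Set.Countable.union (Set.countable_singleton _) (hC.image _))
        (ih.image2 ih _)) (ih.image _)) (ih.image _)) (ih.image _)) ?_
    exact hΨ.biUnion fun ψ _ => (Set.countable_univ_pi fun _ => ih).image _

theorem lev_succ {Ψ : Set Mx} {C : Set ZFSet.{0}} : ∀ n, Lev Ψ C n ⊆ Lev Ψ C (n + 1) := by
  intro n
  induction n with
  | zero => exact Set.empty_subset _
  | succ n ih =>
    intro t ht
    rcases ht with (((((ht | ht) | ht) | ht) | ht) | ht) | ht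
    · exact Or.inl (Or.inl (Or.inl (Or.inl (Or.inl (Or.inl ht)))))
    · exact Or.inl (Or.inl (Or.inl (Or.inl (Or.inl (Or.inr ht)))))
    · exact Or.inl (Or.inl (Or.inl (Or.inl (Or.inr (Set.image2_subset ih ih ht)))))
    · exact Or.inl (Or.inl (Or.inl (Or.inr (Set.image_mono ih ht))))
    · exact Or.inl (Or.inl (Or.inr (Set.image_mono ih ht)))
    · exact Or.inl (Or.inr (Set.image_mono ih ht))
    · refine Or.inr ?_
      obtain ⟨ψ, h1, h2⟩ := Set.mem_iUnion₂.1 ht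
      refine Set.mem_iUnion₂.2 ⟨ψ, h1, Set.image_mono ?_ h2⟩
      exact Set.pi_mono fun _ _ => ih

theorem lev_mono {Ψ : Set Mx} {C : Set ZFSet.{0}} : Monotone (Lev Ψ C) :=
  monotone_nat_of_le_succ lev_succ

theorem over_lev {Ψ : Set Mx} {C : Set ZFSet.{0}} : (t : Tm) → t.Over Ψ C → ∃ n, t ∈ Lev Ψ C n
  | .var, _ => ⟨1, Or.inl (Or.inl (Or.inl (Or.inl (Or.inl (Or.inl rfl)))))⟩
  | .cst _, h1 => ⟨1, Or.inl (Or.inl (Or.inl (Or.inl (Or.inl (Or.inr ⟨_, h1, rfl⟩)))))⟩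
  | .pr s t, h1 => by
    obtain ⟨a, ha⟩ := over_lev s h1.1
    obtain ⟨b, hb⟩ := over_lev t h1.2
    exact ⟨max a b + 1, Or.inl (Or.inl (Or.inl (Or.inl (Or.inr ⟨_, lev_mono (le_max_left a b) ha,
      _, lev_mono (le_max_right a b) hb, rfl⟩))))⟩
  | .fst t, h1 => by
    obtain ⟨a, ha⟩ := over_lev t h1
    exact ⟨a + 1, Or.inl (Or.inl (Or.inl (Or.inr ⟨_, ha, rfl⟩)))⟩
  | .snd t, h1 => by
    obtain ⟨a, ha⟩ := over_lev t h1
    exact ⟨a + 1, Or.inl (Or.inl (Or.inr ⟨_, ha, rfl⟩))⟩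
  | .lv t, h1 => by
    obtain ⟨a, ha⟩ := over_lev t h1
    exact ⟨a + 1, Or.inl (Or.inr ⟨_, ha, rfl⟩)⟩
  | .sk n φ ts, h1 => by
    have h2 : ∀ i, ∃ a, ts i ∈ Lev Ψ C a := fun i => over_lev (ts i) (h1.2 i)
    choose a ha using h2
    refine ⟨Finset.univ.sup a + 1, Or.inr ?_⟩
    refine Set.mem_iUnion₂.2 ⟨⟨n, φ⟩, h1.1, ts, fun i _ => ?_, rfl⟩
    exact lev_mono (Finset.le_sup (Finset.mem_univ i)) (ha i)

theorem over_countable {Ψ : Set Mx} (hΨ : Ψ.Countable) {C : Set ZFSet.{0}} (hC : C.Countable) :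
    {t : Tm | t.Over Ψ C}.Countable := by
  refine (Set.countable_iUnion fun n => lev_countable hΨ hC n).mono fun t ht => ?_
  obtain ⟨n, hn⟩ := over_lev t ht
  exact Set.mem_iUnion.2 ⟨n, hn⟩

/-- Apply `g` to the first entry. -/
def sh (g : Tm → Tm) : ℕ → Tm → Tm
  | 0, s => g s
  | k + 1, s => .pr (sh g k (.fst s)) (.snd s)

theorem sh_over {Ψ : Set Mx} {C : Set ZFSet.{0}} {g : Tm → Tm}
    (hg : ∀ t : Tm, t.Over Ψ C → (g t).Over Ψ C) : ∀ (k : ℕ) (s : Tm), s.Over Ψ C →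
      (sh g k s).Over Ψ C := by
  intro k
  induction k with
  | zero => exact hg
  | succ k ih => exact fun s hs => ⟨ih _ hs, hs⟩

theorem sh_ev {𝔄 : Stc} {z : ZFSet.{0}} {g : Tm → Tm} {i : Ordinal.{0}} {y y' : ZFSet.{0}}
    (hg : ∀ s : Tm, s.ev 𝔄 z = y → (g s).ev 𝔄 z = y') : ∀ (k : ℕ) (s : Tm),
      s.ev 𝔄 z = wt J i y k → (sh g k s).ev 𝔄 z = wt J i y' k := by
  intro k
  induction k with
  | zero => exact hg
  | succ k ih =>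
    intro s hs
    have h1 : (Tm.fst s).ev 𝔄 z = wt J i y k := by
      show fs (s.ev 𝔄 z) = _
      rw [hs]
      exact fs_pair _ _
    have h2 : sn (s.ev 𝔄 z) = (J.cr (i + k)).toZFSet := by
      rw [hs]
      exact sn_pair _ _
    show pair ((sh g k (.fst s)).ev 𝔄 z) (sn (s.ev 𝔄 z)) = _
    rw [ih _ h1, h2]
    rfl

/-- The first entry. -/
def unw : ℕ → Tm → Tm
  | 0, s => s
  | k + 1, s => unw k (.fst s)

theorem unw_over {Ψ : Set Mx} {C : Set ZFSet.{0}} : ∀ (k : ℕ) (s : Tm), s.Over Ψ C →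
      (unw k s).Over Ψ C := by
  intro k
  induction k with
  | zero => exact fun s hs => hs
  | succ k ih => exact fun s hs => ih _ hs

theorem unw_ev {𝔄 : Stc} {z : ZFSet.{0}} {i : Ordinal.{0}} {y : ZFSet.{0}} : ∀ (k : ℕ) (s : Tm),
      s.ev 𝔄 z = wt J i y k → (unw k s).ev 𝔄 z = y := by
  intro k
  induction k with
  | zero => exact fun s hs => hs
  | succ k ih =>
    intro s hs
    refine ih _ ?_
    show fs (s.ev 𝔄 z) = _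
    rw [hs]
    exact fs_pair _ _

/-- The tuple of the images of the critical points. -/
noncomputable def WW (J : IT F θ δ) (π : ZFSet.{0} → ZFSet.{0}) (i : Ordinal.{0}) : ℕ → Tm
  | 0 => .var
  | k + 1 => .pr (WW J π i k) (.cst (π (J.cr (i + k)).toZFSet))

/-! ### Elimination of the constants -/

theorem const_elim {ξ : Ordinal.{0}} (hξ : IsSuccLimit ξ) (hξδ : ξ < δ) (hθξ : θ < ξ)
    {Ψ : Set Mx} (s : Stp J ξ Ψ)
    {p : ZFSet.{0}} (hp : p ∈ J.Rl s.ζ) (hpξ : p ∈ KS F ξ)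
    (hgen : ∀ y ∈ KS F ξ, ∃ t : Tm, t.Over Ψ {p, θ.toZFSet} ∧
      ∃ x ∈ KS F θ, y = t.ev (KA F ξ) x) {a : ZFSet.{0}} (ha : a ∈ J.Rl s.ζ)
    (haξ : a ∈ KS F ξ) :
    ∃ t : Tm, t.Over Ψ {p, θ.toZFSet} ∧ ∃ u ∈ KS F (J.cr s.ζ), a = t.ev (KA F ξ) u := by
  obtain ⟨t, ht, x, hx, hax⟩ := hgen a haξ
  have hθξ' : θ.toZFSet ∈ KS F ξ := (ks_ord hξ).2 hθξ
  have hSξ : KS F θ ∈ KS F ξ := ks_mem hθξ
  have hsub : KS F θ ⊆ KS F ξ := ks_mono hθξ.le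
  have hC : ({p, θ.toZFSet} : Set ZFSet.{0}) ⊆ {x | x ∈ KS F ξ} := by
    rintro z (rfl | rfl)
    · exact hpξ
    · exact hθξ'
  obtain ⟨n, φ, v, hv, hφ⟩ := ev_def hξ hC t ht
  have hv' : ∀ j, v j ∈ J.Rl s.ζ ∧ v j ∈ KS F ξ := by
    intro j
    rcases hv j with h | h
    · rw [h]
      exact ⟨hp, hpξ⟩
    · rw [h]
      exact ⟨s.θ_mem, hθξ'⟩
  have hkey : ∀ x' : ZFSet.{0}, (fun k => (Fin.cons x' (Fin.cons a (Fin.cons (KS F θ) v)) :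
      Fin (n + 3) → ZFSet.{0}) ((Fin.cons 1 (Fin.cons 0 fun i => i.succ.succ.succ) :
        Fin (n + 2) → Fin (n + 3)) k)) = Fin.cons a (Fin.cons x' v) := by
    intro x'
    funext k
    refine Fin.cases ?_ (fun k => ?_) k
    · rfl
    · refine Fin.cases ?_ (fun k => ?_) k
      · rfl
      · rfl
  obtain ⟨z, hz1, hz2, hz3, hz4⟩ := rl_ex J s.hζ hξδ hξ s.ξ_mem
    (.and (.mem 0 2) (φ.rn (Fin.cons 1 (Fin.cons 0 fun i => i.succ.succ.succ) :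
        Fin (n + 2) → Fin (n + 3))))
    (Fin.cons a (Fin.cons (KS F θ) v)) (by
      intro j
      refine Fin.cases ?_ (fun j => ?_) j
      · exact ⟨ha, haξ⟩
      · refine Fin.cases ?_ (fun j => ?_) j
        · exact ⟨s.S_mem, hSξ⟩
        · exact hv' j)
    ⟨x, hsub hx, hx, by
      rw [sat_rn, hkey]
      exact (hφ x (hsub hx) a haξ).2 hax⟩
  rw [sat_rn, hkey] at hz4
  exact ⟨t, ht, z, rl_S J s.hζ hξδ hξ hθξ s.ξ_mem hz1 hz3, (hφ z hz2 a haξ).1 hz4⟩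

/-! ### The hull of the tuples -/

/-- The base set. -/
def Bs (J : IT F θ δ) (ζ i : Ordinal.{0}) : Set ZFSet.{0} :=
  {x | x ∈ KS F (J.cr ζ)} ∪ Cp J ζ i

/-- The values of the terms over `{p, θ}` at the tuples. -/
def DD (J : IT F θ δ) (ξ : Ordinal.{0}) (Ψ : Set Mx) (p : ZFSet.{0}) (ζ i : Ordinal.{0})
    (k : ℕ) : Set ZFSet.{0} :=
  {z | ∃ t : Tm, t.Over Ψ {p, θ.toZFSet} ∧ ∃ y, Tp (Bs J ζ i) y ∧
    z = t.ev (KA F ξ) (wt J i y k)}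

theorem pair_ks {ξ : Ordinal.{0}} (hξ : IsSuccLimit ξ) {a b : ZFSet.{0}} (ha : a ∈ KS F ξ)
    (hb : b ∈ KS F ξ) : pair a b ∈ KS F ξ :=
  (ka_clsd hξ ∅).pr a ha b hb

theorem tp_sub {ξ : Ordinal.{0}} (hξ : IsSuccLimit ξ) {C : Set ZFSet.{0}}
    (hC : ∀ x ∈ C, x ∈ KS F ξ) {y : ZFSet.{0}} (hy : Tp C y) : y ∈ KS F ξ := by
  induction hy with
  | base h => exact hC _ h
  | pr _ _ ih1 ih2 => exact pair_ks hξ ih1 ih2

theorem tp_mono {C D : Set ZFSet.{0}} (hC : C ⊆ D) {y : ZFSet.{0}} (hy : Tp C y) : Tp D y := by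
  induction hy with
  | base h => exact Tp.base (hC h)
  | pr _ _ ih1 ih2 => exact Tp.pr ih1 ih2

theorem bs_sub {ξ ζ i : Ordinal.{0}} (hθξ : θ < ξ) (hζ : ζ < θ) (hξ : IsSuccLimit ξ)
    (hi : i < θ) : ∀ x ∈ Bs J ζ i, x ∈ KS F ξ := by
  rintro x (hx | ⟨j, h1, h2, rfl⟩)
  · exact ks_mono ((J.cr_lt ζ hζ).trans hθξ).le hx
  · exact (ks_ord hξ).2 ((J.cr_lt j (h2.trans hi)).trans hθξ)

theorem wt_ks {ξ i : Ordinal.{0}} (hθξ : θ < ξ) (hξ : IsSuccLimit ξ) (hi : i < θ)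
    {y : ZFSet.{0}} (hy : y ∈ KS F ξ) : ∀ k : ℕ, wt J i y k ∈ KS F ξ := by
  intro k
  induction k with
  | zero => exact hy
  | succ k ih =>
    refine pair_ks hξ ih ((ks_ord hξ).2 ((J.cr_lt _ ?_).trans hθξ))
    exact J.hθ.add_natCast_lt hi k

theorem dd_sub {ξ ζ i : Ordinal.{0}} (hξ : IsSuccLimit ξ) (hθξ : θ < ξ) (hζ : ζ < θ) (hi : i < θ)
    {Ψ : Set Mx} (hcl : Cl Ψ) {p : ZFSet.{0}} (hpξ : p ∈ KS F ξ) (k : ℕ) :
    ∀ z ∈ DD J ξ Ψ p ζ i k, z ∈ KS F ξ := by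
  rintro z ⟨t, ht, y, hy, rfl⟩
  have hθξ' : θ.toZFSet ∈ KS F ξ := (ks_ord hξ).2 hθξ
  have hC : ({p, θ.toZFSet} : Set ZFSet.{0}) ⊆ {x | x ∈ KS F ξ} := by
    rintro z (rfl | rfl)
    · exact hpξ
    · exact hθξ'
  exact (ev_res (ka_clsd hξ Ψ) hcl (over_mono hC t ht)
    (wt_ks hθξ hξ hi (tp_sub hξ (bs_sub hθξ hζ hξ hi) hy) k)).2

theorem dd_clsd {ξ ζ i : Ordinal.{0}} (hξ : IsSuccLimit ξ) (hθξ : θ < ξ) (hζ : ζ < θ) (hi : i < θ)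
    {Ψ : Set Mx} (hcl : Cl Ψ) {p : ZFSet.{0}} (hpξ : p ∈ KS F ξ) (k : ℕ)
    (hne : (Bs J ζ i).Nonempty) :
    Clsd (KA F ξ) Ψ (DD J ξ Ψ p ζ i k) := by
  have hθξ' : θ.toZFSet ∈ KS F ξ := (ks_ord hξ).2 hθξ
  have hC : ({p, θ.toZFSet} : Set ZFSet.{0}) ⊆ {x | x ∈ KS F ξ} := by
    rintro z (rfl | rfl)
    · exact hpξ
    · exact hθξ'
  have hpr : ∀ x ∈ DD J ξ Ψ p ζ i k, ∀ y ∈ DD J ξ Ψ p ζ i k, pair x y ∈ DD J ξ Ψ p ζ i k := by
    rintro _ ⟨t1, ht1, y1, hy1, rfl⟩ _ ⟨t2, ht2, y2, hy2, rfl⟩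
    refine ⟨.pr (Tm.bind Tm.cst (sh Tm.fst k .var) t1) (Tm.bind Tm.cst (sh Tm.snd k .var) t2),
      ⟨?_, ?_⟩, pair y1 y2, Tp.pr hy1 hy2, ?_⟩
    · exact over_bind Tm.cst (C := {p, θ.toZFSet}) (fun a ha => ha)
        (sh_over (g := Tm.fst) (fun t h => h) k .var trivial) t1 ht1
    · exact over_bind Tm.cst (C := {p, θ.toZFSet}) (fun a ha => ha)
        (sh_over (g := Tm.snd) (fun t h => h) k .var trivial) t2 ht2
    · show _ = pair ((Tm.bind Tm.cst (sh Tm.fst k .var) t1).ev (KA F ξ) _)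
        ((Tm.bind Tm.cst (sh Tm.snd k .var) t2).ev (KA F ξ) _)
      rw [ev_bind (C := {p, θ.toZFSet}) Tm.cst _ _ (fun a _ => rfl) t1 ht1,
        ev_bind (C := {p, θ.toZFSet}) Tm.cst _ _ (fun a _ => rfl) t2 ht2]
      have e1 : (sh Tm.fst k .var).ev (KA F ξ) (wt J i (pair y1 y2) k) = wt J i y1 k := by
        refine sh_ev (y := pair y1 y2) (fun s hs => ?_) k .var rfl
        show fs (s.ev (KA F ξ) _) = _
        rw [hs]
        exact fs_pair _ _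
      have e2 : (sh Tm.snd k .var).ev (KA F ξ) (wt J i (pair y1 y2) k) = wt J i y2 k := by
        refine sh_ev (y := pair y1 y2) (fun s hs => ?_) k .var rfl
        show sn (s.ev (KA F ξ) _) = _
        rw [hs]
        exact sn_pair _ _
      rw [e1, e2]
  have hne' : (DD J ξ Ψ p ζ i k).Nonempty := by
    obtain ⟨b, hb⟩ := hne
    exact ⟨_, .var, trivial, b, Tp.base hb, rfl⟩
  have h1 := (tm_clsd hξ Ψ (C := {p, θ.toZFSet}) (P := DD J ξ Ψ p ζ i k) hC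
    (dd_sub hξ hθξ hζ hi hcl hpξ k) hne' hpr).1
  have h2 : {y | ∃ t : Tm, t.Over Ψ {p, θ.toZFSet} ∧ ∃ x ∈ DD J ξ Ψ p ζ i k,
      y = t.ev (KA F ξ) x} = DD J ξ Ψ p ζ i k := by
    ext z
    constructor
    · rintro ⟨t, ht, _, ⟨t', ht', y, hy, rfl⟩, rfl⟩
      refine ⟨Tm.bind Tm.cst t' t, ?_, y, hy, ?_⟩
      · exact over_bind Tm.cst (C := {p, θ.toZFSet}) (fun a ha => ha) ht' t ht
      · rw [ev_bind (C := {p, θ.toZFSet}) Tm.cst _ _ (fun a _ => rfl) t ht]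
    · exact fun hz => ⟨.var, trivial, z, hz, rfl⟩
  rwa [h2] at h1

/-- A bound for the values of a term. -/
theorem bound {ξ ν γ : Ordinal.{0}} (hξ : IsSuccLimit ξ) (hθξ : θ < ξ) {Ψ : Set Mx}
    (hPB : PB F θ ξ Ψ) (hνθ : ν < θ) (hreg : ARg F ξ ν) (hγ : γ < ν) (hγl : IsSuccLimit γ)
    {t : Tm} (ht : t.Over Ψ {x | x ∈ KS F ξ}) :
    ∃ η < ν, ∀ x ∈ KS F γ, ∀ α < ν, t.ev (KA F ξ) x = α.toZFSet → α < η := by
  have hgd : Gd ∅ {x | x ∈ KS F ξ} := ks_gd hξ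
  have h1 := hPB t ht ν hνθ hreg.1
  have h2 : KS F γ ∈ KS F ξ := ks_mem ((hγ.trans hνθ).trans hθξ)
  have h3 : ν.toZFSet ∈ KS F ξ := (ks_ord hξ).2 (hνθ.trans hθξ)
  have h4 : grT F ξ t (KS F ν) ν.toZFSet ∩ ZFSet.prod (KS F γ) ν.toZFSet ∈ KS F ξ :=
    hgd.inter_mem h1 (hgd.prod_mem h2 h3)
  have h5 : ∀ x z : ZFSet.{0}, pair x z ∈
      grT F ξ t (KS F ν) ν.toZFSet ∩ ZFSet.prod (KS F γ) ν.toZFSet ↔
        x ∈ KS F γ ∧ z ∈ ν.toZFSet ∧ t.ev (KA F ξ) x = z := by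
    intro x z
    rw [ZFSet.mem_inter, ZFSet.pair_mem_prod, grT, ZFSet.mem_sep, ZFSet.pair_mem_prod]
    constructor
    · rintro ⟨⟨-, x', -, z', -, h, h'⟩, h6, h7⟩
      obtain ⟨rfl, rfl⟩ := ZFSet.pair_inj.1 h
      exact ⟨h6, h7, h'⟩
    · rintro ⟨h6, h7, h8⟩
      have h9 : x ∈ KS F ν := ks_mono hγ.le h6
      exact ⟨⟨⟨h9, h7⟩, x, h9, z, h7, rfl, h8⟩, h6, h7⟩
  obtain ⟨η, hη, h6⟩ := hreg.2 γ hγ hγl _ h4 (by
    intro x y y' h h'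
    rw [← ((h5 _ _).1 h).2.2, ← ((h5 _ _).1 h').2.2]) (by
    intro q hq
    obtain ⟨x, hx, z, hz, rfl⟩ := ZFSet.mem_prod.1 (ZFSet.mem_inter.1 hq).2
    obtain ⟨α, hα, rfl⟩ := Ordinal.mem_toZFSet_iff.1 hz
    exact ⟨x, hx, α, hα, rfl⟩)
  refine ⟨η, hη, fun x hx α hα h => h6 x α ((h5 _ _).2 ⟨hx, ?_, h⟩)⟩
  exact Ordinal.toZFSet_mem_toZFSet_iff.2 hα

theorem clsd_res {ξ : Ordinal.{0}} {Ψ : Set Mx} (hcl : Cl Ψ) {X : Set ZFSet.{0}}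
    (h : Clsd (KA F ξ) Ψ X) : Clsd ((KA F ξ).res X) Ψ X where
  sub := subset_rfl
  ne := h.ne
  pr := h.pr
  fst := h.fst
  snd := h.snd
  lv := h.lv
  sk ψ hψ v hv := by
    have h1 := h.sk ψ hψ v hv
    rw [sk_res h (hcl ψ hψ) hv h1]
    exact h1

end PM5

open PM5 in
/-- If the level is generated by `S_θ`, `p` and `θ`, then the cofinality is `ω`. (Eliminate the
constants: each constant in `R_ζ` is the value of a term over `{p, θ}` at an element of `S_θ ∩ R_ζ`,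
`rl_ex` and `rl_S`, so of `S_{cr ζ}`; there are countably many terms over `{p, θ}` and numbers `k`;
for each of them `PB` and `ARg` give a bound.) -/
theorem case_gen {ξ : Ordinal.{0}} (hξ : IsSuccLimit ξ) (hξδ : ξ < δ) (hθξ : θ < ξ)
    {Ψ : Set Mx} (hfin : Ψ.Finite) (hcl : Cl Ψ) (s : Stp J ξ Ψ) (hPB : PB F θ ξ Ψ)
    {p : ZFSet.{0}} (hp : p ∈ J.Rl s.ζ) (hpξ : p ∈ KS F ξ)
    (hgen : ∀ y ∈ KS F ξ, ∃ t : Tm, t.Over Ψ {p, θ.toZFSet} ∧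
      ∃ x ∈ KS F θ, y = t.ev (KA F ξ) x) {ν : Ordinal.{0}} (hν : J.cr s.ζ < ν) (hνθ : ν < θ)
    (hνY : ν ∉ s.Y) (hreg : ARg F ξ ν) : ν.cof = ℵ₀ := by
  obtain ⟨ν', i, c', h1, h2, h3, h4, h5, h6, h7, h8, h9, h10, h11⟩ :=
    find_i hξ hξδ hθξ s hν hνθ hνY hreg
  have hi1 : i + 1 < θ := J.hθ.add_one_lt h4
  have hθξ' : θ.toZFSet ∈ KS F ξ := (ks_ord hξ).2 hθξ
  have hC : ({p, θ.toZFSet} : Set ZFSet.{0}) ⊆ {x | x ∈ KS F ξ} := by
    rintro z (rfl | rfl)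
    · exact hpξ
    · exact hθξ'
  have hne : (Bs J s.ζ (i + 1)).Nonempty :=
    ⟨(J.cr s.ζ).toZFSet, Or.inr ⟨s.ζ, le_rfl, h3.trans_lt (lt_add_one i), rfl⟩⟩
  have hclsd := fun k => dd_clsd (J := J) (ζ := s.ζ) (i := i + 1) hξ hθξ s.hζ hi1 hcl hpξ k hne
  -- all ordinals of the hull below `ν'`
  have key1 : ∀ η : Ordinal.{0}, η.toZFSet ∈ HX J ξ Ψ s.ζ → η < ν' → ∃ t : Tm,
      t.Over Ψ {p, θ.toZFSet} ∧ ∃ k : ℕ, ∃ y, Tp (Bs J s.ζ (i + 1)) y ∧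
        η.toZFSet = t.ev (KA F ξ) (wt J (i + 1) y k) := by
    intro η hη hlt
    obtain ⟨t, ht, x, hx, k, h12⟩ := std_form hξ hξδ hθξ s.ξ_mem h3 h4 hη (hlt.trans h6)
    have h13 : {x | x ∈ J.Rl s.ζ ∧ x ∈ KS F ξ} ⊆ DD J ξ Ψ p s.ζ (i + 1) k := by
      rintro a ⟨ha, haξ⟩
      obtain ⟨t', ht', u, hu, rfl⟩ := const_elim hξ hξδ hθξ s hp hpξ hgen ha haξ
      refine ⟨Tm.bind Tm.cst (unw k .var) t', ?_, u, Tp.base (Or.inl hu), ?_⟩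
      · exact over_bind Tm.cst (C := {p, θ.toZFSet}) (fun a ha => ha)
          (unw_over k .var trivial) t' ht'
      · rw [ev_bind (C := {p, θ.toZFSet}) Tm.cst _ _ (fun a _ => rfl) t' ht']
        rw [unw_ev (J := J) (i := i + 1) (y := u) k .var rfl]
    have h14 : wt J (i + 1) x k ∈ DD J ξ Ψ p s.ζ (i + 1) k :=
      ⟨.var, trivial, x, tp_mono Set.subset_union_right hx, rfl⟩
    obtain ⟨t', ht', y, hy, h15⟩ := (ev_res (hclsd k) hcl (over_mono h13 t ht) h14).2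
    exact ⟨t', ht', k, y, hy, h12.trans h15⟩
  -- the hull
  have hH := s.clsd
  have hsubH : ∀ x ∈ HX J ξ Ψ s.ζ, x ∈ KS F ξ := hH.sub
  have hcr : ∀ j, s.ζ ≤ j → j < θ → (J.cr j).toZFSet ∈ HX J ξ Ψ s.ζ :=
    fun j hj hj' => ⟨.var, trivial, _, Tp.base ⟨j, hj, hj', rfl⟩, rfl⟩
  have hpH : p ∈ HX J ξ Ψ s.ζ :=
    ⟨.cst p, ⟨hp, hpξ⟩, _, Tp.base ⟨s.ζ, le_rfl, s.hζ, rfl⟩, rfl⟩
  have hθH := s.fixθ.1
  have hCH : ({p, θ.toZFSet} : Set ZFSet.{0}) ⊆ HX J ξ Ψ s.ζ := by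
    rintro z (rfl | rfl)
    · exact hpH
    · exact hθH
  have hlin : ∀ x ∈ ((KA F ξ).res (HX J ξ Ψ s.ζ)).A, ∀ y ∈ ((KA F ξ).res (HX J ξ Ψ s.ζ)).A,
      x = y ∨ ((KA F ξ).res (HX J ξ Ψ s.ζ)).lt x y ∨ ((KA F ξ).res (HX J ξ Ψ s.ζ)).lt y x :=
    fun x hx y hy => kw_total ξ (hsubH x hx) (hsubH y hy)
  have hev : ∀ t : Tm, t.Over Ψ {p, θ.toZFSet} → ∀ z ∈ HX J ξ Ψ s.ζ,
      s.π (t.ev (KA F ξ) z) = (t.map s.π).ev (KA F ξ) (s.π z) := by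
    intro t ht z hz
    have h12 := over_mono hCH t ht
    rw [← (ev_res hH hcl h12 hz).1]
    exact iso_ev s.iso (clsd_res hcl hH) hlin t h12 hz
  -- tuples
  have hlim : IsSuccLimit (c' + Ordinal.omega0) :=
    Ordinal.isSuccLimit_add _ Ordinal.isSuccLimit_omega0
  have htp : ∀ y, Tp (Bs J s.ζ (i + 1)) y → y ∈ HX J ξ Ψ s.ζ ∧
      s.π y ∈ KS F (c' + Ordinal.omega0) := by
    intro y hy
    induction hy with
    | base h =>
      rcases h with h | h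
      · refine ⟨(s.fix _ h).1, ?_⟩
        rw [(s.fix _ h).2]
        exact ks_mono (h8.trans le_self_add) h
      · exact h10 _ (Tp.base h)
    | pr _ _ ih1 ih2 =>
      have h12 := hH.pr _ ih1.1 _ ih2.1
      refine ⟨h12, ?_⟩
      rw [s.iso.pr _ ih1.1 _ ih2.1 h12]
      exact pair_ks hlim ih1.2 ih2.2
  have hwt : ∀ y ∈ HX J ξ Ψ s.ζ, ∀ k : ℕ, wt J (i + 1) y k ∈ HX J ξ Ψ s.ζ ∧
      (WW J s.π (i + 1) k).ev (KA F ξ) (s.π y) = s.π (wt J (i + 1) y k) := by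
    intro y hy k
    induction k with
    | zero => exact ⟨hy, rfl⟩
    | succ k ih =>
      have h12 : (J.cr (i + 1 + k)).toZFSet ∈ HX J ξ Ψ s.ζ :=
        hcr _ ((h3.trans le_self_add).trans le_self_add) (J.hθ.add_natCast_lt hi1 k)
      have h13 := hH.pr _ ih.1 _ h12
      refine ⟨h13, ?_⟩
      show pair ((WW J s.π (i + 1) k).ev (KA F ξ) (s.π y)) (s.π (J.cr (i + 1 + k)).toZFSet) = _
      rw [ih.2]
      exact (s.iso.pr _ ih.1 _ h12 h13).symm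
  have hWo : ∀ k : ℕ, (WW J s.π (i + 1) k).Over Ψ {x | x ∈ KS F ξ} := by
    intro k
    induction k with
    | zero => trivial
    | succ k ih =>
      refine ⟨ih, s.iso.maps _ (hcr _ ?_ ?_)⟩
      · exact (h3.trans le_self_add).trans le_self_add
      · exact J.hθ.add_natCast_lt hi1 k
  have hmo : ∀ t : Tm, t.Over Ψ {p, θ.toZFSet} → (t.map s.π).Over Ψ {x | x ∈ KS F ξ} :=
    fun t ht => over_map (fun a ha => s.iso.maps _ (hCH ha)) t ht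
  -- the bounds
  have key2 : ∀ q : Tm × ℕ, q.1.Over Ψ {p, θ.toZFSet} → ∃ b < ν, ∀ y,
      Tp (Bs J s.ζ (i + 1)) y → ∀ α < ν,
        s.π (q.1.ev (KA F ξ) (wt J (i + 1) y q.2)) = α.toZFSet → α < b := by
    rintro ⟨t, k⟩ ht
    obtain ⟨b, hb, h12⟩ := bound hξ hθξ hPB hνθ hreg h9 hlim
      (t := Tm.bind Tm.cst (WW J s.π (i + 1) k) (t.map s.π))
      (over_bind Tm.cst (C := {x | x ∈ KS F ξ}) (fun a ha => ha) (hWo k) _ (hmo t ht))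
    refine ⟨b, hb, fun y hy α hα h13 => h12 (s.π y) (htp y hy).2 α hα ?_⟩
    rw [ev_bind (C := {x | x ∈ KS F ξ}) Tm.cst _ _ (fun a _ => rfl) _ (hmo t ht),
      (hwt y (htp y hy).1 k).2, ← hev t ht _ (hwt y (htp y hy).1 k).1]
    exact h13
  -- the conclusion
  have hcount : {q : Tm × ℕ | q.1.Over Ψ {p, θ.toZFSet}}.Countable := by
    have h12 := (over_countable hfin.countable (C := {p, θ.toZFSet})
      ((Set.countable_singleton θ.toZFSet).insert p)).prod (Set.countable_univ (α := ℕ))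
    exact h12.mono fun q hq => Set.mem_prod.2 ⟨hq, Set.mem_univ _⟩
  have hge : ℵ₀ ≤ ν.cof := Ordinal.aleph0_le_cof_iff.2 (Ordinal.one_lt_cof_iff.2 hreg.1)
  refine le_antisymm ?_ hge
  by_contra hcon
  rw [not_le] at hcon
  have hpos : 0 < ν := hreg.1.bot_lt
  have hne2 : {q : Tm × ℕ | q.1.Over Ψ {p, θ.toZFSet}}.Nonempty := ⟨(Tm.var, 0), trivial⟩
  obtain ⟨e, he⟩ := hcount.exists_eq_range hne2
  have h12 : ∀ n : ℕ, ∃ b < ν, ∀ y, Tp (Bs J s.ζ (i + 1)) y → ∀ α < ν,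
        s.π ((e n).1.ev (KA F ξ) (wt J (i + 1) y (e n).2)) = α.toZFSet → α < b := by
    intro n
    refine key2 (e n) ?_
    have : e n ∈ Set.range e := ⟨n, rfl⟩
    rwa [← he] at this
  choose b hb hb' using h12
  have h13 : ⨆ n, b n < ν := Ordinal.iSup_lt_of_lt_cof (by rwa [Cardinal.mk_nat]) hb
  obtain ⟨α, hα, hαH, hαπ⟩ := h11 _ h13
  obtain ⟨t, ht, k, y, hy, h14⟩ := key1 α hαH hα
  have h15 : (t, k) ∈ Set.range e := by
    rw [← he]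
    exact ht
  obtain ⟨n, hn⟩ := h15
  have h16 := hb' n y hy _ h13 (by
    rw [hn]
    show s.π (t.ev (KA F ξ) (wt J (i + 1) y k)) = _
    rw [← h14, hαπ])
  exact absurd (Ordinal.le_iSup b n) (not_le.2 h16)

end Pool.Agent.helper797_cs
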