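import Pool.Agent.helper797_cs.PM0
import Pool.Agent.helper797_cs.PKU

/-! # M6: elimination of the critical points above (case `U(Ψ)`, `F` amenable) -/

set_option autoImplicit false
namespace Pool.Agent.helper797_cs
open Pool.Agent.W868 Pool.Agent.R587
open ZFSet (pair)
open Cardinal Order

variable {F : ZFSet.{0}} {θ δ : Ordinal.{0}} {J : IT F θ δ}

/-- `g` is a partial function from `S_θ` to `θ`. -/
def PFn (F : ZFSet.{0}) (θ : Ordinal.{0}) (g : ZFSet.{0}) : Prop :=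
  Fnl g ∧ ∀ p ∈ g, ∃ u ∈ KS F θ, ∃ α < θ, p = pair u α.toZFSet

namespace M6

/-- The set of the `b ∈ T` with `((u, b), e) ∈ g`. -/
noncomputable def Es (T g u e : ZFSet.{0}) : ZFSet.{0} :=
  ZFSet.sep (fun b => pair (pair u b) e ∈ g) T

theorem mem_Es {T g u e b : ZFSet.{0}} : b ∈ Es T g u e ↔ b ∈ T ∧ pair (pair u b) e ∈ g :=
  ZFSet.mem_sep

theorem eq_Es {z T g u e : ZFSet.{0}} : z = Es T g u e ↔
    (∀ b ∈ z, b ∈ T ∧ pair (pair u b) e ∈ g) ∧ ∀ b ∈ T, pair (pair u b) e ∈ g → b ∈ z := by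
  constructor
  · rintro rfl
    exact ⟨fun b hb => mem_Es.1 hb, fun b hb h => mem_Es.2 ⟨hb, h⟩⟩
  · rintro ⟨h1, h2⟩
    ext b
    rw [mem_Es]
    exact ⟨h1 b, fun h => h2 b h.1 h.2⟩

section

variable {n : ℕ} {U B E G T Z : (Fin n → ZFSet.{0}) → ZFSet.{0}}

theorem db_pm (hU : D0v U) (hB : D0v B) (hE : D0v E) (hG : D0v G) :
    DB fun v => pair (pair (U v) (B v)) (E v) ∈ G v := by
  have h1 : DB fun v => ∃ p ∈ G v, ∃ x y, p = pair x y ∧ (x = pair (U v) (B v) ∧ y = E v) := by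
    apply DB.bex (Q := fun p v => ∃ x y, p = pair x y ∧ (x = pair (U v) (B v) ∧ y = E v)) hG
    apply DB.expair (F := fun w : Fin (n + 1) → ZFSet.{0} => w 0)
      (Q := fun x y w => x = pair (U (Fin.tail w)) (B (Fin.tail w)) ∧ y = E (Fin.tail w))
      (D0v.proj 0)
    exact DB.and (DB.isPair (D0v.proj 1) hU.tail.tail.tail hB.tail.tail.tail)
      (DB.eq (D0v.proj 0) hE.tail.tail.tail)
  refine h1.congr fun v => ?_
  constructor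
  · rintro ⟨p, hp, x, y, h2, rfl, rfl⟩
    exact h2 ▸ hp
  · intro h
    exact ⟨_, h, _, _, rfl, rfl, rfl⟩

theorem db_Es (hZ : D0v Z) (hT : D0v T) (hG : D0v G) (hU : D0v U) (hE : D0v E) :
    DB fun v => Z v = Es (T v) (G v) (U v) (E v) := by
  have h1 : DB fun v => (∀ b ∈ Z v, b ∈ T v ∧ pair (pair (U v) b) (E v) ∈ G v) ∧
      ∀ b ∈ T v, pair (pair (U v) b) (E v) ∈ G v → b ∈ Z v := by
    apply DB.and
    · apply DB.ball (Q := fun b v => b ∈ T v ∧ pair (pair (U v) b) (E v) ∈ G v) hZ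
      exact DB.and (DB.mem (D0v.proj 0) hT.tail)
        (db_pm hU.tail (D0v.proj 0) hE.tail hG.tail)
    · apply DB.ball (Q := fun b v => pair (pair (U v) b) (E v) ∈ G v → b ∈ Z v) hT
      exact DB.imp (db_pm hU.tail (D0v.proj 0) hE.tail hG.tail) (DB.mem (D0v.proj 0) hZ.tail)
  exact h1.congr fun v => eq_Es.symm

/-- `Q` is an element of `K` and `K` is the set `Es` of the components of `P`. -/
theorem db_pe {P : (Fin n → ZFSet.{0}) → ZFSet.{0}} (hP : D0v P) (hZ : D0v Z) (hT : D0v T)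
    (hG : D0v G) : DB fun v => ∃ u e, P v = pair u e ∧ Z v = Es (T v) (G v) u e := by
  apply DB.expair (Q := fun u e v => Z v = Es (T v) (G v) u e) hP
  exact db_Es hZ.tail.tail hT.tail.tail hG.tail.tail (D0v.proj 1) (D0v.proj 0)

end

/-- Definable over the level. -/
def Dk (F : ZFSet.{0}) (ξ : Ordinal.{0}) {n : ℕ} (R : (Fin n → ZFSet.{0}) → Prop) : Prop :=
  ∃ φ : Fo n, ∀ v, (∀ i, v i ∈ KS F ξ) → (φ.Sat (KA F ξ) v ↔ R v)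

section

variable {ξ : Ordinal.{0}} {n : ℕ} {R R' : (Fin n → ZFSet.{0}) → Prop}

theorem Dk.of_db (h : DB R) : Dk F ξ R := by
  obtain ⟨φ, -, hφ⟩ := h
  exact ⟨φ, fun v hv => hφ (KA F ξ) (fun x hx y hy => ks_trans ξ x hx y hy) v hv⟩

theorem Dk.not (h : Dk F ξ R) : Dk F ξ fun v => ¬ R v := by
  obtain ⟨φ, hφ⟩ := h
  exact ⟨.neg φ, fun v hv => not_congr (hφ v hv)⟩

theorem Dk.and (h : Dk F ξ R) (h' : Dk F ξ R') : Dk F ξ fun v => R v ∧ R' v := by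
  obtain ⟨φ, hφ⟩ := h
  obtain ⟨ψ, hψ⟩ := h'
  exact ⟨.and φ ψ, fun v hv => and_congr (hφ v hv) (hψ v hv)⟩

theorem Dk.congr (h : Dk F ξ R) (h' : ∀ v, R v ↔ R' v) : Dk F ξ R' := by
  obtain ⟨φ, hφ⟩ := h
  exact ⟨φ, fun v hv => (hφ v hv).trans (h' v)⟩

theorem Dk.imp (h : Dk F ξ R) (h' : Dk F ξ R') : Dk F ξ fun v => R v → R' v :=
  (h.and h'.not).not.congr fun v => by tauto

theorem Dk.iff (h : Dk F ξ R) (h' : Dk F ξ R') : Dk F ξ fun v => R v ↔ R' v :=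
  ((h.imp h').and (h'.imp h)).congr fun v => by tauto

theorem Dk.ex {Q : ZFSet.{0} → (Fin n → ZFSet.{0}) → Prop}
    (h : Dk F ξ fun w : Fin (n + 1) → ZFSet.{0} => Q (w 0) (Fin.tail w)) :
    Dk F ξ fun v => ∃ a ∈ KS F ξ, Q a v := by
  obtain ⟨φ, hφ⟩ := h
  refine ⟨.ex φ, fun v hv => ?_⟩
  have hc : ∀ a ∈ KS F ξ, ∀ k, (Fin.cons a v : Fin (n + 1) → ZFSet.{0}) k ∈ KS F ξ := by
    intro a ha k
    refine Fin.cases ?_ (fun k => ?_) k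
    · exact ha
    · exact hv k
  constructor
  · rintro ⟨a, ha, h1⟩
    exact ⟨a, ha, (hφ _ (hc a ha)).1 h1⟩
  · rintro ⟨a, ha, h1⟩
    exact ⟨a, ha, (hφ _ (hc a ha)).2 h1⟩

theorem Dk.all {Q : ZFSet.{0} → (Fin n → ZFSet.{0}) → Prop}
    (h : Dk F ξ fun w : Fin (n + 1) → ZFSet.{0} => Q (w 0) (Fin.tail w)) :
    Dk F ξ fun v => ∀ a ∈ KS F ξ, Q a v := by
  have h1 := (Dk.ex (Q := fun a v => ¬ Q a v) h.not).not
  refine h1.congr fun v => ?_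
  constructor
  · intro h2 a ha
    by_contra h3
    exact h2 ⟨a, ha, h3⟩
  · rintro h2 ⟨a, ha, h3⟩
    exact h3 (h2 a ha)

theorem Dk.pF (i : Fin n) : Dk F ξ fun v : Fin n → ZFSet.{0} => v i ∈ F :=
  ⟨.pF i, fun _ _ => Iff.rfl⟩

end

theorem add_nat_lt {ξ ζ : Ordinal.{0}} (hξ : IsSuccLimit ξ) (h : ζ < ξ) (m : ℕ) :
    ζ + m < ξ := by
  induction m with
  | zero => simpa using h
  | succ m ih =>
    rw [Nat.cast_succ, ← add_assoc]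
    have := hξ.succ_lt ih
    rwa [Order.succ_eq_add_one] at this

/-- The levels of the sets `Es` are bounded. -/
theorem exists_bd {ξ : Ordinal.{0}} (hξ : IsSuccLimit ξ) (hθξ : θ < ξ)
    {g : ZFSet.{0}} (hg : g ∈ KS F ξ) :
    ∃ a ∈ KS F ξ, ∀ u ∈ KS F θ, ∀ e ∈ KS F θ, Es θ.toZFSet g u e ∈ a := by
  obtain ⟨m, hm⟩ := db_sep_unif (n := 3) (R := fun w => pair (pair (w 2) (w 0)) (w 3) ∈ w 1)
    (db_pm (D0v.proj 2) (D0v.proj 0) (D0v.proj 3) (D0v.proj 1))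
  obtain ⟨ζ₁, h1, h1'⟩ := (ks_limit hξ).1 hg
  obtain ⟨ζ₂, h2, h2'⟩ := (ks_limit hξ).1 ((ks_ord (F := F) hξ).2 hθξ)
  set ζ₀ := max (max ζ₁ ζ₂) θ with hζ₀
  have h3 : ζ₀ < ξ := max_lt (max_lt h1 h2) hθξ
  refine ⟨KS F (ζ₀ + m), ks_mem (add_nat_lt hξ h3 m), fun u hu e he => ?_⟩
  have h4 := hm F ζ₀ ![g, u, e] θ.toZFSet (by
    intro i
    fin_cases i
    · exact ks_mono (le_max_of_le_left (le_max_left _ _)) h1'
    · exact ks_mono (le_max_right _ _) hu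
    · exact ks_mono (le_max_right _ _) he)
    (ks_mono (le_max_of_le_left (le_max_right _ _)) h2')
  exact h4

/-- The function with the last critical point eliminated. -/
noncomputable def g1 (F : ZFSet.{0}) (θ : Ordinal.{0}) (g : ZFSet.{0}) : ZFSet.{0} :=
  ZFSet.sep (fun p => ∃ u e, p = pair u e ∧ Es θ.toZFSet g u e ∈ F)
    (ZFSet.prod (KS F θ) θ.toZFSet)

theorem mem_g1 {g u e : ZFSet.{0}} : pair u e ∈ g1 F θ g ↔
    u ∈ KS F θ ∧ e ∈ θ.toZFSet ∧ Es θ.toZFSet g u e ∈ F := by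
  unfold g1
  rw [ZFSet.mem_sep, ZFSet.pair_mem_prod]
  constructor
  · rintro ⟨⟨h1, h2⟩, u', e', h3, h4⟩
    obtain ⟨rfl, rfl⟩ := ZFSet.pair_inj.1 h3
    exact ⟨h1, h2, h4⟩
  · rintro ⟨h1, h2, h3⟩
    exact ⟨⟨h1, h2⟩, u, e, rfl, h3⟩

theorem mem_g1' {g p : ZFSet.{0}} : p ∈ g1 F θ g ↔
    ∃ u e, p = pair u e ∧ u ∈ KS F θ ∧ e ∈ θ.toZFSet ∧ Es θ.toZFSet g u e ∈ F := by
  constructor
  · intro h
    have h1 := (ZFSet.mem_sep.1 h).2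
    obtain ⟨u, e, rfl, -⟩ := h1
    exact ⟨u, e, rfl, mem_g1.1 h⟩
  · rintro ⟨u, e, rfl, h⟩
    exact mem_g1.2 h

theorem ord_mem_S (hθ : IsSuccLimit θ) {e : ZFSet.{0}} (he : e ∈ θ.toZFSet) : e ∈ KS F θ := by
  obtain ⟨α, hα, rfl⟩ := Ordinal.mem_toZFSet_iff.1 he
  exact (ks_ord hθ).2 hα

theorem g1_mem (hθ : IsSuccLimit θ) {ξ : Ordinal.{0}} (hξ : IsSuccLimit ξ) (hθξ : θ < ξ)
    (ham : ∀ a ∈ KS F ξ, F ∩ a ∈ KS F ξ) {g : ZFSet.{0}} (hg : g ∈ KS F ξ) :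
    g1 F θ g ∈ KS F ξ := by
  obtain ⟨a, ha, h⟩ := exists_bd (F := F) hξ hθξ hg
  have hd : ZFSet.prod (KS F θ) θ.toZFSet ∈ KS F ξ :=
    (ks_gd hξ).prod_mem (ks_mem hθξ) ((ks_ord hξ).2 hθξ)
  have hdb : DB fun w : Fin 4 → ZFSet.{0} =>
      ∃ E ∈ w 3, ∃ u e, w 0 = pair u e ∧ E = Es (w 2) (w 1) u e := by
    apply DB.bex (Q := fun E w => ∃ u e, w 0 = pair u e ∧ E = Es (w 2) (w 1) u e) (D0v.proj 3)
    exact db_pe (D0v.proj (0 : Fin 4)).tail (D0v.proj 0) (D0v.proj (2 : Fin 4)).tail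
      (D0v.proj (1 : Fin 4)).tail
  have h1 := db_sep hdb (F := F) hξ (v := ![g, θ.toZFSet, F ∩ a])
    (d := ZFSet.prod (KS F θ) θ.toZFSet) (by
      intro i
      fin_cases i
      · exact hg
      · exact (ks_ord hξ).2 hθξ
      · exact ham a ha) hd
  refine (congrArg (· ∈ KS F ξ) ?_).mp h1
  unfold g1
  ext p
  rw [ZFSet.mem_sep, ZFSet.mem_sep]
  refine and_congr_right fun hp => ?_
  constructor
  · rintro ⟨E, hE, u, e, h2, rfl⟩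
    exact ⟨u, e, h2, (ZFSet.mem_inter.1 hE).1⟩
  · rintro ⟨u, e, rfl, h2⟩
    obtain ⟨hu, he⟩ := ZFSet.pair_mem_prod.1 hp
    exact ⟨_, ZFSet.mem_inter.2 ⟨h2, h u hu e (ord_mem_S hθ he)⟩, u, e, rfl, rfl⟩

theorem Es_mem {ξ : Ordinal.{0}} (hξ : IsSuccLimit ξ) {T g u e : ZFSet.{0}} (hT : T ∈ KS F ξ)
    (hg : g ∈ KS F ξ) (hu : u ∈ KS F ξ) (he : e ∈ KS F ξ) : Es T g u e ∈ KS F ξ := by
  have h1 := db_sep (n := 3) (R := fun w => pair (pair (w 2) (w 0)) (w 3) ∈ w 1)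
    (db_pm (D0v.proj 2) (D0v.proj 0) (D0v.proj 3) (D0v.proj 1)) (F := F) hξ (v := ![g, u, e])
    (d := T) (by
      intro i
      fin_cases i
      · exact hg
      · exact hu
      · exact he) hT
  exact h1

/-- The set `Es` is in `R_j` if the parameters are. -/
theorem Es_rl {j ξ : Ordinal.{0}} (hj : j < θ) (hξδ : ξ < δ) (hξ : IsSuccLimit ξ)
    (hξj : ξ.toZFSet ∈ J.Rl j) {T g u e : ZFSet.{0}} (hT : T ∈ J.Rl j ∧ T ∈ KS F ξ)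
    (hg : g ∈ J.Rl j ∧ g ∈ KS F ξ) (hu : u ∈ J.Rl j ∧ u ∈ KS F ξ)
    (he : e ∈ J.Rl j ∧ e ∈ KS F ξ) : Es T g u e ∈ J.Rl j := by
  have hdb : Dk F ξ fun w : Fin 5 → ZFSet.{0} => w 0 = Es (w 1) (w 2) (w 3) (w 4) :=
    Dk.of_db (db_Es (D0v.proj 0) (D0v.proj 1) (D0v.proj 2) (D0v.proj 3) (D0v.proj 4))
  obtain ⟨φ, hφ⟩ := hdb
  have hv : ∀ i, (![T, g, u, e] : Fin 4 → ZFSet.{0}) i ∈ J.Rl j ∧
      (![T, g, u, e] : Fin 4 → ZFSet.{0}) i ∈ KS F ξ := by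
    intro i
    fin_cases i
    · exact hT
    · exact hg
    · exact hu
    · exact he
  refine rl_uniq J hj hξδ hξ hξj φ ![T, g, u, e] hv (Es_mem hξ hT.2 hg.2 hu.2 he.2) ?_
  intro z hz
  refine hφ _ ?_
  intro i
  refine Fin.cases ?_ (fun i => ?_) i
  · exact hz
  · exact (hv i).2

theorem g1_rl (hθ : IsSuccLimit θ) {ζ ξ : Ordinal.{0}} (hζ : ζ < θ) (hξδ : ξ < δ)
    (hξ : IsSuccLimit ξ) (hθξ : θ < ξ) (ham : ∀ a ∈ KS F ξ, F ∩ a ∈ KS F ξ)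
    (hξζ : ξ.toZFSet ∈ J.Rl ζ) (hθζ : θ.toZFSet ∈ J.Rl ζ) (hSζ : KS F θ ∈ J.Rl ζ)
    {g : ZFSet.{0}} (hg : g ∈ J.Rl ζ) (hgξ : g ∈ KS F ξ) : g1 F θ g ∈ J.Rl ζ := by
  have hdb : Dk F ξ fun w : Fin 4 → ZFSet.{0} => ∀ p ∈ KS F ξ, (p ∈ w 0 ↔
      ((∃ u e, p = pair u e ∧ (u ∈ w 3 ∧ e ∈ w 2)) ∧
        ∃ E ∈ KS F ξ, E ∈ F ∧ ∃ u e, p = pair u e ∧ E = Es (w 2) (w 1) u e)) := by
    apply Dk.all (Q := fun p w => (p ∈ w 0 ↔
      ((∃ u e, p = pair u e ∧ (u ∈ w 3 ∧ e ∈ w 2)) ∧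
        ∃ E ∈ KS F ξ, E ∈ F ∧ ∃ u e, p = pair u e ∧ E = Es (w 2) (w 1) u e)))
    refine Dk.iff ?_ (Dk.and ?_ ?_)
    · exact Dk.of_db (DB.mem (D0v.proj 0) (D0v.proj (0 : Fin 4)).tail)
    · apply Dk.of_db
      apply DB.expair (F := fun w : Fin 5 → ZFSet.{0} => w 0)
        (Q := fun u e w => u ∈ (Fin.tail w) 3 ∧ e ∈ (Fin.tail w) 2) (D0v.proj 0)
      exact DB.and (DB.mem (D0v.proj 1) (D0v.proj (3 : Fin 4)).tail.tail.tail)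
        (DB.mem (D0v.proj 0) (D0v.proj (2 : Fin 4)).tail.tail.tail)
    · apply Dk.ex (Q := fun E (w : Fin 5 → ZFSet.{0}) => E ∈ F ∧ ∃ u e, w 0 = pair u e ∧
        E = Es ((Fin.tail w) 2) ((Fin.tail w) 1) u e)
      refine Dk.and (Dk.pF 0) (Dk.of_db ?_)
      exact db_pe (D0v.proj (0 : Fin 5)).tail (D0v.proj 0) (D0v.proj (2 : Fin 4)).tail.tail
        (D0v.proj (1 : Fin 4)).tail.tail
  obtain ⟨φ, hφ⟩ := hdb
  have hv : ∀ i, (![g, θ.toZFSet, KS F θ] : Fin 3 → ZFSet.{0}) i ∈ J.Rl ζ ∧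
      (![g, θ.toZFSet, KS F θ] : Fin 3 → ZFSet.{0}) i ∈ KS F ξ := by
    intro i
    fin_cases i
    · exact ⟨hg, hgξ⟩
    · exact ⟨hθζ, (ks_ord hξ).2 hθξ⟩
    · exact ⟨hSζ, ks_mem hθξ⟩
  have hg1 := g1_mem (F := F) hθ hξ hθξ ham hgξ
  refine rl_uniq J hζ hξδ hξ hξζ φ ![g, θ.toZFSet, KS F θ] hv hg1 ?_
  intro z hz
  have hc : ∀ i, (Fin.cons z ![g, θ.toZFSet, KS F θ] : Fin 4 → ZFSet.{0}) i ∈ KS F ξ := by
    intro i
    refine Fin.cases ?_ (fun i => ?_) i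
    · exact hz
    · exact (hv i).2
  refine (hφ _ hc).trans ?_
  have key : ∀ p ∈ KS F ξ, (p ∈ g1 F θ g ↔
      ((∃ u e, p = pair u e ∧ (u ∈ KS F θ ∧ e ∈ θ.toZFSet)) ∧
        ∃ E ∈ KS F ξ, E ∈ F ∧ ∃ u e, p = pair u e ∧ E = Es θ.toZFSet g u e)) := by
    intro p hp
    rw [mem_g1']
    constructor
    · rintro ⟨u, e, rfl, hu, he, h⟩
      refine ⟨⟨u, e, rfl, hu, he⟩, _, ?_, h, u, e, rfl, rfl⟩
      exact Es_mem hξ ((ks_ord hξ).2 hθξ) hgξ (ks_mono hθξ.le hu)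
        (ks_mono hθξ.le (ord_mem_S hθ he))
    · rintro ⟨⟨u, e, rfl, hu, he⟩, E, -, hEF, u', e', h1, rfl⟩
      obtain ⟨rfl, rfl⟩ := ZFSet.pair_inj.1 h1
      exact ⟨u, e, rfl, hu, he, hEF⟩
  constructor
  · intro h
    ext p
    constructor
    · intro hp
      have hp' := ks_trans ξ z hz p hp
      exact (key p hp').2 ((h p hp').1 hp)
    · intro hp
      have hp' := ks_trans ξ _ hg1 p hp
      exact (h p hp').2 ((key p hp').1 hp)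
  · rintro rfl
    exact key

theorem g1_pfn (hθ : IsSuccLimit θ) {ξ : Ordinal.{0}} (hξδ : ξ < δ) (hξ : IsSuccLimit ξ)
    (hθξ : θ < ξ) (J : IT F θ δ) {g : ZFSet.{0}} (hgξ : g ∈ KS F ξ) (hgf : PFn F θ g) :
    PFn F θ (g1 F θ g) := by
  constructor
  · intro u e e' h h'
    obtain ⟨hu, he, hE⟩ := mem_g1.1 h
    obtain ⟨-, he', hE'⟩ := mem_g1.1 h'
    have hm : ∀ e ∈ θ.toZFSet, Es θ.toZFSet g u e ∈ KS F δ := fun e he =>
      ks_mono hξδ.le (Es_mem hξ ((ks_ord hξ).2 hθξ) hgξ (ks_mono hθξ.le hu)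
        (ks_mono hθξ.le (ord_mem_S hθ he)))
    obtain ⟨i, hi, h1⟩ := J.cov _ (hm e he)
    obtain ⟨i', hi', h1'⟩ := J.cov _ (hm e' he')
    have hj : max i i' < θ := max_lt hi hi'
    have h2 := (J.tail _ hj _ (J.mono _ _ (le_max_left i i') hj h1)
      (fun b hb => (mem_Es.1 hb).1)).2 hE
    have h2' := (J.tail _ hj _ (J.mono _ _ (le_max_right i i') hj h1')
      (fun b hb => (mem_Es.1 hb).1)).2 hE'
    exact hgf.1 _ _ _ (mem_Es.1 h2).2 (mem_Es.1 h2').2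
  · intro p hp
    obtain ⟨u, e, rfl, hu, he, -⟩ := mem_g1'.1 hp
    obtain ⟨α, hα, rfl⟩ := Ordinal.mem_toZFSet_iff.1 he
    exact ⟨u, hu, α, hα, rfl⟩

theorem tp_wt {ζ i : Ordinal.{0}} (hi : ζ ≤ i) {x : ZFSet.{0}} (hx : Tp (Cp J ζ i) x) (k : ℕ) :
    Tp (Cp J ζ (i + k)) (wt J i x k) := by
  have hmono : ∀ a b : Ordinal.{0}, a ≤ b → ∀ y, Tp (Cp J ζ a) y → Tp (Cp J ζ b) y := by
    intro a b hab y hy
    induction hy with
    | base h =>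
      obtain ⟨j, h1, h2, h3⟩ := h
      exact .base ⟨j, h1, h2.trans_le hab, h3⟩
    | pr _ _ h1 h2 => exact .pr h1 h2
  induction k with
  | zero => simpa [wt] using hx
  | succ k ih =>
    rw [wt]
    have hlt : i + (k : Ordinal.{0}) < i + ((k + 1 : ℕ) : Ordinal.{0}) := by
      have : (k : Ordinal.{0}) < ((k + 1 : ℕ) : Ordinal.{0}) := by exact_mod_cast Nat.lt_succ_self k
      exact (add_lt_add_iff_left i).2 this
    refine .pr (hmono _ _ hlt.le _ ih) (.base ⟨i + k, ?_, hlt, rfl⟩)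
    exact hi.trans le_self_add

end M6

open M6 in
/-- By induction on `k`: if `c` is the last critical point of the tuple then the set
`E = {β < θ : pair (pair u β) η ∈ g}` is in `F` (`tail` for the index of `c`), and `g'(u)` is the
unique `η` with `E_{u,η} ∈ F`. `g'` is in `S_ξ` by amenability, and in `R_ζ` by `rl_uniq`. -/
theorem elim_w {ξ : Ordinal.{0}} (hξ : IsSuccLimit ξ) (hξδ : ξ < δ) (hθξ : θ < ξ)
    (ham : ∀ a ∈ KS F ξ, F ∩ a ∈ KS F ξ) {ζ : Ordinal.{0}} (hξζ : ξ.toZFSet ∈ J.Rl ζ)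
    (hθζ : θ.toZFSet ∈ J.Rl ζ) (hSζ : KS F θ ∈ J.Rl ζ) {i : Ordinal.{0}} (hi : ζ ≤ i)
    (hiθ : i < θ) {x : ZFSet.{0}} (hx : Tp (Cp J ζ (i + 1)) x) {η : Ordinal.{0}}
    (hη : η < J.cr (i + 1)) {k : ℕ} {g : ZFSet.{0}} (hg : g ∈ J.Rl ζ) (hgξ : g ∈ KS F ξ)
    (hgf : PFn F θ g) (h : pair (wt J (i + 1) x k) η.toZFSet ∈ g) :
    ∃ g', g' ∈ J.Rl ζ ∧ g' ∈ KS F ξ ∧ PFn F θ g' ∧ pair x η.toZFSet ∈ g' := by
  have hθ := J.hθ
  induction k generalizing g with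
  | zero => exact ⟨g, hg, hgξ, hgf, h⟩
  | succ k ih =>
    rw [wt] at h
    set j := i + 1 + (k : Ordinal.{0}) with hjd
    have hi1 : i + 1 < θ := by
      have := hθ.succ_lt hiθ
      rwa [Order.succ_eq_add_one] at this
    have hj : j < θ := add_nat_lt hθ hi1 k
    have hij : i + 1 ≤ j := le_self_add
    have hζi : ζ ≤ i + 1 := hi.trans le_self_add
    have hζj : ζ ≤ j := hζi.trans hij
    have hζθ : ζ < θ := hζj.trans_lt hj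
    have hξj : ξ.toZFSet ∈ J.Rl j := J.mono _ _ hζj hj hξζ
    have hcj : J.cr (i + 1) ≤ J.cr j := by
      rcases hij.eq_or_lt with h1 | h1
      · rw [← h1]
      · exact (J.cr_mono _ _ h1 hj).le
    have hηθ : η < θ := hη.trans (J.cr_lt _ hi1)
    have hw := rl_Tp J hj hξδ hξ hθξ hξj (tp_wt hζi hx k)
    have hwθ : wt J (i + 1) x k ∈ KS F θ := ks_mono (J.cr_lt _ hj).le hw.2
    have hηj : η.toZFSet ∈ J.Rl j := (J.ord j hj η hηθ).2 (hη.trans_le hcj)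
    have hηS : η.toZFSet ∈ KS F θ := (ks_ord hθ).2 hηθ
    have hE : Es θ.toZFSet g (wt J (i + 1) x k) η.toZFSet ∈ J.Rl j :=
      Es_rl hj hξδ hξ hξj ⟨J.mono _ _ hζj hj hθζ, (ks_ord hξ).2 hθξ⟩
        ⟨J.mono _ _ hζj hj hg, hgξ⟩ ⟨hw.1, ks_mono hθξ.le hwθ⟩ ⟨hηj, ks_mono hθξ.le hηS⟩
    have hEF : Es θ.toZFSet g (wt J (i + 1) x k) η.toZFSet ∈ F :=
      (J.tail j hj _ hE (fun b hb => (mem_Es.1 hb).1)).1
        (mem_Es.2 ⟨Ordinal.toZFSet_mem_toZFSet_iff.2 (J.cr_lt _ hj), h⟩)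
    exact ih (g1_rl hθ hζθ hξδ hξ hθξ ham hξζ hθζ hSζ hg hgξ) (g1_mem hθ hξ hθξ ham hgξ)
      (g1_pfn hθ hξδ hξ hθξ J hgξ hgf)
      (mem_g1.2 ⟨hwθ, Ordinal.toZFSet_mem_toZFSet_iff.2 hηθ, hEF⟩)

end Pool.Agent.helper797_cs
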