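import Pool.Agent.helper797_cs.PM3
import Pool.Agent.helper797_cs.PM4
import Pool.Agent.helper797_cs.PM6
import Pool.Agent.helper797_cs.PK8
import Pool.Agent.helper797_cs.PKU

/-! # M7: bounds, the case that `U(Ψ)` holds -/

set_option autoImplicit false
namespace Pool.Agent.helper797_cs
open Pool.Agent.W868 Pool.Agent.R587
open ZFSet (pair)
open Cardinal Order

/-! ### Definability over a level -/

/-- `R` is defined over the structure `KA F ξ`. -/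
def PM7Dn (F : ZFSet.{0}) (ξ : Ordinal.{0}) {n : ℕ} (R : (Fin n → ZFSet.{0}) → Prop) : Prop :=
  ∃ φ : Fo n, ∀ v, (∀ i, v i ∈ KS F ξ) → (φ.Sat (KA F ξ) v ↔ R v)

namespace PM7Dn

variable {F : ZFSet.{0}} {ξ : Ordinal.{0}} {n : ℕ} {R T : (Fin n → ZFSet.{0}) → Prop}

theorem congr (h : PM7Dn F ξ R) (h' : ∀ v, (∀ i, v i ∈ KS F ξ) → (R v ↔ T v)) :
    PM7Dn F ξ T := by
  obtain ⟨φ, hφ⟩ := h
  exact ⟨φ, fun v hv => (hφ v hv).trans (h' v hv)⟩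

theorem of_db (h : DB R) : PM7Dn F ξ R := by
  obtain ⟨φ, -, hφ⟩ := h
  exact ⟨φ, fun v hv => hφ (KA F ξ) (fun x hx y hy => ks_trans ξ x hx y hy) v hv⟩

theorem not (h : PM7Dn F ξ R) : PM7Dn F ξ fun v => ¬ R v := by
  obtain ⟨φ, hφ⟩ := h
  exact ⟨.neg φ, fun v hv => not_congr (hφ v hv)⟩

theorem and (h : PM7Dn F ξ R) (h' : PM7Dn F ξ T) : PM7Dn F ξ fun v => R v ∧ T v := by
  obtain ⟨φ, hφ⟩ := h
  obtain ⟨ψ, hψ⟩ := h'
  exact ⟨.and φ ψ, fun v hv => and_congr (hφ v hv) (hψ v hv)⟩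

theorem imp (h : PM7Dn F ξ R) (h' : PM7Dn F ξ T) : PM7Dn F ξ fun v => R v → T v :=
  (h.and h'.not).not.congr fun v _ => by tauto

theorem iff (h : PM7Dn F ξ R) (h' : PM7Dn F ξ T) : PM7Dn F ξ fun v => R v ↔ T v :=
  ((h.imp h').and (h'.imp h)).congr fun v _ => by tauto

theorem ex {Q : ZFSet.{0} → (Fin n → ZFSet.{0}) → Prop}
    (h : PM7Dn F ξ fun w : Fin (n + 1) → ZFSet.{0} => Q (w 0) (Fin.tail w)) :
    PM7Dn F ξ fun v => ∃ a ∈ KS F ξ, Q a v := by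
  obtain ⟨φ, hφ⟩ := h
  refine ⟨.ex φ, fun v hv => ?_⟩
  simp only [Fo.Sat]
  refine exists_congr fun a => and_congr_right fun ha => ?_
  have hc : ∀ k, (Fin.cons a v : Fin (n + 1) → ZFSet.{0}) k ∈ KS F ξ := by
    intro k
    refine Fin.cases ?_ (fun k => ?_) k
    · exact ha
    · exact hv k
  exact hφ _ hc

theorem all {Q : ZFSet.{0} → (Fin n → ZFSet.{0}) → Prop}
    (h : PM7Dn F ξ fun w : Fin (n + 1) → ZFSet.{0} => Q (w 0) (Fin.tail w)) :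
    PM7Dn F ξ fun v => ∀ a ∈ KS F ξ, Q a v := by
  refine (PM7Dn.ex (Q := fun a v => ¬ Q a v) h.not).not.congr fun v _ => ?_
  constructor
  · intro h2 a ha
    by_contra h3
    exact h2 ⟨a, ha, h3⟩
  · rintro h2 ⟨a, ha, h3⟩
    exact h3 (h2 a ha)

theorem comp (h : PM7Dn F ξ R) {m : ℕ} (ρ : Fin n → Fin m) :
    PM7Dn F ξ fun v : Fin m → ZFSet.{0} => R fun i => v (ρ i) := by
  obtain ⟨φ, hφ⟩ := h
  refine ⟨φ.rn ρ, fun v hv => ?_⟩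
  rw [sat_rn]
  exact hφ _ fun i => hv _

theorem lv (i j : Fin n) : PM7Dn F ξ fun v : Fin n → ZFSet.{0} => lvl F (v i) = v j :=
  ⟨.lv i j, fun _ _ => Iff.rfl⟩

theorem mem (i j : Fin n) : PM7Dn F ξ fun v : Fin n → ZFSet.{0} => v i ∈ v j :=
  ⟨.mem i j, fun _ _ => Iff.rfl⟩

theorem bex (hξ : ∀ x ∈ KS F ξ, ∀ y ∈ x, y ∈ KS F ξ) (i : Fin n)
    {Q : ZFSet.{0} → (Fin n → ZFSet.{0}) → Prop}
    (h : PM7Dn F ξ fun w : Fin (n + 1) → ZFSet.{0} => Q (w 0) (Fin.tail w)) :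
    PM7Dn F ξ fun v => ∃ a ∈ v i, Q a v := by
  refine (PM7Dn.ex (Q := fun a v => a ∈ v i ∧ Q a v) ?_).congr fun v hv => ?_
  · exact (PM7Dn.mem (0 : Fin (n + 1)) i.succ).and h
  · constructor
    · rintro ⟨a, -, h1, h2⟩
      exact ⟨a, h1, h2⟩
    · rintro ⟨a, h1, h2⟩
      exact ⟨a, hξ _ (hv i) a h1, h1, h2⟩

end PM7Dn

/-- `w` is the level number `z`. -/
def PM7Lv (F z w : ZFSet.{0}) : Prop := ∃ η : Ordinal.{0}, z = η.toZFSet ∧ w = KS F η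

theorem pm7_eh (F : ZFSet.{0}) (η : Ordinal.{0}) :
    ∃ r, Eh F η.toZFSet = pair (KS F η) r := by
  have hpair : ∀ (a b : ZFSet.{0}), Eh F η.toZFSet = pair a b →
      ∃ r, Eh F η.toZFSet = pair (KS F η) r := by
    intro a b h
    refine ⟨b, ?_⟩
    have h1 : KS F η = a := by
      rw [KS, h, eS, fs_pair]
    rw [h1, h]
  rcases Ordinal.zero_or_succ_or_isSuccLimit η with h | ⟨ζ, h⟩ | h
  · subst h
    exact hpair _ _ eh_zero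
  · subst h
    have h1 := eh_succ (F := F) ζ
    unfold nxt at h1
    exact hpair _ _ h1
  · exact ⟨_, eh_limit h⟩

/-- The level number `z` is `w`, in terms of the function `lvl`. -/
theorem pm7_lv_iff {F : ZFSet.{0}} {ξ : Ordinal.{0}} {z w : ZFSet.{0}}
    (hw : w ∈ KS F ξ) : PM7Lv F z w ↔ ∃ r, pair z (pair w r) ∈ lvl F w := by
  obtain ⟨η', hη', h1, h2, h3⟩ := lvl_eq hw
  constructor
  · rintro ⟨η, rfl, rfl⟩
    have hlt : η < η' := by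
      by_contra hc
      rw [not_lt] at hc
      exact ZFSet.mem_irrefl _ (ks_mono hc h1)
    obtain ⟨r, hr⟩ := pm7_eh F η
    refine ⟨r, ?_⟩
    rw [h3, sq, ← hr]
    refine pair_mem_gr.2 ⟨?_, rfl⟩
    exact ZFSet.mem_insert_of_mem _ (Ordinal.toZFSet_mem_toZFSet_iff.2 hlt)
  · rintro ⟨r, hr⟩
    rw [h3, sq] at hr
    obtain ⟨h4, h5⟩ := pair_mem_gr.1 hr
    rw [← Ordinal.toZFSet_add_one] at h4
    obtain ⟨α, -, rfl⟩ := Ordinal.mem_toZFSet_iff.1 h4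
    refine ⟨α, rfl, ?_⟩
    rw [KS, ← h5, eS, fs_pair]

theorem pm7_db1 : DB fun v : Fin 3 → ZFSet.{0} => ∃ r, pair (v 1) (pair (v 2) r) ∈ v 0 := by
  have h : DB fun v : Fin 3 → ZFSet.{0} => ∃ p ∈ v 0, ∃ x y, p = pair x y ∧
      (x = v 1 ∧ ∃ w r, y = pair w r ∧ w = v 2) := by
    apply DB.bex (D0v.proj 0)
    apply DB.expair (D0v.proj 0)
    apply DB.and
    · exact DB.eq (D0v.proj 1) (D0v.proj 4)
    · apply DB.expair (D0v.proj 0)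
      exact DB.eq (D0v.proj 1) (D0v.proj 7)
  refine h.congr fun v => ?_
  constructor
  · rintro ⟨p, hp, x, y, rfl, rfl, w, r, rfl, rfl⟩
    exact ⟨r, hp⟩
  · rintro ⟨r, hr⟩
    exact ⟨_, hr, _, _, rfl, rfl, _, _, rfl, rfl⟩

theorem pm7_lv {F : ZFSet.{0}} {ξ : Ordinal.{0}} (hξ : IsSuccLimit ξ) :
    PM7Dn F ξ fun v : Fin 2 → ZFSet.{0} => PM7Lv F (v 0) (v 1) := by
  have h : PM7Dn F ξ fun v : Fin 2 → ZFSet.{0} => ∃ s ∈ KS F ξ,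
      lvl F (v 1) = s ∧ ∃ r, pair (v 0) (pair (v 1) r) ∈ s := by
    apply PM7Dn.ex
    apply PM7Dn.and
    · exact PM7Dn.lv (2 : Fin 3) 0
    · exact PM7Dn.of_db pm7_db1
  refine h.congr fun v hv => ?_
  rw [pm7_lv_iff (hv 1)]
  constructor
  · rintro ⟨s, -, rfl, h1⟩
    exact h1
  · intro h1
    exact ⟨_, lvl_mem hξ (hv 1), rfl, h1⟩

theorem pm7_fnl {n : ℕ} (i : Fin n) : DB fun v : Fin n → ZFSet.{0} => Fnl (v i) := by
  have h : DB fun v : Fin n → ZFSet.{0} => ∀ p ∈ v i, ∀ q ∈ v i, ¬ ∃ x y, p = pair x y ∧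
      ∃ x' y', q = pair x' y' ∧ (x = x' ∧ ¬ y = y') := by
    apply DB.ball (D0v.proj i)
    apply DB.ball (D0v.proj i.succ)
    apply DB.not
    apply DB.expair (D0v.proj 1)
    apply DB.expair (D0v.proj 2)
    apply DB.and
    · exact DB.eq (D0v.proj 3) (D0v.proj 1)
    · apply DB.not
      exact DB.eq (D0v.proj 2) (D0v.proj 0)
  refine h.congr fun v => ?_
  constructor
  · intro h1 x y y' h2 h3
    by_contra h4
    exact h1 _ h2 _ h3 ⟨x, y, rfl, x, y', rfl, rfl, h4⟩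
  · rintro h1 p hp q hq ⟨x, y, rfl, x', y', rfl, rfl, h4⟩
    exact h4 (h1 _ _ _ hp hq)

/-- `e` is a function from a subset of `A` onto `B`. -/
def PM7On (e A B : ZFSet.{0}) : Prop :=
  Fnl e ∧ (∀ p ∈ e, ∃ x ∈ A, ∃ y ∈ B, p = pair x y) ∧ ∀ y ∈ B, ∃ x ∈ A, pair x y ∈ e

theorem pm7_on : DB fun v : Fin 3 → ZFSet.{0} => PM7On (v 0) (v 1) (v 2) := by
  apply DB.and (pm7_fnl 0)
  apply DB.and
  · apply DB.ball (D0v.proj 0)
    apply DB.bex (D0v.proj 2)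
    apply DB.bex (D0v.proj 4)
    exact DB.isPair (D0v.proj 2) (D0v.proj 1) (D0v.proj 0)
  · apply DB.ball (D0v.proj 2)
    apply DB.bex (D0v.proj 2)
    exact DB.pairMem (D0v.proj 0) (D0v.proj 1) (D0v.proj 2)

theorem pm7_onto_iff {F : ZFSet.{0}} {θ ξ η : Ordinal.{0}} :
    Onto F θ ξ η ↔ ∃ e ∈ KS F ξ, PM7On e (KS F θ) (KS F η) := by
  constructor
  · rintro ⟨e, he, h1, h2, h3⟩
    refine ⟨e, he, h1, h2, fun y hy => ?_⟩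
    obtain ⟨x, hx⟩ := h3 y hy
    obtain ⟨x', hx', y', -, h4⟩ := h2 _ hx
    obtain ⟨rfl, rfl⟩ := ZFSet.pair_inj.1 h4
    exact ⟨x, hx', hx⟩
  · rintro ⟨e, he, h1, h2, h3⟩
    refine ⟨e, he, h1, h2, fun y hy => ?_⟩
    obtain ⟨x, -, hx⟩ := h3 y hy
    exact ⟨x, hx⟩

theorem pm7_rl_ex {F : ZFSet.{0}} {θ δ : Ordinal.{0}} (J : IT F θ δ) {i ξ : Ordinal.{0}}
    (hi : i < θ) (hξδ : ξ < δ) (hξ : IsSuccLimit ξ) (hξi : ξ.toZFSet ∈ J.Rl i) {n : ℕ}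
    {R : (Fin (n + 1) → ZFSet.{0}) → Prop} (hR : PM7Dn F ξ R) (v : Fin n → ZFSet.{0})
    (hv : ∀ j, v j ∈ J.Rl i ∧ v j ∈ KS F ξ) (h : ∃ z ∈ KS F ξ, R (Fin.cons z v)) :
    ∃ z, z ∈ J.Rl i ∧ z ∈ KS F ξ ∧ R (Fin.cons z v) := by
  obtain ⟨φ, hφ⟩ := hR
  have hc : ∀ z ∈ KS F ξ, ∀ k, (Fin.cons z v : Fin (n + 1) → ZFSet.{0}) k ∈ KS F ξ := by
    intro z hz k
    refine Fin.cases ?_ (fun k => ?_) k
    · exact hz
    · exact (hv k).2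
  obtain ⟨z, hz, h1⟩ := h
  obtain ⟨z', h2, h3, h4⟩ := rl_ex J hi hξδ hξ hξi φ v hv ⟨z, hz, (hφ _ (hc z hz)).2 h1⟩
  exact ⟨z', h2, h3, (hφ _ (hc z' h3)).1 h4⟩

theorem pm7_rl_uniq {F : ZFSet.{0}} {θ δ : Ordinal.{0}} (J : IT F θ δ) {i ξ : Ordinal.{0}}
    (hi : i < θ) (hξδ : ξ < δ) (hξ : IsSuccLimit ξ) (hξi : ξ.toZFSet ∈ J.Rl i) {n : ℕ}
    {R : (Fin (n + 1) → ZFSet.{0}) → Prop} (hR : PM7Dn F ξ R) (v : Fin n → ZFSet.{0})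
    (hv : ∀ j, v j ∈ J.Rl i ∧ v j ∈ KS F ξ) {z : ZFSet.{0}} (hz : z ∈ KS F ξ)
    (h : ∀ z' ∈ KS F ξ, (R (Fin.cons z' v) ↔ z' = z)) : z ∈ J.Rl i := by
  obtain ⟨z', h1, h2, h3⟩ := pm7_rl_ex J hi hξδ hξ hξi hR v hv ⟨z, hz, (h z hz).2 rfl⟩
  rwa [(h z' h2).1 h3] at h1

/-! ### The levels that are images -/

variable {F : ZFSet.{0}} {θ δ : Ordinal.{0}} {J : IT F θ δ}

/-- The levels in `R_ζ` that are images of `S_θ`. -/
def lvs {ξ : Ordinal.{0}} {Ψ : Set Mx} (s : Stp J ξ Ψ) : Set Ordinal.{0} :=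
  {η | η.toZFSet ∈ J.Rl s.ζ ∧ η < ξ ∧ Onto F θ ξ η}

theorem pm7_exists {ξ : Ordinal.{0}} (hξ : IsSuccLimit ξ)
    (hξδ : ξ < δ) (hθξ : θ < ξ) {Ψ : Set Mx} (s : Stp J ξ Ψ) {g c : ZFSet.{0}}
    (hg : g ∈ J.Rl s.ζ) (hgξ : g ∈ KS F ξ) (hc : c ∈ J.Rl s.ζ) (hcξ : c ∈ KS F ξ)
    (h : ∃ η < ξ, g ∈ KS F η ∧ c ∈ KS F η ∧ Onto F θ ξ η) :
    ∃ η ∈ lvs s, g ∈ KS F η ∧ c ∈ KS F η := by
  have hR : PM7Dn F ξ fun v : Fin 4 → ZFSet.{0} => ∃ w ∈ KS F ξ, PM7Lv F (v 0) w ∧ v 1 ∈ w ∧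
      v 2 ∈ w ∧ ∃ e ∈ KS F ξ, PM7On e (v 3) w := by
    apply PM7Dn.ex
    apply PM7Dn.and
    · exact (pm7_lv hξ).comp ![1, 0]
    · apply PM7Dn.and
      · exact PM7Dn.mem (2 : Fin 5) 0
      · apply PM7Dn.and
        · exact PM7Dn.mem (3 : Fin 5) 0
        · apply PM7Dn.ex
          exact (PM7Dn.of_db pm7_on).comp ![0, 5, 1]
  have hS : KS F θ ∈ KS F ξ := ks_mem hθξ
  obtain ⟨η, h1, h2, h3, h4⟩ := h
  obtain ⟨z, hz1, hz2, w, hw, ⟨η', rfl, rfl⟩, hz3, hz4, hz5⟩ :=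
    pm7_rl_ex J s.hζ hξδ hξ s.ξ_mem hR ![g, c, KS F θ] (by
      intro j
      fin_cases j
      · exact ⟨hg, hgξ⟩
      · exact ⟨hc, hcξ⟩
      · exact ⟨s.S_mem, hS⟩) ⟨η.toZFSet, (ks_ord hξ).2 h1, KS F η, ks_mem h1,
        ⟨η, rfl, rfl⟩, h2, h3, pm7_onto_iff.1 h4⟩
  exact ⟨η', ⟨hz1, (ks_ord hξ).1 hz2, pm7_onto_iff.2 hz5⟩, hz3, hz4⟩

theorem pm7_pfn_sub (hθ : IsSuccLimit θ) {g : ZFSet.{0}} (hgf : PFn F θ g) :
    g ⊆ KS F θ := by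
  intro p hp
  obtain ⟨u, hu, α, hα, rfl⟩ := hgf.2 p hp
  have hgd := ks_gd (F := F) hθ
  have h1 : ({u} : ZFSet.{0}) ∈ KS F θ := hgd.single_mem hu
  have h2 : ({u, α.toZFSet} : ZFSet.{0}) ∈ KS F θ := hgd.upair_mem hu ((ks_ord hθ).2 hα)
  exact hgd.upair_mem h1 h2

/-- Each partial function `S_θ → θ` in `R_ζ ∩ S_ξ` is in a level in `lvs`. (`accept`, `rl_ex`.) -/
theorem exists_lvs {Ψ₀ : Set Mx} (h0 : Cnds Ψ₀) {ξ : Ordinal.{0}} (hξ : IsSuccLimit ξ)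
    (hξδ : ξ < δ) (hθξ : θ < ξ) {Ψ : Set Mx} (s : Stp J ξ Ψ) {g : ZFSet.{0}}
    (hg : g ∈ J.Rl s.ζ) (hgξ : g ∈ KS F ξ) (hgf : PFn F θ g) : ∃ η ∈ lvs s, g ∈ KS F η := by
  obtain ⟨η, h1, h2, h3⟩ := accept h0 J.hθ hξ hθξ J.Fsub (pm7_pfn_sub J.hθ hgf) hgξ
  obtain ⟨η', h4, h5, -⟩ := pm7_exists hξ hξδ hθξ s hg hgξ hg hgξ ⟨η, h1, h2, h2, h3⟩
  exact ⟨η', h4, h5⟩

/-! ### The bound -/

theorem pm7_rl_HX {ξ : Ordinal.{0}} {Ψ : Set Mx} {ζ : Ordinal.{0}} (hζ : ζ < θ) {a : ZFSet.{0}}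
    (ha : a ∈ J.Rl ζ) (haξ : a ∈ KS F ξ) : a ∈ HX J ξ Ψ ζ :=
  ⟨.cst a, ⟨ha, haξ⟩, _, Tp.base ⟨ζ, le_rfl, hζ, rfl⟩, rfl⟩

theorem pm7_cr_HX {ξ : Ordinal.{0}} {Ψ : Set Mx} {ζ j : Ordinal.{0}} (hj : ζ ≤ j)
    (hjθ : j < θ) : (J.cr j).toZFSet ∈ HX J ξ Ψ ζ :=
  ⟨.var, trivial, _, Tp.base ⟨j, hj, hjθ, rfl⟩, rfl⟩

theorem pm7_pi_mem {ξ : Ordinal.{0}} {Ψ : Set Mx} (s : Stp J ξ Ψ) {x y : ZFSet.{0}}
    (hx : x ∈ HX J ξ Ψ s.ζ) (hy : y ∈ HX J ξ Ψ s.ζ) : x ∈ y ↔ s.π x ∈ s.π y :=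
  s.iso.mem x hx y hy

theorem pm7_pi_pair {ξ : Ordinal.{0}} {Ψ : Set Mx} (s : Stp J ξ Ψ) {x y : ZFSet.{0}}
    (hx : x ∈ HX J ξ Ψ s.ζ) (hy : y ∈ HX J ξ Ψ s.ζ) :
    pair x y ∈ HX J ξ Ψ s.ζ ∧ s.π (pair x y) = pair (s.π x) (s.π y) := by
  have h := s.clsd.pr x hx y hy
  exact ⟨h, s.iso.pr x hx y hy h⟩

theorem pm7_pi_ks {ξ : Ordinal.{0}} {Ψ : Set Mx} (s : Stp J ξ Ψ) {x : ZFSet.{0}}
    (hx : x ∈ HX J ξ Ψ s.ζ) : s.π x ∈ KS F ξ :=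
  s.iso.maps x hx

/-- Images of functional sets of pairs are functional. -/
theorem pm7_pi_fnl {ξ : Ordinal.{0}} {Ψ : Set Mx} (s : Stp J ξ Ψ) {e : ZFSet.{0}}
    (he : e ∈ HX J ξ Ψ s.ζ) (hf : Fnl e) (hp : ∀ p ∈ e, ∃ x y, p = pair x y) :
    Fnl (s.π e) := by
  intro a b b' h1 h2
  obtain ⟨z, hz, hze, hz1⟩ := (s.coll e he _).1 h1
  obtain ⟨z', hz', hze', hz1'⟩ := (s.coll e he _).1 h2
  obtain ⟨x, y, rfl⟩ := hp z hze
  obtain ⟨x', y', rfl⟩ := hp z' hze'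
  have hx : x ∈ HX J ξ Ψ s.ζ := by
    have := s.clsd.fst _ hz
    rwa [fs_pair] at this
  have hy : y ∈ HX J ξ Ψ s.ζ := by
    have := s.clsd.snd _ hz
    rwa [sn_pair] at this
  have hx' : x' ∈ HX J ξ Ψ s.ζ := by
    have := s.clsd.fst _ hz'
    rwa [fs_pair] at this
  have hy' : y' ∈ HX J ξ Ψ s.ζ := by
    have := s.clsd.snd _ hz'
    rwa [sn_pair] at this
  rw [(pm7_pi_pair s hx hy).2] at hz1
  rw [(pm7_pi_pair s hx' hy').2] at hz1'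
  obtain ⟨h3, h4⟩ := ZFSet.pair_inj.1 hz1
  obtain ⟨h5, h6⟩ := ZFSet.pair_inj.1 hz1'
  have h7 : x = x' := s.iso.inj x hx x' hx' (h3.symm.trans h5)
  subst h7
  rw [h4, h6, hf _ _ _ hze hze']

/-- `(..((x, d_0), d_1), ..., d_{k-1})`. -/
noncomputable def pm7wt (d : ℕ → ZFSet.{0}) (x : ZFSet.{0}) : ℕ → ZFSet.{0}
  | 0 => x
  | k + 1 => pair (pm7wt d x k) (d k)

theorem pm7wt_eq (i : Ordinal.{0}) (x : ZFSet.{0}) (k : ℕ) :
    wt J i x k = pm7wt (fun l => (J.cr (i + l)).toZFSet) x k := by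
  induction k with
  | zero => rfl
  | succ k ih => rw [wt, pm7wt, ih]

theorem pm7wt_pi {ξ : Ordinal.{0}} {Ψ : Set Mx} (s : Stp J ξ Ψ) {d : ℕ → ZFSet.{0}}
    (hd : ∀ l, d l ∈ HX J ξ Ψ s.ζ) {x : ZFSet.{0}} (hx : x ∈ HX J ξ Ψ s.ζ) (k : ℕ) :
    pm7wt d x k ∈ HX J ξ Ψ s.ζ ∧ s.π (pm7wt d x k) = pm7wt (fun l => s.π (d l)) (s.π x) k := by
  induction k with
  | zero => exact ⟨hx, rfl⟩
  | succ k ih =>
    obtain ⟨h1, h2⟩ := pm7_pi_pair s ih.1 (hd k)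
    refine ⟨h1, ?_⟩
    rw [pm7wt, pm7wt, h2, ih.2]

/-- The term for `pm7wt`. -/
noncomputable def pm7tm (d : ℕ → ZFSet.{0}) : ℕ → Tm
  | 0 => .var
  | k + 1 => .pr (pm7tm d k) (.cst (d k))

theorem pm7tm_ev (𝔄 : Stc) (d : ℕ → ZFSet.{0}) (k : ℕ) (x : ZFSet.{0}) :
    (pm7tm d k).ev 𝔄 x = pm7wt d x k := by
  induction k with
  | zero => rfl
  | succ k ih =>
    rw [pm7tm, pm7wt, Tm.ev, ih]
    rfl

theorem pm7tm_over {C : Set ZFSet.{0}} {Ψ : Set Mx} {d : ℕ → ZFSet.{0}} (hd : ∀ l, d l ∈ C)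
    (k : ℕ) : (pm7tm d k).Over Ψ C := by
  induction k with
  | zero => trivial
  | succ k ih => exact ⟨ih, hd k⟩

/-- The graph of the function of the pairs `(y, u)`. -/
def PM7R (z G e : ZFSet.{0}) : Prop :=
  ∃ y u α w g, z = pair (pair y u) α ∧ pair u w ∈ G ∧ pair y g ∈ e ∧ Fnl g ∧ pair w α ∈ g

theorem pm7_db2 : DB fun v : Fin 3 → ZFSet.{0} => PM7R (v 0) (v 1) (v 2) := by
  have h : DB fun v : Fin 3 → ZFSet.{0} => ∃ a α, v 0 = pair a α ∧ ∃ y u, a = pair y u ∧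
      ∃ p ∈ v 1, ∃ u' w, p = pair u' w ∧ (u' = u ∧ ∃ q ∈ v 2, ∃ y' g, q = pair y' g ∧
        (y' = y ∧ Fnl g ∧ pair w α ∈ g)) := by
    apply DB.expair (D0v.proj 0)
    apply DB.expair (D0v.proj 1)
    apply DB.bex (D0v.proj 5)
    apply DB.expair (D0v.proj 0)
    apply DB.and
    · exact DB.eq (D0v.proj 1) (D0v.proj 3)
    · apply DB.bex (D0v.proj 9)
      apply DB.expair (D0v.proj 0)
      apply DB.and
      · exact DB.eq (D0v.proj 1) (D0v.proj 7)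
      · apply DB.and
        · exact pm7_fnl 0
        · exact DB.pairMem (D0v.proj 3) (D0v.proj 8) (D0v.proj 0)
  refine h.congr fun v => ?_
  constructor
  · rintro ⟨a, α, h1, y, u, h2, p, hp, u', w, h3, h4, q, hq, y', g, h5, h6, h7, h8⟩
    subst h2 h3 h4 h5 h6
    exact ⟨y', u', α, w, g, h1, hp, hq, h7, h8⟩
  · rintro ⟨y, u, α, w, g, h1, hp, hq, h7, h8⟩
    exact ⟨_, _, h1, y, u, rfl, _, hp, u, w, rfl, rfl, _, hq, y, g, rfl, rfl, h7, h8⟩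

/-- The values of the functions in one level are bounded. (Let `e ∈ R_ζ` map a subset of `S_θ` onto
`S_η` (`rl_ex`). The partial function `(y, x') ↦ (π(e)(y))((..(x', π c_0)..), π c_{k-1})` on
`S_{c'+ω}` with values below `ν` is in `S_ξ`, so it is bounded by `ARg`.) -/
theorem bound {ξ : Ordinal.{0}} (hξ : IsSuccLimit ξ) (hξδ : ξ < δ) (hθξ : θ < ξ)
    {Ψ : Set Mx} (s : Stp J ξ Ψ) {ν : Ordinal.{0}} (hν : J.cr s.ζ < ν) (hνθ : ν < θ)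
    (hreg : ARg F ξ ν) {ν' i c' : Ordinal.{0}} (h1 : ν'.toZFSet ∈ HX J ξ Ψ s.ζ)
    (h2 : s.π ν'.toZFSet = ν.toZFSet) (hi : s.ζ ≤ i) (hiθ : i < θ) (h3 : J.cr i < ν')
    (h4 : ν' < J.cr (i + 1)) (h5 : J.cr s.ζ ≤ c') (h6 : c' + Ordinal.omega0 < ν)
    (h7 : ∀ x, Tp (Cp J s.ζ (i + 1)) x → x ∈ HX J ξ Ψ s.ζ ∧ s.π x ∈ KS F (c' + Ordinal.omega0))
    {η : Ordinal.{0}} (hη : η.toZFSet ∈ J.Rl s.ζ) (hηξ : η < ξ) (hon : Onto F θ ξ η) (k : ℕ) :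
    ∃ b < ν, ∀ g, g ∈ J.Rl s.ζ → g ∈ KS F η → PFn F θ g → ∀ x, Tp (Cp J s.ζ (i + 1)) x →
      ∀ α α' : Ordinal.{0}, α < ν' → α.toZFSet ∈ HX J ξ Ψ s.ζ →
      pair (wt J (i + 1) x k) α.toZFSet ∈ g → s.π α.toZFSet = α'.toZFSet → α' < b := by
  have hgd := ks_gd (F := F) hξ
  -- the level `S_η` is in `R_ζ`
  have hKη : KS F η ∈ J.Rl s.ζ := by
    refine pm7_rl_uniq J s.hζ hξδ hξ s.ξ_mem ((pm7_lv hξ).comp ![1, 0]) ![η.toZFSet] ?_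
      (ks_mem hηξ) ?_
    · intro j
      fin_cases j
      exact ⟨hη, (ks_ord hξ).2 hηξ⟩
    · intro z' _
      constructor
      · rintro ⟨α, h8, h9⟩
        have h10 : η = α := Ordinal.toZFSet_injective h8
        rw [h10]
        exact h9
      · intro h8
        exact ⟨η, rfl, h8⟩
  -- the function `e`
  obtain ⟨e, heR, heξ, he1, he2, he3⟩ : ∃ e, e ∈ J.Rl s.ζ ∧ e ∈ KS F ξ ∧
      PM7On e (KS F θ) (KS F η) := by
    obtain ⟨e, he, he'⟩ := pm7_onto_iff.1 hon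
    refine pm7_rl_ex J s.hζ hξδ hξ s.ξ_mem (PM7Dn.of_db pm7_on) ![KS F θ, KS F η] ?_
      ⟨e, he, he'⟩
    intro j
    fin_cases j
    · exact ⟨s.S_mem, ks_mem hθξ⟩
    · exact ⟨hKη, ks_mem hηξ⟩
  have heX : e ∈ HX J ξ Ψ s.ζ := pm7_rl_HX s.hζ heR heξ
  have hefn : Fnl (s.π e) := pm7_pi_fnl s heX he1 fun p hp => by
    obtain ⟨x, -, y, -, h⟩ := he2 p hp
    exact ⟨x, y, h⟩
  -- the critical points
  have hlim : ∀ l : ℕ, i + 1 + l < θ := by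
    intro l
    induction l with
    | zero =>
      rw [Nat.cast_zero, add_zero]
      exact J.hθ.add_one_lt hiθ
    | succ l ih =>
      have := J.hθ.add_one_lt ih
      rwa [Nat.cast_succ, ← add_assoc]
  have hd : ∀ l : ℕ, (J.cr (i + 1 + l)).toZFSet ∈ HX J ξ Ψ s.ζ := by
    intro l
    refine pm7_cr_HX ?_ (hlim l)
    exact hi.trans ((le_add_right le_rfl).trans (le_add_right le_rfl))
  -- the graph of the tuples
  set D : ZFSet.{0} := KS F (c' + Ordinal.omega0) with hD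
  have hcξ : c' + Ordinal.omega0 < ξ := h6.trans (hνθ.trans hθξ)
  have hDξ : D ∈ KS F ξ := ks_mem hcξ
  set d' : ℕ → ZFSet.{0} := fun l => s.π (J.cr (i + 1 + l)).toZFSet with hd'
  have hG : gr (fun x => pm7wt d' x k) D ∈ KS F ξ := by
    have h8 := ev_bdm (F := F) (Ψ := ∅) (by intro ψ hψ; exact hψ.elim) hξ
      (t := pm7tm d' k) (pm7tm_over (fun l => pm7_pi_ks s (hd l)) k) hDξ
    simpa only [pm7tm_ev] using h8
  set G := gr (fun x => pm7wt d' x k) D with hGdef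
  have hf : ZFSet.sep (fun z => PM7R z G (s.π e)) (ZFSet.prod (ZFSet.prod D D) ν.toZFSet) ∈
      KS F ξ := by
    refine db_sep pm7_db2 hξ (v := ![G, s.π e]) ?_
      (hgd.prod_mem (hgd.prod_mem hDξ hDξ) ((ks_ord hξ).2 (hνθ.trans hθξ)))
    intro j
    fin_cases j
    · exact hG
    · exact pm7_pi_ks s heX
  have hDlim : IsSuccLimit (c' + Ordinal.omega0) :=
    Ordinal.isSuccLimit_add c' Ordinal.isSuccLimit_omega0
  have hDgd := ks_gd (F := F) hDlim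
  obtain ⟨b, hb, H⟩ := hreg.2 _ h6 hDlim _ hf (by
      intro x y y' h8 h9
      obtain ⟨-, y₁, u₁, α₁, w₁, g₁, h10, h11, h12, h13, h14⟩ := ZFSet.mem_sep.1 h8
      obtain ⟨-, y₂, u₂, α₂, w₂, g₂, h10', h11', h12', h13', h14'⟩ := ZFSet.mem_sep.1 h9
      obtain ⟨h15, h16⟩ := ZFSet.pair_inj.1 h10
      obtain ⟨h15', h16'⟩ := ZFSet.pair_inj.1 h10'
      obtain ⟨h17, h18⟩ := ZFSet.pair_inj.1 (h15.symm.trans h15')
      subst h17 h18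
      have h19 : w₁ = w₂ := (pair_mem_gr.1 h11).2.trans (pair_mem_gr.1 h11').2.symm
      subst h19
      have h20 : g₁ = g₂ := hefn _ _ _ h12 h12'
      subst h20
      rw [h16, h16']
      exact h13 _ _ _ h14 h14') (by
      intro p hp
      obtain ⟨a, ha, α, hα, h8⟩ := ZFSet.mem_prod.1 (ZFSet.mem_sep.1 hp).1
      obtain ⟨y, hy, u, hu, h9⟩ := ZFSet.mem_prod.1 ha
      obtain ⟨α₁, hα₁, rfl⟩ := Ordinal.mem_toZFSet_iff.1 hα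
      refine ⟨a, ?_, α₁, hα₁, h8⟩
      rw [h9]
      exact hDgd.upair_mem (hDgd.single_mem hy) (hDgd.upair_mem hy hu))
  refine ⟨b, hb, ?_⟩
  intro g hgR hgη hgf x hx α α' hαν' hαX hpg hπα
  have hgξ : g ∈ KS F ξ := ks_mono hηξ.le hgη
  have hgX : g ∈ HX J ξ Ψ s.ζ := pm7_rl_HX s.hζ hgR hgξ
  -- the code of `g`
  obtain ⟨y, hyR, hyξ, hye⟩ : ∃ y, y ∈ J.Rl s.ζ ∧ y ∈ KS F ξ ∧ pair y g ∈ e := by
    obtain ⟨y, hy, hy'⟩ := he3 g hgη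
    refine pm7_rl_ex J s.hζ hξδ hξ s.ξ_mem (R := fun v : Fin 3 → ZFSet.{0} =>
      pair (v 0) (v 1) ∈ v 2) (PM7Dn.of_db (DB.pairMem (D0v.proj 0) (D0v.proj 1) (D0v.proj 2)))
      ![g, e] ?_ ⟨y, ks_mono hθξ.le hy, hy'⟩
    intro j
    fin_cases j
    · exact ⟨hgR, hgξ⟩
    · exact ⟨heR, heξ⟩
  have hyθ : y ∈ KS F θ := by
    obtain ⟨x₁, hx₁, y₁, -, h8⟩ := he2 _ hye
    rwa [(ZFSet.pair_inj.1 h8).1]
  have hyc : y ∈ KS F (J.cr s.ζ) := rl_S J s.hζ hξδ hξ hθξ s.ξ_mem hyR hyθ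
  obtain ⟨hyX, hyπ⟩ := s.fix y hyc
  have hxX := (h7 x hx).1
  obtain ⟨hwX, hwπ⟩ := pm7wt_pi s hd hxX k
  rw [pm7wt_eq] at hpg
  refine H (pair y (s.π x)) α' ?_
  rw [ZFSet.mem_sep]
  refine ⟨?_, y, s.π x, α'.toZFSet, pm7wt d' (s.π x) k, s.π g, rfl, ?_, ?_, ?_, ?_⟩
  · rw [ZFSet.pair_mem_prod, ZFSet.pair_mem_prod]
    refine ⟨⟨?_, (h7 x hx).2⟩, ?_⟩
    · exact ks_mono (h5.trans (le_add_right le_rfl)) hyc
    · rw [← hπα, ← h2]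
      exact (pm7_pi_mem s hαX h1).1 (Ordinal.toZFSet_mem_toZFSet_iff.2 hαν')
  · exact pair_mem_gr.2 ⟨(h7 x hx).2, rfl⟩
  · have h8 := pm7_pi_pair s hyX hgX
    rw [hyπ] at h8
    rw [← h8.2]
    exact (pm7_pi_mem s h8.1 heX).1 hye
  · refine pm7_pi_fnl s hgX hgf.1 fun p hp => ?_
    obtain ⟨u, -, β, -, h8⟩ := hgf.2 p hp
    exact ⟨u, _, h8⟩
  · have h8 := pm7_pi_pair s hwX hαX
    rw [hwπ, hπα] at h8
    rw [← h8.2]
    exact (pm7_pi_mem s h8.1 hgX).1 hpg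

/-! ### Cofinalities -/

set_option linter.deprecated false in
theorem pm7_cof {L : Set Ordinal.{0}} {ν : Ordinal.{0}} (hL : BddAbove L)
    (b : Ordinal.{0} → Ordinal.{0}) (hb : ∀ η ∈ L, b η < ν)
    (hm : ∀ η ∈ L, ∀ η' ∈ L, η ≤ η' → b η ≤ b η') (hc : ∀ α < ν, ∃ η ∈ L, α < b η) :
    ν.cof = (sSup ((fun η => η + 1) '' L)).cof := by
  have hbd : BddAbove ((fun η : Ordinal.{0} => η + 1) '' L) := by
    obtain ⟨u, hu⟩ := hL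
    refine ⟨u + 1, ?_⟩
    rintro _ ⟨η, hη, rfl⟩
    exact add_le_add_left (hu hη) 1
  have hlt : ∀ α, α < sSup ((fun η : Ordinal.{0} => η + 1) '' L) ↔ ∃ η ∈ L, α ≤ η := by
    intro α
    rw [lt_csSup_iff' hbd]
    constructor
    · rintro ⟨_, ⟨η, hη, rfl⟩, h⟩
      exact ⟨η, hη, Order.lt_add_one_iff.1 h⟩
    · rintro ⟨η, hη, h⟩
      exact ⟨_, ⟨η, hη, rfl⟩, Order.lt_add_one_iff.2 h⟩
  set τ := sSup ((fun η : Ordinal.{0} => η + 1) '' L) with hτ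
  apply le_antisymm
  · obtain ⟨ι, f, hf, hι⟩ := Ordinal.exists_lsub_cof τ
    have h1 : ∀ i, ∃ η ∈ L, f i ≤ η := fun i => (hlt _).1 (hf ▸ Ordinal.lt_lsub f i)
    choose e he hfe using h1
    have h2 : Ordinal.lsub.{0, 0} (fun i => b (e i)) = ν := by
      apply le_antisymm
      · exact Ordinal.lsub_le_iff.2 fun i => hb _ (he i)
      · by_contra h3
        rw [not_le] at h3
        obtain ⟨η, hη, h4⟩ := hc _ h3
        have h5 : η < Ordinal.lsub.{0, 0} f := by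
          rw [hf]
          exact (hlt _).2 ⟨η, hη, le_rfl⟩
        obtain ⟨i, hi⟩ := Ordinal.lt_lsub_iff.1 h5
        have h6 := hm η hη (e i) (he i) (hi.trans (hfe i))
        exact absurd (h4.trans_le h6) (not_lt.2 (Ordinal.lt_lsub (fun i => b (e i)) i).le)
    rw [← hι, ← h2]
    exact Ordinal.cof_lsub_le _
  · obtain ⟨ι, f, hf, hι⟩ := Ordinal.exists_lsub_cof ν
    have h1 : ∀ i, ∃ η ∈ L, f i < b η := fun i => hc _ (hf ▸ Ordinal.lt_lsub f i)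
    choose e he hfe using h1
    have h2 : Ordinal.lsub.{0, 0} e = τ := by
      apply le_antisymm
      · exact Ordinal.lsub_le_iff.2 fun i => (hlt _).2 ⟨_, he i, le_rfl⟩
      · by_contra h3
        rw [not_le] at h3
        obtain ⟨η, hη, h4⟩ := (hlt _).1 h3
        have h5 : b η < Ordinal.lsub.{0, 0} f := by
          rw [hf]
          exact hb η hη
        obtain ⟨i, hi⟩ := Ordinal.lt_lsub_iff.1 h5
        have h6 : ¬ e i ≤ η := fun h7 => absurd (hm _ (he i) _ hη h7)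
          (not_le.2 (hi.trans_lt (hfe i)))
        exact h6 ((Ordinal.lt_lsub e i).le.trans h4)
    rw [← hι, ← h2]
    exact Ordinal.cof_lsub_le _

set_option linter.deprecated false in
theorem pm7_cof_omega {ν : Ordinal.{0}} (hν : IsSuccLimit ν) {ι : Type} [Countable ι]
    (b : ι → Ordinal.{0}) (hb : ∀ i, b i < ν) (hc : ∀ α < ν, ∃ i, α < b i) :
    ν.cof = ℵ₀ := by
  apply le_antisymm
  · have h2 : Ordinal.lsub.{0, 0} b = ν := by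
      apply le_antisymm
      · exact Ordinal.lsub_le_iff.2 hb
      · by_contra h3
        rw [not_le] at h3
        obtain ⟨i, hi⟩ := hc _ h3
        exact absurd (Ordinal.lt_lsub b i) (not_lt.2 hi.le)
    rw [← h2]
    exact (Ordinal.cof_lsub_le _).trans (Cardinal.mk_le_aleph0)
  · exact Ordinal.aleph0_le_cof.2 hν

/-! ### The graphs of the terms -/

theorem pm7_graph {ξ : Ordinal.{0}} (hξ : IsSuccLimit ξ) (hξδ : ξ < δ) (hθξ : θ < ξ)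
    {Ψ : Set Mx} (s : Stp J ξ Ψ) (hPU : PU F θ ξ Ψ) {t : Tm}
    (ht : t.Over Ψ {x | x ∈ J.Rl s.ζ ∧ x ∈ KS F ξ}) :
    ∃ G, G ∈ J.Rl s.ζ ∧ G ∈ KS F ξ ∧ PFn F θ G ∧ ∀ x ∈ KS F θ, ∀ α < θ,
      t.ev (KA F ξ) x = α.toZFSet → pair x α.toZFSet ∈ G := by
  have htr := ks_trans (F := F) ξ
  obtain ⟨n, φ, v, hv, hφ⟩ := ev_def hξ (F := F) (fun x hx => hx.2) t ht
  have hover : t.Over Ψ {x | x ∈ KS F ξ} := by
    have h := over_bind (Ψ := Ψ) (C := {x | x ∈ J.Rl s.ζ ∧ x ∈ KS F ξ})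
      (D := {x | x ∈ KS F ξ}) Tm.cst (vt := .var) (fun a ha => ha.2) trivial t ht
    have h1 : ∀ t : Tm, Tm.bind Tm.cst .var t = t := by
      intro t
      induction t with
      | var => rfl
      | cst a => rfl
      | pr s t ih1 ih2 => rw [Tm.bind, ih1, ih2]
      | fst t ih => rw [Tm.bind, ih]
      | snd t ih => rw [Tm.bind, ih]
      | lv t ih => rw [Tm.bind, ih]
      | sk n φ ts ih =>
        rw [Tm.bind]
        congr 1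
        funext i
        exact ih i
    rwa [h1] at h
  have hGξ := hPU t hover
  have hGm : ∀ x z, pair x z ∈ grT F ξ t (KS F θ) θ.toZFSet ↔
      x ∈ KS F θ ∧ z ∈ θ.toZFSet ∧ t.ev (KA F ξ) x = z := by
    intro x z
    rw [grT, ZFSet.mem_sep, ZFSet.pair_mem_prod]
    constructor
    · rintro ⟨-, x', hx', z', hz', h1, h2⟩
      obtain ⟨rfl, rfl⟩ := ZFSet.pair_inj.1 h1
      exact ⟨hx', hz', h2⟩
    · rintro ⟨h1, h2, h3⟩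
      exact ⟨⟨h1, h2⟩, x, h1, z, h2, rfl, h3⟩
  have hθmem : θ.toZFSet ∈ KS F ξ := (ks_ord hξ).2 hθξ
  have hSmem : KS F θ ∈ KS F ξ := ks_mem hθξ
  refine ⟨_, ?_, hGξ, ⟨?_, ?_⟩, ?_⟩
  · have hφ' : PM7Dn F ξ fun u : Fin (n + 2) → ZFSet.{0} => φ.Sat (KA F ξ) u :=
      ⟨φ, fun _ _ => Iff.rfl⟩
    have hR : PM7Dn F ξ fun u : Fin (n + 3) → ZFSet.{0} => ∀ p ∈ KS F ξ,
        (p ∈ u 0 ↔ ∃ x ∈ u (Fin.succ 0), ∃ z ∈ u (Fin.succ (Fin.succ 0)), p = pair x z ∧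
          φ.Sat (KA F ξ) (Fin.cons z (Fin.cons x fun i => u i.succ.succ.succ))) := by
      apply PM7Dn.all
      apply PM7Dn.iff
      · exact PM7Dn.mem (0 : Fin (n + 4)) (Fin.succ 0)
      · apply PM7Dn.bex htr (Fin.succ (Fin.succ 0))
        apply PM7Dn.bex htr (Fin.succ (Fin.succ (Fin.succ (Fin.succ 0))))
        apply PM7Dn.and
        · exact PM7Dn.of_db (DB.isPair (D0v.proj (Fin.succ (Fin.succ 0)))
            (D0v.proj (Fin.succ 0)) (D0v.proj 0))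
        · refine (hφ'.comp (m := n + 6) (Fin.cons 0 (Fin.cons (Fin.succ 0)
            fun i => i.succ.succ.succ.succ.succ.succ))).congr fun u _ => ?_
          refine iff_of_eq (congrArg (φ.Sat (KA F ξ)) ?_)
          funext k
          refine Fin.cases ?_ (fun k => ?_) k
          · rfl
          · refine Fin.cases ?_ (fun k => ?_) k
            · rfl
            · rfl
    refine pm7_rl_uniq J s.hζ hξδ hξ s.ξ_mem hR (Fin.cons (KS F θ) (Fin.cons θ.toZFSet v)) ?_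
      hGξ ?_
    · intro j
      refine Fin.cases ?_ (fun j => ?_) j
      · exact ⟨s.S_mem, hSmem⟩
      · refine Fin.cases ?_ (fun j => ?_) j
        · exact ⟨s.θ_mem, hθmem⟩
        · exact hv j
    · intro z' hz'
      have key : ∀ p ∈ KS F ξ, (p ∈ grT F ξ t (KS F θ) θ.toZFSet ↔
          ∃ x ∈ KS F θ, ∃ z ∈ θ.toZFSet, p = pair x z ∧
            φ.Sat (KA F ξ) (Fin.cons z (Fin.cons x v))) := by
        intro p hp
        constructor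
        · intro h1
          obtain ⟨x, hx, z, hz, h2⟩ := ZFSet.mem_prod.1 (ZFSet.mem_sep.1 h1).1
          subst h2
          obtain ⟨h3, h4, h5⟩ := (hGm x z).1 h1
          exact ⟨x, hx, z, hz, rfl, (hφ x (ks_mono hθξ.le hx) z (htr _ hθmem _ hz)).2 h5.symm⟩
        · rintro ⟨x, hx, z, hz, rfl, h1⟩
          exact (hGm x z).2 ⟨hx, hz,
            ((hφ x (ks_mono hθξ.le hx) z (htr _ hθmem _ hz)).1 h1).symm⟩
      constructor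
      · intro h1
        ext p
        constructor
        · intro hp
          exact (key p (htr _ hz' _ hp)).2 ((h1 p (htr _ hz' _ hp)).1 hp)
        · intro hp
          exact (h1 p (htr _ hGξ _ hp)).2 ((key p (htr _ hGξ _ hp)).1 hp)
      · intro h1 p hp
        subst h1
        exact key p hp
  · intro x y y' h1 h2
    exact ((hGm _ _).1 h1).2.2.symm.trans ((hGm _ _).1 h2).2.2
  · intro p hp
    obtain ⟨x, hx, z, hz, h2⟩ := ZFSet.mem_prod.1 (ZFSet.mem_sep.1 hp).1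
    obtain ⟨α, hα, rfl⟩ := Ordinal.mem_toZFSet_iff.1 hz
    exact ⟨x, hx, α, hα, h2⟩
  · intro x hx α hα h1
    exact (hGm _ _).2 ⟨hx, Ordinal.toZFSet_mem_toZFSet_iff.2 hα, h1⟩

/-- The tuples are in `S_θ`. -/
theorem pm7_wt_mem {ξ : Ordinal.{0}} (hξ : IsSuccLimit ξ) (hξδ : ξ < δ) (hθξ : θ < ξ)
    {ζ i : Ordinal.{0}} (hξζ : ξ.toZFSet ∈ J.Rl ζ) (hi : ζ ≤ i) (hiθ : i < θ) {x : ZFSet.{0}}
    (hx : Tp (Cp J ζ (i + 1)) x) (k : ℕ) : wt J (i + 1) x k ∈ KS F θ := by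
  have hi1 : i + 1 < θ := J.hθ.add_one_lt hiθ
  have hlim : ∀ l : ℕ, i + 1 + l < θ := by
    intro l
    induction l with
    | zero =>
      rw [Nat.cast_zero, add_zero]
      exact hi1
    | succ l ih =>
      have := J.hθ.add_one_lt ih
      rwa [Nat.cast_succ, ← add_assoc]
  have hgd := ks_gd (F := F) J.hθ
  induction k with
  | zero =>
    refine ks_mono (J.cr_lt _ hi1).le (rl_Tp J hi1 hξδ hξ hθξ ?_ hx).2
    exact J.mono _ _ (hi.trans (le_add_right le_rfl)) hi1 hξζ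
  | succ k ih =>
    have h1 : (J.cr (i + 1 + k)).toZFSet ∈ KS F θ := (ks_ord J.hθ).2 (J.cr_lt _ (hlim k))
    exact hgd.upair_mem (hgd.single_mem ih) (hgd.upair_mem ih h1)

/-- Case `U(Ψ)`, `F` amenable. -/
theorem case_am {Ψ₀ : Set Mx} (h0 : Cnds Ψ₀) {ξ : Ordinal.{0}} (hξ : IsSuccLimit ξ)
    (hξδ : ξ < δ) (hθξ : θ < ξ) {Ψ : Set Mx} (s : Stp J ξ Ψ) (hPU : PU F θ ξ Ψ)
    (ham : ∀ a ∈ KS F ξ, F ∩ a ∈ KS F ξ) {ν : Ordinal.{0}} (hν : J.cr s.ζ < ν) (hνθ : ν < θ)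
    (hνY : ν ∉ s.Y) (hreg : ARg F ξ ν) : ν.cof = (sSup ((fun η => η + 1) '' lvs s)).cof := by
  obtain ⟨ν', i, c', h1, h2, hi, hiθ, h3, h4, -, h5, h6, h7, h8⟩ :=
    find_i hξ hξδ hθξ s hν hνθ hνY hreg
  let P : Ordinal.{0} → Ordinal.{0} → Prop := fun η b => ∀ g, g ∈ J.Rl s.ζ → g ∈ KS F η →
    PFn F θ g → ∀ x, Tp (Cp J s.ζ (i + 1)) x →
      ∀ α α' : Ordinal.{0}, α < ν' → α.toZFSet ∈ HX J ξ Ψ s.ζ →
      pair (wt J (i + 1) x 0) α.toZFSet ∈ g → s.π α.toZFSet = α'.toZFSet → α' < b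
  have hP : ∀ η ∈ lvs s, ∃ b < ν, P η b := fun η hη =>
    bound hξ hξδ hθξ s hν hνθ hreg h1 h2 hi hiθ h3 h4 h5 h6 h7 hη.1 hη.2.1 hη.2.2 0
  refine pm7_cof (L := lvs s) ⟨ξ, fun η hη => hη.2.1.le⟩ (fun η => sInf {b | P η b}) ?_ ?_ ?_
  · intro η hη
    obtain ⟨b, hb, hPb⟩ := hP η hη
    exact (csInf_le' (show b ∈ {b | P η b} from hPb)).trans_lt hb
  · intro η hη η' hη' hle
    obtain ⟨b, hb, hPb⟩ := hP η' hη'
    refine le_csInf ⟨b, hPb⟩ fun c hc => csInf_le' ?_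
    exact fun g hg hgη => hc g hg (ks_mono hle hgη)
  · intro α' hα'
    obtain ⟨α, hα, hαX, hπα⟩ := h8 α' hα'
    obtain ⟨t, ht, x, hx, k, hev⟩ := std_form hξ hξδ hθξ s.ξ_mem hi hiθ hαX (hα.trans h4)
    obtain ⟨G, hGR, hGξ, hGf, hG⟩ := pm7_graph hξ hξδ hθξ s hPU ht
    have hαθ : α < θ := (hα.trans h4).trans (J.cr_lt _ (J.hθ.add_one_lt hiθ))
    have hpG := hG _ (pm7_wt_mem hξ hξδ hθξ s.ξ_mem hi hiθ hx k) α hαθ hev.symm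
    obtain ⟨g', hg'R, hg'ξ, hg'f, hpg'⟩ := elim_w hξ hξδ hθξ ham s.ξ_mem s.θ_mem s.S_mem hi hiθ
      hx (hα.trans h4) hGR hGξ hGf hpG
    obtain ⟨η, hη, hg'η⟩ := exists_lvs h0 hξ hξδ hθξ s hg'R hg'ξ hg'f
    refine ⟨η, hη, ?_⟩
    obtain ⟨b, -, hPb⟩ := hP η hη
    have h9 : P η (sInf {b | P η b}) := csInf_mem (s := {b | P η b}) ⟨b, hPb⟩
    exact h9 g' hg'R hg'η hg'f x hx α α' hα hαX hpg' hπα

/-! ### The case that `F` is not amenable -/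

/-- `z` is a limit ordinal. -/
def PM7Lim (z : ZFSet.{0}) : Prop :=
  z.IsOrdinal ∧ (∃ u ∈ z, u = u) ∧ ∀ u ∈ z, ∃ w ∈ z, u ∈ w

theorem pm7_limdb {n : ℕ} (i : Fin n) : DB fun v : Fin n → ZFSet.{0} => PM7Lim (v i) := by
  apply DB.and
  · exact DB.isOrdinal (D0v.proj i)
  · apply DB.and
    · apply DB.bex (D0v.proj i)
      exact DB.eq (D0v.proj 0) (D0v.proj 0)
    · apply DB.ball (D0v.proj i)
      apply DB.bex (D0v.proj i.succ)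
      exact DB.mem (D0v.proj (Fin.succ 0)) (D0v.proj 0)

theorem pm7_lim_iff (z : ZFSet.{0}) : PM7Lim z ↔
    ∃ α : Ordinal.{0}, IsSuccLimit α ∧ z = α.toZFSet := by
  constructor
  · rintro ⟨h1, ⟨u, hu, -⟩, h2⟩
    refine ⟨z.rank, ?_, h1.toZFSet_rank_eq.symm⟩
    rw [← h1.toZFSet_rank_eq] at hu h2
    set α := z.rank
    obtain ⟨β, hβ, rfl⟩ := Ordinal.mem_toZFSet_iff.1 hu
    rw [Ordinal.isSuccLimit_iff]
    refine ⟨fun h => ?_, ?_⟩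
    · rw [h] at hβ
      exact not_lt_bot hβ
    · rw [Order.isSuccPrelimit_iff_succ_lt]
      intro γ hγ
      obtain ⟨w, hw, hw'⟩ := h2 _ (Ordinal.toZFSet_mem_toZFSet_iff.2 hγ)
      obtain ⟨ε, hε, rfl⟩ := Ordinal.mem_toZFSet_iff.1 hw
      exact (Order.succ_le_of_lt (Ordinal.toZFSet_mem_toZFSet_iff.1 hw')).trans_lt hε
  · rintro ⟨α, h1, rfl⟩
    refine ⟨ZFSet.isOrdinal_toZFSet _, ⟨(0 : Ordinal.{0}).toZFSet, ?_, rfl⟩, ?_⟩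
    · exact Ordinal.toZFSet_mem_toZFSet_iff.2 h1.bot_lt
    · intro u hu
      obtain ⟨β, hβ, rfl⟩ := Ordinal.mem_toZFSet_iff.1 hu
      exact ⟨(succ β).toZFSet, Ordinal.toZFSet_mem_toZFSet_iff.2 (h1.succ_lt hβ),
        Ordinal.toZFSet_mem_toZFSet_iff.2 (Order.lt_succ β)⟩

/-- Limits of limits, and the others. -/
theorem pm7_limits {θ ξ : Ordinal.{0}} (hθ : IsSuccLimit θ) (hξ : IsSuccLimit ξ) (h : θ < ξ) :
    (∀ α < ξ, ∃ z, IsSuccLimit z ∧ α < z ∧ z < ξ) ∨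
      ∃ ξ₀, IsSuccLimit ξ₀ ∧ ξ = ξ₀ + Ordinal.omega0 := by
  obtain ⟨a, ha⟩ := Ordinal.isSuccPrelimit_iff_omega0_dvd.1 hξ.isSuccPrelimit
  rcases Ordinal.zero_or_succ_or_isSuccLimit a with h1 | ⟨b, h1⟩ | h1
  · subst h1
    rw [mul_zero] at ha
    subst ha
    exact absurd h (not_lt.2 bot_le)
  · right
    rw [← h1, Order.succ_eq_add_one, mul_add_one] at ha
    refine ⟨Ordinal.omega0 * b, ?_, ha⟩
    rw [Ordinal.isSuccLimit_iff]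
    refine ⟨fun h2 => ?_, Ordinal.isSuccPrelimit_iff_omega0_dvd.2 (dvd_mul_right _ _)⟩
    rw [h2, zero_add] at ha
    rw [ha] at h
    exact absurd h (not_lt.2 (Ordinal.omega0_le_of_isSuccLimit hθ))
  · left
    intro α hα
    subst ha
    obtain ⟨c, hc, h2⟩ := (Ordinal.lt_mul_iff_of_isSuccLimit h1).1 hα
    refine ⟨Ordinal.omega0 * (c + 1), ?_, ?_, ?_⟩
    · exact Ordinal.isSuccLimit_mul_left Ordinal.isSuccLimit_omega0 (by simp)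
    · exact h2.trans_le (mul_le_mul_right (le_add_right le_rfl) _)
    · exact (mul_lt_mul_iff_right₀ Ordinal.omega0_pos).2 (h1.add_one_lt hc)

/-- Case `U(Ψ)`, `F` not amenable. -/
theorem case_nam {Ψ₀ : Set Mx} (h0 : Cnds Ψ₀) {ξ : Ordinal.{0}} (hξ : IsSuccLimit ξ)
    (hξδ : ξ < δ) (hθξ : θ < ξ) {Ψ : Set Mx} (s : Stp J ξ Ψ) (hPU : PU F θ ξ Ψ)
    (ham : ¬ ∀ a ∈ KS F ξ, F ∩ a ∈ KS F ξ) {ν : Ordinal.{0}} (hν : J.cr s.ζ < ν) (hνθ : ν < θ)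
    (hνY : ν ∉ s.Y) (hreg : ARg F ξ ν) : ν.cof = ℵ₀ := by
  have htr := ks_trans (F := F) ξ
  have hgd := ks_gd (F := F) hξ
  push Not at ham
  obtain ⟨a, ha, hFa⟩ := ham
  obtain h | ⟨ξ₀, hξ₀, hξe⟩ := pm7_limits J.hθ hξ hθξ
  · exfalso
    obtain ⟨η, hη, haη⟩ := (ks_limit hξ).1 ha
    obtain ⟨z, hz, hηz, hzξ⟩ := h η hη
    apply hFa
    have h1 : F ∩ KS F z ∈ KS F ξ := ks_mono (hξ.add_one_lt hzξ).le (fks_mem hz)
    have h2 : (F ∩ KS F z) ∩ a = F ∩ a := by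
      ext u
      simp only [ZFSet.mem_inter]
      constructor
      · rintro ⟨⟨h3, -⟩, h4⟩
        exact ⟨h3, h4⟩
      · rintro ⟨h3, h4⟩
        exact ⟨⟨h3, ks_trans z _ (ks_mono hηz.le haη) _ h4⟩, h4⟩
    rw [← h2]
    exact hgd.inter_mem h1 ha
  have hξ₀ξ : ξ₀ < ξ := by
    rw [hξe]
    exact lt_add_of_pos_right _ Ordinal.omega0_pos
  -- a new element of `F`
  obtain ⟨Z, hZF, hZξ, hZn⟩ : ∃ Z ∈ F, Z ∈ KS F ξ ∧ Z ∉ KS F ξ₀ := by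
    by_contra hc
    push Not at hc
    apply hFa
    have h1 : F ∩ KS F ξ₀ ∈ KS F ξ := ks_mono (hξ.add_one_lt hξ₀ξ).le (fks_mem hξ₀)
    have h2 : (F ∩ KS F ξ₀) ∩ a = F ∩ a := by
      ext u
      simp only [ZFSet.mem_inter]
      constructor
      · rintro ⟨⟨h3, -⟩, h4⟩
        exact ⟨h3, h4⟩
      · rintro ⟨h3, h4⟩
        exact ⟨⟨h3, hc u h3 (htr _ ha _ h4)⟩, h4⟩
    rw [← h2]
    exact hgd.inter_mem h1 ha
  have hZs : Z ⊆ KS F θ := fun u hu => by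
    obtain ⟨α, hα, rfl⟩ := Ordinal.mem_toZFSet_iff.1 (J.Fsub Z hZF hu)
    exact (ks_ord J.hθ).2 hα
  obtain ⟨η, hηξ, hZη, hon⟩ := accept h0 J.hθ hξ hθξ J.Fsub hZs hZξ
  have hξ₀η : ξ₀ < η := by
    by_contra hc
    rw [not_lt] at hc
    exact hZn (ks_mono hc hZη)
  -- all levels above are images
  have hon' : ∀ m : ℕ, η + m < ξ ∧ Onto F θ ξ (η + m) := by
    intro m
    induction m with
    | zero =>
      rw [Nat.cast_zero, add_zero]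
      exact ⟨hηξ, hon⟩
    | succ m ih =>
      rw [Nat.cast_succ, ← add_assoc]
      exact ⟨hξ.add_one_lt ih.1, onto_succ J.hθ hξ hθξ ih.1 ih.2⟩
  have hcof : ∀ α < ξ, ∃ m : ℕ, α ≤ η + m := by
    intro α hα
    rw [hξe] at hα
    obtain ⟨d, hd, hle⟩ := (Ordinal.lt_add_iff_of_isSuccLimit Ordinal.isSuccLimit_omega0).1 hα
    obtain ⟨m, rfl⟩ := Ordinal.lt_omega0.1 hd
    exact ⟨m, hle.le.trans (add_le_add_left hξ₀η.le _)⟩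
  -- `ξ₀` is in `R_ζ`
  have hξ₀m : ξ₀.toZFSet ∈ KS F ξ := (ks_ord hξ).2 hξ₀ξ
  have hξ₀R : ξ₀.toZFSet ∈ J.Rl s.ζ := by
    have hR : PM7Dn F ξ fun v : Fin 1 → ZFSet.{0} => PM7Lim (v 0) ∧
        ∀ z ∈ KS F ξ, PM7Lim z → ¬ v 0 ∈ z := by
      apply PM7Dn.and
      · exact PM7Dn.of_db (pm7_limdb 0)
      · apply PM7Dn.all
        apply PM7Dn.imp
        · exact PM7Dn.of_db (pm7_limdb 0)
        · apply PM7Dn.not
          exact PM7Dn.mem (1 : Fin 2) 0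
    refine pm7_rl_uniq J s.hζ hξδ hξ s.ξ_mem hR ![] (fun j => j.elim0) hξ₀m ?_
    intro z' hz'
    have hlast : ∀ α : Ordinal.{0}, IsSuccLimit α → α < ξ → α ≤ ξ₀ := by
      intro α hα hαξ
      by_contra hc
      rw [not_le] at hc
      rw [hξe] at hαξ
      obtain ⟨d, hd, hle⟩ :=
        (Ordinal.lt_add_iff_of_isSuccLimit Ordinal.isSuccLimit_omega0).1 hαξ
      obtain ⟨m, rfl⟩ := Ordinal.lt_omega0.1 hd
      have h1 : ∀ m : ℕ, ξ₀ + m < α := by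
        intro m
        induction m with
        | zero =>
          rw [Nat.cast_zero, add_zero]
          exact hc
        | succ m ih =>
          rw [Nat.cast_succ, ← add_assoc]
          exact hα.add_one_lt ih
      exact absurd (h1 m) (not_lt.2 hle.le)
    show (PM7Lim z' ∧ ∀ z ∈ KS F ξ, PM7Lim z → ¬ z' ∈ z) ↔ z' = ξ₀.toZFSet
    constructor
    · rintro ⟨h1, h2⟩
      obtain ⟨α, hα, rfl⟩ := (pm7_lim_iff _).1 h1
      have h3 := hlast α hα ((ks_ord hξ).1 hz')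
      rcases h3.lt_or_eq with h4 | h4
      · exact absurd (Ordinal.toZFSet_mem_toZFSet_iff.2 h4)
          (h2 _ hξ₀m ((pm7_lim_iff _).2 ⟨ξ₀, hξ₀, rfl⟩))
      · rw [h4]
    · rintro rfl
      refine ⟨(pm7_lim_iff _).2 ⟨ξ₀, hξ₀, rfl⟩, ?_⟩
      intro z hz h1 h3
      obtain ⟨α, hα, rfl⟩ := (pm7_lim_iff _).1 h1
      exact absurd (Ordinal.toZFSet_mem_toZFSet_iff.1 h3)
        (not_lt.2 (hlast α hα ((ks_ord hξ).1 hz)))
  obtain ⟨ν', i, c', h1, h2, hi, hiθ, h3, h4, -, h5, h6, h7, h8⟩ :=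
    find_i hξ hξδ hθξ s hν hνθ hνY hreg
  -- the bounds
  have hP : ∀ q : ℕ × ℕ, ∃ b < ν, ξ₀ + (q.1 : Ordinal.{0}) ∈ lvs s → ∀ g, g ∈ J.Rl s.ζ →
      g ∈ KS F (ξ₀ + (q.1 : Ordinal.{0})) → PFn F θ g → ∀ x, Tp (Cp J s.ζ (i + 1)) x →
      ∀ α α' : Ordinal.{0}, α < ν' → α.toZFSet ∈ HX J ξ Ψ s.ζ →
      pair (wt J (i + 1) x q.2) α.toZFSet ∈ g → s.π α.toZFSet = α'.toZFSet → α' < b := by
    intro q
    by_cases hq : ξ₀ + (q.1 : Ordinal.{0}) ∈ lvs s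
    · obtain ⟨b, hb, hb'⟩ := bound hξ hξδ hθξ s hν hνθ hreg h1 h2 hi hiθ h3 h4 h5 h6 h7 hq.1
        hq.2.1 hq.2.2 q.2
      exact ⟨b, hb, fun _ => hb'⟩
    · exact ⟨0, hreg.1.bot_lt, fun h => absurd h hq⟩
  choose b hb hb' using hP
  refine pm7_cof_omega hreg.1 b hb ?_
  intro α' hα'
  obtain ⟨α, hα, hαX, hπα⟩ := h8 α' hα'
  obtain ⟨t, ht, x, hx, k, hev⟩ := std_form hξ hξδ hθξ s.ξ_mem hi hiθ hαX (hα.trans h4)
  obtain ⟨G, hGR, hGξ, hGf, hG⟩ := pm7_graph hξ hξδ hθξ s hPU ht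
  have hαθ : α < θ := (hα.trans h4).trans (J.cr_lt _ (J.hθ.add_one_lt hiθ))
  have hpG := hG _ (pm7_wt_mem hξ hξδ hθξ s.ξ_mem hi hiθ hx k) α hαθ hev.symm
  obtain ⟨η₁, hη₁, hη₁'⟩ := (ks_limit hξ).1 hGξ
  obtain ⟨η₂, hη₂, hη₂'⟩ := (ks_limit hξ).1 hξ₀m
  obtain ⟨m₁, hm₁⟩ := hcof η₁ hη₁
  obtain ⟨m₂, hm₂⟩ := hcof η₂ hη₂
  have hm : ∀ m m' : ℕ, m ≤ m' → η + (m : Ordinal.{0}) ≤ η + (m' : Ordinal.{0}) :=
    fun m m' h => add_le_add_right (Nat.cast_le.2 h) _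
  obtain ⟨η', hη', hGη', hξ₀η'⟩ := pm7_exists hξ hξδ hθξ s hGR hGξ hξ₀R hξ₀m
    ⟨η + (max m₁ m₂ : ℕ), (hon' _).1,
      ks_mono (hm₁.trans (hm _ _ (le_max_left _ _))) hη₁',
      ks_mono (hm₂.trans (hm _ _ (le_max_right _ _))) hη₂', (hon' _).2⟩
  have h9 : ξ₀ < η' := ks_ord_le hξ₀η'
  obtain ⟨m, rfl⟩ : ∃ m : ℕ, η' = ξ₀ + m := by
    have h10 := hη'.2.1
    rw [hξe] at h10
    obtain ⟨d, hd⟩ : ∃ d, η' = ξ₀ + d := ⟨η' - ξ₀, (Ordinal.add_sub_cancel_of_le h9.le).symm⟩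
    rw [hd, add_lt_add_iff_left] at h10
    obtain ⟨m, rfl⟩ := Ordinal.lt_omega0.1 h10
    exact ⟨m, hd⟩
  exact ⟨(m, k), hb' (m, k) hη' G hGR hGη' hGf x hx α α' hα hαX hpG hπα⟩

end Pool.Agent.helper797_cs
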