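import Pool.Agent.helper797_cs.St.M7
import Pool.Agent.helper797_cs.PSq

/-! # M7, second part: the cofinalities in the case that `U(Ψ)` holds -/

set_option autoImplicit false
set_option linter.unreachableTactic false
set_option linter.unusedTactic false
namespace Pool.Agent.helper797_cs
open Pool.Agent.W868 Pool.Agent.R587
open ZFSet (pair)
open Cardinal Order

/-! ### Relations that are first order over a structure -/

/-- `R` is defined by a formula over `𝔄`. -/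
def PM7_FR (𝔄 : Stc) {n : ℕ} (R : (Fin n → ZFSet.{0}) → Prop) : Prop :=
  ∃ φ : Fo n, ∀ v, (∀ i, v i ∈ 𝔄.A) → (φ.Sat 𝔄 v ↔ R v)

section fr

variable {𝔄 : Stc} {n : ℕ} {R T : (Fin n → ZFSet.{0}) → Prop}

theorem PM7_FR.not (h : PM7_FR 𝔄 R) : PM7_FR 𝔄 fun v => ¬ R v := by
  obtain ⟨φ, hφ⟩ := h
  exact ⟨.neg φ, fun v hv => not_congr (hφ v hv)⟩

theorem PM7_FR.and (h : PM7_FR 𝔄 R) (h' : PM7_FR 𝔄 T) : PM7_FR 𝔄 fun v => R v ∧ T v := by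
  obtain ⟨φ, hφ⟩ := h
  obtain ⟨ψ, hψ⟩ := h'
  exact ⟨.and φ ψ, fun v hv => and_congr (hφ v hv) (hψ v hv)⟩

theorem PM7_FR.congr (h : PM7_FR 𝔄 R) (h' : ∀ v, (∀ i, v i ∈ 𝔄.A) → (R v ↔ T v)) :
    PM7_FR 𝔄 T := by
  obtain ⟨φ, hφ⟩ := h
  exact ⟨φ, fun v hv => (hφ v hv).trans (h' v hv)⟩

theorem PM7_FR.or (h : PM7_FR 𝔄 R) (h' : PM7_FR 𝔄 T) : PM7_FR 𝔄 fun v => R v ∨ T v :=
  (h.not.and h'.not).not.congr fun v _ => by tauto

theorem PM7_FR.imp (h : PM7_FR 𝔄 R) (h' : PM7_FR 𝔄 T) : PM7_FR 𝔄 fun v => R v → T v :=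
  (h.and h'.not).not.congr fun v _ => by tauto

theorem PM7_FR.comp (h : PM7_FR 𝔄 R) {m : ℕ} (ρ : Fin n → Fin m) :
    PM7_FR 𝔄 fun v : Fin m → ZFSet.{0} => R fun i => v (ρ i) := by
  obtain ⟨φ, hφ⟩ := h
  refine ⟨φ.rn ρ, fun v hv => ?_⟩
  rw [sat_rn]
  exact hφ _ fun i => hv _

theorem PM7_FR.ex {Q : ZFSet.{0} → (Fin n → ZFSet.{0}) → Prop}
    (h : PM7_FR 𝔄 fun w : Fin (n + 1) → ZFSet.{0} => Q (w 0) (Fin.tail w)) :
    PM7_FR 𝔄 fun v => ∃ a ∈ 𝔄.A, Q a v := by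
  obtain ⟨φ, hφ⟩ := h
  refine ⟨.ex φ, fun v hv => ?_⟩
  simp only [Fo.Sat]
  have hc : ∀ a ∈ 𝔄.A, ∀ k, (Fin.cons a v : Fin (n + 1) → ZFSet.{0}) k ∈ 𝔄.A := by
    intro a ha k
    refine Fin.cases ?_ (fun k => ?_) k
    · exact ha
    · exact hv k
  exact exists_congr fun a => and_congr_right fun ha => hφ _ (hc a ha)

theorem PM7_FR.all {Q : ZFSet.{0} → (Fin n → ZFSet.{0}) → Prop}
    (h : PM7_FR 𝔄 fun w : Fin (n + 1) → ZFSet.{0} => Q (w 0) (Fin.tail w)) :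
    PM7_FR 𝔄 fun v => ∀ a ∈ 𝔄.A, Q a v := by
  have h1 : PM7_FR 𝔄 fun v => ∃ a ∈ 𝔄.A, ¬ Q a v := PM7_FR.ex (Q := fun a v => ¬ Q a v) h.not
  exact h1.not.congr fun v _ => by
    constructor
    · intro h2 a ha
      by_contra h3
      exact h2 ⟨a, ha, h3⟩
    · rintro h2 ⟨a, ha, h3⟩
      exact h3 (h2 a ha)

theorem PM7_FR.bex {G : (Fin n → ZFSet.{0}) → ZFSet.{0}}
    {Q : ZFSet.{0} → (Fin n → ZFSet.{0}) → Prop} (hG : D0v G)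
    (htr : ∀ x ∈ 𝔄.A, ∀ y ∈ x, y ∈ 𝔄.A)
    (h : PM7_FR 𝔄 fun w : Fin (n + 1) → ZFSet.{0} => Q (w 0) (Fin.tail w)) :
    PM7_FR 𝔄 fun v => ∃ a ∈ G v, Q a v := by
  obtain ⟨i, hi⟩ := hG
  obtain ⟨φ, hφ⟩ := h
  refine ⟨.bex i φ, fun v hv => ?_⟩
  simp only [Fo.Sat]
  have hc : ∀ a ∈ 𝔄.A, ∀ k, (Fin.cons a v : Fin (n + 1) → ZFSet.{0}) k ∈ 𝔄.A := by
    intro a ha k
    refine Fin.cases ?_ (fun k => ?_) k
    · exact ha
    · exact hv k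
  rw [hi]
  constructor
  · rintro ⟨a, ha, h1, h2⟩
    exact ⟨a, h1, (hφ _ (hc a ha)).1 h2⟩
  · rintro ⟨a, h1, h2⟩
    have ha := htr _ (hv i) a h1
    exact ⟨a, ha, h1, (hφ _ (hc a ha)).2 h2⟩

theorem PM7_FR.ball {G : (Fin n → ZFSet.{0}) → ZFSet.{0}}
    {Q : ZFSet.{0} → (Fin n → ZFSet.{0}) → Prop} (hG : D0v G)
    (htr : ∀ x ∈ 𝔄.A, ∀ y ∈ x, y ∈ 𝔄.A)
    (h : PM7_FR 𝔄 fun w : Fin (n + 1) → ZFSet.{0} => Q (w 0) (Fin.tail w)) :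
    PM7_FR 𝔄 fun v => ∀ a ∈ G v, Q a v := by
  have h1 : PM7_FR 𝔄 fun v => ∃ a ∈ G v, ¬ Q a v :=
    PM7_FR.bex (Q := fun a v => ¬ Q a v) hG htr h.not
  exact h1.not.congr fun v _ => by
    constructor
    · intro h2 a ha
      by_contra h3
      exact h2 ⟨a, ha, h3⟩
    · rintro h2 ⟨a, ha, h3⟩
      exact h3 (h2 a ha)

theorem PM7_FR.of_db (h : DB R) (htr : ∀ x ∈ 𝔄.A, ∀ y ∈ x, y ∈ 𝔄.A) : PM7_FR 𝔄 R := by
  obtain ⟨φ, -, hφ⟩ := h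
  exact ⟨φ, fun v hv => hφ 𝔄 htr v hv⟩

end fr

variable {F : ZFSet.{0}} {θ δ : Ordinal.{0}} {J : IT F θ δ}

/-- Elements that are definable from elements of `R_i` are in `R_i`. -/
theorem PM7_rl {i ξ : Ordinal.{0}} (hi : i < θ) (hξδ : ξ < δ) (hξ : IsSuccLimit ξ)
    (hξi : ξ.toZFSet ∈ J.Rl i) {n : ℕ} {R : (Fin (n + 1) → ZFSet.{0}) → Prop}
    (hR : PM7_FR (KA F ξ) R) (v : Fin n → ZFSet.{0})
    (hv : ∀ j, v j ∈ J.Rl i ∧ v j ∈ KS F ξ) {z : ZFSet.{0}} (hz : z ∈ KS F ξ)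
    (h : ∀ z' ∈ KS F ξ, (R (Fin.cons z' v) ↔ z' = z)) : z ∈ J.Rl i := by
  obtain ⟨φ, hφ⟩ := hR
  refine rl_uniq J hi hξδ hξ hξi φ v hv hz fun z' hz' => ?_
  rw [← h z' hz']
  refine hφ _ fun j => ?_
  refine Fin.cases ?_ (fun j => ?_) j
  · exact hz'
  · exact (hv j).2

/-- The graph of a term is in `R_ζ`. -/
theorem PM7_rl_grT {ζ ξ : Ordinal.{0}} (hζ : ζ < θ) (hξδ : ξ < δ) (hξ : IsSuccLimit ξ)
    (hθξ : θ < ξ) (hξζ : ξ.toZFSet ∈ J.Rl ζ) (hθζ : θ.toZFSet ∈ J.Rl ζ) (hSζ : KS F θ ∈ J.Rl ζ)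
    {Ψ : Set Mx} {t : Tm} (ht : t.Over Ψ {x | x ∈ J.Rl ζ ∧ x ∈ KS F ξ})
    (hg : grT F ξ t (KS F θ) θ.toZFSet ∈ KS F ξ) : grT F ξ t (KS F θ) θ.toZFSet ∈ J.Rl ζ := by
  obtain ⟨n, φ, v, hv, hφ⟩ := ev_def (F := F) hξ (fun x hx => hx.2) t ht
  have htr : ∀ x ∈ (KA F ξ).A, ∀ y ∈ x, y ∈ (KA F ξ).A := ks_trans ξ
  have hSξ : KS F θ ∈ KS F ξ := ks_mem hθξ
  have hθS : θ.toZFSet ∈ KS F ξ := (ks_ord hξ).2 hθξ
  have hΦ : PM7_FR (KA F ξ) fun v : Fin (n + 2) → ZFSet.{0} => φ.Sat (KA F ξ) v :=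
    ⟨φ, fun _ _ => Iff.rfl⟩
  have hpair : ∀ {m : ℕ} (i j k : Fin m),
      PM7_FR (KA F ξ) fun w : Fin m → ZFSet.{0} => w i = pair (w j) (w k) := fun i j k =>
    PM7_FR.of_db (DB.isPair (D0v.proj i) (D0v.proj j) (D0v.proj k)) htr
  have hR : PM7_FR (KA F ξ) fun w : Fin (n + 2 + 1) → ZFSet.{0} =>
      (∀ p ∈ w 0, ∃ x ∈ w 1, ∃ y ∈ w 2, p = pair x y ∧
        φ.Sat (KA F ξ) (Fin.cons y (Fin.cons x fun i => w i.succ.succ.succ))) ∧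
      ∀ x ∈ w 1, ∀ y ∈ w 2,
        φ.Sat (KA F ξ) (Fin.cons y (Fin.cons x fun i => w i.succ.succ.succ)) →
          ∃ p ∈ w 0, p = pair x y := by
    apply PM7_FR.and
    · apply PM7_FR.ball (D0v.proj 0) htr
      apply PM7_FR.bex (D0v.proj 2) htr
      apply PM7_FR.bex (D0v.proj 4) htr
      apply PM7_FR.and
      · exact hpair 2 1 0
      · refine (hΦ.comp (Fin.cons 0 (Fin.cons 1 fun i => i.succ.succ.succ.succ.succ.succ))).congr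
          fun w _ => ?_
        have e : (fun i => w ((Fin.cons 0 (Fin.cons 1 fun i : Fin n =>
            i.succ.succ.succ.succ.succ.succ) : Fin (n + 2) → Fin (n + 2 + 1 + 3)) i)) =
            (Fin.cons (w 0) (Fin.cons (Fin.tail w 0) fun i =>
              Fin.tail (Fin.tail (Fin.tail w)) i.succ.succ.succ) : Fin (n + 2) → ZFSet.{0}) := by
          funext i
          refine Fin.cases rfl (fun i => ?_) i
          refine Fin.cases rfl (fun i => ?_) i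
          rfl
        rw [e]
    · apply PM7_FR.ball (D0v.proj 1) htr
      apply PM7_FR.ball (D0v.proj 3) htr
      apply PM7_FR.imp
      · refine (hΦ.comp (Fin.cons 0 (Fin.cons 1 fun i => i.succ.succ.succ.succ.succ))).congr
          fun w _ => ?_
        have e : (fun i => w ((Fin.cons 0 (Fin.cons 1 fun i : Fin n =>
            i.succ.succ.succ.succ.succ) : Fin (n + 2) → Fin (n + 2 + 1 + 2)) i)) =
            (Fin.cons (w 0) (Fin.cons (Fin.tail w 0) fun i =>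
              Fin.tail (Fin.tail w) i.succ.succ.succ) : Fin (n + 2) → ZFSet.{0}) := by
          funext i
          refine Fin.cases rfl (fun i => ?_) i
          refine Fin.cases rfl (fun i => ?_) i
          rfl
        rw [e]
      · apply PM7_FR.bex (D0v.proj 2) htr
        exact hpair 0 2 1
  refine PM7_rl hζ hξδ hξ hξζ hR (Fin.cons (KS F θ) (Fin.cons θ.toZFSet v)) ?_ hg ?_
  · intro j
    refine Fin.cases ⟨hSζ, hSξ⟩ (fun j => ?_) j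
    refine Fin.cases ⟨hθζ, hθS⟩ (fun j => ?_) j
    exact hv j
  · intro z' hz'
    have hb : ∀ x ∈ KS F θ, ∀ y ∈ θ.toZFSet,
        (φ.Sat (KA F ξ) (Fin.cons y (Fin.cons x v)) ↔ y = t.ev (KA F ξ) x) := fun x hx y hy =>
      hφ x (ks_mono hθξ.le hx) y (ks_trans ξ _ hθS _ hy)
    change ((∀ p ∈ z', ∃ x ∈ KS F θ, ∃ y ∈ θ.toZFSet, p = pair x y ∧
        φ.Sat (KA F ξ) (Fin.cons y (Fin.cons x v))) ∧
      ∀ x ∈ KS F θ, ∀ y ∈ θ.toZFSet,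
        φ.Sat (KA F ξ) (Fin.cons y (Fin.cons x v)) → ∃ p ∈ z', p = pair x y) ↔ _
    constructor
    · rintro ⟨h1, h2⟩
      ext p
      rw [grT, ZFSet.mem_sep]
      constructor
      · intro hp
        obtain ⟨x, hx, y, hy, rfl, h3⟩ := h1 p hp
        exact ⟨ZFSet.pair_mem_prod.2 ⟨hx, hy⟩, x, hx, y, hy, rfl, ((hb x hx y hy).1 h3).symm⟩
      · rintro ⟨-, x, hx, y, hy, rfl, h3⟩
        obtain ⟨p, hp, rfl⟩ := h2 x hx y hy ((hb x hx y hy).2 h3.symm)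
        exact hp
    · rintro rfl
      constructor
      · intro p hp
        rw [grT, ZFSet.mem_sep] at hp
        obtain ⟨-, x, hx, y, hy, rfl, h3⟩ := hp
        exact ⟨x, hx, y, hy, rfl, (hb x hx y hy).2 h3.symm⟩
      · intro x hx y hy h3
        refine ⟨_, ?_, rfl⟩
        rw [grT, ZFSet.mem_sep]
        exact ⟨ZFSet.pair_mem_prod.2 ⟨hx, hy⟩, x, hx, y, hy, rfl, ((hb x hx y hy).1 h3).symm⟩

theorem PM7_PFn {ξ : Ordinal.{0}} (t : Tm) : PFn F θ (grT F ξ t (KS F θ) θ.toZFSet) := by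
  constructor
  · intro x y y' h1 h2
    rw [grT, ZFSet.mem_sep] at h1 h2
    obtain ⟨-, x1, -, z1, -, h3, h4⟩ := h1
    obtain ⟨-, x2, -, z2, -, h5, h6⟩ := h2
    obtain ⟨rfl, rfl⟩ := ZFSet.pair_inj.1 h3
    obtain ⟨rfl, rfl⟩ := ZFSet.pair_inj.1 h5
    exact h4.symm.trans h6
  · intro p hp
    rw [grT, ZFSet.mem_sep] at hp
    obtain ⟨-, x, hx, z, hz, rfl, -⟩ := hp
    obtain ⟨α, hα, rfl⟩ := Ordinal.mem_toZFSet_iff.1 hz
    exact ⟨x, hx, α, hα, rfl⟩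

theorem PM7_lim_add {θ i : Ordinal.{0}} (h : IsSuccLimit θ) (hi : i < θ) (k : ℕ) :
    i + k < θ := by
  induction k with
  | zero => simpa using hi
  | succ k ih =>
    have h1 : i + ((k + 1 : ℕ) : Ordinal.{0}) = Order.succ (i + k) := by
      rw [Nat.cast_add, Nat.cast_one, ← add_assoc]
      rfl
    rw [h1]
    exact h.succ_lt ih

theorem PM7_wt {ζ i ξ : Ordinal.{0}} (hξδ : ξ < δ) (hξ : IsSuccLimit ξ) (hθξ : θ < ξ)
    (hi : ζ ≤ i) (hiθ : i < θ) (hξi : ξ.toZFSet ∈ J.Rl ζ) {x : ZFSet.{0}}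
    (hx : Tp (Cp J ζ (i + 1)) x) (k : ℕ) : wt J (i + 1) x k ∈ KS F θ := by
  have hi1 : i + 1 < θ := by simpa using PM7_lim_add J.hθ hiθ 1
  induction k with
  | zero =>
    have h1 := (rl_Tp J hi1 hξδ hξ hθξ (J.mono ζ (i + 1) (hi.trans (Order.le_succ i)) hi1 hξi)
      hx).2
    exact ks_mono (J.cr_lt _ hi1).le h1
  | succ k ih =>
    refine (ka_clsd (F := F) J.hθ ∅).pr _ ih _ ?_
    exact (ks_ord J.hθ).2 (J.cr_lt _ (PM7_lim_add J.hθ hi1 k))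

/-- Every ordinal below `ν` is reached by a function in `R_ζ`. -/
theorem PM7_cover {ξ : Ordinal.{0}} (hξ : IsSuccLimit ξ)
    (hξδ : ξ < δ) (hθξ : θ < ξ) {Ψ : Set Mx} (s : Stp J ξ Ψ) (hPU : PU F θ ξ Ψ)
    {ν' i : Ordinal.{0}} (hi : s.ζ ≤ i) (hiθ : i < θ) (h4 : ν' < J.cr (i + 1))
    {α : Ordinal.{0}} (hα : α < ν') (hαH : α.toZFSet ∈ HX J ξ Ψ s.ζ) :
    ∃ g, g ∈ J.Rl s.ζ ∧ g ∈ KS F ξ ∧ PFn F θ g ∧ ∃ x, Tp (Cp J s.ζ (i + 1)) x ∧ ∃ k : ℕ,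
      pair (wt J (i + 1) x k) α.toZFSet ∈ g := by
  have hi1 : i + 1 < θ := by simpa using PM7_lim_add J.hθ hiθ 1
  obtain ⟨t, ht, x, hx, k, h1⟩ := std_form hξ hξδ hθξ s.ξ_mem hi hiθ hαH (hα.trans h4)
  have ht' : t.Over Ψ {x | x ∈ KS F ξ} := by
    have key : ∀ t : Tm, t.Over Ψ {x | x ∈ J.Rl s.ζ ∧ x ∈ KS F ξ} →
        t.Over Ψ {x | x ∈ KS F ξ} := by
      intro t
      induction t with
      | var => exact id
      | cst a => exact fun h => h.2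
      | pr s t ihs iht => exact fun h => ⟨ihs h.1, iht h.2⟩
      | fst t ih => exact ih
      | snd t ih => exact ih
      | lv t ih => exact ih
      | sk n φ ts ih => exact fun h => ⟨h.1, fun j => ih j (h.2 j)⟩
    exact key t ht
  have hg := hPU t ht'
  refine ⟨_, PM7_rl_grT s.hζ hξδ hξ hθξ s.ξ_mem s.θ_mem s.S_mem ht hg, hg, PM7_PFn t, x, hx, k, ?_⟩
  have h2 := PM7_wt hξδ hξ hθξ hi hiθ s.ξ_mem hx k
  have h3 : α.toZFSet ∈ θ.toZFSet :=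
    Ordinal.toZFSet_mem_toZFSet_iff.2 ((hα.trans h4).trans (J.cr_lt _ hi1))
  rw [grT, ZFSet.mem_sep]
  exact ⟨ZFSet.pair_mem_prod.2 ⟨h2, h3⟩, _, h2, _, h3, rfl, h1.symm⟩

/-! ### Cofinalities -/

theorem PM7_cof_le {ν : Ordinal.{0}} (I : Type) (a : I → Ordinal.{0}) (ha : ∀ i, a i < ν)
    (hc : ∀ β < ν, ∃ i, β ≤ a i) : ν.cof ≤ #I := by
  by_contra h
  rw [not_le] at h
  have h1 := Ordinal.iSup_add_one_lt_of_lt_cof h ha
  obtain ⟨i, hi⟩ := hc _ h1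
  have h2 : a i + 1 ≤ ⨆ i, a i + 1 := Ordinal.le_iSup (fun i => a i + 1) i
  exact absurd (hi.trans_lt (Order.lt_add_one_iff.2 le_rfl)) (not_lt.2 h2)

theorem PM7_cof_eq {ν : Ordinal.{0}} {L : Set Ordinal.{0}} (hL : BddAbove L)
    (hne : 0 < ν) (Re : Ordinal.{0} → Ordinal.{0} → Prop)
    (mono : ∀ η η' α, η ≤ η' → Re η α → Re η' α)
    (bd : ∀ η ∈ L, ∃ b < ν, ∀ α < ν, Re η α → α < b)
    (cov : ∀ α < ν, ∃ η ∈ L, Re η α) : ν.cof = (sSup ((fun η => η + 1) '' L)).cof := by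
  set lam := sSup ((fun η => η + 1) '' L) with hlam
  have hbd : BddAbove ((fun η : Ordinal.{0} => η + 1) '' L) := by
    obtain ⟨b, hb⟩ := hL
    refine ⟨b + 1, ?_⟩
    rintro _ ⟨η, hη, rfl⟩
    exact Order.succ_le_succ (hb hη)
  have h1 : ∀ η ∈ L, η < lam := fun η hη =>
    Order.add_one_le_iff.1 (le_csSup hbd ⟨η, hη, rfl⟩)
  have hLne : L.Nonempty := by
    obtain ⟨η, hη, -⟩ := cov 0 hne
    exact ⟨η, hη⟩
  have h2 : ∀ β < lam, ∃ η ∈ L, β ≤ η := by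
    intro β hβ
    obtain ⟨_, ⟨η, hη, rfl⟩, h3⟩ := exists_lt_of_lt_csSup (hLne.image _) hβ
    exact ⟨η, hη, Order.lt_add_one_iff.1 h3⟩
  choose! b hb hb' using bd
  choose! e he he' using cov
  obtain ⟨G, -, hG1, hG2⟩ := F2_seq lam
  obtain ⟨G', -, hG1', hG2'⟩ := F2_seq ν
  apply le_antisymm
  · have h3 : ∀ i : lam.cof.ord.ToType, ∃ η ∈ L, G (Ordinal.ToType.mk.symm i).1 ≤ η := fun i =>
      h2 _ (hG1 _ (Ordinal.ToType.mk.symm i).2)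
    choose c hc hc' using h3
    have h4 := PM7_cof_le (ν := ν) lam.cof.ord.ToType (fun i => b (c i)) (fun i => hb _ (hc i)) ?_
    · rwa [Cardinal.mk_ord_toType] at h4
    · intro β hβ
      obtain ⟨i, hi, h5⟩ := hG2 _ (h1 _ (he β hβ))
      refine ⟨Ordinal.ToType.mk ⟨i, hi⟩, ?_⟩
      refine (hb' _ (hc _) β hβ (mono _ _ _ ?_ (he' β hβ))).le
      refine le_trans ?_ (hc' _)
      rw [OrderIso.symm_apply_apply]
      exact h5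
  · have h4 := PM7_cof_le (ν := lam) ν.cof.ord.ToType
      (fun i => e (G' (Ordinal.ToType.mk.symm i).1))
      (fun i => h1 _ (he _ (hG1' _ (Ordinal.ToType.mk.symm i).2))) ?_
    · rwa [Cardinal.mk_ord_toType] at h4
    · intro β hβ
      obtain ⟨η, hη, h5⟩ := h2 β hβ
      obtain ⟨i, hi, h6⟩ := hG2' _ (hb η hη)
      refine ⟨Ordinal.ToType.mk ⟨i, hi⟩, h5.trans ?_⟩
      rw [OrderIso.symm_apply_apply]
      by_contra h7
      rw [not_le] at h7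
      have h8 := hG1' i hi
      exact absurd (hb' η hη _ h8 (mono _ _ _ h7.le (he' _ h8))) (not_lt.2 h6)

/-- Case `U(Ψ)`, `F` amenable. -/
theorem PM7_case_am {Ψ₀ : Set Mx} (h0 : Cnds Ψ₀) {ξ : Ordinal.{0}} (hξ : IsSuccLimit ξ)
    (hξδ : ξ < δ) (hθξ : θ < ξ) {Ψ : Set Mx} (s : Stp J ξ Ψ) (hPU : PU F θ ξ Ψ)
    (ham : ∀ a ∈ KS F ξ, F ∩ a ∈ KS F ξ) {ν : Ordinal.{0}} (hν : J.cr s.ζ < ν) (hνθ : ν < θ)
    (hνY : ν ∉ s.Y) (hreg : ARg F ξ ν) : ν.cof = (sSup ((fun η => η + 1) '' lvs s)).cof := by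
  obtain ⟨ν', i, c', h1, h2, hi, hiθ, h3, h4, -, h5, h6, h7, h8⟩ :=
    find_i hξ hξδ hθξ s hν hνθ hνY hreg
  have hi1 : i + 1 < θ := by simpa using PM7_lim_add J.hθ hiθ 1
  refine PM7_cof_eq (L := lvs s) ⟨ξ, fun η hη => hη.2.1.le⟩ (bot_le.trans_lt hν)
    (fun η α' => ∃ g, g ∈ J.Rl s.ζ ∧ g ∈ KS F η ∧ PFn F θ g ∧ ∃ x, Tp (Cp J s.ζ (i + 1)) x ∧
      ∃ α < ν', α.toZFSet ∈ HX J ξ Ψ s.ζ ∧ pair (wt J (i + 1) x 0) α.toZFSet ∈ g ∧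
        s.π α.toZFSet = α'.toZFSet) ?_ ?_ ?_
  · rintro η η' α hη ⟨g, hg, hg1, hg2⟩
    exact ⟨g, hg, ks_mono hη hg1, hg2⟩
  · intro η hη
    obtain ⟨b, hb, hb'⟩ := bound hξ hξδ hθξ s hν hνθ hreg h1 h2 hi hiθ h3 h4 h5 h6 h7 hη.1 hη.2.1
      hη.2.2 0
    refine ⟨b, hb, ?_⟩
    rintro α' - ⟨g, hg, hg1, hg2, x, hx, α, hα, hαH, hp, hπ⟩
    exact hb' g hg hg1 hg2 x hx α α' hα hαH hp hπ
  · intro α' hα'
    obtain ⟨α, hα, hαH, hπ⟩ := h8 α' hα'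
    obtain ⟨g, hg, hgξ, hgf, x, hx, k, hp⟩ := PM7_cover hξ hξδ hθξ s hPU hi hiθ h4 hα hαH
    obtain ⟨g', hg', hgξ', hgf', hp'⟩ := elim_w hξ hξδ hθξ ham s.ξ_mem s.θ_mem s.S_mem hi hiθ hx
      (hα.trans h4) hg hgξ hgf hp
    obtain ⟨η, hη, h9⟩ := exists_lvs h0 hξ hξδ hθξ s hg' hgξ' hgf'
    exact ⟨η, hη, g', hg', h9, hgf', x, hx, α, hα, hαH, hp', hπ⟩

/-- Limit ordinals, as sets. -/
def PM7_Lim (z : ZFSet.{0}) : Prop :=
  z.IsOrdinal ∧ (∃ u ∈ z, u = u) ∧ ∀ u ∈ z, ∃ v ∈ z, u ∈ v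

theorem PM7_lim_iff {β : Ordinal.{0}} : PM7_Lim β.toZFSet ↔ IsSuccLimit β := by
  constructor
  · rintro ⟨-, ⟨u, hu, -⟩, h2⟩
    rw [Ordinal.isSuccLimit_iff]
    refine ⟨?_, ?_⟩
    · rintro rfl
      rw [Ordinal.toZFSet_zero] at hu
      exact ZFSet.notMem_empty _ hu
    · rw [Order.isSuccPrelimit_iff_succ_lt]
      intro a ha
      obtain ⟨v, hv, h3⟩ := h2 _ (Ordinal.toZFSet_mem_toZFSet_iff.2 ha)
      obtain ⟨b, hb, rfl⟩ := Ordinal.mem_toZFSet_iff.1 hv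
      exact (Order.succ_le_of_lt (Ordinal.toZFSet_mem_toZFSet_iff.1 h3)).trans_lt hb
  · intro h
    have h1 : 0 < β := h.bot_lt
    refine ⟨ZFSet.isOrdinal_toZFSet _, ⟨_, Ordinal.toZFSet_mem_toZFSet_iff.2 h1, rfl⟩, ?_⟩
    intro u hu
    obtain ⟨a, ha, rfl⟩ := Ordinal.mem_toZFSet_iff.1 hu
    exact ⟨_, Ordinal.toZFSet_mem_toZFSet_iff.2 (h.succ_lt ha),
      Ordinal.toZFSet_mem_toZFSet_iff.2 (Order.lt_succ a)⟩

theorem PM7_of_lim {z : ZFSet.{0}} (h : PM7_Lim z) : ∃ β : Ordinal.{0}, z = β.toZFSet ∧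
    IsSuccLimit β := by
  have h1 := h.1.toZFSet_rank_eq
  refine ⟨z.rank, h1.symm, ?_⟩
  rw [← PM7_lim_iff, h1]
  exact h

/-- If `F` is not amenable then the level is the next limit level. -/
theorem PM7_top {ξ : Ordinal.{0}} (hξ : IsSuccLimit ξ) (hθ : IsSuccLimit θ) (hθξ : θ < ξ)
    (ham : ¬ ∀ a ∈ KS F ξ, F ∩ a ∈ KS F ξ) :
    ∃ ξ₀ : Ordinal.{0}, IsSuccLimit ξ₀ ∧ ξ = ξ₀ + Ordinal.omega0 := by
  have h1 : Ordinal.omega0 ∣ ξ := Ordinal.isSuccPrelimit_iff_omega0_dvd.1 hξ.isSuccPrelimit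
  obtain ⟨α, rfl⟩ := h1
  rcases Ordinal.zero_or_succ_or_isSuccLimit α with rfl | ⟨β, rfl⟩ | hα
  · rw [mul_zero] at hθξ
    exact absurd hθξ not_lt_bot
  · refine ⟨Ordinal.omega0 * β, ?_, ?_⟩
    · rw [Ordinal.isSuccLimit_iff]
      refine ⟨?_, Ordinal.isSuccPrelimit_iff_omega0_dvd.2 (dvd_mul_right _ _)⟩
      intro h2
      rw [Ordinal.mul_succ, h2, zero_add] at hθξ
      exact absurd (Ordinal.omega0_le_of_isSuccLimit hθ) (not_le.2 hθξ)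
    · rw [Ordinal.mul_succ]
  · exfalso
    apply ham
    intro a ha
    obtain ⟨η, hη, ha'⟩ := (ks_limit hξ).1 ha
    obtain ⟨β, hβ, hηβ⟩ := (Ordinal.lt_mul_iff_of_isSuccLimit hα).1 hη
    have h2 : Order.succ β < α := hα.succ_lt hβ
    have h3 : IsSuccLimit (Ordinal.omega0 * Order.succ β) := by
      rw [Ordinal.mul_succ]
      exact Ordinal.isSuccLimit_add _ Ordinal.isSuccLimit_omega0
    have h4 : Ordinal.omega0 * Order.succ β < Ordinal.omega0 * α :=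
      (mul_lt_mul_iff_right₀ Ordinal.omega0_pos).2 h2
    have h5 : η ≤ Ordinal.omega0 * Order.succ β :=
      hηβ.le.trans (mul_le_mul_right (Order.le_succ β) _)
    have h6 : F ∩ KS F (Ordinal.omega0 * Order.succ β) ∈ KS F (Ordinal.omega0 * α) :=
      ks_mono (Order.add_one_le_of_lt h4) (fks_mem h3)
    have h7 : (F ∩ KS F (Ordinal.omega0 * Order.succ β)) ∩ a = F ∩ a := by
      ext x
      simp only [ZFSet.mem_inter]
      exact ⟨fun h => ⟨h.1.1, h.2⟩, fun h => ⟨⟨h.1, ks_mono h5 (ks_trans η _ ha' _ h.2)⟩, h.2⟩⟩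
    rw [← h7]
    exact (ks_gd hξ).inter_mem h6 ha

theorem PM7_lt_omega {ξ₀ η : Ordinal.{0}} (h : η < ξ₀ + Ordinal.omega0) :
    ∃ m : ℕ, η ≤ ξ₀ + m ∧ (ξ₀ ≤ η → η = ξ₀ + m) := by
  rcases lt_or_ge η ξ₀ with h1 | h1
  · exact ⟨0, by simpa using h1.le, fun h2 => absurd h1 (not_lt.2 h2)⟩
  · have h2 := Ordinal.add_sub_cancel_of_le h1
    rw [← h2] at h
    obtain ⟨m, hm⟩ := Ordinal.lt_omega0.1 ((add_lt_add_iff_left _).1 h)
    rw [hm] at h2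
    exact ⟨m, h2.ge, fun _ => h2.symm⟩

theorem PM7_onto {Ψ₀ : Set Mx} (h0 : Cnds Ψ₀) {ξ₀ : Ordinal.{0}} (hξ₀ : IsSuccLimit ξ₀)
    (hθ : IsSuccLimit θ) (hF : ∀ Z ∈ F, Z ⊆ θ.toZFSet)
    (hξ : IsSuccLimit (ξ₀ + Ordinal.omega0.{0})) (hθξ : θ < ξ₀ + Ordinal.omega0.{0})
    (ham : ¬ ∀ a ∈ KS F (ξ₀ + Ordinal.omega0), F ∩ a ∈ KS F (ξ₀ + Ordinal.omega0)) (m : ℕ) :
    Onto F θ (ξ₀ + Ordinal.omega0) (ξ₀ + m) := by
  have hlt : ∀ m : ℕ, ξ₀ + (m : Ordinal.{0}) < ξ₀ + Ordinal.omega0 := fun m =>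
    (add_lt_add_iff_left _).2 (Ordinal.natCast_lt_omega0 m)
  have h1 : ∃ Z ∈ F, Z ∈ KS F (ξ₀ + Ordinal.omega0) ∧ Z ∉ KS F ξ₀ := by
    by_contra hc
    push Not at hc
    apply ham
    intro a ha
    have h6 : F ∩ KS F ξ₀ ∈ KS F (ξ₀ + Ordinal.omega0) := by
      have h7 := hlt 1
      rw [Nat.cast_one] at h7
      exact ks_mono h7.le (fks_mem hξ₀)
    have h7 : (F ∩ KS F ξ₀) ∩ a = F ∩ a := by
      ext x
      simp only [ZFSet.mem_inter]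
      exact ⟨fun h => ⟨h.1.1, h.2⟩, fun h => ⟨⟨h.1, hc x h.1 (ks_trans _ _ ha _ h.2)⟩, h.2⟩⟩
    rw [← h7]
    exact (ks_gd hξ).inter_mem h6 ha
  obtain ⟨Z, hZ, hZξ, hZξ₀⟩ := h1
  have hZS : Z ⊆ KS F θ := by
    intro z hz
    obtain ⟨β, hβ, rfl⟩ := Ordinal.mem_toZFSet_iff.1 (hF Z hZ hz)
    exact (ks_ord hθ).2 hβ
  obtain ⟨η, hη, h2, h3⟩ := accept h0 hθ hξ hθξ hF hZS hZξ
  have h4 : ξ₀ ≤ η := by
    by_contra h5
    exact hZξ₀ (ks_mono (not_le.1 h5).le h2)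
  obtain ⟨n, -, hn⟩ := PM7_lt_omega hη
  rw [hn h4] at h3
  have key : ∀ k : ℕ, Onto F θ (ξ₀ + Ordinal.omega0) (ξ₀ + ((n + k : ℕ) : Ordinal.{0})) := by
    intro k
    induction k with
    | zero => exact h3
    | succ k ih =>
      have h5 := onto_succ hθ hξ hθξ (hlt _) ih
      rw [← add_assoc n k 1, Nat.cast_add (n + k) 1, Nat.cast_one, ← add_assoc]
      exact h5
  have h5 := key m
  refine onto_mono hξ (hlt _) ?_ h5
  exact add_le_add_right (Nat.cast_le.2 (Nat.le_add_left m n)) _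

theorem PM7_xi {ζ ξ₀ : Ordinal.{0}} (hζ : ζ < θ) (hξδ : ξ₀ + Ordinal.omega0.{0} < δ)
    (hξ₀ : IsSuccLimit ξ₀) (hξ : IsSuccLimit (ξ₀ + Ordinal.omega0.{0}))
    (hξζ : (ξ₀ + Ordinal.omega0.{0}).toZFSet ∈ J.Rl ζ) (m : ℕ) :
    (ξ₀ + (m : Ordinal.{0})).toZFSet ∈ J.Rl ζ := by
  have hlt : ∀ m : ℕ, ξ₀ + (m : Ordinal.{0}) < ξ₀ + Ordinal.omega0 := fun m =>
    (add_lt_add_iff_left _).2 (Ordinal.natCast_lt_omega0 m)
  have htr : ∀ x ∈ (KA F (ξ₀ + Ordinal.omega0.{0})).A, ∀ y ∈ x,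
    y ∈ (KA F (ξ₀ + Ordinal.omega0.{0})).A := ks_trans _
  induction m with
  | zero =>
    rw [Nat.cast_zero, add_zero]
    have hL : DB fun w : Fin 1 → ZFSet.{0} => PM7_Lim (w 0) := by
      unfold PM7_Lim
      (repeat' first
        | assumption
        | exact D0v.proj _
        | apply DB.not | apply DB.and | apply DB.expair | apply DB.or | apply DB.isPair
        | apply DB.pairMem
        | apply DB.bex | apply DB.ball | apply DB.imp | apply DB.iff | apply DB.subset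
        | apply DB.eq | apply DB.mem | apply DB.isOrdinal)
    have hL1 := PM7_FR.of_db hL htr
    have hR : PM7_FR (KA F (ξ₀ + Ordinal.omega0.{0})) fun w : Fin (0 + 1) → ZFSet.{0} =>
        PM7_Lim (w 0) ∧ ∀ y ∈ (KA F (ξ₀ + Ordinal.omega0.{0})).A, PM7_Lim y →
          y ∈ w 0 ∨ y = w 0 := by
      apply PM7_FR.and
      · exact hL1
      · apply PM7_FR.all
        apply PM7_FR.imp
        · exact hL1.comp ![0]
        · exact PM7_FR.of_db ((DB.mem (D0v.proj 0) (D0v.proj 1)).or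
            (DB.eq (D0v.proj 0) (D0v.proj 1))) htr
    have h0 := hlt 0
    rw [Nat.cast_zero, add_zero] at h0
    refine PM7_rl hζ hξδ hξ hξζ hR Fin.elim0 (fun j => j.elim0) ((ks_ord hξ).2 h0) ?_
    intro z' hz'
    change (PM7_Lim z' ∧ ∀ y ∈ KS F (ξ₀ + Ordinal.omega0.{0}), PM7_Lim y →
          y ∈ z' ∨ y = z') ↔ _
    constructor
    · rintro ⟨h1, h2⟩
      obtain ⟨β, rfl, hβ⟩ := PM7_of_lim h1
      have h3 := h2 _ ((ks_ord hξ).2 h0) (PM7_lim_iff.2 hξ₀)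
      have h4 : ξ₀ ≤ β := by
        rcases h3 with h3 | h3
        · exact (Ordinal.toZFSet_mem_toZFSet_iff.1 h3).le
        · exact (Ordinal.toZFSet_injective h3).le
      obtain ⟨n, -, hn⟩ := PM7_lt_omega ((ks_ord hξ).1 hz')
      rw [hn h4]
      rw [hn h4] at hβ
      cases n with
      | zero => rw [Nat.cast_zero, add_zero]
      | succ n =>
        exfalso
        rw [Nat.cast_add, Nat.cast_one, ← add_assoc] at hβ
        exact Order.not_isSuccLimit_succ _ hβ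
    · rintro rfl
      refine ⟨PM7_lim_iff.2 hξ₀, ?_⟩
      intro y hy hyL
      obtain ⟨β, rfl, hβ⟩ := PM7_of_lim hyL
      rcases lt_trichotomy β ξ₀ with h1 | rfl | h1
      · exact Or.inl (Ordinal.toZFSet_mem_toZFSet_iff.2 h1)
      · exact Or.inr rfl
      · exfalso
        obtain ⟨n, -, hn⟩ := PM7_lt_omega ((ks_ord hξ).1 hy)
        rw [hn h1.le] at hβ h1
        cases n with
        | zero =>
          rw [Nat.cast_zero, add_zero] at h1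
          exact lt_irrefl _ h1
        | succ n =>
          rw [Nat.cast_add, Nat.cast_one, ← add_assoc] at hβ
          exact Order.not_isSuccLimit_succ _ hβ
  | succ m ih =>
    have hR : DB fun w : Fin (1 + 1) → ZFSet.{0} => w 1 ∈ w 0 ∧ (∀ y ∈ w 1, y ∈ w 0) ∧
        ∀ y ∈ w 0, y = w 1 ∨ y ∈ w 1 := by
      (repeat' first
        | assumption
        | exact D0v.proj _
        | apply DB.not | apply DB.and | apply DB.expair | apply DB.or | apply DB.isPair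
        | apply DB.pairMem
        | apply DB.bex | apply DB.ball | apply DB.imp | apply DB.iff | apply DB.subset
        | apply DB.eq | apply DB.mem | apply DB.isOrdinal)
    have hR1 := PM7_FR.of_db hR htr
    have e : (ξ₀ + ((m + 1 : ℕ) : Ordinal.{0})).toZFSet =
        insert (ξ₀ + (m : Ordinal.{0})).toZFSet (ξ₀ + (m : Ordinal.{0})).toZFSet := by
      rw [← Ordinal.toZFSet_add_one, Nat.cast_add, Nat.cast_one, add_assoc]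
    refine PM7_rl hζ hξδ hξ hξζ hR1 ![(ξ₀ + (m : Ordinal.{0})).toZFSet] ?_
      ((ks_ord hξ).2 (hlt _)) ?_
    · intro j
      fin_cases j
      exact ⟨ih, (ks_ord hξ).2 (hlt _)⟩
    · intro z' hz'
      rw [e]
      change ((ξ₀ + (m : Ordinal.{0})).toZFSet ∈ z' ∧
        (∀ y ∈ (ξ₀ + (m : Ordinal.{0})).toZFSet, y ∈ z') ∧
        ∀ y ∈ z', y = (ξ₀ + (m : Ordinal.{0})).toZFSet ∨ y ∈ (ξ₀ + (m : Ordinal.{0})).toZFSet) ↔ _
      constructor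
      · rintro ⟨h1, h2, h3⟩
        ext y
        rw [ZFSet.mem_insert_iff]
        exact ⟨h3 y, fun hy => hy.elim (fun h => h ▸ h1) (h2 y)⟩
      · rintro rfl
        exact ⟨ZFSet.mem_insert _ _, fun y hy => ZFSet.mem_insert_of_mem _ hy,
          fun y hy => ZFSet.mem_insert_iff.1 hy⟩

/-- Case `U(Ψ)`, `F` not amenable. -/
theorem PM7_case_nam {Ψ₀ : Set Mx} (h0 : Cnds Ψ₀) {ξ : Ordinal.{0}} (hξ : IsSuccLimit ξ)
    (hξδ : ξ < δ) (hθξ : θ < ξ) {Ψ : Set Mx} (s : Stp J ξ Ψ) (hPU : PU F θ ξ Ψ)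
    (ham : ¬ ∀ a ∈ KS F ξ, F ∩ a ∈ KS F ξ) {ν : Ordinal.{0}} (hν : J.cr s.ζ < ν) (hνθ : ν < θ)
    (hνY : ν ∉ s.Y) (hreg : ARg F ξ ν) : ν.cof = ℵ₀ := by
  obtain ⟨ν', i, c', h1, h2, hi, hiθ, h3, h4, -, h5, h6, h7, h8⟩ :=
    find_i hξ hξδ hθξ s hν hνθ hνY hreg
  obtain ⟨ξ₀, hξ₀, rfl⟩ := PM7_top hξ J.hθ hθξ ham
  have hlt : ∀ m : ℕ, ξ₀ + (m : Ordinal.{0}) < ξ₀ + Ordinal.omega0 := fun m =>
    (add_lt_add_iff_left _).2 (Ordinal.natCast_lt_omega0 m)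
  have hb : ∀ q : ℕ × ℕ, ∃ b < ν, ∀ g, g ∈ J.Rl s.ζ → g ∈ KS F (ξ₀ + (q.1 : Ordinal.{0})) →
      PFn F θ g → ∀ x, Tp (Cp J s.ζ (i + 1)) x → ∀ α α' : Ordinal.{0}, α < ν' →
      α.toZFSet ∈ HX J (ξ₀ + Ordinal.omega0) Ψ s.ζ →
      pair (wt J (i + 1) x q.2) α.toZFSet ∈ g → s.π α.toZFSet = α'.toZFSet → α' < b := by
    intro q
    exact bound hξ hξδ hθξ s hν hνθ hreg h1 h2 hi hiθ h3 h4 h5 h6 h7
      (PM7_xi s.hζ hξδ hξ₀ hξ s.ξ_mem q.1) (hlt q.1)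
      (PM7_onto h0 hξ₀ J.hθ J.Fsub hξ hθξ ham q.1) q.2
  choose b hb hb' using hb
  apply le_antisymm
  · have h9 := PM7_cof_le (ν := ν) (ℕ × ℕ) b hb ?_
    · refine h9.trans ?_
      simp
    · intro α' hα'
      obtain ⟨α, hα, hαH, hπ⟩ := h8 α' hα'
      obtain ⟨g, hg, hgξ, hgf, x, hx, k, hp⟩ := PM7_cover hξ hξδ hθξ s hPU hi hiθ h4 hα hαH
      obtain ⟨η, hη, hgη⟩ := (ks_limit hξ).1 hgξ
      obtain ⟨m, hm, -⟩ := PM7_lt_omega hη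
      exact ⟨(m, k), (hb' (m, k) g hg (ks_mono hm hgη) hgf x hx α α' hα hαH hp hπ).le⟩
  · exact Ordinal.aleph0_le_cof.2 hreg.1

end Pool.Agent.helper797_cs
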