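import Pool.Agent.helper797_cs.PM1
import Pool.Agent.helper797_cs.PM2
import Pool.Agent.helper797_cs.PM5
import Pool.Agent.helper797_cs.PM7

/-! # M8: the main lemma C2 -/

set_option autoImplicit false
namespace Pool.Agent.helper797_cs
open Pool.Agent.W868 Pool.Agent.R587
open ZFSet (pair)
open Cardinal Order

variable {F : ZFSet.{0}} {θ δ : Ordinal.{0}}

theorem main_lemma {Ψ₀ : Set Mx} (h0 : Cnds Ψ₀) (J : IT F θ δ) {ξ : Ordinal.{0}}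
    (hξ : IsSuccLimit ξ) (hξδ : ξ < δ) (hθξ : θ < ξ) {γ : Ordinal.{0}} (hγ : IsSuccLimit γ)
    (hγθ : γ < θ) {y : ZFSet.{0}} (hy : y ∈ KS F (ξ + Ordinal.omega0)) (hys : y ⊆ KS F γ)
    (hyn : y ∉ KS F ξ) :
    ∃ (Y : Set Ordinal.{0}) (β : Ordinal.{0}) (m : Cardinal.{0}), β < θ ∧
      (∀ Z ∈ F, Z ∈ KS F ξ → ∃ α < θ, ∀ η ∈ Y, α ≤ η → η.toZFSet ∈ Z) ∧
      ∀ ν, β < ν → ν < θ → ν ∉ Y → ARg F ξ ν → ν.cof = m := by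
  obtain ⟨Ψ, hfin, hcl, hΨ, hPB, ψ, hψ, t, ht, γ', hγ'θ, hγ', hG⟩ :=
    chain h0 J.hθ hξ hθξ hγ hγθ hy hys hyn
  by_cases hPU : PU F θ ξ Ψ
  · obtain ⟨s, -⟩ := exists_stp J h0 hΨ hcl hξ hξδ hθξ hψ ht hγ' hγ'θ hG Set.finite_empty
      (Set.empty_subset _)
    by_cases ham : ∀ a ∈ KS F ξ, F ∩ a ∈ KS F ξ
    · exact ⟨s.Y, J.cr s.ζ, _, J.cr_lt _ s.hζ, fun Z hZ hZξ => tail_Y hξ hξδ hθξ s hZ hZξ,
        fun ν hν hνθ hνY hreg => case_am h0 hξ hξδ hθξ s hPU ham hν hνθ hνY hreg⟩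
    · exact ⟨s.Y, J.cr s.ζ, ℵ₀, J.cr_lt _ s.hζ, fun Z hZ hZξ => tail_Y hξ hξδ hθξ s hZ hZξ,
        fun ν hν hνθ hνY hreg => case_nam h0 hξ hξδ hθξ s hPU ham hν hνθ hνY hreg⟩
  · obtain ⟨p, hpξ, hgen⟩ := hull h0 hΨ hcl J.hθ hξ hθξ J.Fsub hPU
    obtain ⟨s, hs⟩ := exists_stp J h0 hΨ hcl hξ hξδ hθξ hψ ht hγ' hγ'θ hG
      (Set.finite_singleton p) (Set.singleton_subset_iff.2 hpξ)
    exact ⟨s.Y, J.cr s.ζ, ℵ₀, J.cr_lt _ s.hζ, fun Z hZ hZξ => tail_Y hξ hξδ hθξ s hZ hZξ,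
      fun ν hν hνθ hνY hreg => case_gen hξ hξδ hθξ hfin hcl s hPB (hs rfl) hpξ hgen hν hνθ hνY
        hreg⟩

end Pool.Agent.helper797_cs
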