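import Pool.Agent.helper797_cs.CDefs
import Pool.Agent.W868.LZF

/-! # W1: unions of hierarchies are models of ZF -/

set_option autoImplicit false
namespace Pool.Agent.helper797_cs
open Pool.Agent.W868 Pool.Agent.R587
open Cardinal

namespace PW1

/-! ### Parameters as variables -/

theorem exists_list_t {n : ℕ} {S : Set ZFSet.{0}} (s : Fin n ⊕ ZFSet.{0}) (h : TOver S s) :
    ∃ L : List ZFSet.{0}, (∀ a ∈ L, a ∈ S) ∧ TOver {a | a ∈ L} s := by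
  cases s with
  | inl i => exact ⟨[], by simp, TOver.inl i⟩
  | inr a =>
    refine ⟨[a], ?_, tOver_inr.2 (by simp)⟩
    intro b hb
    rw [List.mem_singleton] at hb
    exact hb ▸ tOver_inr.1 h

theorem exists_list {S : Set ZFSet.{0}} : {n : ℕ} → (φ : Fml ZFSet.{0} n) → φ.Over S →
    ∃ L : List ZFSet.{0}, (∀ a ∈ L, a ∈ S) ∧ φ.Over {a | a ∈ L}
  | _, .mem s t, h => by
    obtain ⟨L1, h1, h2⟩ := exists_list_t s h.1
    obtain ⟨L2, h3, h4⟩ := exists_list_t t h.2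
    refine ⟨L1 ++ L2, fun a ha => ?_, h2.mono fun a ha => ?_, h4.mono fun a ha => ?_⟩
    · rcases List.mem_append.1 ha with ha | ha
      · exact h1 a ha
      · exact h3 a ha
    · exact List.mem_append_left _ ha
    · exact List.mem_append_right _ ha
  | _, .eq s t, h => by
    obtain ⟨L1, h1, h2⟩ := exists_list_t s h.1
    obtain ⟨L2, h3, h4⟩ := exists_list_t t h.2
    refine ⟨L1 ++ L2, fun a ha => ?_, h2.mono fun a ha => ?_, h4.mono fun a ha => ?_⟩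
    · rcases List.mem_append.1 ha with ha | ha
      · exact h1 a ha
      · exact h3 a ha
    · exact List.mem_append_left _ ha
    · exact List.mem_append_right _ ha
  | _, .neg φ, h => exists_list φ h
  | _, .and φ ψ, h => by
    obtain ⟨L1, h1, h2⟩ := exists_list φ h.1
    obtain ⟨L2, h3, h4⟩ := exists_list ψ h.2
    refine ⟨L1 ++ L2, fun a ha => ?_, Fml.Over.mono (φ := φ) (fun a ha => ?_) h2,
      Fml.Over.mono (φ := ψ) (fun a ha => ?_) h4⟩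
    · rcases List.mem_append.1 ha with ha | ha
      · exact h1 a ha
      · exact h3 a ha
    · exact List.mem_append_left _ ha
    · exact List.mem_append_right _ ha
  | _, .ex φ, h => exists_list φ h

theorem exists_map_t (L : List ZFSet.{0}) {n : ℕ} (s : Fin n ⊕ ZFSet.{0})
    (h : TOver {a | a ∈ L} s) : ∃ s' : Fin n ⊕ Fin L.length, Sum.map id L.get s' = s := by
  cases s with
  | inl i => exact ⟨Sum.inl i, rfl⟩
  | inr a =>
    have h' : a ∈ {a | a ∈ L} := tOver_inr.1 h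
    obtain ⟨k, hk⟩ := List.mem_iff_get.1 h'
    exact ⟨Sum.inr k, congrArg Sum.inr hk⟩

theorem exists_map (L : List ZFSet.{0}) : {n : ℕ} → (φ : Fml ZFSet.{0} n) →
    φ.Over {a | a ∈ L} → ∃ φ' : Fml (Fin L.length) n, φ'.map L.get = φ
  | _, .mem s t, h => by
    obtain ⟨s', rfl⟩ := exists_map_t L s h.1
    obtain ⟨t', rfl⟩ := exists_map_t L t h.2
    exact ⟨.mem s' t', rfl⟩
  | _, .eq s t, h => by
    obtain ⟨s', rfl⟩ := exists_map_t L s h.1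
    obtain ⟨t', rfl⟩ := exists_map_t L t h.2
    exact ⟨.eq s' t', rfl⟩
  | _, .neg φ, h => by
    obtain ⟨φ', rfl⟩ := exists_map L φ h
    exact ⟨.neg φ', rfl⟩
  | _, .and φ ψ, h => by
    obtain ⟨φ', rfl⟩ := exists_map L φ h.1
    obtain ⟨ψ', rfl⟩ := exists_map L ψ h.2
    exact ⟨.and φ' ψ', rfl⟩
  | _, .ex φ, h => by
    obtain ⟨φ', rfl⟩ := exists_map L φ h
    exact ⟨.ex φ', rfl⟩

/-- Parameters as variables, terms. -/
def te {m n : ℕ} : Fin n ⊕ Fin m → Fin (m + n) ⊕ Empty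
  | Sum.inl i => Sum.inl ⟨i, by omega⟩
  | Sum.inr j => Sum.inl ⟨n + j, by omega⟩

/-- Parameters as variables. -/
def toE (m : ℕ) : {n : ℕ} → Fml (Fin m) n → Fml Empty (m + n)
  | _, .mem s t => .mem (te s) (te t)
  | _, .eq s t => .eq (te s) (te t)
  | _, .neg φ => .neg (toE m φ)
  | _, .and φ ψ => .and (toE m φ) (toE m ψ)
  | n, .ex φ => Fml.ex (n := m + n) (toE m (n := n + 1) φ)

/-- The valuation. -/
def vl {m n : ℕ} (v : Fin n → ZFSet.{0}) (w : Fin m → ZFSet.{0}) : Fin (m + n) → ZFSet.{0} :=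
  fun k => if h : k.val < n then v ⟨k.val, h⟩ else w ⟨k.val - n, by omega⟩

theorem elim_te {m n : ℕ} (v : Fin n → ZFSet.{0}) (w : Fin m → ZFSet.{0}) (s : Fin n ⊕ Fin m) :
    Sum.elim (vl v w) Empty.elim (te s) = Sum.elim v w s := by
  cases s with
  | inl i => simp [te, vl]
  | inr j => simp [te, vl]

theorem vl_cons {m n : ℕ} (v : Fin n → ZFSet.{0}) (w : Fin m → ZFSet.{0}) (a : ZFSet.{0}) :
    (Fin.cons a (vl v w) : Fin (m + n + 1) → ZFSet.{0}) =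
      vl (n := n + 1) (Fin.cons a v : Fin (n + 1) → ZFSet.{0}) w := by
  funext k
  refine Fin.cases ?_ (fun k => ?_) k
  · simp only [Fin.cons_zero]
    unfold vl
    rw [dif_pos (by simp)]
    rfl
  · simp only [Fin.cons_succ]
    unfold vl
    by_cases h : k.val < n
    · rw [dif_pos h, dif_pos (by simp only [Fin.val_succ]; omega)]
      rfl
    · rw [dif_neg h, dif_neg (by simp only [Fin.val_succ]; omega)]
      congr 1
      apply Fin.ext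
      simp only [Fin.val_succ]
      omega

theorem sat_toE {m : ℕ} (M : Set ZFSet.{0}) (w : Fin m → ZFSet.{0}) : {n : ℕ} →
    (φ : Fml (Fin m) n) → (v : Fin n → ZFSet.{0}) →
    (Sat M Empty.elim (toE m φ) (vl v w) ↔ Sat M w φ v)
  | _, .mem s t, v => by simp only [toE, Sat, elim_te]
  | _, .eq s t, v => by simp only [toE, Sat, elim_te]
  | _, .neg φ, v => by simp only [toE, Sat, sat_toE M w φ]
  | _, .and φ ψ, v => by simp only [toE, Sat, sat_toE M w φ, sat_toE M w ψ]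
  | _, .ex φ, v => by
    simp only [toE, Sat]
    refine exists_congr fun a => and_congr_right fun _ => ?_
    rw [← sat_toE M w φ (Fin.cons a v)]
    rw [vl_cons]

/-! ### The closure of a class function -/

theorem exists_closed (G : Ordinal.{0} → Ordinal.{0}) (α : Ordinal.{0}) :
    ∃ δ, α ≤ δ ∧ Order.IsSuccLimit δ ∧ ∀ ξ < δ, G ξ ≤ δ := by
  let f : Ordinal.{0} → Ordinal.{0} := fun ξ => max (ξ + 1) (⨆ ζ : Set.Iic ξ, G ζ)
  have h1 : ∀ n, f^[n] α ≤ ⨆ n : ℕ, f^[n] α := fun n => Ordinal.le_iSup (fun n : ℕ => f^[n] α) n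
  have h2 : ∀ ξ, ξ < (⨆ n : ℕ, f^[n] α) → ∃ n, ξ < f^[n] α := fun ξ h =>
    (Ordinal.lt_iSup_iff).1 h
  have h3 : ∀ n, f (f^[n] α) ≤ ⨆ n : ℕ, f^[n] α := fun n => by
    have := h1 (n + 1)
    rwa [Function.iterate_succ_apply'] at this
  have h4 : ∀ ξ, ξ < (⨆ n : ℕ, f^[n] α) → ξ + 1 < ⨆ n : ℕ, f^[n] α := by
    intro ξ h
    obtain ⟨n, hn⟩ := h2 ξ h
    have h5 : ξ + 1 ≤ f^[n] α := Order.succ_le_of_lt hn
    have h6 : f^[n] α < f (f^[n] α) := lt_of_lt_of_le (Order.lt_succ (f^[n] α)) (le_max_left _ _)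
    exact lt_of_le_of_lt h5 (lt_of_lt_of_le h6 (h3 n))
  refine ⟨⨆ n : ℕ, f^[n] α, h1 0, ?_, ?_⟩
  · refine ⟨?_, Order.isSuccPrelimit_of_succ_lt h4⟩
    have h5 : (0 : Ordinal.{0}) < ⨆ n : ℕ, f^[n] α := by
      refine lt_of_lt_of_le ?_ (h3 0)
      exact lt_of_lt_of_le (lt_of_le_of_lt bot_le (Order.lt_succ _)) (le_max_left _ _)
    exact not_isMin_of_lt h5
  · intro ξ hξ
    obtain ⟨n, hn⟩ := h2 ξ hξ
    refine le_trans ?_ (h3 n)
    refine le_trans ?_ (le_max_right _ _)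
    exact Ordinal.le_iSup (fun ζ : Set.Iic (f^[n] α) => G ζ) ⟨ξ, hn.le⟩

section hier

variable {H : Ordinal.{0} → ZFSet.{0}}

/-- The union of the hierarchy. -/
def Cls (H : Ordinal.{0} → ZFSet.{0}) : Set ZFSet.{0} := {x | ∃ α, x ∈ H α}

theorem exists_bound (mono : ∀ α β, α ≤ β → H α ⊆ H β) {ι : Type*} [Small.{0} ι]
    (f : ι → ZFSet.{0}) (h : ∀ i, ∃ α, f i ∈ H α) : ∃ δ, ∀ i, f i ∈ H δ := by
  choose g hg using h
  exact ⟨⨆ i, g i, fun i => mono _ _ (Ordinal.le_iSup g i) (hg i)⟩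

theorem exists_level (mono : ∀ α β, α ≤ β → H α ⊆ H β) (x : ZFSet.{0})
    (Q : ZFSet.{0} → ZFSet.{0} → Prop) :
    ∃ δ, ∀ z ∈ x, (∃ w ∈ Cls H, Q w z) → ∃ w ∈ H δ, Q w z := by
  have h : ∀ z : x, ∃ α, (∃ w ∈ Cls H, Q w z) → ∃ w ∈ H α, Q w z := by
    intro z
    by_cases h1 : ∃ w ∈ Cls H, Q w z
    · obtain ⟨w, ⟨α, h2⟩, h3⟩ := h1
      exact ⟨α, fun _ => ⟨w, h2, h3⟩⟩
    · exact ⟨0, fun h2 => absurd h2 h1⟩
  choose g hg using h
  refine ⟨⨆ z, g z, fun z hz hw => ?_⟩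
  obtain ⟨w, h1, h2⟩ := hg ⟨z, hz⟩ hw
  exact ⟨w, mono _ _ (Ordinal.le_iSup g ⟨z, hz⟩) h1, h2⟩

/-- Bounds for witnesses. -/
theorem exists_refl (mono : ∀ α β, α ≤ β → H α ⊆ H β)
    (lim : ∀ α, Order.IsSuccLimit α → ∀ x ∈ H α, ∃ β < α, x ∈ H β) : {n : ℕ} →
    (φ : Fml ZFSet.{0} n) → ∃ G : Ordinal.{0} → Ordinal.{0}, ∀ δ, Order.IsSuccLimit δ →
      (∀ ξ < δ, G ξ ≤ δ) → CL (Cls H) {x | x ∈ H δ} φ
  | _, .mem _ _ => ⟨fun _ => 0, fun _ _ _ => trivial⟩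
  | _, .eq _ _ => ⟨fun _ => 0, fun _ _ _ => trivial⟩
  | _, .neg φ => exists_refl mono lim φ
  | _, .and φ ψ => by
    obtain ⟨G1, h1⟩ := exists_refl mono lim φ
    obtain ⟨G2, h2⟩ := exists_refl mono lim ψ
    exact ⟨fun ξ => max (G1 ξ) (G2 ξ), fun δ hδ h => ⟨h1 δ hδ fun ξ hξ =>
      (le_max_left _ _).trans (h ξ hξ), h2 δ hδ fun ξ hξ => (le_max_right _ _).trans (h ξ hξ)⟩⟩
  | n, .ex φ => by
    obtain ⟨G1, h1⟩ := exists_refl mono lim φ
    have h2 : ∀ ξ, ∃ η, ∀ v : Fin n → ZFSet.{0}, (∀ i, v i ∈ H ξ) →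
        (∃ a ∈ Cls H, Sat (Cls H) id φ (Fin.cons a v)) →
        ∃ a ∈ H η, Sat (Cls H) id φ (Fin.cons a v) := by
      intro ξ
      have h3 : ∀ v : Fin n → H ξ, ∃ η, (∃ a ∈ Cls H, Sat (Cls H) id φ
          (Fin.cons a fun i => (v i : ZFSet.{0}))) →
          ∃ a ∈ H η, Sat (Cls H) id φ (Fin.cons a fun i => (v i : ZFSet.{0})) := by
        intro v
        by_cases h4 : ∃ a ∈ Cls H, Sat (Cls H) id φ (Fin.cons a fun i => (v i : ZFSet.{0}))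
        · obtain ⟨w, ⟨α, h2⟩, h3⟩ := h4
          exact ⟨α, fun _ => ⟨w, h2, h3⟩⟩
        · exact ⟨0, fun h5 => absurd h5 h4⟩
      choose g hg using h3
      refine ⟨⨆ v, g v, fun v hv hw => ?_⟩
      obtain ⟨w, h4, h5⟩ := hg (fun i => ⟨v i, hv i⟩) hw
      exact ⟨w, mono _ _ (Ordinal.le_iSup g _) h4, h5⟩
    choose G2 hG2 using h2
    refine ⟨fun ξ => max (G1 ξ) (G2 ξ), fun δ hδ h => ⟨h1 δ hδ fun ξ hξ =>
      (le_max_left _ _).trans (h ξ hξ), fun v hv hw => ?_⟩⟩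
    have h3 : ∀ i, ∃ β < δ, v i ∈ H β := fun i => lim δ hδ _ (hv i)
    choose β hβ hβ' using h3
    have h4 : Finset.univ.sup β < δ := (Finset.sup_lt_iff hδ.bot_lt).2 fun i _ => hβ i
    obtain ⟨a, h5, h6⟩ := hG2 _ v (fun i => mono _ _ (Finset.le_sup (Finset.mem_univ i)) (hβ' i)) hw
    exact ⟨a, mono _ _ ((le_max_right _ _).trans (h _ h4)) h5, h6⟩

theorem sep_mem (df : ∀ α, ∀ (n : ℕ) (φ : Fml Empty (n + 1)) (v : Fin n → ZFSet.{0}),
      (∀ i, v i ∈ H α) → ZFSet.sep (fun y => Sat {x | x ∈ H α} Empty.elim φ (Fin.cons y v)) (H α) ∈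
        H (α + 1)) {α : Ordinal.{0}} {Q : ZFSet.{0} → Prop}
    (hQ : Dfn {x | x ∈ H α} {x | x ∈ H α} fun w : Fin 1 → ZFSet.{0} => Q (w 0)) :
    ZFSet.sep Q (H α) ∈ H (α + 1) := by
  obtain ⟨φ, h1, h2⟩ := hQ
  obtain ⟨L, h3, h4⟩ := exists_list φ h1
  obtain ⟨φ', rfl⟩ := exists_map L φ h4
  have h5 := df α L.length (toE L.length φ') L.get fun i => h3 _ (List.get_mem _ _)
  have h6 : ZFSet.sep (fun y => Sat {x | x ∈ H α} Empty.elim (toE L.length φ') (Fin.cons y L.get))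
      (H α) = ZFSet.sep Q (H α) := by
    ext y
    rw [ZFSet.mem_sep, ZFSet.mem_sep]
    refine and_congr_right fun hy => ?_
    have h7 : (Fin.cons y L.get : Fin (L.length + 1) → ZFSet.{0}) = vl (n := 1) ![y] L.get := by
      have h8 := vl_cons (m := L.length) (n := 0) ![] L.get y
      have h9 : (vl (n := 0) ![] L.get : Fin (L.length + 0) → ZFSet.{0}) = L.get := by
        funext k
        simp [vl]
      rw [h9] at h8
      exact h8
    rw [h7]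
    refine (sat_toE _ L.get φ' ![y]).trans ?_
    have h10 := h2 ![y] (by
      intro i
      fin_cases i
      exact hy)
    rw [sat_map] at h10
    exact h10
  exact h6 ▸ h5

end hier

section main

variable {H : Ordinal.{0} → ZFSet.{0}} (mono : ∀ α β, α ≤ β → H α ⊆ H β)
  (tr : ∀ α, ∀ x ∈ H α, ∀ y ∈ x, y ∈ H α)
  (lim : ∀ α, Order.IsSuccLimit α → ∀ x ∈ H α, ∃ β < α, x ∈ H β)
  (df : ∀ α, ∀ (n : ℕ) (φ : Fml Empty (n + 1)) (v : Fin n → ZFSet.{0}), (∀ i, v i ∈ H α) →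
    ZFSet.sep (fun y => Sat {x | x ∈ H α} Empty.elim φ (Fin.cons y v)) (H α) ∈ H (α + 1))

include tr in
theorem cls_trans : ∀ x ∈ Cls H, ∀ y ∈ x, y ∈ Cls H := by
  rintro x ⟨α, hx⟩ y hy
  exact ⟨α, tr α x hx y hy⟩

include df in
theorem level_mem (α : Ordinal.{0}) : H α ∈ H (α + 1) := by
  have h := sep_mem df (α := α) (Q := fun _ => True) Dfn.tt
  have h2 : ZFSet.sep (fun _ => True) (H α) = H α := by
    ext y
    rw [ZFSet.mem_sep]
    simp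
  rwa [h2] at h

include mono lim df in
theorem separation_cls (φ : Fml ZFSet.{0} 1) (hφ : φ.Over (Cls H)) (x : ZFSet.{0})
    (hx : x ∈ Cls H) : ∃ y ∈ Cls H, ∀ z, z ∈ y ↔ z ∈ x ∧ z ∈ Cls H ∧ Sat (Cls H) id φ ![z] := by
  obtain ⟨L, h1, h2⟩ := exists_list φ hφ
  obtain ⟨ξ, h3⟩ := exists_bound mono (fun i : Fin L.length => L.get i)
    fun i => h1 _ (List.get_mem _ _)
  obtain ⟨η, h4⟩ := hx
  obtain ⟨G, hG⟩ := exists_refl mono lim φ
  obtain ⟨ρ, h5⟩ := exists_level mono x (fun w z => w = z)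
  obtain ⟨δ, h6, h7, h8⟩ := exists_closed G (max (max ξ η) ρ)
  have h9 := hG δ h7 h8
  have hξ : ξ ≤ δ := (le_max_left _ _).trans ((le_max_left _ _).trans h6)
  have hη : η ≤ δ := (le_max_right _ _).trans ((le_max_left _ _).trans h6)
  have hρ : ρ ≤ δ := (le_max_right _ _).trans h6
  have hov : φ.Over {x | x ∈ H δ} := by
    refine Fml.Over.mono (φ := φ) (fun a ha => ?_) h2
    obtain ⟨k, rfl⟩ := List.mem_iff_get.1 ha
    exact mono _ _ hξ (h3 k)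
  have hsub : {x | x ∈ H δ} ⊆ Cls H := fun a ha => ⟨δ, ha⟩
  have hQ : Dfn {x | x ∈ H δ} {x | x ∈ H δ} fun w : Fin 1 → ZFSet.{0} =>
      w 0 ∈ x ∧ Sat (Cls H) id φ ![w 0] := by
    refine Dfn.and (Dfn.mem (DfnF.proj 0) (DfnF.const' (mono _ _ hη h4) (mono _ _ hη h4))) ?_
    refine ⟨φ, hov, fun v hv => ?_⟩
    have h10 : ![v 0] = v := by
      funext i
      fin_cases i
      rfl
    beta_reduce
    rw [h10]
    exact CL_sat hsub φ h9 v hv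
  refine ⟨_, ⟨_, sep_mem df (Q := fun z => z ∈ x ∧ Sat (Cls H) id φ ![z]) hQ⟩, fun z => ?_⟩
  rw [ZFSet.mem_sep]
  constructor
  · rintro ⟨h10, h11, h12⟩
    exact ⟨h11, ⟨δ, h10⟩, h12⟩
  · rintro ⟨h10, h11, h12⟩
    obtain ⟨w, hw, rfl⟩ := h5 z h10 ⟨z, h11, rfl⟩
    exact ⟨mono _ _ hρ hw, h10, h12⟩

include mono tr df in
theorem ord_cls (α : Ordinal.{0}) : α.toZFSet ∈ Cls H := by
  induction α using WellFoundedLT.induction with
  | _ α ih =>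
  obtain ⟨δ, hδ⟩ := exists_bound mono (fun β : Set.Iio α => β.1.toZFSet) fun β => ih β.1 β.2
  by_cases h : α.toZFSet ∈ H δ
  · exact ⟨δ, h⟩
  · have hα : α.toZFSet.IsOrdinal := ZFSet.isOrdinal_toZFSet _
    have h4 : ZFSet.sep (fun z => z.IsOrdinal) (H δ) = α.toZFSet := by
      ext z
      rw [ZFSet.mem_sep]
      constructor
      · rintro ⟨h5, h6⟩
        rcases h6.mem_trichotomous hα with h7 | rfl | h7
        · exact h7
        · exact absurd h5 h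
        · exact absurd (tr _ _ h5 _ h7) h
      · intro hz
        refine ⟨?_, hα.mem hz⟩
        obtain ⟨β, hβ, rfl⟩ := Ordinal.mem_toZFSet_iff.1 hz
        exact hδ ⟨β, hβ⟩
    have h5 := sep_mem df (α := δ) (Q := fun z => z.IsOrdinal)
      ((D0.isOrdinal (D0v.proj 0)).dfn (tr δ))
    rw [h4] at h5
    exact ⟨_, h5⟩

include mono df in
theorem pair_cls {x y : ZFSet.{0}} (hx : x ∈ Cls H) (hy : y ∈ Cls H) :
    ({x, y} : ZFSet.{0}) ∈ Cls H := by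
  obtain ⟨α, hx⟩ := hx
  obtain ⟨β, hy⟩ := hy
  have hx' := mono _ _ (le_max_left α β) hx
  have hy' := mono _ _ (le_max_right α β) hy
  have h := sep_mem df (α := max α β) (Q := fun z => z = x ∨ z = y)
    ((Dfn.eq (DfnF.proj 0) (DfnF.const' hx' hx')).or (Dfn.eq (DfnF.proj 0) (DfnF.const' hy' hy')))
  have h2 : ZFSet.sep (fun z => z = x ∨ z = y) (H (max α β)) = {x, y} := by
    ext z
    rw [ZFSet.mem_sep, ZFSet.mem_pair]
    constructor
    · exact fun h => h.2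
    · rintro (rfl | rfl)
      · exact ⟨hx', Or.inl rfl⟩
      · exact ⟨hy', Or.inr rfl⟩
  rw [h2] at h
  exact ⟨_, h⟩

include tr df in
theorem union_cls {x : ZFSet.{0}} (hx : x ∈ Cls H) : ZFSet.sUnion x ∈ Cls H := by
  obtain ⟨α, hx⟩ := hx
  have hQ : Dfn {x | x ∈ H α} {x | x ∈ H α} fun w : Fin 1 → ZFSet.{0} =>
      ∃ a ∈ {x | x ∈ H α}, a ∈ x ∧ w 0 ∈ a := by
    refine Dfn.ex (Q := fun a w => a ∈ x ∧ w 0 ∈ a) ?_
    exact (Dfn.mem (DfnF.proj 0) (DfnF.const' hx hx)).and (Dfn.mem (DfnF.proj 1) (DfnF.proj 0))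
  have h := sep_mem df (α := α) (Q := fun z => ∃ a ∈ {x | x ∈ H α}, a ∈ x ∧ z ∈ a) hQ
  have h2 : ZFSet.sep (fun z => ∃ a ∈ {x | x ∈ H α}, a ∈ x ∧ z ∈ a) (H α) = ZFSet.sUnion x := by
    ext z
    rw [ZFSet.mem_sep, ZFSet.mem_sUnion]
    constructor
    · rintro ⟨-, a, -, h3, h4⟩
      exact ⟨a, h3, h4⟩
    · rintro ⟨a, h3, h4⟩
      exact ⟨tr _ _ (tr _ _ hx _ h3) _ h4, a, tr _ _ hx _ h3, h3, h4⟩
  rw [h2] at h
  exact ⟨_, h⟩

include mono tr lim df in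
theorem main : IsZF (Cls H) ∧ ∀ α : Ordinal.{0}, α.toZFSet ∈ Cls H := by
  have hT := cls_trans tr
  have hO := ord_cls mono tr df
  have hL : ∀ α, H α ∈ Cls H := fun α => ⟨_, level_mem df α⟩
  have hS : ∀ φ : Fml ZFSet.{0} 1, φ.Over (Cls H) → ∀ x ∈ Cls H, ∃ y ∈ Cls H, ∀ z,
      z ∈ y ↔ z ∈ x ∧ Sat (Cls H) id φ ![z] := by
    intro φ hφ x hx
    obtain ⟨y, h1, h2⟩ := separation_cls mono lim df φ hφ x hx
    refine ⟨y, h1, fun z => ?_⟩
    rw [h2]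
    exact ⟨fun h => ⟨h.1, h.2.2⟩, fun h => ⟨h.1, hT _ hx _ h.1, h.2⟩⟩
  refine ⟨⟨hT, fun x hx y hy => pair_cls mono df hx hy, fun x hx => union_cls tr df hx,
    ?_, ?_, hS, ?_⟩, hO⟩
  · rw [omega_eq]
    exact hO _
  · intro x hx
    obtain ⟨δ, h2⟩ := exists_level mono (ZFSet.powerset x) (fun w z => w = z)
    obtain ⟨y, hy, h3⟩ := hS
      (.neg (.ex (.and (.mem (Sum.inl 0) (Sum.inl 1)) (.neg (.mem (Sum.inl 0) (Sum.inr x))))))
      ⟨⟨TOver.inl _, TOver.inl _⟩, TOver.inl _, tOver_inr.2 hx⟩ _ (hL δ)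
    refine ⟨y, hy, fun z => ?_⟩
    rw [h3]
    constructor
    · rintro ⟨h4, h5⟩
      have hzC := hT _ (hL δ) _ h4
      refine ⟨hzC, fun u hu => ?_⟩
      by_contra h6
      exact h5 ⟨u, hT _ hzC _ hu, hu, h6⟩
    · rintro ⟨h4, h5⟩
      obtain ⟨w, hw, rfl⟩ := h2 z (ZFSet.mem_powerset.2 h5) ⟨z, h4, rfl⟩
      refine ⟨hw, ?_⟩
      rintro ⟨u, -, hu, hu'⟩
      exact hu' (h5 hu)
  · intro φ hφ x hx h
    obtain ⟨δ, h2⟩ := exists_level mono x (fun w z => Sat (Cls H) id φ ![z, w])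
    obtain ⟨y, hy, h3⟩ := hS
      (.ex (.and (.mem (Sum.inl 0) (Sum.inr x)) φ)) ⟨⟨TOver.inl _, tOver_inr.2 hx⟩, hφ⟩ _ (hL δ)
    have hv : ∀ z w : ZFSet.{0}, (Fin.cons z ![w] : Fin 2 → ZFSet.{0}) = ![z, w] := by
      intro z w
      funext i
      fin_cases i <;> rfl
    refine ⟨y, hy, fun w => ?_⟩
    rw [h3]
    constructor
    · rintro ⟨h4, z, hz, hzx, h5⟩
      rw [hv] at h5
      exact ⟨hT _ (hL δ) _ h4, z, hzx, h5⟩
    · rintro ⟨hw, z, hz, h4⟩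
      obtain ⟨w', -, hw'⟩ := h z hz
      obtain ⟨w'', h5, h6⟩ := h2 z hz ⟨w, hw, h4⟩
      have h7 := hT _ (hL δ) _ h5
      have h8 : w'' = w := (hw' w'' ⟨h7, h6⟩).trans (hw' w ⟨hw, h4⟩).symm
      refine ⟨h8 ▸ h5, z, hT _ hx _ hz, hz, ?_⟩
      rw [hv]
      exact h4

end main

end PW1

theorem isZF_of_hier (H : Ordinal.{0} → ZFSet.{0}) (mono : ∀ α β, α ≤ β → H α ⊆ H β)
    (tr : ∀ α, ∀ x ∈ H α, ∀ y ∈ x, y ∈ H α)
    (lim : ∀ α, Order.IsSuccLimit α → ∀ x ∈ H α, ∃ β < α, x ∈ H β)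
    (df : ∀ α, ∀ (n : ℕ) (φ : Fml Empty (n + 1)) (v : Fin n → ZFSet.{0}), (∀ i, v i ∈ H α) →
      ZFSet.sep (fun y => Sat {x | x ∈ H α} Empty.elim φ (Fin.cons y v)) (H α) ∈
        H (α + 1)) :
    IsZF {x | ∃ α, x ∈ H α} ∧ ∀ α : Ordinal.{0}, α.toZFSet ∈ {x | ∃ α, x ∈ H α} :=
  PW1.main mono tr lim df

end Pool.Agent.helper797_cs
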