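import Pool.Agent.helper797_cs.ZDefs
import Pool.Agent.helper797_cs.PK1

/-! # Z0: sets in the inner model -/

set_option autoImplicit false
namespace Pool.Agent.helper797_cs
open Pool.Agent.W868 Pool.Agent.R587
open ZFSet (pair)
open Cardinal Order

/-! ### Ordinals as sets -/

/-- `z` is a limit ordinal. -/
def PZ0_L (z : ZFSet.{0}) : Prop := z.IsOrdinal ∧ z ≠ ∅ ∧ ∀ u ∈ z, insert u u ∈ z

theorem PZ0_L_iff {ν : Ordinal.{0}} : PZ0_L ν.toZFSet ↔ IsSuccLimit ν := by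
  rw [Ordinal.isSuccLimit_iff, isSuccPrelimit_iff_succ_lt, PZ0_L]
  simp only [Order.succ_eq_add_one]
  constructor
  · rintro ⟨-, h1, h2⟩
    refine ⟨?_, fun a ha => ?_⟩
    · rintro rfl
      exact h1 Ordinal.toZFSet_zero
    · have h3 := h2 _ (Ordinal.toZFSet_mem_toZFSet_iff.2 ha)
      rw [← Ordinal.toZFSet_add_one] at h3
      exact Ordinal.toZFSet_mem_toZFSet_iff.1 h3
  · rintro ⟨h1, h2⟩
    refine ⟨ZFSet.isOrdinal_toZFSet _, ?_, fun u hu => ?_⟩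
    · intro h
      rw [← Ordinal.toZFSet_zero] at h
      exact h1 (Ordinal.toZFSet_injective h)
    · obtain ⟨a, ha, rfl⟩ := Ordinal.mem_toZFSet_iff.1 hu
      rw [← Ordinal.toZFSet_add_one]
      exact Ordinal.toZFSet_mem_toZFSet_iff.2 (h2 a ha)

/-- `f` is a function, in `W`. -/
def PZ0_Fn (W : Set ZFSet.{0}) (f : ZFSet.{0}) : Prop :=
  ∀ x ∈ W, ∀ y ∈ W, ∀ y' ∈ W, pair x y ∈ f → pair x y' ∈ f → y = y'

/-- The domain and the range. -/
def PZ0_Dm (f s z : ZFSet.{0}) : Prop := ∀ p ∈ f, ∃ x ∈ s, ∃ a ∈ z, p = pair x a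

/-- Boundedness. -/
def PZ0_Bd (W : Set ZFSet.{0}) (f z : ZFSet.{0}) : Prop :=
  ∃ h ∈ z, ∀ x ∈ W, ∀ a ∈ W, a.IsOrdinal → pair x a ∈ f → a ∈ h

/-- `z` is a `W`-regular ordinal. -/
def PZ0_R (W : Set ZFSet.{0}) (z : ZFSet.{0}) : Prop :=
  PZ0_L z ∧ ∀ g ∈ z, PZ0_L g → ∀ f ∈ W, PZ0_Fn W f → PZ0_Dm f (eS (Eh ∅ g)) z → PZ0_Bd W f z

theorem PZ0_R_iff {W : Set ZFSet.{0}} (hW : IsZF W) (z : ZFSet.{0}) : PZ0_R W z ↔ ∃ ν : Ordinal.{0}, z = ν.toZFSet ∧ WRg W ν := by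
  have key : ∀ ν : Ordinal.{0}, PZ0_R W ν.toZFSet ↔ WRg W ν := by
    intro ν
    rw [PZ0_R, WRg, PZ0_L_iff]
    refine and_congr_right fun _ => ?_
    have hfn : ∀ f ∈ W, (PZ0_Fn W f ↔ Fnl f) := by
      intro f hf
      constructor
      · intro h x y y' h1 h2
        have h3 := hW.of_pair_mem (hW.trans _ hf _ h1)
        have h4 := hW.of_pair_mem (hW.trans _ hf _ h2)
        exact h x h3.1 y h3.2 y' h4.2 h1 h2
      · intro h x _ y _ y' _ h1 h2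
        exact h x y y' h1 h2
    have hdm : ∀ (f : ZFSet.{0}) (γ : Ordinal.{0}), (PZ0_Dm f (eS (Eh ∅ γ.toZFSet)) ν.toZFSet ↔
        ∀ p ∈ f, ∃ x ∈ KS ∅ γ, ∃ α < ν, p = pair x α.toZFSet) := by
      intro f γ
      constructor
      · intro h p hp
        obtain ⟨x, hx, a, ha, h1⟩ := h p hp
        obtain ⟨α, hα, rfl⟩ := Ordinal.mem_toZFSet_iff.1 ha
        exact ⟨x, hx, α, hα, h1⟩
      · intro h p hp
        obtain ⟨x, hx, α, hα, h1⟩ := h p hp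
        exact ⟨x, hx, _, Ordinal.toZFSet_mem_toZFSet_iff.2 hα, h1⟩
    have hbd : ∀ f ∈ W, (PZ0_Bd W f ν.toZFSet ↔
        ∃ η < ν, ∀ (x : ZFSet.{0}) (α : Ordinal.{0}), pair x α.toZFSet ∈ f → α < η) := by
      intro f hf
      constructor
      · rintro ⟨h, hh, h1⟩
        obtain ⟨η, hη, rfl⟩ := Ordinal.mem_toZFSet_iff.1 hh
        refine ⟨η, hη, fun x α h2 => ?_⟩
        have h3 := hW.of_pair_mem (hW.trans _ hf _ h2)
        exact Ordinal.toZFSet_mem_toZFSet_iff.1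
          (h1 x h3.1 _ h3.2 (ZFSet.isOrdinal_toZFSet _) h2)
      · rintro ⟨η, hη, h1⟩
        refine ⟨_, Ordinal.toZFSet_mem_toZFSet_iff.2 hη, fun x _ a _ ha h2 => ?_⟩
        rw [← ha.toZFSet_rank_eq] at h2 ⊢
        exact Ordinal.toZFSet_mem_toZFSet_iff.2 (h1 x _ h2)
    constructor
    · intro h γ hγ hγl f hf h1 h2
      exact (hbd f hf).1 (h _ (Ordinal.toZFSet_mem_toZFSet_iff.2 hγ) (PZ0_L_iff.2 hγl) f hf
        ((hfn f hf).2 h1) ((hdm f γ).2 h2))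
    · intro h g hg hgl f hf h1 h2
      obtain ⟨γ, hγ, rfl⟩ := Ordinal.mem_toZFSet_iff.1 hg
      exact (hbd f hf).2 (h γ hγ (PZ0_L_iff.1 hgl) f hf ((hfn f hf).1 h1) ((hdm f γ).1 h2))
  constructor
  · intro h
    have h1 : z = z.rank.toZFSet := h.1.1.toZFSet_rank_eq.symm
    refine ⟨z.rank, h1, (key _).1 ?_⟩
    rwa [← h1]
  · rintro ⟨ν, rfl, h⟩
    exact (key ν).2 h

section dfn

variable {M : Set ZFSet.{0}} (hM : IsZF M)

include hM

theorem PZ0_d_L : Dfn M M fun w : Fin 1 → ZFSet.{0} => PZ0_L (w 0) := by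
  have hB := hM.base
  have h0 : DfnF M M fun _ : Fin 1 → ZFSet.{0} => (∅ : ZFSet.{0}) := DfnF.const hM.empty_mem
  refine Dfn.and (hB.isOrdinal' (DfnF.proj 0)) (Dfn.and (Dfn.eq (DfnF.proj 0) h0).not ?_)
  exact hB.ball (Q := fun u w => insert u u ∈ w 0) (DfnF.proj 0)
    (Dfn.mem (hB.insert' (DfnF.proj 0) (DfnF.proj 0)) (DfnF.proj 1))

theorem PZ0_d_Fn : Dfn M M fun w : Fin 1 → ZFSet.{0} => PZ0_Fn M (w 0) := by
  have hB := hM.base
  unfold PZ0_Fn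
  (repeat' first
    | assumption
    | exact DfnF.proj _
    | apply Dfn.imp
    | apply hB.bex | apply hB.ball | apply Dfn.ex | apply Dfn.all
    | apply Dfn.eq | apply Dfn.mem | apply hB.pair')

theorem PZ0_d_Dm : Dfn M M fun w : Fin 3 → ZFSet.{0} => PZ0_Dm (w 0) (w 1) (w 2) := by
  have hB := hM.base
  unfold PZ0_Dm
  (repeat' first
    | assumption
    | exact DfnF.proj _
    | apply Dfn.imp
    | apply hB.bex | apply hB.ball | apply Dfn.ex | apply Dfn.all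
    | apply Dfn.eq | apply Dfn.mem | apply hB.pair')

theorem PZ0_d_Bd : Dfn M M fun w : Fin 2 → ZFSet.{0} => PZ0_Bd M (w 0) (w 1) := by
  have hB := hM.base
  unfold PZ0_Bd
  (repeat' first
    | assumption
    | exact DfnF.proj _
    | apply hB.isOrdinal'
    | apply Dfn.imp
    | apply hB.bex | apply hB.ball | apply Dfn.ex | apply Dfn.all
    | apply Dfn.eq | apply Dfn.mem | apply hB.pair')

theorem PZ0_d_R : Dfn M M fun w : Fin 1 → ZFSet.{0} => PZ0_R M (w 0) := by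
  have hB := hM.base
  refine Dfn.and (PZ0_d_L hM) ?_
  refine hB.ball (Q := fun g w => PZ0_L g → ∀ f ∈ M, PZ0_Fn M f →
    PZ0_Dm f (eS (Eh ∅ g)) (w 0) → PZ0_Bd M f (w 0)) (DfnF.proj 0) ?_
  refine Dfn.imp (Dfn.comp1 (PZ0_d_L hM) (DfnF.proj 0)) ?_
  refine Dfn.all (Q := fun f w => PZ0_Fn M f →
    PZ0_Dm f (eS (Eh ∅ (w 0))) (w 1) → PZ0_Bd M f (w 1)) ?_
  have hE : DfnF M M fun w : Fin 3 → ZFSet.{0} => eS (Eh ∅ (w 1)) :=
    hM.fs' (DfnF.comp1 (f := fun z => Eh ∅ z) (PK1_d_Eh hM hM.empty_mem) (DfnF.proj 1))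
  exact Dfn.imp (Dfn.comp1 (Q := fun f => PZ0_Fn M f) (PZ0_d_Fn hM) (DfnF.proj 0))
    (Dfn.imp (Dfn.comp3 (Q := fun f s z => PZ0_Dm f s z) (PZ0_d_Dm hM) (DfnF.proj 0) hE
      (DfnF.proj 2)) (Dfn.comp2 (Q := fun f z => PZ0_Bd M f z) (PZ0_d_Bd hM) (DfnF.proj 0)
      (DfnF.proj 2)))

end dfn

/-! ### Limit ordinals -/

theorem PZ0_lim_le {ξ ζ : Ordinal.{0}} (hζ : IsSuccLimit ζ) (h : ζ < ξ + Ordinal.omega0) :
    ζ ≤ ξ := by
  by_contra h1
  rw [not_le] at h1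
  obtain ⟨β, rfl⟩ := exists_add_of_le h1.le
  have h2 : β < Ordinal.omega0 := lt_of_add_lt_add_left h
  obtain ⟨n, rfl⟩ := Ordinal.lt_omega0.1 h2
  cases n with
  | zero => simp at h1
  | succ n =>
    have h3 : ξ + ((n + 1 : ℕ) : Ordinal.{0}) = (ξ + (n : Ordinal.{0})) + 1 := by
      rw [add_assoc]
      norm_cast
    rw [h3] at hζ
    exact Order.not_isSuccLimit_add_one _ hζ

section

variable {W : Set ZFSet.{0}} (hW : IsZF W) (hord : ∀ α : Ordinal.{0}, α.toZFSet ∈ W)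

include hW hord

theorem rgS_mem (θ : Ordinal.{0}) : RgS W θ ∈ W := by
  refine hW.sep_mem ?_ (hord θ)
  exact (PZ0_d_R hW).congr fun v _ => PZ0_R_iff hW (v 0)

theorem tf_mem (θ : Ordinal.{0}) {Z : ZFSet.{0}} (hZ : Z ∈ W) : TF W θ Z ∈ W := by
  obtain ⟨y, hy, hy'⟩ := hW.exists_pow (hord θ)
  have hB := hW.base
  have hd : Dfn W W fun w : Fin 1 → ZFSet.{0} => ∃ a ∈ θ.toZFSet, ∀ n ∈ Z, n.IsOrdinal →
      a ⊆ n → n ∈ w 0 := by
    have h1 := hord θ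
    (repeat' first
      | assumption
      | exact DfnF.proj _
      | exact DfnF.const (by assumption)
      | apply hB.isOrdinal'
      | apply hB.subset'
      | apply Dfn.imp
      | apply hB.bex | apply hB.ball | apply Dfn.ex | apply Dfn.all
      | apply Dfn.eq | apply Dfn.mem)
  have h1 : TF W θ Z = ZFSet.sep (fun X => Tail θ Z X) y := by
    ext X
    rw [TF, ZFSet.mem_sep, ZFSet.mem_sep, ZFSet.mem_powerset, hy']
    tauto
  rw [h1]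
  refine hW.sep_mem (hd.congr fun v _ => ?_) hy
  constructor
  · rintro ⟨a, ha, h2⟩
    obtain ⟨α, hα, rfl⟩ := Ordinal.mem_toZFSet_iff.1 ha
    exact ⟨α, hα, fun ν hν h3 => h2 _ hν (ZFSet.isOrdinal_toZFSet _)
      (Ordinal.toZFSet_subset_toZFSet_iff.2 h3)⟩
  · rintro ⟨α, hα, h2⟩
    refine ⟨_, Ordinal.toZFSet_mem_toZFSet_iff.2 hα, fun n hn hno h3 => ?_⟩
    rw [← hno.toZFSet_rank_eq] at hn h3 ⊢
    exact h2 _ hn (Ordinal.toZFSet_subset_toZFSet_iff.1 h3)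

/-- If `F` is the tail filter of a set `Z ∈ W` on `S_ξ`, then `S_{ξ+ω}` is in `W`. By induction on
`ζ ≤ ξ`: `KS F ζ = KS (TF W θ Z) ζ`, which is in `W` (`eh_mem_ZF`). -/
theorem agree {F : ZFSet.{0}} {θ : Ordinal.{0}} (hF : ∀ X ∈ F, X ⊆ θ.toZFSet) {Z : ZFSet.{0}}
    (hZ : Z ∈ W) {ξ : Ordinal.{0}} (hξ : IsSuccLimit ξ)
    (h : ∀ X ∈ KS F ξ, X ⊆ θ.toZFSet → (X ∈ F ↔ Tail θ Z X)) :
    KS F ξ ∈ W ∧ F ∩ KS F ξ ∈ W ∧ KS F (ξ + Ordinal.omega0) ∈ W := by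
  have hT := tf_mem hW hord θ hZ
  have hK : ∀ ζ : Ordinal.{0}, KS (TF W θ Z) ζ ∈ W := fun ζ => (eh_mem_ZF hW hT (hord ζ)).2.1
  have hm : ∀ X, X ∈ TF W θ Z ↔ X ⊆ θ.toZFSet ∧ X ∈ W ∧ Tail θ Z X := by
    intro X
    rw [TF, ZFSet.mem_sep, ZFSet.mem_powerset]
  have step : ∀ ζ ≤ ξ, KS F ζ = KS (TF W θ Z) ζ → ∀ x ∈ KS F ζ, (x ∈ F ↔ x ∈ TF W θ Z) := by
    intro ζ hζ h1 x hx
    have hxW : x ∈ W := by
      rw [h1] at hx
      exact hW.trans _ (hK ζ) _ hx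
    have hxξ := ks_mono hζ hx
    rw [hm]
    constructor
    · intro hxF
      exact ⟨hF x hxF, hxW, (h x hxξ (hF x hxF)).1 hxF⟩
    · rintro ⟨h2, -, h3⟩
      exact (h x hxξ h2).2 h3
  have key : ∀ ζ : Ordinal.{0}, ζ ≤ ξ → KS F ζ = KS (TF W θ Z) ζ := by
    intro ζ
    induction ζ using WellFoundedLT.induction with
    | ind ζ ih =>
      intro hζ
      exact (ks_congr fun ζ' h1 _ x hx => step ζ' (h1.le.trans hζ)
        (ih ζ' h1 (h1.le.trans hζ)) x hx).1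
  have h1 : KS F ξ ∈ W := by
    rw [key ξ le_rfl]
    exact hK ξ
  refine ⟨h1, ?_, ?_⟩
  · have h2 : F ∩ KS F ξ = ZFSet.sep (fun x => x ∈ TF W θ Z) (KS F ξ) := by
      ext x
      rw [ZFSet.mem_inter, ZFSet.mem_sep, and_comm]
      exact and_congr_right fun hx => step ξ le_rfl (key ξ le_rfl) x hx
    rw [h2]
    exact hW.sep_mem (Dfn.mem (DfnF.proj 0) (DfnF.const hT)) h1
  · have h2 : KS F (ξ + Ordinal.omega0) = KS (TF W θ Z) (ξ + Ordinal.omega0) :=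
      (ks_congr fun ζ h2 h3 x hx => step ζ (PZ0_lim_le h3 h2) (key ζ (PZ0_lim_le h3 h2)) x hx).1
    rw [h2]
    exact hK _

end

/-! ### Low levels -/

theorem PZ0_tail {F : ZFSet.{0}} {θ δ : Ordinal.{0}} (J : IT F θ δ) {i : Ordinal.{0}}
    {Z : ZFSet.{0}} (hZ : Z ∈ J.Rl i) (hZF : Z ∈ F) :
    ∀ j, i ≤ j → j < θ → (J.cr j).toZFSet ∈ Z := fun j hij hj =>
  (J.tail j hj Z (J.mono i j hij hj hZ) (J.Fsub Z hZF)).2 hZF

theorem PZ0_le_cr {F : ZFSet.{0}} {θ δ : Ordinal.{0}} (J : IT F θ δ) :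
    ∀ j < θ, j ≤ J.cr j := by
  intro j
  induction j using WellFoundedLT.induction with
  | ind j ih =>
    intro hj
    by_contra h
    rw [not_le] at h
    have h1 := J.cr_mono _ _ h hj
    exact absurd (ih _ h (h.trans hj)) (not_le.2 h1)

/-- `F` has no element in `S_θ`. -/
theorem it_F_low {F : ZFSet.{0}} {θ δ : Ordinal.{0}} (J : IT F θ δ) :
    ∀ x ∈ KS F θ, x ∉ F := by
  intro x hx hxF
  obtain ⟨i, hi, hxi⟩ := J.cov x (ks_mono J.lt.le hx)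
  have h1 := ks_rank J.hθ x hx
  have h2 : max i x.rank < θ := max_lt hi h1
  have h3 := PZ0_tail J hxi hxF _ (le_max_left i x.rank) h2
  have h4 := ZFSet.rank_lt_of_mem h3
  rw [Ordinal.rank_toZFSet] at h4
  exact absurd ((le_max_right i x.rank).trans (PZ0_le_cr J _ h2)) (not_le.2 h4)

/-- The levels up to `θ` do not depend on `F`. -/
theorem it_KS_low {F : ZFSet.{0}} {θ δ : Ordinal.{0}} (J : IT F θ δ) {ξ : Ordinal.{0}}
    (hξ : ξ ≤ θ) : KS F ξ = KS ∅ ξ ∧ KS F (ξ + Ordinal.omega0) = KS ∅ (ξ + Ordinal.omega0) := by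
  have key : ∀ ζ ≤ θ, ∀ x ∈ KS F ζ, (x ∈ F ↔ x ∈ (∅ : ZFSet.{0})) := by
    intro ζ hζ x hx
    exact iff_of_false (it_F_low J x (ks_mono hζ hx)) (ZFSet.notMem_empty x)
  exact ⟨(ks_congr fun ζ h1 _ => key ζ (h1.le.trans hξ)).1,
    (ks_congr fun ζ h1 h2 => key ζ ((PZ0_lim_le h2 h1).trans hξ)).1⟩

/-! ### Regularity -/

/-- Addition of ordinals. -/
noncomputable def PZ0_ad (a : ZFSet.{0}) : ZFSet.{0} → ZFSet.{0} := itr (fun x => insert x x) a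

theorem PZ0_ad_eq (α β : Ordinal.{0}) : PZ0_ad α.toZFSet β.toZFSet = (α + β).toZFSet := by
  induction β using WellFoundedLT.induction with
  | ind β ih =>
    ext y
    rw [PZ0_ad, mem_itr, Ordinal.mem_toZFSet_iff, Ordinal.mem_toZFSet_iff]
    constructor
    · rintro (⟨a, ha, rfl⟩ | ⟨u, hu, hy⟩)
      · exact ⟨a, ha.trans_le (le_self_add), rfl⟩
      · obtain ⟨b, hb, rfl⟩ := Ordinal.mem_toZFSet_iff.1 hu
        have h1 := ih b hb
        rw [PZ0_ad] at h1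
        rw [h1, ← Ordinal.toZFSet_add_one, Ordinal.mem_toZFSet_iff] at hy
        obtain ⟨c, hc, rfl⟩ := hy
        refine ⟨c, (Order.lt_add_one_iff.1 hc).trans_lt ?_, rfl⟩
        gcongr
    · rintro ⟨c, hc, rfl⟩
      rcases lt_or_ge c α with h | h
      · exact Or.inl ⟨c, h, rfl⟩
      · obtain ⟨b, rfl⟩ := exists_add_of_le h
        have hb : b < β := lt_of_add_lt_add_left hc
        refine Or.inr ⟨b.toZFSet, Ordinal.toZFSet_mem_toZFSet_iff.2 hb, ?_⟩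
        have h1 := ih b hb
        rw [PZ0_ad] at h1
        rw [h1]
        exact ZFSet.mem_insert _ _

/-- A `W`-regular ordinal above `ω` is a limit of limits. -/
theorem wrg_add {W : Set ZFSet.{0}} (hW : IsZF W) (hord : ∀ α : Ordinal.{0}, α.toZFSet ∈ W)
    {ν : Ordinal.{0}} (h : WRg W ν) (hν : Ordinal.omega0 < ν) {α : Ordinal.{0}} (hα : α < ν) :
    α + Ordinal.omega0 < ν := by
  have hB := hW.base
  have hf : im (fun n => pair n (PZ0_ad α.toZFSet n)) Ordinal.omega0.toZFSet ∈ W := by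
    refine hW.im_mem (hord _) (hB.pair' (DfnF.proj 0) ?_)
    exact dfn_itr hW (hord α) (hB.insert' (DfnF.proj 0) (DfnF.proj 0))
  have hlim : ∀ n : ℕ, α + (n : Ordinal.{0}) < ν := by
    intro n
    induction n with
    | zero => simpa using hα
    | succ n ih =>
      have h1 := h.1.succ_lt ih
      rw [Order.succ_eq_add_one, add_assoc] at h1
      norm_cast at h1
  have hmem : ∀ p, p ∈ im (fun n => pair n (PZ0_ad α.toZFSet n)) Ordinal.omega0.toZFSet ↔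
      ∃ n : ℕ, p = pair ((n : Ordinal.{0}).toZFSet) (α + (n : Ordinal.{0})).toZFSet := by
    intro p
    rw [mem_im]
    constructor
    · rintro ⟨x, hx, rfl⟩
      obtain ⟨a, ha, rfl⟩ := Ordinal.mem_toZFSet_iff.1 hx
      obtain ⟨n, rfl⟩ := Ordinal.lt_omega0.1 ha
      exact ⟨n, by rw [PZ0_ad_eq]⟩
    · rintro ⟨n, rfl⟩
      exact ⟨_, Ordinal.toZFSet_mem_toZFSet_iff.2 (Ordinal.natCast_lt_omega0 n),
        by rw [PZ0_ad_eq]⟩
  have hF : Fnl (im (fun n => pair n (PZ0_ad α.toZFSet n)) Ordinal.omega0.toZFSet) := by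
    intro x y y' hy hy'
    obtain ⟨m, hm⟩ := (hmem _).1 hy
    obtain ⟨n, hn⟩ := (hmem _).1 hy'
    obtain ⟨h3, rfl⟩ := ZFSet.pair_inj.1 hm
    obtain ⟨h4, rfl⟩ := ZFSet.pair_inj.1 hn
    rw [h3] at h4
    rw [Ordinal.toZFSet_injective h4]
  have hD : ∀ p ∈ im (fun n => pair n (PZ0_ad α.toZFSet n)) Ordinal.omega0.toZFSet,
      ∃ x ∈ KS ∅ Ordinal.omega0, ∃ β < ν, p = pair x β.toZFSet := by
    intro p hp
    obtain ⟨n, rfl⟩ := (hmem _).1 hp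
    exact ⟨_, (ks_ord Ordinal.isSuccLimit_omega0).2 (Ordinal.natCast_lt_omega0 n), _, hlim n, rfl⟩
  obtain ⟨η, hη, h1⟩ := h.2 Ordinal.omega0 hν Ordinal.isSuccLimit_omega0 _ hf hF hD
  refine lt_of_le_of_lt ?_ hη
  rw [Ordinal.add_le_iff_of_isSuccLimit Ordinal.isSuccLimit_omega0]
  intro b hb
  obtain ⟨n, rfl⟩ := Ordinal.lt_omega0.1 hb
  exact (h1 _ _ ((hmem _).2 ⟨n, rfl⟩)).le

/-- Regular cardinals are `W`-regular. -/
theorem wrg_of_regular {W : Set ZFSet.{0}} {c : Cardinal.{0}} (hc : c.IsRegular)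
    (hc' : ℵ₀ < c) : WRg W c.ord := by
  refine ⟨Cardinal.isSuccLimit_ord hc.aleph0_le, ?_⟩
  intro γ hγ hγl f _ hf hd
  have hcard : (KS ∅ γ).card < c := by
    rw [ks_card hγl]
    exact Cardinal.lt_ord.1 hγ
  classical
  let g : Shrink.{0} (KS ∅ γ) → Ordinal.{0} := fun x =>
    if h : ∃ α < c.ord, pair ((equivShrink _).symm x).1 α.toZFSet ∈ f then h.choose + 1 else 0
  have hg : ∀ x, g x < c.ord := by
    intro x
    have h0 : (0 : Ordinal.{0}) < c.ord := (Cardinal.isSuccLimit_ord hc.aleph0_le).bot_lt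
    simp only [g]
    split_ifs with h
    · exact (Cardinal.isSuccLimit_ord hc.aleph0_le).add_one_lt h.choose_spec.1
    · exact h0
  refine ⟨iSup g, Ordinal.iSup_lt_of_lt_cof (by rwa [hc.cof_ord]) hg, ?_⟩
  intro x α hx
  obtain ⟨x', hx', α', hα', he⟩ := hd _ hx
  obtain ⟨rfl, he'⟩ := ZFSet.pair_inj.1 he
  obtain rfl := Ordinal.toZFSet_injective he'
  have h1 : ∃ α < c.ord, pair x α.toZFSet ∈ f := ⟨α, hα', hx⟩
  have h2 : g (equivShrink _ ⟨x, hx'⟩) = h1.choose + 1 := by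
    simp only [g, Equiv.symm_apply_apply]
    rw [dif_pos h1]
  have h3 : h1.choose = α := Ordinal.toZFSet_injective (hf _ _ _ h1.choose_spec.2 hx)
  have h4 := Ordinal.le_iSup g (equivShrink _ ⟨x, hx'⟩)
  rw [h2, h3] at h4
  exact (Order.lt_add_one_iff.2 le_rfl).trans_le h4

end Pool.Agent.helper797_cs
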