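import Pool.Agent.helper797_cs.PZ0
import Pool.Agent.helper797_cs.PM8

/-! # Z1: C3.1 of the paper -/

set_option autoImplicit false
namespace Pool.Agent.helper797_cs
open Pool.Agent.W868 Pool.Agent.R587
open ZFSet (pair)
open Cardinal Order

/-- The limit ordinal after which a set appears. -/
theorem PZ1_lim {F : ZFSet.{0}} {ξ : Ordinal.{0}} (hξ : IsSuccLimit ξ) {g : ZFSet.{0}}
    (hg : g ∈ KS F ξ) : g ∈ KS F Ordinal.omega0 ∨ ∃ ζ, IsSuccLimit ζ ∧ ζ < ξ ∧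
      g ∉ KS F ζ ∧ g ∈ KS F (ζ + Ordinal.omega0) := by
  have key : ∀ η : Ordinal.{0}, g ∈ KS F η →
      g ∈ KS F (Ordinal.omega0 * (η / Ordinal.omega0) + Ordinal.omega0) := by
    intro η h
    refine ks_mono ?_ h
    have h1 := Ordinal.div_add_mod η Ordinal.omega0
    have h2 := Ordinal.mod_lt η (b := Ordinal.omega0) Ordinal.omega0_ne_zero
    calc η = Ordinal.omega0 * (η / Ordinal.omega0) + η % Ordinal.omega0 := h1.symm
      _ ≤ _ := add_le_add_right h2.le _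
  obtain ⟨η₀, -, h0⟩ := (ks_limit hξ).1 hg
  have hne : {q : Ordinal.{0} | g ∈ KS F (Ordinal.omega0 * q + Ordinal.omega0)}.Nonempty :=
    ⟨_, key η₀ h0⟩
  set q := sInf {q : Ordinal.{0} | g ∈ KS F (Ordinal.omega0 * q + Ordinal.omega0)} with hq
  have hq1 : g ∈ KS F (Ordinal.omega0 * q + Ordinal.omega0) := csInf_mem hne
  rcases eq_or_ne q 0 with h2 | h2
  · left
    rw [h2, mul_zero, zero_add] at hq1
    exact hq1
  · right
    have h3 : IsSuccLimit (Ordinal.omega0 * q) :=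
      Ordinal.isSuccLimit_mul_left Ordinal.isSuccLimit_omega0 (pos_iff_ne_zero.2 h2)
    have hq2 : g ∉ KS F (Ordinal.omega0 * q) := by
      intro h1
      obtain ⟨η, h4, h5⟩ := (ks_limit h3).1 h1
      have h6 : η / Ordinal.omega0 < q :=
        (Ordinal.lt_mul_iff_div_lt Ordinal.omega0_ne_zero).1 h4
      exact absurd (csInf_le' (s := {q : Ordinal.{0} | g ∈ KS F (Ordinal.omega0 * q +
        Ordinal.omega0)}) (key η h5)) (not_le.2 h6)
    refine ⟨_, h3, ?_, hq2, hq1⟩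
    by_contra h4
    exact hq2 (ks_mono (not_lt.1 h4) hg)

theorem C31 {F : ZFSet.{0}} {θ δ : Ordinal.{0}} {Ψ₀ : Set Mx} (h0 : Cnds Ψ₀) (J : IT F θ δ)
    {B : Cardinal.{0} → Prop} (hB : ∀ k, B (J.nu k).cof ↔ Odd k) {W : Set ZFSet.{0}}
    (hW : IsZF W) (hord : ∀ α : Ordinal.{0}, α.toZFSet ∈ W) (hS : SBs B θ ∈ W) :
    ∀ ξ ≤ δ, IsSuccLimit ξ → ∀ γ < θ, IsSuccLimit γ → ∀ y ∈ KS F ξ, y ⊆ KS F γ → y ∈ W := by
  intro ξ
  induction ξ using WellFoundedLT.induction with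
  | ind ξ ih =>
  intro hξδ hξ γ hγθ hγ y hy hys
  have hlowW : ∀ ζ ≤ θ, ∀ x ∈ KS F (ζ + Ordinal.omega0), x ∈ W := by
    intro ζ hζ x hx
    rw [(it_KS_low J hζ).2] at hx
    exact hW.trans _ (eh_mem_ZF hW hW.empty_mem (hord _)).2.1 _ hx
  rcases PZ1_lim hξ hy with h1 | ⟨ζ, hζ, hζξ, hyn, hyζ⟩
  · refine hlowW 0 zero_le y ?_
    rw [zero_add]
    exact h1
  rcases le_or_gt ζ θ with hζθ | hθζ
  · exact hlowW ζ hζθ y hyζ
  obtain ⟨Y, β, m, hβ, hY1, hY2⟩ :=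
    main_lemma h0 J hζ (hζξ.trans_le hξδ) hθζ hγ hγθ hyζ hys hyn
  -- the set `Z`
  classical
  set Q : ZFSet.{0} → Prop := fun z => if B m then z ∉ SBs B θ else z ∈ SBs B θ with hQ
  set Z : ZFSet.{0} := ZFSet.sep Q (RgS W θ) with hZ
  have hZW : Z ∈ W := by
    refine hW.sep_mem ?_ (rgS_mem hW hord θ)
    have h2 : Dfn W W fun w : Fin 1 → ZFSet.{0} => w 0 ∈ SBs B θ :=
      Dfn.mem (DfnF.proj 0) (DfnF.const hS)
    by_cases hm : B m
    · simp only [hQ, if_pos hm]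
      exact h2.not
    · simp only [hQ, if_neg hm]
      exact h2
  have hSB : ∀ ν : Ordinal.{0}, IsSuccLimit ν → ν < θ → (ν.toZFSet ∈ SBs B θ ↔ B ν.cof) := by
    intro ν hν hνθ
    rw [SBs, ZFSet.mem_sep]
    constructor
    · rintro ⟨-, α, hα, h⟩
      rw [Ordinal.toZFSet_injective hα]
      exact h.2
    · intro h
      exact ⟨Ordinal.toZFSet_mem_toZFSet_iff.2 hνθ, ν, rfl, Ordinal.aleph0_le_cof_iff.2 (Ordinal.one_lt_cof_iff.2 hν), h⟩
  have hZmem : ∀ ν : Ordinal.{0}, ν.toZFSet ∈ Z ↔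
      ν < θ ∧ WRg W ν ∧ (if B m then ¬ B ν.cof else B ν.cof) := by
    intro ν
    rw [hZ, ZFSet.mem_sep, RgS, ZFSet.mem_sep, Ordinal.toZFSet_mem_toZFSet_iff]
    constructor
    · rintro ⟨⟨h2, ν', h3, h4⟩, h5⟩
      rw [← Ordinal.toZFSet_injective h3] at h4
      refine ⟨h2, h4, ?_⟩
      rw [hQ] at h5
      by_cases hm : B m
      · simp only [if_pos hm] at h5 ⊢
        rwa [hSB ν h4.1 h2] at h5
      · simp only [if_neg hm] at h5 ⊢
        rwa [hSB ν h4.1 h2] at h5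
    · rintro ⟨h2, h4, h5⟩
      refine ⟨⟨h2, ν, rfl, h4⟩, ?_⟩
      rw [hQ]
      by_cases hm : B m
      · simp only [if_pos hm] at h5 ⊢
        rwa [hSB ν h4.1 h2]
      · simp only [if_neg hm] at h5 ⊢
        rwa [hSB ν h4.1 h2]
  -- elements of `Z` are in `Y`
  have hZY : ∀ ν : Ordinal.{0}, ν.toZFSet ∈ Z → β < ν → ν ∈ Y := by
    intro ν hν hβν
    obtain ⟨hνθ, hreg, hc⟩ := (hZmem ν).1 hν
    by_contra hνY
    have harg : ARg F ζ ν := by
      refine ⟨hreg.1, fun γ' hγ' hγ'l f hf hfn hfp => ?_⟩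
      have hlow : KS F γ' = KS ∅ γ' := (it_KS_low J (hγ'.trans hνθ).le).1
      have hfW : f ∈ W := by
        refine ih ζ hζξ (hζξ.le.trans hξδ) hζ ν hνθ hreg.1 f hf fun p hp => ?_
        obtain ⟨x, hx, α, hα, rfl⟩ := hfp p hp
        exact (ka_clsd (F := F) hreg.1 ∅).pr x (ks_mono hγ'.le hx) _ ((ks_ord hreg.1).2 hα)
      refine hreg.2 γ' hγ' hγ'l f hfW hfn fun p hp => ?_
      obtain ⟨x, hx, h⟩ := hfp p hp
      exact ⟨x, hlow ▸ hx, h⟩
    have hcof := hY2 ν hβν hνθ hνY harg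
    rw [hcof] at hc
    by_cases hm : B m
    · rw [if_pos hm] at hc
      exact hc hm
    · rw [if_neg hm] at hc
      exact hm hc
  -- the `ν_k` of one parity are in `Z`
  have hnuZ : ∀ k, 1 ≤ k → (if B m then ¬ Odd k else Odd k) → (J.nu k).toZFSet ∈ Z := by
    intro k hk hpar
    obtain ⟨c, hc, hck⟩ := J.nu_card k
    obtain ⟨c₀, hc₀, hck₀⟩ := J.nu_card 0
    have hlt : ℵ₀ < c := by
      have h2 : J.nu 0 < J.nu k := J.nu_mono (by omega)
      rw [hck, hck₀] at h2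
      exact hc₀.aleph0_le.trans_lt (Cardinal.ord_lt_ord.1 h2)
    rw [hZmem]
    refine ⟨J.nu_lt k, ?_, ?_⟩
    · rw [hck]
      exact wrg_of_regular hc hlt
    · by_cases hm : B m
      · rw [if_pos hm] at hpar ⊢
        rwa [hB]
      · rw [if_neg hm] at hpar ⊢
        rwa [hB]
  have hfil : ∀ X ∈ KS F ζ, X ⊆ θ.toZFSet → (X ∈ F ↔ Tail θ Z X) := by
    intro X hX hXθ
    constructor
    · intro hXF
      obtain ⟨α, hα, h2⟩ := hY1 X hXF hX
      refine ⟨max α (β + 1), max_lt hα (J.hθ.add_one_lt hβ), fun ν hν hle => ?_⟩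
      exact h2 ν (hZY ν hν (lt_of_lt_of_le (lt_add_one β) ((le_max_right _ _).trans hle)))
        ((le_max_left _ _).trans hle)
    · rintro ⟨α, hα, h2⟩
      refine mem_F_of_nu J (ks_mono (hζξ.le.trans hξδ) hX) hXθ fun k => ?_
      obtain ⟨k', hk'⟩ := J.nu_cof α hα
      by_cases hm : B m
      · refine ⟨2 * (k + k' + 1), by omega, h2 _ (hnuZ _ (by omega) ?_)
          (hk'.le.trans (J.nu_mono.monotone (by omega)))⟩
        rw [if_pos hm, Nat.not_odd_iff_even]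
        exact ⟨k + k' + 1, by omega⟩
      · refine ⟨2 * (k + k' + 1) + 1, by omega, h2 _ (hnuZ _ (by omega) ?_)
          (hk'.le.trans (J.nu_mono.monotone (by omega)))⟩
        rw [if_neg hm]
        exact ⟨k + k' + 1, by omega⟩
  exact hW.trans _ (agree hW hord J.Fsub hZW hζ hfil).2.2 _ hyζ

end Pool.Agent.helper797_cs
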