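import Pool.Agent.helper797_cs.PZ1

/-! # Z2: C3.2 of the paper -/

set_option autoImplicit false
namespace Pool.Agent.helper797_cs
open Pool.Agent.W868 Pool.Agent.R587
open ZFSet (pair)
open Cardinal Order

/-- `W`-regular ordinals above the first critical point whose cofinality is not in `B` are critical
points. -/
theorem PZ2_crit {F : ZFSet.{0}} {θ δ : Ordinal.{0}} {Ψ₀ : Set Mx} (h0 : Cnds Ψ₀) (J : IT F θ δ)
    {B : Cardinal.{0} → Prop} (hB : ∀ k, B (J.nu k).cof ↔ Odd k) {lam : Cardinal.{0}}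
    (hBlam : ∀ c ≤ lam, B c) {ι : Type} {G : ι → ZFSet.{0}}
    (hι : #ι ≤ lam) (hG : ∀ a, G a ∈ KS F δ ∧ Fnl (G a))
    (hcov : ∀ i < θ, ∀ α < J.cr (i + 1), ∃ a, ∃ x ∈ KS F (J.cr i + Ordinal.omega0),
      pair x α.toZFSet ∈ G a) {W : Set ZFSet.{0}} (hW : IsZF W)
    (hord : ∀ α : Ordinal.{0}, α.toZFSet ∈ W) (hS : SBs B θ ∈ W)
    {ν : Ordinal.{0}} (hν : WRg W ν) (hνθ : ν < θ) (hνS : ¬ SB B ν) (h : J.cr 0 < ν) :
    ∃ i < θ, ν = J.cr i := by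
  obtain ⟨i, -, hi, h1, h2⟩ := exists_cut J (pos_of_gt hνθ) hνθ h.le
  rcases h1.eq_or_lt with h1 | h1
  · exact ⟨i, hi, h1.symm⟩
  exfalso
  have hcr0 : Ordinal.omega0 < J.cr i := by
    rcases eq_or_ne i 0 with rfl | h3
    · exact J.om
    · exact J.om.trans (J.cr_mono 0 i (pos_iff_ne_zero.2 h3) hi)
  have hγ : IsSuccLimit (J.cr i + Ordinal.omega0) :=
    Ordinal.isSuccLimit_add _ Ordinal.isSuccLimit_omega0
  have hγν : J.cr i + Ordinal.omega0 < ν := wrg_add hW hord hν (hcr0.trans h1) h1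
  have hνδ : ν < δ := hνθ.trans J.lt
  have hgd := ks_gd (F := F) J.hδ
  have key : ∀ a, ∃ η < ν, ∀ x ∈ KS F (J.cr i + Ordinal.omega0), ∀ α < ν,
      pair x α.toZFSet ∈ G a → α < η := by
    intro a
    have hf : G a ∩ ZFSet.prod (KS F (J.cr i + Ordinal.omega0)) ν.toZFSet ∈ KS F δ :=
      hgd.inter_mem (hG a).1 (hgd.prod_mem (ks_mem (hγν.trans hνδ)) ((ks_ord J.hδ).2 hνδ))
    have hfp : ∀ p ∈ G a ∩ ZFSet.prod (KS F (J.cr i + Ordinal.omega0)) ν.toZFSet,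
        ∃ x ∈ KS F (J.cr i + Ordinal.omega0), ∃ α < ν, p = pair x α.toZFSet := by
      intro p hp
      obtain ⟨-, h3⟩ := ZFSet.mem_inter.1 hp
      obtain ⟨x, hx, z, hz, rfl⟩ := ZFSet.mem_prod.1 h3
      obtain ⟨α, hα, rfl⟩ := Ordinal.mem_toZFSet_iff.1 hz
      exact ⟨x, hx, α, hα, rfl⟩
    have hgν := ks_gd (F := F) hν.1
    have hfs : G a ∩ ZFSet.prod (KS F (J.cr i + Ordinal.omega0)) ν.toZFSet ⊆ KS F ν := by
      intro p hp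
      obtain ⟨x, hx, α, hα, rfl⟩ := hfp p hp
      have hx' : x ∈ KS F ν := ks_mono hγν.le hx
      have hα' : α.toZFSet ∈ KS F ν := (ks_ord hν.1).2 hα
      exact hgν.upair_mem (hgν.single_mem hx') (hgν.upair_mem hx' hα')
    have hfW := C31 h0 J hB hW hord hS δ le_rfl J.hδ ν hνθ hν.1 _ hf hfs
    obtain ⟨η, h3, h4⟩ := hν.2 _ hγν hγ _ hfW
      (fun x y y' h5 h6 => (hG a).2 x y y' (ZFSet.mem_inter.1 h5).1 (ZFSet.mem_inter.1 h6).1)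
      (fun p hp => by
        obtain ⟨x, hx, α, hα, h5⟩ := hfp p hp
        exact ⟨x, (it_KS_low J (hγν.trans hνθ).le).1 ▸ hx, α, hα, h5⟩)
    exact ⟨η, h3, fun x hx α hα h5 => h4 x α (ZFSet.mem_inter.2 ⟨h5,
      ZFSet.mem_prod.2 ⟨x, hx, α.toZFSet, Ordinal.toZFSet_mem_toZFSet_iff.2 hα, rfl⟩⟩)⟩
  choose η hη hη' using key
  have hcof : ν.cof ≤ #ι := by
    by_contra h3
    have h4 := Ordinal.iSup_lt_of_lt_cof (f := η) (not_le.1 h3) hη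
    obtain ⟨a, x, hx, h5⟩ := hcov i hi _ (h4.trans h2)
    exact (hη' a x hx _ h4 h5).not_ge (Ordinal.le_iSup η a)
  exact hνS ⟨Ordinal.aleph0_le_cof.2 hν.1, hBlam _ (hcof.trans hι)⟩

theorem C32 {F : ZFSet.{0}} {θ δ : Ordinal.{0}} {Ψ₀ : Set Mx} (h0 : Cnds Ψ₀) (J : IT F θ δ)
    {B : Cardinal.{0} → Prop} (hB : ∀ k, B (J.nu k).cof ↔ Odd k) {lam : Cardinal.{0}}
    (hlam : ℵ₀ ≤ lam) (hBlam : ∀ c ≤ lam, B c) {ι : Type} {G : ι → ZFSet.{0}}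
    (hι : #ι ≤ lam) (hG : ∀ a, G a ∈ KS F δ ∧ Fnl (G a))
    (hcov : ∀ i < θ, ∀ α < J.cr (i + 1), ∃ a, ∃ x ∈ KS F (J.cr i + Ordinal.omega0),
      pair x α.toZFSet ∈ G a) {W : Set ZFSet.{0}} (hW : IsZF W)
    (hord : ∀ α : Ordinal.{0}, α.toZFSet ∈ W) (hS : SBs B θ ∈ W) : KS F δ ∈ W := by
  have hθ0 : (0 : Ordinal) < θ := J.hθ.bot_lt
  have hZ : ZFSet.sep (fun z => z ∉ SBs B θ) (RgS W θ) ∈ W :=
    hW.sep_mem (Dfn.not (Dfn.mem (DfnF.proj 0) (DfnF.const hS))) (rgS_mem hW hord θ)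
  have hZm : ∀ ν : Ordinal.{0}, ν.toZFSet ∈ ZFSet.sep (fun z => z ∉ SBs B θ) (RgS W θ) ↔
      WRg W ν ∧ ν < θ ∧ ¬ SB B ν := by
    intro ν
    rw [ZFSet.mem_sep, RgS, ZFSet.mem_sep, SBs, ZFSet.mem_sep, Ordinal.toZFSet_mem_toZFSet_iff]
    constructor
    · rintro ⟨⟨h1, ν', h2, h3⟩, h4⟩
      have h5 := Ordinal.toZFSet_injective h2
      subst h5
      exact ⟨h3, h1, fun h6 => h4 ⟨h1, ν, rfl, h6⟩⟩
    · rintro ⟨h1, h2, h3⟩
      refine ⟨⟨h2, ν, rfl, h1⟩, ?_⟩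
      rintro ⟨-, ν', h4, h5⟩
      have h6 := Ordinal.toZFSet_injective h4
      subst h6
      exact h3 h5
  refine (agree hW hord J.Fsub hZ J.hδ ?_).1
  intro X hX hXs
  constructor
  · intro hXF
    obtain ⟨i, hi, hXi⟩ := J.cov X hX
    have h1 := tail' J hi hXi hXF
    refine ⟨max (J.cr i) (J.cr 0 + 1), max_lt (J.cr_lt i hi) (J.hθ.add_one_lt (J.cr_lt 0 hθ0)), ?_⟩
    intro ν hν hα
    obtain ⟨h2, h3, h4⟩ := (hZm ν).1 hν
    have h5 : J.cr 0 < ν :=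
      (Order.lt_add_one_iff.2 le_rfl : J.cr 0 < J.cr 0 + 1).trans_le ((le_max_right _ _).trans hα)
    obtain ⟨j, hj, rfl⟩ := PZ2_crit h0 J hB hBlam hι hG hcov hW hord hS h2 h3 h4 h5
    refine h1 j ?_ hj
    by_contra h6
    exact ((le_max_left _ _).trans hα).not_gt (J.cr_mono j i (not_le.1 h6) hi)
  · rintro ⟨α, hα, h1⟩
    refine mem_F_of_nu J hX hXs fun k => ?_
    obtain ⟨l, hl⟩ := J.nu_cof α hα
    refine ⟨2 * (k + l + 1), by omega, h1 _ ?_ (hl.trans (J.nu_mono (by omega))).le⟩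
    rw [hZm]
    obtain ⟨c, hc, hc'⟩ := J.nu_card (2 * (k + l + 1))
    obtain ⟨c0, hc0, hc0'⟩ := J.nu_card 0
    have h2 : c0 < c := by
      have := J.nu_mono (show 0 < 2 * (k + l + 1) by omega)
      rwa [hc0', hc', Cardinal.ord_lt_ord] at this
    refine ⟨hc' ▸ wrg_of_regular hc (hc0.aleph0_le.trans_lt h2), J.nu_lt _, ?_⟩
    rintro ⟨-, h3⟩
    have := (hB _).1 h3
    rw [Nat.odd_iff] at this
    omega

end Pool.Agent.helper797_cs
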