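import Mathlib

/-! # Z3: the cardinals -/

set_option autoImplicit false
namespace Pool.Agent.helper797_cs
open Cardinal Order

/-- the least upper bound of a family of cardinals indexed by the ordinals below `α` -/
noncomputable def pzSup (α : Ordinal.{0}) (r : ∀ β, β < α → Cardinal.{0}) : Cardinal.{0} :=
  sInf {σ | ∀ β (h : β < α), r β h ≤ σ}

theorem pzSup_le {α : Ordinal.{0}} (r : Ordinal.{0} → Cardinal.{0}) {β : Ordinal.{0}}
    (h : β < α) : r β ≤ pzSup α (fun β _ => r β) := by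
  have hne : {σ : Cardinal.{0} | ∀ β (_ : β < α), r β ≤ σ}.Nonempty := by
    have hs : Small.{0} (r '' Set.Iio α) := small_image _ _
    obtain ⟨b, hb⟩ := Cardinal.bddAbove_iff_small.2 hs
    exact ⟨b, fun β hβ => hb ⟨β, hβ, rfl⟩⟩
  exact csInf_mem hne β h

theorem exists_cards {κ : Cardinal.{0}} (hκ : ℵ₀ ≤ κ) :
    ∃ (c : ℕ → Cardinal.{0}) (θ : Ordinal.{0}) (ρ : Ordinal.{0} → Cardinal.{0}),
      (∀ k, (c k).IsRegular) ∧ (∀ k, 2 ^ κ < c k) ∧ StrictMono c ∧ (∀ k, (c k).ord < θ) ∧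
      (∀ α < θ, ∃ k, α < (c k).ord) ∧ (∀ α, (ρ α).IsRegular) ∧ (∀ α, θ.card < ρ α) ∧
      (∀ α β, β < α → ρ β < ρ α) ∧
      ∀ α, ∀ τ : Cardinal.{0}, (∀ σ : Cardinal.{0}, (∀ β < α, ρ β ≤ σ) → τ ≤ σ) →
        τ ^ κ * max ℵ₀ θ.card < ρ α := by
  let c : ℕ → Cardinal.{0} := fun k => (succ)^[k + 1] (2 ^ κ)
  have hcs : ∀ k, c (k + 1) = succ (c k) := fun k => Function.iterate_succ_apply' _ _ _
  have hc0 : c 0 = succ (2 ^ κ) := rfl
  have hmono : StrictMono c := strictMono_nat_of_lt_succ fun k => by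
    rw [hcs]
    exact lt_succ _
  have h2 : ∀ k, 2 ^ κ < c k := fun k =>
    lt_of_lt_of_le (by rw [hc0]; exact lt_succ _) (hmono.monotone (Nat.zero_le k))
  have hinf : ℵ₀ ≤ (2 : Cardinal.{0}) ^ κ := hκ.trans (cantor κ).le
  have hreg : ∀ k, (c k).IsRegular := by
    intro k
    cases k with
    | zero =>
      rw [hc0]
      exact isRegular_succ hinf
    | succ k =>
      rw [hcs]
      exact isRegular_succ (hinf.trans (h2 k).le)
  have hbdd : BddAbove (Set.range fun k => (c k).ord) := Ordinal.bddAbove_of_small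
  let θ : Ordinal.{0} := ⨆ k, (c k).ord
  have hθ : ∀ k, (c k).ord < θ := fun k =>
    lt_of_lt_of_le (ord_lt_ord.2 (hmono (Nat.lt_succ_self k))) (le_ciSup hbdd (k + 1))
  let st : Cardinal.{0} → Cardinal.{0} := fun s =>
    succ (s ^ κ * max ℵ₀ θ.card + s + max ℵ₀ θ.card)
  let ρ : Ordinal.{0} → Cardinal.{0} := Ordinal.lt_wf.fix fun α r => st (pzSup α r)
  have hρ : ∀ α, ρ α = st (pzSup α fun β _ => ρ β) := fun α => Ordinal.lt_wf.fix_eq _ _
  have hst : ∀ s, s < st s := fun s => by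
    refine lt_of_le_of_lt ?_ (lt_succ _)
    exact (le_add_of_nonneg_left zero_le).trans (le_add_of_nonneg_right zero_le)
  have hst1 : ∀ s, s ^ κ * max ℵ₀ θ.card < st s := fun s => by
    refine lt_of_le_of_lt ?_ (lt_succ _)
    exact (le_add_of_nonneg_right zero_le).trans (le_add_of_nonneg_right zero_le)
  have hst2 : ∀ s, max ℵ₀ θ.card ≤ s ^ κ * max ℵ₀ θ.card + s + max ℵ₀ θ.card := fun s =>
    le_add_of_nonneg_left zero_le
  refine ⟨c, θ, ρ, hreg, h2, hmono, hθ, ?_, ?_, ?_, ?_, ?_⟩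
  · intro α hα
    exact exists_lt_of_lt_ciSup hα
  · intro α
    rw [hρ]
    exact isRegular_succ ((le_max_left _ _).trans (hst2 _))
  · intro α
    rw [hρ]
    exact lt_of_le_of_lt ((le_max_right ℵ₀ θ.card).trans (hst2 _)) (lt_succ _)
  · intro α β hβ
    rw [hρ α]
    exact lt_of_le_of_lt (pzSup_le ρ hβ) (hst _)
  · intro α τ hτ
    rw [hρ α]
    have h1 : τ ≤ pzSup α fun β _ => ρ β := hτ _ fun β hβ => pzSup_le ρ hβ
    refine lt_of_le_of_lt ?_ (hst1 _)
    exact mul_le_mul_left (power_le_power_right h1) _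

end Pool.Agent.helper797_cs
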