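import Pool.Agent.helper797_cs.PZ2
import Pool.Agent.helper797_cs.PZ3
import Pool.Agent.helper797_cs.PIter
import Pool.Agent.helper797_cs.PI5
import Pool.Agent.helper797_cs.PI6
import Pool.Agent.helper797_cs.PK5

/-! # Z4: C3.3 of the paper, assembly of part C -/

set_option autoImplicit false
namespace Pool.Agent.helper797_cs
open Pool.Agent.W868 Pool.Agent.R587
open ZFSet (pair)
open Cardinal Order

theorem exists_cnds : ∃ Ψ₀ : Set Mx, Cnds Ψ₀ := by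
  obtain ⟨Ψ, h1, h2, h3, h4⟩ := condensation
  refine ⟨insert ⟨2, .and (.mem 0 1) (.neg (.mem 0 2))⟩ Ψ, ?_, ?_, ?_, ?_, ?_⟩
  · exact h1.insert _
  · intro ψ hψ
    rcases hψ with rfl | hψ
    · exact ⟨trivial, trivial⟩
    · exact in_mono (Set.subset_insert _ _) (h2 ψ hψ)
  · intro ψ hψ
    rcases hψ with rfl | hψ
    · exact ⟨0, _, rfl, trivial⟩
    · exact h3 ψ hψ
  · exact Set.mem_insert _ _
  · intro F ξ hξ X hX
    refine h4 F ξ hξ X ⟨hX.sub, hX.ne, hX.pr, hX.fst, hX.snd, hX.lv, fun ψ hψ => ?_⟩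
    exact hX.sk ψ (Set.mem_insert_of_mem _ hψ)

/-- A sequence of all subsets of `κ`. -/
theorem z4_enum (κ : Cardinal.{0}) : ∃ X : Ordinal.{0} → ZFSet.{0},
    (∀ α, X α ⊆ κ.ord.toZFSet) ∧
    ∀ A, A ⊆ κ.ord.toZFSet → ∃ α < ((2 : Cardinal.{0}) ^ κ).ord, X α = A := by
  set K := κ.ord.toZFSet with hK
  set P := ZFSet.powerset K with hP
  set μ := ((2 : Cardinal.{0}) ^ κ).ord with hμ
  have h1 : #(Shrink.{0} P) = #μ.ToType := by
    have h2 : P.card = 2 ^ κ := by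
      rw [hP, ZFSet.card_powerset, hK, Ordinal.card_toZFSet, card_ord]
    rw [mk_toType, hμ, card_ord, ← h2]
    rfl
  obtain ⟨e⟩ := Cardinal.eq.1 h1
  classical
  let X : Ordinal.{0} → ZFSet.{0} := fun α =>
    if h : α < μ then ((equivShrink P).symm (e.symm (Ordinal.ToType.mk ⟨α, h⟩))).1 else ∅
  refine ⟨X, fun α => ?_, fun A hA => ?_⟩
  · by_cases h : α < μ
    · simp only [X, dif_pos h]
      exact ZFSet.mem_powerset.1 ((equivShrink P).symm (e.symm (Ordinal.ToType.mk ⟨α, h⟩))).2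
    · simp only [X, dif_neg h]
      exact fun z hz => absurd hz (ZFSet.notMem_empty z)
  · have hA' : A ∈ P := ZFSet.mem_powerset.2 hA
    set a := Ordinal.ToType.mk.symm (e (equivShrink P ⟨A, hA'⟩)) with ha
    refine ⟨a.1, a.2, ?_⟩
    simp only [X]
    rw [dif_pos (show a.1 < μ from a.2)]
    have h2 : (⟨a.1, a.2⟩ : Set.Iio μ) = a := rfl
    have h3 : Ordinal.ToType.mk (⟨a.1, a.2⟩ : Set.Iio μ) = e (equivShrink P ⟨A, hA'⟩) := by
      rw [h2, ha]; simp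
    rw [h3]
    simp

/-- The sequence `ρ` of length `μ` as a set of pairs. -/
noncomputable def z4_seq (μ : Ordinal.{0}) (g : Ordinal.{0} → ZFSet.{0}) : ZFSet.{0} :=
  ZFSet.range fun α : Set.Iio μ => pair α.1.toZFSet (g α.1)

theorem z4_mem_seq {μ : Ordinal.{0}} {g : Ordinal.{0} → ZFSet.{0}} {p : ZFSet.{0}} :
    p ∈ z4_seq μ g ↔ ∃ α < μ, p = pair α.toZFSet (g α) := by
  rw [z4_seq, ZFSet.mem_range]
  constructor
  · rintro ⟨α, rfl⟩
    exact ⟨α.1, α.2, rfl⟩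
  · rintro ⟨α, hα, rfl⟩
    exact ⟨⟨α, hα⟩, rfl⟩

section

variable {κ : Cardinal.{0}} {U : ZFSet.{0}} (hU : IsNormalMeasure κ U)

include hU

theorem z4_ae_const {P : Prop} : AE U (fun _ => P) ↔ P := by
  have hs : ∃ s : Finset Ordinal.{0}, Supp s fun _ : Asg => P := ⟨∅, fun _ _ _ => rfl⟩
  constructor
  · intro h
    obtain ⟨x, -, hx⟩ := ae_exists hU h
    exact hx
  · intro h
    exact ae_of_forall hU hs fun _ _ => h

variable {Q : ZFSet.{0}} (hQ : ∀ x ∈ Q, ∀ y ∈ x, y ∈ Q) {θ : Ordinal.{0}} (J : Iter U Q θ)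

omit hU in
theorem z4_ft_const {a : ZFSet.{0}} (ha : a ∈ Q) : IsFT Q θ fun _ : Asg => a :=
  ⟨⟨∅, by simp, fun _ _ _ => rfl⟩, fun _ => ha⟩

theorem z4_em_mem {a b : ZFSet.{0}} (ha : a ∈ Q) (hb : b ∈ Q) : J.em a ∈ J.em b ↔ a ∈ b := by
  unfold Iter.em
  rw [J.mem_iff _ _ (z4_ft_const ha) (z4_ft_const hb)]
  exact z4_ae_const hU

omit hU in
theorem z4_em_R {a : ZFSet.{0}} (ha : a ∈ Q) : J.em a ∈ J.R :=
  (J.mem_R _).2 ⟨_, z4_ft_const ha, rfl⟩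

include hQ

theorem z4_val_pair {f g h : Asg → ZFSet.{0}} (hf : IsFT Q θ f) (hg : IsFT Q θ g)
    (hh : IsFT Q θ h) : J.val h = pair (J.val f) (J.val g) ↔ AE U fun x => h x = pair (f x) (g x) := by
  have h1 := los_db hU hQ J (n := 3) (R := fun v => v 0 = pair (v 1) (v 2))
    (DB.isPair (D0v.proj 0) (D0v.proj 1) (D0v.proj 2)) ![h, f, g] (by
      intro j
      fin_cases j
      · exact hh
      · exact hf
      · exact hg)
  exact h1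

theorem z4_val_pairMem {f g h : Asg → ZFSet.{0}} (hf : IsFT Q θ f) (hg : IsFT Q θ g)
    (hh : IsFT Q θ h) :
    pair (J.val f) (J.val g) ∈ J.val h ↔ AE U fun x => pair (f x) (g x) ∈ h x := by
  have h1 := los_db hU hQ J (n := 3) (R := fun v => pair (v 1) (v 2) ∈ v 0)
    (DB.pairMem (D0v.proj 1) (D0v.proj 2) (D0v.proj 0)) ![h, f, g] (by
      intro j
      fin_cases j
      · exact hh
      · exact hf
      · exact hg)
  exact h1

/-- The second component of a pair in the image of a sequence, the first one is given. -/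
theorem z4_seq_const {μ : Ordinal.{0}} {g : Ordinal.{0} → ZFSet.{0}} (hs : z4_seq μ g ∈ Q)
    {α : Ordinal.{0}} (hα : α < μ) {z : ZFSet.{0}} :
    pair (J.em α.toZFSet) z ∈ J.em (z4_seq μ g) ↔ z = J.em (g α) := by
  have hp : pair α.toZFSet (g α) ∈ Q := hQ _ hs _ (z4_mem_seq.2 ⟨α, hα, rfl⟩)
  have hp' : ({α.toZFSet, g α} : ZFSet.{0}) ∈ Q := hQ _ hp _ (by simp [pair])
  have hαQ : α.toZFSet ∈ Q := hQ _ hp' _ (by simp)
  have hgQ : g α ∈ Q := hQ _ hp' _ (by simp)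
  constructor
  · intro h
    have hz : z ∈ J.R := by
      have h1 := J.trans _ (z4_em_R J hs) _ h
      have h2 := J.trans _ h1 {J.em α.toZFSet, z} (by simp [pair])
      exact J.trans _ h2 _ (by simp)
    obtain ⟨f, hf, rfl⟩ := (J.mem_R _).1 hz
    have h1 := (z4_val_pairMem hU hQ J (z4_ft_const hαQ) hf (z4_ft_const hs)).1 h
    unfold Iter.em
    rw [J.eq_iff _ _ hf (z4_ft_const hgQ)]
    obtain ⟨s, -, hsf⟩ := hf.1
    refine ae_mono hU ⟨s, fun x y hxy => by beta_reduce; rw [hsf x y hxy]⟩ (fun x _ hx => ?_) h1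
    obtain ⟨β, -, hβ⟩ := z4_mem_seq.1 hx
    obtain ⟨h2, h3⟩ := ZFSet.pair_inj.1 hβ
    rw [h3, Ordinal.toZFSet_injective h2]
  · rintro rfl
    refine (z4_val_pairMem hU hQ J (z4_ft_const hαQ) (z4_ft_const hgQ)
      (z4_ft_const hs)).2 ?_
    exact (z4_ae_const hU).2 (z4_mem_seq.2 ⟨α, hα, rfl⟩)

/-- A pair in the image of a sequence. -/
theorem z4_seq_mem {μ : Ordinal.{0}} {g : Ordinal.{0} → ZFSet.{0}} (hs : z4_seq μ g ∈ Q)
    {b z : ZFSet.{0}} (h : pair b z ∈ J.em (z4_seq μ g)) :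
    ∃ k : Asg → Ordinal.{0}, (∀ x, k x < μ) ∧ IsFT Q θ (fun x => (k x).toZFSet) ∧
      IsFT Q θ (fun x => g (k x)) ∧ b = J.val (fun x => (k x).toZFSet) ∧
      z = J.val (fun x => g (k x)) := by
  have hpQ : ∀ α < μ, α.toZFSet ∈ Q ∧ g α ∈ Q := by
    intro α hα
    have hp : pair α.toZFSet (g α) ∈ Q := hQ _ hs _ (z4_mem_seq.2 ⟨α, hα, rfl⟩)
    have hp' : ({α.toZFSet, g α} : ZFSet.{0}) ∈ Q := hQ _ hp _ (by simp [pair])
    exact ⟨hQ _ hp' _ (by simp), hQ _ hp' _ (by simp)⟩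
  have hpR := J.trans _ (z4_em_R J hs) _ h
  have hbz : b ∈ J.R ∧ z ∈ J.R := by
    have h2 := J.trans _ hpR {b, z} (by simp [pair])
    exact ⟨J.trans _ h2 _ (by simp), J.trans _ h2 _ (by simp)⟩
  obtain ⟨f₁, hf₁, rfl⟩ := (J.mem_R _).1 hbz.1
  obtain ⟨f₂, hf₂, rfl⟩ := (J.mem_R _).1 hbz.2
  have h1 := (z4_val_pairMem hU hQ J hf₁ hf₂ (z4_ft_const hs)).1 h
  obtain ⟨x₀, -, hx₀⟩ := ae_exists hU h1
  obtain ⟨α₀, hα₀, -⟩ := z4_mem_seq.1 hx₀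
  classical
  let k : Asg → Ordinal.{0} := fun x =>
    if h : ∃ α < μ, f₁ x = α.toZFSet then h.choose else α₀
  have hk : ∀ x, k x < μ := by
    intro x
    by_cases hx : ∃ α < μ, f₁ x = α.toZFSet
    · simp only [k, dif_pos hx]
      exact hx.choose_spec.1
    · simp only [k, dif_neg hx]
      exact hα₀
  obtain ⟨s₁, hs₁, hs₁'⟩ := hf₁.1
  obtain ⟨s₂, hs₂, hs₂'⟩ := hf₂.1
  have hks : Supp s₁ k := by
    intro x y hxy
    simp only [k]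
    rw [hs₁' x y hxy]
  have hk1 : ∀ x, pair (f₁ x) (f₂ x) ∈ z4_seq μ g →
      f₁ x = (k x).toZFSet ∧ f₂ x = g (k x) := by
    intro x hx
    obtain ⟨α, hα, hp⟩ := z4_mem_seq.1 hx
    obtain ⟨h2, h3⟩ := ZFSet.pair_inj.1 hp
    have hx' : ∃ α < μ, f₁ x = α.toZFSet := ⟨α, hα, h2⟩
    have h4 : f₁ x = (k x).toZFSet := by
      simp only [k, dif_pos hx']
      exact hx'.choose_spec.2
    have h5 : α = k x := Ordinal.toZFSet_injective (h2.symm.trans h4)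
    exact ⟨h4, by rw [h3, h5]⟩
  have ft1 : IsFT Q θ (fun x => (k x).toZFSet) :=
    ⟨⟨s₁, hs₁, fun x y hxy => by beta_reduce; rw [hks x y hxy]⟩, fun x => (hpQ _ (hk x)).1⟩
  have ft2 : IsFT Q θ (fun x => g (k x)) :=
    ⟨⟨s₁, hs₁, fun x y hxy => by beta_reduce; rw [hks x y hxy]⟩, fun x => (hpQ _ (hk x)).2⟩
  refine ⟨k, hk, ft1, ft2, ?_, ?_⟩
  · rw [J.eq_iff _ _ hf₁ ft1]
    refine ae_mono hU ⟨s₁, fun x y hxy => by beta_reduce; rw [hs₁' x y hxy, hks x y hxy]⟩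
      (fun x _ hx => (hk1 x hx).1) h1
  · rw [J.eq_iff _ _ hf₂ ft2]
    refine ae_mono hU ⟨s₁ ∪ s₂, fun x y hxy => ?_⟩ (fun x _ hx => (hk1 x hx).2) h1
    beta_reduce
    rw [hs₂' x y fun i hi => hxy i (Finset.mem_union_right _ hi),
      hks x y fun i hi => hxy i (Finset.mem_union_left _ hi)]

end

/-- The components of the elements of a sequence. -/
theorem z4_seq_sub {Q : ZFSet.{0}} (hQ : ∀ x ∈ Q, ∀ y ∈ x, y ∈ Q) {μ : Ordinal.{0}}
    {g : Ordinal.{0} → ZFSet.{0}} (hs : z4_seq μ g ∈ Q) {α : Ordinal.{0}} (hα : α < μ) :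
    α.toZFSet ∈ Q ∧ g α ∈ Q := by
  have hp : pair α.toZFSet (g α) ∈ Q := hQ _ hs _ (z4_mem_seq.2 ⟨α, hα, rfl⟩)
  have hp' : ({α.toZFSet, g α} : ZFSet.{0}) ∈ Q := hQ _ hp _ (by simp [pair])
  exact ⟨hQ _ hp' _ (by simp), hQ _ hp' _ (by simp)⟩

/-- The decoding. `W` contains the iterate, so it contains `em` of a sequence of all subsets of `κ`
and of the sequence `ρ`, and it can decide which ordinals below `em μ` are of the form `em α`. -/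
theorem U_mem {κ : Cardinal.{0}} {U : ZFSet.{0}} (hU : IsNormalMeasure κ U) (hV : VLU U) :
    ∃ (lam : Cardinal.{0}) (I : Type) (ρ : I → Cardinal.{0}), ℵ₀ ≤ lam ∧ #I = lam ∧
      (∀ i, (ρ i).IsRegular ∧ lam < ρ i) ∧
      ∀ W : Set ZFSet.{0}, IsZF W → (∀ α : Ordinal.{0}, α.toZFSet ∈ W) →
        (∀ δ, SBs (Bset lam ρ) δ ∈ W) → U ∈ W := by
  have hκ : ℵ₀ ≤ κ := hU.uncountable.le
  obtain ⟨c, θ, ρ', hc, hcκ, hmono, hcθ, hcof, hρreg, hθρ, hρmono, hgr⟩ := exists_cards hκ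
  set μ := ((2 : Cardinal.{0}) ^ κ).ord with hμ
  have hlam : ℵ₀ ≤ (2 : Cardinal.{0}) ^ κ := hκ.trans (cantor κ).le
  have hcθ' : ∀ k, c k ≤ θ.card := fun k => ord_le.1 (hcθ k).le
  have hlθ : (2 : Cardinal.{0}) ^ κ < θ.card := (hcκ 0).trans_le (hcθ' 0)
  have hlρ : ∀ α, (2 : Cardinal.{0}) ^ κ < ρ' α := fun α => hlθ.trans (hθρ α)
  have hκρ : ∀ α, κ < ρ' α := fun α => (cantor κ).trans (hlρ α)
  refine ⟨2 ^ κ, ℕ ⊕ μ.ToType,
    Sum.elim (fun k => c (2 * k + 1)) (fun a => ρ' (Ordinal.ToType.toOrd a).1), hlam, ?_, ?_, ?_⟩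
  · rw [mk_sum, mk_nat, mk_toType, hμ, card_ord, lift_id, lift_id, add_eq_right hlam hlam]
  · rintro (k | a)
    · exact ⟨hc _, hcκ _⟩
    · exact ⟨hρreg _, hlρ _⟩
  intro W hW hord hS
  set ρ : ℕ ⊕ μ.ToType → Cardinal.{0} :=
    Sum.elim (fun k => c (2 * k + 1)) (fun a => ρ' (Ordinal.ToType.toOrd a).1) with hρ
  set B := Bset (2 ^ κ) ρ with hBdef
  obtain ⟨X, hX1, hX2⟩ := z4_enum κ
  rw [← hμ] at hX2
  set K := κ.ord.toZFSet with hK
  -- the level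
  obtain ⟨ξ₁, hξ₁⟩ := ks_all hV U
  obtain ⟨ξ₂, hξ₂⟩ := ks_all hV (ZFSet.powerset (KS U κ.ord))
  obtain ⟨ξ₃, hξ₃⟩ := ks_all hV (z4_seq μ X)
  obtain ⟨ξ₄, hξ₄⟩ := ks_all hV (z4_seq μ fun α => (ρ' α).ord.toZFSet)
  set δ₀ := max (max ξ₁ ξ₂) (max ξ₃ ξ₄) + Ordinal.omega0 with hδ₀d
  have hδ₀ : IsSuccLimit δ₀ := Ordinal.isSuccLimit_add _ Ordinal.isSuccLimit_omega0
  have hle : max (max ξ₁ ξ₂) (max ξ₃ ξ₄) ≤ δ₀ := le_self_add
  have hUQ : U ∈ KS U δ₀ :=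
    ks_mono (((le_max_left _ _).trans (le_max_left _ _)).trans hle) hξ₁
  have hpQ : ZFSet.powerset (KS U κ.ord) ∈ KS U δ₀ :=
    ks_mono (((le_max_right _ _).trans (le_max_left _ _)).trans hle) hξ₂
  have hxs : z4_seq μ X ∈ KS U δ₀ :=
    ks_mono (((le_max_left _ _).trans (le_max_right _ _)).trans hle) hξ₃
  have hcs : z4_seq μ (fun α => (ρ' α).ord.toZFSet) ∈ KS U δ₀ :=
    ks_mono (((le_max_right _ _).trans (le_max_right _ _)).trans hle) hξ₄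
  have hQ : ∀ x ∈ KS U δ₀, ∀ y ∈ x, y ∈ KS U δ₀ := ks_trans δ₀
  have hsub : ∀ g, g ⊆ KS U κ.ord → g ∈ KS U δ₀ := fun g hg =>
    hQ _ hpQ _ (ZFSet.mem_powerset.2 hg)
  have hKQ : K ∈ KS U δ₀ := hQ _ hUQ _ hU.univ
  have hXQ : ∀ α < μ, X α ∈ KS U δ₀ := fun α hα => (z4_seq_sub hQ hxs hα).2
  have hρQ' : ∀ α < μ, (ρ' α).ord.toZFSet ∈ KS U δ₀ := fun α hα => (z4_seq_sub hQ hcs hα).2
  have hρQ : ∀ α < μ, (ρ' α).ord < δ₀ := fun α hα => (ks_ord hδ₀).1 (hρQ' α hα)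
  -- the iterate
  have hθ0 : 0 < θ := bot_le.trans_lt (hcθ 0)
  have hθl : IsSuccLimit θ := by
    rw [Ordinal.isSuccLimit_iff]
    refine ⟨hθ0.ne', isSuccPrelimit_of_succ_lt fun a ha => ?_⟩
    obtain ⟨k, hk⟩ := hcof a ha
    exact ((isSuccLimit_ord (hc k).aleph0_le).succ_lt hk).trans (hcθ k)
  obtain ⟨J⟩ := exists_iter hU hQ ⟨U, hUQ⟩ θ
  obtain ⟨-, δ, T, hR, hRl, hcr, hnu⟩ := exists_IT hU hδ₀ hUQ J hc hcκ hmono hcθ hcof
  obtain ⟨ι, G, hι, hG, hcov⟩ := iter_cover hU hδ₀ hUQ J hθl hsub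
  obtain ⟨Ψ₀, h0⟩ := exists_cnds
  have hB : ∀ k, B (T.nu k).cof ↔ Odd k := by
    intro k
    rw [hnu, (hc k).cof_ord, hBdef]
    constructor
    · rintro (h1 | ⟨i | a, h1⟩)
      · exact absurd h1 (not_le.2 (hcκ k))
      · have h2 : k = 2 * i + 1 := hmono.injective h1
        exact ⟨i, h2⟩
      · have h2 : c k = ρ' (Ordinal.ToType.toOrd a).1 := h1
        exact absurd ((hcθ' k).trans_lt (hθρ _)) (by rw [h2]; exact lt_irrefl _)
    · rintro ⟨i, rfl⟩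
      exact Or.inr ⟨Sum.inl i, rfl⟩
  have hRW : KS (J.em U) δ ∈ W := by
    refine C32 h0 T hB hlam (fun c hc => Or.inl hc) hι (G := G)
      (fun a => ⟨hR ▸ (hG a).1, (hG a).2⟩) ?_ hW hord (hS θ)
    intro i hi α hα
    rw [hcr] at hα ⊢
    exact hcov i hi α hα
  have hRW' : J.R ∈ W := hR ▸ hRW
  have emW : ∀ a ∈ KS U δ₀, J.em a ∈ W := fun a ha => hW.trans _ hRW' _ (z4_em_R J ha)
  -- decoding
  have hdec : ∀ b z, pair b z ∈ J.em (z4_seq μ fun α => (ρ' α).ord.toZFSet) → z ∈ SBs B δ →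
      ∃ α < μ, b = J.em α.toZFSet := by
    intro b z hbz hz
    obtain ⟨-, γ, rfl, hγ1, hγ2⟩ := ZFSet.mem_sep.1 hz
    obtain ⟨k, hk, ft1, ft2, rfl, h2⟩ := z4_seq_mem hU hQ J hcs hbz
    rcases decode hU hδ₀ hUQ J (m := μ) (ρ := ρ') (fun α _ => hρreg α) (fun α _ => hθρ α)
      (fun α _ => hκρ α) (fun α _ β hβ => hρmono α β hβ) (fun α _ => hgr α) hρQ hk ft1 h2.symm
      with ⟨α, hα, h3, -⟩ | ⟨-, h3, h4⟩
    · refine ⟨α, hα, ?_⟩
      unfold Iter.em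
      rw [J.eq_iff _ _ ft1 (z4_ft_const (z4_seq_sub hQ hcs hα).1)]
      obtain ⟨s, -, hs⟩ := ft1.1
      refine ae_mono hU ⟨s, fun x y hxy => congrArg (· = α.toZFSet) (hs x y hxy)⟩
        (fun x _ hx => ?_) h3
      rw [hx]
    · exfalso
      rcases hγ2 with h5 | ⟨i | a, h5⟩
      · exact absurd (h5.trans_lt hlθ) (not_lt.2 h3.le)
      · have h6 : γ.cof = c (2 * i + 1) := h5
        rw [h6] at h3
        exact absurd h3 (not_lt.2 (hcθ' _))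
      · exact h4 _ (Ordinal.ToType.toOrd a).2 h5
  have hdec' : ∀ α < μ, ∃ z ∈ SBs B δ,
      pair (J.em α.toZFSet) z ∈ J.em (z4_seq μ fun α => (ρ' α).ord.toZFSet) := by
    intro α hα
    refine ⟨J.em (ρ' α).ord.toZFSet, ?_, (z4_seq_const hU hQ J hcs hα).2 rfl⟩
    obtain ⟨η, hη⟩ := iter_ord hU hδ₀ hUQ J (g := fun _ => (ρ' α).ord)
      (z4_ft_const (hρQ' α hα))
    have h1 : J.em (ρ' α).ord.toZFSet = η.toZFSet := hη
    have h2 : η.toZFSet ∈ KS (J.em U) δ := by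
      rw [← h1, ← hR]
      exact z4_em_R J (hρQ' α hα)
    have h3 := cof_em hU hδ₀ hUQ J (hρreg α) (hκρ α) (hρQ α hα) h1
    rw [h1]
    refine ZFSet.mem_sep.2 ⟨Ordinal.toZFSet_mem_toZFSet_iff.2 (ks_ord_le h2), η, rfl, ?_, ?_⟩
    · rw [h3]; exact (hρreg α).aleph0_le
    · rw [h3]
      refine Or.inr ⟨Sum.inr (Ordinal.ToType.mk ⟨α, hα⟩), ?_⟩
      simp [hρ]
  have hcap : ∀ A ∈ KS U δ₀, A ⊆ K → ZFSet.sep (fun z => z ∈ K) (J.em A) = A := by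
    intro A hA hAK
    ext z
    rw [ZFSet.mem_sep]
    constructor
    · rintro ⟨h1, h2⟩
      obtain ⟨β, hβ, rfl⟩ := Ordinal.mem_toZFSet_iff.1 h2
      rw [← em_lt hU hδ₀ hUQ J hθ0 hβ] at h1
      exact (z4_em_mem hU J (hQ _ hKQ _ h2) hA).1 h1
    · intro h1
      have h2 := hAK h1
      refine ⟨?_, h2⟩
      obtain ⟨β, hβ, rfl⟩ := Ordinal.mem_toZFSet_iff.1 h2
      rw [← em_lt hU hδ₀ hUQ J hθ0 hβ]
      exact (z4_em_mem hU J (hQ _ hKQ _ h2) hA).2 h1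
  -- the set `U` in `W`
  have hU' : im (fun Z => ZFSet.sep (fun z => z ∈ K) Z)
      (ZFSet.sep (fun Z => Z ∈ J.em U ∧ ∃ b ∈ J.R, ∃ z ∈ SBs B δ,
        pair b z ∈ J.em (z4_seq μ fun α => (ρ' α).ord.toZFSet) ∧
        pair b Z ∈ J.em (z4_seq μ X)) J.R) = U := by
    ext A
    rw [mem_im]
    constructor
    · rintro ⟨Z, hZ, rfl⟩
      obtain ⟨hZR, hZF, b, hb, z, hz, h1, h2⟩ := ZFSet.mem_sep.1 hZ
      obtain ⟨α, hα, rfl⟩ := hdec b z h1 hz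
      have h3 := (z4_seq_const hU hQ J hxs hα).1 h2
      subst h3
      rw [hcap _ (hXQ α hα) (hX1 α)]
      exact (z4_em_mem hU J (hXQ α hα) hUQ).1 hZF
    · intro hA
      obtain ⟨α, hα, rfl⟩ := hX2 A (hU.sub A hA)
      obtain ⟨z, hz, h1⟩ := hdec' α hα
      refine ⟨J.em (X α), ZFSet.mem_sep.2 ⟨z4_em_R J (hXQ α hα),
        (z4_em_mem hU J (hXQ α hα) hUQ).2 hA, J.em α.toZFSet,
        z4_em_R J (z4_seq_sub hQ hcs hα).1, z, hz, h1, (z4_seq_const hU hQ J hxs hα).2 rfl⟩, ?_⟩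
      exact (hcap _ (hXQ α hα) (hX1 α)).symm
  have hB0 := hW.base
  have hKW : K ∈ W := hord _
  have c1 := emW _ hUQ
  have c2 := hS δ
  have c3 := emW _ hcs
  have c4 := emW _ hxs
  rw [← hU']
  refine hW.im_mem (hW.sep_mem ?_ hRW') ?_
  · (repeat' first
      | assumption
      | exact DfnF.proj _
      | exact DfnF.const (by assumption)
      | apply Dfn.and
      | apply hB0.bex
      | apply Dfn.mem | apply hB0.pair')
  · exact hW.sep' (F := fun w : Fin 1 → ZFSet.{0} => w 0) (DfnF.proj 0) (Q := fun z _ => z ∈ K)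
      (Dfn.mem (DfnF.proj 0) (DfnF.const hKW))

end Pool.Agent.helper797_cs
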