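import Pool.Agent.helper797_cs.MDefs

/-!
# The argument in the inner model: definitions
-/

set_option autoImplicit false

namespace Pool.Agent.helper797_cs

open Pool.Agent.W868 Pool.Agent.R587
open ZFSet (pair)
open Cardinal Order

/-- `ν` is regular with respect to the functions in `W`. -/
def WRg (W : Set ZFSet.{0}) (ν : Ordinal.{0}) : Prop :=
  IsSuccLimit ν ∧ ∀ γ < ν, IsSuccLimit γ → ∀ f ∈ W, Fnl f →
    (∀ p ∈ f, ∃ x ∈ KS ∅ γ, ∃ α < ν, p = pair x α.toZFSet) →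
    ∃ η < ν, ∀ (x : ZFSet.{0}) (α : Ordinal.{0}), pair x α.toZFSet ∈ f → α < η

/-- `X` contains a tail of `Z`. -/
def Tail (θ : Ordinal.{0}) (Z X : ZFSet.{0}) : Prop :=
  ∃ α < θ, ∀ ν : Ordinal.{0}, ν.toZFSet ∈ Z → α ≤ ν → ν.toZFSet ∈ X

/-- The subsets of `θ` in `W` that contain a tail of `Z`. -/
noncomputable def TF (W : Set ZFSet.{0}) (θ : Ordinal.{0}) (Z : ZFSet.{0}) : ZFSet.{0} :=
  ZFSet.sep (fun X => X ∈ W ∧ Tail θ Z X) (ZFSet.powerset θ.toZFSet)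

/-- The `W`-regular ordinals below `θ`. -/
noncomputable def RgS (W : Set ZFSet.{0}) (θ : Ordinal.{0}) : ZFSet.{0} :=
  ZFSet.sep (fun z => ∃ ν : Ordinal.{0}, z = ν.toZFSet ∧ WRg W ν) θ.toZFSet

end Pool.Agent.helper797_cs
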